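import Pool.Agent.R596.Step
import Pool.Agent.H310R3.Perm

/-!
# Counting at the finite stages
-/

set_option maxHeartbeats 400000
set_option linter.all false

namespace Pool.Agent.R596

open FirstOrder FirstOrder.Language
open Pool.Agent.Helper672.ZFA
open Pool.Agent.H310
open Pool.Agent.W924

universe u u₁ u₂ u₃ u₄

variable {M : Type u} [L.Structure M] [hM : IsModel M]
variable {α : Type u₁} {ι : Type u₂} [ITy M α] [ITy M ι]

theorem seven {ι : Type u₂} {d : Fin 7 → ι} (hd : Function.Injective d) (L : List ι)
    (hL : L.length ≤ 6) (h : ∀ k, d k ∈ L) : False := by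
  classical
  have h1 : Finset.univ.image d ⊆ L.toFinset := by
    intro x hx
    obtain ⟨k, _, rfl⟩ := Finset.mem_image.1 hx
    exact List.mem_toFinset.2 (h k)
  have h2 := Finset.card_le_card h1
  rw [Finset.card_image_of_injective _ hd, Finset.card_univ, Fintype.card_fin] at h2
  have h3 := L.toFinset_card_le
  omega

theorem big {s : IPow M (ι × (α ⊕ IPm M α))} {d : Fin 7 → ι} (hd : Function.Injective d)
    (hdd : ∀ k, dm s (d k)) (L : List ι) (hL : L.length ≤ 6) : ∃ w, dm s w ∧ w ∉ L := by
  by_contra h
  push Not at h
  exact seven hd L hL fun k => h _ (hdd k)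

/-- An internal injection of a finite set into itself is surjective. -/
theorem fin_surj {p : ι → Prop} (hp : FinP M p) {g : ι → ι} (hg : IntF M g)
    (hpg : ∀ x, p x → p (g x)) (hinj : ∀ x y, p x → p y → g x = g y → x = y) (hpI : Int M p)
    {a : ι} (ha : p a) : ∃ x, p x ∧ g x = a := by
  by_contra hc
  push Not at hc
  have hI := int_itr hg
  have h1 : ∀ n : INat M, p (itr g n a) := by
    refine INat.ind (p := fun n : INat M => p (itr g n a)) (by (repeat' (first | with_reducible exact IntF.id | with_reducible exact IntF.fst' | with_reducible exact IntF.snd' | with_reducible exact IntF.const _ | with_reducible exact Int.const _ | assumption | with_reducible apply Int.and | with_reducible apply Int.or | with_reducible apply Int.not | with_reducible apply Int.imp | with_reducible apply Int.iff | with_reducible apply Int.ne | with_reducible apply Int.eq | with_reducible apply Int.mem | with_reducible apply Int.subset | with_reducible apply Int.ltN | with_reducible apply Int.leN | with_reducible apply Int.fin | with_reducible apply Int.unique | with_reducible apply Int.all | with_reducible apply Int.ex | with_reducible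 apply IntF.fst | with_reducible apply IntF.snd | with_reducible apply IntF.app | with_reducible apply IntF.ite | with_reducible apply IntF.sep | with_reducible apply IntF.lam | with_reducible apply IntF.insert | with_reducible apply IntF.singleton | with_reducible apply IntF.union | with_reducible apply IntF.inter | with_reducible apply IntF.sdiff | with_reducible apply IntF.isUnion | with_reducible apply IntF.iimage | with_reducible apply IntF.the | with_reducible apply IntF.irec | with_reducible_and_instances apply IntF.add | with_reducible_and_instances apply IntF.mul | with_reducible apply IntF.succ | with_reducible apply IntF.val | (with_reducible refine Int.comp ?_ ?_; assumption) | (with_reducible refine Int.comp₂ ?_ ?_ ?_; assumption) | (with_reducible refine Int.comp₃ ?_ ?_ ?_ ?_; assumption) | (with_reducible refine Int.comp₄ ?_ ?_ ?_ ?_ ?_; assumption) | (with_reducible refine IntF.comp ?_ ?_; assumption) | (with_reducible refine IntF.comp₂ ?_ ?_ ?_; assumption) | (with_reducible refine IntF.comp₃ ?_ ?_ ?_ ?_; assumption) | with_reducible apply IntF.inl | with_reducible apply IntF.inr | with_reducible apply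 IntF.pair))) ?_ ?_
    · rw [itr_zero hg]
      exact ha
    · intro n ih
      rw [itr_succ hg]
      exact hpg _ ih
  have h2 : ∀ m, ∀ n : INat M, m < n → itr g m a ≠ itr g n a := by
    refine INat.ind (p := fun m : INat M => ∀ n : INat M, m < n → itr g m a ≠ itr g n a)
      (by (repeat' (first | with_reducible exact IntF.id | with_reducible exact IntF.fst' | with_reducible exact IntF.snd' | with_reducible exact IntF.const _ | with_reducible exact Int.const _ | assumption | with_reducible apply Int.and | with_reducible apply Int.or | with_reducible apply Int.not | with_reducible apply Int.imp | with_reducible apply Int.iff | with_reducible apply Int.ne | with_reducible apply Int.eq | with_reducible apply Int.mem | with_reducible apply Int.subset | with_reducible apply Int.ltN | with_reducible apply Int.leN | with_reducible apply Int.fin | with_reducible apply Int.unique | with_reducible apply Int.all | with_reducible apply Int.ex | with_reducible apply IntF.fst | with_reducible apply IntF.snd | with_reducible apply IntF.app | with_reducible apply IntF.ite | with_reducible apply IntF.sep | with_reducible apply IntF.lam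 | with_reducible apply IntF.insert | with_reducible apply IntF.singleton | with_reducible apply IntF.union | with_reducible apply IntF.inter | with_reducible apply IntF.sdiff | with_reducible apply IntF.isUnion | with_reducible apply IntF.iimage | with_reducible apply IntF.the | with_reducible apply IntF.irec | with_reducible_and_instances apply IntF.add | with_reducible_and_instances apply IntF.mul | with_reducible apply IntF.succ | with_reducible apply IntF.val | (with_reducible refine Int.comp ?_ ?_; assumption) | (with_reducible refine Int.comp₂ ?_ ?_ ?_; assumption) | (with_reducible refine Int.comp₃ ?_ ?_ ?_ ?_; assumption) | (with_reducible refine Int.comp₄ ?_ ?_ ?_ ?_ ?_; assumption) | (with_reducible refine IntF.comp ?_ ?_; assumption) | (with_reducible refine IntF.comp₂ ?_ ?_ ?_; assumption) | (with_reducible refine IntF.comp₃ ?_ ?_ ?_ ?_; assumption) | with_reducible apply IntF.inl | with_reducible apply IntF.inr | with_reducible apply IntF.pair))) ?_ ?_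
    · intro n hn
      rcases INat.eq_zero_or_succ n with rfl | ⟨k, rfl⟩
      · exact absurd hn (lt_irrefl _)
      · rw [itr_zero hg, itr_succ hg]
        exact fun h => hc _ (h1 k) h.symm
    · intro m ih n hn
      rcases INat.eq_zero_or_succ n with rfl | ⟨k, rfl⟩
      · exact absurd hn INat.not_lt_zero
      · rw [itr_succ hg, itr_succ hg]
        intro h
        refine ih k ?_ (hinj _ _ (h1 m) (h1 k) h)
        rw [← INat.succ_le_iff]
        exact INat.lt_succ_iff.1 hn
  refine not_finP_nat (M := M) (FinP.of_inj (p := fun _ : INat M => True)
    (f := fun n => itr g n a) (Int.const _) (by (repeat' (first | with_reducible exact IntF.id | with_reducible exact IntF.fst' | with_reducible exact IntF.snd' | with_reducible exact IntF.const _ | with_reducible exact Int.const _ | assumption | with_reducible apply Int.and | with_reducible apply Int.or | with_reducible apply Int.not | with_reducible apply Int.imp | with_reducible apply Int.iff | with_reducible apply Int.ne | with_reducible apply Int.eq | with_reducible apply Int.mem | with_reducible apply Int.subset | with_reducible apply Int.ltN | with_reducible apply Int.leN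 | with_reducible apply Int.fin | with_reducible apply Int.unique | with_reducible apply Int.all | with_reducible apply Int.ex | with_reducible apply IntF.fst | with_reducible apply IntF.snd | with_reducible apply IntF.app | with_reducible apply IntF.ite | with_reducible apply IntF.sep | with_reducible apply IntF.lam | with_reducible apply IntF.insert | with_reducible apply IntF.singleton | with_reducible apply IntF.union | with_reducible apply IntF.inter | with_reducible apply IntF.sdiff | with_reducible apply IntF.isUnion | with_reducible apply IntF.iimage | with_reducible apply IntF.the | with_reducible apply IntF.irec | with_reducible_and_instances apply IntF.add | with_reducible_and_instances apply IntF.mul | with_reducible apply IntF.succ | with_reducible apply IntF.val | (with_reducible refine Int.comp ?_ ?_; assumption) | (with_reducible refine Int.comp₂ ?_ ?_ ?_; assumption) | (with_reducible refine Int.comp₃ ?_ ?_ ?_ ?_; assumption) | (with_reducible refine Int.comp₄ ?_ ?_ ?_ ?_ ?_; assumption) | (with_reducible refine IntF.comp ?_ ?_; assumption) | (with_reducible refine IntF.comp₂ ?_ ?_ ?_; assumption) | (with_reducible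 refine IntF.comp₃ ?_ ?_ ?_ ?_; assumption) | with_reducible apply IntF.inl | with_reducible apply IntF.inr | with_reducible apply IntF.pair))) (fun m n _ _ h => ?_) hp fun n _ => h1 n)
  rcases lt_trichotomy m n with h3 | h3 | h3
  · exact absurd h (h2 m n h3)
  · exact h3
  · exact absurd h.symm (h2 n m h3)

/-- Codes of the 3-cycles of points. -/
def CdA (lt : ι → ι → Prop) (s : IPow M (ι × (α ⊕ IPm M α))) (σ : IPm M α) (B : IPow M ι) :
    Prop :=
  ∃ i j k x y z, elt s i x ∧ elt s j y ∧ elt s k z ∧ C3 σ x y z ∧ lt i j ∧ lt i k ∧
    ((lt j k ∧ ∀ w, w ∈ B ↔ w = i ∨ w = j ∨ w = k) ∨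
      (lt k j ∧ ∀ w, w ∈ B ↔ dm s w ∧ ¬ w = i ∧ ¬ w = j ∧ ¬ w = k))

/-- Codes of the 3-cycles of the family and their inverses. -/
def CdB (lt : ι → ι → Prop) (s : IPow M (ι × (α ⊕ IPm M α))) (σ : IPm M α) (B : IPow M ι) :
    Prop :=
  ∃ (i : ι) (ρ : IPm M α), cyc' s i ρ ∧ ((σ = ρ ∧ ∀ w, w ∈ B ↔ dm s w ∧ ¬ w = i) ∨
    ((∀ x, σ.1 (ρ.1 x) = x) ∧ (((∀ j, ¬ lt j i) ∧ ∀ w, w ∈ B ↔ dm s w) ∨
      ((¬ ∀ j, ¬ lt j i) ∧ ∃ i₀, (∀ j, ¬ lt j i₀) ∧ ∀ w, w ∈ B ↔ w = i₀ ∨ w = i))))

theorem int_CdA {lt : ι → ι → Prop} (hl : Int M (fun q : ι × ι => lt q.1 q.2)) :
    Int M (fun q : (IPow M (ι × (α ⊕ IPm M α)) × IPm M α) × IPow M ι =>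
      CdA lt q.1.1 q.1.2 q.2) := by
  have h1 := int_elt (M := M) (α := α) (ι := ι)
  have h2 := int_C3 (M := M) (α := α)
  have h3 := int_dm (M := M) (α := α) (ι := ι)
  unfold CdA
  (repeat' (first | with_reducible exact IntF.id | with_reducible exact IntF.fst' | with_reducible exact IntF.snd' | with_reducible exact IntF.const _ | with_reducible exact Int.const _ | assumption | with_reducible apply Int.and | with_reducible apply Int.or | with_reducible apply Int.not | with_reducible apply Int.imp | with_reducible apply Int.iff | with_reducible apply Int.ne | with_reducible apply Int.eq | with_reducible apply Int.mem | with_reducible apply Int.subset | with_reducible apply Int.ltN | with_reducible apply Int.leN | with_reducible apply Int.fin | with_reducible apply Int.unique | with_reducible apply Int.all | with_reducible apply Int.ex | with_reducible apply IntF.fst | with_reducible apply IntF.snd | with_reducible apply IntF.app | with_reducible apply IntF.ite | with_reducible apply IntF.sep | with_reducible apply IntF.lam | with_reducible apply IntF.insert | with_reducible apply IntF.singleton | with_reducible apply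 IntF.union | with_reducible apply IntF.inter | with_reducible apply IntF.sdiff | with_reducible apply IntF.isUnion | with_reducible apply IntF.iimage | with_reducible apply IntF.the | with_reducible apply IntF.irec | with_reducible_and_instances apply IntF.add | with_reducible_and_instances apply IntF.mul | with_reducible apply IntF.succ | with_reducible apply IntF.val | (with_reducible refine Int.comp ?_ ?_; assumption) | (with_reducible refine Int.comp₂ ?_ ?_ ?_; assumption) | (with_reducible refine Int.comp₃ ?_ ?_ ?_ ?_; assumption) | (with_reducible refine Int.comp₄ ?_ ?_ ?_ ?_ ?_; assumption) | (with_reducible refine IntF.comp ?_ ?_; assumption) | (with_reducible refine IntF.comp₂ ?_ ?_ ?_; assumption) | (with_reducible refine IntF.comp₃ ?_ ?_ ?_ ?_; assumption) | with_reducible apply IntF.inl | with_reducible apply IntF.inr | with_reducible apply IntF.pair))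

theorem int_CdB {lt : ι → ι → Prop} (hl : Int M (fun q : ι × ι => lt q.1 q.2)) :
    Int M (fun q : (IPow M (ι × (α ⊕ IPm M α)) × IPm M α) × IPow M ι =>
      CdB lt q.1.1 q.1.2 q.2) := by
  have h1 := int_cyc' (M := M) (α := α) (ι := ι)
  have h3 := int_dm (M := M) (α := α) (ι := ι)
  unfold CdB
  (repeat' (first | with_reducible exact IntF.id | with_reducible exact IntF.fst' | with_reducible exact IntF.snd' | with_reducible exact IntF.const _ | with_reducible exact Int.const _ | assumption | with_reducible apply Int.and | with_reducible apply Int.or | with_reducible apply Int.not | with_reducible apply Int.imp | with_reducible apply Int.iff | with_reducible apply Int.ne | with_reducible apply Int.eq | with_reducible apply Int.mem | with_reducible apply Int.subset | with_reducible apply Int.ltN | with_reducible apply Int.leN | with_reducible apply Int.fin | with_reducible apply Int.unique | with_reducible apply Int.all | with_reducible apply Int.ex | with_reducible apply IntF.fst | with_reducible apply IntF.snd | with_reducible apply IntF.app | with_reducible apply IntF.ite | with_reducible apply IntF.sep | with_reducible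 apply IntF.lam | with_reducible apply IntF.insert | with_reducible apply IntF.singleton | with_reducible apply IntF.union | with_reducible apply IntF.inter | with_reducible apply IntF.sdiff | with_reducible apply IntF.isUnion | with_reducible apply IntF.iimage | with_reducible apply IntF.the | with_reducible apply IntF.irec | with_reducible_and_instances apply IntF.add | with_reducible_and_instances apply IntF.mul | with_reducible apply IntF.succ | with_reducible apply IntF.val | (with_reducible refine Int.comp ?_ ?_; assumption) | (with_reducible refine Int.comp₂ ?_ ?_ ?_; assumption) | (with_reducible refine Int.comp₃ ?_ ?_ ?_ ?_; assumption) | (with_reducible refine Int.comp₄ ?_ ?_ ?_ ?_ ?_; assumption) | (with_reducible refine IntF.comp ?_ ?_; assumption) | (with_reducible refine IntF.comp₂ ?_ ?_ ?_; assumption) | (with_reducible refine IntF.comp₃ ?_ ?_ ?_ ?_; assumption) | with_reducible apply IntF.inl | with_reducible apply IntF.inr | with_reducible apply IntF.pair))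

/-- Sets of indices for a single block. -/
def NS (s : IPow M (ι × (α ⊕ IPm M α))) (B : IPow M ι) : Prop :=
  (∀ i, i ∈ B → dm s i) ∧ ∀ i, i ∈ B → ∃ j, j ∈ B ∧ j ≠ i

theorem int_NS : Int M (fun q : IPow M (ι × (α ⊕ IPm M α)) × IPow M ι => NS q.1 q.2) := by
  have h3 := int_dm (M := M) (α := α) (ι := ι)
  unfold NS
  (repeat' (first | with_reducible exact IntF.id | with_reducible exact IntF.fst' | with_reducible exact IntF.snd' | with_reducible exact IntF.const _ | with_reducible exact Int.const _ | assumption | with_reducible apply Int.and | with_reducible apply Int.or | with_reducible apply Int.not | with_reducible apply Int.imp | with_reducible apply Int.iff | with_reducible apply Int.ne | with_reducible apply Int.eq | with_reducible apply Int.mem | with_reducible apply Int.subset | with_reducible apply Int.ltN | with_reducible apply Int.leN | with_reducible apply Int.fin | with_reducible apply Int.unique | with_reducible apply Int.all | with_reducible apply Int.ex | with_reducible apply IntF.fst | with_reducible apply IntF.snd | with_reducible apply IntF.app | with_reducible apply IntF.ite | with_reducible apply IntF.sep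 | with_reducible apply IntF.lam | with_reducible apply IntF.insert | with_reducible apply IntF.singleton | with_reducible apply IntF.union | with_reducible apply IntF.inter | with_reducible apply IntF.sdiff | with_reducible apply IntF.isUnion | with_reducible apply IntF.iimage | with_reducible apply IntF.the | with_reducible apply IntF.irec | with_reducible_and_instances apply IntF.add | with_reducible_and_instances apply IntF.mul | with_reducible apply IntF.succ | with_reducible apply IntF.val | (with_reducible refine Int.comp ?_ ?_; assumption) | (with_reducible refine Int.comp₂ ?_ ?_ ?_; assumption) | (with_reducible refine Int.comp₃ ?_ ?_ ?_ ?_; assumption) | (with_reducible refine Int.comp₄ ?_ ?_ ?_ ?_ ?_; assumption) | (with_reducible refine IntF.comp ?_ ?_; assumption) | (with_reducible refine IntF.comp₂ ?_ ?_ ?_; assumption) | (with_reducible refine IntF.comp₃ ?_ ?_ ?_ ?_; assumption) | with_reducible apply IntF.inl | with_reducible apply IntF.inr | with_reducible apply IntF.pair))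

variable {lt : ι → ι → Prop} {s : IPow M (ι × (α ⊕ IPm M α))}

theorem exists_Cd (hW : IWo M lt) (hs : Valid lt s) (hfin : FinP M (fun i => dm s i))
    {d : Fin 7 → ι} (hd : Function.Injective d) (hdd : ∀ k, dm s (d k)) {σ : IPm M α}
    (h : KK s σ) : ∃ B : IPow M ι, IFin B ∧ NS s B ∧ (∃ w, w ∈ B) ∧ (CdA lt s σ B ∨ CdB lt s σ B) := by
  have hl := hW.int
  have hdm := int_dm (M := M) (α := α) (ι := ι)
  rcases h with ⟨i₁, j₁, k₁, x₁, y₁, z₁, h₁, h₂, h₃, hC₁⟩ | ⟨i, ρ, h1, h2⟩
  · -- rotate
    have ne : ∀ {i j : ι} {x y : α}, elt s i x → elt s j y → x ≠ y → i ≠ j := by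
      rintro i j x y hx hy hxy rfl
      exact hxy (hs.2.1 i x y hx hy)
    obtain ⟨i, j, k, x, y, z, hi, hj, hk, hC, hij, hik⟩ : ∃ i j k x y z, elt s i x ∧ elt s j y ∧
        elt s k z ∧ C3 σ x y z ∧ lt i j ∧ lt i k := by
      have n1 := ne h₁ h₂ hC₁.2.2.2.1
      have n2 := ne h₂ h₃ hC₁.2.2.2.2.1
      have n3 := ne h₃ h₁ hC₁.2.2.2.2.2.1
      rcases hW.tri i₁ j₁ with h | h | h
      · rcases hW.tri i₁ k₁ with h' | h' | h'
        · exact ⟨_, _, _, _, _, _, h₁, h₂, h₃, hC₁, h, h'⟩
        · exact absurd h'.symm n3
        · exact ⟨_, _, _, _, _, _, h₃, h₁, h₂, hC₁.rot.rot, h', hW.tr _ _ _ h' h⟩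
      · exact absurd h n1
      · rcases hW.tri j₁ k₁ with h' | h' | h'
        · exact ⟨_, _, _, _, _, _, h₂, h₃, h₁, hC₁.rot, h', h⟩
        · exact absurd h' n2
        · exact ⟨_, _, _, _, _, _, h₃, h₁, h₂, hC₁.rot.rot, hW.tr _ _ _ h' h, h'⟩
    have njk := ne hj hk hC.2.2.2.2.1
    have nij : i ≠ j := fun h => hW.irr _ (h ▸ hij)
    have nik : i ≠ k := fun h => hW.irr _ (h ▸ hik)
    rcases hW.tri j k with hjk | hjk | hjk
    · have hm : ∀ w, w ∈ (insert i (insert j {k}) : IPow M ι) ↔ w = i ∨ w = j ∨ w = k := by
        intro w
        rw [mem_insert, mem_insert, mem_singleton]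
      refine ⟨insert i (insert j {k}), ((IFin.singleton k).insert j).insert i,
        ⟨fun w hw => ?_, fun w hw => ?_⟩, ⟨i, (hm i).2 (Or.inl rfl)⟩, Or.inl
        ⟨i, j, k, x, y, z, hi, hj, hk, hC, hij, hik, Or.inl ⟨hjk, hm⟩⟩⟩
      · rcases (hm w).1 hw with rfl | rfl | rfl
        · exact ⟨_, hi⟩
        · exact ⟨_, hj⟩
        · exact ⟨_, hk⟩
      · by_cases hwi : w = i
        · exact ⟨j, (hm j).2 (Or.inr (Or.inl rfl)), fun h => nij (hwi.symm.trans h.symm)⟩
        · exact ⟨i, (hm i).2 (Or.inl rfl), fun h => hwi h.symm⟩
    · exact absurd hjk njk
    · have hI : Int M (fun w => dm s w ∧ ¬ w = i ∧ ¬ w = j ∧ ¬ w = k) := by (repeat' (first | with_reducible exact IntF.id | with_reducible exact IntF.fst' | with_reducible exact IntF.snd' | with_reducible exact IntF.const _ | with_reducible exact Int.const _ | assumption | with_reducible apply Int.and | with_reducible apply Int.or | with_reducible apply Int.not | with_reducible apply Int.imp | with_reducible apply Int.iff | with_reducible apply Int.ne | with_reducible apply Int.eq | with_reducible apply Int.mem | with_reducible apply Int.subset | with_reducible apply Int.ltN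 | with_reducible apply Int.leN | with_reducible apply Int.fin | with_reducible apply Int.unique | with_reducible apply Int.all | with_reducible apply Int.ex | with_reducible apply IntF.fst | with_reducible apply IntF.snd | with_reducible apply IntF.app | with_reducible apply IntF.ite | with_reducible apply IntF.sep | with_reducible apply IntF.lam | with_reducible apply IntF.insert | with_reducible apply IntF.singleton | with_reducible apply IntF.union | with_reducible apply IntF.inter | with_reducible apply IntF.sdiff | with_reducible apply IntF.isUnion | with_reducible apply IntF.iimage | with_reducible apply IntF.the | with_reducible apply IntF.irec | with_reducible_and_instances apply IntF.add | with_reducible_and_instances apply IntF.mul | with_reducible apply IntF.succ | with_reducible apply IntF.val | (with_reducible refine Int.comp ?_ ?_; assumption) | (with_reducible refine Int.comp₂ ?_ ?_ ?_; assumption) | (with_reducible refine Int.comp₃ ?_ ?_ ?_ ?_; assumption) | (with_reducible refine Int.comp₄ ?_ ?_ ?_ ?_ ?_; assumption) | (with_reducible refine IntF.comp ?_ ?_; assumption) | (with_reducible refine IntF.comp₂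 ?_ ?_ ?_; assumption) | (with_reducible refine IntF.comp₃ ?_ ?_ ?_ ?_; assumption) | with_reducible apply IntF.inl | with_reducible apply IntF.inr | with_reducible apply IntF.pair))
      have hm : ∀ w, w ∈ sep M (fun w => dm s w ∧ ¬ w = i ∧ ¬ w = j ∧ ¬ w = k) ↔
          dm s w ∧ ¬ w = i ∧ ¬ w = j ∧ ¬ w = k := fun w => mem_sep hI
      refine ⟨sep M (fun w => dm s w ∧ ¬ w = i ∧ ¬ w = j ∧ ¬ w = k),
        (hfin.mono fun w hw => hw.1).fin hI, ⟨fun w hw => ((hm w).1 hw).1, fun w hw => ?_⟩, ?_,
        Or.inl ⟨i, j, k, x, y, z, hi, hj, hk, hC, hij, hik, Or.inr ⟨hjk, hm⟩⟩⟩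
      · obtain ⟨v, hv, hv'⟩ := big hd hdd [i, j, k, w] (by simp)
        simp only [List.mem_cons, List.not_mem_nil, or_false, not_or] at hv'
        exact ⟨v, (hm v).2 ⟨hv, hv'.1, hv'.2.1, hv'.2.2.1⟩, hv'.2.2.2⟩
      · obtain ⟨v, hv, hv'⟩ := big hd hdd [i, j, k] (by simp)
        simp only [List.mem_cons, List.not_mem_nil, or_false, not_or] at hv'
        exact ⟨v, (hm v).2 ⟨hv, hv'.1, hv'.2.1, hv'.2.2⟩⟩
  · rcases h2 with h2 | h2
    · have hI : Int M (fun w => dm s w ∧ ¬ w = i) := by (repeat' (first | with_reducible exact IntF.id | with_reducible exact IntF.fst' | with_reducible exact IntF.snd' | with_reducible exact IntF.const _ | with_reducible exact Int.const _ | assumption | with_reducible apply Int.and | with_reducible apply Int.or | with_reducible apply Int.not | with_reducible apply Int.imp | with_reducible apply Int.iff | with_reducible apply Int.ne | with_reducible apply Int.eq | with_reducible apply Int.mem | with_reducible apply Int.subset | with_reducible apply Int.ltN | with_reducible apply Int.leN | with_reducible apply Int.fin | with_reducible apply Int.unique | with_reducible apply Int.all | with_reducible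 apply Int.ex | with_reducible apply IntF.fst | with_reducible apply IntF.snd | with_reducible apply IntF.app | with_reducible apply IntF.ite | with_reducible apply IntF.sep | with_reducible apply IntF.lam | with_reducible apply IntF.insert | with_reducible apply IntF.singleton | with_reducible apply IntF.union | with_reducible apply IntF.inter | with_reducible apply IntF.sdiff | with_reducible apply IntF.isUnion | with_reducible apply IntF.iimage | with_reducible apply IntF.the | with_reducible apply IntF.irec | with_reducible_and_instances apply IntF.add | with_reducible_and_instances apply IntF.mul | with_reducible apply IntF.succ | with_reducible apply IntF.val | (with_reducible refine Int.comp ?_ ?_; assumption) | (with_reducible refine Int.comp₂ ?_ ?_ ?_; assumption) | (with_reducible refine Int.comp₃ ?_ ?_ ?_ ?_; assumption) | (with_reducible refine Int.comp₄ ?_ ?_ ?_ ?_ ?_; assumption) | (with_reducible refine IntF.comp ?_ ?_; assumption) | (with_reducible refine IntF.comp₂ ?_ ?_ ?_; assumption) | (with_reducible refine IntF.comp₃ ?_ ?_ ?_ ?_; assumption) | with_reducible apply IntF.inl | with_reducible apply IntF.inr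 | with_reducible apply IntF.pair))
      have hm : ∀ w, w ∈ sep M (fun w => dm s w ∧ ¬ w = i) ↔
          dm s w ∧ ¬ w = i := fun w => mem_sep hI
      refine ⟨sep M (fun w => dm s w ∧ ¬ w = i), (hfin.mono fun w hw => hw.1).fin hI,
        ⟨fun w hw => ((hm w).1 hw).1, fun w hw => ?_⟩, ?_,
        Or.inr ⟨i, ρ, h1, Or.inl ⟨h2, hm⟩⟩⟩
      · obtain ⟨v, hv, hv'⟩ := big hd hdd [i, w] (by simp)
        simp only [List.mem_cons, List.not_mem_nil, or_false, not_or] at hv'
        exact ⟨v, (hm v).2 ⟨hv, hv'.1⟩, hv'.2⟩
      · obtain ⟨v, hv, hv'⟩ := big hd hdd [i] (by simp)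
        simp only [List.mem_cons, List.not_mem_nil, or_false] at hv'
        exact ⟨v, (hm v).2 ⟨hv, hv'⟩⟩
    · by_cases h3 : ∀ j, ¬ lt j i
      · have hI : Int M (fun w => dm s w) := by (repeat' (first | with_reducible exact IntF.id | with_reducible exact IntF.fst' | with_reducible exact IntF.snd' | with_reducible exact IntF.const _ | with_reducible exact Int.const _ | assumption | with_reducible apply Int.and | with_reducible apply Int.or | with_reducible apply Int.not | with_reducible apply Int.imp | with_reducible apply Int.iff | with_reducible apply Int.ne | with_reducible apply Int.eq | with_reducible apply Int.mem | with_reducible apply Int.subset | with_reducible apply Int.ltN | with_reducible apply Int.leN | with_reducible apply Int.fin | with_reducible apply Int.unique | with_reducible apply Int.all | with_reducible apply Int.ex | with_reducible apply IntF.fst | with_reducible apply IntF.snd | with_reducible apply IntF.app | with_reducible apply IntF.ite | with_reducible apply IntF.sep | with_reducible apply IntF.lam | with_reducible apply IntF.insert | with_reducible apply IntF.singleton | with_reducible apply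 IntF.union | with_reducible apply IntF.inter | with_reducible apply IntF.sdiff | with_reducible apply IntF.isUnion | with_reducible apply IntF.iimage | with_reducible apply IntF.the | with_reducible apply IntF.irec | with_reducible_and_instances apply IntF.add | with_reducible_and_instances apply IntF.mul | with_reducible apply IntF.succ | with_reducible apply IntF.val | (with_reducible refine Int.comp ?_ ?_; assumption) | (with_reducible refine Int.comp₂ ?_ ?_ ?_; assumption) | (with_reducible refine Int.comp₃ ?_ ?_ ?_ ?_; assumption) | (with_reducible refine Int.comp₄ ?_ ?_ ?_ ?_ ?_; assumption) | (with_reducible refine IntF.comp ?_ ?_; assumption) | (with_reducible refine IntF.comp₂ ?_ ?_ ?_; assumption) | (with_reducible refine IntF.comp₃ ?_ ?_ ?_ ?_; assumption) | with_reducible apply IntF.inl | with_reducible apply IntF.inr | with_reducible apply IntF.pair))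
        have hm : ∀ w, w ∈ sep M (fun w => dm s w) ↔ dm s w := fun w => mem_sep hI
        refine ⟨sep M (fun w => dm s w), hfin.fin hI,
          ⟨fun w hw => (hm w).1 hw, fun w hw => ?_⟩, ⟨_, (hm _).2 (hdd 0)⟩,
          Or.inr ⟨i, ρ, h1, Or.inr ⟨h2, Or.inl ⟨h3, hm⟩⟩⟩⟩
        obtain ⟨v, hv, hv'⟩ := big hd hdd [w] (by simp)
        simp only [List.mem_cons, List.not_mem_nil, or_false] at hv'
        exact ⟨v, (hm v).2 hv, hv'⟩
      · obtain ⟨i₀, -, h4⟩ := hW.least (p := fun _ => True) (Int.const _) ⟨i, trivial⟩
        have h4' : ∀ j, ¬ lt j i₀ := fun j => h4 j trivial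
        have hne : i ≠ i₀ := fun h => h3 (h ▸ h4')
        have hm : ∀ w, w ∈ (insert i₀ {i} : IPow M ι) ↔ w = i₀ ∨ w = i := by
          intro w
          rw [mem_insert, mem_singleton]
        refine ⟨insert i₀ {i}, (IFin.singleton i).insert i₀, ⟨fun w hw => ?_, fun w hw => ?_⟩,
          ⟨i, (hm i).2 (Or.inr rfl)⟩,
          Or.inr ⟨i, ρ, h1, Or.inr ⟨h2, Or.inr ⟨h3, i₀, h4', hm⟩⟩⟩⟩
        · rcases (hm w).1 hw with rfl | rfl
          · rcases hW.tri w i with h | h | h
            · exact hs.1 _ _ ⟨_, h1.1⟩ h
            · exact absurd h.symm hne
            · exact absurd h (h4' _)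
          · exact ⟨_, h1.1⟩
        · by_cases hwi : w = i
          · exact ⟨i₀, (hm _).2 (Or.inl rfl), fun h => hne (hwi.symm.trans h.symm)⟩
          · exact ⟨i, (hm i).2 (Or.inr rfl), fun h => hwi h.symm⟩

/-- Sorted triples are determined by their sets. -/
theorem sorted (hW : IWo M lt) {i j k i' j' k' : ι} (h1 : lt i j) (h2 : lt j k) (h1' : lt i' j')
    (h2' : lt j' k') (h : ∀ w, (w = i ∨ w = j ∨ w = k) ↔ (w = i' ∨ w = j' ∨ w = k')) :
    i = i' ∧ j = j' ∧ k = k' := by
  have t := hW.tr _ _ _ h1 h2
  have t' := hW.tr _ _ _ h1' h2'
  have as : ∀ a b, lt a b → lt b a → False := fun a b h h' => hW.asymm h h'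
  have ir : ∀ a, lt a a → False := fun a h => hW.irr a h
  have ei : i = i' := by
    rcases (h i).1 (Or.inl rfl) with h3 | h3 | h3
    · exact h3
    · rcases (h i').2 (Or.inl rfl) with h4 | h4 | h4
      · exact h4.symm
      · subst h3 h4
        exact (as _ _ h1 h1').elim
      · subst h3 h4
        exact (as _ _ t h1').elim
    · rcases (h i').2 (Or.inl rfl) with h4 | h4 | h4
      · exact h4.symm
      · subst h3 h4
        exact (as _ _ h1 t').elim
      · subst h3 h4
        exact (as _ _ t t').elim
  have ek : k = k' := by
    rcases (h k).1 (Or.inr (Or.inr rfl)) with h3 | h3 | h3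
    · subst ei
      subst h3
      exact (ir _ t).elim
    · rcases (h k').2 (Or.inr (Or.inr rfl)) with h4 | h4 | h4
      · subst h4
        subst ei
        exact (ir _ t').elim
      · subst h3 h4
        exact (as _ _ h2 h2').elim
      · exact h4.symm
    · exact h3
  refine ⟨ei, ?_, ek⟩
  rcases (h j).1 (Or.inr (Or.inl rfl)) with h3 | h3 | h3
  · subst ei
    subst h3
    exact (ir _ h1).elim
  · exact h3
  · subst ek
    subst h3
    exact (ir _ h2).elim

end Pool.Agent.R596
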