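import Pool.Agent.R596.AmA

/-!
# Sequences and their types
-/

set_option autoImplicit false
set_option linter.all false
set_option maxHeartbeats 400000

namespace Pool.Agent.R596.AM

open FirstOrder FirstOrder.Language
open Pool.Agent.Helper672.ZFA
open Pool.Agent.H310

universe u u₁ u₂ u₃ u₄

section

variable {M : Type u} [L.Structure M] [hM : IsModel M]
variable {α : Type u₁} {κ : Type u₂} {β : Type u₃} {γ : Type u₄} [ITy M α] [ITy M κ] [ITy M β]
  [ITy M γ]

/-- Representatives for the values of a function with finite range. -/
theorem reps {f : β → γ} (hf : IntF M f) (h : FinP M (fun c => ∃ b, f b = c)) :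
    ∃ Φ : IPow M β, IFin Φ ∧ ∀ b, ∃ b', b' ∈ Φ ∧ f b = f b' := by
  have hI : Int M (fun c => ∃ b, f b = c) := (by (repeat' (first | with_reducible exact IntF.id | with_reducible exact IntF.fst' | with_reducible exact IntF.snd' | with_reducible exact IntF.const _ | with_reducible exact Int.const _ | assumption | with_reducible apply Int.and | with_reducible apply Int.or | with_reducible apply Int.not | with_reducible apply Int.imp | with_reducible apply Int.iff | with_reducible apply Int.ne | with_reducible apply Int.eq | with_reducible apply Int.mem | with_reducible apply Int.subset | with_reducible apply Int.ltN | with_reducible apply Int.leN | with_reducible apply Int.fin | with_reducible apply Int.unique | with_reducible apply Int.all | with_reducible apply Int.ex | with_reducible apply IntF.fst | with_reducible apply IntF.snd | with_reducible apply IntF.app | with_reducible apply IntF.ite | with_reducible apply IntF.sep | with_reducible apply IntF.lam | with_reducible apply IntF.insert | with_reducible apply IntF.singleton | with_reducible apply IntF.union | with_reducible apply IntF.inter | with_reducible apply IntF.sdiff | with_reducible apply IntF.isUnion | with_reducible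 apply IntF.iimage | with_reducible apply IntF.the | with_reducible apply IntF.irec | with_reducible_and_instances apply IntF.add | with_reducible_and_instances apply IntF.mul | with_reducible apply IntF.succ | with_reducible apply IntF.val | (with_reducible refine Int.comp ?_ ?_; assumption) | (with_reducible refine Int.comp₂ ?_ ?_ ?_; assumption) | (with_reducible refine Int.comp₃ ?_ ?_ ?_ ?_; assumption) | (with_reducible refine Int.comp₄ ?_ ?_ ?_ ?_ ?_; assumption) | (with_reducible refine IntF.comp ?_ ?_; assumption) | (with_reducible refine IntF.comp₂ ?_ ?_ ?_; assumption) | (with_reducible refine IntF.comp₃ ?_ ?_ ?_ ?_; assumption) | with_reducible apply IntF.inl | with_reducible apply IntF.inr | with_reducible apply IntF.pair)))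
  have h0 := IFin.exists_bound (s := sep M fun c => ∃ b, f b = c)
    (r := fun (c : γ) (Φ : IPow M β) => IFin Φ ∧ ∃ b, b ∈ Φ ∧ f b = c) (by (repeat' (first | with_reducible exact IntF.id | with_reducible exact IntF.fst' | with_reducible exact IntF.snd' | with_reducible exact IntF.const _ | with_reducible exact Int.const _ | assumption | with_reducible apply Int.and | with_reducible apply Int.or | with_reducible apply Int.not | with_reducible apply Int.imp | with_reducible apply Int.iff | with_reducible apply Int.ne | with_reducible apply Int.eq | with_reducible apply Int.mem | with_reducible apply Int.subset | with_reducible apply Int.ltN | with_reducible apply Int.leN | with_reducible apply Int.fin | with_reducible apply Int.unique | with_reducible apply Int.all | with_reducible apply Int.ex | with_reducible apply IntF.fst | with_reducible apply IntF.snd | with_reducible apply IntF.app | with_reducible apply IntF.ite | with_reducible apply IntF.sep | with_reducible apply IntF.lam | with_reducible apply IntF.insert | with_reducible apply IntF.singleton | with_reducible apply IntF.union | with_reducible apply IntF.inter | with_reducible apply IntF.sdiff | with_reducible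 apply IntF.isUnion | with_reducible apply IntF.iimage | with_reducible apply IntF.the | with_reducible apply IntF.irec | with_reducible_and_instances apply IntF.add | with_reducible_and_instances apply IntF.mul | with_reducible apply IntF.succ | with_reducible apply IntF.val | (with_reducible refine Int.comp ?_ ?_; assumption) | (with_reducible refine Int.comp₂ ?_ ?_ ?_; assumption) | (with_reducible refine Int.comp₃ ?_ ?_ ?_ ?_; assumption) | (with_reducible refine Int.comp₄ ?_ ?_ ?_ ?_ ?_; assumption) | (with_reducible refine IntF.comp ?_ ?_; assumption) | (with_reducible refine IntF.comp₂ ?_ ?_ ?_; assumption) | (with_reducible refine IntF.comp₃ ?_ ?_ ?_ ?_; assumption) | with_reducible apply IntF.inl | with_reducible apply IntF.inr | with_reducible apply IntF.pair)))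
    (by
      intro Φ Ψ
      by_cases h1 : IFin Φ
      · by_cases h2 : IFin Ψ
        · refine ⟨Φ ∪ Ψ, fun a ha => ⟨h1.union h2, ?_⟩⟩
          rcases ha with ⟨_, b, hb, he⟩ | ⟨_, b, hb, he⟩
          · exact ⟨b, mem_union.2 (Or.inl hb), he⟩
          · exact ⟨b, mem_union.2 (Or.inr hb), he⟩
        · refine ⟨Φ, fun a ha => ?_⟩
          rcases ha with ha | ha
          · exact ha
          · exact absurd ha.1 h2
      · refine ⟨Ψ, fun a ha => ?_⟩
        rcases ha with ha | ha
        · exact absurd ha.1 h1
        · exact ha) ⟨∅⟩ (h.fin hI) (by
      intro c hc
      rw [mem_sep hI] at hc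
      obtain ⟨b, hb⟩ := hc
      exact ⟨{b}, IFin.singleton b, b, mem_singleton.2 rfl, hb⟩)
  obtain ⟨Φ, hΦ⟩ := h0
  by_cases hne : ∃ b : β, True
  · obtain ⟨b0, _⟩ := hne
    refine ⟨Φ, (hΦ (f b0) ((mem_sep hI).2 ⟨b0, rfl⟩)).1, fun b => ?_⟩
    obtain ⟨_, b', hb', he⟩ := hΦ (f b) ((mem_sep hI).2 ⟨b, rfl⟩)
    exact ⟨b', hb', he.symm⟩
  · exact ⟨∅, IFin.empty, fun b => absurd ⟨b, trivial⟩ hne⟩

variable (M α) in
/-- Sequences. -/
abbrev Sq : Type _ := IFun M (INat M) α

open Classical in
/-- Changing a term. -/
noncomputable def upd (s : Sq M α) (n : INat M) (c : α) : Sq M α :=
  lam M fun i => if i = n then c else s i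

theorem int_upd : IntF M (fun q : (Sq M α × INat M) × α => upd q.1.1 q.1.2 q.2) := by
  unfold upd
  refine IntF.lam ?_
  refine IntF.ite ?_ ?_ ?_
  all_goals (repeat' (first | with_reducible exact IntF.id | with_reducible exact IntF.fst' | with_reducible exact IntF.snd' | with_reducible exact IntF.const _ | with_reducible exact Int.const _ | assumption | with_reducible apply Int.and | with_reducible apply Int.or | with_reducible apply Int.not | with_reducible apply Int.imp | with_reducible apply Int.iff | with_reducible apply Int.ne | with_reducible apply Int.eq | with_reducible apply Int.mem | with_reducible apply Int.subset | with_reducible apply Int.ltN | with_reducible apply Int.leN | with_reducible apply Int.fin | with_reducible apply Int.unique | with_reducible apply Int.all | with_reducible apply Int.ex | with_reducible apply IntF.fst | with_reducible apply IntF.snd | with_reducible apply IntF.app | with_reducible apply IntF.ite | with_reducible apply IntF.sep | with_reducible apply IntF.lam | with_reducible apply IntF.insert | with_reducible apply IntF.singleton | with_reducible apply IntF.union | with_reducible apply IntF.inter | with_reducible apply IntF.sdiff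 | with_reducible apply IntF.isUnion | with_reducible apply IntF.iimage | with_reducible apply IntF.the | with_reducible apply IntF.irec | with_reducible_and_instances apply IntF.add | with_reducible_and_instances apply IntF.mul | with_reducible apply IntF.succ | with_reducible apply IntF.val | (with_reducible refine Int.comp ?_ ?_; assumption) | (with_reducible refine Int.comp₂ ?_ ?_ ?_; assumption) | (with_reducible refine Int.comp₃ ?_ ?_ ?_ ?_; assumption) | (with_reducible refine Int.comp₄ ?_ ?_ ?_ ?_ ?_; assumption) | (with_reducible refine IntF.comp ?_ ?_; assumption) | (with_reducible refine IntF.comp₂ ?_ ?_ ?_; assumption) | (with_reducible refine IntF.comp₃ ?_ ?_ ?_ ?_; assumption) | with_reducible apply IntF.inl | with_reducible apply IntF.inr | with_reducible apply IntF.pair))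

theorem upd_apply (s : Sq M α) (n : INat M) (c : α) (i : INat M) :
    upd s n c i = if i = n then c else s i := by
  unfold upd
  rw [lam_apply]
  refine IntF.ite ?_ ?_ ?_
  all_goals (repeat' (first | with_reducible exact IntF.id | with_reducible exact IntF.fst' | with_reducible exact IntF.snd' | with_reducible exact IntF.const _ | with_reducible exact Int.const _ | assumption | with_reducible apply Int.and | with_reducible apply Int.or | with_reducible apply Int.not | with_reducible apply Int.imp | with_reducible apply Int.iff | with_reducible apply Int.ne | with_reducible apply Int.eq | with_reducible apply Int.mem | with_reducible apply Int.subset | with_reducible apply Int.ltN | with_reducible apply Int.leN | with_reducible apply Int.fin | with_reducible apply Int.unique | with_reducible apply Int.all | with_reducible apply Int.ex | with_reducible apply IntF.fst | with_reducible apply IntF.snd | with_reducible apply IntF.app | with_reducible apply IntF.ite | with_reducible apply IntF.sep | with_reducible apply IntF.lam | with_reducible apply IntF.insert | with_reducible apply IntF.singleton | with_reducible apply IntF.union | with_reducible apply IntF.inter |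 with_reducible apply IntF.sdiff | with_reducible apply IntF.isUnion | with_reducible apply IntF.iimage | with_reducible apply IntF.the | with_reducible apply IntF.irec | with_reducible_and_instances apply IntF.add | with_reducible_and_instances apply IntF.mul | with_reducible apply IntF.succ | with_reducible apply IntF.val | (with_reducible refine Int.comp ?_ ?_; assumption) | (with_reducible refine Int.comp₂ ?_ ?_ ?_; assumption) | (with_reducible refine Int.comp₃ ?_ ?_ ?_ ?_; assumption) | (with_reducible refine Int.comp₄ ?_ ?_ ?_ ?_ ?_; assumption) | (with_reducible refine IntF.comp ?_ ?_; assumption) | (with_reducible refine IntF.comp₂ ?_ ?_ ?_; assumption) | (with_reducible refine IntF.comp₃ ?_ ?_ ?_ ?_; assumption) | with_reducible apply IntF.inl | with_reducible apply IntF.inr | with_reducible apply IntF.pair))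

theorem upd_same (s : Sq M α) (n : INat M) (c : α) : upd s n c n = c := by
  rw [upd_apply, if_pos rfl]

theorem upd_ne (s : Sq M α) {n i : INat M} (c : α) (h : i ≠ n) : upd s n c i = s i := by
  rw [upd_apply, if_neg h]

theorem upd_lt (s : Sq M α) {n i : INat M} (c : α) (h : i < n) : upd s n c i = s i :=
  upd_ne s c h.ne

/-- The subset described by a set of indices. -/
noncomputable def real (n : INat M) (s : Sq M α) (J : IPow M (INat M × κ)) : IPow M (α × κ) :=
  sep M fun q => (∃ i, i < n ∧ (i, q.2) ∈ J ∧ s i = q.1) ∨ ((n, q.2) ∈ J ∧ ∀ i, i < n → s i ≠ q.1)

theorem int_real : IntF M (fun q : (INat M × Sq M α) × IPow M (INat M × κ) =>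
    real q.1.1 q.1.2 q.2) := by
  unfold real
  (repeat' (first | with_reducible exact IntF.id | with_reducible exact IntF.fst' | with_reducible exact IntF.snd' | with_reducible exact IntF.const _ | with_reducible exact Int.const _ | assumption | with_reducible apply Int.and | with_reducible apply Int.or | with_reducible apply Int.not | with_reducible apply Int.imp | with_reducible apply Int.iff | with_reducible apply Int.ne | with_reducible apply Int.eq | with_reducible apply Int.mem | with_reducible apply Int.subset | with_reducible apply Int.ltN | with_reducible apply Int.leN | with_reducible apply Int.fin | with_reducible apply Int.unique | with_reducible apply Int.all | with_reducible apply Int.ex | with_reducible apply IntF.fst | with_reducible apply IntF.snd | with_reducible apply IntF.app | with_reducible apply IntF.ite | with_reducible apply IntF.sep | with_reducible apply IntF.lam | with_reducible apply IntF.insert | with_reducible apply IntF.singleton | with_reducible apply IntF.union | with_reducible apply IntF.inter | with_reducible apply IntF.sdiff | with_reducible apply IntF.isUnion | with_reducible apply IntF.iimage | with_reducible apply IntF.the | with_reducible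 apply IntF.irec | with_reducible_and_instances apply IntF.add | with_reducible_and_instances apply IntF.mul | with_reducible apply IntF.succ | with_reducible apply IntF.val | (with_reducible refine Int.comp ?_ ?_; assumption) | (with_reducible refine Int.comp₂ ?_ ?_ ?_; assumption) | (with_reducible refine Int.comp₃ ?_ ?_ ?_ ?_; assumption) | (with_reducible refine Int.comp₄ ?_ ?_ ?_ ?_ ?_; assumption) | (with_reducible refine IntF.comp ?_ ?_; assumption) | (with_reducible refine IntF.comp₂ ?_ ?_ ?_; assumption) | (with_reducible refine IntF.comp₃ ?_ ?_ ?_ ?_; assumption) | with_reducible apply IntF.inl | with_reducible apply IntF.inr | with_reducible apply IntF.pair))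

theorem mem_real {n : INat M} {s : Sq M α} {J : IPow M (INat M × κ)} {a : α} {j : κ} :
    (a, j) ∈ real n s J ↔ (∃ i, i < n ∧ (i, j) ∈ J ∧ s i = a) ∨
      ((n, j) ∈ J ∧ ∀ i, i < n → s i ≠ a) := by
  unfold real
  rw [mem_sep (by (repeat' (first | with_reducible exact IntF.id | with_reducible exact IntF.fst' | with_reducible exact IntF.snd' | with_reducible exact IntF.const _ | with_reducible exact Int.const _ | assumption | with_reducible apply Int.and | with_reducible apply Int.or | with_reducible apply Int.not | with_reducible apply Int.imp | with_reducible apply Int.iff | with_reducible apply Int.ne | with_reducible apply Int.eq | with_reducible apply Int.mem | with_reducible apply Int.subset | with_reducible apply Int.ltN | with_reducible apply Int.leN | with_reducible apply Int.fin | with_reducible apply Int.unique | with_reducible apply Int.all | with_reducible apply Int.ex | with_reducible apply IntF.fst | with_reducible apply IntF.snd | with_reducible apply IntF.app | with_reducible apply IntF.ite | with_reducible apply IntF.sep | with_reducible apply IntF.lam | with_reducible apply IntF.insert | with_reducible apply IntF.singleton | with_reducible apply IntF.union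 | with_reducible apply IntF.inter | with_reducible apply IntF.sdiff | with_reducible apply IntF.isUnion | with_reducible apply IntF.iimage | with_reducible apply IntF.the | with_reducible apply IntF.irec | with_reducible_and_instances apply IntF.add | with_reducible_and_instances apply IntF.mul | with_reducible apply IntF.succ | with_reducible apply IntF.val | (with_reducible refine Int.comp ?_ ?_; assumption) | (with_reducible refine Int.comp₂ ?_ ?_ ?_; assumption) | (with_reducible refine Int.comp₃ ?_ ?_ ?_ ?_; assumption) | (with_reducible refine Int.comp₄ ?_ ?_ ?_ ?_ ?_; assumption) | (with_reducible refine IntF.comp ?_ ?_; assumption) | (with_reducible refine IntF.comp₂ ?_ ?_ ?_; assumption) | (with_reducible refine IntF.comp₃ ?_ ?_ ?_ ?_; assumption) | with_reducible apply IntF.inl | with_reducible apply IntF.inr | with_reducible apply IntF.pair)))]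

variable (F : IFun M (IPow M (α × κ)) (IPow M (α × κ)))

/-- The atomic types of two sequences agree. -/
def E0 (n : INat M) (s t : Sq M α) : Prop :=
  (∀ i j, i < n → j < n → (s i = s j ↔ t i = t j)) ∧
    ∀ J J' : IPow M (INat M × κ), F (real n s J) = real n s J' ↔ F (real n t J) = real n t J'

theorem int_E0 : Int M (fun q : (INat M × Sq M α) × Sq M α => E0 F q.1.1 q.1.2 q.2) := by
  unfold E0
  have h := int_real (M := M) (α := α) (κ := κ)
  (repeat' (first | with_reducible exact IntF.id | with_reducible exact IntF.fst' | with_reducible exact IntF.snd' | with_reducible exact IntF.const _ | with_reducible exact Int.const _ | assumption | with_reducible apply Int.and | with_reducible apply Int.or | with_reducible apply Int.not | with_reducible apply Int.imp | with_reducible apply Int.iff | with_reducible apply Int.ne | with_reducible apply Int.eq | with_reducible apply Int.mem | with_reducible apply Int.subset | with_reducible apply Int.ltN | with_reducible apply Int.leN | with_reducible apply Int.fin | with_reducible apply Int.unique | with_reducible apply Int.all | with_reducible apply Int.ex | with_reducible apply IntF.fst | with_reducible apply IntF.snd | with_reducible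 apply IntF.app | with_reducible apply IntF.ite | with_reducible apply IntF.sep | with_reducible apply IntF.lam | with_reducible apply IntF.insert | with_reducible apply IntF.singleton | with_reducible apply IntF.union | with_reducible apply IntF.inter | with_reducible apply IntF.sdiff | with_reducible apply IntF.isUnion | with_reducible apply IntF.iimage | with_reducible apply IntF.the | with_reducible apply IntF.irec | with_reducible_and_instances apply IntF.add | with_reducible_and_instances apply IntF.mul | with_reducible apply IntF.succ | with_reducible apply IntF.val | (with_reducible refine Int.comp ?_ ?_; assumption) | (with_reducible refine Int.comp₂ ?_ ?_ ?_; assumption) | (with_reducible refine Int.comp₃ ?_ ?_ ?_ ?_; assumption) | (with_reducible refine Int.comp₄ ?_ ?_ ?_ ?_ ?_; assumption) | (with_reducible refine IntF.comp ?_ ?_; assumption) | (with_reducible refine IntF.comp₂ ?_ ?_ ?_; assumption) | (with_reducible refine IntF.comp₃ ?_ ?_ ?_ ?_; assumption) | with_reducible apply IntF.inl | with_reducible apply IntF.inr | with_reducible apply IntF.pair))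

/-- One step. -/
noncomputable def stp (r : IPow M ((INat M × Sq M α) × Sq M α)) :
    IPow M ((INat M × Sq M α) × Sq M α) :=
  sep M fun q => q ∈ r ∧ (∀ c, ∃ d, ((q.1.1.succ, upd q.1.2 q.1.1 c), upd q.2 q.1.1 d) ∈ r) ∧
    ∀ d, ∃ c, ((q.1.1.succ, upd q.1.2 q.1.1 c), upd q.2 q.1.1 d) ∈ r

theorem int_stp : IntF M (fun q : INat M × IPow M ((INat M × Sq M α) × Sq M α) => stp q.2) := by
  unfold stp
  have h := int_upd (M := M) (α := α)
  (repeat' (first | with_reducible exact IntF.id | with_reducible exact IntF.fst' | with_reducible exact IntF.snd' | with_reducible exact IntF.const _ | with_reducible exact Int.const _ | assumption | with_reducible apply Int.and | with_reducible apply Int.or | with_reducible apply Int.not | with_reducible apply Int.imp | with_reducible apply Int.iff | with_reducible apply Int.ne | with_reducible apply Int.eq | with_reducible apply Int.mem | with_reducible apply Int.subset | with_reducible apply Int.ltN | with_reducible apply Int.leN | with_reducible apply Int.fin | with_reducible apply Int.unique | with_reducible apply Int.all | with_reducible apply Int.ex | with_reducible apply IntF.fst | with_reducible apply IntF.snd | with_reducible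 apply IntF.app | with_reducible apply IntF.ite | with_reducible apply IntF.sep | with_reducible apply IntF.lam | with_reducible apply IntF.insert | with_reducible apply IntF.singleton | with_reducible apply IntF.union | with_reducible apply IntF.inter | with_reducible apply IntF.sdiff | with_reducible apply IntF.isUnion | with_reducible apply IntF.iimage | with_reducible apply IntF.the | with_reducible apply IntF.irec | with_reducible_and_instances apply IntF.add | with_reducible_and_instances apply IntF.mul | with_reducible apply IntF.succ | with_reducible apply IntF.val | (with_reducible refine Int.comp ?_ ?_; assumption) | (with_reducible refine Int.comp₂ ?_ ?_ ?_; assumption) | (with_reducible refine Int.comp₃ ?_ ?_ ?_ ?_; assumption) | (with_reducible refine Int.comp₄ ?_ ?_ ?_ ?_ ?_; assumption) | (with_reducible refine IntF.comp ?_ ?_; assumption) | (with_reducible refine IntF.comp₂ ?_ ?_ ?_; assumption) | (with_reducible refine IntF.comp₃ ?_ ?_ ?_ ?_; assumption) | with_reducible apply IntF.inl | with_reducible apply IntF.inr | with_reducible apply IntF.pair))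

/-- The relations. -/
noncomputable def ER (k : INat M) : IPow M ((INat M × Sq M α) × Sq M α) :=
  irec (sep M fun q => E0 F q.1.1 q.1.2 q.2) (fun _ r => stp r) k

/-- Equivalence of sequences up to rank `k`. -/
def E (k n : INat M) (s t : Sq M α) : Prop := ((n, s), t) ∈ ER F k

theorem int_ER : IntF M (fun k : INat M => ER F k) := by
  unfold ER
  have h : IntF M (fun q : (INat M × INat M) × IPow M ((INat M × Sq M α) × Sq M α) =>
      stp q.2) := IntF.comp (g := fun q : INat M × IPow M ((INat M × Sq M α) × Sq M α) => stp q.2)
        (f := fun q : (INat M × INat M) × IPow M ((INat M × Sq M α) × Sq M α) => (q.1.2, q.2))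
        (int_stp (M := M) (α := α)) (IntF.pair (IntF.snd IntF.fst') IntF.snd')
  exact IntF.irec (a := fun _ => sep M fun q => E0 F q.1.1 q.1.2 q.2)
    (f := fun _ _ r => stp r) (n := fun k => k) (IntF.const _) h IntF.id

theorem int_E : Int M (fun q : ((INat M × INat M) × Sq M α) × Sq M α =>
    E F q.1.1.1 q.1.1.2 q.1.2 q.2) := by
  unfold E
  have h := int_ER F
  (repeat' (first | with_reducible exact IntF.id | with_reducible exact IntF.fst' | with_reducible exact IntF.snd' | with_reducible exact IntF.const _ | with_reducible exact Int.const _ | assumption | with_reducible apply Int.and | with_reducible apply Int.or | with_reducible apply Int.not | with_reducible apply Int.imp | with_reducible apply Int.iff | with_reducible apply Int.ne | with_reducible apply Int.eq | with_reducible apply Int.mem | with_reducible apply Int.subset | with_reducible apply Int.ltN | with_reducible apply Int.leN | with_reducible apply Int.fin | with_reducible apply Int.unique | with_reducible apply Int.all | with_reducible apply Int.ex | with_reducible apply IntF.fst | with_reducible apply IntF.snd | with_reducible apply IntF.app | with_reducible apply IntF.ite | with_reducible apply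 IntF.sep | with_reducible apply IntF.lam | with_reducible apply IntF.insert | with_reducible apply IntF.singleton | with_reducible apply IntF.union | with_reducible apply IntF.inter | with_reducible apply IntF.sdiff | with_reducible apply IntF.isUnion | with_reducible apply IntF.iimage | with_reducible apply IntF.the | with_reducible apply IntF.irec | with_reducible_and_instances apply IntF.add | with_reducible_and_instances apply IntF.mul | with_reducible apply IntF.succ | with_reducible apply IntF.val | (with_reducible refine Int.comp ?_ ?_; assumption) | (with_reducible refine Int.comp₂ ?_ ?_ ?_; assumption) | (with_reducible refine Int.comp₃ ?_ ?_ ?_ ?_; assumption) | (with_reducible refine Int.comp₄ ?_ ?_ ?_ ?_ ?_; assumption) | (with_reducible refine IntF.comp ?_ ?_; assumption) | (with_reducible refine IntF.comp₂ ?_ ?_ ?_; assumption) | (with_reducible refine IntF.comp₃ ?_ ?_ ?_ ?_; assumption) | with_reducible apply IntF.inl | with_reducible apply IntF.inr | with_reducible apply IntF.pair))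

variable {F}

theorem E_zero {n : INat M} {s t : Sq M α} : E F 0 n s t ↔ E0 F n s t := by
  unfold E ER
  rw [irec_zero (int_stp (M := M) (α := α)), mem_sep (int_E0 F)]

theorem E_succ {k n : INat M} {s t : Sq M α} : E F k.succ n s t ↔ E F k n s t ∧
    (∀ c, ∃ d, E F k n.succ (upd s n c) (upd t n d)) ∧
      ∀ d, ∃ c, E F k n.succ (upd s n c) (upd t n d) := by
  unfold E ER
  rw [irec_succ (int_stp (M := M) (α := α))]
  unfold stp
  rw [mem_sep (by
    have h := int_upd (M := M) (α := α)
    (repeat' (first | with_reducible exact IntF.id | with_reducible exact IntF.fst' | with_reducible exact IntF.snd' | with_reducible exact IntF.const _ | with_reducible exact Int.const _ | assumption | with_reducible apply Int.and | with_reducible apply Int.or | with_reducible apply Int.not | with_reducible apply Int.imp | with_reducible apply Int.iff | with_reducible apply Int.ne | with_reducible apply Int.eq | with_reducible apply Int.mem | with_reducible apply Int.subset | with_reducible apply Int.ltN | with_reducible apply Int.leN | with_reducible apply Int.fin | with_reducible apply Int.unique | with_reducible apply Int.all | with_reducible apply Int.ex | with_reducible apply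 IntF.fst | with_reducible apply IntF.snd | with_reducible apply IntF.app | with_reducible apply IntF.ite | with_reducible apply IntF.sep | with_reducible apply IntF.lam | with_reducible apply IntF.insert | with_reducible apply IntF.singleton | with_reducible apply IntF.union | with_reducible apply IntF.inter | with_reducible apply IntF.sdiff | with_reducible apply IntF.isUnion | with_reducible apply IntF.iimage | with_reducible apply IntF.the | with_reducible apply IntF.irec | with_reducible_and_instances apply IntF.add | with_reducible_and_instances apply IntF.mul | with_reducible apply IntF.succ | with_reducible apply IntF.val | (with_reducible refine Int.comp ?_ ?_; assumption) | (with_reducible refine Int.comp₂ ?_ ?_ ?_; assumption) | (with_reducible refine Int.comp₃ ?_ ?_ ?_ ?_; assumption) | (with_reducible refine Int.comp₄ ?_ ?_ ?_ ?_ ?_; assumption) | (with_reducible refine IntF.comp ?_ ?_; assumption) | (with_reducible refine IntF.comp₂ ?_ ?_ ?_; assumption) | (with_reducible refine IntF.comp₃ ?_ ?_ ?_ ?_; assumption) | with_reducible apply IntF.inl | with_reducible apply IntF.inr | with_reducible apply IntF.pair)))]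

theorem E_ind {p : INat M → INat M → Sq M α → Sq M α → Prop}
    (hp : Int M (fun q : ((INat M × INat M) × Sq M α) × Sq M α => p q.1.1.1 q.1.1.2 q.1.2 q.2))
    (h0 : ∀ n s t, E F 0 n s t → p 0 n s t)
    (h1 : ∀ k, (∀ n s t, E F k n s t → p k n s t) → ∀ n s t, E F k.succ n s t → p k.succ n s t)
    (k n : INat M) (s t : Sq M α) (h : E F k n s t) : p k n s t := by
  have hE := int_E F
  refine INat.ind (p := fun k : INat M => ∀ n s t, E F k n s t → p k n s t) (by (repeat' (first | with_reducible exact IntF.id | with_reducible exact IntF.fst' | with_reducible exact IntF.snd' | with_reducible exact IntF.const _ | with_reducible exact Int.const _ | assumption | with_reducible apply Int.and | with_reducible apply Int.or | with_reducible apply Int.not | with_reducible apply Int.imp | with_reducible apply Int.iff | with_reducible apply Int.ne | with_reducible apply Int.eq | with_reducible apply Int.mem | with_reducible apply Int.subset | with_reducible apply Int.ltN | with_reducible apply Int.leN | with_reducible apply Int.fin | with_reducible apply Int.unique | with_reducible apply Int.all | with_reducible apply Int.ex | with_reducible apply IntF.fst | with_reducible apply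 IntF.snd | with_reducible apply IntF.app | with_reducible apply IntF.ite | with_reducible apply IntF.sep | with_reducible apply IntF.lam | with_reducible apply IntF.insert | with_reducible apply IntF.singleton | with_reducible apply IntF.union | with_reducible apply IntF.inter | with_reducible apply IntF.sdiff | with_reducible apply IntF.isUnion | with_reducible apply IntF.iimage | with_reducible apply IntF.the | with_reducible apply IntF.irec | with_reducible_and_instances apply IntF.add | with_reducible_and_instances apply IntF.mul | with_reducible apply IntF.succ | with_reducible apply IntF.val | (with_reducible refine Int.comp ?_ ?_; assumption) | (with_reducible refine Int.comp₂ ?_ ?_ ?_; assumption) | (with_reducible refine Int.comp₃ ?_ ?_ ?_ ?_; assumption) | (with_reducible refine Int.comp₄ ?_ ?_ ?_ ?_ ?_; assumption) | (with_reducible refine IntF.comp ?_ ?_; assumption) | (with_reducible refine IntF.comp₂ ?_ ?_ ?_; assumption) | (with_reducible refine IntF.comp₃ ?_ ?_ ?_ ?_; assumption) | with_reducible apply IntF.inl | with_reducible apply IntF.inr | with_reducible apply IntF.pair))) h0 h1 k n s t h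

theorem E.refl (k : INat M) : ∀ (n : INat M) (s : Sq M α), E F k n s s := by
  have hE := int_E F
  refine INat.ind (p := fun k : INat M => ∀ (n : INat M) (s : Sq M α), E F k n s s) (by (repeat' (first | with_reducible exact IntF.id | with_reducible exact IntF.fst' | with_reducible exact IntF.snd' | with_reducible exact IntF.const _ | with_reducible exact Int.const _ | assumption | with_reducible apply Int.and | with_reducible apply Int.or | with_reducible apply Int.not | with_reducible apply Int.imp | with_reducible apply Int.iff | with_reducible apply Int.ne | with_reducible apply Int.eq | with_reducible apply Int.mem | with_reducible apply Int.subset | with_reducible apply Int.ltN | with_reducible apply Int.leN | with_reducible apply Int.fin | with_reducible apply Int.unique | with_reducible apply Int.all | with_reducible apply Int.ex | with_reducible apply IntF.fst | with_reducible apply IntF.snd | with_reducible apply IntF.app | with_reducible apply IntF.ite | with_reducible apply IntF.sep | with_reducible apply IntF.lam | with_reducible apply IntF.insert | with_reducible apply IntF.singleton | with_reducible apply IntF.union | with_reducible apply IntF.inter |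 with_reducible apply IntF.sdiff | with_reducible apply IntF.isUnion | with_reducible apply IntF.iimage | with_reducible apply IntF.the | with_reducible apply IntF.irec | with_reducible_and_instances apply IntF.add | with_reducible_and_instances apply IntF.mul | with_reducible apply IntF.succ | with_reducible apply IntF.val | (with_reducible refine Int.comp ?_ ?_; assumption) | (with_reducible refine Int.comp₂ ?_ ?_ ?_; assumption) | (with_reducible refine Int.comp₃ ?_ ?_ ?_ ?_; assumption) | (with_reducible refine Int.comp₄ ?_ ?_ ?_ ?_ ?_; assumption) | (with_reducible refine IntF.comp ?_ ?_; assumption) | (with_reducible refine IntF.comp₂ ?_ ?_ ?_; assumption) | (with_reducible refine IntF.comp₃ ?_ ?_ ?_ ?_; assumption) | with_reducible apply IntF.inl | with_reducible apply IntF.inr | with_reducible apply IntF.pair)))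
    ?_ ?_ k
  · intro n s
    exact E_zero.2 ⟨fun _ _ _ _ => Iff.rfl, fun _ _ => Iff.rfl⟩
  · intro k ih n s
    exact E_succ.2 ⟨ih n s, fun c => ⟨c, ih _ _⟩, fun c => ⟨c, ih _ _⟩⟩

theorem E.symm {k n : INat M} {s t : Sq M α} (h : E F k n s t) : E F k n t s := by
  have hE := int_E F
  refine E_ind (F := F) (p := fun k n s t => E F k n t s) (by (repeat' (first | with_reducible exact IntF.id | with_reducible exact IntF.fst' | with_reducible exact IntF.snd' | with_reducible exact IntF.const _ | with_reducible exact Int.const _ | assumption | with_reducible apply Int.and | with_reducible apply Int.or | with_reducible apply Int.not | with_reducible apply Int.imp | with_reducible apply Int.iff | with_reducible apply Int.ne | with_reducible apply Int.eq | with_reducible apply Int.mem | with_reducible apply Int.subset | with_reducible apply Int.ltN | with_reducible apply Int.leN | with_reducible apply Int.fin | with_reducible apply Int.unique | with_reducible apply Int.all | with_reducible apply Int.ex | with_reducible apply IntF.fst | with_reducible apply IntF.snd | with_reducible apply IntF.app | with_reducible apply IntF.ite | with_reducible apply IntF.sep | with_reducible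 apply IntF.lam | with_reducible apply IntF.insert | with_reducible apply IntF.singleton | with_reducible apply IntF.union | with_reducible apply IntF.inter | with_reducible apply IntF.sdiff | with_reducible apply IntF.isUnion | with_reducible apply IntF.iimage | with_reducible apply IntF.the | with_reducible apply IntF.irec | with_reducible_and_instances apply IntF.add | with_reducible_and_instances apply IntF.mul | with_reducible apply IntF.succ | with_reducible apply IntF.val | (with_reducible refine Int.comp ?_ ?_; assumption) | (with_reducible refine Int.comp₂ ?_ ?_ ?_; assumption) | (with_reducible refine Int.comp₃ ?_ ?_ ?_ ?_; assumption) | (with_reducible refine Int.comp₄ ?_ ?_ ?_ ?_ ?_; assumption) | (with_reducible refine IntF.comp ?_ ?_; assumption) | (with_reducible refine IntF.comp₂ ?_ ?_ ?_; assumption) | (with_reducible refine IntF.comp₃ ?_ ?_ ?_ ?_; assumption) | with_reducible apply IntF.inl | with_reducible apply IntF.inr | with_reducible apply IntF.pair))) ?_ ?_ k n s t h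
  · intro n s t h
    have h' := E_zero.1 h
    exact E_zero.2 ⟨fun i j hi hj => (h'.1 i j hi hj).symm, fun J J' => (h'.2 J J').symm⟩
  · intro k ih n s t h
    obtain ⟨h1, h2, h3⟩ := E_succ.1 h
    refine E_succ.2 ⟨ih _ _ _ h1, fun c => ?_, fun d => ?_⟩
    · obtain ⟨d, hd⟩ := h3 c
      exact ⟨d, ih _ _ _ hd⟩
    · obtain ⟨c, hc⟩ := h2 d
      exact ⟨c, ih _ _ _ hc⟩

theorem E.trans {k n : INat M} {s t r : Sq M α} (h : E F k n s t) (h' : E F k n t r) :
    E F k n s r := by
  have hE := int_E F
  refine E_ind (F := F) (p := fun k n s t => ∀ r, E F k n t r → E F k n s r) (by (repeat' (first | with_reducible exact IntF.id | with_reducible exact IntF.fst' | with_reducible exact IntF.snd' | with_reducible exact IntF.const _ | with_reducible exact Int.const _ | assumption | with_reducible apply Int.and | with_reducible apply Int.or | with_reducible apply Int.not | with_reducible apply Int.imp | with_reducible apply Int.iff | with_reducible apply Int.ne | with_reducible apply Int.eq | with_reducible apply Int.mem | with_reducible apply Int.subset | with_reducible apply Int.ltN | with_reducible apply Int.leN | with_reducible apply Int.fin | with_reducible apply Int.unique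 | with_reducible apply Int.all | with_reducible apply Int.ex | with_reducible apply IntF.fst | with_reducible apply IntF.snd | with_reducible apply IntF.app | with_reducible apply IntF.ite | with_reducible apply IntF.sep | with_reducible apply IntF.lam | with_reducible apply IntF.insert | with_reducible apply IntF.singleton | with_reducible apply IntF.union | with_reducible apply IntF.inter | with_reducible apply IntF.sdiff | with_reducible apply IntF.isUnion | with_reducible apply IntF.iimage | with_reducible apply IntF.the | with_reducible apply IntF.irec | with_reducible_and_instances apply IntF.add | with_reducible_and_instances apply IntF.mul | with_reducible apply IntF.succ | with_reducible apply IntF.val | (with_reducible refine Int.comp ?_ ?_; assumption) | (with_reducible refine Int.comp₂ ?_ ?_ ?_; assumption) | (with_reducible refine Int.comp₃ ?_ ?_ ?_ ?_; assumption) | (with_reducible refine Int.comp₄ ?_ ?_ ?_ ?_ ?_; assumption) | (with_reducible refine IntF.comp ?_ ?_; assumption) | (with_reducible refine IntF.comp₂ ?_ ?_ ?_; assumption) | (with_reducible refine IntF.comp₃ ?_ ?_ ?_ ?_; assumption) | with_reducible apply IntF.inl | with_reducible apply IntF.inr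 | with_reducible apply IntF.pair))) ?_ ?_ k n s t h
    r h'
  · intro n s t h r h'
    have h1 := E_zero.1 h
    have h2 := E_zero.1 h'
    exact E_zero.2 ⟨fun i j hi hj => (h1.1 i j hi hj).trans (h2.1 i j hi hj),
      fun J J' => (h1.2 J J').trans (h2.2 J J')⟩
  · intro k ih n s t h r h'
    obtain ⟨h1, h2, h3⟩ := E_succ.1 h
    obtain ⟨h1', h2', h3'⟩ := E_succ.1 h'
    refine E_succ.2 ⟨ih _ _ _ h1 _ h1', fun c => ?_, fun d => ?_⟩
    · obtain ⟨d, hd⟩ := h2 c
      obtain ⟨e, he⟩ := h2' d
      exact ⟨e, ih _ _ _ hd _ he⟩
    · obtain ⟨c, hc⟩ := h3' d
      obtain ⟨b, hb⟩ := h3 c
      exact ⟨b, ih _ _ _ hb _ hc⟩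

theorem E.pred {k l n : INat M} {s t : Sq M α} (hkl : k ≤ l) (h : E F l n s t) : E F k n s t := by
  have hE := int_E F
  revert hkl h
  refine INat.ind (p := fun l : INat M => k ≤ l → E F l n s t → E F k n s t) (by (repeat' (first | with_reducible exact IntF.id | with_reducible exact IntF.fst' | with_reducible exact IntF.snd' | with_reducible exact IntF.const _ | with_reducible exact Int.const _ | assumption | with_reducible apply Int.and | with_reducible apply Int.or | with_reducible apply Int.not | with_reducible apply Int.imp | with_reducible apply Int.iff | with_reducible apply Int.ne | with_reducible apply Int.eq | with_reducible apply Int.mem | with_reducible apply Int.subset | with_reducible apply Int.ltN | with_reducible apply Int.leN | with_reducible apply Int.fin | with_reducible apply Int.unique | with_reducible apply Int.all | with_reducible apply Int.ex | with_reducible apply IntF.fst | with_reducible apply IntF.snd | with_reducible apply IntF.app | with_reducible apply IntF.ite | with_reducible apply IntF.sep | with_reducible apply IntF.lam | with_reducible apply IntF.insert | with_reducible apply IntF.singleton | with_reducible apply IntF.union | with_reducible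 apply IntF.inter | with_reducible apply IntF.sdiff | with_reducible apply IntF.isUnion | with_reducible apply IntF.iimage | with_reducible apply IntF.the | with_reducible apply IntF.irec | with_reducible_and_instances apply IntF.add | with_reducible_and_instances apply IntF.mul | with_reducible apply IntF.succ | with_reducible apply IntF.val | (with_reducible refine Int.comp ?_ ?_; assumption) | (with_reducible refine Int.comp₂ ?_ ?_ ?_; assumption) | (with_reducible refine Int.comp₃ ?_ ?_ ?_ ?_; assumption) | (with_reducible refine Int.comp₄ ?_ ?_ ?_ ?_ ?_; assumption) | (with_reducible refine IntF.comp ?_ ?_; assumption) | (with_reducible refine IntF.comp₂ ?_ ?_ ?_; assumption) | (with_reducible refine IntF.comp₃ ?_ ?_ ?_ ?_; assumption) | with_reducible apply IntF.inl | with_reducible apply IntF.inr | with_reducible apply IntF.pair))) ?_ ?_ l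
  · intro h1 h2
    have : k = 0 := le_antisymm h1 (INat.zero_le _)
    rw [this]
    exact h2
  · intro l ih h1 h2
    rcases h1.lt_or_eq with h3 | h3
    · exact ih (INat.lt_succ_iff.1 h3) (E_succ.1 h2).1
    · rw [h3]
      exact h2

/-- Reindexing. -/
theorem E.reidx {k n : INat M} {s t : Sq M α} (h : E F k n s t) :
    ∀ (m : INat M) (s' t' : Sq M α), (∀ i, i < m → ∃ i', i' < n ∧ s' i = s i' ∧ t' i = t i') →
      E F k m s' t' := by
  have hE := int_E F
  refine E_ind (F := F) (p := fun k n s t => ∀ (m : INat M) (s' t' : Sq M α),
    (∀ i, i < m → ∃ i', i' < n ∧ s' i = s i' ∧ t' i = t i') → E F k m s' t') (by (repeat' (first | with_reducible exact IntF.id | with_reducible exact IntF.fst' | with_reducible exact IntF.snd' | with_reducible exact IntF.const _ | with_reducible exact Int.const _ | assumption | with_reducible apply Int.and | with_reducible apply Int.or | with_reducible apply Int.not | with_reducible apply Int.imp | with_reducible apply Int.iff | with_reducible apply Int.ne | with_reducible apply Int.eq | with_reducible apply Int.mem | with_reducible apply Int.subset | with_reducible apply Int.ltN | with_reducible apply Int.leN | with_reducible apply Int.fin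 | with_reducible apply Int.unique | with_reducible apply Int.all | with_reducible apply Int.ex | with_reducible apply IntF.fst | with_reducible apply IntF.snd | with_reducible apply IntF.app | with_reducible apply IntF.ite | with_reducible apply IntF.sep | with_reducible apply IntF.lam | with_reducible apply IntF.insert | with_reducible apply IntF.singleton | with_reducible apply IntF.union | with_reducible apply IntF.inter | with_reducible apply IntF.sdiff | with_reducible apply IntF.isUnion | with_reducible apply IntF.iimage | with_reducible apply IntF.the | with_reducible apply IntF.irec | with_reducible_and_instances apply IntF.add | with_reducible_and_instances apply IntF.mul | with_reducible apply IntF.succ | with_reducible apply IntF.val | (with_reducible refine Int.comp ?_ ?_; assumption) | (with_reducible refine Int.comp₂ ?_ ?_ ?_; assumption) | (with_reducible refine Int.comp₃ ?_ ?_ ?_ ?_; assumption) | (with_reducible refine Int.comp₄ ?_ ?_ ?_ ?_ ?_; assumption) | (with_reducible refine IntF.comp ?_ ?_; assumption) | (with_reducible refine IntF.comp₂ ?_ ?_ ?_; assumption) | (with_reducible refine IntF.comp₃ ?_ ?_ ?_ ?_; assumption) | with_reducible apply IntF.inl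 | with_reducible apply IntF.inr | with_reducible apply IntF.pair))) ?_ ?_ k n s t h
  · intro n s t h m s' t' hg
    have h1 := E_zero.1 h
    have hpat : ∀ i i', i < m → i' < n → (s' i = s i' ↔ t' i = t i') := by
      intro i i' hi hi'
      obtain ⟨g, hg1, hg2, hg3⟩ := hg i hi
      rw [hg2, hg3]
      exact h1.1 _ _ hg1 hi'
    refine E_zero.2 ⟨fun i j hi hj => ?_, fun J J' => ?_⟩
    · obtain ⟨g, hg1, hg2, hg3⟩ := hg j hj
      rw [hg2, hg3]
      exact hpat i g hi hg1
    · have key : ∀ J : IPow M (INat M × κ), ∃ K : IPow M (INat M × κ),
          real n s K = real m s' J ∧ real n t K = real m t' J := by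
        intro J
        have hI : Int M (fun q : INat M × κ => (q.1 < n ∧ (∃ i, i < m ∧ (i, q.2) ∈ J ∧
            s' i = s q.1)) ∨ ((m, q.2) ∈ J ∧ ∀ i, i < m → s' i ≠ s q.1) ∧ q.1 < n ∨
              (q.1 = n ∧ (m, q.2) ∈ J)) := by (repeat' (first | with_reducible exact IntF.id | with_reducible exact IntF.fst' | with_reducible exact IntF.snd' | with_reducible exact IntF.const _ | with_reducible exact Int.const _ | assumption | with_reducible apply Int.and | with_reducible apply Int.or | with_reducible apply Int.not | with_reducible apply Int.imp | with_reducible apply Int.iff | with_reducible apply Int.ne | with_reducible apply Int.eq | with_reducible apply Int.mem | with_reducible apply Int.subset | with_reducible apply Int.ltN | with_reducible apply Int.leN | with_reducible apply Int.fin | with_reducible apply Int.unique | with_reducible apply Int.all | with_reducible apply Int.ex | with_reducible apply IntF.fst | with_reducible apply IntF.snd | with_reducible apply IntF.app | with_reducible apply IntF.ite | with_reducible apply IntF.sep | with_reducible apply IntF.lam | with_reducible apply IntF.insert | with_reducible apply IntF.singleton | with_reducible apply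 IntF.union | with_reducible apply IntF.inter | with_reducible apply IntF.sdiff | with_reducible apply IntF.isUnion | with_reducible apply IntF.iimage | with_reducible apply IntF.the | with_reducible apply IntF.irec | with_reducible_and_instances apply IntF.add | with_reducible_and_instances apply IntF.mul | with_reducible apply IntF.succ | with_reducible apply IntF.val | (with_reducible refine Int.comp ?_ ?_; assumption) | (with_reducible refine Int.comp₂ ?_ ?_ ?_; assumption) | (with_reducible refine Int.comp₃ ?_ ?_ ?_ ?_; assumption) | (with_reducible refine Int.comp₄ ?_ ?_ ?_ ?_ ?_; assumption) | (with_reducible refine IntF.comp ?_ ?_; assumption) | (with_reducible refine IntF.comp₂ ?_ ?_ ?_; assumption) | (with_reducible refine IntF.comp₃ ?_ ?_ ?_ ?_; assumption) | with_reducible apply IntF.inl | with_reducible apply IntF.inr | with_reducible apply IntF.pair))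
        obtain ⟨K, hK⟩ : ∃ K : IPow M (INat M × κ), ∀ q, q ∈ K ↔ ((q.1 < n ∧ (∃ i, i < m ∧
            (i, q.2) ∈ J ∧ s' i = s q.1)) ∨ ((m, q.2) ∈ J ∧ ∀ i, i < m → s' i ≠ s q.1) ∧ q.1 < n ∨
              (q.1 = n ∧ (m, q.2) ∈ J)) := ⟨_, fun q => mem_sep hI⟩
        refine ⟨K, IPow.ext' ?_, IPow.ext' ?_⟩
        · rintro ⟨a, j⟩
          rw [mem_real, mem_real]
          simp only [hK]
          constructor
          · rintro (⟨i, hi, h2, rfl⟩ | ⟨h2, h3⟩)
            · rcases h2 with ⟨_, i', h4, h5, h6⟩ | ⟨⟨h4, h5⟩, _⟩ | ⟨h4, h5⟩
              · exact Or.inl ⟨i', h4, h5, h6⟩
              · exact Or.inr ⟨h4, h5⟩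
              · exact absurd h4 hi.ne
            · rcases h2 with ⟨h4, _⟩ | ⟨_, h4⟩ | ⟨_, h5⟩
              · exact absurd h4 (lt_irrefl _)
              · exact absurd h4 (lt_irrefl _)
              · refine Or.inr ⟨h5, fun i hi he => ?_⟩
                obtain ⟨g, hg1, hg2, hg3⟩ := hg i hi
                exact h3 g hg1 (hg2.symm.trans he)
          · rintro (⟨i, hi, h2, rfl⟩ | ⟨h2, h3⟩)
            · obtain ⟨g, hg1, hg2, hg3⟩ := hg i hi
              exact Or.inl ⟨g, hg1, Or.inl ⟨hg1, i, hi, h2, hg2⟩, hg2.symm⟩
            · by_cases h4 : ∃ i, i < n ∧ s i = a
              · obtain ⟨i, hi, rfl⟩ := h4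
                exact Or.inl ⟨i, hi, Or.inr (Or.inl ⟨⟨h2, h3⟩, hi⟩), rfl⟩
              · refine Or.inr ⟨Or.inr (Or.inr ⟨by trivial, h2⟩), fun i hi he => h4 ⟨i, hi, he⟩⟩
        · rintro ⟨a, j⟩
          rw [mem_real, mem_real]
          simp only [hK]
          constructor
          · rintro (⟨i, hi, h2, rfl⟩ | ⟨h2, h3⟩)
            · rcases h2 with ⟨_, i', h4, h5, h6⟩ | ⟨⟨h4, h5⟩, _⟩ | ⟨h4, h5⟩
              · exact Or.inl ⟨i', h4, h5, (hpat _ _ h4 hi).1 h6⟩
              · exact Or.inr ⟨h4, fun i' hi' he => h5 i' hi' ((hpat _ _ hi' hi).2 he)⟩
              · exact absurd h4 hi.ne
            · rcases h2 with ⟨h4, _⟩ | ⟨_, h4⟩ | ⟨_, h5⟩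
              · exact absurd h4 (lt_irrefl _)
              · exact absurd h4 (lt_irrefl _)
              · refine Or.inr ⟨h5, fun i hi he => ?_⟩
                obtain ⟨g, hg1, hg2, hg3⟩ := hg i hi
                exact h3 g hg1 (hg3.symm.trans he)
          · rintro (⟨i, hi, h2, rfl⟩ | ⟨h2, h3⟩)
            · obtain ⟨g, hg1, hg2, hg3⟩ := hg i hi
              exact Or.inl ⟨g, hg1, Or.inl ⟨hg1, i, hi, h2, hg2⟩, hg3.symm⟩
            · by_cases h4 : ∃ i, i < n ∧ t i = a
              · obtain ⟨i, hi, rfl⟩ := h4
                exact Or.inl ⟨i, hi, Or.inr (Or.inl ⟨⟨h2, fun i' hi' he =>
                  h3 i' hi' ((hpat _ _ hi' hi).1 he)⟩, hi⟩), rfl⟩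
              · refine Or.inr ⟨Or.inr (Or.inr ⟨by trivial, h2⟩), fun i hi he => h4 ⟨i, hi, he⟩⟩
      obtain ⟨K, hK, hK'⟩ := key J
      obtain ⟨K2, hK2, hK2'⟩ := key J'
      rw [← hK, ← hK', ← hK2, ← hK2']
      exact h1.2 K K2
  · intro k ih n s t h m s' t' hg
    obtain ⟨h1, h2, h3⟩ := E_succ.1 h
    have hext : ∀ c d, ∀ i, i < m.succ → ∃ i', i' < n.succ ∧
        upd s' m c i = upd s n c i' ∧ upd t' m d i = upd t n d i' := by
      intro c d i hi
      rcases (INat.lt_succ_iff.1 hi).lt_or_eq with h4 | rfl
      · obtain ⟨g, hg1, hg2, hg3⟩ := hg i h4
        refine ⟨g, hg1.trans (INat.lt_succ_self n), ?_, ?_⟩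
        · rw [upd_lt _ _ h4, upd_lt _ _ hg1, hg2]
        · rw [upd_lt _ _ h4, upd_lt _ _ hg1, hg3]
      · refine ⟨n, INat.lt_succ_self n, ?_, ?_⟩
        · rw [upd_same, upd_same]
        · rw [upd_same, upd_same]
    refine E_succ.2 ⟨ih _ _ _ h1 m s' t' hg, fun c => ?_, fun d => ?_⟩
    · obtain ⟨d, hd⟩ := h2 c
      exact ⟨d, ih _ _ _ hd _ _ _ (hext c d)⟩
    · obtain ⟨c, hc⟩ := h3 d
      exact ⟨c, ih _ _ _ hc _ _ _ (hext c d)⟩

end

end Pool.Agent.R596.AM
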