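import Pool.Agent.R596.AmC

/-!
# Finite partial isomorphisms
-/

set_option autoImplicit false
set_option linter.all false
set_option maxHeartbeats 400000

namespace Pool.Agent.R596.AM

open FirstOrder FirstOrder.Language
open Pool.Agent.Helper672.ZFA
open Pool.Agent.H310

universe u u₁ u₂ u₃

section

variable {M : Type u} [L.Structure M] [hM : IsModel M]
variable {α : Type u₁} {κ : Type u₂} [ITy M α] [ITy M κ]
variable (F : IFun M (IPow M (α × κ)) (IPow M (α × κ)))

/-- Finite partial isomorphisms. -/
def Gp (p : IPow M (α × α)) : Prop :=
  IFin p ∧ ∀ (n : INat M) (s t : Sq M α), (∀ i, i < n → (s i, t i) ∈ p) → Q F n s t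

theorem int_Gp : Int M (fun p : IPow M (α × α) => Gp F p) := by
  unfold Gp
  have h := int_Q F
  (repeat' (first | with_reducible exact IntF.id | with_reducible exact IntF.fst' | with_reducible exact IntF.snd' | with_reducible exact IntF.const _ | with_reducible exact Int.const _ | assumption | with_reducible apply Int.and | with_reducible apply Int.or | with_reducible apply Int.not | with_reducible apply Int.imp | with_reducible apply Int.iff | with_reducible apply Int.ne | with_reducible apply Int.eq | with_reducible apply Int.mem | with_reducible apply Int.subset | with_reducible apply Int.ltN | with_reducible apply Int.leN | with_reducible apply Int.fin | with_reducible apply Int.unique | with_reducible apply Int.all | with_reducible apply Int.ex | with_reducible apply IntF.fst | with_reducible apply IntF.snd | with_reducible apply IntF.app | with_reducible apply IntF.ite | with_reducible apply IntF.sep | with_reducible apply IntF.lam | with_reducible apply IntF.insert | with_reducible apply IntF.singleton | with_reducible apply IntF.union | with_reducible apply IntF.inter | with_reducible apply IntF.sdiff | with_reducible apply IntF.isUnion | with_reducible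 apply IntF.iimage | with_reducible apply IntF.the | with_reducible apply IntF.irec | with_reducible_and_instances apply IntF.add | with_reducible_and_instances apply IntF.mul | with_reducible apply IntF.succ | with_reducible apply IntF.val | (with_reducible refine Int.comp ?_ ?_; assumption) | (with_reducible refine Int.comp₂ ?_ ?_ ?_; assumption) | (with_reducible refine Int.comp₃ ?_ ?_ ?_ ?_; assumption) | (with_reducible refine Int.comp₄ ?_ ?_ ?_ ?_ ?_; assumption) | (with_reducible refine IntF.comp ?_ ?_; assumption) | (with_reducible refine IntF.comp₂ ?_ ?_ ?_; assumption) | (with_reducible refine IntF.comp₃ ?_ ?_ ?_ ?_; assumption) | with_reducible apply IntF.inl | with_reducible apply IntF.inr | with_reducible apply IntF.pair))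

variable {F}

/-- Enumerations. -/
theorem exists_en (hA : Am M α) {p : IPow M (α × α)} (hp : IFin p) :
    ∃ (n : INat M) (s t : Sq M α), ∀ q, q ∈ p ↔ ∃ i, i < n ∧ (s i, t i) = q := by
  obtain ⟨a0, _⟩ := hA.new (p := fun _ => False) ⟨∅, IFin.empty, fun _ h => h.elim⟩
  have hu := int_upd (M := M) (α := α)
  refine IFin.ind (p := fun p : IPow M (α × α) => ∃ (n : INat M) (s t : Sq M α),
    ∀ q, q ∈ p ↔ ∃ i, i < n ∧ (s i, t i) = q) (by (repeat' (first | with_reducible exact IntF.id | with_reducible exact IntF.fst' | with_reducible exact IntF.snd' | with_reducible exact IntF.const _ | with_reducible exact Int.const _ | assumption | with_reducible apply Int.and | with_reducible apply Int.or | with_reducible apply Int.not | with_reducible apply Int.imp | with_reducible apply Int.iff | with_reducible apply Int.ne | with_reducible apply Int.eq | with_reducible apply Int.mem | with_reducible apply Int.subset | with_reducible apply Int.ltN | with_reducible apply Int.leN | with_reducible apply Int.fin | with_reducible apply Int.unique | with_reducible apply Int.all | with_reducible apply Int.ex | with_reducible apply IntF.fst | with_reducible apply IntF.snd | with_reducible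 apply IntF.app | with_reducible apply IntF.ite | with_reducible apply IntF.sep | with_reducible apply IntF.lam | with_reducible apply IntF.insert | with_reducible apply IntF.singleton | with_reducible apply IntF.union | with_reducible apply IntF.inter | with_reducible apply IntF.sdiff | with_reducible apply IntF.isUnion | with_reducible apply IntF.iimage | with_reducible apply IntF.the | with_reducible apply IntF.irec | with_reducible_and_instances apply IntF.add | with_reducible_and_instances apply IntF.mul | with_reducible apply IntF.succ | with_reducible apply IntF.val | (with_reducible refine Int.comp ?_ ?_; assumption) | (with_reducible refine Int.comp₂ ?_ ?_ ?_; assumption) | (with_reducible refine Int.comp₃ ?_ ?_ ?_ ?_; assumption) | (with_reducible refine Int.comp₄ ?_ ?_ ?_ ?_ ?_; assumption) | (with_reducible refine IntF.comp ?_ ?_; assumption) | (with_reducible refine IntF.comp₂ ?_ ?_ ?_; assumption) | (with_reducible refine IntF.comp₃ ?_ ?_ ?_ ?_; assumption) | with_reducible apply IntF.inl | with_reducible apply IntF.inr | with_reducible apply IntF.pair))) ?_ ?_ p hp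
  · refine ⟨0, ⟨fun _ => a0, IntF.const a0⟩, ⟨fun _ => a0, IntF.const a0⟩, fun q => ?_⟩
    simp
  · rintro p q hp hq ⟨n, s, t, h⟩
    refine ⟨n.succ, upd s n q.1, upd t n q.2, fun r => ?_⟩
    rw [mem_insert, h r]
    constructor
    · rintro (rfl | ⟨i, hi, he⟩)
      · exact ⟨n, INat.lt_succ_self n, by rw [upd_same, upd_same]⟩
      · exact ⟨i, hi.trans (INat.lt_succ_self n), by rw [upd_lt _ _ hi, upd_lt _ _ hi]; exact he⟩
    · rintro ⟨i, hi, he⟩
      rcases (INat.lt_succ_iff.1 hi).lt_or_eq with h1 | rfl
      · rw [upd_lt _ _ h1, upd_lt _ _ h1] at he
        exact Or.inr ⟨i, h1, he⟩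
      · rw [upd_same, upd_same] at he
        exact Or.inl he.symm

theorem Gp.of_en {p : IPow M (α × α)} {n : INat M} {s t : Sq M α} (h : Q F n s t)
    (hp : ∀ q, q ∈ p → ∃ i, i < n ∧ (s i, t i) = q) : Gp F p := by
  constructor
  · have h1 : FinP M (fun q : α × α => ∃ i, i < n ∧ (s i, t i) = q) :=
      (finP_lt n).image (f := fun i => (s i, t i)) (by (repeat' (first | with_reducible exact IntF.id | with_reducible exact IntF.fst' | with_reducible exact IntF.snd' | with_reducible exact IntF.const _ | with_reducible exact Int.const _ | assumption | with_reducible apply Int.and | with_reducible apply Int.or | with_reducible apply Int.not | with_reducible apply Int.imp | with_reducible apply Int.iff | with_reducible apply Int.ne | with_reducible apply Int.eq | with_reducible apply Int.mem | with_reducible apply Int.subset | with_reducible apply Int.ltN | with_reducible apply Int.leN | with_reducible apply Int.fin | with_reducible apply Int.unique | with_reducible apply Int.all | with_reducible apply Int.ex | with_reducible apply IntF.fst | with_reducible apply IntF.snd | with_reducible apply IntF.app | with_reducible apply IntF.ite | with_reducible apply IntF.sep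 | with_reducible apply IntF.lam | with_reducible apply IntF.insert | with_reducible apply IntF.singleton | with_reducible apply IntF.union | with_reducible apply IntF.inter | with_reducible apply IntF.sdiff | with_reducible apply IntF.isUnion | with_reducible apply IntF.iimage | with_reducible apply IntF.the | with_reducible apply IntF.irec | with_reducible_and_instances apply IntF.add | with_reducible_and_instances apply IntF.mul | with_reducible apply IntF.succ | with_reducible apply IntF.val | (with_reducible refine Int.comp ?_ ?_; assumption) | (with_reducible refine Int.comp₂ ?_ ?_ ?_; assumption) | (with_reducible refine Int.comp₃ ?_ ?_ ?_ ?_; assumption) | (with_reducible refine Int.comp₄ ?_ ?_ ?_ ?_ ?_; assumption) | (with_reducible refine IntF.comp ?_ ?_; assumption) | (with_reducible refine IntF.comp₂ ?_ ?_ ?_; assumption) | (with_reducible refine IntF.comp₃ ?_ ?_ ?_ ?_; assumption) | with_reducible apply IntF.inl | with_reducible apply IntF.inr | with_reducible apply IntF.pair)))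
    have h2 : FinP M (fun q : α × α => q ∈ p) := h1.mono hp
    obtain ⟨S, hS, hS'⟩ := h2
    exact hS.subset hS'
  · intro m s' t' hst
    refine h.reidx m s' t' fun i hi => ?_
    obtain ⟨i', hi', he⟩ := hp _ (hst i hi)
    obtain ⟨h1, h2⟩ := Prod.ext_iff.1 he
    exact ⟨i', hi', h1.symm, h2.symm⟩

theorem Gp.sub {p p' : IPow M (α × α)} (h : Gp F p) (hp : p' ⊆ p) : Gp F p' :=
  ⟨h.1.subset hp, fun n s t hst => h.2 n s t fun i hi => hp _ (hst i hi)⟩

theorem Gp.fn {p : IPow M (α × α)} (h : Gp F p) {a b b' : α} (h1 : (a, b) ∈ p)
    (h2 : (a, b') ∈ p) : b = b' := by
  have h3 := h.2 (INat.succ (INat.succ 0)) ⟨fun _ => a, IntF.const a⟩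
    (upd ⟨fun _ => b, IntF.const b⟩ 0 b') (by
      intro i hi
      rw [upd_apply]
      split_ifs
      · exact h2
      · exact h1)
  have h4 := (E_zero.1 (h3 0)).1 0 (INat.succ 0)
    ((INat.lt_succ_self _).trans (INat.lt_succ_self _)) (INat.lt_succ_self _)
  have h5 := h4.1 rfl
  rw [upd_same, upd_ne _ _ (INat.succ_ne_zero _)] at h5
  exact h5.symm

/-- The inverse. -/
noncomputable def ivp (p : IPow M (α × α)) : IPow M (α × α) := sep M fun q => (q.2, q.1) ∈ p

theorem mem_ivp {p : IPow M (α × α)} {q : α × α} : q ∈ ivp p ↔ (q.2, q.1) ∈ p := by
  unfold ivp
  rw [mem_sep (by (repeat' (first | with_reducible exact IntF.id | with_reducible exact IntF.fst' | with_reducible exact IntF.snd' | with_reducible exact IntF.const _ | with_reducible exact Int.const _ | assumption | with_reducible apply Int.and | with_reducible apply Int.or | with_reducible apply Int.not | with_reducible apply Int.imp | with_reducible apply Int.iff | with_reducible apply Int.ne | with_reducible apply Int.eq | with_reducible apply Int.mem | with_reducible apply Int.subset | with_reducible apply Int.ltN | with_reducible apply Int.leN | with_reducible apply Int.fin | with_reducible apply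 Int.unique | with_reducible apply Int.all | with_reducible apply Int.ex | with_reducible apply IntF.fst | with_reducible apply IntF.snd | with_reducible apply IntF.app | with_reducible apply IntF.ite | with_reducible apply IntF.sep | with_reducible apply IntF.lam | with_reducible apply IntF.insert | with_reducible apply IntF.singleton | with_reducible apply IntF.union | with_reducible apply IntF.inter | with_reducible apply IntF.sdiff | with_reducible apply IntF.isUnion | with_reducible apply IntF.iimage | with_reducible apply IntF.the | with_reducible apply IntF.irec | with_reducible_and_instances apply IntF.add | with_reducible_and_instances apply IntF.mul | with_reducible apply IntF.succ | with_reducible apply IntF.val | (with_reducible refine Int.comp ?_ ?_; assumption) | (with_reducible refine Int.comp₂ ?_ ?_ ?_; assumption) | (with_reducible refine Int.comp₃ ?_ ?_ ?_ ?_; assumption) | (with_reducible refine Int.comp₄ ?_ ?_ ?_ ?_ ?_; assumption) | (with_reducible refine IntF.comp ?_ ?_; assumption) | (with_reducible refine IntF.comp₂ ?_ ?_ ?_; assumption) | (with_reducible refine IntF.comp₃ ?_ ?_ ?_ ?_; assumption) | with_reducible apply IntF.inl | with_reducible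 apply IntF.inr | with_reducible apply IntF.pair)))]

theorem ivp_ivp (p : IPow M (α × α)) : ivp (ivp p) = p := IPow.ext' fun q => by
  rw [mem_ivp, mem_ivp]

theorem Gp.inv {p : IPow M (α × α)} (h : Gp F p) : Gp F (ivp p) := by
  constructor
  · have h1 : IFin (iimage (fun q : α × α => (q.2, q.1)) p) := h.1.image (by (repeat' (first | with_reducible exact IntF.id | with_reducible exact IntF.fst' | with_reducible exact IntF.snd' | with_reducible exact IntF.const _ | with_reducible exact Int.const _ | assumption | with_reducible apply Int.and | with_reducible apply Int.or | with_reducible apply Int.not | with_reducible apply Int.imp | with_reducible apply Int.iff | with_reducible apply Int.ne | with_reducible apply Int.eq | with_reducible apply Int.mem | with_reducible apply Int.subset | with_reducible apply Int.ltN | with_reducible apply Int.leN | with_reducible apply Int.fin | with_reducible apply Int.unique | with_reducible apply Int.all | with_reducible apply Int.ex | with_reducible apply IntF.fst | with_reducible apply IntF.snd | with_reducible apply IntF.app | with_reducible apply IntF.ite | with_reducible apply IntF.sep | with_reducible apply IntF.lam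 | with_reducible apply IntF.insert | with_reducible apply IntF.singleton | with_reducible apply IntF.union | with_reducible apply IntF.inter | with_reducible apply IntF.sdiff | with_reducible apply IntF.isUnion | with_reducible apply IntF.iimage | with_reducible apply IntF.the | with_reducible apply IntF.irec | with_reducible_and_instances apply IntF.add | with_reducible_and_instances apply IntF.mul | with_reducible apply IntF.succ | with_reducible apply IntF.val | (with_reducible refine Int.comp ?_ ?_; assumption) | (with_reducible refine Int.comp₂ ?_ ?_ ?_; assumption) | (with_reducible refine Int.comp₃ ?_ ?_ ?_ ?_; assumption) | (with_reducible refine Int.comp₄ ?_ ?_ ?_ ?_ ?_; assumption) | (with_reducible refine IntF.comp ?_ ?_; assumption) | (with_reducible refine IntF.comp₂ ?_ ?_ ?_; assumption) | (with_reducible refine IntF.comp₃ ?_ ?_ ?_ ?_; assumption) | with_reducible apply IntF.inl | with_reducible apply IntF.inr | with_reducible apply IntF.pair)))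
    refine h1.subset fun q hq => ?_
    rw [mem_iimage (by (repeat' (first | with_reducible exact IntF.id | with_reducible exact IntF.fst' | with_reducible exact IntF.snd' | with_reducible exact IntF.const _ | with_reducible exact Int.const _ | assumption | with_reducible apply Int.and | with_reducible apply Int.or | with_reducible apply Int.not | with_reducible apply Int.imp | with_reducible apply Int.iff | with_reducible apply Int.ne | with_reducible apply Int.eq | with_reducible apply Int.mem | with_reducible apply Int.subset | with_reducible apply Int.ltN | with_reducible apply Int.leN | with_reducible apply Int.fin | with_reducible apply Int.unique | with_reducible apply Int.all | with_reducible apply Int.ex | with_reducible apply IntF.fst | with_reducible apply IntF.snd | with_reducible apply IntF.app | with_reducible apply IntF.ite | with_reducible apply IntF.sep | with_reducible apply IntF.lam | with_reducible apply IntF.insert | with_reducible apply IntF.singleton | with_reducible apply IntF.union | with_reducible apply IntF.inter | with_reducible apply IntF.sdiff | with_reducible apply IntF.isUnion | with_reducible apply IntF.iimage | with_reducible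 apply IntF.the | with_reducible apply IntF.irec | with_reducible_and_instances apply IntF.add | with_reducible_and_instances apply IntF.mul | with_reducible apply IntF.succ | with_reducible apply IntF.val | (with_reducible refine Int.comp ?_ ?_; assumption) | (with_reducible refine Int.comp₂ ?_ ?_ ?_; assumption) | (with_reducible refine Int.comp₃ ?_ ?_ ?_ ?_; assumption) | (with_reducible refine Int.comp₄ ?_ ?_ ?_ ?_ ?_; assumption) | (with_reducible refine IntF.comp ?_ ?_; assumption) | (with_reducible refine IntF.comp₂ ?_ ?_ ?_; assumption) | (with_reducible refine IntF.comp₃ ?_ ?_ ?_ ?_; assumption) | with_reducible apply IntF.inl | with_reducible apply IntF.inr | with_reducible apply IntF.pair)))]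
    exact ⟨(q.2, q.1), mem_ivp.1 hq, rfl⟩
  · intro n s t hst
    exact (h.2 n t s fun i hi => mem_ivp.1 (hst i hi)).symm

theorem Gp.inj {p : IPow M (α × α)} (h : Gp F p) {a a' b : α} (h1 : (a, b) ∈ p)
    (h2 : (a', b) ∈ p) : a = a' := h.inv.fn (mem_ivp.2 h1) (mem_ivp.2 h2)

theorem Gp.comp {p q r : IPow M (α × α)} (hp : Gp F p) (hq : Gp F q) (hr : IFin r)
    (h : ∀ a c, (a, c) ∈ r → ∃ b, (a, b) ∈ p ∧ (b, c) ∈ q) : Gp F r := by
  refine ⟨hr, fun n s t hst => ?_⟩
  by_cases hn : ∃ i, i < n
  · obtain ⟨i0, hi0⟩ := hn
    have hm : IntF M (fun i : INat M => the (fun b => (s i, b) ∈ p) (s i0)) := by (repeat' (first | with_reducible exact IntF.id | with_reducible exact IntF.fst' | with_reducible exact IntF.snd' | with_reducible exact IntF.const _ | with_reducible exact Int.const _ | assumption | with_reducible apply Int.and | with_reducible apply Int.or | with_reducible apply Int.not | with_reducible apply Int.imp | with_reducible apply Int.iff | with_reducible apply Int.ne | with_reducible apply Int.eq | with_reducible apply Int.mem | with_reducible apply Int.subset | with_reducible apply Int.ltN | with_reducible apply Int.leN | with_reducible apply Int.fin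 | with_reducible apply Int.unique | with_reducible apply Int.all | with_reducible apply Int.ex | with_reducible apply IntF.fst | with_reducible apply IntF.snd | with_reducible apply IntF.app | with_reducible apply IntF.ite | with_reducible apply IntF.sep | with_reducible apply IntF.lam | with_reducible apply IntF.insert | with_reducible apply IntF.singleton | with_reducible apply IntF.union | with_reducible apply IntF.inter | with_reducible apply IntF.sdiff | with_reducible apply IntF.isUnion | with_reducible apply IntF.iimage | with_reducible apply IntF.the | with_reducible apply IntF.irec | with_reducible_and_instances apply IntF.add | with_reducible_and_instances apply IntF.mul | with_reducible apply IntF.succ | with_reducible apply IntF.val | (with_reducible refine Int.comp ?_ ?_; assumption) | (with_reducible refine Int.comp₂ ?_ ?_ ?_; assumption) | (with_reducible refine Int.comp₃ ?_ ?_ ?_ ?_; assumption) | (with_reducible refine Int.comp₄ ?_ ?_ ?_ ?_ ?_; assumption) | (with_reducible refine IntF.comp ?_ ?_; assumption) | (with_reducible refine IntF.comp₂ ?_ ?_ ?_; assumption) | (with_reducible refine IntF.comp₃ ?_ ?_ ?_ ?_; assumption) | with_reducible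 apply IntF.inl | with_reducible apply IntF.inr | with_reducible apply IntF.pair))
    have hm' : ∀ i, lam M (fun i : INat M => the (fun b => (s i, b) ∈ p) (s i0)) i =
      the (fun b => (s i, b) ∈ p) (s i0) := fun i => lam_apply hm i
    have key : ∀ i, i < n → (s i, lam M (fun i : INat M => the (fun b => (s i, b) ∈ p) (s i0)) i) ∈ p
        ∧ (lam M (fun i : INat M => the (fun b => (s i, b) ∈ p) (s i0)) i, t i) ∈ q := by
      intro i hi
      obtain ⟨b, hb1, hb2⟩ := h _ _ (hst i hi)
      have h1 : the (fun b => (s i, b) ∈ p) (s i0) = b :=
        the_eq ⟨b, hb1, fun b' hb' => hp.fn hb' hb1⟩ hb1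
      rw [hm', h1]
      exact ⟨hb1, hb2⟩
    exact (hp.2 n _ _ fun i hi => (key i hi).1).trans (hq.2 n _ _ fun i hi => (key i hi).2)
  · have h0 := hp.2 0 s t fun i hi => absurd hi INat.not_lt_zero
    exact h0.reidx n s t fun i hi => absurd ⟨i, hi⟩ hn

/-- The identity. -/
noncomputable def idp (U : IPow M α) : IPow M (α × α) := sep M fun q => q.1 = q.2 ∧ q.1 ∈ U

theorem int_idp : IntF M (fun U : IPow M α => idp U) := by
  unfold idp
  (repeat' (first | with_reducible exact IntF.id | with_reducible exact IntF.fst' | with_reducible exact IntF.snd' | with_reducible exact IntF.const _ | with_reducible exact Int.const _ | assumption | with_reducible apply Int.and | with_reducible apply Int.or | with_reducible apply Int.not | with_reducible apply Int.imp | with_reducible apply Int.iff | with_reducible apply Int.ne | with_reducible apply Int.eq | with_reducible apply Int.mem | with_reducible apply Int.subset | with_reducible apply Int.ltN | with_reducible apply Int.leN | with_reducible apply Int.fin | with_reducible apply Int.unique | with_reducible apply Int.all | with_reducible apply Int.ex | with_reducible apply IntF.fst | with_reducible apply IntF.snd |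 with_reducible apply IntF.app | with_reducible apply IntF.ite | with_reducible apply IntF.sep | with_reducible apply IntF.lam | with_reducible apply IntF.insert | with_reducible apply IntF.singleton | with_reducible apply IntF.union | with_reducible apply IntF.inter | with_reducible apply IntF.sdiff | with_reducible apply IntF.isUnion | with_reducible apply IntF.iimage | with_reducible apply IntF.the | with_reducible apply IntF.irec | with_reducible_and_instances apply IntF.add | with_reducible_and_instances apply IntF.mul | with_reducible apply IntF.succ | with_reducible apply IntF.val | (with_reducible refine Int.comp ?_ ?_; assumption) | (with_reducible refine Int.comp₂ ?_ ?_ ?_; assumption) | (with_reducible refine Int.comp₃ ?_ ?_ ?_ ?_; assumption) | (with_reducible refine Int.comp₄ ?_ ?_ ?_ ?_ ?_; assumption) | (with_reducible refine IntF.comp ?_ ?_; assumption) | (with_reducible refine IntF.comp₂ ?_ ?_ ?_; assumption) | (with_reducible refine IntF.comp₃ ?_ ?_ ?_ ?_; assumption) | with_reducible apply IntF.inl | with_reducible apply IntF.inr | with_reducible apply IntF.pair))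

theorem mem_idp {U : IPow M α} {q : α × α} : q ∈ idp U ↔ q.1 = q.2 ∧ q.1 ∈ U := by
  unfold idp
  rw [mem_sep (by (repeat' (first | with_reducible exact IntF.id | with_reducible exact IntF.fst' | with_reducible exact IntF.snd' | with_reducible exact IntF.const _ | with_reducible exact Int.const _ | assumption | with_reducible apply Int.and | with_reducible apply Int.or | with_reducible apply Int.not | with_reducible apply Int.imp | with_reducible apply Int.iff | with_reducible apply Int.ne | with_reducible apply Int.eq | with_reducible apply Int.mem | with_reducible apply Int.subset | with_reducible apply Int.ltN | with_reducible apply Int.leN | with_reducible apply Int.fin | with_reducible apply Int.unique | with_reducible apply Int.all | with_reducible apply Int.ex | with_reducible apply IntF.fst | with_reducible apply IntF.snd | with_reducible apply IntF.app | with_reducible apply IntF.ite | with_reducible apply IntF.sep | with_reducible apply IntF.lam | with_reducible apply IntF.insert | with_reducible apply IntF.singleton | with_reducible apply IntF.union | with_reducible apply IntF.inter | with_reducible apply IntF.sdiff | with_reducible apply IntF.isUnion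 | with_reducible apply IntF.iimage | with_reducible apply IntF.the | with_reducible apply IntF.irec | with_reducible_and_instances apply IntF.add | with_reducible_and_instances apply IntF.mul | with_reducible apply IntF.succ | with_reducible apply IntF.val | (with_reducible refine Int.comp ?_ ?_; assumption) | (with_reducible refine Int.comp₂ ?_ ?_ ?_; assumption) | (with_reducible refine Int.comp₃ ?_ ?_ ?_ ?_; assumption) | (with_reducible refine Int.comp₄ ?_ ?_ ?_ ?_ ?_; assumption) | (with_reducible refine IntF.comp ?_ ?_; assumption) | (with_reducible refine IntF.comp₂ ?_ ?_ ?_; assumption) | (with_reducible refine IntF.comp₃ ?_ ?_ ?_ ?_; assumption) | with_reducible apply IntF.inl | with_reducible apply IntF.inr | with_reducible apply IntF.pair)))]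

theorem Gp.id {U : IPow M α} (hU : IFin U) : Gp F (idp U) := by
  constructor
  · have h1 : IFin (iimage (fun a : α => (a, a)) U) := hU.image (by (repeat' (first | with_reducible exact IntF.id | with_reducible exact IntF.fst' | with_reducible exact IntF.snd' | with_reducible exact IntF.const _ | with_reducible exact Int.const _ | assumption | with_reducible apply Int.and | with_reducible apply Int.or | with_reducible apply Int.not | with_reducible apply Int.imp | with_reducible apply Int.iff | with_reducible apply Int.ne | with_reducible apply Int.eq | with_reducible apply Int.mem | with_reducible apply Int.subset | with_reducible apply Int.ltN | with_reducible apply Int.leN | with_reducible apply Int.fin | with_reducible apply Int.unique | with_reducible apply Int.all | with_reducible apply Int.ex | with_reducible apply IntF.fst | with_reducible apply IntF.snd | with_reducible apply IntF.app | with_reducible apply IntF.ite | with_reducible apply IntF.sep | with_reducible apply IntF.lam | with_reducible apply IntF.insert | with_reducible apply IntF.singleton | with_reducible apply IntF.union | with_reducible apply IntF.inter | with_reducible apply IntF.sdiff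 | with_reducible apply IntF.isUnion | with_reducible apply IntF.iimage | with_reducible apply IntF.the | with_reducible apply IntF.irec | with_reducible_and_instances apply IntF.add | with_reducible_and_instances apply IntF.mul | with_reducible apply IntF.succ | with_reducible apply IntF.val | (with_reducible refine Int.comp ?_ ?_; assumption) | (with_reducible refine Int.comp₂ ?_ ?_ ?_; assumption) | (with_reducible refine Int.comp₃ ?_ ?_ ?_ ?_; assumption) | (with_reducible refine Int.comp₄ ?_ ?_ ?_ ?_ ?_; assumption) | (with_reducible refine IntF.comp ?_ ?_; assumption) | (with_reducible refine IntF.comp₂ ?_ ?_ ?_; assumption) | (with_reducible refine IntF.comp₃ ?_ ?_ ?_ ?_; assumption) | with_reducible apply IntF.inl | with_reducible apply IntF.inr | with_reducible apply IntF.pair)))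
    refine h1.subset fun q hq => ?_
    rw [mem_iimage (by (repeat' (first | with_reducible exact IntF.id | with_reducible exact IntF.fst' | with_reducible exact IntF.snd' | with_reducible exact IntF.const _ | with_reducible exact Int.const _ | assumption | with_reducible apply Int.and | with_reducible apply Int.or | with_reducible apply Int.not | with_reducible apply Int.imp | with_reducible apply Int.iff | with_reducible apply Int.ne | with_reducible apply Int.eq | with_reducible apply Int.mem | with_reducible apply Int.subset | with_reducible apply Int.ltN | with_reducible apply Int.leN | with_reducible apply Int.fin | with_reducible apply Int.unique | with_reducible apply Int.all | with_reducible apply Int.ex | with_reducible apply IntF.fst | with_reducible apply IntF.snd | with_reducible apply IntF.app | with_reducible apply IntF.ite | with_reducible apply IntF.sep | with_reducible apply IntF.lam | with_reducible apply IntF.insert | with_reducible apply IntF.singleton | with_reducible apply IntF.union | with_reducible apply IntF.inter | with_reducible apply IntF.sdiff | with_reducible apply IntF.isUnion | with_reducible apply IntF.iimage | with_reducible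 apply IntF.the | with_reducible apply IntF.irec | with_reducible_and_instances apply IntF.add | with_reducible_and_instances apply IntF.mul | with_reducible apply IntF.succ | with_reducible apply IntF.val | (with_reducible refine Int.comp ?_ ?_; assumption) | (with_reducible refine Int.comp₂ ?_ ?_ ?_; assumption) | (with_reducible refine Int.comp₃ ?_ ?_ ?_ ?_; assumption) | (with_reducible refine Int.comp₄ ?_ ?_ ?_ ?_ ?_; assumption) | (with_reducible refine IntF.comp ?_ ?_; assumption) | (with_reducible refine IntF.comp₂ ?_ ?_ ?_; assumption) | (with_reducible refine IntF.comp₃ ?_ ?_ ?_ ?_; assumption) | with_reducible apply IntF.inl | with_reducible apply IntF.inr | with_reducible apply IntF.pair)))]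
    obtain ⟨h2, h3⟩ := mem_idp.1 hq
    exact ⟨q.1, h3, Prod.ext rfl h2⟩
  · intro n s t hst
    refine (Q.refl n s).reidx n s t fun i hi => ⟨i, hi, rfl, ?_⟩
    exact (mem_idp.1 (hst i hi)).1.symm

theorem Gp.ext (hA : Am M α) {p : IPow M (α × α)} (h : Gp F p) (c : α) :
    ∃ d, Gp F (insert (c, d) p) := by
  obtain ⟨n, s, t, hst⟩ := exists_en hA h.1
  have h1 := h.2 n s t fun i hi => (hst _).2 ⟨i, hi, rfl⟩
  obtain ⟨d, hd⟩ := h1.ext hA c
  refine ⟨d, Gp.of_en hd fun q hq => ?_⟩
  rcases mem_insert.1 hq with rfl | hq
  · exact ⟨n, INat.lt_succ_self n, by rw [upd_same, upd_same]⟩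
  · obtain ⟨i, hi, he⟩ := (hst q).1 hq
    exact ⟨i, hi.trans (INat.lt_succ_self n), by rw [upd_lt _ _ hi, upd_lt _ _ hi]; exact he⟩

theorem Gp.ext' (hA : Am M α) {p : IPow M (α × α)} (h : Gp F p) (d : α) :
    ∃ c, Gp F (insert (c, d) p) := by
  obtain ⟨c, hc⟩ := h.inv.ext hA d
  refine ⟨c, hc.inv.sub fun q hq => ?_⟩
  rw [mem_ivp, mem_insert, mem_ivp]
  rcases mem_insert.1 hq with rfl | hq
  · exact Or.inl rfl
  · exact Or.inr hq

/-- Extension to a finite set. -/
theorem Gp.extS (hA : Am M α) {p : IPow M (α × α)} (h : Gp F p) {S : IPow M α} (hS : IFin S) :
    ∃ p', Gp F p' ∧ p ⊆ p' ∧ ∀ a, a ∈ S → ∃ b, (a, b) ∈ p' := by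
  have hG := int_Gp F
  refine IFin.ind (p := fun S : IPow M α => ∃ p', Gp F p' ∧ p ⊆ p' ∧ ∀ a, a ∈ S → ∃ b, (a, b) ∈ p')
    (by (repeat' (first | with_reducible exact IntF.id | with_reducible exact IntF.fst' | with_reducible exact IntF.snd' | with_reducible exact IntF.const _ | with_reducible exact Int.const _ | assumption | with_reducible apply Int.and | with_reducible apply Int.or | with_reducible apply Int.not | with_reducible apply Int.imp | with_reducible apply Int.iff | with_reducible apply Int.ne | with_reducible apply Int.eq | with_reducible apply Int.mem | with_reducible apply Int.subset | with_reducible apply Int.ltN | with_reducible apply Int.leN | with_reducible apply Int.fin | with_reducible apply Int.unique | with_reducible apply Int.all | with_reducible apply Int.ex | with_reducible apply IntF.fst | with_reducible apply IntF.snd | with_reducible apply IntF.app | with_reducible apply IntF.ite | with_reducible apply IntF.sep | with_reducible apply IntF.lam | with_reducible apply IntF.insert | with_reducible apply IntF.singleton | with_reducible apply IntF.union | with_reducible apply IntF.inter | with_reducible apply IntF.sdiff | with_reducible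 apply IntF.isUnion | with_reducible apply IntF.iimage | with_reducible apply IntF.the | with_reducible apply IntF.irec | with_reducible_and_instances apply IntF.add | with_reducible_and_instances apply IntF.mul | with_reducible apply IntF.succ | with_reducible apply IntF.val | (with_reducible refine Int.comp ?_ ?_; assumption) | (with_reducible refine Int.comp₂ ?_ ?_ ?_; assumption) | (with_reducible refine Int.comp₃ ?_ ?_ ?_ ?_; assumption) | (with_reducible refine Int.comp₄ ?_ ?_ ?_ ?_ ?_; assumption) | (with_reducible refine IntF.comp ?_ ?_; assumption) | (with_reducible refine IntF.comp₂ ?_ ?_ ?_; assumption) | (with_reducible refine IntF.comp₃ ?_ ?_ ?_ ?_; assumption) | with_reducible apply IntF.inl | with_reducible apply IntF.inr | with_reducible apply IntF.pair))) ?_ ?_ S hS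
  · exact ⟨p, h, fun q hq => hq, fun a ha => absurd ha (by simp)⟩
  · rintro S a hS ha ⟨p', h1, h2, h3⟩
    obtain ⟨d, hd⟩ := h1.ext hA a
    refine ⟨_, hd, fun q hq => mem_insert.2 (Or.inr (h2 q hq)), fun b hb => ?_⟩
    rcases mem_insert.1 hb with rfl | hb
    · exact ⟨d, mem_insert.2 (Or.inl rfl)⟩
    · obtain ⟨c, hc⟩ := h3 b hb
      exact ⟨c, mem_insert.2 (Or.inr hc)⟩

theorem Gp.extS' (hA : Am M α) {p : IPow M (α × α)} (h : Gp F p) {S : IPow M α} (hS : IFin S) :
    ∃ p', Gp F p' ∧ p ⊆ p' ∧ ∀ b, b ∈ S → ∃ a, (a, b) ∈ p' := by
  obtain ⟨p', h1, h2, h3⟩ := h.inv.extS hA hS
  refine ⟨ivp p', h1.inv, fun q hq => mem_ivp.2 (h2 _ (mem_ivp.2 hq)), fun b hb => ?_⟩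
  obtain ⟨a, ha⟩ := h3 b hb
  exact ⟨a, mem_ivp.2 ha⟩

/-- The subset `y` is the image of `x` under the partial map, extended by the complement. -/
def Rl (p : IPow M (α × α)) (x y : IPow M (α × κ)) : Prop :=
  (∀ a b, (a, b) ∈ p → ∀ j, (a, j) ∈ x ↔ (b, j) ∈ y) ∧
    ∀ a b, (∀ c, ¬ (a, c) ∈ p) → (∀ c, ¬ (c, b) ∈ p) → ∀ j, (a, j) ∈ x ↔ (b, j) ∈ y

theorem IFin.fstS {p : IPow M (α × α)} (h : IFin p) : FinP M (fun a => ∃ c, (a, c) ∈ p) := by
  refine ⟨_, h.image (f := fun q : α × α => q.1) (by (repeat' (first | with_reducible exact IntF.id | with_reducible exact IntF.fst' | with_reducible exact IntF.snd' | with_reducible exact IntF.const _ | with_reducible exact Int.const _ | assumption | with_reducible apply Int.and | with_reducible apply Int.or | with_reducible apply Int.not | with_reducible apply Int.imp | with_reducible apply Int.iff | with_reducible apply Int.ne | with_reducible apply Int.eq | with_reducible apply Int.mem | with_reducible apply Int.subset | with_reducible apply Int.ltN | with_reducible apply Int.leN | with_reducible apply Int.fin | with_reducible apply Int.unique | with_reducible apply Int.all | with_reducible apply Int.ex | with_reducible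 apply IntF.fst | with_reducible apply IntF.snd | with_reducible apply IntF.app | with_reducible apply IntF.ite | with_reducible apply IntF.sep | with_reducible apply IntF.lam | with_reducible apply IntF.insert | with_reducible apply IntF.singleton | with_reducible apply IntF.union | with_reducible apply IntF.inter | with_reducible apply IntF.sdiff | with_reducible apply IntF.isUnion | with_reducible apply IntF.iimage | with_reducible apply IntF.the | with_reducible apply IntF.irec | with_reducible_and_instances apply IntF.add | with_reducible_and_instances apply IntF.mul | with_reducible apply IntF.succ | with_reducible apply IntF.val | (with_reducible refine Int.comp ?_ ?_; assumption) | (with_reducible refine Int.comp₂ ?_ ?_ ?_; assumption) | (with_reducible refine Int.comp₃ ?_ ?_ ?_ ?_; assumption) | (with_reducible refine Int.comp₄ ?_ ?_ ?_ ?_ ?_; assumption) | (with_reducible refine IntF.comp ?_ ?_; assumption) | (with_reducible refine IntF.comp₂ ?_ ?_ ?_; assumption) | (with_reducible refine IntF.comp₃ ?_ ?_ ?_ ?_; assumption) | with_reducible apply IntF.inl | with_reducible apply IntF.inr | with_reducible apply IntF.pair))), fun a ha => ?_⟩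
  rw [mem_iimage (by (repeat' (first | with_reducible exact IntF.id | with_reducible exact IntF.fst' | with_reducible exact IntF.snd' | with_reducible exact IntF.const _ | with_reducible exact Int.const _ | assumption | with_reducible apply Int.and | with_reducible apply Int.or | with_reducible apply Int.not | with_reducible apply Int.imp | with_reducible apply Int.iff | with_reducible apply Int.ne | with_reducible apply Int.eq | with_reducible apply Int.mem | with_reducible apply Int.subset | with_reducible apply Int.ltN | with_reducible apply Int.leN | with_reducible apply Int.fin | with_reducible apply Int.unique | with_reducible apply Int.all | with_reducible apply Int.ex | with_reducible apply IntF.fst | with_reducible apply IntF.snd | with_reducible apply IntF.app | with_reducible apply IntF.ite | with_reducible apply IntF.sep | with_reducible apply IntF.lam | with_reducible apply IntF.insert | with_reducible apply IntF.singleton | with_reducible apply IntF.union | with_reducible apply IntF.inter | with_reducible apply IntF.sdiff | with_reducible apply IntF.isUnion | with_reducible apply IntF.iimage | with_reducible apply IntF.the | with_reducible apply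 IntF.irec | with_reducible_and_instances apply IntF.add | with_reducible_and_instances apply IntF.mul | with_reducible apply IntF.succ | with_reducible apply IntF.val | (with_reducible refine Int.comp ?_ ?_; assumption) | (with_reducible refine Int.comp₂ ?_ ?_ ?_; assumption) | (with_reducible refine Int.comp₃ ?_ ?_ ?_ ?_; assumption) | (with_reducible refine Int.comp₄ ?_ ?_ ?_ ?_ ?_; assumption) | (with_reducible refine IntF.comp ?_ ?_; assumption) | (with_reducible refine IntF.comp₂ ?_ ?_ ?_; assumption) | (with_reducible refine IntF.comp₃ ?_ ?_ ?_ ?_; assumption) | with_reducible apply IntF.inl | with_reducible apply IntF.inr | with_reducible apply IntF.pair)))]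
  obtain ⟨c, hc⟩ := ha
  exact ⟨(a, c), hc, rfl⟩

theorem IFin.sndS {p : IPow M (α × α)} (h : IFin p) : FinP M (fun a => ∃ c, (c, a) ∈ p) := by
  refine ⟨_, h.image (f := fun q : α × α => q.2) (by (repeat' (first | with_reducible exact IntF.id | with_reducible exact IntF.fst' | with_reducible exact IntF.snd' | with_reducible exact IntF.const _ | with_reducible exact Int.const _ | assumption | with_reducible apply Int.and | with_reducible apply Int.or | with_reducible apply Int.not | with_reducible apply Int.imp | with_reducible apply Int.iff | with_reducible apply Int.ne | with_reducible apply Int.eq | with_reducible apply Int.mem | with_reducible apply Int.subset | with_reducible apply Int.ltN | with_reducible apply Int.leN | with_reducible apply Int.fin | with_reducible apply Int.unique | with_reducible apply Int.all | with_reducible apply Int.ex | with_reducible apply IntF.fst | with_reducible apply IntF.snd | with_reducible apply IntF.app | with_reducible apply IntF.ite | with_reducible apply IntF.sep | with_reducible apply IntF.lam | with_reducible apply IntF.insert | with_reducible apply IntF.singleton | with_reducible apply IntF.union | with_reducible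 apply IntF.inter | with_reducible apply IntF.sdiff | with_reducible apply IntF.isUnion | with_reducible apply IntF.iimage | with_reducible apply IntF.the | with_reducible apply IntF.irec | with_reducible_and_instances apply IntF.add | with_reducible_and_instances apply IntF.mul | with_reducible apply IntF.succ | with_reducible apply IntF.val | (with_reducible refine Int.comp ?_ ?_; assumption) | (with_reducible refine Int.comp₂ ?_ ?_ ?_; assumption) | (with_reducible refine Int.comp₃ ?_ ?_ ?_ ?_; assumption) | (with_reducible refine Int.comp₄ ?_ ?_ ?_ ?_ ?_; assumption) | (with_reducible refine IntF.comp ?_ ?_; assumption) | (with_reducible refine IntF.comp₂ ?_ ?_ ?_; assumption) | (with_reducible refine IntF.comp₃ ?_ ?_ ?_ ?_; assumption) | with_reducible apply IntF.inl | with_reducible apply IntF.inr | with_reducible apply IntF.pair))), fun a ha => ?_⟩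
  rw [mem_iimage (by (repeat' (first | with_reducible exact IntF.id | with_reducible exact IntF.fst' | with_reducible exact IntF.snd' | with_reducible exact IntF.const _ | with_reducible exact Int.const _ | assumption | with_reducible apply Int.and | with_reducible apply Int.or | with_reducible apply Int.not | with_reducible apply Int.imp | with_reducible apply Int.iff | with_reducible apply Int.ne | with_reducible apply Int.eq | with_reducible apply Int.mem | with_reducible apply Int.subset | with_reducible apply Int.ltN | with_reducible apply Int.leN | with_reducible apply Int.fin | with_reducible apply Int.unique | with_reducible apply Int.all | with_reducible apply Int.ex | with_reducible apply IntF.fst | with_reducible apply IntF.snd | with_reducible apply IntF.app | with_reducible apply IntF.ite | with_reducible apply IntF.sep | with_reducible apply IntF.lam | with_reducible apply IntF.insert | with_reducible apply IntF.singleton | with_reducible apply IntF.union | with_reducible apply IntF.inter | with_reducible apply IntF.sdiff | with_reducible apply IntF.isUnion | with_reducible apply IntF.iimage | with_reducible apply IntF.the | with_reducible apply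 IntF.irec | with_reducible_and_instances apply IntF.add | with_reducible_and_instances apply IntF.mul | with_reducible apply IntF.succ | with_reducible apply IntF.val | (with_reducible refine Int.comp ?_ ?_; assumption) | (with_reducible refine Int.comp₂ ?_ ?_ ?_; assumption) | (with_reducible refine Int.comp₃ ?_ ?_ ?_ ?_; assumption) | (with_reducible refine Int.comp₄ ?_ ?_ ?_ ?_ ?_; assumption) | (with_reducible refine IntF.comp ?_ ?_; assumption) | (with_reducible refine IntF.comp₂ ?_ ?_ ?_; assumption) | (with_reducible refine IntF.comp₃ ?_ ?_ ?_ ?_; assumption) | with_reducible apply IntF.inl | with_reducible apply IntF.inr | with_reducible apply IntF.pair)))]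
  obtain ⟨c, hc⟩ := ha
  exact ⟨(c, a), hc, rfl⟩

theorem Rl.reals (hA : Am M α) {p : IPow M (α × α)} (hp : IFin p) {n : INat M} {s t : Sq M α}
    (hst : ∀ q, q ∈ p ↔ ∃ i, i < n ∧ (s i, t i) = q) {x y : IPow M (α × κ)} (h : Rl p x y) :
    ∃ J, real n s J = x ∧ real n t J = y := by
  obtain ⟨a0, ha0⟩ := hA.new (IFin.fstS hp)
  obtain ⟨b0, hb0⟩ := hA.new (IFin.sndS hp)
  push Not at ha0 hb0
  have hI : Int M (fun q : INat M × κ => (q.1 < n ∧ (s q.1, q.2) ∈ x) ∨
    (q.1 = n ∧ (a0, q.2) ∈ x)) := by (repeat' (first | with_reducible exact IntF.id | with_reducible exact IntF.fst' | with_reducible exact IntF.snd' | with_reducible exact IntF.const _ | with_reducible exact Int.const _ | assumption | with_reducible apply Int.and | with_reducible apply Int.or | with_reducible apply Int.not | with_reducible apply Int.imp | with_reducible apply Int.iff | with_reducible apply Int.ne | with_reducible apply Int.eq | with_reducible apply Int.mem | with_reducible apply Int.subset | with_reducible apply Int.ltN | with_reducible apply Int.leN | with_reducible apply Int.fin | with_reducible apply Int.unique | with_reducible apply Int.all | with_reducible apply Int.ex | with_reducible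 apply IntF.fst | with_reducible apply IntF.snd | with_reducible apply IntF.app | with_reducible apply IntF.ite | with_reducible apply IntF.sep | with_reducible apply IntF.lam | with_reducible apply IntF.insert | with_reducible apply IntF.singleton | with_reducible apply IntF.union | with_reducible apply IntF.inter | with_reducible apply IntF.sdiff | with_reducible apply IntF.isUnion | with_reducible apply IntF.iimage | with_reducible apply IntF.the | with_reducible apply IntF.irec | with_reducible_and_instances apply IntF.add | with_reducible_and_instances apply IntF.mul | with_reducible apply IntF.succ | with_reducible apply IntF.val | (with_reducible refine Int.comp ?_ ?_; assumption) | (with_reducible refine Int.comp₂ ?_ ?_ ?_; assumption) | (with_reducible refine Int.comp₃ ?_ ?_ ?_ ?_; assumption) | (with_reducible refine Int.comp₄ ?_ ?_ ?_ ?_ ?_; assumption) | (with_reducible refine IntF.comp ?_ ?_; assumption) | (with_reducible refine IntF.comp₂ ?_ ?_ ?_; assumption) | (with_reducible refine IntF.comp₃ ?_ ?_ ?_ ?_; assumption) | with_reducible apply IntF.inl | with_reducible apply IntF.inr | with_reducible apply IntF.pair))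
  obtain ⟨J, hJ⟩ : ∃ J : IPow M (INat M × κ), ∀ q, q ∈ J ↔ ((q.1 < n ∧ (s q.1, q.2) ∈ x) ∨
    (q.1 = n ∧ (a0, q.2) ∈ x)) := ⟨_, fun q => mem_sep hI⟩
  have hd : ∀ a, (∀ i, i < n → s i ≠ a) → ∀ c, ¬ (a, c) ∈ p := by
    intro a ha c hc
    obtain ⟨i, hi, he⟩ := (hst _).1 hc
    exact ha i hi (Prod.ext_iff.1 he).1
  have hr : ∀ b, (∀ i, i < n → t i ≠ b) → ∀ c, ¬ (c, b) ∈ p := by
    intro b hb c hc
    obtain ⟨i, hi, he⟩ := (hst _).1 hc
    exact hb i hi (Prod.ext_iff.1 he).2
  refine ⟨J, IPow.ext' ?_, IPow.ext' ?_⟩
  · rintro ⟨a, j⟩
    rw [mem_real]
    simp only [hJ]
    constructor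
    · rintro (⟨i, hi, h1, rfl⟩ | ⟨h1, h2⟩)
      · rcases h1 with ⟨_, h1⟩ | ⟨h1, _⟩
        · exact h1
        · exact absurd h1 hi.ne
      · rcases h1 with ⟨h1, _⟩ | ⟨_, h1⟩
        · exact absurd h1 (lt_irrefl _)
        · exact (h.2 _ _ (hd a h2) hb0 j).2 ((h.2 _ _ ha0 hb0 j).1 h1)
    · intro h1
      by_cases h2 : ∃ i, i < n ∧ s i = a
      · obtain ⟨i, hi, rfl⟩ := h2
        exact Or.inl ⟨i, hi, Or.inl ⟨hi, h1⟩, rfl⟩
      · have h2' : ∀ i, i < n → s i ≠ a := fun i hi he => h2 ⟨i, hi, he⟩
        refine Or.inr ⟨Or.inr ⟨by trivial, ?_⟩, h2'⟩
        exact (h.2 _ _ ha0 hb0 j).2 ((h.2 _ _ (hd a h2') hb0 j).1 h1)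
  · rintro ⟨b, j⟩
    rw [mem_real]
    simp only [hJ]
    constructor
    · rintro (⟨i, hi, h1, rfl⟩ | ⟨h1, h2⟩)
      · rcases h1 with ⟨_, h1⟩ | ⟨h1, _⟩
        · exact (h.1 _ _ ((hst _).2 ⟨i, hi, rfl⟩) j).1 h1
        · exact absurd h1 hi.ne
      · rcases h1 with ⟨h1, _⟩ | ⟨_, h1⟩
        · exact absurd h1 (lt_irrefl _)
        · exact (h.2 _ _ ha0 (hr b h2) j).1 h1
    · intro h1
      by_cases h2 : ∃ i, i < n ∧ t i = b
      · obtain ⟨i, hi, rfl⟩ := h2
        exact Or.inl ⟨i, hi, Or.inl ⟨hi, (h.1 _ _ ((hst _).2 ⟨i, hi, rfl⟩) j).2 h1⟩, rfl⟩
      · have h2' : ∀ i, i < n → t i ≠ b := fun i hi he => h2 ⟨i, hi, he⟩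
        exact Or.inr ⟨Or.inr ⟨by trivial, (h.2 _ _ ha0 (hr b h2') j).2 h1⟩, h2'⟩

/-- Partial isomorphisms respect `F`. -/
theorem Gp.pres (hA : Am M α) {p : IPow M (α × α)} (hp : Gp F p) {x y x' y' : IPow M (α × κ)}
    (h : Rl p x y) (h' : Rl p x' y') (he : F x = x') : F y = y' := by
  obtain ⟨n, s, t, hst⟩ := exists_en hA hp.1
  obtain ⟨J, hJ, hJ'⟩ := h.reals hA hp.1 hst
  obtain ⟨K, hK, hK'⟩ := h'.reals hA hp.1 hst
  have h1 := hp.2 n s t fun i hi => (hst _).2 ⟨i, hi, rfl⟩
  have h2 := (E_zero.1 (h1 0)).2 J K
  rw [hJ, hJ', hK, hK'] at h2
  exact h2.1 he

end

end Pool.Agent.R596.AM
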