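import Pool.Agent.H310R3.Cards

/-!
# Amorphous sets in a model of set theory: the definitions

The language `LSet` of set theory has one binary relation symbol; `Mem x y` says that `x` is an
element of `y`. `IsNat n` says that `n` is a natural number of the model, `IsFinite s` that `s` is
in bijection in the model with such an `n`, and `App f x y` that the ordered pair of `x` and `y`
is an element of `f`.
-/

namespace Pool.Agent.R596Amorphous

open FirstOrder FirstOrder.Language
open Pool.Agent.Helper672.Plain (LSet Mem Zermelo IsPair IsOrdPair)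
open Pool.Agent.H310Cards

universe u

variable {M : Type u} [LSet.Structure M]

/-- `a` is amorphous: it is infinite and not the union of two disjoint infinite sets. -/
def IsAmorphous (a : M) : Prop :=
  ¬ IsFinite a ∧ ¬ ∃ s t, (∀ z, Mem z a ↔ Mem z s ∨ Mem z t) ∧ (¬ ∃ z, Mem z s ∧ Mem z t) ∧
    ¬ IsFinite s ∧ ¬ IsFinite t

/-- `x` is dually Dedekind finite: every function in the model from `x` onto `x` is injective. -/
def IsDuallyDedekindFinite (x : M) : Prop :=
  ∀ f, IsFun f x x → (∀ y, Mem y x → ∃ z, App f z y) → IsInj f x x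

/-- `q` is `P(a)^n`: the set of all functions from `n` to the power set of `a`. -/
def IsPowN (q a n : M) : Prop := ∃ p, IsPow p a ∧ ∀ f, Mem f q ↔ IsFun f n p

/-- `m` is the successor `n ∪ {n}` of `n`. -/
def IsSucc (m n : M) : Prop := ∀ z, Mem z m ↔ Mem z n ∨ z = n

/-- `f` is a family of amorphous sets indexed by the natural numbers of the model. -/
def IsAmorphousFamily (f : M) : Prop :=
  (∃ w, IsOmega w ∧ ∃ b, IsFun f w b) ∧ ∀ n a, App f n a → IsAmorphous a

/-- `s` is a subset of `a`. -/
def IsSub (s a : M) : Prop := ∀ z, Mem z s → Mem z a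

/-- `F` is the set of all finite subsets of `a`. -/
def IsFinSet (F a : M) : Prop := ∀ z, Mem z F ↔ IsSub z a ∧ IsFinite z

/-- `t` is the union of `s` and `{x}`. -/
def IsInsert (t x s : M) : Prop := ∀ z, Mem z t ↔ z = x ∨ Mem z s

/-- `r'` is the image of `r` under `π`. -/
def IsImage (r' r π : M) : Prop := ∀ w, Mem w r' ↔ ∃ z, Mem z r ∧ App π z w

/-- The permutation `π` of `t` preserves `c` on the finite subsets of `t`: if `r'` is the image of
`r`, then `c(r')` is the image of `c(r)`. -/
def Preserves (c π t : M) : Prop :=
  ∀ r r' k k', IsSub r t → IsImage r' r π → App c r k → App c r' k' → IsImage k' k π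

/-- `c` is a pregeometry on `a`: a function from the set of the finite subsets of `a` to itself
with the following properties. -/
structure IsPregeometry (c a : M) : Prop where
  /-- it is a function from `fin(a)` to `fin(a)` -/
  isFun : ∃ F, IsFinSet F a ∧ IsFun c F F
  /-- `S ⊆ cl(S)` -/
  sub : ∀ s t, App c s t → IsSub s t
  /-- `cl(cl(S)) = cl(S)` -/
  idem : ∀ s t, App c s t → App c t t
  /-- `S ⊆ T` implies `cl(S) ⊆ cl(T)` -/
  mono : ∀ s s' t t', App c s t → App c s' t' → IsSub s s' → IsSub t t'
  /-- exchange: for `x, y` outside `cl(S)`, `x ∈ cl(S ∪ {y})` if and only if `y ∈ cl(S ∪ {x})` -/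
  exchange : ∀ s t x y sx tx sy ty, App c s t → Mem x a → Mem y a → ¬ Mem x t → ¬ Mem y t →
    IsInsert sx x s → App c sx tx → IsInsert sy y s → App c sy ty → (Mem x ty ↔ Mem y tx)
  /-- local homogeneity: for closed `S ⊆ T` and `x, y` in `T` outside `S` some permutation of `T`
  that maps `x` to `y` and fixes the elements of `S` preserves `cl` on the subsets of `T`, and
  extends, for every closed `U` that contains `T`, to a permutation of `U` that preserves `cl` on
  the subsets of `U` -/
  homogeneous : ∀ s t x y, App c s s → App c t t → IsSub s t → Mem x t → ¬ Mem x s → Mem y t →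
    ¬ Mem y s → ∃ π, IsBij π t t ∧ App π x y ∧ (∀ z, Mem z s → App π z z) ∧ Preserves c π t ∧
      ∀ v, App c v v → IsSub t v → ∃ ρ, IsBij ρ v v ∧ (∀ z w, App π z w → App ρ z w) ∧
        Preserves c ρ v

/-- The pregeometry is degenerate: for every nonempty finite `S`, the closure of `S` is the union
of the closures of `{y}` for the elements `y` of `S`. -/
def IsDegenerate (c : M) : Prop :=
  ∀ s t, App c s t → (∃ z, Mem z s) →
    ∀ x, Mem x t ↔ ∃ y v w, Mem y s ∧ IsPair v y y ∧ App c v w ∧ Mem x w

/-- `a` is of projective type: it admits a pregeometry that is not degenerate. -/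
def IsOfProjectiveType (a : M) : Prop := ∃ c, IsPregeometry c a ∧ ¬ IsDegenerate c

end Pool.Agent.R596Amorphous
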