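import Pool.Agent.R596.AmD

/-!
# The closure
-/

set_option autoImplicit false
set_option linter.all false
set_option maxHeartbeats 400000

namespace Pool.Agent.R596.AM

open FirstOrder FirstOrder.Language
open Pool.Agent.Helper672.ZFA
open Pool.Agent.H310

universe u u₁ u₂ u₃

section

variable {M : Type u} [L.Structure M] [hM : IsModel M]
variable {α : Type u₁} {κ : Type u₂} [ITy M α] [ITy M κ]
variable (F : IFun M (IPow M (α × κ)) (IPow M (α × κ)))

/-- The closure of a set. -/
noncomputable def cl (U : IPow M α) : IPow M α :=
  sep M fun a => IFin (sep M fun b => Gp F (insert (a, b) (idp U)))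

theorem int_cl : IntF M (fun U : IPow M α => cl F U) := by
  unfold cl
  have h := int_Gp F
  have h2 := int_idp (M := M) (α := α)
  (repeat' (first | with_reducible exact IntF.id | with_reducible exact IntF.fst' | with_reducible exact IntF.snd' | with_reducible exact IntF.const _ | with_reducible exact Int.const _ | assumption | with_reducible apply Int.and | with_reducible apply Int.or | with_reducible apply Int.not | with_reducible apply Int.imp | with_reducible apply Int.iff | with_reducible apply Int.ne | with_reducible apply Int.eq | with_reducible apply Int.mem | with_reducible apply Int.subset | with_reducible apply Int.ltN | with_reducible apply Int.leN | with_reducible apply Int.fin | with_reducible apply Int.unique | with_reducible apply Int.all | with_reducible apply Int.ex | with_reducible apply IntF.fst | with_reducible apply IntF.snd | with_reducible apply IntF.app | with_reducible apply IntF.ite | with_reducible apply IntF.sep | with_reducible apply IntF.lam | with_reducible apply IntF.insert | with_reducible apply IntF.singleton | with_reducible apply IntF.union | with_reducible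 apply IntF.inter | with_reducible apply IntF.sdiff | with_reducible apply IntF.isUnion | with_reducible apply IntF.iimage | with_reducible apply IntF.the | with_reducible apply IntF.irec | with_reducible_and_instances apply IntF.add | with_reducible_and_instances apply IntF.mul | with_reducible apply IntF.succ | with_reducible apply IntF.val | (with_reducible refine Int.comp ?_ ?_; assumption) | (with_reducible refine Int.comp₂ ?_ ?_ ?_; assumption) | (with_reducible refine Int.comp₃ ?_ ?_ ?_ ?_; assumption) | (with_reducible refine Int.comp₄ ?_ ?_ ?_ ?_ ?_; assumption) | (with_reducible refine IntF.comp ?_ ?_; assumption) | (with_reducible refine IntF.comp₂ ?_ ?_ ?_; assumption) | (with_reducible refine IntF.comp₃ ?_ ?_ ?_ ?_; assumption) | with_reducible apply IntF.inl | with_reducible apply IntF.inr | with_reducible apply IntF.pair))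

variable {F}

theorem mem_cl {U : IPow M α} {a : α} :
    a ∈ cl F U ↔ FinP M (fun b => Gp F (insert (a, b) (idp U))) := by
  have h := int_Gp F
  have h2 := int_idp (M := M) (α := α)
  unfold cl
  rw [mem_sep (by (repeat' (first | with_reducible exact IntF.id | with_reducible exact IntF.fst' | with_reducible exact IntF.snd' | with_reducible exact IntF.const _ | with_reducible exact Int.const _ | assumption | with_reducible apply Int.and | with_reducible apply Int.or | with_reducible apply Int.not | with_reducible apply Int.imp | with_reducible apply Int.iff | with_reducible apply Int.ne | with_reducible apply Int.eq | with_reducible apply Int.mem | with_reducible apply Int.subset | with_reducible apply Int.ltN | with_reducible apply Int.leN | with_reducible apply Int.fin | with_reducible apply Int.unique | with_reducible apply Int.all | with_reducible apply Int.ex | with_reducible apply IntF.fst | with_reducible apply IntF.snd | with_reducible apply IntF.app | with_reducible apply IntF.ite | with_reducible apply IntF.sep | with_reducible apply IntF.lam | with_reducible apply IntF.insert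 | with_reducible apply IntF.singleton | with_reducible apply IntF.union | with_reducible apply IntF.inter | with_reducible apply IntF.sdiff | with_reducible apply IntF.isUnion | with_reducible apply IntF.iimage | with_reducible apply IntF.the | with_reducible apply IntF.irec | with_reducible_and_instances apply IntF.add | with_reducible_and_instances apply IntF.mul | with_reducible apply IntF.succ | with_reducible apply IntF.val | (with_reducible refine Int.comp ?_ ?_; assumption) | (with_reducible refine Int.comp₂ ?_ ?_ ?_; assumption) | (with_reducible refine Int.comp₃ ?_ ?_ ?_ ?_; assumption) | (with_reducible refine Int.comp₄ ?_ ?_ ?_ ?_ ?_; assumption) | (with_reducible refine IntF.comp ?_ ?_; assumption) | (with_reducible refine IntF.comp₂ ?_ ?_ ?_; assumption) | (with_reducible refine IntF.comp₃ ?_ ?_ ?_ ?_; assumption) | with_reducible apply IntF.inl | with_reducible apply IntF.inr | with_reducible apply IntF.pair))), finP_iff (by (repeat' (first | with_reducible exact IntF.id | with_reducible exact IntF.fst' | with_reducible exact IntF.snd' | with_reducible exact IntF.const _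 | with_reducible exact Int.const _ | assumption | with_reducible apply Int.and | with_reducible apply Int.or | with_reducible apply Int.not | with_reducible apply Int.imp | with_reducible apply Int.iff | with_reducible apply Int.ne | with_reducible apply Int.eq | with_reducible apply Int.mem | with_reducible apply Int.subset | with_reducible apply Int.ltN | with_reducible apply Int.leN | with_reducible apply Int.fin | with_reducible apply Int.unique | with_reducible apply Int.all | with_reducible apply Int.ex | with_reducible apply IntF.fst | with_reducible apply IntF.snd | with_reducible apply IntF.app | with_reducible apply IntF.ite | with_reducible apply IntF.sep | with_reducible apply IntF.lam | with_reducible apply IntF.insert | with_reducible apply IntF.singleton | with_reducible apply IntF.union | with_reducible apply IntF.inter | with_reducible apply IntF.sdiff | with_reducible apply IntF.isUnion | with_reducible apply IntF.iimage | with_reducible apply IntF.the | with_reducible apply IntF.irec | with_reducible_and_instances apply IntF.add | with_reducible_and_instances apply IntF.mul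 | with_reducible apply IntF.succ | with_reducible apply IntF.val | (with_reducible refine Int.comp ?_ ?_; assumption) | (with_reducible refine Int.comp₂ ?_ ?_ ?_; assumption) | (with_reducible refine Int.comp₃ ?_ ?_ ?_ ?_; assumption) | (with_reducible refine Int.comp₄ ?_ ?_ ?_ ?_ ?_; assumption) | (with_reducible refine IntF.comp ?_ ?_; assumption) | (with_reducible refine IntF.comp₂ ?_ ?_ ?_; assumption) | (with_reducible refine IntF.comp₃ ?_ ?_ ?_ ?_; assumption) | with_reducible apply IntF.inl | with_reducible apply IntF.inr | with_reducible apply IntF.pair)))]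

/-- The restriction of a partial map. -/
noncomputable def rst (p : IPow M (α × α)) (U : IPow M α) : IPow M (α × α) :=
  sep M fun q => q ∈ p ∧ q.1 ∈ U

theorem mem_rst {p : IPow M (α × α)} {U : IPow M α} {q : α × α} :
    q ∈ rst p U ↔ q ∈ p ∧ q.1 ∈ U := by
  unfold rst
  rw [mem_sep (by (repeat' (first | with_reducible exact IntF.id | with_reducible exact IntF.fst' | with_reducible exact IntF.snd' | with_reducible exact IntF.const _ | with_reducible exact Int.const _ | assumption | with_reducible apply Int.and | with_reducible apply Int.or | with_reducible apply Int.not | with_reducible apply Int.imp | with_reducible apply Int.iff | with_reducible apply Int.ne | with_reducible apply Int.eq | with_reducible apply Int.mem | with_reducible apply Int.subset | with_reducible apply Int.ltN | with_reducible apply Int.leN | with_reducible apply Int.fin | with_reducible apply Int.unique | with_reducible apply Int.all | with_reducible apply Int.ex | with_reducible apply IntF.fst | with_reducible apply IntF.snd | with_reducible apply IntF.app | with_reducible apply IntF.ite | with_reducible apply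 IntF.sep | with_reducible apply IntF.lam | with_reducible apply IntF.insert | with_reducible apply IntF.singleton | with_reducible apply IntF.union | with_reducible apply IntF.inter | with_reducible apply IntF.sdiff | with_reducible apply IntF.isUnion | with_reducible apply IntF.iimage | with_reducible apply IntF.the | with_reducible apply IntF.irec | with_reducible_and_instances apply IntF.add | with_reducible_and_instances apply IntF.mul | with_reducible apply IntF.succ | with_reducible apply IntF.val | (with_reducible refine Int.comp ?_ ?_; assumption) | (with_reducible refine Int.comp₂ ?_ ?_ ?_; assumption) | (with_reducible refine Int.comp₃ ?_ ?_ ?_ ?_; assumption) | (with_reducible refine Int.comp₄ ?_ ?_ ?_ ?_ ?_; assumption) | (with_reducible refine IntF.comp ?_ ?_; assumption) | (with_reducible refine IntF.comp₂ ?_ ?_ ?_; assumption) | (with_reducible refine IntF.comp₃ ?_ ?_ ?_ ?_; assumption) | with_reducible apply IntF.inl | with_reducible apply IntF.inr | with_reducible apply IntF.pair)))]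

section props

variable (hA : Am M α) (hκ : FinP M (fun _ : κ => True))

include hA hκ in
/-- The infinite class over a finite set. -/
theorem exists_inf {U : IPow M α} (hU : IFin U) :
    ∃ a, FinP M (fun b => ¬ Gp F (insert (a, b) (idp U))) := by
  obtain ⟨n, s, t, hst⟩ := exists_en hA (Gp.id (F := F) hU).1
  obtain ⟨a, ha⟩ := Q.cofin (F := F) hA hκ n s
  refine ⟨a, ha.mono fun b hb h => hb (Gp.of_en h fun q hq => ?_)⟩
  rcases mem_insert.1 hq with rfl | hq
  · exact ⟨n, INat.lt_succ_self n, by rw [upd_same, upd_same]⟩
  · obtain ⟨i, hi, he⟩ := (hst q).1 hq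
    obtain ⟨h1, h2⟩ := mem_idp.1 hq
    refine ⟨i, hi.trans (INat.lt_succ_self n), ?_⟩
    rw [upd_lt _ _ hi, upd_lt _ _ hi]
    have h3 : s i = q.1 := (Prod.ext_iff.1 he).1
    exact Prod.ext h3 (h3.trans h1)

/-- Composition over a finite set. -/
theorem Gp.tw {p : IPow M (α × α)} {a b b' : α} {U : IPow M α} (h : Gp F (insert (a, b) p))
    (hp : ∀ c d, (c, d) ∈ p → d ∈ U) (h' : Gp F (insert (b, b') (idp U))) :
    Gp F (insert (a, b') p) := by
  refine h.comp h' ((h.1.subset fun q hq => mem_insert.2 (Or.inr hq)).insert _) ?_
  intro c d hcd
  rcases mem_insert.1 hcd with he | hcd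
  · obtain ⟨rfl, rfl⟩ := Prod.ext_iff.1 he
    exact ⟨b, mem_insert.2 (Or.inl rfl), mem_insert.2 (Or.inl rfl)⟩
  · exact ⟨d, mem_insert.2 (Or.inr hcd), mem_insert.2 (Or.inr (mem_idp.2 ⟨rfl, hp c d hcd⟩))⟩

theorem tw_symm {a b : α} {U : IPow M α} (h : Gp F (insert (a, b) (idp U))) :
    Gp F (insert (b, a) (idp U)) := by
  refine h.inv.sub fun q hq => ?_
  rw [mem_ivp, mem_insert]
  rcases mem_insert.1 hq with rfl | hq
  · exact Or.inl rfl
  · obtain ⟨h1, h2⟩ := mem_idp.1 hq
    exact Or.inr (mem_idp.2 ⟨h1.symm, h1 ▸ h2⟩)

theorem tw_trans {a b c : α} {U : IPow M α} (h : Gp F (insert (a, b) (idp U)))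
    (h' : Gp F (insert (b, c) (idp U))) : Gp F (insert (a, c) (idp U)) :=
  h.tw (fun x y hxy => by
    obtain ⟨h1, h2⟩ := mem_idp.1 hxy
    exact (show x = y from h1) ▸ (show x ∈ U from h2)) h'

include hA hκ in
theorem cl_spec {U : IPow M α} (hU : IFin U) : IFin (cl F U) ∧
    ∀ a b, ¬ a ∈ cl F U → ¬ b ∈ cl F U → Gp F (insert (a, b) (idp U)) := by
  obtain ⟨a0, ha0⟩ := exists_inf (F := F) hA hκ hU
  have key : ∀ a, ¬ a ∈ cl F U → Gp F (insert (a0, a) (idp U)) := by
    intro a ha
    by_contra h
    refine ha (mem_cl.2 (ha0.mono fun b hb h2 => h ?_))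
    exact tw_trans h2 (tw_symm hb)
  constructor
  · have h1 : FinP M (fun a => a ∈ cl F U) := by
      refine ha0.mono fun a ha h2 => ?_
      have h3 := mem_cl.1 ha
      refine hA.inf ((ha0.or h3).mono fun b _ => ?_)
      by_cases h4 : Gp F (insert (a0, b) (idp U))
      · exact Or.inr (tw_trans (tw_symm h2) h4)
      · exact Or.inl h4
    obtain ⟨S, hS, hS'⟩ := h1
    exact hS.subset hS'
  · intro a b ha hb
    exact tw_trans (tw_symm (key a ha)) (key b hb)

theorem sub_cl {U : IPow M α} {a : α} (ha : a ∈ U) : a ∈ cl F U := by
  rw [mem_cl]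
  refine (FinP.eq a).mono fun b hb => ?_
  exact (hb.fn (mem_insert.2 (Or.inl rfl)) (mem_insert.2 (Or.inr (mem_idp.2 ⟨rfl, ha⟩))))

theorem cl_mono {U V : IPow M α} (h : U ⊆ V) : cl F U ⊆ cl F V := by
  intro a ha
  rw [mem_cl] at ha ⊢
  refine ha.mono fun b hb => hb.sub fun q hq => ?_
  rcases mem_insert.1 hq with rfl | hq
  · exact mem_insert.2 (Or.inl rfl)
  · obtain ⟨h1, h2⟩ := mem_idp.1 hq
    exact mem_insert.2 (Or.inr (mem_idp.2 ⟨h1, h _ h2⟩))

include hA in
theorem cl_img1 {p : IPow M (α × α)} {U V : IPow M α} {a b : α}
    (hpU : ∀ c, c ∈ U ↔ ∃ d, (c, d) ∈ p) (hpV : ∀ d, d ∈ V ↔ ∃ c, (c, d) ∈ p)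
    (h : Gp F (insert (a, b) p)) (ha : a ∈ cl F U) : b ∈ cl F V := by
  rw [mem_cl] at ha ⊢
  have hG := int_Gp F
  have hd := int_idp (M := M) (α := α)
  have hf := ha.fin (by (repeat' (first | with_reducible exact IntF.id | with_reducible exact IntF.fst' | with_reducible exact IntF.snd' | with_reducible exact IntF.const _ | with_reducible exact Int.const _ | assumption | with_reducible apply Int.and | with_reducible apply Int.or | with_reducible apply Int.not | with_reducible apply Int.imp | with_reducible apply Int.iff | with_reducible apply Int.ne | with_reducible apply Int.eq | with_reducible apply Int.mem | with_reducible apply Int.subset | with_reducible apply Int.ltN | with_reducible apply Int.leN | with_reducible apply Int.fin | with_reducible apply Int.unique | with_reducible apply Int.all | with_reducible apply Int.ex | with_reducible apply IntF.fst | with_reducible apply IntF.snd | with_reducible apply IntF.app | with_reducible apply IntF.ite | with_reducible apply IntF.sep | with_reducible apply IntF.lam | with_reducible apply IntF.insert | with_reducible apply IntF.singleton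 | with_reducible apply IntF.union | with_reducible apply IntF.inter | with_reducible apply IntF.sdiff | with_reducible apply IntF.isUnion | with_reducible apply IntF.iimage | with_reducible apply IntF.the | with_reducible apply IntF.irec | with_reducible_and_instances apply IntF.add | with_reducible_and_instances apply IntF.mul | with_reducible apply IntF.succ | with_reducible apply IntF.val | (with_reducible refine Int.comp ?_ ?_; assumption) | (with_reducible refine Int.comp₂ ?_ ?_ ?_; assumption) | (with_reducible refine Int.comp₃ ?_ ?_ ?_ ?_; assumption) | (with_reducible refine Int.comp₄ ?_ ?_ ?_ ?_ ?_; assumption) | (with_reducible refine IntF.comp ?_ ?_; assumption) | (with_reducible refine IntF.comp₂ ?_ ?_ ?_; assumption) | (with_reducible refine IntF.comp₃ ?_ ?_ ?_ ?_; assumption) | with_reducible apply IntF.inl | with_reducible apply IntF.inr | with_reducible apply IntF.pair)))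
  obtain ⟨p', h1, h2, h3⟩ := h.extS hA hf
  refine (IFin.sndS h1.1).mono fun b' hb' => ?_
  obtain ⟨a', ha'⟩ := h1.ext' hA b'
  have h4 : Gp F (insert (a, b') p) := h.tw (fun c d hcd => (hpV d).2 ⟨c, hcd⟩) hb'
  have h5 : Gp F (insert (a', b') p) := ha'.sub fun q hq => by
    rcases mem_insert.1 hq with rfl | hq
    · exact mem_insert.2 (Or.inl rfl)
    · exact mem_insert.2 (Or.inr (h2 _ (mem_insert.2 (Or.inr hq))))
  have h6 : Gp F (insert (a, a') (idp U)) := by
    refine h4.comp h5.inv ?_ ?_
    · refine IFin.insert ?_ _
      exact (Gp.id (F := F) (by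
        obtain ⟨S, hS, hS'⟩ := IFin.fstS (h.1.subset fun q hq => mem_insert.2 (Or.inr hq))
        exact hS.subset fun c hc => hS' c ((hpU c).1 hc))).1
    · intro c d hcd
      rcases mem_insert.1 hcd with he | hcd
      · obtain ⟨rfl, rfl⟩ := Prod.ext_iff.1 he
        exact ⟨b', mem_insert.2 (Or.inl rfl), mem_ivp.2 (mem_insert.2 (Or.inl rfl))⟩
      · obtain ⟨h7, h8⟩ := mem_idp.1 hcd
        obtain ⟨e, he⟩ := (hpU c).1 h8
        refine ⟨e, mem_insert.2 (Or.inr he), mem_ivp.2 (mem_insert.2 (Or.inr ?_))⟩
        exact (show d = c from h7.symm) ▸ he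
  obtain ⟨b'', hb''⟩ := h3 a' ((mem_sep (by (repeat' (first | with_reducible exact IntF.id | with_reducible exact IntF.fst' | with_reducible exact IntF.snd' | with_reducible exact IntF.const _ | with_reducible exact Int.const _ | assumption | with_reducible apply Int.and | with_reducible apply Int.or | with_reducible apply Int.not | with_reducible apply Int.imp | with_reducible apply Int.iff | with_reducible apply Int.ne | with_reducible apply Int.eq | with_reducible apply Int.mem | with_reducible apply Int.subset | with_reducible apply Int.ltN | with_reducible apply Int.leN | with_reducible apply Int.fin | with_reducible apply Int.unique | with_reducible apply Int.all | with_reducible apply Int.ex | with_reducible apply IntF.fst | with_reducible apply IntF.snd | with_reducible apply IntF.app | with_reducible apply IntF.ite | with_reducible apply IntF.sep | with_reducible apply IntF.lam | with_reducible apply IntF.insert | with_reducible apply IntF.singleton | with_reducible apply IntF.union | with_reducible apply IntF.inter | with_reducible apply IntF.sdiff | with_reducible apply IntF.isUnion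 | with_reducible apply IntF.iimage | with_reducible apply IntF.the | with_reducible apply IntF.irec | with_reducible_and_instances apply IntF.add | with_reducible_and_instances apply IntF.mul | with_reducible apply IntF.succ | with_reducible apply IntF.val | (with_reducible refine Int.comp ?_ ?_; assumption) | (with_reducible refine Int.comp₂ ?_ ?_ ?_; assumption) | (with_reducible refine Int.comp₃ ?_ ?_ ?_ ?_; assumption) | (with_reducible refine Int.comp₄ ?_ ?_ ?_ ?_ ?_; assumption) | (with_reducible refine IntF.comp ?_ ?_; assumption) | (with_reducible refine IntF.comp₂ ?_ ?_ ?_; assumption) | (with_reducible refine IntF.comp₃ ?_ ?_ ?_ ?_; assumption) | with_reducible apply IntF.inl | with_reducible apply IntF.inr | with_reducible apply IntF.pair)))).2 h6)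
  have h7 : b' = b'' := ha'.fn (mem_insert.2 (Or.inl rfl)) (mem_insert.2 (Or.inr hb''))
  exact ⟨a', h7 ▸ hb''⟩

include hA in
/-- Partial isomorphisms respect the closure. -/
theorem cl_img {p : IPow M (α × α)} {U V : IPow M α} {a b : α}
    (hpU : ∀ c, c ∈ U ↔ ∃ d, (c, d) ∈ p) (hpV : ∀ d, d ∈ V ↔ ∃ c, (c, d) ∈ p)
    (h : Gp F (insert (a, b) p)) : a ∈ cl F U ↔ b ∈ cl F V := by
  refine ⟨cl_img1 hA hpU hpV h, fun hb => ?_⟩
  have h1 : Gp F (insert (b, a) (ivp p)) := h.inv.sub fun q hq => by
    rw [mem_ivp, mem_insert]
    rcases mem_insert.1 hq with rfl | hq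
    · exact Or.inl rfl
    · exact Or.inr (mem_ivp.1 hq)
  refine cl_img1 hA (fun c => ?_) (fun d => ?_) h1 hb
  · rw [hpV]
    exact ⟨fun ⟨d, hd⟩ => ⟨d, mem_ivp.2 hd⟩, fun ⟨d, hd⟩ => ⟨d, mem_ivp.1 hd⟩⟩
  · rw [hpU]
    exact ⟨fun ⟨c, hc⟩ => ⟨c, mem_ivp.2 hc⟩, fun ⟨c, hc⟩ => ⟨c, mem_ivp.1 hc⟩⟩

include hA in
/-- The same for a pair of an extension. -/
theorem cl_img2 {p p' : IPow M (α × α)} {U V : IPow M α} {a b : α}
    (hpU : ∀ c, c ∈ U ↔ ∃ d, (c, d) ∈ p) (hpV : ∀ d, d ∈ V ↔ ∃ c, (c, d) ∈ p)
    (h : Gp F p') (hp : p ⊆ p') (hab : (a, b) ∈ p') : a ∈ cl F U ↔ b ∈ cl F V :=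
  cl_img hA hpU hpV (h.sub fun q hq => by
    rcases mem_insert.1 hq with rfl | hq
    · exact hab
    · exact hp _ hq)

theorem idp_dom {U : IPow M α} : ∀ c, c ∈ U ↔ ∃ d, (c, d) ∈ idp U := fun c =>
  ⟨fun h => ⟨c, mem_idp.2 ⟨rfl, h⟩⟩, fun ⟨d, hd⟩ => (mem_idp.1 hd).2⟩

theorem idp_ran {U : IPow M α} : ∀ d, d ∈ U ↔ ∃ c, (c, d) ∈ idp U := fun c =>
  ⟨fun h => ⟨c, mem_idp.2 ⟨rfl, h⟩⟩, fun ⟨d, hd⟩ => by
    obtain ⟨h1, h2⟩ := mem_idp.1 hd
    exact (show d = c from h1) ▸ h2⟩

include hA hκ in
theorem cl_cl {U : IPow M α} (hU : IFin U) : cl F (cl F U) ⊆ cl F U := by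
  intro a ha
  by_contra h
  obtain ⟨hT, hT'⟩ := cl_spec (F := F) hA hκ hU
  have hT2 := (cl_spec (F := F) hA hκ hT).1
  refine hA.inf ⟨cl F U ∪ cl F (cl F U), hT.union hT2, fun b _ => ?_⟩
  rw [mem_union]
  by_cases hb : b ∈ cl F U
  · exact Or.inl hb
  refine Or.inr ?_
  obtain ⟨p', h1, h2, h3⟩ := (hT' a b h hb).extS hA hT
  obtain ⟨p'', h1', h2', h3'⟩ := h1.extS' hA hT
  have hsub : idp U ⊆ p'' := fun q hq => h2' _ (h2 _ (mem_insert.2 (Or.inr hq)))
  have hcl : ∀ c d, (c, d) ∈ p'' → (c ∈ cl F U ↔ d ∈ cl F U) := fun c d hcd =>
    cl_img2 hA idp_dom idp_ran h1' hsub hcd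
  have hab : (a, b) ∈ p'' := h2' _ (h2 _ (mem_insert.2 (Or.inl rfl)))
  refine (cl_img2 (p := rst p'' (cl F U)) hA (U := cl F U) (V := cl F U) ?_ ?_ h1'
    (fun q hq => (mem_rst.1 hq).1) hab).1 ha
  · intro c
    constructor
    · intro hc
      obtain ⟨d, hd⟩ := h3 c hc
      exact ⟨d, mem_rst.2 ⟨h2' _ hd, hc⟩⟩
    · rintro ⟨d, hd⟩
      exact (mem_rst.1 hd).2
  · intro d
    constructor
    · intro hd
      obtain ⟨c, hc⟩ := h3' d hd
      exact ⟨c, mem_rst.2 ⟨hc, (hcl c d hc).2 hd⟩⟩
    · rintro ⟨c, hc⟩
      obtain ⟨h4, h5⟩ := mem_rst.1 hc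
      exact (hcl c d h4).1 h5

end props

end

end Pool.Agent.R596.AM
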