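import Pool.Agent.R596.AmE

/-!
# Exchange and homogeneity
-/

set_option autoImplicit false
set_option linter.all false
set_option maxHeartbeats 400000

namespace Pool.Agent.R596.AM

open FirstOrder FirstOrder.Language
open Pool.Agent.Helper672.ZFA
open Pool.Agent.H310

universe u u₁ u₂ u₃

section

variable {M : Type u} [L.Structure M] [hM : IsModel M]
variable {α : Type u₁} {κ : Type u₂} [ITy M α] [ITy M κ]

/-- The domain. -/
noncomputable def dmn (p : IPow M (α × α)) : IPow M α := sep M fun a => ∃ c, (a, c) ∈ p

/-- The range. -/
noncomputable def rng (p : IPow M (α × α)) : IPow M α := sep M fun a => ∃ c, (c, a) ∈ p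

theorem mem_dmn {p : IPow M (α × α)} {a : α} : a ∈ dmn p ↔ ∃ c, (a, c) ∈ p := by
  unfold dmn
  rw [mem_sep (by (repeat' (first | with_reducible exact IntF.id | with_reducible exact IntF.fst' | with_reducible exact IntF.snd' | with_reducible exact IntF.const _ | with_reducible exact Int.const _ | assumption | with_reducible apply Int.and | with_reducible apply Int.or | with_reducible apply Int.not | with_reducible apply Int.imp | with_reducible apply Int.iff | with_reducible apply Int.ne | with_reducible apply Int.eq | with_reducible apply Int.mem | with_reducible apply Int.subset | with_reducible apply Int.ltN | with_reducible apply Int.leN | with_reducible apply Int.fin | with_reducible apply Int.unique | with_reducible apply Int.all | with_reducible apply Int.ex | with_reducible apply IntF.fst | with_reducible apply IntF.snd | with_reducible apply IntF.app | with_reducible apply IntF.ite | with_reducible apply IntF.sep | with_reducible apply IntF.lam | with_reducible apply IntF.insert | with_reducible apply IntF.singleton | with_reducible apply IntF.union | with_reducible apply IntF.inter | with_reducible apply IntF.sdiff | with_reducible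 apply IntF.isUnion | with_reducible apply IntF.iimage | with_reducible apply IntF.the | with_reducible apply IntF.irec | with_reducible_and_instances apply IntF.add | with_reducible_and_instances apply IntF.mul | with_reducible apply IntF.succ | with_reducible apply IntF.val | (with_reducible refine Int.comp ?_ ?_; assumption) | (with_reducible refine Int.comp₂ ?_ ?_ ?_; assumption) | (with_reducible refine Int.comp₃ ?_ ?_ ?_ ?_; assumption) | (with_reducible refine Int.comp₄ ?_ ?_ ?_ ?_ ?_; assumption) | (with_reducible refine IntF.comp ?_ ?_; assumption) | (with_reducible refine IntF.comp₂ ?_ ?_ ?_; assumption) | (with_reducible refine IntF.comp₃ ?_ ?_ ?_ ?_; assumption) | with_reducible apply IntF.inl | with_reducible apply IntF.inr | with_reducible apply IntF.pair)))]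

theorem mem_rng {p : IPow M (α × α)} {a : α} : a ∈ rng p ↔ ∃ c, (c, a) ∈ p := by
  unfold rng
  rw [mem_sep (by (repeat' (first | with_reducible exact IntF.id | with_reducible exact IntF.fst' | with_reducible exact IntF.snd' | with_reducible exact IntF.const _ | with_reducible exact Int.const _ | assumption | with_reducible apply Int.and | with_reducible apply Int.or | with_reducible apply Int.not | with_reducible apply Int.imp | with_reducible apply Int.iff | with_reducible apply Int.ne | with_reducible apply Int.eq | with_reducible apply Int.mem | with_reducible apply Int.subset | with_reducible apply Int.ltN | with_reducible apply Int.leN | with_reducible apply Int.fin | with_reducible apply Int.unique | with_reducible apply Int.all | with_reducible apply Int.ex | with_reducible apply IntF.fst | with_reducible apply IntF.snd | with_reducible apply IntF.app | with_reducible apply IntF.ite | with_reducible apply IntF.sep | with_reducible apply IntF.lam | with_reducible apply IntF.insert | with_reducible apply IntF.singleton | with_reducible apply IntF.union | with_reducible apply IntF.inter | with_reducible apply IntF.sdiff | with_reducible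 apply IntF.isUnion | with_reducible apply IntF.iimage | with_reducible apply IntF.the | with_reducible apply IntF.irec | with_reducible_and_instances apply IntF.add | with_reducible_and_instances apply IntF.mul | with_reducible apply IntF.succ | with_reducible apply IntF.val | (with_reducible refine Int.comp ?_ ?_; assumption) | (with_reducible refine Int.comp₂ ?_ ?_ ?_; assumption) | (with_reducible refine Int.comp₃ ?_ ?_ ?_ ?_; assumption) | (with_reducible refine Int.comp₄ ?_ ?_ ?_ ?_ ?_; assumption) | (with_reducible refine IntF.comp ?_ ?_; assumption) | (with_reducible refine IntF.comp₂ ?_ ?_ ?_; assumption) | (with_reducible refine IntF.comp₃ ?_ ?_ ?_ ?_; assumption) | with_reducible apply IntF.inl | with_reducible apply IntF.inr | with_reducible apply IntF.pair)))]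

theorem int_dmn : IntF M (fun p : IPow M (α × α) => dmn p) := by
  unfold dmn
  (repeat' (first | with_reducible exact IntF.id | with_reducible exact IntF.fst' | with_reducible exact IntF.snd' | with_reducible exact IntF.const _ | with_reducible exact Int.const _ | assumption | with_reducible apply Int.and | with_reducible apply Int.or | with_reducible apply Int.not | with_reducible apply Int.imp | with_reducible apply Int.iff | with_reducible apply Int.ne | with_reducible apply Int.eq | with_reducible apply Int.mem | with_reducible apply Int.subset | with_reducible apply Int.ltN | with_reducible apply Int.leN | with_reducible apply Int.fin | with_reducible apply Int.unique | with_reducible apply Int.all | with_reducible apply Int.ex | with_reducible apply IntF.fst | with_reducible apply IntF.snd | with_reducible apply IntF.app | with_reducible apply IntF.ite | with_reducible apply IntF.sep | with_reducible apply IntF.lam | with_reducible apply IntF.insert | with_reducible apply IntF.singleton | with_reducible apply IntF.union | with_reducible apply IntF.inter | with_reducible apply IntF.sdiff | with_reducible apply IntF.isUnion | with_reducible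 apply IntF.iimage | with_reducible apply IntF.the | with_reducible apply IntF.irec | with_reducible_and_instances apply IntF.add | with_reducible_and_instances apply IntF.mul | with_reducible apply IntF.succ | with_reducible apply IntF.val | (with_reducible refine Int.comp ?_ ?_; assumption) | (with_reducible refine Int.comp₂ ?_ ?_ ?_; assumption) | (with_reducible refine Int.comp₃ ?_ ?_ ?_ ?_; assumption) | (with_reducible refine Int.comp₄ ?_ ?_ ?_ ?_ ?_; assumption) | (with_reducible refine IntF.comp ?_ ?_; assumption) | (with_reducible refine IntF.comp₂ ?_ ?_ ?_; assumption) | (with_reducible refine IntF.comp₃ ?_ ?_ ?_ ?_; assumption) | with_reducible apply IntF.inl | with_reducible apply IntF.inr | with_reducible apply IntF.pair))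

theorem int_rng : IntF M (fun p : IPow M (α × α) => rng p) := by
  unfold rng
  (repeat' (first | with_reducible exact IntF.id | with_reducible exact IntF.fst' | with_reducible exact IntF.snd' | with_reducible exact IntF.const _ | with_reducible exact Int.const _ | assumption | with_reducible apply Int.and | with_reducible apply Int.or | with_reducible apply Int.not | with_reducible apply Int.imp | with_reducible apply Int.iff | with_reducible apply Int.ne | with_reducible apply Int.eq | with_reducible apply Int.mem | with_reducible apply Int.subset | with_reducible apply Int.ltN | with_reducible apply Int.leN | with_reducible apply Int.fin | with_reducible apply Int.unique | with_reducible apply Int.all | with_reducible apply Int.ex | with_reducible apply IntF.fst | with_reducible apply IntF.snd | with_reducible apply IntF.app | with_reducible apply IntF.ite | with_reducible apply IntF.sep | with_reducible apply IntF.lam | with_reducible apply IntF.insert | with_reducible apply IntF.singleton | with_reducible apply IntF.union | with_reducible apply IntF.inter | with_reducible apply IntF.sdiff | with_reducible apply IntF.isUnion | with_reducible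 apply IntF.iimage | with_reducible apply IntF.the | with_reducible apply IntF.irec | with_reducible_and_instances apply IntF.add | with_reducible_and_instances apply IntF.mul | with_reducible apply IntF.succ | with_reducible apply IntF.val | (with_reducible refine Int.comp ?_ ?_; assumption) | (with_reducible refine Int.comp₂ ?_ ?_ ?_; assumption) | (with_reducible refine Int.comp₃ ?_ ?_ ?_ ?_; assumption) | (with_reducible refine Int.comp₄ ?_ ?_ ?_ ?_ ?_; assumption) | (with_reducible refine IntF.comp ?_ ?_; assumption) | (with_reducible refine IntF.comp₂ ?_ ?_ ?_; assumption) | (with_reducible refine IntF.comp₃ ?_ ?_ ?_ ?_; assumption) | with_reducible apply IntF.inl | with_reducible apply IntF.inr | with_reducible apply IntF.pair))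

variable {F : IFun M (IPow M (α × κ)) (IPow M (α × κ))}

theorem Gp.fdmn {p : IPow M (α × α)} (h : Gp F p) : IFin (dmn p) := by
  obtain ⟨S, hS, hS'⟩ := IFin.fstS h.1
  exact hS.subset fun a ha => hS' a (mem_dmn.1 ha)

theorem Gp.frng {p : IPow M (α × α)} (h : Gp F p) : IFin (rng p) := by
  obtain ⟨S, hS, hS'⟩ := IFin.sndS h.1
  exact hS.subset fun a ha => hS' a (mem_rng.1 ha)

variable (hA : Am M α) (hκ : FinP M (fun _ : κ => True))

include hA hκ in
/-- Homogeneity. -/
theorem hom {p : IPow M (α × α)} {U V : IPow M α} {a b : α}
    (hpU : ∀ c, c ∈ U ↔ ∃ d, (c, d) ∈ p) (hpV : ∀ d, d ∈ V ↔ ∃ c, (c, d) ∈ p)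
    (h : Gp F p) (ha : ¬ a ∈ cl F U) (hb : ¬ b ∈ cl F V) : Gp F (insert (a, b) p) := by
  obtain ⟨d, hd⟩ := h.ext hA a
  have h1 : ¬ d ∈ cl F V := fun h2 => ha ((cl_img hA hpU hpV hd).2 h2)
  have hV : IFin V := h.frng.subset fun x hx => mem_rng.2 ((hpV x).1 hx)
  exact hd.tw (fun c e hce => (hpV e).2 ⟨c, hce⟩) ((cl_spec hA hκ hV).2 d b h1 hb)

theorem dom_ins {p : IPow M (α × α)} {U : IPow M α} {a b : α}
    (hpU : ∀ c, c ∈ U ↔ ∃ d, (c, d) ∈ p) :
    ∀ c, c ∈ (insert a U : IPow M α) ↔ ∃ d, (c, d) ∈ (insert (a, b) p : IPow M (α × α)) := by
  intro c
  rw [mem_insert, hpU]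
  constructor
  · rintro (rfl | ⟨d, hd⟩)
    · exact ⟨b, mem_insert.2 (Or.inl rfl)⟩
    · exact ⟨d, mem_insert.2 (Or.inr hd)⟩
  · rintro ⟨d, hd⟩
    rcases mem_insert.1 hd with h | h
    · exact Or.inl (Prod.ext_iff.1 h).1
    · exact Or.inr ⟨d, h⟩

theorem ran_ins {p : IPow M (α × α)} {V : IPow M α} {a b : α}
    (hpV : ∀ d, d ∈ V ↔ ∃ c, (c, d) ∈ p) :
    ∀ d, d ∈ (insert b V : IPow M α) ↔ ∃ c, (c, d) ∈ (insert (a, b) p : IPow M (α × α)) := by
  intro d
  rw [mem_insert, hpV]
  constructor
  · rintro (rfl | ⟨c, hc⟩)
    · exact ⟨a, mem_insert.2 (Or.inl rfl)⟩
    · exact ⟨c, mem_insert.2 (Or.inr hc)⟩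
  · rintro ⟨c, hc⟩
    rcases mem_insert.1 hc with h | h
    · exact Or.inl (Prod.ext_iff.1 h).2
    · exact Or.inr ⟨c, h⟩

include hA hκ in
theorem ex1 {U : IPow M α} (hU : IFin U) {a b a' b' : α} (ha : ¬ a ∈ cl F U)
    (hab : a ∈ cl F (insert b U)) (hba : ¬ b ∈ cl F (insert a U)) (ha' : ¬ a' ∈ cl F U)
    (hb' : ¬ b' ∈ cl F (insert a' U)) : a' ∈ cl F (insert b' U) := by
  have hp := (cl_spec hA hκ hU).2 a a' ha ha'
  obtain ⟨b'', h1⟩ := hp.ext' hA b'
  have h2 : ¬ b'' ∈ cl F (insert a U) := fun h => hb'
    ((cl_img hA (dom_ins idp_dom) (ran_ins idp_ran) h1).1 h)
  have h3 := (cl_spec hA hκ (hU.insert a)).2 b b'' hba h2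
  have h4 : a ∈ cl F (insert b'' U) :=
    (cl_img2 (p := insert (b, b'') (idp U)) hA (dom_ins idp_dom) (ran_ins idp_ran) h3 (by
      intro q hq
      rcases mem_insert.1 hq with rfl | hq
      · exact mem_insert.2 (Or.inl rfl)
      · obtain ⟨h5, h6⟩ := mem_idp.1 hq
        exact mem_insert.2 (Or.inr (mem_idp.2 ⟨h5, mem_insert.2 (Or.inr h6)⟩)))
      (mem_insert.2 (Or.inr (mem_idp.2 ⟨rfl, mem_insert.2 (Or.inl rfl)⟩)))).1 hab
  exact (cl_img2 (p := insert (b'', b') (idp U)) hA (dom_ins idp_dom) (ran_ins idp_ran) h1 (by
      intro q hq
      rcases mem_insert.1 hq with rfl | hq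
      · exact mem_insert.2 (Or.inl rfl)
      · exact mem_insert.2 (Or.inr (mem_insert.2 (Or.inr hq))))
      (mem_insert.2 (Or.inr (mem_insert.2 (Or.inl rfl))))).1 h4

theorem cl_fin_insert {U : IPow M α} {a : α} : U ⊆ insert a U := fun x hx =>
  mem_insert.2 (Or.inr hx)

include hA hκ in
/-- Exchange. -/
theorem cl_exch {U : IPow M α} (hU : IFin U) {a b : α} (ha : ¬ a ∈ cl F U)
    (hab : a ∈ cl F (insert b U)) : b ∈ cl F (insert a U) := by
  by_contra hba
  have hC := (cl_spec (F := F) hA hκ (hU.insert a)).1
  obtain ⟨e, he⟩ := hA.new (p := fun x => x ∈ cl F (insert a U)) ⟨_, hC, fun x hx => hx⟩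
  have hP : IFin (insert e (cl F (insert a U))) := hC.insert e
  have hUP : IFin (U ∪ insert e (cl F (insert a U))) := hU.union hP
  obtain ⟨a', ha'⟩ := hA.new (p := fun x => x ∈ cl F (U ∪ insert e (cl F (insert a U))))
    ⟨_, (cl_spec (F := F) hA hκ hUP).1, fun x hx => hx⟩
  have hsub : U ⊆ U ∪ insert e (cl F (insert a U)) := fun x hx => mem_union.2 (Or.inl hx)
  have haU' : ¬ a' ∈ cl F U := fun h => ha' (cl_mono hsub _ h)
  have key : ∀ b', b' ∈ (insert e (cl F (insert a U)) : IPow M α) → b' ∈ cl F (insert a' U) := by
    intro b' hb'
    by_contra h1
    refine ha' (cl_mono ?_ _ (ex1 hA hκ hU ha hab hba haU' h1))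
    intro x hx
    rcases mem_insert.1 hx with rfl | hx
    · exact mem_union.2 (Or.inr hb')
    · exact mem_union.2 (Or.inl hx)
  have hp := (cl_spec hA hκ hU).2 a a' ha haU'
  obtain ⟨p', h1, h2, h3⟩ := hp.extS' hA hP
  have hg : IntF M (fun b' => the (fun c => (c, b') ∈ p') a) := by (repeat' (first | with_reducible exact IntF.id | with_reducible exact IntF.fst' | with_reducible exact IntF.snd' | with_reducible exact IntF.const _ | with_reducible exact Int.const _ | assumption | with_reducible apply Int.and | with_reducible apply Int.or | with_reducible apply Int.not | with_reducible apply Int.imp | with_reducible apply Int.iff | with_reducible apply Int.ne | with_reducible apply Int.eq | with_reducible apply Int.mem | with_reducible apply Int.subset | with_reducible apply Int.ltN | with_reducible apply Int.leN | with_reducible apply Int.fin | with_reducible apply Int.unique | with_reducible apply Int.all | with_reducible apply Int.ex | with_reducible apply IntF.fst | with_reducible apply IntF.snd | with_reducible apply IntF.app | with_reducible apply IntF.ite | with_reducible apply IntF.sep | with_reducible apply IntF.lam | with_reducible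 apply IntF.insert | with_reducible apply IntF.singleton | with_reducible apply IntF.union | with_reducible apply IntF.inter | with_reducible apply IntF.sdiff | with_reducible apply IntF.isUnion | with_reducible apply IntF.iimage | with_reducible apply IntF.the | with_reducible apply IntF.irec | with_reducible_and_instances apply IntF.add | with_reducible_and_instances apply IntF.mul | with_reducible apply IntF.succ | with_reducible apply IntF.val | (with_reducible refine Int.comp ?_ ?_; assumption) | (with_reducible refine Int.comp₂ ?_ ?_ ?_; assumption) | (with_reducible refine Int.comp₃ ?_ ?_ ?_ ?_; assumption) | (with_reducible refine Int.comp₄ ?_ ?_ ?_ ?_ ?_; assumption) | (with_reducible refine IntF.comp ?_ ?_; assumption) | (with_reducible refine IntF.comp₂ ?_ ?_ ?_; assumption) | (with_reducible refine IntF.comp₃ ?_ ?_ ?_ ?_; assumption) | with_reducible apply IntF.inl | with_reducible apply IntF.inr | with_reducible apply IntF.pair))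
  have hg1 : ∀ b', b' ∈ (insert e (cl F (insert a U)) : IPow M α) →
      (the (fun c => (c, b') ∈ p') a, b') ∈ p' := by
    intro b' hb'
    obtain ⟨c, hc⟩ := h3 b' hb'
    exact the_spec (p := fun c => (c, b') ∈ p') ⟨c, hc, fun c' hc' => h1.inj hc' hc⟩
  have hg2 : ∀ b', b' ∈ (insert e (cl F (insert a U)) : IPow M α) →
      the (fun c => (c, b') ∈ p') a ∈ cl F (insert a U) := by
    intro b' hb'
    exact (cl_img2 hA (dom_ins idp_dom) (ran_ins idp_ran) h1 h2 (hg1 b' hb')).2 (key b' hb')
  obtain ⟨x, hx, hx'⟩ := Pool.Agent.R596.fin_surj (M := M)
    (p := fun x => x ∈ (insert e (cl F (insert a U)) : IPow M α)) ⟨_, hP, fun x hx => hx⟩ hg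
    (fun x hx => mem_insert.2 (Or.inr (hg2 x hx))) (fun x y hx hy hxy => by
      have h4 := hg1 x hx
      rw [hxy] at h4
      exact h1.fn h4 (hg1 y hy)) (by (repeat' (first | with_reducible exact IntF.id | with_reducible exact IntF.fst' | with_reducible exact IntF.snd' | with_reducible exact IntF.const _ | with_reducible exact Int.const _ | assumption | with_reducible apply Int.and | with_reducible apply Int.or | with_reducible apply Int.not | with_reducible apply Int.imp | with_reducible apply Int.iff | with_reducible apply Int.ne | with_reducible apply Int.eq | with_reducible apply Int.mem | with_reducible apply Int.subset | with_reducible apply Int.ltN | with_reducible apply Int.leN | with_reducible apply Int.fin | with_reducible apply Int.unique | with_reducible apply Int.all | with_reducible apply Int.ex | with_reducible apply IntF.fst | with_reducible apply IntF.snd | with_reducible apply IntF.app | with_reducible apply IntF.ite | with_reducible apply IntF.sep | with_reducible apply IntF.lam | with_reducible apply IntF.insert | with_reducible apply IntF.singleton | with_reducible apply IntF.union | with_reducible apply IntF.inter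 | with_reducible apply IntF.sdiff | with_reducible apply IntF.isUnion | with_reducible apply IntF.iimage | with_reducible apply IntF.the | with_reducible apply IntF.irec | with_reducible_and_instances apply IntF.add | with_reducible_and_instances apply IntF.mul | with_reducible apply IntF.succ | with_reducible apply IntF.val | (with_reducible refine Int.comp ?_ ?_; assumption) | (with_reducible refine Int.comp₂ ?_ ?_ ?_; assumption) | (with_reducible refine Int.comp₃ ?_ ?_ ?_ ?_; assumption) | (with_reducible refine Int.comp₄ ?_ ?_ ?_ ?_ ?_; assumption) | (with_reducible refine IntF.comp ?_ ?_; assumption) | (with_reducible refine IntF.comp₂ ?_ ?_ ?_; assumption) | (with_reducible refine IntF.comp₃ ?_ ?_ ?_ ?_; assumption) | with_reducible apply IntF.inl | with_reducible apply IntF.inr | with_reducible apply IntF.pair))) (a := e) (mem_insert.2 (Or.inl rfl))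
  have h5 := hg2 x hx
  rw [hx'] at h5
  exact he h5

include hA hκ in
/-- Extension to an automorphism of a closed set. -/
theorem exists_auto {p : IPow M (α × α)} (hp : Gp F p) {T : IPow M α} (hT : IFin T)
    (hTc : cl F T ⊆ T) (hpT : ∀ a b, (a, b) ∈ p → a ∈ T ∧ b ∈ T) :
    ∃ p', Gp F p' ∧ p ⊆ p' ∧ (∀ c, c ∈ T ↔ ∃ d, (c, d) ∈ p') ∧ ∀ d, d ∈ T ↔ ∃ c, (c, d) ∈ p' := by
  have hG := int_Gp F
  obtain ⟨p', ⟨h1, h2, h3⟩, hmax⟩ := FinP.exists_min (M := M)
    (p := fun p' : IPow M (α × α) => Gp F p' ∧ p ⊆ p' ∧ p' ⊆ iprod T T)
    (by
      have h0 : IntF M (fun _ : IPow M (α × α) => iprod T T) := IntF.const _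
      (repeat' (first | with_reducible exact IntF.id | with_reducible exact IntF.fst' | with_reducible exact IntF.snd' | with_reducible exact IntF.const _ | with_reducible exact Int.const _ | assumption | with_reducible apply Int.and | with_reducible apply Int.or | with_reducible apply Int.not | with_reducible apply Int.imp | with_reducible apply Int.iff | with_reducible apply Int.ne | with_reducible apply Int.eq | with_reducible apply Int.mem | with_reducible apply Int.subset | with_reducible apply Int.ltN | with_reducible apply Int.leN | with_reducible apply Int.fin | with_reducible apply Int.unique | with_reducible apply Int.all | with_reducible apply Int.ex | with_reducible apply IntF.fst | with_reducible apply IntF.snd | with_reducible apply IntF.app | with_reducible apply IntF.ite | with_reducible apply IntF.sep | with_reducible apply IntF.lam | with_reducible apply IntF.insert | with_reducible apply IntF.singleton | with_reducible apply IntF.union | with_reducible apply IntF.inter | with_reducible apply IntF.sdiff | with_reducible apply IntF.isUnion | with_reducible apply IntF.iimage | with_reducible apply IntF.the | with_reducible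 apply IntF.irec | with_reducible_and_instances apply IntF.add | with_reducible_and_instances apply IntF.mul | with_reducible apply IntF.succ | with_reducible apply IntF.val | (with_reducible refine Int.comp ?_ ?_; assumption) | (with_reducible refine Int.comp₂ ?_ ?_ ?_; assumption) | (with_reducible refine Int.comp₃ ?_ ?_ ?_ ?_; assumption) | (with_reducible refine Int.comp₄ ?_ ?_ ?_ ?_ ?_; assumption) | (with_reducible refine IntF.comp ?_ ?_; assumption) | (with_reducible refine IntF.comp₂ ?_ ?_ ?_; assumption) | (with_reducible refine IntF.comp₃ ?_ ?_ ?_ ?_; assumption) | with_reducible apply IntF.inl | with_reducible apply IntF.inr | with_reducible apply IntF.pair))) ⟨_, (hT.prod hT).pow, fun q hq => mem_ipow.2 hq.2.2⟩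
    (lt := fun x y => y ⊆ x ∧ x ≠ y) (by (repeat' (first | with_reducible exact IntF.id | with_reducible exact IntF.fst' | with_reducible exact IntF.snd' | with_reducible exact IntF.const _ | with_reducible exact Int.const _ | assumption | with_reducible apply Int.and | with_reducible apply Int.or | with_reducible apply Int.not | with_reducible apply Int.imp | with_reducible apply Int.iff | with_reducible apply Int.ne | with_reducible apply Int.eq | with_reducible apply Int.mem | with_reducible apply Int.subset | with_reducible apply Int.ltN | with_reducible apply Int.leN | with_reducible apply Int.fin | with_reducible apply Int.unique | with_reducible apply Int.all | with_reducible apply Int.ex | with_reducible apply IntF.fst | with_reducible apply IntF.snd | with_reducible apply IntF.app | with_reducible apply IntF.ite | with_reducible apply IntF.sep | with_reducible apply IntF.lam | with_reducible apply IntF.insert | with_reducible apply IntF.singleton | with_reducible apply IntF.union | with_reducible apply IntF.inter | with_reducible apply IntF.sdiff | with_reducible apply IntF.isUnion | with_reducible apply IntF.iimage | with_reducible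 apply IntF.the | with_reducible apply IntF.irec | with_reducible_and_instances apply IntF.add | with_reducible_and_instances apply IntF.mul | with_reducible apply IntF.succ | with_reducible apply IntF.val | (with_reducible refine Int.comp ?_ ?_; assumption) | (with_reducible refine Int.comp₂ ?_ ?_ ?_; assumption) | (with_reducible refine Int.comp₃ ?_ ?_ ?_ ?_; assumption) | (with_reducible refine Int.comp₄ ?_ ?_ ?_ ?_ ?_; assumption) | (with_reducible refine IntF.comp ?_ ?_; assumption) | (with_reducible refine IntF.comp₂ ?_ ?_ ?_; assumption) | (with_reducible refine IntF.comp₃ ?_ ?_ ?_ ?_; assumption) | with_reducible apply IntF.inl | with_reducible apply IntF.inr | with_reducible apply IntF.pair))) (fun a h => h.2 rfl)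
    (fun a b c hab hbc => ⟨fun x hx => hab.1 _ (hbc.1 _ hx), fun h => hbc.2 (IPow.ext' fun x =>
      ⟨fun hx => by
        rw [← h]
        exact hab.1 _ hx, fun hx => hbc.1 _ hx⟩)⟩)
    ⟨p, hp, fun q hq => hq, fun q hq => mem_iprod.2 (hpT _ _ hq)⟩
  -- nothing can be added
  have hno : ∀ c d, c ∈ T → d ∈ T → Gp F (insert (c, d) p') → (c, d) ∈ p' := by
    intro c d hc hd h4
    by_contra h5
    refine hmax (insert (c, d) p') ⟨h4, fun q hq => mem_insert.2 (Or.inr (h2 q hq)), ?_⟩
      ⟨fun q hq => mem_insert.2 (Or.inr hq), fun h6 => h5 (h6 ▸ mem_insert.2 (Or.inl rfl))⟩
    intro q hq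
    rcases mem_insert.1 hq with rfl | hq
    · exact mem_iprod.2 ⟨hc, hd⟩
    · exact h3 q hq
  have hdT : dmn p' ⊆ T := fun a ha => by
    obtain ⟨c, hc⟩ := mem_dmn.1 ha
    exact (mem_iprod.1 (h3 _ hc)).1
  have hrT : rng p' ⊆ T := fun a ha => by
    obtain ⟨c, hc⟩ := mem_rng.1 ha
    exact (mem_iprod.1 (h3 _ hc)).2
  have hcd : ∀ c, c ∈ cl F (dmn p') → c ∈ dmn p' := by
    intro c hc
    obtain ⟨d, hd⟩ := h1.ext hA c
    have h4 : d ∈ cl F (rng p') := (cl_img hA (fun _ => mem_dmn) (fun _ => mem_rng) hd).1 hc
    exact mem_dmn.2 ⟨d, hno c d (hTc _ (cl_mono hdT _ hc)) (hTc _ (cl_mono hrT _ h4)) hd⟩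
  have hcr : ∀ c, c ∈ cl F (rng p') → c ∈ rng p' := by
    intro d hd
    obtain ⟨c, hc⟩ := h1.ext' hA d
    have h4 : c ∈ cl F (dmn p') := (cl_img hA (fun _ => mem_dmn) (fun _ => mem_rng) hc).2 hd
    exact mem_rng.2 ⟨c, hno c d (hTc _ (cl_mono hdT _ h4)) (hTc _ (cl_mono hrT _ hd)) hc⟩
  have hdom : ∀ c, c ∈ T → ∃ d, (c, d) ∈ p' := by
    intro c hc
    by_contra h4
    by_cases h5 : ∃ d, d ∈ T ∧ ¬ d ∈ rng p'
    · obtain ⟨d, hd, hd'⟩ := h5
      exact h4 ⟨d, hno c d hc hd (hom hA hκ (fun _ => mem_dmn) (fun _ => mem_rng) h1
        (fun h6 => h4 (mem_dmn.1 (hcd c h6))) (fun h6 => hd' (hcr d h6)))⟩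
    · push Not at h5
      have hg : IntF M (fun b' => the (fun c => (c, b') ∈ p') c) := by (repeat' (first | with_reducible exact IntF.id | with_reducible exact IntF.fst' | with_reducible exact IntF.snd' | with_reducible exact IntF.const _ | with_reducible exact Int.const _ | assumption | with_reducible apply Int.and | with_reducible apply Int.or | with_reducible apply Int.not | with_reducible apply Int.imp | with_reducible apply Int.iff | with_reducible apply Int.ne | with_reducible apply Int.eq | with_reducible apply Int.mem | with_reducible apply Int.subset | with_reducible apply Int.ltN | with_reducible apply Int.leN | with_reducible apply Int.fin | with_reducible apply Int.unique | with_reducible apply Int.all | with_reducible apply Int.ex | with_reducible apply IntF.fst | with_reducible apply IntF.snd | with_reducible apply IntF.app | with_reducible apply IntF.ite | with_reducible apply IntF.sep | with_reducible apply IntF.lam | with_reducible apply IntF.insert | with_reducible apply IntF.singleton | with_reducible apply IntF.union | with_reducible apply IntF.inter | with_reducible apply IntF.sdiff | with_reducible apply IntF.isUnion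 | with_reducible apply IntF.iimage | with_reducible apply IntF.the | with_reducible apply IntF.irec | with_reducible_and_instances apply IntF.add | with_reducible_and_instances apply IntF.mul | with_reducible apply IntF.succ | with_reducible apply IntF.val | (with_reducible refine Int.comp ?_ ?_; assumption) | (with_reducible refine Int.comp₂ ?_ ?_ ?_; assumption) | (with_reducible refine Int.comp₃ ?_ ?_ ?_ ?_; assumption) | (with_reducible refine Int.comp₄ ?_ ?_ ?_ ?_ ?_; assumption) | (with_reducible refine IntF.comp ?_ ?_; assumption) | (with_reducible refine IntF.comp₂ ?_ ?_ ?_; assumption) | (with_reducible refine IntF.comp₃ ?_ ?_ ?_ ?_; assumption) | with_reducible apply IntF.inl | with_reducible apply IntF.inr | with_reducible apply IntF.pair))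
      have hg1 : ∀ b', b' ∈ T → (the (fun c => (c, b') ∈ p') c, b') ∈ p' := by
        intro b' hb'
        obtain ⟨x, hx⟩ := mem_rng.1 (h5 b' hb')
        exact the_spec (p := fun c => (c, b') ∈ p') ⟨x, hx, fun c' hc' => h1.inj hc' hx⟩
      obtain ⟨x, hx, hx'⟩ := Pool.Agent.R596.fin_surj (M := M) (p := fun x => x ∈ T)
        ⟨_, hT, fun x hx => hx⟩ hg (fun x hx => (mem_iprod.1 (h3 _ (hg1 x hx))).1)
        (fun x y hx hy hxy => by
          have h6 := hg1 x hx
          rw [hxy] at h6
          exact h1.fn h6 (hg1 y hy)) (by (repeat' (first | with_reducible exact IntF.id | with_reducible exact IntF.fst' | with_reducible exact IntF.snd' | with_reducible exact IntF.const _ | with_reducible exact Int.const _ | assumption | with_reducible apply Int.and | with_reducible apply Int.or | with_reducible apply Int.not | with_reducible apply Int.imp | with_reducible apply Int.iff | with_reducible apply Int.ne | with_reducible apply Int.eq | with_reducible apply Int.mem | with_reducible apply Int.subset | with_reducible apply Int.ltN | with_reducible apply Int.leN | with_reducible apply Int.fin | with_reducible apply Int.unique | with_reducible apply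 Int.all | with_reducible apply Int.ex | with_reducible apply IntF.fst | with_reducible apply IntF.snd | with_reducible apply IntF.app | with_reducible apply IntF.ite | with_reducible apply IntF.sep | with_reducible apply IntF.lam | with_reducible apply IntF.insert | with_reducible apply IntF.singleton | with_reducible apply IntF.union | with_reducible apply IntF.inter | with_reducible apply IntF.sdiff | with_reducible apply IntF.isUnion | with_reducible apply IntF.iimage | with_reducible apply IntF.the | with_reducible apply IntF.irec | with_reducible_and_instances apply IntF.add | with_reducible_and_instances apply IntF.mul | with_reducible apply IntF.succ | with_reducible apply IntF.val | (with_reducible refine Int.comp ?_ ?_; assumption) | (with_reducible refine Int.comp₂ ?_ ?_ ?_; assumption) | (with_reducible refine Int.comp₃ ?_ ?_ ?_ ?_; assumption) | (with_reducible refine Int.comp₄ ?_ ?_ ?_ ?_ ?_; assumption) | (with_reducible refine IntF.comp ?_ ?_; assumption) | (with_reducible refine IntF.comp₂ ?_ ?_ ?_; assumption) | (with_reducible refine IntF.comp₃ ?_ ?_ ?_ ?_; assumption) | with_reducible apply IntF.inl | with_reducible apply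 IntF.inr | with_reducible apply IntF.pair))) hc
      have h6 := hg1 x hx
      rw [hx'] at h6
      exact h4 ⟨_, h6⟩
  have hran : ∀ d, d ∈ T → ∃ c, (c, d) ∈ p' := by
    intro d hd
    have hg : IntF M (fun b' => the (fun c => (b', c) ∈ p') d) := by (repeat' (first | with_reducible exact IntF.id | with_reducible exact IntF.fst' | with_reducible exact IntF.snd' | with_reducible exact IntF.const _ | with_reducible exact Int.const _ | assumption | with_reducible apply Int.and | with_reducible apply Int.or | with_reducible apply Int.not | with_reducible apply Int.imp | with_reducible apply Int.iff | with_reducible apply Int.ne | with_reducible apply Int.eq | with_reducible apply Int.mem | with_reducible apply Int.subset | with_reducible apply Int.ltN | with_reducible apply Int.leN | with_reducible apply Int.fin | with_reducible apply Int.unique | with_reducible apply Int.all | with_reducible apply Int.ex | with_reducible apply IntF.fst | with_reducible apply IntF.snd | with_reducible apply IntF.app | with_reducible apply IntF.ite | with_reducible apply IntF.sep | with_reducible apply IntF.lam | with_reducible apply IntF.insert | with_reducible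 apply IntF.singleton | with_reducible apply IntF.union | with_reducible apply IntF.inter | with_reducible apply IntF.sdiff | with_reducible apply IntF.isUnion | with_reducible apply IntF.iimage | with_reducible apply IntF.the | with_reducible apply IntF.irec | with_reducible_and_instances apply IntF.add | with_reducible_and_instances apply IntF.mul | with_reducible apply IntF.succ | with_reducible apply IntF.val | (with_reducible refine Int.comp ?_ ?_; assumption) | (with_reducible refine Int.comp₂ ?_ ?_ ?_; assumption) | (with_reducible refine Int.comp₃ ?_ ?_ ?_ ?_; assumption) | (with_reducible refine Int.comp₄ ?_ ?_ ?_ ?_ ?_; assumption) | (with_reducible refine IntF.comp ?_ ?_; assumption) | (with_reducible refine IntF.comp₂ ?_ ?_ ?_; assumption) | (with_reducible refine IntF.comp₃ ?_ ?_ ?_ ?_; assumption) | with_reducible apply IntF.inl | with_reducible apply IntF.inr | with_reducible apply IntF.pair))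
    have hg1 : ∀ b', b' ∈ T → (b', the (fun c => (b', c) ∈ p') d) ∈ p' := by
      intro b' hb'
      obtain ⟨x, hx⟩ := hdom b' hb'
      exact the_spec (p := fun c => (b', c) ∈ p') ⟨x, hx, fun c' hc' => h1.fn hc' hx⟩
    obtain ⟨x, hx, hx'⟩ := Pool.Agent.R596.fin_surj (M := M) (p := fun x => x ∈ T)
      ⟨_, hT, fun x hx => hx⟩ hg (fun x hx => (mem_iprod.1 (h3 _ (hg1 x hx))).2)
      (fun x y hx hy hxy => by
        have h6 := hg1 x hx
        rw [hxy] at h6
        exact h1.inj h6 (hg1 y hy)) (by (repeat' (first | with_reducible exact IntF.id | with_reducible exact IntF.fst' | with_reducible exact IntF.snd' | with_reducible exact IntF.const _ | with_reducible exact Int.const _ | assumption | with_reducible apply Int.and | with_reducible apply Int.or | with_reducible apply Int.not | with_reducible apply Int.imp | with_reducible apply Int.iff | with_reducible apply Int.ne | with_reducible apply Int.eq | with_reducible apply Int.mem | with_reducible apply Int.subset | with_reducible apply Int.ltN | with_reducible apply Int.leN | with_reducible apply Int.fin | with_reducible apply Int.unique | with_reducible apply Int.all | with_reducible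 apply Int.ex | with_reducible apply IntF.fst | with_reducible apply IntF.snd | with_reducible apply IntF.app | with_reducible apply IntF.ite | with_reducible apply IntF.sep | with_reducible apply IntF.lam | with_reducible apply IntF.insert | with_reducible apply IntF.singleton | with_reducible apply IntF.union | with_reducible apply IntF.inter | with_reducible apply IntF.sdiff | with_reducible apply IntF.isUnion | with_reducible apply IntF.iimage | with_reducible apply IntF.the | with_reducible apply IntF.irec | with_reducible_and_instances apply IntF.add | with_reducible_and_instances apply IntF.mul | with_reducible apply IntF.succ | with_reducible apply IntF.val | (with_reducible refine Int.comp ?_ ?_; assumption) | (with_reducible refine Int.comp₂ ?_ ?_ ?_; assumption) | (with_reducible refine Int.comp₃ ?_ ?_ ?_ ?_; assumption) | (with_reducible refine Int.comp₄ ?_ ?_ ?_ ?_ ?_; assumption) | (with_reducible refine IntF.comp ?_ ?_; assumption) | (with_reducible refine IntF.comp₂ ?_ ?_ ?_; assumption) | (with_reducible refine IntF.comp₃ ?_ ?_ ?_ ?_; assumption) | with_reducible apply IntF.inl | with_reducible apply IntF.inr | with_reducible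 apply IntF.pair))) hd
    have h6 := hg1 x hx
    rw [hx'] at h6
    exact ⟨_, h6⟩
  exact ⟨p', h1, h2, fun c => ⟨hdom c, fun ⟨d, hd⟩ => (mem_iprod.1 (h3 _ hd)).1⟩,
    fun d => ⟨hran d, fun ⟨c, hc⟩ => (mem_iprod.1 (h3 _ hc)).2⟩⟩

end

end Pool.Agent.R596.AM
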