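import Pool.Agent.R596.AmF

/-!
# Degenerate closures: blocks and their isomorphisms
-/

set_option autoImplicit false
set_option linter.all false
set_option maxHeartbeats 400000

namespace Pool.Agent.R596.AM

open FirstOrder FirstOrder.Language
open Pool.Agent.Helper672.ZFA
open Pool.Agent.H310

universe u u₁ u₂ u₃

section

variable {M : Type u} [L.Structure M] [hM : IsModel M]
variable {α : Type u₁} {κ : Type u₂} [ITy M α] [ITy M κ]

/-- The composition. -/
noncomputable def cmp (p q : IPow M (α × α)) : IPow M (α × α) :=
  sep M fun r => ∃ b, (r.1, b) ∈ p ∧ (b, r.2) ∈ q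

theorem mem_cmp {p q : IPow M (α × α)} {r : α × α} :
    r ∈ cmp p q ↔ ∃ b, (r.1, b) ∈ p ∧ (b, r.2) ∈ q := by
  unfold cmp
  rw [mem_sep (by (repeat' (first | with_reducible exact IntF.id | with_reducible exact IntF.fst' | with_reducible exact IntF.snd' | with_reducible exact IntF.const _ | with_reducible exact Int.const _ | assumption | with_reducible apply Int.and | with_reducible apply Int.or | with_reducible apply Int.not | with_reducible apply Int.imp | with_reducible apply Int.iff | with_reducible apply Int.ne | with_reducible apply Int.eq | with_reducible apply Int.mem | with_reducible apply Int.subset | with_reducible apply Int.ltN | with_reducible apply Int.leN | with_reducible apply Int.fin | with_reducible apply Int.unique | with_reducible apply Int.all | with_reducible apply Int.ex | with_reducible apply IntF.fst | with_reducible apply IntF.snd | with_reducible apply IntF.app | with_reducible apply IntF.ite | with_reducible apply IntF.sep | with_reducible apply IntF.lam | with_reducible apply IntF.insert | with_reducible apply IntF.singleton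 | with_reducible apply IntF.union | with_reducible apply IntF.inter | with_reducible apply IntF.sdiff | with_reducible apply IntF.isUnion | with_reducible apply IntF.iimage | with_reducible apply IntF.the | with_reducible apply IntF.irec | with_reducible_and_instances apply IntF.add | with_reducible_and_instances apply IntF.mul | with_reducible apply IntF.succ | with_reducible apply IntF.val | (with_reducible refine Int.comp ?_ ?_; assumption) | (with_reducible refine Int.comp₂ ?_ ?_ ?_; assumption) | (with_reducible refine Int.comp₃ ?_ ?_ ?_ ?_; assumption) | (with_reducible refine Int.comp₄ ?_ ?_ ?_ ?_ ?_; assumption) | (with_reducible refine IntF.comp ?_ ?_; assumption) | (with_reducible refine IntF.comp₂ ?_ ?_ ?_; assumption) | (with_reducible refine IntF.comp₃ ?_ ?_ ?_ ?_; assumption) | with_reducible apply IntF.inl | with_reducible apply IntF.inr | with_reducible apply IntF.pair)))]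

variable {F : IFun M (IPow M (α × κ)) (IPow M (α × κ))}

theorem Gp.cmp {p q : IPow M (α × α)} (hp : Gp F p) (hq : Gp F q) : Gp F (cmp p q) := by
  refine hp.comp hq ?_ fun a c h => mem_cmp.1 h
  refine (hp.fdmn.prod hq.frng).subset fun r hr => ?_
  obtain ⟨b, h1, h2⟩ := mem_cmp.1 hr
  exact mem_iprod.2 ⟨mem_dmn.2 ⟨b, h1⟩, mem_rng.2 ⟨b, h2⟩⟩

variable (F) in
/-- Closed finite sets. -/
def Cld (C : IPow M α) : Prop := IFin C ∧ cl F C ⊆ C

variable (F) in
theorem int_Cld : Int M (fun C : IPow M α => Cld F C) := by
  unfold Cld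
  have h := int_cl F
  (repeat' (first | with_reducible exact IntF.id | with_reducible exact IntF.fst' | with_reducible exact IntF.snd' | with_reducible exact IntF.const _ | with_reducible exact Int.const _ | assumption | with_reducible apply Int.and | with_reducible apply Int.or | with_reducible apply Int.not | with_reducible apply Int.imp | with_reducible apply Int.iff | with_reducible apply Int.ne | with_reducible apply Int.eq | with_reducible apply Int.mem | with_reducible apply Int.subset | with_reducible apply Int.ltN | with_reducible apply Int.leN | with_reducible apply Int.fin | with_reducible apply Int.unique | with_reducible apply Int.all | with_reducible apply Int.ex | with_reducible apply IntF.fst | with_reducible apply IntF.snd | with_reducible apply IntF.app | with_reducible apply IntF.ite | with_reducible apply IntF.sep | with_reducible apply IntF.lam | with_reducible apply IntF.insert | with_reducible apply IntF.singleton | with_reducible apply IntF.union | with_reducible apply IntF.inter | with_reducible apply IntF.sdiff | with_reducible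 apply IntF.isUnion | with_reducible apply IntF.iimage | with_reducible apply IntF.the | with_reducible apply IntF.irec | with_reducible_and_instances apply IntF.add | with_reducible_and_instances apply IntF.mul | with_reducible apply IntF.succ | with_reducible apply IntF.val | (with_reducible refine Int.comp ?_ ?_; assumption) | (with_reducible refine Int.comp₂ ?_ ?_ ?_; assumption) | (with_reducible refine Int.comp₃ ?_ ?_ ?_ ?_; assumption) | (with_reducible refine Int.comp₄ ?_ ?_ ?_ ?_ ?_; assumption) | (with_reducible refine IntF.comp ?_ ?_; assumption) | (with_reducible refine IntF.comp₂ ?_ ?_ ?_; assumption) | (with_reducible refine IntF.comp₃ ?_ ?_ ?_ ?_; assumption) | with_reducible apply IntF.inl | with_reducible apply IntF.inr | with_reducible apply IntF.pair))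

variable (F) in
/-- Degenerate closures. -/
def Dg : Prop := ∀ S : IPow M α, IFin S → (∃ s, s ∈ S) → ∀ x, x ∈ cl F S →
  ∃ s, s ∈ S ∧ x ∈ cl F {s}

variable (F) in
/-- Blocks. -/
noncomputable def bk (a : α) : IPow M α := sep M fun b => b ∈ cl F {a} ∧ ¬ b ∈ cl F ∅

variable (F) in
theorem int_bk : IntF M (fun a : α => bk F a) := by
  unfold bk
  have h := int_cl F
  (repeat' (first | with_reducible exact IntF.id | with_reducible exact IntF.fst' | with_reducible exact IntF.snd' | with_reducible exact IntF.const _ | with_reducible exact Int.const _ | assumption | with_reducible apply Int.and | with_reducible apply Int.or | with_reducible apply Int.not | with_reducible apply Int.imp | with_reducible apply Int.iff | with_reducible apply Int.ne | with_reducible apply Int.eq | with_reducible apply Int.mem | with_reducible apply Int.subset | with_reducible apply Int.ltN | with_reducible apply Int.leN | with_reducible apply Int.fin | with_reducible apply Int.unique | with_reducible apply Int.all | with_reducible apply Int.ex | with_reducible apply IntF.fst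 | with_reducible apply IntF.snd | with_reducible apply IntF.app | with_reducible apply IntF.ite | with_reducible apply IntF.sep | with_reducible apply IntF.lam | with_reducible apply IntF.insert | with_reducible apply IntF.singleton | with_reducible apply IntF.union | with_reducible apply IntF.inter | with_reducible apply IntF.sdiff | with_reducible apply IntF.isUnion | with_reducible apply IntF.iimage | with_reducible apply IntF.the | with_reducible apply IntF.irec | with_reducible_and_instances apply IntF.add | with_reducible_and_instances apply IntF.mul | with_reducible apply IntF.succ | with_reducible apply IntF.val | (with_reducible refine Int.comp ?_ ?_; assumption) | (with_reducible refine Int.comp₂ ?_ ?_ ?_; assumption) | (with_reducible refine Int.comp₃ ?_ ?_ ?_ ?_; assumption) | (with_reducible refine Int.comp₄ ?_ ?_ ?_ ?_ ?_; assumption) | (with_reducible refine IntF.comp ?_ ?_; assumption) | (with_reducible refine IntF.comp₂ ?_ ?_ ?_; assumption) | (with_reducible refine IntF.comp₃ ?_ ?_ ?_ ?_; assumption) | with_reducible apply IntF.inl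 | with_reducible apply IntF.inr | with_reducible apply IntF.pair))

theorem mem_bk {a b : α} : b ∈ bk F a ↔ b ∈ cl F {a} ∧ ¬ b ∈ cl F ∅ := by
  unfold bk
  rw [mem_sep (by (repeat' (first | with_reducible exact IntF.id | with_reducible exact IntF.fst' | with_reducible exact IntF.snd' | with_reducible exact IntF.const _ | with_reducible exact Int.const _ | assumption | with_reducible apply Int.and | with_reducible apply Int.or | with_reducible apply Int.not | with_reducible apply Int.imp | with_reducible apply Int.iff | with_reducible apply Int.ne | with_reducible apply Int.eq | with_reducible apply Int.mem | with_reducible apply Int.subset | with_reducible apply Int.ltN | with_reducible apply Int.leN | with_reducible apply Int.fin | with_reducible apply Int.unique | with_reducible apply Int.all | with_reducible apply Int.ex | with_reducible apply IntF.fst | with_reducible apply IntF.snd | with_reducible apply IntF.app | with_reducible apply IntF.ite | with_reducible apply IntF.sep | with_reducible apply IntF.lam | with_reducible apply IntF.insert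 | with_reducible apply IntF.singleton | with_reducible apply IntF.union | with_reducible apply IntF.inter | with_reducible apply IntF.sdiff | with_reducible apply IntF.isUnion | with_reducible apply IntF.iimage | with_reducible apply IntF.the | with_reducible apply IntF.irec | with_reducible_and_instances apply IntF.add | with_reducible_and_instances apply IntF.mul | with_reducible apply IntF.succ | with_reducible apply IntF.val | (with_reducible refine Int.comp ?_ ?_; assumption) | (with_reducible refine Int.comp₂ ?_ ?_ ?_; assumption) | (with_reducible refine Int.comp₃ ?_ ?_ ?_ ?_; assumption) | (with_reducible refine Int.comp₄ ?_ ?_ ?_ ?_ ?_; assumption) | (with_reducible refine IntF.comp ?_ ?_; assumption) | (with_reducible refine IntF.comp₂ ?_ ?_ ?_; assumption) | (with_reducible refine IntF.comp₃ ?_ ?_ ?_ ?_; assumption) | with_reducible apply IntF.inl | with_reducible apply IntF.inr | with_reducible apply IntF.pair)))]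

variable (hA : Am M α) (hκ : FinP M (fun _ : κ => True))

theorem ins_empty {a : α} : (insert a ∅ : IPow M α) = {a} := IPow.ext' fun x => by simp

theorem bk_self {a : α} (h : ¬ a ∈ cl F ∅) : a ∈ bk F a :=
  mem_bk.2 ⟨sub_cl (mem_singleton.2 rfl), h⟩

include hA hκ in
theorem bk_fin (a : α) : IFin (bk F a) :=
  (cl_spec (F := F) hA hκ (IFin.singleton a)).1.subset fun x hx => (mem_bk.1 hx).1

include hA hκ in
theorem cl_sub {U V : IPow M α} (hV : IFin V) (h : U ⊆ cl F V) : cl F U ⊆ cl F V := fun x hx =>
  cl_cl hA hκ hV _ (cl_mono h _ hx)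

include hA hκ in
theorem sing_symm {a b : α} (h : b ∈ cl F {a}) (hb : ¬ b ∈ cl F ∅) : a ∈ cl F {b} := by
  have h1 : b ∈ cl F (insert a ∅) := by rw [ins_empty]; exact h
  have h2 := cl_exch hA hκ IFin.empty hb h1
  rw [ins_empty] at h2
  exact h2

include hA hκ in
theorem sing_tr {a b c : α} (h : b ∈ cl F {a}) (h' : c ∈ cl F {b}) : c ∈ cl F {a} :=
  cl_sub hA hκ (IFin.singleton a) (fun x hx => (mem_singleton.1 hx) ▸ h) _ h'

include hA hκ in
theorem bk_symm {a b : α} (ha : ¬ a ∈ cl F ∅) (h : b ∈ bk F a) : a ∈ bk F b :=
  mem_bk.2 ⟨sing_symm hA hκ (mem_bk.1 h).1 (mem_bk.1 h).2, ha⟩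

include hA hκ in
theorem bk_tr {a b c : α} (h : b ∈ bk F a) (h' : c ∈ bk F b) : c ∈ bk F a :=
  mem_bk.2 ⟨sing_tr hA hκ (mem_bk.1 h).1 (mem_bk.1 h').1, (mem_bk.1 h').2⟩

include hA hκ in
theorem bk_eq {a b : α} (ha : ¬ a ∈ cl F ∅) (h : b ∈ bk F a) : bk F b = bk F a :=
  IPow.ext' fun _ => ⟨fun hx => bk_tr hA hκ h hx, fun hx => bk_tr hA hκ (bk_symm hA hκ ha h) hx⟩

theorem Cld.emp {C : IPow M α} (hC : Cld F C) : cl F ∅ ⊆ C := fun x hx =>
  hC.2 _ (cl_mono (fun y hy => absurd hy (by simp)) _ hx)

theorem Cld.nemp {C : IPow M α} (hC : Cld F C) {a : α} (h : ¬ a ∈ C) : ¬ a ∈ cl F ∅ :=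
  fun h1 => h (hC.emp _ h1)

include hA hκ in
theorem Cld.disj {C : IPow M α} (hC : Cld F C) {a x : α} (h : ¬ a ∈ C) (hx : x ∈ bk F a) :
    ¬ x ∈ C := fun h1 => h (hC.2 _ (cl_mono (fun y hy => (mem_singleton.1 hy) ▸ h1) _
      (sing_symm hA hκ (mem_bk.1 hx).1 (mem_bk.1 hx).2)))

include hA hκ in
theorem cld_cl {U : IPow M α} (hU : IFin U) : Cld F (cl F U) :=
  ⟨(cl_spec hA hκ hU).1, cl_cl hA hκ hU⟩

include hA hκ in
theorem Cld.add (hD : Dg F) {C : IPow M α} (hC : Cld F C) (a : α) : Cld F (C ∪ bk F a) := by
  refine ⟨hC.1.union (bk_fin hA hκ a), fun x hx => ?_⟩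
  rw [mem_union]
  by_cases hx0 : x ∈ cl F ∅
  · exact Or.inl (hC.emp _ hx0)
  by_cases hne : ∃ s, s ∈ C ∪ bk F a
  · obtain ⟨s, hs, h1⟩ := hD _ (hC.1.union (bk_fin hA hκ a)) hne x hx
    rcases mem_union.1 hs with hs | hs
    · exact Or.inl (hC.2 _ (cl_mono (fun y hy => (mem_singleton.1 hy) ▸ hs) _ h1))
    · exact Or.inr (mem_bk.2 ⟨sing_tr hA hκ (mem_bk.1 hs).1 h1, hx0⟩)
  · exfalso
    refine hx0 (cl_mono (fun y hy => absurd ⟨y, hy⟩ hne) _ hx)

include hA hκ in
theorem Cld.del (hD : Dg F) {C : IPow M α} (hC : Cld F C) (a : α) : Cld F (C \ bk F a) := by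
  have hf : IFin (C \ bk F a) := hC.1.subset fun x hx => (mem_sdiff.1 hx).1
  refine ⟨hf, fun x hx => ?_⟩
  rw [mem_sdiff]
  by_cases hx0 : x ∈ cl F ∅
  · exact ⟨hC.emp _ hx0, fun h => (mem_bk.1 h).2 hx0⟩
  by_cases hne : ∃ s, s ∈ C \ bk F a
  · obtain ⟨s, hs, h1⟩ := hD _ hf hne x hx
    obtain ⟨hs1, hs2⟩ := mem_sdiff.1 hs
    have h2 := sing_symm hA hκ h1 hx0
    refine ⟨hC.2 _ (cl_mono (fun y hy => (mem_singleton.1 hy) ▸ hs1) _ h1), fun h3 => hs2 ?_⟩
    refine mem_bk.2 ⟨sing_tr hA hκ (mem_bk.1 h3).1 h2, fun h4 => hx0 ?_⟩
    refine cl_cl hA hκ IFin.empty _ (cl_mono ?_ _ h1)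
    exact fun y hy => (mem_singleton.1 hy) ▸ h4
  · exfalso
    refine hx0 (cl_mono (fun y hy => absurd ⟨y, hy⟩ hne) _ hx)

variable (F) in
/-- Isomorphisms of blocks over a finite set. -/
def Is (E : IPow M α) (a b : α) (g : IPow M (α × α)) : Prop :=
  Gp F (idp E ∪ g) ∧ (∀ c, c ∈ bk F a ↔ ∃ d, (c, d) ∈ g) ∧ ∀ d, d ∈ bk F b ↔ ∃ c, (c, d) ∈ g

variable (F) in
theorem int_Is : Int M (fun q : ((IPow M α × α) × α) × IPow M (α × α) =>
    Is F q.1.1.1 q.1.1.2 q.1.2 q.2) := by
  unfold Is
  have h := int_Gp F
  have h2 := int_idp (M := M) (α := α)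
  have h3 := int_bk F
  (repeat' (first | with_reducible exact IntF.id | with_reducible exact IntF.fst' | with_reducible exact IntF.snd' | with_reducible exact IntF.const _ | with_reducible exact Int.const _ | assumption | with_reducible apply Int.and | with_reducible apply Int.or | with_reducible apply Int.not | with_reducible apply Int.imp | with_reducible apply Int.iff | with_reducible apply Int.ne | with_reducible apply Int.eq | with_reducible apply Int.mem | with_reducible apply Int.subset | with_reducible apply Int.ltN | with_reducible apply Int.leN | with_reducible apply Int.fin | with_reducible apply Int.unique | with_reducible apply Int.all | with_reducible apply Int.ex | with_reducible apply IntF.fst | with_reducible apply IntF.snd | with_reducible apply IntF.app | with_reducible apply IntF.ite | with_reducible apply IntF.sep | with_reducible apply IntF.lam | with_reducible apply IntF.insert | with_reducible apply IntF.singleton | with_reducible apply IntF.union | with_reducible apply IntF.inter | with_reducible apply IntF.sdiff | with_reducible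 apply IntF.isUnion | with_reducible apply IntF.iimage | with_reducible apply IntF.the | with_reducible apply IntF.irec | with_reducible_and_instances apply IntF.add | with_reducible_and_instances apply IntF.mul | with_reducible apply IntF.succ | with_reducible apply IntF.val | (with_reducible refine Int.comp ?_ ?_; assumption) | (with_reducible refine Int.comp₂ ?_ ?_ ?_; assumption) | (with_reducible refine Int.comp₃ ?_ ?_ ?_ ?_; assumption) | (with_reducible refine Int.comp₄ ?_ ?_ ?_ ?_ ?_; assumption) | (with_reducible refine IntF.comp ?_ ?_; assumption) | (with_reducible refine IntF.comp₂ ?_ ?_ ?_; assumption) | (with_reducible refine IntF.comp₃ ?_ ?_ ?_ ?_; assumption) | with_reducible apply IntF.inl | with_reducible apply IntF.inr | with_reducible apply IntF.pair))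

theorem Is.gp {E : IPow M α} {a b : α} {g : IPow M (α × α)} (h : Is F E a b g) : Gp F g :=
  h.1.sub fun q hq => mem_union.2 (Or.inr hq)

theorem Is.inv {E : IPow M α} {a b : α} {g : IPow M (α × α)} (h : Is F E a b g) :
    Is F E b a (ivp g) := by
  refine ⟨h.1.inv.sub fun q hq => ?_, fun c => ?_, fun c => ?_⟩
  · rw [mem_ivp, mem_union]
    rcases mem_union.1 hq with hq | hq
    · obtain ⟨h1, h2⟩ := mem_idp.1 hq
      exact Or.inl (mem_idp.2 ⟨h1.symm, h1 ▸ h2⟩)
    · exact Or.inr (mem_ivp.1 hq)
  · rw [h.2.2]
    exact ⟨fun ⟨d, hd⟩ => ⟨d, mem_ivp.2 hd⟩, fun ⟨d, hd⟩ => ⟨d, mem_ivp.1 hd⟩⟩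
  · rw [h.2.1]
    exact ⟨fun ⟨d, hd⟩ => ⟨d, mem_ivp.2 hd⟩, fun ⟨d, hd⟩ => ⟨d, mem_ivp.1 hd⟩⟩

theorem Is.cmp {E : IPow M α} {a b c : α} {g h : IPow M (α × α)} (hg : Is F E a b g)
    (hh : Is F E b c h) : Is F E a c (cmp g h) := by
  refine ⟨(hg.1.cmp hh.1).sub fun q hq => ?_, fun x => ?_, fun x => ?_⟩
  · rw [mem_cmp]
    rcases mem_union.1 hq with hq | hq
    · obtain ⟨h1, h2⟩ := mem_idp.1 hq
      exact ⟨q.1, mem_union.2 (Or.inl (mem_idp.2 ⟨rfl, h2⟩)),
        mem_union.2 (Or.inl (mem_idp.2 ⟨h1, h2⟩))⟩
    · obtain ⟨m, h1, h2⟩ := mem_cmp.1 hq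
      exact ⟨m, mem_union.2 (Or.inr h1), mem_union.2 (Or.inr h2)⟩
  · rw [hg.2.1]
    constructor
    · rintro ⟨m, hm⟩
      obtain ⟨d, hd⟩ := (hh.2.1 m).1 ((hg.2.2 m).2 ⟨x, hm⟩)
      exact ⟨d, mem_cmp.2 ⟨m, hm, hd⟩⟩
    · rintro ⟨d, hd⟩
      obtain ⟨m, h1, _⟩ := mem_cmp.1 hd
      exact ⟨m, h1⟩
  · rw [hh.2.2]
    constructor
    · rintro ⟨m, hm⟩
      obtain ⟨d, hd⟩ := (hg.2.2 m).1 ((hh.2.1 m).2 ⟨x, hm⟩)
      exact ⟨d, mem_cmp.2 ⟨m, hd, hm⟩⟩
    · rintro ⟨d, hd⟩
      obtain ⟨m, _, h1⟩ := mem_cmp.1 hd
      exact ⟨m, h1⟩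

include hA hκ in
theorem Is.id {E : IPow M α} (hE : IFin E) (a : α) : Is F E a a (idp (bk F a)) := by
  refine ⟨(Gp.id (F := F) (hE.union (bk_fin (F := F) hA hκ a))).sub fun q hq => ?_, idp_dom, idp_ran⟩
  rw [mem_idp, mem_union]
  rcases mem_union.1 hq with hq | hq
  · obtain ⟨h1, h2⟩ := mem_idp.1 hq
    exact ⟨h1, Or.inl h2⟩
  · obtain ⟨h1, h2⟩ := mem_idp.1 hq
    exact ⟨h1, Or.inr h2⟩

include hA in
theorem blockmap {p : IPow M (α × α)} (hp : Gp F p) {a b c d : α} (hab : (a, b) ∈ p)
    (hcd : (c, d) ∈ p) : c ∈ bk F a ↔ d ∈ bk F b := by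
  rw [mem_bk, mem_bk]
  refine and_congr ?_ (not_congr ?_)
  · refine cl_img2 (p := {(a, b)}) hA ?_ ?_ hp ?_ hcd
    · intro x
      constructor
      · intro hx
        exact ⟨b, mem_singleton.2 (by rw [mem_singleton.1 hx])⟩
      · rintro ⟨y, hy⟩
        exact mem_singleton.2 (Prod.ext_iff.1 (mem_singleton.1 hy)).1
    · intro x
      constructor
      · intro hx
        exact ⟨a, mem_singleton.2 (by rw [mem_singleton.1 hx])⟩
      · rintro ⟨y, hy⟩
        exact mem_singleton.2 (Prod.ext_iff.1 (mem_singleton.1 hy)).2
    · intro q hq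
      rw [mem_singleton.1 hq]
      exact hab
  · refine cl_img2 (p := ∅) hA ?_ ?_ hp ?_ hcd
    · intro x
      simp
    · intro x
      simp
    · intro q hq
      simp at hq

include hA hκ in
/-- A partial isomorphism gives an isomorphism of blocks. -/
theorem Is.of_gp {p : IPow M (α × α)} (hp : Gp F p) {E : IPow M α} (hE : idp E ⊆ p) {a b : α}
    (hab : (a, b) ∈ p) (h1 : ∀ c, c ∈ bk F a → ∃ d, (c, d) ∈ p)
    (h2 : ∀ d, d ∈ bk F b → ∃ c, (c, d) ∈ p) : Is F E a b (rst p (bk F a)) := by
  refine ⟨hp.sub fun q hq => ?_, fun c => ?_, fun d => ?_⟩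
  · rcases mem_union.1 hq with hq | hq
    · exact hE _ hq
    · exact (mem_rst.1 hq).1
  · constructor
    · intro hc
      obtain ⟨d, hd⟩ := h1 c hc
      exact ⟨d, mem_rst.2 ⟨hd, hc⟩⟩
    · rintro ⟨d, hd⟩
      exact (mem_rst.1 hd).2
  · constructor
    · intro hd
      obtain ⟨c, hc⟩ := h2 d hd
      exact ⟨c, mem_rst.2 ⟨hc, (blockmap hA hp hab hc).2 hd⟩⟩
    · rintro ⟨c, hc⟩
      obtain ⟨h3, h4⟩ := mem_rst.1 hc
      exact (blockmap hA hp hab h3).1 h4

include hA hκ in
theorem exists_Is {E : IPow M α} (hE : Cld F E) {a b : α} (ha : ¬ a ∈ E) (hb : ¬ b ∈ E) :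
    ∃ g, Is F E a b g := by
  have h0 := (cl_spec (F := F) hA hκ hE.1).2 a b (fun h => ha (hE.2 _ h)) (fun h => hb (hE.2 _ h))
  obtain ⟨p, h1, h2, h3⟩ := h0.extS hA (bk_fin (F := F) hA hκ a)
  obtain ⟨p', h1', h2', h3'⟩ := h1.extS' hA (bk_fin (F := F) hA hκ b)
  refine ⟨_, Is.of_gp hA hκ h1' (fun q hq => h2' _ (h2 _ (mem_insert.2 (Or.inr hq))))
    (h2' _ (h2 _ (mem_insert.2 (Or.inl rfl)))) (fun c hc => ?_) h3'⟩
  obtain ⟨d, hd⟩ := h3 c hc
  exact ⟨d, h2' _ hd⟩

variable (F) in
/-- Stable finite sets. -/
def St (E : IPow M α) : Prop := Cld F E ∧ ∀ (E' : IPow M α) (a : α), Cld F E' → E ⊆ E' →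
  ¬ a ∈ E' → ∀ g, Is F E a a g → Is F E' a a g

include hA hκ in
theorem exists_St : ∃ E : IPow M α, St F E := by
  have hI := int_Is F
  have hC := int_Cld F
  obtain ⟨a, ha⟩ := hA.new (p := fun x => x ∈ cl F ∅)
    ⟨_, (cl_spec (F := F) hA hκ IFin.empty).1, fun x hx => hx⟩
  have hIs : ∀ E : IPow M α, Int M (fun g : IPow M (α × α) => Is F E a a g) := fun E => by (repeat' (first | with_reducible exact IntF.id | with_reducible exact IntF.fst' | with_reducible exact IntF.snd' | with_reducible exact IntF.const _ | with_reducible exact Int.const _ | assumption | with_reducible apply Int.and | with_reducible apply Int.or | with_reducible apply Int.not | with_reducible apply Int.imp | with_reducible apply Int.iff | with_reducible apply Int.ne | with_reducible apply Int.eq | with_reducible apply Int.mem | with_reducible apply Int.subset | with_reducible apply Int.ltN | with_reducible apply Int.leN | with_reducible apply Int.fin | with_reducible apply Int.unique | with_reducible apply Int.all | with_reducible apply Int.ex | with_reducible apply IntF.fst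 | with_reducible apply IntF.snd | with_reducible apply IntF.app | with_reducible apply IntF.ite | with_reducible apply IntF.sep | with_reducible apply IntF.lam | with_reducible apply IntF.insert | with_reducible apply IntF.singleton | with_reducible apply IntF.union | with_reducible apply IntF.inter | with_reducible apply IntF.sdiff | with_reducible apply IntF.isUnion | with_reducible apply IntF.iimage | with_reducible apply IntF.the | with_reducible apply IntF.irec | with_reducible_and_instances apply IntF.add | with_reducible_and_instances apply IntF.mul | with_reducible apply IntF.succ | with_reducible apply IntF.val | (with_reducible refine Int.comp ?_ ?_; assumption) | (with_reducible refine Int.comp₂ ?_ ?_ ?_; assumption) | (with_reducible refine Int.comp₃ ?_ ?_ ?_ ?_; assumption) | (with_reducible refine Int.comp₄ ?_ ?_ ?_ ?_ ?_; assumption) | (with_reducible refine IntF.comp ?_ ?_; assumption) | (with_reducible refine IntF.comp₂ ?_ ?_ ?_; assumption) | (with_reducible refine IntF.comp₃ ?_ ?_ ?_ ?_; assumption) | with_reducible apply IntF.inl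 | with_reducible apply IntF.inr | with_reducible apply IntF.pair))
  obtain ⟨H, ⟨E, hE, haE, hH⟩, hmin⟩ := FinP.exists_min (M := M)
    (p := fun H : IPow M (IPow M (α × α)) => ∃ E, Cld F E ∧ ¬ a ∈ E ∧
      H = sep M fun g => Is F E a a g) (by (repeat' (first | with_reducible exact IntF.id | with_reducible exact IntF.fst' | with_reducible exact IntF.snd' | with_reducible exact IntF.const _ | with_reducible exact Int.const _ | assumption | with_reducible apply Int.and | with_reducible apply Int.or | with_reducible apply Int.not | with_reducible apply Int.imp | with_reducible apply Int.iff | with_reducible apply Int.ne | with_reducible apply Int.eq | with_reducible apply Int.mem | with_reducible apply Int.subset | with_reducible apply Int.ltN | with_reducible apply Int.leN | with_reducible apply Int.fin | with_reducible apply Int.unique | with_reducible apply Int.all | with_reducible apply Int.ex | with_reducible apply IntF.fst | with_reducible apply IntF.snd | with_reducible apply IntF.app | with_reducible apply IntF.ite | with_reducible apply IntF.sep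 | with_reducible apply IntF.lam | with_reducible apply IntF.insert | with_reducible apply IntF.singleton | with_reducible apply IntF.union | with_reducible apply IntF.inter | with_reducible apply IntF.sdiff | with_reducible apply IntF.isUnion | with_reducible apply IntF.iimage | with_reducible apply IntF.the | with_reducible apply IntF.irec | with_reducible_and_instances apply IntF.add | with_reducible_and_instances apply IntF.mul | with_reducible apply IntF.succ | with_reducible apply IntF.val | (with_reducible refine Int.comp ?_ ?_; assumption) | (with_reducible refine Int.comp₂ ?_ ?_ ?_; assumption) | (with_reducible refine Int.comp₃ ?_ ?_ ?_ ?_; assumption) | (with_reducible refine Int.comp₄ ?_ ?_ ?_ ?_ ?_; assumption) | (with_reducible refine IntF.comp ?_ ?_; assumption) | (with_reducible refine IntF.comp₂ ?_ ?_ ?_; assumption) | (with_reducible refine IntF.comp₃ ?_ ?_ ?_ ?_; assumption) | with_reducible apply IntF.inl | with_reducible apply IntF.inr | with_reducible apply IntF.pair)))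
    ⟨ipow (ipow (iprod (bk F a) (bk F a))), (((bk_fin hA hκ a).prod (bk_fin hA hκ a)).pow).pow, by
      rintro H ⟨E, hE, haE, rfl⟩
      rw [mem_ipow]
      intro g hg
      rw [mem_sep (hIs E)] at hg
      rw [mem_ipow]
      rintro ⟨c, d⟩ hq
      exact mem_iprod.2 ⟨(hg.2.1 c).2 ⟨d, hq⟩, (hg.2.2 d).2 ⟨c, hq⟩⟩⟩
    (lt := fun x y => x ⊆ y ∧ x ≠ y) (by (repeat' (first | with_reducible exact IntF.id | with_reducible exact IntF.fst' | with_reducible exact IntF.snd' | with_reducible exact IntF.const _ | with_reducible exact Int.const _ | assumption | with_reducible apply Int.and | with_reducible apply Int.or | with_reducible apply Int.not | with_reducible apply Int.imp | with_reducible apply Int.iff | with_reducible apply Int.ne | with_reducible apply Int.eq | with_reducible apply Int.mem | with_reducible apply Int.subset | with_reducible apply Int.ltN | with_reducible apply Int.leN | with_reducible apply Int.fin | with_reducible apply Int.unique | with_reducible apply Int.all | with_reducible apply Int.ex | with_reducible apply IntF.fst | with_reducible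 apply IntF.snd | with_reducible apply IntF.app | with_reducible apply IntF.ite | with_reducible apply IntF.sep | with_reducible apply IntF.lam | with_reducible apply IntF.insert | with_reducible apply IntF.singleton | with_reducible apply IntF.union | with_reducible apply IntF.inter | with_reducible apply IntF.sdiff | with_reducible apply IntF.isUnion | with_reducible apply IntF.iimage | with_reducible apply IntF.the | with_reducible apply IntF.irec | with_reducible_and_instances apply IntF.add | with_reducible_and_instances apply IntF.mul | with_reducible apply IntF.succ | with_reducible apply IntF.val | (with_reducible refine Int.comp ?_ ?_; assumption) | (with_reducible refine Int.comp₂ ?_ ?_ ?_; assumption) | (with_reducible refine Int.comp₃ ?_ ?_ ?_ ?_; assumption) | (with_reducible refine Int.comp₄ ?_ ?_ ?_ ?_ ?_; assumption) | (with_reducible refine IntF.comp ?_ ?_; assumption) | (with_reducible refine IntF.comp₂ ?_ ?_ ?_; assumption) | (with_reducible refine IntF.comp₃ ?_ ?_ ?_ ?_; assumption) | with_reducible apply IntF.inl | with_reducible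 apply IntF.inr | with_reducible apply IntF.pair))) (fun a h => h.2 rfl)
    (fun a b c hab hbc => ⟨fun x hx => hbc.1 _ (hab.1 _ hx), fun h => hbc.2 (IPow.ext' fun x =>
      ⟨fun hx => hbc.1 _ hx, fun hx => hab.1 _ (by rw [h]; exact hx)⟩)⟩)
    ⟨_, cl F ∅, cld_cl hA hκ IFin.empty, ha, rfl⟩
  have hst : ∀ E' : IPow M α, Cld F E' → E ⊆ E' → ¬ a ∈ E' → ∀ g, Is F E a a g →
      Is F E' a a g := by
    intro E' hE' hEE' ha' g hg
    by_contra h1
    refine hmin _ ⟨E', hE', ha', rfl⟩ ⟨fun x hx => ?_, fun h2 => h1 ?_⟩
    · rw [hH, mem_sep (hIs E)]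
      rw [mem_sep (hIs E')] at hx
      refine ⟨hx.1.sub fun q hq => ?_, hx.2⟩
      rcases mem_union.1 hq with hq | hq
      · obtain ⟨h3, h4⟩ := mem_idp.1 hq
        exact mem_union.2 (Or.inl (mem_idp.2 ⟨h3, hEE' _ h4⟩))
      · exact mem_union.2 (Or.inr hq)
    · have h3 : g ∈ (sep M fun g => Is F E' a a g) := by
        rw [h2, hH, mem_sep (hIs E)]
        exact hg
      exact (mem_sep (hIs E')).1 h3
  refine ⟨E, hE, fun E' a' hE' hEE' ha' g hg => ?_⟩
  have ha'E : ¬ a' ∈ E := fun h => ha' (hEE' _ h)
  have h0 := (cl_spec (F := F) hA hκ hE.1).2 a' a (fun h => ha'E (hE.2 _ h))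
    (fun h => haE (hE.2 _ h))
  obtain ⟨p1, h1, h2, h3⟩ := h0.extS hA (hE'.1.union (bk_fin (F := F) hA hκ a'))
  obtain ⟨p, hp, h2', h3'⟩ := h1.extS' hA (bk_fin (F := F) hA hκ a)
  have hid : ∀ e, e ∈ E → (e, e) ∈ p := fun e he =>
    h2' _ (h2 _ (mem_insert.2 (Or.inr (mem_idp.2 ⟨rfl, he⟩))))
  have haa : (a', a) ∈ p := h2' _ (h2 _ (mem_insert.2 (Or.inl rfl)))
  have hdE : ∀ c, c ∈ E' → ∃ d, (c, d) ∈ p := fun c hc => by
    obtain ⟨d, hd⟩ := h3 c (mem_union.2 (Or.inl hc))
    exact ⟨d, h2' _ hd⟩
  have hdB : ∀ c, c ∈ bk F a' → ∃ d, (c, d) ∈ p := fun c hc => by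
    obtain ⟨d, hd⟩ := h3 c (mem_union.2 (Or.inr hc))
    exact ⟨d, h2' _ hd⟩
  have hJ : Int M (fun d => ∃ c, c ∈ E' ∧ (c, d) ∈ p) := by (repeat' (first | with_reducible exact IntF.id | with_reducible exact IntF.fst' | with_reducible exact IntF.snd' | with_reducible exact IntF.const _ | with_reducible exact Int.const _ | assumption | with_reducible apply Int.and | with_reducible apply Int.or | with_reducible apply Int.not | with_reducible apply Int.imp | with_reducible apply Int.iff | with_reducible apply Int.ne | with_reducible apply Int.eq | with_reducible apply Int.mem | with_reducible apply Int.subset | with_reducible apply Int.ltN | with_reducible apply Int.leN | with_reducible apply Int.fin | with_reducible apply Int.unique | with_reducible apply Int.all | with_reducible apply Int.ex | with_reducible apply IntF.fst | with_reducible apply IntF.snd | with_reducible apply IntF.app | with_reducible apply IntF.ite | with_reducible apply IntF.sep | with_reducible apply IntF.lam | with_reducible apply IntF.insert | with_reducible apply IntF.singleton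 | with_reducible apply IntF.union | with_reducible apply IntF.inter | with_reducible apply IntF.sdiff | with_reducible apply IntF.isUnion | with_reducible apply IntF.iimage | with_reducible apply IntF.the | with_reducible apply IntF.irec | with_reducible_and_instances apply IntF.add | with_reducible_and_instances apply IntF.mul | with_reducible apply IntF.succ | with_reducible apply IntF.val | (with_reducible refine Int.comp ?_ ?_; assumption) | (with_reducible refine Int.comp₂ ?_ ?_ ?_; assumption) | (with_reducible refine Int.comp₃ ?_ ?_ ?_ ?_; assumption) | (with_reducible refine Int.comp₄ ?_ ?_ ?_ ?_ ?_; assumption) | (with_reducible refine IntF.comp ?_ ?_; assumption) | (with_reducible refine IntF.comp₂ ?_ ?_ ?_; assumption) | (with_reducible refine IntF.comp₃ ?_ ?_ ?_ ?_; assumption) | with_reducible apply IntF.inl | with_reducible apply IntF.inr | with_reducible apply IntF.pair))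
  obtain ⟨E'', hE''⟩ : ∃ E'' : IPow M α, ∀ d, d ∈ E'' ↔ ∃ c, c ∈ E' ∧ (c, d) ∈ p :=
    ⟨_, fun d => mem_sep hJ⟩
  have hcE'' : Cld F E'' := by
    constructor
    · exact hp.frng.subset fun d hd => by
        obtain ⟨c, _, hc⟩ := (hE'' d).1 hd
        exact mem_rng.2 ⟨c, hc⟩
    · intro d hd
      obtain ⟨c, hc⟩ := hp.ext' hA d
      have h4 : c ∈ cl F E' := (cl_img2 (p := rst p E') (U := E') (V := E'') hA (fun x => by
        constructor
        · intro hx
          obtain ⟨y, hy⟩ := hdE x hx
          exact ⟨y, mem_rst.2 ⟨hy, hx⟩⟩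
        · rintro ⟨y, hy⟩
          exact (mem_rst.1 hy).2) (fun y => by
        rw [hE'']
        constructor
        · rintro ⟨x, hx, hxy⟩
          exact ⟨x, mem_rst.2 ⟨hxy, hx⟩⟩
        · rintro ⟨x, hx⟩
          exact ⟨x, (mem_rst.1 hx).2, (mem_rst.1 hx).1⟩) hc
        (fun q hq => mem_insert.2 (Or.inr (mem_rst.1 hq).1)) (mem_insert.2 (Or.inl rfl))).2 hd
      have h5 := hE'.2 _ h4
      obtain ⟨d', hd'⟩ := hdE c h5
      have h6 : d = d' := hc.fn (mem_insert.2 (Or.inl rfl)) (mem_insert.2 (Or.inr hd'))
      exact (hE'' d).2 ⟨c, h5, h6 ▸ hd'⟩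
  have haE'' : ¬ a ∈ E'' := fun h => by
    obtain ⟨c, hc, hca⟩ := (hE'' a).1 h
    exact ha' (hp.inj hca haa ▸ hc)
  have hEE'' : E ⊆ E'' := fun e he => (hE'' e).2 ⟨e, hEE' _ he, hid e he⟩
  have hK : Int M (fun q : α × α => ∃ u v, (u, v) ∈ g ∧ (u, q.1) ∈ p ∧ (v, q.2) ∈ p) := by (repeat' (first | with_reducible exact IntF.id | with_reducible exact IntF.fst' | with_reducible exact IntF.snd' | with_reducible exact IntF.const _ | with_reducible exact Int.const _ | assumption | with_reducible apply Int.and | with_reducible apply Int.or | with_reducible apply Int.not | with_reducible apply Int.imp | with_reducible apply Int.iff | with_reducible apply Int.ne | with_reducible apply Int.eq | with_reducible apply Int.mem | with_reducible apply Int.subset | with_reducible apply Int.ltN | with_reducible apply Int.leN | with_reducible apply Int.fin | with_reducible apply Int.unique | with_reducible apply Int.all | with_reducible apply Int.ex | with_reducible apply IntF.fst | with_reducible apply IntF.snd | with_reducible apply IntF.app | with_reducible apply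 IntF.ite | with_reducible apply IntF.sep | with_reducible apply IntF.lam | with_reducible apply IntF.insert | with_reducible apply IntF.singleton | with_reducible apply IntF.union | with_reducible apply IntF.inter | with_reducible apply IntF.sdiff | with_reducible apply IntF.isUnion | with_reducible apply IntF.iimage | with_reducible apply IntF.the | with_reducible apply IntF.irec | with_reducible_and_instances apply IntF.add | with_reducible_and_instances apply IntF.mul | with_reducible apply IntF.succ | with_reducible apply IntF.val | (with_reducible refine Int.comp ?_ ?_; assumption) | (with_reducible refine Int.comp₂ ?_ ?_ ?_; assumption) | (with_reducible refine Int.comp₃ ?_ ?_ ?_ ?_; assumption) | (with_reducible refine Int.comp₄ ?_ ?_ ?_ ?_ ?_; assumption) | (with_reducible refine IntF.comp ?_ ?_; assumption) | (with_reducible refine IntF.comp₂ ?_ ?_ ?_; assumption) | (with_reducible refine IntF.comp₃ ?_ ?_ ?_ ?_; assumption) | with_reducible apply IntF.inl | with_reducible apply IntF.inr | with_reducible apply IntF.pair))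
  obtain ⟨h, hh⟩ : ∃ h : IPow M (α × α), ∀ q, q ∈ h ↔ ∃ u v, (u, v) ∈ g ∧ (u, q.1) ∈ p ∧
    (v, q.2) ∈ p := ⟨_, fun q => mem_sep hK⟩
  have hIsh : Is F E a a h := by
    refine ⟨((hp.inv.cmp hg.1).cmp hp).sub fun q hq => ?_, fun c => ?_, fun d => ?_⟩
    · rcases mem_union.1 hq with hq | hq
      · obtain ⟨h4, h5⟩ := mem_idp.1 hq
        refine mem_cmp.2 ⟨q.1, mem_cmp.2 ⟨q.1, mem_ivp.2 (hid _ h5),
          mem_union.2 (Or.inl (mem_idp.2 ⟨rfl, h5⟩))⟩, ?_⟩
        rw [← h4]
        exact hid _ h5
      · obtain ⟨u, v, h4, h5, h6⟩ := (hh q).1 hq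
        exact mem_cmp.2 ⟨v, mem_cmp.2 ⟨u, mem_ivp.2 h5, mem_union.2 (Or.inr h4)⟩, h6⟩
    · constructor
      · intro hc
        obtain ⟨u, hu⟩ := h3' c hc
        have h4 : u ∈ bk F a' := (blockmap hA hp haa hu).2 hc
        obtain ⟨v, hv⟩ := (hg.2.1 u).1 h4
        obtain ⟨d, hd⟩ := hdB v ((hg.2.2 v).2 ⟨u, hv⟩)
        exact ⟨d, (hh _).2 ⟨u, v, hv, hu, hd⟩⟩
      · rintro ⟨d, hd⟩
        obtain ⟨u, v, h4, h5, h6⟩ := (hh _).1 hd
        exact (blockmap hA hp haa h5).1 ((hg.2.1 u).2 ⟨v, h4⟩)
    · constructor
      · intro hc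
        obtain ⟨u, hu⟩ := h3' d hc
        have h4 : u ∈ bk F a' := (blockmap hA hp haa hu).2 hc
        obtain ⟨v, hv⟩ := (hg.2.2 u).1 h4
        obtain ⟨e, he⟩ := hdB v ((hg.2.1 v).2 ⟨u, hv⟩)
        exact ⟨e, (hh _).2 ⟨v, u, hv, he, hu⟩⟩
      · rintro ⟨c, hd⟩
        obtain ⟨u, v, h4, h5, h6⟩ := (hh _).1 hd
        exact (blockmap hA hp haa h6).1 ((hg.2.2 v).2 ⟨u, h4⟩)
  have hIsh' := hst E'' hcE'' hEE'' haE'' h hIsh
  refine ⟨((hp.cmp hIsh'.1).cmp hp.inv).sub fun q hq => ?_, hg.2⟩
  rcases mem_union.1 hq with hq | hq
  · obtain ⟨h4, h5⟩ := mem_idp.1 hq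
    obtain ⟨d, hd⟩ := hdE _ h5
    refine mem_cmp.2 ⟨d, mem_cmp.2 ⟨d, hd, mem_union.2 (Or.inl (mem_idp.2 ⟨rfl,
      (hE'' d).2 ⟨_, h5, hd⟩⟩))⟩, mem_ivp.2 ?_⟩
    change (q.2, d) ∈ p
    rw [← h4]
    exact hd
  · obtain ⟨c, hc⟩ := hdB q.1 ((hg.2.1 _).2 ⟨q.2, hq⟩)
    obtain ⟨d, hd⟩ := hdB q.2 ((hg.2.2 _).2 ⟨q.1, hq⟩)
    exact mem_cmp.2 ⟨d, mem_cmp.2 ⟨c, hc, mem_union.2 (Or.inr ((hh _).2 ⟨q.1, q.2, hq, hc, hd⟩))⟩,
      mem_ivp.2 hd⟩

end

end Pool.Agent.R596.AM
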