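import Pool.Agent.R596.AmG

/-!
# The types of the blocks
-/

set_option autoImplicit false
set_option linter.all false
set_option maxHeartbeats 400000

namespace Pool.Agent.R596.AM

open FirstOrder FirstOrder.Language
open Pool.Agent.Helper672.ZFA
open Pool.Agent.H310

universe u u₁ u₂ u₃

section

variable {M : Type u} [L.Structure M] [hM : IsModel M]
variable {α : Type u₁} {κ : Type u₂} [ITy M α] [ITy M κ]

/-- The subset is constant outside the set. -/
def Dt (U : IPow M α) (x : IPow M (α × κ)) : Prop :=
  ∀ a b, ¬ a ∈ U → ¬ b ∈ U → ∀ j, (a, j) ∈ x ↔ (b, j) ∈ x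

theorem Dt.mono {U V : IPow M α} {x : IPow M (α × κ)} (h : Dt U x) (hUV : U ⊆ V) : Dt V x :=
  fun a b ha hb j => h a b (fun h1 => ha (hUV _ h1)) (fun h1 => hb (hUV _ h1)) j

theorem exists_Dt (hA : Am M α) (hκ : FinP M (fun _ : κ => True)) (x : IPow M (α × κ)) :
    ∃ U : IPow M α, IFin U ∧ Dt U x := by
  obtain ⟨K, hK, hK'⟩ := hκ
  have h := IFin.exists_bound (s := K) (r := fun (j : κ) (U : IPow M α) => IFin U ∧
    ∀ a b, ¬ a ∈ U → ¬ b ∈ U → ((a, j) ∈ x ↔ (b, j) ∈ x)) (by (repeat' (first | with_reducible exact IntF.id | with_reducible exact IntF.fst' | with_reducible exact IntF.snd' | with_reducible exact IntF.const _ | with_reducible exact Int.const _ | assumption | with_reducible apply Int.and | with_reducible apply Int.or | with_reducible apply Int.not | with_reducible apply Int.imp | with_reducible apply Int.iff | with_reducible apply Int.ne | with_reducible apply Int.eq | with_reducible apply Int.mem | with_reducible apply Int.subset | with_reducible apply Int.ltN | with_reducible apply Int.leN | with_reducible apply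 Int.fin | with_reducible apply Int.unique | with_reducible apply Int.all | with_reducible apply Int.ex | with_reducible apply IntF.fst | with_reducible apply IntF.snd | with_reducible apply IntF.app | with_reducible apply IntF.ite | with_reducible apply IntF.sep | with_reducible apply IntF.lam | with_reducible apply IntF.insert | with_reducible apply IntF.singleton | with_reducible apply IntF.union | with_reducible apply IntF.inter | with_reducible apply IntF.sdiff | with_reducible apply IntF.isUnion | with_reducible apply IntF.iimage | with_reducible apply IntF.the | with_reducible apply IntF.irec | with_reducible_and_instances apply IntF.add | with_reducible_and_instances apply IntF.mul | with_reducible apply IntF.succ | with_reducible apply IntF.val | (with_reducible refine Int.comp ?_ ?_; assumption) | (with_reducible refine Int.comp₂ ?_ ?_ ?_; assumption) | (with_reducible refine Int.comp₃ ?_ ?_ ?_ ?_; assumption) | (with_reducible refine Int.comp₄ ?_ ?_ ?_ ?_ ?_; assumption) | (with_reducible refine IntF.comp ?_ ?_;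 assumption) | (with_reducible refine IntF.comp₂ ?_ ?_ ?_; assumption) | (with_reducible refine IntF.comp₃ ?_ ?_ ?_ ?_; assumption) | with_reducible apply IntF.inl | with_reducible apply IntF.inr | with_reducible apply IntF.pair))) (by
      intro S S'
      by_cases h1 : IFin S
      · by_cases h2 : IFin S'
        · refine ⟨S ∪ S', fun j hj => ⟨h1.union h2, fun a b ha hb => ?_⟩⟩
          rw [mem_union, not_or] at ha hb
          rcases hj with hj | hj
          · exact hj.2 a b ha.1 hb.1
          · exact hj.2 a b ha.2 hb.2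
        · refine ⟨S, fun a ha => ?_⟩
          rcases ha with ha | ha
          · exact ha
          · exact absurd ha.1 h2
      · refine ⟨S', fun a ha => ?_⟩
        rcases ha with ha | ha
        · exact absurd ha.1 h1
        · exact ha) ⟨∅⟩ hK (by
      intro j _
      rcases hA.am (fun a => (a, j) ∈ x) (by (repeat' (first | with_reducible exact IntF.id | with_reducible exact IntF.fst' | with_reducible exact IntF.snd' | with_reducible exact IntF.const _ | with_reducible exact Int.const _ | assumption | with_reducible apply Int.and | with_reducible apply Int.or | with_reducible apply Int.not | with_reducible apply Int.imp | with_reducible apply Int.iff | with_reducible apply Int.ne | with_reducible apply Int.eq | with_reducible apply Int.mem | with_reducible apply Int.subset | with_reducible apply Int.ltN | with_reducible apply Int.leN | with_reducible apply Int.fin | with_reducible apply Int.unique | with_reducible apply Int.all | with_reducible apply Int.ex | with_reducible apply IntF.fst | with_reducible apply IntF.snd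 | with_reducible apply IntF.app | with_reducible apply IntF.ite | with_reducible apply IntF.sep | with_reducible apply IntF.lam | with_reducible apply IntF.insert | with_reducible apply IntF.singleton | with_reducible apply IntF.union | with_reducible apply IntF.inter | with_reducible apply IntF.sdiff | with_reducible apply IntF.isUnion | with_reducible apply IntF.iimage | with_reducible apply IntF.the | with_reducible apply IntF.irec | with_reducible_and_instances apply IntF.add | with_reducible_and_instances apply IntF.mul | with_reducible apply IntF.succ | with_reducible apply IntF.val | (with_reducible refine Int.comp ?_ ?_; assumption) | (with_reducible refine Int.comp₂ ?_ ?_ ?_; assumption) | (with_reducible refine Int.comp₃ ?_ ?_ ?_ ?_; assumption) | (with_reducible refine Int.comp₄ ?_ ?_ ?_ ?_ ?_; assumption) | (with_reducible refine IntF.comp ?_ ?_; assumption) | (with_reducible refine IntF.comp₂ ?_ ?_ ?_; assumption) | (with_reducible refine IntF.comp₃ ?_ ?_ ?_ ?_; assumption) | with_reducible apply IntF.inl | with_reducible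 apply IntF.inr | with_reducible apply IntF.pair))) with ⟨S, hS, hS'⟩ | ⟨S, hS, hS'⟩
      · exact ⟨S, hS, fun a b ha hb => ⟨fun h1 => absurd (hS' a h1) ha,
          fun h1 => absurd (hS' b h1) hb⟩⟩
      · refine ⟨S, hS, fun a b ha hb => ⟨fun _ => ?_, fun _ => ?_⟩⟩
        · by_contra h1
          exact hb (hS' b h1)
        · by_contra h1
          exact ha (hS' a h1))
  obtain ⟨U, hU⟩ := h
  by_cases hne : ∃ j : κ, True
  · obtain ⟨j, _⟩ := hne
    exact ⟨U, (hU j (hK' j trivial)).1, fun a b ha hb j => (hU j (hK' j trivial)).2 a b ha hb⟩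
  · exact ⟨∅, IFin.empty, fun a b _ _ j => absurd ⟨j, trivial⟩ hne⟩

variable {F : IFun M (IPow M (α × κ)) (IPow M (α × κ))}

variable (F) in
/-- The traces of `x` on the blocks of `a` and `b` are isomorphic. -/
def Ty (E : IPow M α) (x : IPow M (α × κ)) (a b : α) : Prop :=
  ∃ g, Is F E a b g ∧ ∀ u v, (u, v) ∈ g → ∀ j, (u, j) ∈ x ↔ (v, j) ∈ x

variable (F) in
theorem int_Ty : Int M (fun q : ((IPow M α × IPow M (α × κ)) × α) × α =>
    Ty F q.1.1.1 q.1.1.2 q.1.2 q.2) := by
  unfold Ty
  have h := int_Is F
  (repeat' (first | with_reducible exact IntF.id | with_reducible exact IntF.fst' | with_reducible exact IntF.snd' | with_reducible exact IntF.const _ | with_reducible exact Int.const _ | assumption | with_reducible apply Int.and | with_reducible apply Int.or | with_reducible apply Int.not | with_reducible apply Int.imp | with_reducible apply Int.iff | with_reducible apply Int.ne | with_reducible apply Int.eq | with_reducible apply Int.mem | with_reducible apply Int.subset | with_reducible apply Int.ltN | with_reducible apply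 Int.leN | with_reducible apply Int.fin | with_reducible apply Int.unique | with_reducible apply Int.all | with_reducible apply Int.ex | with_reducible apply IntF.fst | with_reducible apply IntF.snd | with_reducible apply IntF.app | with_reducible apply IntF.ite | with_reducible apply IntF.sep | with_reducible apply IntF.lam | with_reducible apply IntF.insert | with_reducible apply IntF.singleton | with_reducible apply IntF.union | with_reducible apply IntF.inter | with_reducible apply IntF.sdiff | with_reducible apply IntF.isUnion | with_reducible apply IntF.iimage | with_reducible apply IntF.the | with_reducible apply IntF.irec | with_reducible_and_instances apply IntF.add | with_reducible_and_instances apply IntF.mul | with_reducible apply IntF.succ | with_reducible apply IntF.val | (with_reducible refine Int.comp ?_ ?_; assumption) | (with_reducible refine Int.comp₂ ?_ ?_ ?_; assumption) | (with_reducible refine Int.comp₃ ?_ ?_ ?_ ?_; assumption) | (with_reducible refine Int.comp₄ ?_ ?_ ?_ ?_ ?_; assumption) | (with_reducible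 refine IntF.comp ?_ ?_; assumption) | (with_reducible refine IntF.comp₂ ?_ ?_ ?_; assumption) | (with_reducible refine IntF.comp₃ ?_ ?_ ?_ ?_; assumption) | with_reducible apply IntF.inl | with_reducible apply IntF.inr | with_reducible apply IntF.pair))

theorem Ty.symm {E : IPow M α} {x : IPow M (α × κ)} {a b : α} (h : Ty F E x a b) :
    Ty F E x b a := by
  obtain ⟨g, hg, h1⟩ := h
  exact ⟨_, hg.inv, fun u v huv j => (h1 v u (mem_ivp.1 huv) j).symm⟩

theorem Ty.trans {E : IPow M α} {x : IPow M (α × κ)} {a b c : α} (h : Ty F E x a b)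
    (h' : Ty F E x b c) : Ty F E x a c := by
  obtain ⟨g, hg, h1⟩ := h
  obtain ⟨g', hg', h1'⟩ := h'
  refine ⟨_, hg.cmp hg', fun u v huv j => ?_⟩
  obtain ⟨m, h2, h3⟩ := mem_cmp.1 huv
  exact (h1 u m h2 j).trans (h1' m v h3 j)

variable (hA : Am M α) (hκ : FinP M (fun _ : κ => True))

include hA hκ in
theorem Ty.refl {E : IPow M α} (hE : IFin E) (x : IPow M (α × κ)) (a : α) : Ty F E x a a :=
  ⟨_, Is.id hA hκ hE a, fun u v huv j => by rw [show u = v from (mem_idp.1 huv).1]⟩

include hA hκ in
/-- The same block. -/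
theorem Ty.blk {E : IPow M α} (hE : IFin E) (x : IPow M (α × κ)) {a b : α} (ha : ¬ a ∈ cl F ∅)
    (h : b ∈ bk F a) : Ty F E x a b := by
  have h1 : Is F E a b (idp (bk F a)) := by
    have h2 := Is.id (F := F) hA hκ hE a
    refine ⟨h2.1, h2.2.1, fun d => ?_⟩
    rw [bk_eq hA hκ ha h]
    exact h2.2.2 d
  exact ⟨_, h1, fun u v huv j => by rw [show u = v from (mem_idp.1 huv).1]⟩

include hA hκ in
/-- The swap of two blocks. -/
theorem swap (hD : Dg F) {E : IPow M α} (hE : St F E) {a b : α} (ha : ¬ a ∈ E) (hb : ¬ b ∈ E)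
    (hab : ¬ b ∈ bk F a) {g : IPow M (α × α)} (hg : Is F E a b g) {C : IPow M α}
    (hC : Cld F C) (hEC : E ⊆ C) (haC : ¬ a ∈ C) (hbC : ¬ b ∈ C) :
    Gp F ((idp C ∪ g) ∪ ivp g) := by
  have hst : ∀ {a b : α} {g : IPow M (α × α)} {C : IPow M α}, ¬ a ∈ E → ¬ b ∈ E → Is F E a b g →
      Cld F C → E ⊆ C → ¬ a ∈ C → ¬ b ∈ C → Is F C a b g := by
    intro a b g C ha hb hg hC hEC haC hbC
    obtain ⟨g1, hg1⟩ := exists_Is (F := F) hA hκ hC haC hbC
    have hg1' : Is F E a b g1 := ⟨hg1.1.sub fun q hq => by
      rcases mem_union.1 hq with hq | hq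
      · obtain ⟨h3, h4⟩ := mem_idp.1 hq
        exact mem_union.2 (Or.inl (mem_idp.2 ⟨h3, hEC _ h4⟩))
      · exact mem_union.2 (Or.inr hq), hg1.2⟩
    have h1 := hE.2 C a hC hEC haC _ (hg.cmp hg1'.inv)
    have h2 := h1.cmp hg1
    refine ⟨h2.1.sub fun q hq => ?_, hg.2⟩
    rcases mem_union.1 hq with hq | hq
    · exact mem_union.2 (Or.inl hq)
    · refine mem_union.2 (Or.inr (mem_cmp.2 ?_))
      obtain ⟨m, hm⟩ := (hg1.2.2 q.2).1 ((hg.2.2 q.2).2 ⟨q.1, hq⟩)
      exact ⟨m, mem_cmp.2 ⟨q.2, hq, mem_ivp.2 hm⟩, hm⟩
  have haC0 := hC.nemp haC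
  have hbC0 := hC.nemp hbC
  have h1 : Gp F (idp C ∪ g) := (hst ha hb hg hC hEC haC hbC).1
  have hCa := hC.add hA hκ hD a
  have hCb := hC.add hA hκ hD b
  have hbCa : ¬ b ∈ C ∪ bk F a := fun h => (mem_union.1 h).elim hbC hab
  have haCb : ¬ a ∈ C ∪ bk F b := fun h => (mem_union.1 h).elim haC fun h2 =>
    hab (bk_symm hA hκ hbC0 h2)
  have h2 : Gp F (insert (b, a) (idp C ∪ g)) := by
    refine hom hA hκ (U := C ∪ bk F a) (V := C ∪ bk F b) ?_ ?_ h1 (fun h => hbCa (hCa.2 _ h))
      (fun h => haCb (hCb.2 _ h))
    · intro c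
      rw [mem_union, hg.2.1, idp_dom (U := C) c]
      constructor
      · rintro (⟨d, hd⟩ | ⟨d, hd⟩)
        · exact ⟨d, mem_union.2 (Or.inl hd)⟩
        · exact ⟨d, mem_union.2 (Or.inr hd)⟩
      · rintro ⟨d, hd⟩
        rcases mem_union.1 hd with hd | hd
        · exact Or.inl ⟨d, hd⟩
        · exact Or.inr ⟨d, hd⟩
    · intro c
      rw [mem_union, hg.2.2, idp_ran (U := C) c]
      constructor
      · rintro (⟨d, hd⟩ | ⟨d, hd⟩)
        · exact ⟨d, mem_union.2 (Or.inl hd)⟩
        · exact ⟨d, mem_union.2 (Or.inr hd)⟩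
      · rintro ⟨d, hd⟩
        rcases mem_union.1 hd with hd | hd
        · exact Or.inl ⟨d, hd⟩
        · exact Or.inr ⟨d, hd⟩
  obtain ⟨p1, h3, h4, h5⟩ := h2.extS hA (bk_fin (F := F) hA hκ b)
  obtain ⟨p, h3', h4', h5'⟩ := h3.extS' hA (bk_fin (F := F) hA hκ a)
  have hsub : ∀ q, q ∈ idp C ∪ g → q ∈ p := fun q hq => h4' _ (h4 _ (mem_insert.2 (Or.inr hq)))
  have hba : (b, a) ∈ p := h4' _ (h4 _ (mem_insert.2 (Or.inl rfl)))
  -- the isomorphism in the other direction
  have hg2 : Is F E b a (rst p (bk F b)) := by
    refine Is.of_gp hA hκ h3' (fun q hq => hsub q (mem_union.2 (Or.inl ?_))) hba (fun c hc => ?_)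
      h5'
    · obtain ⟨h6, h7⟩ := mem_idp.1 hq
      exact mem_idp.2 ⟨h6, hEC _ h7⟩
    · obtain ⟨d, hd⟩ := h5 c hc
      exact ⟨d, h4' _ hd⟩
  have h6 := hE.2 (C ∪ bk F a) b hCa (fun x hx => mem_union.2 (Or.inl (hEC _ hx))) hbCa _
    (hg.inv.cmp hg2.inv)
  refine (h6.1.cmp h3').sub fun q hq => ?_
  rcases mem_union.1 hq with hq | hq
  · refine mem_cmp.2 ⟨q.1, mem_union.2 (Or.inl (mem_idp.2 ⟨rfl, ?_⟩)), hsub q hq⟩
    rcases mem_union.1 hq with hq | hq
    · exact mem_union.2 (Or.inl (mem_idp.1 hq).2)
    · exact mem_union.2 (Or.inr ((hg.2.1 _).2 ⟨_, hq⟩))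
  · obtain ⟨m, hm⟩ := (hg2.2.2 q.2).1 ((hg.2.1 q.2).2 ⟨q.1, mem_ivp.1 hq⟩)
    exact mem_cmp.2 ⟨m, mem_union.2 (Or.inr (mem_cmp.2 ⟨q.2, hq, mem_ivp.2 hm⟩)),
      (mem_rst.1 hm).1⟩

include hA hκ in
/-- `F` respects the types. -/
theorem Ty.F' (hD : Dg F) {E : IPow M α} (hE : St F E) {x : IPow M (α × κ)} {a b : α}
    (ha : ¬ a ∈ E) (hb : ¬ b ∈ E) (h : Ty F E x a b) : Ty F E (F x) a b := by
  by_cases hab : b ∈ bk F a
  · exact Ty.blk hA hκ hE.1.1 _ (hE.1.nemp ha) hab
  obtain ⟨g, hg, h1⟩ := h
  obtain ⟨U, hU, hU'⟩ := exists_Dt hA hκ x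
  obtain ⟨V, hV, hV'⟩ := exists_Dt hA hκ (F x)
  have hf : IFin ((E ∪ (U ∪ V)) ∪ ({a} ∪ {b})) :=
    (hE.1.1.union (hU.union hV)).union ((IFin.singleton a).union (IFin.singleton b))
  have hW := cld_cl (F := F) hA hκ hf
  have hsub : ∀ z, z ∈ (E ∪ (U ∪ V)) ∪ ({a} ∪ {b}) → z ∈ cl F ((E ∪ (U ∪ V)) ∪ ({a} ∪ {b})) :=
    fun z hz => sub_cl hz
  generalize hWd : cl F ((E ∪ (U ∪ V)) ∪ ({a} ∪ {b})) = W at hW hsub
  have hEW : E ⊆ W := fun z hz => hsub z (mem_union.2 (Or.inl (mem_union.2 (Or.inl hz))))
  have hUW : U ⊆ W := fun z hz => hsub z (mem_union.2 (Or.inl (mem_union.2 (Or.inr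
    (mem_union.2 (Or.inl hz))))))
  have hVW : V ⊆ W := fun z hz => hsub z (mem_union.2 (Or.inl (mem_union.2 (Or.inr
    (mem_union.2 (Or.inr hz))))))
  have haW : a ∈ W := hsub a (mem_union.2 (Or.inr (mem_union.2 (Or.inl (mem_singleton.2 rfl)))))
  have hbW : b ∈ W := hsub b (mem_union.2 (Or.inr (mem_union.2 (Or.inr (mem_singleton.2 rfl)))))
  have hC := (hW.del hA hκ hD a).del hA hκ hD b
  have ha0 := hE.1.nemp ha
  have hb0 := hE.1.nemp hb
  have hbkW : ∀ c z, c ∈ W → z ∈ bk F c → z ∈ W := fun c z hc hz =>
    hW.2 _ (cl_mono (fun y hy => (mem_singleton.1 hy) ▸ hc) _ (mem_bk.1 hz).1)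
  have hEC : E ⊆ (W \ bk F a) \ bk F b := fun z hz => mem_sdiff.2 ⟨mem_sdiff.2 ⟨hEW _ hz,
    fun h2 => hE.1.disj hA hκ ha h2 hz⟩, fun h2 => hE.1.disj hA hκ hb h2 hz⟩
  have hs := swap hA hκ hD hE ha hb hab hg hC hEC
    (fun h2 => (mem_sdiff.1 (mem_sdiff.1 h2).1).2 (bk_self ha0))
    (fun h2 => (mem_sdiff.1 h2).2 (bk_self hb0))
  -- domain and range
  have hcase : ∀ z, z ∈ W → z ∈ (W \ bk F a) \ bk F b ∨ z ∈ bk F a ∨ z ∈ bk F b := by
    intro z hz
    by_cases h2 : z ∈ bk F a
    · exact Or.inr (Or.inl h2)
    by_cases h3 : z ∈ bk F b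
    · exact Or.inr (Or.inr h3)
    exact Or.inl (mem_sdiff.2 ⟨mem_sdiff.2 ⟨hz, h2⟩, h3⟩)
  have hdom : ∀ z, z ∈ W → ∃ d, (z, d) ∈ (idp ((W \ bk F a) \ bk F b) ∪ g) ∪ ivp g := by
    intro z hz
    rcases hcase z hz with h2 | h2 | h2
    · exact ⟨z, mem_union.2 (Or.inl (mem_union.2 (Or.inl (mem_idp.2 ⟨rfl, h2⟩))))⟩
    · obtain ⟨d, hd⟩ := (hg.2.1 z).1 h2
      exact ⟨d, mem_union.2 (Or.inl (mem_union.2 (Or.inr hd)))⟩
    · obtain ⟨d, hd⟩ := (hg.2.2 z).1 h2
      exact ⟨d, mem_union.2 (Or.inr (mem_ivp.2 hd))⟩
  have hran : ∀ z, z ∈ W → ∃ d, (d, z) ∈ (idp ((W \ bk F a) \ bk F b) ∪ g) ∪ ivp g := by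
    intro z hz
    rcases hcase z hz with h2 | h2 | h2
    · exact ⟨z, mem_union.2 (Or.inl (mem_union.2 (Or.inl (mem_idp.2 ⟨rfl, h2⟩))))⟩
    · obtain ⟨d, hd⟩ := (hg.2.1 z).1 h2
      exact ⟨d, mem_union.2 (Or.inr (mem_ivp.2 hd))⟩
    · obtain ⟨d, hd⟩ := (hg.2.2 z).1 h2
      exact ⟨d, mem_union.2 (Or.inl (mem_union.2 (Or.inr hd)))⟩
  generalize hσ : (idp ((W \ bk F a) \ bk F b) ∪ g) ∪ ivp g = σ at hs hdom hran
  have hσW : ∀ c d, (c, d) ∈ σ → c ∈ W ∧ d ∈ W := by
    intro c d hcd
    rw [← hσ] at hcd
    rcases mem_union.1 hcd with hcd | hcd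
    · rcases mem_union.1 hcd with hcd | hcd
      · obtain ⟨h2, h3⟩ := mem_idp.1 hcd
        have h4 : c ∈ W := (mem_sdiff.1 (mem_sdiff.1 h3).1).1
        exact ⟨h4, (show c = d from h2) ▸ h4⟩
      · exact ⟨hbkW a c haW ((hg.2.1 c).2 ⟨d, hcd⟩), hbkW b d hbW ((hg.2.2 d).2 ⟨c, hcd⟩)⟩
    · have h2 := mem_ivp.1 hcd
      exact ⟨hbkW b c hbW ((hg.2.2 c).2 ⟨d, h2⟩), hbkW a d haW ((hg.2.1 d).2 ⟨c, h2⟩)⟩
  have hx : Rl σ x x := by
    constructor
    · intro c d hcd j
      rw [← hσ] at hcd
      rcases mem_union.1 hcd with hcd | hcd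
      · rcases mem_union.1 hcd with hcd | hcd
        · rw [show c = d from (mem_idp.1 hcd).1]
        · exact h1 c d hcd j
      · exact (h1 d c (mem_ivp.1 hcd) j).symm
    · intro c d hc hd j
      refine (hU'.mono hUW) c d (fun h2 => ?_) (fun h2 => ?_) j
      · obtain ⟨e, he⟩ := hdom c h2
        exact hc e he
      · obtain ⟨e, he⟩ := hran d h2
        exact hd e he
  have hI : Int M (fun q : α × κ => (∃ c, (c, q.1) ∈ σ ∧ (c, q.2) ∈ F x) ∨
    (¬ q.1 ∈ W ∧ (q.1, q.2) ∈ F x)) := by (repeat' (first | with_reducible exact IntF.id | with_reducible exact IntF.fst' | with_reducible exact IntF.snd' | with_reducible exact IntF.const _ | with_reducible exact Int.const _ | assumption | with_reducible apply Int.and | with_reducible apply Int.or | with_reducible apply Int.not | with_reducible apply Int.imp | with_reducible apply Int.iff | with_reducible apply Int.ne | with_reducible apply Int.eq | with_reducible apply Int.mem | with_reducible apply Int.subset | with_reducible apply Int.ltN | with_reducible apply Int.leN | with_reducible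 apply Int.fin | with_reducible apply Int.unique | with_reducible apply Int.all | with_reducible apply Int.ex | with_reducible apply IntF.fst | with_reducible apply IntF.snd | with_reducible apply IntF.app | with_reducible apply IntF.ite | with_reducible apply IntF.sep | with_reducible apply IntF.lam | with_reducible apply IntF.insert | with_reducible apply IntF.singleton | with_reducible apply IntF.union | with_reducible apply IntF.inter | with_reducible apply IntF.sdiff | with_reducible apply IntF.isUnion | with_reducible apply IntF.iimage | with_reducible apply IntF.the | with_reducible apply IntF.irec | with_reducible_and_instances apply IntF.add | with_reducible_and_instances apply IntF.mul | with_reducible apply IntF.succ | with_reducible apply IntF.val | (with_reducible refine Int.comp ?_ ?_; assumption) | (with_reducible refine Int.comp₂ ?_ ?_ ?_; assumption) | (with_reducible refine Int.comp₃ ?_ ?_ ?_ ?_; assumption) | (with_reducible refine Int.comp₄ ?_ ?_ ?_ ?_ ?_; assumption) | (with_reducible refine IntF.comp ?_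 ?_; assumption) | (with_reducible refine IntF.comp₂ ?_ ?_ ?_; assumption) | (with_reducible refine IntF.comp₃ ?_ ?_ ?_ ?_; assumption) | with_reducible apply IntF.inl | with_reducible apply IntF.inr | with_reducible apply IntF.pair))
  obtain ⟨y, hy⟩ : ∃ y : IPow M (α × κ), ∀ q, q ∈ y ↔ ((∃ c, (c, q.1) ∈ σ ∧ (c, q.2) ∈ F x) ∨
    (¬ q.1 ∈ W ∧ (q.1, q.2) ∈ F x)) := ⟨_, fun q => mem_sep hI⟩
  have hxy : Rl σ (F x) y := by
    constructor
    · intro c d hcd j
      rw [hy]
      constructor
      · intro h2
        exact Or.inl ⟨c, hcd, h2⟩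
      · rintro (⟨c', h2, h3⟩ | ⟨h2, _⟩)
        · rw [hs.inj hcd h2]
          exact h3
        · exact absurd (hσW c d hcd).2 h2
    · intro c d hc hd j
      rw [hy]
      have hcW : ¬ c ∈ W := fun h2 => by
        obtain ⟨e, he⟩ := hdom c h2
        exact hc e he
      have hdW : ¬ d ∈ W := fun h2 => by
        obtain ⟨e, he⟩ := hran d h2
        exact hd e he
      have h2 := (hV'.mono hVW) c d hcW hdW j
      constructor
      · intro h3
        exact Or.inr ⟨hdW, h2.1 h3⟩
      · rintro (⟨c', h3, _⟩ | ⟨_, h3⟩)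
        · exact absurd h3 (hd c')
        · exact h2.2 h3
  have h2 := hs.pres hA hx hxy rfl
  rw [← h2] at hxy
  refine ⟨g, hg, fun u v huv j => hxy.1 u v ?_ j⟩
  rw [← hσ]
  exact mem_union.2 (Or.inl (mem_union.2 (Or.inr huv)))

include hA hκ in
/-- Outside the support there is one type. -/
theorem Ty.out {E : IPow M α} (hE : Cld F E) {U : IPow M α} (hU : Cld F U) (hEU : E ⊆ U)
    {x : IPow M (α × κ)} (hx : Dt U x) {a b : α} (ha : ¬ a ∈ U) (hb : ¬ b ∈ U) : Ty F E x a b := by
  obtain ⟨g, hg⟩ := exists_Is (F := F) hA hκ hE (fun h => ha (hEU _ h)) (fun h => hb (hEU _ h))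
  refine ⟨g, hg, fun u v huv j => hx u v ?_ ?_ j⟩
  · exact hU.disj hA hκ ha ((hg.2.1 u).2 ⟨v, huv⟩)
  · exact hU.disj hA hκ hb ((hg.2.2 v).2 ⟨u, huv⟩)

include hA hκ in
/-- The types determine the support. -/
theorem Ty.supp {E : IPow M α} (hE : Cld F E) {U : IPow M α} (hU : Cld F U) (hEU : E ⊆ U)
    {x x0 : IPow M (α × κ)} (hx0 : Dt U x0)
    (h : ∀ a b, ¬ a ∈ E → ¬ b ∈ E → Ty F E x0 a b → Ty F E x a b) : Dt U x := by
  obtain ⟨V, hV, hV'⟩ := exists_Dt hA hκ x
  have hW := cld_cl (F := F) hA hκ hV
  obtain ⟨c, hc⟩ := hA.new (p := fun z => z ∈ U ∪ cl F V) ⟨_, hU.1.union hW.1, fun z hz => hz⟩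
  rw [mem_union, not_or] at hc
  have hVW : V ⊆ cl F V := fun z hz => sub_cl hz
  have key : ∀ a, ¬ a ∈ U → ∀ j, (a, j) ∈ x ↔ (c, j) ∈ x := by
    intro a ha j
    have haE : ¬ a ∈ E := fun h => ha (hEU _ h)
    obtain ⟨g, hg, h1⟩ := h a c haE (fun h => hc.1 (hEU _ h))
      (Ty.out hA hκ hE hU hEU hx0 ha hc.1)
    obtain ⟨v, hv⟩ := (hg.2.1 a).1 (bk_self (hE.nemp haE))
    refine (h1 a v hv j).trans (hV'.mono hVW v c ?_ hc.2 j)
    exact hW.disj hA hκ hc.2 ((hg.2.2 v).2 ⟨a, hv⟩)
  exact fun a b ha hb j => (key a ha j).trans (key b hb j).symm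

/-- Finitely many subsets have a given support. -/
theorem fin_Dt (hA : Am M α) (hκ : FinP M (fun _ : κ => True)) {U : IPow M α} (hU : IFin U) :
    FinP M (fun x : IPow M (α × κ) => Dt U x) := by
  obtain ⟨K, hK, hK'⟩ := hκ
  obtain ⟨c, hc⟩ := hA.new (p := fun z => z ∈ U) ⟨U, hU, fun z hz => hz⟩
  have hDt : Int M (fun x : IPow M (α × κ) => Dt U x) := by
    unfold Dt
    (repeat' (first | with_reducible exact IntF.id | with_reducible exact IntF.fst' | with_reducible exact IntF.snd' | with_reducible exact IntF.const _ | with_reducible exact Int.const _ | assumption | with_reducible apply Int.and | with_reducible apply Int.or | with_reducible apply Int.not | with_reducible apply Int.imp | with_reducible apply Int.iff | with_reducible apply Int.ne | with_reducible apply Int.eq | with_reducible apply Int.mem | with_reducible apply Int.subset | with_reducible apply Int.ltN | with_reducible apply Int.leN | with_reducible apply Int.fin | with_reducible apply Int.unique | with_reducible apply Int.all | with_reducible apply Int.ex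 | with_reducible apply IntF.fst | with_reducible apply IntF.snd | with_reducible apply IntF.app | with_reducible apply IntF.ite | with_reducible apply IntF.sep | with_reducible apply IntF.lam | with_reducible apply IntF.insert | with_reducible apply IntF.singleton | with_reducible apply IntF.union | with_reducible apply IntF.inter | with_reducible apply IntF.sdiff | with_reducible apply IntF.isUnion | with_reducible apply IntF.iimage | with_reducible apply IntF.the | with_reducible apply IntF.irec | with_reducible_and_instances apply IntF.add | with_reducible_and_instances apply IntF.mul | with_reducible apply IntF.succ | with_reducible apply IntF.val | (with_reducible refine Int.comp ?_ ?_; assumption) | (with_reducible refine Int.comp₂ ?_ ?_ ?_; assumption) | (with_reducible refine Int.comp₃ ?_ ?_ ?_ ?_; assumption) | (with_reducible refine Int.comp₄ ?_ ?_ ?_ ?_ ?_; assumption) | (with_reducible refine IntF.comp ?_ ?_; assumption) | (with_reducible refine IntF.comp₂ ?_ ?_ ?_; assumption) | (with_reducible refine IntF.comp₃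 ?_ ?_ ?_ ?_; assumption) | with_reducible apply IntF.inl | with_reducible apply IntF.inr | with_reducible apply IntF.pair))
  refine FinP.of_inj (f := fun x : IPow M (α × κ) => x ∩ iprod (insert c U) K) hDt
    (by
      have h0 : IntF M (fun _ : IPow M (α × κ) => iprod (insert c U) K) := IntF.const _
      (repeat' (first | with_reducible exact IntF.id | with_reducible exact IntF.fst' | with_reducible exact IntF.snd' | with_reducible exact IntF.const _ | with_reducible exact Int.const _ | assumption | with_reducible apply Int.and | with_reducible apply Int.or | with_reducible apply Int.not | with_reducible apply Int.imp | with_reducible apply Int.iff | with_reducible apply Int.ne | with_reducible apply Int.eq | with_reducible apply Int.mem | with_reducible apply Int.subset | with_reducible apply Int.ltN | with_reducible apply Int.leN | with_reducible apply Int.fin | with_reducible apply Int.unique | with_reducible apply Int.all | with_reducible apply Int.ex | with_reducible apply IntF.fst | with_reducible apply IntF.snd |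 with_reducible apply IntF.app | with_reducible apply IntF.ite | with_reducible apply IntF.sep | with_reducible apply IntF.lam | with_reducible apply IntF.insert | with_reducible apply IntF.singleton | with_reducible apply IntF.union | with_reducible apply IntF.inter | with_reducible apply IntF.sdiff | with_reducible apply IntF.isUnion | with_reducible apply IntF.iimage | with_reducible apply IntF.the | with_reducible apply IntF.irec | with_reducible_and_instances apply IntF.add | with_reducible_and_instances apply IntF.mul | with_reducible apply IntF.succ | with_reducible apply IntF.val | (with_reducible refine Int.comp ?_ ?_; assumption) | (with_reducible refine Int.comp₂ ?_ ?_ ?_; assumption) | (with_reducible refine Int.comp₃ ?_ ?_ ?_ ?_; assumption) | (with_reducible refine Int.comp₄ ?_ ?_ ?_ ?_ ?_; assumption) | (with_reducible refine IntF.comp ?_ ?_; assumption) | (with_reducible refine IntF.comp₂ ?_ ?_ ?_; assumption) | (with_reducible refine IntF.comp₃ ?_ ?_ ?_ ?_; assumption) | with_reducible apply IntF.inl | with_reducible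 apply IntF.inr | with_reducible apply IntF.pair))) ?_
    (q := fun y => y ⊆ iprod (insert c U) K) ⟨_, ((hU.insert c).prod hK).pow, fun y hy =>
      mem_ipow.2 hy⟩ ?_
  · intro x y hx hy hxy
    have h1 : ∀ a j, a ∈ (insert c U : IPow M α) → ((a, j) ∈ x ↔ (a, j) ∈ y) := by
      intro a j ha
      have h2 : (a, j) ∈ x ∩ iprod (insert c U) K ↔ (a, j) ∈ y ∩ iprod (insert c U) K := by
        rw [show x ∩ iprod (insert c U) K = y ∩ iprod (insert c U) K from hxy]
      rw [mem_inter, mem_inter] at h2
      have h3 : (a, j) ∈ iprod (insert c U) K := mem_iprod.2 ⟨ha, hK' j trivial⟩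
      exact ⟨fun h => (h2.1 ⟨h, h3⟩).1, fun h => (h2.2 ⟨h, h3⟩).1⟩
    refine IPow.ext' ?_
    rintro ⟨a, j⟩
    by_cases ha : a ∈ U
    · exact h1 a j (mem_insert.2 (Or.inr ha))
    · exact (hx a c ha hc j).trans ((h1 c j (mem_insert.2 (Or.inl rfl))).trans
        (hy a c ha hc j).symm)
  · intro x _ q hq
    exact (mem_inter.1 hq).2

end

end Pool.Agent.R596.AM
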