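import Pool.Agent.R596.AmH

/-!
# With a degenerate closure, a surjection is injective
-/

set_option autoImplicit false
set_option linter.all false
set_option maxHeartbeats 400000

namespace Pool.Agent.R596.AM

open FirstOrder FirstOrder.Language
open Pool.Agent.Helper672.ZFA
open Pool.Agent.H310

universe u u₁ u₂ u₃

section

variable {M : Type u} [L.Structure M] [hM : IsModel M]
variable {α : Type u₁} {κ : Type u₂} [ITy M α] [ITy M κ]
variable {F : IFun M (IPow M (α × κ)) (IPow M (α × κ))}
variable (hA : Am M α) (hκ : FinP M (fun _ : κ => True))

include hA hκ in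
theorem bound {E : IPow M α} (hE : Cld F E) : ∃ N : INat M, ∀ (x : IPow M (α × κ)) (R : IPow M α)
    (e : IFun M α (INat M)) (n : INat M), (∀ r, r ∈ R → ¬ r ∈ E) →
    (∀ r r', r ∈ R → r' ∈ R → Ty F E x r r' → r = r') → BN e R n → n ≤ N := by
  have hI := int_Is F
  obtain ⟨a0, ha0⟩ := hA.new (p := fun z => z ∈ E) ⟨E, hE.1, fun z hz => hz⟩
  obtain ⟨K, hK, hK'⟩ := hκ
  have hκ' : FinP M (fun _ : κ => True) := ⟨K, hK, hK'⟩
  obtain ⟨N, hN⟩ := pigeon (M := M) (s := ipow (ipow (iprod (bk F a0) K)))
    ((((bk_fin (F := F) hA hκ' a0).prod hK).pow).pow)
  refine ⟨N, fun x R e n hR hR' he => ?_⟩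
  by_contra hn
  rw [not_le] at hn
  have hT1 : ∀ r, Int M (fun P : IPow M (α × κ) => ∃ g, Is F E r a0 g ∧ ∀ v j, (v, j) ∈ P ↔
      ∃ u, (u, v) ∈ g ∧ (u, j) ∈ x) := fun r => by (repeat' (first | with_reducible exact IntF.id | with_reducible exact IntF.fst' | with_reducible exact IntF.snd' | with_reducible exact IntF.const _ | with_reducible exact Int.const _ | assumption | with_reducible apply Int.and | with_reducible apply Int.or | with_reducible apply Int.not | with_reducible apply Int.imp | with_reducible apply Int.iff | with_reducible apply Int.ne | with_reducible apply Int.eq | with_reducible apply Int.mem | with_reducible apply Int.subset | with_reducible apply Int.ltN | with_reducible apply Int.leN | with_reducible apply Int.fin | with_reducible apply Int.unique | with_reducible apply Int.all | with_reducible apply Int.ex | with_reducible apply IntF.fst | with_reducible apply IntF.snd | with_reducible apply IntF.app | with_reducible apply IntF.ite | with_reducible apply IntF.sep | with_reducible apply IntF.lam | with_reducible apply IntF.insert | with_reducible apply IntF.singleton | with_reducible apply IntF.union |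 with_reducible apply IntF.inter | with_reducible apply IntF.sdiff | with_reducible apply IntF.isUnion | with_reducible apply IntF.iimage | with_reducible apply IntF.the | with_reducible apply IntF.irec | with_reducible_and_instances apply IntF.add | with_reducible_and_instances apply IntF.mul | with_reducible apply IntF.succ | with_reducible apply IntF.val | (with_reducible refine Int.comp ?_ ?_; assumption) | (with_reducible refine Int.comp₂ ?_ ?_ ?_; assumption) | (with_reducible refine Int.comp₃ ?_ ?_ ?_ ?_; assumption) | (with_reducible refine Int.comp₄ ?_ ?_ ?_ ?_ ?_; assumption) | (with_reducible refine IntF.comp ?_ ?_; assumption) | (with_reducible refine IntF.comp₂ ?_ ?_ ?_; assumption) | (with_reducible refine IntF.comp₃ ?_ ?_ ?_ ?_; assumption) | with_reducible apply IntF.inl | with_reducible apply IntF.inr | with_reducible apply IntF.pair))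
  have hT : IntF M (fun r => sep M fun P : IPow M (α × κ) => ∃ g, Is F E r a0 g ∧
      ∀ v j, (v, j) ∈ P ↔ ∃ u, (u, v) ∈ g ∧ (u, j) ∈ x) := by (repeat' (first | with_reducible exact IntF.id | with_reducible exact IntF.fst' | with_reducible exact IntF.snd' | with_reducible exact IntF.const _ | with_reducible exact Int.const _ | assumption | with_reducible apply Int.and | with_reducible apply Int.or | with_reducible apply Int.not | with_reducible apply Int.imp | with_reducible apply Int.iff | with_reducible apply Int.ne | with_reducible apply Int.eq | with_reducible apply Int.mem | with_reducible apply Int.subset | with_reducible apply Int.ltN | with_reducible apply Int.leN | with_reducible apply Int.fin | with_reducible apply Int.unique | with_reducible apply Int.all | with_reducible apply Int.ex | with_reducible apply IntF.fst | with_reducible apply IntF.snd | with_reducible apply IntF.app | with_reducible apply IntF.ite | with_reducible apply IntF.sep | with_reducible apply IntF.lam | with_reducible apply IntF.insert | with_reducible apply IntF.singleton | with_reducible apply IntF.union | with_reducible apply IntF.inter |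 with_reducible apply IntF.sdiff | with_reducible apply IntF.isUnion | with_reducible apply IntF.iimage | with_reducible apply IntF.the | with_reducible apply IntF.irec | with_reducible_and_instances apply IntF.add | with_reducible_and_instances apply IntF.mul | with_reducible apply IntF.succ | with_reducible apply IntF.val | (with_reducible refine Int.comp ?_ ?_; assumption) | (with_reducible refine Int.comp₂ ?_ ?_ ?_; assumption) | (with_reducible refine Int.comp₃ ?_ ?_ ?_ ?_; assumption) | (with_reducible refine Int.comp₄ ?_ ?_ ?_ ?_ ?_; assumption) | (with_reducible refine IntF.comp ?_ ?_; assumption) | (with_reducible refine IntF.comp₂ ?_ ?_ ?_; assumption) | (with_reducible refine IntF.comp₃ ?_ ?_ ?_ ?_; assumption) | with_reducible apply IntF.inl | with_reducible apply IntF.inr | with_reducible apply IntF.pair))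
  have hr : IntF M (fun i : INat M => the (fun r => r ∈ R ∧ e r = i) a0) := by (repeat' (first | with_reducible exact IntF.id | with_reducible exact IntF.fst' | with_reducible exact IntF.snd' | with_reducible exact IntF.const _ | with_reducible exact Int.const _ | assumption | with_reducible apply Int.and | with_reducible apply Int.or | with_reducible apply Int.not | with_reducible apply Int.imp | with_reducible apply Int.iff | with_reducible apply Int.ne | with_reducible apply Int.eq | with_reducible apply Int.mem | with_reducible apply Int.subset | with_reducible apply Int.ltN | with_reducible apply Int.leN | with_reducible apply Int.fin | with_reducible apply Int.unique | with_reducible apply Int.all | with_reducible apply Int.ex | with_reducible apply IntF.fst | with_reducible apply IntF.snd | with_reducible apply IntF.app | with_reducible apply IntF.ite | with_reducible apply IntF.sep | with_reducible apply IntF.lam | with_reducible apply IntF.insert | with_reducible apply IntF.singleton | with_reducible apply IntF.union | with_reducible apply IntF.inter | with_reducible apply IntF.sdiff | with_reducible apply IntF.isUnion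 | with_reducible apply IntF.iimage | with_reducible apply IntF.the | with_reducible apply IntF.irec | with_reducible_and_instances apply IntF.add | with_reducible_and_instances apply IntF.mul | with_reducible apply IntF.succ | with_reducible apply IntF.val | (with_reducible refine Int.comp ?_ ?_; assumption) | (with_reducible refine Int.comp₂ ?_ ?_ ?_; assumption) | (with_reducible refine Int.comp₃ ?_ ?_ ?_ ?_; assumption) | (with_reducible refine Int.comp₄ ?_ ?_ ?_ ?_ ?_; assumption) | (with_reducible refine IntF.comp ?_ ?_; assumption) | (with_reducible refine IntF.comp₂ ?_ ?_ ?_; assumption) | (with_reducible refine IntF.comp₃ ?_ ?_ ?_ ?_; assumption) | with_reducible apply IntF.inl | with_reducible apply IntF.inr | with_reducible apply IntF.pair))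
  have hr1 : ∀ i, i ≤ N → the (fun r => r ∈ R ∧ e r = i) a0 ∈ R ∧
      e (the (fun r => r ∈ R ∧ e r = i) a0) = i := by
    intro i hi
    obtain ⟨r, h1, h2⟩ := he.2.2 i (hi.trans_lt hn)
    exact the_spec (p := fun r => r ∈ R ∧ e r = i) ⟨r, ⟨h1, h2⟩, fun r' hr' =>
      he.2.1 _ _ hr'.1 h1 (hr'.2.trans h2.symm)⟩
  have hf := IntF.comp (g := fun r => sep M fun P : IPow M (α × κ) => ∃ g, Is F E r a0 g ∧
      ∀ v j, (v, j) ∈ P ↔ ∃ u, (u, v) ∈ g ∧ (u, j) ∈ x)
      (f := fun i : INat M => the (fun r => r ∈ R ∧ e r = i) a0) hT hr
  refine hN ⟨_, hf⟩ ?_ ?_
  · intro i hi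
    rw [mem_ipow]
    intro P hP
    change P ∈ sep M _ at hP
    rw [mem_sep (hT1 _)] at hP
    obtain ⟨g, hg, h1⟩ := hP
    rw [mem_ipow]
    rintro ⟨v, j⟩ hv
    obtain ⟨u, hu, _⟩ := (h1 v j).1 hv
    exact mem_iprod.2 ⟨(hg.2.2 v).2 ⟨u, hu⟩, hK' j trivial⟩
  · intro i j hi hj hij
    change sep M _ = sep M _ at hij
    obtain ⟨hi1, hi2⟩ := hr1 i hi
    obtain ⟨hj1, hj2⟩ := hr1 j hj
    obtain ⟨g, hg⟩ := exists_Is (F := F) hA hκ' hE (hR _ hi1) ha0
    have hP1 : Int M (fun q : α × κ => ∃ u, (u, q.1) ∈ g ∧ (u, q.2) ∈ x) := by (repeat' (first | with_reducible exact IntF.id | with_reducible exact IntF.fst' | with_reducible exact IntF.snd' | with_reducible exact IntF.const _ | with_reducible exact Int.const _ | assumption | with_reducible apply Int.and | with_reducible apply Int.or | with_reducible apply Int.not | with_reducible apply Int.imp | with_reducible apply Int.iff | with_reducible apply Int.ne | with_reducible apply Int.eq | with_reducible apply Int.mem | with_reducible apply Int.subset | with_reducible apply Int.ltN | with_reducible apply Int.leN | with_reducible apply Int.fin | with_reducible apply Int.unique | with_reducible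 apply Int.all | with_reducible apply Int.ex | with_reducible apply IntF.fst | with_reducible apply IntF.snd | with_reducible apply IntF.app | with_reducible apply IntF.ite | with_reducible apply IntF.sep | with_reducible apply IntF.lam | with_reducible apply IntF.insert | with_reducible apply IntF.singleton | with_reducible apply IntF.union | with_reducible apply IntF.inter | with_reducible apply IntF.sdiff | with_reducible apply IntF.isUnion | with_reducible apply IntF.iimage | with_reducible apply IntF.the | with_reducible apply IntF.irec | with_reducible_and_instances apply IntF.add | with_reducible_and_instances apply IntF.mul | with_reducible apply IntF.succ | with_reducible apply IntF.val | (with_reducible refine Int.comp ?_ ?_; assumption) | (with_reducible refine Int.comp₂ ?_ ?_ ?_; assumption) | (with_reducible refine Int.comp₃ ?_ ?_ ?_ ?_; assumption) | (with_reducible refine Int.comp₄ ?_ ?_ ?_ ?_ ?_; assumption) | (with_reducible refine IntF.comp ?_ ?_; assumption) | (with_reducible refine IntF.comp₂ ?_ ?_ ?_; assumption) | (with_reducible refine IntF.comp₃ ?_ ?_ ?_ ?_; assumption) | with_reducible apply IntF.inl |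 with_reducible apply IntF.inr | with_reducible apply IntF.pair))
    obtain ⟨P, hP⟩ : ∃ P : IPow M (α × κ), ∀ q, q ∈ P ↔ ∃ u, (u, q.1) ∈ g ∧ (u, q.2) ∈ x :=
      ⟨_, fun q => mem_sep hP1⟩
    have h1 : P ∈ (sep M fun P : IPow M (α × κ) => ∃ g,
        Is F E (the (fun r => r ∈ R ∧ e r = i) a0) a0 g ∧
          ∀ v j, (v, j) ∈ P ↔ ∃ u, (u, v) ∈ g ∧ (u, j) ∈ x) :=
      (mem_sep (hT1 _)).2 ⟨g, hg, fun v j => hP (v, j)⟩
    rw [hij, mem_sep (hT1 _)] at h1
    obtain ⟨g', hg', h2⟩ := h1
    have h3 := hR' _ _ hi1 hj1 ⟨_, hg.cmp hg'.inv, fun u v huv k => by
      obtain ⟨m, h4, h5⟩ := mem_cmp.1 huv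
      have h5' := mem_ivp.1 h5
      have h6 : (m, k) ∈ P ↔ (u, k) ∈ x := by
        rw [hP]
        constructor
        · rintro ⟨u', h7, h8⟩
          have h9 : u' = u := hg.gp.inj h7 h4
          rw [h9] at h8
          exact h8
        · intro h8
          exact ⟨u, h4, h8⟩
      have h6' : (m, k) ∈ P ↔ (v, k) ∈ x := by
        rw [h2]
        constructor
        · rintro ⟨u', h7, h8⟩
          have h9 : u' = v := hg'.gp.inj h7 h5'
          rw [h9] at h8
          exact h8
        · intro h8
          exact ⟨v, h5', h8⟩
      exact h6.symm.trans h6'⟩
    rw [← hi2, ← hj2, h3]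

include hA hκ in
/-- With a degenerate closure, a surjection is injective. -/
theorem main_inj (hD : Dg F) (hs : ∀ y, ∃ x, F x = y) : ∀ x x', F x = F x' → x = x' := by
  obtain ⟨E, hE⟩ := exists_St (F := F) hA hκ
  have hT := int_Ty F
  have hB := int_BN (M := M) (α := α)
  by_contra hcon
  push Not at hcon
  obtain ⟨x1, x1', h1, h1'⟩ := hcon
  obtain ⟨N, hN⟩ := bound (F := F) hA hκ hE.1
  obtain ⟨e0, n0, h0⟩ := exists_BN (M := M) (α := α) IFin.empty
  obtain ⟨n, ⟨x, hbad, R, e, hR, hR', he⟩, hmax⟩ := exists_greatest (M := M)
    (p := fun n => ∃ x : IPow M (α × κ), (¬ ((∀ a b, ¬ a ∈ E → ¬ b ∈ E → Ty F E (F x) a b →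
      Ty F E x a b) ∧ ∀ x', F x' = F x → x' = x)) ∧ ∃ (R : IPow M α) (e : IFun M α (INat M)),
        (∀ r, r ∈ R → ¬ r ∈ E) ∧ (∀ r r', r ∈ R → r' ∈ R → Ty F E x r r' → r = r') ∧ BN e R n)
    (by (repeat' (first | with_reducible exact IntF.id | with_reducible exact IntF.fst' | with_reducible exact IntF.snd' | with_reducible exact IntF.const _ | with_reducible exact Int.const _ | assumption | with_reducible apply Int.and | with_reducible apply Int.or | with_reducible apply Int.not | with_reducible apply Int.imp | with_reducible apply Int.iff | with_reducible apply Int.ne | with_reducible apply Int.eq | with_reducible apply Int.mem | with_reducible apply Int.subset | with_reducible apply Int.ltN | with_reducible apply Int.leN | with_reducible apply Int.fin | with_reducible apply Int.unique | with_reducible apply Int.all | with_reducible apply Int.ex | with_reducible apply IntF.fst | with_reducible apply IntF.snd | with_reducible apply IntF.app | with_reducible apply IntF.ite | with_reducible apply IntF.sep | with_reducible apply IntF.lam | with_reducible apply IntF.insert | with_reducible apply IntF.singleton | with_reducible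 apply IntF.union | with_reducible apply IntF.inter | with_reducible apply IntF.sdiff | with_reducible apply IntF.isUnion | with_reducible apply IntF.iimage | with_reducible apply IntF.the | with_reducible apply IntF.irec | with_reducible_and_instances apply IntF.add | with_reducible_and_instances apply IntF.mul | with_reducible apply IntF.succ | with_reducible apply IntF.val | (with_reducible refine Int.comp ?_ ?_; assumption) | (with_reducible refine Int.comp₂ ?_ ?_ ?_; assumption) | (with_reducible refine Int.comp₃ ?_ ?_ ?_ ?_; assumption) | (with_reducible refine Int.comp₄ ?_ ?_ ?_ ?_ ?_; assumption) | (with_reducible refine IntF.comp ?_ ?_; assumption) | (with_reducible refine IntF.comp₂ ?_ ?_ ?_; assumption) | (with_reducible refine IntF.comp₃ ?_ ?_ ?_ ?_; assumption) | with_reducible apply IntF.inl | with_reducible apply IntF.inr | with_reducible apply IntF.pair))) (n := N) (by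
      rintro m ⟨x, _, R, e, hR, hR', he⟩
      exact hN x R e m hR hR' he)
    ⟨n0, x1', fun h => h1' (h.2 x1 h1), ∅, e0, fun r hr => absurd hr (by simp),
      fun r r' hr => absurd hr (by simp), h0⟩
  have claim : ∀ y, (∀ a b, ¬ a ∈ E → ¬ b ∈ E → (Ty F E y a b ↔ Ty F E x a b)) → ∀ z, F z = y →
      ∀ a b, ¬ a ∈ E → ¬ b ∈ E → (Ty F E z a b ↔ Ty F E x a b) := by
    intro y hy z hz a b ha hb
    rw [← hy a b ha hb]
    have h2 : Ty F E z a b → Ty F E y a b := fun h => hz ▸ Ty.F' hA hκ hD hE ha hb h
    refine ⟨h2, fun h3 => ?_⟩
    by_cases hz' : ((∀ a b, ¬ a ∈ E → ¬ b ∈ E → Ty F E (F z) a b →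
      Ty F E z a b) ∧ ∀ x', F x' = F z → x' = z)
    · exact hz'.1 a b ha hb (hz ▸ h3)
    · -- the set of representatives is maximal for `z`
      have hRz : ∀ r r', r ∈ R → r' ∈ R → Ty F E z r r' → r = r' := by
        intro r r' hr hr' h4
        refine hR' r r' hr hr' ((hy r r' (hR r hr) (hR r' hr')).1 ?_)
        exact hz ▸ Ty.F' hA hκ hD hE (hR r hr) (hR r' hr') h4
      have key : ∀ a, ¬ a ∈ E → ∃ r, r ∈ R ∧ Ty F E z a r := by
        intro a ha
        by_contra h4
        push Not at h4
        have haR : ¬ a ∈ R := fun h => h4 a h (Ty.refl hA hκ hE.1.1 z a)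
        classical
        have h5 : n.succ ≤ n := hmax n.succ ⟨z, hz', insert a R,
          lam M (fun b => if b = a then n else e b), ?_, ?_, ?_⟩
        · exact absurd h5 (not_le.2 (INat.lt_succ_self n))
        · intro r hr
          rcases mem_insert.1 hr with rfl | hr
          · exact ha
          · exact hR r hr
        · intro r r' hr hr' h6
          rcases mem_insert.1 hr with h8 | h8
          · rcases mem_insert.1 hr' with h9 | h9
            · rw [h8, h9]
            · rw [h8] at h6
              exact absurd h6 (h4 r' h9)
          · rcases mem_insert.1 hr' with h9 | h9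
            · rw [h9] at h6
              exact absurd h6.symm (h4 r h8)
            · exact hRz r r' h8 h9 h6
        · have hl : IntF M (fun b => if b = a then n else e b) := by
            refine IntF.ite ?_ ?_ ?_
            all_goals (repeat' (first | with_reducible exact IntF.id | with_reducible exact IntF.fst' | with_reducible exact IntF.snd' | with_reducible exact IntF.const _ | with_reducible exact Int.const _ | assumption | with_reducible apply Int.and | with_reducible apply Int.or | with_reducible apply Int.not | with_reducible apply Int.imp | with_reducible apply Int.iff | with_reducible apply Int.ne | with_reducible apply Int.eq | with_reducible apply Int.mem | with_reducible apply Int.subset | with_reducible apply Int.ltN | with_reducible apply Int.leN | with_reducible apply Int.fin | with_reducible apply Int.unique | with_reducible apply Int.all | with_reducible apply Int.ex | with_reducible apply IntF.fst | with_reducible apply IntF.snd | with_reducible apply IntF.app | with_reducible apply IntF.ite | with_reducible apply IntF.sep | with_reducible apply IntF.lam | with_reducible apply IntF.insert | with_reducible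 apply IntF.singleton | with_reducible apply IntF.union | with_reducible apply IntF.inter | with_reducible apply IntF.sdiff | with_reducible apply IntF.isUnion | with_reducible apply IntF.iimage | with_reducible apply IntF.the | with_reducible apply IntF.irec | with_reducible_and_instances apply IntF.add | with_reducible_and_instances apply IntF.mul | with_reducible apply IntF.succ | with_reducible apply IntF.val | (with_reducible refine Int.comp ?_ ?_; assumption) | (with_reducible refine Int.comp₂ ?_ ?_ ?_; assumption) | (with_reducible refine Int.comp₃ ?_ ?_ ?_ ?_; assumption) | (with_reducible refine Int.comp₄ ?_ ?_ ?_ ?_ ?_; assumption) | (with_reducible refine IntF.comp ?_ ?_; assumption) | (with_reducible refine IntF.comp₂ ?_ ?_ ?_; assumption) | (with_reducible refine IntF.comp₃ ?_ ?_ ?_ ?_; assumption) | with_reducible apply IntF.inl | with_reducible apply IntF.inr | with_reducible apply IntF.pair))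
          have hl' : ∀ b, lam M (fun b => if b = a then n else e b) b = if b = a then n else e b :=
            fun b => lam_apply hl b
          refine ⟨fun b hb => ?_, fun b b' hb hb' hbb => ?_, fun m hm => ?_⟩
          · rw [hl']
            split_ifs with h7
            · exact INat.lt_succ_self n
            · exact (he.1 b ((mem_insert.1 hb).resolve_left h7)).trans (INat.lt_succ_self n)
          · rw [hl', hl'] at hbb
            split_ifs at hbb with h7 h8 h8
            · rw [h7, h8]
            · exact absurd hbb (he.1 b' ((mem_insert.1 hb').resolve_left h8)).ne'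
            · exact absurd hbb (he.1 b ((mem_insert.1 hb).resolve_left h7)).ne
            · exact he.2.1 _ _ ((mem_insert.1 hb).resolve_left h7)
                ((mem_insert.1 hb').resolve_left h8) hbb
          · rcases (INat.lt_succ_iff.1 hm).lt_or_eq with h7 | rfl
            · obtain ⟨r, hr, hr'⟩ := he.2.2 m h7
              refine ⟨r, mem_insert.2 (Or.inr hr), ?_⟩
              rw [hl', if_neg (fun h : r = a => haR (h ▸ hr))]
              exact hr'
            · exact ⟨a, mem_insert.2 (Or.inl rfl), by rw [hl', if_pos rfl]⟩
      obtain ⟨r, hr, hr2⟩ := key a ha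
      obtain ⟨r', hr', hr2'⟩ := key b hb
      have h5 : Ty F E y a r := hz ▸ Ty.F' hA hκ hD hE ha (hR r hr) hr2
      have h6 : Ty F E y b r' := hz ▸ Ty.F' hA hκ hD hE hb (hR r' hr') hr2'
      have h7 : r = r' := hR' r r' hr hr' ((hy r r' (hR r hr) (hR r' hr')).1
        (h5.symm.trans (h3.trans h6)))
      exact hr2.trans (h7 ▸ hr2'.symm)
  -- the finite set of all subsets with these types
  have hSI : Int M (fun y : IPow M (α × κ) => ∀ a b, ¬ a ∈ E → ¬ b ∈ E →
    (Ty F E y a b ↔ Ty F E x a b)) := by (repeat' (first | with_reducible exact IntF.id | with_reducible exact IntF.fst' | with_reducible exact IntF.snd' | with_reducible exact IntF.const _ | with_reducible exact Int.const _ | assumption | with_reducible apply Int.and | with_reducible apply Int.or | with_reducible apply Int.not | with_reducible apply Int.imp | with_reducible apply Int.iff | with_reducible apply Int.ne | with_reducible apply Int.eq | with_reducible apply Int.mem | with_reducible apply Int.subset | with_reducible apply Int.ltN | with_reducible apply Int.leN | with_reducible apply Int.fin | with_reducible apply Int.unique | with_reducible apply Int.all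 | with_reducible apply Int.ex | with_reducible apply IntF.fst | with_reducible apply IntF.snd | with_reducible apply IntF.app | with_reducible apply IntF.ite | with_reducible apply IntF.sep | with_reducible apply IntF.lam | with_reducible apply IntF.insert | with_reducible apply IntF.singleton | with_reducible apply IntF.union | with_reducible apply IntF.inter | with_reducible apply IntF.sdiff | with_reducible apply IntF.isUnion | with_reducible apply IntF.iimage | with_reducible apply IntF.the | with_reducible apply IntF.irec | with_reducible_and_instances apply IntF.add | with_reducible_and_instances apply IntF.mul | with_reducible apply IntF.succ | with_reducible apply IntF.val | (with_reducible refine Int.comp ?_ ?_; assumption) | (with_reducible refine Int.comp₂ ?_ ?_ ?_; assumption) | (with_reducible refine Int.comp₃ ?_ ?_ ?_ ?_; assumption) | (with_reducible refine Int.comp₄ ?_ ?_ ?_ ?_ ?_; assumption) | (with_reducible refine IntF.comp ?_ ?_; assumption) | (with_reducible refine IntF.comp₂ ?_ ?_ ?_; assumption) | (with_reducible refine IntF.comp₃ ?_ ?_ ?_ ?_; assumption) | with_reducible apply IntF.inl | with_reducible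 apply IntF.inr | with_reducible apply IntF.pair))
  obtain ⟨S, hS⟩ : ∃ S : IPow M (IPow M (α × κ)), ∀ y, y ∈ S ↔ ∀ a b, ¬ a ∈ E → ¬ b ∈ E →
    (Ty F E y a b ↔ Ty F E x a b) := ⟨_, fun y => mem_sep hSI⟩
  have hSf : IFin S := by
    obtain ⟨V, hV, hV'⟩ := exists_Dt hA hκ x
    have hU := cld_cl (F := F) hA hκ (hE.1.1.union hV)
    have hEU : E ⊆ cl F (E ∪ V) := fun z hz => sub_cl (mem_union.2 (Or.inl hz))
    have hVU : V ⊆ cl F (E ∪ V) := fun z hz => sub_cl (mem_union.2 (Or.inr hz))
    obtain ⟨Z, hZ, hZ'⟩ := fin_Dt (κ := κ) hA hκ hU.1
    refine hZ.subset fun y hy => hZ' y ?_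
    exact Ty.supp hA hκ hE.1 hU hEU (hV'.mono hVU) fun a b ha hb h =>
      ((hS y).1 hy a b ha hb).2 h
  obtain ⟨f, K, hf⟩ := exists_BN (M := M) hSf
  have hg : IntF M (fun y : IPow M (α × κ) => the (fun z => z ∈ S ∧ F z = y ∧
      ∀ z', z' ∈ S → F z' = y → f z ≤ f z') y) := by (repeat' (first | with_reducible exact IntF.id | with_reducible exact IntF.fst' | with_reducible exact IntF.snd' | with_reducible exact IntF.const _ | with_reducible exact Int.const _ | assumption | with_reducible apply Int.and | with_reducible apply Int.or | with_reducible apply Int.not | with_reducible apply Int.imp | with_reducible apply Int.iff | with_reducible apply Int.ne | with_reducible apply Int.eq | with_reducible apply Int.mem | with_reducible apply Int.subset | with_reducible apply Int.ltN | with_reducible apply Int.leN | with_reducible apply Int.fin | with_reducible apply Int.unique | with_reducible apply Int.all | with_reducible apply Int.ex | with_reducible apply IntF.fst | with_reducible apply IntF.snd | with_reducible apply IntF.app | with_reducible apply IntF.ite | with_reducible apply IntF.sep | with_reducible apply IntF.lam | with_reducible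 apply IntF.insert | with_reducible apply IntF.singleton | with_reducible apply IntF.union | with_reducible apply IntF.inter | with_reducible apply IntF.sdiff | with_reducible apply IntF.isUnion | with_reducible apply IntF.iimage | with_reducible apply IntF.the | with_reducible apply IntF.irec | with_reducible_and_instances apply IntF.add | with_reducible_and_instances apply IntF.mul | with_reducible apply IntF.succ | with_reducible apply IntF.val | (with_reducible refine Int.comp ?_ ?_; assumption) | (with_reducible refine Int.comp₂ ?_ ?_ ?_; assumption) | (with_reducible refine Int.comp₃ ?_ ?_ ?_ ?_; assumption) | (with_reducible refine Int.comp₄ ?_ ?_ ?_ ?_ ?_; assumption) | (with_reducible refine IntF.comp ?_ ?_; assumption) | (with_reducible refine IntF.comp₂ ?_ ?_ ?_; assumption) | (with_reducible refine IntF.comp₃ ?_ ?_ ?_ ?_; assumption) | with_reducible apply IntF.inl | with_reducible apply IntF.inr | with_reducible apply IntF.pair))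
  have hg1 : ∀ y, y ∈ S → the (fun z => z ∈ S ∧ F z = y ∧
      ∀ z', z' ∈ S → F z' = y → f z ≤ f z') y ∈ S ∧ F (the (fun z => z ∈ S ∧ F z = y ∧
      ∀ z', z' ∈ S → F z' = y → f z ≤ f z') y) = y := by
    intro y hy
    obtain ⟨z, hz⟩ := hs y
    have hzS : z ∈ S := (hS z).2 (claim y ((hS y).1 hy) z hz)
    obtain ⟨m, ⟨w, hw1, hw2, hw3⟩, hm⟩ := INat.exists_least (M := M)
      (p := fun m => ∃ z, z ∈ S ∧ F z = y ∧ f z = m) (by (repeat' (first | with_reducible exact IntF.id | with_reducible exact IntF.fst' | with_reducible exact IntF.snd' | with_reducible exact IntF.const _ | with_reducible exact Int.const _ | assumption | with_reducible apply Int.and | with_reducible apply Int.or | with_reducible apply Int.not | with_reducible apply Int.imp | with_reducible apply Int.iff | with_reducible apply Int.ne | with_reducible apply Int.eq | with_reducible apply Int.mem | with_reducible apply Int.subset | with_reducible apply Int.ltN | with_reducible apply Int.leN | with_reducible apply Int.fin | with_reducible apply Int.unique | with_reducible apply Int.all | with_reducible apply Int.ex | with_reducible apply IntF.fst | with_reducible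 apply IntF.snd | with_reducible apply IntF.app | with_reducible apply IntF.ite | with_reducible apply IntF.sep | with_reducible apply IntF.lam | with_reducible apply IntF.insert | with_reducible apply IntF.singleton | with_reducible apply IntF.union | with_reducible apply IntF.inter | with_reducible apply IntF.sdiff | with_reducible apply IntF.isUnion | with_reducible apply IntF.iimage | with_reducible apply IntF.the | with_reducible apply IntF.irec | with_reducible_and_instances apply IntF.add | with_reducible_and_instances apply IntF.mul | with_reducible apply IntF.succ | with_reducible apply IntF.val | (with_reducible refine Int.comp ?_ ?_; assumption) | (with_reducible refine Int.comp₂ ?_ ?_ ?_; assumption) | (with_reducible refine Int.comp₃ ?_ ?_ ?_ ?_; assumption) | (with_reducible refine Int.comp₄ ?_ ?_ ?_ ?_ ?_; assumption) | (with_reducible refine IntF.comp ?_ ?_; assumption) | (with_reducible refine IntF.comp₂ ?_ ?_ ?_; assumption) | (with_reducible refine IntF.comp₃ ?_ ?_ ?_ ?_; assumption) | with_reducible apply IntF.inl | with_reducible apply IntF.inr | with_reducible apply IntF.pair))) ⟨f z, z, hzS, hz, rfl⟩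
    have h2 := the_spec (p := fun z => z ∈ S ∧ F z = y ∧ ∀ z', z' ∈ S → F z' = y → f z ≤ f z')
      (d := y) ⟨w, ⟨hw1, hw2, fun z' hz' hz2 => by
        rw [hw3]
        exact hm _ ⟨z', hz', hz2, rfl⟩⟩, fun w' hw' => by
        refine hf.2.1 _ _ hw'.1 hw1 (le_antisymm (hw'.2.2 w hw1 hw2) ?_)
        rw [hw3]
        exact hm _ ⟨w', hw'.1, hw'.2.1, rfl⟩⟩
    exact ⟨h2.1, h2.2.1⟩
  have hinj : ∀ y y', y ∈ S → y' ∈ S → (the (fun z => z ∈ S ∧ F z = y ∧
      ∀ z', z' ∈ S → F z' = y → f z ≤ f z') y) = (the (fun z => z ∈ S ∧ F z = y' ∧
      ∀ z', z' ∈ S → F z' = y' → f z ≤ f z') y') → y = y' := by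
    intro y y' hy hy' h2
    rw [← (hg1 y hy).2, h2]
    exact (hg1 y' hy').2
  have hsur : ∀ z, z ∈ S → ∃ y, y ∈ S ∧ (the (fun z => z ∈ S ∧ F z = y ∧
      ∀ z', z' ∈ S → F z' = y → f z ≤ f z') y) = z := fun z hz =>
    Pool.Agent.R596.fin_surj (M := M) (p := fun z => z ∈ S) ⟨S, hSf, fun z hz => hz⟩ hg
      (fun y hy => (hg1 y hy).1) hinj (by (repeat' (first | with_reducible exact IntF.id | with_reducible exact IntF.fst' | with_reducible exact IntF.snd' | with_reducible exact IntF.const _ | with_reducible exact Int.const _ | assumption | with_reducible apply Int.and | with_reducible apply Int.or | with_reducible apply Int.not | with_reducible apply Int.imp | with_reducible apply Int.iff | with_reducible apply Int.ne | with_reducible apply Int.eq | with_reducible apply Int.mem | with_reducible apply Int.subset | with_reducible apply Int.ltN | with_reducible apply Int.leN | with_reducible apply Int.fin | with_reducible apply Int.unique | with_reducible apply Int.all | with_reducible apply Int.ex | with_reducible apply IntF.fst | with_reducible apply IntF.snd | with_reducible apply IntF.app | with_reducible apply IntF.ite | with_reducible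 apply IntF.sep | with_reducible apply IntF.lam | with_reducible apply IntF.insert | with_reducible apply IntF.singleton | with_reducible apply IntF.union | with_reducible apply IntF.inter | with_reducible apply IntF.sdiff | with_reducible apply IntF.isUnion | with_reducible apply IntF.iimage | with_reducible apply IntF.the | with_reducible apply IntF.irec | with_reducible_and_instances apply IntF.add | with_reducible_and_instances apply IntF.mul | with_reducible apply IntF.succ | with_reducible apply IntF.val | (with_reducible refine Int.comp ?_ ?_; assumption) | (with_reducible refine Int.comp₂ ?_ ?_ ?_; assumption) | (with_reducible refine Int.comp₃ ?_ ?_ ?_ ?_; assumption) | (with_reducible refine Int.comp₄ ?_ ?_ ?_ ?_ ?_; assumption) | (with_reducible refine IntF.comp ?_ ?_; assumption) | (with_reducible refine IntF.comp₂ ?_ ?_ ?_; assumption) | (with_reducible refine IntF.comp₃ ?_ ?_ ?_ ?_; assumption) | with_reducible apply IntF.inl | with_reducible apply IntF.inr | with_reducible apply IntF.pair))) hz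
  have hxS : x ∈ S := (hS x).2 fun a b _ _ => Iff.rfl
  have hFS : ∀ z, z ∈ S → F z ∈ S := by
    intro z hz
    obtain ⟨y, hy, h2⟩ := hsur z hz
    have h3 := (hg1 y hy).2
    rw [h2] at h3
    rw [h3]
    exact hy
  refine hbad ⟨fun a b ha hb h => ((hS _).1 (hFS x hxS) a b ha hb).1 h, fun x' hx' => ?_⟩
  have hx'S : x' ∈ S := (hS x').2 (claim (F x) ((hS _).1 (hFS x hxS)) x' hx')
  obtain ⟨y, hy, h2⟩ := hsur x hxS
  obtain ⟨y', hy', h2'⟩ := hsur x' hx'S
  have h3 := (hg1 y hy).2
  rw [h2] at h3
  have h3' := (hg1 y' hy').2
  rw [h2'] at h3'
  have h4 : y = y' := by rw [← h3, ← h3', hx']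
  rw [← h2, ← h2']
  simp only [h4]

include hA hκ in
/-- A surjection that is not injective gives a closure that is not degenerate. -/
theorem not_Dg (hs : ∀ y, ∃ x, F x = y) (hn : ∃ x x', F x = F x' ∧ x ≠ x') : ¬ Dg F := by
  intro hD
  obtain ⟨x, x', h, h'⟩ := hn
  exact h' (main_inj hA hκ hD hs x x' h)

end

end Pool.Agent.R596.AM
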