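import Pool.Agent.R596.AmI

/-!
# With a closure that is not degenerate, the power set is dually Dedekind infinite
-/

set_option autoImplicit false
set_option linter.all false
set_option maxHeartbeats 400000

namespace Pool.Agent.R596.AM

open FirstOrder FirstOrder.Language
open Pool.Agent.Helper672.ZFA
open Pool.Agent.H310

universe u u₁ u₂ u₃

section

variable {M : Type u} [L.Structure M] [hM : IsModel M]
variable {α : Type u₁} {κ : Type u₂} [ITy M α] [ITy M κ]
variable {F : IFun M (IPow M (α × κ)) (IPow M (α × κ))}
variable (hA : Am M α) (hκ : FinP M (fun _ : κ => True))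

include hA hκ in
theorem circ (h : ¬ Dg F) : ∃ (S : IPow M α) (s0 x : α), IFin S ∧ s0 ∈ S ∧ x ∈ cl F S ∧
    (∀ s, s ∈ S → ¬ x ∈ cl F (S \ {s})) ∧ (∀ s, s ∈ S → ¬ s ∈ cl F (S \ {s})) ∧
      ∃ r, r ∈ S ∧ r ≠ s0 := by
  have hc := int_cl F
  unfold Dg at h
  push Not at h
  obtain ⟨S1, hS1, ⟨s1, hs1⟩, x, hx, hx'⟩ := h
  obtain ⟨S, ⟨hS, hxS⟩, hmin⟩ := FinP.exists_min (M := M)
    (p := fun S : IPow M α => S ⊆ S1 ∧ x ∈ cl F S) (by (repeat' (first | with_reducible exact IntF.id | with_reducible exact IntF.fst' | with_reducible exact IntF.snd' | with_reducible exact IntF.const _ | with_reducible exact Int.const _ | assumption | with_reducible apply Int.and | with_reducible apply Int.or | with_reducible apply Int.not | with_reducible apply Int.imp | with_reducible apply Int.iff | with_reducible apply Int.ne | with_reducible apply Int.eq | with_reducible apply Int.mem | with_reducible apply Int.subset | with_reducible apply Int.ltN | with_reducible apply Int.leN | with_reducible apply Int.fin | with_reducible apply Int.unique | with_reducible apply Int.all | with_reducible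 apply Int.ex | with_reducible apply IntF.fst | with_reducible apply IntF.snd | with_reducible apply IntF.app | with_reducible apply IntF.ite | with_reducible apply IntF.sep | with_reducible apply IntF.lam | with_reducible apply IntF.insert | with_reducible apply IntF.singleton | with_reducible apply IntF.union | with_reducible apply IntF.inter | with_reducible apply IntF.sdiff | with_reducible apply IntF.isUnion | with_reducible apply IntF.iimage | with_reducible apply IntF.the | with_reducible apply IntF.irec | with_reducible_and_instances apply IntF.add | with_reducible_and_instances apply IntF.mul | with_reducible apply IntF.succ | with_reducible apply IntF.val | (with_reducible refine Int.comp ?_ ?_; assumption) | (with_reducible refine Int.comp₂ ?_ ?_ ?_; assumption) | (with_reducible refine Int.comp₃ ?_ ?_ ?_ ?_; assumption) | (with_reducible refine Int.comp₄ ?_ ?_ ?_ ?_ ?_; assumption) | (with_reducible refine IntF.comp ?_ ?_; assumption) | (with_reducible refine IntF.comp₂ ?_ ?_ ?_; assumption) | (with_reducible refine IntF.comp₃ ?_ ?_ ?_ ?_; assumption)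 | with_reducible apply IntF.inl | with_reducible apply IntF.inr | with_reducible apply IntF.pair)))
    ⟨_, hS1.pow, fun S hS => mem_ipow.2 hS.1⟩ (lt := fun y z => y ⊆ z ∧ y ≠ z) (by (repeat' (first | with_reducible exact IntF.id | with_reducible exact IntF.fst' | with_reducible exact IntF.snd' | with_reducible exact IntF.const _ | with_reducible exact Int.const _ | assumption | with_reducible apply Int.and | with_reducible apply Int.or | with_reducible apply Int.not | with_reducible apply Int.imp | with_reducible apply Int.iff | with_reducible apply Int.ne | with_reducible apply Int.eq | with_reducible apply Int.mem | with_reducible apply Int.subset | with_reducible apply Int.ltN | with_reducible apply Int.leN | with_reducible apply Int.fin | with_reducible apply Int.unique | with_reducible apply Int.all | with_reducible apply Int.ex | with_reducible apply IntF.fst | with_reducible apply IntF.snd | with_reducible apply IntF.app | with_reducible apply IntF.ite | with_reducible apply IntF.sep | with_reducible apply IntF.lam | with_reducible apply IntF.insert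 | with_reducible apply IntF.singleton | with_reducible apply IntF.union | with_reducible apply IntF.inter | with_reducible apply IntF.sdiff | with_reducible apply IntF.isUnion | with_reducible apply IntF.iimage | with_reducible apply IntF.the | with_reducible apply IntF.irec | with_reducible_and_instances apply IntF.add | with_reducible_and_instances apply IntF.mul | with_reducible apply IntF.succ | with_reducible apply IntF.val | (with_reducible refine Int.comp ?_ ?_; assumption) | (with_reducible refine Int.comp₂ ?_ ?_ ?_; assumption) | (with_reducible refine Int.comp₃ ?_ ?_ ?_ ?_; assumption) | (with_reducible refine Int.comp₄ ?_ ?_ ?_ ?_ ?_; assumption) | (with_reducible refine IntF.comp ?_ ?_; assumption) | (with_reducible refine IntF.comp₂ ?_ ?_ ?_; assumption) | (with_reducible refine IntF.comp₃ ?_ ?_ ?_ ?_; assumption) | with_reducible apply IntF.inl | with_reducible apply IntF.inr | with_reducible apply IntF.pair)))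
    (fun a h => h.2 rfl)
    (fun a b c hab hbc => ⟨fun x hx => hbc.1 _ (hab.1 _ hx), fun h => hbc.2 (IPow.ext' fun x =>
      ⟨fun hx => hbc.1 _ hx, fun hx => hab.1 _ (by rw [h]; exact hx)⟩)⟩)
    ⟨S1, fun z hz => hz, hx⟩
  have hSf : IFin S := hS1.subset hS
  have hx0 : ¬ x ∈ cl F ∅ := fun h => hx' s1 hs1 (cl_mono (fun y hy => absurd hy (by simp)) _ h)
  have hSm : ∀ s, s ∈ S → ¬ x ∈ cl F (S \ {s}) := by
    intro s hs h
    refine hmin (S \ {s}) ⟨fun z hz => hS _ (mem_sdiff.1 hz).1, h⟩
      ⟨fun z hz => (mem_sdiff.1 hz).1, fun he => ?_⟩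
    rw [← he, mem_sdiff] at hs
    exact hs.2 (mem_singleton.2 rfl)
  have hne : ∃ s, s ∈ S := by
    by_contra hne
    exact hx0 (cl_mono (fun y hy => absurd ⟨y, hy⟩ hne) _ hxS)
  obtain ⟨s0, hs0⟩ := hne
  refine ⟨S, s0, x, hSf, hs0, hxS, hSm, fun s hs h => hSm s hs ?_, ?_⟩
  · have hf : IFin (S \ {s}) := hSf.subset fun z hz => (mem_sdiff.1 hz).1
    refine cl_sub hA hκ hf (fun z hz => ?_) _ hxS
    by_cases hzs : z = s
    · rw [hzs]
      exact h
    · exact sub_cl (mem_sdiff.2 ⟨hz, fun h2 => hzs (mem_singleton.1 h2)⟩)
  · by_contra hr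
    push Not at hr
    refine hx' s0 (hS _ hs0) (cl_mono (fun z hz => ?_) _ hxS)
    exact mem_singleton.2 (hr z hz)

include hA hκ in
/-- A set that spans a given element and avoids a given closed set. -/
theorem avoid (h : ¬ Dg F) {T : IPow M α} (hT : Cld F T) {t : α} (ht : t ∈ T)
    (ht0 : ¬ t ∈ cl F ∅) : ∃ Y : IPow M α, IFin Y ∧ (∀ y, y ∈ Y → ¬ y ∈ T) ∧ t ∈ cl F Y := by
  have hc := int_cl F
  have hG := int_Gp F
  obtain ⟨S, s0, x, hS, hs0, hxS, hSm, hSi, r0, hr0, hr0'⟩ := circ hA hκ h
  have hs00 : ¬ s0 ∈ cl F ∅ := fun h1 => hSi s0 hs0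
    (cl_mono (fun y hy => absurd hy (by simp)) _ h1)
  -- the images of the other elements
  have hV : ∀ (p : IPow M (α × α)) (R : IPow M α) (r : α),
      Int M (fun v => ∃ u, u ∈ R ∧ u ≠ r ∧ (u, v) ∈ p) := fun p R r => by (repeat' (first | with_reducible exact IntF.id | with_reducible exact IntF.fst' | with_reducible exact IntF.snd' | with_reducible exact IntF.const _ | with_reducible exact Int.const _ | assumption | with_reducible apply Int.and | with_reducible apply Int.or | with_reducible apply Int.not | with_reducible apply Int.imp | with_reducible apply Int.iff | with_reducible apply Int.ne | with_reducible apply Int.eq | with_reducible apply Int.mem | with_reducible apply Int.subset | with_reducible apply Int.ltN | with_reducible apply Int.leN | with_reducible apply Int.fin | with_reducible apply Int.unique | with_reducible apply Int.all | with_reducible apply Int.ex | with_reducible apply IntF.fst | with_reducible apply IntF.snd | with_reducible apply IntF.app | with_reducible apply IntF.ite | with_reducible apply IntF.sep | with_reducible apply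 IntF.lam | with_reducible apply IntF.insert | with_reducible apply IntF.singleton | with_reducible apply IntF.union | with_reducible apply IntF.inter | with_reducible apply IntF.sdiff | with_reducible apply IntF.isUnion | with_reducible apply IntF.iimage | with_reducible apply IntF.the | with_reducible apply IntF.irec | with_reducible_and_instances apply IntF.add | with_reducible_and_instances apply IntF.mul | with_reducible apply IntF.succ | with_reducible apply IntF.val | (with_reducible refine Int.comp ?_ ?_; assumption) | (with_reducible refine Int.comp₂ ?_ ?_ ?_; assumption) | (with_reducible refine Int.comp₃ ?_ ?_ ?_ ?_; assumption) | (with_reducible refine Int.comp₄ ?_ ?_ ?_ ?_ ?_; assumption) | (with_reducible refine IntF.comp ?_ ?_; assumption) | (with_reducible refine IntF.comp₂ ?_ ?_ ?_; assumption) | (with_reducible refine IntF.comp₃ ?_ ?_ ?_ ?_; assumption) | with_reducible apply IntF.inl | with_reducible apply IntF.inr | with_reducible apply IntF.pair))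
  have key : ∀ R : IPow M α, IFin R → (∀ r, r ∈ R → r ∈ S ∧ r ≠ s0) → ∃ p, Gp F p ∧
      (∀ c, c ∈ (insert s0 R : IPow M α) ↔ ∃ d, (c, d) ∈ p) ∧ (s0, t) ∈ p ∧
      ∀ r d, r ∈ R → (r, d) ∈ p →
        ¬ d ∈ cl F (T ∪ sep M fun v => ∃ u, u ∈ R ∧ u ≠ r ∧ (u, v) ∈ p) := by
    intro R hR
    refine IFin.ind (p := fun R : IPow M α => (∀ r, r ∈ R → r ∈ S ∧ r ≠ s0) → ∃ p, Gp F p ∧
      (∀ c, c ∈ (insert s0 R : IPow M α) ↔ ∃ d, (c, d) ∈ p) ∧ (s0, t) ∈ p ∧
      ∀ r d, r ∈ R → (r, d) ∈ p →
        ¬ d ∈ cl F (T ∪ sep M fun v => ∃ u, u ∈ R ∧ u ≠ r ∧ (u, v) ∈ p)) (by (repeat' (first | with_reducible exact IntF.id | with_reducible exact IntF.fst' | with_reducible exact IntF.snd' | with_reducible exact IntF.const _ | with_reducible exact Int.const _ | assumption | with_reducible apply Int.and | with_reducible apply Int.or | with_reducible apply Int.not | with_reducible apply Int.imp | with_reducible apply Int.iff | with_reducible apply Int.ne | with_reducible apply Int.eq | with_reducible apply Int.mem | with_reducible apply Int.subset | with_reducible apply Int.ltN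 | with_reducible apply Int.leN | with_reducible apply Int.fin | with_reducible apply Int.unique | with_reducible apply Int.all | with_reducible apply Int.ex | with_reducible apply IntF.fst | with_reducible apply IntF.snd | with_reducible apply IntF.app | with_reducible apply IntF.ite | with_reducible apply IntF.sep | with_reducible apply IntF.lam | with_reducible apply IntF.insert | with_reducible apply IntF.singleton | with_reducible apply IntF.union | with_reducible apply IntF.inter | with_reducible apply IntF.sdiff | with_reducible apply IntF.isUnion | with_reducible apply IntF.iimage | with_reducible apply IntF.the | with_reducible apply IntF.irec | with_reducible_and_instances apply IntF.add | with_reducible_and_instances apply IntF.mul | with_reducible apply IntF.succ | with_reducible apply IntF.val | (with_reducible refine Int.comp ?_ ?_; assumption) | (with_reducible refine Int.comp₂ ?_ ?_ ?_; assumption) | (with_reducible refine Int.comp₃ ?_ ?_ ?_ ?_; assumption) | (with_reducible refine Int.comp₄ ?_ ?_ ?_ ?_ ?_; assumption) | (with_reducible refine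 IntF.comp ?_ ?_; assumption) | (with_reducible refine IntF.comp₂ ?_ ?_ ?_; assumption) | (with_reducible refine IntF.comp₃ ?_ ?_ ?_ ?_; assumption) | with_reducible apply IntF.inl | with_reducible apply IntF.inr | with_reducible apply IntF.pair))) ?_ ?_ R hR
    · intro _
      exact ⟨insert (s0, t) (idp ∅), (cl_spec hA hκ IFin.empty).2 s0 t hs00 ht0,
        dom_ins idp_dom, mem_insert.2 (Or.inl rfl), fun r d hr => absurd hr (by simp)⟩
    · intro R r hR hrR ih hRS
      obtain ⟨p, hp, hpd, hp0, hpi⟩ := ih fun u hu => hRS u (mem_insert.2 (Or.inr hu))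
      obtain ⟨hrS, hrs0⟩ := hRS r (mem_insert.2 (Or.inl rfl))
      have hf : IFin (T ∪ rng p) := hT.1.union hp.frng
      obtain ⟨b, hb⟩ := hA.new (p := fun z => z ∈ cl F (T ∪ rng p))
        ⟨_, (cl_spec (F := F) hA hκ hf).1, fun z hz => hz⟩
      have hrd : ¬ r ∈ (insert s0 R : IPow M α) := fun h1 =>
        (mem_insert.1 h1).elim hrs0 hrR
      have hnr : ∀ d, ¬ (r, d) ∈ p := fun d hd => hrd ((hpd r).2 ⟨d, hd⟩)
      have hg : Gp F (insert (r, b) p) := by
        refine hom hA hκ hpd (fun _ => mem_rng) hp (fun h1 => hSi r hrS (cl_mono ?_ _ h1))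
          (fun h1 => hb (cl_mono (fun z hz => mem_union.2 (Or.inr hz)) _ h1))
        intro z hz
        refine mem_sdiff.2 ⟨?_, fun h2 => hrd (mem_singleton.1 h2 ▸ hz)⟩
        rcases mem_insert.1 hz with rfl | hz
        · exact hs0
        · exact (hRS z (mem_insert.2 (Or.inr hz))).1
      refine ⟨insert (r, b) p, hg, fun c => ?_, mem_insert.2 (Or.inr hp0), ?_⟩
      · have h1 := dom_ins (a := r) (b := b) hpd c
        rw [← h1, mem_insert, mem_insert, mem_insert, mem_insert]
        constructor
        · rintro (h2 | h2 | h2)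
          · exact Or.inr (Or.inl h2)
          · exact Or.inl h2
          · exact Or.inr (Or.inr h2)
        · rintro (h2 | h2 | h2)
          · exact Or.inr (Or.inl h2)
          · exact Or.inl h2
          · exact Or.inr (Or.inr h2)
      · intro u d hu hud h1
        rcases mem_insert.1 hud with he | hud
        · obtain ⟨rfl, rfl⟩ := Prod.ext_iff.1 he
          refine hb (cl_mono (fun z hz => ?_) _ h1)
          rcases mem_union.1 hz with hz | hz
          · exact mem_union.2 (Or.inl hz)
          · obtain ⟨w, hw1, hw2, hw3⟩ := (mem_sep (hV _ _ _)).1 hz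
            rcases mem_insert.1 hw3 with he' | hw3
            · exact absurd (Prod.ext_iff.1 he').1 hw2
            · exact mem_union.2 (Or.inr (mem_rng.2 ⟨w, hw3⟩))
        · have hur : u ≠ r := fun h2 => hnr d (h2 ▸ hud)
          have huR : u ∈ R := (mem_insert.1 hu).resolve_left hur
          have h2 := hpi u d huR hud
          have hfV : IFin (T ∪ sep M fun v => ∃ w, w ∈ R ∧ w ≠ u ∧ (w, v) ∈ p) :=
            hT.1.union (hp.frng.subset fun z hz => by
              obtain ⟨w, _, _, hw⟩ := (mem_sep (hV _ _ _)).1 hz
              exact mem_rng.2 ⟨w, hw⟩)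
          have h3 : d ∈ cl F (insert b (T ∪ sep M fun v => ∃ w, w ∈ R ∧ w ≠ u ∧ (w, v) ∈ p)) := by
            refine cl_mono (fun z hz => ?_) _ h1
            rw [mem_insert]
            rcases mem_union.1 hz with hz | hz
            · exact Or.inr (mem_union.2 (Or.inl hz))
            · obtain ⟨w, hw1, hw2, hw3⟩ := (mem_sep (hV _ _ _)).1 hz
              rcases mem_insert.1 hw3 with he' | hw3
              · exact Or.inl (Prod.ext_iff.1 he').2
              · refine Or.inr (mem_union.2 (Or.inr ((mem_sep (hV _ _ _)).2
                  ⟨w, (mem_insert.1 hw1).resolve_left fun h4 => hnr z (h4 ▸ hw3), hw2, hw3⟩)))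
          have h4 := cl_exch hA hκ hfV h2 h3
          refine hb (cl_mono (fun z hz => ?_) _ h4)
          rcases mem_insert.1 hz with rfl | hz
          · exact mem_union.2 (Or.inr (mem_rng.2 ⟨u, hud⟩))
          · rcases mem_union.1 hz with hz | hz
            · exact mem_union.2 (Or.inl hz)
            · obtain ⟨w, _, _, hw⟩ := (mem_sep (hV _ _ _)).1 hz
              exact mem_union.2 (Or.inr (mem_rng.2 ⟨w, hw⟩))
  have hRf : IFin (S \ {s0}) := hS.subset fun z hz => (mem_sdiff.1 hz).1
  obtain ⟨p, hp, hpd, hp0, hpi⟩ := key (S \ {s0}) hRf fun r hr =>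
    ⟨(mem_sdiff.1 hr).1, fun h1 => (mem_sdiff.1 hr).2 (mem_singleton.2 h1)⟩
  have hpd' : ∀ c, c ∈ S → ∃ d, (c, d) ∈ p := fun c hcS => by
    refine (hpd c).1 (mem_insert.2 ?_)
    by_cases h1 : c = s0
    · exact Or.inl h1
    · exact Or.inr (mem_sdiff.2 ⟨hcS, fun h2 => h1 (mem_singleton.1 h2)⟩)
  obtain ⟨z, hz⟩ := hp.ext hA x
  -- the closure is transported
  have htr : ∀ s, s ∈ S → ∀ d, (s, d) ∈ p → d ∈ cl F (insert z (sep M fun v =>
      ∃ u, u ∈ S ∧ u ≠ s ∧ (u, v) ∈ p)) := by
    intro s hs d hsd
    have hf : IFin (S \ {s}) := hS.subset fun z hz => (mem_sdiff.1 hz).1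
    have h1 : x ∈ cl F (insert s (S \ {s})) := cl_mono (fun y hy => by
      rw [mem_insert]
      by_cases h2 : y = s
      · exact Or.inl h2
      · exact Or.inr (mem_sdiff.2 ⟨hy, fun h3 => h2 (mem_singleton.1 h3)⟩)) _ hxS
    have h2 : s ∈ cl F (insert x (S \ {s})) := cl_exch hA hκ hf (hSm s hs) h1
    refine (cl_img2 (p := rst (insert (x, z) p) (insert x (S \ {s}))) hA
      (U := insert x (S \ {s})) ?_ ?_ hz (fun q hq => (mem_rst.1 hq).1)
      (mem_insert.2 (Or.inr hsd))).1 h2
    · intro c
      constructor
      · intro hcU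
        rcases mem_insert.1 hcU with h3 | h3
        · exact ⟨z, mem_rst.2 ⟨mem_insert.2 (Or.inl (by rw [h3])), hcU⟩⟩
        · obtain ⟨e, he⟩ := hpd' c (mem_sdiff.1 h3).1
          exact ⟨e, mem_rst.2 ⟨mem_insert.2 (Or.inr he), hcU⟩⟩
      · rintro ⟨e, he⟩
        exact (mem_rst.1 he).2
    · intro e
      rw [mem_insert, mem_sep (hV _ _ _)]
      constructor
      · rintro (rfl | ⟨u, hu1, hu2, hu3⟩)
        · exact ⟨x, mem_rst.2 ⟨mem_insert.2 (Or.inl rfl), mem_insert.2 (Or.inl rfl)⟩⟩
        · exact ⟨u, mem_rst.2 ⟨mem_insert.2 (Or.inr hu3), mem_insert.2 (Or.inr (mem_sdiff.2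
            ⟨hu1, fun h3 => hu2 (mem_singleton.1 h3)⟩))⟩⟩
      · rintro ⟨c, hcE⟩
        obtain ⟨h3, h4⟩ := mem_rst.1 hcE
        rcases mem_insert.1 h4 with h5 | h5
        · left
          have h6 : (x, e) ∈ (insert (x, z) p : IPow M (α × α)) := (show c = x from h5) ▸ h3
          exact hz.fn h6 (mem_insert.2 (Or.inl rfl))
        · obtain ⟨h6, h7⟩ := mem_sdiff.1 h5
          obtain ⟨e', he'⟩ := hpd' c h6
          have h8 : e = e' := hz.fn h3 (mem_insert.2 (Or.inr he'))
          exact Or.inr ⟨c, h6, fun h9 => h7 (mem_singleton.2 h9), h8 ▸ he'⟩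
  refine ⟨insert z (sep M fun v => ∃ u, u ∈ S ∧ u ≠ s0 ∧ (u, v) ∈ p), ?_, ?_, htr s0 hs0 t hp0⟩
  · refine IFin.insert (hp.frng.subset fun v hv => ?_) z
    obtain ⟨w, _, _, hw⟩ := (mem_sep (hV _ _ _)).1 hv
    exact mem_rng.2 ⟨w, hw⟩
  · intro y hy hyT
    have hR0 : ∀ u, u ∈ S → u ≠ s0 → u ∈ S \ {s0} := fun u h1 h2 =>
      mem_sdiff.2 ⟨h1, fun h3 => h2 (mem_singleton.1 h3)⟩
    rcases mem_insert.1 hy with rfl | hy
    · obtain ⟨d, hd⟩ := hpd' r0 hr0
      refine hpi r0 d (hR0 r0 hr0 hr0') hd (cl_mono (fun v hv => ?_) _ (htr r0 hr0 d hd))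
      rw [mem_union, mem_sep (hV _ _ _)]
      rcases mem_insert.1 hv with rfl | hv
      · exact Or.inl hyT
      · obtain ⟨u, hu1, hu2, hu3⟩ := (mem_sep (hV _ _ _)).1 hv
        by_cases h1 : u = s0
        · left
          have h2 : (s0, v) ∈ p := h1 ▸ hu3
          rw [hp.fn h2 hp0]
          exact ht
        · exact Or.inr ⟨u, hR0 u hu1 h1, hu2, hu3⟩
    · obtain ⟨u, hu1, hu2, hu3⟩ := (mem_sep (hV _ _ _)).1 hy
      exact hpi u y (hR0 u hu1 hu2) hu3 (sub_cl (mem_union.2 (Or.inl hyT)))

include hA hκ in
/-- Every finite set is the difference of a closure and its generating set. -/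
theorem exists_diff (h : ¬ Dg F) {T : IPow M α} (hT : IFin T) :
    ∃ S : IPow M α, IFin S ∧ cl F S \ S = T := by
  have hc := int_cl F
  have hTc := cld_cl (F := F) hA hκ hT
  have hb := IFin.exists_bound (s := T) (r := fun (t : α) (Y : IPow M α) => (IFin Y ∧
    ∀ y, y ∈ Y → ¬ y ∈ cl F T) ∧ t ∈ cl F Y) (by (repeat' (first | with_reducible exact IntF.id | with_reducible exact IntF.fst' | with_reducible exact IntF.snd' | with_reducible exact IntF.const _ | with_reducible exact Int.const _ | assumption | with_reducible apply Int.and | with_reducible apply Int.or | with_reducible apply Int.not | with_reducible apply Int.imp | with_reducible apply Int.iff | with_reducible apply Int.ne | with_reducible apply Int.eq | with_reducible apply Int.mem | with_reducible apply Int.subset | with_reducible apply Int.ltN | with_reducible apply Int.leN | with_reducible apply Int.fin | with_reducible apply Int.unique | with_reducible apply Int.all | with_reducible apply Int.ex | with_reducible apply IntF.fst | with_reducible apply IntF.snd | with_reducible apply IntF.app |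 with_reducible apply IntF.ite | with_reducible apply IntF.sep | with_reducible apply IntF.lam | with_reducible apply IntF.insert | with_reducible apply IntF.singleton | with_reducible apply IntF.union | with_reducible apply IntF.inter | with_reducible apply IntF.sdiff | with_reducible apply IntF.isUnion | with_reducible apply IntF.iimage | with_reducible apply IntF.the | with_reducible apply IntF.irec | with_reducible_and_instances apply IntF.add | with_reducible_and_instances apply IntF.mul | with_reducible apply IntF.succ | with_reducible apply IntF.val | (with_reducible refine Int.comp ?_ ?_; assumption) | (with_reducible refine Int.comp₂ ?_ ?_ ?_; assumption) | (with_reducible refine Int.comp₃ ?_ ?_ ?_ ?_; assumption) | (with_reducible refine Int.comp₄ ?_ ?_ ?_ ?_ ?_; assumption) | (with_reducible refine IntF.comp ?_ ?_; assumption) | (with_reducible refine IntF.comp₂ ?_ ?_ ?_; assumption) | (with_reducible refine IntF.comp₃ ?_ ?_ ?_ ?_; assumption) | with_reducible apply IntF.inl | with_reducible apply IntF.inr | with_reducible apply IntF.pair))) (by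
      intro Y Y'
      by_cases h1 : IFin Y ∧ ∀ y, y ∈ Y → ¬ y ∈ cl F T
      · by_cases h2 : IFin Y' ∧ ∀ y, y ∈ Y' → ¬ y ∈ cl F T
        · refine ⟨Y ∪ Y', fun t ht => ⟨⟨h1.1.union h2.1, fun y hy => ?_⟩, ?_⟩⟩
          · exact (mem_union.1 hy).elim (h1.2 y) (h2.2 y)
          · rcases ht with ht | ht
            · exact cl_mono (fun y hy => mem_union.2 (Or.inl hy)) _ ht.2
            · exact cl_mono (fun y hy => mem_union.2 (Or.inr hy)) _ ht.2
        · refine ⟨Y, fun t ht => ?_⟩
          rcases ht with ht | ht
          · exact ht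
          · exact absurd ht.1 h2
      · refine ⟨Y', fun t ht => ?_⟩
        rcases ht with ht | ht
        · exact absurd ht.1 h1
        · exact ht) ⟨∅⟩ hT (by
      intro t ht
      by_cases ht0 : t ∈ cl F ∅
      · exact ⟨∅, ⟨IFin.empty, fun y hy => absurd hy (by simp)⟩, ht0⟩
      · obtain ⟨Y, h1, h2, h3⟩ := avoid hA hκ h hTc (sub_cl ht) ht0
        exact ⟨Y, ⟨h1, h2⟩, h3⟩)
  obtain ⟨Y, hY⟩ := hb
  by_cases hne : ∃ t, t ∈ T
  · obtain ⟨t0, ht0⟩ := hne
    obtain ⟨⟨hYf, hYT⟩, _⟩ := hY t0 ht0
    have hC := cld_cl (F := F) hA hκ (hT.union hYf)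
    have hYS : Y ⊆ cl F (T ∪ Y) \ T := fun y hy => mem_sdiff.2
      ⟨sub_cl (mem_union.2 (Or.inr hy)), fun h1 => hYT y hy (sub_cl h1)⟩
    refine ⟨cl F (T ∪ Y) \ T, hC.1.subset fun z hz => (mem_sdiff.1 hz).1, IPow.ext' fun z => ?_⟩
    rw [mem_sdiff, mem_sdiff]
    constructor
    · rintro ⟨h1, h2⟩
      by_contra h3
      refine h2 ⟨hC.2 _ (cl_mono (fun y hy => (mem_sdiff.1 hy).1) _ h1), h3⟩
    · intro h1
      exact ⟨cl_mono hYS _ (hY z h1).2, fun h2 => h2.2 h1⟩
  · refine ⟨cl F ∅, (cl_spec hA hκ IFin.empty).1, IPow.ext' fun z => ?_⟩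
    rw [mem_sdiff]
    exact ⟨fun h1 => absurd (cl_cl hA hκ IFin.empty _ h1.1) h1.2, fun h1 => absurd ⟨z, h1⟩ hne⟩

include hA hκ in
open Classical in
/-- The power set is dually Dedekind infinite. -/
theorem pow_DDI (h : ¬ Dg F) : ∃ H : IPow M α → IPow M α, IntF M H ∧ (∀ y, ∃ x, H x = y) ∧
    ∃ x x', H x = H x' ∧ x ≠ x' := by
  have hc := int_cl F
  refine ⟨fun S => if IFin S then cl F S \ S else S, ?_, fun y => ?_, ?_⟩
  · refine IntF.ite ?_ ?_ ?_
    all_goals (repeat' (first | with_reducible exact IntF.id | with_reducible exact IntF.fst' | with_reducible exact IntF.snd' | with_reducible exact IntF.const _ | with_reducible exact Int.const _ | assumption | with_reducible apply Int.and | with_reducible apply Int.or | with_reducible apply Int.not | with_reducible apply Int.imp | with_reducible apply Int.iff | with_reducible apply Int.ne | with_reducible apply Int.eq | with_reducible apply Int.mem | with_reducible apply Int.subset | with_reducible apply Int.ltN | with_reducible apply Int.leN | with_reducible apply Int.fin | with_reducible apply Int.unique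 | with_reducible apply Int.all | with_reducible apply Int.ex | with_reducible apply IntF.fst | with_reducible apply IntF.snd | with_reducible apply IntF.app | with_reducible apply IntF.ite | with_reducible apply IntF.sep | with_reducible apply IntF.lam | with_reducible apply IntF.insert | with_reducible apply IntF.singleton | with_reducible apply IntF.union | with_reducible apply IntF.inter | with_reducible apply IntF.sdiff | with_reducible apply IntF.isUnion | with_reducible apply IntF.iimage | with_reducible apply IntF.the | with_reducible apply IntF.irec | with_reducible_and_instances apply IntF.add | with_reducible_and_instances apply IntF.mul | with_reducible apply IntF.succ | with_reducible apply IntF.val | (with_reducible refine Int.comp ?_ ?_; assumption) | (with_reducible refine Int.comp₂ ?_ ?_ ?_; assumption) | (with_reducible refine Int.comp₃ ?_ ?_ ?_ ?_; assumption) | (with_reducible refine Int.comp₄ ?_ ?_ ?_ ?_ ?_; assumption) | (with_reducible refine IntF.comp ?_ ?_; assumption) | (with_reducible refine IntF.comp₂ ?_ ?_ ?_; assumption) | (with_reducible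 refine IntF.comp₃ ?_ ?_ ?_ ?_; assumption) | with_reducible apply IntF.inl | with_reducible apply IntF.inr | with_reducible apply IntF.pair))
  · by_cases hy : IFin y
    · obtain ⟨S, hS, h1⟩ := exists_diff hA hκ h hy
      exact ⟨S, by beta_reduce; rw [if_pos hS, h1]⟩
    · exact ⟨y, by beta_reduce; rw [if_neg hy]⟩
  · have hE := cl_spec (F := F) hA hκ IFin.empty
    obtain ⟨a, ha⟩ := hA.new (p := fun z => z ∈ cl F ∅) ⟨_, hE.1, fun z hz => hz⟩
    refine ⟨cl F ∅, cl F {a}, ?_, fun h1 => ha ?_⟩
    · beta_reduce
      rw [if_pos hE.1, if_pos (cl_spec hA hκ (IFin.singleton a)).1]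
      refine IPow.ext' fun z => ?_
      rw [mem_sdiff, mem_sdiff]
      exact ⟨fun h1 => absurd (cl_cl hA hκ IFin.empty _ h1.1) h1.2,
        fun h1 => absurd (cl_cl hA hκ (IFin.singleton a) _ h1.1) h1.2⟩
    · rw [h1]
      exact sub_cl (mem_singleton.2 rfl)

end

end Pool.Agent.R596.AM
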