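import Pool.Agent.H310R3.Cards

/-!
# Finitary partitions in a model of set theory: the definitions

The language `LSet` of set theory has one binary relation symbol; `Mem x y` says that `x` is an
element of `y`. `IsFinite s` says that `s` is in bijection with a natural number of the model.
-/

namespace Pool.Agent.R596Part

open FirstOrder FirstOrder.Language
open Pool.Agent.Helper672.Plain (LSet Mem Zermelo IsPair IsOrdPair)
open Pool.Agent.H310Cards

universe u

variable {M : Type u} [LSet.Structure M]

/-- `P` is a finitary partition of `a`: its elements are nonempty finite subsets of `a`, any two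
different ones are disjoint, and every element of `a` is in one of them. -/
def IsFinPartition (P a : M) : Prop :=
  (∀ s, Mem s P → (∃ x, Mem x s) ∧ (∀ x, Mem x s → Mem x a) ∧ IsFinite s) ∧
    (∀ s t, Mem s P → Mem t P → s ≠ t → ¬ ∃ x, Mem x s ∧ Mem x t) ∧
      ∀ x, Mem x a → ∃ s, Mem s P ∧ Mem x s

/-- `b` is the set of all finitary partitions of `a`. -/
def IsFinPartitionSet (b a : M) : Prop := ∀ P, Mem P b ↔ IsFinPartition P a

end Pool.Agent.R596Part
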