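import Pool.Agent.R596.FP
import Pool.Agent.R596.FPDefs

/-!
# From finitary equivalence relations to finitary partitions
-/

set_option maxHeartbeats 400000
set_option linter.all false

namespace Pool.Agent.R596

open FirstOrder FirstOrder.Language
open Pool.Agent.Helper672.ZFA
open Pool.Agent.H310
open Pool.Agent.H310Cards
open Pool.Agent.R596Part

universe u u₁ u₂ u₃ u₄

section

variable {M : Type u} [L.Structure M] [hM : IsModel M]
variable {α : Type u₁} {β : Type u₂} {γ : Type u₃} {δ : Type u₄}
  [ITy M α] [ITy M β] [ITy M γ] [ITy M δ]

/-- The set of blocks. -/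
noncomputable def toPt (r : FEq M α) : IPow M (IPow M α) :=
  sep M fun s => ∃ x, ∀ y, y ∈ s ↔ (x, y) ∈ r.1

theorem int_toPt : IntF M (fun r : FEq M α => toPt r) := by
  unfold toPt
  (repeat' (first | with_reducible exact IntF.id | with_reducible exact IntF.fst' | with_reducible exact IntF.snd' | with_reducible exact IntF.const _ | with_reducible exact Int.const _ | assumption | with_reducible apply Int.and | with_reducible apply Int.or | with_reducible apply Int.not | with_reducible apply Int.imp | with_reducible apply Int.iff | with_reducible apply Int.ne | with_reducible apply Int.eq | with_reducible apply Int.mem | with_reducible apply Int.subset | with_reducible apply Int.ltN | with_reducible apply Int.leN | with_reducible apply Int.fin | with_reducible apply Int.unique | with_reducible apply Int.all | with_reducible apply Int.ex | with_reducible apply IntF.fst | with_reducible apply IntF.snd | with_reducible apply IntF.app | with_reducible apply IntF.ite | with_reducible apply IntF.sep | with_reducible apply IntF.lam | with_reducible apply IntF.insert | with_reducible apply IntF.singleton | with_reducible apply IntF.union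 | with_reducible apply IntF.inter | with_reducible apply IntF.sdiff | with_reducible apply IntF.isUnion | with_reducible apply IntF.iimage | with_reducible apply IntF.the | with_reducible apply IntF.irec | with_reducible_and_instances apply IntF.add | with_reducible_and_instances apply IntF.mul | with_reducible apply IntF.succ | with_reducible apply IntF.val | (with_reducible refine Int.comp ?_ ?_; assumption) | (with_reducible refine Int.comp₂ ?_ ?_ ?_; assumption) | (with_reducible refine Int.comp₃ ?_ ?_ ?_ ?_; assumption) | (with_reducible refine Int.comp₄ ?_ ?_ ?_ ?_ ?_; assumption) | (with_reducible refine IntF.comp ?_ ?_; assumption) | (with_reducible refine IntF.comp₂ ?_ ?_ ?_; assumption) | (with_reducible refine IntF.comp₃ ?_ ?_ ?_ ?_; assumption) | with_reducible apply IntF.inl | with_reducible apply IntF.inr | with_reducible apply IntF.pair))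

theorem mem_toPt {r : FEq M α} {s : IPow M α} : s ∈ toPt r ↔ ∃ x, ∀ y, y ∈ s ↔ (x, y) ∈ r.1 := by
  unfold toPt
  rw [mem_sep (by (repeat' (first | with_reducible exact IntF.id | with_reducible exact IntF.fst' | with_reducible exact IntF.snd' | with_reducible exact IntF.const _ | with_reducible exact Int.const _ | assumption | with_reducible apply Int.and | with_reducible apply Int.or | with_reducible apply Int.not | with_reducible apply Int.imp | with_reducible apply Int.iff | with_reducible apply Int.ne | with_reducible apply Int.eq | with_reducible apply Int.mem | with_reducible apply Int.subset | with_reducible apply Int.ltN | with_reducible apply Int.leN | with_reducible apply Int.fin | with_reducible apply Int.unique | with_reducible apply Int.all | with_reducible apply Int.ex | with_reducible apply IntF.fst | with_reducible apply IntF.snd | with_reducible apply IntF.app | with_reducible apply IntF.ite | with_reducible apply IntF.sep | with_reducible apply IntF.lam | with_reducible apply IntF.insert | with_reducible apply IntF.singleton | with_reducible apply IntF.union | with_reducible apply IntF.inter | with_reducible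 apply IntF.sdiff | with_reducible apply IntF.isUnion | with_reducible apply IntF.iimage | with_reducible apply IntF.the | with_reducible apply IntF.irec | with_reducible_and_instances apply IntF.add | with_reducible_and_instances apply IntF.mul | with_reducible apply IntF.succ | with_reducible apply IntF.val | (with_reducible refine Int.comp ?_ ?_; assumption) | (with_reducible refine Int.comp₂ ?_ ?_ ?_; assumption) | (with_reducible refine Int.comp₃ ?_ ?_ ?_ ?_; assumption) | (with_reducible refine Int.comp₄ ?_ ?_ ?_ ?_ ?_; assumption) | (with_reducible refine IntF.comp ?_ ?_; assumption) | (with_reducible refine IntF.comp₂ ?_ ?_ ?_; assumption) | (with_reducible refine IntF.comp₃ ?_ ?_ ?_ ?_; assumption) | with_reducible apply IntF.inl | with_reducible apply IntF.inr | with_reducible apply IntF.pair)))]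

/-- The block of an element. -/
noncomputable def blk1 (r : FEq M α) (x : α) : IPow M α := sep M fun y => (x, y) ∈ r.1

theorem mem_blk1 {r : FEq M α} {x y : α} : y ∈ blk1 r x ↔ (x, y) ∈ r.1 := by
  unfold blk1
  rw [mem_sep (by (repeat' (first | with_reducible exact IntF.id | with_reducible exact IntF.fst' | with_reducible exact IntF.snd' | with_reducible exact IntF.const _ | with_reducible exact Int.const _ | assumption | with_reducible apply Int.and | with_reducible apply Int.or | with_reducible apply Int.not | with_reducible apply Int.imp | with_reducible apply Int.iff | with_reducible apply Int.ne | with_reducible apply Int.eq | with_reducible apply Int.mem | with_reducible apply Int.subset | with_reducible apply Int.ltN | with_reducible apply Int.leN | with_reducible apply Int.fin | with_reducible apply Int.unique | with_reducible apply Int.all | with_reducible apply Int.ex | with_reducible apply IntF.fst | with_reducible apply IntF.snd | with_reducible apply IntF.app | with_reducible apply IntF.ite | with_reducible apply IntF.sep | with_reducible apply IntF.lam | with_reducible apply IntF.insert | with_reducible apply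 IntF.singleton | with_reducible apply IntF.union | with_reducible apply IntF.inter | with_reducible apply IntF.sdiff | with_reducible apply IntF.isUnion | with_reducible apply IntF.iimage | with_reducible apply IntF.the | with_reducible apply IntF.irec | with_reducible_and_instances apply IntF.add | with_reducible_and_instances apply IntF.mul | with_reducible apply IntF.succ | with_reducible apply IntF.val | (with_reducible refine Int.comp ?_ ?_; assumption) | (with_reducible refine Int.comp₂ ?_ ?_ ?_; assumption) | (with_reducible refine Int.comp₃ ?_ ?_ ?_ ?_; assumption) | (with_reducible refine Int.comp₄ ?_ ?_ ?_ ?_ ?_; assumption) | (with_reducible refine IntF.comp ?_ ?_; assumption) | (with_reducible refine IntF.comp₂ ?_ ?_ ?_; assumption) | (with_reducible refine IntF.comp₃ ?_ ?_ ?_ ?_; assumption) | with_reducible apply IntF.inl | with_reducible apply IntF.inr | with_reducible apply IntF.pair)))]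

theorem blk1_mem (r : FEq M α) (x : α) : blk1 r x ∈ toPt r :=
  mem_toPt.2 ⟨x, fun _ => mem_blk1⟩

theorem toPt_inj {r r' : FEq M α} (h : toPt r = toPt r') : r = r' := by
  have key : ∀ r r' : FEq M α, toPt r = toPt r' → ∀ x y, (x, y) ∈ r.1 → (x, y) ∈ r'.1 := by
    intro r r' h x y hxy
    have h1 := blk1_mem r x
    rw [h, mem_toPt] at h1
    obtain ⟨z, hz⟩ := h1
    have h2 : (z, x) ∈ r'.1 := (hz x).1 (mem_blk1.2 (r.2.1 x))
    have h3 : (z, y) ∈ r'.1 := (hz y).1 (mem_blk1.2 hxy)
    exact r'.2.2.2.1 _ _ _ (r'.2.2.1 _ _ h2) h3
  exact FEq.ext fun x y => ⟨key r r' h x y, key r' r h.symm x y⟩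

theorem int_isPt : Int M (fun P : IPow M (IPow M α) => ∃ r : FEq M α, toPt r = P) := by
  have h := int_toPt (M := M) (α := α)
  (repeat' (first | with_reducible exact IntF.id | with_reducible exact IntF.fst' | with_reducible exact IntF.snd' | with_reducible exact IntF.const _ | with_reducible exact Int.const _ | assumption | with_reducible apply Int.and | with_reducible apply Int.or | with_reducible apply Int.not | with_reducible apply Int.imp | with_reducible apply Int.iff | with_reducible apply Int.ne | with_reducible apply Int.eq | with_reducible apply Int.mem | with_reducible apply Int.subset | with_reducible apply Int.ltN | with_reducible apply Int.leN | with_reducible apply Int.fin | with_reducible apply Int.unique | with_reducible apply Int.all | with_reducible apply Int.ex | with_reducible apply IntF.fst | with_reducible apply IntF.snd | with_reducible apply IntF.app | with_reducible apply IntF.ite | with_reducible apply IntF.sep | with_reducible apply IntF.lam | with_reducible apply IntF.insert | with_reducible apply IntF.singleton | with_reducible apply IntF.union | with_reducible apply IntF.inter | with_reducible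 apply IntF.sdiff | with_reducible apply IntF.isUnion | with_reducible apply IntF.iimage | with_reducible apply IntF.the | with_reducible apply IntF.irec | with_reducible_and_instances apply IntF.add | with_reducible_and_instances apply IntF.mul | with_reducible apply IntF.succ | with_reducible apply IntF.val | (with_reducible refine Int.comp ?_ ?_; assumption) | (with_reducible refine Int.comp₂ ?_ ?_ ?_; assumption) | (with_reducible refine Int.comp₃ ?_ ?_ ?_ ?_; assumption) | (with_reducible refine Int.comp₄ ?_ ?_ ?_ ?_ ?_; assumption) | (with_reducible refine IntF.comp ?_ ?_; assumption) | (with_reducible refine IntF.comp₂ ?_ ?_ ?_; assumption) | (with_reducible refine IntF.comp₃ ?_ ?_ ?_ ?_; assumption) | with_reducible apply IntF.inl | with_reducible apply IntF.inr | with_reducible apply IntF.pair))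

instance instFactPt : Fact (Int M (fun P : IPow M (IPow M α) => ∃ r : FEq M α, toPt r = P)) :=
  ⟨int_isPt⟩

variable (M α) in
/-- The type of finitary partitions. -/
abbrev Pt : Type _ := {P : IPow M (IPow M α) // ∃ r : FEq M α, toPt r = P}

/-- The partition. -/
noncomputable def ptOf (r : FEq M α) : Pt M α := ⟨toPt r, r, rfl⟩

theorem int_ptOf : IntF M (fun r : FEq M α => ptOf r) := by
  have h := int_toPt (M := M) (α := α)
  exact IntF.mk h

theorem ptOf_inj {r r' : FEq M α} (h : ptOf r = ptOf r') : r = r' :=
  toPt_inj (congrArg Subtype.val h)

end

section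

attribute [local instance] Helper672.Plain.toL

variable {M : Type u} [Helper672.Plain.LSet.Structure M] [hZ : Helper672.Plain.Zermelo M]
variable {α : Type u₁} {β : Type u₂}

local instance instModelL2 : IsModel M := Helper672.Plain.isModel_toL

variable [ITy M α] [ITy M β]

theorem mem_codeP {s : IPow M α} {z : M} :
    Helper672.Plain.Mem z (code (M := M) s) ↔ ∃ a, a ∈ s ∧ code a = z := mem_code_pow (s := s)

/-- Internally finite sets are in bijection with a natural number. -/
theorem isFinite_code {s : IPow M α} (hs : IFin s) : IsFinite (code (M := M) s) := by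
  obtain ⟨e, n, h2, h3, h4⟩ := exists_BN hs
  have hI : Int M (fun q : α × INat M => q.1 ∈ s ∧ e q.1 = q.2) := by (repeat' (first | with_reducible exact IntF.id | with_reducible exact IntF.fst' | with_reducible exact IntF.snd' | with_reducible exact IntF.const _ | with_reducible exact Int.const _ | assumption | with_reducible apply Int.and | with_reducible apply Int.or | with_reducible apply Int.not | with_reducible apply Int.imp | with_reducible apply Int.iff | with_reducible apply Int.ne | with_reducible apply Int.eq | with_reducible apply Int.mem | with_reducible apply Int.subset | with_reducible apply Int.ltN | with_reducible apply Int.leN | with_reducible apply Int.fin | with_reducible apply Int.unique | with_reducible apply Int.all | with_reducible apply Int.ex | with_reducible apply IntF.fst | with_reducible apply IntF.snd | with_reducible apply IntF.app | with_reducible apply IntF.ite | with_reducible apply IntF.sep | with_reducible apply IntF.lam | with_reducible apply IntF.insert | with_reducible apply IntF.singleton | with_reducible apply IntF.union | with_reducible apply IntF.inter | with_reducible apply IntF.sdiff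 | with_reducible apply IntF.isUnion | with_reducible apply IntF.iimage | with_reducible apply IntF.the | with_reducible apply IntF.irec | with_reducible_and_instances apply IntF.add | with_reducible_and_instances apply IntF.mul | with_reducible apply IntF.succ | with_reducible apply IntF.val | (with_reducible refine Int.comp ?_ ?_; assumption) | (with_reducible refine Int.comp₂ ?_ ?_ ?_; assumption) | (with_reducible refine Int.comp₃ ?_ ?_ ?_ ?_; assumption) | (with_reducible refine Int.comp₄ ?_ ?_ ?_ ?_ ?_; assumption) | (with_reducible refine IntF.comp ?_ ?_; assumption) | (with_reducible refine IntF.comp₂ ?_ ?_ ?_; assumption) | (with_reducible refine IntF.comp₃ ?_ ?_ ?_ ?_; assumption) | with_reducible apply IntF.inl | with_reducible apply IntF.inr | with_reducible apply IntF.pair))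
  have hg : ∀ x y : M, App (code (M := M) (sep M fun q : α × INat M => q.1 ∈ s ∧ e q.1 = q.2)) x y ↔
      ∃ a : α, a ∈ s ∧ code a = x ∧ code (e a) = y := by
    intro x y
    refine app_iff.trans ((mem_code_pow (s := sep M fun q : α × INat M => q.1 ∈ s ∧ e q.1 = q.2)).trans ⟨?_, ?_⟩)
    · rintro ⟨q, hq, h⟩
      obtain ⟨h5, h6⟩ := (mem_sep hI).1 hq
      obtain ⟨h7, h8⟩ := op_inj (show op (code (M := M) q.1) (code q.2) = op x y from h)
      exact ⟨q.1, h5, h7, by rw [h6]; exact h8⟩
    · rintro ⟨a, h5, rfl, rfl⟩
      exact ⟨(a, e a), (mem_sep hI).2 ⟨h5, rfl⟩, rfl⟩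
  refine ⟨n.val, code (M := M) (sep M fun q : α × INat M => q.1 ∈ s ∧ e q.1 = q.2),
    fun i hi => n.prop i (ind_iff.2 hi), ⟨⟨?_, ?_⟩, ?_⟩, ?_⟩
  · intro q hq
    obtain ⟨⟨a, m⟩, h5, rfl⟩ := mem_codeP.1 hq
    obtain ⟨h6, h7⟩ := (mem_sep hI).1 h5
    refine ⟨code a, code m, mem_codeP.2 ⟨a, h6, rfl⟩, ?_, ordPair_iff.2 rfl⟩
    have h8 : e a = m := h7
    rw [← h8]
    exact h2 a h6
  · intro x hx
    obtain ⟨a, ha, rfl⟩ := mem_codeP.1 hx
    refine ⟨code (e a), (hg _ _).2 ⟨a, ha, rfl, rfl⟩, fun y hy => ?_⟩
    obtain ⟨b, _, h5, h6⟩ := (hg _ _).1 hy
    rw [← h6, ITy.inj h5]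
  · intro x x' y h5 h6
    obtain ⟨b, hb, rfl, h7⟩ := (hg _ _).1 h5
    obtain ⟨c, hc, rfl, h8⟩ := (hg _ _).1 h6
    rw [h3 b c hb hc (ITy.inj (h7.trans h8.symm))]
  · intro y hy
    obtain ⟨m, h5, rfl⟩ := mem_nat (n := n) hy
    obtain ⟨b, hb, rfl⟩ := h4 m h5
    exact ⟨code b, (hg _ _).2 ⟨b, hb, rfl, rfl⟩⟩

theorem pt_isFinPartition {a : M} (P : Pt M (El a)) : IsFinPartition (code P) a := by
  obtain ⟨P, r, rfl⟩ := P
  have hm : ∀ z : M, Mem z (code (M := M) (toPt r)) ↔ ∃ x : El a, code (blk1 r x) = z := by
    intro z
    refine (mem_code_pow (s := toPt r)).trans ⟨?_, ?_⟩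
    · rintro ⟨s, hs, rfl⟩
      obtain ⟨x, hx⟩ := mem_toPt.1 hs
      refine ⟨x, ?_⟩
      congr 1
      exact IPow.ext' fun y => mem_blk1.trans (hx y).symm
    · rintro ⟨x, rfl⟩
      exact ⟨_, blk1_mem r x, rfl⟩
  refine ⟨fun s hs => ?_, fun s t hs ht hst => ?_, fun x hx => ?_⟩
  · obtain ⟨x, rfl⟩ := (hm s).1 hs
    refine ⟨⟨code x, mem_codeP.2 ⟨x, mem_blk1.2 (r.2.1 x), rfl⟩⟩, fun y hy => ?_,
      isFinite_code (r.2.2.2.2 x)⟩
    obtain ⟨z, _, rfl⟩ := mem_codeP.1 hy
    exact z.2
  · obtain ⟨x, rfl⟩ := (hm s).1 hs
    obtain ⟨y, rfl⟩ := (hm t).1 ht
    rintro ⟨z, hz, hz'⟩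
    obtain ⟨w, hw, rfl⟩ := mem_codeP.1 hz
    obtain ⟨w', hw', h⟩ := mem_codeP.1 hz'
    obtain rfl := ITy.inj h
    rw [mem_blk1] at hw hw'
    refine hst ?_
    congr 1
    refine IPow.ext' fun u => ?_
    rw [mem_blk1, mem_blk1]
    constructor
    · intro h
      exact r.2.2.2.1 _ _ _ (r.2.2.2.1 _ _ _ hw' (r.2.2.1 _ _ hw)) h
    · intro h
      exact r.2.2.2.1 _ _ _ (r.2.2.2.1 _ _ _ hw (r.2.2.1 _ _ hw')) h
  · exact ⟨code (blk1 r ⟨x, hx⟩), (hm _).2 ⟨_, rfl⟩,
      mem_codeP.2 ⟨⟨x, hx⟩, mem_blk1.2 (r.2.1 _), rfl⟩⟩

/-- The partitions as elements of the set of all finitary partitions. -/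
noncomputable def ptEl0 {a b : M} (hb : IsFinPartitionSet b a) (P : Pt M (El a)) : El b :=
  ⟨code (M := M) P, (hb _).2 (pt_isFinPartition _)⟩

/-- The partitions as elements of the set of all finitary partitions. -/
noncomputable def ptEl {a b : M} (hb : IsFinPartitionSet b a) (r : FEq M (El a)) : El b :=
  ptEl0 hb (ptOf r)

theorem int_ptEl0 {a b : M} (hb : IsFinPartitionSet b a) :
    IntF M (fun P : Pt M (El a) => ptEl0 hb P) := by
  refine IntF.of_D (S := fun v => v 0 = v 1) (D.eqf (DF.var _) (DF.var _)) fun P x => ?_
  exact ⟨fun h => Subtype.ext h, fun h => congrArg Subtype.val h⟩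

theorem int_ptEl {a b : M} (hb : IsFinPartitionSet b a) :
    IntF M (fun r : FEq M (El a) => ptEl hb r) := by
  have h0 := int_ptEl0 hb
  have h1 := int_ptOf (M := M) (α := El a)
  unfold ptEl
  (repeat' (first | with_reducible exact IntF.id | with_reducible exact IntF.fst' | with_reducible exact IntF.snd' | with_reducible exact IntF.const _ | with_reducible exact Int.const _ | assumption | with_reducible apply Int.and | with_reducible apply Int.or | with_reducible apply Int.not | with_reducible apply Int.imp | with_reducible apply Int.iff | with_reducible apply Int.ne | with_reducible apply Int.eq | with_reducible apply Int.mem | with_reducible apply Int.subset | with_reducible apply Int.ltN | with_reducible apply Int.leN | with_reducible apply Int.fin | with_reducible apply Int.unique | with_reducible apply Int.all | with_reducible apply Int.ex | with_reducible apply IntF.fst | with_reducible apply IntF.snd | with_reducible apply IntF.app | with_reducible apply IntF.ite | with_reducible apply IntF.sep | with_reducible apply IntF.lam | with_reducible apply IntF.insert | with_reducible apply IntF.singleton | with_reducible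 apply IntF.union | with_reducible apply IntF.inter | with_reducible apply IntF.sdiff | with_reducible apply IntF.isUnion | with_reducible apply IntF.iimage | with_reducible apply IntF.the | with_reducible apply IntF.irec | with_reducible_and_instances apply IntF.add | with_reducible_and_instances apply IntF.mul | with_reducible apply IntF.succ | with_reducible apply IntF.val | (with_reducible refine Int.comp ?_ ?_; assumption) | (with_reducible refine Int.comp₂ ?_ ?_ ?_; assumption) | (with_reducible refine Int.comp₃ ?_ ?_ ?_ ?_; assumption) | (with_reducible refine Int.comp₄ ?_ ?_ ?_ ?_ ?_; assumption) | (with_reducible refine IntF.comp ?_ ?_; assumption) | (with_reducible refine IntF.comp₂ ?_ ?_ ?_; assumption) | (with_reducible refine IntF.comp₃ ?_ ?_ ?_ ?_; assumption) | with_reducible apply IntF.inl | with_reducible apply IntF.inr | with_reducible apply IntF.pair))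

theorem ptEl_inj {a b : M} (hb : IsFinPartitionSet b a) {r r' : FEq M (El a)}
    (h : ptEl hb r = ptEl hb r') : r = r' :=
  ptOf_inj (ITy.inj (M := M) (congrArg Subtype.val h))

end

end Pool.Agent.R596
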