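import Pool.Agent.R596.AmJ
import Pool.Agent.R596.AmDefs
import Pool.Agent.R596.FPBridge

/-!
# From internal types to elements of the model
-/

set_option autoImplicit false
set_option linter.all false
set_option maxHeartbeats 400000

namespace Pool.Agent.R596.AM

open FirstOrder FirstOrder.Language
open Pool.Agent.Helper672.ZFA
open Pool.Agent.H310
open Pool.Agent.H310Cards
open Pool.Agent.R596Amorphous

universe u u₁ u₂ u₃ u₄

section

variable {M : Type u} [L.Structure M] [hM : IsModel M]
variable {α : Type u₁} {β : Type u₂} {κ : Type u₃} [ITy M α] [ITy M β] [ITy M κ]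

variable (M α) in
/-- Dually Dedekind finite internal types. -/
def DDF : Prop := ∀ φ : α → α, IntF M φ → (∀ y, ∃ x, φ x = y) → ∀ x x', φ x = φ x' → x = x'

theorem DDF.tr (h : DDF M α) {i : α → β} {j : β → α} (hi : IntF M i) (hj : IntF M j)
    (hij : ∀ x, j (i x) = x) (hji : ∀ y, i (j y) = y) : DDF M β := by
  intro φ hφ hs y y' hyy
  have h1 := h (fun x => j (φ (i x))) ((hj.comp hφ).comp hi) (fun x => by
    obtain ⟨y, hy⟩ := hs (i x)
    exact ⟨j y, by beta_reduce; rw [hji, hy, hij]⟩) (j y) (j y') (by
      beta_reduce
      rw [hji, hji, hyy])
  rw [← hji y, ← hji y', h1]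

/-- The main result for internal types. -/
theorem exists_nDg (hA : Am M α) (hκ : FinP M (fun _ : κ => True))
    (h : ¬ DDF M (IPow M (α × κ))) :
    ∃ F : IFun M (IPow M (α × κ)) (IPow M (α × κ)), ¬ Dg F := by
  unfold DDF at h
  push Not at h
  obtain ⟨φ, hφ, hs, x, x', h1, h2⟩ := h
  exact ⟨⟨φ, hφ⟩, not_Dg hA hκ hs ⟨x, x', h1, h2⟩⟩

theorem main_int (hA : Am M α) (hκ : FinP M (fun _ : κ => True)) (h : DDF M (IPow M α)) :
    DDF M (IPow M (α × κ)) := by
  by_contra h1
  obtain ⟨F, hF⟩ := exists_nDg hA hκ h1
  obtain ⟨H, hH, hs, x, x', h2, h3⟩ := pow_DDI hA hκ hF
  exact h3 (h H hH hs x x' h2)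

/-- Currying. -/
noncomputable def cur (x : IPow M (α × κ)) : IFun M κ (IPow M α) :=
  lam M fun j => sep M fun a => (a, j) ∈ x

/-- Uncurrying. -/
noncomputable def unc (f : IFun M κ (IPow M α)) : IPow M (α × κ) := sep M fun q => q.1 ∈ f q.2

theorem int_cur : IntF M (fun x : IPow M (α × κ) => cur x) := by
  unfold cur
  (repeat' (first | with_reducible exact IntF.id | with_reducible exact IntF.fst' | with_reducible exact IntF.snd' | with_reducible exact IntF.const _ | with_reducible exact Int.const _ | assumption | with_reducible apply Int.and | with_reducible apply Int.or | with_reducible apply Int.not | with_reducible apply Int.imp | with_reducible apply Int.iff | with_reducible apply Int.ne | with_reducible apply Int.eq | with_reducible apply Int.mem | with_reducible apply Int.subset | with_reducible apply Int.ltN | with_reducible apply Int.leN | with_reducible apply Int.fin | with_reducible apply Int.unique | with_reducible apply Int.all | with_reducible apply Int.ex | with_reducible apply IntF.fst | with_reducible apply IntF.snd | with_reducible apply IntF.app | with_reducible apply IntF.ite | with_reducible apply IntF.sep | with_reducible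 apply IntF.lam | with_reducible apply IntF.insert | with_reducible apply IntF.singleton | with_reducible apply IntF.union | with_reducible apply IntF.inter | with_reducible apply IntF.sdiff | with_reducible apply IntF.isUnion | with_reducible apply IntF.iimage | with_reducible apply IntF.the | with_reducible apply IntF.irec | with_reducible_and_instances apply IntF.add | with_reducible_and_instances apply IntF.mul | with_reducible apply IntF.succ | with_reducible apply IntF.val | (with_reducible refine Int.comp ?_ ?_; assumption) | (with_reducible refine Int.comp₂ ?_ ?_ ?_; assumption) | (with_reducible refine Int.comp₃ ?_ ?_ ?_ ?_; assumption) | (with_reducible refine Int.comp₄ ?_ ?_ ?_ ?_ ?_; assumption) | (with_reducible refine IntF.comp ?_ ?_; assumption) | (with_reducible refine IntF.comp₂ ?_ ?_ ?_; assumption) | (with_reducible refine IntF.comp₃ ?_ ?_ ?_ ?_; assumption) | with_reducible apply IntF.inl | with_reducible apply IntF.inr | with_reducible apply IntF.pair))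

theorem int_unc : IntF M (fun f : IFun M κ (IPow M α) => unc f) := by
  unfold unc
  (repeat' (first | with_reducible exact IntF.id | with_reducible exact IntF.fst' | with_reducible exact IntF.snd' | with_reducible exact IntF.const _ | with_reducible exact Int.const _ | assumption | with_reducible apply Int.and | with_reducible apply Int.or | with_reducible apply Int.not | with_reducible apply Int.imp | with_reducible apply Int.iff | with_reducible apply Int.ne | with_reducible apply Int.eq | with_reducible apply Int.mem | with_reducible apply Int.subset | with_reducible apply Int.ltN | with_reducible apply Int.leN | with_reducible apply Int.fin | with_reducible apply Int.unique | with_reducible apply Int.all | with_reducible apply Int.ex | with_reducible apply IntF.fst | with_reducible apply IntF.snd | with_reducible apply IntF.app | with_reducible apply IntF.ite | with_reducible apply IntF.sep | with_reducible apply IntF.lam | with_reducible apply IntF.insert | with_reducible apply IntF.singleton | with_reducible apply IntF.union | with_reducible apply IntF.inter | with_reducible apply IntF.sdiff | with_reducible apply IntF.isUnion |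 with_reducible apply IntF.iimage | with_reducible apply IntF.the | with_reducible apply IntF.irec | with_reducible_and_instances apply IntF.add | with_reducible_and_instances apply IntF.mul | with_reducible apply IntF.succ | with_reducible apply IntF.val | (with_reducible refine Int.comp ?_ ?_; assumption) | (with_reducible refine Int.comp₂ ?_ ?_ ?_; assumption) | (with_reducible refine Int.comp₃ ?_ ?_ ?_ ?_; assumption) | (with_reducible refine Int.comp₄ ?_ ?_ ?_ ?_ ?_; assumption) | (with_reducible refine IntF.comp ?_ ?_; assumption) | (with_reducible refine IntF.comp₂ ?_ ?_ ?_; assumption) | (with_reducible refine IntF.comp₃ ?_ ?_ ?_ ?_; assumption) | with_reducible apply IntF.inl | with_reducible apply IntF.inr | with_reducible apply IntF.pair))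

theorem cur_apply {x : IPow M (α × κ)} {j : κ} {a : α} : a ∈ cur x j ↔ (a, j) ∈ x := by
  unfold cur
  rw [lam_apply (by (repeat' (first | with_reducible exact IntF.id | with_reducible exact IntF.fst' | with_reducible exact IntF.snd' | with_reducible exact IntF.const _ | with_reducible exact Int.const _ | assumption | with_reducible apply Int.and | with_reducible apply Int.or | with_reducible apply Int.not | with_reducible apply Int.imp | with_reducible apply Int.iff | with_reducible apply Int.ne | with_reducible apply Int.eq | with_reducible apply Int.mem | with_reducible apply Int.subset | with_reducible apply Int.ltN | with_reducible apply Int.leN | with_reducible apply Int.fin | with_reducible apply Int.unique | with_reducible apply Int.all | with_reducible apply Int.ex | with_reducible apply IntF.fst | with_reducible apply IntF.snd | with_reducible apply IntF.app | with_reducible apply IntF.ite | with_reducible apply IntF.sep | with_reducible apply IntF.lam | with_reducible apply IntF.insert | with_reducible apply IntF.singleton | with_reducible apply IntF.union | with_reducible apply IntF.inter | with_reducible apply IntF.sdiff |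 with_reducible apply IntF.isUnion | with_reducible apply IntF.iimage | with_reducible apply IntF.the | with_reducible apply IntF.irec | with_reducible_and_instances apply IntF.add | with_reducible_and_instances apply IntF.mul | with_reducible apply IntF.succ | with_reducible apply IntF.val | (with_reducible refine Int.comp ?_ ?_; assumption) | (with_reducible refine Int.comp₂ ?_ ?_ ?_; assumption) | (with_reducible refine Int.comp₃ ?_ ?_ ?_ ?_; assumption) | (with_reducible refine Int.comp₄ ?_ ?_ ?_ ?_ ?_; assumption) | (with_reducible refine IntF.comp ?_ ?_; assumption) | (with_reducible refine IntF.comp₂ ?_ ?_ ?_; assumption) | (with_reducible refine IntF.comp₃ ?_ ?_ ?_ ?_; assumption) | with_reducible apply IntF.inl | with_reducible apply IntF.inr | with_reducible apply IntF.pair))), mem_sep (by (repeat' (first | with_reducible exact IntF.id | with_reducible exact IntF.fst' | with_reducible exact IntF.snd' | with_reducible exact IntF.const _ | with_reducible exact Int.const _ | assumption | with_reducible apply Int.and | with_reducible apply Int.or | with_reducible apply Int.not | with_reducible apply Int.imp | with_reducible apply Int.iff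 | with_reducible apply Int.ne | with_reducible apply Int.eq | with_reducible apply Int.mem | with_reducible apply Int.subset | with_reducible apply Int.ltN | with_reducible apply Int.leN | with_reducible apply Int.fin | with_reducible apply Int.unique | with_reducible apply Int.all | with_reducible apply Int.ex | with_reducible apply IntF.fst | with_reducible apply IntF.snd | with_reducible apply IntF.app | with_reducible apply IntF.ite | with_reducible apply IntF.sep | with_reducible apply IntF.lam | with_reducible apply IntF.insert | with_reducible apply IntF.singleton | with_reducible apply IntF.union | with_reducible apply IntF.inter | with_reducible apply IntF.sdiff | with_reducible apply IntF.isUnion | with_reducible apply IntF.iimage | with_reducible apply IntF.the | with_reducible apply IntF.irec | with_reducible_and_instances apply IntF.add | with_reducible_and_instances apply IntF.mul | with_reducible apply IntF.succ | with_reducible apply IntF.val | (with_reducible refine Int.comp ?_ ?_; assumption) | (with_reducible refine Int.comp₂ ?_ ?_ ?_; assumption) | (with_reducible refine Int.comp₃ ?_ ?_ ?_ ?_; assumption) | (with_reducible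 refine Int.comp₄ ?_ ?_ ?_ ?_ ?_; assumption) | (with_reducible refine IntF.comp ?_ ?_; assumption) | (with_reducible refine IntF.comp₂ ?_ ?_ ?_; assumption) | (with_reducible refine IntF.comp₃ ?_ ?_ ?_ ?_; assumption) | with_reducible apply IntF.inl | with_reducible apply IntF.inr | with_reducible apply IntF.pair)))]

theorem mem_unc {f : IFun M κ (IPow M α)} {q : α × κ} : q ∈ unc f ↔ q.1 ∈ f q.2 := by
  unfold unc
  rw [mem_sep (by (repeat' (first | with_reducible exact IntF.id | with_reducible exact IntF.fst' | with_reducible exact IntF.snd' | with_reducible exact IntF.const _ | with_reducible exact Int.const _ | assumption | with_reducible apply Int.and | with_reducible apply Int.or | with_reducible apply Int.not | with_reducible apply Int.imp | with_reducible apply Int.iff | with_reducible apply Int.ne | with_reducible apply Int.eq | with_reducible apply Int.mem | with_reducible apply Int.subset | with_reducible apply Int.ltN | with_reducible apply Int.leN | with_reducible apply Int.fin | with_reducible apply Int.unique | with_reducible apply Int.all | with_reducible apply Int.ex | with_reducible apply IntF.fst | with_reducible apply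 IntF.snd | with_reducible apply IntF.app | with_reducible apply IntF.ite | with_reducible apply IntF.sep | with_reducible apply IntF.lam | with_reducible apply IntF.insert | with_reducible apply IntF.singleton | with_reducible apply IntF.union | with_reducible apply IntF.inter | with_reducible apply IntF.sdiff | with_reducible apply IntF.isUnion | with_reducible apply IntF.iimage | with_reducible apply IntF.the | with_reducible apply IntF.irec | with_reducible_and_instances apply IntF.add | with_reducible_and_instances apply IntF.mul | with_reducible apply IntF.succ | with_reducible apply IntF.val | (with_reducible refine Int.comp ?_ ?_; assumption) | (with_reducible refine Int.comp₂ ?_ ?_ ?_; assumption) | (with_reducible refine Int.comp₃ ?_ ?_ ?_ ?_; assumption) | (with_reducible refine Int.comp₄ ?_ ?_ ?_ ?_ ?_; assumption) | (with_reducible refine IntF.comp ?_ ?_; assumption) | (with_reducible refine IntF.comp₂ ?_ ?_ ?_; assumption) | (with_reducible refine IntF.comp₃ ?_ ?_ ?_ ?_; assumption) | with_reducible apply IntF.inl | with_reducible apply IntF.inr | with_reducible apply IntF.pair)))]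

theorem cur_unc (f : IFun M κ (IPow M α)) : cur (unc f) = f :=
  IFun.ext' fun j => IPow.ext' fun a => by rw [cur_apply, mem_unc]

theorem unc_cur (x : IPow M (α × κ)) : unc (cur x) = x :=
  IPow.ext' fun q => by rw [mem_unc, cur_apply]

end

section

attribute [local instance] Helper672.Plain.toL

variable {M : Type u} [Helper672.Plain.LSet.Structure M] [hZ : Helper672.Plain.Zermelo M]
variable {α : Type u₁} {β : Type u₂}

local instance instModelL5 : IsModel M := Helper672.Plain.isModel_toL

variable [ITy M α] [ITy M β]

/-- Dually Dedekind finite sets of the model. -/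
theorem ddf_iff {q : M} (hq : ∀ z, Helper672.Plain.Mem z q ↔ ∃ y : α, code y = z) :
    IsDuallyDedekindFinite q ↔ DDF M α := by
  constructor
  · intro h φ hφ hs x x' hxx
    have h1 : IsFun (code (M := M) (⟨φ, hφ⟩ : IFun M α α)) q q :=
      isFun_code _ hq fun a => (hq _).2 ⟨_, rfl⟩
    have h2 := h _ h1 (by
      intro y hy
      obtain ⟨b, rfl⟩ := (hq y).1 hy
      obtain ⟨a, rfl⟩ := hs b
      exact ⟨code a, app_code.2 ⟨a, rfl, rfl⟩⟩)
    refine ITy.inj (h2.2 (code x) (code x') (code (φ x)) (app_code.2 ⟨x, rfl, rfl⟩) ?_)
    exact app_code.2 ⟨x', rfl, by rw [show (⟨φ, hφ⟩ : IFun M α α) x' = φ x' from rfl, hxx]⟩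
  · intro h f hf hs
    obtain ⟨φ, hφ, hφ'⟩ := exists_fun (α := α) (β := α) hf (fun x => (hq _).2 ⟨x, rfl⟩)
      (fun z hz => (hq z).1 hz)
    refine ⟨hf, fun x x' y hx hx' => ?_⟩
    have hmem : ∀ x y, App f x y → Helper672.Plain.Mem x q ∧ Helper672.Plain.Mem y q := by
      intro x y hxy
      obtain ⟨r, h1, h2⟩ := hxy
      obtain ⟨x1, y1, h3, h4, h5⟩ := hf.1 r h2
      obtain ⟨rfl, rfl⟩ := op_inj ((ordPair_iff.1 h1).symm.trans (ordPair_iff.1 h5))
      exact ⟨h3, h4⟩
    obtain ⟨a, rfl⟩ := (hq x).1 (hmem _ _ hx).1
    obtain ⟨a', rfl⟩ := (hq x').1 (hmem _ _ hx').1
    obtain ⟨b, rfl⟩ := (hq y).1 (hmem _ _ hx).2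
    rw [h φ hφ (fun y => by
      obtain ⟨z, hz⟩ := hs (code y) ((hq _).2 ⟨y, rfl⟩)
      obtain ⟨c, rfl⟩ := (hq z).1 (hmem _ _ hz).1
      exact ⟨c, (hφ' _ _).2 hz⟩) a a' (((hφ' a b).2 hx).trans ((hφ' a' b).2 hx').symm)]

/-- Amorphous sets of the model. -/
theorem am_of {a : M} (h : IsAmorphous a) : Am M (El a) := by
  refine ⟨not_finP (fun z => mem_El) h.1, fun p hp => ?_⟩
  by_contra h1
  rw [not_or] at h1
  refine h.2 ⟨hp.small.elt, hp.not.small.elt, fun z => ?_, ?_, fun h2 => h1.1 ?_, fun h2 => h1.2 ?_⟩
  · constructor
    · intro hz
      obtain ⟨x, rfl⟩ := mem_El.1 hz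
      by_cases hx : p x
      · exact Or.inl (hp.small.mem.2 ⟨x, hx, rfl⟩)
      · exact Or.inr (hp.not.small.mem.2 ⟨x, hx, rfl⟩)
    · rintro (hz | hz)
      · obtain ⟨x, _, rfl⟩ := hp.small.mem.1 hz
        exact mem_El.2 ⟨x, rfl⟩
      · obtain ⟨x, _, rfl⟩ := hp.not.small.mem.1 hz
        exact mem_El.2 ⟨x, rfl⟩
  · rintro ⟨z, hz, hz'⟩
    obtain ⟨x, hx, rfl⟩ := hp.small.mem.1 hz
    obtain ⟨x', hx', he⟩ := hp.not.small.mem.1 hz'
    rw [ITy.inj he] at hx'
    exact hx' hx
  · exact finP_of_finite (t := hp.small.elt) hp (fun z => hp.small.mem) h2
  · exact finP_of_finite (t := hp.not.small.elt) hp.not (fun z => hp.not.small.mem) h2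

end

end Pool.Agent.R596.AM
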