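import Pool.Agent.R596.AmK

/-!
# Finite powers of the power set
-/

set_option autoImplicit false
set_option linter.all false
set_option maxHeartbeats 400000

namespace Pool.Agent.R596.AM

open FirstOrder FirstOrder.Language
open Pool.Agent.Helper672.ZFA
open Pool.Agent.H310
open Pool.Agent.H310Cards
open Pool.Agent.R596Amorphous

universe u u₁ u₂ u₃ u₄

section

variable {M : Type u} [L.Structure M] [hM : IsModel M]

theorem int_lt_n (n : INat M) : Int M (fun m : INat M => m < n) := by (repeat' (first | with_reducible exact IntF.id | with_reducible exact IntF.fst' | with_reducible exact IntF.snd' | with_reducible exact IntF.const _ | with_reducible exact Int.const _ | assumption | with_reducible apply Int.and | with_reducible apply Int.or | with_reducible apply Int.not | with_reducible apply Int.imp | with_reducible apply Int.iff | with_reducible apply Int.ne | with_reducible apply Int.eq | with_reducible apply Int.mem | with_reducible apply Int.subset | with_reducible apply Int.ltN | with_reducible apply Int.leN | with_reducible apply Int.fin | with_reducible apply Int.unique | with_reducible apply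 Int.all | with_reducible apply Int.ex | with_reducible apply IntF.fst | with_reducible apply IntF.snd | with_reducible apply IntF.app | with_reducible apply IntF.ite | with_reducible apply IntF.sep | with_reducible apply IntF.lam | with_reducible apply IntF.insert | with_reducible apply IntF.singleton | with_reducible apply IntF.union | with_reducible apply IntF.inter | with_reducible apply IntF.sdiff | with_reducible apply IntF.isUnion | with_reducible apply IntF.iimage | with_reducible apply IntF.the | with_reducible apply IntF.irec | with_reducible_and_instances apply IntF.add | with_reducible_and_instances apply IntF.mul | with_reducible apply IntF.succ | with_reducible apply IntF.val | (with_reducible refine Int.comp ?_ ?_; assumption) | (with_reducible refine Int.comp₂ ?_ ?_ ?_; assumption) | (with_reducible refine Int.comp₃ ?_ ?_ ?_ ?_; assumption) | (with_reducible refine Int.comp₄ ?_ ?_ ?_ ?_ ?_; assumption) | (with_reducible refine IntF.comp ?_ ?_; assumption) | (with_reducible refine IntF.comp₂ ?_ ?_ ?_; assumption) | (with_reducible refine IntF.comp₃ ?_ ?_ ?_ ?_; assumption) | with_reducible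 apply IntF.inl | with_reducible apply IntF.inr | with_reducible apply IntF.pair))

instance instFactLt (n : INat M) : Fact (Int M (fun m : INat M => m < n)) := ⟨int_lt_n n⟩

/-- The type of the natural numbers below `n`. -/
abbrev Kn (n : INat M) : Type _ := {m : INat M // m < n}

theorem fin_Kn (n : INat M) : FinP M (fun _ : Kn n => True) :=
  FinP.of_inj (f := fun x : Kn n => x.1) (Int.const _) IntF.val'
    (fun _ _ _ _ h => Subtype.ext h) (finP_lt n) fun x _ => x.2

end

section

attribute [local instance] Helper672.Plain.toL

variable {M : Type u} [Helper672.Plain.LSet.Structure M] [hZ : Helper672.Plain.Zermelo M]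
variable {α : Type u₁} {β : Type u₂}

local instance instModelL6 : IsModel M := Helper672.Plain.isModel_toL

variable [ITy M α] [ITy M β]

/-- The set of all functions. -/
theorem fun_iff {s t : M} (hs : ∀ z, Helper672.Plain.Mem z s ↔ ∃ x : α, code x = z)
    (ht : ∀ z, Helper672.Plain.Mem z t ↔ ∃ y : β, code y = z) (z : M) :
    IsFun z s t ↔ ∃ f : IFun M α β, code f = z := by
  constructor
  · intro hz
    obtain ⟨φ, hφ, hφ'⟩ := exists_fun (α := α) (β := β) hz (fun x => (hs _).2 ⟨x, rfl⟩)
      (fun z hz => (ht z).1 hz)
    refine ⟨⟨φ, hφ⟩, extM fun r => ?_⟩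
    rw [mem_code_fun]
    constructor
    · rintro ⟨a, rfl⟩
      exact app_iff.1 ((hφ' a (φ a)).1 rfl)
    · intro hr
      obtain ⟨x, y, h1, h2, h3⟩ := hz.1 r hr
      obtain ⟨a, rfl⟩ := (hs x).1 h1
      obtain ⟨b, rfl⟩ := (ht y).1 h2
      have h4 : App z (code a) (code b) := ⟨r, h3, hr⟩
      refine ⟨a, ?_⟩
      rw [ordPair_iff.1 h3]
      exact congrArg (fun t => op (code (M := M) a) (code (M := M) t)) ((hφ' a b).2 h4).symm
  · rintro ⟨f, rfl⟩
    exact isFun_code f hs fun a => (ht _).2 ⟨_, rfl⟩

theorem mem_funSet {s t q : M} (hs : ∀ z, Helper672.Plain.Mem z s ↔ ∃ x : α, code x = z)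
    (ht : ∀ z, Helper672.Plain.Mem z t ↔ ∃ y : β, code y = z)
    (hq : ∀ f, Helper672.Plain.Mem f q ↔ IsFun f s t) (z : M) :
    Helper672.Plain.Mem z q ↔ ∃ f : IFun M α β, code f = z := (hq z).trans (fun_iff hs ht z)

/-- The natural number. -/
def toN {n : M} (hn : IsNat n) : INat M := ⟨n, fun i hi => hn i (ind_iff.1 hi)⟩

theorem mem_toN {n : M} (hn : IsNat n) (z : M) :
    Helper672.Plain.Mem z n ↔ ∃ m : Kn (toN hn), code (M := M) m = z := by
  constructor
  · intro h
    obtain ⟨m, h1, h2⟩ := mem_nat (n := toN hn) h
    exact ⟨⟨m, h1⟩, h2⟩
  · rintro ⟨m, rfl⟩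
    exact m.2

theorem mem_powN {a p n q : M} (hn : IsNat n) (hp : IsPow p a)
    (hq : ∀ f, Helper672.Plain.Mem f q ↔ IsFun f n p) (z : M) :
    Helper672.Plain.Mem z q ↔ ∃ f : IFun M (Kn (toN hn)) (IPow M (El a)), code f = z :=
  mem_funSet (mem_toN hn) (fun _ => mem_pow (fun _ => mem_El) hp) hq z

theorem isPow_unique {p p' a : M} (h : IsPow p a) (h' : IsPow p' a) : p = p' :=
  extM fun z => (h z).trans (h' z).symm

/-- Finite powers of the power set. -/
theorem powN_ddf {a p n q : M} (ha : IsAmorphous a) (hp : IsPow p a) (hn : IsNat n)
    (hq : IsPowN q a n) (h : IsDuallyDedekindFinite p) : IsDuallyDedekindFinite q := by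
  obtain ⟨p', hp', hq'⟩ := hq
  obtain rfl := isPow_unique hp hp'
  have h1 : DDF M (IPow M (El a)) := (ddf_iff (fun z => mem_pow (fun _ => mem_El) hp)).1 h
  have h2 : DDF M (IPow M (El a × Kn (toN hn))) := main_int (am_of ha) (fin_Kn _) h1
  exact (ddf_iff (mem_powN hn hp hq')).2 (h2.tr int_cur int_unc unc_cur cur_unc)

theorem exists_powN (a : M) {n : M} (hn : IsNat n) : ∃ q, IsPowN q a n := by
  obtain ⟨p, hp⟩ := hZ.power a
  have hp' : IsPow p a := hp
  refine ⟨dom M (IFun M (Kn (toN hn)) (IPow M (El a))), p, hp', fun f => ?_⟩
  have h1 : Helper672.Plain.Mem f (dom M (IFun M (Kn (toN hn)) (IPow M (El a)))) ↔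
      ∃ s : IFun M (Kn (toN hn)) (IPow M (El a)), code s = f :=
    mem_dom (M := M) (α := IFun M (Kn (toN hn)) (IPow M (El a))) (z := f)
  exact h1.trans (fun_iff (mem_toN hn) (fun _ => mem_pow (fun _ => mem_El) hp') f).symm

/-- The first power. -/
theorem ddf_one {a : M} {n : M} (hn : IsNat n) (h1 : toN hn = INat.succ 0) {p q : M}
    (hp : IsPow p a) (hq : IsPowN q a n) (h : IsDuallyDedekindFinite q) :
    IsDuallyDedekindFinite p := by
  obtain ⟨p', hp', hq'⟩ := hq
  obtain rfl := isPow_unique hp hp'
  have h2 : DDF M (IFun M (Kn (toN hn)) (IPow M (El a))) :=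
    (ddf_iff (mem_powN hn hp hq')).1 h
  have h0 : (0 : INat M) < toN hn := by
    rw [h1]
    exact INat.lt_succ_self 0
  have hu : ∀ m : Kn (toN hn), m = ⟨0, h0⟩ := by
    rintro ⟨m, hm⟩
    refine Subtype.ext ?_
    rw [h1] at hm
    exact le_antisymm (INat.lt_succ_iff.1 hm) (INat.zero_le m)
  refine (ddf_iff (fun z => mem_pow (fun _ => mem_El) hp)).2 (h2.tr
    (i := fun f : IFun M (Kn (toN hn)) (IPow M (El a)) => f ⟨0, h0⟩)
    (j := fun x => lam M fun _ => x) (by (repeat' (first | with_reducible exact IntF.id | with_reducible exact IntF.fst' | with_reducible exact IntF.snd' | with_reducible exact IntF.const _ | with_reducible exact Int.const _ | assumption | with_reducible apply Int.and | with_reducible apply Int.or | with_reducible apply Int.not | with_reducible apply Int.imp | with_reducible apply Int.iff | with_reducible apply Int.ne | with_reducible apply Int.eq | with_reducible apply Int.mem | with_reducible apply Int.subset | with_reducible apply Int.ltN | with_reducible apply Int.leN | with_reducible apply Int.fin | with_reducible apply Int.unique | with_reducible apply Int.all | with_reducible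 apply Int.ex | with_reducible apply IntF.fst | with_reducible apply IntF.snd | with_reducible apply IntF.app | with_reducible apply IntF.ite | with_reducible apply IntF.sep | with_reducible apply IntF.lam | with_reducible apply IntF.insert | with_reducible apply IntF.singleton | with_reducible apply IntF.union | with_reducible apply IntF.inter | with_reducible apply IntF.sdiff | with_reducible apply IntF.isUnion | with_reducible apply IntF.iimage | with_reducible apply IntF.the | with_reducible apply IntF.irec | with_reducible_and_instances apply IntF.add | with_reducible_and_instances apply IntF.mul | with_reducible apply IntF.succ | with_reducible apply IntF.val | (with_reducible refine Int.comp ?_ ?_; assumption) | (with_reducible refine Int.comp₂ ?_ ?_ ?_; assumption) | (with_reducible refine Int.comp₃ ?_ ?_ ?_ ?_; assumption) | (with_reducible refine Int.comp₄ ?_ ?_ ?_ ?_ ?_; assumption) | (with_reducible refine IntF.comp ?_ ?_; assumption) | (with_reducible refine IntF.comp₂ ?_ ?_ ?_; assumption) | (with_reducible refine IntF.comp₃ ?_ ?_ ?_ ?_; assumption) | with_reducible apply IntF.inl | with_reducible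 apply IntF.inr | with_reducible apply IntF.pair))) (by (repeat' (first | with_reducible exact IntF.id | with_reducible exact IntF.fst' | with_reducible exact IntF.snd' | with_reducible exact IntF.const _ | with_reducible exact Int.const _ | assumption | with_reducible apply Int.and | with_reducible apply Int.or | with_reducible apply Int.not | with_reducible apply Int.imp | with_reducible apply Int.iff | with_reducible apply Int.ne | with_reducible apply Int.eq | with_reducible apply Int.mem | with_reducible apply Int.subset | with_reducible apply Int.ltN | with_reducible apply Int.leN | with_reducible apply Int.fin | with_reducible apply Int.unique | with_reducible apply Int.all | with_reducible apply Int.ex | with_reducible apply IntF.fst | with_reducible apply IntF.snd | with_reducible apply IntF.app | with_reducible apply IntF.ite | with_reducible apply IntF.sep | with_reducible apply IntF.lam | with_reducible apply IntF.insert | with_reducible apply IntF.singleton | with_reducible apply IntF.union | with_reducible apply IntF.inter | with_reducible apply IntF.sdiff | with_reducible apply IntF.isUnion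 | with_reducible apply IntF.iimage | with_reducible apply IntF.the | with_reducible apply IntF.irec | with_reducible_and_instances apply IntF.add | with_reducible_and_instances apply IntF.mul | with_reducible apply IntF.succ | with_reducible apply IntF.val | (with_reducible refine Int.comp ?_ ?_; assumption) | (with_reducible refine Int.comp₂ ?_ ?_ ?_; assumption) | (with_reducible refine Int.comp₃ ?_ ?_ ?_ ?_; assumption) | (with_reducible refine Int.comp₄ ?_ ?_ ?_ ?_ ?_; assumption) | (with_reducible refine IntF.comp ?_ ?_; assumption) | (with_reducible refine IntF.comp₂ ?_ ?_ ?_; assumption) | (with_reducible refine IntF.comp₃ ?_ ?_ ?_ ?_; assumption) | with_reducible apply IntF.inl | with_reducible apply IntF.inr | with_reducible apply IntF.pair))) (fun f => ?_) fun x => ?_)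
  · refine IFun.ext' fun m => ?_
    rw [lam_apply (IntF.const _), hu m]
  · exact lam_apply (IntF.const _) _

/-- The successor. -/
theorem isNat_val (n : INat M) : IsNat n.val := fun i hi => n.prop i (ind_iff.2 hi)

theorem isSucc_val (n : INat M) : IsSucc n.succ.val n.val := fun z => INat.mem_succ (n := n) (z := z)

/-- The family statement. -/
theorem family {f : M} (hf : IsAmorphousFamily f) : ∃ n a, IsNat n ∧ App f n a ∧
    ((∃ q, IsPowN q a n ∧ ¬ IsDuallyDedekindFinite q) ∨
      ∃ m q, IsSucc m n ∧ IsPowN q a m ∧ IsDuallyDedekindFinite q) := by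
  obtain ⟨⟨w, hw, b, hb⟩, hA⟩ := hf
  have hn := isNat_val (M := M) (INat.succ 0)
  have hm := isNat_val (M := M) (INat.succ (INat.succ 0))
  obtain ⟨a, ha, _⟩ := hb.2 (INat.succ (0 : INat M)).val ((hw _).2 hn)
  refine ⟨_, a, hn, ha, ?_⟩
  obtain ⟨q1, hq1⟩ := exists_powN a hn
  obtain ⟨q2, hq2⟩ := exists_powN a hm
  obtain ⟨p, hp⟩ := hZ.power a
  have hp' : IsPow p a := hp
  by_cases h : IsDuallyDedekindFinite q1
  · refine Or.inr ⟨_, q2, isSucc_val _, hq2, ?_⟩
    exact powN_ddf (hA _ _ ha) hp' hm hq2 (ddf_one hn rfl hp' hq1 h)
  · exact Or.inl ⟨q1, hq1, h⟩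

end

end Pool.Agent.R596.AM
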