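import Pool.Agent.R974.BW.Defs

/-!
# Selection of a block
-/

set_option autoImplicit false
set_option linter.all false

namespace Pool.Agent.R596.BWSEL

open MeasureTheory ProbabilityTheory Filter Topology Set
open Pool.Agent.R974.BW

/-! ### Algebra -/

theorem prod_two (g : ℕ → ℝ) (m : ℕ) : ∏ k ∈ Finset.range (2 * m), g k =
    (∏ c ∈ Finset.range m, g (2 * c)) * ∏ c ∈ Finset.range m, g (2 * c + 1) := by
  induction m with
  | zero => simp
  | succ m ih =>
    rw [show 2 * (m + 1) = 2 * m + 1 + 1 by ring, Finset.prod_range_succ, Finset.prod_range_succ, ih,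
      Finset.prod_range_succ, Finset.prod_range_succ]
    ring

theorem sum_two (g : ℕ → ℝ) (m : ℕ) : ∑ k ∈ Finset.range (2 * m), g k =
    (∑ c ∈ Finset.range m, g (2 * c)) + ∑ c ∈ Finset.range m, g (2 * c + 1) := by
  induction m with
  | zero => simp
  | succ m ih =>
    rw [show 2 * (m + 1) = 2 * m + 1 + 1 by ring, Finset.sum_range_succ, Finset.sum_range_succ, ih,
      Finset.sum_range_succ, Finset.sum_range_succ]
    ring

theorem range_split (g : ℕ → ℝ) {a m : ℕ} (h : a < m) : ∏ c ∈ Finset.range m, g c =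
    (∏ c ∈ Finset.range a, g c) * (g a * ∏ c ∈ Finset.Ico (a + 1) m, g c) := by
  have h1 := Finset.prod_range_mul_prod_Ico g (show a + 1 ≤ m from h)
  rw [← h1, Finset.prod_range_succ]
  ring

theorem prod_even (g : ℕ → ℝ) {a m : ℕ} (h : a < m) (h1 : ∀ c < m, g (2 * c + 1) = 1)
    (h2 : ∀ c < a, g (2 * c) = 1) : ∏ k ∈ Finset.range (2 * m), g k =
      g (2 * a) * ∏ c ∈ Finset.Ico (a + 1) m, g (2 * c) := by
  rw [prod_two, Finset.prod_eq_one (s := Finset.range m) (f := fun c => g (2 * c + 1))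
    (fun c hc => h1 c (Finset.mem_range.1 hc)), mul_one, range_split (fun c => g (2 * c)) h,
    Finset.prod_eq_one (s := Finset.range a) (f := fun c => g (2 * c))
    (fun c hc => h2 c (Finset.mem_range.1 hc)), one_mul]

theorem prod_odd (g : ℕ → ℝ) {a m : ℕ} (h : a < m) (h1 : ∀ c, a < c → g (2 * c + 1) = 1) :
    ∏ k ∈ Finset.range (2 * m), g k = (∏ c ∈ Finset.range m, g (2 * c)) *
      ((∏ c ∈ Finset.range a, g (2 * c + 1)) * g (2 * a + 1)) := by
  rw [prod_two, range_split (fun c => g (2 * c + 1)) h,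
    Finset.prod_eq_one (s := Finset.Ico (a + 1) m) (f := fun c => g (2 * c + 1))
    (fun c hc => h1 c (by
      have := (Finset.mem_Ico.1 hc).1
      omega)), mul_one]

theorem tele_up (x : ℕ → ℝ) (m : ℕ) : ∑ a ∈ Finset.range m,
    x a * ∏ c ∈ Finset.Ico (a + 1) m, (1 - x c) = 1 - ∏ c ∈ Finset.range m, (1 - x c) := by
  induction m with
  | zero => simp
  | succ m ih =>
    rw [Finset.sum_range_succ, Finset.Ico_self, Finset.prod_empty, mul_one,
      Finset.prod_range_succ]
    have h1 : ∑ a ∈ Finset.range m, x a * ∏ c ∈ Finset.Ico (a + 1) (m + 1), (1 - x c) =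
        (∑ a ∈ Finset.range m, x a * ∏ c ∈ Finset.Ico (a + 1) m, (1 - x c)) * (1 - x m) := by
      rw [Finset.sum_mul]
      refine Finset.sum_congr rfl fun a ha => ?_
      have ha' := Finset.mem_range.1 ha
      rw [Finset.prod_Ico_succ_top (show a + 1 ≤ m from ha')]
      ring
    rw [h1, ih]
    ring

theorem tele_down (u : ℕ → ℝ) (m : ℕ) : ∑ a ∈ Finset.range m,
    (∏ c ∈ Finset.range a, (1 - u c)) * u a = 1 - ∏ c ∈ Finset.range m, (1 - u c) := by
  induction m with
  | zero => simp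
  | succ m ih =>
    rw [Finset.sum_range_succ, ih, Finset.prod_range_succ]
    ring

theorem prod_div (g : ℕ → ℝ) (hg : ∀ c, g c ≠ 0) {a m : ℕ} (h : a ≤ m) :
    ∏ c ∈ Finset.Ico a m, g c / g (c + 1) = g a / g m := by
  induction m, h using Nat.le_induction with
  | base => rw [Finset.Ico_self, Finset.prod_empty, div_self (hg a)]
  | succ m h ih =>
    rw [Finset.prod_Ico_succ_top h, ih]
    have h1 := hg m
    have h2 := hg (m + 1)
    field_simp

theorem sum_arith (ρ : ℝ) (m : ℕ) : (1 - ρ) ^ 2 * ∑ a ∈ Finset.range m, (a : ℝ) * ρ ^ a =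
    ρ - m * ρ ^ m + (m - 1) * ρ ^ (m + 1) := by
  induction m with
  | zero => simp
  | succ m ih =>
    rw [Finset.sum_range_succ, mul_add, ih]
    push_cast
    ring

theorem sum_arith_le {ρ : ℝ} (h0 : 0 ≤ ρ) (h1 : ρ ≤ 1) (m : ℕ) :
    (1 - ρ) ^ 2 * ∑ a ∈ Finset.range m, (a : ℝ) * ρ ^ a ≤ 1 := by
  rw [sum_arith]
  have h2 : ρ ^ (m + 1) ≤ ρ ^ m := pow_le_pow_of_le_one h0 h1 (Nat.le_succ m)
  have h3 : 0 ≤ ρ ^ (m + 1) := pow_nonneg h0 _
  have h4 : (0 : ℝ) ≤ m := Nat.cast_nonneg m
  nlinarith [mul_le_mul_of_nonneg_left h2 h4]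

/-! ### The functions -/

/-- the slices -/
noncomputable def cl (K : ℝ) (c : ℕ) (z : ℝ) : ℝ := max 0 (min ((z - K) * 2 - c) 1)

theorem cl_nonneg (K : ℝ) (c : ℕ) (z : ℝ) : 0 ≤ cl K c z := le_max_left _ _

theorem cl_le (K : ℝ) (c : ℕ) (z : ℝ) : cl K c z ≤ 1 := max_le zero_le_one (min_le_right _ _)

theorem cl_meas (K : ℝ) (c : ℕ) : Measurable (cl K c) := by
  unfold cl
  fun_prop

theorem cl_zero {K : ℝ} {c : ℕ} {z : ℝ} (h : (z - K) * 2 ≤ c) : cl K c z = 0 := by
  unfold cl
  refine max_eq_left ((min_le_left _ _).trans ?_)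
  linarith

theorem sum_max (x : ℝ) (m : ℕ) : ∑ c ∈ Finset.range m, max 0 (min (x - c) 1) =
    max 0 (min x m) := by
  induction m with
  | zero => simp
  | succ m ih =>
    rw [Finset.sum_range_succ, ih]
    push_cast
    have h4 : (0 : ℝ) ≤ m := Nat.cast_nonneg m
    simp only [max_def, min_def]
    split_ifs <;> linarith

theorem sum_cl {K z : ℝ} {m : ℕ} (h : z ≤ K + m / 2) : ∑ c ∈ Finset.range m, cl K c z / 2 =
    max 0 (z - K) := by
  rw [← Finset.sum_div]
  unfold cl
  rw [sum_max]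
  have h1 : min ((z - K) * 2) (m : ℝ) = (z - K) * 2 := min_eq_left (by linarith)
  rw [h1]
  rcases le_total 0 (z - K) with h2 | h2
  · rw [max_eq_right h2, max_eq_right (by linarith)]
    ring
  · rw [max_eq_left h2, max_eq_left (by linarith)]
    ring

variable (ν : Measure ℝ) (K : ℝ) (m : ℕ)

/-- mass of a slice -/
noncomputable def ee (c : ℕ) : ℝ := ∫ z, cl K c z / 2 ∂ν

/-- one minus the mass of the slices from `a` on -/
noncomputable def cc (a : ℕ) : ℝ := 1 - ∑ j ∈ Finset.Ico a m, ee ν K j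

/-- the functions for the large values -/
noncomputable def ph (c : ℕ) (z : ℝ) : ℝ := (cl K c z / 2) / cc ν K m (c + 1)

/-- the function for the small values -/
noncomputable def psi (z : ℝ) : ℝ := max 0 (min z K) / K

/-- the factors -/
noncomputable def FF (i k : ℕ) (z : ℝ) : ℝ :=
  if i % 2 = 0 then
    (if k = i then ph ν K m (i / 2) z / max z K
      else if k % 2 = 0 ∧ i < k then 1 - ph ν K m (k / 2) z else 1)
  else (if k = i then 1 / max z K else if k % 2 = 0 then 1 - ph ν K m (k / 2) z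
    else if k < i then 1 - psi K z else 1)

variable {ν K m}

theorem ph_meas (c : ℕ) : Measurable (ph ν K m c) := by
  unfold ph
  exact ((cl_meas K c).div_const 2).div_const _

theorem psi_meas : Measurable (psi K) := by
  unfold psi
  fun_prop

theorem FF_meas (i k : ℕ) : Measurable (FF ν K m i k) := by
  unfold FF
  have h1 : Measurable fun z : ℝ => max z K := by fun_prop
  have h2 := fun c => ph_meas (ν := ν) (K := K) (m := m) c
  have h3 := psi_meas (K := K)
  split_ifs
  · exact (h2 _).div h1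
  · exact measurable_const.sub (h2 _)
  · exact measurable_const
  · exact measurable_const.div h1
  · exact measurable_const.sub (h2 _)
  · exact measurable_const.sub h3
  · exact measurable_const

theorem psi_nonneg (hK : 0 < K) (z : ℝ) : 0 ≤ psi K z := div_nonneg (le_max_left _ _) hK.le

theorem psi_le (hK : 0 < K) (z : ℝ) : psi K z ≤ 1 := by
  unfold psi
  rw [div_le_one hK]
  exact max_le hK.le (min_le_right _ _)

theorem ph_nonneg (hc : ∀ a, 1 / 2 ≤ cc ν K m a) (c : ℕ) (z : ℝ) : 0 ≤ ph ν K m c z := by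
  unfold ph
  have := hc (c + 1)
  have := cl_nonneg K c z
  positivity

theorem ph_le (hc : ∀ a, 1 / 2 ≤ cc ν K m a) (c : ℕ) (z : ℝ) : ph ν K m c z ≤ 1 := by
  unfold ph
  have h1 := hc (c + 1)
  have h2 := cl_le K c z
  rw [div_le_one (by linarith)]
  linarith

theorem FF_bound (hK : 1 ≤ K) (hc : ∀ a, 1 / 2 ≤ cc ν K m a) (i k : ℕ) (z : ℝ) :
    0 ≤ FF ν K m i k z ∧ FF ν K m i k z ≤ 1 := by
  have hm : 1 ≤ max z K := hK.trans (le_max_right _ _)
  have h0 : 0 < max z K := by linarith
  have hp := fun c => ph_nonneg hc c z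
  have hp' := fun c => ph_le hc c z
  have hs := psi_nonneg (K := K) (by linarith) z
  have hs' := psi_le (K := K) (by linarith) z
  unfold FF
  split_ifs
  · exact ⟨div_nonneg (hp _) h0.le, (div_le_one h0).2 ((hp' _).trans hm)⟩
  · exact ⟨by linarith [hp' (k / 2)], by linarith [hp (k / 2)]⟩
  · exact ⟨zero_le_one, le_rfl⟩
  · exact ⟨by positivity, (div_le_one h0).2 hm⟩
  · exact ⟨by linarith [hp' (k / 2)], by linarith [hp (k / 2)]⟩
  · exact ⟨by linarith, by linarith⟩
  · exact ⟨zero_le_one, le_rfl⟩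

theorem FF_even (a k : ℕ) (z : ℝ) : FF ν K m (2 * a) k z =
    if k = 2 * a then ph ν K m a z / max z K
      else if k % 2 = 0 ∧ 2 * a < k then 1 - ph ν K m (k / 2) z else 1 := by
  unfold FF
  rw [if_pos (by omega), show 2 * a / 2 = a by omega]

theorem FF_odd (a k : ℕ) (z : ℝ) : FF ν K m (2 * a + 1) k z =
    if k = 2 * a + 1 then 1 / max z K else if k % 2 = 0 then 1 - ph ν K m (k / 2) z
    else if k < 2 * a + 1 then 1 - psi K z else 1 := by
  unfold FF
  rw [if_neg (by omega)]

/-- The product of functions that look like the factors, even case. -/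
theorem prod_FF_even {a : ℕ} (ha : a < m) (g : ℕ → ℝ) (A : ℝ) (B : ℕ → ℝ) (h0 : g (2 * a) = A)
    (h1 : ∀ c, a < c → g (2 * c) = B c) (h2 : ∀ c < a, g (2 * c) = 1)
    (h3 : ∀ c, g (2 * c + 1) = 1) :
    ∏ k ∈ Finset.range (2 * m), g k = A * ∏ c ∈ Finset.Ico (a + 1) m, B c := by
  rw [prod_even g ha (fun c _ => h3 c) h2, h0]
  congr 1
  refine Finset.prod_congr rfl fun c hc => h1 c ?_
  have := (Finset.mem_Ico.1 hc).1
  omega

theorem prod_FF_odd {a : ℕ} (ha : a < m) (g : ℕ → ℝ) (A : ℝ) (B U : ℕ → ℝ)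
    (h0 : g (2 * a + 1) = A) (h1 : ∀ c, g (2 * c) = B c) (h2 : ∀ c < a, g (2 * c + 1) = U c)
    (h3 : ∀ c, a < c → g (2 * c + 1) = 1) :
    ∏ k ∈ Finset.range (2 * m), g k = (∏ c ∈ Finset.range m, B c) *
      ((∏ c ∈ Finset.range a, U c) * A) := by
  rw [prod_odd g ha h3, h0, Finset.prod_congr rfl fun c _ => h1 c,
    Finset.prod_congr rfl fun c hc => h2 c (Finset.mem_range.1 hc)]

theorem cl_mul (hK : 0 < K) (c : ℕ) (z : ℝ) : cl K c z / 2 / max z K * z = cl K c z / 2 := by
  rcases le_or_gt z K with h | h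
  · have h4 : (0 : ℝ) ≤ c := Nat.cast_nonneg c
    rw [cl_zero (by linarith)]
    simp
  · rw [max_eq_left h.le]
    have : z ≠ 0 := by linarith
    field_simp

theorem ph_mul (hK : 0 < K) (c : ℕ) (z : ℝ) : ph ν K m c z / max z K * z = ph ν K m c z := by
  rcases le_or_gt z K with h | h
  · have h4 : (0 : ℝ) ≤ c := Nat.cast_nonneg c
    unfold ph
    rw [cl_zero (by linarith)]
    simp
  · rw [max_eq_left h.le, div_mul_cancel₀ _ (by linarith : z ≠ 0)]

theorem psi_mul (hK : 0 < K) {z : ℝ} (hz : 0 ≤ z) : 1 / max z K * z = psi K z := by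
  unfold psi
  rcases le_or_gt z K with h | h
  · rw [max_eq_right h, min_eq_left h, max_eq_right hz]
    ring
  · rw [max_eq_left h.le, min_eq_right h.le, max_eq_right hK.le]
    have : z ≠ 0 := by linarith
    field_simp

theorem int_bdd {ν : Measure ℝ} [IsProbabilityMeasure ν] {g : ℝ → ℝ} (hg : Measurable g) (B : ℝ)
    (h : ∀ z, |g z| ≤ B) : Integrable g ν :=
  Integrable.of_bound hg.aestronglyMeasurable B (Filter.Eventually.of_forall fun z => by
    rw [Real.norm_eq_abs]
    exact h z)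

theorem cl_int [IsProbabilityMeasure ν] (c : ℕ) : Integrable (fun z => cl K c z / 2) ν :=
  int_bdd ((cl_meas K c).div_const 2) 1 fun z => by
    have h1 := cl_nonneg K c z
    have h2 := cl_le K c z
    rw [abs_of_nonneg (by positivity)]
    linarith

/-- The integral over the other coordinates. -/
theorem int_update [IsProbabilityMeasure ν] (i : Fin (2 * m)) (z : ℝ) :
    ∫ z', (∏ k : Fin (2 * m), FF ν K m i k (Function.update z' i z k)) ∂(Measure.pi fun _ => ν) =
      ∏ k ∈ Finset.range (2 * m), if k = (i : ℕ) then FF ν K m i i z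
        else ∫ x, FF ν K m i k x ∂ν := by
  have h1 : ∀ z' : Fin (2 * m) → ℝ,
      (∏ k : Fin (2 * m), FF ν K m i k (Function.update z' i z k)) =
        ∏ k : Fin (2 * m), (fun (k : Fin (2 * m)) (x : ℝ) =>
          if (k : ℕ) = (i : ℕ) then FF ν K m i i z else FF ν K m i k x) k (z' k) := by
    intro z'
    refine Finset.prod_congr rfl fun k _ => ?_
    by_cases hk : k = i
    · subst hk
      simp
    · have hk' : (k : ℕ) ≠ (i : ℕ) := fun h => hk (Fin.ext h)
      simp [Function.update_of_ne hk, hk']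
  simp_rw [h1]
  rw [integral_fintype_prod_eq_prod (E := fun _ : Fin (2 * m) => ℝ) (μ := fun _ => ν)
    (fun (k : Fin (2 * m)) (x : ℝ) =>
      if (k : ℕ) = (i : ℕ) then FF ν K m i i z else FF ν K m i k x)]
  rw [← Fin.prod_univ_eq_prod_range (fun k => if k = (i : ℕ) then FF ν K m i i z
        else ∫ x, FF ν K m i k x ∂ν) (2 * m)]
  refine Finset.prod_congr rfl fun k _ => ?_
  by_cases hk : (k : ℕ) = (i : ℕ)
  · simp [hk]
  · simp [hk]

theorem core (A : ℝ) (ν : Measure ℝ) (b : ℝ) [IsProbabilityMeasure ν]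
    (hb : ∀ᵐ z ∂ν, 0 ≤ z ∧ z ≤ b) (h1 : ∫ z, z ∂ν = 1) (h2 : ∫ z, z ^ 2 ∂ν ≤ A) (δ : ℝ)
    (hδ : 0 < δ) :
    ∃ (N : ℕ) (κ : Fin N → (Fin N → ℝ) → ℝ), (∀ i, Measurable (κ i)) ∧
      (∀ i z, 0 ≤ κ i z ∧ κ i z ≤ 1) ∧
      (∀ z : Fin N → ℝ, (∀ i, 0 ≤ z i) → ∑ i, κ i z * z i ≤ 1) ∧
      (∀ z : ℝ, 0 ≤ z → z ≤ b →
        ∑ i, ∫ z', κ i (Function.update z' i z) ∂(Measure.pi fun _ => ν) ≤ 1 ∧
        1 - δ ≤ ∑ i, ∫ z', κ i (Function.update z' i z) ∂(Measure.pi fun _ => ν)) ∧
      ∑ i : Fin N, (3 * ((i : ℕ) : ℝ) + 1) *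
        ∫ z, (∫ z', κ i (Function.update z' i z) ∂(Measure.pi fun _ => ν)) * z ∂ν ≤
          24 * A + 10 := by
  have iz : Integrable (fun z : ℝ => z) ν := by
    refine Integrable.of_bound measurable_id.aestronglyMeasurable b ?_
    filter_upwards [hb] with z hz
    rw [Real.norm_eq_abs, abs_of_nonneg hz.1]
    exact hz.2
  have iz2 : Integrable (fun z : ℝ => z ^ 2) ν := by
    refine Integrable.of_bound (by fun_prop) (b ^ 2) ?_
    filter_upwards [hb] with z hz
    rw [Real.norm_eq_abs, abs_of_nonneg (by positivity)]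
    exact pow_le_pow_left₀ hz.1 hz.2 2
  have hA : 1 ≤ A := by
    have h3 : ∫ z, (2 * z - 1) ∂ν ≤ ∫ z, z ^ 2 ∂ν := by
      refine integral_mono ((iz.const_mul 2).sub (integrable_const 1)) iz2 fun z => ?_
      change 2 * z - 1 ≤ z ^ 2
      nlinarith [sq_nonneg (z - 1)]
    rw [integral_sub (iz.const_mul 2) (integrable_const 1), integral_const_mul, h1] at h3
    simp at h3
    linarith
  obtain ⟨K, hKA⟩ : ∃ K, K = 2 * A := ⟨_, rfl⟩
  have hK2 : 2 ≤ K := by linarith
  have hK1 : 1 ≤ K := by linarith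
  have hK0 : 0 < K := by linarith
  have it : Integrable (fun z : ℝ => max 0 (z - K)) ν := by
    refine Integrable.of_bound (by fun_prop) b ?_
    filter_upwards [hb] with z hz
    rw [Real.norm_eq_abs, abs_of_nonneg (le_max_left _ _)]
    exact max_le (hz.1.trans hz.2) (by linarith)
  obtain ⟨t, ht⟩ : ∃ t, t = ∫ z, max 0 (z - K) ∂ν := ⟨_, rfl⟩
  have ht0 : 0 ≤ t := by
    rw [ht]
    exact integral_nonneg fun z => le_max_left _ _
  have ht1 : t ≤ 1 / 2 := by
    have h3 : t ≤ ∫ z, z ^ 2 / K ∂ν := by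
      rw [ht]
      refine integral_mono_ae it (iz2.div_const K) ?_
      filter_upwards [hb] with z hz
      change max 0 (z - K) ≤ z ^ 2 / K
      rw [le_div_iff₀ hK0]
      rcases le_or_gt z K with h | h
      · rw [max_eq_left (by linarith)]
        nlinarith [sq_nonneg z]
      · rw [max_eq_right (by linarith)]
        nlinarith
    rw [integral_div] at h3
    have h4 : (∫ z, z ^ 2 ∂ν) / K ≤ 1 / 2 := by
      rw [div_le_iff₀ hK0]
      linarith
    linarith
  obtain ⟨q, hq⟩ : ∃ q, q = 1 - t := ⟨_, rfl⟩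
  have hq0 : 1 / 2 ≤ q := by linarith
  have hq1 : q ≤ 1 := by linarith
  have hpsi : ∫ z, psi K z ∂ν = q / K := by
    unfold psi
    rw [integral_div]
    congr 1
    rw [hq, ht, ← h1, ← integral_sub iz it]
    refine integral_congr_ae ?_
    filter_upwards [hb] with z hz
    change max 0 (min z K) = z - max 0 (z - K)
    rcases le_or_gt z K with h | h
    · rw [min_eq_left h, max_eq_right hz.1, max_eq_left (by linarith)]
      ring
    · rw [min_eq_right h.le, max_eq_right hK0.le, max_eq_right (by linarith)]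
      ring
  obtain ⟨ρ, hρ⟩ : ∃ ρ, ρ = 1 - q / K := ⟨_, rfl⟩
  have hqK : q / K ≤ 1 / 2 := by
    rw [div_le_iff₀ hK0]
    linarith
  have hqK0 : 0 < q / K := by
    have : 0 < q := by linarith
    positivity
  have hρ0 : 0 ≤ ρ := by linarith
  have hρ1 : ρ < 1 := by linarith
  obtain ⟨m1, hm1⟩ := exists_nat_gt (2 * b)
  obtain ⟨m2, hm2⟩ := exists_pow_lt_of_lt_one hδ hρ1
  obtain ⟨m, hm⟩ : ∃ m, m = max m1 m2 := ⟨_, rfl⟩
  have hbm : b ≤ K + m / 2 := by
    have h3 : (m1 : ℝ) ≤ m := by
      rw [hm]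
      exact_mod_cast le_max_left m1 m2
    linarith
  have hρm : ρ ^ m ≤ δ := by
    refine le_trans ?_ hm2.le
    rw [hm]
    exact pow_le_pow_of_le_one hρ0 hρ1.le (le_max_right _ _)
  -- the masses of the slices
  have hsum : ∑ j ∈ Finset.range m, ee ν K j = t := by
    unfold ee
    rw [← integral_finset_sum _ fun j _ => cl_int j, ht]
    refine integral_congr_ae ?_
    filter_upwards [hb] with z hz
    exact sum_cl (hz.2.trans hbm)
  have hee : ∀ j, 0 ≤ ee ν K j := fun j => integral_nonneg fun z => by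
    have := cl_nonneg K j z
    change 0 ≤ cl K j z / 2
    positivity
  have hcc : ∀ a, 1 / 2 ≤ cc ν K m a := by
    intro a
    unfold cc
    have h3 : ∑ j ∈ Finset.Ico a m, ee ν K j ≤ ∑ j ∈ Finset.range m, ee ν K j := by
      refine Finset.sum_le_sum_of_subset_of_nonneg ?_ fun j _ _ => hee j
      intro j hj
      exact Finset.mem_range.2 (Finset.mem_Ico.1 hj).2
    rw [hsum] at h3
    linarith
  have hccm : cc ν K m m = 1 := by
    unfold cc
    simp
  have hcc0 : cc ν K m 0 = q := by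
    unfold cc
    rw [← Finset.range_eq_Ico, hsum, hq]
  have hne : ∀ a, cc ν K m a ≠ 0 := fun a => by
    have := hcc a
    linarith
  have iph : ∀ c, Integrable (ph ν K m c) ν := fun c => int_bdd (ph_meas c) 1 fun z => by
    rw [abs_of_nonneg (ph_nonneg hcc c z)]
    exact ph_le hcc c z
  have ipsi : Integrable (psi K) ν := int_bdd psi_meas 1 fun z => by
    rw [abs_of_nonneg (psi_nonneg hK0 z)]
    exact psi_le hK0 z
  have hph : ∀ c < m, ∫ z, (1 - ph ν K m c z) ∂ν = cc ν K m c / cc ν K m (c + 1) := by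
    intro c hc
    rw [integral_sub (integrable_const 1) (iph c)]
    have h3 : ∫ z, ph ν K m c z ∂ν = ee ν K c / cc ν K m (c + 1) := by
      unfold ph
      rw [integral_div]
      rfl
    rw [h3, integral_const]
    have h4 : cc ν K m c = cc ν K m (c + 1) - ee ν K c := by
      unfold cc
      rw [Finset.sum_eq_sum_Ico_succ_bot hc]
      ring
    rw [h4]
    have h5 := hne (c + 1)
    simp
    field_simp
  have hps : ∫ z, (1 - psi K z) ∂ν = ρ := by
    rw [integral_sub (integrable_const 1) ipsi, hpsi, integral_const, hρ]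
    simp
  -- the marginals
  have gE : ∀ (i : Fin (2 * m)) (a : ℕ), (i : ℕ) = 2 * a → ∀ z : ℝ,
      ∫ z', (∏ k : Fin (2 * m), FF ν K m i k (Function.update z' i z k))
        ∂(Measure.pi fun _ => ν) = cl K a z / 2 / max z K := by
    intro i a ha z
    have ham : a < m := by
      have := i.2
      omega
    rw [int_update, ha]
    rw [prod_FF_even ham _ (ph ν K m a z / max z K) (fun c => ∫ z, (1 - ph ν K m c z) ∂ν)
      (by rw [if_pos rfl, FF_even, if_pos rfl])
      (fun c hc => by
        rw [if_neg (by omega)]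
        refine integral_congr_ae (Filter.Eventually.of_forall fun x => ?_)
        change FF ν K m (2 * a) (2 * c) x = 1 - ph ν K m c x
        rw [FF_even, if_neg (by omega), if_pos (by omega), show 2 * c / 2 = c by omega])
      (fun c hc => by
        rw [if_neg (by omega)]
        have h3 : ∀ x, FF ν K m (2 * a) (2 * c) x = 1 := fun x => by
          rw [FF_even, if_neg (by omega), if_neg (by omega)]
        simp [h3])
      (fun c => by
        rw [if_neg (by omega)]
        have h3 : ∀ x, FF ν K m (2 * a) (2 * c + 1) x = 1 := fun x => by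
          rw [FF_even, if_neg (by omega), if_neg (by omega)]
        simp [h3])]
    rw [Finset.prod_congr rfl fun c hc => hph c (Finset.mem_Ico.1 hc).2,
      prod_div (cc ν K m) hne (show a + 1 ≤ m from ham), hccm, div_one]
    unfold ph
    have h5 := hne (a + 1)
    field_simp
  have gO : ∀ (i : Fin (2 * m)) (a : ℕ), (i : ℕ) = 2 * a + 1 → ∀ z : ℝ,
      ∫ z', (∏ k : Fin (2 * m), FF ν K m i k (Function.update z' i z k))
        ∂(Measure.pi fun _ => ν) = q * ρ ^ a * (1 / max z K) := by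
    intro i a ha z
    have ham : a < m := by
      have := i.2
      omega
    rw [int_update, ha]
    rw [prod_FF_odd ham _ (1 / max z K) (fun c => ∫ z, (1 - ph ν K m c z) ∂ν) (fun _ => ρ)
      (by rw [if_pos rfl, FF_odd, if_pos rfl])
      (fun c => by
        rw [if_neg (by omega)]
        refine integral_congr_ae (Filter.Eventually.of_forall fun x => ?_)
        change FF ν K m (2 * a + 1) (2 * c) x = 1 - ph ν K m c x
        rw [FF_odd, if_neg (by omega), if_pos (by omega), show 2 * c / 2 = c by omega])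
      (fun c hc => by
        rw [if_neg (by omega), ← hps]
        refine integral_congr_ae (Filter.Eventually.of_forall fun x => ?_)
        change FF ν K m (2 * a + 1) (2 * c + 1) x = 1 - psi K x
        rw [FF_odd, if_neg (by omega), if_neg (by omega), if_pos (by omega)])
      (fun c hc => by
        rw [if_neg (by omega)]
        have h3 : ∀ x, FF ν K m (2 * a + 1) (2 * c + 1) x = 1 := fun x => by
          rw [FF_odd, if_neg (by omega), if_neg (by omega), if_neg (by omega)]
        simp [h3])]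
    rw [Finset.prod_congr rfl fun c hc => hph c (Finset.mem_range.1 hc), Finset.range_eq_Ico,
      prod_div (cc ν K m) hne (Nat.zero_le m), hccm, div_one, hcc0]
    simp
    ring
  -- the marginals as a function
  obtain ⟨gam, hgam⟩ : ∃ gam : ℕ → ℝ → ℝ, gam = fun i z => if i % 2 = 0 then
    cl K (i / 2) z / 2 / max z K else q * ρ ^ (i / 2) * (1 / max z K) := ⟨_, rfl⟩
  have hgE : ∀ a z, gam (2 * a) z = cl K a z / 2 / max z K := by
    intro a z
    rw [hgam]
    change (if 2 * a % 2 = 0 then cl K (2 * a / 2) z / 2 / max z K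
      else q * ρ ^ (2 * a / 2) * (1 / max z K)) = _
    rw [if_pos (by omega), show 2 * a / 2 = a by omega]
  have hgO : ∀ a z, gam (2 * a + 1) z = q * ρ ^ a * (1 / max z K) := by
    intro a z
    rw [hgam]
    change (if (2 * a + 1) % 2 = 0 then cl K ((2 * a + 1) / 2) z / 2 / max z K
      else q * ρ ^ ((2 * a + 1) / 2) * (1 / max z K)) = _
    rw [if_neg (by omega), show (2 * a + 1) / 2 = a by omega]
  have hγ : ∀ (i : Fin (2 * m)) (z : ℝ),
      ∫ z', (∏ k : Fin (2 * m), FF ν K m i k (Function.update z' i z k))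
        ∂(Measure.pi fun _ => ν) = gam i z := by
    intro i z
    rcases Nat.even_or_odd' (i : ℕ) with ⟨a, ha | ha⟩
    · rw [gE i a ha z, ha, hgE]
    · rw [gO i a ha z, ha, hgO]
  refine ⟨2 * m, fun i w => ∏ k : Fin (2 * m), FF ν K m i k (w k), ?_, ?_, ?_, ?_, ?_⟩
  · intro i
    exact Finset.measurable_fun_prod _ fun k _ => (FF_meas _ _).comp (measurable_pi_apply k)
  · intro i z
    exact ⟨Finset.prod_nonneg fun k _ => (FF_bound hK1 hcc _ _ _).1,
      Finset.prod_le_one (fun k _ => (FF_bound hK1 hcc _ _ _).1)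
        fun k _ => (FF_bound hK1 hcc _ _ _).2⟩
  · intro w hw
    obtain ⟨y, hy⟩ : ∃ y : ℕ → ℝ, y = fun k => if h : k < 2 * m then w ⟨k, h⟩ else 0 := ⟨_, rfl⟩
    have hyw : ∀ k : Fin (2 * m), w k = y k := by
      intro k
      rw [hy]
      simp
    have hy0 : ∀ k, 0 ≤ y k := by
      intro k
      rw [hy]
      by_cases h : k < 2 * m
      · simp only [h, dif_pos]
        exact hw _
      · simp only [h]
        simp
    have h3 : ∀ i : Fin (2 * m), (∏ k : Fin (2 * m), FF ν K m i k (w k)) * w i =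
        (fun i : ℕ => (∏ k ∈ Finset.range (2 * m), FF ν K m i k (y k)) * y i) i := by
      intro i
      simp only [hyw]
      rw [Fin.prod_univ_eq_prod_range (fun k => FF ν K m i k (y k)) (2 * m)]
    rw [Finset.sum_congr rfl fun i _ => h3 i, Fin.sum_univ_eq_sum_range
      (fun i : ℕ => (∏ k ∈ Finset.range (2 * m), FF ν K m i k (y k)) * y i) (2 * m), sum_two]
    have h4 : ∀ a ∈ Finset.range m,
        (∏ k ∈ Finset.range (2 * m), FF ν K m (2 * a) k (y k)) * y (2 * a) =
          ph ν K m a (y (2 * a)) * ∏ c ∈ Finset.Ico (a + 1) m, (1 - ph ν K m c (y (2 * c))) := by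
      intro a ha
      rw [prod_FF_even (Finset.mem_range.1 ha) _ (ph ν K m a (y (2 * a)) / max (y (2 * a)) K)
        (fun c => 1 - ph ν K m c (y (2 * c))) (by rw [FF_even, if_pos rfl])
        (fun c hc => by
          rw [FF_even, if_neg (by omega), if_pos (by omega), show 2 * c / 2 = c by omega])
        (fun c hc => by rw [FF_even, if_neg (by omega), if_neg (by omega)])
        (fun c => by rw [FF_even, if_neg (by omega), if_neg (by omega)])]
      rw [mul_right_comm, ph_mul hK0]
    have h5 : ∀ a ∈ Finset.range m,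
        (∏ k ∈ Finset.range (2 * m), FF ν K m (2 * a + 1) k (y k)) * y (2 * a + 1) =
          (∏ c ∈ Finset.range m, (1 - ph ν K m c (y (2 * c)))) *
            ((∏ c ∈ Finset.range a, (1 - psi K (y (2 * c + 1)))) * psi K (y (2 * a + 1))) := by
      intro a ha
      rw [prod_FF_odd (Finset.mem_range.1 ha) _ (1 / max (y (2 * a + 1)) K)
        (fun c => 1 - ph ν K m c (y (2 * c))) (fun c => 1 - psi K (y (2 * c + 1)))
        (by rw [FF_odd, if_pos rfl])
        (fun c => by
          rw [FF_odd, if_neg (by omega), if_pos (by omega), show 2 * c / 2 = c by omega])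
        (fun c hc => by rw [FF_odd, if_neg (by omega), if_neg (by omega), if_pos (by omega)])
        (fun c hc => by rw [FF_odd, if_neg (by omega), if_neg (by omega), if_neg (by omega)])]
      rw [mul_assoc, mul_assoc, psi_mul hK0 (hy0 _)]
    rw [Finset.sum_congr rfl h4, Finset.sum_congr rfl h5,
      tele_up (fun c => ph ν K m c (y (2 * c))) m, ← Finset.mul_sum,
      tele_down (fun c => psi K (y (2 * c + 1))) m]
    have h6 : 0 ≤ ∏ c ∈ Finset.range m, (1 - ph ν K m c (y (2 * c))) :=
      Finset.prod_nonneg fun c _ => by linarith [ph_le hcc c (y (2 * c))]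
    have h7 : 0 ≤ ∏ c ∈ Finset.range m, (1 - psi K (y (2 * c + 1))) :=
      Finset.prod_nonneg fun c _ => by linarith [psi_le hK0 (y (2 * c + 1))]
    nlinarith [mul_nonneg h6 h7]
  · intro z hz0 hzb
    have h3 : ∑ i : Fin (2 * m), ∫ z', (∏ k : Fin (2 * m),
        FF ν K m i k (Function.update z' i z k)) ∂(Measure.pi fun _ => ν) =
        max 0 (z - K) / max z K + K * (1 - ρ ^ m) * (1 / max z K) := by
      rw [Finset.sum_congr rfl fun i _ => hγ i z, Fin.sum_univ_eq_sum_range
        (fun i : ℕ => gam i z) (2 * m), sum_two]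
      simp only [hgE, hgO]
      rw [← Finset.sum_div, sum_cl (hzb.trans hbm), ← Finset.sum_mul, ← Finset.mul_sum]
      congr 2
      have h4 := mul_neg_geom_sum ρ m
      have h5 : 1 - ρ = q / K := by
        rw [hρ]
        ring
      rw [h5] at h4
      rw [← h4]
      field_simp
    have h4 : 0 ≤ ρ ^ m := pow_nonneg hρ0 m
    change ∑ i : Fin (2 * m), ∫ z', (∏ k : Fin (2 * m),
        FF ν K m i k (Function.update z' i z k)) ∂(Measure.pi fun _ => ν) ≤ 1 ∧
      1 - δ ≤ ∑ i : Fin (2 * m), ∫ z', (∏ k : Fin (2 * m),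
        FF ν K m i k (Function.update z' i z k)) ∂(Measure.pi fun _ => ν)
    rw [h3]
    rcases le_or_gt z K with h | h
    · rw [max_eq_left (by linarith : z - K ≤ 0), max_eq_right h]
      have h5 : 0 / K + K * (1 - ρ ^ m) * (1 / K) = 1 - ρ ^ m := by field_simp; ring
      rw [h5]
      exact ⟨by linarith, by linarith⟩
    · rw [max_eq_right (by linarith : 0 ≤ z - K), max_eq_left h.le]
      have hz : 0 < z := by linarith
      have h5 : (z - K) / z + K * (1 - ρ ^ m) * (1 / z) = 1 - ρ ^ m * (K / z) := by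
        field_simp
        ring
      rw [h5]
      have h6 : K / z ≤ 1 := (div_le_one hz).2 h.le
      have h7 : 0 ≤ K / z := by positivity
      exact ⟨by nlinarith, by nlinarith⟩
  · have h3 : ∀ i : Fin (2 * m), (3 * ((i : ℕ) : ℝ) + 1) *
        ∫ z, (∫ z', (∏ k : Fin (2 * m),
          FF ν K m i k (Function.update z' i z k)) ∂(Measure.pi fun _ => ν)) * z ∂ν =
        (fun i : ℕ => (3 * (i : ℝ) + 1) * ∫ z, gam i z * z ∂ν) i := by
      intro i
      simp only [hγ]
    change ∑ i : Fin (2 * m), (3 * ((i : ℕ) : ℝ) + 1) *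
        ∫ z, (∫ z', (∏ k : Fin (2 * m),
          FF ν K m i k (Function.update z' i z k)) ∂(Measure.pi fun _ => ν)) * z ∂ν ≤ 24 * A + 10
    rw [Finset.sum_congr rfl fun i _ => h3 i, Fin.sum_univ_eq_sum_range
      (fun i : ℕ => (3 * (i : ℝ) + 1) * ∫ z, gam i z * z ∂ν) (2 * m), sum_two]
    have h4 : ∀ a ∈ Finset.range m, (3 * ((2 * a : ℕ) : ℝ) + 1) *
        ∫ z, gam (2 * a) z * z ∂ν = ∫ z, (6 * (a : ℝ) + 1) * (cl K a z / 2) ∂ν := by
      intro a _
      rw [← integral_const_mul]
      refine integral_congr_ae (Filter.Eventually.of_forall fun z => ?_)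
      change (3 * ((2 * a : ℕ) : ℝ) + 1) * (gam (2 * a) z * z) =
        (6 * (a : ℝ) + 1) * (cl K a z / 2)
      rw [hgE, cl_mul hK0]
      push_cast
      ring
    have h5 : ∀ a ∈ Finset.range m, (3 * ((2 * a + 1 : ℕ) : ℝ) + 1) *
        ∫ z, gam (2 * a + 1) z * z ∂ν = (6 * (a : ℝ) + 4) * (q * ρ ^ a * (q / K)) := by
      intro a _
      have h6 : ∫ z, gam (2 * a + 1) z * z ∂ν = q * ρ ^ a * (q / K) := by
        rw [← hpsi, ← integral_const_mul]
        refine integral_congr_ae ?_
        filter_upwards [hb] with z hz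
        rw [hgO, mul_assoc, psi_mul hK0 hz.1]
      rw [h6]
      push_cast
      ring
    rw [Finset.sum_congr rfl h4, Finset.sum_congr rfl h5]
    have h6 : ∑ a ∈ Finset.range m, ∫ z, (6 * (a : ℝ) + 1) * (cl K a z / 2) ∂ν ≤ 12 * A + 1 := by
      rw [← integral_finset_sum _ fun a _ => (cl_int a).const_mul _]
      have h7 : ∫ z, (12 * z ^ 2 + z) ∂ν ≤ 12 * A + 1 := by
        rw [integral_add (iz2.const_mul 12) iz, integral_const_mul, h1]
        linarith
      refine le_trans (integral_mono_ae (integrable_finset_sum _ fun a _ =>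
        (cl_int a).const_mul _) ((iz2.const_mul 12).add iz) ?_) h7
      filter_upwards [hb] with z hz
      change ∑ a ∈ Finset.range m, (6 * (a : ℝ) + 1) * (cl K a z / 2) ≤ 12 * z ^ 2 + z
      have h8 : ∀ a ∈ Finset.range m, (6 * (a : ℝ) + 1) * (cl K a z / 2) ≤
          (12 * z + 1) * (cl K a z / 2) := by
        intro a _
        rcases le_or_gt ((z - K) * 2) (a : ℝ) with h9 | h9
        · rw [cl_zero h9]
          simp
        · refine mul_le_mul_of_nonneg_right (by linarith) ?_
          have := cl_nonneg K a z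
          positivity
      refine (Finset.sum_le_sum h8).trans ?_
      rw [← Finset.mul_sum, sum_cl (hz.2.trans hbm)]
      have h9 : max 0 (z - K) ≤ z := max_le hz.1 (by linarith)
      have h10 : (12 * z + 1) * max 0 (z - K) ≤ (12 * z + 1) * z :=
        mul_le_mul_of_nonneg_left h9 (by linarith [hz.1])
      linarith
    have h7 : ∑ a ∈ Finset.range m, (6 * (a : ℝ) + 4) * (q * ρ ^ a * (q / K)) ≤ 6 * K + 4 := by
      have h8 : 1 - ρ = q / K := by
        rw [hρ]
        ring
      have h9 := sum_arith_le hρ0 hρ1.le m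
      have h10 := mul_neg_geom_sum ρ m
      rw [h8] at h9 h10
      have h11 : ∑ a ∈ Finset.range m, (6 * (a : ℝ) + 4) * (q * ρ ^ a * (q / K)) =
          6 * K * ((q / K) ^ 2 * ∑ a ∈ Finset.range m, (a : ℝ) * ρ ^ a) +
            4 * q * (q / K * ∑ a ∈ Finset.range m, ρ ^ a) := by
        rw [Finset.mul_sum, Finset.mul_sum, Finset.mul_sum, Finset.mul_sum,
          ← Finset.sum_add_distrib]
        refine Finset.sum_congr rfl fun a _ => ?_
        field_simp
      rw [h11, h10]
      have h12 : 0 ≤ ρ ^ m := pow_nonneg hρ0 m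
      nlinarith [mul_nonneg (by linarith : (0 : ℝ) ≤ q) h12, mul_le_mul_of_nonneg_left h9 hK0.le]
    linarith

end Pool.Agent.R596.BWSEL

namespace Pool.Agent.R974.BW

open MeasureTheory

theorem t_SEL : S_SEL := by
  intro A
  refine ⟨24 * A + 10, fun ν b hν hb h1 h2 δ hδ => ?_⟩
  haveI := hν
  exact Pool.Agent.R596.BWSEL.core A ν b hb h1 h2 δ hδ

end Pool.Agent.R974.BW
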