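import Pool.Agent.R596.FPDefs

/-!
# Permutations with exactly three non-fixed points in a model of set theory: the definitions
-/

namespace Pool.Agent.R596Part

open FirstOrder FirstOrder.Language
open Pool.Agent.Helper672.Plain (LSet Mem Zermelo IsPair IsOrdPair)
open Pool.Agent.H310Cards

universe u

variable {M : Type u} [LSet.Structure M]

/-- `s` is a permutation of `a` with exactly three non-fixed points. -/
def IsThree (s a : M) : Prop :=
  IsBij s a a ∧ ∃ x y z, Mem x a ∧ Mem y a ∧ Mem z a ∧ x ≠ y ∧ y ≠ z ∧ z ≠ x ∧
    ∀ w, Mem w a → (¬ App s w w ↔ w = x ∨ w = y ∨ w = z)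

/-- `c` is the set of all permutations of `a` with exactly three non-fixed points. -/
def IsThreeSet (c a : M) : Prop := ∀ s, Mem s c ↔ IsThree s a

end Pool.Agent.R596Part
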