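import Pool.Agent.R596.FP
import Pool.Agent.R596.FtA
import Pool.Agent.W924.WO

/-!
# Families of pairwise disjoint points and 3-cycles
-/

set_option maxHeartbeats 400000
set_option linter.all false

namespace Pool.Agent.R596

open FirstOrder FirstOrder.Language
open Pool.Agent.Helper672.ZFA
open Pool.Agent.H310
open Pool.Agent.W924

universe u u₁ u₂ u₃ u₄

variable {M : Type u} [L.Structure M] [hM : IsModel M]
variable {α : Type u₁} {ι : Type u₂} [ITy M α] [ITy M ι]

/-! ### 3-cycles -/

/-- `σ` is the 3-cycle `(x y z)`. -/
def C3 (σ : IPm M α) (x y z : α) : Prop :=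
  σ.1 x = y ∧ σ.1 y = z ∧ σ.1 z = x ∧ x ≠ y ∧ y ≠ z ∧ z ≠ x ∧
    ∀ w, w ≠ x → w ≠ y → w ≠ z → σ.1 w = w

theorem int_C3 : Int M (fun q : ((IPm M α × α) × α) × α => C3 q.1.1.1 q.1.1.2 q.1.2 q.2) := by
  unfold C3
  (repeat' (first | with_reducible exact IntF.id | with_reducible exact IntF.fst' | with_reducible exact IntF.snd' | with_reducible exact IntF.const _ | with_reducible exact Int.const _ | assumption | with_reducible apply Int.and | with_reducible apply Int.or | with_reducible apply Int.not | with_reducible apply Int.imp | with_reducible apply Int.iff | with_reducible apply Int.ne | with_reducible apply Int.eq | with_reducible apply Int.mem | with_reducible apply Int.subset | with_reducible apply Int.ltN | with_reducible apply Int.leN | with_reducible apply Int.fin | with_reducible apply Int.unique | with_reducible apply Int.all | with_reducible apply Int.ex | with_reducible apply IntF.fst | with_reducible apply IntF.snd | with_reducible apply IntF.app | with_reducible apply IntF.ite | with_reducible apply IntF.sep | with_reducible apply IntF.lam | with_reducible apply IntF.insert | with_reducible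 apply IntF.singleton | with_reducible apply IntF.union | with_reducible apply IntF.inter | with_reducible apply IntF.sdiff | with_reducible apply IntF.isUnion | with_reducible apply IntF.iimage | with_reducible apply IntF.the | with_reducible apply IntF.irec | with_reducible_and_instances apply IntF.add | with_reducible_and_instances apply IntF.mul | with_reducible apply IntF.succ | with_reducible apply IntF.val | (with_reducible refine Int.comp ?_ ?_; assumption) | (with_reducible refine Int.comp₂ ?_ ?_ ?_; assumption) | (with_reducible refine Int.comp₃ ?_ ?_ ?_ ?_; assumption) | (with_reducible refine Int.comp₄ ?_ ?_ ?_ ?_ ?_; assumption) | (with_reducible refine IntF.comp ?_ ?_; assumption) | (with_reducible refine IntF.comp₂ ?_ ?_ ?_; assumption) | (with_reducible refine IntF.comp₃ ?_ ?_ ?_ ?_; assumption) | with_reducible apply IntF.inl | with_reducible apply IntF.inr | with_reducible apply IntF.pair))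

/-- `σ` is a 3-cycle. -/
def Thr (σ : IPm M α) : Prop := ∃ x y z, C3 σ x y z

theorem int_Thr : Int M (fun σ : IPm M α => Thr σ) := by
  have h := int_C3 (M := M) (α := α)
  unfold Thr
  (repeat' (first | with_reducible exact IntF.id | with_reducible exact IntF.fst' | with_reducible exact IntF.snd' | with_reducible exact IntF.const _ | with_reducible exact Int.const _ | assumption | with_reducible apply Int.and | with_reducible apply Int.or | with_reducible apply Int.not | with_reducible apply Int.imp | with_reducible apply Int.iff | with_reducible apply Int.ne | with_reducible apply Int.eq | with_reducible apply Int.mem | with_reducible apply Int.subset | with_reducible apply Int.ltN | with_reducible apply Int.leN | with_reducible apply Int.fin | with_reducible apply Int.unique | with_reducible apply Int.all | with_reducible apply Int.ex | with_reducible apply IntF.fst | with_reducible apply IntF.snd | with_reducible apply IntF.app | with_reducible apply IntF.ite | with_reducible apply IntF.sep | with_reducible apply IntF.lam | with_reducible apply IntF.insert | with_reducible apply IntF.singleton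 | with_reducible apply IntF.union | with_reducible apply IntF.inter | with_reducible apply IntF.sdiff | with_reducible apply IntF.isUnion | with_reducible apply IntF.iimage | with_reducible apply IntF.the | with_reducible apply IntF.irec | with_reducible_and_instances apply IntF.add | with_reducible_and_instances apply IntF.mul | with_reducible apply IntF.succ | with_reducible apply IntF.val | (with_reducible refine Int.comp ?_ ?_; assumption) | (with_reducible refine Int.comp₂ ?_ ?_ ?_; assumption) | (with_reducible refine Int.comp₃ ?_ ?_ ?_ ?_; assumption) | (with_reducible refine Int.comp₄ ?_ ?_ ?_ ?_ ?_; assumption) | (with_reducible refine IntF.comp ?_ ?_; assumption) | (with_reducible refine IntF.comp₂ ?_ ?_ ?_; assumption) | (with_reducible refine IntF.comp₃ ?_ ?_ ?_ ?_; assumption) | with_reducible apply IntF.inl | with_reducible apply IntF.inr | with_reducible apply IntF.pair))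

theorem C3.rot {σ : IPm M α} {x y z : α} (h : C3 σ x y z) : C3 σ y z x := by
  obtain ⟨h1, h2, h3, h4, h5, h6, h7⟩ := h
  exact ⟨h2, h3, h1, h5, h6, h4, fun w a b c => h7 w c a b⟩

theorem C3.moves {σ : IPm M α} {x y z w : α} (h : C3 σ x y z) :
    σ.1 w ≠ w ↔ w = x ∨ w = y ∨ w = z := by
  obtain ⟨h1, h2, h3, h4, h5, h6, h7⟩ := h
  constructor
  · intro hw
    by_contra hc
    push Not at hc
    exact hw (h7 w hc.1 hc.2.1 hc.2.2)
  · rintro (rfl | rfl | rfl)
    · rw [h1]
      exact h4.symm
    · rw [h2]
      exact h5.symm
    · rw [h3]
      exact h6.symm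

theorem C3.ext {σ τ : IPm M α} {x y z : α} (h : C3 σ x y z) (h' : C3 τ x y z) : σ = τ := by
  obtain ⟨h1, h2, h3, h4, h5, h6, h7⟩ := h
  obtain ⟨h1', h2', h3', h4', h5', h6', h7'⟩ := h'
  refine IPm.ext fun w => ?_
  by_cases hx : w = x
  · rw [hx, h1, h1']
  · by_cases hy : w = y
    · rw [hy, h2, h2']
    · by_cases hz : w = z
      · rw [hz, h3, h3']
      · rw [h7 w hx hy hz, h7' w hx hy hz]

theorem C3.start {σ : IPm M α} {x y z w : α} (h : C3 σ x y z) (hw : σ.1 w ≠ w) :
    ∃ u v, C3 σ w u v ∧ ((w = x ∧ u = y ∧ v = z) ∨ (w = y ∧ u = z ∧ v = x) ∨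
      (w = z ∧ u = x ∧ v = y)) := by
  rcases h.moves.1 hw with rfl | rfl | rfl
  · exact ⟨y, z, h, Or.inl ⟨rfl, rfl, rfl⟩⟩
  · exact ⟨z, x, h.rot, Or.inr (Or.inl ⟨rfl, rfl, rfl⟩)⟩
  · exact ⟨x, y, h.rot.rot, Or.inr (Or.inr ⟨rfl, rfl, rfl⟩)⟩

theorem Thr.fin {σ : IPm M α} (h : Thr σ) : FinP M (fun x => σ.1 x ≠ x) := by
  obtain ⟨x, y, z, h⟩ := h
  exact ((FinP.eq x).or ((FinP.eq y).or (FinP.eq z))).mono fun w hw => h.moves.1 hw

theorem Thr.ne {σ : IPm M α} (h : Thr σ) : ∃ x, σ.1 x ≠ x := by
  obtain ⟨x, y, z, h⟩ := h
  exact ⟨x, h.moves.2 (Or.inl rfl)⟩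

/-- Supports that are contained in each other are equal. -/
theorem Thr.supp {σ ρ : IPm M α} (hσ : Thr σ) (hρ : Thr ρ) (h : ∀ x, ρ.1 x ≠ x → σ.1 x ≠ x) :
    ∀ x, σ.1 x ≠ x → ρ.1 x ≠ x := by
  obtain ⟨x, y, z, hσ⟩ := hσ
  obtain ⟨a, b, c, hρ⟩ := hρ
  have ha := hσ.moves.1 (h a (hρ.moves.2 (Or.inl rfl)))
  have hb := hσ.moves.1 (h b (hρ.moves.2 (Or.inr (Or.inl rfl))))
  have hc := hσ.moves.1 (h c (hρ.moves.2 (Or.inr (Or.inr rfl))))
  have h4 := hρ.2.2.2.1
  have h5 := hρ.2.2.2.2.1
  have h6 := hρ.2.2.2.2.2.1
  intro w hw
  have hw' := hσ.moves.1 hw
  rw [hρ.moves]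
  clear hw h hσ hρ
  rcases ha with rfl | rfl | rfl <;> rcases hb with rfl | rfl | rfl <;>
    rcases hc with rfl | rfl | rfl <;> (first | exact absurd rfl h4 | exact absurd rfl h5 | exact absurd rfl h6 | tauto)

/-- 3-cycles with the same support. -/
theorem Thr.same {σ ρ : IPm M α} (hσ : Thr σ) (hρ : Thr ρ) (h : ∀ x, ρ.1 x ≠ x → σ.1 x ≠ x) :
    σ = ρ ∨ ∀ x, σ.1 (ρ.1 x) = x := by
  obtain ⟨a, b, c, hρ'⟩ := hρ
  have ha := h a (hρ'.moves.2 (Or.inl rfl))
  obtain ⟨x, y, z, hσ'⟩ := hσ
  obtain ⟨u, v, hσ'', -⟩ := hσ'.start ha
  have hb := hσ''.moves.1 (h b (hρ'.moves.2 (Or.inr (Or.inl rfl))))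
  have hc := hσ''.moves.1 (h c (hρ'.moves.2 (Or.inr (Or.inr rfl))))
  have h4 := hρ'.2.2.2.1
  have h5 := hρ'.2.2.2.2.1
  have h6 := hρ'.2.2.2.2.2.1
  rcases hb with hb | hb | hb
  · exact absurd hb.symm h4
  · rcases hc with hc | hc | hc
    · exact absurd hc h6
    · exact absurd (hb.trans hc.symm) h5
    · left
      rw [← hb, ← hc] at hσ''
      exact hσ''.ext hρ'
  · rcases hc with hc | hc | hc
    · exact absurd hc h6
    · right
      rw [← hb, ← hc] at hσ''
      obtain ⟨g1, g2, g3, g4, g5, g6, g7⟩ := hσ''
      obtain ⟨k1, k2, k3, k4, k5, k6, k7⟩ := hρ'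
      intro w
      by_cases hwa : w = a
      · rw [hwa, k1, g3]
      · by_cases hwb : w = b
        · rw [hwb, k2, g2]
        · by_cases hwc : w = c
          · rw [hwc, k3, g1]
          · rw [k7 w hwa hwb hwc, g7 w hwa hwc hwb]
    · exact absurd (hb.trans hc.symm) h5

/-- The distinguished point of a 3-cycle that is split by another one. -/
def Dst (ρ σ : IPm M α) (x : α) : Prop :=
  ρ.1 x ≠ x ∧ ((σ.1 x ≠ x ∧ ∀ x', ρ.1 x' ≠ x' → σ.1 x' ≠ x' → x' = x) ∨
    (σ.1 x = x ∧ ∀ x', ρ.1 x' ≠ x' → σ.1 x' = x' → x' = x))

theorem int_Dst : Int M (fun q : (IPm M α × IPm M α) × α => Dst q.1.1 q.1.2 q.2) := by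
  unfold Dst
  (repeat' (first | with_reducible exact IntF.id | with_reducible exact IntF.fst' | with_reducible exact IntF.snd' | with_reducible exact IntF.const _ | with_reducible exact Int.const _ | assumption | with_reducible apply Int.and | with_reducible apply Int.or | with_reducible apply Int.not | with_reducible apply Int.imp | with_reducible apply Int.iff | with_reducible apply Int.ne | with_reducible apply Int.eq | with_reducible apply Int.mem | with_reducible apply Int.subset | with_reducible apply Int.ltN | with_reducible apply Int.leN | with_reducible apply Int.fin | with_reducible apply Int.unique | with_reducible apply Int.all | with_reducible apply Int.ex | with_reducible apply IntF.fst | with_reducible apply IntF.snd | with_reducible apply IntF.app | with_reducible apply IntF.ite | with_reducible apply IntF.sep | with_reducible apply IntF.lam | with_reducible apply IntF.insert | with_reducible apply IntF.singleton | with_reducible apply IntF.union | with_reducible apply IntF.inter | with_reducible apply IntF.sdiff | with_reducible apply IntF.isUnion | with_reducible apply IntF.iimage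 | with_reducible apply IntF.the | with_reducible apply IntF.irec | with_reducible_and_instances apply IntF.add | with_reducible_and_instances apply IntF.mul | with_reducible apply IntF.succ | with_reducible apply IntF.val | (with_reducible refine Int.comp ?_ ?_; assumption) | (with_reducible refine Int.comp₂ ?_ ?_ ?_; assumption) | (with_reducible refine Int.comp₃ ?_ ?_ ?_ ?_; assumption) | (with_reducible refine Int.comp₄ ?_ ?_ ?_ ?_ ?_; assumption) | (with_reducible refine IntF.comp ?_ ?_; assumption) | (with_reducible refine IntF.comp₂ ?_ ?_ ?_; assumption) | (with_reducible refine IntF.comp₃ ?_ ?_ ?_ ?_; assumption) | with_reducible apply IntF.inl | with_reducible apply IntF.inr | with_reducible apply IntF.pair))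

theorem Dst.unique {ρ σ : IPm M α} (hρ : Thr ρ) {x x' : α} (h : Dst ρ σ x) (h' : Dst ρ σ x') :
    x = x' := by
  obtain ⟨a, b, c, hρ⟩ := hρ
  have h4 := hρ.2.2.2.1
  have h5 := hρ.2.2.2.2.1
  have h6 := hρ.2.2.2.2.2.1
  have ha := hρ.moves.2 (Or.inl (rfl : a = a))
  have hb := hρ.moves.2 (Or.inr (Or.inl (rfl : b = b)))
  have hc := hρ.moves.2 (Or.inr (Or.inr (rfl : c = c)))
  obtain ⟨h1, h2⟩ := h
  obtain ⟨h1', h2'⟩ := h'
  have key : ∀ x x', ρ.1 x ≠ x → ρ.1 x' ≠ x' →
      (∀ y, ρ.1 y ≠ y → σ.1 y ≠ y → y = x) → (∀ y, ρ.1 y ≠ y → σ.1 y = y → y = x') → False := by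
    intro x x' _ _ k1 k2
    have h7 : ∀ y, ρ.1 y ≠ y → y = x ∨ y = x' := fun y hy => by
      by_cases h8 : σ.1 y = y
      · exact Or.inr (k2 y hy h8)
      · exact Or.inl (k1 y hy h8)
    rcases h7 a ha with e1 | e1 <;> rcases h7 b hb with e2 | e2 <;>
      rcases h7 c hc with e3 | e3
    · exact h4 (e1.trans e2.symm)
    · exact h4 (e1.trans e2.symm)
    · exact h6 (e3.trans e1.symm)
    · exact h5 (e2.trans e3.symm)
    · exact h5 (e2.trans e3.symm)
    · exact h6 (e3.trans e1.symm)
    · exact h4 (e1.trans e2.symm)
    · exact h4 (e1.trans e2.symm)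
  rcases h2 with ⟨h2, h3⟩ | ⟨h2, h3⟩ <;> rcases h2' with ⟨h2', h3'⟩ | ⟨h2', h3'⟩
  · exact h3' x h1 h2
  · exact (key x x' h1 h1' h3 h3').elim
  · exact (key x' x h1' h1 h3' h3).elim
  · exact h3' x h1 h2

theorem exists_Dst {ρ σ : IPm M α} (hρ : Thr ρ) (h : ∃ x, ρ.1 x ≠ x ∧ σ.1 x ≠ x)
    (h' : ∃ x, ρ.1 x ≠ x ∧ σ.1 x = x) : ∃ x, Dst ρ σ x := by
  obtain ⟨x, hx, hx'⟩ := h
  obtain ⟨y, hy, hy'⟩ := h'
  obtain ⟨a, b, c, hρ⟩ := hρ
  obtain ⟨b', c', hρ', -⟩ := hρ.start hx
  have hyx : y = b' ∨ y = c' := by
    rcases hρ'.moves.1 hy with h | h | h
    · rw [h] at hy'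
      exact absurd hy' hx'
    · exact Or.inl h
    · exact Or.inr h
  -- the third point
  obtain ⟨z, hz⟩ : ∃ z, ∀ w, ρ.1 w ≠ w ↔ w = x ∨ w = y ∨ w = z := by
    rcases hyx with rfl | rfl
    · exact ⟨c', fun w => hρ'.moves⟩
    · refine ⟨b', fun w => hρ'.moves.trans ?_⟩
      tauto
  by_cases hzσ : σ.1 z = z
  · refine ⟨x, hx, Or.inl ⟨hx', fun w hw hw' => ?_⟩⟩
    rcases (hz w).1 hw with h | h | h
    · exact h
    · rw [h] at hw'
      exact absurd hy' hw'
    · rw [h] at hw'
      exact absurd hzσ hw'
  · refine ⟨y, hy, Or.inr ⟨hy', fun w hw hw' => ?_⟩⟩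
    rcases (hz w).1 hw with h | h | h
    · rw [h] at hw'
      exact absurd hw' hx'
    · exact h
    · rw [h] at hw'
      exact absurd hw' hzσ

/-! ### States -/

/-- The point with index `i`. -/
def elt (s : IPow M (ι × (α ⊕ IPm M α))) (i : ι) (x : α) : Prop := (i, Sum.inl x) ∈ s

/-- The 3-cycle with index `i`, if there is no point with this index. -/
def cyc' (s : IPow M (ι × (α ⊕ IPm M α))) (i : ι) (σ : IPm M α) : Prop :=
  (i, Sum.inr σ) ∈ s ∧ ¬ ∃ x : α, (i, Sum.inl x) ∈ s

/-- The support of the object with index `i`. -/
def ob (s : IPow M (ι × (α ⊕ IPm M α))) (i : ι) (x : α) : Prop :=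
  elt s i x ∨ ∃ σ, cyc' s i σ ∧ σ.1 x ≠ x

/-- The domain. -/
def dm (s : IPow M (ι × (α ⊕ IPm M α))) (i : ι) : Prop := ∃ y, (i, y) ∈ s

theorem int_elt : Int M (fun q : (IPow M (ι × (α ⊕ IPm M α)) × ι) × α => elt q.1.1 q.1.2 q.2) := by
  unfold elt
  (repeat' (first | with_reducible exact IntF.id | with_reducible exact IntF.fst' | with_reducible exact IntF.snd' | with_reducible exact IntF.const _ | with_reducible exact Int.const _ | assumption | with_reducible apply Int.and | with_reducible apply Int.or | with_reducible apply Int.not | with_reducible apply Int.imp | with_reducible apply Int.iff | with_reducible apply Int.ne | with_reducible apply Int.eq | with_reducible apply Int.mem | with_reducible apply Int.subset | with_reducible apply Int.ltN | with_reducible apply Int.leN | with_reducible apply Int.fin | with_reducible apply Int.unique | with_reducible apply Int.all | with_reducible apply Int.ex | with_reducible apply IntF.fst | with_reducible apply IntF.snd | with_reducible apply IntF.app | with_reducible apply IntF.ite | with_reducible apply IntF.sep | with_reducible apply IntF.lam | with_reducible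 apply IntF.insert | with_reducible apply IntF.singleton | with_reducible apply IntF.union | with_reducible apply IntF.inter | with_reducible apply IntF.sdiff | with_reducible apply IntF.isUnion | with_reducible apply IntF.iimage | with_reducible apply IntF.the | with_reducible apply IntF.irec | with_reducible_and_instances apply IntF.add | with_reducible_and_instances apply IntF.mul | with_reducible apply IntF.succ | with_reducible apply IntF.val | (with_reducible refine Int.comp ?_ ?_; assumption) | (with_reducible refine Int.comp₂ ?_ ?_ ?_; assumption) | (with_reducible refine Int.comp₃ ?_ ?_ ?_ ?_; assumption) | (with_reducible refine Int.comp₄ ?_ ?_ ?_ ?_ ?_; assumption) | (with_reducible refine IntF.comp ?_ ?_; assumption) | (with_reducible refine IntF.comp₂ ?_ ?_ ?_; assumption) | (with_reducible refine IntF.comp₃ ?_ ?_ ?_ ?_; assumption) | with_reducible apply IntF.inl | with_reducible apply IntF.inr | with_reducible apply IntF.pair))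

theorem int_cyc' : Int M (fun q : (IPow M (ι × (α ⊕ IPm M α)) × ι) × IPm M α =>
    cyc' q.1.1 q.1.2 q.2) := by
  unfold cyc'
  (repeat' (first | with_reducible exact IntF.id | with_reducible exact IntF.fst' | with_reducible exact IntF.snd' | with_reducible exact IntF.const _ | with_reducible exact Int.const _ | assumption | with_reducible apply Int.and | with_reducible apply Int.or | with_reducible apply Int.not | with_reducible apply Int.imp | with_reducible apply Int.iff | with_reducible apply Int.ne | with_reducible apply Int.eq | with_reducible apply Int.mem | with_reducible apply Int.subset | with_reducible apply Int.ltN | with_reducible apply Int.leN | with_reducible apply Int.fin | with_reducible apply Int.unique | with_reducible apply Int.all | with_reducible apply Int.ex | with_reducible apply IntF.fst | with_reducible apply IntF.snd | with_reducible apply IntF.app | with_reducible apply IntF.ite | with_reducible apply IntF.sep | with_reducible apply IntF.lam | with_reducible apply IntF.insert | with_reducible apply IntF.singleton | with_reducible apply IntF.union | with_reducible apply IntF.inter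 | with_reducible apply IntF.sdiff | with_reducible apply IntF.isUnion | with_reducible apply IntF.iimage | with_reducible apply IntF.the | with_reducible apply IntF.irec | with_reducible_and_instances apply IntF.add | with_reducible_and_instances apply IntF.mul | with_reducible apply IntF.succ | with_reducible apply IntF.val | (with_reducible refine Int.comp ?_ ?_; assumption) | (with_reducible refine Int.comp₂ ?_ ?_ ?_; assumption) | (with_reducible refine Int.comp₃ ?_ ?_ ?_ ?_; assumption) | (with_reducible refine Int.comp₄ ?_ ?_ ?_ ?_ ?_; assumption) | (with_reducible refine IntF.comp ?_ ?_; assumption) | (with_reducible refine IntF.comp₂ ?_ ?_ ?_; assumption) | (with_reducible refine IntF.comp₃ ?_ ?_ ?_ ?_; assumption) | with_reducible apply IntF.inl | with_reducible apply IntF.inr | with_reducible apply IntF.pair))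

theorem int_ob : Int M (fun q : (IPow M (ι × (α ⊕ IPm M α)) × ι) × α => ob q.1.1 q.1.2 q.2) := by
  have h1 := int_elt (M := M) (α := α) (ι := ι)
  have h2 := int_cyc' (M := M) (α := α) (ι := ι)
  unfold ob
  (repeat' (first | with_reducible exact IntF.id | with_reducible exact IntF.fst' | with_reducible exact IntF.snd' | with_reducible exact IntF.const _ | with_reducible exact Int.const _ | assumption | with_reducible apply Int.and | with_reducible apply Int.or | with_reducible apply Int.not | with_reducible apply Int.imp | with_reducible apply Int.iff | with_reducible apply Int.ne | with_reducible apply Int.eq | with_reducible apply Int.mem | with_reducible apply Int.subset | with_reducible apply Int.ltN | with_reducible apply Int.leN | with_reducible apply Int.fin | with_reducible apply Int.unique | with_reducible apply Int.all | with_reducible apply Int.ex | with_reducible apply IntF.fst | with_reducible apply IntF.snd | with_reducible apply IntF.app | with_reducible apply IntF.ite | with_reducible apply IntF.sep | with_reducible apply IntF.lam | with_reducible apply IntF.insert | with_reducible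 apply IntF.singleton | with_reducible apply IntF.union | with_reducible apply IntF.inter | with_reducible apply IntF.sdiff | with_reducible apply IntF.isUnion | with_reducible apply IntF.iimage | with_reducible apply IntF.the | with_reducible apply IntF.irec | with_reducible_and_instances apply IntF.add | with_reducible_and_instances apply IntF.mul | with_reducible apply IntF.succ | with_reducible apply IntF.val | (with_reducible refine Int.comp ?_ ?_; assumption) | (with_reducible refine Int.comp₂ ?_ ?_ ?_; assumption) | (with_reducible refine Int.comp₃ ?_ ?_ ?_ ?_; assumption) | (with_reducible refine Int.comp₄ ?_ ?_ ?_ ?_ ?_; assumption) | (with_reducible refine IntF.comp ?_ ?_; assumption) | (with_reducible refine IntF.comp₂ ?_ ?_ ?_; assumption) | (with_reducible refine IntF.comp₃ ?_ ?_ ?_ ?_; assumption) | with_reducible apply IntF.inl | with_reducible apply IntF.inr | with_reducible apply IntF.pair))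

theorem int_dm : Int M (fun q : IPow M (ι × (α ⊕ IPm M α)) × ι => dm q.1 q.2) := by
  unfold dm
  (repeat' (first | with_reducible exact IntF.id | with_reducible exact IntF.fst' | with_reducible exact IntF.snd' | with_reducible exact IntF.const _ | with_reducible exact Int.const _ | assumption | with_reducible apply Int.and | with_reducible apply Int.or | with_reducible apply Int.not | with_reducible apply Int.imp | with_reducible apply Int.iff | with_reducible apply Int.ne | with_reducible apply Int.eq | with_reducible apply Int.mem | with_reducible apply Int.subset | with_reducible apply Int.ltN | with_reducible apply Int.leN | with_reducible apply Int.fin | with_reducible apply Int.unique | with_reducible apply Int.all | with_reducible apply Int.ex | with_reducible apply IntF.fst | with_reducible apply IntF.snd | with_reducible apply IntF.app | with_reducible apply IntF.ite | with_reducible apply IntF.sep | with_reducible apply IntF.lam | with_reducible apply IntF.insert | with_reducible apply IntF.singleton | with_reducible apply IntF.union | with_reducible apply IntF.inter | with_reducible apply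 IntF.sdiff | with_reducible apply IntF.isUnion | with_reducible apply IntF.iimage | with_reducible apply IntF.the | with_reducible apply IntF.irec | with_reducible_and_instances apply IntF.add | with_reducible_and_instances apply IntF.mul | with_reducible apply IntF.succ | with_reducible apply IntF.val | (with_reducible refine Int.comp ?_ ?_; assumption) | (with_reducible refine Int.comp₂ ?_ ?_ ?_; assumption) | (with_reducible refine Int.comp₃ ?_ ?_ ?_ ?_; assumption) | (with_reducible refine Int.comp₄ ?_ ?_ ?_ ?_ ?_; assumption) | (with_reducible refine IntF.comp ?_ ?_; assumption) | (with_reducible refine IntF.comp₂ ?_ ?_ ?_; assumption) | (with_reducible refine IntF.comp₃ ?_ ?_ ?_ ?_; assumption) | with_reducible apply IntF.inl | with_reducible apply IntF.inr | with_reducible apply IntF.pair))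

/-- Valid states. -/
def Valid (lt : ι → ι → Prop) (s : IPow M (ι × (α ⊕ IPm M α))) : Prop :=
  (∀ i j, dm s i → lt j i → dm s j) ∧
  (∀ i x x', elt s i x → elt s i x' → x = x') ∧
  (∀ i (σ σ' : IPm M α), (i, Sum.inr σ) ∈ s → (i, Sum.inr σ') ∈ s → σ = σ') ∧
  (∀ i (σ : IPm M α), (i, Sum.inr σ) ∈ s → Thr σ) ∧
  ∀ i j x, ob s i x → ob s j x → i = j

theorem int_Valid {lt : ι → ι → Prop} (hl : Int M (fun q : ι × ι => lt q.1 q.2)) :
    Int M (fun s : IPow M (ι × (α ⊕ IPm M α)) => Valid lt s) := by
  have h1 := int_elt (M := M) (α := α) (ι := ι)
  have h2 := int_ob (M := M) (α := α) (ι := ι)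
  have h3 := int_dm (M := M) (α := α) (ι := ι)
  have h4 := int_Thr (M := M) (α := α)
  unfold Valid
  (repeat' (first | with_reducible exact IntF.id | with_reducible exact IntF.fst' | with_reducible exact IntF.snd' | with_reducible exact IntF.const _ | with_reducible exact Int.const _ | assumption | with_reducible apply Int.and | with_reducible apply Int.or | with_reducible apply Int.not | with_reducible apply Int.imp | with_reducible apply Int.iff | with_reducible apply Int.ne | with_reducible apply Int.eq | with_reducible apply Int.mem | with_reducible apply Int.subset | with_reducible apply Int.ltN | with_reducible apply Int.leN | with_reducible apply Int.fin | with_reducible apply Int.unique | with_reducible apply Int.all | with_reducible apply Int.ex | with_reducible apply IntF.fst | with_reducible apply IntF.snd | with_reducible apply IntF.app | with_reducible apply IntF.ite | with_reducible apply IntF.sep | with_reducible apply IntF.lam | with_reducible apply IntF.insert | with_reducible apply IntF.singleton | with_reducible apply IntF.union | with_reducible apply IntF.inter | with_reducible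 apply IntF.sdiff | with_reducible apply IntF.isUnion | with_reducible apply IntF.iimage | with_reducible apply IntF.the | with_reducible apply IntF.irec | with_reducible_and_instances apply IntF.add | with_reducible_and_instances apply IntF.mul | with_reducible apply IntF.succ | with_reducible apply IntF.val | (with_reducible refine Int.comp ?_ ?_; assumption) | (with_reducible refine Int.comp₂ ?_ ?_ ?_; assumption) | (with_reducible refine Int.comp₃ ?_ ?_ ?_ ?_; assumption) | (with_reducible refine Int.comp₄ ?_ ?_ ?_ ?_ ?_; assumption) | (with_reducible refine IntF.comp ?_ ?_; assumption) | (with_reducible refine IntF.comp₂ ?_ ?_ ?_; assumption) | (with_reducible refine IntF.comp₃ ?_ ?_ ?_ ?_; assumption) | with_reducible apply IntF.inl | with_reducible apply IntF.inr | with_reducible apply IntF.pair))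

variable {lt : ι → ι → Prop} {s : IPow M (ι × (α ⊕ IPm M α))}

theorem Valid.ne (h : Valid lt s) {i : ι} (hi : dm s i) : ∃ x, ob s i x := by
  obtain ⟨y, hy⟩ := hi
  rcases y with x | σ
  · exact ⟨x, Or.inl hy⟩
  · by_cases h1 : ∃ x : α, (i, Sum.inl x) ∈ s
    · obtain ⟨x, hx⟩ := h1
      exact ⟨x, Or.inl hx⟩
    · obtain ⟨x, hx⟩ := (h.2.2.2.1 i σ hy).ne
      exact ⟨x, Or.inr ⟨σ, ⟨hy, h1⟩, hx⟩⟩

theorem ob_dm {i : ι} {x : α} (h : ob s i x) : dm s i := by
  rcases h with h | ⟨σ, h, _⟩
  · exact ⟨_, h⟩
  · exact ⟨_, h.1⟩

theorem Valid.fin (h : Valid lt s) (i : ι) : FinP M (fun x => ob s i x) := by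
  by_cases h1 : ∃ x, elt s i x
  · obtain ⟨x, hx⟩ := h1
    refine (FinP.eq x).mono fun y hy => ?_
    rcases hy with hy | ⟨σ, hσ, _⟩
    · exact h.2.1 i y x hy hx
    · exact absurd ⟨x, hx⟩ hσ.2
  · by_cases h2 : ∃ σ : IPm M α, (i, Sum.inr σ) ∈ s
    · obtain ⟨σ, hσ⟩ := h2
      refine (h.2.2.2.1 i σ hσ).fin.mono fun y hy => ?_
      rcases hy with hy | ⟨σ', hσ', hy⟩
      · exact absurd ⟨y, hy⟩ h1
      · rwa [h.2.2.1 i σ σ' hσ hσ'.1]
    · refine ⟨∅, IFin.empty, fun y hy => ?_⟩
      rcases hy with hy | ⟨σ', hσ', hy⟩
      · exact absurd ⟨y, hy⟩ h1
      · exact absurd ⟨σ', hσ'.1⟩ h2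

theorem Valid.finU (h : Valid lt s) {B : IPow M ι} (hB : IFin B) :
    FinP M (fun x => ∃ i, i ∈ B ∧ ob s i x) := by
  have h1 := int_ob (M := M) (α := α) (ι := ι)
  have hI : IntF M (fun i => sep M fun x => ob s i x) := by (repeat' (first | with_reducible exact IntF.id | with_reducible exact IntF.fst' | with_reducible exact IntF.snd' | with_reducible exact IntF.const _ | with_reducible exact Int.const _ | assumption | with_reducible apply Int.and | with_reducible apply Int.or | with_reducible apply Int.not | with_reducible apply Int.imp | with_reducible apply Int.iff | with_reducible apply Int.ne | with_reducible apply Int.eq | with_reducible apply Int.mem | with_reducible apply Int.subset | with_reducible apply Int.ltN | with_reducible apply Int.leN | with_reducible apply Int.fin | with_reducible apply Int.unique | with_reducible apply Int.all | with_reducible apply Int.ex | with_reducible apply IntF.fst | with_reducible apply IntF.snd | with_reducible apply IntF.app | with_reducible apply IntF.ite | with_reducible apply IntF.sep | with_reducible apply IntF.lam | with_reducible apply IntF.insert |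 with_reducible apply IntF.singleton | with_reducible apply IntF.union | with_reducible apply IntF.inter | with_reducible apply IntF.sdiff | with_reducible apply IntF.isUnion | with_reducible apply IntF.iimage | with_reducible apply IntF.the | with_reducible apply IntF.irec | with_reducible_and_instances apply IntF.add | with_reducible_and_instances apply IntF.mul | with_reducible apply IntF.succ | with_reducible apply IntF.val | (with_reducible refine Int.comp ?_ ?_; assumption) | (with_reducible refine Int.comp₂ ?_ ?_ ?_; assumption) | (with_reducible refine Int.comp₃ ?_ ?_ ?_ ?_; assumption) | (with_reducible refine Int.comp₄ ?_ ?_ ?_ ?_ ?_; assumption) | (with_reducible refine IntF.comp ?_ ?_; assumption) | (with_reducible refine IntF.comp₂ ?_ ?_ ?_; assumption) | (with_reducible refine IntF.comp₃ ?_ ?_ ?_ ?_; assumption) | with_reducible apply IntF.inl | with_reducible apply IntF.inr | with_reducible apply IntF.pair))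
  refine (finP_iUnion hB hI fun i _ => (h.fin i).fin (by (repeat' (first | with_reducible exact IntF.id | with_reducible exact IntF.fst' | with_reducible exact IntF.snd' | with_reducible exact IntF.const _ | with_reducible exact Int.const _ | assumption | with_reducible apply Int.and | with_reducible apply Int.or | with_reducible apply Int.not | with_reducible apply Int.imp | with_reducible apply Int.iff | with_reducible apply Int.ne | with_reducible apply Int.eq | with_reducible apply Int.mem | with_reducible apply Int.subset | with_reducible apply Int.ltN | with_reducible apply Int.leN | with_reducible apply Int.fin | with_reducible apply Int.unique | with_reducible apply Int.all | with_reducible apply Int.ex | with_reducible apply IntF.fst | with_reducible apply IntF.snd | with_reducible apply IntF.app | with_reducible apply IntF.ite | with_reducible apply IntF.sep | with_reducible apply IntF.lam | with_reducible apply IntF.insert | with_reducible apply IntF.singleton | with_reducible apply IntF.union | with_reducible apply IntF.inter | with_reducible apply IntF.sdiff | with_reducible apply IntF.isUnion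 | with_reducible apply IntF.iimage | with_reducible apply IntF.the | with_reducible apply IntF.irec | with_reducible_and_instances apply IntF.add | with_reducible_and_instances apply IntF.mul | with_reducible apply IntF.succ | with_reducible apply IntF.val | (with_reducible refine Int.comp ?_ ?_; assumption) | (with_reducible refine Int.comp₂ ?_ ?_ ?_; assumption) | (with_reducible refine Int.comp₃ ?_ ?_ ?_ ?_; assumption) | (with_reducible refine Int.comp₄ ?_ ?_ ?_ ?_ ?_; assumption) | (with_reducible refine IntF.comp ?_ ?_; assumption) | (with_reducible refine IntF.comp₂ ?_ ?_ ?_; assumption) | (with_reducible refine IntF.comp₃ ?_ ?_ ?_ ?_; assumption) | with_reducible apply IntF.inl | with_reducible apply IntF.inr | with_reducible apply IntF.pair)))).mono fun x hx => ?_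
  obtain ⟨i, hi, hx⟩ := hx
  exact ⟨i, hi, (mem_sep (by (repeat' (first | with_reducible exact IntF.id | with_reducible exact IntF.fst' | with_reducible exact IntF.snd' | with_reducible exact IntF.const _ | with_reducible exact Int.const _ | assumption | with_reducible apply Int.and | with_reducible apply Int.or | with_reducible apply Int.not | with_reducible apply Int.imp | with_reducible apply Int.iff | with_reducible apply Int.ne | with_reducible apply Int.eq | with_reducible apply Int.mem | with_reducible apply Int.subset | with_reducible apply Int.ltN | with_reducible apply Int.leN | with_reducible apply Int.fin | with_reducible apply Int.unique | with_reducible apply Int.all | with_reducible apply Int.ex | with_reducible apply IntF.fst | with_reducible apply IntF.snd | with_reducible apply IntF.app | with_reducible apply IntF.ite | with_reducible apply IntF.sep | with_reducible apply IntF.lam | with_reducible apply IntF.insert | with_reducible apply IntF.singleton | with_reducible apply IntF.union | with_reducible apply IntF.inter | with_reducible apply IntF.sdiff | with_reducible apply IntF.isUnion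 | with_reducible apply IntF.iimage | with_reducible apply IntF.the | with_reducible apply IntF.irec | with_reducible_and_instances apply IntF.add | with_reducible_and_instances apply IntF.mul | with_reducible apply IntF.succ | with_reducible apply IntF.val | (with_reducible refine Int.comp ?_ ?_; assumption) | (with_reducible refine Int.comp₂ ?_ ?_ ?_; assumption) | (with_reducible refine Int.comp₃ ?_ ?_ ?_ ?_; assumption) | (with_reducible refine Int.comp₄ ?_ ?_ ?_ ?_ ?_; assumption) | (with_reducible refine IntF.comp ?_ ?_; assumption) | (with_reducible refine IntF.comp₂ ?_ ?_ ?_; assumption) | (with_reducible refine IntF.comp₃ ?_ ?_ ?_ ?_; assumption) | with_reducible apply IntF.inl | with_reducible apply IntF.inr | with_reducible apply IntF.pair)))).2 hx⟩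

/-! ### Canonical partitions: a single block -/

/-- One block that is the union of the objects with index in `B`. -/
noncomputable def PB (s : IPow M (ι × (α ⊕ IPm M α))) (B : IPow M ι) : FEq M α :=
  mkR fun x y => x = y ∨ ((∃ i, i ∈ B ∧ ob s i x) ∧ ∃ i, i ∈ B ∧ ob s i y)

theorem int_PB : IntF M (fun q : IPow M (ι × (α ⊕ IPm M α)) × IPow M ι => PB q.1 q.2) := by
  have h1 := int_ob (M := M) (α := α) (ι := ι)
  unfold PB
  exact IntF.mkR (p := fun (q : IPow M (ι × (α ⊕ IPm M α)) × IPow M ι) x y =>
    x = y ∨ ((∃ i, i ∈ q.2 ∧ ob q.1 i x) ∧ ∃ i, i ∈ q.2 ∧ ob q.1 i y)) (by (repeat' (first | with_reducible exact IntF.id | with_reducible exact IntF.fst' | with_reducible exact IntF.snd' | with_reducible exact IntF.const _ | with_reducible exact Int.const _ | assumption | with_reducible apply Int.and | with_reducible apply Int.or | with_reducible apply Int.not | with_reducible apply Int.imp | with_reducible apply Int.iff | with_reducible apply Int.ne | with_reducible apply Int.eq | with_reducible apply Int.mem | with_reducible apply Int.subset | with_reducible apply Int.ltN | with_reducible apply Int.leN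 | with_reducible apply Int.fin | with_reducible apply Int.unique | with_reducible apply Int.all | with_reducible apply Int.ex | with_reducible apply IntF.fst | with_reducible apply IntF.snd | with_reducible apply IntF.app | with_reducible apply IntF.ite | with_reducible apply IntF.sep | with_reducible apply IntF.lam | with_reducible apply IntF.insert | with_reducible apply IntF.singleton | with_reducible apply IntF.union | with_reducible apply IntF.inter | with_reducible apply IntF.sdiff | with_reducible apply IntF.isUnion | with_reducible apply IntF.iimage | with_reducible apply IntF.the | with_reducible apply IntF.irec | with_reducible_and_instances apply IntF.add | with_reducible_and_instances apply IntF.mul | with_reducible apply IntF.succ | with_reducible apply IntF.val | (with_reducible refine Int.comp ?_ ?_; assumption) | (with_reducible refine Int.comp₂ ?_ ?_ ?_; assumption) | (with_reducible refine Int.comp₃ ?_ ?_ ?_ ?_; assumption) | (with_reducible refine Int.comp₄ ?_ ?_ ?_ ?_ ?_; assumption) | (with_reducible refine IntF.comp ?_ ?_; assumption) | (with_reducible refine IntF.comp₂ ?_ ?_ ?_;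 assumption) | (with_reducible refine IntF.comp₃ ?_ ?_ ?_ ?_; assumption) | with_reducible apply IntF.inl | with_reducible apply IntF.inr | with_reducible apply IntF.pair)))

theorem PB_spec (h : Valid lt s) {B : IPow M ι} (hB : IFin B) (x y : α) :
    (x, y) ∈ (PB s B).1 ↔ x = y ∨ ((∃ i, i ∈ B ∧ ob s i x) ∧ ∃ i, i ∈ B ∧ ob s i y) := by
  have h1 := int_ob (M := M) (α := α) (ι := ι)
  refine mkR_spec (p := fun x y => x = y ∨ ((∃ i, i ∈ B ∧ ob s i x) ∧ ∃ i, i ∈ B ∧ ob s i y))
    (by (repeat' (first | with_reducible exact IntF.id | with_reducible exact IntF.fst' | with_reducible exact IntF.snd' | with_reducible exact IntF.const _ | with_reducible exact Int.const _ | assumption | with_reducible apply Int.and | with_reducible apply Int.or | with_reducible apply Int.not | with_reducible apply Int.imp | with_reducible apply Int.iff | with_reducible apply Int.ne | with_reducible apply Int.eq | with_reducible apply Int.mem | with_reducible apply Int.subset | with_reducible apply Int.ltN | with_reducible apply Int.leN | with_reducible apply Int.fin | with_reducible apply Int.unique | with_reducible apply Int.all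 | with_reducible apply Int.ex | with_reducible apply IntF.fst | with_reducible apply IntF.snd | with_reducible apply IntF.app | with_reducible apply IntF.ite | with_reducible apply IntF.sep | with_reducible apply IntF.lam | with_reducible apply IntF.insert | with_reducible apply IntF.singleton | with_reducible apply IntF.union | with_reducible apply IntF.inter | with_reducible apply IntF.sdiff | with_reducible apply IntF.isUnion | with_reducible apply IntF.iimage | with_reducible apply IntF.the | with_reducible apply IntF.irec | with_reducible_and_instances apply IntF.add | with_reducible_and_instances apply IntF.mul | with_reducible apply IntF.succ | with_reducible apply IntF.val | (with_reducible refine Int.comp ?_ ?_; assumption) | (with_reducible refine Int.comp₂ ?_ ?_ ?_; assumption) | (with_reducible refine Int.comp₃ ?_ ?_ ?_ ?_; assumption) | (with_reducible refine Int.comp₄ ?_ ?_ ?_ ?_ ?_; assumption) | (with_reducible refine IntF.comp ?_ ?_; assumption) | (with_reducible refine IntF.comp₂ ?_ ?_ ?_; assumption) | (with_reducible refine IntF.comp₃ ?_ ?_ ?_ ?_; assumption) | with_reducible apply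 IntF.inl | with_reducible apply IntF.inr | with_reducible apply IntF.pair))) (fun x => Or.inl rfl)
    (fun x y h => h.elim (fun h => Or.inl h.symm) fun h => Or.inr ⟨h.2, h.1⟩)
    (fun x y z h h' => ?_) (fun x => ?_) x y
  · rcases h with rfl | h
    · exact h'
    · rcases h' with rfl | h'
      · exact Or.inr h
      · exact Or.inr ⟨h.1, h'.2⟩
  · exact ((FinP.eq x).or (h.finU hB)).mono fun y hy =>
      hy.elim (fun h => Or.inl h.symm) fun h => Or.inr h.2

theorem PB_inj (h : Valid lt s) {B B' : IPow M ι} (hB : IFin B) (hB' : IFin B')
    (hd : ∀ i, i ∈ B → dm s i) (h2 : ∀ i, i ∈ B → ∃ j, j ∈ B ∧ j ≠ i)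
    (he : PB s B = PB s B') : ∀ i, i ∈ B → i ∈ B' := by
  intro i hi
  obtain ⟨j, hj, hji⟩ := h2 i hi
  obtain ⟨x, hx⟩ := h.ne (hd i hi)
  obtain ⟨y, hy⟩ := h.ne (hd j hj)
  have h1 : (x, y) ∈ (PB s B).1 := (PB_spec h hB x y).2 (Or.inr ⟨⟨i, hi, hx⟩, j, hj, hy⟩)
  rw [he, PB_spec h hB'] at h1
  rcases h1 with rfl | ⟨⟨k, hk, hk'⟩, _⟩
  · exact absurd (h.2.2.2.2 _ _ _ hy hx) hji
  · rw [h.2.2.2.2 _ _ _ hx hk']
    exact hk

/-! ### Canonical partitions: many blocks -/

/-- The block with index `i`. -/
def bk (π : ι → ι) (s : IPow M (ι × (α ⊕ IPm M α))) (i : ι) (x : α) : Prop :=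
  ob s i x ∨ ob s (π i) x

/-- The blocks with index in `X`. -/
noncomputable def PX (π : ι → ι) (s : IPow M (ι × (α ⊕ IPm M α))) (X : IPow M ι) : FEq M α :=
  mkR fun x y => x = y ∨ ∃ i, i ∈ X ∧ bk π s i x ∧ bk π s i y

theorem int_PX {π : ι → ι} (hπ : IntF M π) :
    IntF M (fun q : IPow M (ι × (α ⊕ IPm M α)) × IPow M ι => PX π q.1 q.2) := by
  have h1 := int_ob (M := M) (α := α) (ι := ι)
  unfold PX bk
  exact IntF.mkR (p := fun (q : IPow M (ι × (α ⊕ IPm M α)) × IPow M ι) x y =>
    x = y ∨ ∃ i, i ∈ q.2 ∧ (ob q.1 i x ∨ ob q.1 (π i) x) ∧ (ob q.1 i y ∨ ob q.1 (π i) y)) (by (repeat' (first | with_reducible exact IntF.id | with_reducible exact IntF.fst' | with_reducible exact IntF.snd' | with_reducible exact IntF.const _ | with_reducible exact Int.const _ | assumption | with_reducible apply Int.and | with_reducible apply Int.or | with_reducible apply Int.not | with_reducible apply Int.imp | with_reducible apply Int.iff | with_reducible apply Int.ne | with_reducible apply Int.eq | with_reducible apply Int.mem | with_reducible apply Int.subset | with_reducible apply Int.ltN | with_reducible apply Int.leN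 | with_reducible apply Int.fin | with_reducible apply Int.unique | with_reducible apply Int.all | with_reducible apply Int.ex | with_reducible apply IntF.fst | with_reducible apply IntF.snd | with_reducible apply IntF.app | with_reducible apply IntF.ite | with_reducible apply IntF.sep | with_reducible apply IntF.lam | with_reducible apply IntF.insert | with_reducible apply IntF.singleton | with_reducible apply IntF.union | with_reducible apply IntF.inter | with_reducible apply IntF.sdiff | with_reducible apply IntF.isUnion | with_reducible apply IntF.iimage | with_reducible apply IntF.the | with_reducible apply IntF.irec | with_reducible_and_instances apply IntF.add | with_reducible_and_instances apply IntF.mul | with_reducible apply IntF.succ | with_reducible apply IntF.val | (with_reducible refine Int.comp ?_ ?_; assumption) | (with_reducible refine Int.comp₂ ?_ ?_ ?_; assumption) | (with_reducible refine Int.comp₃ ?_ ?_ ?_ ?_; assumption) | (with_reducible refine Int.comp₄ ?_ ?_ ?_ ?_ ?_; assumption) | (with_reducible refine IntF.comp ?_ ?_; assumption) | (with_reducible refine IntF.comp₂ ?_ ?_ ?_;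 assumption) | (with_reducible refine IntF.comp₃ ?_ ?_ ?_ ?_; assumption) | with_reducible apply IntF.inl | with_reducible apply IntF.inr | with_reducible apply IntF.pair)))

/-- A set of indices for the blocks. -/
def Sep (π : ι → ι) (s : IPow M (ι × (α ⊕ IPm M α))) (X : IPow M ι) : Prop :=
  (∀ i, i ∈ X → dm s i ∧ dm s (π i)) ∧ (∀ i j, i ∈ X → j ∈ X → π i = π j → i = j) ∧
    ∀ i j, i ∈ X → j ∈ X → π i ≠ j

theorem Sep.uniq (h : Valid lt s) {π : ι → ι} {X : IPow M ι} (hX : Sep π s X) {i j : ι} {x : α}
    (hi : i ∈ X) (hj : j ∈ X) (h1 : bk π s i x) (h2 : bk π s j x) : i = j := by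
  rcases h1 with h1 | h1 <;> rcases h2 with h2 | h2
  · exact h.2.2.2.2 _ _ _ h1 h2
  · exact absurd (h.2.2.2.2 _ _ _ h2 h1) (hX.2.2 j i hj hi)
  · exact absurd (h.2.2.2.2 _ _ _ h1 h2) (hX.2.2 i j hi hj)
  · exact hX.2.1 i j hi hj (h.2.2.2.2 _ _ _ h1 h2)

theorem PX_spec (h : Valid lt s) {π : ι → ι} (hπ : IntF M π) {X : IPow M ι} (hX : Sep π s X)
    (x y : α) : (x, y) ∈ (PX π s X).1 ↔ x = y ∨ ∃ i, i ∈ X ∧ bk π s i x ∧ bk π s i y := by
  have h1 := int_ob (M := M) (α := α) (ι := ι)
  refine mkR_spec (p := fun x y => x = y ∨ ∃ i, i ∈ X ∧ bk π s i x ∧ bk π s i y)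
    (by unfold bk; (repeat' (first | with_reducible exact IntF.id | with_reducible exact IntF.fst' | with_reducible exact IntF.snd' | with_reducible exact IntF.const _ | with_reducible exact Int.const _ | assumption | with_reducible apply Int.and | with_reducible apply Int.or | with_reducible apply Int.not | with_reducible apply Int.imp | with_reducible apply Int.iff | with_reducible apply Int.ne | with_reducible apply Int.eq | with_reducible apply Int.mem | with_reducible apply Int.subset | with_reducible apply Int.ltN | with_reducible apply Int.leN | with_reducible apply Int.fin | with_reducible apply Int.unique | with_reducible apply Int.all | with_reducible apply Int.ex | with_reducible apply IntF.fst | with_reducible apply IntF.snd | with_reducible apply IntF.app | with_reducible apply IntF.ite | with_reducible apply IntF.sep | with_reducible apply IntF.lam | with_reducible apply IntF.insert | with_reducible apply IntF.singleton | with_reducible apply IntF.union | with_reducible apply IntF.inter | with_reducible apply IntF.sdiff | with_reducible apply IntF.isUnion | with_reducible apply IntF.iimage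 | with_reducible apply IntF.the | with_reducible apply IntF.irec | with_reducible_and_instances apply IntF.add | with_reducible_and_instances apply IntF.mul | with_reducible apply IntF.succ | with_reducible apply IntF.val | (with_reducible refine Int.comp ?_ ?_; assumption) | (with_reducible refine Int.comp₂ ?_ ?_ ?_; assumption) | (with_reducible refine Int.comp₃ ?_ ?_ ?_ ?_; assumption) | (with_reducible refine Int.comp₄ ?_ ?_ ?_ ?_ ?_; assumption) | (with_reducible refine IntF.comp ?_ ?_; assumption) | (with_reducible refine IntF.comp₂ ?_ ?_ ?_; assumption) | (with_reducible refine IntF.comp₃ ?_ ?_ ?_ ?_; assumption) | with_reducible apply IntF.inl | with_reducible apply IntF.inr | with_reducible apply IntF.pair))) (fun x => Or.inl rfl) (fun x y h => ?_)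
    (fun x y z h' h'' => ?_) (fun x => ?_) x y
  · rcases h with rfl | ⟨i, h1, h2, h3⟩
    · exact Or.inl rfl
    · exact Or.inr ⟨i, h1, h3, h2⟩
  · rcases h' with rfl | ⟨i, h1, h2, h3⟩
    · exact h''
    · rcases h'' with rfl | ⟨j, h4, h5, h6⟩
      · exact Or.inr ⟨i, h1, h2, h3⟩
      · obtain rfl := hX.uniq h h1 h4 h3 h5
        exact Or.inr ⟨i, h1, h2, h6⟩
  · by_cases h2 : ∃ i, i ∈ X ∧ bk π s i x
    · obtain ⟨i, h2, h3⟩ := h2
      refine ((FinP.eq x).or ((h.fin i).or (h.fin (π i)))).mono fun y hy => ?_
      rcases hy with h4 | ⟨j, h4, h5, h6⟩
      · exact Or.inl h4.symm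
      · obtain rfl := hX.uniq h h2 h4 h3 h5
        exact Or.inr h6
    · refine (FinP.eq x).mono fun y hy => ?_
      rcases hy with h4 | ⟨j, h4, h5, h6⟩
      · exact h4.symm
      · exact absurd ⟨j, h4, h5⟩ h2

theorem PX_inj (h : Valid lt s) {π : ι → ι} (hπ : IntF M π) {X X' : IPow M ι} (hX : Sep π s X)
    (hX' : Sep π s X') (hXX : ∀ i j, i ∈ X → j ∈ X' → π j ≠ i)
    (he : PX π s X = PX π s X') : ∀ i, i ∈ X → i ∈ X' := by
  intro i hi
  obtain ⟨x, hx⟩ := h.ne (hX.1 i hi).1
  obtain ⟨y, hy⟩ := h.ne (hX.1 i hi).2
  have h1 : (x, y) ∈ (PX π s X).1 := (PX_spec h hπ hX x y).2 (Or.inr ⟨i, hi, Or.inl hx, Or.inr hy⟩)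
  rw [he, PX_spec h hπ hX'] at h1
  rcases h1 with rfl | ⟨j, hj, h2, h3⟩
  · exact absurd (h.2.2.2.2 _ _ _ hy hx) (hX.2.2 i i hi hi)
  · rcases h2 with h2 | h2
    · rw [h.2.2.2.2 _ _ _ hx h2]
      exact hj
    · exact absurd (h.2.2.2.2 _ _ _ h2 hx) (hXX i j hi hj)

end Pool.Agent.R596
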