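import Pool.Agent.R596.FPBridge
import Pool.Agent.R596.C3Defs
import Pool.Agent.R596.Obj

/-!
# From permutations with exactly three non-fixed points to internal 3-cycles
-/

set_option maxHeartbeats 400000
set_option linter.all false

namespace Pool.Agent.R596

open FirstOrder FirstOrder.Language
open Pool.Agent.Helper672.ZFA
open Pool.Agent.H310
open Pool.Agent.H310Cards
open Pool.Agent.R596Part

universe u u₁ u₂ u₃ u₄

section

attribute [local instance] Helper672.Plain.toL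

variable {M : Type u} [Helper672.Plain.LSet.Structure M] [hZ : Helper672.Plain.Zermelo M]

local instance instModelL3 : IsModel M := Helper672.Plain.isModel_toL

theorem exists_perm {a z : M} (h : IsBij z a a) :
    ∃ σ : IPm M (El a), code (M := M) σ = z ∧ ∀ x y : El a, σ.1 x = y ↔ App z x.1 y.1 := by
  obtain ⟨⟨h1, h2⟩, h3⟩ := h
  obtain ⟨φ, h4, h5⟩ := exists_fun (α := El a) (β := El a) h1 (fun x => x.2)
    fun z => mem_El.1
  refine ⟨IPm.of φ h4 (fun x y hxy => ?_) (fun y => ?_), extM fun q => ?_, h5⟩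
  · exact Subtype.ext (h2 _ _ _ ((h5 x (φ y)).1 hxy) ((h5 y (φ y)).1 rfl))
  · obtain ⟨x, hx⟩ := h3 y.1 y.2
    obtain ⟨q, h6, h7⟩ := hx
    obtain ⟨x', y', h8, h9, h10⟩ := h1.1 q h7
    have h11 := op_inj ((ordPair_iff.1 h6).symm.trans (ordPair_iff.1 h10))
    obtain ⟨rfl, -⟩ := h11
    exact ⟨⟨x, h8⟩, (h5 ⟨x, h8⟩ y).2 ⟨q, h6, h7⟩⟩
  · refine (mem_code_fun (f := (IPm.of φ h4 _ _).1)).trans ⟨?_, fun hq => ?_⟩
    · rintro ⟨x, rfl⟩
      exact app_iff.1 ((h5 x (φ x)).1 rfl)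
    · obtain ⟨x, y, h6, h7, h8⟩ := h1.1 q hq
      have h9 := (h5 ⟨x, h6⟩ ⟨y, h7⟩).2 ⟨q, h8, hq⟩
      refine ⟨⟨x, h6⟩, (ordPair_iff.1 h8).trans ?_⟩
      change _ = op x (code (φ ⟨x, h6⟩))
      rw [h9]
      rfl

theorem thr_of {a z : M} (h : IsThree z a) :
    ∃ σ : IPm M (El a), code (M := M) σ = z ∧ Thr σ := by
  obtain ⟨hb, x, y, w, hx, hy, hw, hxy, hyw, hwx, hfix⟩ := h
  obtain ⟨σ, h1, h2⟩ := exists_perm hb
  refine ⟨σ, h1, ?_⟩
  have hm : ∀ u : El a, σ.1 u ≠ u ↔ u = ⟨x, hx⟩ ∨ u = ⟨y, hy⟩ ∨ u = ⟨w, hw⟩ := by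
    intro u
    refine (not_congr (h2 u u)).trans ((hfix u.1 u.2).trans ?_)
    constructor
    · rintro (h | h | h)
      · exact Or.inl (Subtype.ext h)
      · exact Or.inr (Or.inl (Subtype.ext h))
      · exact Or.inr (Or.inr (Subtype.ext h))
    · rintro (h | h | h)
      · exact Or.inl (congrArg Subtype.val h)
      · exact Or.inr (Or.inl (congrArg Subtype.val h))
      · exact Or.inr (Or.inr (congrArg Subtype.val h))
  have key : ∀ X Y W : El a, X ≠ Y → Y ≠ W → W ≠ X →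
      (∀ u, σ.1 u ≠ u ↔ u = X ∨ u = Y ∨ u = W) → σ.1 X = Y → Thr σ := by
    intro X Y W n1 n2 n3 hm hXY
    have hst : ∀ u, σ.1 u ≠ u → σ.1 u = X ∨ σ.1 u = Y ∨ σ.1 u = W := by
      intro u hu
      refine (hm _).1 fun h => hu ?_
      exact σ.inj h
    have hY : σ.1 Y ≠ Y := (hm Y).2 (Or.inr (Or.inl rfl))
    have hW : σ.1 W ≠ W := (hm W).2 (Or.inr (Or.inr rfl))
    have hWX : σ.1 W = X := by
      rcases hst W hW with h | h | h
      · exact h
      · exact absurd (σ.inj (h.trans hXY.symm)) n3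
      · exact absurd h hW
    have hYW : σ.1 Y = W := by
      rcases hst Y hY with h | h | h
      · exact absurd (σ.inj (h.trans hWX.symm)) n2
      · exact absurd h hY
      · exact h
    refine ⟨X, Y, W, hXY, hYW, hWX, n1, n2, n3, fun u u1 u2 u3 => ?_⟩
    by_contra hc
    rcases (hm u).1 hc with h | h | h
    · exact u1 h
    · exact u2 h
    · exact u3 h
  have e1 : (⟨x, hx⟩ : El a) ≠ ⟨y, hy⟩ := fun h => hxy (congrArg Subtype.val h)
  have e2 : (⟨y, hy⟩ : El a) ≠ ⟨w, hw⟩ := fun h => hyw (congrArg Subtype.val h)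
  have e3 : (⟨w, hw⟩ : El a) ≠ ⟨x, hx⟩ := fun h => hwx (congrArg Subtype.val h)
  have hX : σ.1 ⟨x, hx⟩ ≠ ⟨x, hx⟩ := (hm _).2 (Or.inl rfl)
  rcases (hm (σ.1 ⟨x, hx⟩)).1 (fun h => hX (σ.inj h)) with h | h | h
  · exact absurd h hX
  · exact key _ _ _ e1 e2 e3 hm h
  · refine key ⟨x, hx⟩ ⟨w, hw⟩ ⟨y, hy⟩ e3.symm e2.symm e1.symm (fun u => (hm u).trans ?_) h
    constructor
    · rintro (h | h | h)
      · exact Or.inl h
      · exact Or.inr (Or.inr h)
      · exact Or.inr (Or.inl h)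
    · rintro (h | h | h)
      · exact Or.inl h
      · exact Or.inr (Or.inr h)
      · exact Or.inr (Or.inl h)

theorem exists_dec {a c : M} (hc : IsThreeSet c a) :
    ∃ d : El c → IPm M (El a), IntF M d ∧ (∀ x y, d x = d y → x = y) ∧ ∀ x, Thr (d x) := by
  choose d hd using fun x : El c => thr_of ((hc x.1).1 x.2)
  refine ⟨d, ?_, fun x y h => ?_, fun x => (hd x).2⟩
  · refine IntF.of_D (S := fun v => v 0 = v 1) (D.eqf (DF.var _) (DF.var _)) fun x σ => ?_
    constructor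
    · intro h
      exact ITy.inj (M := M) ((hd x).1.trans h)
    · rintro rfl
      exact (hd x).1.symm
  · refine Subtype.ext ?_
    rw [← (hd x).1, h, (hd y).1]

end

end Pool.Agent.R596
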