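import Pool.Agent.W868.Defs

/-!
# Forcing over transitive models of ZF and a chain condition: the definitions

A set `M` of sets is viewed as the structure `(M, ∈)`. `Pool.Agent.W868.Defs` contains transitive
models of ZF (`IsZF`) and injections (`IsInj`); `pair` is the Kuratowski pair.
-/

set_option autoImplicit false

namespace Pool.Agent.R596Cc

open Pool.Agent.W868
open ZFSet (pair)

/-- `(P, Le)` is a notion of forcing in `M`: `P` and `Le` are elements of `M`, and `Le` is (the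
set of all pairs `(p, q)` with `p ≤ q` of) a preorder on `P` with a largest element. -/
structure IsForcing (M : Set ZFSet.{0}) (P Le : ZFSet.{0}) : Prop where
  mem : P ∈ M
  le_mem : Le ∈ M
  sub : ∀ x ∈ Le, ∃ p ∈ P, ∃ q ∈ P, x = pair p q
  refl : ∀ p ∈ P, pair p p ∈ Le
  trans : ∀ p q r, pair p q ∈ Le → pair q r ∈ Le → pair p r ∈ Le
  top : ∃ t ∈ P, ∀ p ∈ P, pair p t ∈ Le

/-- `D` is a predense subset of `P`: every `p` in `P` is compatible with some `d` in `D`, that is,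
there is `r` in `P` below both. -/
def Predense (P Le D : ZFSet.{0}) : Prop :=
  D ⊆ P ∧ ∀ p ∈ P, ∃ d ∈ D, ∃ r ∈ P, pair r p ∈ Le ∧ pair r d ∈ Le

/-- `x` is countable in `M`. -/
def Ctb (M : Set ZFSet.{0}) (x : ZFSet.{0}) : Prop := ∃ f ∈ M, IsInj x ZFSet.omega f

/-- The condition ccc₃ in `M`: every predense `D` in `M` has a predense subset in `M` that is
countable in `M`. -/
def CCC3 (M : Set ZFSet.{0}) (P Le : ZFSet.{0}) : Prop :=
  ∀ D ∈ M, Predense P Le D → ∃ D₀ ∈ M, D₀ ⊆ D ∧ Predense P Le D₀ ∧ Ctb M D₀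

/-- `κ` is the first uncountable ordinal of `M`. -/
def IsOmega1 (M : Set ZFSet.{0}) (κ : ZFSet.{0}) : Prop :=
  κ ∈ M ∧ κ.IsOrdinal ∧ ¬ Ctb M κ ∧ ∀ ξ ∈ κ, Ctb M ξ

/-- `G` is an `M`-generic filter on `(P, Le)`: a filter that meets every dense subset of `P` that
is an element of `M`. -/
structure IsGeneric (M : Set ZFSet.{0}) (P Le : ZFSet.{0}) (G : Set ZFSet.{0}) : Prop where
  sub : ∀ p ∈ G, p ∈ P
  ne : G.Nonempty
  up : ∀ p ∈ G, ∀ q ∈ P, pair p q ∈ Le → q ∈ G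
  dir : ∀ p ∈ G, ∀ q ∈ G, ∃ r ∈ G, pair r p ∈ Le ∧ pair r q ∈ Le
  meets : ∀ D ∈ M, D ⊆ P → (∀ p ∈ P, ∃ q ∈ D, pair q p ∈ Le) → ∃ q ∈ G, q ∈ D

theorem rank_lt {τ σ p : ZFSet.{0}} (h : pair σ p ∈ τ) : σ.rank < τ.rank := by
  have h1 : σ ∈ ({σ} : ZFSet.{0}) := ZFSet.mem_singleton.2 rfl
  have h2 : ({σ} : ZFSet.{0}) ∈ pair σ p := by
    rw [pair, ZFSet.mem_pair]
    exact Or.inl rfl
  exact ((ZFSet.rank_lt_of_mem h1).trans (ZFSet.rank_lt_of_mem h2)).trans
    (ZFSet.rank_lt_of_mem h)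

/-- The value of the name `τ` given by `G`: the set of the values of all `σ` such that
`(σ, p) ∈ τ` for some `p` in `G` (see `mem_val`). -/
noncomputable def val (G : Set ZFSet.{0}) (τ : ZFSet.{0}) : ZFSet.{0} :=
  ZFSet.range fun x : {x : {x : ZFSet.{0} // x ∈ τ} // ∃ σ, ∃ p ∈ G, pair σ p = x.1} =>
    val G x.2.choose
termination_by τ.rank
decreasing_by
  obtain ⟨p, -, h⟩ := x.2.choose_spec
  exact rank_lt (h ▸ x.1.2)

theorem mem_val (G : Set ZFSet.{0}) (τ z : ZFSet.{0}) :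
    z ∈ val G τ ↔ ∃ σ, ∃ p ∈ G, pair σ p ∈ τ ∧ val G σ = z := by
  rw [val, ZFSet.mem_range]
  constructor
  · rintro ⟨x, rfl⟩
    obtain ⟨p, hp, h⟩ := x.2.choose_spec
    exact ⟨x.2.choose, p, hp, by rw [h]; exact x.1.2, rfl⟩
  · rintro ⟨σ, p, hp, h, rfl⟩
    refine ⟨⟨⟨pair σ p, h⟩, σ, p, hp, rfl⟩, ?_⟩
    generalize_proofs h'
    obtain ⟨p', -, h1⟩ := h'.choose_spec
    rw [(ZFSet.pair_inj.1 h1).1]

/-- The generic extension `M[G]`: the set of the values of all elements of `M`. -/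
def Ext (M G : Set ZFSet.{0}) : Set ZFSet.{0} := val G '' M

/-- `(P, Le)` collapses `ω₁` in `M`, where `κ` is the first uncountable ordinal of `M`: for some
`M`-generic filter `G`, the ordinal `κ` is countable in `M[G]`. -/
def Collapses (M : Set ZFSet.{0}) (P Le κ : ZFSet.{0}) : Prop :=
  ∃ G, IsGeneric M P Le G ∧ Ctb (Ext M G) κ

/-- The condition `p₀` forces that the name `T` is an injection of `κ` into the natural numbers.
Here a pair `(q, (α, n))` in `T`, with `q` in `P`, means that `q` forces that the value at `α` is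
`n`: no condition below `p₀` is below conditions that force the same value at different ordinals,
and for every `α` in `κ` the conditions that force a value at `α` are predense below `p₀`. -/
structure ForcesInj (M : Set ZFSet.{0}) (P Le κ p₀ T : ZFSet.{0}) : Prop where
  mem : T ∈ M
  inj : ∀ q ∈ P, ∀ q' ∈ P, ∀ r ∈ P, pair r p₀ ∈ Le → pair r q ∈ Le → pair r q' ∈ Le →
    ∀ n ∈ ZFSet.omega, ∀ α ∈ κ, ∀ β ∈ κ, pair q (pair α n) ∈ T → pair q' (pair β n) ∈ T → α = β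
  total : ∀ α ∈ κ, ∀ r ∈ P, pair r p₀ ∈ Le → ∃ q ∈ P, ∃ n ∈ ZFSet.omega,
    pair q (pair α n) ∈ T ∧ ∃ s ∈ P, pair s r ∈ Le ∧ pair s q ∈ Le

end Pool.Agent.R596Cc
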