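import Pool.Agent.R596.CcKer2
import Pool.Agent.W868.Eo
import Pool.Agent.W868.Small

/-!
# Forcing over transitive models of ZF: equality with sets of the ground model
-/

set_option autoImplicit false
set_option linter.all false

namespace Pool.Agent.R596.CC

open Pool.Agent.W868 Pool.Agent.R596Cc
open ZFSet (pair)

/-- `w` is a pair. -/
def IsP (w : ZFSet.{0}) : Prop := w = pair (fs w) (sn w)

theorem isP_pair (a b : ZFSet.{0}) : IsP (pair a b) := by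
  unfold IsP
  simp

theorem rank_fs {w x : ZFSet.{0}} (h : w ∈ x) : (fs w).rank < x.rank := by
  by_cases hw : IsP w
  · refine rank_lt (p := sn w) ?_
    rw [← hw]
    exact h
  · have h1 : fs w = ∅ := by
      unfold fs
      rw [dif_neg]
      rintro ⟨a, b, rfl⟩
      exact hw (isP_pair a b)
    rw [h1, ZFSet.rank_empty]
    exact lt_of_le_of_lt zero_le (ZFSet.rank_lt_of_mem h)

/-- The predecessors. -/
noncomputable def fpr (z : ZFSet.{0}) : ZFSet.{0} :=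
  im (fun u => pair (fs (fs u)) (sn u)) (ZFSet.prod (fs z) (sn z))

theorem mem_fpr {z q : ZFSet.{0}} : q ∈ fpr z ↔ ∃ w ∈ fs z, ∃ y ∈ sn z, q = pair (fs w) y := by
  unfold fpr
  rw [mem_im]
  constructor
  · rintro ⟨u, hu, rfl⟩
    obtain ⟨w, hw, y, hy, rfl⟩ := ZFSet.mem_prod.1 hu
    exact ⟨w, hw, y, hy, by simp⟩
  · rintro ⟨w, hw, y, hy, rfl⟩
    exact ⟨pair w y, ZFSet.pair_mem_prod.2 ⟨hw, hy⟩, by simp⟩

theorem fpr_wf : WellFounded fun q z => q ∈ fpr z := by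
  refine Subrelation.wf (r := InvImage (· < ·) fun p : ZFSet.{0} => (fs p).rank) ?_
    (InvImage.wf _ Ordinal.lt_wf)
  intro q z h
  obtain ⟨w, hw, y, hy, rfl⟩ := mem_fpr.1 h
  change (fs (pair (fs w) y)).rank < (fs z).rank
  rw [fs_pair]
  exact rank_fs hw

/-- The clause of the definition of forced equality. -/
def Cl (P Le σ x : ZFSet.{0}) (K : ZFSet.{0} → ZFSet.{0} → ZFSet.{0}) (q : ZFSet.{0}) : Prop :=
  (∀ w ∈ σ, IsP w → ∀ s ∈ P, pair s q ∈ Le → pair s (sn w) ∈ Le →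
    ∃ t ∈ P, pair t s ∈ Le ∧ ∃ y ∈ x, t ∈ K (fs w) y) ∧
  ∀ y ∈ x, ∀ s ∈ P, pair s q ∈ Le → ∃ t ∈ P, pair t s ∈ Le ∧
    ∃ w ∈ σ, IsP w ∧ pair t (sn w) ∈ Le ∧ t ∈ K (fs w) y

/-- The recursion. -/
noncomputable def FG (P Le z g : ZFSet.{0}) : ZFSet.{0} :=
  ZFSet.sep (fun q => Cl P Le (fs z) (sn z) (fun a b => ap g (pair a b)) q) P

/-- The set of the conditions that force `σ = x`. -/
noncomputable def Fe (P Le σ x : ZFSet.{0}) : ZFSet.{0} :=
  wfF fpr fpr_wf (FG P Le) (pair σ x)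

theorem Cl_congr {P Le σ x q : ZFSet.{0}} {K K' : ZFSet.{0} → ZFSet.{0} → ZFSet.{0}}
    (h : ∀ w ∈ σ, ∀ y ∈ x, K (fs w) y = K' (fs w) y) : Cl P Le σ x K q ↔ Cl P Le σ x K' q := by
  unfold Cl
  refine and_congr ?_ ?_
  · refine forall₂_congr fun w hw => ?_
    refine forall_congr' fun _ => forall₂_congr fun s _ => forall_congr' fun _ =>
      forall_congr' fun _ => exists_congr fun t => and_congr_right fun _ => and_congr_right fun _ =>
        exists_congr fun y => and_congr_right fun hy => ?_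
    rw [h w hw y hy]
  · refine forall₂_congr fun y hy => ?_
    refine forall₂_congr fun s _ => forall_congr' fun _ =>
      exists_congr fun t => and_congr_right fun _ => and_congr_right fun _ =>
        exists_congr fun w => and_congr_right fun hw => and_congr_right fun _ =>
          and_congr_right fun _ => ?_
    rw [h w hw y hy]

theorem mem_FG {P Le z g q : ZFSet.{0}} : q ∈ FG P Le z g ↔
    q ∈ P ∧ Cl P Le (fs z) (sn z) (fun a b => ap g (pair a b)) q := ZFSet.mem_sep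

theorem mem_Fe {P Le σ x q : ZFSet.{0}} : q ∈ Fe P Le σ x ↔ q ∈ P ∧ Cl P Le σ x (Fe P Le) q := by
  have h0 : Fe P Le σ x = FG P Le (pair σ x) (gr (wfF fpr fpr_wf (FG P Le)) (fpr (pair σ x))) :=
    wfF_eq _ _ _ _
  rw [h0, mem_FG, fs_pair, sn_pair]
  refine and_congr_right fun _ => Cl_congr fun w hw y hy => ?_
  exact ap_gr (mem_fpr.2 ⟨w, by simpa using hw, y, by simpa using hy, rfl⟩)

section

variable {M : Set ZFSet.{0}} (hM : IsZF M) {P Le : ZFSet.{0}} (hP : P ∈ M) (hL : Le ∈ M)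

include hM

theorem dfn_isP {n : ℕ} {F : (Fin n → ZFSet.{0}) → ZFSet.{0}} (hF : DfnF M M F) :
    Dfn M M fun v => IsP (F v) :=
  Dfn.eq hF (hM.base.pair' (hM.fs' hF) (hM.sn' hF))

include hP hL

theorem dfn_FG : DfnF M M fun w : Fin 2 → ZFSet.{0} => FG P Le (w 0) (w 1) := by
  have hB := hM.base
  refine hM.sep' (Q := fun q v => Cl P Le (fs (v 0)) (sn (v 0)) (fun a b => ap (v 1) (pair a b)) q)
    (DfnF.const hP) (Dfn.and ?_ ?_)
  · refine hB.ball (hM.fs' (DfnF.proj 1)) ?_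
    refine Dfn.imp (dfn_isP hM (DfnF.proj 0)) ?_
    refine hB.ball (DfnF.const hP) ?_
    refine Dfn.imp (Dfn.mem (hB.pair' (DfnF.proj 0) (DfnF.proj 2)) (DfnF.const hL)) ?_
    refine Dfn.imp (Dfn.mem (hB.pair' (DfnF.proj 0) (hM.sn' (DfnF.proj 1))) (DfnF.const hL)) ?_
    refine hB.bex (DfnF.const hP) (Dfn.and ?_ ?_)
    · exact Dfn.mem (hB.pair' (DfnF.proj 0) (DfnF.proj 1)) (DfnF.const hL)
    · refine hB.bex (hM.sn' (DfnF.proj 4)) ?_
      exact Dfn.mem (DfnF.proj 1) (hM.ap' (DfnF.proj 6) (hB.pair' (hM.fs' (DfnF.proj 3))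
        (DfnF.proj 0)))
  · refine hB.ball (hM.sn' (DfnF.proj 1)) ?_
    refine hB.ball (DfnF.const hP) ?_
    refine Dfn.imp (Dfn.mem (hB.pair' (DfnF.proj 0) (DfnF.proj 2)) (DfnF.const hL)) ?_
    refine hB.bex (DfnF.const hP) (Dfn.and ?_ ?_)
    · exact Dfn.mem (hB.pair' (DfnF.proj 0) (DfnF.proj 1)) (DfnF.const hL)
    · refine hB.bex (hM.fs' (DfnF.proj 4)) ?_
      refine Dfn.and (dfn_isP hM (DfnF.proj 0)) (Dfn.and ?_ ?_)
      · exact Dfn.mem (hB.pair' (DfnF.proj 1) (hM.sn' (DfnF.proj 0))) (DfnF.const hL)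
      · exact Dfn.mem (DfnF.proj 1) (hM.ap' (DfnF.proj 6) (hB.pair' (hM.fs' (DfnF.proj 0))
          (DfnF.proj 3)))

theorem dfn_Fe : DfnF M M fun w : Fin 2 → ZFSet.{0} => Fe P Le (w 0) (w 1) := by
  have hB := hM.base
  have h1 : DfnF M M fun w : Fin 1 → ZFSet.{0} => wfF fpr fpr_wf (FG P Le) (w 0) := by
    refine hM.wfrec fpr_wf ?_ (dfn_FG hM hP hL) fun z => wfF_eq _ _ _ z
    refine hM.im' (h := fun u _ => pair (fs (fs u)) (sn u))
      (hM.prod' (hM.fs' (DfnF.proj 0)) (hM.sn' (DfnF.proj 0))) ?_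
    exact hB.pair' (hM.fs' (hM.fs' (DfnF.proj 0))) (hM.sn' (DfnF.proj 0))
  exact DfnF.comp1 (f := fun z => wfF fpr fpr_wf (FG P Le) z) h1
    (hB.pair' (DfnF.proj 0) (DfnF.proj 1))

end

section

variable {M : Set ZFSet.{0}} (hM : IsZF M) {P Le : ZFSet.{0}} (hP : IsForcing M P Le)

theorem Fe_mono (hP : IsForcing M P Le) {σ x q r : ZFSet.{0}} (hq : q ∈ Fe P Le σ x) (hr : r ∈ P)
    (hrq : pair r q ∈ Le) : r ∈ Fe P Le σ x := by
  rw [mem_Fe] at hq ⊢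
  refine ⟨hr, fun w hw hp s hs h1 h2 => hq.2.1 w hw hp s hs (hP.trans _ _ _ h1 hrq) h2,
    fun y hy s hs h1 => hq.2.2 y hy s hs (hP.trans _ _ _ h1 hrq)⟩

variable {G : Set ZFSet.{0}} (hG : IsGeneric M P Le G)

theorem mem_P_of_le (hP : IsForcing M P Le) {p q : ZFSet.{0}} (h : pair p q ∈ Le) : q ∈ P := by
  obtain ⟨p', _, q', hq', e⟩ := hP.sub _ h
  rw [(ZFSet.pair_inj.1 e).2]
  exact hq'

include hM hP hG

/-- The filter meets sets that are dense below one of its elements. -/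
theorem gen_below {s : ZFSet.{0}} (hs : s ∈ G) {Q : ZFSet.{0} → Prop}
    (hQ : Dfn M M fun w : Fin 1 → ZFSet.{0} => Q (w 0))
    (hd : ∀ r ∈ P, pair r s ∈ Le → ∃ t ∈ P, pair t r ∈ Le ∧ Q t) : ∃ t ∈ G, Q t := by
  have hB := hM.base
  have hsP := hG.sub s hs
  have hsM := hM.trans _ hP.mem _ hsP
  let D : ZFSet.{0} := ZFSet.sep (fun t => Q t ∨ ∀ r ∈ P, pair r t ∈ Le → ¬ pair r s ∈ Le) P
  have hD : D ∈ M := by
    refine hM.sep_mem (Q := fun t => Q t ∨ ∀ r ∈ P, pair r t ∈ Le → ¬ pair r s ∈ Le)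
      (Dfn.or hQ ?_) hP.mem
    refine hB.ball (DfnF.const hP.mem) (Dfn.imp ?_ (Dfn.not ?_))
    · exact Dfn.mem (hB.pair' (DfnF.proj 0) (DfnF.proj 1)) (DfnF.const hP.le_mem)
    · exact Dfn.mem (hB.pair' (DfnF.proj 0) (DfnF.const hsM)) (DfnF.const hP.le_mem)
  obtain ⟨t, ht, htD⟩ := hG.meets D hD (fun x hx => (ZFSet.mem_sep.1 hx).1) (by
    intro p hp
    by_cases h : ∃ r ∈ P, pair r p ∈ Le ∧ pair r s ∈ Le
    · obtain ⟨r, hr, h1, h2⟩ := h
      obtain ⟨t, ht, h3, h4⟩ := hd r hr h2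
      exact ⟨t, ZFSet.mem_sep.2 ⟨ht, Or.inl h4⟩, hP.trans _ _ _ h3 h1⟩
    · push Not at h
      exact ⟨p, ZFSet.mem_sep.2 ⟨hp, Or.inr h⟩, hP.refl p hp⟩)
  rcases (ZFSet.mem_sep.1 htD).2 with h | h
  · exact ⟨t, ht, h⟩
  · obtain ⟨r, hr, h1, h2⟩ := hG.dir t ht s hs
    exact absurd h2 (h r (hG.sub r hr) h1)

/-- The truth lemma for forced equality. -/
theorem truth (σ : ZFSet.{0}) : σ ∈ M → ∀ x ∈ M, (val G σ = x ↔ ∃ q ∈ G, q ∈ Fe P Le σ x) := by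
  have hB := hM.base
  have hPM := hP.mem
  have hLM := hP.le_mem
  have dFe := dfn_Fe hM hPM hLM
  refine WellFounded.induction (r := fun a b : ZFSet.{0} => a.rank < b.rank)
    (C := fun σ => σ ∈ M → ∀ x ∈ M, (val G σ = x ↔ ∃ q ∈ G, q ∈ Fe P Le σ x))
    (InvImage.wf _ Ordinal.lt_wf) σ ?_
  intro σ ih hσ x hx
  have ih' : ∀ w ∈ σ, IsP w → ∀ y ∈ M, (val G (fs w) = y ↔ ∃ q ∈ G, q ∈ Fe P Le (fs w) y) := by
    intro w hw hp y hy
    exact ih (fs w) (rank_fs hw) (hM.fs_mem (hM.trans _ hσ _ hw)) y hy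
  constructor
  · intro hval
    let D : ZFSet.{0} := ZFSet.sep (fun q => q ∈ Fe P Le σ x ∨
      (∃ w ∈ σ, IsP w ∧ pair q (sn w) ∈ Le ∧ ∀ t ∈ P, pair t q ∈ Le → ∀ y ∈ x,
        t ∉ Fe P Le (fs w) y) ∨
      ∃ y ∈ x, ∀ t ∈ P, pair t q ∈ Le → ∀ w ∈ σ, IsP w → pair t (sn w) ∈ Le →
        t ∉ Fe P Le (fs w) y) P
    have hD : D ∈ M := by
      refine hM.sep_mem (Q := fun q => q ∈ Fe P Le σ x ∨
        (∃ w ∈ σ, IsP w ∧ pair q (sn w) ∈ Le ∧ ∀ t ∈ P, pair t q ∈ Le → ∀ y ∈ x,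
          t ∉ Fe P Le (fs w) y) ∨
        ∃ y ∈ x, ∀ t ∈ P, pair t q ∈ Le → ∀ w ∈ σ, IsP w → pair t (sn w) ∈ Le →
          t ∉ Fe P Le (fs w) y) (Dfn.or ?_ (Dfn.or ?_ ?_)) hPM
      · exact Dfn.mem (DfnF.proj 0) (DfnF.comp2 (f := Fe P Le) dFe (DfnF.const hσ)
          (DfnF.const hx))
      · refine hB.bex (DfnF.const hσ) (Dfn.and (dfn_isP hM (DfnF.proj 0)) (Dfn.and ?_ ?_))
        · exact Dfn.mem (hB.pair' (DfnF.proj 1) (hM.sn' (DfnF.proj 0))) (DfnF.const hLM)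
        · refine hB.ball (DfnF.const hPM) (Dfn.imp ?_ ?_)
          · exact Dfn.mem (hB.pair' (DfnF.proj 0) (DfnF.proj 2)) (DfnF.const hLM)
          · refine hB.ball (DfnF.const hx) (Dfn.not ?_)
            exact Dfn.mem (DfnF.proj 1) (DfnF.comp2 (f := Fe P Le) dFe (hM.fs' (DfnF.proj 2))
              (DfnF.proj 0))
      · refine hB.bex (DfnF.const hx) ?_
        refine hB.ball (DfnF.const hPM) (Dfn.imp ?_ ?_)
        · exact Dfn.mem (hB.pair' (DfnF.proj 0) (DfnF.proj 2)) (DfnF.const hLM)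
        · refine hB.ball (DfnF.const hσ) (Dfn.imp (dfn_isP hM (DfnF.proj 0)) (Dfn.imp ?_ ?_))
          · exact Dfn.mem (hB.pair' (DfnF.proj 1) (hM.sn' (DfnF.proj 0))) (DfnF.const hLM)
          · exact Dfn.not (Dfn.mem (DfnF.proj 1) (DfnF.comp2 (f := Fe P Le) dFe
              (hM.fs' (DfnF.proj 0)) (DfnF.proj 2)))
    obtain ⟨q, hq, hqD⟩ := hG.meets D hD (fun x hx => (ZFSet.mem_sep.1 hx).1) (by
      intro p hp
      by_cases h : p ∈ Fe P Le σ x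
      · exact ⟨p, ZFSet.mem_sep.2 ⟨hp, Or.inl h⟩, hP.refl p hp⟩
      · rw [mem_Fe] at h
        have h1 : ¬ Cl P Le σ x (Fe P Le) p := fun h' => h ⟨hp, h'⟩
        unfold Cl at h1
        rw [not_and_or] at h1
        rcases h1 with h1 | h1
        · push Not at h1
          obtain ⟨w, hw, hwp, s, hs, h2, h3, h4⟩ := h1
          exact ⟨s, ZFSet.mem_sep.2 ⟨hs, Or.inr (Or.inl ⟨w, hw, hwp, h3, h4⟩)⟩, h2⟩
        · push Not at h1
          obtain ⟨y, hy, s, hs, h2, h3⟩ := h1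
          exact ⟨s, ZFSet.mem_sep.2 ⟨hs, Or.inr (Or.inr ⟨y, hy, h3⟩)⟩, h2⟩)
    rcases (ZFSet.mem_sep.1 hqD).2 with h | ⟨w, hw, hwp, h1, h2⟩ | ⟨y, hy, h1⟩
    · exact ⟨q, hq, h⟩
    · exfalso
      have h3 : sn w ∈ G := hG.up q hq _ (mem_P_of_le hP h1) h1
      have h4 : val G (fs w) ∈ x := by
        rw [← hval, mem_val]
        exact ⟨fs w, sn w, h3, by rw [← hwp]; exact hw, rfl⟩
      obtain ⟨t, ht, h5⟩ := (ih' w hw hwp _ (hM.trans _ hx _ h4)).1 rfl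
      obtain ⟨r, hr, h6, h7⟩ := hG.dir t ht q hq
      exact h2 r (hG.sub r hr) h7 _ h4 (Fe_mono hP h5 (hG.sub r hr) h6)
    · exfalso
      have h2 := hy
      rw [← hval, mem_val] at h2
      obtain ⟨σ', r, hr, h3, h4⟩ := h2
      have hwp := isP_pair σ' r
      have h5 := (ih' _ h3 hwp y (hM.trans _ hx _ hy)).1 (by rw [fs_pair]; exact h4)
      obtain ⟨t, ht, h6⟩ := h5
      obtain ⟨u, hu, h7, h8⟩ := hG.dir t ht r hr
      obtain ⟨v, hv, h9, h10⟩ := hG.dir u hu q hq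
      refine h1 v (hG.sub v hv) h10 _ h3 hwp ?_ ?_
      · rw [sn_pair]
        exact hP.trans _ _ _ h9 h8
      · exact Fe_mono hP h6 (hG.sub v hv) (hP.trans _ _ _ h9 h7)
  · rintro ⟨q, hq, h⟩
    rw [mem_Fe] at h
    obtain ⟨-, h1, h2⟩ := h
    ext z
    constructor
    · intro hz
      rw [mem_val] at hz
      obtain ⟨σ', r, hr, h3, rfl⟩ := hz
      have hwp := isP_pair σ' r
      have hσ' : σ' ∈ M := (hM.of_pair_mem (hM.trans _ hσ _ h3)).1
      obtain ⟨s, hs, h4, h5⟩ := hG.dir q hq r hr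
      obtain ⟨t, ht, y, hy, h6⟩ := gen_below hM hP hG hs (Q := fun t => ∃ y ∈ x, t ∈ Fe P Le σ' y)
        (hB.bex (DfnF.const hx) (Dfn.mem (DfnF.proj 1) (DfnF.comp2 (f := Fe P Le) dFe
          (DfnF.const hσ') (DfnF.proj 0)))) (by
        intro r' hr' h6
        have := h1 _ h3 hwp r' hr' (hP.trans _ _ _ h6 h4) (by
          rw [sn_pair]
          exact hP.trans _ _ _ h6 h5)
        simpa using this)
      have h7 := (ih' _ h3 hwp y (hM.trans _ hx _ hy)).2 ⟨t, ht, by simpa using h6⟩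
      rw [fs_pair] at h7
      rwa [h7]
    · intro hz
      have hzM := hM.trans _ hx _ hz
      obtain ⟨t, ht, w, hw, hwp, h3, h4⟩ := gen_below hM hP hG hq
        (Q := fun t => ∃ w ∈ σ, IsP w ∧ pair t (sn w) ∈ Le ∧ t ∈ Fe P Le (fs w) z)
        (hB.bex (DfnF.const hσ) (Dfn.and (dfn_isP hM (DfnF.proj 0)) (Dfn.and
          (Dfn.mem (hB.pair' (DfnF.proj 1) (hM.sn' (DfnF.proj 0))) (DfnF.const hLM))
          (Dfn.mem (DfnF.proj 1) (DfnF.comp2 (f := Fe P Le) dFe (hM.fs' (DfnF.proj 0))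
            (DfnF.const hzM))))))
        fun r hr h3 => h2 z hz r hr h3
      rw [mem_val]
      refine ⟨fs w, sn w, hG.up t ht _ (mem_P_of_le hP h3) h3, by rw [← hwp]; exact hw, ?_⟩
      exact (ih' w hw hwp z hzM).2 ⟨t, ht, h4⟩

end

end Pool.Agent.R596.CC
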