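import Pool.Agent.R596.CcDefs
import Pool.Agent.W868.Mos
import Pool.Agent.W868.Hart
import Pool.Agent.W868.God

/-!
# The combinatorial kernel
-/

set_option autoImplicit false
set_option linter.all false

namespace Pool.Agent.R596.CC

open Pool.Agent.W868 Pool.Agent.R596Cc
open ZFSet (pair)

/-! ### Order types -/

theorem ord_mem_of_subset {a b c : ZFSet.{0}} (ha : a.IsOrdinal) (hb : b.IsOrdinal)
    (hc : c.IsOrdinal) (h : a ⊆ b) (h' : b ∈ c) : a ∈ c := by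
  rcases (ZFSet.IsOrdinal.subset_iff_eq_or_mem ha hb).1 h with rfl | h1
  · exact h'
  · exact hc.isTransitive.mem_trans h1 h'

theorem col_mono {s t : ZFSet.{0}} (hs : ∀ x ∈ s, x.IsOrdinal) (ht : ∀ x ∈ t, x.IsOrdinal)
    (hst : s ⊆ t) (x : ZFSet.{0}) : x.IsOrdinal → col s x ⊆ col t x := by
  induction x using ZFSet.inductionOn with
  | _ x ih =>
    intro hx y hy
    obtain ⟨u, hu, hus, rfl⟩ := mem_col.1 hy
    have huo := hx.mem hu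
    exact ord_mem_of_subset (col_ord hs u huo).1 (col_ord ht u huo).1 (col_ord ht x hx).1
      (ih u hu huo) (mem_col.2 ⟨u, hu, hst hus, rfl⟩)

theorem oty_mono {s t : ZFSet.{0}} (ht : ∀ x ∈ t, x.IsOrdinal)
    (hst : s ⊆ t) : oty s ⊆ oty t := by
  have hs : ∀ x ∈ s, x.IsOrdinal := fun x hx => ht x (hst hx)
  intro y hy
  obtain ⟨u, hu, rfl⟩ := mem_im.1 hy
  exact ord_mem_of_subset (col_ord hs u (hs u hu)).1 (col_ord ht u (hs u hu)).1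
    (isOrdinal_oty ht) (col_mono hs ht hst u (hs u hu)) (mem_im.2 ⟨u, hst hu, rfl⟩)

/-- The predecessors for the collapse. -/
noncomputable def cpr (p : ZFSet.{0}) : ZFSet.{0} :=
  im (fun u => pair (fs p) u) (ZFSet.sep (fun u => u ∈ fs p) (sn p))

theorem mem_cpr {p q : ZFSet.{0}} : q ∈ cpr p ↔ ∃ u, u ∈ sn p ∧ u ∈ fs p ∧ q = pair (fs p) u := by
  unfold cpr
  rw [mem_im]
  constructor
  · rintro ⟨u, hu, rfl⟩
    rw [ZFSet.mem_sep] at hu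
    exact ⟨u, hu.1, hu.2, rfl⟩
  · rintro ⟨u, hu, hu', rfl⟩
    exact ⟨u, ZFSet.mem_sep.2 ⟨hu, hu'⟩, rfl⟩

theorem cpr_wf : WellFounded fun q p => q ∈ cpr p := by
  refine Subrelation.wf (r := InvImage (· < ·) fun p : ZFSet.{0} => (sn p).rank) ?_
    (InvImage.wf _ Ordinal.lt_wf)
  intro q p h
  obtain ⟨u, hu, -, rfl⟩ := mem_cpr.1 h
  change (sn (pair (fs p) u)).rank < (sn p).rank
  rw [sn_pair]
  exact ZFSet.rank_lt_of_mem hu

section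

variable {M : Set ZFSet.{0}} (hM : IsZF M)

include hM

theorem dfn_colp : DfnF M M fun w : Fin 1 → ZFSet.{0} => col (fs (w 0)) (sn (w 0)) := by
  refine hM.wfrec (F := fun p => col (fs p) (sn p)) (pr := cpr) cpr_wf (G := fun _ g => im sn g)
    ?_ ?_ ?_
  · refine hM.im' (h := fun u v => pair (fs (v 0)) u) ?_ ?_
    · refine hM.sep' (Q := fun u v => u ∈ fs (v 0)) (hM.sn' (DfnF.proj 0)) ?_
      exact Dfn.mem (DfnF.proj 0) (hM.fs' (DfnF.proj 1))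
    · exact hM.base.pair' (hM.fs' (DfnF.proj 1)) (DfnF.proj 0)
  · exact hM.im' (h := fun p _ => sn p) (DfnF.proj 1) (hM.sn' (DfnF.proj 0))
  · intro z
    ext y
    rw [mem_col, mem_im]
    constructor
    · rintro ⟨u, hu, hu', rfl⟩
      refine ⟨_, mem_gr.2 ⟨_, mem_cpr.2 ⟨u, hu, hu', rfl⟩, rfl⟩, ?_⟩
      simp
    · rintro ⟨p, hp, rfl⟩
      obtain ⟨q, hq, rfl⟩ := mem_gr.1 hp
      obtain ⟨u, hu, hu', rfl⟩ := mem_cpr.1 hq
      exact ⟨u, hu, hu', by simp⟩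

theorem dfn_col2 : DfnF M M fun w : Fin 2 → ZFSet.{0} => col (w 0) (w 1) := by
  have h := DfnF.comp1 (f := fun p => col (fs p) (sn p)) (dfn_colp hM)
    (hM.base.pair' (DfnF.proj (n := 2) 0) (DfnF.proj 1))
  refine h.congr fun v _ => ?_
  simp

theorem dfn_oty : DfnF M M fun w : Fin 1 → ZFSet.{0} => oty (w 0) := by
  refine hM.im' (h := fun u v => col (v 0) u) (DfnF.proj 0) ?_
  exact DfnF.comp2 (f := col) (dfn_col2 hM) (DfnF.proj 1) (DfnF.proj 0)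

/-- If countably many sets cover the first uncountable ordinal, their order types are
unbounded. -/
theorem big {κ ξ : ZFSet.{0}} (hκ : κ ∈ M) (hκo : κ.IsOrdinal) (hκc : ¬ Ctb M κ)
    {U : ZFSet.{0} → ZFSet.{0}} (hU : DfnF M M fun w : Fin 1 → ZFSet.{0} => U (w 0))
    (hUκ : ∀ n ∈ ZFSet.omega, U n ⊆ κ) (hcov : ∀ β ∈ κ, ∃ n ∈ ZFSet.omega, β ∈ U n)
    (hξ : ξ ∈ κ) (hξc : Ctb M ξ) : ∃ n ∈ ZFSet.omega, ξ ∈ oty (U n) := by
  have hω := hM.infinity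
  have hξM := hM.trans _ hκ _ hξ
  have hξo := hκo.mem hξ
  by_contra hc
  push Not at hc
  have hUo : ∀ n ∈ ZFSet.omega, ∀ x ∈ U n, x.IsOrdinal := fun n hn x hx =>
    hκo.mem (hUκ n hn hx)
  have h1 : ∀ n ∈ ZFSet.omega, oty (U n) ⊆ ξ := by
    intro n hn
    rcases hξo.mem_trichotomous (isOrdinal_oty (hUo n hn)) with h | h | h
    · exact absurd h (hc n hn)
    · rw [h]
    · exact hξo.isTransitive.subset_of_mem h
  let N : ZFSet.{0} → ZFSet.{0} := fun β => lo M fun n => n ∈ ZFSet.omega ∧ β ∈ U n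
  have hN : ∀ β ∈ κ, N β ∈ ZFSet.omega ∧ β ∈ U (N β) := by
    intro β hβ
    obtain ⟨n, hn, h2⟩ := hcov β hβ
    exact (lo_spec (M := M) (P := fun n => n ∈ ZFSet.omega ∧ β ∈ U n)
      ⟨n, hM.trans _ hω _ hn, isOrdinal_omega.mem hn, hn, h2⟩).2.2
  have dN : DfnF M M fun w : Fin 1 → ZFSet.{0} => N (w 0) := by
    refine hM.lo' (Q := fun n v => n ∈ ZFSet.omega ∧ v 0 ∈ U n) (Dfn.and ?_ ?_)
    · exact Dfn.mem (DfnF.proj 0) (DfnF.const hω)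
    · exact Dfn.mem (DfnF.proj 1) (DfnF.comp1 (f := U) hU (DfnF.proj 0))
  refine hκc (Inj.trans hM hκ hω (Inj.of_fun hM hκ (hM.prod_mem hω hξM)
    (h := fun β => pair (N β) (col (U (N β)) β)) ?_ ?_ ?_)
    (Inj.trans hM (hM.prod_mem hω hξM) hω
      (Inj.prod hM hω hξM hω hω (Inj.of_subset hM hω hω fun _ h => h) hξc)
      (sq_inj hM hω isOrdinal_omega fun _ h => h)))
  · exact hM.base.pair' dN (DfnF.comp2 (f := col) (dfn_col2 hM)
      (DfnF.comp1 (f := U) hU dN) (DfnF.proj 0))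
  · intro β hβ
    obtain ⟨h2, h3⟩ := hN β hβ
    exact ZFSet.pair_mem_prod.2 ⟨h2, h1 _ h2 (mem_im.2 ⟨β, h3, rfl⟩)⟩
  · intro β hβ β' hβ' h
    obtain ⟨h2, h3⟩ := ZFSet.pair_inj.1 h
    obtain ⟨h4, h5⟩ := hN β hβ
    obtain ⟨h6, h7⟩ := hN β' hβ'
    rw [← h2] at h3 h7
    exact col_inj (xt_ord (hUo _ h4)) β h5 β' h7 h3

/-- Open functional relations have countably many values. -/
theorem few {P Le κ : ZFSet.{0}} (hP : IsForcing M P Le) (hc : CCC3 M P Le) (hκ : κ ∈ M)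
    {E : ZFSet.{0} → ZFSet.{0} → Prop}
    (hE : Dfn M M fun w : Fin 2 → ZFSet.{0} => E (w 0) (w 1))
    (hop : ∀ q ∈ P, ∀ r ∈ P, pair r q ∈ Le → ∀ β ∈ κ, E q β → E r β)
    (hfn : ∀ q ∈ P, ∀ β ∈ κ, ∀ β' ∈ κ, E q β → E q β' → β = β') :
    Ctb M (ZFSet.sep (fun β => ∃ q ∈ P, E q β) κ) := by
  have hB := hM.base
  have hω := hM.infinity
  have hPM := hP.mem
  have hLM := hP.le_mem
  let D : ZFSet.{0} := ZFSet.sep (fun q => (∃ β ∈ κ, E q β) ∨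
    ∀ r ∈ P, pair r q ∈ Le → ∀ β ∈ κ, ¬ E r β) P
  have hD : D ∈ M := by
    refine hM.sep_mem (Q := fun q => (∃ β ∈ κ, E q β) ∨
      ∀ r ∈ P, pair r q ∈ Le → ∀ β ∈ κ, ¬ E r β) (Dfn.or ?_ ?_) hPM
    · refine hB.bex (DfnF.const hκ) ?_
      exact Dfn.comp2 (Q := E) hE (DfnF.proj 1) (DfnF.proj 0)
    · refine hB.ball (DfnF.const hPM) (Dfn.imp ?_ ?_)
      · exact Dfn.mem (hB.pair' (DfnF.proj 0) (DfnF.proj 1)) (DfnF.const hLM)
      · refine hB.ball (DfnF.const hκ) (Dfn.not ?_)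
        exact Dfn.comp2 (Q := E) hE (DfnF.proj 1) (DfnF.proj 0)
  have hDp : Predense P Le D := by
    refine ⟨fun x hx => (ZFSet.mem_sep.1 hx).1, fun p hp => ?_⟩
    by_cases h : ∃ r ∈ P, pair r p ∈ Le ∧ ∃ β ∈ κ, E r β
    · obtain ⟨r, hr, h1, h2⟩ := h
      exact ⟨r, ZFSet.mem_sep.2 ⟨hr, Or.inl h2⟩, r, hr, h1, hP.refl r hr⟩
    · push Not at h
      exact ⟨p, ZFSet.mem_sep.2 ⟨hp, Or.inr h⟩, p, hp, hP.refl p hp, hP.refl p hp⟩
  obtain ⟨D₀, hD₀, h1, h2, h3⟩ := hc D hD hDp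
  let h : ZFSet.{0} → ZFSet.{0} := fun d => (ZFSet.sUnion (ZFSet.sep (fun β => E d β) κ) :
    ZFSet.{0})
  have dh : DfnF M M fun w : Fin 1 → ZFSet.{0} => h (w 0) := by
    refine hB.sUnion' (hM.sep' (Q := fun β v => E (v 0) β) (DfnF.const hκ) ?_)
    exact Dfn.comp2 (Q := E) hE (DfnF.proj 1) (DfnF.proj 0)
  have hh : ∀ d ∈ P, ∀ β ∈ κ, E d β → h d = β := by
    intro d hd β hβ h4
    ext z
    simp only [h]
    rw [ZFSet.mem_sUnion]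
    constructor
    · rintro ⟨y, hy, hz⟩
      rw [ZFSet.mem_sep] at hy
      rwa [hfn d hd y hy.1 β hβ hy.2 h4] at hz
    · exact fun hz => ⟨β, ZFSet.mem_sep.2 ⟨hβ, h4⟩, hz⟩
  have hI : Inj M (im h D₀) ZFSet.omega := Inj.image hM hD₀ hω isOrdinal_omega h3 dh
  have hW : ZFSet.sep (fun β => ∃ q ∈ P, E q β) κ ∈ M := by
    refine hM.sep_mem (Q := fun β => ∃ q ∈ P, E q β) ?_ hκ
    refine hB.bex (DfnF.const hPM) ?_
    exact Dfn.comp2 (Q := E) hE (DfnF.proj 0) (DfnF.proj 1)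
  refine Inj.trans hM hW hω (Inj.of_subset hM hW (hM.im_mem hD₀ dh) ?_) hI
  intro β hβ
  obtain ⟨hβκ, q, hq, h4⟩ := ZFSet.mem_sep.1 hβ
  obtain ⟨d, hd, r, hr, h5, h6⟩ := h2.2 q hq
  obtain ⟨hdP, h7⟩ := ZFSet.mem_sep.1 (h1 hd)
  have h8 := hop q hq r hr h5 β hβκ h4
  rcases h7 with ⟨β', hβ', h9⟩ | h7
  · have h10 := hop d hdP r hr h6 β' hβ' h9
    obtain rfl := hfn r hr β hβκ β' hβ' h8 h10
    exact mem_im.2 ⟨d, hd, (hh d hdP β hβκ h9).symm⟩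
  · exact absurd h8 (h7 r hr h6 β hβκ)

end

end Pool.Agent.R596.CC
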