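import Pool.Agent.R596.CcKer

/-!
# The combinatorial kernel: the contradiction
-/

set_option autoImplicit false
set_option linter.all false

namespace Pool.Agent.R596.CC

open Pool.Agent.W868 Pool.Agent.R596Cc
open ZFSet (pair)

section

variable {M : Set ZFSet.{0}} (hM : IsZF M)

include hM

/-- There is no system of forced values for an injection of the first uncountable ordinal into the
natural numbers. -/
theorem kernel {P Le κ p₀ : ZFSet.{0}} (hP : IsForcing M P Le) (hc : CCC3 M P Le)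
    (hκ : IsOmega1 M κ) (hp₀ : p₀ ∈ P) {T : ZFSet.{0} → ZFSet.{0} → ZFSet.{0} → Prop}
    (hT : Dfn M M fun w : Fin 3 → ZFSet.{0} => T (w 0) (w 1) (w 2))
    (mono : ∀ q ∈ P, ∀ r ∈ P, pair r q ∈ Le → ∀ n ∈ ZFSet.omega, ∀ α ∈ κ, T q n α → T r n α)
    (uni : ∀ q ∈ P, pair q p₀ ∈ Le → ∀ n ∈ ZFSet.omega, ∀ α ∈ κ, ∀ β ∈ κ, T q n α → T q n β →
      α = β)
    (tot : ∀ q ∈ P, pair q p₀ ∈ Le → ∀ α ∈ κ, ∃ r ∈ P, pair r q ∈ Le ∧ ∃ n ∈ ZFSet.omega,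
      T r n α) : False := by
  have hB := hM.base
  have hω := hM.infinity
  have hPM := hP.mem
  have hLM := hP.le_mem
  have hp₀M := hM.trans _ hPM _ hp₀
  obtain ⟨hκM, hκo, hκc, hκξ⟩ := hκ
  let T' : ZFSet.{0} → ZFSet.{0} → ZFSet.{0} → Prop := fun q n α =>
    q ∈ P ∧ pair q p₀ ∈ Le ∧ n ∈ ZFSet.omega ∧ α ∈ κ ∧ T q n α
  have dT' : Dfn M M fun w : Fin 3 → ZFSet.{0} => T' (w 0) (w 1) (w 2) :=
    Dfn.and (Dfn.mem (DfnF.proj 0) (DfnF.const hPM)) (Dfn.and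
      (Dfn.mem (hB.pair' (DfnF.proj 0) (DfnF.const hp₀M)) (DfnF.const hLM))
      (Dfn.and (Dfn.mem (DfnF.proj 1) (DfnF.const hω))
        (Dfn.and (Dfn.mem (DfnF.proj 2) (DfnF.const hκM)) hT)))
  have mono' : ∀ q r, r ∈ P → pair r q ∈ Le → ∀ n α, T' q n α → T' r n α := by
    rintro q r hr hrq n α ⟨h1, h2, h3, h4, h5⟩
    exact ⟨hr, hP.trans _ _ _ hrq h2, h3, h4, mono q h1 r hr hrq n h3 α h4 h5⟩
  have uni' : ∀ q n α β, T' q n α → T' q n β → α = β := by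
    rintro q n α β ⟨h1, h2, h3, h4, h5⟩ ⟨-, -, -, h6, h7⟩
    exact uni q h1 h2 n h3 α h4 β h6 h5 h7
  have tot' : ∀ q ∈ P, pair q p₀ ∈ Le → ∀ α ∈ κ, ∃ r ∈ P, pair r q ∈ Le ∧
      ∃ n ∈ ZFSet.omega, T' r n α := by
    intro q hq hqp α hα
    obtain ⟨r, hr, h1, n, hn, h2⟩ := tot q hq hqp α hα
    exact ⟨r, hr, h1, n, hn, hr, hP.trans _ _ _ h1 hqp, hn, hα, h2⟩
  -- the sets of all values
  let V : ZFSet.{0} → ZFSet.{0} := fun n => ZFSet.sep (fun α => ∃ q ∈ P, T' q n α) κ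
  have dV : DfnF M M fun w : Fin 1 → ZFSet.{0} => V (w 0) := by
    refine hM.sep' (Q := fun α v => ∃ q ∈ P, T' q (v 0) α) (DfnF.const hκM) ?_
    refine hB.bex (DfnF.const hPM) ?_
    exact Dfn.comp3 (Q := T') dT' (DfnF.proj 0) (DfnF.proj 2) (DfnF.proj 1)
  have hVκ : ∀ n, V n ⊆ κ := fun n x hx => (ZFSet.mem_sep.1 hx).1
  have ctbV : ∀ n ∈ ZFSet.omega, Ctb M (V n) := by
    intro n hn
    refine few hM hP hc hκM (E := fun q α => T' q n α) ?_ ?_ ?_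
    · exact Dfn.comp3 (Q := T') dT' (DfnF.proj 0) (DfnF.const (hM.trans _ hω _ hn)) (DfnF.proj 1)
    · exact fun q _ r hr hrq β _ h => mono' q r hr hrq n β h
    · exact fun q _ β _ β' _ h h' => uni' q n β β' h h'
  have hωκ : ZFSet.omega ∈ κ := by
    rcases isOrdinal_omega.mem_trichotomous hκo with h | h | h
    · exact h
    · exact absurd (h ▸ Inj.of_subset hM hω hω fun _ h => h) hκc
    · exact absurd (Inj.of_subset hM hκM hω (isOrdinal_omega.isTransitive.subset_of_mem h)) hκc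
  have ctbω : Ctb M ZFSet.omega := hκξ _ hωκ
  obtain ⟨j, hj, hjV⟩ : ∃ j ∈ ZFSet.omega, ZFSet.omega ∈ oty (V j) := by
    refine big hM hκM hκo hκc dV (fun n _ => hVκ n) (fun β hβ => ?_) hωκ ctbω
    obtain ⟨r, hr, -, n, hn, h⟩ := tot' p₀ hp₀ (hP.refl _ hp₀) β hβ
    exact ⟨n, hn, ZFSet.mem_sep.2 ⟨hβ, r, hr, h⟩⟩
  have hVo : ∀ x ∈ V j, x.IsOrdinal := fun x hx => hκo.mem (hVκ j hx)
  have hjM := hM.trans _ hω _ hj
  have hVM : V j ∈ M := dV.1 (fun _ => j) fun _ => hjM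
  -- the pieces
  let A : ZFSet.{0} → ZFSet.{0} → Prop := fun q i => ∃ α ∈ V j, col (V j) α = i ∧ T' q j α
  have dA : Dfn M M fun w : Fin 2 → ZFSet.{0} => A (w 0) (w 1) := by
    refine hB.bex (DfnF.const hVM) (Dfn.and ?_ ?_)
    · exact Dfn.eq (DfnF.comp2 (f := col) (dfn_col2 hM) (DfnF.const hVM) (DfnF.proj 0))
        (DfnF.proj 2)
    · exact Dfn.comp3 (Q := T') dT' (DfnF.proj 1) (DfnF.const hjM) (DfnF.proj 0)
  have exA : ∀ i ∈ ZFSet.omega, ∃ q ∈ P, pair q p₀ ∈ Le ∧ A q i := by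
    intro i hi
    have h1 : i ∈ oty (V j) := (isOrdinal_oty hVo).isTransitive.mem_trans hi hjV
    obtain ⟨α, hα, h2⟩ := mem_im.1 h1
    obtain ⟨-, q, hq, h3⟩ := ZFSet.mem_sep.1 hα
    exact ⟨q, hq, h3.2.1, α, hα, h2.symm, h3⟩
  have uniA : ∀ q i i', A q i → A q i' → i = i' := by
    rintro q i i' ⟨α, -, rfl, h1⟩ ⟨α', -, rfl, h2⟩
    rw [uni' q j α α' h1 h2]
  have monoA : ∀ q r, r ∈ P → pair r q ∈ Le → ∀ i, A q i → A r i := by
    rintro q r hr hrq i ⟨α, h1, h2, h3⟩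
    exact ⟨α, h1, h2, mono' q r hr hrq j α h3⟩
  -- the sets of all values on the pieces
  let U : ZFSet.{0} → ZFSet.{0} → ZFSet.{0} := fun i n =>
    ZFSet.sep (fun β => ∃ q ∈ P, A q i ∧ T' q n β) κ
  have dU : DfnF M M fun w : Fin 2 → ZFSet.{0} => U (w 0) (w 1) := by
    refine hM.sep' (Q := fun β v => ∃ q ∈ P, A q (v 0) ∧ T' q (v 1) β) (DfnF.const hκM) ?_
    refine hB.bex (DfnF.const hPM) (Dfn.and ?_ ?_)
    · exact Dfn.comp2 (Q := A) dA (DfnF.proj 0) (DfnF.proj 2)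
    · exact Dfn.comp3 (Q := T') dT' (DfnF.proj 0) (DfnF.proj 3) (DfnF.proj 1)
  have hUκ : ∀ i n, U i n ⊆ κ := fun i n x hx => (ZFSet.mem_sep.1 hx).1
  have hUo : ∀ i n, ∀ x ∈ U i n, x.IsOrdinal := fun i n x hx => hκo.mem (hUκ i n hx)
  have hUM : ∀ i ∈ ZFSet.omega, ∀ n ∈ ZFSet.omega, U i n ∈ M := by
    intro i hi n hn
    have h1 := dU.1 (Fin.cons i (fun _ => n)) (by
      intro k
      refine Fin.cases ?_ (fun k => ?_) k
      · exact hM.trans _ hω _ hi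
      · exact hM.trans _ hω _ hn)
    exact h1
  have hUV : ∀ i n, U i n ⊆ V n := by
    intro i n x hx
    obtain ⟨h1, q, hq, -, h2⟩ := ZFSet.mem_sep.1 hx
    exact ZFSet.mem_sep.2 ⟨h1, q, hq, h2⟩
  have ctbU : ∀ i ∈ ZFSet.omega, ∀ n ∈ ZFSet.omega, Ctb M (U i n) := by
    intro i hi n hn
    have h1 : V n ∈ M := dV.1 (fun _ => n) fun _ => hM.trans _ hω _ hn
    exact Inj.trans hM (hUM i hi n hn) hω (Inj.of_subset hM (hUM i hi n hn) h1 (hUV i n))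
      (ctbV n hn)
  have bigU : ∀ i ∈ ZFSet.omega, ∀ ξ ∈ κ, ∃ n ∈ ZFSet.omega, ξ ∈ oty (U i n) := by
    intro i hi ξ hξ
    refine big hM hκM hκo hκc (U := U i) ?_ (fun n _ => hUκ i n) (fun β hβ => ?_) hξ (hκξ ξ hξ)
    · exact DfnF.comp2 (f := U) dU (DfnF.const (hM.trans _ hω _ hi)) (DfnF.proj 0)
    · obtain ⟨q, hq, hqp, h1⟩ := exA i hi
      obtain ⟨r, hr, h2, n, hn, h3⟩ := tot' q hq hqp β hβ
      exact ⟨n, hn, ZFSet.mem_sep.2 ⟨hβ, r, hr, monoA q r hr h2 i h1, h3⟩⟩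
  -- the bounds
  have h0ω : (∅ : ZFSet.{0}) ∈ ZFSet.omega := ZFSet.omega_zero
  have h0M := hM.empty_mem
  let c : ZFSet.{0} → ZFSet.{0} := fun i => oty (U ∅ i)
  have dc : DfnF M M fun w : Fin 1 → ZFSet.{0} => c (w 0) :=
    DfnF.comp1 (f := oty) (dfn_oty hM)
      (DfnF.comp2 (f := U) dU (DfnF.const h0M) (DfnF.proj 0))
  have hcκ : ∀ i ∈ ZFSet.omega, c i ∈ κ := by
    intro i hi
    have h1 : c i ⊆ κ := oty_subset hκo (hUκ ∅ i)
    have h2 : (c i).IsOrdinal := isOrdinal_oty (hUo ∅ i)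
    rcases (ZFSet.IsOrdinal.subset_iff_eq_or_mem h2 hκo).1 h1 with h3 | h3
    · exfalso
      refine hκc ?_
      rw [← h3]
      have hUi := hUM ∅ h0ω i hi
      have hcM : c i ∈ M := dc.1 (fun _ => i) fun _ => hM.trans _ hω _ hi
      exact Inj.trans hM hcM hω (Bij.symm hM hUi hcM (bij_oty hM hUi (hUo ∅ i))).inj
        (ctbU ∅ h0ω i hi)
    · exact h3
  let H : ZFSet.{0} → ZFSet.{0} := fun i => lo M fun n => n ∈ ZFSet.omega ∧ c i ⊆ oty (U i n)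
  have dH : DfnF M M fun w : Fin 1 → ZFSet.{0} => H (w 0) := by
    refine hM.lo' (Q := fun n v => n ∈ ZFSet.omega ∧ c (v 0) ⊆ oty (U (v 0) n)) (Dfn.and ?_ ?_)
    · exact Dfn.mem (DfnF.proj 0) (DfnF.const hω)
    · refine hB.subset' (DfnF.comp1 (f := c) dc (DfnF.proj 1)) ?_
      exact DfnF.comp1 (f := oty) (dfn_oty hM)
        (DfnF.comp2 (f := U) dU (DfnF.proj 1) (DfnF.proj 0))
  have hH : ∀ i ∈ ZFSet.omega, H i ∈ ZFSet.omega ∧ c i ⊆ oty (U i (H i)) := by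
    intro i hi
    obtain ⟨n, hn, h1⟩ := bigU i hi (c i) (hcκ i hi)
    exact (lo_spec (M := M) (P := fun n => n ∈ ZFSet.omega ∧ c i ⊆ oty (U i n))
      ⟨n, hM.trans _ hω _ hn, isOrdinal_omega.mem hn, hn,
        (isOrdinal_oty (hUo i n)).isTransitive.subset_of_mem h1⟩).2.2
  -- the final relation
  let E : ZFSet.{0} → ZFSet.{0} → Prop := fun q β => ∃ i ∈ ZFSet.omega, A q i ∧ T' q (H i) β
  have dE : Dfn M M fun w : Fin 2 → ZFSet.{0} => E (w 0) (w 1) := by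
    refine hB.bex (DfnF.const hω) (Dfn.and ?_ ?_)
    · exact Dfn.comp2 (Q := A) dA (DfnF.proj 1) (DfnF.proj 0)
    · exact Dfn.comp3 (Q := T') dT' (DfnF.proj 1) (DfnF.comp1 (f := H) dH (DfnF.proj 0))
        (DfnF.proj 2)
  let Z : ZFSet.{0} := ZFSet.sep (fun β => ∃ q ∈ P, E q β) κ
  have hZM : Z ∈ M := by
    refine hM.sep_mem (Q := fun β => ∃ q ∈ P, E q β) ?_ hκM
    refine hB.bex (DfnF.const hPM) ?_
    exact Dfn.comp2 (Q := E) dE (DfnF.proj 0) (DfnF.proj 1)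
  have ctbZ : Ctb M Z := by
    refine few hM hP hc hκM dE ?_ ?_
    · rintro q _ r hr hrq β _ ⟨i, hi, h1, h2⟩
      exact ⟨i, hi, monoA q r hr hrq i h1, mono' q r hr hrq _ β h2⟩
    · rintro q _ β _ β' _ ⟨i, hi, h1, h2⟩ ⟨i', hi', h3, h4⟩
      obtain rfl := uniA q i i' h1 h3
      exact uni' q _ β β' h2 h4
  have hZκ : Z ⊆ κ := fun x hx => (ZFSet.mem_sep.1 hx).1
  have hZo : ∀ x ∈ Z, x.IsOrdinal := fun x hx => hκo.mem (hZκ hx)
  have hUZ : ∀ i ∈ ZFSet.omega, U i (H i) ⊆ Z := by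
    intro i hi x hx
    obtain ⟨h1, q, hq, h2, h3⟩ := ZFSet.mem_sep.1 hx
    exact ZFSet.mem_sep.2 ⟨h1, q, hq, i, hi, h2, h3⟩
  have hκZ : κ ⊆ oty Z := by
    intro ξ hξ
    obtain ⟨n, hn, h1⟩ := bigU ∅ h0ω ξ hξ
    exact oty_mono hZo (hUZ n hn) ((hH n hn).2 h1)
  have hoM := col_im_mem hM hZM
  exact hκc (Inj.trans hM hκM hω (Inj.of_subset hM hκM hoM hκZ)
    (Inj.trans hM hoM hω (Bij.symm hM hZM hoM (bij_oty hM hZM hZo)).inj ctbZ))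

end

end Pool.Agent.R596.CC
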