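import Pool.Agent.R596.CcFor

/-!
# Notions of forcing with the third countable chain condition preserve the first uncountable
ordinal
-/

set_option autoImplicit false
set_option linter.all false

namespace Pool.Agent.R596.CC

open Pool.Agent.W868 Pool.Agent.R596Cc
open ZFSet (pair)

/-- The condition `q` forces that the pair `(α, n)` is an element of `τ`. -/
def TT (P Le τ q n α : ZFSet.{0}) : Prop :=
  ∀ s ∈ P, pair s q ∈ Le → ∃ t ∈ P, pair t s ∈ Le ∧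
    ∃ w ∈ τ, IsP w ∧ pair t (sn w) ∈ Le ∧ t ∈ Fe P Le (fs w) (pair α n)

section

variable {M : Set ZFSet.{0}} (hM : IsZF M) {P Le : ZFSet.{0}} (hP : IsForcing M P Le)

include hM hP

theorem dfn_TT {τ : ZFSet.{0}} (hτ : τ ∈ M) :
    Dfn M M fun w : Fin 3 → ZFSet.{0} => TT P Le τ (w 0) (w 1) (w 2) := by
  have hB := hM.base
  have hPM := hP.mem
  have hLM := hP.le_mem
  have dFe := dfn_Fe hM hPM hLM
  refine hB.ball (DfnF.const hPM) (Dfn.imp ?_ ?_)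
  · exact Dfn.mem (hB.pair' (DfnF.proj 0) (DfnF.proj 1)) (DfnF.const hLM)
  · refine hB.bex (DfnF.const hPM) (Dfn.and ?_ ?_)
    · exact Dfn.mem (hB.pair' (DfnF.proj 0) (DfnF.proj 1)) (DfnF.const hLM)
    · refine hB.bex (DfnF.const hτ) (Dfn.and (dfn_isP hM (DfnF.proj 0)) (Dfn.and ?_ ?_))
      · exact Dfn.mem (hB.pair' (DfnF.proj 1) (hM.sn' (DfnF.proj 0))) (DfnF.const hLM)
      · exact Dfn.mem (DfnF.proj 1) (DfnF.comp2 (f := Fe P Le) dFe (hM.fs' (DfnF.proj 0))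
          (hB.pair' (DfnF.proj 5) (DfnF.proj 4)))

omit hM in
theorem TT_mono {τ q r n α : ZFSet.{0}} (hrq : pair r q ∈ Le) (h : TT P Le τ q n α) :
    TT P Le τ r n α := fun s hs h1 => h s hs (hP.trans _ _ _ h1 hrq)

variable {G : Set ZFSet.{0}} (hG : IsGeneric M P Le G)

include hG

theorem TT_truth {τ n α : ZFSet.{0}} (hτ : τ ∈ M) (hn : n ∈ M) (hα : α ∈ M) :
    pair α n ∈ val G τ ↔ ∃ q ∈ G, TT P Le τ q n α := by
  have hB := hM.base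
  have hPM := hP.mem
  have hLM := hP.le_mem
  have dFe := dfn_Fe hM hPM hLM
  have hp := hM.pair_mem hα hn
  constructor
  · intro h
    rw [mem_val] at h
    obtain ⟨σ, r, hr, h1, h2⟩ := h
    have hσ : σ ∈ M := (hM.of_pair_mem (hM.trans _ hτ _ h1)).1
    obtain ⟨t, ht, h3⟩ := (truth hM hP hG σ hσ _ hp).1 h2
    obtain ⟨q, hq, h4, h5⟩ := hG.dir t ht r hr
    refine ⟨q, hq, fun s hs h6 => ⟨s, hs, hP.refl s hs, _, h1, isP_pair _ _, ?_, ?_⟩⟩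
    · rw [sn_pair]
      exact hP.trans _ _ _ h6 h5
    · rw [fs_pair]
      exact Fe_mono hP h3 hs (hP.trans _ _ _ h6 h4)
  · rintro ⟨q, hq, h⟩
    obtain ⟨t, ht, w, hw, hwp, h3, h4⟩ := gen_below hM hP hG hq
      (Q := fun t => ∃ w ∈ τ, IsP w ∧ pair t (sn w) ∈ Le ∧ t ∈ Fe P Le (fs w) (pair α n))
      (hB.bex (DfnF.const hτ) (Dfn.and (dfn_isP hM (DfnF.proj 0)) (Dfn.and
        (Dfn.mem (hB.pair' (DfnF.proj 1) (hM.sn' (DfnF.proj 0))) (DfnF.const hLM))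
        (Dfn.mem (DfnF.proj 1) (DfnF.comp2 (f := Fe P Le) dFe (hM.fs' (DfnF.proj 0))
          (DfnF.const hp))))))
      h
    rw [mem_val]
    refine ⟨fs w, sn w, hG.up t ht _ (mem_P_of_le hP h3) h3, by rw [← hwp]; exact hw, ?_⟩
    exact (truth hM hP hG _ (hM.fs_mem (hM.trans _ hτ _ hw)) _ hp).2 ⟨t, ht, h4⟩

/-- A filter contains a condition that decides between two possibilities. -/
theorem gen_dense {Q : ZFSet.{0} → Prop} (hQ : Dfn M M fun w : Fin 1 → ZFSet.{0} => Q (w 0))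
    (hd : ∀ p ∈ P, ∃ q ∈ P, pair q p ∈ Le ∧ Q q) : ∃ q ∈ G, Q q := by
  obtain ⟨q, hq, h⟩ := hG.meets (ZFSet.sep Q P) (hM.sep_mem hQ hP.mem)
    (fun x hx => (ZFSet.mem_sep.1 hx).1) fun p hp => by
      obtain ⟨q, h1, h2, h3⟩ := hd p hp
      exact ⟨q, ZFSet.mem_sep.2 ⟨h1, h3⟩, h2⟩
  exact ⟨q, hq, (ZFSet.mem_sep.1 h).2⟩

end

/-- The theorem. -/
theorem main {M : Set ZFSet.{0}} (hM : IsZF M) {P Le κ : ZFSet.{0}} (hP : IsForcing M P Le)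
    (hc : CCC3 M P Le) (hκ : IsOmega1 M κ) : ¬ Collapses M P Le κ := by
  rintro ⟨G, hG, f, ⟨τ, hτ, rfl⟩, hf⟩
  have hB := hM.base
  have hω := hM.infinity
  have hPM := hP.mem
  have hLM := hP.le_mem
  have hκM := hκ.1
  have dT := dfn_TT hM hP hτ
  have mκ : ∀ α ∈ κ, α ∈ M := fun α h => hM.trans _ hκM _ h
  have mω : ∀ α ∈ ZFSet.omega, α ∈ M := fun α h => hM.trans _ hω _ h
  obtain ⟨q₁, hq₁, h1⟩ := gen_dense hM hP hG (Q := fun q =>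
    (∃ n ∈ ZFSet.omega, ∃ α ∈ κ, ∃ β ∈ κ, α ≠ β ∧ TT P Le τ q n α ∧ TT P Le τ q n β) ∨
    ∀ r ∈ P, pair r q ∈ Le → ∀ n ∈ ZFSet.omega, ∀ α ∈ κ, ∀ β ∈ κ, TT P Le τ r n α →
      TT P Le τ r n β → α = β) (by
    refine Dfn.or ?_ ?_
    · refine hB.bex (DfnF.const hω) (hB.bex (DfnF.const hκM) (hB.bex (DfnF.const hκM)
        (Dfn.and (Dfn.not (Dfn.eq (DfnF.proj 1) (DfnF.proj 0))) (Dfn.and ?_ ?_))))
      · exact Dfn.comp3 (Q := TT P Le τ) dT (DfnF.proj 3) (DfnF.proj 2) (DfnF.proj 1)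
      · exact Dfn.comp3 (Q := TT P Le τ) dT (DfnF.proj 3) (DfnF.proj 2) (DfnF.proj 0)
    · refine hB.ball (DfnF.const hPM) (Dfn.imp ?_ ?_)
      · exact Dfn.mem (hB.pair' (DfnF.proj 0) (DfnF.proj 1)) (DfnF.const hLM)
      · refine hB.ball (DfnF.const hω) (hB.ball (DfnF.const hκM) (hB.ball (DfnF.const hκM)
          (Dfn.imp ?_ (Dfn.imp ?_ (Dfn.eq (DfnF.proj 1) (DfnF.proj 0))))))
        · exact Dfn.comp3 (Q := TT P Le τ) dT (DfnF.proj 3) (DfnF.proj 2) (DfnF.proj 1)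
        · exact Dfn.comp3 (Q := TT P Le τ) dT (DfnF.proj 3) (DfnF.proj 2) (DfnF.proj 0)) (by
    intro p hp
    by_cases h : ∃ r ∈ P, pair r p ∈ Le ∧ ∃ n ∈ ZFSet.omega, ∃ α ∈ κ, ∃ β ∈ κ, α ≠ β ∧
      TT P Le τ r n α ∧ TT P Le τ r n β
    · obtain ⟨r, hr, h2, h3⟩ := h
      exact ⟨r, hr, h2, Or.inl h3⟩
    · refine ⟨p, hp, hP.refl p hp, Or.inr fun r hr h2 n hn α hα β hβ h3 h4 => ?_⟩
      by_contra hne
      exact h ⟨r, hr, h2, n, hn, α, hα, β, hβ, hne, h3, h4⟩)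
  obtain ⟨q₂, hq₂, h2⟩ := gen_dense hM hP hG (Q := fun q =>
    (∃ α ∈ κ, ∀ r ∈ P, pair r q ∈ Le → ∀ n ∈ ZFSet.omega, ¬ TT P Le τ r n α) ∨
    ∀ q' ∈ P, pair q' q ∈ Le → ∀ α ∈ κ, ∃ r ∈ P, pair r q' ∈ Le ∧ ∃ n ∈ ZFSet.omega,
      TT P Le τ r n α) (by
    refine Dfn.or ?_ ?_
    · refine hB.bex (DfnF.const hκM) (hB.ball (DfnF.const hPM) (Dfn.imp ?_ ?_))
      · exact Dfn.mem (hB.pair' (DfnF.proj 0) (DfnF.proj 2)) (DfnF.const hLM)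
      · refine hB.ball (DfnF.const hω) (Dfn.not ?_)
        exact Dfn.comp3 (Q := TT P Le τ) dT (DfnF.proj 1) (DfnF.proj 0) (DfnF.proj 2)
    · refine hB.ball (DfnF.const hPM) (Dfn.imp ?_ ?_)
      · exact Dfn.mem (hB.pair' (DfnF.proj 0) (DfnF.proj 1)) (DfnF.const hLM)
      · refine hB.ball (DfnF.const hκM) (hB.bex (DfnF.const hPM) (Dfn.and ?_ ?_))
        · exact Dfn.mem (hB.pair' (DfnF.proj 0) (DfnF.proj 2)) (DfnF.const hLM)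
        · refine hB.bex (DfnF.const hω) ?_
          exact Dfn.comp3 (Q := TT P Le τ) dT (DfnF.proj 1) (DfnF.proj 0) (DfnF.proj 2)) (by
    intro p hp
    by_cases h : ∃ q' ∈ P, pair q' p ∈ Le ∧ ∃ α ∈ κ, ∀ r ∈ P, pair r q' ∈ Le →
      ∀ n ∈ ZFSet.omega, ¬ TT P Le τ r n α
    · obtain ⟨r, hr, h2, h3⟩ := h
      exact ⟨r, hr, h2, Or.inl h3⟩
    · refine ⟨p, hp, hP.refl p hp, Or.inr fun q' hq' h2 α hα => ?_⟩
      by_contra hne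
      refine h ⟨q', hq', h2, α, hα, fun r hr h3 n hn h4 => hne ⟨r, hr, h3, n, hn, h4⟩⟩)
  have h1' : ∀ r ∈ P, pair r q₁ ∈ Le → ∀ n ∈ ZFSet.omega, ∀ α ∈ κ, ∀ β ∈ κ, TT P Le τ r n α →
      TT P Le τ r n β → α = β := by
    refine h1.resolve_left ?_
    rintro ⟨n, hn, α, hα, β, hβ, hne, h3, h4⟩
    have h5 := (TT_truth hM hP hG hτ (mω n hn) (mκ α hα)).2 ⟨q₁, hq₁, h3⟩
    have h6 := (TT_truth hM hP hG hτ (mω n hn) (mκ β hβ)).2 ⟨q₁, hq₁, h4⟩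
    exact hne (hf.2 _ _ _ h5 h6)
  have h2' : ∀ q' ∈ P, pair q' q₂ ∈ Le → ∀ α ∈ κ, ∃ r ∈ P, pair r q' ∈ Le ∧
      ∃ n ∈ ZFSet.omega, TT P Le τ r n α := by
    refine h2.resolve_left ?_
    rintro ⟨α, hα, h3⟩
    obtain ⟨n, hn, h4⟩ := fun_exists hf.1 hα
    obtain ⟨q, hq, h5⟩ := (TT_truth hM hP hG hτ (mω n hn) (mκ α hα)).1 h4
    obtain ⟨r, hr, h6, h7⟩ := hG.dir q hq q₂ hq₂
    exact h3 r (hG.sub r hr) h7 n hn (TT_mono hP h6 h5)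
  obtain ⟨p₀, hp₀, h3, h4⟩ := hG.dir q₁ hq₁ q₂ hq₂
  refine kernel hM hP hc hκ (hG.sub p₀ hp₀) dT ?_ ?_ ?_
  · exact fun q _ r _ hrq n _ α _ h => TT_mono hP hrq h
  · exact fun q hq hqp n hn α hα β hβ h5 h6 =>
      h1' q hq (hP.trans _ _ _ hqp h3) n hn α hα β hβ h5 h6
  · exact fun q hq hqp α hα => h2' q hq (hP.trans _ _ _ hqp h4) α hα

/-- The theorem for names. -/
theorem main' {M : Set ZFSet.{0}} (hM : IsZF M) {P Le κ p₀ T : ZFSet.{0}}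
    (hP : IsForcing M P Le) (hc : CCC3 M P Le) (hκ : IsOmega1 M κ) (hp₀ : p₀ ∈ P) :
    ¬ ForcesInj M P Le κ p₀ T := by
  rintro ⟨hT, hinj, htot⟩
  have hB := hM.base
  refine kernel hM hP hc hκ hp₀
    (T := fun q n α => ∃ q' ∈ P, pair q q' ∈ Le ∧ pair q' (pair α n) ∈ T) ?_ ?_ ?_ ?_
  · refine hB.bex (DfnF.const hP.mem) (Dfn.and ?_ ?_)
    · exact Dfn.mem (hB.pair' (DfnF.proj 1) (DfnF.proj 0)) (DfnF.const hP.le_mem)
    · exact Dfn.mem (hB.pair' (DfnF.proj 0) (hB.pair' (DfnF.proj 3) (DfnF.proj 2)))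
        (DfnF.const hT)
  · rintro q _ r _ hrq n _ α _ ⟨q', h1, h2, h3⟩
    exact ⟨q', h1, hP.trans _ _ _ hrq h2, h3⟩
  · rintro q hq hqp n hn α hα β hβ ⟨q₁, h1, h2, h3⟩ ⟨q₂, h4, h5, h6⟩
    exact hinj q₁ h1 q₂ h4 q hq hqp h2 h5 n hn α hα β hβ h3 h6
  · intro q hq hqp α hα
    obtain ⟨q', hq', n, hn, h1, s, hs, h2, h3⟩ := htot α hα q hq hqp
    exact ⟨s, hs, h2, n, hn, q', hq', h3, h1⟩

end Pool.Agent.R596.CC
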