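import Pool.Agent.R596.Cnt

/-!
# Counting at the finite stages: the codes are different
-/

set_option maxHeartbeats 400000
set_option linter.all false

namespace Pool.Agent.R596

open FirstOrder FirstOrder.Language
open Pool.Agent.Helper672.ZFA
open Pool.Agent.H310
open Pool.Agent.W924

universe u u₁ u₂ u₃ u₄

variable {M : Type u} [L.Structure M] [hM : IsModel M]
variable {α : Type u₁} {ι : Type u₂} [ITy M α] [ITy M ι]
variable {lt : ι → ι → Prop} {s : IPow M (ι × (α ⊕ IPm M α))}

theorem CdA_inj (hW : IWo M lt) (hs : Valid lt s)
    {d : Fin 7 → ι} (hd : Function.Injective d) (hdd : ∀ k, dm s (d k)) {σ σ' : IPm M α}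
    {B : IPow M ι} (h : CdA lt s σ B) (h' : CdA lt s σ' B) : σ = σ' := by
  obtain ⟨i, j, k, x, y, z, hi, hj, hk, hC, hij, hik, h⟩ := h
  obtain ⟨i', j', k', x', y', z', hi', hj', hk', hC', hij', hik', h'⟩ := h'
  have fin : i = i' → j = j' → k = k' → σ = σ' := by
    rintro rfl rfl rfl
    obtain rfl := hs.2.1 _ _ _ hi hi'
    obtain rfl := hs.2.1 _ _ _ hj hj'
    obtain rfl := hs.2.1 _ _ _ hk hk'
    exact hC.ext hC'
  rcases h with ⟨h1, h2⟩ | ⟨h1, h2⟩ <;> rcases h' with ⟨h1', h2'⟩ | ⟨h1', h2'⟩
  · obtain ⟨e1, e2, e3⟩ := sorted hW hij h1 hij' h1' fun w => (h2 w).symm.trans (h2' w)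
    exact fin e1 e2 e3
  · exfalso
    refine seven hd [i, j, k, i', j', k'] (by simp) fun m => ?_
    have h3 := (h2' (d m)).symm.trans (h2 (d m))
    have h4 := hdd m
    simp only [List.mem_cons, List.not_mem_nil, or_false]
    tauto
  · exfalso
    refine seven hd [i, j, k, i', j', k'] (by simp) fun m => ?_
    have h3 := (h2' (d m)).symm.trans (h2 (d m))
    have h4 := hdd m
    simp only [List.mem_cons, List.not_mem_nil, or_false]
    tauto
  · obtain ⟨e1, e2, e3⟩ := sorted hW hik h1 hik' h1' fun w => by
      have h3 := (h2 w).symm.trans (h2' w)
      constructor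
      · intro h4
        have h5 : dm s w := by
          rcases h4 with rfl | rfl | rfl
          · exact ⟨_, hi⟩
          · exact ⟨_, hk⟩
          · exact ⟨_, hj⟩
        tauto
      · intro h4
        have h5 : dm s w := by
          rcases h4 with rfl | rfl | rfl
          · exact ⟨_, hi'⟩
          · exact ⟨_, hk'⟩
          · exact ⟨_, hj'⟩
        tauto
    exact fin e1 e3 e2

theorem CdAB (hW : IWo M lt) (hs : Valid lt s)
    {d : Fin 7 → ι} (hd : Function.Injective d) (hdd : ∀ k, dm s (d k)) {σ σ' : IPm M α}
    {B : IPow M ι} (h : CdA lt s σ B) (h' : CdB lt s σ' B) : False := by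
  obtain ⟨i, j, k, x, y, z, hi, hj, hk, hC, hij, hik, h⟩ := h
  obtain ⟨m, ρ, hρ, h'⟩ := h'
  have nij : i ≠ j := fun h => hW.irr _ (h ▸ hij)
  have nik : i ≠ k := fun h => hW.irr _ (h ▸ hik)
  have di : dm s i := ⟨_, hi⟩
  have dj : dm s j := ⟨_, hj⟩
  rcases h with ⟨h1, h2⟩ | ⟨h1, h2⟩
  · have njk : j ≠ k := fun h => hW.irr _ (h ▸ h1)
    rcases h' with ⟨_, h3⟩ | ⟨_, ⟨_, h3⟩ | ⟨_, i₀, _, h3⟩⟩
    · refine seven hd [i, j, k, m] (by simp) fun n => ?_
      have h4 := (h3 (d n)).symm.trans (h2 (d n))
      have h5 := hdd n
      simp only [List.mem_cons, List.not_mem_nil, or_false]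
      tauto
    · refine seven hd [i, j, k] (by simp) fun n => ?_
      have h4 := (h3 (d n)).symm.trans (h2 (d n))
      have h5 := hdd n
      simp only [List.mem_cons, List.not_mem_nil, or_false]
      tauto
    · have e1 := (h3 i).1 ((h2 i).2 (Or.inl rfl))
      have e2 := (h3 j).1 ((h2 j).2 (Or.inr (Or.inl rfl)))
      have e3 := (h3 k).1 ((h2 k).2 (Or.inr (Or.inr rfl)))
      rcases e1 with e1 | e1 <;> rcases e2 with e2 | e2 <;> rcases e3 with e3 | e3
      · exact nij (e1.trans e2.symm)
      · exact nij (e1.trans e2.symm)
      · exact nik (e1.trans e3.symm)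
      · exact njk (e2.trans e3.symm)
      · exact njk (e2.trans e3.symm)
      · exact nik (e1.trans e3.symm)
      · exact nij (e1.trans e2.symm)
      · exact nij (e1.trans e2.symm)
  · rcases h' with ⟨_, h3⟩ | ⟨_, ⟨_, h3⟩ | ⟨_, i₀, _, h3⟩⟩
    · have e1 : i = m := by
        by_contra hc
        exact ((h2 i).1 ((h3 i).2 ⟨di, hc⟩)).2.1 rfl
      have e2 : j = m := by
        by_contra hc
        exact ((h2 j).1 ((h3 j).2 ⟨dj, hc⟩)).2.2.1 rfl
      exact nij (e1.trans e2.symm)
    · exact ((h2 i).1 ((h3 i).2 di)).2.1 rfl
    · refine seven hd [i, j, k, i₀, m] (by simp) fun n => ?_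
      have h4 := (h3 (d n)).symm.trans (h2 (d n))
      have h5 := hdd n
      simp only [List.mem_cons, List.not_mem_nil, or_false]
      tauto

theorem CdB_inj (hW : IWo M lt) (hs : Valid lt s)
    {d : Fin 7 → ι} (hd : Function.Injective d) (hdd : ∀ k, dm s (d k)) {σ σ' : IPm M α}
    {B : IPow M ι} (h : CdB lt s σ B) (h' : CdB lt s σ' B) : σ = σ' := by
  obtain ⟨i, ρ, hρ, h⟩ := h
  obtain ⟨i', ρ', hρ', h'⟩ := h'
  have di : dm s i := ⟨_, hρ.1⟩
  have di' : dm s i' := ⟨_, hρ'.1⟩
  have lst : ∀ a b : ι, (∀ j, ¬ lt j a) → (∀ j, ¬ lt j b) → a = b := by
    intro a b ha hb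
    rcases hW.tri a b with h | h | h
    · exact absurd h (hb a)
    · exact h
    · exact absurd h (ha b)
  have inv : i = i' → (∀ x, σ.1 (ρ.1 x) = x) → (∀ x, σ'.1 (ρ'.1 x) = x) → σ = σ' := by
    rintro rfl h1 h2
    obtain rfl := hs.2.2.1 _ _ _ hρ.1 hρ'.1
    refine IPm.ext fun w => ?_
    obtain ⟨v, rfl⟩ := ρ.2.2 w
    rw [h1, h2]
  rcases h with ⟨h1, h2⟩ | ⟨h1, ⟨h2, h3⟩ | ⟨h2, i₀, h3, h4⟩⟩ <;>
    rcases h' with ⟨h1', h2'⟩ | ⟨h1', ⟨h2', h3'⟩ | ⟨h2', i₀', h3', h4'⟩⟩
  · have e1 : i = i' := by
      by_contra hc
      exact ((h2 i).1 ((h2' i).2 ⟨di, hc⟩)).2 rfl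
    subst e1
    rw [h1, h1']
    exact hs.2.2.1 _ _ _ hρ.1 hρ'.1
  · exact absurd rfl ((h2 i).1 ((h3' i).2 di)).2
  · exfalso
    refine seven hd [i, i₀', i'] (by simp) fun n => ?_
    have h5 := (h4' (d n)).symm.trans (h2 (d n))
    have h6 := hdd n
    simp only [List.mem_cons, List.not_mem_nil, or_false]
    tauto
  · exact absurd rfl ((h2' i').1 ((h3 i').2 di')).2
  · exact inv (lst _ _ h2 h2') h1 h1'
  · exfalso
    refine seven hd [i₀', i'] (by simp) fun n => ?_
    have h5 := (h4' (d n)).symm.trans (h3 (d n))
    have h6 := hdd n
    simp only [List.mem_cons, List.not_mem_nil, or_false]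
    tauto
  · exfalso
    refine seven hd [i', i₀, i] (by simp) fun n => ?_
    have h5 := (h4 (d n)).symm.trans (h2' (d n))
    have h6 := hdd n
    simp only [List.mem_cons, List.not_mem_nil, or_false]
    tauto
  · exfalso
    refine seven hd [i₀, i] (by simp) fun n => ?_
    have h5 := (h4 (d n)).symm.trans (h3' (d n))
    have h6 := hdd n
    simp only [List.mem_cons, List.not_mem_nil, or_false]
    tauto
  · refine inv ?_ h1 h1'
    have e0 := lst _ _ h3 h3'
    rcases (h4' i).1 ((h4 i).2 (Or.inr rfl)) with e | e
    · exact absurd (e ▸ h3') h2
    · exact e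

theorem finP_fins {S : IPow M ι} (hS : IFin S) :
    FinP M (fun G : FinS M ι => G.1 ⊆ S) := by
  refine FinP.of_inj (f := fun G : FinS M ι => G.1) (by (repeat' (first | with_reducible exact IntF.id | with_reducible exact IntF.fst' | with_reducible exact IntF.snd' | with_reducible exact IntF.const _ | with_reducible exact Int.const _ | assumption | with_reducible apply Int.and | with_reducible apply Int.or | with_reducible apply Int.not | with_reducible apply Int.imp | with_reducible apply Int.iff | with_reducible apply Int.ne | with_reducible apply Int.eq | with_reducible apply Int.mem | with_reducible apply Int.subset | with_reducible apply Int.ltN | with_reducible apply Int.leN | with_reducible apply Int.fin | with_reducible apply Int.unique | with_reducible apply Int.all | with_reducible apply Int.ex | with_reducible apply IntF.fst | with_reducible apply IntF.snd | with_reducible apply IntF.app | with_reducible apply IntF.ite | with_reducible apply IntF.sep | with_reducible apply IntF.lam | with_reducible apply IntF.insert | with_reducible apply IntF.singleton | with_reducible apply IntF.union | with_reducible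 apply IntF.inter | with_reducible apply IntF.sdiff | with_reducible apply IntF.isUnion | with_reducible apply IntF.iimage | with_reducible apply IntF.the | with_reducible apply IntF.irec | with_reducible_and_instances apply IntF.add | with_reducible_and_instances apply IntF.mul | with_reducible apply IntF.succ | with_reducible apply IntF.val | (with_reducible refine Int.comp ?_ ?_; assumption) | (with_reducible refine Int.comp₂ ?_ ?_ ?_; assumption) | (with_reducible refine Int.comp₃ ?_ ?_ ?_ ?_; assumption) | (with_reducible refine Int.comp₄ ?_ ?_ ?_ ?_ ?_; assumption) | (with_reducible refine IntF.comp ?_ ?_; assumption) | (with_reducible refine IntF.comp₂ ?_ ?_ ?_; assumption) | (with_reducible refine IntF.comp₃ ?_ ?_ ?_ ?_; assumption) | with_reducible apply IntF.inl | with_reducible apply IntF.inr | with_reducible apply IntF.pair))) (by (repeat' (first | with_reducible exact IntF.id | with_reducible exact IntF.fst' | with_reducible exact IntF.snd' | with_reducible exact IntF.const _ | with_reducible exact Int.const _ | assumption | with_reducible apply Int.and | with_reducible apply Int.or | with_reducible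 apply Int.not | with_reducible apply Int.imp | with_reducible apply Int.iff | with_reducible apply Int.ne | with_reducible apply Int.eq | with_reducible apply Int.mem | with_reducible apply Int.subset | with_reducible apply Int.ltN | with_reducible apply Int.leN | with_reducible apply Int.fin | with_reducible apply Int.unique | with_reducible apply Int.all | with_reducible apply Int.ex | with_reducible apply IntF.fst | with_reducible apply IntF.snd | with_reducible apply IntF.app | with_reducible apply IntF.ite | with_reducible apply IntF.sep | with_reducible apply IntF.lam | with_reducible apply IntF.insert | with_reducible apply IntF.singleton | with_reducible apply IntF.union | with_reducible apply IntF.inter | with_reducible apply IntF.sdiff | with_reducible apply IntF.isUnion | with_reducible apply IntF.iimage | with_reducible apply IntF.the | with_reducible apply IntF.irec | with_reducible_and_instances apply IntF.add | with_reducible_and_instances apply IntF.mul | with_reducible apply IntF.succ | with_reducible apply IntF.val | (with_reducible refine Int.comp ?_ ?_; assumption) | (with_reducible refine Int.comp₂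 ?_ ?_ ?_; assumption) | (with_reducible refine Int.comp₃ ?_ ?_ ?_ ?_; assumption) | (with_reducible refine Int.comp₄ ?_ ?_ ?_ ?_ ?_; assumption) | (with_reducible refine IntF.comp ?_ ?_; assumption) | (with_reducible refine IntF.comp₂ ?_ ?_ ?_; assumption) | (with_reducible refine IntF.comp₃ ?_ ?_ ?_ ?_; assumption) | with_reducible apply IntF.inl | with_reducible apply IntF.inr | with_reducible apply IntF.pair)))
    (fun a b _ _ h => Subtype.ext h) (q := fun s => s ∈ ipow S) ⟨_, hS.pow, fun s hs => hs⟩
    fun G hG => mem_ipow.2 hG

/-- `B'` codes the value at `B`. -/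
def CdP (lt : ι → ι → Prop) (s : IPow M (ι × (α ⊕ IPm M α))) (f : FEq M α → IPm M α)
    (B B' : FinS M ι) : Prop :=
  NS s B'.1 ∧ (∃ w, w ∈ B'.1) ∧ (CdA lt s (f (PB s B.1)) B'.1 ∨ CdB lt s (f (PB s B.1)) B'.1)

/-- At a finite stage there is a new value. -/
theorem count (hW : IWo M lt) (hs : Valid lt s) (hfin : FinP M (fun i => dm s i))
    {d : Fin 7 → ι} (hd : Function.Injective d) (hdd : ∀ k, dm s (d k))
    {f : FEq M α → IPm M α} (hf : IntF M f) (hinj : ∀ r r', f r = f r' → r = r') :
    ∃ B : FinS M ι, NS s B.1 ∧ ¬ KK s (f (PB s B.1)) := by
  by_contra hcon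
  push Not at hcon
  have hI1 := int_NS (M := M) (α := α) (ι := ι)
  have hI2 := int_CdA (M := M) (α := α) (ι := ι) hW.int
  have hI3 := int_CdB (M := M) (α := α) (ι := ι) hW.int
  have hI4 := int_PB (M := M) (α := α) (ι := ι)
  have hdm := int_dm (M := M) (α := α) (ι := ι)
  have hp : Int M (fun q : FinS M ι × FinS M ι => CdP lt s f q.1 q.2) := by
    unfold CdP
    (repeat' (first | with_reducible exact IntF.id | with_reducible exact IntF.fst' | with_reducible exact IntF.snd' | with_reducible exact IntF.const _ | with_reducible exact Int.const _ | assumption | with_reducible apply Int.and | with_reducible apply Int.or | with_reducible apply Int.not | with_reducible apply Int.imp | with_reducible apply Int.iff | with_reducible apply Int.ne | with_reducible apply Int.eq | with_reducible apply Int.mem | with_reducible apply Int.subset | with_reducible apply Int.ltN | with_reducible apply Int.leN | with_reducible apply Int.fin | with_reducible apply Int.unique | with_reducible apply Int.all | with_reducible apply Int.ex | with_reducible apply IntF.fst | with_reducible apply IntF.snd | with_reducible apply IntF.app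 | with_reducible apply IntF.ite | with_reducible apply IntF.sep | with_reducible apply IntF.lam | with_reducible apply IntF.insert | with_reducible apply IntF.singleton | with_reducible apply IntF.union | with_reducible apply IntF.inter | with_reducible apply IntF.sdiff | with_reducible apply IntF.isUnion | with_reducible apply IntF.iimage | with_reducible apply IntF.the | with_reducible apply IntF.irec | with_reducible_and_instances apply IntF.add | with_reducible_and_instances apply IntF.mul | with_reducible apply IntF.succ | with_reducible apply IntF.val | (with_reducible refine Int.comp ?_ ?_; assumption) | (with_reducible refine Int.comp₂ ?_ ?_ ?_; assumption) | (with_reducible refine Int.comp₃ ?_ ?_ ?_ ?_; assumption) | (with_reducible refine Int.comp₄ ?_ ?_ ?_ ?_ ?_; assumption) | (with_reducible refine IntF.comp ?_ ?_; assumption) | (with_reducible refine IntF.comp₂ ?_ ?_ ?_; assumption) | (with_reducible refine IntF.comp₃ ?_ ?_ ?_ ?_; assumption) | with_reducible apply IntF.inl | with_reducible apply IntF.inr | with_reducible apply IntF.pair))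
  have hg : IntF M (fun B : FinS M ι => lst (fun F F' : FinS M ι => colex lt F.1 F'.1)
      (CdP lt s f B) B) := hW.fins.intF_lst hp IntF.id
  have hspec : ∀ B : FinS M ι, NS s B.1 → CdP lt s f B
      (lst (fun F F' : FinS M ι => colex lt F.1 F'.1) (CdP lt s f B) B) := by
    intro B hB
    refine hW.fins.lst_spec (Int.slice (p := fun B B' : FinS M ι => CdP lt s f B B') hp B) ?_ B
    obtain ⟨B', h1, h2, h3, h4⟩ := exists_Cd hW hs hfin hd hdd (hcon B hB)
    exact ⟨⟨B', h1⟩, h2, h3, h4⟩
  have hpf : FinP M (fun B : FinS M ι => NS s B.1) := by
    refine (finP_fins (hfin.fin (by (repeat' (first | with_reducible exact IntF.id | with_reducible exact IntF.fst' | with_reducible exact IntF.snd' | with_reducible exact IntF.const _ | with_reducible exact Int.const _ | assumption | with_reducible apply Int.and | with_reducible apply Int.or | with_reducible apply Int.not | with_reducible apply Int.imp | with_reducible apply Int.iff | with_reducible apply Int.ne | with_reducible apply Int.eq | with_reducible apply Int.mem | with_reducible apply Int.subset | with_reducible apply Int.ltN | with_reducible apply Int.leN | with_reducible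 apply Int.fin | with_reducible apply Int.unique | with_reducible apply Int.all | with_reducible apply Int.ex | with_reducible apply IntF.fst | with_reducible apply IntF.snd | with_reducible apply IntF.app | with_reducible apply IntF.ite | with_reducible apply IntF.sep | with_reducible apply IntF.lam | with_reducible apply IntF.insert | with_reducible apply IntF.singleton | with_reducible apply IntF.union | with_reducible apply IntF.inter | with_reducible apply IntF.sdiff | with_reducible apply IntF.isUnion | with_reducible apply IntF.iimage | with_reducible apply IntF.the | with_reducible apply IntF.irec | with_reducible_and_instances apply IntF.add | with_reducible_and_instances apply IntF.mul | with_reducible apply IntF.succ | with_reducible apply IntF.val | (with_reducible refine Int.comp ?_ ?_; assumption) | (with_reducible refine Int.comp₂ ?_ ?_ ?_; assumption) | (with_reducible refine Int.comp₃ ?_ ?_ ?_ ?_; assumption) | (with_reducible refine Int.comp₄ ?_ ?_ ?_ ?_ ?_; assumption) | (with_reducible refine IntF.comp ?_ ?_; assumption) | (with_reducible refine IntF.comp₂ ?_ ?_ ?_; assumption) | (with_reducible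 refine IntF.comp₃ ?_ ?_ ?_ ?_; assumption) | with_reducible apply IntF.inl | with_reducible apply IntF.inr | with_reducible apply IntF.pair))))).mono fun B hB i hi => (mem_sep (by (repeat' (first | with_reducible exact IntF.id | with_reducible exact IntF.fst' | with_reducible exact IntF.snd' | with_reducible exact IntF.const _ | with_reducible exact Int.const _ | assumption | with_reducible apply Int.and | with_reducible apply Int.or | with_reducible apply Int.not | with_reducible apply Int.imp | with_reducible apply Int.iff | with_reducible apply Int.ne | with_reducible apply Int.eq | with_reducible apply Int.mem | with_reducible apply Int.subset | with_reducible apply Int.ltN | with_reducible apply Int.leN | with_reducible apply Int.fin | with_reducible apply Int.unique | with_reducible apply Int.all | with_reducible apply Int.ex | with_reducible apply IntF.fst | with_reducible apply IntF.snd | with_reducible apply IntF.app | with_reducible apply IntF.ite | with_reducible apply IntF.sep | with_reducible apply IntF.lam | with_reducible apply IntF.insert | with_reducible apply IntF.singleton | with_reducible apply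 IntF.union | with_reducible apply IntF.inter | with_reducible apply IntF.sdiff | with_reducible apply IntF.isUnion | with_reducible apply IntF.iimage | with_reducible apply IntF.the | with_reducible apply IntF.irec | with_reducible_and_instances apply IntF.add | with_reducible_and_instances apply IntF.mul | with_reducible apply IntF.succ | with_reducible apply IntF.val | (with_reducible refine Int.comp ?_ ?_; assumption) | (with_reducible refine Int.comp₂ ?_ ?_ ?_; assumption) | (with_reducible refine Int.comp₃ ?_ ?_ ?_ ?_; assumption) | (with_reducible refine Int.comp₄ ?_ ?_ ?_ ?_ ?_; assumption) | (with_reducible refine IntF.comp ?_ ?_; assumption) | (with_reducible refine IntF.comp₂ ?_ ?_ ?_; assumption) | (with_reducible refine IntF.comp₃ ?_ ?_ ?_ ?_; assumption) | with_reducible apply IntF.inl | with_reducible apply IntF.inr | with_reducible apply IntF.pair)))).2 (hB.1 i hi)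
  have hgi : ∀ B B' : FinS M ι, NS s B.1 → NS s B'.1 →
      lst (fun F F' : FinS M ι => colex lt F.1 F'.1) (CdP lt s f B) B =
        lst (fun F F' : FinS M ι => colex lt F.1 F'.1) (CdP lt s f B') B' → B = B' := by
    intro B B' hB hB' h
    have h1 := (hspec B hB).2.2
    have h2 := (hspec B' hB').2.2
    rw [h] at h1
    have h3 : f (PB s B.1) = f (PB s B'.1) := by
      rcases h1 with h1 | h1 <;> rcases h2 with h2 | h2
      · exact CdA_inj hW hs hd hdd h1 h2
      · exact (CdAB hW hs hd hdd h1 h2).elim
      · exact (CdAB hW hs hd hdd h2 h1).elim
      · exact CdB_inj hW hs hd hdd h1 h2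
    have h4 := hinj _ _ h3
    refine Subtype.ext (IPow.ext' fun i => ⟨PB_inj hs B.2 B'.2 hB.1 hB.2 h4 i,
      PB_inj hs B'.2 B.2 hB'.1 hB'.2 h4.symm i⟩)
  obtain ⟨B, hB, hB'⟩ := fin_surj hpf hg (fun B hB => (hspec B hB).1) hgi
    (by (repeat' (first | with_reducible exact IntF.id | with_reducible exact IntF.fst' | with_reducible exact IntF.snd' | with_reducible exact IntF.const _ | with_reducible exact Int.const _ | assumption | with_reducible apply Int.and | with_reducible apply Int.or | with_reducible apply Int.not | with_reducible apply Int.imp | with_reducible apply Int.iff | with_reducible apply Int.ne | with_reducible apply Int.eq | with_reducible apply Int.mem | with_reducible apply Int.subset | with_reducible apply Int.ltN | with_reducible apply Int.leN | with_reducible apply Int.fin | with_reducible apply Int.unique | with_reducible apply Int.all | with_reducible apply Int.ex | with_reducible apply IntF.fst | with_reducible apply IntF.snd | with_reducible apply IntF.app | with_reducible apply IntF.ite | with_reducible apply IntF.sep | with_reducible apply IntF.lam | with_reducible apply IntF.insert |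 with_reducible apply IntF.singleton | with_reducible apply IntF.union | with_reducible apply IntF.inter | with_reducible apply IntF.sdiff | with_reducible apply IntF.isUnion | with_reducible apply IntF.iimage | with_reducible apply IntF.the | with_reducible apply IntF.irec | with_reducible_and_instances apply IntF.add | with_reducible_and_instances apply IntF.mul | with_reducible apply IntF.succ | with_reducible apply IntF.val | (with_reducible refine Int.comp ?_ ?_; assumption) | (with_reducible refine Int.comp₂ ?_ ?_ ?_; assumption) | (with_reducible refine Int.comp₃ ?_ ?_ ?_ ?_; assumption) | (with_reducible refine Int.comp₄ ?_ ?_ ?_ ?_ ?_; assumption) | (with_reducible refine IntF.comp ?_ ?_; assumption) | (with_reducible refine IntF.comp₂ ?_ ?_ ?_; assumption) | (with_reducible refine IntF.comp₃ ?_ ?_ ?_ ?_; assumption) | with_reducible apply IntF.inl | with_reducible apply IntF.inr | with_reducible apply IntF.pair))) (a := (⟨∅, IFin.empty⟩ : FinS M ι))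
    ⟨fun i hi => absurd hi (by simp), fun i hi => absurd hi (by simp)⟩
  obtain ⟨w, hw⟩ := (hspec B hB).2.1
  rw [hB'] at hw
  exact absurd hw (by simp)

end Pool.Agent.R596
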