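import Pool.Agent.R596.Hart

/-!
# The index type: finite sets of pairs
-/

set_option maxHeartbeats 400000
set_option linter.all false

namespace Pool.Agent.R596

open FirstOrder FirstOrder.Language
open Pool.Agent.Helper672.ZFA
open Pool.Agent.H310
open Pool.Agent.W924

universe u u₁ u₂ u₃ u₄

variable {M : Type u} [L.Structure M] [hM : IsModel M]
variable {Λ : Type u₁} [ITy M Λ] {lt : Λ → Λ → Prop}

variable (M Λ) in
/-- The index type. -/
abbrev Ix : Type _ := FinS M (Λ × INat M)

/-- The order of the pairs. -/
def plt (lt : Λ → Λ → Prop) : Λ × INat M → Λ × INat M → Prop := prodLT lt (fun a b => a < b)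

/-- The order of the index type. -/
def olt (lt : Λ → Λ → Prop) (F G : Ix M Λ) : Prop := colex (plt lt) F.1 G.1

theorem plt_iwo (hW : IWo M lt) : IWo M (plt (M := M) lt) := hW.prod IWo.nat

theorem olt_iwo (hW : IWo M lt) : IWo M (olt (M := M) lt) := (plt_iwo hW).fins

theorem Ix.ext {F G : Ix M Λ} (h : ∀ q, q ∈ F.1 ↔ q ∈ G.1) : F = G :=
  Subtype.ext (IPow.ext' h)

theorem finP_ix {S : IPow M (Λ × INat M)} (hS : IFin S) :
    FinP M (fun G : Ix M Λ => G.1 ⊆ S) := by
  refine FinP.of_inj (f := fun G : Ix M Λ => G.1) (by (repeat' (first | with_reducible exact IntF.id | with_reducible exact IntF.fst' | with_reducible exact IntF.snd' | with_reducible exact IntF.const _ | with_reducible exact Int.const _ | assumption | with_reducible apply Int.and | with_reducible apply Int.or | with_reducible apply Int.not | with_reducible apply Int.imp | with_reducible apply Int.iff | with_reducible apply Int.ne | with_reducible apply Int.eq | with_reducible apply Int.mem | with_reducible apply Int.subset | with_reducible apply Int.ltN | with_reducible apply Int.leN | with_reducible apply Int.fin | with_reducible apply Int.unique | with_reducible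 apply Int.all | with_reducible apply Int.ex | with_reducible apply IntF.fst | with_reducible apply IntF.snd | with_reducible apply IntF.app | with_reducible apply IntF.ite | with_reducible apply IntF.sep | with_reducible apply IntF.lam | with_reducible apply IntF.insert | with_reducible apply IntF.singleton | with_reducible apply IntF.union | with_reducible apply IntF.inter | with_reducible apply IntF.sdiff | with_reducible apply IntF.isUnion | with_reducible apply IntF.iimage | with_reducible apply IntF.the | with_reducible apply IntF.irec | with_reducible_and_instances apply IntF.add | with_reducible_and_instances apply IntF.mul | with_reducible apply IntF.succ | with_reducible apply IntF.val | (with_reducible refine Int.comp ?_ ?_; assumption) | (with_reducible refine Int.comp₂ ?_ ?_ ?_; assumption) | (with_reducible refine Int.comp₃ ?_ ?_ ?_ ?_; assumption) | (with_reducible refine Int.comp₄ ?_ ?_ ?_ ?_ ?_; assumption) | (with_reducible refine IntF.comp ?_ ?_; assumption) | (with_reducible refine IntF.comp₂ ?_ ?_ ?_; assumption) | (with_reducible refine IntF.comp₃ ?_ ?_ ?_ ?_; assumption) | with_reducible apply IntF.inl |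 with_reducible apply IntF.inr | with_reducible apply IntF.pair))) (by (repeat' (first | with_reducible exact IntF.id | with_reducible exact IntF.fst' | with_reducible exact IntF.snd' | with_reducible exact IntF.const _ | with_reducible exact Int.const _ | assumption | with_reducible apply Int.and | with_reducible apply Int.or | with_reducible apply Int.not | with_reducible apply Int.imp | with_reducible apply Int.iff | with_reducible apply Int.ne | with_reducible apply Int.eq | with_reducible apply Int.mem | with_reducible apply Int.subset | with_reducible apply Int.ltN | with_reducible apply Int.leN | with_reducible apply Int.fin | with_reducible apply Int.unique | with_reducible apply Int.all | with_reducible apply Int.ex | with_reducible apply IntF.fst | with_reducible apply IntF.snd | with_reducible apply IntF.app | with_reducible apply IntF.ite | with_reducible apply IntF.sep | with_reducible apply IntF.lam | with_reducible apply IntF.insert | with_reducible apply IntF.singleton | with_reducible apply IntF.union | with_reducible apply IntF.inter | with_reducible apply IntF.sdiff | with_reducible apply IntF.isUnion | with_reducible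 apply IntF.iimage | with_reducible apply IntF.the | with_reducible apply IntF.irec | with_reducible_and_instances apply IntF.add | with_reducible_and_instances apply IntF.mul | with_reducible apply IntF.succ | with_reducible apply IntF.val | (with_reducible refine Int.comp ?_ ?_; assumption) | (with_reducible refine Int.comp₂ ?_ ?_ ?_; assumption) | (with_reducible refine Int.comp₃ ?_ ?_ ?_ ?_; assumption) | (with_reducible refine Int.comp₄ ?_ ?_ ?_ ?_ ?_; assumption) | (with_reducible refine IntF.comp ?_ ?_; assumption) | (with_reducible refine IntF.comp₂ ?_ ?_ ?_; assumption) | (with_reducible refine IntF.comp₃ ?_ ?_ ?_ ?_; assumption) | with_reducible apply IntF.inl | with_reducible apply IntF.inr | with_reducible apply IntF.pair)))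
    (fun a b _ _ h => Subtype.ext h) (q := fun s => s ∈ ipow S) ⟨_, hS.pow, fun s hs => hs⟩
    fun G hG => mem_ipow.2 hG

/-- Only finitely many indices are below an index in the first column. -/
theorem finP_below (hW : IWo M lt) {l₀ : Λ} (h0 : ∀ l, ¬ lt l l₀) {F : Ix M Λ}
    (hF : ∀ q, q ∈ F.1 → q.1 = l₀) : FinP M (fun G : Ix M Λ => olt lt G F) := by
  have hl := hW.int
  obtain ⟨n, hn⟩ := (show FinP M (fun q => q ∈ F.1) from ⟨F.1, F.2, fun _ h => h⟩).bound'
    (v := fun q : Λ × INat M => q.2) (by (repeat' (first | with_reducible exact IntF.id | with_reducible exact IntF.fst' | with_reducible exact IntF.snd' | with_reducible exact IntF.const _ | with_reducible exact Int.const _ | assumption | with_reducible apply Int.and | with_reducible apply Int.or | with_reducible apply Int.not | with_reducible apply Int.imp | with_reducible apply Int.iff | with_reducible apply Int.ne | with_reducible apply Int.eq | with_reducible apply Int.mem | with_reducible apply Int.subset | with_reducible apply Int.ltN | with_reducible apply Int.leN | with_reducible apply Int.fin | with_reducible apply Int.unique | with_reducible apply Int.all |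 with_reducible apply Int.ex | with_reducible apply IntF.fst | with_reducible apply IntF.snd | with_reducible apply IntF.app | with_reducible apply IntF.ite | with_reducible apply IntF.sep | with_reducible apply IntF.lam | with_reducible apply IntF.insert | with_reducible apply IntF.singleton | with_reducible apply IntF.union | with_reducible apply IntF.inter | with_reducible apply IntF.sdiff | with_reducible apply IntF.isUnion | with_reducible apply IntF.iimage | with_reducible apply IntF.the | with_reducible apply IntF.irec | with_reducible_and_instances apply IntF.add | with_reducible_and_instances apply IntF.mul | with_reducible apply IntF.succ | with_reducible apply IntF.val | (with_reducible refine Int.comp ?_ ?_; assumption) | (with_reducible refine Int.comp₂ ?_ ?_ ?_; assumption) | (with_reducible refine Int.comp₃ ?_ ?_ ?_ ?_; assumption) | (with_reducible refine Int.comp₄ ?_ ?_ ?_ ?_ ?_; assumption) | (with_reducible refine IntF.comp ?_ ?_; assumption) | (with_reducible refine IntF.comp₂ ?_ ?_ ?_; assumption) | (with_reducible refine IntF.comp₃ ?_ ?_ ?_ ?_; assumption) | with_reducible apply IntF.inl | with_reducible apply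 IntF.inr | with_reducible apply IntF.pair)))
  refine (finP_ix (S := iprod {l₀} (sep M fun k => k ≤ n))
    ((IFin.singleton l₀).prod ((finP_le n).fin (by (repeat' (first | with_reducible exact IntF.id | with_reducible exact IntF.fst' | with_reducible exact IntF.snd' | with_reducible exact IntF.const _ | with_reducible exact Int.const _ | assumption | with_reducible apply Int.and | with_reducible apply Int.or | with_reducible apply Int.not | with_reducible apply Int.imp | with_reducible apply Int.iff | with_reducible apply Int.ne | with_reducible apply Int.eq | with_reducible apply Int.mem | with_reducible apply Int.subset | with_reducible apply Int.ltN | with_reducible apply Int.leN | with_reducible apply Int.fin | with_reducible apply Int.unique | with_reducible apply Int.all | with_reducible apply Int.ex | with_reducible apply IntF.fst | with_reducible apply IntF.snd | with_reducible apply IntF.app | with_reducible apply IntF.ite | with_reducible apply IntF.sep | with_reducible apply IntF.lam | with_reducible apply IntF.insert | with_reducible apply IntF.singleton | with_reducible apply IntF.union | with_reducible apply IntF.inter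 | with_reducible apply IntF.sdiff | with_reducible apply IntF.isUnion | with_reducible apply IntF.iimage | with_reducible apply IntF.the | with_reducible apply IntF.irec | with_reducible_and_instances apply IntF.add | with_reducible_and_instances apply IntF.mul | with_reducible apply IntF.succ | with_reducible apply IntF.val | (with_reducible refine Int.comp ?_ ?_; assumption) | (with_reducible refine Int.comp₂ ?_ ?_ ?_; assumption) | (with_reducible refine Int.comp₃ ?_ ?_ ?_ ?_; assumption) | (with_reducible refine Int.comp₄ ?_ ?_ ?_ ?_ ?_; assumption) | (with_reducible refine IntF.comp ?_ ?_; assumption) | (with_reducible refine IntF.comp₂ ?_ ?_ ?_; assumption) | (with_reducible refine IntF.comp₃ ?_ ?_ ?_ ?_; assumption) | with_reducible apply IntF.inl | with_reducible apply IntF.inr | with_reducible apply IntF.pair)))))).mono fun G hG => ?_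
  obtain ⟨a, ha, ha', hag⟩ := hG
  intro b hb
  rw [mem_iprod, mem_singleton, mem_sep (by (repeat' (first | with_reducible exact IntF.id | with_reducible exact IntF.fst' | with_reducible exact IntF.snd' | with_reducible exact IntF.const _ | with_reducible exact Int.const _ | assumption | with_reducible apply Int.and | with_reducible apply Int.or | with_reducible apply Int.not | with_reducible apply Int.imp | with_reducible apply Int.iff | with_reducible apply Int.ne | with_reducible apply Int.eq | with_reducible apply Int.mem | with_reducible apply Int.subset | with_reducible apply Int.ltN | with_reducible apply Int.leN | with_reducible apply Int.fin | with_reducible apply Int.unique | with_reducible apply Int.all | with_reducible apply Int.ex | with_reducible apply IntF.fst | with_reducible apply IntF.snd | with_reducible apply IntF.app | with_reducible apply IntF.ite | with_reducible apply IntF.sep | with_reducible apply IntF.lam | with_reducible apply IntF.insert | with_reducible apply IntF.singleton | with_reducible apply IntF.union | with_reducible apply IntF.inter | with_reducible apply IntF.sdiff | with_reducible apply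 IntF.isUnion | with_reducible apply IntF.iimage | with_reducible apply IntF.the | with_reducible apply IntF.irec | with_reducible_and_instances apply IntF.add | with_reducible_and_instances apply IntF.mul | with_reducible apply IntF.succ | with_reducible apply IntF.val | (with_reducible refine Int.comp ?_ ?_; assumption) | (with_reducible refine Int.comp₂ ?_ ?_ ?_; assumption) | (with_reducible refine Int.comp₃ ?_ ?_ ?_ ?_; assumption) | (with_reducible refine Int.comp₄ ?_ ?_ ?_ ?_ ?_; assumption) | (with_reducible refine IntF.comp ?_ ?_; assumption) | (with_reducible refine IntF.comp₂ ?_ ?_ ?_; assumption) | (with_reducible refine IntF.comp₃ ?_ ?_ ?_ ?_; assumption) | with_reducible apply IntF.inl | with_reducible apply IntF.inr | with_reducible apply IntF.pair)))]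
  have hla := hF a ha
  by_cases hab : plt lt a b
  · have := (hag b hab).1 hb
    exact ⟨hF b this, hn b this⟩
  · rcases (plt_iwo hW).tri a b with h | rfl | h
    · exact absurd h hab
    · exact absurd hb ha'
    · rcases h with h | ⟨h, h'⟩
      · rw [hla] at h
        exact absurd h (h0 _)
      · exact ⟨h.trans hla, h'.le.trans (hn a ha)⟩

/-- The greatest first component. -/
def Top (lt : Λ → Λ → Prop) (F : Ix M Λ) (l : Λ) : Prop :=
  (∃ n, (l, n) ∈ F.1) ∧ ∀ q, q ∈ F.1 → ¬ lt l q.1

theorem int_Top (hl : Int M (fun q : Λ × Λ => lt q.1 q.2)) :
    Int M (fun q : Ix M Λ × Λ => Top lt q.1 q.2) := by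
  unfold Top
  (repeat' (first | with_reducible exact IntF.id | with_reducible exact IntF.fst' | with_reducible exact IntF.snd' | with_reducible exact IntF.const _ | with_reducible exact Int.const _ | assumption | with_reducible apply Int.and | with_reducible apply Int.or | with_reducible apply Int.not | with_reducible apply Int.imp | with_reducible apply Int.iff | with_reducible apply Int.ne | with_reducible apply Int.eq | with_reducible apply Int.mem | with_reducible apply Int.subset | with_reducible apply Int.ltN | with_reducible apply Int.leN | with_reducible apply Int.fin | with_reducible apply Int.unique | with_reducible apply Int.all | with_reducible apply Int.ex | with_reducible apply IntF.fst | with_reducible apply IntF.snd | with_reducible apply IntF.app | with_reducible apply IntF.ite | with_reducible apply IntF.sep | with_reducible apply IntF.lam | with_reducible apply IntF.insert | with_reducible apply IntF.singleton | with_reducible apply IntF.union | with_reducible apply IntF.inter | with_reducible apply IntF.sdiff | with_reducible apply IntF.isUnion | with_reducible apply IntF.iimage | with_reducible apply IntF.the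 | with_reducible apply IntF.irec | with_reducible_and_instances apply IntF.add | with_reducible_and_instances apply IntF.mul | with_reducible apply IntF.succ | with_reducible apply IntF.val | (with_reducible refine Int.comp ?_ ?_; assumption) | (with_reducible refine Int.comp₂ ?_ ?_ ?_; assumption) | (with_reducible refine Int.comp₃ ?_ ?_ ?_ ?_; assumption) | (with_reducible refine Int.comp₄ ?_ ?_ ?_ ?_ ?_; assumption) | (with_reducible refine IntF.comp ?_ ?_; assumption) | (with_reducible refine IntF.comp₂ ?_ ?_ ?_; assumption) | (with_reducible refine IntF.comp₃ ?_ ?_ ?_ ?_; assumption) | with_reducible apply IntF.inl | with_reducible apply IntF.inr | with_reducible apply IntF.pair))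

theorem exists_Top (hW : IWo M lt) {F : Ix M Λ} (hne : ∃ q, q ∈ F.1) : ∃ l, Top lt F l := by
  have hl := hW.int
  obtain ⟨q, h1, h2⟩ := IFin.exists_min (lt := fun a b : Λ × INat M => lt b.1 a.1) (by (repeat' (first | with_reducible exact IntF.id | with_reducible exact IntF.fst' | with_reducible exact IntF.snd' | with_reducible exact IntF.const _ | with_reducible exact Int.const _ | assumption | with_reducible apply Int.and | with_reducible apply Int.or | with_reducible apply Int.not | with_reducible apply Int.imp | with_reducible apply Int.iff | with_reducible apply Int.ne | with_reducible apply Int.eq | with_reducible apply Int.mem | with_reducible apply Int.subset | with_reducible apply Int.ltN | with_reducible apply Int.leN | with_reducible apply Int.fin | with_reducible apply Int.unique | with_reducible apply Int.all | with_reducible apply Int.ex | with_reducible apply IntF.fst | with_reducible apply IntF.snd | with_reducible apply IntF.app | with_reducible apply IntF.ite | with_reducible apply IntF.sep | with_reducible apply IntF.lam | with_reducible apply IntF.insert | with_reducible apply IntF.singleton | with_reducible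 apply IntF.union | with_reducible apply IntF.inter | with_reducible apply IntF.sdiff | with_reducible apply IntF.isUnion | with_reducible apply IntF.iimage | with_reducible apply IntF.the | with_reducible apply IntF.irec | with_reducible_and_instances apply IntF.add | with_reducible_and_instances apply IntF.mul | with_reducible apply IntF.succ | with_reducible apply IntF.val | (with_reducible refine Int.comp ?_ ?_; assumption) | (with_reducible refine Int.comp₂ ?_ ?_ ?_; assumption) | (with_reducible refine Int.comp₃ ?_ ?_ ?_ ?_; assumption) | (with_reducible refine Int.comp₄ ?_ ?_ ?_ ?_ ?_; assumption) | (with_reducible refine IntF.comp ?_ ?_; assumption) | (with_reducible refine IntF.comp₂ ?_ ?_ ?_; assumption) | (with_reducible refine IntF.comp₃ ?_ ?_ ?_ ?_; assumption) | with_reducible apply IntF.inl | with_reducible apply IntF.inr | with_reducible apply IntF.pair)))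
    (fun a => hW.irr a.1) (fun a b c h h' => hW.tr _ _ _ h' h) F.2 hne
  exact ⟨q.1, ⟨q.2, h1⟩, fun q' hq' => h2 q' hq'⟩

theorem Top.unique (hW : IWo M lt) {F : Ix M Λ} {l l' : Λ} (h : Top lt F l) (h' : Top lt F l') :
    l = l' := by
  obtain ⟨⟨n, hn⟩, h1⟩ := h
  obtain ⟨⟨n', hn'⟩, h1'⟩ := h'
  rcases hW.tri l l' with h | h | h
  · exact absurd h (h1 _ hn')
  · exact h
  · exact absurd h (h1' _ hn)

theorem Top.low (hW : IWo M lt) {F G : Ix M Λ} {l : Λ} (h : Top lt F l)
    (hG : ∀ q, q ∈ G.1 → lt q.1 l) : olt lt G F := by
  have hl := hW.int
  have hp := (plt_iwo (M := M) hW).int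
  obtain ⟨⟨n, hn⟩, h1⟩ := h
  obtain ⟨a, ha, hmax⟩ := IFin.exists_min (lt := fun a b : Λ × INat M => plt lt b a) (by (repeat' (first | with_reducible exact IntF.id | with_reducible exact IntF.fst' | with_reducible exact IntF.snd' | with_reducible exact IntF.const _ | with_reducible exact Int.const _ | assumption | with_reducible apply Int.and | with_reducible apply Int.or | with_reducible apply Int.not | with_reducible apply Int.imp | with_reducible apply Int.iff | with_reducible apply Int.ne | with_reducible apply Int.eq | with_reducible apply Int.mem | with_reducible apply Int.subset | with_reducible apply Int.ltN | with_reducible apply Int.leN | with_reducible apply Int.fin | with_reducible apply Int.unique | with_reducible apply Int.all | with_reducible apply Int.ex | with_reducible apply IntF.fst | with_reducible apply IntF.snd | with_reducible apply IntF.app | with_reducible apply IntF.ite | with_reducible apply IntF.sep | with_reducible apply IntF.lam | with_reducible apply IntF.insert | with_reducible apply IntF.singleton | with_reducible apply IntF.union | with_reducible apply IntF.inter | with_reducible apply IntF.sdiff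 | with_reducible apply IntF.isUnion | with_reducible apply IntF.iimage | with_reducible apply IntF.the | with_reducible apply IntF.irec | with_reducible_and_instances apply IntF.add | with_reducible_and_instances apply IntF.mul | with_reducible apply IntF.succ | with_reducible apply IntF.val | (with_reducible refine Int.comp ?_ ?_; assumption) | (with_reducible refine Int.comp₂ ?_ ?_ ?_; assumption) | (with_reducible refine Int.comp₃ ?_ ?_ ?_ ?_; assumption) | (with_reducible refine Int.comp₄ ?_ ?_ ?_ ?_ ?_; assumption) | (with_reducible refine IntF.comp ?_ ?_; assumption) | (with_reducible refine IntF.comp₂ ?_ ?_ ?_; assumption) | (with_reducible refine IntF.comp₃ ?_ ?_ ?_ ?_; assumption) | with_reducible apply IntF.inl | with_reducible apply IntF.inr | with_reducible apply IntF.pair)))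
    (fun a => (plt_iwo hW).irr a) (fun a b c h h' => (plt_iwo hW).tr _ _ _ h' h) F.2 ⟨_, hn⟩
  have hal : a.1 = l := by
    rcases hW.tri a.1 l with h | h | h
    · exact absurd (Or.inl h) (hmax _ hn)
    · exact h
    · exact absurd h (h1 _ ha)
  refine ⟨a, ha, fun h => ?_, fun b hb => ⟨fun h => ?_, fun h => absurd hb (hmax b h)⟩⟩
  · have := hG a h
    rw [hal] at this
    exact hW.irr _ this
  · have h2 := hG b h
    rcases hb with hb | ⟨hb, _⟩
    · rw [hal] at hb
      exact (hW.asymm hb h2).elim
    · rw [← hb, hal] at h2
      exact (hW.irr _ h2).elim

theorem Top.high (hW : IWo M lt) {F G : Ix M Λ} {l : Λ} (h : Top lt F l)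
    (hG : olt lt G F) : ∀ q, q ∈ G.1 → ¬ lt l q.1 := by
  intro q hq hlq
  obtain ⟨a, ha, ha', hag⟩ := hG
  have h1 : plt lt a q := by
    refine Or.inl ?_
    rcases hW.tri a.1 l with h2 | h2 | h2
    · exact hW.tr _ _ _ h2 hlq
    · rw [h2]
      exact hlq
    · exact absurd h2 (h.2 a ha)
  exact h.2 q ((hag q h1).1 hq) hlq

open Classical in
/-- The coding function. -/
noncomputable def Jx (l₀ l : Λ) (b : INat M) (q : Λ × INat M) : Λ × INat M :=
  if q.1 = l then (l₀, INat.succ (pr 0 (pr b q.2)))
  else if q.1 = l₀ then (l₀, INat.succ (pr (INat.succ 0) (pr b q.2)))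
  else (q.1, pr b q.2)

theorem int_Jx (l₀ : Λ) : IntF M (fun c : (Λ × INat M) × (Λ × INat M) =>
    Jx l₀ c.1.1 c.1.2 c.2) := by
  have hb := int_pr (M := M)
  unfold Jx
  (repeat' (first | with_reducible exact IntF.id | with_reducible exact IntF.fst' | with_reducible exact IntF.snd' | with_reducible exact IntF.const _ | with_reducible exact Int.const _ | assumption | with_reducible apply Int.and | with_reducible apply Int.or | with_reducible apply Int.not | with_reducible apply Int.imp | with_reducible apply Int.iff | with_reducible apply Int.ne | with_reducible apply Int.eq | with_reducible apply Int.mem | with_reducible apply Int.subset | with_reducible apply Int.ltN | with_reducible apply Int.leN | with_reducible apply Int.fin | with_reducible apply Int.unique | with_reducible apply Int.all | with_reducible apply Int.ex | with_reducible apply IntF.fst | with_reducible apply IntF.snd | with_reducible apply IntF.app | with_reducible apply IntF.ite | with_reducible apply IntF.sep | with_reducible apply IntF.lam | with_reducible apply IntF.insert | with_reducible apply IntF.singleton | with_reducible apply IntF.union | with_reducible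 apply IntF.inter | with_reducible apply IntF.sdiff | with_reducible apply IntF.isUnion | with_reducible apply IntF.iimage | with_reducible apply IntF.the | with_reducible apply IntF.irec | with_reducible_and_instances apply IntF.add | with_reducible_and_instances apply IntF.mul | with_reducible apply IntF.succ | with_reducible apply IntF.val | (with_reducible refine Int.comp ?_ ?_; assumption) | (with_reducible refine Int.comp₂ ?_ ?_ ?_; assumption) | (with_reducible refine Int.comp₃ ?_ ?_ ?_ ?_; assumption) | (with_reducible refine Int.comp₄ ?_ ?_ ?_ ?_ ?_; assumption) | (with_reducible refine IntF.comp ?_ ?_; assumption) | (with_reducible refine IntF.comp₂ ?_ ?_ ?_; assumption) | (with_reducible refine IntF.comp₃ ?_ ?_ ?_ ?_; assumption) | with_reducible apply IntF.inl | with_reducible apply IntF.inr | with_reducible apply IntF.pair))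

theorem Jx_lt (hW : IWo M lt) {l₀ l : Λ} (hl : lt l₀ l) (b : INat M) {q : Λ × INat M}
    (hq : ¬ lt l q.1) : lt (Jx l₀ l b q).1 l := by
  unfold Jx
  split_ifs with h1 h2
  · exact hl
  · exact hl
  · rcases hW.tri q.1 l with h | h | h
    · exact h
    · exact absurd h h1
    · exact absurd h hq

theorem Jx_ne {l₀ l : Λ} (b : INat M) (q : Λ × INat M) : Jx l₀ l b q ≠ (l₀, 0) := by
  unfold Jx
  split_ifs with h1 h2
  · intro h
    exact INat.succ_ne_zero _ (congrArg Prod.snd h)
  · intro h
    exact INat.succ_ne_zero _ (congrArg Prod.snd h)
  · intro h
    exact h2 (congrArg Prod.fst h)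

theorem Jx_inj {l₀ l : Λ} {b b' : INat M} {q q' : Λ × INat M}
    (h : Jx l₀ l b q = Jx l₀ l b' q') : b = b' ∧ q = q' := by
  unfold Jx at h
  split_ifs at h with h1 h2 h3 h4 h5 h6 h7
  · obtain ⟨-, h8⟩ := pr_inj (INat.succ_inj (congrArg Prod.snd h))
    obtain ⟨h9, h10⟩ := pr_inj h8
    exact ⟨h9, Prod.ext (h1.trans h2.symm) h10⟩
  · obtain ⟨h8, -⟩ := pr_inj (INat.succ_inj (congrArg Prod.snd h))
    exact absurd h8.symm (INat.succ_ne_zero _)
  · exact absurd (congrArg Prod.fst h).symm h3
  · obtain ⟨h8, -⟩ := pr_inj (INat.succ_inj (congrArg Prod.snd h))
    exact absurd h8 (INat.succ_ne_zero _)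
  · obtain ⟨-, h8⟩ := pr_inj (INat.succ_inj (congrArg Prod.snd h))
    obtain ⟨h9, h10⟩ := pr_inj h8
    exact ⟨h9, Prod.ext (h4.trans h6.symm) h10⟩
  · exact absurd (congrArg Prod.fst h).symm h6
  · exact absurd (congrArg Prod.fst h) h4
  · exact absurd (congrArg Prod.fst h) h4
  · have h8 : q.1 = q'.1 := (Prod.ext_iff.1 h).1
    obtain ⟨h9, h10⟩ := pr_inj (congrArg Prod.snd h)
    exact ⟨h9, Prod.ext h8 h10⟩

/-- Low indices. -/
def Lo (lt : Λ → Λ → Prop) (l₀ l : Λ) (G : Ix M Λ) : Prop :=
  (∀ q, q ∈ G.1 → lt q.1 l) ∧ ¬ (l₀, 0) ∈ G.1

theorem int_Lo (hl : Int M (fun q : Λ × Λ => lt q.1 q.2)) (l₀ : Λ) :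
    Int M (fun q : Λ × Ix M Λ => Lo lt l₀ q.1 q.2) := by
  unfold Lo
  (repeat' (first | with_reducible exact IntF.id | with_reducible exact IntF.fst' | with_reducible exact IntF.snd' | with_reducible exact IntF.const _ | with_reducible exact Int.const _ | assumption | with_reducible apply Int.and | with_reducible apply Int.or | with_reducible apply Int.not | with_reducible apply Int.imp | with_reducible apply Int.iff | with_reducible apply Int.ne | with_reducible apply Int.eq | with_reducible apply Int.mem | with_reducible apply Int.subset | with_reducible apply Int.ltN | with_reducible apply Int.leN | with_reducible apply Int.fin | with_reducible apply Int.unique | with_reducible apply Int.all | with_reducible apply Int.ex | with_reducible apply IntF.fst | with_reducible apply IntF.snd | with_reducible apply IntF.app | with_reducible apply IntF.ite | with_reducible apply IntF.sep | with_reducible apply IntF.lam | with_reducible apply IntF.insert | with_reducible apply IntF.singleton | with_reducible apply IntF.union | with_reducible apply IntF.inter | with_reducible apply IntF.sdiff | with_reducible apply IntF.isUnion | with_reducible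 apply IntF.iimage | with_reducible apply IntF.the | with_reducible apply IntF.irec | with_reducible_and_instances apply IntF.add | with_reducible_and_instances apply IntF.mul | with_reducible apply IntF.succ | with_reducible apply IntF.val | (with_reducible refine Int.comp ?_ ?_; assumption) | (with_reducible refine Int.comp₂ ?_ ?_ ?_; assumption) | (with_reducible refine Int.comp₃ ?_ ?_ ?_ ?_; assumption) | (with_reducible refine Int.comp₄ ?_ ?_ ?_ ?_ ?_; assumption) | (with_reducible refine IntF.comp ?_ ?_; assumption) | (with_reducible refine IntF.comp₂ ?_ ?_ ?_; assumption) | (with_reducible refine IntF.comp₃ ?_ ?_ ?_ ?_; assumption) | with_reducible apply IntF.inl | with_reducible apply IntF.inr | with_reducible apply IntF.pair))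

/-- Adding the first pair. -/
noncomputable def ins0 (l₀ : Λ) (G : Ix M Λ) : Ix M Λ := ⟨insert (l₀, 0) G.1, G.2.insert _⟩

theorem int_ins0 (l₀ : Λ) : IntF M (fun G : Ix M Λ => ins0 l₀ G) := by
  have h : IntF M (fun G : Ix M Λ => (ins0 l₀ G).1) := by
    unfold ins0
    (repeat' (first | with_reducible exact IntF.id | with_reducible exact IntF.fst' | with_reducible exact IntF.snd' | with_reducible exact IntF.const _ | with_reducible exact Int.const _ | assumption | with_reducible apply Int.and | with_reducible apply Int.or | with_reducible apply Int.not | with_reducible apply Int.imp | with_reducible apply Int.iff | with_reducible apply Int.ne | with_reducible apply Int.eq | with_reducible apply Int.mem | with_reducible apply Int.subset | with_reducible apply Int.ltN | with_reducible apply Int.leN | with_reducible apply Int.fin | with_reducible apply Int.unique | with_reducible apply Int.all | with_reducible apply Int.ex | with_reducible apply IntF.fst | with_reducible apply IntF.snd | with_reducible apply IntF.app | with_reducible apply IntF.ite | with_reducible apply IntF.sep | with_reducible apply IntF.lam | with_reducible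 apply IntF.insert | with_reducible apply IntF.singleton | with_reducible apply IntF.union | with_reducible apply IntF.inter | with_reducible apply IntF.sdiff | with_reducible apply IntF.isUnion | with_reducible apply IntF.iimage | with_reducible apply IntF.the | with_reducible apply IntF.irec | with_reducible_and_instances apply IntF.add | with_reducible_and_instances apply IntF.mul | with_reducible apply IntF.succ | with_reducible apply IntF.val | (with_reducible refine Int.comp ?_ ?_; assumption) | (with_reducible refine Int.comp₂ ?_ ?_ ?_; assumption) | (with_reducible refine Int.comp₃ ?_ ?_ ?_ ?_; assumption) | (with_reducible refine Int.comp₄ ?_ ?_ ?_ ?_ ?_; assumption) | (with_reducible refine IntF.comp ?_ ?_; assumption) | (with_reducible refine IntF.comp₂ ?_ ?_ ?_; assumption) | (with_reducible refine IntF.comp₃ ?_ ?_ ?_ ?_; assumption) | with_reducible apply IntF.inl | with_reducible apply IntF.inr | with_reducible apply IntF.pair))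
  exact IntF.mk h

theorem mem_ins0 {l₀ : Λ} {G : Ix M Λ} {q : Λ × INat M} :
    q ∈ (ins0 l₀ G).1 ↔ q = (l₀, 0) ∨ q ∈ G.1 := mem_insert

theorem Lo.inj {l₀ l l' : Λ} {G G' : Ix M Λ} (h : Lo lt l₀ l G) (h' : Lo lt l₀ l' G')
    (he : ins0 l₀ G = ins0 l₀ G') : G = G' := by
  refine Ix.ext fun q => ?_
  have h1 : q ∈ (ins0 l₀ G).1 ↔ q ∈ (ins0 l₀ G').1 := by rw [he]
  rw [mem_ins0, mem_ins0] at h1
  constructor
  · intro h2
    refine (h1.1 (Or.inr h2)).resolve_left fun h3 => ?_
    rw [h3] at h2
    exact h.2 h2
  · intro h2
    refine (h1.2 (Or.inr h2)).resolve_left fun h3 => ?_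
    rw [h3] at h2
    exact h'.2 h2

theorem Lo.ne {l₀ l' : Λ} {G G' : Ix M Λ} (h' : Lo lt l₀ l' G') : ins0 l₀ G ≠ G' := by
  rintro rfl
  exact h'.2 (mem_ins0.2 (Or.inl rfl))

theorem Lo.ins {l₀ l : Λ} (hl : lt l₀ l) {G : Ix M Λ} (h : Lo lt l₀ l G) :
    ∀ q, q ∈ (ins0 l₀ G).1 → lt q.1 l := by
  intro q hq
  rcases mem_ins0.1 hq with rfl | hq
  · exact hl
  · exact h.1 q hq

/-- Components. -/
def Cpt (lt : Λ → Λ → Prop) (l₀ l : Λ) (b : INat M) (G H : Ix M Λ) : Prop :=
  ∀ x, x ∈ H.1 ↔ (¬ lt l x.1 ∧ Jx l₀ l b x ∈ G.1)

theorem int_Cpt (hl : Int M (fun q : Λ × Λ => lt q.1 q.2)) (l₀ : Λ) :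
    Int M (fun q : ((Λ × INat M) × Ix M Λ) × Ix M Λ => Cpt lt l₀ q.1.1.1 q.1.1.2 q.1.2 q.2) := by
  have hJ := int_Jx (M := M) l₀
  unfold Cpt
  (repeat' (first | with_reducible exact IntF.id | with_reducible exact IntF.fst' | with_reducible exact IntF.snd' | with_reducible exact IntF.const _ | with_reducible exact Int.const _ | assumption | with_reducible apply Int.and | with_reducible apply Int.or | with_reducible apply Int.not | with_reducible apply Int.imp | with_reducible apply Int.iff | with_reducible apply Int.ne | with_reducible apply Int.eq | with_reducible apply Int.mem | with_reducible apply Int.subset | with_reducible apply Int.ltN | with_reducible apply Int.leN | with_reducible apply Int.fin | with_reducible apply Int.unique | with_reducible apply Int.all | with_reducible apply Int.ex | with_reducible apply IntF.fst | with_reducible apply IntF.snd | with_reducible apply IntF.app | with_reducible apply IntF.ite | with_reducible apply IntF.sep | with_reducible apply IntF.lam | with_reducible apply IntF.insert | with_reducible apply IntF.singleton | with_reducible apply IntF.union | with_reducible apply IntF.inter |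 with_reducible apply IntF.sdiff | with_reducible apply IntF.isUnion | with_reducible apply IntF.iimage | with_reducible apply IntF.the | with_reducible apply IntF.irec | with_reducible_and_instances apply IntF.add | with_reducible_and_instances apply IntF.mul | with_reducible apply IntF.succ | with_reducible apply IntF.val | (with_reducible refine Int.comp ?_ ?_; assumption) | (with_reducible refine Int.comp₂ ?_ ?_ ?_; assumption) | (with_reducible refine Int.comp₃ ?_ ?_ ?_ ?_; assumption) | (with_reducible refine Int.comp₄ ?_ ?_ ?_ ?_ ?_; assumption) | (with_reducible refine IntF.comp ?_ ?_; assumption) | (with_reducible refine IntF.comp₂ ?_ ?_ ?_; assumption) | (with_reducible refine IntF.comp₃ ?_ ?_ ?_ ?_; assumption) | with_reducible apply IntF.inl | with_reducible apply IntF.inr | with_reducible apply IntF.pair))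

theorem Cpt.unique {l₀ l : Λ} {b : INat M} {G H H' : Ix M Λ} (h : Cpt lt l₀ l b G H)
    (h' : Cpt lt l₀ l b G H') : H = H' := Ix.ext fun x => (h x).trans (h' x).symm

theorem exists_code (hW : IWo M lt) {l₀ l : Λ} (hl : lt l₀ l) {H₀ H₁ H₂ : Ix M Λ}
    (h₀ : ∀ q, q ∈ H₀.1 → ¬ lt l q.1) (h₁ : ∀ q, q ∈ H₁.1 → ¬ lt l q.1)
    (h₂ : ∀ q, q ∈ H₂.1 → ¬ lt l q.1) : ∃ G : Ix M Λ, Lo lt l₀ l G ∧
      Cpt lt l₀ l 0 G H₀ ∧ Cpt lt l₀ l (INat.succ 0) G H₁ ∧
        Cpt lt l₀ l (INat.succ (INat.succ 0)) G H₂ := by
  have hJ := int_Jx (M := M) l₀
  have hf : ∀ b : INat M, IntF M (fun x : Λ × INat M => Jx l₀ l b x) := fun b => by (repeat' (first | with_reducible exact IntF.id | with_reducible exact IntF.fst' | with_reducible exact IntF.snd' | with_reducible exact IntF.const _ | with_reducible exact Int.const _ | assumption | with_reducible apply Int.and | with_reducible apply Int.or | with_reducible apply Int.not | with_reducible apply Int.imp | with_reducible apply Int.iff | with_reducible apply Int.ne | with_reducible apply Int.eq | with_reducible apply Int.mem | with_reducible apply Int.subset | with_reducible apply Int.ltN | with_reducible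 apply Int.leN | with_reducible apply Int.fin | with_reducible apply Int.unique | with_reducible apply Int.all | with_reducible apply Int.ex | with_reducible apply IntF.fst | with_reducible apply IntF.snd | with_reducible apply IntF.app | with_reducible apply IntF.ite | with_reducible apply IntF.sep | with_reducible apply IntF.lam | with_reducible apply IntF.insert | with_reducible apply IntF.singleton | with_reducible apply IntF.union | with_reducible apply IntF.inter | with_reducible apply IntF.sdiff | with_reducible apply IntF.isUnion | with_reducible apply IntF.iimage | with_reducible apply IntF.the | with_reducible apply IntF.irec | with_reducible_and_instances apply IntF.add | with_reducible_and_instances apply IntF.mul | with_reducible apply IntF.succ | with_reducible apply IntF.val | (with_reducible refine Int.comp ?_ ?_; assumption) | (with_reducible refine Int.comp₂ ?_ ?_ ?_; assumption) | (with_reducible refine Int.comp₃ ?_ ?_ ?_ ?_; assumption) | (with_reducible refine Int.comp₄ ?_ ?_ ?_ ?_ ?_; assumption) | (with_reducible refine IntF.comp ?_ ?_; assumption) | (with_reducible refine IntF.comp₂ ?_ ?_ ?_; assumption)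 | (with_reducible refine IntF.comp₃ ?_ ?_ ?_ ?_; assumption) | with_reducible apply IntF.inl | with_reducible apply IntF.inr | with_reducible apply IntF.pair))
  have hm : ∀ y, y ∈ iimage (Jx l₀ l 0) H₀.1 ∪ (iimage (Jx l₀ l (INat.succ 0)) H₁.1 ∪
      iimage (Jx l₀ l (INat.succ (INat.succ 0))) H₂.1) ↔ (∃ x, x ∈ H₀.1 ∧ Jx l₀ l 0 x = y) ∨
        (∃ x, x ∈ H₁.1 ∧ Jx l₀ l (INat.succ 0) x = y) ∨
          ∃ x, x ∈ H₂.1 ∧ Jx l₀ l (INat.succ (INat.succ 0)) x = y := by
    intro y
    rw [mem_union, mem_union, mem_iimage (hf _), mem_iimage (hf _), mem_iimage (hf _)]
  have n01 : (0 : INat M) ≠ INat.succ 0 := (INat.succ_ne_zero _).symm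
  have n02 : (0 : INat M) ≠ INat.succ (INat.succ 0) := (INat.succ_ne_zero _).symm
  have n12 : INat.succ (0 : INat M) ≠ INat.succ (INat.succ 0) := fun h => n01 (INat.succ_inj h)
  refine ⟨⟨iimage (Jx l₀ l 0) H₀.1 ∪ (iimage (Jx l₀ l (INat.succ 0)) H₁.1 ∪
      iimage (Jx l₀ l (INat.succ (INat.succ 0))) H₂.1), ((H₀.2.image (hf 0)).union
        ((H₁.2.image (hf (INat.succ 0))).union (H₂.2.image (hf (INat.succ (INat.succ 0))))))⟩,
    ⟨fun q hq => ?_, fun hq => ?_⟩, fun x => ?_, fun x => ?_, fun x => ?_⟩
  · rcases (hm q).1 hq with ⟨x, hx, rfl⟩ | ⟨x, hx, rfl⟩ | ⟨x, hx, rfl⟩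
    · exact Jx_lt hW hl _ (h₀ x hx)
    · exact Jx_lt hW hl _ (h₁ x hx)
    · exact Jx_lt hW hl _ (h₂ x hx)
  · rcases (hm _).1 hq with ⟨x, hx, h⟩ | ⟨x, hx, h⟩ | ⟨x, hx, h⟩ <;> exact Jx_ne _ _ h
  · refine ⟨fun hx => ⟨h₀ x hx, (hm _).2 (Or.inl ⟨x, hx, rfl⟩)⟩, fun ⟨_, hx⟩ => ?_⟩
    rcases (hm _).1 hx with ⟨y, hy, h⟩ | ⟨y, hy, h⟩ | ⟨y, hy, h⟩
    · rwa [← (Jx_inj h).2]
    · exact absurd (Jx_inj h).1.symm n01
    · exact absurd (Jx_inj h).1.symm n02
  · refine ⟨fun hx => ⟨h₁ x hx, (hm _).2 (Or.inr (Or.inl ⟨x, hx, rfl⟩))⟩, fun ⟨_, hx⟩ => ?_⟩
    rcases (hm _).1 hx with ⟨y, hy, h⟩ | ⟨y, hy, h⟩ | ⟨y, hy, h⟩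
    · exact absurd (Jx_inj h).1 n01
    · rwa [← (Jx_inj h).2]
    · exact absurd (Jx_inj h).1.symm n12
  · refine ⟨fun hx => ⟨h₂ x hx, (hm _).2 (Or.inr (Or.inr ⟨x, hx, rfl⟩))⟩, fun ⟨_, hx⟩ => ?_⟩
    rcases (hm _).1 hx with ⟨y, hy, h⟩ | ⟨y, hy, h⟩ | ⟨y, hy, h⟩
    · exact absurd (Jx_inj h).1 n02
    · exact absurd (Jx_inj h).1 n12
    · rwa [← (Jx_inj h).2]

end Pool.Agent.R596
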