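import Pool.Agent.R596.Step
import Pool.Agent.R596.Idx

/-!
# The diagonal argument at the infinite stages
-/

set_option maxHeartbeats 400000
set_option linter.all false

namespace Pool.Agent.R596

open FirstOrder FirstOrder.Language
open Pool.Agent.Helper672.ZFA
open Pool.Agent.H310
open Pool.Agent.W924

universe u u₁ u₂ u₃ u₄

variable {M : Type u} [L.Structure M] [hM : IsModel M]
variable {α : Type u₁} [ITy M α] {Λ : Type u₂} [ITy M Λ] {lt : Λ → Λ → Prop} {l₀ : Λ}

/-- The indices of the blocks. -/
def LL (lt : Λ → Λ → Prop) (l₀ : Λ) (s : IPow M (Ix M Λ × (α ⊕ IPm M α))) (G : Ix M Λ) : Prop :=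
  ∃ j l, Fst (olt lt) s j ∧ Top lt j l ∧ Lo lt l₀ l G

/-- `G` codes `σ`. -/
def Dec (lt : Λ → Λ → Prop) (l₀ : Λ) (s : IPow M (Ix M Λ × (α ⊕ IPm M α))) (G : Ix M Λ)
    (σ : IPm M α) : Prop :=
  ∃ j l, Fst (olt lt) s j ∧ Top lt j l ∧ Lo lt l₀ l G ∧ ∃ H₀ H₁ H₂, Cpt lt l₀ l 0 G H₀ ∧
    Cpt lt l₀ l (INat.succ 0) G H₁ ∧ Cpt lt l₀ l (INat.succ (INat.succ 0)) G H₂ ∧
    ((∃ x y z, elt s H₀ x ∧ elt s H₁ y ∧ elt s H₂ z ∧ C3 σ x y z) ∨
      ∃ ρ : IPm M α, cyc' s H₀ ρ ∧ ((H₁ = H₀ ∧ σ = ρ) ∨ (H₁ ≠ H₀ ∧ ∀ x, σ.1 (ρ.1 x) = x)))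

theorem int_LL (hW : IWo M lt) :
    Int M (fun q : IPow M (Ix M Λ × (α ⊕ IPm M α)) × Ix M Λ => LL lt l₀ q.1 q.2) := by
  have h1 := int_Fst (M := M) (α := α) (olt_iwo (M := M) hW).int
  have h2 := int_Top (M := M) hW.int
  have h3 := int_Lo (M := M) hW.int l₀
  unfold LL
  (repeat' (first | with_reducible exact IntF.id | with_reducible exact IntF.fst' | with_reducible exact IntF.snd' | with_reducible exact IntF.const _ | with_reducible exact Int.const _ | assumption | with_reducible apply Int.and | with_reducible apply Int.or | with_reducible apply Int.not | with_reducible apply Int.imp | with_reducible apply Int.iff | with_reducible apply Int.ne | with_reducible apply Int.eq | with_reducible apply Int.mem | with_reducible apply Int.subset | with_reducible apply Int.ltN | with_reducible apply Int.leN | with_reducible apply Int.fin | with_reducible apply Int.unique | with_reducible apply Int.all | with_reducible apply Int.ex | with_reducible apply IntF.fst | with_reducible apply IntF.snd | with_reducible apply IntF.app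 | with_reducible apply IntF.ite | with_reducible apply IntF.sep | with_reducible apply IntF.lam | with_reducible apply IntF.insert | with_reducible apply IntF.singleton | with_reducible apply IntF.union | with_reducible apply IntF.inter | with_reducible apply IntF.sdiff | with_reducible apply IntF.isUnion | with_reducible apply IntF.iimage | with_reducible apply IntF.the | with_reducible apply IntF.irec | with_reducible_and_instances apply IntF.add | with_reducible_and_instances apply IntF.mul | with_reducible apply IntF.succ | with_reducible apply IntF.val | (with_reducible refine Int.comp ?_ ?_; assumption) | (with_reducible refine Int.comp₂ ?_ ?_ ?_; assumption) | (with_reducible refine Int.comp₃ ?_ ?_ ?_ ?_; assumption) | (with_reducible refine Int.comp₄ ?_ ?_ ?_ ?_ ?_; assumption) | (with_reducible refine IntF.comp ?_ ?_; assumption) | (with_reducible refine IntF.comp₂ ?_ ?_ ?_; assumption) | (with_reducible refine IntF.comp₃ ?_ ?_ ?_ ?_; assumption) | with_reducible apply IntF.inl | with_reducible apply IntF.inr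 | with_reducible apply IntF.pair))

theorem int_Dec (hW : IWo M lt) :
    Int M (fun q : (IPow M (Ix M Λ × (α ⊕ IPm M α)) × Ix M Λ) × IPm M α =>
      Dec lt l₀ q.1.1 q.1.2 q.2) := by
  have h1 := int_Fst (M := M) (α := α) (olt_iwo (M := M) hW).int
  have h2 := int_Top (M := M) hW.int
  have h3 := int_Lo (M := M) hW.int l₀
  have h4 := int_Cpt (M := M) hW.int l₀
  have h5 := int_elt (M := M) (α := α) (ι := Ix M Λ)
  have h6 := int_cyc' (M := M) (α := α) (ι := Ix M Λ)
  have h7 := int_C3 (M := M) (α := α)
  unfold Dec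
  (repeat' (first | with_reducible exact IntF.id | with_reducible exact IntF.fst' | with_reducible exact IntF.snd' | with_reducible exact IntF.const _ | with_reducible exact Int.const _ | assumption | with_reducible apply Int.and | with_reducible apply Int.or | with_reducible apply Int.not | with_reducible apply Int.imp | with_reducible apply Int.iff | with_reducible apply Int.ne | with_reducible apply Int.eq | with_reducible apply Int.mem | with_reducible apply Int.subset | with_reducible apply Int.ltN | with_reducible apply Int.leN | with_reducible apply Int.fin | with_reducible apply Int.unique | with_reducible apply Int.all | with_reducible apply Int.ex | with_reducible apply IntF.fst | with_reducible apply IntF.snd | with_reducible apply IntF.app | with_reducible apply IntF.ite | with_reducible apply IntF.sep | with_reducible apply IntF.lam | with_reducible apply IntF.insert | with_reducible apply IntF.singleton | with_reducible apply IntF.union | with_reducible apply IntF.inter | with_reducible apply IntF.sdiff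 | with_reducible apply IntF.isUnion | with_reducible apply IntF.iimage | with_reducible apply IntF.the | with_reducible apply IntF.irec | with_reducible_and_instances apply IntF.add | with_reducible_and_instances apply IntF.mul | with_reducible apply IntF.succ | with_reducible apply IntF.val | (with_reducible refine Int.comp ?_ ?_; assumption) | (with_reducible refine Int.comp₂ ?_ ?_ ?_; assumption) | (with_reducible refine Int.comp₃ ?_ ?_ ?_ ?_; assumption) | (with_reducible refine Int.comp₄ ?_ ?_ ?_ ?_ ?_; assumption) | (with_reducible refine IntF.comp ?_ ?_; assumption) | (with_reducible refine IntF.comp₂ ?_ ?_ ?_; assumption) | (with_reducible refine IntF.comp₃ ?_ ?_ ?_ ?_; assumption) | with_reducible apply IntF.inl | with_reducible apply IntF.inr | with_reducible apply IntF.pair))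

variable {s : IPow M (Ix M Λ × (α ⊕ IPm M α))}

theorem LL.spec (hW : IWo M lt) {j : Ix M Λ} {l : Λ} (hj : Fst (olt lt) s j) (hl : Top lt j l)
    {G : Ix M Λ} (h : LL lt l₀ s G) : Lo lt l₀ l G := by
  obtain ⟨j', l', h1, h2, h3⟩ := h
  obtain rfl := h1.unique (olt_iwo hW) hj
  obtain rfl := h2.unique hW hl
  exact h3

theorem LL.sep (hW : IWo M lt) {j : Ix M Λ} {l : Λ} (hj : Fst (olt lt) s j) (hl : Top lt j l)
    (hll : lt l₀ l) {X : IPow M (Ix M Λ)} (hX : ∀ G, G ∈ X → LL lt l₀ s G) :
    Sep (ins0 l₀) s X := by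
  refine ⟨fun G hG => ?_, fun G G' hG hG' h => ?_, fun G G' hG hG' => ?_⟩
  · have h := (hX G hG).spec hW hj hl
    exact ⟨(hj G).2 (hl.low hW h.1), (hj _).2 (hl.low hW (h.ins hll))⟩
  · exact ((hX G hG).spec hW hj hl).inj ((hX G' hG').spec hW hj hl) h
  · exact ((hX G' hG').spec hW hj hl).ne

theorem Dec.unique (hW : IWo M lt) (hs : Valid (olt lt) s) {G : Ix M Λ} {σ σ' : IPm M α}
    (h : Dec lt l₀ s G σ) (h' : Dec lt l₀ s G σ') : σ = σ' := by
  obtain ⟨j, l, h1, h2, h3, H₀, H₁, H₂, c₀, c₁, c₂, h4⟩ := h
  obtain ⟨j', l', h1', h2', h3', H₀', H₁', H₂', c₀', c₁', c₂', h4'⟩ := h'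
  obtain rfl := h1.unique (olt_iwo hW) h1'
  obtain rfl := h2.unique hW h2'
  obtain rfl := c₀.unique c₀'
  obtain rfl := c₁.unique c₁'
  obtain rfl := c₂.unique c₂'
  rcases h4 with ⟨x, y, z, hx, hy, hz, h5⟩ | ⟨ρ, h5, h6⟩ <;>
    rcases h4' with ⟨x', y', z', hx', hy', hz', h5'⟩ | ⟨ρ', h5', h6'⟩
  · obtain rfl := hs.2.1 _ _ _ hx hx'
    obtain rfl := hs.2.1 _ _ _ hy hy'
    obtain rfl := hs.2.1 _ _ _ hz hz'
    exact h5.ext h5'
  · exact absurd ⟨x, hx⟩ h5'.2
  · exact absurd ⟨x', hx'⟩ h5.2
  · obtain rfl := hs.2.2.1 _ _ _ h5.1 h5'.1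
    rcases h6 with ⟨h6, h7⟩ | ⟨h6, h7⟩ <;> rcases h6' with ⟨h6', h7'⟩ | ⟨h6', h7'⟩
    · rw [h7, h7']
    · exact absurd h6 h6'
    · exact absurd h6' h6
    · refine IPm.ext fun w => ?_
      obtain ⟨v, rfl⟩ := ρ.2.2 w
      rw [h7, h7']

theorem exists_Dec (hW : IWo M lt) {j : Ix M Λ} {l : Λ} (hj : Fst (olt lt) s j) (hl : Top lt j l)
    (hll : lt l₀ l) {σ : IPm M α} (h : KK s σ) : ∃ G, Dec lt l₀ s G σ := by
  have hi : ∀ i, dm s i → ∀ q, q ∈ i.1 → ¬ lt l q.1 := fun i hi => hl.high hW ((hj i).1 hi)
  rcases h with ⟨i₁, i₂, i₃, x, y, z, h₁, h₂, h₃, hC⟩ | ⟨i, ρ, h1, h2⟩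
  · obtain ⟨G, hG, c₀, c₁, c₂⟩ := exists_code hW hll (hi i₁ ⟨_, h₁⟩) (hi i₂ ⟨_, h₂⟩)
      (hi i₃ ⟨_, h₃⟩)
    exact ⟨G, j, l, hj, hl, hG, _, _, _, c₀, c₁, c₂, Or.inl ⟨x, y, z, h₁, h₂, h₃, hC⟩⟩
  · rcases h2 with h2 | h2
    · obtain ⟨G, hG, c₀, c₁, c₂⟩ := exists_code hW hll (hi i ⟨_, h1.1⟩) (hi i ⟨_, h1.1⟩)
        (hi i ⟨_, h1.1⟩)
      exact ⟨G, j, l, hj, hl, hG, _, _, _, c₀, c₁, c₂, Or.inr ⟨ρ, h1, Or.inl ⟨rfl, h2⟩⟩⟩
    · obtain ⟨H, hH, hne⟩ : ∃ H : Ix M Λ, (∀ q, q ∈ H.1 → ¬ lt l q.1) ∧ H ≠ i := by
        by_cases h3 : ∃ q, q ∈ i.1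
        · refine ⟨⟨∅, IFin.empty⟩, fun q hq => absurd hq (by simp), fun h4 => ?_⟩
          obtain ⟨q, hq⟩ := h3
          rw [← h4] at hq
          exact absurd hq (by simp)
        · refine ⟨⟨{(l₀, 0)}, IFin.singleton _⟩, fun q hq => ?_, fun h4 => h3 ⟨(l₀, 0), ?_⟩⟩
          · rw [mem_singleton.1 hq]
            exact fun h5 => hW.asymm h5 hll
          · rw [← h4]
            exact mem_singleton.2 rfl
      obtain ⟨G, hG, c₀, c₁, c₂⟩ := exists_code hW hll (hi i ⟨_, h1.1⟩) hH (hi i ⟨_, h1.1⟩)
      exact ⟨G, j, l, hj, hl, hG, _, _, _, c₀, c₁, c₂, Or.inr ⟨ρ, h1, Or.inr ⟨hne, h2⟩⟩⟩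

/-- The diagonal set. -/
noncomputable def Xd (lt : Λ → Λ → Prop) (l₀ : Λ) (f : FEq M α → IPm M α)
    (s : IPow M (Ix M Λ × (α ⊕ IPm M α))) : IPow M (Ix M Λ) :=
  sep M fun G => ∃ (σ : IPm M α) (Y : IPow M (Ix M Λ)), Dec lt l₀ s G σ ∧
    (∀ G', G' ∈ Y → LL lt l₀ s G') ∧ f (PX (ins0 l₀) s Y) = σ ∧ ¬ G ∈ Y

theorem int_Xd (hW : IWo M lt) {f : FEq M α → IPm M α} (hf : IntF M f) :
    IntF M (fun s : IPow M (Ix M Λ × (α ⊕ IPm M α)) => Xd lt l₀ f s) := by
  have h1 := int_Dec (M := M) (α := α) (l₀ := l₀) hW
  have h2 := int_LL (M := M) (α := α) (l₀ := l₀) hW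
  have h3 := int_PX (M := M) (α := α) (int_ins0 (M := M) (Λ := Λ) l₀)
  unfold Xd
  (repeat' (first | with_reducible exact IntF.id | with_reducible exact IntF.fst' | with_reducible exact IntF.snd' | with_reducible exact IntF.const _ | with_reducible exact Int.const _ | assumption | with_reducible apply Int.and | with_reducible apply Int.or | with_reducible apply Int.not | with_reducible apply Int.imp | with_reducible apply Int.iff | with_reducible apply Int.ne | with_reducible apply Int.eq | with_reducible apply Int.mem | with_reducible apply Int.subset | with_reducible apply Int.ltN | with_reducible apply Int.leN | with_reducible apply Int.fin | with_reducible apply Int.unique | with_reducible apply Int.all | with_reducible apply Int.ex | with_reducible apply IntF.fst | with_reducible apply IntF.snd | with_reducible apply IntF.app | with_reducible apply IntF.ite | with_reducible apply IntF.sep | with_reducible apply IntF.lam | with_reducible apply IntF.insert | with_reducible apply IntF.singleton | with_reducible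 apply IntF.union | with_reducible apply IntF.inter | with_reducible apply IntF.sdiff | with_reducible apply IntF.isUnion | with_reducible apply IntF.iimage | with_reducible apply IntF.the | with_reducible apply IntF.irec | with_reducible_and_instances apply IntF.add | with_reducible_and_instances apply IntF.mul | with_reducible apply IntF.succ | with_reducible apply IntF.val | (with_reducible refine Int.comp ?_ ?_; assumption) | (with_reducible refine Int.comp₂ ?_ ?_ ?_; assumption) | (with_reducible refine Int.comp₃ ?_ ?_ ?_ ?_; assumption) | (with_reducible refine Int.comp₄ ?_ ?_ ?_ ?_ ?_; assumption) | (with_reducible refine IntF.comp ?_ ?_; assumption) | (with_reducible refine IntF.comp₂ ?_ ?_ ?_; assumption) | (with_reducible refine IntF.comp₃ ?_ ?_ ?_ ?_; assumption) | with_reducible apply IntF.inl | with_reducible apply IntF.inr | with_reducible apply IntF.pair))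

theorem mem_Xd (hW : IWo M lt) {f : FEq M α → IPm M α} (hf : IntF M f) {G : Ix M Λ} :
    G ∈ Xd lt l₀ f s ↔ ∃ (σ : IPm M α) (Y : IPow M (Ix M Λ)), Dec lt l₀ s G σ ∧
    (∀ G', G' ∈ Y → LL lt l₀ s G') ∧ f (PX (ins0 l₀) s Y) = σ ∧ ¬ G ∈ Y := by
  have h1 := int_Dec (M := M) (α := α) (l₀ := l₀) hW
  have h2 := int_LL (M := M) (α := α) (l₀ := l₀) hW
  have h3 := int_PX (M := M) (α := α) (int_ins0 (M := M) (Λ := Λ) l₀)
  unfold Xd
  rw [mem_sep (by (repeat' (first | with_reducible exact IntF.id | with_reducible exact IntF.fst' | with_reducible exact IntF.snd' | with_reducible exact IntF.const _ | with_reducible exact Int.const _ | assumption | with_reducible apply Int.and | with_reducible apply Int.or | with_reducible apply Int.not | with_reducible apply Int.imp | with_reducible apply Int.iff | with_reducible apply Int.ne | with_reducible apply Int.eq | with_reducible apply Int.mem | with_reducible apply Int.subset | with_reducible apply Int.ltN | with_reducible apply Int.leN | with_reducible apply Int.fin | with_reducible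 apply Int.unique | with_reducible apply Int.all | with_reducible apply Int.ex | with_reducible apply IntF.fst | with_reducible apply IntF.snd | with_reducible apply IntF.app | with_reducible apply IntF.ite | with_reducible apply IntF.sep | with_reducible apply IntF.lam | with_reducible apply IntF.insert | with_reducible apply IntF.singleton | with_reducible apply IntF.union | with_reducible apply IntF.inter | with_reducible apply IntF.sdiff | with_reducible apply IntF.isUnion | with_reducible apply IntF.iimage | with_reducible apply IntF.the | with_reducible apply IntF.irec | with_reducible_and_instances apply IntF.add | with_reducible_and_instances apply IntF.mul | with_reducible apply IntF.succ | with_reducible apply IntF.val | (with_reducible refine Int.comp ?_ ?_; assumption) | (with_reducible refine Int.comp₂ ?_ ?_ ?_; assumption) | (with_reducible refine Int.comp₃ ?_ ?_ ?_ ?_; assumption) | (with_reducible refine Int.comp₄ ?_ ?_ ?_ ?_ ?_; assumption) | (with_reducible refine IntF.comp ?_ ?_; assumption) | (with_reducible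 refine IntF.comp₂ ?_ ?_ ?_; assumption) | (with_reducible refine IntF.comp₃ ?_ ?_ ?_ ?_; assumption) | with_reducible apply IntF.inl | with_reducible apply IntF.inr | with_reducible apply IntF.pair)))]

theorem diag (hW : IWo M lt) {f : FEq M α → IPm M α} (hf : IntF M f)
    (hinj : ∀ r r', f r = f r' → r = r') (hs : Valid (olt lt) s) {j : Ix M Λ} {l : Λ}
    (hj : Fst (olt lt) s j) (hl : Top lt j l) (hll : lt l₀ l) :
    ¬ KK s (f (PX (ins0 l₀) s (Xd lt l₀ f s))) := by
  intro hK
  have hπ := int_ins0 (M := M) (Λ := Λ) l₀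
  obtain ⟨G, hG⟩ := exists_Dec hW hj hl hll hK
  have hX : ∀ G, G ∈ Xd lt l₀ f s → LL lt l₀ s G := by
    intro G hG
    obtain ⟨σ, Y, ⟨j', l', h1, h2, h3, _⟩, _⟩ := (mem_Xd hW hf).1 hG
    exact ⟨j', l', h1, h2, h3⟩
  by_cases h1 : G ∈ Xd lt l₀ f s
  · obtain ⟨σ, Y, h2, h3, h4, h5⟩ := (mem_Xd hW hf).1 h1
    have h6 := hG.unique hW hs h2
    rw [← h4] at h6
    have h7 := hinj _ _ h6
    refine h5 (PX_inj hs hπ (LL.sep hW hj hl hll hX) (LL.sep hW hj hl hll h3)
      (fun i k hi hk => ?_) h7 G h1)
    exact ((hX i hi).spec hW hj hl).ne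
  · exact h1 ((mem_Xd hW hf).2 ⟨_, _, hG, hX, rfl, h1⟩)

end Pool.Agent.R596
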