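import Pool.Agent.R596.FcOne

/-!
# Boxes in products
-/

set_option autoImplicit false
set_option linter.all false

namespace Pool.Agent.R596.FC

open Pool.Agent.W868 Pool.Agent.R596Fc
open ZFSet (pair)

theorem ap_of_unique {z a b : ZFSet.{0}} (h : pair a b ∈ z) (h1 : ∀ b', pair a b' ∈ z → b' = b)
    (h2 : ∀ q ∈ z, ∃ u w, q = pair u w) : ap z a = b := by
  have h3 : im sn (ZFSet.sep (fun q => fs q = a) z) = {b} := by
    ext y
    rw [mem_im, ZFSet.mem_singleton]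
    constructor
    · rintro ⟨p, hp, rfl⟩
      obtain ⟨h4, h5⟩ := ZFSet.mem_sep.1 hp
      obtain ⟨u, w, rfl⟩ := h2 p h4
      rw [fs_pair] at h5
      rw [sn_pair]
      subst h5
      exact h1 _ h4
    · rintro rfl
      exact ⟨pair a y, ZFSet.mem_sep.2 ⟨h, fs_pair _ _⟩, (sn_pair _ _).symm⟩
  rw [ap, h3, ZFSet.sUnion_singleton]

/-- The set of the points with given neighbourhoods of the first coordinates. -/
noncomputable def box (P : ZFSet.{0}) (n : ℕ) (V : ℕ → ZFSet.{0}) : ZFSet.{0} :=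
  ZFSet.sep (fun f => ∀ i < n, ∃ x ∈ V i, pair (nat i) x ∈ f) P

theorem mem_box {P : ZFSet.{0}} {n : ℕ} {V s : ℕ → ZFSet.{0}} :
    seq s ∈ box P n V ↔ seq s ∈ P ∧ ∀ i < n, s i ∈ V i := by
  unfold box
  rw [ZFSet.mem_sep]
  refine and_congr Iff.rfl ?_
  constructor
  · intro h i hi
    obtain ⟨x, hx, h1⟩ := h i hi
    rwa [← pair_mem_seq.1 h1]
  · exact fun h i hi => ⟨s i, h i hi, pair_mem_seq.2 rfl⟩

theorem lt_of_nat_mem {i n : ℕ} (h : nat i ∈ nat n) : i < n := by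
  obtain ⟨m, hm, h1⟩ := mem_nat.1 h
  rwa [nat_injective h1]

theorem nat_mem_nat {i n : ℕ} (h : i < n) : nat i ∈ nat n := mem_nat.2 ⟨i, h, rfl⟩

section

variable {M : Set ZFSet.{0}} (hM : IsZF M)

include hM

/-- Finite sequences are in the model. -/
theorem finseq_mem {n : ℕ} {t : ℕ → ZFSet.{0}} (ht : ∀ i < n, t i ∈ M) :
    ∃ v ∈ M, ∀ z, z ∈ v ↔ ∃ i < n, z = pair (nat i) (t i) := by
  have h1 : {z | ∃ i < n, z = pair (nat i) (t i)}.Finite := by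
    have h2 : {z | ∃ i < n, z = pair (nat i) (t i)} =
        (fun i => pair (nat i) (t i)) '' Set.Iio n := by
      ext z
      constructor
      · rintro ⟨i, hi, rfl⟩
        exact ⟨i, hi, rfl⟩
      · rintro ⟨i, hi, rfl⟩
        exact ⟨i, hi, rfl⟩
    rw [h2]
    exact (Set.finite_Iio n).image _
  obtain ⟨v, hv, h2, -⟩ := finI_aux hM h1 (by
    rintro _ ⟨i, hi, rfl⟩
    exact hM.pair_mem (hM.nat_mem i) (ht i hi))
  exact ⟨v, hv, h2⟩

theorem finseq_ap {n : ℕ} {t : ℕ → ZFSet.{0}} (ht : ∀ i < n, t i ∈ M) :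
    ∃ v ∈ M, ∀ i < n, ap v (nat i) = t i := by
  obtain ⟨v, hv, h1⟩ := finseq_mem hM ht
  refine ⟨v, hv, fun i hi => ap_of_unique ((h1 _).2 ⟨i, hi, rfl⟩) (fun b' hb => ?_)
    fun q hq => ?_⟩
  · obtain ⟨j, hj, h2⟩ := (h1 _).1 hb
    obtain ⟨h3, rfl⟩ := ZFSet.pair_inj.1 h2
    rw [nat_injective h3]
  · obtain ⟨j, hj, h2⟩ := (h1 _).1 hq
    exact ⟨_, _, h2⟩

/-- Finite modifications of sequences. -/
theorem splice_mem {n : ℕ} {s t : ℕ → ZFSet.{0}} (hs : seq s ∈ M) (ht : ∀ i < n, t i ∈ M) :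
    seq (fun i => if i < n then t i else s i) ∈ M := by
  obtain ⟨v, hv, h1⟩ := finseq_mem hM ht
  have h2 : seq (fun i => if i < n then t i else s i) =
      ZFSet.sep (fun z => fs z ∉ nat n) (seq s) ∪ v := by
    ext z
    rw [ZFSet.mem_union, ZFSet.mem_sep, mem_seq, mem_seq, h1]
    constructor
    · rintro ⟨i, rfl⟩
      by_cases hi : i < n
      · refine Or.inr ⟨i, hi, ?_⟩
        rw [if_pos hi]
      · refine Or.inl ⟨⟨i, ?_⟩, ?_⟩
        · rw [if_neg hi]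
        · rw [fs_pair]
          exact fun h => hi (lt_of_nat_mem h)
    · rintro (⟨⟨i, rfl⟩, h2⟩ | ⟨i, hi, rfl⟩)
      · rw [fs_pair] at h2
        refine ⟨i, ?_⟩
        rw [if_neg fun h => h2 (nat_mem_nat h)]
      · exact ⟨i, by rw [if_pos hi]⟩
  rw [h2]
  refine hM.union_mem (hM.sep_mem (Q := fun z => fs z ∉ nat n) ?_ hs) hv
  exact Dfn.not (Dfn.mem (hM.fs' (DfnF.proj 0)) (DfnF.const (hM.nat_mem n)))

variable {X τ : ℕ → ZFSet.{0}} {P T : ZFSet.{0}} (hF : IsFamily M X τ)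
  (hPT : IsProdTop M X τ P T)

omit hM in
include hPT in
theorem mem_P {s : ℕ → ZFSet.{0}} : seq s ∈ P ↔ seq s ∈ M ∧ ∀ n, s n ∈ X n := by
  rw [hPT.prod.2]
  constructor
  · rintro ⟨h, t, h1, h2⟩
    rw [seq_inj h1]
    exact ⟨h1 ▸ h, h2⟩
  · exact fun h => ⟨h.1, s, rfl, h.2⟩

omit hM in
include hPT in
theorem P_seq {f : ZFSet.{0}} (hf : f ∈ P) : ∃ s, f = seq s ∧ ∀ n, s n ∈ X n :=
  ((hPT.prod.2 f).1 hf).2

omit hM in
include hPT in
theorem box_mem {n : ℕ} {V : ℕ → ZFSet.{0}} (hV : ∀ i < n, V i ∈ τ i) : box P n V ∈ T := by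
  induction n with
  | zero =>
    have h1 : box P 0 V = P := by
      ext f
      unfold box
      rw [ZFSet.mem_sep]
      exact ⟨fun h => h.1, fun h => ⟨h, fun i hi => absurd hi (Nat.not_lt_zero i)⟩⟩
    rw [h1]
    exact hPT.top.univ
  | succ n ih =>
    have h1 : box P (n + 1) V = box P n V ∩ cyl P n (V n) := by
      ext f
      rw [ZFSet.mem_inter]
      unfold box cyl
      rw [ZFSet.mem_sep, ZFSet.mem_sep, ZFSet.mem_sep]
      constructor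
      · rintro ⟨h1, h2⟩
        exact ⟨⟨h1, fun i hi => h2 i (Nat.lt_succ_of_lt hi)⟩, h1, h2 n (Nat.lt_succ_self n)⟩
      · rintro ⟨⟨h1, h2⟩, -, h3⟩
        refine ⟨h1, fun i hi => ?_⟩
        rcases Nat.lt_succ_iff_lt_or_eq.1 hi with h4 | rfl
        · exact h2 i h4
        · exact h3
    rw [h1]
    exact hPT.top.inter _ (ih fun i hi => hV i (Nat.lt_succ_of_lt hi)) _
      (hPT.cyl_mem n _ (hV n (Nat.lt_succ_self n)))

include hF hPT

/-- Open sets contain boxes. -/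
theorem std {W : ZFSet.{0}} (hW : W ∈ T) {s : ℕ → ZFSet.{0}} (hs : seq s ∈ W) :
    ∃ (n : ℕ) (V : ℕ → ZFSet.{0}), (∀ i, V i ∈ τ i ∧ s i ∈ V i) ∧ box P n V ⊆ W := by
  classical
  have hB := hM.base
  have hP := hPT.prod.1
  obtain ⟨PP, hPP, hPP'⟩ := hM.exists_pow hP
  let Sd : ZFSet.{0} → ZFSet.{0} → Prop := fun U f => ∃ n ∈ ZFSet.omega, ∃ v ∈ M,
    (∀ i ∈ n, ap v i ∈ ap (seq τ) i ∧ ap f i ∈ ap v i) ∧
    ∀ g ∈ P, (∀ i ∈ n, ap g i ∈ ap v i) → g ∈ U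
  have hSd : ∀ U s, seq s ∈ P → (Sd U (seq s) ↔ ∃ (n : ℕ) (V : ℕ → ZFSet.{0}),
      (∀ i, V i ∈ τ i ∧ s i ∈ V i) ∧ box P n V ⊆ U) := by
    intro U s hsP
    constructor
    · rintro ⟨n', hn', v, hv, h1, h2⟩
      obtain ⟨n, rfl⟩ := mem_omega_iff.1 hn'
      refine ⟨n, fun i => if i < n then ap v (nat i) else X i, fun i => ?_, fun f hf => ?_⟩
      · by_cases hi : i < n
        · have h3 := h1 (nat i) (nat_mem_nat hi)
          rw [ap_seq, ap_seq] at h3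
          dsimp only
          rw [if_pos hi]
          exact h3
        · dsimp only
          rw [if_neg hi]
          exact ⟨(hF.top i).univ, ((mem_P hPT).1 hsP).2 i⟩
      · have hfP : f ∈ P := (ZFSet.mem_sep.1 hf).1
        obtain ⟨t, rfl, -⟩ := P_seq hPT hfP
        refine h2 _ hfP fun i' hi' => ?_
        obtain ⟨i, hi, rfl⟩ := mem_nat.1 hi'
        have h3 := (mem_box.1 hf).2 i hi
        rw [if_pos hi] at h3
        rwa [ap_seq]
    · rintro ⟨n, V, h1, h2⟩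
      obtain ⟨v, hv, h3⟩ := finseq_ap hM (n := n) (t := V) fun i _ =>
        hM.trans _ (hF.top i).top_mem _ (h1 i).1
      refine ⟨nat n, nat_mem_omega n, v, hv, fun i' hi' => ?_, fun g hg h4 => ?_⟩
      · obtain ⟨i, hi, rfl⟩ := mem_nat.1 hi'
        rw [h3 i hi, ap_seq, ap_seq]
        exact h1 i
      · obtain ⟨t, rfl, -⟩ := P_seq hPT hg
        refine h2 (mem_box.2 ⟨hg, fun i hi => ?_⟩)
        have h5 := h4 (nat i) (nat_mem_nat hi)
        rwa [h3 i hi, ap_seq] at h5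
  let T' : ZFSet.{0} := ZFSet.sep (fun U => ∀ f ∈ U, Sd U f) PP
  have hT' : T' ∈ M := by
    refine hM.sep_mem (Q := fun U => ∀ f ∈ U, Sd U f) ?_ hPP
    refine hB.ball (DfnF.proj 0) (hB.bex (DfnF.const hM.infinity) (Dfn.ex (Dfn.and ?_ ?_)))
    · refine hB.ball (DfnF.proj 1) (Dfn.and ?_ ?_)
      · exact Dfn.mem (hM.ap' (DfnF.proj 1) (DfnF.proj 0))
          (hM.ap' (DfnF.const hF.top_mem) (DfnF.proj 0))
      · exact Dfn.mem (hM.ap' (DfnF.proj 3) (DfnF.proj 0)) (hM.ap' (DfnF.proj 1) (DfnF.proj 0))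
    · refine hB.ball (DfnF.const hP) (Dfn.imp (hB.ball (DfnF.proj 2) ?_) ?_)
      · exact Dfn.mem (hM.ap' (DfnF.proj 1) (DfnF.proj 0)) (hM.ap' (DfnF.proj 2) (DfnF.proj 0))
      · exact Dfn.mem (DfnF.proj 0) (DfnF.proj 4)
  have hm : ∀ U, U ∈ T' ↔ U ∈ M ∧ U ⊆ P ∧ ∀ s, seq s ∈ U →
      ∃ (n : ℕ) (V : ℕ → ZFSet.{0}), (∀ i, V i ∈ τ i ∧ s i ∈ V i) ∧ box P n V ⊆ U := by
    intro U
    change U ∈ ZFSet.sep (fun U => ∀ f ∈ U, Sd U f) PP ↔ _
    rw [ZFSet.mem_sep, hPP']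
    constructor
    · rintro ⟨⟨h1, h2⟩, h3⟩
      exact ⟨h1, h2, fun s hs => (hSd U s (h2 hs)).1 (h3 _ hs)⟩
    · rintro ⟨h1, h2, h3⟩
      refine ⟨⟨h1, h2⟩, fun f hf => ?_⟩
      obtain ⟨s, rfl, -⟩ := P_seq hPT (h2 hf)
      exact (hSd U s (h2 hf)).2 (h3 s hf)
  have hsX : ∀ {s : ℕ → ZFSet.{0}}, seq s ∈ P → ∀ i, X i ∈ τ i ∧ s i ∈ X i :=
    fun h i => ⟨(hF.top i).univ, ((mem_P hPT).1 h).2 i⟩
  have htop : IsTop M P T' := by
    refine isTop_of hP hT' (fun U hU => ((hm U).1 hU).2.1) ⟨?_, ?_, ?_, ?_⟩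
    · exact (hm _).2 ⟨hM.empty_mem, ZFSet.empty_subset _,
        fun s h => absurd h (ZFSet.notMem_empty _)⟩
    · exact (hm _).2 ⟨hP, fun _ h => h, fun s h => ⟨0, X, hsX h,
        fun f hf => (ZFSet.mem_sep.1 hf).1⟩⟩
    · intro U hU V hV
      obtain ⟨h1, h2, h3⟩ := (hm U).1 hU
      obtain ⟨h4, h5, h6⟩ := (hm V).1 hV
      refine (hm _).2 ⟨?_, fun z hz => h2 (ZFSet.mem_sep.1 hz).1, fun s hs => ?_⟩
      · exact hM.sep_mem (Q := fun x => x ∈ V) (Dfn.mem (DfnF.proj 0) (DfnF.const h4)) h1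
      · obtain ⟨h7, h8⟩ := ZFSet.mem_sep.1 hs
        obtain ⟨n, A, h9, h10⟩ := h3 s h7
        obtain ⟨m, B, h11, h12⟩ := h6 s h8
        refine ⟨max n m, fun i => A i ∩ B i, fun i => ⟨(hF.top i).inter _ (h9 i).1 _ (h11 i).1,
          ZFSet.mem_inter.2 ⟨(h9 i).2, (h11 i).2⟩⟩, fun f hf => ?_⟩
        have hfP : f ∈ P := (ZFSet.mem_sep.1 hf).1
        obtain ⟨t, rfl, -⟩ := P_seq hPT hfP
        have h13 := (mem_box.1 hf).2
        refine ZFSet.mem_sep.2 ⟨h10 (mem_box.2 ⟨hfP, fun i hi => ?_⟩),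
          h12 (mem_box.2 ⟨hfP, fun i hi => ?_⟩)⟩
        · exact (ZFSet.mem_inter.1 (h13 i (hi.trans_le (le_max_left _ _)))).1
        · exact (ZFSet.mem_inter.1 (h13 i (hi.trans_le (le_max_right _ _)))).2
    · intro 𝒰 h𝒰 h1
      refine (hm _).2 ⟨hM.union _ h𝒰, fun z hz => ?_, fun s hs => ?_⟩
      · obtain ⟨U, hU, hz⟩ := ZFSet.mem_sUnion.1 hz
        exact ((hm U).1 (h1 hU)).2.1 hz
      · obtain ⟨U, hU, hs⟩ := ZFSet.mem_sUnion.1 hs
        obtain ⟨n, A, h2, h3⟩ := ((hm U).1 (h1 hU)).2.2 s hs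
        exact ⟨n, A, h2, fun f hf => ZFSet.mem_sUnion.2 ⟨U, hU, h3 hf⟩⟩
  have hcy : ∀ n, ∀ V ∈ τ n, cyl P n V ∈ T' := by
    intro n V hV
    have hVM : V ∈ M := hM.trans _ (hF.top n).top_mem _ hV
    refine (hm _).2 ⟨?_, fun f hf => (ZFSet.mem_sep.1 hf).1, fun s hs => ?_⟩
    · refine hM.sep_mem (Q := fun f => ∃ x ∈ V, pair (nat n) x ∈ f) ?_ hP
      exact hB.bex (DfnF.const hVM) (Dfn.mem (hB.pair' (DfnF.const (hM.nat_mem n))
        (DfnF.proj 0)) (DfnF.proj 1))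
    · obtain ⟨hsP, hsn⟩ := mem_cyl.1 hs
      refine ⟨n + 1, fun i => if i = n then V else X i, fun i => ?_, fun f hf => ?_⟩
      · dsimp only
        split_ifs with h
        · subst h
          exact ⟨hV, hsn⟩
        · exact hsX hsP i
      · have hfP : f ∈ P := (ZFSet.mem_sep.1 hf).1
        obtain ⟨t, rfl, -⟩ := P_seq hPT hfP
        have h13 := (mem_box.1 hf).2 n (Nat.lt_succ_self n)
        rw [if_pos rfl] at h13
        exact mem_cyl.2 ⟨hfP, h13⟩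
  exact ((hm W).1 (hPT.least T' htop hcy hW)).2.2 s hs

end

end Pool.Agent.R596.FC
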