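import Pool.Agent.R596.FcCpt

/-!
# Uniform choice from closed sets
-/

set_option autoImplicit false
set_option linter.all false

namespace Pool.Agent.R596.FC

open Pool.Agent.W868 Pool.Agent.R596Fc
open ZFSet (pair)

theorem K_congr {cl cl₂ : ZFSet.{0} → ZFSet.{0}} {C : ZFSet.{0}}
    (h : ∀ β, ∀ z ∈ C, z ∈ cl β ↔ z ∈ cl₂ β) (α : ZFSet.{0}) : K cl C α = K cl₂ C α := by
  induction α using ZFSet.inductionOn with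
  | _ α ih =>
    ext z
    rw [mem_K, mem_K]
    refine and_congr_right fun hz => ?_
    have h1 : ∀ β ∈ α, ((∃ w ∈ K cl C β, w ∈ cl β) ↔ ∃ w ∈ K cl₂ C β, w ∈ cl₂ β) := by
      intro β hβ
      rw [ih β hβ]
      constructor
      · rintro ⟨w, h2, h3⟩
        exact ⟨w, h2, (h β w ((mem_K cl₂).1 h2).1).1 h3⟩
      · rintro ⟨w, h2, h3⟩
        exact ⟨w, h2, (h β w ((mem_K cl₂).1 h2).1).2 h3⟩
    constructor
    · intro h2 β hβ h3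
      exact (h β z hz).1 (h2 β hβ ((h1 β hβ).2 h3))
    · intro h2 β hβ h3
      exact (h β z hz).2 (h2 β hβ ((h1 β hβ).1 h3))

section

variable {M : Set ZFSet.{0}} (hM : IsZF M) {X τ : ℕ → ZFSet.{0}} (hF : IsFamily M X τ)
  {κ : ZFSet.{0}} (hκ : κ ∈ M) (hκo : κ.IsOrdinal) {cl : ZFSet.{0} → ZFSet.{0}}
  (dcl : DfnF M M fun w : Fin 1 → ZFSet.{0} => cl (w 0))
  (c1 : ∀ β ∈ κ, ∀ i, ∀ z ∈ X i, pair (nat i) z ∉ cl β → ∃ V ∈ τ i, z ∈ V ∧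
    ∀ w ∈ V, pair (nat i) w ∉ cl β)
  (c2 : ∀ i, ∀ z ∈ X i, ∀ z' ∈ X i, z ≠ z' → ∃ β ∈ κ, pair (nat i) z ∈ cl β ∧
    pair (nat i) z' ∉ cl β)

include hM hF hκ hκo dcl c1 c2

theorem exists_ch : ∃ ch : ZFSet.{0} → ZFSet.{0},
    (DfnF M M fun w : Fin 1 → ZFSet.{0} => ch (w 0)) ∧
    ∀ n, ∀ C ∈ M, C ⊆ X n → ZFSet.sep (fun y => y ∉ C) (X n) ∈ τ n → (∃ z, z ∈ C) →
      ch (pair (nat n) C) ∈ C := by
  have hB := hM.base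
  refine ⟨fun p => sn (pk cl κ (ZFSet.prod {fs p} (sn p))), ?_, ?_⟩
  · refine hM.sn' (DfnF.comp1 (f := pk cl κ) (dfn_pk hM dcl hκ) ?_)
    exact hM.prod' (hB.single' (hM.fs' (DfnF.proj 0))) (hM.sn' (DfnF.proj 0))
  intro n C hC hCX hCc hCn
  have hXn : X n ∈ M := of_seq_mem hM hF.set_mem n
  let A : ZFSet.{0} := ZFSet.prod {nat n} (X n)
  have hA : A ∈ M := hM.prod_mem (hM.single_mem (hM.nat_mem n)) hXn
  have mA : ∀ {p}, p ∈ A ↔ ∃ z ∈ X n, p = pair (nat n) z := by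
    intro p
    change p ∈ ZFSet.prod {nat n} (X n) ↔ _
    rw [ZFSet.mem_prod]
    constructor
    · rintro ⟨a, ha, b, hb, rfl⟩
      rw [ZFSet.mem_singleton] at ha
      exact ⟨b, hb, by rw [ha]⟩
    · rintro ⟨z, hz, rfl⟩
      exact ⟨nat n, ZFSet.mem_singleton.2 rfl, z, hz, rfl⟩
  let cl₂ : ZFSet.{0} → ZFSet.{0} := fun β => ZFSet.sep (fun p => p ∈ cl β) A
  have dcl₂ : DfnF M M fun w : Fin 1 → ZFSet.{0} => cl₂ (w 0) :=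
    hM.sep' (Q := fun p v => p ∈ cl (v 0)) (DfnF.const hA)
      (Dfn.mem (DfnF.proj 0) (DfnF.comp1 (f := cl) dcl (DfnF.proj 1)))
  let Cl : ZFSet.{0} → Prop := fun L => L ⊆ A ∧ ∀ z ∈ X n, pair (nat n) z ∉ L →
    ∃ V ∈ τ n, z ∈ V ∧ ∀ w ∈ V, pair (nat n) w ∉ L
  have hc : ∀ β ∈ κ, Cl (cl₂ β) := by
    intro β hβ
    refine ⟨fun p hp => (ZFSet.mem_sep.1 hp).1, fun z hz h1 => ?_⟩
    obtain ⟨V, hV, h2, h3⟩ := c1 β hβ n z hz fun h => h1 (ZFSet.mem_sep.2 ⟨mA.2 ⟨z, hz, rfl⟩, h⟩)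
    exact ⟨V, hV, h2, fun w hw h4 => h3 w hw (ZFSet.mem_sep.1 h4).2⟩
  have hI : ∀ L, Cl L → ∀ Q : ZFSet.{0} → Prop, (∀ β, Q β → β ∈ κ) →
      Cl (ZFSet.sep (fun z => ∀ β, Q β → z ∈ cl₂ β) L) := by
    intro L hL Q hQ
    refine ⟨fun x hx => hL.1 (ZFSet.mem_sep.1 hx).1, fun z hz h1 => ?_⟩
    by_cases h2 : pair (nat n) z ∈ L
    · have h3 : ∃ β, Q β ∧ pair (nat n) z ∉ cl₂ β := by
        by_contra hcon
        push Not at hcon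
        exact h1 (ZFSet.mem_sep.2 ⟨h2, hcon⟩)
      obtain ⟨β, h4, h5⟩ := h3
      obtain ⟨V, hV, h6, h7⟩ := (hc β (hQ β h4)).2 z hz h5
      exact ⟨V, hV, h6, fun w hw h8 => h7 w hw ((ZFSet.mem_sep.1 h8).2 β h4)⟩
    · obtain ⟨V, hV, h6, h7⟩ := hL.2 z hz h2
      exact ⟨V, hV, h6, fun w hw h8 => h7 w hw (ZFSet.mem_sep.1 h8).1⟩
  have hK : ∀ 𝒦 ∈ M, (∀ K ∈ 𝒦, Cl K) → (∀ K ∈ 𝒦, ∀ L ∈ 𝒦, K ⊆ L ∨ L ⊆ K) →
      (∀ K ∈ 𝒦, ∃ z, z ∈ K) → (∃ K, K ∈ 𝒦) → ∃ z, ∀ K ∈ 𝒦, z ∈ K := by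
    intro 𝒦 h𝒦 h1 h2 h3 h4
    by_contra hcon
    push Not at hcon
    let 𝒱 : ZFSet.{0} := ZFSet.sep (fun V => ∃ K ∈ 𝒦, ∀ w ∈ V, pair (nat n) w ∉ K) (τ n)
    have h𝒱 : 𝒱 ∈ M := by
      refine hM.sep_mem (Q := fun V => ∃ K ∈ 𝒦, ∀ w ∈ V, pair (nat n) w ∉ K) ?_
        (of_seq_mem hM hF.top_mem n)
      refine hB.bex (DfnF.const h𝒦) (hB.ball (DfnF.proj 1) (Dfn.not ?_))
      exact Dfn.mem (hB.pair' (DfnF.const (hM.nat_mem n)) (DfnF.proj 0)) (DfnF.proj 1)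
    obtain ⟨ℱ, hf, hf1, hf2⟩ := hF.compact n 𝒱 h𝒱 (fun V hV => (ZFSet.mem_sep.1 hV).1)
      fun z hz => by
        obtain ⟨K, hK, h5⟩ := hcon (pair (nat n) z)
        obtain ⟨V, hV, h6, h7⟩ := (h1 K hK).2 z hz h5
        exact ⟨V, ZFSet.mem_sep.2 ⟨hV, K, hK, h7⟩, h6⟩
    have key : ∀ 𝒢 : Set ZFSet.{0}, 𝒢.Finite → (∀ V ∈ 𝒢, V ∈ 𝒱) →
        ∃ K ∈ 𝒦, ∀ V ∈ 𝒢, ∀ w ∈ V, pair (nat n) w ∉ K := by
      intro 𝒢 h5
      induction 𝒢, h5 using Set.Finite.induction_on with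
      | empty =>
        intro _
        obtain ⟨K, hK⟩ := h4
        exact ⟨K, hK, fun V hV => absurd hV (Set.notMem_empty _)⟩
      | @insert V 𝒢 hVn hfin ih =>
        intro h6
        obtain ⟨K, hK, h7⟩ := ih fun U hU => h6 U (Set.mem_insert_of_mem _ hU)
        obtain ⟨-, L, hL, h8⟩ := ZFSet.mem_sep.1 (h6 V (Set.mem_insert _ _))
        rcases h2 K hK L hL with h9 | h9
        · refine ⟨K, hK, ?_⟩
          rintro V' (rfl | hV') w hw h10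
          · exact h8 w hw (h9 h10)
          · exact h7 V' hV' w hw h10
        · refine ⟨L, hL, ?_⟩
          rintro V' (rfl | hV') w hw h10
          · exact h8 w hw h10
          · exact h7 V' hV' w hw (h9 h10)
    obtain ⟨K, hK, h5⟩ := key ℱ hf hf1
    obtain ⟨p, hp⟩ := h3 K hK
    obtain ⟨z, hz, rfl⟩ := mA.1 ((h1 K hK).1 hp)
    obtain ⟨V, hV1, hV2⟩ := hf2 z hz
    exact h5 V hV1 z hV2 hp
  have hs : ∀ x ∈ A, ∀ y ∈ A, x ≠ y → ∃ β ∈ κ, x ∈ cl₂ β ∧ y ∉ cl₂ β := by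
    intro x hx y hy hne
    obtain ⟨z, hz, rfl⟩ := mA.1 hx
    obtain ⟨z', hz', rfl⟩ := mA.1 hy
    obtain ⟨β, hβ, h1, h2⟩ := c2 n z hz z' hz' fun h => hne (by rw [h])
    exact ⟨β, hβ, ZFSet.mem_sep.2 ⟨hx, h1⟩, fun h => h2 (ZFSet.mem_sep.1 h).2⟩
  let C' : ZFSet.{0} := ZFSet.prod {nat n} C
  have mC : ∀ {z}, pair (nat n) z ∈ C' ↔ z ∈ C := by
    intro z
    change pair (nat n) z ∈ ZFSet.prod {nat n} C ↔ _
    rw [ZFSet.pair_mem_prod, ZFSet.mem_singleton]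
    exact ⟨fun h => h.2, fun h => ⟨rfl, h⟩⟩
  have hC'A : C' ⊆ A := by
    intro p hp
    obtain ⟨a, ha, b, hb, rfl⟩ := ZFSet.mem_prod.1 hp
    exact ZFSet.pair_mem_prod.2 ⟨ha, hCX hb⟩
  have h1 : pk cl₂ κ C' ∈ C' := by
    refine pk_mem hM dcl₂ hκ hκo (X := A) (Cl := Cl) hc hI hK hs
      (hM.prod_mem (hM.single_mem (hM.nat_mem n)) hC) hC'A ⟨hC'A, fun z hz h1 => ?_⟩ ?_
    · refine ⟨_, hCc, ZFSet.mem_sep.2 ⟨hz, fun h => h1 (mC.2 h)⟩, fun w hw h2 => ?_⟩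
      exact (ZFSet.mem_sep.1 hw).2 (mC.1 h2)
    · obtain ⟨z, hz⟩ := hCn
      exact ⟨_, mC.2 hz⟩
  have h2 : pk cl κ C' = pk cl₂ κ C' := by
    unfold pk
    rw [K_congr (cl₂ := cl₂) fun β z hz => ?_]
    exact ⟨fun h => ZFSet.mem_sep.2 ⟨hC'A hz, h⟩, fun h => (ZFSet.mem_sep.1 h).2⟩
  rw [← h2] at h1
  dsimp only
  rw [fs_pair, sn_pair]
  obtain ⟨a, ha, b, hb, h3⟩ := ZFSet.mem_prod.1 h1
  change sn (pk cl κ C') ∈ C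
  rw [h3, sn_pair]
  exact hb

end

end Pool.Agent.R596.FC
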