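import Pool.Agent.R596.FcSepM
import Pool.Agent.W868.Itr

/-!
# From metrics to uniformities
-/

set_option autoImplicit false
set_option linter.all false

namespace Pool.Agent.R596.FC

open Pool.Agent.W868 Pool.Agent.R596Fc
open ZFSet (pair)

theorem mem_nat {y : ZFSet.{0}} {n : ℕ} : y ∈ nat n ↔ ∃ m < n, y = nat m := by
  induction n with
  | zero =>
    constructor
    · exact fun h => absurd h (ZFSet.notMem_empty _)
    · rintro ⟨m, hm, -⟩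
      exact absurd hm (Nat.not_lt_zero m)
  | succ n ih =>
    change y ∈ insert (nat n) (nat n) ↔ _
    rw [ZFSet.mem_insert_iff, ih]
    constructor
    · rintro (rfl | ⟨m, hm, rfl⟩)
      · exact ⟨n, Nat.lt_succ_self n, rfl⟩
      · exact ⟨m, Nat.lt_succ_of_lt hm, rfl⟩
    · rintro ⟨m, hm, rfl⟩
      rcases Nat.lt_succ_iff_lt_or_eq.1 hm with h | rfl
      · exact Or.inr ⟨m, h, rfl⟩
      · exact Or.inl rfl

theorem itr_nat {T : ZFSet.{0} → ZFSet.{0}} {f : ℕ → ℕ} (h0 : f 0 = 0)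
    (hs : ∀ n, T (nat (f n)) = nat (f (n + 1))) (hm : Monotone f) (n : ℕ) :
    itr T ∅ (nat n) = nat (f n) := by
  induction n using Nat.strong_induction_on with
  | _ n ih =>
    ext y
    rw [mem_itr]
    constructor
    · rintro (h | ⟨u, hu, h⟩)
      · exact absurd h (ZFSet.notMem_empty _)
      · obtain ⟨m, hm', rfl⟩ := mem_nat.1 hu
        rw [ih m hm', hs] at h
        exact nat_subset (hm hm') h
    · intro h
      rcases n with _ | k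
      · rw [h0] at h
        exact absurd h (ZFSet.notMem_empty _)
      · refine Or.inr ⟨nat k, mem_nat.2 ⟨k, Nat.lt_succ_self k, rfl⟩, ?_⟩
        rw [ih k (Nat.lt_succ_self k), hs]
        exact h

/-- Doubling. -/
noncomputable def dbl : ZFSet.{0} → ZFSet.{0} := itr (fun x => insert (insert x x) (insert x x)) ∅

theorem dbl_nat (n : ℕ) : dbl (nat n) = nat (2 * n) :=
  itr_nat (f := fun n => 2 * n) rfl (fun n => rfl) (fun a b h => Nat.mul_le_mul_left 2 h) n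

/-- The sequence `2 ^ n - 1`. -/
noncomputable def ex2 : ZFSet.{0} → ZFSet.{0} := itr (fun x => insert (dbl x) (dbl x)) ∅

theorem ex2_nat (n : ℕ) : ex2 (nat n) = nat (2 ^ n - 1) := by
  refine itr_nat (f := fun n => 2 ^ n - 1) rfl (fun n => ?_) (fun a b h => ?_) n
  · change insert (dbl (nat (2 ^ n - 1))) (dbl (nat (2 ^ n - 1))) = _
    rw [dbl_nat]
    have h1 : 2 ^ (n + 1) - 1 = 2 * (2 ^ n - 1) + 1 := by
      have := Nat.one_le_two_pow (n := n)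
      rw [pow_succ]
      omega
    rw [h1]
    rfl
  · exact Nat.sub_le_sub_right (Nat.pow_le_pow_right (by norm_num) h) 1

section

variable {M : Set ZFSet.{0}} (hM : IsZF M)

include hM

theorem dfn_ex2 : DfnF M M fun w : Fin 1 → ZFSet.{0} => ex2 (w 0) := by
  have hB := hM.base
  have h1 : DfnF M M fun w : Fin 1 → ZFSet.{0} => dbl (w 0) := by
    refine dfn_itr hM hM.empty_mem ?_
    exact hB.insert' (hB.insert' (DfnF.proj 0) (DfnF.proj 0))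
      (hB.insert' (DfnF.proj 0) (DfnF.proj 0))
  exact dfn_itr hM hM.empty_mem (hB.insert' h1 h1)

variable {X : ZFSet.{0}} {d : ZFSet.{0} → ZFSet.{0} → ℝ}

omit hM in
theorem mem_cut {x y : ZFSet.{0}} {a b : ℕ} :
    pair (pair x y) (pair (nat a) (nat b)) ∈ cut X d ↔ x ∈ X ∧ y ∈ X ∧ d x y < a / (b + 1) := by
  unfold cut
  rw [ZFSet.mem_sep]
  constructor
  · rintro ⟨-, x', hx', y', hy', a', b', h1, h2⟩
    obtain ⟨h3, h4⟩ := ZFSet.pair_inj.1 h1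
    obtain ⟨rfl, rfl⟩ := ZFSet.pair_inj.1 h3
    obtain ⟨h5, h6⟩ := ZFSet.pair_inj.1 h4
    obtain rfl := nat_injective h5
    obtain rfl := nat_injective h6
    exact ⟨hx', hy', h2⟩
  · rintro ⟨hx, hy, h⟩
    refine ⟨?_, x, hx, y, hy, a, b, rfl, h⟩
    exact ZFSet.pair_mem_prod.2 ⟨ZFSet.pair_mem_prod.2 ⟨hx, hy⟩,
      ZFSet.pair_mem_prod.2 ⟨nat_mem_omega a, nat_mem_omega b⟩⟩

/-- The uniformity of a metric. -/
theorem exists_unif (hX : X ∈ M) (hd : IsMetric M X d) : ∃ D ∈ M, Unif X D ∧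
    (∀ z ∈ D, ∃ x ∈ X, ∃ y ∈ X, ∃ i ∈ ZFSet.omega, z = pair (pair x y) i) ∧
    ∀ x y n, Nr D (nat n) x y ↔ x ∈ X ∧ y ∈ X ∧ d x y < 1 / 2 ^ n := by
  have hB := hM.base
  let D : ZFSet.{0} := ZFSet.sep (fun z => pair (fs z) (pair (nat 1) (ex2 (sn z))) ∈ cut X d)
    (ZFSet.prod (ZFSet.prod X X) ZFSet.omega)
  have hD : D ∈ M := by
    refine hM.sep_mem (Q := fun z => pair (fs z) (pair (nat 1) (ex2 (sn z))) ∈ cut X d) ?_
      (hM.prod_mem (hM.prod_mem hX hX) hM.infinity)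
    refine Dfn.mem (hB.pair' (hM.fs' (DfnF.proj 0)) (hB.pair' (DfnF.const (hM.nat_mem 1)) ?_))
      (DfnF.const hd.mem)
    exact DfnF.comp1 (f := ex2) (dfn_ex2 hM) (hM.sn' (DfnF.proj 0))
  have hN : ∀ x y n, Nr D (nat n) x y ↔ x ∈ X ∧ y ∈ X ∧ d x y < 1 / 2 ^ n := by
    intro x y n
    have h1 : ((1 : ℕ) : ℝ) / (((2 ^ n - 1 : ℕ) : ℝ) + 1) = 1 / 2 ^ n := by
      rw [Nat.cast_sub Nat.one_le_two_pow]
      push_cast
      rw [sub_add_cancel]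
    have h2 : Nr D (nat n) x y ↔
        pair (pair x y) (nat n) ∈ ZFSet.prod (ZFSet.prod X X) ZFSet.omega ∧
        pair (pair x y) (pair (nat 1) (nat (2 ^ n - 1))) ∈ cut X d := by
      change pair (pair x y) (nat n) ∈ D ↔ _
      rw [ZFSet.mem_sep, fs_pair, sn_pair, ex2_nat]
    rw [h2, mem_cut, h1, ZFSet.pair_mem_prod, ZFSet.pair_mem_prod]
    constructor
    · exact fun h => h.2
    · exact fun h => ⟨⟨⟨h.1, h.2.1⟩, nat_mem_omega n⟩, h⟩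
  refine ⟨D, hD, ⟨fun x hx n => ?_, fun x hx y hy n h => ?_, fun x hx y hy z hz n h1 h2 => ?_,
    fun x hx y hy h => ?_⟩, fun z hz => ?_, hN⟩
  · rw [hN, hd.self x hx]
    exact ⟨hx, hx, by positivity⟩
  · rw [hN] at h ⊢
    rw [hd.symm y hy x hx]
    exact ⟨hy, hx, h.2.2⟩
  · rw [hN] at h1 h2 ⊢
    refine ⟨hx, hz, ?_⟩
    have h3 := hd.tri x hx y hy z hz
    have h4 : (1 : ℝ) / 2 ^ (n + 1) + 1 / 2 ^ (n + 1) = 1 / 2 ^ n := by
      rw [pow_succ]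
      field_simp
      norm_num
    linarith [h1.2.2, h2.2.2]
  · refine hd.eq x hx y hy ?_
    have h1 : 0 ≤ d x y := by
      have h2 := hd.tri x hx y hy x hx
      rw [hd.self x hx, hd.symm y hy x hx] at h2
      linarith
    refine le_antisymm (le_of_forall_pos_lt_add fun ε hε => ?_) h1
    obtain ⟨n, hn⟩ := exists_pow_lt_of_lt_one hε (by norm_num : (1 / 2 : ℝ) < 1)
    have h3 := ((hN x y n).1 (h n)).2.2
    rw [one_div_pow] at hn
    linarith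
  · obtain ⟨h1, -⟩ := ZFSet.mem_sep.1 hz
    obtain ⟨p, hp, i, hi, rfl⟩ := ZFSet.mem_prod.1 h1
    obtain ⟨x, hx, y, hy, rfl⟩ := ZFSet.mem_prod.1 hp
    exact ⟨x, hx, y, hy, i, hi, rfl⟩

/-- Open sets for the metric and for the uniformity. -/
theorem opn_iff {D U : ZFSet.{0}}
    (hN : ∀ x y n, Nr D (nat n) x y ↔ x ∈ X ∧ y ∈ X ∧ d x y < 1 / 2 ^ n) (hU : U ⊆ X) :
    Opn X D U ↔ ∀ x ∈ U, ∃ ε > 0, ∀ y ∈ X, d x y < ε → y ∈ U := by
  constructor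
  · rintro ⟨-, h⟩ x hx
    obtain ⟨n, hn⟩ := h x hx
    exact ⟨1 / 2 ^ n, by positivity, fun y hy h1 => hn y hy ((hN x y n).2 ⟨hU hx, hy, h1⟩)⟩
  · refine fun h => ⟨hU, fun x hx => ?_⟩
    obtain ⟨ε, hε, h1⟩ := h x hx
    obtain ⟨n, hn⟩ := exists_pow_lt_of_lt_one hε (by norm_num : (1 / 2 : ℝ) < 1)
    rw [one_div_pow] at hn
    exact ⟨n, fun y hy h2 => h1 y hy (((hN x y n).1 h2).2.2.trans hn)⟩

/-- Separability of compact metrizable spaces. -/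
theorem mcs_of (h : ∀ X ∈ M, ∀ D ∈ M, Unif X D →
    (∀ z ∈ D, ∃ x ∈ X, ∃ y ∈ X, ∃ i ∈ ZFSet.omega, z = pair (pair x y) i) → Cpt M X D →
    ∃ S ∈ M, S ⊆ X ∧ Ctb M S ∧ ∀ x ∈ X, ∀ n, ∃ s ∈ S, Nr D (nat n) x s) : MCS M := by
  intro X τ ht hc ⟨d, hd, hτ⟩
  obtain ⟨D, hD, hU, hs, hN⟩ := exists_unif hM ht.set_mem hd
  have hopn : ∀ U ∈ M, (Opn X D U ↔ U ∈ τ) := by
    intro U hUM
    constructor
    · intro h1
      exact (hτ U hUM h1.1).2 ((opn_iff hM hN h1.1).1 h1)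
    · intro h1
      have h2 := ht.sub U h1
      exact (opn_iff hM hN h2).2 ((hτ U hUM h2).1 h1)
  have hcpt : Cpt M X D := by
    intro 𝒰 h𝒰 h1 h2
    exact hc 𝒰 h𝒰 (fun U hU' => (hopn U (hM.trans _ h𝒰 _ hU')).1 (h1 U hU')) h2
  obtain ⟨S, hS, hSX, hSc, hSd⟩ := h X ht.set_mem D hD hU hs hcpt
  refine ⟨S, hS, hSX, hSc, fun U hUτ ⟨x, hx⟩ => ?_⟩
  obtain ⟨hUX, h1⟩ := (hopn U (hM.trans _ ht.top_mem _ hUτ)).2 hUτ
  obtain ⟨n, hn⟩ := h1 x hx
  obtain ⟨s, hs1, hs2⟩ := hSd x (hUX hx) n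
  exact ⟨s, hs1, hn s (hSX hs1) hs2⟩

end

end Pool.Agent.R596.FC
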