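import Pool.Agent.R596.FcHom
import Pool.Agent.R596.FcMcs

/-!
# The collapsed cardinals
-/

set_option autoImplicit false
set_option linter.all false

namespace Pool.Agent.R596.FC

open Pool.Agent.W868 Pool.Agent.W868.PName Pool.Agent.R596.SY Pool.Agent.R596Fc
open ZFSet (pair)

/-- The ordinal of a value as a set. -/
noncomputable def ol (l : La) : ZFSet.{0} := (oo l).toZFSet

theorem ol_injective : Function.Injective ol :=
  fun _ _ h => oo_injective (Ordinal.toZFSet_injective h)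

/-- The cardinals. -/
noncomputable def Om (i : ℕ) : ZFSet.{0} := (Cardinal.aleph (i : Ordinal.{0})).ord.toZFSet

/-- The limit of the cardinals. -/
noncomputable def Lam : ZFSet.{0} := (Cardinal.aleph Ordinal.omega0.{0}).ord.toZFSet

/-- The set of the cardinals. -/
noncomputable def A0 : ZFSet.{0} := ZFSet.range Om

theorem mem_A0 {x : ZFSet.{0}} : x ∈ A0 ↔ ∃ i, Om i = x := by
  unfold A0
  rw [ZFSet.mem_range]

theorem mem_Om {i : ℕ} {x : ZFSet.{0}} : x ∈ Om i ↔ ∃ l, Lv i l ∧ ol l = x := by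
  unfold Om
  rw [Ordinal.mem_toZFSet_iff]
  constructor
  · rintro ⟨a, ha, rfl⟩
    obtain ⟨l, hl⟩ := Ordinal.typein_surj (α := La) (· < ·) (o := a) (by
      rw [Ordinal.type_toType]
      refine ha.trans (Cardinal.ord_lt_ord.2 (Cardinal.aleph_lt_aleph.2 ?_))
      exact Ordinal.natCast_lt_omega0 i)
    refine ⟨l, ?_, ?_⟩
    · change Ordinal.typein (α := La) (· < ·) l < _
      rw [hl]
      exact ha
    · change (Ordinal.typein (α := La) (· < ·) l).toZFSet = _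
      rw [hl]
  · rintro ⟨l, hl, rfl⟩
    exact ⟨oo l, hl, rfl⟩

theorem exists_Lv (l : La) : ∃ i, Lv i l := by
  have h1 : oo l < (Cardinal.aleph Ordinal.omega0.{0}).ord := by
    have := Ordinal.typein_lt_type (α := La) (· < ·) l
    rwa [Ordinal.type_toType] at this
  by_contra hc
  push Not at hc
  have h2 : ∀ i : ℕ, Cardinal.aleph (i : Ordinal.{0}) ≤ (oo l).card := by
    intro i
    have h3 := hc i
    unfold Lv at h3
    push Not at h3
    exact Cardinal.ord_le.1 h3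
  have h3 : Cardinal.aleph Ordinal.omega0.{0} ≤ (oo l).card := by
    rw [Cardinal.aleph_limit Ordinal.isSuccLimit_omega0]
    refine ciSup_le' fun a => ?_
    obtain ⟨n, hn⟩ := Ordinal.lt_omega0.1 a.2
    rw [hn]
    exact h2 n
  exact absurd (Cardinal.ord_le.2 h3) (not_le.2 h1)

theorem mem_Lam {x : ZFSet.{0}} : x ∈ Lam ↔ ∃ l, ol l = x := by
  unfold Lam
  rw [Ordinal.mem_toZFSet_iff]
  constructor
  · rintro ⟨a, ha, rfl⟩
    obtain ⟨l, hl⟩ := Ordinal.typein_surj (α := La) (· < ·) (o := a) (by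
      rw [Ordinal.type_toType]
      exact ha)
    refine ⟨l, ?_⟩
    change (Ordinal.typein (α := La) (· < ·) l).toZFSet = _
    rw [hl]
  · rintro ⟨l, rfl⟩
    refine ⟨oo l, ?_, rfl⟩
    have := Ordinal.typein_lt_type (α := La) (· < ·) l
    rwa [Ordinal.type_toType] at this

/-- The pair of a number and an ordinal. -/
noncomputable def pn (t : ℕ × La) : PName Cd := opN (check (nat t.1)) (check (ol t.2))

/-- The generic enumerations. -/
noncomputable def gN (j : J) : PName Cd :=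
  rn (ℕ × La) pn fun t q => (j, t.1, t.2) ∈ q.F

theorem act_gN (g : Gp) (j : J) (p : Cd) : Feq (act (sy.ac g) (gN j)) (gN (g.1 j)) p := by
  refine feq_act_rn (fun t => ?_) (fun t c => ?_) p
  · unfold pn
    rw [act_opN (sy.top g), act_ck, act_ck]
  · exact mem_mc

theorem hs_gN (j : J) : sy.HS (gN j) := by
  refine hs_rn (Fx_mem {j}) (fun t => sy.hs_opN (sy.hs_check _) (sy.hs_check _)) ?_
  intro g hg p
  have h1 := act_gN g j p
  have h2 : (g : Gp).1 j = j := hg j (Finset.mem_singleton_self j)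
  rwa [h2] at h1

/-- The basic names. -/
def base : Set (PName Cd) :=
  {check A0, check Lam} ∪ (Set.range fun i : ℕ => check (Om i)) ∪ Set.range gN

theorem ctb_base : base.Countable :=
  ((Set.toFinite _).countable.union (Set.countable_range _)).union (Set.countable_range _)

theorem exists_gd (A : Set (PName Cd)) (hA : A.Countable) (p : Cd) :
    ∃ π : Pkg Cd, base ⊆ π.N ∧ ClR RR π ∧ sy.Cld π ∧ A ⊆ π.N ∧ π.g 0 = p := by
  obtain ⟨π, h1, h2, h3⟩ := exists_pkg (sy.rules ∪ RR)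
    ((by unfold Sys.rules; exact (Set.toFinite _).countable : sy.rules.Countable).union
      RR_countable) (A ∪ base) (hA.union ctb_base) p
  exact ⟨π, fun x hx => h1 (Or.inr hx), fun ρ hρ => h3 ρ (Or.inr hρ),
    fun ρ hρ => h3 ρ (Or.inl hρ), fun x hx => h1 (Or.inl hx), h2⟩

theorem hat_Ms {π : Pkg Cd} {x : ZFSet.{0}} (hx : x ∈ π.Z) : π.hat x ∈ sy.Ms π :=
  val_Ms hx (sy.hs_check x)

theorem V_Ms {π : Pkg Cd} : π.V ⊆ sy.Ms π := by
  rintro _ ⟨x, hx, rfl⟩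
  exact hat_Ms hx

theorem n_pn {π : Pkg Cd} {t : ℕ × La} (h : (check (ol t.2) : PName Cd) ∈ π.N) : pn t ∈ π.N :=
  π.opN_mem (check_nat_N π t.1) h

theorem val_pn {π : Pkg Cd} {t : ℕ × La} (h : (check (ol t.2) : PName Cd) ∈ π.N) :
    π.val (pn t) = pair (nat t.1) (π.hat (ol t.2)) := by
  unfold pn
  rw [π.val_opN (check_nat_N π t.1) h, val_check_nat]
  rfl

theorem mem_gN {π : Pkg Cd} {j : J} {z : ZFSet.{0}} : z ∈ π.val (gN j) ↔
    ∃ n l, (check (ol l) : PName Cd) ∈ π.N ∧ (∃ k, (j, n, l) ∈ (π.g k).F) ∧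
      z = pair (nat n) (π.hat (ol l)) := by
  unfold gN
  rw [mem_rn (T := ℕ × La) (C := fun t q => (j, t.1, t.2) ∈ q.F)
    fun t p q h h' => Cd.le_def.1 h h']
  constructor
  · rintro ⟨⟨n, l⟩, h1, h2, rfl⟩
    have h3 : (check (ol l) : PName Cd) ∈ π.N := π.snd_mem h1
    exact ⟨n, l, h3, h2, val_pn h3⟩
  · rintro ⟨n, l, h1, h2, rfl⟩
    exact ⟨(n, l), n_pn h1, h2, val_pn h1⟩

/-- Adding a fact. -/
theorem exists_fact (j : J) (l : La) (h : Lv j.1 l) (p : Cd) :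
    ∃ q ≤ p, ∃ n, (j, n, l) ∈ q.F := by
  classical
  obtain ⟨N, hN⟩ := (p.fin.image fun x => x.2.1).bddAbove
  have hn : ∀ l', (j, N + 1, l') ∉ p.F := fun l' h' => by
    have : N + 1 ≤ N := hN ⟨_, h', rfl⟩
    omega
  refine ⟨⟨insert (j, N + 1, l) p.F, p.fin.insert _, ?_, ?_⟩, fun x hx => Or.inr hx, N + 1,
    Or.inl rfl⟩
  · rintro j' n' l1 l2 (h1 | h1) (h2 | h2)
    · simp only [Prod.mk.injEq] at h1 h2
      rw [h1.2.2, h2.2.2]
    · simp only [Prod.mk.injEq] at h1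
      obtain ⟨rfl, rfl, rfl⟩ := h1
      exact absurd h2 (hn _)
    · simp only [Prod.mk.injEq] at h2
      obtain ⟨rfl, rfl, rfl⟩ := h2
      exact absurd h1 (hn _)
    · exact p.fn _ _ _ _ h1 h2
  · rintro j' n' l' (h1 | h1)
    · simp only [Prod.mk.injEq] at h1
      obtain ⟨rfl, rfl, rfl⟩ := h1
      exact h
    · exact p.lv _ _ _ h1

section

variable {π : Pkg Cd} (hb : base ⊆ π.N)

include hb

theorem n_gN (j : J) : gN j ∈ π.N := hb (Or.inr ⟨j, rfl⟩)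

theorem Z_Om (i : ℕ) : Om i ∈ π.Z := hb (Or.inl (Or.inr ⟨i, rfl⟩))

theorem Z_A0 : A0 ∈ π.Z := hb (Or.inl (Or.inl (by simp)))

theorem Z_Lam : Lam ∈ π.Z := hb (Or.inl (Or.inl (by simp)))

/-- The generic enumerations are surjective. -/
theorem gN_surj (j : J) {a : ZFSet.{0}} (ha : a ∈ π.hat (Om j.1)) :
    ∃ n : ℕ, pair (nat n) a ∈ π.val (gN j) := by
  obtain ⟨a, h1, h2, rfl⟩ := π.mem_hat.1 ha
  obtain ⟨l, hl, rfl⟩ := mem_Om.1 h1
  have hS : ({gN j, check ZFSet.omega, check (ol l)} : Set (PName Cd)) ⊆ π.N := by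
    rintro z (rfl | rfl | rfl)
    · exact n_gN hb j
    · exact π.om
    · exact h2
  have hR : NDfn ({gN j, check ZFSet.omega, check (ol l)} : Set (PName Cd))
      fun π (_ : Fin 0 → ZFSet.{0}) => ∃ n ∈ π.hat ZFSet.omega,
        pair n (π.hat (ol l)) ∈ π.val (gN j) := by
    refine NDfn.bex (NDfnF.hat (by simp)) ?_
    exact NDfn.mem (NDfnF.pair (NDfnF.proj 0) (NDfnF.hat (by simp))) (NDfnF.val (by simp))
  obtain ⟨n, hn, h3⟩ := dens hR (fun p => by
    obtain ⟨q, hq, n, hn⟩ := exists_fact j l hl p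
    obtain ⟨π', h3, h4, h5⟩ := pkg {gN j, check ZFSet.omega, check (ol l)}
      (Set.toFinite _).countable q
    refine ⟨π', h3, ⟨0, (h5 0).trans hq⟩, nat n, nat_mem_hat π' n, ?_⟩
    exact mem_gN.2 ⟨n, l, h3 (by simp), ⟨0, h5 0 hn⟩, rfl⟩) π hS
  rw [π.hat_omega] at hn
  obtain ⟨m, rfl⟩ := mem_omega_iff.1 hn
  exact ⟨m, h3⟩

omit hb in
theorem gN_fn {j : J} {a b b' : ZFSet.{0}} (h : pair a b ∈ π.val (gN j))
    (h' : pair a b' ∈ π.val (gN j)) : b = b' := by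
  obtain ⟨n, l, h1, ⟨k, h2⟩, h3⟩ := mem_gN.1 h
  obtain ⟨n', l', h4, ⟨k', h5⟩, h6⟩ := mem_gN.1 h'
  obtain ⟨rfl, rfl⟩ := ZFSet.pair_inj.1 h3
  obtain ⟨h7, rfl⟩ := ZFSet.pair_inj.1 h6
  obtain rfl := nat_injective h7
  have h8 := (π.g (max k k')).fn _ _ _ _ (π.g_le_left k k' h2) (π.g_le_right k k' h5)
  rw [h8]

/-- The cardinals are countable in the model. -/
theorem ctb_Om (hcl : sy.Cld π) (i : ℕ) : Ctb (sy.Ms π) (π.hat (Om i)) := by
  have hM := zf_Ms hcl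
  have hB := hM.base
  have hG : π.val (gN (i, 0)) ∈ sy.Ms π := val_Ms (n_gN hb _) (hs_gN _)
  set G := π.val (gN (i, 0)) with hGdef
  let h : ZFSet.{0} → ZFSet.{0} := fun a => lo (sy.Ms π) fun n => n ∈ ZFSet.omega ∧ pair n a ∈ G
  have hh : ∀ a ∈ π.hat (Om i), h a ∈ ZFSet.omega ∧ pair (h a) a ∈ G := by
    intro a ha
    obtain ⟨n, hn⟩ := gN_surj hb (i, 0) ha
    exact (lo_spec (M := sy.Ms π) (P := fun n => n ∈ ZFSet.omega ∧ pair n a ∈ G)
      ⟨nat n, hM.nat_mem n, isOrdinal_omega.mem (nat_mem_omega n), nat_mem_omega n, hn⟩).2.2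
  refine Inj.of_fun hM (hat_Ms (Z_Om hb i)) hM.infinity (h := h) ?_ (fun a ha => (hh a ha).1) ?_
  · refine hM.lo' (Q := fun n v => n ∈ ZFSet.omega ∧ pair n (v 0) ∈ G) (Dfn.and ?_ ?_)
    · exact Dfn.mem (DfnF.proj 0) (DfnF.const hM.infinity)
    · exact Dfn.mem (hB.pair' (DfnF.proj 0) (DfnF.proj 1)) (DfnF.const hG)
  · intro a ha a' ha' h1
    have h2 := (hh a ha).2
    have h3 := (hh a' ha').2
    rw [h1] at h2
    exact gN_fn h2 h3

theorem ctb_A0 : Ctb (sy.Ms π) (π.hat A0) := by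
  obtain ⟨f, hf, h1⟩ := π.exists_inj_V (Z_A0 hb) π.omega_Z (by
    apply exists_isInj
    rw [card_omega]
    have h1 : (A0 : ZFSet.{0}).card ≤ (ZFSet.omega : ZFSet.{0}).card := by
      have h2 : A0 = im (fun x => ZFSet.sep (fun y => ∃ i, x = nat i ∧ y ∈ Om i) Lam)
          ZFSet.omega := by
        have h3 : ∀ i, ZFSet.sep (fun y => ∃ k, nat i = nat k ∧ y ∈ Om k) Lam = Om i := by
          intro i
          ext y
          rw [ZFSet.mem_sep]
          constructor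
          · rintro ⟨-, k, h4, h5⟩
            rwa [nat_injective h4]
          · intro h4
            obtain ⟨l, -, rfl⟩ := mem_Om.1 h4
            exact ⟨mem_Lam.2 ⟨l, rfl⟩, i, rfl, h4⟩
        ext x
        rw [mem_A0, mem_im]
        constructor
        · rintro ⟨i, rfl⟩
          exact ⟨nat i, nat_mem_omega i, (h3 i).symm⟩
        · rintro ⟨y, hy, rfl⟩
          obtain ⟨i, rfl⟩ := mem_omega_iff.1 hy
          exact ⟨i, (h3 i).symm⟩
      rw [h2]
      exact card_im_le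
    rwa [card_omega] at h1)
  rw [π.hat_omega] at h1
  exact ⟨f, V_Ms hf, h1⟩

theorem mem_hat_A0 {x : ZFSet.{0}} : x ∈ π.hat A0 ↔ ∃ i, x = π.hat (Om i) := by
  rw [π.mem_hat]
  constructor
  · rintro ⟨y, h1, h2, rfl⟩
    obtain ⟨i, rfl⟩ := mem_A0.1 h1
    exact ⟨i, rfl⟩
  · rintro ⟨i, rfl⟩
    exact ⟨Om i, mem_A0.2 ⟨i, rfl⟩, Z_Om hb i, rfl⟩

theorem hat_Lam_sub {x : ZFSet.{0}} (hx : x ∈ π.hat Lam) : ∃ i, x ∈ π.hat (Om i) := by
  obtain ⟨y, h1, h2, rfl⟩ := π.mem_hat.1 hx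
  obtain ⟨l, rfl⟩ := mem_Lam.1 h1
  obtain ⟨i, hi⟩ := exists_Lv l
  exact ⟨i, (π.hat_mem_hat h2 (Z_Om hb i)).2 (mem_Om.2 ⟨l, hi, rfl⟩)⟩

end

end Pool.Agent.R596.FC
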