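import Pool.Agent.R596.SyTool

/-!
# The notion of forcing
-/

set_option autoImplicit false
set_option linter.all false

namespace Pool.Agent.R596.FC

open Pool.Agent.W868 Pool.Agent.W868.PName Pool.Agent.R596.SY
open ZFSet (pair)

/-- The values: the ordinals below the limit of all `ω_i`. -/
abbrev La : Type := (Cardinal.aleph Ordinal.omega0.{0}).ord.ToType

/-- The ordinal of a value. -/
noncomputable def oo (l : La) : Ordinal.{0} := Ordinal.typein (α := La) (· < ·) l

theorem oo_injective : Function.Injective oo := Ordinal.typein_injective _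

/-- The value is less than `ω_i`. -/
def Lv (i : ℕ) (l : La) : Prop := oo l < (Cardinal.aleph (i : Ordinal.{0})).ord

/-- The indices: the pair `(i, c)` stands for the `c`-th enumeration of `ω_i`. -/
abbrev J : Type := ℕ × ℕ

/-- The conditions: finite partial functions. -/
structure Cd where
  F : Set (J × ℕ × La)
  fin : F.Finite
  fn : ∀ j n l l', (j, n, l) ∈ F → (j, n, l') ∈ F → l = l'
  lv : ∀ j n l, (j, n, l) ∈ F → Lv j.1 l

namespace Cd

theorem ext' {p q : Cd} (h : p.F = q.F) : p = q := by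
  cases p; cases q; cases h; rfl

instance : Preorder Cd where
  le p q := q.F ⊆ p.F
  le_refl _ := subset_rfl
  le_trans _ _ _ h h' := h'.trans h

instance : OrderTop Cd where
  top := ⟨∅, Set.finite_empty, fun _ _ _ _ h => absurd h (Set.notMem_empty _),
    fun _ _ _ h => absurd h (Set.notMem_empty _)⟩
  le_top _ := Set.empty_subset _

theorem le_def {p q : Cd} : p ≤ q ↔ q.F ⊆ p.F := Iff.rfl

/-- The indices that occur in a condition. -/
def dom (p : Cd) : Set J := Prod.fst '' p.F

theorem dom_fin (p : Cd) : p.dom.Finite := p.fin.image _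

theorem mem_dom {p : Cd} {j : J} {n : ℕ} {l : La} (h : (j, n, l) ∈ p.F) : j ∈ p.dom :=
  ⟨_, h, rfl⟩

/-- Two conditions agree. -/
def Agr (p q : Cd) : Prop := ∀ j n l l', (j, n, l) ∈ p.F → (j, n, l') ∈ q.F → l = l'

/-- The union. -/
def un (p q : Cd) (h : Agr p q) : Cd where
  F := p.F ∪ q.F
  fin := p.fin.union q.fin
  fn := by
    rintro j n l l' (h1 | h1) (h2 | h2)
    · exact p.fn j n l l' h1 h2
    · exact h j n l l' h1 h2
    · exact (h j n l' l h2 h1).symm
    · exact q.fn j n l l' h1 h2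
  lv := by
    rintro j n l (h1 | h1)
    · exact p.lv j n l h1
    · exact q.lv j n l h1

theorem un_le_left {p q : Cd} (h : Agr p q) : un p q h ≤ p := Set.subset_union_left

theorem un_le_right {p q : Cd} (h : Agr p q) : un p q h ≤ q := Set.subset_union_right

theorem un_dom {p q : Cd} (h : Agr p q) : (un p q h).dom = p.dom ∪ q.dom :=
  Set.image_union _ _ _

theorem agr_of_le {p q r : Cd} (h : r ≤ p) (h' : r ≤ q) : Agr p q :=
  fun j n l l' h1 h2 => r.fn j n l l' (h h1) (h' h2)

/-- The restriction. -/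
def res (p : Cd) (S : Set J) : Cd where
  F := {x | x ∈ p.F ∧ x.1 ∈ S}
  fin := p.fin.subset fun _ h => h.1
  fn := fun j n l l' h h' => p.fn j n l l' h.1 h'.1
  lv := fun j n l h => p.lv j n l h.1

theorem le_res (p : Cd) (S : Set J) : p ≤ p.res S := fun _ h => h.1

theorem res_le {p q : Cd} {S : Set J} (h : p ≤ q) (hS : q.dom ⊆ S) : p.res S ≤ q :=
  fun x hx => ⟨h hx, hS ⟨x, hx, rfl⟩⟩

theorem res_dom (p : Cd) (S : Set J) : (p.res S).dom ⊆ S := by
  rintro _ ⟨x, hx, rfl⟩
  exact hx.2

end Cd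

/-- The group: the permutations of the indices that preserve the first coordinate. -/
def Gp : Subgroup (Equiv.Perm J) where
  carrier := {g | ∀ j, (g j).1 = j.1}
  one_mem' := fun _ => rfl
  mul_mem' := fun {a b} ha hb j => by
    rw [Equiv.Perm.mul_apply, ha, hb]
  inv_mem' := fun {a} ha j => by
    have := ha (a.symm j)
    rw [Equiv.apply_symm_apply] at this
    exact this.symm

theorem fst_g (g : Gp) (j : J) : (g.1 j).1 = j.1 := g.2 j

/-- The action on the facts. -/
def mf (g : Gp) (x : J × ℕ × La) : J × ℕ × La := (g.1 x.1, x.2)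

/-- The action on the conditions. -/
def mc (g : Gp) (p : Cd) : Cd where
  F := mf g '' p.F
  fin := p.fin.image _
  fn := by
    rintro j n l l' ⟨⟨j1, n1, l1⟩, h1, h2⟩ ⟨⟨j3, n3, l3⟩, h3, h4⟩
    simp only [mf, Prod.mk.injEq] at h2 h4
    obtain ⟨h5, rfl, rfl⟩ := h2
    obtain ⟨h6, rfl, rfl⟩ := h4
    obtain rfl := g.1.injective (h5.trans h6.symm)
    exact p.fn _ _ _ _ h1 h3
  lv := by
    rintro j n l ⟨⟨j1, n1, l1⟩, h1, h2⟩
    simp only [mf, Prod.mk.injEq] at h2
    obtain ⟨rfl, rfl, rfl⟩ := h2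
    rw [fst_g]
    exact p.lv _ _ _ h1

theorem mem_mc {g : Gp} {p : Cd} {j : J} {n : ℕ} {l : La} :
    (g.1 j, n, l) ∈ (mc g p).F ↔ (j, n, l) ∈ p.F := by
  constructor
  · rintro ⟨⟨j1, n1, l1⟩, h1, h2⟩
    simp only [mf, Prod.mk.injEq] at h2
    obtain ⟨h5, rfl, rfl⟩ := h2
    rwa [← g.1.injective h5]
  · exact fun h => ⟨_, h, rfl⟩

theorem mem_mc' {g : Gp} {p : Cd} {j : J} {n : ℕ} {l : La} :
    (j, n, l) ∈ (mc g p).F ↔ ((g⁻¹).1 j, n, l) ∈ p.F := by
  have h1 : g.1 ((g⁻¹).1 j) = j := Equiv.apply_symm_apply g.1 j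
  conv_lhs => rw [← h1]
  rw [mem_mc]

theorem mc_dom (g : Gp) (p : Cd) : (mc g p).dom = g.1 '' p.dom := by
  unfold Cd.dom mc
  rw [Set.image_image, Set.image_image]
  rfl

theorem mc_mul (g h : Gp) (p : Cd) : mc (g * h) p = mc g (mc h p) := by
  apply Cd.ext'
  change mf (g * h) '' p.F = mf g '' (mf h '' p.F)
  rw [Set.image_image]
  rfl

theorem mc_one (p : Cd) : mc 1 p = p := by
  apply Cd.ext'
  change mf 1 '' p.F = p.F
  have : mf 1 = id := by
    funext x
    rfl
  rw [this, Set.image_id]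

/-- The action on the conditions. -/
def ac : Gp →* (Cd ≃o Cd) where
  toFun g :=
    { toFun := mc g
      invFun := mc g⁻¹
      left_inv := fun p => by rw [← mc_mul, inv_mul_cancel, mc_one]
      right_inv := fun p => by rw [← mc_mul, mul_inv_cancel, mc_one]
      map_rel_iff' := by
        intro p q
        constructor
        · intro h
          have h' : (mc g q).F ⊆ (mc g p).F := h
          rintro ⟨j, n, l⟩ hx
          exact mem_mc.1 (h' (mem_mc.2 hx))
        · rintro h _ ⟨x, hx, rfl⟩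
          exact ⟨x, h hx, rfl⟩ }
  map_one' := by
    apply RelIso.ext
    exact mc_one
  map_mul' g h := by
    apply RelIso.ext
    exact mc_mul g h

/-- The stabilizer of a finite set of indices. -/
def Fx (E : Finset J) : Subgroup Gp where
  carrier := {g | ∀ j ∈ E, g.1 j = j}
  one_mem' := fun _ _ => rfl
  mul_mem' := fun {a b} ha hb j hj => by
    change a.1 (b.1 j) = j
    rw [hb j hj, ha j hj]
  inv_mem' := fun {a} ha j hj => by
    change a.1.symm j = j
    rw [Equiv.symm_apply_eq]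
    exact (ha j hj).symm

theorem Fx_mono {E E' : Finset J} (h : E ⊆ E') : Fx E' ≤ Fx E :=
  fun _ hg j hj => hg j (h hj)

/-- The symmetric system. -/
def sy : Sys Cd where
  G := Gp
  grp := inferInstance
  ac := ac
  top g := by
    apply Cd.ext'
    exact Set.image_empty _
  F := {H | ∃ E, H = Fx E}
  ne := ⟨Fx ∅, ∅, rfl⟩
  conj := by
    rintro H ⟨E, rfl⟩ g
    refine ⟨Fx (E.image g.1), ⟨_, rfl⟩, fun k hk j hj => ?_⟩
    have h1 : k.1 (g.1 j) = g.1 j := hk (g.1 j) (Finset.mem_image_of_mem _ hj)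
    change g.1.symm (k.1 (g.1 j)) = j
    rw [h1, Equiv.symm_apply_apply]
  dir := by
    rintro H ⟨E, rfl⟩ K ⟨E', rfl⟩
    exact ⟨Fx (E ∪ E'), ⟨_, rfl⟩, Fx_mono Finset.subset_union_left,
      Fx_mono Finset.subset_union_right⟩

theorem Fx_mem (E : Finset J) : Fx E ∈ sy.F := ⟨E, rfl⟩

/-! ### Moving finite sets -/

/-- Extension of a finite partial map to an element of the group. -/
theorem exists_ext (S : Set J) (hS : S.Finite) : ∀ φ : J → J, (∀ j ∈ S, (φ j).1 = j.1) →
    Set.InjOn φ S → ∃ g : Gp, ∀ j ∈ S, g.1 j = φ j := by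
  induction S, hS using Set.Finite.induction_on with
  | empty => exact fun φ _ _ => ⟨1, fun j hj => absurd hj (Set.notMem_empty _)⟩
  | @insert a s ha hs ih =>
    intro φ h1 h2
    obtain ⟨g, hg⟩ := ih φ (fun j hj => h1 j (Set.mem_insert_of_mem _ hj))
      (h2.mono (Set.subset_insert _ _))
    have hfst : (φ a).1 = a.1 := h1 a (Set.mem_insert _ _)
    refine ⟨⟨Equiv.swap (g.1 a) (φ a) * g.1, fun j => ?_⟩, fun j hj => ?_⟩
    · rw [Equiv.Perm.mul_apply, Equiv.swap_apply_def]
      split_ifs with h3 h4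
      · rw [hfst, ← g.1.injective h3]
      · rw [fst_g, ← hfst, ← h4, fst_g]
      · exact fst_g g j
    · change Equiv.swap (g.1 a) (φ a) (g.1 j) = φ j
      rcases hj with rfl | hj
      · rw [Equiv.swap_apply_left]
      · rw [Equiv.swap_apply_of_ne_of_ne, hg j hj]
        · exact fun h3 => ha (g.1.injective h3 ▸ hj)
        · rw [hg j hj]
          intro h3
          exact ha (h2 (Set.mem_insert_of_mem _ hj) (Set.mem_insert _ _) h3 ▸ hj)

/-- A bound for the second coordinates. -/
theorem exists_bd (S : Set J) (hS : S.Finite) : ∃ N, ∀ j ∈ S, j.2 < N := by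
  obtain ⟨N, hN⟩ := (hS.image Prod.snd).bddAbove
  exact ⟨N + 1, fun j hj => Nat.lt_succ_of_le (hN ⟨j, hj, rfl⟩)⟩

/-- There is an element of the group that agrees with a given one on `A` and moves all other
elements of the finite set `S` away from the finite set `B`. -/
theorem exists_fresh (A S B : Set J) (hA : A.Finite) (hS : S.Finite) (hB : B.Finite) (g : Gp) :
    ∃ h : Gp, (∀ j ∈ A, h.1 j = g.1 j) ∧ ∀ j ∈ S, j ∉ A → h.1 j ∉ B := by
  classical
  obtain ⟨N, hN⟩ := exists_bd (B ∪ g.1 '' A) (hB.union (hA.image _))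
  obtain ⟨h, hh⟩ := exists_ext (A ∪ S) (hA.union hS)
    (fun j => if j ∈ A then g.1 j else (j.1, j.2 + N)) (fun j _ => by
      split_ifs
      · exact fst_g g j
      · rfl) (by
      intro a _ b _ hab
      dsimp only at hab
      split_ifs at hab with h1 h2 h2
      · exact g.1.injective hab
      · have := hN _ (Or.inr ⟨a, h1, rfl⟩)
        rw [hab] at this
        simp at this
      · have := hN _ (Or.inr ⟨b, h2, rfl⟩)
        rw [← hab] at this
        simp at this
      · rw [Prod.mk.injEq] at hab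
        exact Prod.ext hab.1 (by omega))
  refine ⟨h, fun j hj => ?_, fun j hj hjA hjB => ?_⟩
  · rw [hh j (Or.inl hj), if_pos hj]
  · have h1 := hN _ (Or.inl hjB)
    rw [hh j (Or.inr hj), if_neg hjA] at h1
    simp at h1

end Pool.Agent.R596.FC
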