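import Pool.Agent.R596.FcOne

/-!
# A product of compact metrizable spaces that is not separable
-/

set_option autoImplicit false
set_option linter.all false

namespace Pool.Agent.R596.FC

open Pool.Agent.W868 Pool.Agent.W868.PName Pool.Agent.R596.SY Pool.Agent.R596Fc
open ZFSet (pair)

/-- The additional basic names. -/
noncomputable def base2 : Set (PName Cd) := {check (seq Om), check R0}

theorem exists_gd2 : ∃ π : Pkg Cd, base ⊆ π.N ∧ ClR RR π ∧ sy.Cld π ∧ base2 ⊆ π.N := by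
  obtain ⟨π, h1, h2, h3, h4, -⟩ := exists_gd base2 (by
    unfold base2
    exact (Set.toFinite _).countable) ⊤
  exact ⟨π, h1, h2, h3, h4⟩

section

variable {π : Pkg Cd} (hb : base ⊆ π.N) (hb2 : base2 ⊆ π.N)

include hb hb2

omit hb in
theorem R0_Ms : R0 ∈ sy.Ms π := by
  have hZ : R0 ∈ π.Z := hb2 (by simp [base2])
  have h1 : π.hat R0 = R0 := by
    have h2 : ∀ m c b : ℕ, pair (nat m) (pair (nat c) (nat b)) ∈ π.Z ∧
        π.hat (pair (nat m) (pair (nat c) (nat b))) = pair (nat m) (pair (nat c) (nat b)) := by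
      intro m c b
      have h3 := π.pair_mem_Z (π.nat_Z c) (π.nat_Z b)
      refine ⟨π.pair_mem_Z (π.nat_Z m) h3, ?_⟩
      rw [π.hat_pair (π.nat_Z m) h3, π.hat_pair (π.nat_Z c) (π.nat_Z b), π.hat_nat, π.hat_nat,
        π.hat_nat]
    ext z
    rw [π.mem_hat]
    constructor
    · rintro ⟨y, hy, -, rfl⟩
      obtain ⟨-, m, c, b, rfl, -⟩ := ZFSet.mem_sep.1 hy
      rw [(h2 m c b).2]
      exact hy
    · intro hz
      obtain ⟨-, m, c, b, rfl, -⟩ := ZFSet.mem_sep.1 hz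
      exact ⟨_, hz, (h2 m c b).1, (h2 m c b).2⟩
  rw [← h1]
  exact hat_Ms hZ

theorem seqOm_Ms : seq (fun n => π.hat (Om n)) ∈ sy.Ms π := by
  have hZ : seq Om ∈ π.Z := hb2 (by simp [base2])
  have h1 : π.hat (seq Om) = seq fun n => π.hat (Om n) := by
    ext z
    rw [π.mem_hat, mem_seq]
    constructor
    · rintro ⟨y, hy, -, rfl⟩
      obtain ⟨n, rfl⟩ := mem_seq.1 hy
      exact ⟨n, by rw [π.hat_pair (π.nat_Z n) (Z_Om hb n), π.hat_nat]⟩
    · rintro ⟨n, rfl⟩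
      refine ⟨pair (nat n) (Om n), mem_seq.2 ⟨n, rfl⟩, π.pair_mem_Z (π.nat_Z n) (Z_Om hb n), ?_⟩
      rw [π.hat_pair (π.nat_Z n) (Z_Om hb n), π.hat_nat]
  rw [← h1]
  exact hat_Ms hZ

theorem hat_Om_sub (i : ℕ) : π.hat (Om i) ⊆ π.hat Lam := by
  refine π.hat_subset fun x hx => ?_
  obtain ⟨l, -, rfl⟩ := mem_Om.1 hx
  exact mem_Lam.2 ⟨l, rfl⟩

/-- The family of the one-point compactifications of the cardinals. -/
theorem exists_family (hcl : sy.Cld π) : ∃ X τ : ℕ → ZFSet.{0}, IsFamily (sy.Ms π) X τ ∧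
    (∀ n, X n = insert (π.hat (Om n)) (π.hat (Om n))) ∧
    ∀ n U, U ∈ τ n ↔ U ∈ sy.Ms π ∧ U ⊆ insert (π.hat (Om n)) (π.hat (Om n)) ∧
      (π.hat (Om n) ∈ U → {x | x ∈ π.hat (Om n) ∧ x ∉ U}.Finite) := by
  have hM := zf_Ms hcl
  have hB := hM.base
  have hL := hat_Ms (Z_Lam hb)
  have hs := seqOm_Ms hb hb2
  obtain ⟨Q, hQ, hQ'⟩ := hM.exists_pow (hM.insert_mem hL hL)
  have ho : ∀ n, π.hat (Om n) ∈ sy.Ms π := fun n => hat_Ms (Z_Om hb n)
  obtain ⟨K, hK, hK'⟩ := exists_bound hM (s := fun n => insert (π.hat (Om n)) (π.hat (Om n)))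
    (seq_mem hM (F := fun n => insert (ap (seq fun n => π.hat (Om n)) n)
      (ap (seq fun n => π.hat (Om n)) n))
      (hB.insert' (dfn_ap_seq hM hs) (dfn_ap_seq hM hs)) fun n => by rw [ap_seq])
  obtain ⟨Q, hQ, hQ'⟩ := hM.exists_pow hK
  have hK0 : ∀ n, insert (π.hat (Om n)) (π.hat (Om n)) ⊆ K := fun n x hx => (hK' x).2 ⟨n, hx⟩
  refine ⟨fun n => insert (π.hat (Om n)) (π.hat (Om n)), fun n => Tt (sy.Ms π) Q (π.hat (Om n)),
    ⟨?_, ?_, fun n => isTop_Tt hM hQ hQ' (ho n) (hK0 n),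
      fun n => compact_Tt hM hQ hQ' (ho n) (hK0 n),
      fun n => metrizable_Tt hM hQ hQ' (ho n) (hK0 n) (R0_Ms hb2) (ctb_Om hb hcl n)⟩,
      fun n => rfl, fun n U => mem_Tt hM hQ hQ' (ho n) (hK0 n)⟩
  · exact seq_mem hM (F := fun n => insert (ap (seq fun n => π.hat (Om n)) n)
      (ap (seq fun n => π.hat (Om n)) n))
      (hB.insert' (dfn_ap_seq hM hs) (dfn_ap_seq hM hs)) fun n => by rw [ap_seq]
  · exact seq_mem hM (F := fun n => Tt (sy.Ms π) Q (ap (seq fun n => π.hat (Om n)) n))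
      (DfnF.comp1 (f := Tt (sy.Ms π) Q) (dfn_Tt hM hQ) (dfn_ap_seq hM hs))
      fun n => by rw [ap_seq]

/-- The product is not separable. -/
theorem not_cpmcs (hcl : sy.Cld π) : ¬ CPMCS (sy.Ms π) := by
  intro h
  have hM := zf_Ms hcl
  have hB := hM.base
  have hL := hat_Ms (Z_Lam hb)
  obtain ⟨X, τ, hF, hX, hτ⟩ := exists_family hb hb2 hcl
  obtain ⟨P, T, hPT⟩ := exists_prodTop hM hF.set_mem hF.top_mem
  obtain ⟨S, hS, hSP, ⟨e, he, he'⟩, hd⟩ := h X τ P T hF hPT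
  have ho : ∀ n, π.hat (Om n) ∈ sy.Ms π := fun n => hat_Ms (Z_Om hb n)
  have hsO := seqOm_Ms hb hb2
  -- the points with one given coordinate
  have hpt : ∀ i, ∀ a ∈ π.hat (Om i), ∃ f ∈ S, pair (nat i) a ∈ f := by
    intro i a ha
    have haM : a ∈ sy.Ms π := hM.trans _ (ho i) _ ha
    have hV : ({a} : ZFSet.{0}) ∈ τ i := by
      rw [hτ]
      refine ⟨hM.single_mem haM, fun x hx => ?_, fun h1 => ?_⟩
      · rw [ZFSet.mem_singleton] at hx
        exact ZFSet.mem_insert_iff.2 (Or.inr (hx ▸ ha))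
      · rw [ZFSet.mem_singleton] at h1
        rw [← h1] at ha
        exact absurd ha (ZFSet.mem_irrefl _)
    classical
    let s : ℕ → ZFSet.{0} := fun n => if n = i then a else π.hat (Om n)
    have hs : seq s ∈ sy.Ms π := by
      have h1 : seq s = (ZFSet.sep (fun z => fs z ≠ nat i) (seq fun n => π.hat (Om n))) ∪
          {pair (nat i) a} := by
        ext z
        rw [ZFSet.mem_union, ZFSet.mem_sep, ZFSet.mem_singleton, mem_seq, mem_seq]
        constructor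
        · rintro ⟨n, rfl⟩
          by_cases hn : n = i
          · subst hn
            refine Or.inr ?_
            dsimp only [s]
            rw [if_pos rfl]
          · refine Or.inl ⟨⟨n, ?_⟩, ?_⟩
            · dsimp only [s]
              rw [if_neg hn]
            · rw [fs_pair]
              exact fun h => hn (nat_injective h)
        · rintro (⟨⟨n, rfl⟩, h1⟩ | rfl)
          · refine ⟨n, ?_⟩
            rw [fs_pair] at h1
            dsimp only [s]
            rw [if_neg (fun (h : n = i) => h1 (by rw [h]))]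
          · exact ⟨i, by dsimp only [s]; rw [if_pos rfl]⟩
      rw [h1]
      refine hM.union_mem (hM.sep_mem (Q := fun z => fs z ≠ nat i) ?_ hsO)
        (hM.single_mem (hM.pair_mem (hM.nat_mem i) haM))
      exact Dfn.not (Dfn.eq (hM.fs' (DfnF.proj 0)) (DfnF.const (hM.nat_mem i)))
    have hsP : seq s ∈ P := (hPT.prod.2 _).2 ⟨hs, s, rfl, fun n => by
      rw [hX]
      dsimp only [s]
      split_ifs with hn
      · subst hn
        exact ZFSet.mem_insert_iff.2 (Or.inr ha)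
      · exact ZFSet.mem_insert _ _⟩
    obtain ⟨f, hfS, hf⟩ := hd _ (hPT.cyl_mem i {a} hV) ⟨seq s, mem_cyl.2 ⟨hsP, by
      rw [ZFSet.mem_singleton]
      exact if_pos rfl⟩⟩
    obtain ⟨-, x, hx, h1⟩ := ZFSet.mem_sep.1 hf
    rw [ZFSet.mem_singleton] at hx
    exact ⟨f, hfS, hx ▸ h1⟩
  refine not_ctb hb hcl ?_
  have h1 : Inj (sy.Ms π) (ZFSet.prod S ZFSet.omega) ZFSet.omega :=
    Inj.trans hM (hM.prod_mem hS hM.infinity) hM.infinity
      (Inj.prod hM hS hM.infinity hM.infinity hM.infinity ⟨e, he, he'⟩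
        (Inj.of_subset hM hM.infinity hM.infinity fun _ h => h))
      (sq_inj hM hM.infinity isOrdinal_omega fun _ h => h)
  have h2 : DfnF (sy.Ms π) (sy.Ms π) fun w : Fin 1 → ZFSet.{0} => ap (fs (w 0)) (sn (w 0)) :=
    hM.ap' (hM.fs' (DfnF.proj 0)) (hM.sn' (DfnF.proj 0))
  have h3 := Inj.image hM (hM.prod_mem hS hM.infinity) hM.infinity isOrdinal_omega h1
    (h := fun p => ap (fs p) (sn p)) h2
  refine Inj.trans hM hL hM.infinity (Inj.of_subset hM hL
    (hM.im_mem (hM.prod_mem hS hM.infinity) h2) fun a ha => ?_) h3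
  obtain ⟨i, hi⟩ := hat_Lam_sub hb ha
  obtain ⟨f, hfS, hf⟩ := hpt i a hi
  refine mem_im.2 ⟨pair f (nat i), ZFSet.pair_mem_prod.2 ⟨hfS, nat_mem_omega i⟩, ?_⟩
  obtain ⟨-, s, rfl, -⟩ := (hPT.prod.2 f).1 (hSP hfS)
  rw [fs_pair, sn_pair, ap_seq, pair_mem_seq.1 hf]

end

/-- The model. -/
theorem main2 : ∃ M : Set ZFSet.{0}, M.Countable ∧ IsZF M ∧ MCS M ∧ ¬ CPMCS M := by
  obtain ⟨π, hb, hg, hcl, hb2⟩ := exists_gd2
  exact ⟨sy.Ms π, π.countable_W.mono fun x hx => Ms_W hx, zf_Ms hcl, mcs_Ms hg hcl,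
    not_cpmcs hb hb2 hcl⟩

end Pool.Agent.R596.FC
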