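import Pool.Agent.R596.FcBox

/-!
# Products are compact if there is a uniform choice function for closed sets
-/

set_option autoImplicit false
set_option linter.all false

namespace Pool.Agent.R596.FC

open Pool.Agent.W868 Pool.Agent.R596Fc
open ZFSet (pair)

theorem dfnF_comp3 {S M : Set ZFSet.{0}} {n : ℕ} {f : ZFSet.{0} → ZFSet.{0} → ZFSet.{0} → ZFSet.{0}}
    {F G H : (Fin n → ZFSet.{0}) → ZFSet.{0}}
    (h : DfnF S M fun w : Fin 3 → ZFSet.{0} => f (w 0) (w 1) (w 2)) (hF : DfnF S M F)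
    (hG : DfnF S M G) (hH : DfnF S M H) : DfnF S M fun v => f (F v) (G v) (H v) := by
  refine ⟨fun v hv => h.1 ![F v, G v, H v] ?_, ?_⟩
  · intro i
    fin_cases i
    · exact hF.1 v hv
    · exact hG.1 v hv
    · exact hH.1 v hv
  · exact Dfn.comp4 (Q := fun a b c d => a = f b c d) h.2 (DfnF.proj 0) hF.tail hG.tail hH.tail

/-- The set `W` is covered by finitely many elements of `𝒰`. -/
def FCv (M : Set ZFSet.{0}) (𝒰 W : ZFSet.{0}) : Prop :=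
  ∃ F ∈ M, FinI M F ∧ F ⊆ 𝒰 ∧ ∀ f ∈ W, ∃ U ∈ F, f ∈ U

theorem fcv_iff {M : Set ZFSet.{0}} (hM : IsZF M) {𝒰 W : ZFSet.{0}} (h𝒰 : 𝒰 ∈ M) :
    FCv M 𝒰 W ↔ ∃ ℱ : Set ZFSet.{0}, ℱ.Finite ∧ (∀ U ∈ ℱ, U ∈ 𝒰) ∧ ∀ f ∈ W, ∃ U ∈ ℱ, f ∈ U := by
  constructor
  · rintro ⟨F, hF, h1, h2, h3⟩
    exact ⟨{U | U ∈ F}, finite_of_finI h1, fun U hU => h2 hU, h3⟩
  · rintro ⟨ℱ, h1, h2, h3⟩
    obtain ⟨F, hF, h4, -⟩ := finI_aux hM h1 fun U hU => hM.trans _ h𝒰 _ (h2 U hU)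
    refine ⟨F, hF, (finI_iff hM hF).2 ?_, fun U hU => h2 U ((h4 U).1 hU), fun f hf => ?_⟩
    · have : {w | w ∈ F} = ℱ := by
        ext w
        exact h4 w
      rw [this]
      exact h1
    · obtain ⟨U, hU, h5⟩ := h3 f hf
      exact ⟨U, (h4 U).2 hU, h5⟩

/-- The set `W` depends only on the coordinates in `n`. -/
def Dep (P n W : ZFSet.{0}) : Prop := ∀ f ∈ W, ∀ g ∈ P, (∀ i ∈ n, ap f i = ap g i) → g ∈ W

/-- The set `W` contains all points that extend `s`. -/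
def Ex (P n s W : ZFSet.{0}) : Prop := ∀ f ∈ P, (∀ i ∈ n, ap f i = ap s i) → f ∈ W

/-- The partial point `s` is big. -/
def Bg (M : Set ZFSet.{0}) (P T 𝒰 n s : ZFSet.{0}) : Prop :=
  ∀ W ∈ T, Dep P n W → Ex P n s W → ¬ FCv M 𝒰 W

/-- The extension of the partial point `s` by `y` is big. -/
def Bg2 (M : Set ZFSet.{0}) (P T 𝒰 n s y : ZFSet.{0}) : Prop :=
  ∀ W ∈ T, Dep P (insert n n) W →
    (∀ f ∈ P, (∀ i ∈ n, ap f i = ap s i) → ap f n = y → f ∈ W) → ¬ FCv M 𝒰 W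

/-- The open sets of small points. -/
noncomputable def Vs (M : Set ZFSet.{0}) (P T 𝒰 tn n s : ZFSet.{0}) : ZFSet.{0} :=
  ZFSet.sep (fun V => ∃ O ∈ T, Dep P n O ∧ Ex P n s O ∧
    FCv M 𝒰 (ZFSet.sep (fun f => ∃ x ∈ V, pair n x ∈ f) O)) tn

/-- The big extensions. -/
noncomputable def Bs (M : Set ZFSet.{0}) (P T 𝒰 xn n s : ZFSet.{0}) : ZFSet.{0} :=
  ZFSet.sep (fun y => Bg2 M P T 𝒰 n s y) xn

section

variable {M : Set ZFSet.{0}} (hM : IsZF M)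

include hM

theorem dfn_FCv {𝒰 : ZFSet.{0}} (h𝒰 : 𝒰 ∈ M) {n : ℕ} {F : (Fin n → ZFSet.{0}) → ZFSet.{0}}
    (hF : DfnF M M F) : Dfn M M fun v => FCv M 𝒰 (F v) := by
  have hB := hM.base
  have h : Dfn M M fun w : Fin 1 → ZFSet.{0} => FCv M 𝒰 (w 0) := by
    refine Dfn.ex (Dfn.and ?_ (Dfn.and ?_ ?_))
    · refine hB.bex (DfnF.const hM.infinity) (Dfn.ex ?_)
      exact hB.isInj' (DfnF.proj 2) (DfnF.proj 1) (DfnF.proj 0)
    · exact hB.subset' (DfnF.proj 0) (DfnF.const h𝒰)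
    · refine hB.ball (DfnF.proj 1) (hB.bex (DfnF.proj 1) ?_)
      exact Dfn.mem (DfnF.proj 1) (DfnF.proj 0)
  exact Dfn.comp1 (Q := FCv M 𝒰) h hF

theorem dfn_Dep {P : ZFSet.{0}} (hP : P ∈ M) {n : ℕ} {F G : (Fin n → ZFSet.{0}) → ZFSet.{0}}
    (hF : DfnF M M F) (hG : DfnF M M G) : Dfn M M fun v => Dep P (F v) (G v) := by
  have hB := hM.base
  have h : Dfn M M fun w : Fin 2 → ZFSet.{0} => Dep P (w 0) (w 1) := by
    refine hB.ball (DfnF.proj 1) (hB.ball (DfnF.const hP) (Dfn.imp (hB.ball (DfnF.proj 2) ?_) ?_))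
    · exact Dfn.eq (hM.ap' (DfnF.proj 2) (DfnF.proj 0)) (hM.ap' (DfnF.proj 1) (DfnF.proj 0))
    · exact Dfn.mem (DfnF.proj 0) (DfnF.proj 3)
  exact Dfn.comp2 (Q := Dep P) h hF hG

theorem dfn_Ex {P : ZFSet.{0}} (hP : P ∈ M) {n : ℕ} {F G H : (Fin n → ZFSet.{0}) → ZFSet.{0}}
    (hF : DfnF M M F) (hG : DfnF M M G) (hH : DfnF M M H) :
    Dfn M M fun v => Ex P (F v) (G v) (H v) := by
  have hB := hM.base
  have h : Dfn M M fun w : Fin 3 → ZFSet.{0} => Ex P (w 0) (w 1) (w 2) := by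
    refine hB.ball (DfnF.const hP) (Dfn.imp (hB.ball (DfnF.proj 1) ?_) ?_)
    · exact Dfn.eq (hM.ap' (DfnF.proj 1) (DfnF.proj 0)) (hM.ap' (DfnF.proj 3) (DfnF.proj 0))
    · exact Dfn.mem (DfnF.proj 0) (DfnF.proj 3)
  exact Dfn.comp3 (Q := Ex P) h hF hG hH

variable {P T 𝒰 : ZFSet.{0}} (hP : P ∈ M) (hT : T ∈ M) (h𝒰 : 𝒰 ∈ M)

include hP hT h𝒰

theorem dfn_Bs : DfnF M M fun w : Fin 3 → ZFSet.{0} => Bs M P T 𝒰 (w 0) (w 1) (w 2) := by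
  have hB := hM.base
  refine hM.sep' (Q := fun y v => Bg2 M P T 𝒰 (v 1) (v 2) y) (DfnF.proj 0) ?_
  refine hB.ball (DfnF.const hT) (Dfn.imp ?_ (Dfn.imp ?_ (Dfn.not ?_)))
  · exact dfn_Dep hM hP (hB.insert' (DfnF.proj 3) (DfnF.proj 3)) (DfnF.proj 0)
  · refine hB.ball (DfnF.const hP) (Dfn.imp (hB.ball (DfnF.proj 4) ?_) (Dfn.imp ?_ ?_))
    · exact Dfn.eq (hM.ap' (DfnF.proj 1) (DfnF.proj 0)) (hM.ap' (DfnF.proj 6) (DfnF.proj 0))
    · exact Dfn.eq (hM.ap' (DfnF.proj 0) (DfnF.proj 4)) (DfnF.proj 2)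
    · exact Dfn.mem (DfnF.proj 0) (DfnF.proj 1)
  · exact dfn_FCv hM h𝒰 (DfnF.proj 0)

theorem Vs_mem {tn n s : ZFSet.{0}} (htn : tn ∈ M) (hn : n ∈ M) (hs : s ∈ M) :
    Vs M P T 𝒰 tn n s ∈ M := by
  have hB := hM.base
  refine hM.sep_mem (Q := fun V => ∃ O ∈ T, Dep P n O ∧ Ex P n s O ∧
    FCv M 𝒰 (ZFSet.sep (fun f => ∃ x ∈ V, pair n x ∈ f) O)) ?_ htn
  refine hB.bex (DfnF.const hT) (Dfn.and ?_ (Dfn.and ?_ ?_))
  · exact dfn_Dep hM hP (DfnF.const hn) (DfnF.proj 0)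
  · exact dfn_Ex hM hP (DfnF.const hn) (DfnF.const hs) (DfnF.proj 0)
  · refine dfn_FCv hM h𝒰 ?_
    refine hM.sep' (Q := fun f v => ∃ x ∈ v 1, pair n x ∈ f) (DfnF.proj 0) ?_
    refine hB.bex (DfnF.proj 2) ?_
    exact Dfn.mem (hB.pair' (DfnF.const hn) (DfnF.proj 0)) (DfnF.proj 1)

end

section

variable {M : Set ZFSet.{0}} (hM : IsZF M) {X τ : ℕ → ZFSet.{0}} {P T : ZFSet.{0}}
  (hF : IsFamily M X τ) (hPT : IsProdTop M X τ P T) {𝒰 : ZFSet.{0}} (h𝒰 : 𝒰 ∈ M)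

include hM hF hPT h𝒰

/-- Points with small extensions. -/
theorem small_cover {n : ℕ} {s : ZFSet.{0}} (hs : ∀ i < n, ap s (nat i) ∈ X i)
    {c0 : ℕ → ZFSet.{0}} (hc0 : seq c0 ∈ P) {y : ZFSet.{0}} (hy : y ∈ X n)
    (h : ¬ Bg2 M P T 𝒰 (nat n) s y) : ∃ V ∈ Vs M P T 𝒰 (τ n) (nat n) s, y ∈ V := by
  classical
  unfold Bg2 at h
  push Not at h
  obtain ⟨W, hW, hd, he, hc⟩ := h
  let t : ℕ → ZFSet.{0} := fun i => if i < n then ap s (nat i) else y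
  let a : ℕ → ZFSet.{0} := fun i => if i < n + 1 then t i else c0 i
  have ht : ∀ i < n + 1, t i ∈ X i := by
    intro i hi
    rcases Nat.lt_succ_iff_lt_or_eq.1 hi with h1 | rfl
    · dsimp only [t]
      rw [if_pos h1]
      exact hs i h1
    · dsimp only [t]
      rw [if_neg (lt_irrefl _)]
      exact hy
  have hXM : ∀ i, X i ∈ M := of_seq_mem hM hF.set_mem
  have haP : seq a ∈ P := by
    refine (mem_P hPT).2 ⟨splice_mem hM ((mem_P hPT).1 hc0).1 fun i hi =>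
      hM.trans _ (hXM i) _ (ht i hi), fun i => ?_⟩
    dsimp only [a]
    split_ifs with hi
    · exact ht i hi
    · exact ((mem_P hPT).1 hc0).2 i
  have a1 : ∀ i < n, a i = ap s (nat i) := by
    intro i hi
    dsimp only [a, t]
    rw [if_pos (Nat.lt_succ_of_lt hi), if_pos hi]
  have a2 : a n = y := by
    dsimp only [a, t]
    rw [if_pos (Nat.lt_succ_self n), if_neg (lt_irrefl _)]
  have haW : seq a ∈ W := by
    refine he _ haP (fun i' hi' => ?_) ?_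
    · obtain ⟨i, hi, rfl⟩ := mem_nat.1 hi'
      rw [ap_seq, a1 i hi]
    · rw [ap_seq, a2]
  obtain ⟨m, V, hV, hVW⟩ := std hM hF hPT hW haW
  refine ⟨V n, ZFSet.mem_sep.2 ⟨(hV n).1, box P n V, box_mem hPT fun i _ => (hV i).1,
    ?_, ?_, ?_⟩, a2 ▸ (hV n).2⟩
  · intro f hf g hg h1
    obtain ⟨b, rfl, -⟩ := P_seq hPT (ZFSet.mem_sep.1 hf).1
    obtain ⟨c, rfl, -⟩ := P_seq hPT hg
    refine mem_box.2 ⟨hg, fun i hi => ?_⟩
    have h2 := h1 (nat i) (nat_mem_nat hi)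
    rw [ap_seq, ap_seq] at h2
    rw [← h2]
    exact (mem_box.1 hf).2 i hi
  · intro f hf h1
    obtain ⟨b, rfl, -⟩ := P_seq hPT hf
    refine mem_box.2 ⟨hf, fun i hi => ?_⟩
    have h2 := h1 (nat i) (nat_mem_nat hi)
    rw [ap_seq, ← a1 i hi] at h2
    rw [h2]
    exact (hV i).2
  · obtain ⟨F, hF1, hF2, hF3, hF4⟩ := hc
    refine ⟨F, hF1, hF2, hF3, fun f hf => hF4 f ?_⟩
    obtain ⟨hf1, x, hx, hf2⟩ := ZFSet.mem_sep.1 hf
    have hfP : f ∈ P := (ZFSet.mem_sep.1 hf1).1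
    obtain ⟨b, rfl, hb⟩ := P_seq hPT hfP
    obtain rfl := pair_mem_seq.1 hf2
    have hb1 := (mem_box.1 hf1).2
    have hb2 : seq (fun i => if i < n + 1 then b i else a i) ∈ P := by
      refine (mem_P hPT).2 ⟨splice_mem hM ((mem_P hPT).1 haP).1 fun i _ =>
        hM.trans _ (hXM i) _ (hb i), fun i => ?_⟩
      split_ifs with hi
      · exact hb i
      · exact ((mem_P hPT).1 haP).2 i
    have hb3 : seq (fun i => if i < n + 1 then b i else a i) ∈ W := by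
      refine hVW (mem_box.2 ⟨hb2, fun i _ => ?_⟩)
      split_ifs with hi
      · rcases Nat.lt_succ_iff_lt_or_eq.1 hi with h1 | rfl
        · exact hb1 i h1
        · exact hx
      · exact (hV i).2
    refine hd _ hb3 _ hfP fun i' hi' => ?_
    obtain ⟨i, hi, rfl⟩ := (mem_nat (n := n + 1)).1 hi'
    rw [ap_seq, ap_seq, if_pos hi]

/-- Points in the small open sets. -/
theorem not_big_of_mem {n : ℕ} {s V y : ZFSet.{0}} (hV : V ∈ Vs M P T 𝒰 (τ n) (nat n) s)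
    (hy : y ∈ V) : ¬ Bg2 M P T 𝒰 (nat n) s y := by
  intro h
  obtain ⟨hVτ, O, hO, hd, he, hc⟩ := ZFSet.mem_sep.1 hV
  have hOP := hPT.top.sub O hO
  refine h (O ∩ cyl P n V) (hPT.top.inter _ hO _ (hPT.cyl_mem n V hVτ)) ?_ ?_ ?_
  · intro f hf g hg h1
    obtain ⟨h2, h3⟩ := ZFSet.mem_inter.1 hf
    obtain ⟨a, rfl, -⟩ := P_seq hPT (hOP h2)
    obtain ⟨b, rfl, -⟩ := P_seq hPT hg
    refine ZFSet.mem_inter.2 ⟨hd _ h2 _ hg fun i hi => h1 i (ZFSet.mem_insert_iff.2 (Or.inr hi)),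
      mem_cyl.2 ⟨hg, ?_⟩⟩
    have h4 := h1 (nat n) (ZFSet.mem_insert _ _)
    rw [ap_seq, ap_seq] at h4
    rw [← h4]
    exact (mem_cyl.1 h3).2
  · intro f hf h1 h2
    obtain ⟨a, rfl, -⟩ := P_seq hPT hf
    refine ZFSet.mem_inter.2 ⟨he _ hf h1, mem_cyl.2 ⟨hf, ?_⟩⟩
    rw [ap_seq] at h2
    rwa [h2]
  · obtain ⟨F, hF1, hF2, hF3, hF4⟩ := hc
    refine ⟨F, hF1, hF2, hF3, fun f hf => hF4 f ?_⟩
    obtain ⟨h2, h3⟩ := ZFSet.mem_inter.1 hf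
    exact ZFSet.mem_sep.2 ⟨h2, (ZFSet.mem_sep.1 h3).2⟩

/-- Big partial points have big extensions. -/
theorem exists_big {n : ℕ} {s : ZFSet.{0}} (hsM : s ∈ M) (hs : ∀ i < n, ap s (nat i) ∈ X i)
    {c0 : ℕ → ZFSet.{0}} (hc0 : seq c0 ∈ P) (h : Bg M P T 𝒰 (nat n) s) :
    ∃ y ∈ X n, Bg2 M P T 𝒰 (nat n) s y := by
  by_contra hcon
  push Not at hcon
  have hV := Vs_mem hM hPT.prod.1 hPT.top.top_mem h𝒰 (of_seq_mem hM hF.top_mem n)
    (hM.nat_mem n) hsM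
  obtain ⟨ℱ, hf, hf1, hf2⟩ := hF.compact n _ hV (fun V hV => (ZFSet.mem_sep.1 hV).1)
    fun y hy => small_cover hM hF hPT h𝒰 hs hc0 hy (hcon y hy)
  have key : ∀ 𝒢 : Set ZFSet.{0}, 𝒢.Finite → (∀ V ∈ 𝒢, V ∈ Vs M P T 𝒰 (τ n) (nat n) s) →
      ∃ O ∈ T, Dep P (nat n) O ∧ Ex P (nat n) s O ∧ ∃ ℋ : Set ZFSet.{0}, ℋ.Finite ∧
        (∀ U ∈ ℋ, U ∈ 𝒰) ∧ ∀ f ∈ O, (∃ V ∈ 𝒢, ∃ x ∈ V, pair (nat n) x ∈ f) →
          ∃ U ∈ ℋ, f ∈ U := by
    intro 𝒢 h5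
    induction 𝒢, h5 using Set.Finite.induction_on with
    | empty =>
      intro _
      exact ⟨P, hPT.top.univ, fun f _ g hg _ => hg, fun f hf _ => hf, ∅, Set.finite_empty,
        fun U hU => absurd hU (Set.notMem_empty _),
        fun f _ ⟨V, hV, _⟩ => absurd hV (Set.notMem_empty _)⟩
    | @insert V 𝒢 hVn hfin ih =>
      intro h6
      obtain ⟨O, hO, hd, he, ℋ, h7, h8, h9⟩ := ih fun U hU => h6 U (Set.mem_insert_of_mem _ hU)
      obtain ⟨hVτ, O', hO', hd', he', hc⟩ := ZFSet.mem_sep.1 (h6 V (Set.mem_insert _ _))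
      obtain ⟨ℋ', h10, h11, h12⟩ := (fcv_iff hM h𝒰).1 hc
      refine ⟨O ∩ O', hPT.top.inter _ hO _ hO', fun f hf g hg h13 => ?_, fun f hf h13 => ?_,
        ℋ ∪ ℋ', h7.union h10, ?_, fun f hf => ?_⟩
      · obtain ⟨h14, h15⟩ := ZFSet.mem_inter.1 hf
        exact ZFSet.mem_inter.2 ⟨hd _ h14 _ hg h13, hd' _ h15 _ hg h13⟩
      · exact ZFSet.mem_inter.2 ⟨he _ hf h13, he' _ hf h13⟩
      · rintro U (hU | hU)
        · exact h8 U hU
        · exact h11 U hU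
      · obtain ⟨h14, h15⟩ := ZFSet.mem_inter.1 hf
        rintro ⟨V', rfl | hV', h16⟩
        · obtain ⟨U, hU, h17⟩ := h12 f (ZFSet.mem_sep.2 ⟨h15, h16⟩)
          exact ⟨U, Or.inr hU, h17⟩
        · obtain ⟨U, hU, h17⟩ := h9 f h14 ⟨V', hV', h16⟩
          exact ⟨U, Or.inl hU, h17⟩
  obtain ⟨O, hO, hd, he, ℋ, h7, h8, h9⟩ := key ℱ hf hf1
  refine h O hO hd he ((fcv_iff hM h𝒰).2 ⟨ℋ, h7, h8, fun f hfO => h9 f hfO ?_⟩)
  obtain ⟨a, rfl, ha⟩ := P_seq hPT (hPT.top.sub O hO hfO)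
  obtain ⟨V, hV1, hV2⟩ := hf2 (a n) (ha n)
  exact ⟨V, hV1, a n, hV2, pair_mem_seq.2 rfl⟩

/-- The set of the big extensions is closed. -/
theorem closed_big {n : ℕ} {s : ZFSet.{0}} (hsM : s ∈ M) (hs : ∀ i < n, ap s (nat i) ∈ X i)
    {c0 : ℕ → ZFSet.{0}} (hc0 : seq c0 ∈ P) :
    ZFSet.sep (fun y => y ∉ Bs M P T 𝒰 (X n) (nat n) s) (X n) ∈ τ n := by
  have hV := Vs_mem hM hPT.prod.1 hPT.top.top_mem h𝒰 (of_seq_mem hM hF.top_mem n)
    (hM.nat_mem n) hsM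
  have h1 : ZFSet.sep (fun y => y ∉ Bs M P T 𝒰 (X n) (nat n) s) (X n) =
      ZFSet.sUnion (Vs M P T 𝒰 (τ n) (nat n) s) := by
    ext y
    rw [ZFSet.mem_sep, ZFSet.mem_sUnion]
    constructor
    · rintro ⟨hy, h2⟩
      exact small_cover hM hF hPT h𝒰 hs hc0 hy fun h3 => h2 (ZFSet.mem_sep.2 ⟨hy, h3⟩)
    · rintro ⟨V, hV, hy⟩
      exact ⟨(hF.top n).sub V (ZFSet.mem_sep.1 hV).1 hy, fun h2 =>
        not_big_of_mem hM hF hPT h𝒰 hV hy (ZFSet.mem_sep.1 h2).2⟩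
  rw [h1]
  exact (hF.top n).union _ hV fun V hV => (ZFSet.mem_sep.1 hV).1

end

/-- Products are compact if there is a uniform choice function for the nonempty closed sets. -/
theorem compact_prod {M : Set ZFSet.{0}} (hM : IsZF M) {X τ : ℕ → ZFSet.{0}} {P T : ZFSet.{0}}
    (hF : IsFamily M X τ) (hPT : IsProdTop M X τ P T) {ch : ZFSet.{0} → ZFSet.{0}}
    (dch : DfnF M M fun w : Fin 1 → ZFSet.{0} => ch (w 0))
    (hch : ∀ n, ∀ C ∈ M, C ⊆ X n → ZFSet.sep (fun y => y ∉ C) (X n) ∈ τ n → (∃ z, z ∈ C) →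
      ch (pair (nat n) C) ∈ C) : Compact M P T := by
  intro 𝒰 h𝒰 hsub hcov
  have hB := hM.base
  have hP := hPT.prod.1
  have hT := hPT.top.top_mem
  by_cases hne : ∃ f, f ∈ P
  swap
  · exact ⟨∅, Set.finite_empty, fun U hU => absurd hU (Set.notMem_empty _),
      fun f hf => absurd ⟨f, hf⟩ hne⟩
  obtain ⟨f0, hf0⟩ := hne
  obtain ⟨c0, rfl, -⟩ := P_seq hPT hf0
  by_contra hcon
  let G : ZFSet.{0} → ZFSet.{0} → ZFSet.{0} := fun z g =>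
    ch (pair z (Bs M P T 𝒰 (ap (seq X) z) z g))
  let F : ZFSet.{0} → ZFSet.{0} := wfF (fun z => z) ZFSet.mem_wf G
  have hFeq : ∀ z, F z = G z (gr F z) := fun z => wfF_eq _ ZFSet.mem_wf G z
  have dF : DfnF M M fun w : Fin 1 → ZFSet.{0} => F (w 0) := by
    refine hM.memrec (G := G) ?_ hFeq
    refine DfnF.comp1 (f := ch) dch (hB.pair' (DfnF.proj 0) ?_)
    exact dfnF_comp3 (f := Bs M P T 𝒰) (dfn_Bs hM hP hT h𝒰)
      (hM.ap' (DfnF.const hF.set_mem) (DfnF.proj 0)) (DfnF.proj 0) (DfnF.proj 1)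
  have hgr : ∀ n : ℕ, gr F (nat n) ∈ M := fun n =>
    hM.im_mem (hM.nat_mem n) (hB.pair' (DfnF.proj 0) dF)
  have hap : ∀ n, ∀ i < n, ap (gr F (nat n)) (nat i) = F (nat i) :=
    fun n i hi => ap_gr (nat_mem_nat hi)
  have key : ∀ n, (∀ i < n, F (nat i) ∈ X i) ∧ Bg M P T 𝒰 (nat n) (gr F (nat n)) := by
    intro n
    induction n with
    | zero =>
      refine ⟨fun i hi => absurd hi (Nat.not_lt_zero i), fun W hW _ he hc => hcon ?_⟩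
      obtain ⟨ℱ, h1, h2, h3⟩ := (fcv_iff hM h𝒰).1 hc
      exact ⟨ℱ, h1, h2, fun f hf => h3 f (he f hf fun i hi => absurd hi (ZFSet.notMem_empty _))⟩
    | succ n ih =>
      obtain ⟨h1, h2⟩ := ih
      have hs : ∀ i < n, ap (gr F (nat n)) (nat i) ∈ X i := fun i hi => by
        rw [hap n i hi]
        exact h1 i hi
      have h3 : F (nat n) ∈ Bs M P T 𝒰 (X n) (nat n) (gr F (nat n)) := by
        rw [hFeq]
        change ch (pair (nat n) (Bs M P T 𝒰 (ap (seq X) (nat n)) (nat n) (gr F (nat n)))) ∈ _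
        rw [ap_seq]
        refine hch n _ ?_ (fun y hy => (ZFSet.mem_sep.1 hy).1)
          (closed_big hM hF hPT h𝒰 (hgr n) hs hf0) ?_
        · exact (dfn_Bs hM hP hT h𝒰).1 ![X n, nat n, gr F (nat n)] (by
            intro i
            fin_cases i
            · exact of_seq_mem hM hF.set_mem n
            · exact hM.nat_mem n
            · exact hgr n)
        · obtain ⟨y, hy1, hy2⟩ := exists_big hM hF hPT h𝒰 (hgr n) hs hf0 h2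
          exact ⟨y, ZFSet.mem_sep.2 ⟨hy1, hy2⟩⟩
      obtain ⟨h4, h5⟩ := ZFSet.mem_sep.1 h3
      refine ⟨fun i hi => ?_, fun W hW hd he => ?_⟩
      · rcases Nat.lt_succ_iff_lt_or_eq.1 hi with h6 | rfl
        · exact h1 i h6
        · exact h4
      · refine h5 W hW hd fun f hf h6 h7 => he f hf fun i' hi' => ?_
        obtain ⟨i, hi, rfl⟩ := (mem_nat (n := n + 1)).1 hi'
        rw [hap (n + 1) i hi]
        rcases Nat.lt_succ_iff_lt_or_eq.1 hi with h8 | rfl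
        · rw [h6 _ (nat_mem_nat h8), hap n i h8]
        · exact h7
  have hx : seq (fun i => F (nat i)) ∈ P := (mem_P hPT).2 ⟨seq_mem hM dF fun n => rfl,
    fun i => (key (i + 1)).1 i (Nat.lt_succ_self i)⟩
  obtain ⟨U, hU, hxU⟩ := hcov _ hx
  obtain ⟨n, V, hV, hVU⟩ := std hM hF hPT (hsub hU) hxU
  refine (key n).2 (box P n V) (box_mem hPT fun i _ => (hV i).1) ?_ ?_
    ((fcv_iff hM h𝒰).2 ⟨{U}, Set.finite_singleton U, ?_, fun f hf => ⟨U, rfl, hVU hf⟩⟩)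
  · intro f hf g hg h1
    obtain ⟨b, rfl, -⟩ := P_seq hPT (ZFSet.mem_sep.1 hf).1
    obtain ⟨c, rfl, -⟩ := P_seq hPT hg
    refine mem_box.2 ⟨hg, fun i hi => ?_⟩
    have h2 := h1 (nat i) (nat_mem_nat hi)
    rw [ap_seq, ap_seq] at h2
    rw [← h2]
    exact (mem_box.1 hf).2 i hi
  · intro f hf h1
    obtain ⟨b, rfl, -⟩ := P_seq hPT hf
    refine mem_box.2 ⟨hf, fun i hi => ?_⟩
    have h2 := h1 (nat i) (nat_mem_nat hi)
    rw [ap_seq, hap n i hi] at h2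
    rw [h2]
    exact (hV i).2
  · rintro W rfl
    exact hU

end Pool.Agent.R596.FC
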