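import Pool.Agent.W868.Defs

/-!
# Compact metrizable spaces and countable unions in transitive models of ZF: the definitions

A set `M` of sets is viewed as the structure `(M, ∈)`. `Pool.Agent.W868.Defs` contains transitive
models of ZF (`IsZF`) and injections (`IsInj`); `pair` is the Kuratowski pair, `nat n` is the
natural number `n` as a set, and `ZFSet.omega` is the set of all natural numbers.
-/

set_option autoImplicit false

namespace Pool.Agent.R596Fc

open Pool.Agent.W868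
open ZFSet (pair)

/-- `x` is countable in `M`: some injection of `x` into the set of natural numbers is an element
of `M`. -/
def Ctb (M : Set ZFSet.{0}) (x : ZFSet.{0}) : Prop := ∃ f ∈ M, IsInj x ZFSet.omega f

/-- In `M`, the set `τ` is a topology on the set `X`. -/
structure IsTop (M : Set ZFSet.{0}) (X τ : ZFSet.{0}) : Prop where
  set_mem : X ∈ M
  top_mem : τ ∈ M
  sub : ∀ U ∈ τ, U ⊆ X
  empty : ∅ ∈ τ
  univ : X ∈ τ
  inter : ∀ U ∈ τ, ∀ V ∈ τ, U ∩ V ∈ τ
  union : ∀ 𝒰 ∈ M, 𝒰 ⊆ τ → ZFSet.sUnion 𝒰 ∈ τ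

/-- In `M`, the space `(X, τ)` is compact: every open cover that is an element of `M` has a finite
subcover. -/
def Compact (M : Set ZFSet.{0}) (X τ : ZFSet.{0}) : Prop :=
  ∀ 𝒰 ∈ M, 𝒰 ⊆ τ → (∀ x ∈ X, ∃ U ∈ 𝒰, x ∈ U) →
    ∃ ℱ : Set ZFSet.{0}, ℱ.Finite ∧ (∀ U ∈ ℱ, U ∈ 𝒰) ∧ ∀ x ∈ X, ∃ U ∈ ℱ, x ∈ U

/-- The set of all `((x, y), (a, b))`, where `x` and `y` are in `X` and `a` and `b` are natural
numbers such that `d x y < a / (b + 1)`. -/
noncomputable def cut (X : ZFSet.{0}) (d : ZFSet.{0} → ZFSet.{0} → ℝ) : ZFSet.{0} :=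
  ZFSet.sep (fun z => ∃ x ∈ X, ∃ y ∈ X, ∃ a b : ℕ,
    z = pair (pair x y) (pair (nat a) (nat b)) ∧ d x y < a / (b + 1))
    (ZFSet.prod (ZFSet.prod X X) (ZFSet.prod ZFSet.omega ZFSet.omega))

/-- `d` is a metric on `X` that belongs to `M` (that is, the set of all pairs of a pair of points
and a nonnegative rational number that is larger than their distance is an element of `M`). -/
structure IsMetric (M : Set ZFSet.{0}) (X : ZFSet.{0}) (d : ZFSet.{0} → ZFSet.{0} → ℝ) :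
    Prop where
  mem : cut X d ∈ M
  self : ∀ x ∈ X, d x x = 0
  eq : ∀ x ∈ X, ∀ y ∈ X, d x y = 0 → x = y
  symm : ∀ x ∈ X, ∀ y ∈ X, d x y = d y x
  tri : ∀ x ∈ X, ∀ y ∈ X, ∀ z ∈ X, d x z ≤ d x y + d y z

/-- In `M`, the space `(X, τ)` is metrizable: the topology `τ` consists of the sets in `M` that
are open for some metric on `X` that belongs to `M`. -/
def Metrizable (M : Set ZFSet.{0}) (X τ : ZFSet.{0}) : Prop :=
  ∃ d : ZFSet.{0} → ZFSet.{0} → ℝ, IsMetric M X d ∧ ∀ U ∈ M, U ⊆ X →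
    (U ∈ τ ↔ ∀ x ∈ U, ∃ ε > 0, ∀ y ∈ X, d x y < ε → y ∈ U)

/-- In `M`, the space `(X, τ)` is separable: it has a countable dense subset. -/
def Separable (M : Set ZFSet.{0}) (X τ : ZFSet.{0}) : Prop :=
  ∃ D ∈ M, D ⊆ X ∧ Ctb M D ∧ ∀ U ∈ τ, (∃ x, x ∈ U) → ∃ x ∈ D, x ∈ U

/-- The statement **M**(C, S) in `M`: every compact metrizable space is separable. -/
def MCS (M : Set ZFSet.{0}) : Prop :=
  ∀ X τ : ZFSet.{0}, IsTop M X τ → Compact M X τ → Metrizable M X τ → Separable M X τ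

/-- The statement **CUC** in `M`: the union of every countable family of countable sets is
countable. -/
def CUC (M : Set ZFSet.{0}) : Prop :=
  ∀ 𝒜 ∈ M, Ctb M 𝒜 → (∀ a ∈ 𝒜, Ctb M a) → Ctb M (ZFSet.sUnion 𝒜)

end Pool.Agent.R596Fc
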