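import Pool.Agent.R596.FcInt
import Pool.Agent.R596.FcCps

/-!
# What is forced about countable bases
-/

set_option autoImplicit false
set_option linter.all false

namespace Pool.Agent.R596.FC

open Pool.Agent.W868 Pool.Agent.W868.PName Pool.Agent.R596.SY Pool.Agent.R596Fc
open ZFSet (pair)

/-- Forced membership by packages. -/
theorem fmem_of {x y : PName Cd} {p : Cd} (A : Set (PName Cd)) (hA : A.Countable)
    (h : ∀ π : Pkg Cd, A ⊆ π.N → x ∈ π.N → y ∈ π.N → (∀ k, π.g k ≤ p) → π.val x ∈ π.val y) :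
    Fmem x y p := by
  refine fmem_dense fun q hq => ?_
  obtain ⟨π, h1, h2, h3⟩ := pkg (A ∪ {x, y}) (hA.union (Set.toFinite _).countable) q
  have hx : x ∈ π.N := h1 (Or.inr (by simp))
  have hy : y ∈ π.N := h1 (Or.inr (by simp))
  obtain ⟨k, hk⟩ := (π.val_mem_iff hx hy).1 (h π (fun z hz => h1 (Or.inl hz)) hx hy
    fun k => (h3 k).trans hq)
  exact ⟨π.g k, h3 k, hk⟩

theorem n_kp {π : Pkg Cd} {k : ℕ} {z : PName Cd} (hz : z ∈ π.N) : kp k z ∈ π.N :=
  π.opN_mem (check_nat_N π k) hz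

theorem val_kp {π : Pkg Cd} {k : ℕ} {z : PName Cd} (hz : z ∈ π.N) :
    π.val (kp k z) = pair (nat k) (π.val z) := by
  unfold kp
  rw [π.val_opN (check_nat_N π k) hz, val_check_nat]

/-- The statement about the base. -/
structure Rb (T B : PName Cd) (i : ℕ) (π : Pkg Cd) : Prop where
  r1 : ∀ O ∈ π.W, pair (π.hat (nat i)) O ∈ π.val T → ∀ z ∈ O, ∃ k ∈ π.hat ZFSet.omega,
    pair k z ∈ π.val B ∧ ∀ w ∈ π.W, pair k w ∈ π.val B → w ∈ O
  r2 : ∀ k ∈ π.hat ZFSet.omega, ∀ z ∈ π.W, pair k z ∈ π.val B → ∃ V ∈ π.W,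
    pair (π.hat (nat i)) V ∈ π.val T ∧ z ∈ V ∧ ∀ w ∈ V, pair k w ∈ π.val B

/-- The parameters. -/
noncomputable def sb (T B : PName Cd) (i : ℕ) : Set (PName Cd) :=
  {T, B, check ZFSet.omega, check (nat i)}

theorem ctb_sb (T B : PName Cd) (i : ℕ) : (sb T B i).Countable := by
  unfold sb
  exact (Set.toFinite _).countable

theorem dfn_Rb (T B : PName Cd) (i : ℕ) :
    NDfn (sb T B i) fun π (_ : Fin 0 → ZFSet.{0}) => Rb T B i π := by
  have h1 : T ∈ sb T B i := by simp [sb]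
  have h2 : B ∈ sb T B i := by simp [sb]
  have h3 : check ZFSet.omega ∈ sb T B i := by simp [sb]
  have h4 : check (nat i) ∈ sb T B i := by simp [sb]
  have e : NDfn (sb T B i) fun π (_ : Fin 0 → ZFSet.{0}) =>
      (∀ O ∈ π.W, pair (π.hat (nat i)) O ∈ π.val T → ∀ z ∈ O, ∃ k ∈ π.hat ZFSet.omega,
        pair k z ∈ π.val B ∧ ∀ w ∈ π.W, pair k w ∈ π.val B → w ∈ O) ∧
      (∀ k ∈ π.hat ZFSet.omega, ∀ z ∈ π.W, pair k z ∈ π.val B → ∃ V ∈ π.W,
        pair (π.hat (nat i)) V ∈ π.val T ∧ z ∈ V ∧ ∀ w ∈ V, pair k w ∈ π.val B) := by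
    refine NDfn.and ?_ ?_
    · refine NDfn.all (NDfn.imp ?_ (NDfn.ball (NDfnF.proj 0) (NDfn.bex (NDfnF.hat h3)
        (NDfn.and ?_ (NDfn.all (NDfn.imp ?_ ?_))))))
      · exact NDfn.mem (NDfnF.pair (NDfnF.hat h4) (NDfnF.proj 0)) (NDfnF.val h1)
      · exact NDfn.mem (NDfnF.pair (NDfnF.proj 0) (NDfnF.proj 1)) (NDfnF.val h2)
      · exact NDfn.mem (NDfnF.pair (NDfnF.proj 1) (NDfnF.proj 0)) (NDfnF.val h2)
      · exact NDfn.mem (NDfnF.proj 0) (NDfnF.proj 3)
    · refine NDfn.ball (NDfnF.hat h3) (NDfn.all (NDfn.imp ?_ (NDfn.ex (NDfn.and ?_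
        (NDfn.and ?_ (NDfn.ball (NDfnF.proj 0) ?_))))))
      · exact NDfn.mem (NDfnF.pair (NDfnF.proj 1) (NDfnF.proj 0)) (NDfnF.val h2)
      · exact NDfn.mem (NDfnF.pair (NDfnF.hat h4) (NDfnF.proj 0)) (NDfnF.val h1)
      · exact NDfn.mem (NDfnF.proj 1) (NDfnF.proj 0)
      · exact NDfn.mem (NDfnF.pair (NDfnF.proj 3) (NDfnF.proj 0)) (NDfnF.val h2)
  refine e.congr fun π _ v _ => ?_
  exact ⟨fun ⟨a, b⟩ => ⟨a, b⟩, fun ⟨a, b⟩ => ⟨a, b⟩⟩

/-- What is forced about the base. -/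
theorem gb_of {T B : PName Cd} {i : ℕ} {p : Cd}
    (hp : ∀ π : Pkg Cd, sb T B i ⊆ π.N → (∃ m, π.g m ≤ p) → Rb T B i π) : Gb T i B p := by
  constructor
  · intro q hq O z h1 h2
    obtain ⟨π, hA, h0, hk⟩ := pkg (sb T B i ∪ {O, z})
      ((ctb_sb T B i).union (Set.toFinite _).countable) q
    have hS : sb T B i ⊆ π.N := fun w hw => hA (Or.inl hw)
    have nO : O ∈ π.N := hA (Or.inr (by simp))
    have nz : z ∈ π.N := hA (Or.inr (by simp))
    have nT : T ∈ π.N := hS (by simp [sb])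
    have nB : B ∈ π.N := hS (by simp [sb])
    have hR := hp π hS ⟨0, (hk 0).trans hq⟩
    have h3 : pair (π.hat (nat i)) (π.val O) ∈ π.val T := by
      have := mem_of_fmem (π := π) (n_kp nO) nT (hk 0) h1
      rwa [val_kp nO, ← π.hat_nat i] at this
    have h4 : π.val z ∈ π.val O := mem_of_fmem (π := π) nz nO (hk 0) h2
    obtain ⟨k, hkω, h5, h6⟩ := hR.r1 _ (π.val_mem_W nO) h3 _ h4
    rw [π.hat_omega] at hkω
    obtain ⟨k, rfl⟩ := mem_omega_iff.1 hkω
    have e1 : B ∈ ({O, z, B, check (nat k)} : Set (PName Cd)) := by simp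
    have e2 : O ∈ ({O, z, B, check (nat k)} : Set (PName Cd)) := by simp
    have e3 : z ∈ ({O, z, B, check (nat k)} : Set (PName Cd)) := by simp
    have e4 : check (nat k) ∈ ({O, z, B, check (nat k)} : Set (PName Cd)) := by simp
    have hd : NDfn ({O, z, B, check (nat k)} : Set (PName Cd))
        fun π (_ : Fin 0 → ZFSet.{0}) => pair (π.hat (nat k)) (π.val z) ∈ π.val B ∧
          ∀ w ∈ π.W, pair (π.hat (nat k)) w ∈ π.val B → w ∈ π.val O := by
      refine NDfn.and ?_ (NDfn.all (NDfn.imp ?_ ?_))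
      · exact NDfn.mem (NDfnF.pair (NDfnF.hat e4) (NDfnF.val e3)) (NDfnF.val e1)
      · exact NDfn.mem (NDfnF.pair (NDfnF.hat e4) (NDfnF.proj 0)) (NDfnF.val e1)
      · exact NDfn.mem (NDfnF.proj 0) (NDfnF.val e2)
    have hS' : ({O, z, B, check (nat k)} : Set (PName Cd)) ⊆ π.N := by
      rintro w (rfl | rfl | rfl | rfl)
      · exact nO
      · exact nz
      · exact nB
      · exact check_nat_N π k
    obtain ⟨m, hm⟩ := forcing_theorem hd π hS' (by
      rw [π.hat_nat]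
      exact ⟨h5, h6⟩)
    refine ⟨π.g m, hk m, k, ?_, ?_⟩
    · refine fmem_of {O, z, B, check (nat k)} (Set.toFinite _).countable
        fun π' hA' hx _ hk' => ?_
      have h7 := (hm π' hA' ⟨0, hk' 0⟩).1
      rw [val_kp (hA' e3), ← π'.hat_nat k]
      exact h7
    · intro z' q' hq' h7
      refine fmem_of {O, z, B, check (nat k)} (Set.toFinite _).countable
        fun π' hA' hx _ hk' => ?_
      have h8 := mem_of_fmem (π := π') (n_kp hx) (hA' e1) (hk' 0) h7
      rw [val_kp hx, ← π'.hat_nat k] at h8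
      exact (hm π' hA' ⟨0, (hk' 0).trans hq'⟩).2 _ (π'.val_mem_W hx) h8
  · intro q hq k z h1
    obtain ⟨π, hA, h0, hk⟩ := pkg (sb T B i ∪ {z, check (nat k)})
      ((ctb_sb T B i).union (Set.toFinite _).countable) q
    have hS : sb T B i ⊆ π.N := fun w hw => hA (Or.inl hw)
    have nz : z ∈ π.N := hA (Or.inr (by simp))
    have nT : T ∈ π.N := hS (by simp [sb])
    have nB : B ∈ π.N := hS (by simp [sb])
    have hR := hp π hS ⟨0, (hk 0).trans hq⟩
    have h3 : pair (nat k) (π.val z) ∈ π.val B := by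
      have := mem_of_fmem (π := π) (n_kp nz) nB (hk 0) h1
      rwa [val_kp nz] at this
    obtain ⟨_, ⟨V, nV, rfl⟩, h4, h5, h6⟩ := hR.r2 (nat k) (nat_mem_hat π k) _ (π.val_mem_W nz) h3
    have e1 : B ∈ ({V, z, B, check (nat k), T, check (nat i)} : Set (PName Cd)) := by simp
    have e2 : V ∈ ({V, z, B, check (nat k), T, check (nat i)} : Set (PName Cd)) := by simp
    have e3 : z ∈ ({V, z, B, check (nat k), T, check (nat i)} : Set (PName Cd)) := by simp
    have e4 : check (nat k) ∈ ({V, z, B, check (nat k), T, check (nat i)} :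
      Set (PName Cd)) := by simp
    have e5 : T ∈ ({V, z, B, check (nat k), T, check (nat i)} : Set (PName Cd)) := by simp
    have e6 : check (nat i) ∈ ({V, z, B, check (nat k), T, check (nat i)} :
      Set (PName Cd)) := by simp
    have hd : NDfn ({V, z, B, check (nat k), T, check (nat i)} : Set (PName Cd))
        fun π (_ : Fin 0 → ZFSet.{0}) => pair (π.hat (nat i)) (π.val V) ∈ π.val T ∧
          π.val z ∈ π.val V ∧ ∀ w ∈ π.val V, pair (π.hat (nat k)) w ∈ π.val B := by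
      refine NDfn.and ?_ (NDfn.and ?_ (NDfn.ball (NDfnF.val e2) ?_))
      · exact NDfn.mem (NDfnF.pair (NDfnF.hat e6) (NDfnF.val e2)) (NDfnF.val e5)
      · exact NDfn.mem (NDfnF.val e3) (NDfnF.val e2)
      · exact NDfn.mem (NDfnF.pair (NDfnF.hat e4) (NDfnF.proj 0)) (NDfnF.val e1)
    have hS' : ({V, z, B, check (nat k), T, check (nat i)} : Set (PName Cd)) ⊆ π.N := by
      rintro w (rfl | rfl | rfl | rfl | rfl | rfl)
      · exact nV
      · exact nz
      · exact nB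
      · exact check_nat_N π k
      · exact nT
      · exact check_nat_N π i
    obtain ⟨m, hm⟩ := forcing_theorem hd π hS' (by
      rw [π.hat_nat k]
      exact ⟨h4, h5, h6⟩)
    have hc : ({V, z, B, check (nat k), T, check (nat i)} : Set (PName Cd)).Countable :=
      (Set.toFinite _).countable
    refine ⟨π.g m, hk m, V, ?_, ?_, ?_⟩
    · refine fmem_of _ hc fun π' hA' hx _ hk' => ?_
      have h7 := (hm π' hA' ⟨0, hk' 0⟩).1
      rw [val_kp (hA' e2), ← π'.hat_nat i]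
      exact h7
    · refine fmem_of _ hc fun π' hA' hx _ hk' => ?_
      exact (hm π' hA' ⟨0, hk' 0⟩).2.1
    · intro w r' hr' h7
      refine fmem_of ({V, z, B, check (nat k), T, check (nat i)} ∪ {w})
        (hc.union (Set.toFinite _).countable) fun π' hA' hx _ hk' => ?_
      have hA'' : ({V, z, B, check (nat k), T, check (nat i)} : Set (PName Cd)) ⊆ π'.N :=
        fun y hy => hA' (Or.inl hy)
      have nw : w ∈ π'.N := hA' (Or.inr rfl)
      have h8 := mem_of_fmem (π := π') nw (hA'' e2) (hk' 0) h7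
      have h9 := (hm π' hA'' ⟨0, (hk' 0).trans hr'⟩).2.2 _ h8
      rw [val_kp nw, ← π'.hat_nat k]
      exact h9

/-- The name of the set of the pairs of a number and a set of translates. -/
noncomputable def Us2 (E : Finset J) (Y : PName Cd) : PName Cd :=
  tn (Y.idx × ℕ × Cd) fun t => kp t.2.1 (Oe E (Y.chd t.1) t.2.2)

theorem hs_eUs2 {E : Finset J} {Y : PName Cd} (hY : sy.HS Y) : sy.HS (enumN (Us2 E Y)) := by
  refine hs_enum (Fx_mem E) (fun t => ?_) fun t g hg p => ?_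
  · exact sy.hs_opN (sy.hs_check _) (hs_Oe (hY.el (c := Y.cnd t.1) ⟨t.1, rfl, rfl⟩))
  · have h1 := act_kp g t.2.1 (Oe E (Y.chd t.1) t.2.2)
    rw [h1]
    exact feq_opN (Feq.refl _ _) (fix_Oe E _ _ g hg p)

/-- The rules. -/
noncomputable def RR2 : Set (Rule Cd) :=
  RR ∪ (Set.range fun E : Finset J => r0 fun x _ => Us2 E x) ∪
    Set.range fun E : Finset J => rr2 fun B Z _ => Sys.nm Cd (As2 E B Z)

theorem exists_gd3 : ∃ π : Pkg Cd, base ⊆ π.N ∧ ClR RR2 π ∧ sy.Cld π ∧ base2 ⊆ π.N := by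
  obtain ⟨π, h1, -, h3⟩ := exists_pkg (sy.rules ∪ RR2)
    ((by unfold Sys.rules; exact (Set.toFinite _).countable : sy.rules.Countable).union
      ((RR_countable.union (Set.countable_range _)).union (Set.countable_range _)))
    (base ∪ base2) (ctb_base.union (by
      unfold base2
      exact (Set.toFinite _).countable)) (⊤ : Cd)
  exact ⟨π, fun x hx => h1 (Or.inl hx), fun ρ hρ => h3 ρ (Or.inr hρ),
    fun ρ hρ => h3 ρ (Or.inl hρ), fun x hx => h1 (Or.inr hx)⟩

section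

variable {π : Pkg Cd} (hg : ClR RR2 π)

include hg

theorem clR_RR : ClR RR π := fun ρ hρ => hg ρ (Or.inl (Or.inl hρ))

theorem n_Us2 (E : Finset J) {Y : PName Cd} (hY : Y ∈ π.N) : Us2 E Y ∈ π.N :=
  r0_mem (F := fun x _ => Us2 E x) hg (Or.inl (Or.inr ⟨E, rfl⟩)) hY 0

theorem n_As2 (E : Finset J) {B Z : PName Cd} (hB : B ∈ π.N) (hZ : Z ∈ π.N) :
    Sys.nm Cd (As2 E B Z) ∈ π.N :=
  rr2_mem (F := fun B Z _ => Sys.nm Cd (As2 E B Z)) hg (Or.inr ⟨E, rfl⟩) hB hZ 0

end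

end Pool.Agent.R596.FC
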