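import Pool.Agent.R596.FcNam

/-!
# What is forced about the spaces
-/

set_option autoImplicit false
set_option linter.all false

namespace Pool.Agent.R596.FC

open Pool.Agent.W868 Pool.Agent.W868.PName Pool.Agent.R596.SY
open ZFSet (pair)

/-- The statement about the names. -/
structure Rg (X D : PName Cd) (n N : ℕ) (c : ℕ → PName Cd) (π : Pkg Cd) : Prop where
  sub : ∀ z ∈ π.val D, ∃ x ∈ π.val X, ∃ y ∈ π.val X, ∃ i ∈ π.hat ZFSet.omega,
    z = pair (pair x y) i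
  symm : ∀ x ∈ π.val X, ∀ y ∈ π.val X, ∀ i ∈ π.hat ZFSet.omega,
    pair (pair x y) i ∈ π.val D → pair (pair y x) i ∈ π.val D
  tri : ∀ x ∈ π.val X, ∀ y ∈ π.val X, ∀ z ∈ π.val X, ∀ i ∈ π.hat ZFSet.omega,
    ∀ j ∈ π.hat ZFSet.omega, i ∈ j → pair (pair x y) j ∈ π.val D →
      pair (pair y z) j ∈ π.val D → pair (pair x z) i ∈ π.val D
  net : ∀ y ∈ π.val X, ∃ j < N, π.val (c j) ∈ π.val X ∧
    pair (pair (π.val (c j)) y) (π.hat (nat (n + 2))) ∈ π.val D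

/-- The parameters. -/
def sg (X D : PName Cd) (n : ℕ) (c : ℕ → PName Cd) : Set (PName Cd) :=
  {X, D, check ZFSet.omega, check (nat (n + 2))} ∪ Set.range c

theorem ctb_sg (X D : PName Cd) (n : ℕ) (c : ℕ → PName Cd) : (sg X D n c).Countable :=
  (Set.toFinite _).countable.union (Set.countable_range _)

/-- Finite disjunctions. -/
theorem ndfn_lt {S : Set (PName Cd)} {n : ℕ} {Q : ℕ → Pkg Cd → (Fin n → ZFSet.{0}) → Prop}
    (h : ∀ j, NDfn S (Q j)) (N : ℕ) : NDfn S fun π v => ∃ j < N, Q j π v := by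
  induction N with
  | zero =>
    refine ((h 0).and (h 0).not).congr fun π _ v _ => ?_
    constructor
    · rintro ⟨h1, h2⟩
      exact absurd h1 h2
    · rintro ⟨j, hj, -⟩
      exact absurd hj (Nat.not_lt_zero j)
  | succ N ih =>
    refine (ih.or (h N)).congr fun π _ v _ => ?_
    constructor
    · rintro (⟨j, hj, h1⟩ | h1)
      · exact ⟨j, Nat.lt_succ_of_lt hj, h1⟩
      · exact ⟨N, Nat.lt_succ_self N, h1⟩
    · rintro ⟨j, hj, h1⟩
      rcases Nat.lt_succ_iff_lt_or_eq.1 hj with h2 | rfl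
      · exact Or.inl ⟨j, h2, h1⟩
      · exact Or.inr h1

theorem dfn_Rg (X D : PName Cd) (n N : ℕ) (c : ℕ → PName Cd) :
    NDfn (sg X D n c) fun π (_ : Fin 0 → ZFSet.{0}) => Rg X D n N c π := by
  have h1 : X ∈ sg X D n c := Or.inl (by simp)
  have h2 : D ∈ sg X D n c := Or.inl (by simp)
  have h3 : check ZFSet.omega ∈ sg X D n c := Or.inl (by simp)
  have h4 : check (nat (n + 2)) ∈ sg X D n c := Or.inl (by simp)
  have h5 : ∀ j, c j ∈ sg X D n c := fun j => Or.inr ⟨j, rfl⟩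
  have e : NDfn (sg X D n c) fun π (_ : Fin 0 → ZFSet.{0}) =>
      (∀ z ∈ π.val D, ∃ x ∈ π.val X, ∃ y ∈ π.val X, ∃ i ∈ π.hat ZFSet.omega,
        z = pair (pair x y) i) ∧
      (∀ x ∈ π.val X, ∀ y ∈ π.val X, ∀ i ∈ π.hat ZFSet.omega,
        pair (pair x y) i ∈ π.val D → pair (pair y x) i ∈ π.val D) ∧
      (∀ x ∈ π.val X, ∀ y ∈ π.val X, ∀ z ∈ π.val X, ∀ i ∈ π.hat ZFSet.omega,
        ∀ j ∈ π.hat ZFSet.omega, i ∈ j → pair (pair x y) j ∈ π.val D →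
        pair (pair y z) j ∈ π.val D → pair (pair x z) i ∈ π.val D) ∧
      (∀ y ∈ π.val X, ∃ j < N, π.val (c j) ∈ π.val X ∧
        pair (pair (π.val (c j)) y) (π.hat (nat (n + 2))) ∈ π.val D) := by
    refine NDfn.and ?_ (NDfn.and ?_ (NDfn.and ?_ ?_))
    · refine NDfn.ball (NDfnF.val h2) (NDfn.bex (NDfnF.val h1) (NDfn.bex (NDfnF.val h1)
        (NDfn.bex (NDfnF.hat h3) ?_)))
      exact NDfn.eq (NDfnF.proj 3) (NDfnF.pair (NDfnF.pair (NDfnF.proj 2) (NDfnF.proj 1))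
        (NDfnF.proj 0))
    · refine NDfn.ball (NDfnF.val h1) (NDfn.ball (NDfnF.val h1) (NDfn.ball (NDfnF.hat h3) ?_))
      refine NDfn.imp ?_ ?_
      · exact NDfn.mem (NDfnF.pair (NDfnF.pair (NDfnF.proj 2) (NDfnF.proj 1))
          (NDfnF.proj 0)) (NDfnF.val h2)
      · exact NDfn.mem (NDfnF.pair (NDfnF.pair (NDfnF.proj 1) (NDfnF.proj 2))
          (NDfnF.proj 0)) (NDfnF.val h2)
    · refine NDfn.ball (NDfnF.val h1) (NDfn.ball (NDfnF.val h1) (NDfn.ball (NDfnF.val h1)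
        (NDfn.ball (NDfnF.hat h3) (NDfn.ball (NDfnF.hat h3) ?_))))
      refine NDfn.imp (NDfn.mem (NDfnF.proj 1) (NDfnF.proj 0)) (NDfn.imp ?_ (NDfn.imp ?_ ?_))
      · exact NDfn.mem (NDfnF.pair (NDfnF.pair (NDfnF.proj 4) (NDfnF.proj 3))
          (NDfnF.proj 0)) (NDfnF.val h2)
      · exact NDfn.mem (NDfnF.pair (NDfnF.pair (NDfnF.proj 3) (NDfnF.proj 2))
          (NDfnF.proj 0)) (NDfnF.val h2)
      · exact NDfn.mem (NDfnF.pair (NDfnF.pair (NDfnF.proj 4) (NDfnF.proj 2))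
          (NDfnF.proj 1)) (NDfnF.val h2)
    · refine NDfn.ball (NDfnF.val h1) (ndfn_lt (fun j => ?_) N)
      refine NDfn.and (NDfn.mem (NDfnF.val (h5 j)) (NDfnF.val h1)) ?_
      exact NDfn.mem (NDfnF.pair (NDfnF.pair (NDfnF.val (h5 j)) (NDfnF.proj 0))
        (NDfnF.hat h4)) (NDfnF.val h2)
  refine e.congr fun π _ v _ => ?_
  exact ⟨fun ⟨a, b, c, d⟩ => ⟨a, b, c, d⟩, fun ⟨a, b, c, d⟩ => ⟨a, b, c, d⟩⟩

theorem nat_mem_hat (π : Pkg Cd) (n : ℕ) : nat n ∈ π.hat ZFSet.omega := by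
  rw [π.hat_omega]
  exact mem_omega_iff.2 ⟨n, rfl⟩

theorem check_nat_N (π : Pkg Cd) (n : ℕ) : (check (nat n) : PName Cd) ∈ π.N := π.nat_Z n

theorem val_check_nat (π : Pkg Cd) (n : ℕ) : π.val (check (nat n)) = nat n := π.hat_nat n

/-- The value of a forced nearness. -/
theorem nf_val {π : Pkg Cd} {D x y : PName Cd} (hD : D ∈ π.N) (hx : x ∈ π.N) (hy : y ∈ π.N)
    {m : ℕ} : pair (pair (π.val x) (π.val y)) (nat m) ∈ π.val D ↔ ∃ k, Nf D m x y (π.g k) := by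
  rw [← val_check_nat π m, ← π.val_opN hx hy, ← π.val_opN (π.opN_mem hx hy) (check_nat_N π m)]
  exact π.val_mem_iff (π.opN_mem (π.opN_mem hx hy) (check_nat_N π m)) hD

/-- Forced nearness by packages. -/
theorem nf_of {D x y : PName Cd} {m : ℕ} {p : Cd} (A : Set (PName Cd)) (hA : A.Countable)
    (h : ∀ π : Pkg Cd, A ⊆ π.N → D ∈ π.N → x ∈ π.N → y ∈ π.N → (∀ k, π.g k ≤ p) →
      pair (pair (π.val x) (π.val y)) (nat m) ∈ π.val D) : Nf D m x y p := by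
  refine nf_dense fun q hq => ?_
  obtain ⟨π, h1, h2, h3⟩ := pkg (A ∪ {D, x, y}) (hA.union (Set.toFinite _).countable) q
  have hD : D ∈ π.N := h1 (Or.inr (by simp))
  have hx : x ∈ π.N := h1 (Or.inr (by simp))
  have hy : y ∈ π.N := h1 (Or.inr (by simp))
  obtain ⟨k, hk⟩ := (nf_val hD hx hy).1 (h π (fun z hz => h1 (Or.inl hz)) hD hx hy
    fun k => (h3 k).trans hq)
  exact ⟨π.g k, h3 k, hk⟩

/-- What is forced about the space. -/
theorem gd_of {X D : PName Cd} {n N : ℕ} {c : ℕ → PName Cd} {p : Cd}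
    (hp : ∀ π : Pkg Cd, sg X D n c ⊆ π.N → (∃ m, π.g m ≤ p) → Rg X D n N c π) :
    Gd X D n (N + 1) p := by
  have hin : ∀ {π : Pkg Cd}, sg X D n c ⊆ π.N → ∀ {x y : ZFSet.{0}} {m : ℕ},
      Rg X D n N c π → pair (pair x y) (nat m) ∈ π.val D → x ∈ π.val X ∧ y ∈ π.val X := by
    intro π _ x y m hR h
    obtain ⟨x', hx', y', hy', i, hi, h1⟩ := hR.sub _ h
    obtain ⟨h2, rfl⟩ := ZFSet.pair_inj.1 h1
    obtain ⟨rfl, rfl⟩ := ZFSet.pair_inj.1 h2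
    exact ⟨hx', hy'⟩
  refine ⟨fun q hq x y m h => ?_, fun q hq x y z m h1 h2 => ?_, fun q hq x h => ?_⟩
  · refine nf_of (sg X D n c) (ctb_sg X D n c) fun π hA hD hy hx hk => ?_
    have hR := hp π hA ⟨0, (hk 0).trans hq⟩
    have h1 := (nf_val hD hx hy (m := m)).2 ⟨0, h.mono (hk 0)⟩
    obtain ⟨h2, h3⟩ := hin hA hR h1
    exact hR.symm _ h2 _ h3 _ (nat_mem_hat π m) h1
  · refine nf_of (sg X D n c ∪ {y}) ((ctb_sg X D n c).union (Set.toFinite _).countable)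
      fun π hA hD hx hz hk => ?_
    have hA' : sg X D n c ⊆ π.N := fun w hw => hA (Or.inl hw)
    have hy : y ∈ π.N := hA (Or.inr rfl)
    have hR := hp π hA' ⟨0, (hk 0).trans hq⟩
    have h3 := (nf_val hD hx hy (m := m + 1)).2 ⟨0, h1.mono (hk 0)⟩
    have h4 := (nf_val hD hy hz (m := m + 1)).2 ⟨0, h2.mono (hk 0)⟩
    obtain ⟨h5, h6⟩ := hin hA' hR h3
    obtain ⟨h7, h8⟩ := hin hA' hR h4
    exact hR.tri _ h5 _ h6 _ h8 _ (nat_mem_hat π m) _ (nat_mem_hat π (m + 1))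
      (ZFSet.mem_insert _ _) h3 h4
  · obtain ⟨π, h1, h2, h3⟩ := pkg (sg X D n c ∪ Set.range x)
      ((ctb_sg X D n c).union (Set.countable_range _)) q
    have hA' : sg X D n c ⊆ π.N := fun w hw => h1 (Or.inl hw)
    have hx : ∀ a, x a ∈ π.N := fun a => h1 (Or.inr ⟨a, rfl⟩)
    have hX : X ∈ π.N := hA' (Or.inl (by simp))
    have hD : D ∈ π.N := hA' (Or.inl (by simp))
    have hR := hp π hA' ⟨0, (h3 0).trans hq⟩
    have h4 : ∀ a : Fin (N + 1), π.val (x a) ∈ π.val X := fun a =>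
      (π.val_mem_iff (hx a) hX).2 ⟨0, (h a a.2).mono (h3 0)⟩
    have h5 : ∀ a : Fin (N + 1), ∃ j : Fin N, π.val (c j) ∈ π.val X ∧
        pair (pair (π.val (c j)) (π.val (x a))) (π.hat (nat (n + 2))) ∈ π.val D := by
      intro a
      obtain ⟨j, hj, h6⟩ := hR.net _ (h4 a)
      exact ⟨⟨j, hj⟩, h6⟩
    choose f hf1 hf2 using h5
    obtain ⟨a, b, hab, h6⟩ := Fintype.exists_ne_map_eq_of_card_lt f (by simp)
    have h7 := hf2 a
    have h8 := hf2 b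
    rw [← h6] at h8
    rw [π.hat_nat] at h7 h8
    have h9 := hR.symm _ (hf1 a) _ (h4 a) _ (nat_mem_hat π (n + 2)) h7
    have h10 := hR.tri _ (h4 a) _ (hf1 a) _ (h4 b) _ (nat_mem_hat π (n + 1)) _
      (nat_mem_hat π (n + 2)) (ZFSet.mem_insert _ _) h9 h8
    obtain ⟨k, hk⟩ := (nf_val hD (hx a) (hx b) (m := n + 1)).1 h10
    exact ⟨π.g k, h3 k, a, a.2, b, b.2, fun h => hab (Fin.ext h), hk⟩

end Pool.Agent.R596.FC
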