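import Pool.Agent.R596.FcNam

/-!
# Homogeneity and counting
-/

set_option autoImplicit false
set_option linter.all false

namespace Pool.Agent.R596.FC

open Pool.Agent.W868 Pool.Agent.W868.PName Pool.Agent.R596.SY
open ZFSet (pair)

theorem Lv.mono {i j : ℕ} (h : i ≤ j) {l : La} (hl : Lv i l) : Lv j l :=
  hl.trans_le (Cardinal.ord_le_ord.2 (Cardinal.aleph_le_aleph.2 (by exact_mod_cast h)))

theorem mk_Lv (i : ℕ) : Cardinal.mk {l : La // Lv i l} ≤ Cardinal.aleph (i : Ordinal.{0}) := by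
  have h1 : Cardinal.lift.{1} (Cardinal.mk {l : La // Lv i l}) ≤
      Cardinal.lift.{0} (Cardinal.mk (Set.Iio (Cardinal.aleph (i : Ordinal.{0})).ord)) := by
    rw [Cardinal.lift_mk_le']
    exact ⟨⟨fun l => ⟨oo l.1, l.2⟩, fun a b h => Subtype.ext (oo_injective
      (congrArg Subtype.val h))⟩⟩
  rw [Cardinal.mk_Iio_ordinal, Cardinal.card_ord] at h1
  rw [Cardinal.lift_lift] at h1
  exact Cardinal.lift_le.1 h1

theorem mk_La : Cardinal.mk La = Cardinal.aleph Ordinal.omega0.{0} := Cardinal.mk_ord_toType _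

/-- Pigeonhole. -/
theorem pigeon (E : Finset J) (f : La → ℕ) (q : La → Cd) : ∃ l l', l ≠ l' ∧ f l = f l' ∧
    ((q l).res (E : Set J)).F = ((q l').res (E : Set J)).F := by
  classical
  by_contra hc
  push Not at hc
  let m : ℕ := E.sup Prod.fst
  have hm : ∀ j ∈ E, j.1 ≤ m := fun j hj => Finset.le_sup (f := Prod.fst) hj
  let T : Type := J × ℕ × {l : La // Lv m l}
  let G : La → Set T := fun l => {t | (t.1, t.2.1, t.2.2.1) ∈ ((q l).res (E : Set J)).F}
  have hG : ∀ l, (G l).Finite := by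
    intro l
    refine Set.Finite.preimage (f := fun t : T => (t.1, t.2.1, t.2.2.1)) ?_
      ((q l).res (E : Set J)).fin
    rintro ⟨a, b, c⟩ - ⟨a', b', c'⟩ - h
    simp only [Prod.mk.injEq] at h
    obtain ⟨rfl, rfl, h⟩ := h
    rw [Subtype.ext h]
  have hinj : Function.Injective fun l : La => (f l, (hG l).toFinset) := by
    intro l l' h
    by_contra hne
    simp only [Prod.mk.injEq] at h
    refine hc l l' hne h.1 ?_
    have h1 : G l = G l' := by
      have := h.2
      rwa [Set.Finite.toFinset_inj] at this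
    have h2 : ∀ l l', G l = G l' → ((q l).res (E : Set J)).F ⊆ ((q l').res (E : Set J)).F := by
      rintro l l' h ⟨j, n, k⟩ hk
      have hj : j ∈ E := hk.2
      have hl : Lv m k := Lv.mono (hm j hj) ((q l).lv _ _ _ hk.1)
      have h3 : ((j, n, ⟨k, hl⟩) : T) ∈ G l := hk
      rw [h] at h3
      exact h3
    exact Set.Subset.antisymm (h2 l l' h1) (h2 l' l h1.symm)
  have h1 := Cardinal.mk_le_of_injective hinj
  have h0 : Cardinal.aleph0 ≤ Cardinal.aleph (m : Ordinal.{0}) := Cardinal.aleph0_le_aleph _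
  obtain ⟨l0⟩ : Nonempty La := by
    rw [← Cardinal.mk_ne_zero_iff, mk_La]
    exact (Cardinal.aleph_pos _).ne'
  haveI : Nonempty {l : La // Lv m l} := by
    obtain ⟨a, ha⟩ := Ordinal.typein_surj (α := La) (· < ·) (o := 0) (by
      rw [Ordinal.type_toType]
      exact Cardinal.ord_zero ▸ Cardinal.ord_lt_ord.2 (Cardinal.aleph_pos _))
    refine ⟨⟨a, ?_⟩⟩
    change Ordinal.typein (α := La) (· < ·) a < _
    rw [ha]
    exact Cardinal.ord_zero ▸ Cardinal.ord_lt_ord.2 (Cardinal.aleph_pos _)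
  haveI : Infinite T := by
    have : Infinite (ℕ × {l : La // Lv m l}) := Prod.infinite_of_left
    exact Prod.infinite_of_right
  rw [Cardinal.mk_prod, Cardinal.mk_finset_of_infinite] at h1
  have h2 : Cardinal.mk T ≤ Cardinal.aleph (m : Ordinal.{0}) := by
    have h3 : Cardinal.mk T = Cardinal.mk J * (Cardinal.mk ℕ *
        Cardinal.mk {l : La // Lv m l}) := by
      simp only [T, Cardinal.mk_prod, Cardinal.lift_id]
    rw [h3]
    have h5 : Cardinal.mk J ≤ Cardinal.aleph0 := Cardinal.mk_le_aleph0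
    have h6 : Cardinal.mk ℕ ≤ Cardinal.aleph0 := Cardinal.mk_le_aleph0
    refine (mul_le_mul' h5 (mul_le_mul' h6 (mk_Lv m))).trans ?_
    rw [Cardinal.aleph0_mul_eq h0, Cardinal.aleph0_mul_eq h0]
  rw [mk_La] at h1
  have h4 : Cardinal.aleph Ordinal.omega0.{0} ≤ Cardinal.aleph (m : Ordinal.{0}) := by
    refine h1.trans ?_
    rw [Cardinal.lift_id, Cardinal.lift_id]
    have h6 : Cardinal.mk ℕ ≤ Cardinal.aleph0 := Cardinal.mk_le_aleph0
    refine (mul_le_mul' h6 h2).trans ?_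
    rw [Cardinal.aleph0_mul_eq h0]
  rw [Cardinal.aleph_le_aleph] at h4
  exact absurd h4 (not_le.2 (Ordinal.natCast_lt_omega0 m))

/-- Homogeneity. -/
theorem homog {E : Finset J} {p q : Cd}
    (h : (p.res (E : Set J)).F = (q.res (E : Set J)).F) :
    ∃ τ ∈ Fx E, ∃ r : Cd, r ≤ mc τ p ∧ r ≤ q := by
  obtain ⟨τ, h1, h2⟩ := exists_fresh (E : Set J) p.dom q.dom E.finite_toSet p.dom_fin q.dom_fin 1
  have h1' : ∀ j ∈ E, τ.1 j = j := h1
  have hA : Cd.Agr (mc τ p) q := by
    rintro j n l l' ⟨⟨i, n1, l1⟩, h3, h4⟩ h5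
    simp only [mf, Prod.mk.injEq] at h4
    obtain ⟨h6, rfl, rfl⟩ := h4
    by_cases hi : i ∈ (E : Set J)
    · rw [h1' i hi] at h6
      subst h6
      have h7 : (i, n1, l1) ∈ (p.res (E : Set J)).F := ⟨h3, hi⟩
      rw [h] at h7
      exact q.fn _ _ _ _ h7.1 h5
    · refine absurd ?_ (h2 i (Cd.mem_dom h3) hi)
      rw [h6]
      exact Cd.mem_dom h5
  exact ⟨τ, h1', Cd.un _ _ hA, Cd.un_le_left hA, Cd.un_le_right hA⟩

end Pool.Agent.R596.FC
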