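import Pool.Agent.R596.FcChs

/-!
# Interpolation with a fresh copy of a countable base
-/

set_option autoImplicit false
set_option linter.all false

namespace Pool.Agent.R596.FC

open Pool.Agent.W868 Pool.Agent.W868.PName Pool.Agent.R596.SY
open ZFSet (pair)

/-- The name of the pair of a number and a name. -/
noncomputable def kp (k : ℕ) (z : PName Cd) : PName Cd := opN (check (nat k)) z

theorem act_kp (g : Gp) (k : ℕ) (z : PName Cd) : act (sy.ac g) (kp k z) = kp k (act (sy.ac g) z) := by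
  unfold kp
  rw [act_opN (sy.top g), act_ck]

theorem act_gi (g : Gp) (x : PName Cd) : act (sy.ac g) (act (sy.ac (g⁻¹ : Gp)) x) = x := by
  rw [← ac_mul, mul_inv_cancel, ac_one]

theorem mc_gi (g : Gp) (p : Cd) : mc g (mc g⁻¹ p) = p := by
  rw [← mc_mul, mul_inv_cancel, mc_one]

theorem mc_ig (g : Gp) (p : Cd) : mc g⁻¹ (mc g p) = p := by
  rw [← mc_mul, inv_mul_cancel, mc_one]

theorem fmem_g {g : Gp} {x y : PName Cd} {p : Cd} (h : Fmem x y p) :
    Fmem (act (sy.ac g) x) (act (sy.ac g) y) (mc g p) := fmem_act' (e := sy.ac g) h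

/-- Moving a hypothesis about the elements of a name. -/
theorem fmem_back {g : Gp} {x y : PName Cd} {p : Cd} (h : Fmem x (act (sy.ac g) y) p) :
    Fmem (act (sy.ac (g⁻¹ : Gp)) x) y (mc g⁻¹ p) := by
  have h1 := fmem_g (g := g⁻¹) h
  rwa [← ac_mul, inv_mul_cancel, ac_one] at h1

theorem le_back {g : Gp} {p q : Cd} (h : p ≤ mc g q) : mc g⁻¹ p ≤ q := by
  have h1 := mc_mono g⁻¹ h
  rwa [mc_ig] at h1

theorem act_inj {g : Gp} {x : PName Cd} : act (sy.ac g) (act (sy.ac (g⁻¹ : Gp)) x) = x := act_gi g x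

/-- The section `k` of `A` is contained in the section `n` of `B`. -/
def Sub1 (k n : ℕ) (A B : PName Cd) (r : Cd) : Prop :=
  ∀ z, ∀ q ≤ r, Fmem (kp k z) A q → Fmem (kp n z) B q

/-- The section `n` of `B` is contained in `O`. -/
def Sub2 (n : ℕ) (B O : PName Cd) (r : Cd) : Prop :=
  ∀ z, ∀ q ≤ r, Fmem (kp n z) B q → Fmem z O q

theorem Sub1.act {k n : ℕ} {A B : PName Cd} {r : Cd} (h : Sub1 k n A B r) (g : Gp) :
    Sub1 k n (SY.act (sy.ac g) A) (SY.act (sy.ac g) B) (mc g r) := by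
  intro z q hq h1
  have h2 := fmem_back h1
  rw [act_kp] at h2
  have h3 := fmem_g (g := g) (h _ _ (le_back hq) h2)
  rwa [act_kp, act_gi, mc_gi] at h3

theorem Sub2.act {n : ℕ} {B O : PName Cd} {r : Cd} (h : Sub2 n B O r) (g : Gp) :
    Sub2 n (SY.act (sy.ac g) B) (SY.act (sy.ac g) O) (mc g r) := by
  intro z q hq h1
  have h2 := fmem_back h1
  rw [act_kp] at h2
  have h3 := fmem_g (g := g) (h _ _ (le_back hq) h2)
  rwa [act_gi, mc_gi] at h3

/-- The interpolation lemma. -/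
theorem interp {A O B : PName Cd} {E F F' : Finset J} (hA : sy.Fix (Fx F) A)
    (hO : sy.Fix (Fx F) O) (hB : sy.Fix (Fx F') B) (hd : ∀ j ∈ F', j ∈ F → j ∈ E)
    {r : Cd} {k n : ℕ} (h1 : Sub1 k n A B r) (h2 : Sub2 n B O r) :
    ∀ τ ∈ Fx E, ∀ q ≤ r.res (F : Set J), q ≤ mc τ (r.res (F : Set J)) → ∀ w,
      Fmem (kp k w) (act (sy.ac τ) A) q → Fmem w O q := by
  classical
  intro τ hτ q hq hqτ w hw
  refine fmem_dense fun r'' hr'' => ?_
  have hw' := hw.mono hr''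
  have h'' : r'' ≤ r.res (F : Set J) := hr''.trans hq
  have h''' : r'' ≤ mc τ (r.res (F : Set J)) := hr''.trans hqτ
  set S : Set J := (F : Set J) with hS
  have hSf : S.Finite := F.finite_toSet
  obtain ⟨σ, hσ1, hσ2⟩ := exists_fresh S (r.dom ∪ (F' : Set J)) (S ∪ r''.dom ∪ τ.1 '' S) hSf
    (r.dom_fin.union F'.finite_toSet) ((hSf.union r''.dom_fin).union (hSf.image _)) 1
  have hσ1' : ∀ j ∈ S, σ.1 j = j := hσ1
  obtain ⟨θ, hθ1, hθ2, -⟩ := exists_fresh2 S (r.dom ∪ (F' : Set J)) ∅ ∅ hSf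
    (r.dom_fin.union F'.finite_toSet) Set.finite_empty Set.finite_empty τ σ (by
      intro i hi j hj hjS h
      exact hσ2 j hj hjS (Or.inr ⟨i, hi, h⟩))
  have A1 : Cd.Agr r'' (mc σ r) := by
    rintro j m l l' h1 ⟨⟨i, n1, l1⟩, h3, h4⟩
    simp only [mf, Prod.mk.injEq] at h4
    obtain ⟨h5, rfl, rfl⟩ := h4
    by_cases hi : i ∈ S
    · rw [hσ1' i hi] at h5
      subst h5
      exact r''.fn _ _ _ _ h1 (h'' ⟨h3, hi⟩)
    · refine absurd ?_ (hσ2 i (Or.inl (Cd.mem_dom h3)) hi)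
      rw [h5]
      exact Or.inl (Or.inr (Cd.mem_dom h1))
  have A2 : Cd.Agr r'' (mc θ r) := by
    rintro j m l l' h1 ⟨⟨i, n1, l1⟩, h3, h4⟩
    simp only [mf, Prod.mk.injEq] at h4
    obtain ⟨h5, rfl, rfl⟩ := h4
    by_cases hi : i ∈ S
    · rw [hθ1 i hi] at h5
      subst h5
      exact r''.fn _ _ _ _ h1 (h''' (mem_mc.2 ⟨h3, hi⟩))
    · rw [hθ2 i (Or.inl (Cd.mem_dom h3)) hi] at h5
      refine absurd ?_ (hσ2 i (Or.inl (Cd.mem_dom h3)) hi)
      rw [h5]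
      exact Or.inl (Or.inr (Cd.mem_dom h1))
  have A3 : Cd.Agr (mc σ r) (mc θ r) := by
    rintro j m l l' ⟨⟨i, n1, l1⟩, h1, h2⟩ ⟨⟨i', n2, l2⟩, h3, h4⟩
    simp only [mf, Prod.mk.injEq] at h2 h4
    obtain ⟨h5, rfl, rfl⟩ := h2
    obtain ⟨h6, rfl, rfl⟩ := h4
    by_cases hi' : i' ∈ S
    · rw [hθ1 i' hi'] at h6
      by_cases hi : i ∈ S
      · rw [hσ1' i hi] at h5
        subst h5
        have h7 : (i, n2, l1) ∈ r''.F := h'' ⟨h1, hi⟩
        have h8 : (τ.1 i', n2, l2) ∈ r''.F := h''' (mem_mc.2 ⟨h3, hi'⟩)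
        rw [h6] at h8
        exact r''.fn _ _ _ _ h7 h8
      · refine absurd ?_ (hσ2 i (Or.inl (Cd.mem_dom h1)) hi)
        rw [h5, ← h6]
        exact Or.inr ⟨i', hi', rfl⟩
    · rw [hθ2 i' (Or.inl (Cd.mem_dom h3)) hi'] at h6
      have h7 := σ.1.injective (h5.trans h6.symm)
      subst h7
      exact r.fn _ _ _ _ h1 h3
  have A4 : Cd.Agr (Cd.un r'' (mc σ r) A1) (mc θ r) := by
    rintro j m l l' (h1 | h1) h2
    · exact A2 j m l l' h1 h2
    · exact A3 j m l l' h1 h2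
  set r3 : Cd := Cd.un (Cd.un r'' (mc σ r) A1) (mc θ r) A4 with hr3
  have hr3a : r3 ≤ r'' := (Cd.un_le_left A4).trans (Cd.un_le_left A1)
  have hr3b : r3 ≤ mc σ r := (Cd.un_le_left A4).trans (Cd.un_le_right A1)
  have hr3c : r3 ≤ mc θ r := Cd.un_le_right A4
  refine ⟨r3, hr3a, ?_⟩
  have s1 : Fmem (kp k w) (act (sy.ac θ) A) r3 := by
    refine fmem_congr (Feq.refl _ _) (feq_agree hA (fun j hj => ?_) _) (hw'.mono hr3a)
    exact (hθ1 j hj).symm
  have s2 : Fmem (kp n w) (act (sy.ac θ) B) r3 := h1.act θ w r3 hr3c s1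
  have s3 : Fmem (kp n w) (act (sy.ac σ) B) r3 := by
    refine fmem_congr (Feq.refl _ _) (feq_agree hB (fun j hj => ?_) _) s2
    by_cases hjS : j ∈ S
    · have hjE := hd j hj hjS
      rw [hθ1 j hjS, hσ1' j hjS]
      exact hτ j hjE
    · exact hθ2 j (Or.inr hj) hjS
  have s4 : Fmem w (act (sy.ac σ) O) r3 := h2.act σ w r3 hr3b s3
  refine fmem_congr (Feq.refl _ _) ?_ s4
  have s5 := feq_agree hO (g := σ) (h := 1) (fun j hj => hσ1' j hj) r3
  rwa [ac_one] at s5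

/-- What is forced about a countable base `B` of the space with the index `i`. -/
structure Gb (T : PName Cd) (i : ℕ) (B : PName Cd) (p : Cd) : Prop where
  b1 : ∀ q ≤ p, ∀ O z, Fmem (kp i O) T q → Fmem z O q → ∃ r ≤ q, ∃ k : ℕ,
    Fmem (kp k z) B r ∧ Sub2 k B O r
  b2 : ∀ q ≤ p, ∀ (k : ℕ) (z : PName Cd), Fmem (kp k z) B q → ∃ r ≤ q, ∃ V,
    Fmem (kp i V) T r ∧ Fmem z V r ∧ ∀ w, ∀ r' ≤ r, Fmem w V r' → Fmem (kp k w) B r'

theorem Gb.mono {T : PName Cd} {i : ℕ} {B : PName Cd} {p q : Cd} (h : Gb T i B p) (hq : q ≤ p) :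
    Gb T i B q := ⟨fun r hr => h.b1 r (hr.trans hq), fun r hr => h.b2 r (hr.trans hq)⟩

theorem Gb.act {T : PName Cd} {i : ℕ} {B : PName Cd} {p : Cd} (h : Gb T i B p) {E : Finset J}
    (hT : sy.Fix (Fx E) T) {g : Gp} (hg : g ∈ Fx E) : Gb T i (SY.act (sy.ac g) B) (mc g p) := by
  have hg' : g⁻¹ ∈ Fx E := (Fx E).inv_mem hg
  have t1 : ∀ {O : PName Cd} {q : Cd}, Fmem (kp i O) T q →
      Fmem (kp i (SY.act (sy.ac (g⁻¹ : Gp)) O)) T (mc g⁻¹ q) := by
    intro O q h1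
    have h2 := fmem_g (g := g⁻¹) h1
    rw [act_kp] at h2
    exact fmem_congr (Feq.refl _ _) (hT _ hg' _) h2
  have t2 : ∀ {O : PName Cd} {q : Cd}, Fmem (kp i O) T q →
      Fmem (kp i (SY.act (sy.ac g) O)) T (mc g q) := by
    intro O q h1
    have h2 := fmem_g (g := g) h1
    rw [act_kp] at h2
    exact fmem_congr (Feq.refl _ _) (hT _ hg _) h2
  constructor
  · intro q hq O z h1 h2
    obtain ⟨r, hr, k, h3, h4⟩ := h.b1 (mc g⁻¹ q) (le_back hq) _ _ (t1 h1) (fmem_g (g := g⁻¹) h2)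
    refine ⟨mc g r, ?_, k, ?_, ?_⟩
    · have := mc_mono g hr
      rwa [mc_gi] at this
    · have h5 := fmem_g (g := g) h3
      rwa [act_kp, act_gi] at h5
    · have h5 := h4.act g
      rwa [act_gi] at h5
  · intro q hq k z h1
    have h2 := fmem_back h1
    rw [act_kp] at h2
    obtain ⟨r, hr, V, h3, h4, h5⟩ := h.b2 (mc g⁻¹ q) (le_back hq) k _ h2
    refine ⟨mc g r, ?_, SY.act (sy.ac g) V, t2 h3, ?_, fun w r' hr' h6 => ?_⟩
    · have := mc_mono g hr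
      rwa [mc_gi] at this
    · have h6 := fmem_g (g := g) h4
      rwa [act_gi] at h6
    · have h7 := fmem_g (g := g) (h5 _ _ (le_back hr') (fmem_back h6))
      rwa [act_kp, act_gi, mc_gi] at h7

theorem fix_act_aux {F : Finset J} {x : PName Cd} (hx : sy.Fix (Fx F) x) (g : Gp)
    [DecidableEq J] (h : Gp) (hh : h ∈ Fx (F.image g.1)) (p : Cd) :
    Feq (act (sy.ac h) (act (sy.ac g) x)) (act (sy.ac g) x) p := by
  have h1 := feq_agree hx (g := h * g) (h := g) (fun j hj => by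
    change h.1 (g.1 j) = g.1 j
    exact hh _ (Finset.mem_image_of_mem _ hj)) p
  rwa [ac_mul h g x] at h1

theorem fix_act {F : Finset J} {x : PName Cd} (hx : sy.Fix (Fx F) x) (g : Gp) [DecidableEq J] :
    sy.Fix (Fx (F.image g.1)) (act (sy.ac g) x) :=
  fun h hh p => fix_act_aux hx g h hh p

/-- The conditions that force a section of `B` around `y` whose translates are all contained in
`O`. -/
def As2 (E : Finset J) (B Z : PName Cd) : Set Cd :=
  {r | ∃ (y O : PName Cd) (k : ℕ), Z = opN y O ∧ Fmem (kp k y) B r ∧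
    ∀ τ ∈ Fx E, ∀ q ≤ r, q ≤ mc τ r → ∀ w, Fmem (kp k w) (act (sy.ac τ) B) q → Fmem w O q}

theorem As2_mono {E : Finset J} {B Z : PName Cd} {p q : Cd} (h : p ∈ As2 E B Z)
    (hq : q ≤ p) : q ∈ As2 E B Z := by
  obtain ⟨y, O, k, h1, h2, h3⟩ := h
  exact ⟨y, O, k, h1, h2.mono hq, fun τ hτ r h4 h5 => h3 τ hτ r (h4.trans hq)
    (h5.trans (mc_mono τ hq))⟩

/-- The density lemma. -/
theorem as2_dense {T B y O : PName Cd} {i : ℕ} {E F : Finset J} (fT : sy.Fix (Fx E) T)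
    (fB : sy.Fix (Fx F) B) (fO : sy.Fix (Fx F) O) (hEF : E ⊆ F) {p : Cd} (hG : Gb T i B p)
    (hO : Fmem (kp i O) T p) (hy : Fmem y O p) : ∃ r ≤ p, r ∈ As2 E B (opN y O) := by
  classical
  obtain ⟨g, hg1, hg2⟩ := exists_fresh (E : Set J) (p.dom ∪ (F : Set J)) (p.dom ∪ (F : Set J))
    E.finite_toSet (p.dom_fin.union F.finite_toSet) (p.dom_fin.union F.finite_toSet) 1
  have hgE : g ∈ Fx E := hg1
  have hg1' : ∀ j ∈ E, g.1 j = j := hg1
  have hA : Cd.Agr p (mc g p) := by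
    rintro j m l l' h1 ⟨⟨i', n1, l1⟩, h3, h4⟩
    simp only [mf, Prod.mk.injEq] at h4
    obtain ⟨h5, rfl, rfl⟩ := h4
    by_cases hi : i' ∈ (E : Set J)
    · rw [hg1' i' hi] at h5
      subst h5
      exact p.fn _ _ _ _ h1 h3
    · refine absurd ?_ (hg2 i' (Or.inl (Cd.mem_dom h3)) hi)
      rw [h5]
      exact Or.inl (Cd.mem_dom h1)
  have hG' := hG.act fT hgE
  have fB' : sy.Fix (Fx (F.image g.1)) (act (sy.ac g) B) := fix_act fB g
  have hd : ∀ j ∈ F.image g.1, j ∈ F → j ∈ E := by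
    intro j hj hjF
    obtain ⟨i', hi', rfl⟩ := Finset.mem_image.1 hj
    by_cases hi : i' ∈ (E : Set J)
    · rw [hg1' i' hi]
      exact hi
    · exact absurd (Or.inr hjF) (hg2 i' (Or.inr hi') hi)
  have q1p := Cd.un_le_left hA
  have q1g := Cd.un_le_right hA
  obtain ⟨r1, hr1, n, h1, h1'⟩ := hG'.b1 (Cd.un p (mc g p) hA) q1g O y (hO.mono q1p) (hy.mono q1p)
  obtain ⟨r2, hr2, V, h2, h3, h4⟩ := hG'.b2 r1 (hr1.trans q1g) n y h1
  obtain ⟨r3, hr3, k, h5, h6⟩ := hG.b1 r2 (hr2.trans (hr1.trans q1p)) V y h2 h3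
  refine ⟨r3, hr3.trans (hr2.trans (hr1.trans q1p)), y, O, k, rfl, h5, ?_⟩
  intro τ hτ q hq hqτ w hw
  refine interp fB fO fB' hd (r := r3) (k := k) (n := n) ?_ ?_ τ hτ q
    (hq.trans (r3.le_res _)) (hqτ.trans (mc_mono τ (r3.le_res _))) w hw
  · intro z q hq h7
    exact h4 z q (hq.trans hr3) (h6 z q hq h7)
  · intro z q hq h7
    exact h1' z q (hq.trans (hr3.trans hr2)) h7

end Pool.Agent.R596.FC
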