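import Pool.Agent.R596.FcCond

/-!
# The key lemma
-/

set_option autoImplicit false
set_option linter.all false

namespace Pool.Agent.R596.FC

open Pool.Agent.W868 Pool.Agent.W868.PName Pool.Agent.R596.SY
open ZFSet (pair)

/-- There is an element of the group that agrees with two given ones and moves all other
elements of the finite set `S` away from the finite set `B`. -/
theorem exists_fresh2 (A A' S B : Set J) (hA : A.Finite) (hA' : A'.Finite) (hS : S.Finite)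
    (hB : B.Finite) (g g' : Gp) (hd : ∀ i ∈ A, ∀ j ∈ A', j ∉ A → g.1 i ≠ g'.1 j) :
    ∃ h : Gp, (∀ j ∈ A, h.1 j = g.1 j) ∧ (∀ j ∈ A', j ∉ A → h.1 j = g'.1 j) ∧
      ∀ j ∈ S, j ∉ A → j ∉ A' → h.1 j ∉ B := by
  classical
  obtain ⟨N, hN⟩ := exists_bd (B ∪ g.1 '' A ∪ g'.1 '' A')
    ((hB.union (hA.image _)).union (hA'.image _))
  obtain ⟨h, hh⟩ := exists_ext (A ∪ A' ∪ S) ((hA.union hA').union hS)
    (fun j => if j ∈ A then g.1 j else if j ∈ A' then g'.1 j else (j.1, j.2 + N)) (fun j _ => by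
      split_ifs
      · exact fst_g g j
      · exact fst_g g' j
      · rfl) (by
      intro a _ b _ hab
      dsimp only at hab
      split_ifs at hab with h1 h2 h3 h2 h3 h4 h2 h3
      · exact g.1.injective hab
      · exact absurd hab (hd a h1 b h3 h2)
      · have := hN _ (Or.inl (Or.inr ⟨a, h1, rfl⟩))
        rw [hab] at this
        simp at this
      · exact absurd hab.symm (hd b h3 a h2 h1)
      · exact g'.1.injective hab
      · have := hN _ (Or.inr ⟨a, h2, rfl⟩)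
        rw [hab] at this
        simp at this
      · have := hN _ (Or.inl (Or.inr ⟨b, h2, rfl⟩))
        rw [← hab] at this
        simp at this
      · have := hN _ (Or.inr ⟨b, h3, rfl⟩)
        rw [← hab] at this
        simp at this
      · rw [Prod.mk.injEq] at hab
        exact Prod.ext hab.1 (by omega))
  refine ⟨h, fun j hj => ?_, fun j hj hjA => ?_, fun j hj hjA hjA' hjB => ?_⟩
  · rw [hh j (Or.inl (Or.inl hj)), if_pos hj]
  · rw [hh j (Or.inl (Or.inr hj)), if_neg hjA, if_pos hj]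
  · have h1 := hN _ (Or.inl (Or.inl hjB))
    rw [hh j (Or.inr hj), if_neg hjA, if_neg hjA'] at h1
    simp at h1

/-- A common extension of finitely many conditions. -/
theorem join_fam {k : ℕ} (p : ℕ → Cd) (h : ∀ a < k, ∀ b < k, Cd.Agr (p a) (p b)) :
    ∃ r : Cd, ∀ a < k, r ≤ p a := by
  refine ⟨⟨{x | ∃ a < k, x ∈ (p a).F}, ?_, ?_, ?_⟩, fun a ha x hx => ⟨a, ha, hx⟩⟩
  · refine (Set.Finite.biUnion (Set.finite_Iio k) fun a _ => (p a).fin).subset ?_
    rintro x ⟨a, ha, hx⟩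
    exact Set.mem_biUnion ha hx
  · rintro j n l l' ⟨a, ha, h1⟩ ⟨b, hb, h2⟩
    exact h a ha b hb j n l l' h1 h2
  · rintro j n l ⟨a, ha, h1⟩
    exact (p a).lv j n l h1

theorem act_ck (g : Gp) (x : ZFSet.{0}) : act (sy.ac g) (check x) = check x :=
  act_check (sy.top g) x

/-- Forced nearness. -/
def Nf (D : PName Cd) (n : ℕ) (x y : PName Cd) (p : Cd) : Prop :=
  Fmem (opN (opN x y) (check (nat n))) D p

theorem Nf.mono {D : PName Cd} {n : ℕ} {x y : PName Cd} {p q : Cd} (h : Nf D n x y p)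
    (hq : q ≤ p) : Nf D n x y q := Fmem.mono h hq

theorem nf_dense {D : PName Cd} {n : ℕ} {x y : PName Cd} {p : Cd}
    (h : ∀ q ≤ p, ∃ s ≤ q, Nf D n x y s) : Nf D n x y p := fmem_dense h

theorem nf_act {D : PName Cd} {n : ℕ} {x y : PName Cd} {p : Cd} {g : Gp} (h : Nf D n x y p)
    (hD : ∀ p, Feq (act (sy.ac g) D) D p) :
    Nf D n (act (sy.ac g) x) (act (sy.ac g) y) (mc g p) := by
  have h1 : Fmem _ _ (mc g p) := fmem_act' (e := sy.ac g) h
  rw [act_opN (sy.top g), act_opN (sy.top g), act_ck] at h1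
  exact fmem_congr (Feq.refl _ _) (hD _) h1

theorem nf_congr {D : PName Cd} {n : ℕ} {x y x' y' : PName Cd} {p : Cd} (h : Nf D n x y p)
    (hx : Feq x x' p) (hy : Feq y y' p) : Nf D n x' y' p :=
  fmem_congr (feq_opN (feq_opN hx hy) (Feq.refl _ _)) (Feq.refl _ _) h

theorem ac_mul (g h : Gp) (x : PName Cd) :
    act (sy.ac (g * h)) x = act (sy.ac g) (act (sy.ac h) x) := by
  have h1 : sy.ac (g * h) = sy.ac g * sy.ac h := map_mul ac g h
  rw [h1, act_mul]

theorem ac_one (x : PName Cd) : act (sy.ac (1 : Gp)) x = x := by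
  have h1 : sy.ac (1 : Gp) = 1 := map_one ac
  rw [h1, act_one]

/-- Elements of the group that agree on the support. -/
theorem feq_agree {F : Finset J} {x : PName Cd} (hx : sy.Fix (Fx F) x) {g h : Gp}
    (hgh : ∀ j ∈ F, g.1 j = h.1 j) (p : Cd) : Feq (act (sy.ac g) x) (act (sy.ac h) x) p := by
  have h1 : h⁻¹ * g ∈ Fx F := by
    intro j hj
    change h.1.symm (g.1 j) = j
    rw [hgh j hj, Equiv.symm_apply_apply]
  have h2 := hx _ h1 (mc h⁻¹ p)
  have h3 := feq_act' (e := sy.ac h) h2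
  rw [← ac_mul, mul_inv_cancel_left] at h3
  have h4 : (sy.ac h) (mc h⁻¹ p) = p := by
    change mc h (mc h⁻¹ p) = p
    rw [← mc_mul, mul_inv_cancel, mc_one]
  rwa [h4] at h3

/-- What is forced about the space. -/
structure Gd (X D : PName Cd) (n k : ℕ) (q : Cd) : Prop where
  symm : ∀ p ≤ q, ∀ x y m, Nf D m x y p → Nf D m y x p
  tri : ∀ p ≤ q, ∀ x y z m, Nf D (m + 1) x y p → Nf D (m + 1) y z p → Nf D m x z p
  tb : ∀ p ≤ q, ∀ x : ℕ → PName Cd, (∀ a < k, Fmem (x a) X p) →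
    ∃ r ≤ p, ∃ a < k, ∃ b < k, a ≠ b ∧ Nf D (n + 1) (x a) (x b) r

/-- Finding many independent copies. -/
theorem exists_copies (E S : Set J) (hE : E ⊆ S) (hS : S.Finite) : ∃ g : ℕ → Gp,
    (∀ a, ∀ j ∈ E, (g a).1 j = j) ∧ (∀ j ∈ S, (g 0).1 j = j) ∧
    ∀ a b, a ≠ b → ∀ i ∈ S, i ∉ E → ∀ j ∈ S, (g a).1 i ≠ (g b).1 j := by
  classical
  obtain ⟨N, hN⟩ := exists_bd S hS
  have h1 : ∀ a : ℕ, ∃ g : Gp, ∀ j ∈ S, g.1 j = if j ∈ E then j else (j.1, j.2 + a * N) := by
    intro a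
    refine exists_ext S hS _ (fun j _ => by split_ifs <;> rfl) ?_
    intro i hi j hj hij
    dsimp only at hij
    have hi' := hN i hi
    have hj' := hN j hj
    split_ifs at hij with h2 h3 h3
    · exact hij
    · rw [Prod.ext_iff] at hij
      obtain ⟨h4, h5⟩ := hij
      simp only at h4 h5
      rcases Nat.eq_zero_or_pos a with rfl | ha
      · exact Prod.ext h4 (by simpa using h5)
      · have := Nat.le_mul_of_pos_left N ha
        omega
    · rw [Prod.ext_iff] at hij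
      obtain ⟨h4, h5⟩ := hij
      simp only at h4 h5
      rcases Nat.eq_zero_or_pos a with rfl | ha
      · exact Prod.ext h4 (by simpa using h5)
      · have := Nat.le_mul_of_pos_left N ha
        omega
    · rw [Prod.mk.injEq] at hij
      exact Prod.ext hij.1 (by omega)
  choose g hg using h1
  refine ⟨g, fun a j hj => ?_, fun j hj => ?_, fun a b hab i hi hiE j hj h => ?_⟩
  · rw [hg a j (hE hj), if_pos hj]
  · rw [hg 0 j hj]
    split_ifs
    · rfl
    · simp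
  · have hi' := hN i hi
    have hj' := hN j hj
    rw [hg a i hi, if_neg hiE, hg b j hj] at h
    split_ifs at h with h2
    · rw [Prod.ext_iff] at h
      obtain ⟨h4, h5⟩ := h
      simp only at h4 h5
      rcases Nat.eq_zero_or_pos a with rfl | ha
      · exact hiE ((Prod.ext h4 (by simpa using h5) : i = j) ▸ h2)
      · have := Nat.le_mul_of_pos_left N ha
        omega
    · rw [Prod.mk.injEq] at h
      apply hab
      have h6 : (i.2 + a * N) / N = (j.2 + b * N) / N := by rw [h.2]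
      have hN0 : 0 < N := by omega
      rwa [Nat.add_mul_div_right _ _ hN0, Nat.add_mul_div_right _ _ hN0,
        Nat.div_eq_of_lt hi', Nat.div_eq_of_lt hj', Nat.zero_add, Nat.zero_add] at h6

/-- The key lemma: some condition forces that the name is near all of its translates. -/
theorem key {X D x : PName Cd} {E F : Finset J} (hX : sy.Fix (Fx E) X) (hD : sy.Fix (Fx E) D)
    (hx : sy.Fix (Fx F) x) (hEF : E ⊆ F) {n k : ℕ} {q0 : Cd} (hG : Gd X D n k q0)
    (hxX : Fmem x X q0) : ∃ q' ≤ q0, ∀ τ ∈ Fx E, ∀ r ≤ q', r ≤ mc τ q' →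
      Nf D n x (act (sy.ac τ) x) r := by
  classical
  set S : Set J := (F : Set J) ∪ q0.dom with hS
  have hSf : S.Finite := F.finite_toSet.union q0.dom_fin
  have hES : (E : Set J) ⊆ S := fun j hj => Or.inl (hEF hj)
  have hFS : ∀ j ∈ F, j ∈ S := fun j hj => Or.inl hj
  obtain ⟨g, hg1, hg2, hg3⟩ := exists_copies (E : Set J) S hES hSf
  have hgE : ∀ a, g a ∈ Fx E := fun a j hj => hg1 a j hj
  -- the common extension of the copies
  obtain ⟨r0, hr0⟩ := join_fam (k := k + 1) (fun a => mc (g a) q0) (by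
    rintro a - b - j n l l' h1 h2
    by_cases hab : a = b
    · subst hab
      exact (mc (g a) q0).fn j n l l' h1 h2
    · obtain ⟨⟨i, n1, l1⟩, h3, h4⟩ := h1
      obtain ⟨⟨i', n2, l2⟩, h5, h6⟩ := h2
      simp only [mf, Prod.mk.injEq] at h4 h6
      obtain ⟨h7, rfl, rfl⟩ := h4
      obtain ⟨h8, rfl, rfl⟩ := h6
      have hi : i ∈ S := Or.inr (Cd.mem_dom h3)
      have hi' : i' ∈ S := Or.inr (Cd.mem_dom h5)
      have hiE : i ∈ (E : Set J) := by
        by_contra hc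
        exact hg3 a b hab i hi hc i' hi' (h7.trans h8.symm)
      have hiE' : i' ∈ (E : Set J) := by
        by_contra hc
        exact hg3 b a (Ne.symm hab) i' hi' hc i hi (h8.trans h7.symm)
      rw [hg1 a i hiE] at h7
      rw [hg1 b i' hiE'] at h8
      rw [← h8] at h7
      subst h7
      exact q0.fn _ _ _ _ h3 h5)
  have hr00 : r0 ≤ q0 := by
    refine (hr0 0 (Nat.succ_pos _)).trans ?_
    rintro ⟨j, n, l⟩ h
    have h1 := hg2 j (Or.inr (Cd.mem_dom h))
    rw [← h1]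
    exact mem_mc.2 h
  obtain ⟨r, hr, a, ha, b, hb, hab, hN⟩ := hG.tb r0 hr00 (fun a => act (sy.ac (g a)) x)
    fun a ha => by
      have h1 : Fmem (act (sy.ac (g a)) x) (act (sy.ac (g a)) X) (mc (g a) q0) :=
        fmem_act' (e := sy.ac (g a)) hxX
      exact (fmem_congr (Feq.refl _ _) (hX _ (hgE a) _) h1).mono (hr0 a (by omega))
  -- move back
  set ρ : Gp := (g a)⁻¹ * g b with hρ
  have hρE : ρ ∈ Fx E := (Fx E).mul_mem ((Fx E).inv_mem (hgE a)) (hgE b)
  set r1 : Cd := mc (g a)⁻¹ r with hr1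
  have hN1 : Nf D (n + 1) x (act (sy.ac ρ) x) r1 := by
    have h1 := nf_act (g := (g a)⁻¹) hN (hD _ ((Fx E).inv_mem (hgE a)))
    rw [← ac_mul, ← ac_mul, inv_mul_cancel, ac_one] at h1
    exact h1
  have hmono : ∀ (h : Gp) {p q : Cd}, p ≤ q → mc h p ≤ mc h q := by
    intro h p q hpq
    exact (sy.ac h).le_iff_le.2 hpq
  have hr1q : r1 ≤ q0 := by
    have h1 := hmono (g a)⁻¹ (hr.trans (hr0 a (by omega)))
    rwa [← mc_mul, inv_mul_cancel, mc_one] at h1
  have hρS : ∀ i ∈ S, i ∉ (E : Set J) → ρ.1 i ∉ S := by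
    intro i hi hiE hc
    refine hg3 b a (Ne.symm hab) i hi hiE _ hc ?_
    change (g b).1 i = (g a).1 ((g a).1.symm ((g b).1 i))
    rw [Equiv.apply_symm_apply]
  refine ⟨r1.res S, Cd.res_le hr1q Set.subset_union_right, ?_⟩
  intro τ hτ r2 hr2 hr2'
  refine nf_dense fun r'' hr'' => ?_
  have h'' : r'' ≤ r1.res S := hr''.trans hr2
  have h''' : r'' ≤ mc τ (r1.res S) := hr''.trans hr2'
  -- the first copy
  obtain ⟨σ, hσ1, hσ2⟩ := exists_fresh S (r1.dom ∪ ρ.1 '' S) (S ∪ r''.dom ∪ τ.1 '' S) hSf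
    (r1.dom_fin.union (hSf.image _)) ((hSf.union r''.dom_fin).union (hSf.image _)) 1
  have hσ1' : ∀ j ∈ S, σ.1 j = j := hσ1
  -- the second copy
  obtain ⟨θ, hθ1, hθ2, hθ3⟩ := exists_fresh2 S (ρ.1 '' S) r1.dom (r''.dom ∪ σ.1 '' r1.dom) hSf
    (hSf.image _) r1.dom_fin (r''.dom_fin.union (r1.dom_fin.image _)) τ σ (by
      intro i hi j hj hjS h
      exact hσ2 j (Or.inr hj) hjS (Or.inr ⟨i, hi, h⟩))
  have hσE : σ ∈ Fx E := fun j hj => hσ1' j (hES hj)
  have hθE : θ ∈ Fx E := fun j hj => by rw [hθ1 j (hES hj)]; exact hτ j hj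
  have A1 : Cd.Agr r'' (mc σ r1) := by
    rintro j n l l' h1 ⟨⟨i, n1, l1⟩, h3, h4⟩
    simp only [mf, Prod.mk.injEq] at h4
    obtain ⟨h5, rfl, rfl⟩ := h4
    by_cases hi : i ∈ S
    · rw [hσ1' i hi] at h5
      subst h5
      exact r''.fn _ _ _ _ h1 (h'' ⟨h3, hi⟩)
    · refine absurd ?_ (hσ2 i (Or.inl (Cd.mem_dom h3)) hi)
      rw [h5]
      exact Or.inl (Or.inr (Cd.mem_dom h1))
  have A2 : Cd.Agr r'' (mc θ r1) := by
    rintro j n l l' h1 ⟨⟨i, n1, l1⟩, h3, h4⟩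
    simp only [mf, Prod.mk.injEq] at h4
    obtain ⟨h5, rfl, rfl⟩ := h4
    by_cases hi : i ∈ S
    · rw [hθ1 i hi] at h5
      subst h5
      exact r''.fn _ _ _ _ h1 (h''' (mem_mc.2 ⟨h3, hi⟩))
    · by_cases hi' : i ∈ ρ.1 '' S
      · rw [hθ2 i hi' hi] at h5
        refine absurd ?_ (hσ2 i (Or.inr hi') hi)
        rw [h5]
        exact Or.inl (Or.inr (Cd.mem_dom h1))
      · refine absurd ?_ (hθ3 i (Cd.mem_dom h3) hi hi')
        rw [h5]
        exact Or.inl (Cd.mem_dom h1)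
  have A3 : Cd.Agr (mc σ r1) (mc θ r1) := by
    rintro j n l l' ⟨⟨i, n1, l1⟩, h1, h2⟩ ⟨⟨i', n2, l2⟩, h3, h4⟩
    simp only [mf, Prod.mk.injEq] at h2 h4
    obtain ⟨h5, rfl, rfl⟩ := h2
    obtain ⟨h6, rfl, rfl⟩ := h4
    by_cases hi' : i' ∈ S
    · rw [hθ1 i' hi'] at h6
      by_cases hi : i ∈ S
      · rw [hσ1' i hi] at h5
        subst h5
        have h7 : (i, n2, l1) ∈ r''.F := h'' ⟨h1, hi⟩
        have h8 : (τ.1 i', n2, l2) ∈ r''.F := h''' (mem_mc.2 ⟨h3, hi'⟩)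
        rw [h6] at h8
        exact r''.fn _ _ _ _ h7 h8
      · refine absurd ?_ (hσ2 i (Or.inl (Cd.mem_dom h1)) hi)
        rw [h5, ← h6]
        exact Or.inr ⟨i', hi', rfl⟩
    · by_cases hi2 : i' ∈ ρ.1 '' S
      · rw [hθ2 i' hi2 hi'] at h6
        have h7 := σ.1.injective (h5.trans h6.symm)
        subst h7
        exact r1.fn _ _ _ _ h1 h3
      · refine absurd ?_ (hθ3 i' (Cd.mem_dom h3) hi' hi2)
        rw [h6, ← h5]
        exact Or.inr ⟨i, Cd.mem_dom h1, rfl⟩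
  have A4 : Cd.Agr (Cd.un r'' (mc σ r1) A1) (mc θ r1) := by
    rintro j n l l' (h1 | h1) h2
    · exact A2 j n l l' h1 h2
    · exact A3 j n l l' h1 h2
  set r3 : Cd := Cd.un (Cd.un r'' (mc σ r1) A1) (mc θ r1) A4 with hr3
  have hr3a : r3 ≤ r'' := (Cd.un_le_left A4).trans (Cd.un_le_left A1)
  have hr3b : r3 ≤ mc σ r1 := (Cd.un_le_left A4).trans (Cd.un_le_right A1)
  have hr3c : r3 ≤ mc θ r1 := Cd.un_le_right A4
  have hr3q : r3 ≤ q0 := hr3a.trans (h''.trans (Cd.res_le hr1q Set.subset_union_right))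
  refine ⟨r3, hr3a, ?_⟩
  have B1 : Nf D (n + 1) x (act (sy.ac (σ * ρ)) x) r3 := by
    have h1 := (nf_act (g := σ) hN1 (hD _ hσE)).mono hr3b
    rw [← ac_mul] at h1
    refine nf_congr h1 ?_ (Feq.refl _ _)
    have h2 := feq_agree hx (g := σ) (h := 1) (fun j hj => hσ1' j (hFS j hj)) r3
    rwa [ac_one] at h2
  have B2 : Nf D (n + 1) (act (sy.ac τ) x) (act (sy.ac (σ * ρ)) x) r3 := by
    have h1 := (nf_act (g := θ) hN1 (hD _ hθE)).mono hr3c
    rw [← ac_mul] at h1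
    refine nf_congr h1 (feq_agree hx (fun j hj => hθ1 j (hFS j hj)) _)
      (feq_agree hx (fun j hj => ?_) _)
    change θ.1 (ρ.1 j) = σ.1 (ρ.1 j)
    by_cases hjE : j ∈ (E : Set J)
    · rw [hρE j hjE, hθE j hjE, hσE j hjE]
    · exact hθ2 _ ⟨j, hFS j hj, rfl⟩ (hρS j (hFS j hj) hjE)
  exact hG.tri r3 hr3q _ _ _ n B1 (hG.symm r3 hr3q _ _ _ B2)

end Pool.Agent.R596.FC
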