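import Pool.Agent.R596.FcCol

/-!
# Compact metrizable separability without countable unions of countable sets
-/

set_option autoImplicit false
set_option linter.all false

namespace Pool.Agent.R596.FC

open Pool.Agent.W868 Pool.Agent.W868.PName Pool.Agent.R596.SY Pool.Agent.R596Fc
open ZFSet (pair)

/-- The value is an injective total relation. -/
def RI (F : PName Cd) (π : Pkg Cd) : Prop :=
  (∀ a ∈ π.hat Lam, ∃ n ∈ π.hat ZFSet.omega, pair a n ∈ π.val F) ∧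
    ∀ a ∈ π.W, ∀ b ∈ π.W, ∀ c ∈ π.W, pair a c ∈ π.val F → pair b c ∈ π.val F → a = b

/-- The parameters. -/
noncomputable def sI (F : PName Cd) : Set (PName Cd) := {F, check Lam, check ZFSet.omega}

theorem dfn_RI (F : PName Cd) : NDfn (sI F) fun π (_ : Fin 0 → ZFSet.{0}) => RI F π := by
  have h1 : F ∈ sI F := by simp [sI]
  have h2 : check Lam ∈ sI F := by simp [sI]
  have h3 : check ZFSet.omega ∈ sI F := by simp [sI]
  unfold RI
  refine NDfn.and ?_ ?_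
  · refine NDfn.ball (NDfnF.hat h2) (NDfn.bex (NDfnF.hat h3) ?_)
    exact NDfn.mem (NDfnF.pair (NDfnF.proj 1) (NDfnF.proj 0)) (NDfnF.val h1)
  · refine NDfn.all (NDfn.all (NDfn.all (NDfn.imp ?_ (NDfn.imp ?_ ?_))))
    · exact NDfn.mem (NDfnF.pair (NDfnF.proj 2) (NDfnF.proj 0)) (NDfnF.val h1)
    · exact NDfn.mem (NDfnF.pair (NDfnF.proj 1) (NDfnF.proj 0)) (NDfnF.val h1)
    · exact NDfn.eq (NDfnF.proj 2) (NDfnF.proj 1)

/-- The limit of the cardinals is not countable in the model. -/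
theorem not_ctb {π : Pkg Cd} (hb : base ⊆ π.N) (hcl : sy.Cld π) :
    ¬ Ctb (sy.Ms π) (π.hat Lam) := by
  rintro ⟨f, ⟨F, ⟨nF, sF⟩, rfl⟩, hf⟩
  have hM := zf_Ms hcl
  obtain ⟨_, ⟨E, rfl⟩, fF⟩ := sF.sym
  have hS : sI F ⊆ π.N := by
    rintro z (rfl | rfl | rfl)
    · exact nF
    · exact Z_Lam hb
    · exact π.om
  have hR : RI F π := by
    refine ⟨fun a ha => ?_, fun a _ b _ c _ h1 h2 => hf.2 a b c h1 h2⟩
    obtain ⟨n, hn, h1⟩ := fun_exists hf.1 ha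
    rw [π.hat_omega]
    exact ⟨n, hn, h1⟩
  obtain ⟨k0, hk0⟩ := forcing_theorem (dfn_RI F) π hS hR
  have h1 : ∀ l : La, ∃ n : ℕ, ∃ q ≤ π.g k0,
      Fmem (opN (check (ol l)) (check (nat n))) F q := by
    intro l
    obtain ⟨π', h2, h3, h4⟩ := pkg (sI F ∪ {check (ol l)}) (by
      unfold sI
      exact (Set.toFinite _).countable) (π.g k0)
    have nL : Lam ∈ π'.Z := h2 (Or.inl (by simp [sI]))
    have nl : ol l ∈ π'.Z := h2 (Or.inr rfl)
    have nF' : F ∈ π'.N := h2 (Or.inl (by simp [sI]))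
    have h5 := hk0 π' (fun z hz => h2 (Or.inl hz)) ⟨0, h4 0⟩
    obtain ⟨n, hn, h6⟩ := h5.1 _ ((π'.hat_mem_hat nl nL).2 (mem_Lam.2 ⟨l, rfl⟩))
    rw [π'.hat_omega] at hn
    obtain ⟨n, rfl⟩ := mem_omega_iff.1 hn
    have h7 : π'.val (opN (check (ol l)) (check (nat n))) ∈ π'.val F := by
      rw [π'.val_opN nl (check_nat_N π' n), val_check_nat]
      exact h6
    obtain ⟨k, hk⟩ := (π'.val_mem_iff (π'.opN_mem nl (check_nat_N π' n)) nF').1 h7
    exact ⟨n, π'.g k, h4 k, hk⟩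
  choose n q hq1 hq2 using h1
  obtain ⟨l, l', hne, hn, hres⟩ := pigeon E n q
  obtain ⟨τ, hτ, r, hr1, hr2⟩ := homog hres
  have h2 : Fmem (opN (check (ol l)) (check (nat (n l)))) F r := by
    have h3 : Fmem (act (sy.ac τ) (opN (check (ol l)) (check (nat (n l))))) (act (sy.ac τ) F)
        (mc τ (q l)) := fmem_act' (e := sy.ac τ) (hq2 l)
    rw [act_opN (sy.top τ), act_ck, act_ck] at h3
    exact (fmem_congr (Feq.refl _ _) (fF τ hτ _) h3).mono hr1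
  have h3 : Fmem (opN (check (ol l')) (check (nat (n l)))) F r := by
    rw [hn]
    exact (hq2 l').mono hr2
  obtain ⟨π', h4, h5, h6⟩ := pkg (sI F ∪ {check (ol l), check (ol l')}) (by
    unfold sI
    exact (Set.toFinite _).countable) r
  have nl : ol l ∈ π'.Z := h4 (Or.inr (by simp))
  have nl' : ol l' ∈ π'.Z := h4 (Or.inr (by simp))
  have nF' : F ∈ π'.N := h4 (Or.inl (by simp [sI]))
  have h7 := hk0 π' (fun z hz => h4 (Or.inl hz)) ⟨0, (h6 0).trans (hr2.trans (hq1 l'))⟩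
  have h8 : ∀ k : La, ol k ∈ π'.Z → Fmem (opN (check (ol k)) (check (nat (n l)))) F r →
      pair (π'.hat (ol k)) (nat (n l)) ∈ π'.val F := by
    intro k hk h
    have h9 := mem_of_fmem (π := π') (π'.opN_mem hk (check_nat_N π' (n l))) nF' (h6 0) h
    rw [π'.val_opN hk (check_nat_N π' _), val_check_nat] at h9
    exact h9
  have h9 := h7.2 _ (π'.V_subset_W (π'.of_hat_mem_V nl)) _
    (π'.V_subset_W (π'.of_hat_mem_V nl')) _ (π'.isZF_W.nat_mem (n l)) (h8 l nl h2) (h8 l' nl' h3)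
  rw [π'.hat_inj nl nl'] at h9
  exact hne (ol_injective h9)

theorem mcs_Ms {π : Pkg Cd} (hg : ClR RR π) (hcl : sy.Cld π) : MCS (sy.Ms π) :=
  mcs_of (zf_Ms hcl) fun X hX D hD hU hs hc => sep_Ms hg hcl hX hD hU hs hc

/-- The model. -/
theorem main : ∃ M : Set ZFSet.{0}, M.Countable ∧ IsZF M ∧ MCS M ∧ ¬ CUC M := by
  obtain ⟨π, hb, hg, hcl, -, -⟩ := exists_gd ∅ Set.countable_empty ⊤
  have hM := zf_Ms hcl
  refine ⟨sy.Ms π, π.countable_W.mono fun x hx => Ms_W hx, hM, mcs_Ms hg hcl, fun h => ?_⟩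
  have h1 := h (π.hat A0) (hat_Ms (Z_A0 hb)) (ctb_A0 hb) (fun a ha => by
    obtain ⟨i, rfl⟩ := (mem_hat_A0 hb).1 ha
    exact ctb_Om hb hcl i)
  refine not_ctb hb hcl (Inj.trans hM (hat_Ms (Z_Lam hb)) hM.infinity
    (Inj.of_subset hM (hat_Ms (Z_Lam hb)) (hM.union _ (hat_Ms (Z_A0 hb))) ?_) h1)
  intro x hx
  obtain ⟨i, hi⟩ := hat_Lam_sub hb hx
  exact ZFSet.mem_sUnion.2 ⟨_, (mem_hat_A0 hb).2 ⟨i, rfl⟩, hi⟩

end Pool.Agent.R596.FC
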