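import Pool.Agent.R596.FcSep

/-!
# Separability from well-ordered families of small sets: the main statement
-/

set_option autoImplicit false
set_option linter.all false

namespace Pool.Agent.R596.FC

open Pool.Agent.W868 Pool.Agent.R596Fc
open ZFSet (pair)

theorem Unif.mono {X D : ZFSet.{0}} (h : Unif X D) {x y : ZFSet.{0}} (hx : x ∈ X) (hy : y ∈ X)
    {n : ℕ} (h1 : Nr D (nat (n + 1)) x y) : Nr D (nat n) x y :=
  h.tri x hx y hy y hy n h1 (h.refl y hy _)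

section

variable {M : Set ZFSet.{0}} (hM : IsZF M) {X D : ZFSet.{0}} (hX : X ∈ M) (hD : D ∈ M)
  (hU : Unif X D) (hc : Cpt M X D)

include hM hX hD hU hc

theorem chain {𝒦 : ZFSet.{0}} (h : 𝒦 ∈ M) (h1 : ∀ K ∈ 𝒦, Cls X D K)
    (h2 : ∀ K ∈ 𝒦, ∀ L ∈ 𝒦, K ⊆ L ∨ L ⊆ K) (h3 : ∀ K ∈ 𝒦, ∃ z, z ∈ K) (h4 : ∃ K, K ∈ 𝒦) :
    ∃ z, ∀ K ∈ 𝒦, z ∈ K := by
  by_contra hn
  push Not at hn
  let co : ZFSet.{0} → ZFSet.{0} := fun K => ZFSet.sep (fun x => x ∉ K) X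
  have dco : DfnF M M fun w : Fin 1 → ZFSet.{0} => co (w 0) :=
    hM.sep' (Q := fun x v => x ∉ v 0) (DfnF.const hX)
      (Dfn.not (Dfn.mem (DfnF.proj 0) (DfnF.proj 1)))
  obtain ⟨ℱ, hf, hf1, hf2⟩ := hc (im co 𝒦) (hM.im_mem h dco) (by
    intro U hU'
    obtain ⟨K, hK, rfl⟩ := mem_im.1 hU'
    refine ⟨fun x hx => (ZFSet.mem_sep.1 hx).1, fun x hx => ?_⟩
    obtain ⟨hx1, hx2⟩ := ZFSet.mem_sep.1 hx
    obtain ⟨n, hn⟩ := (h1 K hK).2 x hx1 hx2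
    exact ⟨n, fun y hy h => ZFSet.mem_sep.2 ⟨hy, hn y hy h⟩⟩) (by
    intro x hx
    obtain ⟨K, hK, h5⟩ := hn x
    exact ⟨_, mem_im.2 ⟨K, hK, rfl⟩, ZFSet.mem_sep.2 ⟨hx, h5⟩⟩)
  have key : ∀ 𝒢 : Set ZFSet.{0}, 𝒢.Finite → (∀ U ∈ 𝒢, U ∈ im co 𝒦) →
      ∃ K ∈ 𝒦, ∀ U ∈ 𝒢, ∀ z ∈ K, z ∉ U := by
    intro 𝒢 h5
    induction 𝒢, h5 using Set.Finite.induction_on with
    | empty =>
      intro _
      obtain ⟨K, hK⟩ := h4
      exact ⟨K, hK, fun U hU => absurd hU (Set.notMem_empty _)⟩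
    | @insert a s ha hs ih =>
      intro h6
      obtain ⟨K, hK, h7⟩ := ih fun U hU => h6 U (Set.mem_insert_of_mem _ hU)
      obtain ⟨L, hL, rfl⟩ := mem_im.1 (h6 a (Set.mem_insert _ _))
      rcases h2 K hK L hL with h8 | h8
      · refine ⟨K, hK, fun U hU z hz => ?_⟩
        rcases hU with rfl | hU
        · exact fun h9 => (ZFSet.mem_sep.1 h9).2 (h8 hz)
        · exact h7 U hU z hz
      · refine ⟨L, hL, fun U hU z hz => ?_⟩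
        rcases hU with rfl | hU
        · exact fun h9 => (ZFSet.mem_sep.1 h9).2 hz
        · exact h7 U hU z (h8 hz)
  obtain ⟨K, hK, h5⟩ := key ℱ hf hf1
  obtain ⟨z, hz⟩ := h3 K hK
  obtain ⟨U, hU1, hU2⟩ := hf2 z ((h1 K hK).1 hz)
  exact h5 U hU1 z hz hU2

theorem sepfin {A : Set ZFSet.{0}} (hA : ∀ a ∈ A, a ∈ X) {n : ℕ}
    (h : ∀ a ∈ A, ∀ b ∈ A, a ≠ b → ¬ Nr D (nat n) a b) : A.Finite := by
  let O : ZFSet.{0} → ZFSet.{0} := fun x => ZFSet.sep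
    (fun y => ∃ m ∈ ZFSet.omega, ∀ z ∈ X, Nr D m y z → Nr D (nat (n + 1)) x z) X
  have dO : DfnF M M fun w : Fin 1 → ZFSet.{0} => O (w 0) := by
    refine hM.sep' (Q := fun y v => ∃ m ∈ ZFSet.omega, ∀ z ∈ X, Nr D m y z →
      Nr D (nat (n + 1)) (v 0) z) (DfnF.const hX) ?_
    refine hM.base.bex (DfnF.const hM.infinity) (hM.base.ball (DfnF.const hX) (Dfn.imp ?_ ?_))
    · exact dfn_Nr hM hD (DfnF.proj 1) (DfnF.proj 2) (DfnF.proj 0)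
    · exact dfn_Nr hM hD (DfnF.const (hM.nat_mem _)) (DfnF.proj 3) (DfnF.proj 0)
  obtain ⟨ℱ, hf, hf1, hf2⟩ := hc (im O X) (hM.im_mem hX dO) (by
    intro U hU'
    obtain ⟨x, hx, rfl⟩ := mem_im.1 hU'
    refine ⟨fun x hx => (ZFSet.mem_sep.1 hx).1, fun y hy => ?_⟩
    obtain ⟨hy1, hy2⟩ := ZFSet.mem_sep.1 hy
    obtain ⟨m, hm⟩ := ex_nat.1 hy2
    refine ⟨m + 1, fun z hz h1 => ZFSet.mem_sep.2 ⟨hz, ex_nat.2 ⟨m + 1, fun w hw h2 => ?_⟩⟩⟩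
    exact hm w hw (hU.tri y hy1 z hz w hw m h1 h2)) (by
    intro x hx
    exact ⟨_, mem_im.2 ⟨x, hx, rfl⟩, ZFSet.mem_sep.2 ⟨hx, ex_nat.2 ⟨n + 1, fun z _ h => h⟩⟩⟩)
  have h1 : ∀ a : A, ∃ U ∈ ℱ, (a : ZFSet.{0}) ∈ U := fun a => hf2 a.1 (hA a.1 a.2)
  choose f hf3 hf4 using h1
  haveI := hf.to_subtype
  have h2 : Function.Injective fun a : A => (⟨f a, hf3 a⟩ : ℱ) := by
    intro a b hab
    by_contra hne
    have hab' : f a = f b := congrArg Subtype.val hab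
    obtain ⟨x, hx, h3⟩ := mem_im.1 (hf1 _ (hf3 a))
    have h4 := hf4 a
    have h5 := hf4 b
    rw [← hab', h3] at h5
    rw [h3] at h4
    obtain ⟨m, hm⟩ := ex_nat.1 (ZFSet.mem_sep.1 h4).2
    obtain ⟨m', hm'⟩ := ex_nat.1 (ZFSet.mem_sep.1 h5).2
    have h6 := hm a.1 (hA a.1 a.2) (hU.refl _ (hA a.1 a.2) _)
    have h7 := hm' b.1 (hA b.1 b.2) (hU.refl _ (hA b.1 b.2) _)
    refine h a.1 a.2 b.1 b.2 (fun h => hne (Subtype.ext h)) ?_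
    exact hU.tri _ (hA a.1 a.2) _ hx _ (hA b.1 b.2) n
      (hU.symm _ hx _ (hA a.1 a.2) _ h6) h7
  haveI : Finite A := Finite.of_injective _ h2
  exact Set.toFinite A

variable {κ : ZFSet.{0}} (hκ : κ ∈ M) (hκo : κ.IsOrdinal) {V : ZFSet.{0} → ZFSet.{0}}
  (hV : DfnF M M fun w : Fin 1 → ZFSet.{0} => V (w 0)) (hVX : ∀ α ∈ κ, V α ⊆ X)

include hκ hκo hV hVX

theorem sep_of_key (key : ∀ x ∈ X, ∀ n, ∃ α ∈ κ, x ∈ V α ∧ ∀ y ∈ V α, ∀ z ∈ V α,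
    Nr D (nat n) y z) :
    ∃ S ∈ M, S ⊆ X ∧ Ctb M S ∧ ∀ x ∈ X, ∀ n, ∃ s ∈ S, Nr D (nat n) x s := by
  have hB := hM.base
  have hω := hM.infinity
  let cl : ZFSet.{0} → ZFSet.{0} := fun α =>
    ZFSet.sep (fun x => ∀ i ∈ ZFSet.omega, ∃ y ∈ V α, Nr D i x y) X
  have dcl : DfnF M M fun w : Fin 1 → ZFSet.{0} => cl (w 0) := by
    refine hM.sep' (Q := fun x v => ∀ i ∈ ZFSet.omega, ∃ y ∈ V (v 0), Nr D i x y)
      (DfnF.const hX) ?_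
    refine hB.ball (DfnF.const hω) (hB.bex (DfnF.comp1 (f := V) hV (DfnF.proj 2)) ?_)
    exact dfn_Nr hM hD (DfnF.proj 1) (DfnF.proj 2) (DfnF.proj 0)
  have clX : ∀ α, cl α ⊆ X := fun α x hx => (ZFSet.mem_sep.1 hx).1
  have cln : ∀ α, ∀ x ∈ cl α, ∀ n, ∃ y ∈ V α, Nr D (nat n) x y :=
    fun α x hx => all_nat.1 (ZFSet.mem_sep.1 hx).2
  have Vcl : ∀ α ∈ κ, ∀ x ∈ V α, x ∈ cl α := fun α hα x hx =>
    ZFSet.mem_sep.2 ⟨hVX α hα hx, all_nat.2 fun n => ⟨x, hx, hU.refl x (hVX α hα hx) n⟩⟩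
  have hcls : ∀ β ∈ κ, Cls X D (cl β) := by
    intro β hβ
    refine ⟨clX β, fun x hx hxn => ?_⟩
    have h1 : ∃ n, ∀ y ∈ V β, ¬ Nr D (nat n) x y := by
      by_contra hcon
      push Not at hcon
      exact hxn (ZFSet.mem_sep.2 ⟨hx, all_nat.2 hcon⟩)
    obtain ⟨n, hn⟩ := h1
    refine ⟨n + 1, fun z hz h2 h3 => ?_⟩
    obtain ⟨y, hy, h4⟩ := cln β z h3 (n + 1)
    exact hn y hy (hU.tri x hx z hz y (hVX β hβ hy) n h2 h4)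
  have small : ∀ x ∈ X, ∀ n, ∃ α ∈ κ, x ∈ V α ∧ ∀ y ∈ cl α, ∀ z ∈ cl α, Nr D (nat n) y z := by
    intro x hx n
    obtain ⟨α, hα, h1, h2⟩ := key x hx (n + 2)
    refine ⟨α, hα, h1, fun y hy z hz => ?_⟩
    obtain ⟨y', hy', h3⟩ := cln α y hy (n + 2)
    obtain ⟨z', hz', h4⟩ := cln α z hz (n + 2)
    have hyX := clX α hy
    have hzX := clX α hz
    have hyX' := hVX α hα hy'
    have hzX' := hVX α hα hz'
    have h5 := hU.tri y hyX y' hyX' z' hzX' (n + 1) h3 (h2 y' hy' z' hz')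
    exact hU.tri y hyX z' hzX' z hzX n h5 (hU.mono hzX' hzX (hU.symm z hzX z' hzX' _ h4))
  have hs : ∀ x ∈ X, ∀ y ∈ X, x ≠ y → ∃ β ∈ κ, x ∈ cl β ∧ y ∉ cl β := by
    intro x hx y hy hne
    have h1 : ∃ n, ¬ Nr D (nat n) x y := by
      by_contra hcon
      push Not at hcon
      exact hne (hU.sep x hx y hy hcon)
    obtain ⟨n, hn⟩ := h1
    obtain ⟨α, hα, h2, h3⟩ := small x hx n
    exact ⟨α, hα, Vcl α hα x h2, fun h => hn (h3 x (Vcl α hα x h2) y h)⟩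
  have hI : ∀ C, Cls X D C → ∀ Q : ZFSet.{0} → Prop, (∀ β, Q β → β ∈ κ) →
      Cls X D (ZFSet.sep (fun z => ∀ β, Q β → z ∈ cl β) C) := by
    intro C hC Q hQ
    refine ⟨fun x hx => hC.1 (ZFSet.mem_sep.1 hx).1, fun x hx hxn => ?_⟩
    by_cases h1 : x ∈ C
    · have h2 : ∃ β, Q β ∧ x ∉ cl β := by
        by_contra hcon
        push Not at hcon
        exact hxn (ZFSet.mem_sep.2 ⟨h1, hcon⟩)
      obtain ⟨β, h3, h4⟩ := h2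
      obtain ⟨n, hn⟩ := (hcls β (hQ β h3)).2 x hx h4
      exact ⟨n, fun y hy h h5 => hn y hy h ((ZFSet.mem_sep.1 h5).2 β h3)⟩
    · obtain ⟨n, hn⟩ := hC.2 x hx h1
      exact ⟨n, fun y hy h h5 => hn y hy h (ZFSet.mem_sep.1 h5).1⟩
  have hpk : ∀ {C : ZFSet.{0}}, C ∈ M → Cls X D C → (∃ z, z ∈ C) → pk cl κ C ∈ C :=
    fun hC h1 h2 => pk_mem hM dcl hκ hκo hcls hI (fun 𝒦 h3 h4 h5 h6 h7 =>
      chain hM hX hD hU hc h3 h4 h5 h6 h7) hs hC h1.1 h1 h2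
  let zf : ZFSet.{0} → ZFSet.{0} := fun α => pk cl κ (cl α)
  have dzf : DfnF M M fun w : Fin 1 → ZFSet.{0} => zf (w 0) :=
    DfnF.comp1 (f := pk cl κ) (dfn_pk hM dcl hκ) dcl
  have hzf : ∀ α ∈ κ, (∃ v ∈ V α, v = v) → zf α ∈ cl α := by
    rintro α hα ⟨v, hv, -⟩
    exact hpk (dcl.1 (fun _ => α) fun _ => hM.trans _ hκ _ hα) (hcls α hα) ⟨v, Vcl α hα v hv⟩
  let U : ZFSet.{0} → ZFSet.{0} := fun n => ZFSet.sep (fun α => (∃ v ∈ V α, v = v) ∧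
    ∀ β ∈ α, (∃ v ∈ V β, v = v) → ¬ Nr D n (zf α) (zf β)) κ
  have dU : DfnF M M fun w : Fin 1 → ZFSet.{0} => U (w 0) := by
    refine hM.sep' (Q := fun α v => (∃ v ∈ V α, v = v) ∧
      ∀ β ∈ α, (∃ v ∈ V β, v = v) → ¬ Nr D (v 0) (zf α) (zf β)) (DfnF.const hκ) ?_
    refine Dfn.and ?_ ?_
    · exact hB.bex (DfnF.comp1 (f := V) hV (DfnF.proj 0))
        (Dfn.eq (DfnF.proj 0) (DfnF.proj 0))
    · refine hB.ball (DfnF.proj 0) (Dfn.imp ?_ (Dfn.not ?_))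
      · exact hB.bex (DfnF.comp1 (f := V) hV (DfnF.proj 0))
          (Dfn.eq (DfnF.proj 0) (DfnF.proj 0))
      · exact dfn_Nr hM hD (DfnF.proj 2) (DfnF.comp1 (f := zf) dzf (DfnF.proj 1))
          (DfnF.comp1 (f := zf) dzf (DfnF.proj 0))
  have hfin : ∀ n ∈ ZFSet.omega, {x | x ∈ U n}.Finite := by
    rw [all_nat]
    intro n
    have h0 : ∀ α ∈ U (nat n), ∀ β ∈ U (nat n), α ≠ β → ¬ Nr D (nat n) (zf α) (zf β) := by
      intro α hα β hβ hne h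
      obtain ⟨h1, h2, h3⟩ := ZFSet.mem_sep.1 hα
      obtain ⟨h4, h5, h6⟩ := ZFSet.mem_sep.1 hβ
      rcases (hκo.mem h1).mem_trichotomous (hκo.mem h4) with h7 | h7 | h7
      · exact h6 α h7 h2 (hU.symm _ (clX _ (hzf α h1 h2)) _ (clX _ (hzf β h4 h5)) _ h)
      · exact hne h7
      · exact h3 β h7 h5 h
    have h1 : (zf '' {x | x ∈ U (nat n)}).Finite := by
      refine sepfin hM hX hD hU hc (n := n) ?_ ?_
      · rintro _ ⟨α, hα, rfl⟩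
        obtain ⟨h1, h2, h3⟩ := ZFSet.mem_sep.1 hα
        exact clX _ (hzf α h1 h2)
      · rintro _ ⟨α, hα, rfl⟩ _ ⟨β, hβ, rfl⟩ hne
        exact h0 α hα β hβ fun h => hne (by rw [h])
    refine Set.Finite.of_finite_image h1 ?_
    intro α hα β hβ h
    by_contra hne
    refine h0 α hα β hβ hne ?_
    obtain ⟨h1, h2, h3⟩ := ZFSet.mem_sep.1 hα
    rw [← h]
    exact hU.refl _ (clX _ (hzf α h1 h2)) _
  let W : ZFSet.{0} := ZFSet.sep (fun β => ∃ n ∈ ZFSet.omega, β ∈ U n) κ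
  have hW : W ∈ M := by
    refine hM.sep_mem (Q := fun β => ∃ n ∈ ZFSet.omega, β ∈ U n) ?_ hκ
    refine hM.base.bex (DfnF.const hω) ?_
    exact Dfn.mem (DfnF.proj 1) (DfnF.comp1 (f := U) dU (DfnF.proj 0))
  have hWc : Ctb M W := ctb_union hM hκ hκo dU (fun n _ x hx => (ZFSet.mem_sep.1 hx).1) hfin
  refine ⟨im zf W, hM.im_mem hW dzf, ?_, Inj.image hM hW hω isOrdinal_omega hWc dzf, ?_⟩
  · intro x hx
    obtain ⟨α, hα, rfl⟩ := mem_im.1 hx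
    obtain ⟨h1, n, hn, h2⟩ := ZFSet.mem_sep.1 hα
    exact clX _ (hzf α h1 (ZFSet.mem_sep.1 h2).2.1)
  · have dense : ∀ α : ZFSet.{0}, α ∈ κ → (∃ v ∈ V α, v = v) → ∀ n, ∃ s ∈ im zf W,
        Nr D (nat n) (zf α) s := by
      intro α
      induction α using ZFSet.inductionOn with
      | _ α ih =>
      intro hα hne n
      by_cases h : α ∈ W
      · exact ⟨zf α, mem_im.2 ⟨α, h, rfl⟩, hU.refl _ (clX _ (hzf α hα hne)) _⟩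
      · have h1 : ∃ β ∈ α, (∃ v ∈ V β, v = v) ∧ Nr D (nat (n + 1)) (zf α) (zf β) := by
          by_contra hcon
          push Not at hcon
          refine h (ZFSet.mem_sep.2 ⟨hα, ex_nat.2 ⟨n + 1, ZFSet.mem_sep.2 ⟨hα, hne, ?_⟩⟩⟩)
          rintro β hβ ⟨v, hv, -⟩
          exact hcon β hβ ⟨v, hv, rfl⟩
        obtain ⟨β, hβ, h2, h3⟩ := h1
        have hβκ := hκo.isTransitive.mem_trans hβ hα
        obtain ⟨s, hs1, hs2⟩ := ih β hβ hβκ h2 (n + 1)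
        have hsX : s ∈ X := by
          obtain ⟨γ, hγ, rfl⟩ := mem_im.1 hs1
          obtain ⟨h4, m, hm, h5⟩ := ZFSet.mem_sep.1 hγ
          exact clX _ (hzf γ h4 (ZFSet.mem_sep.1 h5).2.1)
        exact ⟨s, hs1, hU.tri _ (clX _ (hzf α hα hne)) _ (clX _ (hzf β hβκ h2)) _ hsX n h3 hs2⟩
    intro x hx n
    obtain ⟨α, hα, h1, h2⟩ := small x hx (n + 1)
    have h3 : ∃ v ∈ V α, v = v := ⟨x, h1, rfl⟩
    obtain ⟨s, hs1, hs2⟩ := dense α hα h3 (n + 1)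
    have hsX : s ∈ X := by
      obtain ⟨γ, hγ, rfl⟩ := mem_im.1 hs1
      obtain ⟨h4, m, hm, h5⟩ := ZFSet.mem_sep.1 hγ
      exact clX _ (hzf γ h4 (ZFSet.mem_sep.1 h5).2.1)
    exact ⟨s, hs1, hU.tri x hx _ (clX _ (hzf α hα h3)) s hsX n
      (h2 x (Vcl α hα x h1) _ (hzf α hα h3)) hs2⟩

end

end Pool.Agent.R596.FC
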