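import Pool.Agent.R596.FcKey
import Pool.Agent.R596.FcSep2

/-!
# The names of the small sets
-/

set_option autoImplicit false
set_option linter.all false

namespace Pool.Agent.R596.SY

open Pool.Agent.W868 Pool.Agent.W868.PName
open ZFSet (pair)

variable {P : Type} [Preorder P] [OrderTop P]

/-- The rule given by an operation on two names and a condition. -/
def rr2 (F : PName P → PName P → P → PName P) : Rule P := fun q => match q with
  | ⟨_, .mem s t, v, p⟩ => (F (tv v s) (tv v t) p, p)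
  | q => (emp, q.p)

theorem rr2_mem {R : Set (Rule P)} {π : Pkg P} (hR : ClR R π)
    {F : PName P → PName P → P → PName P} (hF : rr2 F ∈ R) {x y : PName P} (hx : x ∈ π.N)
    (hy : y ∈ π.N) (k : ℕ) : F x y (π.g k) ∈ π.N := (hR _ hF _ (query2 hx hy (π.gC k))).1

/-- The enumeration of a set of symmetric names. -/
theorem hs_enum {S : Sys P} {T : Type} {x : T → PName P} {H : Subgroup S.G} (hH : H ∈ S.F)
    (h : ∀ t, S.HS (x t)) (h' : ∀ t, S.Fix H (x t)) : S.HS (enumN (tn T x)) := by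
  refine hs_tn (T := T) (x := fun j => opN (check (ordI (tn T x) j).toZFSet) (x j)) hH
    (fun t => ?_) ?_
  · exact S.hs_opN (S.hs_check _) (h t)
  · intro g hg p
    rw [act_tn (S.top g)]
    have h1 : ∀ t, Feq (act (S.ac g) (opN (check (ordI (tn T x) t).toZFSet) (x t)))
        (opN (check (ordI (tn T x) t).toZFSet) (x t)) p := by
      intro t
      rw [act_opN (S.top g), act_check (S.top g)]
      exact feq_opN (Feq.refl _ _) (h' t g hg p)
    exact feq_tn (fun t => ⟨t, h1 t⟩) (fun t => ⟨t, h1 t⟩)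

/-- The index of an element of a set of names. -/
theorem enum_ex {π : Pkg P} {x : PName P} (hx : x ∈ π.N) {z : ZFSet.{0}} (hz : z ∈ π.val x) :
    ∃ a, pair a z ∈ π.val (enumN x) := by
  obtain ⟨y, hy, c, hc, -, rfl⟩ := π.mem_val.1 hz
  obtain ⟨j, h1, h2⟩ := π.ordI_mem hx hy hc
  refine ⟨π.hat (ordI x j).toZFSet, ?_⟩
  rw [Pkg.hat, ← π.val_opN h2 hy]
  exact π.val_mem_val (n := 0) (π.opN_mem h2 hy)
    (el_mk.2 ⟨j, by rw [h1], rfl⟩ : El (enumN x) _ ⊤) le_top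

/-- The index determines the element. -/
theorem enum_fn {π : Pkg P} {x : PName P} {a b b' : ZFSet.{0}}
    (h1 : pair a b ∈ π.val (enumN x)) (h2 : pair a b' ∈ π.val (enumN x)) : b = b' := by
  obtain ⟨j, h3, -, h4⟩ := π.mem_enum h1
  obtain ⟨j', h5, -, h6⟩ := π.mem_enum h2
  rw [ZFSet.pair_inj] at h4 h6
  have h7 : π.hat (ordI x j).toZFSet = π.hat (ordI x j').toZFSet := h4.1.symm.trans h6.1
  rw [π.hat_inj h3 h5] at h7
  have h8 := ordI_injective x (Ordinal.toZFSet_injective h7)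
  subst h8
  rw [h4.2, h6.2]

/-- The indices are ordinals and the elements are elements. -/
theorem enum_mem {π : Pkg P} {T : Type} {x : T → PName P} {a b : ZFSet.{0}}
    (h : pair a b ∈ π.val (enumN (tn T x))) : a.IsOrdinal ∧
      ∃ t, x t ∈ π.N ∧ b = π.val (x t) := by
  obtain ⟨j, h1, h2, h3⟩ := π.mem_enum h
  rw [ZFSet.pair_inj] at h3
  obtain ⟨rfl, rfl⟩ := h3
  exact ⟨π.hat_isOrdinal (ZFSet.isOrdinal_toZFSet _), j, h2, rfl⟩

end Pool.Agent.R596.SY

namespace Pool.Agent.R596.FC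

open Pool.Agent.W868 Pool.Agent.W868.PName Pool.Agent.R596.SY
open ZFSet (pair)

/-- The name of the set of the translates of `x` whose conditions are in the filter. -/
def Oe (E : Finset J) (x : PName Cd) (p : Cd) : PName Cd :=
  PName.mk {τ : Gp // τ ∈ Fx E} (fun τ => act (sy.ac τ.1) x) (fun τ => mc τ.1 p)

theorem el_Oe {E : Finset J} {x z : PName Cd} {p c : Cd} :
    El (Oe E x p) z c ↔ ∃ τ ∈ Fx E, z = act (sy.ac τ) x ∧ c = mc τ p := by
  unfold Oe
  rw [el_mk]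
  constructor
  · rintro ⟨⟨τ, h⟩, rfl, rfl⟩
    exact ⟨τ, h, rfl, rfl⟩
  · rintro ⟨τ, h, rfl, rfl⟩
    exact ⟨⟨τ, h⟩, rfl, rfl⟩

theorem act_Oe (E : Finset J) (x : PName Cd) (p : Cd) (g : Gp) (hg' : g ∈ Fx E) (q : Cd) :
    Feq (act (sy.ac g) (Oe E x p)) (Oe E x p) q := by
  refine feq_of_el fun z c => ?_
  rw [el_act, el_Oe]
  constructor
  · rintro ⟨z', c', h1, rfl, rfl⟩
    obtain ⟨τ, h2, rfl, rfl⟩ := el_Oe.1 h1
    refine ⟨g * τ, (Fx E).mul_mem hg' h2, (ac_mul g τ x).symm, ?_⟩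
    exact (mc_mul g τ p).symm
  · rintro ⟨τ, h, rfl, rfl⟩
    have h1 : g * (g⁻¹ * τ) = τ := mul_inv_cancel_left g τ
    refine ⟨act (sy.ac (g⁻¹ * τ)) x, mc (g⁻¹ * τ) p, el_Oe.2
      ⟨g⁻¹ * τ, (Fx E).mul_mem ((Fx E).inv_mem hg') h, rfl, rfl⟩, ?_, ?_⟩
    · rw [← ac_mul, h1]
    · have h2 := mc_mul g (g⁻¹ * τ) p
      rw [h1] at h2
      exact h2

theorem fix_Oe (E : Finset J) (x : PName Cd) (p : Cd) : sy.Fix (Fx E) (Oe E x p) :=
  fun g hg q => act_Oe E x p g hg q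

theorem hs_Oe {E : Finset J} {x : PName Cd} {p : Cd} (hx : sy.HS x) : sy.HS (Oe E x p) := by
  rw [Sys.hs_iff]
  refine ⟨⟨Fx E, Fx_mem E, fix_Oe E x p⟩, fun z c hz => ?_⟩
  obtain ⟨τ, -, rfl, -⟩ := el_Oe.1 hz
  exact Sys.hs_act sy hx τ

/-- The name of the set of the small sets. -/
def Us (E : Finset J) (X : PName Cd) : PName Cd :=
  tn (X.idx × Cd) fun t => Oe E (X.chd t.1) t.2

theorem hs_Us {E : Finset J} {X : PName Cd} (hX : sy.HS X) : sy.HS (Us E X) := by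
  refine hs_tn (Fx_mem E) (fun t => hs_Oe (hX.el (c := X.cnd t.1) ⟨t.1, rfl, rfl⟩)) ?_
  intro g hg p
  rw [act_tn (sy.top g)]
  exact feq_tn (fun t => ⟨t, fix_Oe _ _ _ g hg p⟩) (fun t => ⟨t, fix_Oe _ _ _ g hg p⟩)

theorem hs_eUs {E : Finset J} {X : PName Cd} (hX : sy.HS X) : sy.HS (enumN (Us E X)) :=
  hs_enum (Fx_mem E) (fun t => hs_Oe (hX.el (c := X.cnd t.1) ⟨t.1, rfl, rfl⟩))
    fun t => fix_Oe _ _ _

/-- The conditions that force that a name is near all of its translates. -/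
def As (E : Finset J) (n : ℕ) (x D : PName Cd) : Set Cd :=
  {q | ∀ τ ∈ Fx E, ∀ r ≤ q, r ≤ mc τ q → Nf D n x (act (sy.ac τ) x) r}

theorem mc_mono (h : Gp) {p q : Cd} (hpq : p ≤ q) : mc h p ≤ mc h q :=
  (sy.ac h).le_iff_le.2 hpq

theorem As_mono {E : Finset J} {n : ℕ} {x D : PName Cd} {p q : Cd} (h : p ∈ As E n x D)
    (hq : q ≤ p) : q ∈ As E n x D :=
  fun τ hτ r h1 h2 => h τ hτ r (h1.trans hq) (h2.trans (mc_mono τ hq))

/-- The rules. -/
def RR : Set (Rule Cd) :=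
  (Set.range fun E : Finset J => r0 fun x _ => Us E x) ∪
    (Set.range fun E : Finset J => r0 fun x p => Oe E x p) ∪
    Set.range fun t : Finset J × ℕ => rr2 fun x D _ => Sys.nm Cd (As t.1 t.2 x D)

theorem RR_countable : RR.Countable :=
  ((Set.countable_range _).union (Set.countable_range _)).union (Set.countable_range _)

section

variable {π : Pkg Cd} (hg : ClR RR π)

include hg

theorem n_Us (E : Finset J) {X : PName Cd} (hX : X ∈ π.N) : Us E X ∈ π.N :=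
  r0_mem (F := fun x _ => Us E x) hg (Or.inl (Or.inl ⟨E, rfl⟩)) hX 0

theorem n_Oe (E : Finset J) {x : PName Cd} (hx : x ∈ π.N) (k : ℕ) : Oe E x (π.g k) ∈ π.N :=
  r0_mem (F := fun x p => Oe E x p) hg (Or.inl (Or.inr ⟨E, rfl⟩)) hx k

theorem n_As (E : Finset J) (n : ℕ) {x D : PName Cd} (hx : x ∈ π.N) (hD : D ∈ π.N) :
    Sys.nm Cd (As E n x D) ∈ π.N :=
  rr2_mem (F := fun x D _ => Sys.nm Cd (As E n x D)) hg (Or.inr ⟨(E, n), rfl⟩) hx hD 0

end

end Pool.Agent.R596.FC
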