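import Pool.Agent.R596.FcUs

/-!
# A product of compact metrizable spaces that is not metrizable
-/

set_option autoImplicit false
set_option linter.all false

namespace Pool.Agent.R596.FC

open Pool.Agent.W868 Pool.Agent.W868.PName Pool.Agent.R596.SY Pool.Agent.R596Fc
open ZFSet (pair)

/-- The point whose coordinate with the index `i` is `a` and whose other coordinates are those
of `c`. -/
noncomputable def ptf (c i a : ZFSet.{0}) : ZFSet.{0} :=
  ZFSet.sep (fun z => fs z ≠ i) c ∪ {pair i a}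

theorem ptf_seq (s : ℕ → ZFSet.{0}) (i : ℕ) (a : ZFSet.{0}) :
    ptf (seq s) (nat i) a = seq fun n => if n = i then a else s n := by
  ext z
  unfold ptf
  rw [ZFSet.mem_union, ZFSet.mem_sep, ZFSet.mem_singleton, mem_seq, mem_seq]
  constructor
  · rintro (⟨⟨n, rfl⟩, h1⟩ | rfl)
    · refine ⟨n, ?_⟩
      rw [fs_pair] at h1
      rw [if_neg (fun (h : n = i) => h1 (by rw [h]))]
    · exact ⟨i, by rw [if_pos rfl]⟩
  · rintro ⟨n, rfl⟩
    by_cases hn : n = i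
    · subst hn
      refine Or.inr ?_
      rw [if_pos rfl]
    · refine Or.inl ⟨⟨n, ?_⟩, ?_⟩
      · rw [if_neg hn]
      · rw [fs_pair]
        exact fun h => hn (nat_injective h)

section

variable {M : Set ZFSet.{0}} (hM : IsZF M)

include hM

theorem dfn_ptf {n : ℕ} {c : ZFSet.{0}} (hc : c ∈ M) {F G : (Fin n → ZFSet.{0}) → ZFSet.{0}}
    (hF : DfnF M M F) (hG : DfnF M M G) : DfnF M M fun v => ptf c (F v) (G v) := by
  have hB := hM.base
  have h : DfnF M M fun w : Fin 2 → ZFSet.{0} => ptf c (w 0) (w 1) := by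
    refine hB.union' (hM.sep' (Q := fun z v => fs z ≠ v 0) (DfnF.const hc) ?_)
      (hB.single' (hB.pair' (DfnF.proj 0) (DfnF.proj 1)))
    exact Dfn.not (Dfn.eq (hM.fs' (DfnF.proj 0)) (DfnF.proj 1))
  exact DfnF.comp2 (f := ptf c) h hF hG

variable {X τ : ℕ → ZFSet.{0}} {P T : ZFSet.{0}} (hF : IsFamily M X τ)
  (hPT : IsProdTop M X τ P T) {c : ℕ → ZFSet.{0}} (hc : seq c ∈ P)

include hF hPT hc

theorem ptf_mem {i : ℕ} {a : ZFSet.{0}} (ha : a ∈ X i) : ptf (seq c) (nat i) a ∈ P := by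
  have hcM := ((mem_P hPT).1 hc).1
  have haM : a ∈ M := hM.trans _ (of_seq_mem hM hF.set_mem i) _ ha
  have h1 : ptf (seq c) (nat i) a ∈ M :=
    (dfn_ptf hM hcM (DfnF.const (hM.nat_mem i)) (DfnF.const haM)).1 (fun _ : Fin 0 => ∅)
      fun i => i.elim0
  rw [ptf_seq] at h1 ⊢
  refine (mem_P hPT).2 ⟨h1, fun n => ?_⟩
  split_ifs with h
  · subst h
    exact ha
  · exact ((mem_P hPT).1 hc).2 n

/-- Open sets around the point `c` contain all but finitely many of the points in a given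
direction. -/
theorem finite_out {i : ℕ} {o : ZFSet.{0}} (ho : o ∈ M) (hoX : o ⊆ X i)
    (hτ : ∀ V ∈ τ i, c i ∈ V → {a | a ∈ o ∧ a ∉ V}.Finite) {W : ZFSet.{0}} (hW : W ∈ T)
    (hcW : seq c ∈ W) : {a | a ∈ o ∧ ptf (seq c) (nat i) a ∉ W}.Finite := by
  have hB := hM.base
  have hP := hPT.prod.1
  have hcM := ((mem_P hPT).1 hc).1
  obtain ⟨PP, hPP, hPP'⟩ := hM.exists_pow hP
  let R : ZFSet.{0} → ZFSet.{0} := fun U =>
    ZFSet.sep (fun a => ptf (seq c) (nat i) a ∉ U) o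
  have dR : DfnF M M fun w : Fin 1 → ZFSet.{0} => R (w 0) := by
    refine hM.sep' (Q := fun a v => ptf (seq c) (nat i) a ∉ v 0) (DfnF.const ho) (Dfn.not ?_)
    exact Dfn.mem (dfn_ptf hM hcM (DfnF.const (hM.nat_mem i)) (DfnF.proj 0)) (DfnF.proj 1)
  let T' : ZFSet.{0} := ZFSet.sep (fun U => seq c ∈ U → FinI M (R U)) PP
  have hT' : T' ∈ M := by
    refine hM.sep_mem (Q := fun U => seq c ∈ U → FinI M (R U)) (Dfn.imp ?_ ?_) hPP
    · exact Dfn.mem (DfnF.const hcM) (DfnF.proj 0)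
    · refine hB.bex (DfnF.const hM.infinity) (Dfn.ex ?_)
      exact hB.isInj' (DfnF.comp1 (f := R) dR (DfnF.proj 2)) (DfnF.proj 1) (DfnF.proj 0)
  have hm : ∀ U, U ∈ T' ↔ U ∈ M ∧ U ⊆ P ∧
      (seq c ∈ U → {a | a ∈ o ∧ ptf (seq c) (nat i) a ∉ U}.Finite) := by
    intro U
    change U ∈ ZFSet.sep (fun U => seq c ∈ U → FinI M (R U)) PP ↔ _
    rw [ZFSet.mem_sep, hPP', and_assoc]
    refine and_congr_right fun hU => and_congr_right fun _ => imp_congr_right fun _ => ?_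
    rw [finI_iff hM (dR.1 (fun _ => U) fun _ => hU)]
    have : {w | w ∈ R U} = {a | a ∈ o ∧ ptf (seq c) (nat i) a ∉ U} := by
      ext w
      exact ZFSet.mem_sep
    rw [this]
  have htop : IsTop M P T' := by
    refine isTop_of hP hT' (fun U hU => ((hm U).1 hU).2.1) ⟨?_, ?_, ?_, ?_⟩
    · exact (hm _).2 ⟨hM.empty_mem, ZFSet.empty_subset _, fun h => absurd h (ZFSet.notMem_empty _)⟩
    · refine (hm _).2 ⟨hP, fun _ h => h, fun _ => ?_⟩
      convert Set.finite_empty (α := ZFSet.{0}) using 1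
      ext x
      simp only [Set.mem_setOf_eq, Set.mem_empty_iff_false, iff_false, not_and, not_not]
      exact fun h => ptf_mem hM hF hPT hc (hoX h)
    · intro U hU V hV
      obtain ⟨h1, h2, h3⟩ := (hm U).1 hU
      obtain ⟨h4, h5, h6⟩ := (hm V).1 hV
      refine (hm _).2 ⟨?_, fun z hz => h2 (ZFSet.mem_sep.1 hz).1, fun h => ?_⟩
      · exact hM.sep_mem (Q := fun x => x ∈ V) (Dfn.mem (DfnF.proj 0) (DfnF.const h4)) h1
      · obtain ⟨h7, h8⟩ := ZFSet.mem_sep.1 h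
        refine ((h3 h7).union (h6 h8)).subset ?_
        rintro x ⟨hx, hx'⟩
        by_cases hxU : ptf (seq c) (nat i) x ∈ U
        · exact Or.inr ⟨hx, fun h9 => hx' (ZFSet.mem_sep.2 ⟨hxU, h9⟩)⟩
        · exact Or.inl ⟨hx, hxU⟩
    · intro 𝒰 h𝒰 h1
      refine (hm _).2 ⟨hM.union _ h𝒰, fun z hz => ?_, fun h => ?_⟩
      · obtain ⟨U, hU, hz⟩ := ZFSet.mem_sUnion.1 hz
        exact ((hm U).1 (h1 hU)).2.1 hz
      · obtain ⟨U, hU, h2⟩ := ZFSet.mem_sUnion.1 h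
        refine (((hm U).1 (h1 hU)).2.2 h2).subset ?_
        rintro x ⟨hx, hx'⟩
        exact ⟨hx, fun h3 => hx' (ZFSet.mem_sUnion.2 ⟨U, hU, h3⟩)⟩
  have hcy : ∀ n, ∀ V ∈ τ n, cyl P n V ∈ T' := by
    intro n V hV
    have hVM : V ∈ M := hM.trans _ (hF.top n).top_mem _ hV
    refine (hm _).2 ⟨?_, fun f hf => (ZFSet.mem_sep.1 hf).1, fun h => ?_⟩
    · refine hM.sep_mem (Q := fun f => ∃ x ∈ V, pair (nat n) x ∈ f) ?_ hP
      exact hB.bex (DfnF.const hVM) (Dfn.mem (hB.pair' (DfnF.const (hM.nat_mem n))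
        (DfnF.proj 0)) (DfnF.proj 1))
    · have hcV := (mem_cyl.1 h).2
      by_cases hn : n = i
      · subst hn
        refine (hτ V hV hcV).subset ?_
        rintro a ⟨ha, h1⟩
        refine ⟨ha, fun h2 => h1 ?_⟩
        have h3 := ptf_mem hM hF hPT hc (hoX ha)
        rw [ptf_seq] at h3 ⊢
        refine mem_cyl.2 ⟨h3, ?_⟩
        rw [if_pos rfl]
        exact h2
      · convert Set.finite_empty (α := ZFSet.{0}) using 1
        ext a
        simp only [Set.mem_setOf_eq, Set.mem_empty_iff_false, iff_false, not_and, not_not]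
        intro ha
        have h3 := ptf_mem hM hF hPT hc (hoX ha)
        rw [ptf_seq] at h3 ⊢
        refine mem_cyl.2 ⟨h3, ?_⟩
        rw [if_neg hn]
        exact hcV
  exact ((hm W).1 (hPT.least T' htop hcy hW)).2.2 hcW

end

/-- Some countable product of compact metrizable spaces is not metrizable in the model. -/
theorem not_cpmcm {π : Pkg Cd} (hb : base ⊆ π.N) (hb2 : base2 ⊆ π.N) (hcl : sy.Cld π) :
    ¬ CPMCM (sy.Ms π) := by
  intro h
  have hM := zf_Ms hcl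
  have hB := hM.base
  have hL := hat_Ms (Z_Lam hb)
  obtain ⟨X, τ, hF, hX, hτ⟩ := exists_family hb hb2 hcl
  obtain ⟨P, T, hPT⟩ := exists_prodTop hM hF.set_mem hF.top_mem
  obtain ⟨d, hd, hdT⟩ := h X τ P T hF hPT
  have hP := hPT.prod.1
  obtain ⟨D, hD, hU, -, hN⟩ := exists_unif hM hP hd
  have hsO := seqOm_Ms hb hb2
  set c : ℕ → ZFSet.{0} := fun n => π.hat (Om n) with hc
  have hcP : seq c ∈ P := (mem_P hPT).2 ⟨hsO, fun n => by
    rw [hX]
    exact ZFSet.mem_insert _ _⟩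
  have hoX : ∀ i, π.hat (Om i) ⊆ X i := fun i x hx => by
    rw [hX]
    exact ZFSet.mem_insert_iff.2 (Or.inr hx)
  have ho : ∀ n, π.hat (Om n) ∈ sy.Ms π := fun n => hat_Ms (Z_Om hb n)
  -- finiteness
  have hfin0 : ∀ i n : ℕ, {a | a ∈ π.hat (Om i) ∧
      ¬ Nr D (nat n) (seq c) (ptf (seq c) (nat i) a)}.Finite := by
    intro i n
    have hW : ZFSet.sep (fun g => Nr D (nat n) (seq c) g) P ∈ sy.Ms π :=
      hM.sep_mem (Q := fun g => Nr D (nat n) (seq c) g) (dfn_Nr hM hD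
        (DfnF.const (hM.nat_mem n)) (DfnF.const hsO) (DfnF.proj 0)) hP
    have hWT : ZFSet.sep (fun g => Nr D (nat n) (seq c) g) P ∈ T := by
      refine (hdT _ hW fun g hg => (ZFSet.mem_sep.1 hg).1).2 fun w hw => ?_
      obtain ⟨hw1, hw2⟩ := ZFSet.mem_sep.1 hw
      have h5 := ((hN _ _ _).1 hw2).2.2
      refine ⟨1 / 2 ^ n - d (seq c) w, by linarith, fun y hy h6 => ZFSet.mem_sep.2 ⟨hy,
        (hN _ _ _).2 ⟨hcP, hy, ?_⟩⟩⟩
      have h7 := hd.tri _ hcP w hw1 y hy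
      linarith
    refine (finite_out hM hF hPT hcP (ho i) (hoX i) (fun V hV h1 => ?_) hWT
      (ZFSet.mem_sep.2 ⟨hcP, hU.refl _ hcP n⟩)).subset ?_
    · exact ((hτ i V).1 hV).2.2 h1
    · rintro a ⟨ha, h1⟩
      exact ⟨ha, fun h2 => h1 (ZFSet.mem_sep.1 h2).2⟩
  let U : ZFSet.{0} → ZFSet.{0} := fun n => ZFSet.sep (fun a => ∃ i ∈ n, a ∈ ap (seq c) i ∧
    ¬ Nr D n (seq c) (ptf (seq c) i a)) (π.hat Lam)
  have dU : DfnF (sy.Ms π) (sy.Ms π) fun w : Fin 1 → ZFSet.{0} => U (w 0) := by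
    refine hM.sep' (Q := fun a v => ∃ i ∈ v 0, a ∈ ap (seq c) i ∧
      ¬ Nr D (v 0) (seq c) (ptf (seq c) i a)) (DfnF.const hL) ?_
    refine hB.bex (DfnF.proj 1) (Dfn.and ?_ (Dfn.not ?_))
    · exact Dfn.mem (DfnF.proj 1) (hM.ap' (DfnF.const hsO) (DfnF.proj 0))
    · exact dfn_Nr hM hD (DfnF.proj 2) (DfnF.const hsO) (dfn_ptf hM hsO (DfnF.proj 0)
        (DfnF.proj 1))
  have h1 := ctb_union hM hL (π.hat_isOrdinal (ZFSet.isOrdinal_toZFSet _)) dU
    (fun n _ x hx => (ZFSet.mem_sep.1 hx).1) (by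
      intro n' hn'
      obtain ⟨n, rfl⟩ := mem_omega_iff.1 hn'
      refine (Set.Finite.biUnion (Set.finite_Iio n) fun i _ => hfin0 i n).subset ?_
      intro a ha
      obtain ⟨-, i', hi', h2, h3⟩ := ZFSet.mem_sep.1 ha
      obtain ⟨i, hi, rfl⟩ := mem_nat.1 hi'
      rw [ap_seq] at h2
      exact Set.mem_biUnion (Set.mem_Iio.2 hi) ⟨h2, h3⟩)
  have h2 : ZFSet.sep (fun β => ∃ n ∈ ZFSet.omega, β ∈ U n) (π.hat Lam) = π.hat Lam := by
    ext a
    rw [ZFSet.mem_sep]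
    refine ⟨fun h => h.1, fun ha => ⟨ha, ?_⟩⟩
    obtain ⟨i, hi⟩ := hat_Lam_sub hb ha
    have hp := ptf_mem hM hF hPT hcP (hoX i hi)
    have hne : seq c ≠ ptf (seq c) (nat i) a := by
      rw [ptf_seq]
      intro h3
      have h4 := congrFun (seq_inj h3) i
      rw [if_pos rfl] at h4
      change π.hat (Om i) = a at h4
      rw [h4] at hi
      exact ZFSet.mem_irrefl _ hi
    have h3 : ∃ n, ¬ Nr D (nat n) (seq c) (ptf (seq c) (nat i) a) := by
      by_contra hcon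
      push Not at hcon
      exact hne (hU.sep _ hcP _ hp hcon)
    obtain ⟨n0, hn0⟩ := h3
    have hmono : ∀ m, n0 ≤ m → ¬ Nr D (nat m) (seq c) (ptf (seq c) (nat i) a) := by
      intro m hm
      induction m, hm using Nat.le_induction with
      | base => exact hn0
      | succ m hm ih => exact fun h5 => ih (hU.mono hcP hp h5)
    refine ⟨nat (max n0 (i + 1)), nat_mem_omega _, ZFSet.mem_sep.2 ⟨ha, nat i,
      nat_mem_nat (lt_of_lt_of_le (Nat.lt_succ_self i) (le_max_right _ _)), ?_,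
      hmono _ (le_max_left _ _)⟩⟩
    rw [ap_seq]
    exact hi
  rw [h2] at h1
  exact not_ctb hb hcl h1

/-- The model. -/
theorem main3 : ∃ M : Set ZFSet.{0}, M.Countable ∧ IsZF M ∧ CPMCC M ∧ ¬ CPMCM M := by
  obtain ⟨π, hb, hg, hcl, hb2⟩ := exists_gd3
  exact ⟨sy.Ms π, π.countable_W.mono fun x hx => Ms_W hx, zf_Ms hcl, cpmcc_Ms hg hcl,
    not_cpmcm hb hb2 hcl⟩

end Pool.Agent.R596.FC
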