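import Pool.Agent.R596.FcPt

/-!
# The one-point compactification of a countable discrete space
-/

set_option autoImplicit false
set_option linter.all false

namespace Pool.Agent.R596.FC

open Pool.Agent.W868 Pool.Agent.R596Fc
open ZFSet (pair)

/-- In `M`, the set is finite. -/
def FinI (M : Set ZFSet.{0}) (x : ZFSet.{0}) : Prop := ∃ n ∈ ZFSet.omega, ∃ f ∈ M, IsInj x n f

theorem finite_of_finI {M : Set ZFSet.{0}} {z : ZFSet.{0}} (h : FinI M z) :
    {w | w ∈ z}.Finite := by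
  obtain ⟨n, hn, f, -, hf⟩ := h
  obtain ⟨m, rfl⟩ := mem_omega_iff.1 hn
  have h1 := card_le_of_isInj hf
  rw [card_nat] at h1
  have h2 : Cardinal.mk z < Cardinal.aleph0 := by
    rw [ZFSet.cardinalMk_coe_sort, Cardinal.lift_lt_aleph0]
    exact h1.trans_lt (Cardinal.natCast_lt_aleph0)
  exact Cardinal.lt_aleph0_iff_finite.1 h2

theorem finI_aux {M : Set ZFSet.{0}} (hM : IsZF M) {s : Set ZFSet.{0}} (hs : s.Finite) :
    s ⊆ M → ∃ z ∈ M, (∀ w, w ∈ z ↔ w ∈ s) ∧ ∃ n : ℕ, ∃ f ∈ M, IsInj z (nat n) f := by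
  refine Set.Finite.induction_on s hs ?_ ?_
  · intro _
    refine ⟨∅, hM.empty_mem, fun w => by simp, 0, ∅, hM.empty_mem, ?_, ?_⟩
    · refine ⟨ZFSet.empty_subset _, fun z hz => absurd hz (ZFSet.notMem_empty _)⟩
    · intro a b c h
      exact absurd h (ZFSet.notMem_empty _)
  · intro a s ha _ ih hsM
    obtain ⟨z, hz, h1, n, f, hf, hfi⟩ := ih fun x hx => hsM (Or.inr hx)
    have haM : a ∈ M := hsM (Or.inl rfl)
    have hnM : nat n ∈ M := hM.trans _ hM.infinity _ (mem_omega_iff.2 ⟨n, rfl⟩)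
    have haz : a ∉ z := fun h => ha ((h1 a).1 h)
    have hmem : ∀ {x y}, pair x y ∈ f → x ∈ z ∧ y ∈ nat n := fun h =>
      ZFSet.pair_mem_prod.1 (hfi.1.1 h)
    have hnn : nat n ∉ nat n := ZFSet.mem_irrefl _
    have hins : ∀ {x y}, pair x y ∈ insert (pair a (nat n)) f ↔
        (x = a ∧ y = nat n) ∨ pair x y ∈ f := by
      intro x y
      rw [ZFSet.mem_insert_iff, ZFSet.pair_inj]
    refine ⟨insert a z, hM.insert_mem haM hz, fun w => ?_, n + 1, insert (pair a (nat n)) f,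
      hM.insert_mem (hM.pair_mem haM hnM) hf, ⟨fun w hw => ?_, fun w hw => ?_⟩,
      fun x y c h2 h3 => ?_⟩
    · rw [ZFSet.mem_insert_iff, h1]
      rfl
    · rcases ZFSet.mem_insert_iff.1 hw with rfl | hw
      · exact ZFSet.pair_mem_prod.2 ⟨ZFSet.mem_insert_iff.2 (Or.inl rfl),
          ZFSet.mem_insert_iff.2 (Or.inl rfl)⟩
      · obtain ⟨x, hx, y, hy, rfl⟩ := ZFSet.mem_prod.1 (hfi.1.1 hw)
        exact ZFSet.pair_mem_prod.2 ⟨ZFSet.mem_insert_iff.2 (Or.inr hx),
          ZFSet.mem_insert_iff.2 (Or.inr hy)⟩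
    · by_cases hwa : w = a
      · subst hwa
        refine ⟨nat n, hins.2 (Or.inl ⟨rfl, rfl⟩), fun y hy => ?_⟩
        rcases hins.1 hy with ⟨-, h⟩ | h
        · exact h
        · exact absurd (hmem h).1 haz
      · have hwz : w ∈ z := (ZFSet.mem_insert_iff.1 hw).resolve_left hwa
        obtain ⟨y, hy, hyu⟩ := hfi.1.2 w hwz
        refine ⟨y, hins.2 (Or.inr hy), fun y' hy' => ?_⟩
        rcases hins.1 hy' with ⟨h, -⟩ | h
        · exact absurd h hwa
        · exact hyu y' h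
    · rcases hins.1 h2 with ⟨e1, e2⟩ | h2' <;> rcases hins.1 h3 with ⟨e3, e4⟩ | h3'
      · rw [e1, e3]
      · exact absurd (e2 ▸ (hmem h3').2) hnn
      · exact absurd (e4 ▸ (hmem h2').2) hnn
      · exact hfi.2 x y c h2' h3'

theorem finI_iff {M : Set ZFSet.{0}} (hM : IsZF M) {z : ZFSet.{0}} (hz : z ∈ M) :
    FinI M z ↔ {w | w ∈ z}.Finite := by
  refine ⟨finite_of_finI, fun h => ?_⟩
  obtain ⟨z', -, h1, n, f, hf, h2⟩ := finI_aux hM h fun w hw => hM.trans _ hz _ hw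
  have h3 : z' = z := by
    ext w
    exact h1 w
  subst h3
  exact ⟨nat n, mem_omega_iff.2 ⟨n, rfl⟩, f, hf, h2⟩

/-- The complement in the set of the isolated points. -/
noncomputable def cpl (a U : ZFSet.{0}) : ZFSet.{0} := ZFSet.sep (fun x => x ∉ U) a

/-- The topology. -/
noncomputable def Tt (M : Set ZFSet.{0}) (Q a : ZFSet.{0}) : ZFSet.{0} :=
  ZFSet.sep (fun U => U ⊆ insert a a ∧ (a ∈ U → FinI M (cpl a U))) Q

/-- The comparison of fractions. -/
noncomputable def R0 : ZFSet.{0} :=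
  ZFSet.sep (fun z => ∃ m c b : ℕ, z = pair (nat m) (pair (nat c) (nat b)) ∧
    (1 : ℝ) / (m + 1) < c / (b + 1)) (ZFSet.prod ZFSet.omega (ZFSet.prod ZFSet.omega ZFSet.omega))

theorem mem_R0 {m c b : ℕ} : pair (nat m) (pair (nat c) (nat b)) ∈ R0 ↔
    (1 : ℝ) / (m + 1) < c / (b + 1) := by
  unfold R0
  rw [ZFSet.mem_sep]
  constructor
  · rintro ⟨-, m', c', b', h1, h2⟩
    obtain ⟨h3, h4⟩ := ZFSet.pair_inj.1 h1
    obtain ⟨h5, h6⟩ := ZFSet.pair_inj.1 h4
    obtain rfl := nat_injective h3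
    obtain rfl := nat_injective h5
    obtain rfl := nat_injective h6
    exact h2
  · refine fun h => ⟨?_, m, c, b, rfl, h⟩
    exact ZFSet.pair_mem_prod.2 ⟨nat_mem_omega m, ZFSet.pair_mem_prod.2
      ⟨nat_mem_omega c, nat_mem_omega b⟩⟩

section

variable {M : Set ZFSet.{0}} (hM : IsZF M)

include hM

theorem dfn_Tt {Q : ZFSet.{0}} (hQ : Q ∈ M) :
    DfnF M M fun w : Fin 1 → ZFSet.{0} => Tt M Q (w 0) := by
  have hB := hM.base
  refine hM.sep' (Q := fun U v => U ⊆ insert (v 0) (v 0) ∧ (v 0 ∈ U → FinI M (cpl (v 0) U)))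
    (DfnF.const hQ) (Dfn.and ?_ (Dfn.imp ?_ ?_))
  · exact hB.subset' (DfnF.proj 0) (hB.insert' (DfnF.proj 1) (DfnF.proj 1))
  · exact Dfn.mem (DfnF.proj 1) (DfnF.proj 0)
  · refine hB.bex (DfnF.const hM.infinity) (Dfn.ex ?_)
    refine hB.isInj' ?_ (DfnF.proj 1) (DfnF.proj 0)
    exact hM.sep' (Q := fun x v => x ∉ v 2) (DfnF.proj 3)
      (Dfn.not (Dfn.mem (DfnF.proj 0) (DfnF.proj 3)))

theorem cpl_mem {a U : ZFSet.{0}} (ha : a ∈ M) (hU : U ∈ M) : cpl a U ∈ M :=
  hM.sep_mem (Q := fun x => x ∉ U) (Dfn.not (Dfn.mem (DfnF.proj 0) (DfnF.const hU))) ha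

variable {Q K : ZFSet.{0}} (hQ : Q ∈ M) (hQ' : ∀ U, U ∈ Q ↔ U ∈ M ∧ U ⊆ K) {a : ZFSet.{0}}
  (ha : a ∈ M) (haK : insert a a ⊆ K)

include hQ hQ' ha haK

theorem mem_Tt {U : ZFSet.{0}} : U ∈ Tt M Q a ↔ U ∈ M ∧ U ⊆ insert a a ∧
    (a ∈ U → {x | x ∈ a ∧ x ∉ U}.Finite) := by
  have h0 : ∀ U ∈ M, (FinI M (cpl a U) ↔ {x | x ∈ a ∧ x ∉ U}.Finite) := by
    intro U hU
    rw [finI_iff hM (cpl_mem hM ha hU)]
    have : {w | w ∈ cpl a U} = {x | x ∈ a ∧ x ∉ U} := by
      ext w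
      exact ZFSet.mem_sep
    rw [this]
  unfold Tt
  rw [ZFSet.mem_sep, hQ']
  constructor
  · rintro ⟨⟨h1, -⟩, h2, h3⟩
    exact ⟨h1, h2, fun h => (h0 U h1).1 (h3 h)⟩
  · rintro ⟨h1, h2, h3⟩
    exact ⟨⟨h1, h2.trans haK⟩, h2, fun h => (h0 U h1).2 (h3 h)⟩

theorem isTop_Tt : IsTop M (insert a a) (Tt M Q a) := by
  have hm := fun U => mem_Tt hM hQ hQ' ha haK (U := U)
  have hX : insert a a ∈ M := hM.insert_mem ha ha
  refine isTop_of hX ((dfn_Tt hM hQ).1 (fun _ => a) fun _ => ha)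
    (fun U hU => ((hm U).1 hU).2.1) ⟨?_, ?_, ?_, ?_⟩
  · exact (hm _).2 ⟨hM.empty_mem, ZFSet.empty_subset _, fun h => absurd h (ZFSet.notMem_empty _)⟩
  · refine (hm _).2 ⟨hX, fun _ h => h, fun _ => ?_⟩
    convert Set.finite_empty (α := ZFSet.{0}) using 1
    ext x
    simp only [Set.mem_setOf_eq, Set.mem_empty_iff_false, iff_false, not_and, not_not]
    exact fun h => ZFSet.mem_insert_iff.2 (Or.inr h)
  · intro U hU V hV
    obtain ⟨h1, h2, h3⟩ := (hm _).1 hU
    obtain ⟨h4, h5, h6⟩ := (hm _).1 hV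
    refine (hm _).2 ⟨?_, fun z hz => h2 (ZFSet.mem_sep.1 hz).1, fun h => ?_⟩
    · exact hM.sep_mem (Q := fun x => x ∈ V) (Dfn.mem (DfnF.proj 0) (DfnF.const h4)) h1
    · obtain ⟨h7, h8⟩ := ZFSet.mem_sep.1 h
      refine ((h3 h7).union (h6 h8)).subset ?_
      rintro x ⟨hx, hx'⟩
      by_cases hxU : x ∈ U
      · exact Or.inr ⟨hx, fun h9 => hx' (ZFSet.mem_sep.2 ⟨hxU, h9⟩)⟩
      · exact Or.inl ⟨hx, hxU⟩
  · intro 𝒰 h𝒰 h1
    refine (hm _).2 ⟨hM.union _ h𝒰, fun z hz => ?_, fun h => ?_⟩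
    · obtain ⟨U, hU, hz⟩ := ZFSet.mem_sUnion.1 hz
      exact ((hm U).1 (h1 hU)).2.1 hz
    · obtain ⟨U, hU, h2⟩ := ZFSet.mem_sUnion.1 h
      refine (((hm U).1 (h1 hU)).2.2 h2).subset ?_
      rintro x ⟨hx, hx'⟩
      exact ⟨hx, fun h3 => hx' (ZFSet.mem_sUnion.2 ⟨U, hU, h3⟩)⟩

theorem compact_Tt : Compact M (insert a a) (Tt M Q a) := by
  have hm := fun U => mem_Tt hM hQ hQ' ha haK (U := U)
  intro 𝒰 h𝒰 h1 h2
  obtain ⟨U0, hU0, h3⟩ := h2 a (ZFSet.mem_insert _ _)
  have h4 := ((hm U0).1 (h1 hU0)).2.2 h3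
  have h5 : ∀ x : {x | x ∈ a ∧ x ∉ U0}, ∃ U ∈ 𝒰, (x : ZFSet.{0}) ∈ U := fun x =>
    h2 x.1 (ZFSet.mem_insert_iff.2 (Or.inr x.2.1))
  choose g hg1 hg2 using h5
  haveI := h4.to_subtype
  refine ⟨insert U0 (Set.range g), (Set.finite_range g).insert _, ?_, ?_⟩
  · rintro U (rfl | ⟨x, rfl⟩)
    · exact hU0
    · exact hg1 x
  · intro x hx
    by_cases hx0 : x ∈ U0
    · exact ⟨U0, Or.inl rfl, hx0⟩
    · rcases ZFSet.mem_insert_iff.1 hx with rfl | hx
      · exact absurd h3 hx0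
      · exact ⟨_, Or.inr ⟨⟨x, hx, hx0⟩, rfl⟩, hg2 _⟩

theorem metrizable_Tt (hR : R0 ∈ M) (hc : Ctb M a) : Metrizable M (insert a a) (Tt M Q a) := by
  classical
  have hB := hM.base
  have hm := fun U => mem_Tt hM hQ hQ' ha haK (U := U)
  have hX : insert a a ∈ M := hM.insert_mem ha ha
  obtain ⟨f, hf, hf1⟩ := hc
  have hex : ∀ x, ∃ m : ℕ, x ∈ a → pair x (nat m) ∈ f := by
    intro x
    by_cases hx : x ∈ a
    · obtain ⟨b, hb, h1⟩ := fun_exists hf1.1 hx
      obtain ⟨m, rfl⟩ := mem_omega_iff.1 hb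
      exact ⟨m, fun _ => h1⟩
    · exact ⟨0, fun h => absurd h hx⟩
  choose ν hν using hex
  have hνinj : ∀ x ∈ a, ∀ y ∈ a, ν x = ν y → x = y := fun x hx y hy h =>
    hf1.2 _ _ _ (hν x hx) (h ▸ hν y hy)
  let w : ZFSet.{0} → ℝ := fun x => if x = a then 0 else 1 / (ν x + 1)
  have w0 : ∀ x, 0 ≤ w x := by
    intro x
    dsimp only [w]
    split_ifs
    · exact le_rfl
    · positivity
  have wpos : ∀ x, x ≠ a → 0 < w x := by
    intro x hx
    dsimp only [w]
    rw [if_neg hx]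
    positivity
  have wa : w a = 0 := if_pos rfl
  have wn : ∀ x, x ≠ a → w x = 1 / (ν x + 1) := fun x hx => if_neg hx
  let d : ZFSet.{0} → ZFSet.{0} → ℝ := fun x y => if x = y then 0 else max (w x) (w y)
  have dself : ∀ x, d x x = 0 := fun x => if_pos rfl
  have dne : ∀ x y, x ≠ y → d x y = max (w x) (w y) := fun x y h => if_neg h
  have dpos : ∀ x y, x ≠ y → 0 < d x y := by
    intro x y h
    rw [dne x y h, lt_max_iff]
    by_cases hx : x = a
    · exact Or.inr (wpos y fun hy => h (hx.trans hy.symm))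
    · exact Or.inl (wpos x hx)
  have d0 : ∀ x y, 0 ≤ d x y := by
    intro x y
    by_cases h : x = y
    · subst h
      exact (dself x).ge
    · exact (dpos x y h).le
  refine ⟨d, ⟨?_, fun x _ => dself x, fun x _ y _ h => ?_, fun x _ y _ => ?_,
    fun x _ y _ z _ => ?_⟩, fun U hU hUX => ?_⟩
  · -- the cut
    let W : ZFSet.{0} → ZFSet.{0} → Prop := fun x p =>
      (x = a ∧ fs p ≠ ∅) ∨ (x ≠ a ∧ ∃ m ∈ ZFSet.omega, pair x m ∈ f ∧ pair m p ∈ R0)
    have hW : ∀ x ∈ insert a a, ∀ c b : ℕ,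
        (W x (pair (nat c) (nat b)) ↔ w x < (c : ℝ) / (b + 1)) := by
      intro x hx c b
      have hpos : (0 : ℝ) < b + 1 := by positivity
      by_cases hxa : x = a
      · subst hxa
        rw [wa]
        have h1 : W x (pair (nat c) (nat b)) ↔ c ≠ 0 := by
          change (x = x ∧ fs (pair (nat c) (nat b)) ≠ ∅) ∨ _ ↔ _
          rw [fs_pair]
          constructor
          · rintro (⟨-, h⟩ | ⟨h, -⟩)
            · rintro rfl
              exact h rfl
            · exact absurd rfl h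
          · refine fun h => Or.inl ⟨rfl, fun h1 => h ?_⟩
            exact nat_injective (h1 : nat c = nat 0)
        rw [h1, div_pos_iff_of_pos_right hpos, Nat.cast_pos, Nat.pos_iff_ne_zero]
      · have hxa' : x ∈ a := (ZFSet.mem_insert_iff.1 hx).resolve_left hxa
        rw [wn x hxa, ← mem_R0]
        constructor
        · rintro (⟨h, -⟩ | ⟨-, m, hm, h1, h2⟩)
          · exact absurd h hxa
          · rwa [← fun_unique hf1.1 h1 (hν x hxa')]
        · exact fun h => Or.inr ⟨hxa, _, nat_mem_omega _, hν x hxa', h⟩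
    have hcut : cut (insert a a) d = ZFSet.sep (fun z =>
        (fs (fs z) = sn (fs z) ∧ fs (sn z) ≠ ∅) ∨
        (fs (fs z) ≠ sn (fs z) ∧ W (fs (fs z)) (sn z) ∧ W (sn (fs z)) (sn z)))
        (ZFSet.prod (ZFSet.prod (insert a a) (insert a a))
          (ZFSet.prod ZFSet.omega ZFSet.omega)) := by
      ext z
      unfold cut
      rw [ZFSet.mem_sep, ZFSet.mem_sep]
      refine and_congr_right fun hz => ?_
      obtain ⟨q, hq, p, hp, rfl⟩ := ZFSet.mem_prod.1 hz
      obtain ⟨x, hx, y, hy, rfl⟩ := ZFSet.mem_prod.1 hq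
      obtain ⟨c', hc', b', hb', rfl⟩ := ZFSet.mem_prod.1 hp
      obtain ⟨c, rfl⟩ := mem_omega_iff.1 hc'
      obtain ⟨b, rfl⟩ := mem_omega_iff.1 hb'
      have h1 : (∃ x' ∈ insert a a, ∃ y' ∈ insert a a, ∃ a' b' : ℕ,
          pair (pair x y) (pair (nat c) (nat b)) = pair (pair x' y') (pair (nat a') (nat b')) ∧
          d x' y' < (a' : ℝ) / (b' + 1)) ↔ d x y < (c : ℝ) / (b + 1) := by
        constructor
        · rintro ⟨x', -, y', -, a', b', h1, h2⟩
          obtain ⟨h3, h4⟩ := ZFSet.pair_inj.1 h1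
          obtain ⟨rfl, rfl⟩ := ZFSet.pair_inj.1 h3
          obtain ⟨h5, h6⟩ := ZFSet.pair_inj.1 h4
          obtain rfl := nat_injective h5
          obtain rfl := nat_injective h6
          exact h2
        · exact fun h => ⟨x, hx, y, hy, c, b, rfl, h⟩
      rw [h1, fs_pair, sn_pair, fs_pair, sn_pair, fs_pair, hW x hx, hW y hy]
      by_cases hxy : x = y
      · subst hxy
        rw [dself]
        have hpos : (0 : ℝ) < b + 1 := by positivity
        rw [div_pos_iff_of_pos_right hpos, Nat.cast_pos, Nat.pos_iff_ne_zero]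
        constructor
        · exact fun h => Or.inl ⟨rfl, fun h1 => h (nat_injective (h1 : nat c = nat 0))⟩
        · rintro (⟨-, h⟩ | ⟨h, -⟩)
          · rintro rfl
            exact h rfl
          · exact absurd rfl h
      · rw [dne x y hxy, max_lt_iff]
        constructor
        · exact fun h => Or.inr ⟨hxy, h⟩
        · rintro (⟨h, -⟩ | ⟨-, h⟩)
          · exact absurd h hxy
          · exact h
    rw [hcut]
    have dW : ∀ {n : ℕ} {F G : (Fin n → ZFSet.{0}) → ZFSet.{0}}, DfnF M M F → DfnF M M G →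
        Dfn M M fun v => W (F v) (G v) := by
      intro n F G hF hG
      have h : Dfn M M fun v : Fin 2 → ZFSet.{0} => W (v 0) (v 1) := by
        refine Dfn.or (Dfn.and ?_ ?_) (Dfn.and ?_ ?_)
        · exact Dfn.eq (DfnF.proj 0) (DfnF.const ha)
        · exact Dfn.not (Dfn.eq (hM.fs' (DfnF.proj 1)) (DfnF.const hM.empty_mem))
        · exact Dfn.not (Dfn.eq (DfnF.proj 0) (DfnF.const ha))
        · refine hB.bex (DfnF.const hM.infinity) (Dfn.and ?_ ?_)
          · exact Dfn.mem (hB.pair' (DfnF.proj 1) (DfnF.proj 0)) (DfnF.const hf)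
          · exact Dfn.mem (hB.pair' (DfnF.proj 0) (DfnF.proj 2)) (DfnF.const hR)
      exact Dfn.comp2 (Q := W) h hF hG
    refine hM.sep_mem (Q := fun z => (fs (fs z) = sn (fs z) ∧ fs (sn z) ≠ ∅) ∨
        (fs (fs z) ≠ sn (fs z) ∧ W (fs (fs z)) (sn z) ∧ W (sn (fs z)) (sn z))) ?_
        (hM.prod_mem (hM.prod_mem hX hX) (hM.prod_mem hM.infinity hM.infinity))
    have e1 : DfnF M M fun w : Fin 1 → ZFSet.{0} => fs (fs (w 0)) := hM.fs' (hM.fs' (DfnF.proj 0))
    have e2 : DfnF M M fun w : Fin 1 → ZFSet.{0} => sn (fs (w 0)) := hM.sn' (hM.fs' (DfnF.proj 0))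
    have e3 : DfnF M M fun w : Fin 1 → ZFSet.{0} => sn (w 0) := hM.sn' (DfnF.proj 0)
    refine Dfn.or (Dfn.and (Dfn.eq e1 e2) (Dfn.not (Dfn.eq (hM.fs' e3)
      (DfnF.const hM.empty_mem)))) (Dfn.and (Dfn.not (Dfn.eq e1 e2)) (Dfn.and ?_ ?_))
    · exact dW e1 e3
    · exact dW e2 e3
  · by_contra hne
    exact absurd h (dpos x y hne).ne'
  · by_cases h : x = y
    · subst h
      rfl
    · rw [dne x y h, dne y x (Ne.symm h), max_comm]
  · by_cases h1 : x = y
    · subst h1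
      rw [dself, zero_add]
    · by_cases h2 : y = z
      · subst h2
        rw [dself, add_zero]
      · by_cases h3 : x = z
        · subst h3
          rw [dself]
          exact add_nonneg (d0 _ _) (d0 _ _)
        · rw [dne x z h3, dne x y h1, dne y z h2, max_le_iff]
          have := le_max_left (w x) (w y)
          have := le_max_right (w x) (w y)
          have := le_max_left (w y) (w z)
          have := le_max_right (w y) (w z)
          have := w0 x
          have := w0 y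
          have := w0 z
          constructor
          · linarith
          · linarith
  · rw [hm]
    constructor
    · rintro ⟨-, -, h1⟩ x hx
      by_cases hxa : x = a
      · subst hxa
        have h2 := h1 hx
        obtain ⟨N, hN⟩ := (h2.image ν).bddAbove
        refine ⟨1 / (N + 1), by positivity, fun y hy h3 => ?_⟩
        by_contra hyU
        have hyx : y ≠ x := fun h => hyU (h ▸ hx)
        have hyx' : y ∈ x := (ZFSet.mem_insert_iff.1 hy).resolve_left hyx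
        rw [dne x y (Ne.symm hyx), wa, max_eq_right (w0 y), wn y hyx] at h3
        have h4 : ν y ≤ N := hN ⟨y, ⟨hyx', hyU⟩, rfl⟩
        have h5 : (1 : ℝ) / (N + 1) ≤ 1 / (ν y + 1) := by
          apply one_div_le_one_div_of_le
          · positivity
          · have : (ν y : ℝ) ≤ N := by exact_mod_cast h4
            linarith
        linarith
      · refine ⟨w x, wpos x hxa, fun y hy h3 => ?_⟩
        by_contra hyU
        have hyx : x ≠ y := fun h => hyU (h ▸ hx)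
        rw [dne x y hyx] at h3
        exact absurd (le_max_left (w x) (w y)) (not_le.2 h3)
    · intro h1
      refine ⟨hU, hUX, fun haU => ?_⟩
      obtain ⟨ε, hε, h2⟩ := h1 a haU
      obtain ⟨N, hN⟩ := exists_nat_one_div_lt hε
      refine Set.Finite.of_finite_image (f := ν) ((Set.finite_Iio N).subset ?_) ?_
      · rintro _ ⟨y, ⟨hy, hyU⟩, rfl⟩
        have hya : y ≠ a := fun h => hyU (h ▸ haU)
        have h3 : ε ≤ d a y := by
          by_contra hc
          push Not at hc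
          exact hyU (h2 y (ZFSet.mem_insert_iff.2 (Or.inr hy)) hc)
        rw [dne a y (Ne.symm hya), wa, max_eq_right (w0 y), wn y hya] at h3
        have h4 : (1 : ℝ) / (N + 1) < 1 / (ν y + 1) := hN.trans_le h3
        have h5 : ((ν y : ℝ) + 1) < N + 1 := by
          refine lt_of_one_div_lt_one_div ?_ h4
          positivity
        have h6 : (ν y : ℝ) < N := by linarith
        exact Set.mem_Iio.2 (by exact_mod_cast h6)
      · intro x hx y hy h
        exact hνinj x hx.1 y hy.1 h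

end

end Pool.Agent.R596.FC
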