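import Pool.Agent.W868.Mos
import Pool.Agent.W868.Hart
import Pool.Agent.W868.God

/-!
# Choosing points from closed sets
-/

set_option autoImplicit false
set_option linter.all false

namespace Pool.Agent.R596.FC

open Pool.Agent.W868
open ZFSet (pair)

/-- The predecessors. -/
noncomputable def kpr (p : ZFSet.{0}) : ZFSet.{0} := im (fun u => pair (fs p) u) (sn p)

theorem mem_kpr {p q : ZFSet.{0}} : q ∈ kpr p ↔ ∃ u, u ∈ sn p ∧ q = pair (fs p) u := by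
  unfold kpr
  rw [mem_im]

theorem kpr_wf : WellFounded fun q p => q ∈ kpr p := by
  refine Subrelation.wf (r := InvImage (· < ·) fun p : ZFSet.{0} => (sn p).rank) ?_
    (InvImage.wf _ Ordinal.lt_wf)
  intro q p h
  obtain ⟨u, hu, rfl⟩ := mem_kpr.1 h
  change (sn (pair (fs p) u)).rank < (sn p).rank
  rw [sn_pair]
  exact ZFSet.rank_lt_of_mem hu

section

variable (cl : ZFSet.{0} → ZFSet.{0})

/-- The recursion step. -/
noncomputable def Gk (p g : ZFSet.{0}) : ZFSet.{0} :=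
  ZFSet.sep (fun z => ∀ β ∈ sn p, (∃ w ∈ ap g (pair (fs p) β), w ∈ cl β) → z ∈ cl β) (fs p)

/-- The recursion. -/
noncomputable def Kp : ZFSet.{0} → ZFSet.{0} := wfF kpr kpr_wf (Gk cl)

/-- The decreasing sequence of closed sets. -/
noncomputable def K (C α : ZFSet.{0}) : ZFSet.{0} := Kp cl (pair C α)

theorem mem_K {C α z : ZFSet.{0}} :
    z ∈ K cl C α ↔ z ∈ C ∧ ∀ β ∈ α, (∃ w ∈ K cl C β, w ∈ cl β) → z ∈ cl β := by
  unfold K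
  rw [Kp, wfF_eq, ← Kp, Gk, ZFSet.mem_sep]
  simp only [fs_pair, sn_pair]
  refine and_congr_right fun _ => forall₂_congr fun β hβ => ?_
  rw [ap_gr (mem_kpr.2 ⟨β, by rwa [sn_pair], by rw [fs_pair]⟩)]

variable {cl} {M : Set ZFSet.{0}} (hM : IsZF M)
  (hcl : DfnF M M fun w : Fin 1 → ZFSet.{0} => cl (w 0))

include hM hcl

theorem dfn_Kp : DfnF M M fun w : Fin 1 → ZFSet.{0} => Kp cl (w 0) := by
  refine hM.wfrec (F := Kp cl) (pr := kpr) kpr_wf (G := Gk cl) ?_ ?_ ?_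
  · refine hM.im' (h := fun u v => pair (fs (v 0)) u) (hM.sn' (DfnF.proj 0)) ?_
    exact hM.base.pair' (hM.fs' (DfnF.proj 1)) (DfnF.proj 0)
  · refine hM.sep' (Q := fun z v => ∀ β ∈ sn (v 0),
      (∃ w ∈ ap (v 1) (pair (fs (v 0)) β), w ∈ cl β) → z ∈ cl β) (hM.fs' (DfnF.proj 0)) ?_
    refine hM.base.ball (hM.sn' (DfnF.proj 1)) (Dfn.imp ?_ ?_)
    · refine hM.base.bex (hM.ap' (DfnF.proj 3) (hM.base.pair' (hM.fs' (DfnF.proj 2))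
        (DfnF.proj 0))) ?_
      exact Dfn.mem (DfnF.proj 0) (DfnF.comp1 (f := cl) hcl (DfnF.proj 1))
    · exact Dfn.mem (DfnF.proj 1) (DfnF.comp1 (f := cl) hcl (DfnF.proj 0))
  · intro z
    exact wfF_eq kpr kpr_wf (Gk cl) z

theorem dfn_K : DfnF M M fun w : Fin 2 → ZFSet.{0} => K cl (w 0) (w 1) :=
  DfnF.comp1 (f := Kp cl) (dfn_Kp hM hcl) (hM.base.pair' (DfnF.proj 0) (DfnF.proj 1))

omit hM hcl in
theorem K_anti {C α β : ZFSet.{0}} (h : α ⊆ β) : K cl C β ⊆ K cl C α := by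
  intro z hz
  rw [mem_K] at hz ⊢
  exact ⟨hz.1, fun γ hγ => hz.2 γ (h hγ)⟩

variable {X κ : ZFSet.{0}} {Cl : ZFSet.{0} → Prop}

/-- Nonempty closed sets lead to nonempty closed sets. -/
theorem K_ne (hκ : κ ∈ M) (hκo : κ.IsOrdinal) (hc : ∀ β ∈ κ, Cl (cl β))
    (hI : ∀ C, Cl C → ∀ Q : ZFSet.{0} → Prop, (∀ β, Q β → β ∈ κ) →
      Cl (ZFSet.sep (fun z => ∀ β, Q β → z ∈ cl β) C))
    (hK : ∀ 𝒦 ∈ M, (∀ K ∈ 𝒦, Cl K) → (∀ K ∈ 𝒦, ∀ L ∈ 𝒦, K ⊆ L ∨ L ⊆ K) →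
      (∀ K ∈ 𝒦, ∃ z, z ∈ K) → (∃ K, K ∈ 𝒦) → ∃ z, ∀ K ∈ 𝒦, z ∈ K)
    {C : ZFSet.{0}} (hC : C ∈ M) (hCc : Cl C) (hCn : ∃ z, z ∈ C) :
    ∀ α : ZFSet.{0}, α.IsOrdinal → α ⊆ κ → ∃ z, z ∈ K cl C α := by
  have hKc : ∀ α, α ⊆ κ → Cl (K cl C α) := by
    intro α hα
    have := hI C hCc (fun β => β ∈ α ∧ ∃ w ∈ K cl C β, w ∈ cl β) fun β h => hα h.1
    have h2 : K cl C α = ZFSet.sep (fun z => ∀ β, (β ∈ α ∧ ∃ w ∈ K cl C β, w ∈ cl β) →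
        z ∈ cl β) C := by
      ext z
      rw [mem_K, ZFSet.mem_sep]
      refine and_congr_right fun _ => ?_
      exact ⟨fun h β hβ => h β hβ.1 hβ.2, fun h β h1 h3 => h β ⟨h1, h3⟩⟩
    rw [h2]
    exact this
  intro α
  induction α using ZFSet.inductionOn with
  | _ α ih =>
  intro hα hακ
  -- the family of all sets K ∩ cl β or K
  let L : ZFSet.{0} → ZFSet.{0} := fun β =>
    ZFSet.sep (fun z => (∃ w ∈ K cl C β, w ∈ cl β) → z ∈ cl β) (K cl C β)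
  have hL : DfnF M M fun w : Fin 1 → ZFSet.{0} => L (w 0) := by
    refine hM.sep' (Q := fun z v => (∃ w ∈ K cl C (v 0), w ∈ cl (v 0)) → z ∈ cl (v 0)) ?_ ?_
    · exact DfnF.comp2 (f := K cl) (dfn_K hM hcl) (DfnF.const hC) (DfnF.proj 0)
    · refine Dfn.imp (hM.base.bex ?_ ?_) ?_
      · exact DfnF.comp2 (f := K cl) (dfn_K hM hcl) (DfnF.const hC) (DfnF.proj 1)
      · exact Dfn.mem (DfnF.proj 0) (DfnF.comp1 (f := cl) hcl (DfnF.proj 2))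
      · exact Dfn.mem (DfnF.proj 0) (DfnF.comp1 (f := cl) hcl (DfnF.proj 1))
  by_cases h0 : ∃ β, β ∈ α
  · obtain ⟨z, hz⟩ := hK (im L α) (hM.im_mem (by
        rcases (ZFSet.IsOrdinal.subset_iff_eq_or_mem hα hκo).1 hακ with rfl | h
        · exact hκ
        · exact hM.trans _ hκ _ h) hL) (by
      intro K' hK'
      obtain ⟨β, hβ, rfl⟩ := mem_im.1 hK'
      have hβκ : β ⊆ κ := hκo.isTransitive.subset_of_mem (hακ hβ)
      have h1 := hI (K cl C β) (hKc β hβκ) (fun γ => γ = β ∧ ∃ w ∈ K cl C β, w ∈ cl β)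
        fun γ h => h.1 ▸ hακ hβ
      have h2 : L β = ZFSet.sep (fun z => ∀ γ, (γ = β ∧ ∃ w ∈ K cl C β, w ∈ cl β) →
          z ∈ cl γ) (K cl C β) := by
        ext z
        simp only [L]
        rw [ZFSet.mem_sep, ZFSet.mem_sep]
        refine and_congr_right fun _ => ?_
        constructor
        · rintro h γ ⟨rfl, h3⟩
          exact h h3
        · exact fun h h3 => h β ⟨rfl, h3⟩
      rw [h2]
      exact h1) (by
      have key : ∀ β ∈ α, ∀ γ ∈ α, β ∈ γ → L γ ⊆ L β := by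
        intro β hβ γ hγ hβγ z hz
        have h3 := (ZFSet.mem_sep.1 hz).1
        rw [mem_K] at h3
        refine ZFSet.mem_sep.2 ⟨?_, h3.2 β hβγ⟩
        rw [mem_K]
        exact ⟨h3.1, fun δ hδ => h3.2 δ ((hα.mem hγ).isTransitive.mem_trans hδ hβγ)⟩
      intro K' hK' L' hL'
      obtain ⟨β, hβ, rfl⟩ := mem_im.1 hK'
      obtain ⟨γ, hγ, rfl⟩ := mem_im.1 hL'
      rcases (hα.mem hβ).mem_trichotomous (hα.mem hγ) with h | h | h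
      · exact Or.inr (key β hβ γ hγ h)
      · rw [h]
        exact Or.inl fun _ h => h
      · exact Or.inl (key γ hγ β hβ h)) (by
      intro K' hK'
      obtain ⟨β, hβ, rfl⟩ := mem_im.1 hK'
      by_cases h3 : ∃ w ∈ K cl C β, w ∈ cl β
      · obtain ⟨w, h4, h5⟩ := h3
        exact ⟨w, ZFSet.mem_sep.2 ⟨h4, fun _ => h5⟩⟩
      · obtain ⟨w, h4⟩ := ih β hβ (hα.mem hβ) fun x hx => hακ (hα.isTransitive.mem_trans hx hβ)
        exact ⟨w, ZFSet.mem_sep.2 ⟨h4, fun h => absurd h h3⟩⟩) (by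
      obtain ⟨β, hβ⟩ := h0
      exact ⟨_, mem_im.2 ⟨β, hβ, rfl⟩⟩)
    refine ⟨z, ?_⟩
    rw [mem_K]
    constructor
    · obtain ⟨β, hβ⟩ := h0
      have := (ZFSet.mem_sep.1 (hz _ (mem_im.2 ⟨β, hβ, rfl⟩))).1
      rw [mem_K] at this
      exact this.1
    · intro β hβ h3
      exact (ZFSet.mem_sep.1 (hz _ (mem_im.2 ⟨β, hβ, rfl⟩))).2 h3
  · obtain ⟨z, hz⟩ := hCn
    refine ⟨z, ?_⟩
    rw [mem_K]
    exact ⟨hz, fun β hβ => absurd ⟨β, hβ⟩ h0⟩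

omit hM hcl in
/-- The last set is a singleton. -/
theorem K_uniq (hκo : κ.IsOrdinal)
    (hs : ∀ x ∈ X, ∀ y ∈ X, x ≠ y → ∃ β ∈ κ, x ∈ cl β ∧ y ∉ cl β)
    {C : ZFSet.{0}} (hCX : C ⊆ X) {z z' : ZFSet.{0}} (hz : z ∈ K cl C κ) (hz' : z' ∈ K cl C κ) :
    z = z' := by
  by_contra hne
  obtain ⟨β, hβ, h1, h2⟩ := hs z (hCX ((mem_K cl).1 hz).1) z' (hCX ((mem_K cl).1 hz').1) hne
  exact h2 (((mem_K cl).1 hz').2 β hβ ⟨z, K_anti (hκo.isTransitive.subset_of_mem hβ) hz, h1⟩)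

/-- The chosen point. -/
noncomputable def pk (cl : ZFSet.{0} → ZFSet.{0}) (κ C : ZFSet.{0}) : ZFSet.{0} :=
  ZFSet.sUnion (K cl C κ)

theorem dfn_pk (hκ : κ ∈ M) : DfnF M M fun w : Fin 1 → ZFSet.{0} => pk cl κ (w 0) := by
  refine hM.base.sUnion' ?_
  exact DfnF.comp2 (f := K cl) (dfn_K hM hcl) (DfnF.proj 0) (DfnF.const hκ)

theorem pk_mem (hκ : κ ∈ M) (hκo : κ.IsOrdinal) (hc : ∀ β ∈ κ, Cl (cl β))
    (hI : ∀ C, Cl C → ∀ Q : ZFSet.{0} → Prop, (∀ β, Q β → β ∈ κ) →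
      Cl (ZFSet.sep (fun z => ∀ β, Q β → z ∈ cl β) C))
    (hK : ∀ 𝒦 ∈ M, (∀ K ∈ 𝒦, Cl K) → (∀ K ∈ 𝒦, ∀ L ∈ 𝒦, K ⊆ L ∨ L ⊆ K) →
      (∀ K ∈ 𝒦, ∃ z, z ∈ K) → (∃ K, K ∈ 𝒦) → ∃ z, ∀ K ∈ 𝒦, z ∈ K)
    (hs : ∀ x ∈ X, ∀ y ∈ X, x ≠ y → ∃ β ∈ κ, x ∈ cl β ∧ y ∉ cl β)
    {C : ZFSet.{0}} (hC : C ∈ M) (hCX : C ⊆ X) (hCc : Cl C) (hCn : ∃ z, z ∈ C) :
    pk cl κ C ∈ C := by
  obtain ⟨z, hz⟩ := K_ne hM hcl hκ hκo hc hI hK hC hCc hCn κ hκo fun _ h => h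
  have h1 : K cl C κ = {z} := by
    ext w
    rw [ZFSet.mem_singleton]
    exact ⟨fun hw => K_uniq hκo hs hCX hw hz, fun hw => hw ▸ hz⟩
  have h2 : pk cl κ C = z := by
    rw [pk, h1, ZFSet.sUnion_singleton]
  rw [h2]
  exact ((mem_K cl).1 hz).1

end

end Pool.Agent.R596.FC
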