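import Pool.Agent.R596.FcDefs

/-!
# Countable products of compact metrizable spaces in transitive models of ZF: the definitions
-/

set_option autoImplicit false

namespace Pool.Agent.R596Fc

open Pool.Agent.W868
open ZFSet (pair)

/-- The sequence `s` as a set: the function `n ↦ s n` on the set of all natural numbers. -/
noncomputable def seq (s : ℕ → ZFSet.{0}) : ZFSet.{0} := ZFSet.range fun n => pair (nat n) (s n)

/-- In `M`, the set `P` is the product of the sequence of sets `X`. -/
def IsProd (M : Set ZFSet.{0}) (X : ℕ → ZFSet.{0}) (P : ZFSet.{0}) : Prop :=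
  P ∈ M ∧ ∀ f, f ∈ P ↔ f ∈ M ∧ ∃ s : ℕ → ZFSet.{0}, f = seq s ∧ ∀ n, s n ∈ X n

/-- The set of all elements of `P` whose coordinate with the index `n` is an element of `V`. -/
noncomputable def cyl (P : ZFSet.{0}) (n : ℕ) (V : ZFSet.{0}) : ZFSet.{0} :=
  ZFSet.sep (fun f => ∃ x ∈ V, pair (nat n) x ∈ f) P

/-- In `M`, the set `P` is the product of the sequence of sets `X`, and `T` is the product
topology of the sequence of topologies `τ`: the smallest topology for which all preimages of open
sets under the projections are open. -/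
structure IsProdTop (M : Set ZFSet.{0}) (X τ : ℕ → ZFSet.{0}) (P T : ZFSet.{0}) : Prop where
  prod : IsProd M X P
  top : IsTop M P T
  cyl_mem : ∀ n, ∀ V ∈ τ n, cyl P n V ∈ T
  least : ∀ T', IsTop M P T' → (∀ n, ∀ V ∈ τ n, cyl P n V ∈ T') → T ⊆ T'

/-- In `M`, the sequences `X` and `τ` are a sequence of compact metrizable spaces. -/
structure IsFamily (M : Set ZFSet.{0}) (X τ : ℕ → ZFSet.{0}) : Prop where
  set_mem : seq X ∈ M
  top_mem : seq τ ∈ M
  top : ∀ n, IsTop M (X n) (τ n)
  compact : ∀ n, Compact M (X n) (τ n)
  metrizable : ∀ n, Metrizable M (X n) (τ n)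

/-- The statement **CPM**_le(C, S) in `M`: every countable product of compact metrizable spaces
is separable. -/
def CPMCS (M : Set ZFSet.{0}) : Prop :=
  ∀ X τ P T, IsFamily M X τ → IsProdTop M X τ P T → Separable M P T

/-- The statement **CPM**_le(C, C) in `M`: every countable product of compact metrizable spaces
is compact. -/
def CPMCC (M : Set ZFSet.{0}) : Prop :=
  ∀ X τ P T, IsFamily M X τ → IsProdTop M X τ P T → Compact M P T

/-- The statement **CPM**_le(C, M) in `M`: every countable product of compact metrizable spaces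
is metrizable. -/
def CPMCM (M : Set ZFSet.{0}) : Prop :=
  ∀ X τ P T, IsFamily M X τ → IsProdTop M X τ P T → Metrizable M P T

end Pool.Agent.R596Fc
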