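import Pool.Agent.R596.FcProd
import Pool.Agent.R596.FcMain
import Pool.Agent.W868.Small

/-!
# Sequences and products
-/

set_option autoImplicit false
set_option linter.all false

namespace Pool.Agent.R596.FC

open Pool.Agent.W868 Pool.Agent.R596Fc
open ZFSet (pair)

theorem mem_seq {s : ℕ → ZFSet.{0}} {z : ZFSet.{0}} : z ∈ seq s ↔ ∃ n, z = pair (nat n) (s n) := by
  unfold seq
  rw [ZFSet.mem_range]
  exact ⟨fun ⟨n, h⟩ => ⟨n, h.symm⟩, fun ⟨n, h⟩ => ⟨n, h.symm⟩⟩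

theorem pair_mem_seq {s : ℕ → ZFSet.{0}} {n : ℕ} {x : ZFSet.{0}} :
    pair (nat n) x ∈ seq s ↔ x = s n := by
  rw [mem_seq]
  constructor
  · rintro ⟨m, h⟩
    obtain ⟨h1, rfl⟩ := ZFSet.pair_inj.1 h
    rw [nat_injective h1]
  · rintro rfl
    exact ⟨n, rfl⟩

theorem seq_inj {s t : ℕ → ZFSet.{0}} (h : seq s = seq t) : s = t := by
  funext n
  have h1 : pair (nat n) (s n) ∈ seq s := pair_mem_seq.2 rfl
  rw [h, pair_mem_seq] at h1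
  exact h1

theorem isFunc_seq {s : ℕ → ZFSet.{0}} {Y : ZFSet.{0}} (h : ∀ n, s n ∈ Y) :
    ZFSet.IsFunc ZFSet.omega Y (seq s) := by
  refine ⟨fun z hz => ?_, fun z hz => ?_⟩
  · obtain ⟨n, rfl⟩ := mem_seq.1 hz
    exact ZFSet.pair_mem_prod.2 ⟨nat_mem_omega n, h n⟩
  · obtain ⟨n, rfl⟩ := mem_omega_iff.1 hz
    exact ⟨s n, pair_mem_seq.2 rfl, fun y hy => pair_mem_seq.1 hy⟩

theorem ap_seq (s : ℕ → ZFSet.{0}) (n : ℕ) : ap (seq s) (nat n) = s n :=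
  ap_func (isFunc_seq (s := s) (Y := ZFSet.range s) fun n => ZFSet.mem_range.2 ⟨n, rfl⟩)
    (pair_mem_seq.2 rfl)

theorem eq_seq {Y f : ZFSet.{0}} (h : ZFSet.IsFunc ZFSet.omega Y f) :
    f = seq fun n => ap f (nat n) := by
  ext z
  constructor
  · intro hz
    obtain ⟨u, hu, w, hw, rfl⟩ := ZFSet.mem_prod.1 (h.1 hz)
    obtain ⟨n, rfl⟩ := mem_omega_iff.1 hu
    rw [pair_mem_seq, ap_func h hz]
  · intro hz
    obtain ⟨n, rfl⟩ := mem_seq.1 hz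
    obtain ⟨b, hb, hb'⟩ := fun_exists h (nat_mem_omega n)
    rwa [ap_func h hb']

theorem mem_cyl {P V : ZFSet.{0}} {n : ℕ} {s : ℕ → ZFSet.{0}} :
    seq s ∈ cyl P n V ↔ seq s ∈ P ∧ s n ∈ V := by
  unfold cyl
  rw [ZFSet.mem_sep]
  refine and_congr Iff.rfl ?_
  constructor
  · rintro ⟨x, hx, h⟩
    rwa [← pair_mem_seq.1 h]
  · exact fun h => ⟨_, h, pair_mem_seq.2 rfl⟩

section

variable {M : Set ZFSet.{0}} (hM : IsZF M)

include hM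

theorem of_seq_mem {s : ℕ → ZFSet.{0}} (h : seq s ∈ M) (n : ℕ) : s n ∈ M :=
  (hM.of_pair_mem (hM.trans _ h _ (pair_mem_seq.2 rfl : pair (nat n) (s n) ∈ seq s))).2

theorem seq_mem {s : ℕ → ZFSet.{0}} {F : ZFSet.{0} → ZFSet.{0}}
    (hF : DfnF M M fun w : Fin 1 → ZFSet.{0} => F (w 0)) (h : ∀ n, s n = F (nat n)) :
    seq s ∈ M := by
  have h1 : seq s = im (fun n => pair n (F n)) ZFSet.omega := by
    ext z
    rw [mem_seq, mem_im]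
    constructor
    · rintro ⟨n, rfl⟩
      exact ⟨nat n, nat_mem_omega n, by rw [h]⟩
    · rintro ⟨u, hu, rfl⟩
      obtain ⟨n, rfl⟩ := mem_omega_iff.1 hu
      exact ⟨n, by rw [h]⟩
  rw [h1]
  exact hM.im_mem hM.infinity (hM.base.pair' (DfnF.proj 0) hF)

theorem dfn_ap_seq {s : ℕ → ZFSet.{0}} (h : seq s ∈ M) :
    DfnF M M fun w : Fin 1 → ZFSet.{0} => ap (seq s) (w 0) :=
  hM.ap' (DfnF.const h) (DfnF.proj 0)

/-- The union of the values of a sequence. -/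
theorem exists_bound {s : ℕ → ZFSet.{0}} (h : seq s ∈ M) :
    ∃ Y ∈ M, ∀ x, x ∈ Y ↔ ∃ n, x ∈ s n := by
  refine ⟨ZFSet.sUnion (im (fun n => ap (seq s) n) ZFSet.omega),
    hM.union _ (hM.im_mem hM.infinity (dfn_ap_seq hM h)), fun x => ?_⟩
  rw [ZFSet.mem_sUnion]
  constructor
  · rintro ⟨y, hy, hx⟩
    obtain ⟨u, hu, rfl⟩ := mem_im.1 hy
    obtain ⟨n, rfl⟩ := mem_omega_iff.1 hu
    rw [ap_seq] at hx
    exact ⟨n, hx⟩
  · rintro ⟨n, hx⟩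
    exact ⟨s n, mem_im.2 ⟨nat n, nat_mem_omega n, (ap_seq s n).symm⟩, hx⟩

/-- Products exist. -/
theorem exists_prod {X : ℕ → ZFSet.{0}} (hX : seq X ∈ M) : ∃ P, IsProd M X P := by
  have hB := hM.base
  obtain ⟨Y, hY, hY'⟩ := exists_bound hM hX
  obtain ⟨W, hW, hW'⟩ := hM.exists_pow (hM.prod_mem hM.infinity hY)
  refine ⟨ZFSet.sep (fun f => ZFSet.IsFunc ZFSet.omega Y f ∧
    ∀ n ∈ ZFSet.omega, ap f n ∈ ap (seq X) n) W, ?_, fun f => ?_⟩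
  · refine hM.sep_mem (Q := fun f => ZFSet.IsFunc ZFSet.omega Y f ∧
      ∀ n ∈ ZFSet.omega, ap f n ∈ ap (seq X) n) (Dfn.and ?_ ?_) hW
    · exact hB.isFunc' (DfnF.const hM.infinity) (DfnF.const hY) (DfnF.proj 0)
    · refine hB.ball (DfnF.const hM.infinity) (Dfn.mem ?_ ?_)
      · exact hM.ap' (DfnF.proj 1) (DfnF.proj 0)
      · exact hM.ap' (DfnF.const hX) (DfnF.proj 0)
  · rw [ZFSet.mem_sep, hW']
    constructor
    · rintro ⟨⟨h1, -⟩, h2, h3⟩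
      refine ⟨h1, _, eq_seq h2, fun n => ?_⟩
      have h4 := h3 _ (nat_mem_omega n)
      rwa [ap_seq] at h4
    · rintro ⟨h1, s, rfl, h2⟩
      have h3 := isFunc_seq (s := s) (Y := Y) fun n => (hY' _).2 ⟨n, h2 n⟩
      refine ⟨⟨h1, h3.1⟩, h3, fun n hn => ?_⟩
      obtain ⟨n, rfl⟩ := mem_omega_iff.1 hn
      rw [ap_seq, ap_seq]
      exact h2 n

/-- Being a topology, for subsets of a fixed set. -/
def TopD (M : Set ZFSet.{0}) (P T : ZFSet.{0}) : Prop :=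
  ∅ ∈ T ∧ P ∈ T ∧ (∀ U ∈ T, ∀ V ∈ T, ZFSet.sep (fun x => x ∈ V) U ∈ T) ∧
    ∀ 𝒰 ∈ M, 𝒰 ⊆ T → (ZFSet.sUnion 𝒰 : ZFSet.{0}) ∈ T

omit hM in
theorem inter_eq (U V : ZFSet.{0}) : U ∩ V = ZFSet.sep (fun x => x ∈ V) U := by
  ext z
  rw [ZFSet.mem_inter, ZFSet.mem_sep]

omit hM in
theorem topD_of {P T : ZFSet.{0}} (h : IsTop M P T) : TopD M P T :=
  ⟨h.empty, h.univ, fun U hU V hV => inter_eq U V ▸ h.inter U hU V hV, h.union⟩

omit hM in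
theorem isTop_of {P T : ZFSet.{0}} (hP : P ∈ M) (hT : T ∈ M) (hs : ∀ U ∈ T, U ⊆ P)
    (h : TopD M P T) : IsTop M P T :=
  ⟨hP, hT, hs, h.1, h.2.1, fun U hU V hV => (inter_eq U V).symm ▸ h.2.2.1 U hU V hV, h.2.2.2⟩

theorem dfn_TopD {n : ℕ} {P : ZFSet.{0}} (hP : P ∈ M) {F : (Fin n → ZFSet.{0}) → ZFSet.{0}}
    (hF : DfnF M M F) : Dfn M M fun v => TopD M P (F v) := by
  have hB := hM.base
  have h : Dfn M M fun w : Fin 1 → ZFSet.{0} => TopD M P (w 0) := by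
    refine Dfn.and ?_ (Dfn.and ?_ (Dfn.and ?_ ?_))
    · exact Dfn.mem (DfnF.const hM.empty_mem) (DfnF.proj 0)
    · exact Dfn.mem (DfnF.const hP) (DfnF.proj 0)
    · refine hB.ball (DfnF.proj 0) (hB.ball (DfnF.proj 1) (Dfn.mem ?_ (DfnF.proj 2)))
      exact hM.sep' (Q := fun x v => x ∈ v 0) (DfnF.proj 1)
        (Dfn.mem (DfnF.proj 0) (DfnF.proj 1))
    · refine Dfn.all (Dfn.imp ?_ (Dfn.mem ?_ (DfnF.proj 1)))
      · exact hB.subset' (DfnF.proj 0) (DfnF.proj 1)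
      · exact hB.sUnion' (DfnF.proj 0)
  exact Dfn.comp1 (Q := TopD M P) h hF

/-- Product topologies exist. -/
theorem exists_prodTop {X τ : ℕ → ZFSet.{0}} (hX : seq X ∈ M) (hτ : seq τ ∈ M) :
    ∃ P T, IsProdTop M X τ P T := by
  have hB := hM.base
  obtain ⟨P, hP⟩ := exists_prod hM hX
  obtain ⟨PP, hPP, hPP'⟩ := hM.exists_pow hP.1
  obtain ⟨PPP, hPPP, hPPP'⟩ := hM.exists_pow hPP
  let Cy : ZFSet.{0} → Prop := fun T' => ∀ n ∈ ZFSet.omega, ∀ V ∈ ap (seq τ) n,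
    ZFSet.sep (fun f => ∃ x ∈ V, pair n x ∈ f) P ∈ T'
  have hCy : ∀ T', Cy T' ↔ ∀ n, ∀ V ∈ τ n, cyl P n V ∈ T' := by
    intro T'
    constructor
    · intro h n V hV
      exact h (nat n) (nat_mem_omega n) V (by rwa [ap_seq])
    · intro h n hn V hV
      obtain ⟨n, rfl⟩ := mem_omega_iff.1 hn
      rw [ap_seq] at hV
      exact h n V hV
  let T : ZFSet.{0} := ZFSet.sep (fun U => ∀ T' ∈ PPP, TopD M P T' → Cy T' → U ∈ T') PP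
  have hT : T ∈ M := by
    refine hM.sep_mem (Q := fun U => ∀ T' ∈ PPP, TopD M P T' → Cy T' → U ∈ T') ?_ hPP
    refine hB.ball (DfnF.const hPPP) (Dfn.imp (dfn_TopD hM hP.1 (DfnF.proj 0))
      (Dfn.imp ?_ (Dfn.mem (DfnF.proj 1) (DfnF.proj 0))))
    refine hB.ball (DfnF.const hM.infinity) (hB.ball (hM.ap' (DfnF.const hτ) (DfnF.proj 0)) ?_)
    refine Dfn.mem (hM.sep' (Q := fun f v => ∃ x ∈ v 0, pair (v 1) x ∈ f)
      (DfnF.const hP.1) ?_) (DfnF.proj 2)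
    refine hB.bex (DfnF.proj 1) (Dfn.mem (hB.pair' (DfnF.proj 3) (DfnF.proj 0)) (DfnF.proj 1))
  have hTP : ∀ U ∈ T, U ⊆ P := fun U hU => ((hPP' U).1 (ZFSet.mem_sep.1 hU).1).2
  have hcylM : ∀ n V, V ∈ M → cyl P n V ∈ PP := by
    intro n V hV
    refine (hPP' _).2 ⟨?_, fun f hf => (ZFSet.mem_sep.1 hf).1⟩
    refine hM.sep_mem (Q := fun f => ∃ x ∈ V, pair (nat n) x ∈ f) ?_ hP.1
    exact hB.bex (DfnF.const hV) (Dfn.mem (hB.pair' (DfnF.const (hM.nat_mem n))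
      (DfnF.proj 0)) (DfnF.proj 1))
  refine ⟨P, T, hP, isTop_of hP.1 hT hTP ⟨?_, ?_, ?_, ?_⟩, ?_, ?_⟩
  · refine ZFSet.mem_sep.2 ⟨(hPP' _).2 ⟨hM.empty_mem, ZFSet.empty_subset _⟩, ?_⟩
    exact fun T' _ h _ => h.1
  · refine ZFSet.mem_sep.2 ⟨(hPP' _).2 ⟨hP.1, fun _ h => h⟩, ?_⟩
    exact fun T' _ h _ => h.2.1
  · intro U hU V hV
    obtain ⟨h1, h2⟩ := ZFSet.mem_sep.1 hU
    obtain ⟨h3, h4⟩ := ZFSet.mem_sep.1 hV
    refine ZFSet.mem_sep.2 ⟨(hPP' _).2 ⟨?_, fun z hz => hTP U hU (ZFSet.mem_sep.1 hz).1⟩, ?_⟩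
    · exact hM.sep_mem (Q := fun x => x ∈ V) (Dfn.mem (DfnF.proj 0)
        (DfnF.const ((hPP' V).1 h3).1)) ((hPP' U).1 h1).1
    · exact fun T' hT' h5 h6 => h5.2.2.1 U (h2 T' hT' h5 h6) V (h4 T' hT' h5 h6)
  · intro 𝒰 h𝒰 h1
    refine ZFSet.mem_sep.2 ⟨(hPP' _).2 ⟨hM.union _ h𝒰, fun z hz => ?_⟩, ?_⟩
    · obtain ⟨U, hU, hz⟩ := ZFSet.mem_sUnion.1 hz
      exact hTP U (h1 hU) hz
    · exact fun T' hT' h5 h6 => h5.2.2.2 𝒰 h𝒰 fun U hU => (ZFSet.mem_sep.1 (h1 hU)).2 T' hT' h5 h6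
  · intro n V hV
    refine ZFSet.mem_sep.2 ⟨hcylM n V (hM.trans _ (of_seq_mem hM hτ n) _ hV), ?_⟩
    exact fun T' _ _ h => (hCy T').1 h n V hV
  · intro T' hT' h U hU
    refine (ZFSet.mem_sep.1 hU).2 T' ?_ (topD_of hT') ((hCy T').2 h)
    exact (hPPP' T').2 ⟨hT'.top_mem, fun V hV =>
      (hPP' V).2 ⟨hM.trans _ hT'.top_mem _ hV, hT'.sub V hV⟩⟩

end

end Pool.Agent.R596.FC
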