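import Pool.Agent.R596.FcPick
import Pool.Agent.R596.FcDefs

/-!
# Separability from well-ordered families of small sets
-/

set_option autoImplicit false
set_option linter.all false

namespace Pool.Agent.R596.FC

open Pool.Agent.W868 Pool.Agent.R596Fc
open ZFSet (pair)

/-- Nearness. -/
def Nr (D i x y : ZFSet.{0}) : Prop := pair (pair x y) i ∈ D

/-- A countable base of a uniformity. -/
structure Unif (X D : ZFSet.{0}) : Prop where
  refl : ∀ x ∈ X, ∀ n, Nr D (nat n) x x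
  symm : ∀ x ∈ X, ∀ y ∈ X, ∀ n, Nr D (nat n) x y → Nr D (nat n) y x
  tri : ∀ x ∈ X, ∀ y ∈ X, ∀ z ∈ X, ∀ n, Nr D (nat (n + 1)) x y → Nr D (nat (n + 1)) y z →
    Nr D (nat n) x z
  sep : ∀ x ∈ X, ∀ y ∈ X, (∀ n, Nr D (nat n) x y) → x = y

/-- Open sets. -/
def Opn (X D U : ZFSet.{0}) : Prop := U ⊆ X ∧ ∀ x ∈ U, ∃ n, ∀ y ∈ X, Nr D (nat n) x y → y ∈ U

/-- Compactness. -/
def Cpt (M : Set ZFSet.{0}) (X D : ZFSet.{0}) : Prop :=
  ∀ 𝒰 ∈ M, (∀ U ∈ 𝒰, Opn X D U) → (∀ x ∈ X, ∃ U ∈ 𝒰, x ∈ U) →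
    ∃ ℱ : Set ZFSet.{0}, ℱ.Finite ∧ (∀ U ∈ ℱ, U ∈ 𝒰) ∧ ∀ x ∈ X, ∃ U ∈ ℱ, x ∈ U

/-- Closed sets. -/
def Cls (X D C : ZFSet.{0}) : Prop :=
  C ⊆ X ∧ ∀ x ∈ X, x ∉ C → ∃ n, ∀ y ∈ X, Nr D (nat n) x y → y ∉ C

theorem ex_nat {p : ZFSet.{0} → Prop} : (∃ i ∈ ZFSet.omega, p i) ↔ ∃ n : ℕ, p (nat n) := by
  constructor
  · rintro ⟨i, hi, h⟩
    obtain ⟨n, rfl⟩ := mem_omega_iff.1 hi
    exact ⟨n, h⟩
  · rintro ⟨n, h⟩
    exact ⟨nat n, mem_omega_iff.2 ⟨n, rfl⟩, h⟩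

theorem all_nat {p : ZFSet.{0} → Prop} : (∀ i ∈ ZFSet.omega, p i) ↔ ∀ n : ℕ, p (nat n) := by
  constructor
  · exact fun h n => h _ (mem_omega_iff.2 ⟨n, rfl⟩)
  · intro h i hi
    obtain ⟨n, rfl⟩ := mem_omega_iff.1 hi
    exact h n

section

variable {M : Set ZFSet.{0}} (hM : IsZF M)

include hM

theorem dfn_Nr {n : ℕ} {D : ZFSet.{0}} (hD : D ∈ M) {F G H : (Fin n → ZFSet.{0}) → ZFSet.{0}}
    (hF : DfnF M M F) (hG : DfnF M M G) (hH : DfnF M M H) :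
    Dfn M M fun v => Nr D (F v) (G v) (H v) :=
  Dfn.mem (hM.base.pair' (hM.base.pair' hG hH) hF) (DfnF.const hD)

/-- Countable unions of finite sets of ordinals. -/
theorem ctb_union {κ : ZFSet.{0}} (hκ : κ ∈ M) (hκo : κ.IsOrdinal)
    {U : ZFSet.{0} → ZFSet.{0}} (hU : DfnF M M fun w : Fin 1 → ZFSet.{0} => U (w 0))
    (hUκ : ∀ n ∈ ZFSet.omega, U n ⊆ κ)
    (hfin : ∀ n ∈ ZFSet.omega, {x | x ∈ U n}.Finite) :
    Ctb M (ZFSet.sep (fun β => ∃ n ∈ ZFSet.omega, β ∈ U n) κ) := by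
  have hω := hM.infinity
  have hUo : ∀ n ∈ ZFSet.omega, ∀ x ∈ U n, x.IsOrdinal := fun n hn x hx =>
    hκo.mem (hUκ n hn hx)
  have h1 : ∀ n ∈ ZFSet.omega, oty (U n) ⊆ ZFSet.omega := by
    intro n hn
    by_contra hc
    have h2 : ZFSet.omega ⊆ oty (U n) := by
      rcases (isOrdinal_oty (hUo n hn)).mem_trichotomous isOrdinal_omega with h | h | h
      · exact absurd (isOrdinal_omega.isTransitive.subset_of_mem h) hc
      · exact absurd (fun x hx => h ▸ hx) hc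
      · exact (isOrdinal_oty (hUo n hn)).isTransitive.subset_of_mem h
    have h3 : {x | x ∈ oty (U n)}.Finite := by
      refine ((hfin n hn).image (col (U n))).subset ?_
      intro x hx
      obtain ⟨y, hy, rfl⟩ := mem_im.1 hx
      exact ⟨y, hy, rfl⟩
    have h4 : (Set.range nat).Infinite := Set.infinite_range_of_injective nat_injective
    refine h4 (h3.subset ?_)
    rintro _ ⟨k, rfl⟩
    exact h2 (mem_omega_iff.2 ⟨k, rfl⟩)
  let N : ZFSet.{0} → ZFSet.{0} := fun β => lo M fun n => n ∈ ZFSet.omega ∧ β ∈ U n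
  let W : ZFSet.{0} := ZFSet.sep (fun β => ∃ n ∈ ZFSet.omega, β ∈ U n) κ
  have hW : W ∈ M := by
    refine hM.sep_mem (Q := fun β => ∃ n ∈ ZFSet.omega, β ∈ U n) ?_ hκ
    refine hM.base.bex (DfnF.const hω) ?_
    exact Dfn.mem (DfnF.proj 1) (DfnF.comp1 (f := U) hU (DfnF.proj 0))
  have hN : ∀ β ∈ W, N β ∈ ZFSet.omega ∧ β ∈ U (N β) := by
    intro β hβ
    obtain ⟨-, n, hn, h2⟩ := ZFSet.mem_sep.1 hβ
    exact (lo_spec (M := M) (P := fun n => n ∈ ZFSet.omega ∧ β ∈ U n)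
      ⟨n, hM.trans _ hω _ hn, isOrdinal_omega.mem hn, hn, h2⟩).2.2
  have dN : DfnF M M fun w : Fin 1 → ZFSet.{0} => N (w 0) := by
    refine hM.lo' (Q := fun n v => n ∈ ZFSet.omega ∧ v 0 ∈ U n) (Dfn.and ?_ ?_)
    · exact Dfn.mem (DfnF.proj 0) (DfnF.const hω)
    · exact Dfn.mem (DfnF.proj 1) (DfnF.comp1 (f := U) hU (DfnF.proj 0))
  have dcol : DfnF M M fun w : Fin 2 → ZFSet.{0} => col (w 0) (w 1) := by
    have h := DfnF.comp1 (f := fun p => col (fs p) (sn p)) (by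
      refine hM.wfrec (F := fun p => col (fs p) (sn p)) (pr := kpr) kpr_wf
        (G := fun p g => im sn (ZFSet.sep (fun q => sn (fs q) ∈ fs p) g)) ?_ ?_ ?_
      · refine hM.im' (h := fun u v => pair (fs (v 0)) u) (hM.sn' (DfnF.proj 0)) ?_
        exact hM.base.pair' (hM.fs' (DfnF.proj 1)) (DfnF.proj 0)
      · refine hM.im' (h := fun p _ => sn p) ?_ (hM.sn' (DfnF.proj 0))
        refine hM.sep' (Q := fun q v => sn (fs q) ∈ fs (v 0)) (DfnF.proj 1) ?_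
        exact Dfn.mem (hM.sn' (hM.fs' (DfnF.proj 0))) (hM.fs' (DfnF.proj 1))
      · intro z
        ext y
        rw [mem_col, mem_im]
        constructor
        · rintro ⟨u, hu, hu', rfl⟩
          refine ⟨_, ZFSet.mem_sep.2 ⟨mem_gr.2 ⟨_, mem_kpr.2 ⟨u, hu, rfl⟩, rfl⟩, ?_⟩, ?_⟩
          · simpa using hu'
          · simp
        · rintro ⟨p, hp, rfl⟩
          obtain ⟨hp, hp'⟩ := ZFSet.mem_sep.1 hp
          obtain ⟨q, hq, rfl⟩ := mem_gr.1 hp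
          obtain ⟨u, hu, rfl⟩ := mem_kpr.1 hq
          exact ⟨u, hu, by simpa using hp', by simp⟩)
      (hM.base.pair' (DfnF.proj (n := 2) 0) (DfnF.proj 1))
    refine h.congr fun v _ => ?_
    simp
  refine Inj.trans hM hW hω (Inj.of_fun hM hW (hM.prod_mem hω hω)
    (h := fun β => pair (N β) (col (U (N β)) β)) ?_ ?_ ?_)
    (sq_inj hM hω isOrdinal_omega fun _ h => h)
  · exact hM.base.pair' dN (DfnF.comp2 (f := col) dcol
      (DfnF.comp1 (f := U) hU dN) (DfnF.proj 0))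
  · intro β hβ
    obtain ⟨h2, h3⟩ := hN β hβ
    exact ZFSet.pair_mem_prod.2 ⟨h2, h1 _ h2 (mem_im.2 ⟨β, h3, rfl⟩)⟩
  · intro β hβ β' hβ' h
    obtain ⟨h2, h3⟩ := ZFSet.pair_inj.1 h
    obtain ⟨h4, h5⟩ := hN β hβ
    obtain ⟨h6, h7⟩ := hN β' hβ'
    rw [← h2] at h3 h7
    exact col_inj (xt_ord (hUo _ h4)) β h5 β' h7 h3

end

end Pool.Agent.R596.FC
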