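import Pool.Agent.R596.FcGd

/-!
# Compact spaces in the model are separable
-/

set_option autoImplicit false
set_option linter.all false

namespace Pool.Agent.R596.FC

open Pool.Agent.W868 Pool.Agent.W868.PName Pool.Agent.R596.SY Pool.Agent.R596Fc
open ZFSet (pair)

/-- Finite nets. -/
theorem exists_net {M : Set ZFSet.{0}} (hM : IsZF M) {X D : ZFSet.{0}} (hX : X ∈ M) (hD : D ∈ M)
    (hU : Unif X D) (hc : Cpt M X D) (hne : ∃ x, x ∈ X) (n : ℕ) :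
    ∃ (N : ℕ) (c : ℕ → ZFSet.{0}), (∀ j, c j ∈ X) ∧ ∀ y ∈ X, ∃ j < N, Nr D (nat n) (c j) y := by
  obtain ⟨x0, hx0⟩ := hne
  let O : ZFSet.{0} → ZFSet.{0} := fun x => ZFSet.sep
    (fun y => ∃ m ∈ ZFSet.omega, ∀ z ∈ X, Nr D m y z → Nr D (nat n) x z) X
  have dO : DfnF M M fun w : Fin 1 → ZFSet.{0} => O (w 0) := by
    refine hM.sep' (Q := fun y v => ∃ m ∈ ZFSet.omega, ∀ z ∈ X, Nr D m y z →
      Nr D (nat n) (v 0) z) (DfnF.const hX) ?_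
    refine hM.base.bex (DfnF.const hM.infinity) (hM.base.ball (DfnF.const hX) (Dfn.imp ?_ ?_))
    · exact dfn_Nr hM hD (DfnF.proj 1) (DfnF.proj 2) (DfnF.proj 0)
    · exact dfn_Nr hM hD (DfnF.const (hM.nat_mem _)) (DfnF.proj 3) (DfnF.proj 0)
  obtain ⟨ℱ, hf, hf1, hf2⟩ := hc (im O X) (hM.im_mem hX dO) (by
    intro U hU'
    obtain ⟨x, hx, rfl⟩ := mem_im.1 hU'
    refine ⟨fun x hx => (ZFSet.mem_sep.1 hx).1, fun y hy => ?_⟩
    obtain ⟨hy1, hy2⟩ := ZFSet.mem_sep.1 hy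
    obtain ⟨m, hm⟩ := ex_nat.1 hy2
    refine ⟨m + 1, fun z hz h1 => ZFSet.mem_sep.2 ⟨hz, ex_nat.2 ⟨m + 1, fun w hw h2 => ?_⟩⟩⟩
    exact hm w hw (hU.tri y hy1 z hz w hw m h1 h2)) (by
    intro x hx
    exact ⟨_, mem_im.2 ⟨x, hx, rfl⟩, ZFSet.mem_sep.2 ⟨hx, ex_nat.2 ⟨n, fun z _ h => h⟩⟩⟩)
  have h1 : ∀ U : ℱ, ∃ x ∈ X, (U : ZFSet.{0}) = O x := by
    intro U
    obtain ⟨x, hx, h⟩ := mem_im.1 (hf1 U.1 U.2)
    exact ⟨x, hx, h⟩
  choose g hg1 hg2 using h1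
  haveI := hf.to_subtype
  obtain ⟨N, ⟨e⟩⟩ := Finite.exists_equiv_fin ℱ
  refine ⟨N, fun j => if h : j < N then g (e.symm ⟨j, h⟩) else x0, fun j => ?_, fun y hy => ?_⟩
  · dsimp only
    split_ifs
    · exact hg1 _
    · exact hx0
  · obtain ⟨U, hU1, hU2⟩ := hf2 y hy
    refine ⟨(e ⟨U, hU1⟩).1, (e ⟨U, hU1⟩).2, ?_⟩
    dsimp only
    rw [dif_pos (e ⟨U, hU1⟩).2]
    have h3 : e.symm ⟨(e ⟨U, hU1⟩).1, (e ⟨U, hU1⟩).2⟩ = ⟨U, hU1⟩ := by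
      rw [Fin.eta, Equiv.symm_apply_apply]
    rw [h3]
    have h4 := hg2 ⟨U, hU1⟩
    change U = _ at h4
    rw [h4] at hU2
    obtain ⟨m, hm⟩ := ex_nat.1 (ZFSet.mem_sep.1 hU2).2
    exact hm y hy (hU.refl y hy m)

theorem Gd.mono {X D : PName Cd} {n k : ℕ} {p q : Cd} (h : Gd X D n k p) (hq : q ≤ p) :
    Gd X D n k q :=
  ⟨fun r hr => h.symm r (hr.trans hq), fun r hr => h.tri r (hr.trans hq),
    fun r hr => h.tb r (hr.trans hq)⟩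

section

variable {π : Pkg Cd} (hg : ClR RR π) (hcl : sy.Cld π)

include hg hcl

/-- Small sets indexed by ordinals. -/
theorem exists_key {X D : ZFSet.{0}} (hX : X ∈ sy.Ms π) (hD : D ∈ sy.Ms π) (hU : Unif X D)
    (hs : ∀ z ∈ D, ∃ x ∈ X, ∃ y ∈ X, ∃ i ∈ ZFSet.omega, z = pair (pair x y) i)
    (hc : Cpt (sy.Ms π) X D) : ∃ κ ∈ sy.Ms π, κ.IsOrdinal ∧ ∃ V : ZFSet.{0} → ZFSet.{0},
      (DfnF (sy.Ms π) (sy.Ms π) fun w : Fin 1 → ZFSet.{0} => V (w 0)) ∧ (∀ α ∈ κ, V α ⊆ X) ∧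
      ∀ x ∈ X, ∀ n, ∃ α ∈ κ, x ∈ V α ∧ ∀ y ∈ V α, ∀ z ∈ V α, Nr D (nat n) y z := by
  classical
  have hM := zf_Ms hcl
  have hB := hM.base
  have hX0 := hX
  have hD0 := hD
  obtain ⟨X', ⟨nX, sX⟩, rfl⟩ := hX
  obtain ⟨D', ⟨nD, sD⟩, rfl⟩ := hD
  obtain ⟨_, ⟨E1, rfl⟩, fX⟩ := sX.sym
  obtain ⟨_, ⟨E2, rfl⟩, fD⟩ := sD.sym
  set E : Finset J := E1 ∪ E2 with hE
  have fX : sy.Fix (Fx E) X' := Sys.Fix.mono fX (Fx_mono Finset.subset_union_left)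
  have fD : sy.Fix (Fx E) D' := Sys.Fix.mono fD (Fx_mono Finset.subset_union_right)
  have nU := n_Us hg E nX
  set f := π.val (enumN (Us E X')) with hf
  have hfM : f ∈ sy.Ms π := val_Ms (π.enumN_mem nU) (hs_eUs sX)
  have hfp : ∀ q ∈ f, ∃ a b, q = pair a b ∧ a.IsOrdinal := by
    intro q hq
    obtain ⟨j, h1, h2, rfl⟩ := π.mem_enum hq
    exact ⟨_, _, rfl, π.hat_isOrdinal (ZFSet.isOrdinal_toZFSet _)⟩
  let κ : ZFSet.{0} := ZFSet.sUnion (im (fun q => insert (fs q) (fs q)) f)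
  have hκ : κ ∈ sy.Ms π := by
    obtain ⟨y, hy1, hy2⟩ := (⟨_, hM.im_mem hfM (h := fun q => insert (fs q) (fs q))
      (hB.insert' (hM.fs' (DfnF.proj 0)) (hM.fs' (DfnF.proj 0))), rfl⟩ :
        ∃ y, y ∈ sy.Ms π ∧ y = im (fun q => insert (fs q) (fs q)) f)
    have h1 := (hB.sUnion' (DfnF.proj (n := 1) 0) : DfnF (sy.Ms π) (sy.Ms π)
      fun w : Fin 1 → ZFSet.{0} => (ZFSet.sUnion (w 0) : ZFSet.{0})).1 (fun _ => y) fun _ => hy1
    change ZFSet.sUnion (im (fun q => insert (fs q) (fs q)) f) ∈ sy.Ms π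
    rw [← hy2]
    exact h1
  have hκo : κ.IsOrdinal := by
    refine isOrdinal_sUnion fun y hy => ?_
    obtain ⟨q, hq, rfl⟩ := mem_im.1 hy
    obtain ⟨a, b, rfl, ha⟩ := hfp q hq
    rw [fs_pair]
    exact isOrdinal_sc ha
  let V : ZFSet.{0} → ZFSet.{0} := fun α =>
    ZFSet.sep (fun x => ∃ q ∈ f, fs q = α ∧ x ∈ sn q) (π.val X')
  have dV : DfnF (sy.Ms π) (sy.Ms π) fun w : Fin 1 → ZFSet.{0} => V (w 0) := by
    refine hM.sep' (Q := fun x v => ∃ q ∈ f, fs q = v 0 ∧ x ∈ sn q) (DfnF.const hX0) ?_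
    refine hB.bex (DfnF.const hfM) (Dfn.and ?_ ?_)
    · exact Dfn.eq (hM.fs' (DfnF.proj 0)) (DfnF.proj 2)
    · exact Dfn.mem (DfnF.proj 1) (hM.sn' (DfnF.proj 0))
  refine ⟨κ, hκ, hκo, V, dV, fun α _ x hx => (ZFSet.mem_sep.1 hx).1, fun x hx n => ?_⟩
  -- the name of the point
  obtain ⟨x', nx, c0, hc0, -, rfl⟩ := π.mem_val.1 hx
  have sx : sy.HS x' := sX.el hc0
  obtain ⟨_, ⟨F1, rfl⟩, fx⟩ := sx.sym
  set F : Finset J := E ∪ F1 with hF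
  have fx : sy.Fix (Fx F) x' := Sys.Fix.mono fx (Fx_mono Finset.subset_union_right)
  have hEF : E ⊆ F := Finset.subset_union_left
  -- the net
  obtain ⟨N, c, hc1, hc2⟩ := exists_net hM hX0 hD0 hU hc ⟨_, hx⟩ (n + 1 + 2)
  have hc3 : ∀ j, ∃ c' ∈ π.N, π.val c' = c j := by
    intro j
    obtain ⟨y, hy, h1⟩ := hM.trans _ hX0 _ (hc1 j)
    exact ⟨y, hy.1, h1⟩
  choose c' hc' hc4 using hc3
  have hin : ∀ {x y i : ZFSet.{0}}, pair (pair x y) i ∈ π.val D' →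
      x ∈ π.val X' ∧ y ∈ π.val X' := by
    intro x y i h
    obtain ⟨x', hx', y', hy', i', hi, h1⟩ := hs _ h
    obtain ⟨h2, rfl⟩ := ZFSet.pair_inj.1 h1
    obtain ⟨rfl, rfl⟩ := ZFSet.pair_inj.1 h2
    exact ⟨hx', hy'⟩
  have hR : Rg X' D' (n + 1) N c' π := by
    refine ⟨?_, ?_, ?_, ?_⟩
    · rw [π.hat_omega]
      exact hs
    · rw [π.hat_omega]
      intro x hx y hy i hi h
      obtain ⟨m, rfl⟩ := mem_omega_iff.1 hi
      exact hU.symm x hx y hy m h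
    · rw [π.hat_omega]
      intro x hx y hy z hz i hi j hj hij h1 h2
      obtain ⟨a, rfl⟩ := mem_omega_iff.1 hi
      obtain ⟨b, rfl⟩ := mem_omega_iff.1 hj
      have hab : a < b := by
        rw [nat_eq, nat_eq, Ordinal.toZFSet_mem_toZFSet_iff] at hij
        exact_mod_cast hij
      have hmono : ∀ {x y : ZFSet.{0}}, x ∈ π.val X' → y ∈ π.val X' → ∀ b, a + 1 ≤ b →
          Nr (π.val D') (nat b) x y → Nr (π.val D') (nat (a + 1)) x y := by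
        intro x y hx hy b hb
        induction b, hb using Nat.le_induction with
        | base => exact fun h => h
        | succ b hb ih => exact fun h => ih (hU.mono hx hy h)
      exact hU.tri x hx y hy z hz a (hmono hx hy b hab h1) (hmono hy hz b hab h2)
    · intro y hy
      obtain ⟨j, hj, h1⟩ := hc2 y hy
      refine ⟨j, hj, hc4 j ▸ hc1 j, ?_⟩
      rw [hc4, π.hat_nat]
      exact h1
  have hS : sg X' D' (n + 1) c' ⊆ π.N := by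
    rintro z (hz | ⟨j, rfl⟩)
    · simp only [Set.mem_insert_iff, Set.mem_singleton_iff] at hz
      rcases hz with rfl | rfl | rfl | rfl
      · exact nX
      · exact nD
      · exact π.om
      · exact check_nat_N π _
    · exact hc' j
  obtain ⟨k1, hk1⟩ := forcing_theorem (dfn_Rg X' D' (n + 1) N c') π hS hR
  have hG : Gd X' D' (n + 1) (N + 1) (π.g k1) := gd_of hk1
  obtain ⟨k2, hk2⟩ := (π.val_mem_iff nx nX).1 hx
  obtain ⟨k, hk, hkA⟩ := gen_dense' π (m := max k1 k2) (n_As hg E (n + 1) nx nD)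
    (fun r hr q hq => As_mono hr hq) (by
      intro q hq
      obtain ⟨q', h1, h2⟩ := key fX fD fx hEF (hG.mono (hq.trans (π.g_le_left _ _)))
        (hk2.mono (hq.trans (π.g_le_right _ _)))
      exact ⟨q', h1, h2⟩)
  have nO := n_Oe hg E nx k
  obtain ⟨i, hi1, hi2⟩ := hc0
  have hu : π.val (Oe E x' (π.g k)) ∈ π.val (Us E X') :=
    mem_tn.2 ⟨(i, π.g k), by rw [hi1]; exact nO, by rw [hi1]⟩
  obtain ⟨α, hα⟩ := enum_ex nU hu
  have hακ : α ∈ κ := by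
    refine ZFSet.mem_sUnion.2 ⟨_, mem_im.2 ⟨_, hα, rfl⟩, ?_⟩
    rw [fs_pair]
    exact ZFSet.mem_insert _ _
  have hV : ∀ y ∈ V α, Nr (π.val D') (nat (n + 1)) (π.val x') y := by
    intro y hy
    obtain ⟨-, q, hq, h1, h2⟩ := ZFSet.mem_sep.1 hy
    obtain ⟨a, b, rfl, -⟩ := hfp q hq
    rw [fs_pair] at h1
    rw [sn_pair] at h2
    subst h1
    rw [enum_fn hq hα] at h2
    obtain ⟨y', ny, d, hd, ⟨m, hm⟩, rfl⟩ := π.mem_val.1 h2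
    obtain ⟨τ, hτ, rfl, rfl⟩ := el_Oe.1 hd
    refine (nf_val nD nx ny).2 ⟨max k m, hkA τ hτ _ (π.g_le_left _ _) ?_⟩
    exact (π.g_le_right _ _).trans hm
  refine ⟨α, hακ, ZFSet.mem_sep.2 ⟨hx, pair α (π.val (Oe E x' (π.g k))), hα, fs_pair _ _, ?_⟩,
    fun y hy z hz => ?_⟩
  · rw [sn_pair]
    exact π.val_mem_val (c := π.g k) (n := k) nx
      (el_Oe.2 ⟨1, (Fx E).one_mem, (ac_one x').symm, (mc_one _).symm⟩) le_rfl
  · have hyX := (ZFSet.mem_sep.1 hy).1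
    have hzX := (ZFSet.mem_sep.1 hz).1
    exact hU.tri y hyX _ hx z hzX n (hU.symm _ hx y hyX _ (hV y hy)) (hV z hz)

/-- Compact spaces are separable. -/
theorem sep_Ms {X D : ZFSet.{0}} (hX : X ∈ sy.Ms π) (hD : D ∈ sy.Ms π) (hU : Unif X D)
    (hs : ∀ z ∈ D, ∃ x ∈ X, ∃ y ∈ X, ∃ i ∈ ZFSet.omega, z = pair (pair x y) i)
    (hc : Cpt (sy.Ms π) X D) : ∃ S ∈ sy.Ms π, S ⊆ X ∧ Ctb (sy.Ms π) S ∧
      ∀ x ∈ X, ∀ n, ∃ s ∈ S, Nr D (nat n) x s := by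
  obtain ⟨κ, hκ, hκo, V, dV, hV, hkey⟩ := exists_key hg hcl hX hD hU hs hc
  exact sep_of_key (zf_Ms hcl) hX hD hU hc hκ hκo dV hV hkey

end

end Pool.Agent.R596.FC
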