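import Pool.Agent.R596.FcGb

/-!
# Uniform separation of points by closed sets
-/

set_option autoImplicit false
set_option linter.all false

namespace Pool.Agent.R596.FC

open Pool.Agent.W868 Pool.Agent.W868.PName Pool.Agent.R596.SY Pool.Agent.R596Fc
open ZFSet (pair)

/-- Countable bases. -/
theorem exists_base {M : Set ZFSet.{0}} (hM : IsZF M) {X τ : ZFSet.{0}} (ht : IsTop M X τ)
    {d : ZFSet.{0} → ZFSet.{0} → ℝ} (hd : IsMetric M X d)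
    (hτ : ∀ U ∈ M, U ⊆ X → (U ∈ τ ↔ ∀ x ∈ U, ∃ ε > 0, ∀ y ∈ X, d x y < ε → y ∈ U))
    {D : ZFSet.{0}} (hD : D ∈ M)
    (hN : ∀ x y n, Nr D (nat n) x y ↔ x ∈ X ∧ y ∈ X ∧ d x y < 1 / 2 ^ n)
    {S : ZFSet.{0}} (hS : S ∈ M) (hSX : S ⊆ X) (hSc : Ctb M S)
    (hSd : ∀ x ∈ X, ∀ n, ∃ s ∈ S, Nr D (nat n) x s) :
    ∃ B ∈ M, B ⊆ ZFSet.prod ZFSet.omega X ∧
      (∀ O ∈ τ, ∀ z ∈ O, ∃ k : ℕ, pair (nat k) z ∈ B ∧ ∀ w, pair (nat k) w ∈ B → w ∈ O) ∧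
      ∀ k z, pair k z ∈ B → ∃ V ∈ τ, z ∈ V ∧ ∀ w ∈ V, pair k w ∈ B := by
  have hB := hM.base
  have hω := hM.infinity
  have hX := ht.set_mem
  obtain ⟨h, hh, hh'⟩ : Inj M (ZFSet.prod S ZFSet.omega) ZFSet.omega :=
    Inj.trans hM (hM.prod_mem hS hω) hω
      (Inj.prod hM hS hω hω hω hSc (Inj.of_subset hM hω hω fun _ h => h))
      (sq_inj hM hω isOrdinal_omega fun _ h => h)
  let Q : ZFSet.{0} → Prop := fun q => ∃ p ∈ ZFSet.prod S ZFSet.omega, pair p (fs q) ∈ h ∧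
    Nr D (sn p) (fs p) (sn q)
  let B : ZFSet.{0} := ZFSet.sep Q (ZFSet.prod ZFSet.omega X)
  have hBM : B ∈ M := by
    refine hM.sep_mem (Q := Q) ?_ (hM.prod_mem hω hX)
    refine hB.bex (DfnF.const (hM.prod_mem hS hω)) (Dfn.and ?_ ?_)
    · exact Dfn.mem (hB.pair' (DfnF.proj 0) (hM.fs' (DfnF.proj 1))) (DfnF.const hh)
    · exact dfn_Nr hM hD (hM.sn' (DfnF.proj 0)) (hM.fs' (DfnF.proj 0)) (hM.sn' (DfnF.proj 1))
  have mB : ∀ {k z}, pair k z ∈ B ↔ k ∈ ZFSet.omega ∧ z ∈ X ∧ ∃ s ∈ S, ∃ n : ℕ,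
      pair (pair s (nat n)) k ∈ h ∧ Nr D (nat n) s z := by
    intro k z
    change pair k z ∈ ZFSet.sep Q (ZFSet.prod ZFSet.omega X) ↔ _
    rw [ZFSet.mem_sep, ZFSet.pair_mem_prod]
    constructor
    · rintro ⟨⟨h1, h2⟩, p, hp, h3, h4⟩
      obtain ⟨s, hs, n', hn', rfl⟩ := ZFSet.mem_prod.1 hp
      obtain ⟨n, rfl⟩ := mem_omega_iff.1 hn'
      rw [fs_pair] at h3
      rw [fs_pair, sn_pair, sn_pair] at h4
      exact ⟨h1, h2, s, hs, n, h3, h4⟩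
    · rintro ⟨h1, h2, s, hs, n, h3, h4⟩
      refine ⟨⟨h1, h2⟩, pair s (nat n), ZFSet.pair_mem_prod.2 ⟨hs, nat_mem_omega n⟩, ?_, ?_⟩
      · rwa [fs_pair]
      · rwa [fs_pair, sn_pair, sn_pair]
  refine ⟨B, hBM, fun p hp => (ZFSet.mem_sep.1 hp).1, fun O hO z hz => ?_, fun k z h1 => ?_⟩
  · have hOM : O ∈ M := hM.trans _ ht.top_mem _ hO
    have hzX := ht.sub O hO hz
    obtain ⟨ε, hε, h1⟩ := (hτ O hOM (ht.sub O hO)).1 hO z hz
    obtain ⟨n, hn⟩ := exists_pow_lt_of_lt_one hε (by norm_num : (1 / 2 : ℝ) < 1)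
    rw [one_div_pow] at hn
    obtain ⟨s, hs, h2⟩ := hSd z hzX (n + 1)
    have h3 := ((hN _ _ _).1 h2).2.2
    obtain ⟨k, hk, h4⟩ := fun_exists hh'.1
      (ZFSet.pair_mem_prod.2 ⟨hs, nat_mem_omega (n + 1)⟩ :
        pair s (nat (n + 1)) ∈ ZFSet.prod S ZFSet.omega)
    obtain ⟨k, rfl⟩ := mem_omega_iff.1 hk
    refine ⟨k, mB.2 ⟨nat_mem_omega k, hzX, s, hs, n + 1, h4, (hN _ _ _).2
      ⟨hSX hs, hzX, ?_⟩⟩, fun w hw => ?_⟩
    · rwa [hd.symm s (hSX hs) z hzX]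
    · obtain ⟨-, hw1, s', hs', n', h5, h6⟩ := mB.1 hw
      have h7 := hh'.2 _ _ _ h4 h5
      obtain ⟨rfl, h8⟩ := ZFSet.pair_inj.1 h7
      obtain rfl := nat_injective h8
      refine h1 w hw1 ?_
      have h9 := ((hN _ _ _).1 h6).2.2
      have h10 := hd.tri z hzX s (hSX hs) w hw1
      have h11 : (1 : ℝ) / 2 ^ (n + 1) + 1 / 2 ^ (n + 1) = 1 / 2 ^ n := by
        rw [pow_succ]
        field_simp
        norm_num
      linarith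
  · obtain ⟨hk, hz, s, hs, n, h2, h3⟩ := mB.1 h1
    have h4 : ZFSet.sep (fun w => Nr D (nat n) s w) X ∈ M := by
      refine hM.sep_mem (Q := fun w => Nr D (nat n) s w) ?_ hX
      exact dfn_Nr hM hD (DfnF.const (hM.nat_mem n)) (DfnF.const (hM.trans _ hS _ hs))
        (DfnF.proj 0)
    refine ⟨_, (hτ _ h4 fun w hw => (ZFSet.mem_sep.1 hw).1).2 fun w hw => ?_,
      ZFSet.mem_sep.2 ⟨hz, h3⟩, fun w hw => ?_⟩
    · obtain ⟨hw1, hw2⟩ := ZFSet.mem_sep.1 hw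
      have h5 := ((hN _ _ _).1 hw2).2.2
      refine ⟨1 / 2 ^ n - d s w, by linarith, fun y hy h6 => ZFSet.mem_sep.2 ⟨hy,
        (hN _ _ _).2 ⟨hSX hs, hy, ?_⟩⟩⟩
      have h7 := hd.tri s (hSX hs) w hw1 y hy
      linarith
    · obtain ⟨hw1, hw2⟩ := ZFSet.mem_sep.1 hw
      exact mB.2 ⟨hk, hw1, s, hs, n, h2, hw2⟩

section

variable {π : Pkg Cd} (hg : ClR RR2 π) (hcl : sy.Cld π) {X τ : ℕ → ZFSet.{0}}
  (hF : IsFamily (sy.Ms π) X τ)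

include hg hcl hF

/-- Countable bases and complements of points. -/
theorem exists_base' (i : ℕ) : ∃ B ∈ sy.Ms π, B ⊆ ZFSet.prod ZFSet.omega (X i) ∧
    (∀ O ∈ τ i, ∀ z ∈ O, ∃ k : ℕ, pair (nat k) z ∈ B ∧ ∀ w, pair (nat k) w ∈ B → w ∈ O) ∧
    (∀ k z, pair k z ∈ B → ∃ V ∈ τ i, z ∈ V ∧ ∀ w ∈ V, pair k w ∈ B) ∧
    ∀ z ∈ X i, ZFSet.sep (fun w => w ≠ z) (X i) ∈ τ i := by
  have hM := zf_Ms hcl
  obtain ⟨d, hd, hτ⟩ := hF.metrizable i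
  have ht := hF.top i
  obtain ⟨D, hD, hU, hs, hN⟩ := exists_unif hM ht.set_mem hd
  have hopn : ∀ U ∈ sy.Ms π, (Opn (X i) D U ↔ U ∈ τ i) := by
    intro U hUM
    constructor
    · intro h1
      exact (hτ U hUM h1.1).2 ((opn_iff hM hN h1.1).1 h1)
    · intro h1
      have h2 := ht.sub U h1
      exact (opn_iff hM hN h2).2 ((hτ U hUM h2).1 h1)
  have hcpt : Cpt (sy.Ms π) (X i) D := by
    intro 𝒰 h𝒰 h1 h2
    exact hF.compact i 𝒰 h𝒰 (fun U hU' => (hopn U (hM.trans _ h𝒰 _ hU')).1 (h1 U hU')) h2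
  obtain ⟨S, hS, hSX, hSc, hSd⟩ := sep_Ms (clR_RR hg) hcl ht.set_mem hD hU hs hcpt
  obtain ⟨B, hB1, hB2, hB3, hB4⟩ := exists_base hM ht hd hτ hD hN hS hSX hSc hSd
  refine ⟨B, hB1, hB2, hB3, hB4, fun z hz => ?_⟩
  have hzM := hM.trans _ ht.set_mem _ hz
  refine (hτ _ ?_ fun w hw => (ZFSet.mem_sep.1 hw).1).2 fun w hw => ?_
  · exact hM.sep_mem (Q := fun w => w ≠ z) (Dfn.not (Dfn.eq (DfnF.proj 0) (DfnF.const hzM)))
      ht.set_mem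
  · obtain ⟨hw1, hw2⟩ := ZFSet.mem_sep.1 hw
    have h0 : d w z ≠ 0 := fun h => hw2 (hd.eq w hw1 z hz h)
    have h1 : 0 ≤ d w z := by
      have h2 := hd.tri w hw1 z hz w hw1
      rw [hd.self w hw1, hd.symm z hz w hw1] at h2
      linarith
    refine ⟨d w z, lt_of_le_of_ne h1 (Ne.symm h0), fun y hy h2 => ZFSet.mem_sep.2 ⟨hy, ?_⟩⟩
    rintro rfl
    exact absurd h2 (lt_irrefl _)

/-- Uniform separation. -/
theorem exists_sep : ∃ κ ∈ sy.Ms π, κ.IsOrdinal ∧ ∃ cl : ZFSet.{0} → ZFSet.{0},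
    (DfnF (sy.Ms π) (sy.Ms π) fun w : Fin 1 → ZFSet.{0} => cl (w 0)) ∧
    (∀ β ∈ κ, ∀ i, ∀ z ∈ X i, pair (nat i) z ∉ cl β → ∃ V ∈ τ i, z ∈ V ∧
      ∀ w ∈ V, pair (nat i) w ∉ cl β) ∧
    (∀ i, ∀ z ∈ X i, ∀ z' ∈ X i, z ≠ z' → ∃ β ∈ κ, pair (nat i) z ∈ cl β ∧
      pair (nat i) z' ∉ cl β) := by
  classical
  have hM := zf_Ms hcl
  have hB := hM.base
  have hω := hM.infinity
  have dX := dfn_ap_seq hM hF.set_mem
  have dτ := dfn_ap_seq hM hF.top_mem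
  obtain ⟨XX, hXX, hXX'⟩ := exists_bound hM hF.set_mem
  obtain ⟨YY, hYY, hYY'⟩ := exists_bound hM hF.top_mem
  -- the relations
  obtain ⟨XR, hXR, hXR1, hXR2⟩ := hM.rel_mem hω hXX (Q := fun a b => b ∈ ap (seq X) a)
    (Dfn.mem (DfnF.proj 1) (hM.ap' (DfnF.const hF.set_mem) (DfnF.proj 0)))
  obtain ⟨TR, hTR, hTR1, hTR2⟩ := hM.rel_mem hω hYY (Q := fun a b => b ∈ ap (seq τ) a)
    (Dfn.mem (DfnF.proj 1) (hM.ap' (DfnF.const hF.top_mem) (DfnF.proj 0)))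
  have mX : ∀ {i z}, pair (nat i) z ∈ XR ↔ z ∈ X i := by
    intro i z
    rw [hXR2, ap_seq]
    exact ⟨fun h => h.2.2, fun h => ⟨nat_mem_omega i, (hXX' z).2 ⟨i, h⟩, h⟩⟩
  have mT : ∀ {i V}, pair (nat i) V ∈ TR ↔ V ∈ τ i := by
    intro i z
    rw [hTR2, ap_seq]
    exact ⟨fun h => h.2.2, fun h => ⟨nat_mem_omega i, (hYY' z).2 ⟨i, h⟩, h⟩⟩
  obtain ⟨Yp, hYp, hYp'⟩ := hM.exists_pow (hM.prod_mem hω hXX)
  have hTR0 := hTR
  obtain ⟨T', ⟨nT, sT⟩, hT'⟩ := hTR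
  obtain ⟨Y', ⟨nY, sY⟩, hY'⟩ := hYp
  obtain ⟨_, ⟨E, rfl⟩, fT⟩ := sT.sym
  have nU := n_Us2 hg E nY
  set f := π.val (enumN (Us2 E Y')) with hf
  have hfM : f ∈ sy.Ms π := val_Ms (π.enumN_mem nU) (hs_eUs2 sY)
  have hfp : ∀ q ∈ f, ∃ a b, q = pair a b ∧ a.IsOrdinal := by
    intro q hq
    obtain ⟨j, h1, h2, rfl⟩ := π.mem_enum hq
    exact ⟨_, _, rfl, π.hat_isOrdinal (ZFSet.isOrdinal_toZFSet _)⟩
  let κ : ZFSet.{0} := ZFSet.sUnion (im (fun q => insert (fs q) (fs q)) f)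
  have hκ : κ ∈ sy.Ms π := hM.union _ (hM.im_mem hfM (h := fun q => insert (fs q) (fs q))
    (hB.insert' (hM.fs' (DfnF.proj 0)) (hM.fs' (DfnF.proj 0))))
  have hκo : κ.IsOrdinal := by
    refine isOrdinal_sUnion fun y hy => ?_
    obtain ⟨q, hq, rfl⟩ := mem_im.1 hy
    obtain ⟨a, b, rfl, ha⟩ := hfp q hq
    rw [fs_pair]
    exact isOrdinal_sc ha
  let Q : ZFSet.{0} → ZFSet.{0} → Prop := fun p β => ∀ V ∈ sy.Ms π, pair (fs p) V ∈ TR →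
    sn p ∈ V → ∀ q ∈ f, fs q = β → ∀ B ∈ sn (sn q), ¬ ∀ w ∈ V, pair (fs (sn q)) w ∈ B
  let cl : ZFSet.{0} → ZFSet.{0} := fun β => ZFSet.sep (fun p => Q p β) XR
  have dcl : DfnF (sy.Ms π) (sy.Ms π) fun w : Fin 1 → ZFSet.{0} => cl (w 0) := by
    refine hM.sep' (Q := fun p v => Q p (v 0)) (DfnF.const hXR) ?_
    refine Dfn.all (Dfn.imp ?_ (Dfn.imp ?_ (hB.ball (DfnF.const hfM) (Dfn.imp ?_
      (hB.ball (hM.sn' (hM.sn' (DfnF.proj 0))) (Dfn.not (hB.ball (DfnF.proj 2) ?_)))))))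
    · exact Dfn.mem (hB.pair' (hM.fs' (DfnF.proj 1)) (DfnF.proj 0)) (DfnF.const hTR0)
    · exact Dfn.mem (hM.sn' (DfnF.proj 1)) (DfnF.proj 0)
    · exact Dfn.eq (hM.fs' (DfnF.proj 0)) (DfnF.proj 3)
    · exact Dfn.mem (hB.pair' (hM.fs' (hM.sn' (DfnF.proj 2))) (DfnF.proj 0)) (DfnF.proj 1)
  have hQ : ∀ {i z β}, Q (pair (nat i) z) β ↔ ∀ V ∈ τ i, z ∈ V → ∀ q ∈ f, fs q = β →
      ∀ B ∈ sn (sn q), ¬ ∀ w ∈ V, pair (fs (sn q)) w ∈ B := by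
    intro i z β
    change (∀ V ∈ sy.Ms π, pair (fs (pair (nat i) z)) V ∈ TR →
      sn (pair (nat i) z) ∈ V → ∀ q ∈ f, fs q = β → ∀ B ∈ sn (sn q),
      ¬ ∀ w ∈ V, pair (fs (sn q)) w ∈ B) ↔ _
    rw [fs_pair, sn_pair]
    constructor
    · intro h V hV
      exact h V (hM.trans _ (hF.top i).top_mem _ hV) (mT.2 hV)
    · intro h V _ hV
      exact h V (mT.1 hV)
  refine ⟨κ, hκ, hκo, cl, dcl, fun β _ i z hz h1 => ?_, fun i z hz z' hz' hne => ?_⟩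
  · have h2 : ¬ Q (pair (nat i) z) β := fun h => h1 (ZFSet.mem_sep.2 ⟨mX.2 hz, h⟩)
    rw [hQ] at h2
    push Not at h2
    obtain ⟨V, hV, hzV, q, hq, h3, B, hB', h4⟩ := h2
    refine ⟨V, hV, hzV, fun w hw h5 => ?_⟩
    exact hQ.1 (ZFSet.mem_sep.1 h5).2 V hV hw q hq h3 B hB' h4
  · obtain ⟨B, hBM, hBX, hB1, hB2, hpt⟩ := exists_base' hg hcl hF i
    have hO := hpt z hz
    set O := ZFSet.sep (fun w => w ≠ z) (X i) with hOdef
    have hz'O : z' ∈ O := ZFSet.mem_sep.2 ⟨hz', Ne.symm hne⟩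
    -- the names
    have hBY : B ∈ π.val Y' := by
      rw [hY', hYp']
      refine ⟨hBM, hBX.trans fun p hp => ?_⟩
      obtain ⟨a, ha, b, hb, rfl⟩ := ZFSet.mem_prod.1 hp
      exact ZFSet.pair_mem_prod.2 ⟨ha, (hXX' b).2 ⟨i, hb⟩⟩
    obtain ⟨B', nB, c0, hc0, -, hB'⟩ := π.mem_val.1 hBY
    have sB : sy.HS B' := sY.el hc0
    obtain ⟨O', ⟨nO, sO⟩, hO'⟩ := hM.trans _ (hF.top i).top_mem _ hO
    obtain ⟨y', ⟨ny, -⟩, hy'⟩ := hM.trans _ (hF.top i).set_mem _ hz'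
    obtain ⟨_, ⟨F1, rfl⟩, fB⟩ := sB.sym
    obtain ⟨_, ⟨F2, rfl⟩, fO⟩ := sO.sym
    set F : Finset J := E ∪ (F1 ∪ F2) with hFdef
    have fB : sy.Fix (Fx F) B' := Sys.Fix.mono fB (Fx_mono
      (Finset.subset_union_left.trans Finset.subset_union_right))
    have fO : sy.Fix (Fx F) O' := Sys.Fix.mono fO (Fx_mono
      (Finset.subset_union_right.trans Finset.subset_union_right))
    have hEF : E ⊆ F := Finset.subset_union_left
    -- what is forced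
    have hS : sb T' B' i ⊆ π.N := by
      rintro w (rfl | rfl | rfl | rfl)
      · exact nT
      · exact nB
      · exact π.om
      · exact check_nat_N π i
    have hR : Rb T' B' i π := by
      constructor
      · rw [hT', hB', π.hat_omega, π.hat_nat]
        intro O1 _ h1 z1 hz1
        obtain ⟨k, h2, h3⟩ := hB1 O1 (mT.1 h1) z1 hz1
        exact ⟨nat k, nat_mem_omega k, h2, fun w _ hw => h3 w hw⟩
      · rw [hT', hB', π.hat_omega, π.hat_nat]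
        intro k _ z1 _ h1
        obtain ⟨V, hV, h2, h3⟩ := hB2 k z1 h1
        exact ⟨V, Ms_W (hM.trans _ (hF.top i).top_mem _ hV), mT.2 hV, h2, h3⟩
    obtain ⟨m1, hm1⟩ := forcing_theorem (dfn_Rb T' B' i) π hS hR
    have hG := gb_of hm1
    obtain ⟨m2, hm2⟩ : ∃ m, Fmem (kp i O') T' (π.g m) := by
      rw [← π.val_mem_iff (n_kp nO) nT, val_kp nO, hO', hT']
      exact mT.2 hO
    obtain ⟨m3, hm3⟩ : ∃ m, Fmem y' O' (π.g m) := by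
      rw [← π.val_mem_iff ny nO, hy', hO']
      exact hz'O
    obtain ⟨k, hk, hkA⟩ := gen_dense' π (m := max m1 (max m2 m3))
      (n_As2 hg E nB (π.opN_mem ny nO)) (fun r hr q hq => As2_mono hr hq) (by
        intro q hq
        exact as2_dense fT fB fO hEF (hG.mono (hq.trans (π.g_le_left _ _)))
          (hm2.mono ((hq.trans (π.g_le_right _ _)).trans (π.g_le_left _ _)))
          (hm3.mono ((hq.trans (π.g_le_right _ _)).trans (π.g_le_right _ _))))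
    obtain ⟨y0, O0, k0, he, h1, h2⟩ := hkA
    obtain ⟨rfl, rfl⟩ := opN_inj he
    have nOe := n_Oe (clR_RR hg) E nB k
    obtain ⟨j, hj1, hj2⟩ := hc0
    have hu : pair (nat k0) (π.val (Oe E B' (π.g k))) ∈ π.val (Us2 E Y') := by
      refine mem_tn.2 ⟨(j, k0, π.g k), ?_, ?_⟩
      · change kp k0 (Oe E (Y'.chd j) (π.g k)) ∈ π.N
        rw [hj1]
        exact n_kp nOe
      · change π.val (kp k0 (Oe E (Y'.chd j) (π.g k))) = _
        rw [hj1, val_kp nOe]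
    obtain ⟨α, hα⟩ := enum_ex nU hu
    have hακ : α ∈ κ := by
      refine ZFSet.mem_sUnion.2 ⟨_, mem_im.2 ⟨_, hα, rfl⟩, ?_⟩
      rw [fs_pair]
      exact ZFSet.mem_insert _ _
    refine ⟨α, hακ, ZFSet.mem_sep.2 ⟨mX.2 hz, hQ.2 ?_⟩, fun h3 => ?_⟩
    · intro V hV hzV q hq hqα B'' hB'' hVB
      obtain ⟨a, b, rfl, -⟩ := hfp q hq
      rw [fs_pair] at hqα
      subst hqα
      have e1 := enum_fn hq hα
      subst e1
      rw [sn_pair, sn_pair] at hB''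
      obtain ⟨Bn, nBn, c, hc, ⟨m, hm⟩, rfl⟩ := π.mem_val.1 hB''
      obtain ⟨τ', hτ', rfl, rfl⟩ := el_Oe.1 hc
      have h3 := hVB z hzV
      rw [sn_pair, fs_pair] at h3
      obtain ⟨z0, ⟨nz, -⟩, rfl⟩ := hM.trans _ (hF.top i).set_mem _ hz
      rw [← val_kp nz] at h3
      obtain ⟨m', hm'⟩ := (π.val_mem_iff (n_kp nz) nBn).1 h3
      have h4 : Fmem z0 O' (π.g (max (max k m) m')) := by
        refine h2 τ' hτ' _ ((π.g_le_left _ _).trans (π.g_le_left _ _))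
          (((π.g_le_left _ _).trans (π.g_le_right _ _)).trans hm) z0
          (hm'.mono (π.g_le_right _ _))
      have h5 := (π.val_mem_iff nz nO).2 ⟨_, h4⟩
      rw [hO'] at h5
      exact (ZFSet.mem_sep.1 h5).2 rfl
    · have h4 : pair (nat k0) z' ∈ B := by
        have := mem_of_fmem (π := π) (n_kp ny) nB le_rfl h1
        rwa [val_kp ny, hy', hB'] at this
      obtain ⟨V, hV, h5, h6⟩ := hB2 _ _ h4
      refine hQ.1 (ZFSet.mem_sep.1 h3).2 V hV h5 _ hα (fs_pair _ _) B ?_ ?_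
      · rw [sn_pair, sn_pair, ← hB']
        exact π.val_mem_val (c := π.g k) (n := k) nB
          (el_Oe.2 ⟨1, (Fx E).one_mem, (ac_one B').symm, (mc_one _).symm⟩) le_rfl
      · intro w hw
        rw [sn_pair, fs_pair]
        exact h6 w hw

end

/-- Countable products of compact metrizable spaces are compact in the model. -/
theorem cpmcc_Ms {π : Pkg Cd} (hg : ClR RR2 π) (hcl : sy.Cld π) : CPMCC (sy.Ms π) := by
  intro X τ P T hF hPT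
  obtain ⟨κ, hκ, hκo, cl, dcl, c1, c2⟩ := exists_sep hg hcl hF
  obtain ⟨ch, dch, hch⟩ := exists_ch (zf_Ms hcl) hF hκ hκo dcl c1 c2
  exact compact_prod (zf_Ms hcl) hF hPT dch hch

end Pool.Agent.R596.FC
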