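import Pool.Agent.R596.FP

/-!
# A set with a finite-to-one map from its finitary partitions is Dedekind finite
-/

set_option maxHeartbeats 400000
set_option linter.all false

namespace Pool.Agent.R596

open FirstOrder FirstOrder.Language
open Pool.Agent.Helper672.ZFA
open Pool.Agent.H310

universe u u₁ u₂ u₃ u₄

variable {M : Type u} [L.Structure M] [hM : IsModel M]
variable {α : Type u₁} {β : Type u₂} {γ : Type u₃} {δ : Type u₄}
  [ITy M α] [ITy M β] [ITy M γ] [ITy M δ]

/-- The swapping relation as an equivalence relation. -/
noncomputable def swq (E : IPow M (ISq M α)) (D : IPow M (INat M × ISq M α)) : FEq M α :=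
  mkR fun x y => x = y ∨ y = swf E D x

theorem int_swq : IntF M (fun q : IPow M (ISq M α) × IPow M (INat M × ISq M α) =>
    swq q.1 q.2) := by
  have h := int_swf (M := M) (α := α)
  unfold swq
  exact IntF.mkR (p := fun (q : IPow M (ISq M α) × IPow M (INat M × ISq M α)) x y =>
    x = y ∨ y = swf q.1 q.2 x) (by (repeat' (first | with_reducible exact IntF.id | with_reducible exact IntF.fst' | with_reducible exact IntF.snd' | with_reducible exact IntF.const _ | with_reducible exact Int.const _ | assumption | with_reducible apply Int.and | with_reducible apply Int.or | with_reducible apply Int.not | with_reducible apply Int.imp | with_reducible apply Int.iff | with_reducible apply Int.ne | with_reducible apply Int.eq | with_reducible apply Int.mem | with_reducible apply Int.subset | with_reducible apply Int.ltN | with_reducible apply Int.leN | with_reducible apply Int.fin | with_reducible apply Int.unique | with_reducible apply Int.all | with_reducible apply Int.ex | with_reducible apply IntF.fst | with_reducible apply IntF.snd | with_reducible apply IntF.app | with_reducible apply IntF.ite | with_reducible apply IntF.sep | with_reducible apply IntF.lam | with_reducible apply IntF.insert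 | with_reducible apply IntF.singleton | with_reducible apply IntF.union | with_reducible apply IntF.inter | with_reducible apply IntF.sdiff | with_reducible apply IntF.isUnion | with_reducible apply IntF.iimage | with_reducible apply IntF.the | with_reducible apply IntF.irec | with_reducible_and_instances apply IntF.add | with_reducible_and_instances apply IntF.mul | with_reducible apply IntF.succ | with_reducible apply IntF.val | (with_reducible refine Int.comp ?_ ?_; assumption) | (with_reducible refine Int.comp₂ ?_ ?_ ?_; assumption) | (with_reducible refine Int.comp₃ ?_ ?_ ?_ ?_; assumption) | (with_reducible refine Int.comp₄ ?_ ?_ ?_ ?_ ?_; assumption) | (with_reducible refine IntF.comp ?_ ?_; assumption) | (with_reducible refine IntF.comp₂ ?_ ?_ ?_; assumption) | (with_reducible refine IntF.comp₃ ?_ ?_ ?_ ?_; assumption) | with_reducible apply IntF.inl | with_reducible apply IntF.inr | with_reducible apply IntF.pair)))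

theorem swq_spec {E : IPow M (ISq M α)} (hE : Vld E) (D : IPow M (INat M × ISq M α)) (x y : α) :
    (x, y) ∈ (swq E D).1 ↔ x = y ∨ y = swf E D x := by
  have h := int_swf (M := M) (α := α)
  refine mkR_spec (p := fun x y => x = y ∨ y = swf E D x) (by (repeat' (first | with_reducible exact IntF.id | with_reducible exact IntF.fst' | with_reducible exact IntF.snd' | with_reducible exact IntF.const _ | with_reducible exact Int.const _ | assumption | with_reducible apply Int.and | with_reducible apply Int.or | with_reducible apply Int.not | with_reducible apply Int.imp | with_reducible apply Int.iff | with_reducible apply Int.ne | with_reducible apply Int.eq | with_reducible apply Int.mem | with_reducible apply Int.subset | with_reducible apply Int.ltN | with_reducible apply Int.leN | with_reducible apply Int.fin | with_reducible apply Int.unique | with_reducible apply Int.all | with_reducible apply Int.ex | with_reducible apply IntF.fst | with_reducible apply IntF.snd | with_reducible apply IntF.app | with_reducible apply IntF.ite | with_reducible apply IntF.sep | with_reducible apply IntF.lam | with_reducible apply IntF.insert | with_reducible apply IntF.singleton | with_reducible apply IntF.union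 | with_reducible apply IntF.inter | with_reducible apply IntF.sdiff | with_reducible apply IntF.isUnion | with_reducible apply IntF.iimage | with_reducible apply IntF.the | with_reducible apply IntF.irec | with_reducible_and_instances apply IntF.add | with_reducible_and_instances apply IntF.mul | with_reducible apply IntF.succ | with_reducible apply IntF.val | (with_reducible refine Int.comp ?_ ?_; assumption) | (with_reducible refine Int.comp₂ ?_ ?_ ?_; assumption) | (with_reducible refine Int.comp₃ ?_ ?_ ?_ ?_; assumption) | (with_reducible refine Int.comp₄ ?_ ?_ ?_ ?_ ?_; assumption) | (with_reducible refine IntF.comp ?_ ?_; assumption) | (with_reducible refine IntF.comp₂ ?_ ?_ ?_; assumption) | (with_reducible refine IntF.comp₃ ?_ ?_ ?_ ?_; assumption) | with_reducible apply IntF.inl | with_reducible apply IntF.inr | with_reducible apply IntF.pair))) (fun x => Or.inl rfl)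
    (fun x y h => ?_) (fun x y z h h' => ?_) (fun x => ?_) x y
  · rcases h with rfl | rfl
    · exact Or.inl rfl
    · right
      rw [swf_swf hE]
  · rcases h with rfl | rfl
    · exact h'
    · rcases h' with rfl | rfl
      · exact Or.inr rfl
      · left
        rw [swf_swf hE]
  · exact ((FinP.eq x).or (FinP.eq (swf E D x))).mono fun y hy =>
      hy.elim (fun h => Or.inl h.symm) fun h => Or.inr h

theorem swq_moves {E : IPow M (ISq M α)} (hE : Vld E) (D : IPow M (INat M × ISq M α))
    {e : ISq M α} (he : e ∈ E) (n : INat M) :
    (e.1 (n + n), e.1 (INat.succ (n + n))) ∈ (swq E D).1 ↔ (n, e) ∈ D := by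
  rw [swq_spec hE]
  constructor
  · intro h
    rw [← swp_moves hE D he n, swp_apply hE]
    rcases h with h | h
    · exact absurd (e.2 _ _ h) dbl_ne
    · intro h2
      rw [h2] at h
      exact dbl_ne (e.2 _ _ h).symm
  · intro h
    exact Or.inr (swf_eq hE ⟨e, n, he, h, Or.inl ⟨rfl, rfl⟩⟩).symm

section

variable {i : FEq M α → α}

/-- The relations with value `e l` do not have the pattern `k`. -/
def Aq (i : FEq M α → α) (e : ISq M α) (l k : INat M) : Prop :=
  ∀ r : FEq M α, i r = e.1 l → ¬ ∀ j,
    ((e.1 (pr l j + pr l j), e.1 (INat.succ (pr l j + pr l j))) ∈ r.1 ↔ j = k)

/-- The least such `k`. -/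
def LAq (i : FEq M α → α) (e : ISq M α) (l k : INat M) : Prop :=
  Aq i e l k ∧ ∀ k', Aq i e l k' → k ≤ k'

theorem int_Aq (hi : IntF M i) :
    Int M (fun q : (ISq M α × INat M) × INat M => Aq i q.1.1 q.1.2 q.2) := by
  have hb := int_pr (M := M)
  unfold Aq
  (repeat' (first | with_reducible exact IntF.id | with_reducible exact IntF.fst' | with_reducible exact IntF.snd' | with_reducible exact IntF.const _ | with_reducible exact Int.const _ | assumption | with_reducible apply Int.and | with_reducible apply Int.or | with_reducible apply Int.not | with_reducible apply Int.imp | with_reducible apply Int.iff | with_reducible apply Int.ne | with_reducible apply Int.eq | with_reducible apply Int.mem | with_reducible apply Int.subset | with_reducible apply Int.ltN | with_reducible apply Int.leN | with_reducible apply Int.fin | with_reducible apply Int.unique | with_reducible apply Int.all | with_reducible apply Int.ex | with_reducible apply IntF.fst | with_reducible apply IntF.snd | with_reducible apply IntF.app | with_reducible apply IntF.ite | with_reducible apply IntF.sep | with_reducible apply IntF.lam | with_reducible apply IntF.insert | with_reducible apply IntF.singleton | with_reducible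 apply IntF.union | with_reducible apply IntF.inter | with_reducible apply IntF.sdiff | with_reducible apply IntF.isUnion | with_reducible apply IntF.iimage | with_reducible apply IntF.the | with_reducible apply IntF.irec | with_reducible_and_instances apply IntF.add | with_reducible_and_instances apply IntF.mul | with_reducible apply IntF.succ | with_reducible apply IntF.val | (with_reducible refine Int.comp ?_ ?_; assumption) | (with_reducible refine Int.comp₂ ?_ ?_ ?_; assumption) | (with_reducible refine Int.comp₃ ?_ ?_ ?_ ?_; assumption) | (with_reducible refine Int.comp₄ ?_ ?_ ?_ ?_ ?_; assumption) | (with_reducible refine IntF.comp ?_ ?_; assumption) | (with_reducible refine IntF.comp₂ ?_ ?_ ?_; assumption) | (with_reducible refine IntF.comp₃ ?_ ?_ ?_ ?_; assumption) | with_reducible apply IntF.inl | with_reducible apply IntF.inr | with_reducible apply IntF.pair))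

theorem int_LAq (hi : IntF M i) :
    Int M (fun q : (ISq M α × INat M) × INat M => LAq i q.1.1 q.1.2 q.2) := by
  have hA := int_Aq hi
  unfold LAq
  (repeat' (first | with_reducible exact IntF.id | with_reducible exact IntF.fst' | with_reducible exact IntF.snd' | with_reducible exact IntF.const _ | with_reducible exact Int.const _ | assumption | with_reducible apply Int.and | with_reducible apply Int.or | with_reducible apply Int.not | with_reducible apply Int.imp | with_reducible apply Int.iff | with_reducible apply Int.ne | with_reducible apply Int.eq | with_reducible apply Int.mem | with_reducible apply Int.subset | with_reducible apply Int.ltN | with_reducible apply Int.leN | with_reducible apply Int.fin | with_reducible apply Int.unique | with_reducible apply Int.all | with_reducible apply Int.ex | with_reducible apply IntF.fst | with_reducible apply IntF.snd | with_reducible apply IntF.app | with_reducible apply IntF.ite | with_reducible apply IntF.sep | with_reducible apply IntF.lam | with_reducible apply IntF.insert | with_reducible apply IntF.singleton | with_reducible apply IntF.union | with_reducible apply IntF.inter | with_reducible apply IntF.sdiff | with_reducible apply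 IntF.isUnion | with_reducible apply IntF.iimage | with_reducible apply IntF.the | with_reducible apply IntF.irec | with_reducible_and_instances apply IntF.add | with_reducible_and_instances apply IntF.mul | with_reducible apply IntF.succ | with_reducible apply IntF.val | (with_reducible refine Int.comp ?_ ?_; assumption) | (with_reducible refine Int.comp₂ ?_ ?_ ?_; assumption) | (with_reducible refine Int.comp₃ ?_ ?_ ?_ ?_; assumption) | (with_reducible refine Int.comp₄ ?_ ?_ ?_ ?_ ?_; assumption) | (with_reducible refine IntF.comp ?_ ?_; assumption) | (with_reducible refine IntF.comp₂ ?_ ?_ ?_; assumption) | (with_reducible refine IntF.comp₃ ?_ ?_ ?_ ?_; assumption) | with_reducible apply IntF.inl | with_reducible apply IntF.inr | with_reducible apply IntF.pair))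

theorem exists_LAq (hi : IntF M i) (hfib : ∀ q, FinP M (fun r => i r = q)) (e : ISq M α)
    (l : INat M) : ∃ k, LAq i e l k := by
  have hb := int_pr (M := M)
  have hA := int_Aq hi
  refine INat.exists_least (p := fun k => Aq i e l k) (by
    unfold Aq
    (repeat' (first | with_reducible exact IntF.id | with_reducible exact IntF.fst' | with_reducible exact IntF.snd' | with_reducible exact IntF.const _ | with_reducible exact Int.const _ | assumption | with_reducible apply Int.and | with_reducible apply Int.or | with_reducible apply Int.not | with_reducible apply Int.imp | with_reducible apply Int.iff | with_reducible apply Int.ne | with_reducible apply Int.eq | with_reducible apply Int.mem | with_reducible apply Int.subset | with_reducible apply Int.ltN | with_reducible apply Int.leN | with_reducible apply Int.fin | with_reducible apply Int.unique | with_reducible apply Int.all | with_reducible apply Int.ex | with_reducible apply IntF.fst | with_reducible apply IntF.snd | with_reducible apply IntF.app | with_reducible apply IntF.ite | with_reducible apply IntF.sep | with_reducible apply IntF.lam | with_reducible apply IntF.insert | with_reducible apply IntF.singleton | with_reducible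 apply IntF.union | with_reducible apply IntF.inter | with_reducible apply IntF.sdiff | with_reducible apply IntF.isUnion | with_reducible apply IntF.iimage | with_reducible apply IntF.the | with_reducible apply IntF.irec | with_reducible_and_instances apply IntF.add | with_reducible_and_instances apply IntF.mul | with_reducible apply IntF.succ | with_reducible apply IntF.val | (with_reducible refine Int.comp ?_ ?_; assumption) | (with_reducible refine Int.comp₂ ?_ ?_ ?_; assumption) | (with_reducible refine Int.comp₃ ?_ ?_ ?_ ?_; assumption) | (with_reducible refine Int.comp₄ ?_ ?_ ?_ ?_ ?_; assumption) | (with_reducible refine IntF.comp ?_ ?_; assumption) | (with_reducible refine IntF.comp₂ ?_ ?_ ?_; assumption) | (with_reducible refine IntF.comp₃ ?_ ?_ ?_ ?_; assumption) | with_reducible apply IntF.inl | with_reducible apply IntF.inr | with_reducible apply IntF.pair))) ?_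
  by_contra h
  have hf : IntF M (fun r : FEq M α => the (fun k => ∀ j,
      ((e.1 (pr l j + pr l j), e.1 (INat.succ (pr l j + pr l j))) ∈ r.1 ↔ j = k)) 0) := by (repeat' (first | with_reducible exact IntF.id | with_reducible exact IntF.fst' | with_reducible exact IntF.snd' | with_reducible exact IntF.const _ | with_reducible exact Int.const _ | assumption | with_reducible apply Int.and | with_reducible apply Int.or | with_reducible apply Int.not | with_reducible apply Int.imp | with_reducible apply Int.iff | with_reducible apply Int.ne | with_reducible apply Int.eq | with_reducible apply Int.mem | with_reducible apply Int.subset | with_reducible apply Int.ltN | with_reducible apply Int.leN | with_reducible apply Int.fin | with_reducible apply Int.unique | with_reducible apply Int.all | with_reducible apply Int.ex | with_reducible apply IntF.fst | with_reducible apply IntF.snd | with_reducible apply IntF.app | with_reducible apply IntF.ite | with_reducible apply IntF.sep | with_reducible apply IntF.lam | with_reducible apply IntF.insert | with_reducible apply IntF.singleton | with_reducible apply IntF.union | with_reducible apply IntF.inter | with_reducible apply IntF.sdiff | with_reducible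 apply IntF.isUnion | with_reducible apply IntF.iimage | with_reducible apply IntF.the | with_reducible apply IntF.irec | with_reducible_and_instances apply IntF.add | with_reducible_and_instances apply IntF.mul | with_reducible apply IntF.succ | with_reducible apply IntF.val | (with_reducible refine Int.comp ?_ ?_; assumption) | (with_reducible refine Int.comp₂ ?_ ?_ ?_; assumption) | (with_reducible refine Int.comp₃ ?_ ?_ ?_ ?_; assumption) | (with_reducible refine Int.comp₄ ?_ ?_ ?_ ?_ ?_; assumption) | (with_reducible refine IntF.comp ?_ ?_; assumption) | (with_reducible refine IntF.comp₂ ?_ ?_ ?_; assumption) | (with_reducible refine IntF.comp₃ ?_ ?_ ?_ ?_; assumption) | with_reducible apply IntF.inl | with_reducible apply IntF.inr | with_reducible apply IntF.pair))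
  refine not_finP_nat (M := M) (((hfib (e.1 l)).image hf).mono fun k _ => ?_)
  have h1 : ¬ Aq i e l k := fun h1 => h ⟨k, h1⟩
  unfold Aq at h1
  push Not at h1
  obtain ⟨σ, h2, h3⟩ := h1
  refine ⟨σ, h2, the_eq ⟨k, h3, fun k' hk' => ?_⟩ h3⟩
  exact (h3 k').1 ((hk' k').2 rfl)

/-- The diagonal set. -/
noncomputable def dgq (i : FEq M α → α) : IPow M (INat M × ISq M α) :=
  sep M fun q => ∃ l k, q.1 = pr l k ∧ LAq i q.2 l k

theorem mem_dgq (hi : IntF M i) {l k : INat M} {e : ISq M α} :
    (pr l k, e) ∈ dgq i ↔ LAq i e l k := by
  have hb := int_pr (M := M)
  have hL := int_LAq hi
  have hI : Int M (fun q : INat M × ISq M α => ∃ l k, q.1 = pr l k ∧ LAq i q.2 l k) := by (repeat' (first | with_reducible exact IntF.id | with_reducible exact IntF.fst' | with_reducible exact IntF.snd' | with_reducible exact IntF.const _ | with_reducible exact Int.const _ | assumption | with_reducible apply Int.and | with_reducible apply Int.or | with_reducible apply Int.not | with_reducible apply Int.imp | with_reducible apply Int.iff | with_reducible apply Int.ne | with_reducible apply Int.eq | with_reducible apply Int.mem | with_reducible apply Int.subset | with_reducible apply Int.ltN | with_reducible apply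 Int.leN | with_reducible apply Int.fin | with_reducible apply Int.unique | with_reducible apply Int.all | with_reducible apply Int.ex | with_reducible apply IntF.fst | with_reducible apply IntF.snd | with_reducible apply IntF.app | with_reducible apply IntF.ite | with_reducible apply IntF.sep | with_reducible apply IntF.lam | with_reducible apply IntF.insert | with_reducible apply IntF.singleton | with_reducible apply IntF.union | with_reducible apply IntF.inter | with_reducible apply IntF.sdiff | with_reducible apply IntF.isUnion | with_reducible apply IntF.iimage | with_reducible apply IntF.the | with_reducible apply IntF.irec | with_reducible_and_instances apply IntF.add | with_reducible_and_instances apply IntF.mul | with_reducible apply IntF.succ | with_reducible apply IntF.val | (with_reducible refine Int.comp ?_ ?_; assumption) | (with_reducible refine Int.comp₂ ?_ ?_ ?_; assumption) | (with_reducible refine Int.comp₃ ?_ ?_ ?_ ?_; assumption) | (with_reducible refine Int.comp₄ ?_ ?_ ?_ ?_ ?_; assumption) | (with_reducible refine IntF.comp ?_ ?_; assumption) | (with_reducible refine IntF.comp₂ ?_ ?_ ?_; assumption) | (with_reducible refine IntF.comp₃ ?_ ?_ ?_ ?_; assumption) | with_reducible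 apply IntF.inl | with_reducible apply IntF.inr | with_reducible apply IntF.pair))
  unfold dgq
  rw [mem_sep hI]
  constructor
  · rintro ⟨l', k', h1, h2⟩
    obtain ⟨rfl, rfl⟩ := pr_inj h1
    exact h2
  · intro h1
    exact ⟨l, k, rfl, h1⟩

/-- The new element. -/
noncomputable def neq (i : FEq M α → α) (E : IPow M (ISq M α)) : α :=
  i (swq E (dgq i))

theorem int_neq (hi : IntF M i) : IntF M (fun E : IPow M (ISq M α) => neq i E) := by
  have hs := int_swq (M := M) (α := α)
  unfold neq
  (repeat' (first | with_reducible exact IntF.id | with_reducible exact IntF.fst' | with_reducible exact IntF.snd' | with_reducible exact IntF.const _ | with_reducible exact Int.const _ | assumption | with_reducible apply Int.and | with_reducible apply Int.or | with_reducible apply Int.not | with_reducible apply Int.imp | with_reducible apply Int.iff | with_reducible apply Int.ne | with_reducible apply Int.eq | with_reducible apply Int.mem | with_reducible apply Int.subset | with_reducible apply Int.ltN | with_reducible apply Int.leN | with_reducible apply Int.fin | with_reducible apply Int.unique | with_reducible apply Int.all | with_reducible apply Int.ex | with_reducible apply IntF.fst | with_reducible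 apply IntF.snd | with_reducible apply IntF.app | with_reducible apply IntF.ite | with_reducible apply IntF.sep | with_reducible apply IntF.lam | with_reducible apply IntF.insert | with_reducible apply IntF.singleton | with_reducible apply IntF.union | with_reducible apply IntF.inter | with_reducible apply IntF.sdiff | with_reducible apply IntF.isUnion | with_reducible apply IntF.iimage | with_reducible apply IntF.the | with_reducible apply IntF.irec | with_reducible_and_instances apply IntF.add | with_reducible_and_instances apply IntF.mul | with_reducible apply IntF.succ | with_reducible apply IntF.val | (with_reducible refine Int.comp ?_ ?_; assumption) | (with_reducible refine Int.comp₂ ?_ ?_ ?_; assumption) | (with_reducible refine Int.comp₃ ?_ ?_ ?_ ?_; assumption) | (with_reducible refine Int.comp₄ ?_ ?_ ?_ ?_ ?_; assumption) | (with_reducible refine IntF.comp ?_ ?_; assumption) | (with_reducible refine IntF.comp₂ ?_ ?_ ?_; assumption) | (with_reducible refine IntF.comp₃ ?_ ?_ ?_ ?_; assumption) | with_reducible apply IntF.inl | with_reducible apply IntF.inr | with_reducible apply IntF.pair))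

theorem neq_new (hi : IntF M i) (hfib : ∀ q, FinP M (fun r => i r = q)) {E : IPow M (ISq M α)}
    (hE : Vld E) {e : ISq M α} (he : e ∈ E) (l : INat M) : neq i E ≠ e.1 l := by
  intro h
  obtain ⟨k, hk⟩ := exists_LAq hi hfib e l
  refine hk.1 (swq E (dgq i)) h fun j => ?_
  rw [swq_moves hE _ he, mem_dgq hi]
  exact ⟨fun h => le_antisymm (h.2 k hk.1) (hk.2 j h.1), fun h => h ▸ hk⟩

/-- The stages. -/
noncomputable def stq (i : FEq M α → α) (g₀ : ISq M α) (R : IPow M (ISq M α))
    (n : INat M) : ISq M α := irec g₀ (fun _ g => cns (neq i (insert g R)) g) n

theorem int_stq (hi : IntF M i) (g₀ : ISq M α) :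
    IntF M (fun q : IPow M (ISq M α) × INat M => stq i g₀ q.1 q.2) := by
  have h1 := int_neq hi
  have h2 := int_cns (M := M) (α := α)
  unfold stq
  (repeat' (first | with_reducible exact IntF.id | with_reducible exact IntF.fst' | with_reducible exact IntF.snd' | with_reducible exact IntF.const _ | with_reducible exact Int.const _ | assumption | with_reducible apply Int.and | with_reducible apply Int.or | with_reducible apply Int.not | with_reducible apply Int.imp | with_reducible apply Int.iff | with_reducible apply Int.ne | with_reducible apply Int.eq | with_reducible apply Int.mem | with_reducible apply Int.subset | with_reducible apply Int.ltN | with_reducible apply Int.leN | with_reducible apply Int.fin | with_reducible apply Int.unique | with_reducible apply Int.all | with_reducible apply Int.ex | with_reducible apply IntF.fst | with_reducible apply IntF.snd | with_reducible apply IntF.app | with_reducible apply IntF.ite | with_reducible apply IntF.sep | with_reducible apply IntF.lam | with_reducible apply IntF.insert | with_reducible apply IntF.singleton | with_reducible apply IntF.union | with_reducible apply IntF.inter | with_reducible apply IntF.sdiff | with_reducible apply IntF.isUnion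 | with_reducible apply IntF.iimage | with_reducible apply IntF.the | with_reducible apply IntF.irec | with_reducible_and_instances apply IntF.add | with_reducible_and_instances apply IntF.mul | with_reducible apply IntF.succ | with_reducible apply IntF.val | (with_reducible refine Int.comp ?_ ?_; assumption) | (with_reducible refine Int.comp₂ ?_ ?_ ?_; assumption) | (with_reducible refine Int.comp₃ ?_ ?_ ?_ ?_; assumption) | (with_reducible refine Int.comp₄ ?_ ?_ ?_ ?_ ?_; assumption) | (with_reducible refine IntF.comp ?_ ?_; assumption) | (with_reducible refine IntF.comp₂ ?_ ?_ ?_; assumption) | (with_reducible refine IntF.comp₃ ?_ ?_ ?_ ?_; assumption) | with_reducible apply IntF.inl | with_reducible apply IntF.inr | with_reducible apply IntF.pair))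

theorem stq_zero (hi : IntF M i) (g₀ : ISq M α) (R : IPow M (ISq M α)) :
    stq i g₀ R 0 = g₀ := by
  have h1 := int_neq hi
  have h2 := int_cns (M := M) (α := α)
  exact irec_zero (by (repeat' (first | with_reducible exact IntF.id | with_reducible exact IntF.fst' | with_reducible exact IntF.snd' | with_reducible exact IntF.const _ | with_reducible exact Int.const _ | assumption | with_reducible apply Int.and | with_reducible apply Int.or | with_reducible apply Int.not | with_reducible apply Int.imp | with_reducible apply Int.iff | with_reducible apply Int.ne | with_reducible apply Int.eq | with_reducible apply Int.mem | with_reducible apply Int.subset | with_reducible apply Int.ltN | with_reducible apply Int.leN | with_reducible apply Int.fin | with_reducible apply Int.unique | with_reducible apply Int.all | with_reducible apply Int.ex | with_reducible apply IntF.fst | with_reducible apply IntF.snd | with_reducible apply IntF.app | with_reducible apply IntF.ite | with_reducible apply IntF.sep | with_reducible apply IntF.lam | with_reducible apply IntF.insert | with_reducible apply IntF.singleton | with_reducible apply IntF.union | with_reducible apply IntF.inter | with_reducible apply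 IntF.sdiff | with_reducible apply IntF.isUnion | with_reducible apply IntF.iimage | with_reducible apply IntF.the | with_reducible apply IntF.irec | with_reducible_and_instances apply IntF.add | with_reducible_and_instances apply IntF.mul | with_reducible apply IntF.succ | with_reducible apply IntF.val | (with_reducible refine Int.comp ?_ ?_; assumption) | (with_reducible refine Int.comp₂ ?_ ?_ ?_; assumption) | (with_reducible refine Int.comp₃ ?_ ?_ ?_ ?_; assumption) | (with_reducible refine Int.comp₄ ?_ ?_ ?_ ?_ ?_; assumption) | (with_reducible refine IntF.comp ?_ ?_; assumption) | (with_reducible refine IntF.comp₂ ?_ ?_ ?_; assumption) | (with_reducible refine IntF.comp₃ ?_ ?_ ?_ ?_; assumption) | with_reducible apply IntF.inl | with_reducible apply IntF.inr | with_reducible apply IntF.pair)))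

theorem stq_succ (hi : IntF M i) (g₀ : ISq M α) (R : IPow M (ISq M α)) (n : INat M) :
    stq i g₀ R n.succ = cns (neq i (insert (stq i g₀ R n) R)) (stq i g₀ R n) := by
  have h1 := int_neq hi
  have h2 := int_cns (M := M) (α := α)
  exact irec_succ (f := fun _ g => cns (neq i (insert g R)) g) (by (repeat' (first | with_reducible exact IntF.id | with_reducible exact IntF.fst' | with_reducible exact IntF.snd' | with_reducible exact IntF.const _ | with_reducible exact Int.const _ | assumption | with_reducible apply Int.and | with_reducible apply Int.or | with_reducible apply Int.not | with_reducible apply Int.imp | with_reducible apply Int.iff | with_reducible apply Int.ne | with_reducible apply Int.eq | with_reducible apply Int.mem | with_reducible apply Int.subset | with_reducible apply Int.ltN | with_reducible apply Int.leN | with_reducible apply Int.fin | with_reducible apply Int.unique | with_reducible apply Int.all | with_reducible apply Int.ex | with_reducible apply IntF.fst | with_reducible apply IntF.snd | with_reducible apply IntF.app | with_reducible apply IntF.ite | with_reducible apply IntF.sep | with_reducible apply IntF.lam | with_reducible apply IntF.insert | with_reducible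 apply IntF.singleton | with_reducible apply IntF.union | with_reducible apply IntF.inter | with_reducible apply IntF.sdiff | with_reducible apply IntF.isUnion | with_reducible apply IntF.iimage | with_reducible apply IntF.the | with_reducible apply IntF.irec | with_reducible_and_instances apply IntF.add | with_reducible_and_instances apply IntF.mul | with_reducible apply IntF.succ | with_reducible apply IntF.val | (with_reducible refine Int.comp ?_ ?_; assumption) | (with_reducible refine Int.comp₂ ?_ ?_ ?_; assumption) | (with_reducible refine Int.comp₃ ?_ ?_ ?_ ?_; assumption) | (with_reducible refine Int.comp₄ ?_ ?_ ?_ ?_ ?_; assumption) | (with_reducible refine IntF.comp ?_ ?_; assumption) | (with_reducible refine IntF.comp₂ ?_ ?_ ?_; assumption) | (with_reducible refine IntF.comp₃ ?_ ?_ ?_ ?_; assumption) | with_reducible apply IntF.inl | with_reducible apply IntF.inr | with_reducible apply IntF.pair))) n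

theorem stq_spec (hi : IntF M i) (hfib : ∀ q, FinP M (fun r => i r = q)) {g₀ : ISq M α}
    {R : IPow M (ISq M α)} (hR : Vld R) (hg : Dsj R g₀) (n : INat M) :
    Dsj R (stq i g₀ R n) ∧ (∀ k, (stq i g₀ R n).1 k ≠ neq i (insert (stq i g₀ R n) R)) ∧
      (∀ e k, e ∈ R → e.1 k ≠ neq i (insert (stq i g₀ R n) R)) := by
  have h1 := int_neq hi
  have hs := int_stq hi g₀
  have key : ∀ g, Dsj R g → (∀ k, g.1 k ≠ neq i (insert g R)) ∧
      ∀ e k, e ∈ R → e.1 k ≠ neq i (insert g R) := by
    intro g hg
    have hv := vld_insert hR hg
    exact ⟨fun k h => neq_new hi hfib hv (mem_insert.2 (Or.inl rfl)) k h.symm,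
      fun e k he h => neq_new hi hfib hv (mem_insert.2 (Or.inr he)) k h.symm⟩
  have h2 : Dsj R (stq i g₀ R n) := by
    refine INat.ind (p := fun n => Dsj R (stq i g₀ R n)) (by
      unfold Dsj
      (repeat' (first | with_reducible exact IntF.id | with_reducible exact IntF.fst' | with_reducible exact IntF.snd' | with_reducible exact IntF.const _ | with_reducible exact Int.const _ | assumption | with_reducible apply Int.and | with_reducible apply Int.or | with_reducible apply Int.not | with_reducible apply Int.imp | with_reducible apply Int.iff | with_reducible apply Int.ne | with_reducible apply Int.eq | with_reducible apply Int.mem | with_reducible apply Int.subset | with_reducible apply Int.ltN | with_reducible apply Int.leN | with_reducible apply Int.fin | with_reducible apply Int.unique | with_reducible apply Int.all | with_reducible apply Int.ex | with_reducible apply IntF.fst | with_reducible apply IntF.snd | with_reducible apply IntF.app | with_reducible apply IntF.ite | with_reducible apply IntF.sep | with_reducible apply IntF.lam | with_reducible apply IntF.insert | with_reducible apply IntF.singleton | with_reducible apply IntF.union | with_reducible apply IntF.inter | with_reducible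 apply IntF.sdiff | with_reducible apply IntF.isUnion | with_reducible apply IntF.iimage | with_reducible apply IntF.the | with_reducible apply IntF.irec | with_reducible_and_instances apply IntF.add | with_reducible_and_instances apply IntF.mul | with_reducible apply IntF.succ | with_reducible apply IntF.val | (with_reducible refine Int.comp ?_ ?_; assumption) | (with_reducible refine Int.comp₂ ?_ ?_ ?_; assumption) | (with_reducible refine Int.comp₃ ?_ ?_ ?_ ?_; assumption) | (with_reducible refine Int.comp₄ ?_ ?_ ?_ ?_ ?_; assumption) | (with_reducible refine IntF.comp ?_ ?_; assumption) | (with_reducible refine IntF.comp₂ ?_ ?_ ?_; assumption) | (with_reducible refine IntF.comp₃ ?_ ?_ ?_ ?_; assumption) | with_reducible apply IntF.inl | with_reducible apply IntF.inr | with_reducible apply IntF.pair))) ?_ ?_ n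
    · rw [stq_zero hi]
      exact hg
    · intro n ih e m k he
      rw [stq_succ hi]
      obtain ⟨h3, h4⟩ := cns_spec (key _ ih).1
      rcases INat.eq_zero_or_succ k with rfl | ⟨k, rfl⟩
      · rw [h3]
        exact (key _ ih).2 e m he
      · rw [h4]
        exact ih e m k he
  exact ⟨h2, (key _ h2).1, (key _ h2).2⟩

/-- The new sequence. -/
noncomputable def nsr (i : FEq M α → α) (g₀ : ISq M α) (R : IPow M (ISq M α)) :
    ISq M α :=
  the (fun g : ISq M α => ∀ n, g.1 n = neq i (insert (stq i g₀ R n) R)) g₀

theorem int_nsr (hi : IntF M i) (g₀ : ISq M α) : IntF M (fun R => nsr i g₀ R) := by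
  have h1 := int_neq hi
  have hs := int_stq hi g₀
  unfold nsr
  (repeat' (first | with_reducible exact IntF.id | with_reducible exact IntF.fst' | with_reducible exact IntF.snd' | with_reducible exact IntF.const _ | with_reducible exact Int.const _ | assumption | with_reducible apply Int.and | with_reducible apply Int.or | with_reducible apply Int.not | with_reducible apply Int.imp | with_reducible apply Int.iff | with_reducible apply Int.ne | with_reducible apply Int.eq | with_reducible apply Int.mem | with_reducible apply Int.subset | with_reducible apply Int.ltN | with_reducible apply Int.leN | with_reducible apply Int.fin | with_reducible apply Int.unique | with_reducible apply Int.all | with_reducible apply Int.ex | with_reducible apply IntF.fst | with_reducible apply IntF.snd | with_reducible apply IntF.app | with_reducible apply IntF.ite | with_reducible apply IntF.sep | with_reducible apply IntF.lam | with_reducible apply IntF.insert | with_reducible apply IntF.singleton | with_reducible apply IntF.union | with_reducible apply IntF.inter | with_reducible apply IntF.sdiff | with_reducible apply IntF.isUnion | with_reducible apply IntF.iimage | with_reducible apply IntF.the | with_reducible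 apply IntF.irec | with_reducible_and_instances apply IntF.add | with_reducible_and_instances apply IntF.mul | with_reducible apply IntF.succ | with_reducible apply IntF.val | (with_reducible refine Int.comp ?_ ?_; assumption) | (with_reducible refine Int.comp₂ ?_ ?_ ?_; assumption) | (with_reducible refine Int.comp₃ ?_ ?_ ?_ ?_; assumption) | (with_reducible refine Int.comp₄ ?_ ?_ ?_ ?_ ?_; assumption) | (with_reducible refine IntF.comp ?_ ?_; assumption) | (with_reducible refine IntF.comp₂ ?_ ?_ ?_; assumption) | (with_reducible refine IntF.comp₃ ?_ ?_ ?_ ?_; assumption) | with_reducible apply IntF.inl | with_reducible apply IntF.inr | with_reducible apply IntF.pair))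

theorem nsr_spec (hi : IntF M i) (hfib : ∀ q, FinP M (fun r => i r = q)) {g₀ : ISq M α}
    {R : IPow M (ISq M α)} (hR : Vld R) (hg : Dsj R g₀) :
    Dsj (insert g₀ R) (nsr i g₀ R) := by
  have h1 := int_neq hi
  have hs := int_stq hi g₀
  have h2 := stq_spec hi hfib hR hg
  -- the ranges increase
  have up : ∀ n k, ∃ l, (stq i g₀ R n.succ).1 l = (stq i g₀ R n).1 k := by
    intro n k
    rw [stq_succ hi]
    exact ⟨k.succ, (cns_spec (h2 n).2.1).2 k⟩
  have up' : ∀ m k n, m ≤ n → ∃ l, (stq i g₀ R n).1 l = (stq i g₀ R m).1 k := by
    intro m k n
    refine INat.ind (p := fun n => m ≤ n → ∃ l, (stq i g₀ R n).1 l = (stq i g₀ R m).1 k)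
      (by (repeat' (first | with_reducible exact IntF.id | with_reducible exact IntF.fst' | with_reducible exact IntF.snd' | with_reducible exact IntF.const _ | with_reducible exact Int.const _ | assumption | with_reducible apply Int.and | with_reducible apply Int.or | with_reducible apply Int.not | with_reducible apply Int.imp | with_reducible apply Int.iff | with_reducible apply Int.ne | with_reducible apply Int.eq | with_reducible apply Int.mem | with_reducible apply Int.subset | with_reducible apply Int.ltN | with_reducible apply Int.leN | with_reducible apply Int.fin | with_reducible apply Int.unique | with_reducible apply Int.all | with_reducible apply Int.ex | with_reducible apply IntF.fst | with_reducible apply IntF.snd | with_reducible apply IntF.app | with_reducible apply IntF.ite | with_reducible apply IntF.sep | with_reducible apply IntF.lam | with_reducible apply IntF.insert | with_reducible apply IntF.singleton | with_reducible apply IntF.union | with_reducible apply IntF.inter | with_reducible apply IntF.sdiff | with_reducible apply IntF.isUnion | with_reducible apply IntF.iimage | with_reducible apply IntF.the | with_reducible apply IntF.irec | with_reducible_and_instances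 apply IntF.add | with_reducible_and_instances apply IntF.mul | with_reducible apply IntF.succ | with_reducible apply IntF.val | (with_reducible refine Int.comp ?_ ?_; assumption) | (with_reducible refine Int.comp₂ ?_ ?_ ?_; assumption) | (with_reducible refine Int.comp₃ ?_ ?_ ?_ ?_; assumption) | (with_reducible refine Int.comp₄ ?_ ?_ ?_ ?_ ?_; assumption) | (with_reducible refine IntF.comp ?_ ?_; assumption) | (with_reducible refine IntF.comp₂ ?_ ?_ ?_; assumption) | (with_reducible refine IntF.comp₃ ?_ ?_ ?_ ?_; assumption) | with_reducible apply IntF.inl | with_reducible apply IntF.inr | with_reducible apply IntF.pair))) ?_ ?_ n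
    · intro h
      have : m = 0 := le_antisymm h (INat.zero_le m)
      subst this
      exact ⟨k, rfl⟩
    · intro n ih h
      rcases h.lt_or_eq with h | rfl
      · obtain ⟨l, hl⟩ := ih (INat.lt_succ_iff.1 h)
        obtain ⟨l', hl'⟩ := up n l
        exact ⟨l', hl'.trans hl⟩
      · exact ⟨k, rfl⟩
  have hx : ∀ m n, m < n → ∃ l, (stq i g₀ R n).1 l = neq i (insert (stq i g₀ R m) R) := by
    intro m n hmn
    obtain ⟨l, hl⟩ := up' m.succ 0 n (INat.succ_le_iff.2 hmn)
    refine ⟨l, hl.trans ?_⟩
    rw [stq_succ hi]
    exact (cns_spec (h2 m).2.1).1
  have hI : IntF M (fun n => neq i (insert (stq i g₀ R n) R)) := by (repeat' (first | with_reducible exact IntF.id | with_reducible exact IntF.fst' | with_reducible exact IntF.snd' | with_reducible exact IntF.const _ | with_reducible exact Int.const _ | assumption | with_reducible apply Int.and | with_reducible apply Int.or | with_reducible apply Int.not | with_reducible apply Int.imp | with_reducible apply Int.iff | with_reducible apply Int.ne | with_reducible apply Int.eq | with_reducible apply Int.mem | with_reducible apply Int.subset | with_reducible apply Int.ltN | with_reducible apply Int.leN | with_reducible apply Int.fin | with_reducible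 apply Int.unique | with_reducible apply Int.all | with_reducible apply Int.ex | with_reducible apply IntF.fst | with_reducible apply IntF.snd | with_reducible apply IntF.app | with_reducible apply IntF.ite | with_reducible apply IntF.sep | with_reducible apply IntF.lam | with_reducible apply IntF.insert | with_reducible apply IntF.singleton | with_reducible apply IntF.union | with_reducible apply IntF.inter | with_reducible apply IntF.sdiff | with_reducible apply IntF.isUnion | with_reducible apply IntF.iimage | with_reducible apply IntF.the | with_reducible apply IntF.irec | with_reducible_and_instances apply IntF.add | with_reducible_and_instances apply IntF.mul | with_reducible apply IntF.succ | with_reducible apply IntF.val | (with_reducible refine Int.comp ?_ ?_; assumption) | (with_reducible refine Int.comp₂ ?_ ?_ ?_; assumption) | (with_reducible refine Int.comp₃ ?_ ?_ ?_ ?_; assumption) | (with_reducible refine Int.comp₄ ?_ ?_ ?_ ?_ ?_; assumption) | (with_reducible refine IntF.comp ?_ ?_; assumption) | (with_reducible refine IntF.comp₂ ?_ ?_ ?_; assumption) | (with_reducible refine IntF.comp₃ ?_ ?_ ?_ ?_; assumption) | with_reducible apply IntF.inl | with_reducible apply IntF.inr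 | with_reducible apply IntF.pair))
  have h3 : ∀ n, (nsr i g₀ R).1 n = neq i (insert (stq i g₀ R n) R) := by
    refine the_spec (p := fun g : ISq M α => ∀ n, g.1 n = neq i (insert (stq i g₀ R n) R))
      ⟨⟨⟨_, hI⟩, ?_⟩, fun n => rfl, fun g hg => Subtype.ext (IFun.ext' hg)⟩
    intro m n hmn
    replace hmn : neq i (insert (stq i g₀ R m) R) = neq i (insert (stq i g₀ R n) R) := hmn
    rcases lt_trichotomy m n with h | h | h
    · obtain ⟨l, hl⟩ := hx m n h
      exact absurd (hl.trans hmn) ((h2 n).2.1 l)
    · exact h
    · obtain ⟨l, hl⟩ := hx n m h
      exact absurd (hl.trans hmn.symm) ((h2 m).2.1 l)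
  intro e m n he
  rw [h3]
  rcases mem_insert.1 he with rfl | he
  · obtain ⟨l, hl⟩ := up' 0 m n (INat.zero_le n)
    rw [stq_zero hi] at hl
    rw [← hl]
    exact (h2 n).2.1 l
  · exact (h2 n).2.2 e m he

/-- A set with a finite-to-one map from its finitary equivalence relations to it is
Dedekind finite. -/
theorem dedekind_finite_part (hi : IntF M i) (hfib : ∀ q, FinP M (fun r => i r = q)) :
    DF M α (fun _ => True) := by
  rintro ⟨g, h1, _, h3⟩
  let g₀ : ISq M α := ⟨⟨g, h1⟩, h3⟩
  have hs := int_nsr hi g₀
  have hV := int_Vld (M := M) (α := α)
  obtain ⟨E, ⟨h4, h5⟩, h6⟩ := bw_up (F := fun E => insert (nsr i g₀ (E \ {g₀})) E)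
    (Q := fun E => Vld E ∧ g₀ ∈ E) (bot := {g₀}) (by (repeat' (first | with_reducible exact IntF.id | with_reducible exact IntF.fst' | with_reducible exact IntF.snd' | with_reducible exact IntF.const _ | with_reducible exact Int.const _ | assumption | with_reducible apply Int.and | with_reducible apply Int.or | with_reducible apply Int.not | with_reducible apply Int.imp | with_reducible apply Int.iff | with_reducible apply Int.ne | with_reducible apply Int.eq | with_reducible apply Int.mem | with_reducible apply Int.subset | with_reducible apply Int.ltN | with_reducible apply Int.leN | with_reducible apply Int.fin | with_reducible apply Int.unique | with_reducible apply Int.all | with_reducible apply Int.ex | with_reducible apply IntF.fst | with_reducible apply IntF.snd | with_reducible apply IntF.app | with_reducible apply IntF.ite | with_reducible apply IntF.sep | with_reducible apply IntF.lam | with_reducible apply IntF.insert | with_reducible apply IntF.singleton | with_reducible apply IntF.union | with_reducible apply IntF.inter | with_reducible apply IntF.sdiff | with_reducible apply IntF.isUnion | with_reducible apply IntF.iimage | with_reducible apply IntF.the | with_reducible apply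 IntF.irec | with_reducible_and_instances apply IntF.add | with_reducible_and_instances apply IntF.mul | with_reducible apply IntF.succ | with_reducible apply IntF.val | (with_reducible refine Int.comp ?_ ?_; assumption) | (with_reducible refine Int.comp₂ ?_ ?_ ?_; assumption) | (with_reducible refine Int.comp₃ ?_ ?_ ?_ ?_; assumption) | (with_reducible refine Int.comp₄ ?_ ?_ ?_ ?_ ?_; assumption) | (with_reducible refine IntF.comp ?_ ?_; assumption) | (with_reducible refine IntF.comp₂ ?_ ?_ ?_; assumption) | (with_reducible refine IntF.comp₃ ?_ ?_ ?_ ?_; assumption) | with_reducible apply IntF.inl | with_reducible apply IntF.inr | with_reducible apply IntF.pair))) (by (repeat' (first | with_reducible exact IntF.id | with_reducible exact IntF.fst' | with_reducible exact IntF.snd' | with_reducible exact IntF.const _ | with_reducible exact Int.const _ | assumption | with_reducible apply Int.and | with_reducible apply Int.or | with_reducible apply Int.not | with_reducible apply Int.imp | with_reducible apply Int.iff | with_reducible apply Int.ne | with_reducible apply Int.eq | with_reducible apply Int.mem | with_reducible apply Int.subset | with_reducible apply Int.ltN | with_reducible apply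 Int.leN | with_reducible apply Int.fin | with_reducible apply Int.unique | with_reducible apply Int.all | with_reducible apply Int.ex | with_reducible apply IntF.fst | with_reducible apply IntF.snd | with_reducible apply IntF.app | with_reducible apply IntF.ite | with_reducible apply IntF.sep | with_reducible apply IntF.lam | with_reducible apply IntF.insert | with_reducible apply IntF.singleton | with_reducible apply IntF.union | with_reducible apply IntF.inter | with_reducible apply IntF.sdiff | with_reducible apply IntF.isUnion | with_reducible apply IntF.iimage | with_reducible apply IntF.the | with_reducible apply IntF.irec | with_reducible_and_instances apply IntF.add | with_reducible_and_instances apply IntF.mul | with_reducible apply IntF.succ | with_reducible apply IntF.val | (with_reducible refine Int.comp ?_ ?_; assumption) | (with_reducible refine Int.comp₂ ?_ ?_ ?_; assumption) | (with_reducible refine Int.comp₃ ?_ ?_ ?_ ?_; assumption) | (with_reducible refine Int.comp₄ ?_ ?_ ?_ ?_ ?_; assumption) | (with_reducible refine IntF.comp ?_ ?_; assumption) | (with_reducible refine IntF.comp₂ ?_ ?_ ?_; assumption) | (with_reducible refine IntF.comp₃ ?_ ?_ ?_ ?_; assumption) | with_reducible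 apply IntF.inl | with_reducible apply IntF.inr | with_reducible apply IntF.pair)))
    ⟨fun e e' _ _ he he' _ => by
      rw [mem_singleton] at he he'
      rw [he, he'], mem_singleton.2 rfl⟩
    (fun E ⟨hE, h0⟩ => by
      refine ⟨⟨vld_insert hE ?_, mem_insert.2 (Or.inr h0)⟩, fun x hx => mem_insert.2 (Or.inr hx)⟩
      have h7 : insert g₀ (E \ {g₀}) = E := IPow.ext' fun x => by
        rw [mem_insert, mem_sdiff, mem_singleton]
        by_cases hx : x = g₀
        · rw [hx]
          exact ⟨fun _ => h0, fun _ => Or.inl rfl⟩
        · exact ⟨fun h => (h.resolve_left hx).1, fun h => Or.inr ⟨h, hx⟩⟩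
      have h8 : Vld (E \ {g₀}) := fun e e' m n he he' =>
        hE e e' m n (mem_sdiff.1 he).1 (mem_sdiff.1 he').1
      have h9 := nsr_spec hi hfib h8 (g₀ := g₀) (fun e m n he h => by
        rw [mem_sdiff, mem_singleton] at he
        exact he.2 (hE _ _ _ _ he.1 h0 h))
      rwa [h7] at h9)
    (fun C ⟨s, hs⟩ hC hch => by
      refine ⟨fun e e' m n he he' h => ?_, mem_isUnion.2 ⟨s, hs, (hC s hs).2⟩⟩
      rw [mem_isUnion] at he he'
      obtain ⟨t, ht, he⟩ := he
      obtain ⟨t', ht', he'⟩ := he'
      rcases hch t t' ht ht' with h7 | h7
      · exact (hC t' ht').1 e e' m n (h7 _ he) he' h
      · exact (hC t ht).1 e e' m n he (h7 _ he') h)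
  have h7 : insert g₀ (E \ {g₀}) = E := IPow.ext' fun x => by
    rw [mem_insert, mem_sdiff, mem_singleton]
    by_cases hx : x = g₀
    · rw [hx]
      exact ⟨fun _ => h5, fun _ => Or.inl rfl⟩
    · exact ⟨fun h => (h.resolve_left hx).1, fun h => Or.inr ⟨h, hx⟩⟩
  have h8 : Vld (E \ {g₀}) := fun e e' m n he he' =>
    h4 e e' m n (mem_sdiff.1 he).1 (mem_sdiff.1 he').1
  have h9 := nsr_spec hi hfib h8 (g₀ := g₀) (fun e m n he h => by
    rw [mem_sdiff, mem_singleton] at he
    exact he.2 (h4 _ _ _ _ he.1 h5 h))
  rw [h7] at h9
  have h10 : nsr i g₀ (E \ {g₀}) ∈ E := by
    have : nsr i g₀ (E \ {g₀}) ∈ insert (nsr i g₀ (E \ {g₀})) E := mem_insert.2 (Or.inl rfl)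
    rwa [h6] at this
  exact h9 _ 0 0 h10 rfl

end

end Pool.Agent.R596
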