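import Pool.Agent.W924.WO
import Pool.Agent.R596.FP

/-!
# Hartogs' theorem for internal types
-/

set_option maxHeartbeats 400000
set_option linter.all false

namespace Pool.Agent.R596

open FirstOrder FirstOrder.Language
open Pool.Agent.Helper672.ZFA
open Pool.Agent.H310
open Pool.Agent.W924

universe u u₁ u₂ u₃ u₄

variable {M : Type u} [L.Structure M] [hM : IsModel M]
variable {α : Type u₁} {β : Type u₂} {γ : Type u₃} {δ : Type u₄}
  [ITy M α] [ITy M β] [ITy M γ] [ITy M δ]

/-- Well-orders of subsets. -/
def IsWS (R : IPow M (α × α)) : Prop :=
  (∀ x y, (x, y) ∈ R → (x, x) ∈ R ∧ (y, y) ∈ R) ∧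
  (∀ x y, (x, y) ∈ R → (y, x) ∈ R → x = y) ∧
  (∀ x y, (x, x) ∈ R → (y, y) ∈ R → (x, y) ∈ R ∨ (y, x) ∈ R) ∧
  (∀ x y z, (x, y) ∈ R → (y, z) ∈ R → (x, z) ∈ R) ∧
  ∀ s : IPow M α, (∃ x, x ∈ s ∧ (x, x) ∈ R) → ∃ x, x ∈ s ∧ (x, x) ∈ R ∧
    ∀ y, y ∈ s → (y, y) ∈ R → (x, y) ∈ R

theorem int_isWS : Int M (fun R : IPow M (α × α) => IsWS R) := by
  unfold IsWS
  (repeat' (first | with_reducible exact IntF.id | with_reducible exact IntF.fst' | with_reducible exact IntF.snd' | with_reducible exact IntF.const _ | with_reducible exact Int.const _ | assumption | with_reducible apply Int.and | with_reducible apply Int.or | with_reducible apply Int.not | with_reducible apply Int.imp | with_reducible apply Int.iff | with_reducible apply Int.ne | with_reducible apply Int.eq | with_reducible apply Int.mem | with_reducible apply Int.subset | with_reducible apply Int.ltN | with_reducible apply Int.leN | with_reducible apply Int.fin | with_reducible apply Int.unique | with_reducible apply Int.all | with_reducible apply Int.ex | with_reducible apply IntF.fst | with_reducible apply IntF.snd | with_reducible apply IntF.app | with_reducible apply IntF.ite | with_reducible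 apply IntF.sep | with_reducible apply IntF.lam | with_reducible apply IntF.insert | with_reducible apply IntF.singleton | with_reducible apply IntF.union | with_reducible apply IntF.inter | with_reducible apply IntF.sdiff | with_reducible apply IntF.isUnion | with_reducible apply IntF.iimage | with_reducible apply IntF.the | with_reducible apply IntF.irec | with_reducible_and_instances apply IntF.add | with_reducible_and_instances apply IntF.mul | with_reducible apply IntF.succ | with_reducible apply IntF.val | (with_reducible refine Int.comp ?_ ?_; assumption) | (with_reducible refine Int.comp₂ ?_ ?_ ?_; assumption) | (with_reducible refine Int.comp₃ ?_ ?_ ?_ ?_; assumption) | (with_reducible refine Int.comp₄ ?_ ?_ ?_ ?_ ?_; assumption) | (with_reducible refine IntF.comp ?_ ?_; assumption) | (with_reducible refine IntF.comp₂ ?_ ?_ ?_; assumption) | (with_reducible refine IntF.comp₃ ?_ ?_ ?_ ?_; assumption) | with_reducible apply IntF.inl | with_reducible apply IntF.inr | with_reducible apply IntF.pair))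

instance instFactWS : Fact (Int M (fun R : IPow M (α × α) => IsWS R)) := ⟨int_isWS⟩

variable (M α) in
/-- The type of well-orders of subsets. -/
abbrev WS : Type _ := {R : IPow M (α × α) // IsWS R}

/-- `R'` is the initial segment of `R` below `a`. -/
def IsIni (R' R : WS M α) (a : α) : Prop :=
  ∀ x y, (x, y) ∈ R'.1 ↔ (x, y) ∈ R.1 ∧ (y, a) ∈ R.1 ∧ y ≠ a

theorem int_isIni : Int M (fun q : (WS M α × WS M α) × α => IsIni q.1.1 q.1.2 q.2) := by
  unfold IsIni
  (repeat' (first | with_reducible exact IntF.id | with_reducible exact IntF.fst' | with_reducible exact IntF.snd' | with_reducible exact IntF.const _ | with_reducible exact Int.const _ | assumption | with_reducible apply Int.and | with_reducible apply Int.or | with_reducible apply Int.not | with_reducible apply Int.imp | with_reducible apply Int.iff | with_reducible apply Int.ne | with_reducible apply Int.eq | with_reducible apply Int.mem | with_reducible apply Int.subset | with_reducible apply Int.ltN | with_reducible apply Int.leN | with_reducible apply Int.fin | with_reducible apply Int.unique | with_reducible apply Int.all | with_reducible apply Int.ex | with_reducible apply IntF.fst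 | with_reducible apply IntF.snd | with_reducible apply IntF.app | with_reducible apply IntF.ite | with_reducible apply IntF.sep | with_reducible apply IntF.lam | with_reducible apply IntF.insert | with_reducible apply IntF.singleton | with_reducible apply IntF.union | with_reducible apply IntF.inter | with_reducible apply IntF.sdiff | with_reducible apply IntF.isUnion | with_reducible apply IntF.iimage | with_reducible apply IntF.the | with_reducible apply IntF.irec | with_reducible_and_instances apply IntF.add | with_reducible_and_instances apply IntF.mul | with_reducible apply IntF.succ | with_reducible apply IntF.val | (with_reducible refine Int.comp ?_ ?_; assumption) | (with_reducible refine Int.comp₂ ?_ ?_ ?_; assumption) | (with_reducible refine Int.comp₃ ?_ ?_ ?_ ?_; assumption) | (with_reducible refine Int.comp₄ ?_ ?_ ?_ ?_ ?_; assumption) | (with_reducible refine IntF.comp ?_ ?_; assumption) | (with_reducible refine IntF.comp₂ ?_ ?_ ?_; assumption) | (with_reducible refine IntF.comp₃ ?_ ?_ ?_ ?_; assumption) | with_reducible apply IntF.inl | with_reducible apply IntF.inr | with_reducible apply IntF.pair))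

theorem exists_ini (R : WS M α) (a : α) : ∃ R' : WS M α, IsIni R' R a := by
  have hI : Int M (fun q : α × α => (q.1, q.2) ∈ R.1 ∧ (q.2, a) ∈ R.1 ∧ q.2 ≠ a) := by (repeat' (first | with_reducible exact IntF.id | with_reducible exact IntF.fst' | with_reducible exact IntF.snd' | with_reducible exact IntF.const _ | with_reducible exact Int.const _ | assumption | with_reducible apply Int.and | with_reducible apply Int.or | with_reducible apply Int.not | with_reducible apply Int.imp | with_reducible apply Int.iff | with_reducible apply Int.ne | with_reducible apply Int.eq | with_reducible apply Int.mem | with_reducible apply Int.subset | with_reducible apply Int.ltN | with_reducible apply Int.leN | with_reducible apply Int.fin | with_reducible apply Int.unique | with_reducible apply Int.all | with_reducible apply Int.ex | with_reducible apply IntF.fst | with_reducible apply IntF.snd | with_reducible apply IntF.app | with_reducible apply IntF.ite | with_reducible apply IntF.sep | with_reducible apply IntF.lam | with_reducible apply IntF.insert | with_reducible apply IntF.singleton | with_reducible apply IntF.union | with_reducible apply IntF.inter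 | with_reducible apply IntF.sdiff | with_reducible apply IntF.isUnion | with_reducible apply IntF.iimage | with_reducible apply IntF.the | with_reducible apply IntF.irec | with_reducible_and_instances apply IntF.add | with_reducible_and_instances apply IntF.mul | with_reducible apply IntF.succ | with_reducible apply IntF.val | (with_reducible refine Int.comp ?_ ?_; assumption) | (with_reducible refine Int.comp₂ ?_ ?_ ?_; assumption) | (with_reducible refine Int.comp₃ ?_ ?_ ?_ ?_; assumption) | (with_reducible refine Int.comp₄ ?_ ?_ ?_ ?_ ?_; assumption) | (with_reducible refine IntF.comp ?_ ?_; assumption) | (with_reducible refine IntF.comp₂ ?_ ?_ ?_; assumption) | (with_reducible refine IntF.comp₃ ?_ ?_ ?_ ?_; assumption) | with_reducible apply IntF.inl | with_reducible apply IntF.inr | with_reducible apply IntF.pair))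
  have hm : ∀ x y, (x, y) ∈ sep M (fun q : α × α => (q.1, q.2) ∈ R.1 ∧ (q.2, a) ∈ R.1 ∧
      q.2 ≠ a) ↔ (x, y) ∈ R.1 ∧ (y, a) ∈ R.1 ∧ y ≠ a := fun x y => mem_sep hI
  obtain ⟨h1, h2, h3, h4, h5⟩ := R.2
  have hd : ∀ x, (x, x) ∈ sep M (fun q : α × α => (q.1, q.2) ∈ R.1 ∧ (q.2, a) ∈ R.1 ∧
      q.2 ≠ a) ↔ (x, x) ∈ R.1 ∧ (x, a) ∈ R.1 ∧ x ≠ a := fun x => hm x x
  refine ⟨⟨sep M fun q : α × α => (q.1, q.2) ∈ R.1 ∧ (q.2, a) ∈ R.1 ∧ q.2 ≠ a,
    ⟨fun x y h => ?_, fun x y h h' => ?_, fun x y h h' => ?_, fun x y z h h' => ?_,
      fun s hs => ?_⟩⟩, hm⟩
  · rw [hm] at h
    obtain ⟨h6, h7, h8⟩ := h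
    refine ⟨(hd x).2 ⟨(h1 x y h6).1, h4 _ _ _ h6 h7, ?_⟩, (hd y).2 ⟨(h1 x y h6).2, h7, h8⟩⟩
    rintro rfl
    exact h8 (h2 _ _ h7 h6)
  · rw [hm] at h h'
    exact h2 x y h.1 h'.1
  · rw [hm] at h h'
    rw [hm, hm]
    exact (h3 x y h.1 h'.1).imp (fun h6 => ⟨h6, h'.2⟩) fun h6 => ⟨h6, h.2⟩
  · rw [hm] at h h' ⊢
    exact ⟨h4 _ _ _ h.1 h'.1, h'.2⟩
  · obtain ⟨x, hx, hx'⟩ := hs
    rw [hm] at hx'
    have hIt : Int M (fun y => y ∈ s ∧ (y, a) ∈ R.1 ∧ y ≠ a) := by (repeat' (first | with_reducible exact IntF.id | with_reducible exact IntF.fst' | with_reducible exact IntF.snd' | with_reducible exact IntF.const _ | with_reducible exact Int.const _ | assumption | with_reducible apply Int.and | with_reducible apply Int.or | with_reducible apply Int.not | with_reducible apply Int.imp | with_reducible apply Int.iff | with_reducible apply Int.ne | with_reducible apply Int.eq | with_reducible apply Int.mem | with_reducible apply Int.subset | with_reducible apply Int.ltN | with_reducible apply Int.leN | with_reducible apply Int.fin | with_reducible apply Int.unique | with_reducible apply Int.all | with_reducible apply Int.ex | with_reducible apply IntF.fst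 | with_reducible apply IntF.snd | with_reducible apply IntF.app | with_reducible apply IntF.ite | with_reducible apply IntF.sep | with_reducible apply IntF.lam | with_reducible apply IntF.insert | with_reducible apply IntF.singleton | with_reducible apply IntF.union | with_reducible apply IntF.inter | with_reducible apply IntF.sdiff | with_reducible apply IntF.isUnion | with_reducible apply IntF.iimage | with_reducible apply IntF.the | with_reducible apply IntF.irec | with_reducible_and_instances apply IntF.add | with_reducible_and_instances apply IntF.mul | with_reducible apply IntF.succ | with_reducible apply IntF.val | (with_reducible refine Int.comp ?_ ?_; assumption) | (with_reducible refine Int.comp₂ ?_ ?_ ?_; assumption) | (with_reducible refine Int.comp₃ ?_ ?_ ?_ ?_; assumption) | (with_reducible refine Int.comp₄ ?_ ?_ ?_ ?_ ?_; assumption) | (with_reducible refine IntF.comp ?_ ?_; assumption) | (with_reducible refine IntF.comp₂ ?_ ?_ ?_; assumption) | (with_reducible refine IntF.comp₃ ?_ ?_ ?_ ?_; assumption) | with_reducible apply IntF.inl | with_reducible apply IntF.inr | with_reducible apply IntF.pair))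
    obtain ⟨y, h6, h7, h8⟩ := h5 (sep M fun y => y ∈ s ∧ (y, a) ∈ R.1 ∧ y ≠ a)
      ⟨x, (mem_sep hIt).2 ⟨hx, hx'.2⟩, hx'.1⟩
    rw [mem_sep hIt] at h6
    refine ⟨y, h6.1, (hd y).2 ⟨h7, h6.2⟩, fun z hz hz' => ?_⟩
    rw [hd] at hz'
    rw [hm]
    exact ⟨h8 z ((mem_sep hIt).2 ⟨hz, hz'.2⟩) hz'.1, hz'.2⟩

theorem IsIni.unique {R' R'' R : WS M α} {a : α} (h : IsIni R' R a) (h' : IsIni R'' R a) :
    R' = R'' := Subtype.ext (IPow.ext' fun q => (h q.1 q.2).trans (h' q.1 q.2).symm)

/-- An initial segment of an initial segment. -/
theorem IsIni.trans {R'' R' R : WS M α} {a b : α} (h : IsIni R' R a) (hb : (b, b) ∈ R'.1)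
    (h' : IsIni R'' R b) : IsIni R'' R' b := by
  obtain ⟨h1, h2, h3, h4, h5⟩ := R.2
  intro x y
  rw [h' x y, h x y, h y b]
  rw [h b b] at hb
  constructor
  · rintro ⟨h6, h7, h8⟩
    refine ⟨⟨h6, h4 _ _ _ h7 hb.2.1, ?_⟩, ⟨h7, hb.2⟩, h8⟩
    rintro rfl
    exact hb.2.2 (h2 _ _ hb.2.1 h7)
  · rintro ⟨⟨h6, _⟩, ⟨h7, _⟩, h8⟩
    exact ⟨h6, h7, h8⟩

variable (M α) in
/-- The operation. -/
noncomputable def hTw : Tw M (WS M α) where
  Γ s := sep M fun R => ∀ a R', (a, a) ∈ R.1 → IsIni R' R a → R' ∈ s
  b := ∅
  int := by
    have h := int_isIni (M := M) (α := α)
    (repeat' (first | with_reducible exact IntF.id | with_reducible exact IntF.fst' | with_reducible exact IntF.snd' | with_reducible exact IntF.const _ | with_reducible exact Int.const _ | assumption | with_reducible apply Int.and | with_reducible apply Int.or | with_reducible apply Int.not | with_reducible apply Int.imp | with_reducible apply Int.iff | with_reducible apply Int.ne | with_reducible apply Int.eq | with_reducible apply Int.mem | with_reducible apply Int.subset | with_reducible apply Int.ltN | with_reducible apply Int.leN | with_reducible apply Int.fin | with_reducible apply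 Int.unique | with_reducible apply Int.all | with_reducible apply Int.ex | with_reducible apply IntF.fst | with_reducible apply IntF.snd | with_reducible apply IntF.app | with_reducible apply IntF.ite | with_reducible apply IntF.sep | with_reducible apply IntF.lam | with_reducible apply IntF.insert | with_reducible apply IntF.singleton | with_reducible apply IntF.union | with_reducible apply IntF.inter | with_reducible apply IntF.sdiff | with_reducible apply IntF.isUnion | with_reducible apply IntF.iimage | with_reducible apply IntF.the | with_reducible apply IntF.irec | with_reducible_and_instances apply IntF.add | with_reducible_and_instances apply IntF.mul | with_reducible apply IntF.succ | with_reducible apply IntF.val | (with_reducible refine Int.comp ?_ ?_; assumption) | (with_reducible refine Int.comp₂ ?_ ?_ ?_; assumption) | (with_reducible refine Int.comp₃ ?_ ?_ ?_ ?_; assumption) | (with_reducible refine Int.comp₄ ?_ ?_ ?_ ?_ ?_; assumption) | (with_reducible refine IntF.comp ?_ ?_; assumption) | (with_reducible refine IntF.comp₂ ?_ ?_ ?_; assumption) | (with_reducible refine IntF.comp₃ ?_ ?_ ?_ ?_; assumption) | with_reducible apply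 IntF.inl | with_reducible apply IntF.inr | with_reducible apply IntF.pair))
  mono s t hst R hR := by
    have h := int_isIni (M := M) (α := α)
    rw [mem_sep (by (repeat' (first | with_reducible exact IntF.id | with_reducible exact IntF.fst' | with_reducible exact IntF.snd' | with_reducible exact IntF.const _ | with_reducible exact Int.const _ | assumption | with_reducible apply Int.and | with_reducible apply Int.or | with_reducible apply Int.not | with_reducible apply Int.imp | with_reducible apply Int.iff | with_reducible apply Int.ne | with_reducible apply Int.eq | with_reducible apply Int.mem | with_reducible apply Int.subset | with_reducible apply Int.ltN | with_reducible apply Int.leN | with_reducible apply Int.fin | with_reducible apply Int.unique | with_reducible apply Int.all | with_reducible apply Int.ex | with_reducible apply IntF.fst | with_reducible apply IntF.snd | with_reducible apply IntF.app | with_reducible apply IntF.ite | with_reducible apply IntF.sep | with_reducible apply IntF.lam | with_reducible apply IntF.insert | with_reducible apply IntF.singleton | with_reducible apply IntF.union | with_reducible apply IntF.inter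 | with_reducible apply IntF.sdiff | with_reducible apply IntF.isUnion | with_reducible apply IntF.iimage | with_reducible apply IntF.the | with_reducible apply IntF.irec | with_reducible_and_instances apply IntF.add | with_reducible_and_instances apply IntF.mul | with_reducible apply IntF.succ | with_reducible apply IntF.val | (with_reducible refine Int.comp ?_ ?_; assumption) | (with_reducible refine Int.comp₂ ?_ ?_ ?_; assumption) | (with_reducible refine Int.comp₃ ?_ ?_ ?_ ?_; assumption) | (with_reducible refine Int.comp₄ ?_ ?_ ?_ ?_ ?_; assumption) | (with_reducible refine IntF.comp ?_ ?_; assumption) | (with_reducible refine IntF.comp₂ ?_ ?_ ?_; assumption) | (with_reducible refine IntF.comp₃ ?_ ?_ ?_ ?_; assumption) | with_reducible apply IntF.inl | with_reducible apply IntF.inr | with_reducible apply IntF.pair)))] at hR ⊢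
    exact fun a R' ha h' => hst _ (hR a R' ha h')
  infl R hR := absurd hR (by simp)

theorem mem_hTw {s : IPow M (WS M α)} {R : WS M α} :
    R ∈ (hTw M α).Γ s ↔ ∀ a R', (a, a) ∈ R.1 → IsIni R' R a → R' ∈ s := by
  have h := int_isIni (M := M) (α := α)
  exact mem_sep (by (repeat' (first | with_reducible exact IntF.id | with_reducible exact IntF.fst' | with_reducible exact IntF.snd' | with_reducible exact IntF.const _ | with_reducible exact Int.const _ | assumption | with_reducible apply Int.and | with_reducible apply Int.or | with_reducible apply Int.not | with_reducible apply Int.imp | with_reducible apply Int.iff | with_reducible apply Int.ne | with_reducible apply Int.eq | with_reducible apply Int.mem | with_reducible apply Int.subset | with_reducible apply Int.ltN | with_reducible apply Int.leN | with_reducible apply Int.fin | with_reducible apply Int.unique | with_reducible apply Int.all | with_reducible apply Int.ex | with_reducible apply IntF.fst | with_reducible apply IntF.snd | with_reducible apply IntF.app | with_reducible apply IntF.ite | with_reducible apply IntF.sep | with_reducible apply IntF.lam | with_reducible apply IntF.insert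 | with_reducible apply IntF.singleton | with_reducible apply IntF.union | with_reducible apply IntF.inter | with_reducible apply IntF.sdiff | with_reducible apply IntF.isUnion | with_reducible apply IntF.iimage | with_reducible apply IntF.the | with_reducible apply IntF.irec | with_reducible_and_instances apply IntF.add | with_reducible_and_instances apply IntF.mul | with_reducible apply IntF.succ | with_reducible apply IntF.val | (with_reducible refine Int.comp ?_ ?_; assumption) | (with_reducible refine Int.comp₂ ?_ ?_ ?_; assumption) | (with_reducible refine Int.comp₃ ?_ ?_ ?_ ?_; assumption) | (with_reducible refine Int.comp₄ ?_ ?_ ?_ ?_ ?_; assumption) | (with_reducible refine IntF.comp ?_ ?_; assumption) | (with_reducible refine IntF.comp₂ ?_ ?_ ?_; assumption) | (with_reducible refine IntF.comp₃ ?_ ?_ ?_ ?_; assumption) | with_reducible apply IntF.inl | with_reducible apply IntF.inr | with_reducible apply IntF.pair)))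

instance instFactStg : Fact (Int M (fun s : IPow M (WS M α) => (hTw M α).Stg s)) :=
  ⟨Tw.int_Stg _⟩

variable (M α) in
/-- The Hartogs type. -/
abbrev Hrt : Type _ := {s : IPow M (WS M α) // (hTw M α).Stg s}

/-- The order of the Hartogs type. -/
def hlt (s t : Hrt M α) : Prop := s.1 ⊆ t.1 ∧ s ≠ t

theorem hlt_iwo : IWo M (hlt (M := M) (α := α)) where
  int := by
    unfold hlt
    (repeat' (first | with_reducible exact IntF.id | with_reducible exact IntF.fst' | with_reducible exact IntF.snd' | with_reducible exact IntF.const _ | with_reducible exact Int.const _ | assumption | with_reducible apply Int.and | with_reducible apply Int.or | with_reducible apply Int.not | with_reducible apply Int.imp | with_reducible apply Int.iff | with_reducible apply Int.ne | with_reducible apply Int.eq | with_reducible apply Int.mem | with_reducible apply Int.subset | with_reducible apply Int.ltN | with_reducible apply Int.leN | with_reducible apply Int.fin | with_reducible apply Int.unique | with_reducible apply Int.all | with_reducible apply Int.ex | with_reducible apply IntF.fst | with_reducible apply IntF.snd | with_reducible apply IntF.app | with_reducible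 apply IntF.ite | with_reducible apply IntF.sep | with_reducible apply IntF.lam | with_reducible apply IntF.insert | with_reducible apply IntF.singleton | with_reducible apply IntF.union | with_reducible apply IntF.inter | with_reducible apply IntF.sdiff | with_reducible apply IntF.isUnion | with_reducible apply IntF.iimage | with_reducible apply IntF.the | with_reducible apply IntF.irec | with_reducible_and_instances apply IntF.add | with_reducible_and_instances apply IntF.mul | with_reducible apply IntF.succ | with_reducible apply IntF.val | (with_reducible refine Int.comp ?_ ?_; assumption) | (with_reducible refine Int.comp₂ ?_ ?_ ?_; assumption) | (with_reducible refine Int.comp₃ ?_ ?_ ?_ ?_; assumption) | (with_reducible refine Int.comp₄ ?_ ?_ ?_ ?_ ?_; assumption) | (with_reducible refine IntF.comp ?_ ?_; assumption) | (with_reducible refine IntF.comp₂ ?_ ?_ ?_; assumption) | (with_reducible refine IntF.comp₃ ?_ ?_ ?_ ?_; assumption) | with_reducible apply IntF.inl | with_reducible apply IntF.inr | with_reducible apply IntF.pair))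
  tri s t := by
    by_cases h : s = t
    · exact Or.inr (Or.inl h)
    · rcases Tw.Stg.total s.2 t.2 with h1 | h1
      · exact Or.inr (Or.inr ⟨h1, fun h2 => h h2.symm⟩)
      · exact Or.inl ⟨h1, h⟩
  wf S hS := by
    have hI := (hTw M α).int_Stg
    obtain ⟨s, ⟨s', hs', h1⟩, h2⟩ := Tw.exists_least (T := hTw M α)
      (p := fun s => ∃ s' : Hrt M α, s' ∈ S ∧ s'.1 = s) (by (repeat' (first | with_reducible exact IntF.id | with_reducible exact IntF.fst' | with_reducible exact IntF.snd' | with_reducible exact IntF.const _ | with_reducible exact Int.const _ | assumption | with_reducible apply Int.and | with_reducible apply Int.or | with_reducible apply Int.not | with_reducible apply Int.imp | with_reducible apply Int.iff | with_reducible apply Int.ne | with_reducible apply Int.eq | with_reducible apply Int.mem | with_reducible apply Int.subset | with_reducible apply Int.ltN | with_reducible apply Int.leN | with_reducible apply Int.fin | with_reducible apply Int.unique | with_reducible apply Int.all | with_reducible apply Int.ex | with_reducible apply IntF.fst | with_reducible apply IntF.snd | with_reducible apply IntF.app | with_reducible apply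 IntF.ite | with_reducible apply IntF.sep | with_reducible apply IntF.lam | with_reducible apply IntF.insert | with_reducible apply IntF.singleton | with_reducible apply IntF.union | with_reducible apply IntF.inter | with_reducible apply IntF.sdiff | with_reducible apply IntF.isUnion | with_reducible apply IntF.iimage | with_reducible apply IntF.the | with_reducible apply IntF.irec | with_reducible_and_instances apply IntF.add | with_reducible_and_instances apply IntF.mul | with_reducible apply IntF.succ | with_reducible apply IntF.val | (with_reducible refine Int.comp ?_ ?_; assumption) | (with_reducible refine Int.comp₂ ?_ ?_ ?_; assumption) | (with_reducible refine Int.comp₃ ?_ ?_ ?_ ?_; assumption) | (with_reducible refine Int.comp₄ ?_ ?_ ?_ ?_ ?_; assumption) | (with_reducible refine IntF.comp ?_ ?_; assumption) | (with_reducible refine IntF.comp₂ ?_ ?_ ?_; assumption) | (with_reducible refine IntF.comp₃ ?_ ?_ ?_ ?_; assumption) | with_reducible apply IntF.inl | with_reducible apply IntF.inr | with_reducible apply IntF.pair)))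
      (fun s hs => by
        obtain ⟨s', _, rfl⟩ := hs
        exact s'.2) (by
        obtain ⟨s, hs⟩ := hS
        exact ⟨s.1, s, hs, rfl⟩)
    refine ⟨s', hs', fun t ht h3 => h3.2 (Subtype.ext (subset_antisymm' h3.1 ?_))⟩
    rw [h1]
    exact h2 t.1 ⟨t, ht, rfl⟩

/-- Hartogs' theorem. -/
theorem hartogs (j : Hrt M α → α) (hj : IntF M j) (hinj : ∀ s t, j s = j t → s = t) : False := by
  have hI := (hTw M α).int_Stg
  have hW := hlt_iwo (M := M) (α := α)
  have hlI := hW.int
  obtain ⟨U, hU, hU'⟩ := Tw.exists_top (T := hTw M α)
  -- the last stage contains everything
  have hall : ∀ R : WS M α, R ∈ U := by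
    intro R
    by_contra hR
    rw [← hU', mem_hTw] at hR
    push Not at hR
    obtain ⟨a₀, R₀, ha₀, hR₀, hn₀⟩ := hR
    have hii := int_isIni (M := M) (α := α)
    obtain ⟨h1, h2, h3, h4, h5⟩ := R.2
    obtain ⟨a, ha, ha', hmin⟩ := h5 (sep M fun a => ∃ R', IsIni R' R a ∧ ¬ R' ∈ U)
      ⟨a₀, (mem_sep (by (repeat' (first | with_reducible exact IntF.id | with_reducible exact IntF.fst' | with_reducible exact IntF.snd' | with_reducible exact IntF.const _ | with_reducible exact Int.const _ | assumption | with_reducible apply Int.and | with_reducible apply Int.or | with_reducible apply Int.not | with_reducible apply Int.imp | with_reducible apply Int.iff | with_reducible apply Int.ne | with_reducible apply Int.eq | with_reducible apply Int.mem | with_reducible apply Int.subset | with_reducible apply Int.ltN | with_reducible apply Int.leN | with_reducible apply Int.fin | with_reducible apply Int.unique | with_reducible apply Int.all | with_reducible apply Int.ex | with_reducible apply IntF.fst | with_reducible apply IntF.snd | with_reducible apply IntF.app | with_reducible apply IntF.ite | with_reducible apply IntF.sep | with_reducible apply IntF.lam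 | with_reducible apply IntF.insert | with_reducible apply IntF.singleton | with_reducible apply IntF.union | with_reducible apply IntF.inter | with_reducible apply IntF.sdiff | with_reducible apply IntF.isUnion | with_reducible apply IntF.iimage | with_reducible apply IntF.the | with_reducible apply IntF.irec | with_reducible_and_instances apply IntF.add | with_reducible_and_instances apply IntF.mul | with_reducible apply IntF.succ | with_reducible apply IntF.val | (with_reducible refine Int.comp ?_ ?_; assumption) | (with_reducible refine Int.comp₂ ?_ ?_ ?_; assumption) | (with_reducible refine Int.comp₃ ?_ ?_ ?_ ?_; assumption) | (with_reducible refine Int.comp₄ ?_ ?_ ?_ ?_ ?_; assumption) | (with_reducible refine IntF.comp ?_ ?_; assumption) | (with_reducible refine IntF.comp₂ ?_ ?_ ?_; assumption) | (with_reducible refine IntF.comp₃ ?_ ?_ ?_ ?_; assumption) | with_reducible apply IntF.inl | with_reducible apply IntF.inr | with_reducible apply IntF.pair)))).2 ⟨R₀, hR₀, hn₀⟩, ha₀⟩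
    rw [mem_sep (by (repeat' (first | with_reducible exact IntF.id | with_reducible exact IntF.fst' | with_reducible exact IntF.snd' | with_reducible exact IntF.const _ | with_reducible exact Int.const _ | assumption | with_reducible apply Int.and | with_reducible apply Int.or | with_reducible apply Int.not | with_reducible apply Int.imp | with_reducible apply Int.iff | with_reducible apply Int.ne | with_reducible apply Int.eq | with_reducible apply Int.mem | with_reducible apply Int.subset | with_reducible apply Int.ltN | with_reducible apply Int.leN | with_reducible apply Int.fin | with_reducible apply Int.unique | with_reducible apply Int.all | with_reducible apply Int.ex | with_reducible apply IntF.fst | with_reducible apply IntF.snd | with_reducible apply IntF.app | with_reducible apply IntF.ite | with_reducible apply IntF.sep | with_reducible apply IntF.lam | with_reducible apply IntF.insert | with_reducible apply IntF.singleton | with_reducible apply IntF.union | with_reducible apply IntF.inter | with_reducible apply IntF.sdiff | with_reducible apply IntF.isUnion | with_reducible apply IntF.iimage | with_reducible apply IntF.the | with_reducible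 apply IntF.irec | with_reducible_and_instances apply IntF.add | with_reducible_and_instances apply IntF.mul | with_reducible apply IntF.succ | with_reducible apply IntF.val | (with_reducible refine Int.comp ?_ ?_; assumption) | (with_reducible refine Int.comp₂ ?_ ?_ ?_; assumption) | (with_reducible refine Int.comp₃ ?_ ?_ ?_ ?_; assumption) | (with_reducible refine Int.comp₄ ?_ ?_ ?_ ?_ ?_; assumption) | (with_reducible refine IntF.comp ?_ ?_; assumption) | (with_reducible refine IntF.comp₂ ?_ ?_ ?_; assumption) | (with_reducible refine IntF.comp₃ ?_ ?_ ?_ ?_; assumption) | with_reducible apply IntF.inl | with_reducible apply IntF.inr | with_reducible apply IntF.pair)))] at ha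
    obtain ⟨R', hR', hn⟩ := ha
    refine hn ?_
    rw [← hU', mem_hTw]
    intro b R'' hb hR''
    by_contra hc
    obtain ⟨R₃, hR₃⟩ := exists_ini R b
    have h6 := hR''.unique (hR'.trans hb hR₃)
    have hb' := (hR' b b).1 hb
    have h7 := hmin b ((mem_sep (by (repeat' (first | with_reducible exact IntF.id | with_reducible exact IntF.fst' | with_reducible exact IntF.snd' | with_reducible exact IntF.const _ | with_reducible exact Int.const _ | assumption | with_reducible apply Int.and | with_reducible apply Int.or | with_reducible apply Int.not | with_reducible apply Int.imp | with_reducible apply Int.iff | with_reducible apply Int.ne | with_reducible apply Int.eq | with_reducible apply Int.mem | with_reducible apply Int.subset | with_reducible apply Int.ltN | with_reducible apply Int.leN | with_reducible apply Int.fin | with_reducible apply Int.unique | with_reducible apply Int.all | with_reducible apply Int.ex | with_reducible apply IntF.fst | with_reducible apply IntF.snd | with_reducible apply IntF.app | with_reducible apply IntF.ite | with_reducible apply IntF.sep | with_reducible apply IntF.lam | with_reducible apply IntF.insert |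 with_reducible apply IntF.singleton | with_reducible apply IntF.union | with_reducible apply IntF.inter | with_reducible apply IntF.sdiff | with_reducible apply IntF.isUnion | with_reducible apply IntF.iimage | with_reducible apply IntF.the | with_reducible apply IntF.irec | with_reducible_and_instances apply IntF.add | with_reducible_and_instances apply IntF.mul | with_reducible apply IntF.succ | with_reducible apply IntF.val | (with_reducible refine Int.comp ?_ ?_; assumption) | (with_reducible refine Int.comp₂ ?_ ?_ ?_; assumption) | (with_reducible refine Int.comp₃ ?_ ?_ ?_ ?_; assumption) | (with_reducible refine Int.comp₄ ?_ ?_ ?_ ?_ ?_; assumption) | (with_reducible refine IntF.comp ?_ ?_; assumption) | (with_reducible refine IntF.comp₂ ?_ ?_ ?_; assumption) | (with_reducible refine IntF.comp₃ ?_ ?_ ?_ ?_; assumption) | with_reducible apply IntF.inl | with_reducible apply IntF.inr | with_reducible apply IntF.pair)))).2 ⟨R₃, hR₃, h6 ▸ hc⟩) hb'.1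
    exact hb'.2.2 (h2 _ _ hb'.2.1 h7)
  -- the transported orders
  have hex : ∀ s : Hrt M α, ∃ R : WS M α, ∀ x y, (x, y) ∈ R.1 ↔
      ∃ t t', j t = x ∧ j t' = y ∧ (hlt t t' ∨ t = t') ∧ hlt t' s := by
    intro s
    have hI1 : Int M (fun q : α × α => ∃ t t', j t = q.1 ∧ j t' = q.2 ∧ (hlt t t' ∨ t = t') ∧
        hlt t' s) := by (repeat' (first | with_reducible exact IntF.id | with_reducible exact IntF.fst' | with_reducible exact IntF.snd' | with_reducible exact IntF.const _ | with_reducible exact Int.const _ | assumption | with_reducible apply Int.and | with_reducible apply Int.or | with_reducible apply Int.not | with_reducible apply Int.imp | with_reducible apply Int.iff | with_reducible apply Int.ne | with_reducible apply Int.eq | with_reducible apply Int.mem | with_reducible apply Int.subset | with_reducible apply Int.ltN | with_reducible apply Int.leN | with_reducible apply Int.fin | with_reducible apply Int.unique | with_reducible apply Int.all | with_reducible apply Int.ex | with_reducible apply IntF.fst | with_reducible apply IntF.snd | with_reducible apply IntF.app | with_reducible apply IntF.ite | with_reducible apply IntF.sep |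 with_reducible apply IntF.lam | with_reducible apply IntF.insert | with_reducible apply IntF.singleton | with_reducible apply IntF.union | with_reducible apply IntF.inter | with_reducible apply IntF.sdiff | with_reducible apply IntF.isUnion | with_reducible apply IntF.iimage | with_reducible apply IntF.the | with_reducible apply IntF.irec | with_reducible_and_instances apply IntF.add | with_reducible_and_instances apply IntF.mul | with_reducible apply IntF.succ | with_reducible apply IntF.val | (with_reducible refine Int.comp ?_ ?_; assumption) | (with_reducible refine Int.comp₂ ?_ ?_ ?_; assumption) | (with_reducible refine Int.comp₃ ?_ ?_ ?_ ?_; assumption) | (with_reducible refine Int.comp₄ ?_ ?_ ?_ ?_ ?_; assumption) | (with_reducible refine IntF.comp ?_ ?_; assumption) | (with_reducible refine IntF.comp₂ ?_ ?_ ?_; assumption) | (with_reducible refine IntF.comp₃ ?_ ?_ ?_ ?_; assumption) | with_reducible apply IntF.inl | with_reducible apply IntF.inr | with_reducible apply IntF.pair))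
    have hm : ∀ x y, (x, y) ∈ sep M (fun q : α × α => ∃ t t', j t = q.1 ∧ j t' = q.2 ∧
        (hlt t t' ∨ t = t') ∧ hlt t' s) ↔
        ∃ t t', j t = x ∧ j t' = y ∧ (hlt t t' ∨ t = t') ∧ hlt t' s := fun x y => mem_sep hI1
    have hd : ∀ x, (x, x) ∈ sep M (fun q : α × α => ∃ t t', j t = q.1 ∧ j t' = q.2 ∧
        (hlt t t' ∨ t = t') ∧ hlt t' s) ↔ ∃ t, j t = x ∧ hlt t s := by
      intro x
      rw [hm]
      constructor
      · rintro ⟨t, t', h1, h2, _, h3⟩
        exact ⟨t', h2, h3⟩
      · rintro ⟨t, h1, h2⟩
        exact ⟨t, t, h1, h1, Or.inr rfl, h2⟩
    refine ⟨⟨sep M (fun q : α × α => ∃ t t', j t = q.1 ∧ j t' = q.2 ∧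
        (hlt t t' ∨ t = t') ∧ hlt t' s), ⟨fun x y h => ?_, fun x y h h' => ?_, fun x y h h' => ?_,
      fun x y z h h' => ?_, fun S hS => ?_⟩⟩, hm⟩
    · rw [hm] at h
      obtain ⟨t, t', h1, h2, h3, h4⟩ := h
      refine ⟨(hd x).2 ⟨t, h1, ?_⟩, (hd y).2 ⟨t', h2, h4⟩⟩
      rcases h3 with h3 | rfl
      · exact hW.tr _ _ _ h3 h4
      · exact h4
    · rw [hm] at h h'
      obtain ⟨t, t', rfl, rfl, h3, h4⟩ := h
      obtain ⟨r, r', h5, h6, h7, h8⟩ := h'
      obtain rfl := hinj _ _ h5
      obtain rfl := hinj _ _ h6
      rcases h3 with h3 | rfl
      · rcases h7 with h7 | rfl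
        · exact (hW.asymm h3 h7).elim
        · rfl
      · rfl
    · rw [hd] at h h'
      obtain ⟨t, rfl, h1⟩ := h
      obtain ⟨t', rfl, h2⟩ := h'
      rw [hm, hm]
      rcases hW.tri t t' with h3 | rfl | h3
      · exact Or.inl ⟨t, t', rfl, rfl, Or.inl h3, h2⟩
      · exact Or.inl ⟨t, t, rfl, rfl, Or.inr rfl, h2⟩
      · exact Or.inr ⟨t', t, rfl, rfl, Or.inl h3, h1⟩
    · rw [hm] at h h' ⊢
      obtain ⟨t, t', rfl, rfl, h3, h4⟩ := h
      obtain ⟨r, r', h5, rfl, h7, h8⟩ := h'
      obtain rfl := hinj _ _ h5
      refine ⟨t, r', rfl, rfl, ?_, h8⟩
      rcases h3 with h3 | rfl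
      · rcases h7 with h7 | rfl
        · exact Or.inl (hW.tr _ _ _ h3 h7)
        · exact Or.inl h3
      · exact h7
    · obtain ⟨x, hx, hx'⟩ := hS
      rw [hd] at hx'
      obtain ⟨t, rfl, ht⟩ := hx'
      obtain ⟨t', ⟨h1, h2⟩, h3⟩ := hW.least (p := fun t => j t ∈ S ∧ hlt t s) (by (repeat' (first | with_reducible exact IntF.id | with_reducible exact IntF.fst' | with_reducible exact IntF.snd' | with_reducible exact IntF.const _ | with_reducible exact Int.const _ | assumption | with_reducible apply Int.and | with_reducible apply Int.or | with_reducible apply Int.not | with_reducible apply Int.imp | with_reducible apply Int.iff | with_reducible apply Int.ne | with_reducible apply Int.eq | with_reducible apply Int.mem | with_reducible apply Int.subset | with_reducible apply Int.ltN | with_reducible apply Int.leN | with_reducible apply Int.fin | with_reducible apply Int.unique | with_reducible apply Int.all | with_reducible apply Int.ex | with_reducible apply IntF.fst | with_reducible apply IntF.snd | with_reducible apply IntF.app | with_reducible apply IntF.ite | with_reducible apply IntF.sep | with_reducible apply IntF.lam | with_reducible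 apply IntF.insert | with_reducible apply IntF.singleton | with_reducible apply IntF.union | with_reducible apply IntF.inter | with_reducible apply IntF.sdiff | with_reducible apply IntF.isUnion | with_reducible apply IntF.iimage | with_reducible apply IntF.the | with_reducible apply IntF.irec | with_reducible_and_instances apply IntF.add | with_reducible_and_instances apply IntF.mul | with_reducible apply IntF.succ | with_reducible apply IntF.val | (with_reducible refine Int.comp ?_ ?_; assumption) | (with_reducible refine Int.comp₂ ?_ ?_ ?_; assumption) | (with_reducible refine Int.comp₃ ?_ ?_ ?_ ?_; assumption) | (with_reducible refine Int.comp₄ ?_ ?_ ?_ ?_ ?_; assumption) | (with_reducible refine IntF.comp ?_ ?_; assumption) | (with_reducible refine IntF.comp₂ ?_ ?_ ?_; assumption) | (with_reducible refine IntF.comp₃ ?_ ?_ ?_ ?_; assumption) | with_reducible apply IntF.inl | with_reducible apply IntF.inr | with_reducible apply IntF.pair)))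
        ⟨t, hx, ht⟩
      refine ⟨j t', h1, (hd _).2 ⟨t', rfl, h2⟩, fun y hy hy' => ?_⟩
      rw [hd] at hy'
      obtain ⟨r, rfl, hr⟩ := hy'
      rw [hm]
      refine ⟨t', r, rfl, rfl, ?_, hr⟩
      rcases hW.tri t' r with h4 | h4 | h4
      · exact Or.inl h4
      · exact Or.inr h4
      · exact absurd h4 (h3 r ⟨hy, hr⟩)
  -- they are not in the stages
  obtain ⟨R, hR⟩ := hex ⟨U, hU⟩
  obtain ⟨s, ⟨R, hR, hRs⟩, hmin⟩ := hW.least (p := fun s : Hrt M α => ∃ R : WS M α,
    (∀ x y, (x, y) ∈ R.1 ↔ ∃ t t', j t = x ∧ j t' = y ∧ (hlt t t' ∨ t = t') ∧ hlt t' s) ∧
      R ∈ s.1) (by (repeat' (first | with_reducible exact IntF.id | with_reducible exact IntF.fst' | with_reducible exact IntF.snd' | with_reducible exact IntF.const _ | with_reducible exact Int.const _ | assumption | with_reducible apply Int.and | with_reducible apply Int.or | with_reducible apply Int.not | with_reducible apply Int.imp | with_reducible apply Int.iff | with_reducible apply Int.ne | with_reducible apply Int.eq | with_reducible apply Int.mem | with_reducible apply Int.subset | with_reducible apply Int.ltN | with_reducible apply Int.leN | with_reducible apply Int.fin | with_reducible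 apply Int.unique | with_reducible apply Int.all | with_reducible apply Int.ex | with_reducible apply IntF.fst | with_reducible apply IntF.snd | with_reducible apply IntF.app | with_reducible apply IntF.ite | with_reducible apply IntF.sep | with_reducible apply IntF.lam | with_reducible apply IntF.insert | with_reducible apply IntF.singleton | with_reducible apply IntF.union | with_reducible apply IntF.inter | with_reducible apply IntF.sdiff | with_reducible apply IntF.isUnion | with_reducible apply IntF.iimage | with_reducible apply IntF.the | with_reducible apply IntF.irec | with_reducible_and_instances apply IntF.add | with_reducible_and_instances apply IntF.mul | with_reducible apply IntF.succ | with_reducible apply IntF.val | (with_reducible refine Int.comp ?_ ?_; assumption) | (with_reducible refine Int.comp₂ ?_ ?_ ?_; assumption) | (with_reducible refine Int.comp₃ ?_ ?_ ?_ ?_; assumption) | (with_reducible refine Int.comp₄ ?_ ?_ ?_ ?_ ?_; assumption) | (with_reducible refine IntF.comp ?_ ?_; assumption) | (with_reducible refine IntF.comp₂ ?_ ?_ ?_; assumption) | (with_reducible refine IntF.comp₃ ?_ ?_ ?_ ?_; assumption) | with_reducible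 apply IntF.inl | with_reducible apply IntF.inr | with_reducible apply IntF.pair))) ⟨_, R, hR, hall R⟩
  obtain ⟨s', hs', hRs', hss⟩ := Tw.exists_first (T := hTw M α) s.2 hRs
  rcases hs' with rfl | ⟨t, ht, rfl, hne⟩
  · exact absurd (show R ∈ (∅ : IPow M (WS M α)) from hRs') (by simp)
  · have hts : hlt (⟨t, ht⟩ : Hrt M α) s := by
      refine ⟨fun z hz => hss z (ht.infl z hz), fun h => hne ?_⟩
      have h1 : t = s.1 := congrArg Subtype.val h
      exact subset_antisymm' ht.infl (h1 ▸ hss)
    obtain ⟨R', hR'⟩ := hex ⟨t, ht⟩
    refine hmin ⟨t, ht⟩ ⟨R', hR', ?_⟩ hts
    rw [mem_hTw] at hRs'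
    refine hRs' (j ⟨t, ht⟩) R' ((hR _ _).2 ⟨_, _, rfl, rfl, Or.inr rfl, hts⟩) fun x y => ?_
    rw [hR', hR, hR]
    constructor
    · rintro ⟨r, r', rfl, rfl, h3, h4⟩
      refine ⟨⟨r, r', rfl, rfl, h3, hW.tr _ _ _ h4 hts⟩, ⟨r', _, rfl, rfl, Or.inl h4, hts⟩,
        fun h => ?_⟩
      rw [hinj _ _ h] at h4
      exact hW.irr _ h4
    · rintro ⟨⟨r, r', rfl, rfl, h3, h4⟩, ⟨q, q', h5, h6, h7, h8⟩, h9⟩
      obtain rfl := hinj _ _ h5
      obtain rfl := hinj _ _ h6
      refine ⟨r, _, rfl, rfl, h3, ?_⟩
      rcases h7 with h7 | h7
      · exact h7
      · exact absurd (congrArg j h7) h9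

end Pool.Agent.R596
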