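import Mathlib

/-!
# Levels, vertices, facts: cardinalities
-/

set_option autoImplicit false
set_option linter.all false

namespace Pool.Agent.R596.NW

open Cardinal Ordinal

/-- The levels: the countable ordinals. -/
abbrev Lv : Type := (Ordinal.omega 1).ToType

/-- The number of a level. -/
noncomputable def lv (α : Lv) : Ordinal.{0} := Ordinal.typein (α := Lv) (· < ·) α

/-- The ordinal of a level. -/
noncomputable def kap (α : Lv) : Ordinal.{0} := Ordinal.omega (lv α + 1)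

/-- The type of the elements of the ordinal of a level. -/
abbrev K (α : Lv) : Type := (kap α).ToType

theorem mk_K (α : Lv) : #(K α) = ℵ_ (lv α + 1) := by
  rw [mk_toType, kap, Ordinal.card_omega]

theorem lv_lt {α β : Lv} : lv α < lv β ↔ α < β := by
  unfold lv
  exact Ordinal.typein_lt_typein (· < ·)

theorem lv_lt_omega1 (α : Lv) : lv α < Ordinal.omega 1 := by
  have h := Ordinal.typein_lt_type (α := Lv) (· < ·) α
  rwa [Ordinal.type_toType] at h

theorem countable_lt (α : Lv) : #{β : Lv // β < α} ≤ ℵ₀ := by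
  have h4 : (lv α).card = #{β : Lv // β < α} :=
    (Ordinal.card_typein (r := ((· < ·) : Lv → Lv → Prop)) α).symm
  rw [← h4]
  have h5 := lv_lt_omega1 α
  rw [← Cardinal.ord_aleph, Cardinal.lt_ord] at h5
  rw [← Order.lt_succ_iff]
  have h6 : Order.succ (ℵ₀ : Cardinal.{0}) = ℵ_ 1 := by
    rw [← Cardinal.aleph_zero, ← Cardinal.aleph_succ, Ordinal.succ_zero]
  rwa [h6]

/-- Countably many levels are bounded. -/
theorem exists_bd (f : ℕ → Lv) : ∃ α, ∀ n, f n ≤ α := by
  by_contra hc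
  push Not at hc
  have h1 : (Set.univ : Set Lv) = ⋃ n, {x | x ≤ f n} := by
    ext x
    simp only [Set.mem_univ, Set.mem_iUnion, true_iff]
    obtain ⟨n, hn⟩ := hc x
    exact ⟨n, hn.le⟩
  have h2 : (Set.univ : Set Lv).Countable := by
    rw [h1]
    refine Set.countable_iUnion fun n => ?_
    have h3 : {x : Lv | x ≤ f n} = insert (f n) (Set.Iio (f n)) := by
      ext x
      simp [le_iff_eq_or_lt]
    rw [h3]
    refine Set.Countable.insert _ ?_
    rw [← Cardinal.le_aleph0_iff_set_countable]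
    exact countable_lt (f n)
  have h3 : #Lv = ℵ_ 1 := by
    rw [mk_toType, Ordinal.card_omega]
  rw [Set.countable_univ_iff, ← Cardinal.mk_le_aleph0_iff, h3] at h2
  exact absurd h2 (not_le.2 Cardinal.aleph0_lt_aleph_one)

theorem exists_gt (α : Lv) : ∃ β, α < β := by
  have h : Order.succ (lv α) < Ordinal.type (α := Lv) (· < ·) := by
    rw [Ordinal.type_toType]
    exact (Cardinal.isSuccLimit_omega 1).succ_lt (lv_lt_omega1 α)
  refine ⟨Ordinal.enum (α := Lv) (· < ·) ⟨Order.succ (lv α), h⟩, ?_⟩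
  rw [← lv_lt]
  have h2 : lv (Ordinal.enum (α := Lv) (· < ·) ⟨Order.succ (lv α), h⟩) = Order.succ (lv α) :=
    Ordinal.typein_enum _ h
  rw [h2]
  exact Order.lt_succ _

/-- The vertices. -/
abbrev V : Type := Σ α : Lv, K α × ℕ

/-- The values of the collapsing functions. -/
abbrev WW : Type := Σ α : Lv, K α

/-- The facts. -/
inductive Fact : Type
  | edge (v w : V) (b : Bool)
  | clq (i : ℕ) (v : V)
  | col (i n : ℕ) (x : WW)

/-- The facts about levels below `α`. -/
def Low (α : Lv) : Fact → Prop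
  | .edge _ _ _ => False
  | .clq _ v => v.1 < α
  | .col _ _ x => x.1 < α

theorem mk_sig (α : Lv) : #(Σ β : {β : Lv // β < α}, K β.1) ≤ ℵ_ (lv α) := by
  rw [mk_sigma]
  have h1 : ∀ β : {β : Lv // β < α}, #(K β.1) ≤ ℵ_ (lv α) := by
    intro β
    rw [mk_K, Cardinal.aleph_le_aleph]
    exact Order.add_one_le_of_lt (lv_lt.2 β.2)
  calc Cardinal.sum (fun β : {β : Lv // β < α} => #(K β.1))
      ≤ Cardinal.sum (fun _ : {β : Lv // β < α} => ℵ_ (lv α)) := Cardinal.sum_le_sum _ _ h1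
    _ = #{β : Lv // β < α} * ℵ_ (lv α) := by rw [Cardinal.sum_const']
    _ ≤ ℵ₀ * ℵ_ (lv α) := by gcongr; exact countable_lt α
    _ = ℵ_ (lv α) := Cardinal.aleph0_mul_eq (Cardinal.aleph0_le_aleph _)

theorem mk_low (α : Lv) : #{t : Fact // Low α t} ≤ ℵ_ (lv α) := by
  classical
  let S := Σ β : {β : Lv // β < α}, K β.1
  let f : {t : Fact // Low α t} → (ℕ × ℕ × S) ⊕ (ℕ × ℕ × S) := fun t =>
    match t with
    | ⟨.edge _ _ _, h⟩ => False.elim h
    | ⟨.clq i v, h⟩ => Sum.inl (i, v.2.2, ⟨⟨v.1, h⟩, v.2.1⟩)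
    | ⟨.col i n x, h⟩ => Sum.inr (i, n, ⟨⟨x.1, h⟩, x.2⟩)
  have hf : Function.Injective f := by
    rintro ⟨t, ht⟩ ⟨s, hs⟩ h
    rcases t with ⟨v, w, b⟩ | ⟨i, ⟨a, x, k⟩⟩ | ⟨i, n, ⟨a, x⟩⟩
    · exact False.elim ht
    · rcases s with ⟨v, w, b⟩ | ⟨j, ⟨a', x', k'⟩⟩ | ⟨j, n, ⟨a', x'⟩⟩
      · exact False.elim hs
      · have h5 := Sum.inl_injective h
        have h6 : i = j := congrArg (fun q : ℕ × ℕ × S => q.1) h5
        have h7 : k = k' := congrArg (fun q : ℕ × ℕ × S => q.2.1) h5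
        have h8 : (⟨⟨a, ht⟩, x⟩ : S) = ⟨⟨a', hs⟩, x'⟩ :=
          congrArg (fun q : ℕ × ℕ × S => q.2.2) h5
        have h9 : a = a' := congrArg (fun q : S => q.1.1) h8
        subst h9 h6 h7
        have h10 : x = x' := eq_of_heq (Sigma.mk.inj h8).2
        rw [h10]
      · simp [f] at h
    · rcases s with ⟨v, w, b⟩ | ⟨j, ⟨a', x', k'⟩⟩ | ⟨j, n', ⟨a', x'⟩⟩
      · exact False.elim hs
      · simp [f] at h
      · have h5 := Sum.inr_injective h
        have h6 : i = j := congrArg (fun q : ℕ × ℕ × S => q.1) h5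
        have h7 : n = n' := congrArg (fun q : ℕ × ℕ × S => q.2.1) h5
        have h8 : (⟨⟨a, ht⟩, x⟩ : S) = ⟨⟨a', hs⟩, x'⟩ :=
          congrArg (fun q : ℕ × ℕ × S => q.2.2) h5
        have h9 : a = a' := congrArg (fun q : S => q.1.1) h8
        subst h9 h6 h7
        have h10 : x = x' := eq_of_heq (Sigma.mk.inj h8).2
        rw [h10]
  have h1 : #(ℕ × ℕ × S) ≤ ℵ_ (lv α) := by
    simp only [mk_prod, Cardinal.mk_nat, Cardinal.lift_id]
    calc ℵ₀ * (ℵ₀ * #S) ≤ ℵ₀ * (ℵ₀ * ℵ_ (lv α)) := by gcongr; exact mk_sig α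
      _ = ℵ_ (lv α) := by
        rw [Cardinal.aleph0_mul_eq (Cardinal.aleph0_le_aleph _),
          Cardinal.aleph0_mul_eq (Cardinal.aleph0_le_aleph _)]
  refine (Cardinal.mk_le_of_injective hf).trans ?_
  rw [mk_sum, Cardinal.lift_id]
  exact (add_le_add h1 h1).trans (Cardinal.add_eq_self (Cardinal.aleph0_le_aleph _)).le

theorem mk_code (α : Lv) : #(Finset {t : Fact // Low α t} × ℕ × ℕ) < #(K α) := by
  have h1 : #(Finset {t : Fact // Low α t}) ≤ ℵ_ (lv α) := by
    rcases finite_or_infinite {t : Fact // Low α t} with h | h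
    · have : Finite (Finset {t : Fact // Low α t}) := inferInstance
      exact (Cardinal.lt_aleph0_of_finite _).le.trans (Cardinal.aleph0_le_aleph _)
    · rw [Cardinal.mk_finset_of_infinite]
      exact mk_low α
  simp only [mk_K, mk_prod, Cardinal.mk_nat, Cardinal.lift_id, Cardinal.aleph0_mul_aleph0]
  calc #(Finset {t : Fact // Low α t}) * ℵ₀ ≤ ℵ_ (lv α) * ℵ₀ := by gcongr
    _ = ℵ_ (lv α) := Cardinal.mul_aleph0_eq (Cardinal.aleph0_le_aleph _)
    _ < ℵ_ (lv α + 1) := Cardinal.aleph_lt_aleph.2 (Order.lt_add_one_iff.2 le_rfl)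

/-- An uncountable family has infinitely many members with the same code. -/
theorem exists_fib {I : Type} {α : Lv} (hI : #(K α) ≤ #I)
    (f : I → Finset {t : Fact // Low α t} × ℕ × ℕ) : ∃ c, {x | f x = c}.Infinite := by
  have h := (mk_code α).trans_le hI
  obtain ⟨c, hc⟩ := Cardinal.exists_infinite_fiber' f h
  exact ⟨c, Set.infinite_coe_iff.1 hc⟩

/-- Finite functions of bounded size that are pairwise in conflict: there are only finitely
many. -/
theorem fc {I Z : Type} (m : ℕ) (J : Set I) (F : I → Finset (Z × Bool))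
    (h1 : ∀ x ∈ J, (F x).card ≤ m) (h2 : ∀ x ∈ J, ∀ z b, (z, b) ∈ F x → (z, !b) ∉ F x)
    (h3 : ∀ x ∈ J, ∀ y ∈ J, x ≠ y → ∃ z b, (z, b) ∈ F x ∧ (z, !b) ∈ F y) : J.Finite := by
  classical
  induction m generalizing J F with
  | zero =>
    refine Set.Subsingleton.finite fun x hx y hy => ?_
    by_contra hxy
    obtain ⟨z, b, hz, -⟩ := h3 x hx y hy hxy
    have := Finset.card_eq_zero.1 (Nat.le_zero.1 (h1 x hx))
    rw [this] at hz
    simp at hz
  | succ m ih =>
    rcases J.eq_empty_or_nonempty with rfl | ⟨x₀, hx₀⟩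
    · exact Set.finite_empty
    have hsub : J ⊆ insert x₀ (⋃ t ∈ F x₀, {y ∈ J | (t.1, !t.2) ∈ F y}) := by
      intro y hy
      by_cases hyx : y = x₀
      · exact Or.inl hyx
      · obtain ⟨z, b, h4, h5⟩ := h3 x₀ hx₀ y hy (Ne.symm hyx)
        refine Or.inr ?_
        simp only [Set.mem_iUnion]
        exact ⟨(z, b), h4, hy, h5⟩
    refine Set.Finite.subset (Set.Finite.insert _ ?_) hsub
    refine Set.Finite.biUnion (Finset.finite_toSet _) fun t ht => ?_
    refine ih {y ∈ J | (t.1, !t.2) ∈ F y} (fun y => (F y).erase (t.1, !t.2)) ?_ ?_ ?_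
    · rintro y ⟨hy, hyt⟩
      have := h1 y hy
      have h4 := Finset.card_erase_add_one hyt
      change ((F y).erase (t.1, !t.2)).card ≤ m
      omega
    · rintro y ⟨hy, hyt⟩ z b hz hz'
      exact h2 y hy z b (Finset.mem_of_mem_erase hz) (Finset.mem_of_mem_erase hz')
    · rintro y ⟨hy, hyt⟩ y' ⟨hy', hyt'⟩ hne
      obtain ⟨z, b, h4, h5⟩ := h3 y hy y' hy' hne
      refine ⟨z, b, Finset.mem_erase.2 ⟨?_, h4⟩, Finset.mem_erase.2 ⟨?_, h5⟩⟩
      · intro he
        rw [he] at h4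
        obtain ⟨rfl, rfl⟩ := Prod.ext_iff.1 he
        exact h2 y' hy' t.1 (!t.2) hyt' h5
      · intro he
        have he' : z = t.1 ∧ (!b) = !t.2 := Prod.ext_iff.1 he
        have hb : b = t.2 := by
          have := he'.2
          cases b <;> cases ht2 : t.2 <;> simp_all
        rw [he'.1, hb] at h4
        exact h2 y hy t.1 t.2 h4 hyt

end Pool.Agent.R596.NW
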