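import Pool.Agent.R596.NwCard

/-!
# Conditions, automorphisms and amalgamation
-/

set_option autoImplicit false
set_option linter.all false

namespace Pool.Agent.R596.NW

open Cardinal Ordinal

open Classical in
/-- Consistent sets of facts. -/
def Con (F : Finset Fact) : Prop :=
  (∀ v w, Fact.edge v w true ∈ F → Fact.edge v w false ∉ F) ∧
  (∀ i v w, Fact.clq i v ∈ F → Fact.clq i w ∈ F → v.1 = w.1 → v ≠ w →
    Fact.edge v w true ∈ F) ∧
  (∀ i n x y, Fact.col i n x ∈ F → Fact.col i n y ∈ F → x.1 = y.1 → x = y)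

/-- The conditions. -/
structure Cd : Type where
  F : Finset Fact
  con : Con F

instance : Preorder Cd where
  le p q := q.F ⊆ p.F
  le_refl _ := Finset.Subset.refl _
  le_trans _ _ _ h1 h2 := Finset.Subset.trans h2 h1

theorem le_def {p q : Cd} : p ≤ q ↔ q.F ⊆ p.F := Iff.rfl

instance : OrderTop Cd where
  top := ⟨∅, by
    refine ⟨fun _ _ h => ?_, fun _ _ _ h => ?_, fun _ _ _ _ h => ?_⟩ <;> simp at h⟩
  le_top p := by
    rw [le_def]
    exact Finset.empty_subset _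

theorem top_F : (⊤ : Cd).F = ∅ := rfl

/-- The group. -/
abbrev Gm : Type := (Lv → Equiv.Perm ℕ) × (Lv → Equiv.Perm ℕ)

/-- The action on the facts. -/
def fa (g : Gm) : Fact → Fact
  | .edge v w b => .edge v w b
  | .clq i v => .clq (g.1 v.1 i) v
  | .col i n x => .col (g.2 x.1 i) n x

theorem fa_mul (g h : Gm) (t : Fact) : fa (g * h) t = fa g (fa h t) := by
  rcases t with ⟨v, w, b⟩ | ⟨i, v⟩ | ⟨i, n, x⟩ <;> rfl

theorem fa_one (t : Fact) : fa 1 t = t := by
  rcases t with ⟨v, w, b⟩ | ⟨i, v⟩ | ⟨i, n, x⟩ <;> rfl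

theorem fa_inj (g : Gm) : Function.Injective (fa g) := by
  intro s t h
  have h1 := congrArg (fa g⁻¹) h
  rwa [← fa_mul, ← fa_mul, inv_mul_cancel, fa_one, fa_one] at h1

theorem fa_inv (g : Gm) (t : Fact) : fa g (fa g⁻¹ t) = t := by
  rw [← fa_mul, mul_inv_cancel, fa_one]

theorem con_map {F : Finset Fact} (h : Con F) (g : Gm) : Con (F.map ⟨fa g, fa_inj g⟩) := by
  have he : ∀ v w b, Fact.edge v w b ∈ F.map ⟨fa g, fa_inj g⟩ ↔ Fact.edge v w b ∈ F := by
    intro v w b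
    simp only [Finset.mem_map, Function.Embedding.coeFn_mk]
    constructor
    · rintro ⟨t, ht, h1⟩
      rcases t with ⟨v', w', b'⟩ | ⟨i, v'⟩ | ⟨i, n, x⟩
      · simp only [fa, Fact.edge.injEq] at h1
        obtain ⟨rfl, rfl, rfl⟩ := h1
        exact ht
      · simp [fa] at h1
      · simp [fa] at h1
    · intro h1
      exact ⟨_, h1, rfl⟩
  have hc : ∀ i v, Fact.clq i v ∈ F.map ⟨fa g, fa_inj g⟩ → ∃ j, i = g.1 v.1 j ∧
      Fact.clq j v ∈ F := by
    intro i v h1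
    simp only [Finset.mem_map, Function.Embedding.coeFn_mk] at h1
    obtain ⟨t, ht, h1⟩ := h1
    rcases t with ⟨v', w', b'⟩ | ⟨j, v'⟩ | ⟨j, n, x⟩
    · simp [fa] at h1
    · simp only [fa, Fact.clq.injEq] at h1
      obtain ⟨h2, rfl⟩ := h1
      exact ⟨j, h2.symm, ht⟩
    · simp [fa] at h1
  have hl : ∀ i n x, Fact.col i n x ∈ F.map ⟨fa g, fa_inj g⟩ → ∃ j, i = g.2 x.1 j ∧
      Fact.col j n x ∈ F := by
    intro i n x h1
    simp only [Finset.mem_map, Function.Embedding.coeFn_mk] at h1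
    obtain ⟨t, ht, h1⟩ := h1
    rcases t with ⟨v', w', b'⟩ | ⟨j, v'⟩ | ⟨j, m, y⟩
    · simp [fa] at h1
    · simp [fa] at h1
    · simp only [fa, Fact.col.injEq] at h1
      obtain ⟨h2, rfl, rfl⟩ := h1
      exact ⟨j, h2.symm, ht⟩
  refine ⟨fun v w h1 h2 => ?_, fun i v w h1 h2 h3 h4 => ?_, fun i n x y h1 h2 h3 => ?_⟩
  · exact h.1 v w ((he _ _ _).1 h1) ((he _ _ _).1 h2)
  · obtain ⟨j, h5, h6⟩ := hc _ _ h1
    obtain ⟨k, h7, h8⟩ := hc _ _ h2
    have h9 : j = k := by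
      rw [h5, h3] at h7
      exact (g.1 w.1).injective h7
    subst h9
    exact (he _ _ _).2 (h.2.1 j v w h6 h8 h3 h4)
  · obtain ⟨j, h5, h6⟩ := hl _ _ _ h1
    obtain ⟨k, h7, h8⟩ := hl _ _ _ h2
    have h9 : j = k := by
      rw [h5, h3] at h7
      exact (g.2 y.1).injective h7
    subst h9
    exact h.2.2 j n x y h6 h8 h3

/-- The action on the conditions. -/
def sm (g : Gm) (p : Cd) : Cd := ⟨p.F.map ⟨fa g, fa_inj g⟩, con_map p.con g⟩

theorem mem_sm {g : Gm} {p : Cd} {t : Fact} : fa g t ∈ (sm g p).F ↔ t ∈ p.F := by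
  unfold sm
  simp only [Finset.mem_map, Function.Embedding.coeFn_mk]
  constructor
  · rintro ⟨s, hs, h⟩
    rw [← fa_inj g h]
    exact hs
  · intro h
    exact ⟨t, h, rfl⟩

theorem mem_sm' {g : Gm} {p : Cd} {t : Fact} : t ∈ (sm g p).F ↔ fa g⁻¹ t ∈ p.F := by
  have h := mem_sm (g := g) (p := p) (t := fa g⁻¹ t)
  rw [fa_inv] at h
  exact h

theorem Cd.ext' {p q : Cd} (h : ∀ t, t ∈ p.F ↔ t ∈ q.F) : p = q := by
  obtain ⟨F, hF⟩ := p
  obtain ⟨F', hF'⟩ := q
  have : F = F' := Finset.ext h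
  subst this
  rfl

theorem sm_one (p : Cd) : sm 1 p = p := Cd.ext' fun t => by
  rw [mem_sm', inv_one, fa_one]

theorem sm_mul (g h : Gm) (p : Cd) : sm (g * h) p = sm g (sm h p) := Cd.ext' fun t => by
  rw [mem_sm', mem_sm', mem_sm', mul_inv_rev, fa_mul]

theorem sm_mono {g : Gm} {p q : Cd} (h : p ≤ q) : sm g p ≤ sm g q := by
  intro t ht
  rw [mem_sm'] at ht ⊢
  exact h ht

theorem sm_le {g : Gm} {p q : Cd} : sm g p ≤ sm g q ↔ p ≤ q := by
  refine ⟨fun h => ?_, sm_mono⟩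
  have h1 := sm_mono (g := g⁻¹) h
  rwa [← sm_mul, ← sm_mul, inv_mul_cancel, sm_one, sm_one] at h1

theorem sm_top (g : Gm) : sm g ⊤ = ⊤ := Cd.ext' fun t => by
  rw [mem_sm', top_F]
  simp

/-- The automorphisms that fix the levels below `α`. -/
def Fx (α : Lv) : Subgroup Gm where
  carrier := {g | ∀ β, β < α → g.1 β = 1 ∧ g.2 β = 1}
  mul_mem' := by
    intro g h hg hh β hβ
    exact ⟨by rw [Prod.fst_mul, Pi.mul_apply, (hg β hβ).1, (hh β hβ).1, one_mul],
      by rw [Prod.snd_mul, Pi.mul_apply, (hg β hβ).2, (hh β hβ).2, one_mul]⟩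
  one_mem' := fun β _ => ⟨rfl, rfl⟩
  inv_mem' := by
    intro g hg β hβ
    exact ⟨by rw [Prod.fst_inv, Pi.inv_apply, (hg β hβ).1, inv_one],
      by rw [Prod.snd_inv, Pi.inv_apply, (hg β hβ).2, inv_one]⟩

theorem mem_Fx {α : Lv} {g : Gm} : g ∈ Fx α ↔ ∀ β, β < α → g.1 β = 1 ∧ g.2 β = 1 := Iff.rfl

theorem Fx_anti {α β : Lv} (h : α ≤ β) : Fx β ≤ Fx α := fun _ hg γ hγ => hg γ (hγ.trans_le h)

/-- The vertices in the support. -/
def Sp (p : Cd) (v : V) : Prop :=
  (∃ w b, Fact.edge v w b ∈ p.F ∨ Fact.edge w v b ∈ p.F) ∨ ∃ i, Fact.clq i v ∈ p.F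

/-- Swapping `i` and `i + N` for `i < N`. -/
def swf (N i : ℕ) : ℕ := if i < N then i + N else if i < N + N then i - N else i

theorem swf_swf (N i : ℕ) : swf N (swf N i) = i := by
  unfold swf
  split_ifs <;> omega

/-- Swapping `i` and `i + N` for `i < N`. -/
def sw (N : ℕ) : Equiv.Perm ℕ := ⟨swf N, swf N, swf_swf N, swf_swf N⟩

/-- Swapping `i` and `i + N` for `0 < i < N`. -/
def swf' (N i : ℕ) : ℕ :=
  if i = 0 then 0 else if i < N then i + N else if N < i ∧ i < N + N then i - N else i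

theorem swf'_swf' (N i : ℕ) : swf' N (swf' N i) = i := by
  unfold swf'
  split_ifs <;> omega

/-- Swapping `i` and `i + N` for `0 < i < N`. -/
def sw' (N : ℕ) : Equiv.Perm ℕ := ⟨swf' N, swf' N, swf'_swf' N, swf'_swf' N⟩

theorem sw_ge {N i : ℕ} (h : i < N) : N ≤ sw N i := by
  change N ≤ swf N i
  unfold swf
  rw [if_pos h]
  omega

theorem sw'_ge {N i : ℕ} (h : i < N) (h0 : i ≠ 0) : N ≤ sw' N i := by
  change N ≤ swf' N i
  unfold swf'
  rw [if_neg h0, if_pos h]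
  omega

theorem sw'_zero (N : ℕ) : sw' N 0 = 0 := rfl

/-- The index in a fact. -/
def ix : Fact → ℕ
  | .edge _ _ _ => 0
  | .clq i _ => i
  | .col i _ _ => i

open Classical in
/-- The moving automorphism. -/
noncomputable def mv (N : ℕ) (α : Lv) (c : Bool) : Gm :=
  (fun β => if β < α then 1 else if β = α ∧ c = true then sw' N else sw N,
    fun β => if β < α then 1 else sw N)

theorem mv_mem (N : ℕ) (α : Lv) (c : Bool) : mv N α c ∈ Fx α := fun β hβ =>
  ⟨if_pos hβ, if_pos hβ⟩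

theorem mv_zero (N : ℕ) (α : Lv) : (mv N α true).1 α 0 = 0 := by
  change (if α < α then 1 else if α = α ∧ true = true then sw' N else sw N : Equiv.Perm ℕ) 0 = 0
  rw [if_neg (lt_irrefl _), if_pos ⟨rfl, rfl⟩]
  rfl

open Classical in
/-- The new edges. -/
noncomputable def nE (A B : Finset V) (c : Bool) : Finset Fact :=
  ((A ∪ B) ×ˢ (A ∪ B)).filter (fun q => ((q.1 ∈ A ∧ q.2 ∈ B) ∨ (q.1 ∈ B ∧ q.2 ∈ A)) ∧ q.1 ≠ q.2)
    |>.image fun q => Fact.edge q.1 q.2 c

theorem mem_nE {A B : Finset V} {c : Bool} {t : Fact} : t ∈ nE A B c ↔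
    ∃ v w, ((v ∈ A ∧ w ∈ B) ∨ (v ∈ B ∧ w ∈ A)) ∧ v ≠ w ∧ t = Fact.edge v w c := by
  unfold nE
  simp only [Finset.mem_image, Finset.mem_filter, Finset.mem_product, Finset.mem_union]
  constructor
  · rintro ⟨q, ⟨-, h1, h2⟩, rfl⟩
    exact ⟨q.1, q.2, h1, h2, rfl⟩
  · rintro ⟨v, w, h1, h2, rfl⟩
    refine ⟨(v, w), ⟨?_, h1, h2⟩, rfl⟩
    rcases h1 with h | h
    · exact ⟨Or.inl h.1, Or.inr h.2⟩
    · exact ⟨Or.inr h.1, Or.inl h.2⟩

/-- Amalgamation. -/
theorem amal {p q : Cd} {α : Lv} {c : Bool} {A B : Finset V}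
    (hlow : ∀ t, Low α t → (t ∈ p.F ↔ t ∈ q.F))
    (hedge : ∀ v w b, Fact.edge v w b ∈ p.F → Fact.edge v w (!b) ∉ q.F)
    (hA : ∀ v w, v ∈ A → w ∈ A → v ≠ w → Fact.edge v w c ∈ p.F)
    (hB : ∀ v w, v ∈ B → w ∈ B → v ≠ w → Fact.edge v w c ∈ q.F)
    (hBA : ∀ v, v ∈ B → Sp p v → v ∈ A) (hAB : ∀ v, v ∈ A → Sp q v → v ∈ B)
    (fA : c = true → ∀ v : V, v.1 = α → Fact.clq 0 v ∈ p.F → v ∈ A)
    (fB : c = true → ∀ v : V, v.1 = α → Fact.clq 0 v ∈ q.F → v ∈ B) :
    ∃ g : Gm, g ∈ Fx α ∧ (c = true → g.1 α 0 = 0) ∧ ∃ r : Cd, r ≤ p ∧ r ≤ sm g q ∧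
      ∀ v w, (v ∈ A ∨ v ∈ B) → (w ∈ A ∨ w ∈ B) → v ≠ w → Fact.edge v w c ∈ r.F := by
  classical
  obtain ⟨N, hN⟩ : ∃ N, ∀ t ∈ p.F ∪ q.F, ix t < N := by
    refine ⟨(p.F ∪ q.F).sup ix + 1, fun t ht => ?_⟩
    exact Nat.lt_succ_of_le (Finset.le_sup (f := ix) ht)
  set g := mv N α c with hg
  have hNp : ∀ t ∈ p.F, ix t < N := fun t ht => hN t (Finset.mem_union_left _ ht)
  have hNq : ∀ t ∈ q.F, ix t < N := fun t ht => hN t (Finset.mem_union_right _ ht)
  -- membership in the moved condition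
  have he : ∀ v w b, Fact.edge v w b ∈ (sm g q).F ↔ Fact.edge v w b ∈ q.F := fun v w b =>
    mem_sm (g := g) (t := Fact.edge v w b)
  have hc : ∀ i v, Fact.clq i v ∈ (sm g q).F → ∃ j, i = g.1 v.1 j ∧ Fact.clq j v ∈ q.F := by
    intro i v h
    refine ⟨(g.1 v.1)⁻¹ i, by simp, ?_⟩
    exact mem_sm'.1 h
  have hl : ∀ i n x, Fact.col i n x ∈ (sm g q).F → ∃ j, i = g.2 x.1 j ∧
      Fact.col j n x ∈ q.F := by
    intro i n x h
    refine ⟨(g.2 x.1)⁻¹ i, by simp, ?_⟩
    exact mem_sm'.1 h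
  have g1 : ∀ β, β < α → g.1 β = 1 ∧ g.2 β = 1 := mv_mem N α c
  have g2 : ∀ β, ¬ β < α → ¬ (β = α ∧ c = true) → g.1 β = sw N := by
    intro β h1 h2
    change (if β < α then 1 else if β = α ∧ c = true then sw' N else sw N) = sw N
    rw [if_neg h1, if_neg h2]
  have g3 : c = true → g.1 α = sw' N := by
    intro h2
    change (if α < α then 1 else if α = α ∧ c = true then sw' N else sw N) = sw' N
    rw [if_neg (lt_irrefl _), if_pos ⟨rfl, h2⟩]
  have g4 : ∀ β, ¬ β < α → g.2 β = sw N := by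
    intro β h1
    change (if β < α then 1 else sw N) = sw N
    rw [if_neg h1]
  -- the shared facts
  have hcc : ∀ i v w, Fact.clq i v ∈ p.F → Fact.clq i w ∈ (sm g q).F → v.1 = w.1 →
      (v.1 < α ∧ Fact.clq i w ∈ q.F) ∨ (c = true ∧ v.1 = α ∧ i = 0 ∧ Fact.clq 0 w ∈ q.F) := by
    intro i v w h1 h2 h3
    obtain ⟨j, h4, h5⟩ := hc i w h2
    by_cases h6 : w.1 < α
    · rw [(g1 _ h6).1] at h4
      have h7 : i = j := h4
      subst h7
      exact Or.inl ⟨h3 ▸ h6, h5⟩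
    · by_cases h7 : w.1 = α ∧ c = true
      · rw [h7.1, g3 h7.2] at h4
        by_cases h8 : j = 0
        · subst h8
          exact Or.inr ⟨h7.2, h3.trans h7.1, h4, h5⟩
        · exfalso
          have h9 : N ≤ sw' N j := sw'_ge (hNq _ h5 : j < N) h8
          have h10 : i < N := hNp _ h1
          omega
      · rw [g2 _ h6 h7] at h4
        exfalso
        have h9 : N ≤ sw N j := sw_ge (hNq _ h5 : j < N)
        have h10 : i < N := hNp _ h1
        omega
  have hE : Con (p.F ∪ (sm g q).F ∪ nE A B c) := by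
    have key : ∀ v w b, Fact.edge v w b ∈ p.F ∪ (sm g q).F ∪ nE A B c →
        Fact.edge v w (!b) ∉ p.F ∪ (sm g q).F ∪ nE A B c := by
      intro v w b h1 h2
      have p1 : ∀ b, Fact.edge v w b ∈ p.F → Fact.edge v w (!b) ∉ p.F := by
        intro b h3 h4
        cases b
        · exact p.con.1 v w h4 h3
        · exact p.con.1 v w h3 h4
      have q1 : ∀ b, Fact.edge v w b ∈ q.F → Fact.edge v w (!b) ∉ q.F := by
        intro b h3 h4
        cases b
        · exact q.con.1 v w h4 h3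
        · exact q.con.1 v w h3 h4
      have n1 : ∀ b, Fact.edge v w b ∈ nE A B c → b = c ∧ v ≠ w ∧
          ((v ∈ A ∧ w ∈ B) ∨ (v ∈ B ∧ w ∈ A)) := by
        intro b h
        obtain ⟨v', w', h3, h4, h5⟩ := mem_nE.1 h
        simp only [Fact.edge.injEq] at h5
        obtain ⟨rfl, rfl, rfl⟩ := h5
        exact ⟨rfl, h4, h3⟩
      have pn : ∀ b, Fact.edge v w b ∈ p.F → Fact.edge v w (!b) ∉ nE A B c := by
        intro b h3 h4
        obtain ⟨h5, h6, h7⟩ := n1 _ h4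
        have hv : Sp p v := Or.inl ⟨w, b, Or.inl h3⟩
        have hw : Sp p w := Or.inl ⟨v, b, Or.inr h3⟩
        have hvw : v ∈ A ∧ w ∈ A := by
          rcases h7 with h7 | h7
          · exact ⟨h7.1, hBA w h7.2 hw⟩
          · exact ⟨hBA v h7.1 hv, h7.2⟩
        have h8 := hA v w hvw.1 hvw.2 h6
        rw [← h5] at h8
        exact p1 _ h3 h8
      have qn : ∀ b, Fact.edge v w b ∈ q.F → Fact.edge v w (!b) ∉ nE A B c := by
        intro b h3 h4
        obtain ⟨h5, h6, h7⟩ := n1 _ h4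
        have hv : Sp q v := Or.inl ⟨w, b, Or.inl h3⟩
        have hw : Sp q w := Or.inl ⟨v, b, Or.inr h3⟩
        have hvw : v ∈ B ∧ w ∈ B := by
          rcases h7 with h7 | h7
          · exact ⟨hAB v h7.1 hv, h7.2⟩
          · exact ⟨h7.1, hAB w h7.2 hw⟩
        have h8 := hB v w hvw.1 hvw.2 h6
        rw [← h5] at h8
        exact q1 _ h3 h8
      have nn' : ∀ b : Bool, (!(!b)) = b := fun b => by cases b <;> rfl
      simp only [Finset.mem_union, he] at h1 h2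
      rcases h1 with (h1 | h1) | h1 <;> rcases h2 with (h2 | h2) | h2
      · exact p1 b h1 h2
      · exact hedge v w b h1 h2
      · exact pn b h1 h2
      · have := hedge v w (!b) h2
        rw [nn'] at this
        exact this h1
      · exact q1 b h1 h2
      · exact qn b h1 h2
      · have := pn (!b) h2
        rw [nn'] at this
        exact this h1
      · have := qn (!b) h2
        rw [nn'] at this
        exact this h1
      · have h3 := (n1 _ h1).1
        have h4 := (n1 _ h2).1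
        rw [h3] at h4
        cases c <;> simp at h4
    have nc : ∀ i v, Fact.clq i v ∈ p.F ∪ (sm g q).F ∪ nE A B c →
        Fact.clq i v ∈ p.F ∨ Fact.clq i v ∈ (sm g q).F := by
      intro i v h
      simp only [Finset.mem_union] at h
      rcases h with h | h
      · exact h
      · obtain ⟨v', w', -, -, h5⟩ := mem_nE.1 h
        simp at h5
    have nl : ∀ i n x, Fact.col i n x ∈ p.F ∪ (sm g q).F ∪ nE A B c →
        Fact.col i n x ∈ p.F ∨ Fact.col i n x ∈ (sm g q).F := by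
      intro i n x h
      simp only [Finset.mem_union] at h
      rcases h with h | h
      · exact h
      · obtain ⟨v', w', -, -, h5⟩ := mem_nE.1 h
        simp at h5
    refine ⟨fun v w h1 h2 => key v w true h1 h2, fun i v w h1 h2 h3 h4 => ?_,
      fun i n x y h1 h2 h3 => ?_⟩
    · simp only [Finset.mem_union]
      rcases nc i v h1 with h1 | h1 <;> rcases nc i w h2 with h2 | h2
      · exact Or.inl (Or.inl (p.con.2.1 i v w h1 h2 h3 h4))
      · rcases hcc i v w h1 h2 h3 with ⟨h5, h6⟩ | ⟨h5, h6, h7, h8⟩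
        · have h7 : Fact.clq i v ∈ q.F := (hlow (Fact.clq i v) h5).1 h1
          exact Or.inl (Or.inr ((he _ _ _).2 (q.con.2.1 i v w h7 h6 h3 h4)))
        · refine Or.inr (mem_nE.2 ⟨v, w, Or.inl ⟨?_, ?_⟩, h4, by rw [h5]⟩)
          · exact fA h5 v h6 (h7 ▸ h1)
          · exact fB h5 w (h3.symm.trans h6) h8
      · rcases hcc i w v h2 h1 h3.symm with ⟨h5, h6⟩ | ⟨h5, h6, h7, h8⟩
        · have h7 : Fact.clq i w ∈ q.F := (hlow (Fact.clq i w) h5).1 h2
          exact Or.inl (Or.inr ((he _ _ _).2 (q.con.2.1 i v w h6 h7 h3 h4)))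
        · refine Or.inr (mem_nE.2 ⟨v, w, Or.inr ⟨?_, ?_⟩, h4, by rw [h5]⟩)
          · exact fB h5 v (h3.trans h6) h8
          · exact fA h5 w h6 (h7 ▸ h2)
      · exact Or.inl (Or.inr ((sm g q).con.2.1 i v w h1 h2 h3 h4))
    · have mix : ∀ x y, Fact.col i n x ∈ p.F → Fact.col i n y ∈ (sm g q).F → x.1 = y.1 →
          x = y := by
        intro x y h1 h2 h3
        obtain ⟨j, h4, h5⟩ := hl i n y h2
        by_cases h6 : y.1 < α
        · rw [(g1 _ h6).2] at h4
          have h7 : i = j := h4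
          subst h7
          have h8 : Fact.col i n x ∈ q.F := (hlow (Fact.col i n x) (by
            change x.1 < α
            rw [h3]
            exact h6)).1 h1
          exact q.con.2.2 i n x y h8 h5 h3
        · rw [g4 _ h6] at h4
          exfalso
          have h9 : N ≤ sw N j := sw_ge (hNq _ h5 : j < N)
          have h10 : i < N := hNp _ h1
          omega
      rcases nl i n x h1 with h1 | h1 <;> rcases nl i n y h2 with h2 | h2
      · exact p.con.2.2 i n x y h1 h2 h3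
      · exact mix x y h1 h2 h3
      · exact (mix y x h2 h1 h3.symm).symm
      · exact (sm g q).con.2.2 i n x y h1 h2 h3
  refine ⟨g, mv_mem N α c, fun h => ?_, ⟨_, hE⟩, ?_, ?_, ?_⟩
  · rw [hg, h]
    exact mv_zero N α
  · intro t ht
    exact Finset.mem_union_left _ (Finset.mem_union_left _ ht)
  · intro t ht
    exact Finset.mem_union_left _ (Finset.mem_union_right _ ht)
  · intro v w hv hw hvw
    change Fact.edge v w c ∈ p.F ∪ (sm g q).F ∪ nE A B c
    simp only [Finset.mem_union, he]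
    rcases hv with hv | hv <;> rcases hw with hw | hw
    · exact Or.inl (Or.inl (hA v w hv hw hvw))
    · exact Or.inr (mem_nE.2 ⟨v, w, Or.inl ⟨hv, hw⟩, hvw, rfl⟩)
    · exact Or.inr (mem_nE.2 ⟨v, w, Or.inr ⟨hv, hw⟩, hvw, rfl⟩)
    · exact Or.inl (Or.inr (hB v w hv hw hvw))

end Pool.Agent.R596.NW
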