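import Pool.Agent.W868.Defs

/-!
# Narrow and uniformly narrow notions of forcing in transitive models of ZF: the definitions

A set `M` of sets is viewed as the structure `(M, ∈)`. `Pool.Agent.W868.Defs` contains transitive
models of ZF (`IsZF`) and injections (`IsInj`); `pair` is the Kuratowski pair.
-/

set_option autoImplicit false

namespace Pool.Agent.R596Nw

open Pool.Agent.W868
open ZFSet (pair)

/-- `(P, Le)` is a notion of forcing in `M`: `P` and `Le` are elements of `M`, and `Le` is (the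
set of all pairs `(p, q)` with `p ≤ q` of) a partial order on `P` with a largest element. -/
structure IsForcing (M : Set ZFSet.{0}) (P Le : ZFSet.{0}) : Prop where
  mem : P ∈ M
  le_mem : Le ∈ M
  sub : ∀ x ∈ Le, ∃ p ∈ P, ∃ q ∈ P, x = pair p q
  refl : ∀ p ∈ P, pair p p ∈ Le
  trans : ∀ p q r, pair p q ∈ Le → pair q r ∈ Le → pair p r ∈ Le
  antisymm : ∀ p q, pair p q ∈ Le → pair q p ∈ Le → p = q
  top : ∃ t ∈ P, ∀ p ∈ P, pair p t ∈ Le

/-- `p` and `q` are compatible: some `r` in `P` lies below both. -/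
def Compat (P Le p q : ZFSet.{0}) : Prop := ∃ r ∈ P, pair r p ∈ Le ∧ pair r q ∈ Le

/-- `f` is a partial homomorphism from `P` to the ordinals: a function, given by its graph, whose
domain is a subset of `P` and whose values are ordinals, which has the same value at compatible
elements of its domain. -/
structure IsHom (P Le f : ZFSet.{0}) : Prop where
  sub : ∀ x ∈ f, ∃ p ∈ P, ∃ β : ZFSet.{0}, β.IsOrdinal ∧ x = pair p β
  func : ∀ p β γ, pair p β ∈ f → pair p γ ∈ f → β = γ
  hom : ∀ p q β γ, pair p β ∈ f → pair q γ ∈ f → Compat P Le p q → β = γ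

/-- `r` is the range of `f`. -/
def IsRan (f r : ZFSet.{0}) : Prop := ∀ β, β ∈ r ↔ ∃ p, pair p β ∈ f

/-- `(P, Le)` is `θ`-narrow in `M`: for every ordinal `μ` of `M` and every sequence
`F = ⟨f i : i < μ⟩` in `M` of partial homomorphisms, the union `U` of the ranges of the `f i` has an
injection in `M` into the maximum of `θ` and `μ` (for ordinals, this is their union). -/
def Narrow (M : Set ZFSet.{0}) (P Le θ : ZFSet.{0}) : Prop :=
  ∀ μ ∈ M, μ.IsOrdinal → ∀ F ∈ M, (∀ i ∈ μ, ∃! f, pair i f ∈ F) →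
    (∀ i ∈ μ, ∀ f, pair i f ∈ F → IsHom P Le f) →
    ∀ U ∈ M, (∀ β, β ∈ U ↔ ∃ i ∈ μ, ∃ f, pair i f ∈ F ∧ ∃ p, pair p β ∈ f) →
      ∃ g ∈ M, IsInj U (θ ∪ μ) g

/-- `(P, Le)` is uniformly `θ`-narrow in `M`: there is a function `G` in `M` that assigns to every
partial homomorphism `f` in `M` whose range is an ordinal an injection from the range to `θ`. -/
def Uniform (M : Set ZFSet.{0}) (P Le θ : ZFSet.{0}) : Prop :=
  ∃ G ∈ M, (∀ f g g', pair f g ∈ G → pair f g' ∈ G → g = g') ∧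
    ∀ f ∈ M, IsHom P Le f → ∀ α : ZFSet.{0}, α.IsOrdinal → IsRan f α →
      ∃ g, pair f g ∈ G ∧ IsInj α θ g

/-- `P` is well-orderable in `M`: it has an injection in `M` into an ordinal. -/
def WellOrderable (M : Set ZFSet.{0}) (P : ZFSet.{0}) : Prop :=
  ∃ ρ ∈ M, ρ.IsOrdinal ∧ ∃ g ∈ M, IsInj P ρ g

/-- `κ` is the least cardinal of `M` above the cardinality of `θ`: the least ordinal of `M` that
has no injection in `M` into `θ`. -/
def IsNext (M : Set ZFSet.{0}) (θ κ : ZFSet.{0}) : Prop :=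
  κ ∈ M ∧ κ.IsOrdinal ∧ (¬ ∃ g ∈ M, IsInj κ θ g) ∧ ∀ ξ ∈ κ, ∃ g ∈ M, IsInj ξ θ g

/-- `(P, Le)` satisfies the `κ`-chain condition in `M`: no antichain `A` in `M` (a subset of `P`
whose different elements are incompatible) has a bijection in `M` with `κ`. -/
def ChainCondition (M : Set ZFSet.{0}) (P Le κ : ZFSet.{0}) : Prop :=
  ¬ ∃ A ∈ M, A ⊆ P ∧ (∀ p ∈ A, ∀ q ∈ A, p ≠ q → ¬ Compat P Le p q) ∧ ∃ g ∈ M, IsBij A κ g

end Pool.Agent.R596Nw
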