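import Pool.Agent.R596.NwCond

/-!
# Large families of conditions have compatible members, up to an automorphism
-/

set_option autoImplicit false
set_option linter.all false

namespace Pool.Agent.R596.NW

open Cardinal Ordinal

open Classical in
/-- The vertices of a fact. -/
noncomputable def vf : Fact → Finset V
  | .edge v w _ => {v, w}
  | .clq _ v => {v}
  | .col _ _ _ => ∅

open Classical in
/-- The support. -/
noncomputable def spF (p : Cd) : Finset V := p.F.biUnion vf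

theorem mem_spF {p : Cd} {v : V} (h : Sp p v) : v ∈ spF p := by
  classical
  unfold spF
  rw [Finset.mem_biUnion]
  rcases h with ⟨w, b, h | h⟩ | ⟨i, h⟩
  · exact ⟨_, h, by simp [vf]⟩
  · exact ⟨_, h, by simp [vf]⟩
  · exact ⟨_, h, by simp [vf]⟩

open Classical in
/-- The pairs in a fact. -/
noncomputable def ef : Fact → Finset (((V × V) ⊕ V) × Bool)
  | .edge v w b => {(Sum.inl (v, w), b)}
  | _ => ∅

open Classical in
/-- The pattern of a condition and a set. -/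
noncomputable def pt (p : Cd) (A : Finset V) : Finset (((V × V) ⊕ V) × Bool) :=
  p.F.biUnion ef ∪ (spF p ∪ A).image fun v => (Sum.inr v, decide (v ∈ A))

theorem mem_pt_inl {p : Cd} {A : Finset V} {v w : V} {b : Bool} :
    (Sum.inl (v, w), b) ∈ pt p A ↔ Fact.edge v w b ∈ p.F := by
  classical
  unfold pt
  simp only [Finset.mem_union, Finset.mem_biUnion, Finset.mem_image]
  constructor
  · rintro (⟨t, ht, h⟩ | ⟨u, -, h⟩)
    · rcases t with ⟨v', w', b'⟩ | ⟨i, v'⟩ | ⟨i, n, x⟩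
      · simp only [ef, Finset.mem_singleton, Prod.mk.injEq, Sum.inl.injEq] at h
        obtain ⟨⟨rfl, rfl⟩, rfl⟩ := h
        exact ht
      · simp [ef] at h
      · simp [ef] at h
    · simp at h
  · intro h
    exact Or.inl ⟨_, h, by simp [ef]⟩

theorem mem_pt_inr {p : Cd} {A : Finset V} {v : V} {b : Bool} :
    (Sum.inr v, b) ∈ pt p A ↔ (v ∈ spF p ∨ v ∈ A) ∧ (b = true ↔ v ∈ A) := by
  classical
  unfold pt
  simp only [Finset.mem_union, Finset.mem_biUnion, Finset.mem_image]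
  constructor
  · rintro (⟨t, ht, h⟩ | ⟨u, h1, h⟩)
    · rcases t with ⟨v', w', b'⟩ | ⟨i, v'⟩ | ⟨i, n, x⟩ <;> simp [ef] at h
    · simp only [Prod.mk.injEq, Sum.inr.injEq] at h
      obtain ⟨rfl, rfl⟩ := h
      exact ⟨h1, by simp⟩
  · rintro ⟨h1, h2⟩
    refine Or.inr ⟨v, h1, ?_⟩
    by_cases h3 : v ∈ A
    · rw [h2.2 h3]
      simp [h3]
    · cases b
      · simp [h3]
      · exact absurd (h2.1 rfl) h3

theorem pt_con (p : Cd) (A : Finset V) (z : (V × V) ⊕ V) (b : Bool) (h : (z, b) ∈ pt p A) :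
    (z, !b) ∉ pt p A := by
  intro h'
  rcases z with ⟨v, w⟩ | v
  · rw [mem_pt_inl] at h h'
    cases b
    · exact p.con.1 v w h' h
    · exact p.con.1 v w h h'
  · rw [mem_pt_inr] at h h'
    have h1 := h.2
    have h2 := h'.2
    cases b <;> simp at h1 h2
    · exact h1 h2
    · exact h2 h1

open Classical in
/-- The low part. -/
noncomputable def lowF (α : Lv) (p : Cd) : Finset {t : Fact // Low α t} :=
  p.F.subtype (Low α)

/-- In a large family of conditions, two are compatible up to an automorphism. -/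
theorem kl {I : Type} {α : Lv} (hI : #(K α) ≤ #I) (p : I → Cd) (c : Bool) (A : I → Finset V)
    (ν : I → ℕ)
    (hA : ∀ x v w, v ∈ A x → w ∈ A x → v ≠ w → Fact.edge v w c ∈ (p x).F)
    (fA : c = true → ∀ x, ∀ v : V, v.1 = α → Fact.clq 0 v ∈ (p x).F → v ∈ A x) :
    ∃ x y, x ≠ y ∧ ν x = ν y ∧ ∃ g : Gm, g ∈ Fx α ∧ (c = true → g.1 α 0 = 0) ∧
      ∃ r : Cd, r ≤ p x ∧ r ≤ sm g (p y) ∧ ∀ v w, (v ∈ A x ∨ v ∈ A y) →
        (w ∈ A x ∨ w ∈ A y) → v ≠ w → Fact.edge v w c ∈ r.F := by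
  classical
  obtain ⟨d, hd⟩ := exists_fib (α := α) hI fun x => (lowF α (p x), (pt (p x) (A x)).card, ν x)
  obtain ⟨x, hx, y, hy, hxy, h⟩ : ∃ x ∈ {x | (lowF α (p x), (pt (p x) (A x)).card, ν x) = d},
      ∃ y ∈ {x | (lowF α (p x), (pt (p x) (A x)).card, ν x) = d}, x ≠ y ∧
        ∀ z b, (z, b) ∈ pt (p x) (A x) → (z, !b) ∉ pt (p y) (A y) := by
    by_contra hc
    push Not at hc
    refine hd (fc d.2.1 _ (fun x => pt (p x) (A x)) (fun x hx => ?_) (fun x _ => pt_con _ _)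
      fun x hx y hy hne => ?_)
    · have h1 : (pt (p x) (A x)).card = d.2.1 := congrArg (fun q => q.2.1) hx
      exact h1.le
    · obtain ⟨z, b, h1, h2⟩ := hc x hx y hy hne
      exact ⟨z, b, h1, h2⟩
  have e1 : lowF α (p x) = lowF α (p y) :=
    (congrArg (fun q => q.1) hx).trans (congrArg (fun q => q.1) hy).symm
  have e2 : ν x = ν y := (congrArg (fun q => q.2.2) hx).trans (congrArg (fun q => q.2.2) hy).symm
  refine ⟨x, y, hxy, e2, ?_⟩
  refine amal (fun t ht => ?_) (fun v w b h1 h2 => ?_) (hA x) (hA y) (fun v h1 h2 => ?_)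
    (fun v h1 h2 => ?_) (fun h1 => fA h1 x) fun h1 => fA h1 y
  · have h1 : (⟨t, ht⟩ : {t : Fact // Low α t}) ∈ lowF α (p x) ↔
        (⟨t, ht⟩ : {t : Fact // Low α t}) ∈ lowF α (p y) := by rw [e1]
    simpa [lowF] using h1
  · exact h _ _ (mem_pt_inl.2 h1) (mem_pt_inl.2 h2)
  · by_contra h3
    have h4 : (Sum.inr v, false) ∈ pt (p x) (A x) :=
      mem_pt_inr.2 ⟨Or.inl (mem_spF h2), by simp [h3]⟩
    exact h _ _ h4 (mem_pt_inr.2 ⟨Or.inr h1, by simp [h1]⟩)
  · by_contra h3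
    have h4 : (Sum.inr v, false) ∈ pt (p y) (A y) :=
      mem_pt_inr.2 ⟨Or.inl (mem_spF h2), by simp [h3]⟩
    exact h _ _ (mem_pt_inr.2 ⟨Or.inr h1, by simp [h1]⟩ : (Sum.inr v, true) ∈ pt (p x) (A x)) h4

end Pool.Agent.R596.NW
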