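import Pool.Agent.R596.NwUni
import Pool.Agent.W868.Hart

/-!
# The model
-/

set_option autoImplicit false
set_option linter.all false

namespace Pool.Agent.R596.NW

open Cardinal Ordinal
open Pool.Agent.W868 Pool.Agent.W868.PName Pool.Agent.W910.SY Pool.Agent.R596Nw
open ZFSet (pair)

theorem isForcing {π : Pkg Cd} (hP : NP ∈ π.N) (hL : NL ∈ π.N)
    (h0 : check (cd (∅ : Finset V)) ∈ π.N) :
    IsForcing (sy.Ms π) (π.val NP) (π.val NL) := by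
  refine ⟨val_Ms hP hs_NP, val_Ms hL hs_NL, fun x hx => ?_, fun p hp => ?_, fun p q r h1 h2 => ?_,
    fun p q h1 h2 => ?_, ?_⟩
  · obtain ⟨a, b, na, nb, hab, ⟨k, hk⟩, rfl⟩ := mem_NL.1 hx
    exact ⟨_, mem_NP.2 ⟨a, na, ⟨k, hk⟩, rfl⟩, _, mem_NP.2 ⟨b, nb, ⟨k, fun v hv w hw hvw =>
      hk v (hab hv) w (hab hw) hvw⟩, rfl⟩, rfl⟩
  · obtain ⟨a, na, hk, rfl⟩ := mem_NP.1 hp
    exact mem_NL.2 ⟨a, a, na, na, Finset.Subset.refl _, hk, rfl⟩
  · obtain ⟨a, b, na, nb, hab, hk, e⟩ := mem_NL.1 h1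
    obtain ⟨b', c, nb', nc, hbc, hk', e'⟩ := mem_NL.1 h2
    obtain ⟨rfl, rfl⟩ := ZFSet.pair_inj.1 e
    obtain ⟨e1, rfl⟩ := ZFSet.pair_inj.1 e'
    obtain rfl := hat_cd nb' nb e1
    exact mem_NL.2 ⟨a, c, na, nc, hbc.trans hab, hk, rfl⟩
  · obtain ⟨a, b, na, nb, hab, hk, e⟩ := mem_NL.1 h1
    obtain ⟨b', a', nb', na', hba, hk', e'⟩ := mem_NL.1 h2
    obtain ⟨rfl, rfl⟩ := ZFSet.pair_inj.1 e
    obtain ⟨e1, e2⟩ := ZFSet.pair_inj.1 e'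
    obtain rfl := hat_cd nb' nb e1
    obtain rfl := hat_cd na' na e2
    rw [Finset.Subset.antisymm hba hab]
  · refine ⟨_, mem_NP.2 ⟨∅, h0, ⟨0, fun v hv => absurd hv (by simp)⟩, rfl⟩, fun p hp => ?_⟩
    obtain ⟨a, na, hk, rfl⟩ := mem_NP.1 hp
    exact mem_NL.2 ⟨a, ∅, na, h0, Finset.empty_subset _, hk, rfl⟩

theorem wellOrderable {π : Pkg Cd} (h : sy.Cld π) (hP : NP ∈ π.N) :
    WellOrderable (sy.Ms π) (π.val NP) := by
  have hM := zf_Ms h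
  have h1 : π.hat (nrk NP).toZFSet ∈ sy.Ms π := val_Ms (π.nrk_Z hP) (sy.hs_check _)
  refine ⟨_, h1, π.hat_isOrdinal (ZFSet.isOrdinal_toZFSet _), ?_⟩
  refine Inj.of_subset hM (val_Ms hP hs_NP) h1 fun z hz => ?_
  refine mem_hat_of_mem hP ?_ hz
  obtain ⟨a, -, -, rfl⟩ := mem_NP.1 hz
  exact π.hat_isOrdinal (ZFSet.isOrdinal_toZFSet _)

/-- Narrow notions of forcing satisfy the chain condition. -/
theorem chain_of_narrow {M : Set ZFSet.{0}} (hM : IsZF M) {P Le κ : ZFSet.{0}}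
    (h : Narrow M P Le ZFSet.omega) (hκ : IsNext M ZFSet.omega κ) : ChainCondition M P Le κ := by
  rintro ⟨A, hA, hAP, hAnt, g, hg, ⟨⟨hgf, hgi⟩, hgs⟩⟩
  obtain ⟨hκM, hκo, hκ1, hκ2⟩ := hκ
  have h0 := hM.empty_mem
  have h1 : ({∅} : ZFSet.{0}) ∈ M := hM.single_mem h0
  have hmem : ∀ {a b}, pair a b ∈ g → a ∈ A ∧ b ∈ κ := fun hab =>
    ZFSet.pair_mem_prod.1 (hgf.1 hab)
  have hF : ({pair ∅ g} : ZFSet.{0}) ∈ M := hM.single_mem (hM.pair_mem h0 hg)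
  have hpair : ∀ i f, pair i f ∈ ({pair ∅ g} : ZFSet.{0}) ↔ i = ∅ ∧ f = g := by
    intro i f
    rw [ZFSet.mem_singleton, ZFSet.pair_inj]
  have hord : ({∅} : ZFSet.{0}).IsOrdinal := by
    have := ZFSet.isOrdinal_toZFSet (1 : Ordinal.{0})
    have e : (1 : Ordinal.{0}).toZFSet = ({∅} : ZFSet.{0}) := by
      rw [← zero_add (1 : Ordinal.{0}), Ordinal.toZFSet_add_one, Ordinal.toZFSet_zero]
      rfl
    rwa [e] at this
  obtain ⟨f, hf, h2⟩ := h {∅} h1 hord {pair ∅ g} hF (fun i hi => by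
    rw [ZFSet.mem_singleton] at hi
    exact ⟨g, (hpair _ _).2 ⟨hi, rfl⟩, fun f hf => ((hpair _ _).1 hf).2⟩) (fun i hi f hf => by
    obtain ⟨-, rfl⟩ := (hpair _ _).1 hf
    refine ⟨fun x hx => ?_, fun p β γ h3 h4 => fun_unique hgf h3 h4, fun p q β γ h3 h4 h5 => ?_⟩
    · obtain ⟨a, ha, b, hb, rfl⟩ := ZFSet.mem_prod.1 (hgf.1 hx)
      exact ⟨a, hAP ha, b, hκo.mem hb, rfl⟩
    · by_cases hpq : p = q
      · subst hpq
        exact fun_unique hgf h3 h4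
      · exact absurd h5 (hAnt p (hmem h3).1 q (hmem h4).1 hpq)) κ hκM (fun β => by
    constructor
    · intro hβ
      obtain ⟨a, -, ha⟩ := hgs β hβ
      exact ⟨∅, ZFSet.mem_singleton.2 rfl, g, (hpair _ _).2 ⟨rfl, rfl⟩, a, ha⟩
    · rintro ⟨i, -, f, hf, p, hp⟩
      obtain ⟨-, rfl⟩ := (hpair _ _).1 hf
      exact (hmem hp).2)
  have e : (ZFSet.omega ∪ {∅} : ZFSet.{0}) = ZFSet.omega := by
    ext z
    rw [ZFSet.mem_union, ZFSet.mem_singleton]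
    constructor
    · rintro (h | rfl)
      · exact h
      · exact ZFSet.omega_zero
    · exact Or.inl
  rw [e] at h2
  exact hκ1 ⟨f, hf, h2⟩

theorem exists_isNext {M : Set ZFSet.{0}} (hM : IsZF M) : ∃ κ, IsNext M ZFSet.omega κ := by
  obtain ⟨S, hS, hSo, hSn⟩ := hartogs hM hM.infinity
  obtain ⟨h1, h2, h3⟩ := lo_spec (M := M) (P := fun ν => ¬ Inj M ν ZFSet.omega) ⟨S, hS, hSo, hSn⟩
  refine ⟨_, h1, h2, h3, fun ξ hξ => ?_⟩
  by_contra h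
  exact lo_min (hM.trans _ h1 _ hξ) (h2.mem hξ) h hξ

/-- The model. -/
theorem main : ∃ (M : Set ZFSet.{0}) (P Le : ZFSet.{0}), M.Countable ∧ IsZF M ∧
    IsForcing M P Le ∧ WellOrderable M P ∧ Narrow M P Le ZFSet.omega ∧
    ¬ Uniform M P Le ZFSet.omega := by
  obtain ⟨π, hA, -, hR⟩ := exists_pkg (sy.rules ∪ RR)
    (by unfold Sys.rules RR; exact (Set.toFinite _).countable)
    ({NP, NL, check (cd (∅ : Finset V))} : Set (PName Cd)) (Set.toFinite _).countable (⊤ : Cd)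
  have h1 : sy.Cld π := fun ρ hρ => hR ρ (Or.inl hρ)
  have h2 : ClR RR π := fun ρ hρ => hR ρ (Or.inr hρ)
  have hP : NP ∈ π.N := hA (by simp)
  have hL : NL ∈ π.N := hA (by simp)
  have h0 : check (cd (∅ : Finset V)) ∈ π.N := hA (by simp)
  refine ⟨sy.Ms π, π.val NP, π.val NL, ?_, zf_Ms h1, isForcing hP hL h0, wellOrderable h1 hP,
    narrow h1 h2 hP hL, not_uniform h1 h2⟩
  exact π.countable_W.mono fun x hx => Ms_W hx

end Pool.Agent.R596.NW
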