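import Pool.Agent.R596.NwSys
import Pool.Agent.R596.NwDefs

/-!
# The forcing arguments for narrowness
-/

set_option autoImplicit false
set_option linter.all false

namespace Pool.Agent.R596.NW

open Cardinal Ordinal
open Pool.Agent.W868 Pool.Agent.W868.PName Pool.Agent.W910.SY
open ZFSet (pair)

/-- The value of the name is a sequence of homomorphisms. -/
def SH (x : PName Cd) (μ : ZFSet.{0}) (π : Pkg Cd) : Prop :=
  ∀ i ∈ π.hat μ, ∀ f ∈ π.W, pair i f ∈ π.val x →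
    (∀ f' ∈ π.W, pair i f' ∈ π.val x → f = f') ∧
    ∀ a ∈ π.W, ∀ b ∈ π.W, pair a b ∈ f → a ∈ π.val NP ∧
      ∀ c ∈ π.W, ∀ d ∈ π.W, pair c d ∈ f → ∀ e ∈ π.val NP, pair e a ∈ π.val NL →
        pair e c ∈ π.val NL → b = d

/-- The parameters. -/
def sS (x : PName Cd) (μ : ZFSet.{0}) : Set (PName Cd) := {x, check μ, NP, NL}

theorem dfn_SH (x : PName Cd) (μ : ZFSet.{0}) :
    NDfn (sS x μ) fun π (_ : Fin 0 → ZFSet.{0}) => SH x μ π := by
  have h1 : x ∈ sS x μ := by simp [sS]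
  have h2 : check μ ∈ sS x μ := by simp [sS]
  have h3 : NP ∈ sS x μ := by simp [sS]
  have h4 : NL ∈ sS x μ := by simp [sS]
  unfold SH
  refine NDfn.ball (NDfnF.hat h2) ?_
  refine NDfn.all ?_
  refine NDfn.imp (NDfn.mem (NDfnF.pair (NDfnF.proj 1) (NDfnF.proj 0)) (NDfnF.val h1)) ?_
  refine NDfn.and ?_ ?_
  · refine NDfn.all ?_
    refine NDfn.imp (NDfn.mem (NDfnF.pair (NDfnF.proj 2) (NDfnF.proj 0)) (NDfnF.val h1)) ?_
    exact NDfn.eq (NDfnF.proj 1) (NDfnF.proj 0)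
  · refine NDfn.all ?_
    refine NDfn.all ?_
    refine NDfn.imp (NDfn.mem (NDfnF.pair (NDfnF.proj 1) (NDfnF.proj 0)) (NDfnF.proj 2)) ?_
    refine NDfn.and (NDfn.mem (NDfnF.proj 1) (NDfnF.val h3)) ?_
    refine NDfn.all ?_
    refine NDfn.all ?_
    refine NDfn.imp (NDfn.mem (NDfnF.pair (NDfnF.proj 1) (NDfnF.proj 0)) (NDfnF.proj 4)) ?_
    refine NDfn.ball (NDfnF.val h3) ?_
    refine NDfn.imp (NDfn.mem (NDfnF.pair (NDfnF.proj 0) (NDfnF.proj 4)) (NDfnF.val h4)) ?_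
    refine NDfn.imp (NDfn.mem (NDfnF.pair (NDfnF.proj 0) (NDfnF.proj 2)) (NDfnF.val h4)) ?_
    exact NDfn.eq (NDfnF.proj 3) (NDfnF.proj 1)

/-- `r` forces that the homomorphism number `i` has the value `β` at `a`. -/
def Qf (x : PName Cd) (r : Cd) (i : ZFSet.{0}) (a : Finset V) (β : ZFSet.{0}) : Prop :=
  ∃ φ : PName Cd, Fmem (opN (check i) φ) x r ∧ Fmem (opN (check (cd a)) (check β)) φ r

theorem Qf.mono {x : PName Cd} {r s : Cd} {i : ZFSet.{0}} {a : Finset V} {β : ZFSet.{0}}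
    (h : Qf x r i a β) (hs : s ≤ r) : Qf x s i a β := by
  obtain ⟨φ, h1, h2⟩ := h
  exact ⟨φ, h1.mono hs, h2.mono hs⟩

theorem Qf.sm {x : PName Cd} {r : Cd} {i : ZFSet.{0}} {a : Finset V} {β : ZFSet.{0}} {α : Lv}
    (hx : sy.Fix (Fx α) x) {g : Gm} (hg : g ∈ Fx α) (h : Qf x r i a β) :
    Qf x (sm g r) i a β := by
  obtain ⟨φ, h1, h2⟩ := h
  refine ⟨act (sy.ac g) φ, ?_, ?_⟩
  · have h3 := fmem_act' (e := sy.ac g) h1
    rw [act_opN (sy.top g), act_ck] at h3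
    exact fmem_congr (Feq.refl _ _) (hx g hg _) h3
  · have h3 := fmem_act' (e := sy.ac g) h2
    rw [act_ckp] at h3
    exact h3

/-- The package has the names and starts with the condition. -/
theorem pkg (A : Set (PName Cd)) (hA : A.Countable) (p : Cd) :
    ∃ π : Pkg Cd, A ⊆ π.N ∧ π.g 0 = p ∧ ∀ k, π.g k ≤ p := by
  obtain ⟨π, h1, h2⟩ := exists_pkg' A hA p
  exact ⟨π, h1, h2, fun k => h2 ▸ π.g_anti (Nat.zero_le k)⟩

theorem mem_NP {π : Pkg Cd} {z : ZFSet.{0}} : z ∈ π.val NP ↔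
    ∃ a : Finset V, check (cd a) ∈ π.N ∧ (∃ k, Ind (π.g k) a) ∧ π.hat (cd a) = z :=
  mem_rn fun _ _ _ h1 h2 => Ind.mono h2 h1

theorem mem_NL {π : Pkg Cd} {z : ZFSet.{0}} : z ∈ π.val NL ↔
    ∃ a b : Finset V, check (cd a) ∈ π.N ∧ check (cd b) ∈ π.N ∧ b ⊆ a ∧
      (∃ k, Ind (π.g k) a) ∧ pair (π.hat (cd a)) (π.hat (cd b)) = z := by
  unfold NL
  rw [mem_rn fun _ _ _ h1 h2 => ⟨h2.1, Ind.mono h2.2 h1⟩]
  constructor
  · rintro ⟨⟨a, b⟩, h1, ⟨k, h2, h3⟩, rfl⟩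
    have h4 := π.fst_mem h1
    have h5 := π.snd_mem h1
    exact ⟨a, b, h4, h5, h2, ⟨k, h3⟩, (π.val_opN h4 h5).symm⟩
  · rintro ⟨a, b, h1, h2, h3, ⟨k, h4⟩, rfl⟩
    exact ⟨(a, b), π.opN_mem h1 h2, ⟨k, h3, h4⟩, π.val_opN h1 h2⟩

theorem hat_cd {π : Pkg Cd} {a b : Finset V} (ha : check (cd a) ∈ π.N) (hb : check (cd b) ∈ π.N)
    (h : π.hat (cd a) = π.hat (cd b)) : a = b := cd_injective ((π.hat_inj ha hb).1 h)

section forced

variable {x : PName Cd} {μ : ZFSet.{0}} {p : Cd}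
  (hp : ∀ π : Pkg Cd, sS x μ ⊆ π.N → (∃ m, π.g m ≤ p) → SH x μ π)

include hp

theorem Qf.ind {r : Cd} {i : ZFSet.{0}} {a : Finset V} {β : ZFSet.{0}} (hr : r ≤ p)
    (hi : i ∈ μ) (h : Qf x r i a β) : ∃ s, s ≤ r ∧ Ind s a := by
  obtain ⟨φ, h1, h2⟩ := h
  obtain ⟨π, hA, h0, hk⟩ := pkg ({check i, φ, check (cd a), check β} ∪ sS x μ)
    (by unfold sS; exact (Set.toFinite _).countable) r
  have hS : sS x μ ⊆ π.N := fun y hy => hA (Or.inr hy)
  have ni : check i ∈ π.N := hA (by simp)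
  have nφ : φ ∈ π.N := hA (by simp)
  have na : check (cd a) ∈ π.N := hA (by simp)
  have nβ : check β ∈ π.N := hA (by simp)
  have nx : x ∈ π.N := hS (by simp [sS])
  have nμ : check μ ∈ π.N := hS (by simp [sS])
  have h3 := hp π hS ⟨0, h0 ▸ hr⟩ (π.hat i) ((π.hat_mem_hat ni nμ).2 hi) (π.val φ)
    (π.val_mem_W nφ) (by
      have := (π.val_mem_iff (π.opN_mem ni nφ) nx).2 ⟨0, by rw [h0]; exact h1⟩
      rwa [π.val_opN ni nφ] at this)
  have h4 := (h3.2 (π.hat (cd a)) (π.val_mem_W na) (π.hat β) (π.val_mem_W nβ) (by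
      have := (π.val_mem_iff (π.opN_mem na nβ) nφ).2 ⟨0, by rw [h0]; exact h2⟩
      rwa [π.val_opN na nβ] at this)).1
  obtain ⟨a', h5, ⟨k, h6⟩, h7⟩ := mem_NP.1 h4
  obtain rfl := hat_cd h5 na h7
  exact ⟨π.g k, hk k, h6⟩

theorem Qf.uniq {r : Cd} {i : ZFSet.{0}} {a b : Finset V} {β γ : ZFSet.{0}} (hr : r ≤ p)
    (hi : i ∈ μ) (h : Qf x r i a β) (h' : Qf x r i b γ)
    (hab : ∀ v w, (v ∈ a ∨ v ∈ b) → (w ∈ a ∨ w ∈ b) → v ≠ w → Fact.edge v w false ∈ r.F) :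
    β = γ := by
  classical
  obtain ⟨φ, h1, h2⟩ := h
  obtain ⟨ψ, h1', h2'⟩ := h'
  have hI : Ind r (a ∪ b) := fun v hv w hw hvw =>
    hab v w (Finset.mem_union.1 hv) (Finset.mem_union.1 hw) hvw
  obtain ⟨π, hA, h0, hk⟩ := pkg ({check i, φ, ψ, check (cd a), check (cd b),
    check (cd (a ∪ b)), check β, check γ} ∪ sS x μ)
    (by unfold sS; exact (Set.toFinite _).countable) r
  have hS : sS x μ ⊆ π.N := fun y hy => hA (Or.inr hy)
  have ni : check i ∈ π.N := hA (by simp)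
  have nφ : φ ∈ π.N := hA (by simp)
  have nψ : ψ ∈ π.N := hA (by simp)
  have na : check (cd a) ∈ π.N := hA (by simp)
  have nb : check (cd b) ∈ π.N := hA (by simp)
  have nab : check (cd (a ∪ b)) ∈ π.N := hA (by simp)
  have nβ : check β ∈ π.N := hA (by simp)
  have nγ : check γ ∈ π.N := hA (by simp)
  have nx : x ∈ π.N := hS (by simp [sS])
  have nμ : check μ ∈ π.N := hS (by simp [sS])
  have hi' : π.hat i ∈ π.hat μ := (π.hat_mem_hat ni nμ).2 hi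
  have m1 : pair (π.hat i) (π.val φ) ∈ π.val x := by
    have := (π.val_mem_iff (π.opN_mem ni nφ) nx).2 ⟨0, by rw [h0]; exact h1⟩
    rwa [π.val_opN ni nφ] at this
  have m2 : pair (π.hat i) (π.val ψ) ∈ π.val x := by
    have := (π.val_mem_iff (π.opN_mem ni nψ) nx).2 ⟨0, by rw [h0]; exact h1'⟩
    rwa [π.val_opN ni nψ] at this
  have m3 : pair (π.hat (cd a)) (π.hat β) ∈ π.val φ := by
    have := (π.val_mem_iff (π.opN_mem na nβ) nφ).2 ⟨0, by rw [h0]; exact h2⟩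
    rwa [π.val_opN na nβ] at this
  have m4 : pair (π.hat (cd b)) (π.hat γ) ∈ π.val ψ := by
    have := (π.val_mem_iff (π.opN_mem nb nγ) nψ).2 ⟨0, by rw [h0]; exact h2'⟩
    rwa [π.val_opN nb nγ] at this
  have h3 := hp π hS ⟨0, h0 ▸ hr⟩ (π.hat i) hi' (π.val φ) (π.val_mem_W nφ) m1
  have e1 := h3.1 (π.val ψ) (π.val_mem_W nψ) m2
  rw [← e1] at m4
  have h4 := (h3.2 (π.hat (cd a)) (π.val_mem_W na) (π.hat β) (π.val_mem_W nβ) m3).2
    (π.hat (cd b)) (π.val_mem_W nb) (π.hat γ) (π.val_mem_W nγ) m4 (π.hat (cd (a ∪ b)))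
    (mem_NP.2 ⟨_, nab, ⟨0, by rw [h0]; exact hI⟩, rfl⟩)
    (mem_NL.2 ⟨_, _, nab, na, Finset.subset_union_left, ⟨0, by rw [h0]; exact hI⟩, rfl⟩)
    (mem_NL.2 ⟨_, _, nab, nb, Finset.subset_union_right, ⟨0, by rw [h0]; exact hI⟩, rfl⟩)
  exact (π.hat_inj nβ nγ).1 h4

/-- The possible values of one homomorphism: there are few. -/
theorem few {α : Lv} (hx : sy.Fix (Fx α) x) {i : ZFSet.{0}} (hi : i ∈ μ) {I : Type}
    (e : I → ZFSet.{0}) (he : Function.Injective e)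
    (hI : ∀ t, ∃ (a : Finset V) (r : Cd), r ≤ p ∧ Qf x r i a (e t)) : #I < #(K α) := by
  by_contra hc
  rw [not_lt] at hc
  have h1 : ∀ t, ∃ (a : Finset V) (r : Cd), r ≤ p ∧ Qf x r i a (e t) ∧ Ind r a := by
    intro t
    obtain ⟨a, r, h1, h2⟩ := hI t
    obtain ⟨s, h3, h4⟩ := h2.ind hp h1 hi
    exact ⟨a, s, h3.trans h1, h2.mono h3, h4⟩
  choose a r h2 h3 h4 using h1
  obtain ⟨t, u, htu, -, g, hg, -, s, h5, h6, h7⟩ := kl hc r false a (fun _ => 0)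
    (fun t v w hv hw hvw => h4 t v hv w hw hvw) (fun h => absurd h (by simp))
  exact htu (he (((h3 t).mono h5).uniq hp (h5.trans (h2 t)) hi (((h3 u).sm hx hg).mono h6) h7))

end forced

/-- Few values in total. -/
theorem total {α : Lv} {x : PName Cd} {μ₀ β₀ : Ordinal.{0}} {p : Cd}
    (hp : ∀ π : Pkg Cd, sS x μ₀.toZFSet ⊆ π.N → (∃ m, π.g m ≤ p) → SH x μ₀.toZFSet π)
    (hx : sy.Fix (Fx α) x) : ∃ (T : Type) (b j : T → ZFSet.{0}) (ν : Ordinal.{0}),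
      Function.Injective b ∧ Function.Injective j ∧ (∀ t, j t ∈ ν.toZFSet) ∧
      (ν = μ₀ ∨ ν = kap α) ∧ (∀ t, b t ∈ β₀.toZFSet) ∧
      ∀ β ∈ β₀.toZFSet, (∃ i ∈ μ₀.toZFSet, ∃ (a : Finset V) (r : Cd), r ≤ p ∧ Qf x r i a β) →
        ∃ t, b t = β := by
  classical
  let ob : β₀.ToType → ZFSet.{0} := fun t => (Ordinal.typein (α := β₀.ToType) (· < ·) t).toZFSet
  have hob : Function.Injective ob := fun s t h =>
    Ordinal.typein_injective _ (Ordinal.toZFSet_injective h)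
  let om : μ₀.ToType → ZFSet.{0} := fun t => (Ordinal.typein (α := μ₀.ToType) (· < ·) t).toZFSet
  have hom : ∀ t, om t ∈ μ₀.toZFSet := fun t => Ordinal.toZFSet_mem_toZFSet_iff.2 (by
    have := Ordinal.typein_lt_type (α := μ₀.ToType) (· < ·) t
    rwa [Ordinal.type_toType] at this)
  have sur : ∀ (o : Ordinal.{0}) (z : ZFSet.{0}), z ∈ o.toZFSet →
      ∃ t : o.ToType, (Ordinal.typein (α := o.ToType) (· < ·) t).toZFSet = z := by
    intro o z hz
    obtain ⟨c, hc, rfl⟩ := Ordinal.mem_toZFSet_iff.1 hz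
    have hc' : c < Ordinal.type (α := o.ToType) (· < ·) := by rwa [Ordinal.type_toType]
    exact ⟨Ordinal.enum (α := o.ToType) (· < ·) ⟨c, hc'⟩, by rw [Ordinal.typein_enum]⟩
  let T : Type := {t : β₀.ToType // ∃ i : μ₀.ToType, ∃ (a : Finset V) (r : Cd), r ≤ p ∧
    Qf x r (om i) a (ob t)}
  choose i hi using fun t : T => t.2
  have hfew : ∀ m : μ₀.ToType, #{t : T // i t = m} < #(K α) := by
    intro m
    refine few hp hx (hom m) (fun t : {t : T // i t = m} => ob t.1.1) (fun s t h => ?_)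
      fun t => ?_
    · exact Subtype.ext (Subtype.ext (hob h))
    · obtain ⟨a, r, h1, h2⟩ := hi t.1
      rw [t.2] at h2
      exact ⟨a, r, h1, h2⟩
  have hT : #T ≤ #μ₀.ToType * #(K α) := by
    have h1 : ∀ m : μ₀.ToType, Nonempty ({t : T // i t = m} ↪ K α) := fun m => by
      rw [← Cardinal.le_def]
      exact (hfew m).le
    have e := fun m => Classical.choice (h1 m)
    rw [Cardinal.mul_def]
    refine Cardinal.mk_le_of_injective (f := fun t : T => ((i t, e (i t) ⟨t, rfl⟩) :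
      μ₀.ToType × K α)) fun s t h => ?_
    have h2 : i s = i t := congrArg Prod.fst h
    have h3 : e (i s) ⟨s, rfl⟩ = e (i t) ⟨t, rfl⟩ := congrArg Prod.snd h
    have key : ∀ m (hm : i t = m), e (i t) ⟨t, rfl⟩ = e m ⟨t, hm⟩ := by
      rintro _ rfl
      rfl
    have h4 : e (i s) ⟨s, rfl⟩ = e (i s) ⟨t, h2.symm⟩ := h3.trans (key _ h2.symm)
    have h5 := (e (i s)).injective h4
    exact congrArg Subtype.val h5
  have hKinf : ℵ₀ ≤ #(K α) := by
    rw [mk_K]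
    exact Cardinal.aleph0_le_aleph _
  have hcase : #T ≤ #(K α) ∨ #T ≤ #μ₀.ToType := by
    rcases le_total (#μ₀.ToType) (#(K α)) with h | h
    · left
      refine hT.trans ((mul_le_mul_left h _).trans ?_)
      exact (Cardinal.mul_eq_self hKinf).le
    · right
      refine hT.trans ((mul_le_mul_right h _).trans ?_)
      exact (Cardinal.mul_eq_self (hKinf.trans h)).le
  have hall : ∀ β ∈ β₀.toZFSet, (∃ i ∈ μ₀.toZFSet, ∃ (a : Finset V) (r : Cd), r ≤ p ∧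
      Qf x r i a β) → ∃ t : T, ob t.1 = β := by
    rintro β hβ ⟨m, hm, a, r, h1, h2⟩
    obtain ⟨t, rfl⟩ := sur _ _ hβ
    obtain ⟨m, rfl⟩ := sur _ _ hm
    exact ⟨⟨t, m, a, r, h1, h2⟩, rfl⟩
  have hb : ∀ t : T, ob t.1 ∈ β₀.toZFSet := fun t => Ordinal.toZFSet_mem_toZFSet_iff.2 (by
    have := Ordinal.typein_lt_type (α := β₀.ToType) (· < ·) t.1
    rwa [Ordinal.type_toType] at this)
  rcases hcase with h | h
  · obtain ⟨j⟩ := (Cardinal.le_def _ _).1 h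
    refine ⟨T, fun t => ob t.1, fun t => oc (j t), kap α, fun s t h => Subtype.ext (hob h),
      fun s t h => ?_, fun t => ?_, Or.inr rfl, hb, hall⟩
    · exact j.injective (Ordinal.typein_injective _ (Ordinal.toZFSet_injective h))
    · refine Ordinal.toZFSet_mem_toZFSet_iff.2 ?_
      have := Ordinal.typein_lt_type (α := K α) (· < ·) (j t)
      rwa [Ordinal.type_toType] at this
  · obtain ⟨j⟩ := (Cardinal.le_def _ _).1 h
    refine ⟨T, fun t => ob t.1, fun t => om (j t), μ₀, fun s t h => Subtype.ext (hob h),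
      fun s t h => ?_, fun t => hom _, Or.inl rfl, hb, hall⟩
    exact j.injective (Ordinal.typein_injective _ (Ordinal.toZFSet_injective h))

end Pool.Agent.R596.NW
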