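import Pool.Agent.R596.NwNar
import Pool.Agent.W868.Itr

/-!
# Narrowness in the symmetric submodel
-/

set_option autoImplicit false
set_option linter.all false

namespace Pool.Agent.R596.NW

open Cardinal Ordinal
open Pool.Agent.W868 Pool.Agent.W868.PName Pool.Agent.W910.SY
open ZFSet (pair)

/-- The name of a set of ground model sets. -/
noncomputable def nR (T : Type) (b : T → ZFSet.{0}) : PName Cd :=
  rn T (fun t => check (b t)) fun _ _ => True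

/-- The name of a relation of the ground model. -/
noncomputable def nJ (T : Type) (b j : T → ZFSet.{0}) : PName Cd :=
  rn T (fun t => opN (check (b t)) (check (j t))) fun _ _ => True

theorem hs_nR (T : Type) (b : T → ZFSet.{0}) : sy.HS (nR T b) := by
  obtain ⟨-, α, -⟩ := sy.ne
  exact hs_rn (α := α) (fun t => sy.hs_check _) (fun g _ t => act_ck g _) fun g _ t c => Iff.rfl

theorem hs_nJ (T : Type) (b j : T → ZFSet.{0}) : sy.HS (nJ T b j) := by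
  obtain ⟨-, α, -⟩ := sy.ne
  exact hs_rn (α := α) (fun t => hs_ckp _ _) (fun g _ t => act_ckp g _ _)
    fun g _ t c => Iff.rfl

theorem mem_nR {T : Type} {b : T → ZFSet.{0}} {π : Pkg Cd} {z : ZFSet.{0}} :
    z ∈ π.val (nR T b) ↔ ∃ t, check (b t) ∈ π.N ∧ π.hat (b t) = z := by
  unfold nR
  rw [mem_rn fun _ _ _ _ h => h]
  exact exists_congr fun t => ⟨fun ⟨h1, _, h3⟩ => ⟨h1, h3⟩, fun ⟨h1, h3⟩ => ⟨h1, ⟨0, trivial⟩, h3⟩⟩

theorem mem_nJ {T : Type} {b j : T → ZFSet.{0}} {π : Pkg Cd} {z : ZFSet.{0}} :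
    z ∈ π.val (nJ T b j) ↔ ∃ t, check (b t) ∈ π.N ∧ check (j t) ∈ π.N ∧
      pair (π.hat (b t)) (π.hat (j t)) = z := by
  unfold nJ
  rw [mem_rn fun _ _ _ _ h => h]
  constructor
  · rintro ⟨t, h1, -, rfl⟩
    exact ⟨t, π.fst_mem h1, π.snd_mem h1, (π.val_opN (π.fst_mem h1) (π.snd_mem h1)).symm⟩
  · rintro ⟨t, h1, h2, rfl⟩
    exact ⟨t, π.opN_mem h1 h2, ⟨0, trivial⟩, π.val_opN h1 h2⟩

theorem total_nJ {T : Type} {b j : T → ZFSet.{0}} {π : Pkg Cd} (hJ : nJ T b j ∈ π.N) {t : T}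
    (ht : check (b t) ∈ π.N) : ∃ y, pair (π.hat (b t)) y ∈ π.val (nJ T b j) := by
  have h := dens (S := {nJ T b j, check (b t)})
    (R := fun π => ∃ y ∈ π.W, pair (π.hat (b t)) y ∈ π.val (nJ T b j)) ?_ (fun p => ?_) π ?_
  · obtain ⟨y, -, h⟩ := h
    exact ⟨y, h⟩
  · refine NDfn.ex ?_
    exact NDfn.mem (NDfnF.pair (NDfnF.hat (by simp)) (NDfnF.proj 0)) (NDfnF.val (by simp))
  · obtain ⟨π', hA, h0, hk⟩ := pkg {nJ T b j, check (b t), check (j t)}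
      (Set.toFinite _).countable p
    have n1 : check (b t) ∈ π'.N := hA (by simp)
    have n2 : check (j t) ∈ π'.N := hA (by simp)
    refine ⟨π', fun y hy => hA ?_, ⟨0, h0.le⟩, π'.hat (j t), π'.val_mem_W n2,
      mem_nJ.2 ⟨t, n1, n2, rfl⟩⟩
    rcases hy with rfl | rfl <;> simp
  · rintro y (rfl | rfl)
    · exact hJ
    · exact ht

/-- Extending a condition: the collapsing functions are onto. -/
theorem ext_col (p : Cd) (α : Lv) (x : K α) :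
    ∃ (n : ℕ) (q : Cd), q ≤ p ∧ Fact.col 0 n ⟨α, x⟩ ∈ q.F := by
  classical
  let nm : Fact → ℕ := fun t => match t with
    | .col _ n _ => n
    | _ => 0
  obtain ⟨n, hn⟩ : ∃ n, ∀ t ∈ p.F, nm t < n :=
    ⟨p.F.sup nm + 1, fun t ht => Nat.lt_succ_of_le (Finset.le_sup (f := nm) ht)⟩
  have hc : Con (insert (Fact.col 0 n ⟨α, x⟩) p.F) := by
    refine ⟨fun v w h1 h2 => ?_, fun i v w h1 h2 h3 h4 => ?_, fun i m y z h1 h2 h3 => ?_⟩
    · simp only [Finset.mem_insert, reduceCtorEq, false_or] at h1 h2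
      exact p.con.1 v w h1 h2
    · simp only [Finset.mem_insert, reduceCtorEq, false_or] at h1 h2 ⊢
      exact p.con.2.1 i v w h1 h2 h3 h4
    · simp only [Finset.mem_insert, Fact.col.injEq] at h1 h2
      rcases h1 with ⟨rfl, rfl, rfl⟩ | h1 <;> rcases h2 with ⟨h5, h6, h7⟩ | h2
      · exact h7.symm
      · exact absurd (hn _ h2) (lt_irrefl m)
      · subst h6
        exact absurd (hn _ h1) (lt_irrefl _)
      · exact p.con.2.2 i m y z h1 h2 h3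
  exact ⟨n, ⟨_, hc⟩, Finset.subset_insert _ _, Finset.mem_insert_self _ _⟩

theorem mem_Ng {α : Lv} {π : Pkg Cd} {z : ZFSet.{0}} : z ∈ π.val (Ng α) ↔
    ∃ (n : ℕ) (x : K α), check (oc x) ∈ π.N ∧ (∃ k, Fact.col 0 n ⟨α, x⟩ ∈ (π.g k).F) ∧
      pair (nat n) (π.hat (oc x)) = z := by
  unfold Ng
  rw [mem_rn (C := fun (t : ℕ × K α) (p : Cd) => Fact.col 0 t.1 ⟨α, t.2⟩ ∈ p.F)
    fun _ _ _ h1 h2 => h1 h2]
  constructor
  · rintro ⟨⟨n, x⟩, h1, h2, rfl⟩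
    refine ⟨n, x, π.snd_mem h1, h2, ?_⟩
    rw [π.val_opN (π.fst_mem h1) (π.snd_mem h1)]
    have e : π.val (check (nat n)) = nat n := π.hat_nat n
    rw [e]
    rfl
  · rintro ⟨n, x, h1, h2, rfl⟩
    have h3 : check (nat n) ∈ π.N := π.nat_Z n
    refine ⟨(n, x), π.opN_mem h3 h1, h2, ?_⟩
    have e : π.val (check (nat n)) = nat n := π.hat_nat n
    rw [π.val_opN h3 h1, e]
    rfl

theorem total_Ng {α : Lv} {π : Pkg Cd} (hg : Ng α ∈ π.N) {x : K α}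
    (hx : check (oc x) ∈ π.N) : ∃ n : ℕ, pair (nat n) (π.hat (oc x)) ∈ π.val (Ng α) := by
  have h := dens (S := {Ng α, check (oc x)})
    (R := fun π => ∃ y ∈ π.W, pair y (π.hat (oc x)) ∈ π.val (Ng α)) ?_ (fun p => ?_) π ?_
  · obtain ⟨y, -, h⟩ := h
    obtain ⟨n, x', h1, h2, h3⟩ := mem_Ng.1 h
    obtain ⟨h4, h5⟩ := ZFSet.pair_inj.1 h3
    exact ⟨n, by rw [← h5]; exact mem_Ng.2 ⟨n, x', h1, h2, rfl⟩⟩
  · refine NDfn.ex ?_
    exact NDfn.mem (NDfnF.pair (NDfnF.proj 0) (NDfnF.hat (by simp))) (NDfnF.val (by simp))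
  · obtain ⟨n, q, h1, h2⟩ := ext_col p α x
    obtain ⟨π', hA, h0, hk⟩ := pkg {Ng α, check (oc x)} (Set.toFinite _).countable q
    have n1 : check (oc x) ∈ π'.N := hA (by simp)
    refine ⟨π', hA, ⟨0, h0 ▸ h1⟩, nat n, ?_, mem_Ng.2 ⟨n, x, n1, ⟨0, by rw [h0]; exact h2⟩, rfl⟩⟩
    rw [← π'.hat_nat n]
    exact π'.val_mem_W (π'.nat_Z n)
  · rintro y (rfl | rfl)
    · exact hg
    · exact hx

theorem ord_hat {π : Pkg Cd} {x : ZFSet.{0}} (h : x.IsOrdinal) (hx : x ∈ π.W) :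
    ∃ o : Ordinal.{0}, check o.toZFSet ∈ π.N ∧ π.hat o.toZFSet = x := by
  obtain ⟨a, ha, rfl⟩ := hx
  have h1 := π.rank_le ha
  rw [ZFSet.IsOrdinal.rank_le_iff_subset h (π.hat_isOrdinal (ZFSet.isOrdinal_toZFSet _)),
    ZFSet.IsOrdinal.subset_iff_eq_or_mem h (π.hat_isOrdinal (ZFSet.isOrdinal_toZFSet _))] at h1
  rcases h1 with h1 | h1
  · exact ⟨nrk a, π.nrk_Z ha, h1.symm⟩
  · obtain ⟨y, hy, hyZ, h2⟩ := π.mem_hat.1 h1
    obtain ⟨o, -, rfl⟩ := Ordinal.mem_toZFSet_iff.1 hy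
    exact ⟨o, hyZ, h2⟩

theorem mem_hat_of_mem {π : Pkg Cd} {x : PName Cd} (hx : x ∈ π.N) {z : ZFSet.{0}}
    (h : z.IsOrdinal) (hz : z ∈ π.val x) : z ∈ π.hat (nrk x).toZFSet := by
  have h1 := (ZFSet.rank_lt_of_mem hz).trans_le (π.rank_le hx)
  have h2 : (π.hat (nrk x).toZFSet).IsOrdinal := π.hat_isOrdinal (ZFSet.isOrdinal_toZFSet _)
  rcases h.mem_trichotomous h2 with h3 | h3 | h3
  · exact h3
  · rw [h3] at h1
    exact absurd h1 (lt_irrefl _)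
  · exact absurd (h1.trans (ZFSet.rank_lt_of_mem h3)) (lt_irrefl _)

end Pool.Agent.R596.NW
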