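import Pool.Agent.R596.NwNar2

/-!
# Narrowness in the symmetric submodel: the theorem
-/

set_option autoImplicit false
set_option linter.all false

namespace Pool.Agent.R596.NW

open Cardinal Ordinal
open Pool.Agent.W868 Pool.Agent.W868.PName Pool.Agent.W910.SY Pool.Agent.R596Nw
open ZFSet (pair)

/-- The name `t` codes an injection defined on the possible values. -/
def Good (x : PName Cd) (p : Cd) (t : PName Cd) : Prop :=
  ∃ (y : PName Cd) (μ₀ β₀ ν : Ordinal.{0}) (α : Lv) (T : Type) (b j : T → ZFSet.{0}),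
    x = opN y (opN (check μ₀.toZFSet) (check β₀.toZFSet)) ∧
    t = opN (nR T b) (opN (nJ T b j) (opN (Ng α) (check (kap α).toZFSet))) ∧
    Function.Injective b ∧ Function.Injective j ∧ (∀ t, j t ∈ ν.toZFSet) ∧
    (ν = μ₀ ∨ ν = kap α) ∧
    ∀ β ∈ β₀.toZFSet, (∃ i ∈ μ₀.toZFSet, ∃ (a : Finset V) (r : Cd), r ≤ p ∧ Qf y r i a β) →
      ∃ t, b t = β

open Classical in
/-- The rule for narrowness. -/
noncomputable def F1 (x : PName Cd) (p : Cd) : PName Cd :=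
  if h : ∃ t, Good x p t then h.choose else emp

open Classical in
/-- The rule for uniformity. -/
noncomputable def F2 (x : PName Cd) (_ : Cd) : PName Cd :=
  if h : ∃ α, sy.Fix (Fx α) x then opN (Nf h.choose) (check (kap h.choose).toZFSet) else emp

/-- The rules. -/
def RR : Set (Rule Cd) := {r0 F1, r0 F2}

theorem Ms_W {π : Pkg Cd} {x : ZFSet.{0}} (h : x ∈ sy.Ms π) : x ∈ π.W := by
  obtain ⟨a, ⟨ha, -⟩, rfl⟩ := h
  exact π.val_mem_W ha

theorem val_Ms {π : Pkg Cd} {x : PName Cd} (h : x ∈ π.N) (h' : sy.HS x) : π.val x ∈ sy.Ms π :=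
  ⟨x, ⟨h, h'⟩, rfl⟩

theorem zf_Ms {π : Pkg Cd} (h : sy.Cld π) : IsZF (sy.Ms π) :=
  T_ZF.main T_TRU.main T_SEP.main Cd sy π h

/-- The ordinal of a level is countable in the submodel. -/
theorem inj_kap {π : Pkg Cd} (h : sy.Cld π) {α : Lv} (hg : Ng α ∈ π.N)
    (hκ : check (kap α).toZFSet ∈ π.N) :
    Inj (sy.Ms π) (π.hat (kap α).toZFSet) ZFSet.omega := by
  have hM := zf_Ms h
  have hB := hM.base
  have hgM : π.val (Ng α) ∈ sy.Ms π := val_Ms hg (hs_Ng α)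
  have hω := hM.infinity
  have hel : ∀ ζ ∈ π.hat (kap α).toZFSet, ∃ n : ℕ, pair (nat n) ζ ∈ π.val (Ng α) := by
    intro ζ hζ
    obtain ⟨y, hy, hyZ, rfl⟩ := π.mem_hat.1 hζ
    obtain ⟨c, hc, rfl⟩ := Ordinal.mem_toZFSet_iff.1 hy
    have hc' : c < Ordinal.type (α := K α) (· < ·) := by rwa [Ordinal.type_toType]
    have h1 : oc (Ordinal.enum (α := K α) (· < ·) ⟨c, hc'⟩) = c.toZFSet := by
      unfold oc
      rw [Ordinal.typein_enum]
    rw [← h1]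
    refine total_Ng hg ?_
    rw [h1]
    exact hyZ
  refine Inj.of_rel hM (val_Ms hκ (sy.hs_check _)) hω
    (R := fun ζ n => pair n ζ ∈ π.val (Ng α) ∧ ∀ m ∈ n, ¬ pair m ζ ∈ π.val (Ng α)) ?_ ?_ ?_ ?_
  · refine Dfn.and (Dfn.mem (hB.pair' (DfnF.proj 1) (DfnF.proj 0)) (DfnF.const hgM)) ?_
    refine hB.ball (DfnF.proj 1) ?_
    exact Dfn.not (Dfn.mem (hB.pair' (DfnF.proj 0) (DfnF.proj 1)) (DfnF.const hgM))
  · intro ζ hζ
    classical
    have h1 := hel ζ hζ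
    refine ⟨nat (Nat.find h1), nat_mem_omega _, Nat.find_spec h1, fun m hm hm' => ?_⟩
    rw [nat_eq, Ordinal.mem_toZFSet_iff] at hm
    obtain ⟨c, hc, rfl⟩ := hm
    obtain ⟨l, rfl⟩ := Ordinal.lt_omega0.1 (hc.trans (Ordinal.natCast_lt_omega0 _))
    rw [← nat_eq] at hm'
    exact Nat.find_min h1 (by exact_mod_cast hc) hm'
  · rintro ζ - n hn n' hn' ⟨h1, h2⟩ ⟨h3, h4⟩
    obtain ⟨k, rfl⟩ := mem_omega_iff.1 hn
    obtain ⟨l, rfl⟩ := mem_omega_iff.1 hn'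
    have ht : nat k ∈ nat l ∨ nat k = nat l ∨ nat l ∈ nat k := by
      rw [nat_eq, nat_eq]
      exact (ZFSet.isOrdinal_toZFSet _).mem_trichotomous (ZFSet.isOrdinal_toZFSet _)
    rcases ht with h5 | h5 | h5
    · exact absurd h1 (h4 _ h5)
    · exact h5
    · exact absurd h3 (h2 _ h5)
  · rintro ζ - ζ' - n - ⟨h1, -⟩ ⟨h2, -⟩
    obtain ⟨k, x, h3, ⟨m, h4⟩, h5⟩ := mem_Ng.1 h1
    obtain ⟨k', x', h3', ⟨m', h4'⟩, h5'⟩ := mem_Ng.1 h2
    obtain ⟨h6, rfl⟩ := ZFSet.pair_inj.1 h5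
    obtain ⟨h7, rfl⟩ := ZFSet.pair_inj.1 h5'
    obtain rfl := nat_injective (h6.trans h7.symm)
    have h8 := π.g_le_left m m' h4
    have h9 := π.g_le_right m m' h4'
    have h10 := (π.g (max m m')).con.2.2 0 k _ _ h8 h9 rfl
    have h11 : x = x' := eq_of_heq (Sigma.mk.inj h10).2
    rw [h11]

/-- Narrowness. -/
theorem narrow {π : Pkg Cd} (h : sy.Cld π) (hR : ClR RR π) (hP : NP ∈ π.N) (hL : NL ∈ π.N) :
    Narrow (sy.Ms π) (π.val NP) (π.val NL) ZFSet.omega := by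
  have hM := zf_Ms h
  have hB := hM.base
  have hω := hM.infinity
  intro μ hμ hμo F hF hF1 hF2 U hU hU1
  obtain ⟨μ₀, nμ, rfl⟩ := ord_hat hμo (Ms_W hμ)
  obtain ⟨y, ⟨ny, hy⟩, rfl⟩ := hF
  obtain ⟨u, ⟨nu, hu⟩, rfl⟩ := hU
  obtain ⟨-, ⟨α, rfl⟩, hx⟩ := hy.sym
  -- the sequence of homomorphisms is forced
  have hSN : sS y μ₀.toZFSet ⊆ π.N := by
    rintro z (rfl | rfl | rfl | rfl)
    · exact ny
    · exact nμ
    · exact hP
    · exact hL
  have hSH : SH y μ₀.toZFSet π := by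
    intro i hi f hf hif
    have h1 := hF2 i hi f hif
    refine ⟨fun f' _ hif' => (hF1 i hi).unique hif hif', fun a _ b _ hab => ⟨?_, ?_⟩⟩
    · obtain ⟨p, hp, β, -, h2⟩ := h1.sub _ hab
      rw [(ZFSet.pair_inj.1 h2).1]
      exact hp
    · intro c _ d _ hcd e he hea hec
      exact h1.hom a c b d hab hcd ⟨e, he, hea, hec⟩
  obtain ⟨k, hk⟩ := forcing_theorem (dfn_SH y μ₀.toZFSet) π hSN hSH
  -- the name for the injection
  obtain ⟨T, b, j, ν, c1, c2, c3, c4, -, c6⟩ := total (β₀ := nrk u) hk hx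
  have hgood : ∃ t, Good (opN y (opN (check μ₀.toZFSet) (check (nrk u).toZFSet))) (π.g k) t :=
    ⟨_, y, μ₀, nrk u, ν, α, T, b, j, rfl, rfl, c1, c2, c3, c4, c6⟩
  have nβ : check (nrk u).toZFSet ∈ π.N := π.nrk_Z nu
  have h1 : F1 (opN y (opN (check μ₀.toZFSet) (check (nrk u).toZFSet))) (π.g k) ∈ π.N :=
    r0_mem hR (by simp [RR]) (π.opN_mem ny (π.opN_mem nμ nβ)) k
  have h2 : F1 (opN y (opN (check μ₀.toZFSet) (check (nrk u).toZFSet))) (π.g k) =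
    hgood.choose := dif_pos hgood
  rw [h2] at h1
  have h3 := hgood.choose_spec
  generalize hgood.choose = t at h1 h3
  clear c1 c2 c3 c4 c6 h2 hgood
  obtain ⟨y', μ₁, β₁, ν', α', T', b', j', e1, rfl, c1, c2, c3, c4, c6⟩ := h3
  obtain ⟨rfl, e2⟩ := opN_inj e1
  obtain ⟨e3, e4⟩ := opN_inj e2
  obtain rfl := Ordinal.toZFSet_injective (check_injective e3)
  obtain rfl := Ordinal.toZFSet_injective (check_injective e4)
  have nR' := π.fst_mem h1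
  have nJ' := π.fst_mem (π.snd_mem h1)
  have nG := π.fst_mem (π.snd_mem (π.snd_mem h1))
  have nκ := π.snd_mem (π.snd_mem (π.snd_mem h1))
  have mR : π.val (nR T' b') ∈ sy.Ms π := val_Ms nR' (hs_nR _ _)
  have mJ : π.val (nJ T' b' j') ∈ sy.Ms π := val_Ms nJ' (hs_nJ _ _ _)
  have mκ : π.hat (kap α').toZFSet ∈ sy.Ms π := val_Ms nκ (sy.hs_check _)
  have mU : π.val u ∈ sy.Ms π := val_Ms nu hu
  have nν : check ν'.toZFSet ∈ π.N := by
    rcases c4 with rfl | rfl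
    · exact nμ
    · exact nκ
  have mν : π.hat ν'.toZFSet ∈ sy.Ms π := val_Ms nν (sy.hs_check _)
  have mω : ZFSet.omega ∪ π.hat μ₀.toZFSet ∈ sy.Ms π := hM.union_mem hω hμ
  -- the union of the ranges
  have hsub : π.val u ⊆ π.val (nR T' b') := by
    intro β hβ
    obtain ⟨i, hi, f, hif, a, haf⟩ := (hU1 β).1 hβ
    obtain ⟨a', ha', β', hβo, h4⟩ := (hF2 i hi f hif).sub _ haf
    obtain ⟨rfl, rfl⟩ := ZFSet.pair_inj.1 h4
    obtain ⟨A, nA, ⟨l, hl⟩, rfl⟩ := mem_NP.1 ha'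
    obtain ⟨β₂, h5, nβ₂, rfl⟩ := π.mem_hat.1 (mem_hat_of_mem nu hβo hβ)
    obtain ⟨i₂, h6, ni₂, rfl⟩ := π.mem_hat.1 hi
    have hfW : f ∈ π.W := by
      have hpW : pair (π.hat i₂) f ∈ π.W := π.trans_W (π.val_mem_W ny) hif
      exact (π.isZF_W.of_pair_mem hpW).2
    obtain ⟨φ, nφ, rfl⟩ := hfW
    have h7 : π.val (opN (check i₂) φ) ∈ π.val y := by
      rw [π.val_opN ni₂ nφ]
      exact hif
    have h8 : π.val (opN (check (cd A)) (check β₂)) ∈ π.val φ := by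
      rw [π.val_opN nA nβ₂]
      exact haf
    obtain ⟨k1, hk1⟩ := (π.val_mem_iff (π.opN_mem ni₂ nφ) ny).1 h7
    obtain ⟨k2, hk2⟩ := (π.val_mem_iff (π.opN_mem nA nβ₂) nφ).1 h8
    have h9 : Qf y (π.g (max k (max k1 k2))) i₂ A β₂ := by
      refine ⟨φ, hk1.mono ?_, hk2.mono ?_⟩
      · exact π.g_anti ((le_max_left k1 k2).trans (le_max_right _ _))
      · exact π.g_anti ((le_max_right k1 k2).trans (le_max_right _ _))
    obtain ⟨t, rfl⟩ := c6 β₂ h5 ⟨i₂, h6, A, _, π.g_le_left k _, h9⟩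
    exact mem_nR.2 ⟨t, nβ₂, rfl⟩
  -- the injection
  have hi1 : Inj (sy.Ms π) (π.val (nR T' b')) (π.hat ν'.toZFSet) := by
    refine Inj.of_rel hM mR mν (R := fun a c => pair a c ∈ π.val (nJ T' b' j')) ?_ ?_ ?_ ?_
    · exact Dfn.mem (hB.pair' (DfnF.proj 0) (DfnF.proj 1)) (DfnF.const mJ)
    · intro a ha
      obtain ⟨t, ht, rfl⟩ := mem_nR.1 ha
      obtain ⟨z, hz⟩ := total_nJ nJ' ht
      obtain ⟨t', h4, h5, h6⟩ := mem_nJ.1 hz
      obtain ⟨-, rfl⟩ := ZFSet.pair_inj.1 h6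
      exact ⟨_, (π.hat_mem_hat h5 nν).2 (c3 t'), hz⟩
    · intro a _ z _ z' _ h4 h5
      obtain ⟨t, h6, h7, h8⟩ := mem_nJ.1 h4
      obtain ⟨t', h6', h7', h8'⟩ := mem_nJ.1 h5
      obtain ⟨e5, rfl⟩ := ZFSet.pair_inj.1 h8
      obtain ⟨e6, rfl⟩ := ZFSet.pair_inj.1 h8'
      obtain rfl := c1 ((π.hat_inj h6 h6').1 (e5.trans e6.symm))
      rfl
    · intro a _ a' _ z _ h4 h5
      obtain ⟨t, h6, h7, h8⟩ := mem_nJ.1 h4
      obtain ⟨t', h6', h7', h8'⟩ := mem_nJ.1 h5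
      obtain ⟨rfl, e5⟩ := ZFSet.pair_inj.1 h8
      obtain ⟨rfl, e6⟩ := ZFSet.pair_inj.1 h8'
      obtain rfl := c2 ((π.hat_inj h7 h7').1 (e5.trans e6.symm))
      rfl
  have hi2 : Inj (sy.Ms π) (π.hat ν'.toZFSet) (ZFSet.omega ∪ π.hat μ₀.toZFSet) := by
    rcases c4 with rfl | rfl
    · exact Inj.of_subset hM mν mω fun z hz => ZFSet.mem_union.2 (Or.inr hz)
    · exact Inj.trans hM mν mω (inj_kap h nG nκ)
        (Inj.of_subset hM hω mω fun z hz => ZFSet.mem_union.2 (Or.inl hz))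
  exact Inj.trans hM mU mω (Inj.trans hM mU mν (Inj.of_subset hM mU mR hsub) hi1) hi2

end Pool.Agent.R596.NW
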