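import Pool.Agent.W910.SY.T_ZF
import Pool.Agent.W910.SY.T_TRU
import Pool.Agent.W910.SY.T_SEP
import Pool.Agent.W910.SY.Hul
import Pool.Agent.W868.Inj
import Pool.Agent.W868.Base2
import Pool.Agent.R596.NwKL

/-!
# The symmetric system and the names
-/

set_option autoImplicit false
set_option linter.all false

namespace Pool.Agent.R596.NW

open Cardinal Ordinal
open Pool.Agent.W868 Pool.Agent.W868.PName Pool.Agent.W910.SY
open ZFSet (pair)

/-- The automorphism. -/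
def aut (g : Gm) : Cd ≃o Cd where
  toFun := sm g
  invFun := sm g⁻¹
  left_inv p := by rw [← sm_mul, inv_mul_cancel, sm_one]
  right_inv p := by rw [← sm_mul, mul_inv_cancel, sm_one]
  map_rel_iff' := sm_le

/-- The symmetric system. -/
def sy : Sys Cd where
  G := Gm
  grp := inferInstance
  ac :=
    { toFun := aut
      map_one' := by
        ext p
        exact sm_one p
      map_mul' := fun g h => by
        ext p
        exact sm_mul g h p }
  top := sm_top
  F := Set.range Fx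
  ne := by
    obtain ⟨α, -⟩ := exists_bd (fun _ => Classical.choice (by
      have : #Lv ≠ 0 := by
        rw [mk_toType, Ordinal.card_omega]
        exact (Cardinal.aleph_pos 1).ne'
      exact Cardinal.mk_ne_zero_iff.1 this))
    exact ⟨_, α, rfl⟩
  conj := by
    rintro _ ⟨α, rfl⟩ g
    refine ⟨_, ⟨α, rfl⟩, fun k hk β hβ => ?_⟩
    obtain ⟨h1, h2⟩ := hk β hβ
    constructor
    · simp only [Prod.fst_mul, Prod.fst_inv, Pi.mul_apply, Pi.inv_apply, h1, mul_one,
        inv_mul_cancel]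
    · simp only [Prod.snd_mul, Prod.snd_inv, Pi.mul_apply, Pi.inv_apply, h2, mul_one,
        inv_mul_cancel]
  dir := by
    intro H hH
    choose a ha using hH
    obtain ⟨α, hα⟩ := exists_bd a
    refine ⟨_, ⟨α, rfl⟩, fun n => ?_⟩
    rw [← ha n]
    exact Fx_anti (hα n)

theorem ac_apply (g : Gm) (p : Cd) : (sy.ac g) p = sm g p := rfl

/-- A name given by a family of names and sets of conditions. -/
def rn (T : Type) (x : T → PName Cd) (C : T → Cd → Prop) : PName Cd :=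
  PName.mk {t : T × Cd // C t.1 t.2} (fun t => x t.1.1) (fun t => t.1.2)

section rn

variable {T : Type} {x : T → PName Cd} {C : T → Cd → Prop}

theorem el_rn {z : PName Cd} {c : Cd} : El (rn T x C) z c ↔ ∃ t, z = x t ∧ C t c := by
  unfold rn
  rw [el_mk]
  constructor
  · rintro ⟨⟨⟨t, p⟩, h⟩, rfl, rfl⟩
    exact ⟨t, rfl, h⟩
  · rintro ⟨t, rfl, h⟩
    exact ⟨⟨(t, c), h⟩, rfl, rfl⟩

theorem act_rn {g : Gm} (hx : ∀ t, act (sy.ac g) (x t) = x t)
    (hC : ∀ t c, C t (sm g c) ↔ C t c) (p : Cd) :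
    Feq (act (sy.ac g) (rn T x C)) (rn T x C) p := by
  refine feq_of_el fun z c => ?_
  rw [el_act]
  constructor
  · rintro ⟨z', c', h1, rfl, rfl⟩
    obtain ⟨t, rfl, h2⟩ := el_rn.1 h1
    exact el_rn.2 ⟨t, hx t, (hC t c').2 h2⟩
  · intro h1
    obtain ⟨t, rfl, h2⟩ := el_rn.1 h1
    refine ⟨x t, sm g⁻¹ c, el_rn.2 ⟨t, rfl, ?_⟩, (hx t).symm, ?_⟩
    · rw [← hC, ← sm_mul, mul_inv_cancel, sm_one]
      exact h2
    · rw [ac_apply, ← sm_mul, mul_inv_cancel, sm_one]

theorem fmem_rn {t : T} {p : Cd} (h : C t p) : Fmem (x t) (rn T x C) p := by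
  rw [fmem_iff]
  exact fun q hq => ⟨q, le_rfl, x t, p, el_rn.2 ⟨t, rfl, h⟩, hq, Feq.refl _ _⟩

theorem mem_rn {π : Pkg Cd} {z : ZFSet.{0}} (hC : ∀ t p q, q ≤ p → C t p → C t q) :
    z ∈ π.val (rn T x C) ↔ ∃ t, x t ∈ π.N ∧ (∃ k, C t (π.g k)) ∧ π.val (x t) = z := by
  rw [π.mem_val]
  constructor
  · rintro ⟨y, hy, c, h1, ⟨k, hk⟩, rfl⟩
    obtain ⟨t, rfl, h2⟩ := el_rn.1 h1
    exact ⟨t, hy, ⟨k, hC t _ _ hk h2⟩, rfl⟩
  · rintro ⟨t, h1, ⟨k, hk⟩, rfl⟩
    exact ⟨x t, h1, π.g k, el_rn.2 ⟨t, rfl, hk⟩, ⟨k, le_rfl⟩, rfl⟩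

theorem hs_rn {α : Lv} (hx : ∀ t, sy.HS (x t)) (hx' : ∀ g ∈ Fx α, ∀ t, act (sy.ac g) (x t) = x t)
    (hC : ∀ g ∈ Fx α, ∀ t c, C t (sm g c) ↔ C t c) : sy.HS (rn T x C) := by
  rw [Sys.hs_iff]
  refine ⟨⟨Fx α, ⟨α, rfl⟩, fun g hg p => act_rn (hx' g hg) (hC g hg) p⟩, fun z c h => ?_⟩
  obtain ⟨t, rfl, -⟩ := el_rn.1 h
  exact hx t

end rn

theorem act_ck (g : Gm) (x : ZFSet.{0}) : act (sy.ac g) (check x) = check x :=
  act_check (sy.top g) x

theorem act_ckp (g : Gm) (x y : ZFSet.{0}) :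
    act (sy.ac g) (opN (check x) (check y)) = opN (check x) (check y) := by
  rw [act_opN (sy.top g), act_ck, act_ck]

theorem hs_ckp (x y : ZFSet.{0}) : sy.HS (opN (check x) (check y)) :=
  sy.hs_opN (sy.hs_check x) (sy.hs_check y)

/-- The set `a` of vertices is independent in the graph. -/
def Ind (p : Cd) (a : Finset V) : Prop := ∀ v ∈ a, ∀ w ∈ a, v ≠ w → Fact.edge v w false ∈ p.F

theorem Ind.mono {p q : Cd} {a : Finset V} (h : Ind p a) (hq : q ≤ p) : Ind q a :=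
  fun v hv w hw hvw => hq (h v hv w hw hvw)

theorem ind_sm {g : Gm} {p : Cd} {a : Finset V} : Ind (sm g p) a ↔ Ind p a := by
  unfold Ind
  refine forall_congr' fun v => forall_congr' fun _ => forall_congr' fun w =>
    forall_congr' fun _ => forall_congr' fun _ => ?_
  exact mem_sm (g := g) (t := Fact.edge v w false)

/-- The name of the notion of forcing: the set of all independent sets. -/
noncomputable def NP : PName Cd := rn (Finset V) (fun a => check (cd a)) fun a p => Ind p a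

/-- The name of the order. -/
noncomputable def NL : PName Cd := rn (Finset V × Finset V)
  (fun a => opN (check (cd a.1)) (check (cd a.2))) fun a p => a.2 ⊆ a.1 ∧ Ind p a.1

/-- The ordinal of an element of `K α`. -/
noncomputable def oc {α : Lv} (x : K α) : ZFSet.{0} :=
  (Ordinal.typein (α := K α) (· < ·) x).toZFSet

/-- The name of the homomorphism given by a clique. -/
noncomputable def Nf (α : Lv) : PName Cd := rn V
  (fun v => opN (check (cd ({v} : Finset V))) (check (oc v.2.1)))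
  fun v p => v.1 = α ∧ Fact.clq 0 v ∈ p.F

/-- The name of a collapsing function. -/
noncomputable def Ng (α : Lv) : PName Cd := rn (ℕ × K α)
  (fun t => opN (check (nat t.1)) (check (oc t.2)))
  fun t p => Fact.col 0 t.1 ⟨α, t.2⟩ ∈ p.F

theorem hs_NP : sy.HS NP := by
  obtain ⟨-, α, -⟩ := sy.ne
  exact hs_rn (α := α) (fun t => sy.hs_check _) (fun g _ t => act_ck g _) fun g _ t c => ind_sm

theorem act_NP (g : Gm) (p : Cd) : Feq (act (sy.ac g) NP) NP p :=
  act_rn (fun t => act_ck g _) (fun t c => ind_sm) p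

theorem hs_NL : sy.HS NL := by
  obtain ⟨-, α, -⟩ := sy.ne
  exact hs_rn (α := α) (fun t => hs_ckp _ _) (fun g _ t => act_ckp g _ _)
    fun g _ t c => and_congr Iff.rfl ind_sm

theorem act_Nf {α : Lv} {g : Gm} (h : g.1 α 0 = 0) (p : Cd) :
    Feq (act (sy.ac g) (Nf α)) (Nf α) p := by
  refine act_rn (fun t => act_ckp g _ _) (fun v c => and_congr_right fun hv => ?_) p
  have h1 := mem_sm (g := g) (p := c) (t := Fact.clq 0 v)
  have h2 : fa g (Fact.clq 0 v) = Fact.clq 0 v := by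
    change Fact.clq (g.1 v.1 0) v = _
    rw [hv, h]
  rwa [h2] at h1

theorem hs_Nf (α : Lv) : sy.HS (Nf α) := by
  obtain ⟨β, hβ⟩ := exists_gt α
  refine hs_rn (α := β) (fun t => hs_ckp _ _) (fun g _ t => act_ckp g _ _)
    fun g hg v c => and_congr_right fun hv => ?_
  have h1 := mem_sm (g := g) (p := c) (t := Fact.clq 0 v)
  have h2 : fa g (Fact.clq 0 v) = Fact.clq 0 v := by
    change Fact.clq (g.1 v.1 0) v = _
    rw [hv, (hg α hβ).1]
    rfl
  rwa [h2] at h1

theorem hs_Ng (α : Lv) : sy.HS (Ng α) := by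
  obtain ⟨β, hβ⟩ := exists_gt α
  refine hs_rn (α := β) (fun t => hs_ckp _ _) (fun g _ t => act_ckp g _ _) fun g hg t c => ?_
  have h1 := mem_sm (g := g) (p := c) (t := Fact.col 0 t.1 ⟨α, t.2⟩)
  have h2 : fa g (Fact.col 0 t.1 ⟨α, t.2⟩) = Fact.col 0 t.1 ⟨α, t.2⟩ := by
    change Fact.col (g.2 α 0) _ _ = _
    rw [(hg α hβ).2]
    rfl
  rwa [h2] at h1

/-- A property that can be forced by extending any condition holds. -/
theorem dens {S : Set (PName Cd)} {R : Pkg Cd → Prop}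
    (h : NDfn S fun π (_ : Fin 0 → ZFSet.{0}) => R π)
    (hd : ∀ p : Cd, ∃ π' : Pkg Cd, S ⊆ π'.N ∧ (∃ m, π'.g m ≤ p) ∧ R π') (π : Pkg Cd)
    (hS : S ⊆ π.N) : R π := by
  by_contra hc
  obtain ⟨k, hk⟩ := forcing_theorem (R := fun π => ¬ R π) h.not π hS hc
  obtain ⟨π', h1, h2, h3⟩ := hd (π.g k)
  exact hk π' h1 h2 h3

end Pool.Agent.R596.NW
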