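import Pool.Agent.R596.NwNar3

/-!
# The notion of forcing is not uniformly narrow in the symmetric submodel
-/

set_option autoImplicit false
set_option linter.all false

namespace Pool.Agent.R596.NW

open Cardinal Ordinal
open Pool.Agent.W868 Pool.Agent.W868.PName Pool.Agent.W910.SY Pool.Agent.R596Nw
open ZFSet (pair)

/-- Extending a condition: the homomorphism of a clique is onto. -/
theorem ext_clq (p : Cd) (α : Lv) (x : K α) :
    ∃ (j : ℕ) (q : Cd), q ≤ p ∧ Fact.clq 0 ⟨α, (x, j)⟩ ∈ q.F := by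
  classical
  obtain ⟨j, hj⟩ : ∃ j : ℕ, (⟨α, (x, j)⟩ : V) ∉ spF p := by
    by_contra hc
    push Not at hc
    refine Set.infinite_univ (α := ℕ) (Set.Finite.subset
      (Set.Finite.preimage (f := fun j : ℕ => (⟨α, (x, j)⟩ : V)) ?_ (spF p).finite_toSet)
      fun j _ => hc j)
    intro j _ j' _ h
    have h1 : ((x, j) : K α × ℕ) = (x, j') := eq_of_heq (Sigma.mk.inj h).2
    exact congrArg Prod.snd h1
  set v : V := ⟨α, (x, j)⟩ with hv
  have hS : ¬ Sp p v := fun h => hj (mem_spF h)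
  let C : Finset V := (spF p).filter fun w => w.1 = α ∧ Fact.clq 0 w ∈ p.F
  have hC : ∀ w, w ∈ C ↔ w.1 = α ∧ Fact.clq 0 w ∈ p.F := fun w => by
    simp only [C, Finset.mem_filter]
    exact ⟨fun h => h.2, fun h => ⟨mem_spF (Or.inr ⟨0, h.2⟩), h⟩⟩
  let E : Finset Fact := C.image (fun w => Fact.edge v w true) ∪
    C.image (fun w => Fact.edge w v true)
  have hE : ∀ t, t ∈ E ↔ ∃ w, w ∈ C ∧ (t = Fact.edge v w true ∨ t = Fact.edge w v true) := by
    intro t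
    simp only [E, Finset.mem_union, Finset.mem_image]
    constructor
    · rintro (⟨w, h1, rfl⟩ | ⟨w, h1, rfl⟩)
      · exact ⟨w, h1, Or.inl rfl⟩
      · exact ⟨w, h1, Or.inr rfl⟩
    · rintro ⟨w, h1, rfl | rfl⟩
      · exact Or.inl ⟨w, h1, rfl⟩
      · exact Or.inr ⟨w, h1, rfl⟩
  have hc : Con (insert (Fact.clq 0 v) (p.F ∪ E)) := by
    refine ⟨fun a b h1 h2 => ?_, fun i a b h1 h2 h3 h4 => ?_, fun i m y z h1 h2 h3 => ?_⟩
    · simp only [Finset.mem_insert, reduceCtorEq, false_or, Finset.mem_union] at h1 h2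
      rcases h2 with h2 | h2
      · rcases h1 with h1 | h1
        · exact p.con.1 a b h1 h2
        · obtain ⟨w, -, h5⟩ := (hE _).1 h1
          rcases h5 with h5 | h5
          · simp only [Fact.edge.injEq] at h5
            rw [h5.1] at h2
            exact hS (Or.inl ⟨b, false, Or.inl h2⟩)
          · simp only [Fact.edge.injEq] at h5
            rw [h5.2.1] at h2
            exact hS (Or.inl ⟨a, false, Or.inr h2⟩)
      · obtain ⟨w, -, h5⟩ := (hE _).1 h2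
        rcases h5 with h5 | h5 <;> simp at h5
    · have hm : ∀ i a, Fact.clq i a ∈ insert (Fact.clq 0 v) (p.F ∪ E) →
          (i = 0 ∧ a = v) ∨ Fact.clq i a ∈ p.F := by
        intro i a h
        simp only [Finset.mem_insert, Fact.clq.injEq, Finset.mem_union] at h
        rcases h with h | h | h
        · exact Or.inl h
        · exact Or.inr h
        · obtain ⟨w, -, h5⟩ := (hE _).1 h
          rcases h5 with h5 | h5 <;> simp at h5
      refine Finset.mem_insert_of_mem (Finset.mem_union.2 ?_)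
      rcases hm i a h1 with ⟨rfl, rfl⟩ | h1 <;> rcases hm _ b h2 with ⟨h5, h6⟩ | h2
      · exact absurd h6.symm h4
      · exact Or.inr ((hE _).2 ⟨b, (hC b).2 ⟨h3.symm, h2⟩, Or.inl rfl⟩)
      · subst h5 h6
        exact Or.inr ((hE _).2 ⟨a, (hC a).2 ⟨h3, h1⟩, Or.inr rfl⟩)
      · exact Or.inl (p.con.2.1 i a b h1 h2 h3 h4)
    · have hm : ∀ i m y, Fact.col i m y ∈ insert (Fact.clq 0 v) (p.F ∪ E) →
          Fact.col i m y ∈ p.F := by
        intro i m y h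
        simp only [Finset.mem_insert, reduceCtorEq, false_or, Finset.mem_union] at h
        rcases h with h | h
        · exact h
        · obtain ⟨w, -, h5⟩ := (hE _).1 h
          rcases h5 with h5 | h5 <;> simp at h5
      exact p.con.2.2 i m y z (hm _ _ _ h1) (hm _ _ _ h2) h3
  exact ⟨j, ⟨_, hc⟩, fun t ht => Finset.mem_insert_of_mem (Finset.mem_union_left _ ht),
    Finset.mem_insert_self _ _⟩

theorem mem_Nf {α : Lv} {π : Pkg Cd} {z : ZFSet.{0}} : z ∈ π.val (Nf α) ↔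
    ∃ v : V, v.1 = α ∧ check (cd ({v} : Finset V)) ∈ π.N ∧ check (oc v.2.1) ∈ π.N ∧
      (∃ k, Fact.clq 0 v ∈ (π.g k).F) ∧
      pair (π.hat (cd ({v} : Finset V))) (π.hat (oc v.2.1)) = z := by
  unfold Nf
  rw [mem_rn (C := fun (v : V) (p : Cd) => v.1 = α ∧ Fact.clq 0 v ∈ p.F)
    fun _ _ _ h1 h2 => ⟨h2.1, h1 h2.2⟩]
  constructor
  · rintro ⟨v, h1, ⟨k, h2, h3⟩, rfl⟩
    exact ⟨v, h2, π.fst_mem h1, π.snd_mem h1, ⟨k, h3⟩,
      (π.val_opN (π.fst_mem h1) (π.snd_mem h1)).symm⟩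
  · rintro ⟨v, h1, h2, h3, ⟨k, h4⟩, rfl⟩
    exact ⟨v, π.opN_mem h2 h3, ⟨k, h1, h4⟩, π.val_opN h2 h3⟩

theorem total_Nf {α : Lv} {π : Pkg Cd} (hf : Nf α ∈ π.N) {x : K α}
    (hx : check (oc x) ∈ π.N) : ∃ z, pair z (π.hat (oc x)) ∈ π.val (Nf α) := by
  have h := dens (S := {Nf α, check (oc x)})
    (R := fun π => ∃ y ∈ π.W, pair y (π.hat (oc x)) ∈ π.val (Nf α)) ?_ (fun p => ?_) π ?_
  · obtain ⟨y, -, h⟩ := h
    exact ⟨y, h⟩
  · refine NDfn.ex ?_
    exact NDfn.mem (NDfnF.pair (NDfnF.proj 0) (NDfnF.hat (by simp))) (NDfnF.val (by simp))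
  · obtain ⟨j, q, h1, h2⟩ := ext_clq p α x
    obtain ⟨π', hA, h0, hk⟩ := pkg {Nf α, check (oc x), check (cd ({⟨α, (x, j)⟩} : Finset V))}
      (Set.toFinite _).countable q
    have n1 : check (oc x) ∈ π'.N := hA (by simp)
    have n2 : check (cd ({⟨α, (x, j)⟩} : Finset V)) ∈ π'.N := hA (by simp)
    refine ⟨π', fun y hy => hA ?_, ⟨0, h0 ▸ h1⟩, _, π'.val_mem_W n2,
      mem_Nf.2 ⟨⟨α, (x, j)⟩, rfl, n2, n1, ⟨0, by rw [h0]; exact h2⟩, rfl⟩⟩
    rcases hy with rfl | rfl <;> simp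
  · rintro y (rfl | rfl)
    · exact hf
    · exact hx

theorem hom_Nf {α : Lv} {π : Pkg Cd} : IsHom (π.val NP) (π.val NL) (π.val (Nf α)) := by
  refine ⟨fun x hx => ?_, fun p β γ h1 h2 => ?_, fun p q β γ h1 h2 h3 => ?_⟩
  · obtain ⟨v, -, h1, h2, -, rfl⟩ := mem_Nf.1 hx
    refine ⟨_, mem_NP.2 ⟨{v}, h1, ⟨0, ?_⟩, rfl⟩, _, π.hat_isOrdinal (ZFSet.isOrdinal_toZFSet _),
      rfl⟩
    intro a ha b hb hab
    rw [Finset.mem_singleton] at ha hb
    exact absurd (ha.trans hb.symm) hab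
  · obtain ⟨v, -, h3, -, -, h4⟩ := mem_Nf.1 h1
    obtain ⟨w, -, h3', -, -, h4'⟩ := mem_Nf.1 h2
    obtain ⟨h5, rfl⟩ := ZFSet.pair_inj.1 h4
    obtain ⟨h5', rfl⟩ := ZFSet.pair_inj.1 h4'
    obtain rfl := Finset.singleton_injective (hat_cd h3 h3' (h5.trans h5'.symm))
    rfl
  · obtain ⟨v, hv, h4, -, ⟨k, h5⟩, h6⟩ := mem_Nf.1 h1
    obtain ⟨w, hw, h4', -, ⟨k', h5'⟩, h6'⟩ := mem_Nf.1 h2
    obtain ⟨rfl, rfl⟩ := ZFSet.pair_inj.1 h6
    obtain ⟨rfl, rfl⟩ := ZFSet.pair_inj.1 h6'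
    obtain ⟨r, hr, h7, h8⟩ := h3
    obtain ⟨a, b, h9, h10, h11, ⟨l, h12⟩, h13⟩ := mem_NL.1 h7
    obtain ⟨a', b', h9', h10', h11', -, h13'⟩ := mem_NL.1 h8
    obtain ⟨e1, e2⟩ := ZFSet.pair_inj.1 h13
    obtain ⟨e1', e2'⟩ := ZFSet.pair_inj.1 h13'
    obtain rfl := hat_cd h9 h9' (e1.trans e1'.symm)
    obtain rfl := hat_cd h10 h4 e2
    obtain rfl := hat_cd h10' h4' e2'
    by_cases hvw : v = w
    · rw [hvw]
    · exfalso
      have h14 := h12 v (h11 (Finset.mem_singleton_self v)) w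
        (h11' (Finset.mem_singleton_self w)) hvw
      have g1 := π.g_le_left k k' h5
      have g2 := π.g_le_right k k' h5'
      have h15 := (π.g (max k k')).con.2.1 0 v w g1 g2 (hv.trans hw.symm) hvw
      have g3 := π.g_le_left l (max k k') h14
      have g4 := π.g_le_right l (max k k') h15
      exact (π.g (max l (max k k'))).con.1 v w g4 g3

theorem ran_Nf {α : Lv} {π : Pkg Cd} (hf : Nf α ∈ π.N) (hκ : check (kap α).toZFSet ∈ π.N) :
    IsRan (π.val (Nf α)) (π.hat (kap α).toZFSet) := by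
  intro β
  constructor
  · intro hβ
    obtain ⟨y, hy, hyZ, rfl⟩ := π.mem_hat.1 hβ
    obtain ⟨c, hc, rfl⟩ := Ordinal.mem_toZFSet_iff.1 hy
    have hc' : c < Ordinal.type (α := K α) (· < ·) := by rwa [Ordinal.type_toType]
    have h1 : oc (Ordinal.enum (α := K α) (· < ·) ⟨c, hc'⟩) = c.toZFSet := by
      unfold oc
      rw [Ordinal.typein_enum]
    rw [← h1]
    refine total_Nf hf ?_
    rw [h1]
    exact hyZ
  · rintro ⟨p, hp⟩
    obtain ⟨v, hv, h1, h2, -, h3⟩ := mem_Nf.1 hp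
    obtain ⟨-, rfl⟩ := ZFSet.pair_inj.1 h3
    refine (π.hat_mem_hat h2 hκ).2 ?_
    subst hv
    refine Ordinal.toZFSet_mem_toZFSet_iff.2 ?_
    have := Ordinal.typein_lt_type (α := K v.1) (· < ·) v.2.1
    rwa [Ordinal.type_toType] at this

/-- The forced statement. -/
def RU (y e : PName Cd) (α : Lv) (π : Pkg Cd) : Prop :=
  (∀ z ∈ π.W, pair (π.val (Nf α)) z ∈ π.val y → z = π.val e) ∧
  (∀ ζ ∈ π.hat (kap α).toZFSet, ∃ n ∈ π.hat ZFSet.omega, pair ζ n ∈ π.val e) ∧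
  ∀ a ∈ π.W, ∀ b ∈ π.W, ∀ n ∈ π.W, pair a n ∈ π.val e → pair b n ∈ π.val e → a = b

/-- The parameters. -/
def sU (y e : PName Cd) (α : Lv) : Set (PName Cd) :=
  {y, e, Nf α, check (kap α).toZFSet, check ZFSet.omega}

theorem dfn_RU (y e : PName Cd) (α : Lv) :
    NDfn (sU y e α) fun π (_ : Fin 0 → ZFSet.{0}) => RU y e α π := by
  have h1 : y ∈ sU y e α := by simp [sU]
  have h2 : e ∈ sU y e α := by simp [sU]
  have h3 : Nf α ∈ sU y e α := by simp [sU]
  have h4 : check (kap α).toZFSet ∈ sU y e α := by simp [sU]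
  have h5 : check ZFSet.omega ∈ sU y e α := by simp [sU]
  unfold RU
  refine NDfn.and ?_ (NDfn.and ?_ ?_)
  · refine NDfn.all ?_
    refine NDfn.imp (NDfn.mem (NDfnF.pair (NDfnF.val h3) (NDfnF.proj 0)) (NDfnF.val h1)) ?_
    exact NDfn.eq (NDfnF.proj 0) (NDfnF.val h2)
  · refine NDfn.ball (NDfnF.hat h4) ?_
    refine NDfn.bex (NDfnF.hat h5) ?_
    exact NDfn.mem (NDfnF.pair (NDfnF.proj 1) (NDfnF.proj 0)) (NDfnF.val h2)
  · refine NDfn.all (NDfn.all (NDfn.all ?_))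
    refine NDfn.imp (NDfn.mem (NDfnF.pair (NDfnF.proj 2) (NDfnF.proj 0)) (NDfnF.val h2)) ?_
    refine NDfn.imp (NDfn.mem (NDfnF.pair (NDfnF.proj 1) (NDfnF.proj 0)) (NDfnF.val h2)) ?_
    exact NDfn.eq (NDfnF.proj 2) (NDfnF.proj 1)

/-- The contradiction. -/
theorem uni_aux {α : Lv} {y e : PName Cd} (hy : sy.Fix (Fx α) y) {p : Cd}
    (hp : ∀ π : Pkg Cd, sU y e α ⊆ π.N → (∃ m, π.g m ≤ p) → RU y e α π)
    (hm : Fmem (opN (Nf α) e) y p) : False := by
  classical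
  have h1 : ∀ x : K α, ∃ (n : ℕ) (q : Cd), q ≤ p ∧
      Fmem (opN (check (oc x)) (check (nat n))) e q := by
    intro x
    obtain ⟨π, hA, h0, hk⟩ := pkg (insert (check (oc x)) (sU y e α))
      (by unfold sU; exact (Set.toFinite _).countable) p
    have hS : sU y e α ⊆ π.N := fun z hz => hA (Or.inr hz)
    have nx : check (oc x) ∈ π.N := hA (Or.inl rfl)
    have ne : e ∈ π.N := hS (by simp [sU])
    have nκ : check (kap α).toZFSet ∈ π.N := hS (by simp [sU])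
    obtain ⟨-, h2, -⟩ := hp π hS ⟨0, h0.le⟩
    obtain ⟨n, hn, h3⟩ := h2 (π.hat (oc x)) ((π.hat_mem_hat nx nκ).2 (by
      refine Ordinal.toZFSet_mem_toZFSet_iff.2 ?_
      have := Ordinal.typein_lt_type (α := K α) (· < ·) x
      rwa [Ordinal.type_toType] at this))
    rw [π.hat_omega] at hn
    obtain ⟨m, rfl⟩ := mem_omega_iff.1 hn
    have nm : check (nat m) ∈ π.N := π.nat_Z m
    have h4 : π.val (opN (check (oc x)) (check (nat m))) ∈ π.val e := by
      rw [π.val_opN nx nm]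
      have e1 : π.val (check (nat m)) = nat m := π.hat_nat m
      rw [e1]
      exact h3
    obtain ⟨k, h5⟩ := (π.val_mem_iff (π.opN_mem nx nm) ne).1 h4
    exact ⟨m, π.g k, hk k, h5⟩
  choose n q hq hf using h1
  let A : K α → Finset V := fun x => (spF (q x)).filter fun v => v.1 = α ∧
    Fact.clq 0 v ∈ (q x).F
  have hAm : ∀ x v, v ∈ A x ↔ v.1 = α ∧ Fact.clq 0 v ∈ (q x).F := fun x v => by
    simp only [A, Finset.mem_filter]
    exact ⟨fun h => h.2, fun h => ⟨mem_spF (Or.inr ⟨0, h.2⟩), h⟩⟩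
  obtain ⟨x, x', hne, hn, g, hg, hg0, r, h2, h3, -⟩ := kl (α := α) le_rfl q true A n
    (fun x v w hv hw hvw => by
      obtain ⟨h4, h5⟩ := (hAm x v).1 hv
      obtain ⟨h6, h7⟩ := (hAm x w).1 hw
      exact (q x).con.2.1 0 v w h5 h7 (h4.trans h6.symm) hvw)
    (fun _ x v hv hv' => (hAm x v).2 ⟨hv, hv'⟩)
  obtain ⟨π, hA, h0, hk⟩ := pkg ({check (oc x), check (oc x'), act (sy.ac g) e} ∪ sU y e α)
    (by unfold sU; exact (Set.toFinite _).countable) r
  have hS : sU y e α ⊆ π.N := fun z hz => hA (Or.inr hz)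
  have nx : check (oc x) ∈ π.N := hA (by simp)
  have nx' : check (oc x') ∈ π.N := hA (by simp)
  have nae : act (sy.ac g) e ∈ π.N := hA (by simp)
  have ne : e ∈ π.N := hS (by simp [sU])
  have ny : y ∈ π.N := hS (by simp [sU])
  have nf : Nf α ∈ π.N := hS (by simp [sU])
  have nm : check (nat (n x)) ∈ π.N := π.nat_Z _
  have em : π.val (check (nat (n x))) = nat (n x) := π.hat_nat _
  obtain ⟨u1, -, u3⟩ := hp π hS ⟨0, h0 ▸ h2.trans (hq x)⟩
  have m1 : pair (π.hat (oc x)) (nat (n x)) ∈ π.val e := by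
    have := (π.val_mem_iff (π.opN_mem nx nm) ne).2 ⟨0, by rw [h0]; exact (hf x).mono h2⟩
    rwa [π.val_opN nx nm, em] at this
  have m2 : pair (π.hat (oc x')) (nat (n x)) ∈ π.val (act (sy.ac g) e) := by
    have h4 := fmem_act' (e := sy.ac g) (hf x')
    rw [act_ckp, ← hn] at h4
    have := (π.val_mem_iff (π.opN_mem nx' nm) nae).2 ⟨0, by
      rw [h0]
      exact h4.mono h3⟩
    rwa [π.val_opN nx' nm, em] at this
  have m3 : pair (π.val (Nf α)) (π.val (act (sy.ac g) e)) ∈ π.val y := by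
    have h4 := fmem_act' (e := sy.ac g) (hm.mono (hq x'))
    rw [act_opN (sy.top g)] at h4
    have h5 : Fmem (opN (Nf α) (act (sy.ac g) e)) y (sy.ac g (q x')) :=
      fmem_congr (feq_opN (act_Nf (hg0 rfl) _) (Feq.refl _ _)) (hy g hg _) h4
    have := (π.val_mem_iff (π.opN_mem nf nae) ny).2 ⟨0, by
      rw [h0]
      exact h5.mono h3⟩
    rwa [π.val_opN nf nae] at this
  have e1 := u1 _ (π.val_mem_W nae) m3
  rw [e1] at m2
  have e2 := u3 _ (π.val_mem_W nx) _ (π.val_mem_W nx') _ (by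
    rw [← em]
    exact π.val_mem_W nm) m1 m2
  have e3 := (π.hat_inj nx nx').1 e2
  exact hne (Ordinal.typein_injective _ (Ordinal.toZFSet_injective e3))

/-- The notion of forcing is not uniformly narrow. -/
theorem not_uniform {π : Pkg Cd} (h : sy.Cld π) (hR : ClR RR π) :
    ¬ Uniform (sy.Ms π) (π.val NP) (π.val NL) ZFSet.omega := by
  rintro ⟨G, hG, hGf, hGu⟩
  obtain ⟨y, ⟨ny, hy⟩, rfl⟩ := hG
  have hex : ∃ α, sy.Fix (Fx α) y := by
    obtain ⟨-, ⟨α, rfl⟩, hx⟩ := hy.sym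
    exact ⟨α, hx⟩
  have h1 : F2 y (π.g 0) ∈ π.N := r0_mem hR (by simp [RR]) ny 0
  have h2 : F2 y (π.g 0) = opN (Nf hex.choose) (check (kap hex.choose).toZFSet) := dif_pos hex
  rw [h2] at h1
  have hx := hex.choose_spec
  generalize hex.choose = α at h1 hx
  have nf := π.fst_mem h1
  have nκ := π.snd_mem h1
  obtain ⟨e', h3, h4⟩ := hGu (π.val (Nf α)) (val_Ms nf (hs_Nf α)) hom_Nf
    (π.hat (kap α).toZFSet) (π.hat_isOrdinal (ZFSet.isOrdinal_toZFSet _)) (ran_Nf nf nκ)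
  have heW : e' ∈ π.W := by
    have hpW : pair (π.val (Nf α)) e' ∈ π.W := π.trans_W (π.val_mem_W ny) h3
    exact (π.isZF_W.of_pair_mem hpW).2
  obtain ⟨e, ne, rfl⟩ := heW
  have hS : sU y e α ⊆ π.N := by
    rintro z (rfl | rfl | rfl | rfl | rfl)
    · exact ny
    · exact ne
    · exact nf
    · exact nκ
    · exact π.om
  have hRU : RU y e α π := by
    refine ⟨fun z _ hz => hGf _ _ _ hz h3, fun ζ hζ => ?_, fun a _ b _ n _ ha hb => ?_⟩
    · obtain ⟨n, hn, h5⟩ := fun_exists h4.1 hζ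
      exact ⟨n, by rw [π.hat_omega]; exact hn, h5⟩
    · exact h4.2 a b n ha hb
  obtain ⟨k, hk⟩ := forcing_theorem (dfn_RU y e α) π hS hRU
  have h5 : π.val (opN (Nf α) e) ∈ π.val y := by
    rw [π.val_opN nf ne]
    exact h3
  obtain ⟨l, hl⟩ := (π.val_mem_iff (π.opN_mem nf ne) ny).1 h5
  refine uni_aux hx (p := π.g (max k l)) (fun π' hS' ⟨m, hm⟩ => ?_) (hl.mono (π.g_le_right k l))
  exact hk π' hS' ⟨m, hm.trans (π.g_le_left k l)⟩

end Pool.Agent.R596.NW
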