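import Pool.Agent.R596.PbCond

/-!
# Partitions of the index set
-/

set_option autoImplicit false
set_option linter.all false

namespace Pool.Agent.R596.PB

open Pool.Agent.W868 Pool.Agent.W868.PName Pool.Agent.R596.SY

/-- The index set: the natural numbers and the atoms. -/
abbrev J : Type := ℕ ⊕ (ℕ × ℕ)

/-- The action on the index set. -/
noncomputable def mv (g : Gp) : Equiv.Perm J where
  toFun := Sum.map id fun x => (x.1, kk g x.1 x.2)
  invFun := Sum.map id fun x => (x.1, (kk g x.1)⁻¹ x.2)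
  left_inv := by
    rintro (j | ⟨n, t⟩) <;> simp
  right_inv := by
    rintro (j | ⟨n, t⟩) <;> simp

theorem mv_inl (g : Gp) (j : ℕ) : mv g (Sum.inl j) = Sum.inl j := rfl

theorem mv_inr (g : Gp) (n t : ℕ) : mv g (Sum.inr (n, t)) = Sum.inr (n, kk g n t) := rfl

theorem mv_congr {g h : Gp} (e : kk g = kk h) : mv g = mv h := by
  ext x
  rcases x with j | ⟨n, t⟩
  · rfl
  · rw [mv_inr, mv_inr, e]

/-- The moved partition. -/
noncomputable def mS (g : Gp) (Q : Setoid J) : Setoid J := Q.comap (mv g).symm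

theorem mS_iff {g : Gp} {Q : Setoid J} {x y : J} : mS g Q (mv g x) (mv g y) ↔ Q x y := by
  unfold mS
  rw [Setoid.comap_rel]
  simp

theorem mS_apply {g : Gp} {Q : Setoid J} {x y : J} :
    mS g Q x y ↔ Q ((mv g).symm x) ((mv g).symm y) := by
  unfold mS
  rw [Setoid.comap_rel]

theorem mS_congr {g h : Gp} (e : kk g = kk h) (Q : Setoid J) : mS g Q = mS h Q := by
  unfold mS
  rw [mv_congr e]

theorem eq_mS {g : Gp} {Q R : Setoid J} (h : ∀ x y, R (mv g x) (mv g y) ↔ Q x y) :
    R = mS g Q := by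
  refine Setoid.ext fun x y => ?_
  have h1 := h ((mv g).symm x) ((mv g).symm y)
  simp only [Equiv.apply_symm_apply] at h1
  rw [mS_apply]
  exact h1

/-- The partition is supported. -/
def Inv (E F : Finset ℕ) (Q : Setoid J) : Prop := ∀ g ∈ Fx E F, mS g Q = Q

open Classical in
/-- A transposition in some columns. -/
noncomputable def gs (D : Set ℕ) (t s : ℕ) : Gp :=
  mkG (fun m => if m ∈ D then Equiv.swap t s else 1) (fun n => by
    by_cases h : n ∈ D
    · simp only [h, if_true]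
      refine (Set.toFinite {t, s}).subset fun u hu => ?_
      by_contra hc
      simp only [Set.mem_insert_iff, Set.mem_singleton_iff, not_or] at hc
      exact hu (Equiv.swap_apply_of_ne_of_ne hc.1 hc.2)
    · simp only [h, if_false]
      simp) fun _ _ => false

open Classical in
theorem kk_gs (D : Set ℕ) (t s n : ℕ) : kk (gs D t s) n = if n ∈ D then Equiv.swap t s else 1 :=
  congrFun kk_mkG n

theorem mv_gs {D : Set ℕ} {n : ℕ} (hn : n ∈ D) (t s u : ℕ) :
    mv (gs D t s) (Sum.inr (n, u)) = Sum.inr (n, Equiv.swap t s u) := by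
  rw [mv_inr, kk_gs, if_pos hn]

open Classical in
theorem gs_apply (D : Set ℕ) (t s n u : ℕ) (α : Om) (b : Bool) :
    (gs D t s).1 ((n, u), α, b) = ((n, kk (gs D t s) n u), α, b) := by
  rw [kk_gs]
  have h : (gs D t s).1 = mkE (fun m => if m ∈ D then Equiv.swap t s else 1)
    fun _ _ => false := rfl
  rw [h, isG_mkE, Bool.xor_false]

theorem gs_mem {D : Set ℕ} {t s : ℕ} {E F : Finset ℕ}
    (h : (∀ n ∈ E, n ∉ D) ∨ ((∀ n ∈ E, n ∈ D) ∧ t ∉ F ∧ s ∉ F)) : gs D t s ∈ Fx E F := by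
  classical
  rcases h with h | ⟨h1, h2, h3⟩
  · refine ⟨fun n hn u hu α b => ?_, fun n hn m hm => ?_⟩
    · rw [gs_apply, kk_gs, if_neg (h n hn)]
      rfl
    · rw [kk_gs, kk_gs, if_neg (h n hn), if_neg (h m hm)]
  · refine ⟨fun n hn u hu α b => ?_, fun n hn m hm => ?_⟩
    · rw [gs_apply, kk_gs, if_pos (h1 n hn), Equiv.swap_apply_of_ne_of_ne]
      · rintro rfl
        exact h2 hu
      · rintro rfl
        exact h3 hu
    · rw [kk_gs, kk_gs, if_pos (h1 n hn), if_pos (h1 m hm)]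

/-- Columns are in one class. -/
theorem col {Q : Setoid J} (hQ : Finite (Quotient Q)) {D : Set ℕ} {n : ℕ} (hn : n ∈ D)
    (X : Finset ℕ) (h : ∀ t s, t ∉ X → s ∉ X → mS (gs D t s) Q = Q) :
    ∀ t ∉ X, ∀ t' ∉ X, Q (Sum.inr (n, t)) (Sum.inr (n, t')) := by
  obtain ⟨u, u', hne, he⟩ : ∃ u u' : {t : ℕ // t ∉ X}, u ≠ u' ∧
      Q (Sum.inr (n, u.1)) (Sum.inr (n, u'.1)) := by
    haveI : Infinite {t : ℕ // t ∉ X} := by
      have h1 : (X : Set ℕ)ᶜ.Infinite := X.finite_toSet.infinite_compl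
      exact h1.to_subtype
    obtain ⟨u, u', h1, h2⟩ := Finite.exists_ne_map_eq_of_infinite
      (fun u : {t : ℕ // t ∉ X} => Quotient.mk Q (Sum.inr (n, u.1)))
    exact ⟨u, u', h1, Quotient.exact h2⟩
  have hne' : u.1 ≠ u'.1 := fun e => hne (Subtype.ext e)
  have key : ∀ s ∉ X, Q (Sum.inr (n, u.1)) (Sum.inr (n, s)) := by
    intro s hs
    by_cases hsu : s = u.1
    · rw [hsu]
    · have h1 := (mS_iff (g := gs D u'.1 s)).2 he
      rw [h u'.1 s u'.2 hs, mv_gs hn, mv_gs hn, Equiv.swap_apply_left,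
        Equiv.swap_apply_of_ne_of_ne hne' (fun e => hsu e.symm)] at h1
      exact h1
  exact fun t ht t' ht' => Q.trans' (Q.symm' (key t ht)) (key t' ht')

theorem col1 {Q : Setoid J} (hQ : Finite (Quotient Q)) {E F : Finset ℕ} (h : Inv E F Q) {n : ℕ}
    (hn : n ∉ E) (t t' : ℕ) : Q (Sum.inr (n, t)) (Sum.inr (n, t')) := by
  refine col hQ (D := {n}) rfl ∅ (fun t s _ _ => h _ (gs_mem (Or.inl fun m hm hmn => ?_))) t
    (by simp) t' (by simp)
  rw [Set.mem_singleton_iff] at hmn
  exact hn (hmn ▸ hm)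

theorem col2 {Q : Setoid J} (hQ : Finite (Quotient Q)) {E F : Finset ℕ} (h : Inv E F Q) {n : ℕ}
    (hn : n ∈ E) {t t' : ℕ} (ht : t ∉ F) (ht' : t' ∉ F) :
    Q (Sum.inr (n, t)) (Sum.inr (n, t')) :=
  col hQ (D := (E : Set ℕ)) hn F (fun t s h1 h2 => h _ (gs_mem (Or.inr ⟨fun m hm => hm, h1, h2⟩)))
    t ht t' ht'

/-- The supported automorphisms fix the classes. -/
theorem stay {Q : Setoid J} (hQ : Finite (Quotient Q)) {E F : Finset ℕ} (h : Inv E F Q) {g : Gp}
    (hg : g ∈ Fx E F) (x : J) : Q x (mv g x) := by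
  rcases x with j | ⟨n, t⟩
  · exact Q.refl' _
  · rw [mv_inr]
    by_cases hn : n ∈ E
    · by_cases ht : t ∈ F
      · rw [kk_fix hg hn ht]
      · refine col2 hQ h hn ht fun h' => ht ?_
        have h1 := kk_fix hg hn h'
        have h2 := (kk g n).injective h1
        rwa [h2] at h'
    · exact col1 hQ h hn _ _

/-! ### The code of a finite partition -/

/-- The labels of the class of `x`. -/
def lab (Q : Setoid J) (x : J) : Set ℕ :=
  {i | (∃ j, i = 2 * j + 1 ∧ Q x (Sum.inl j)) ∨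
    ∃ n, i = 2 * n ∧ {t | ¬ Q x (Sum.inr (n, t))}.Finite}

/-- The exceptional points. -/
def Ex (Q : Setoid J) (x : ℕ × ℕ) : Prop := ¬ {t | ¬ Q (Sum.inr x) (Sum.inr (x.1, t))}.Finite

/-- The class. -/
def cls (Q : Setoid J) (x : J) : Set J := {y | Q x y}

/-- Classes with two labels. -/
def rQ (Q : Setoid J) (k : ℕ) : Prop :=
  ∃ x, (Nat.unpair k).1 ∈ lab Q x ∧ (Nat.unpair k).2 ∈ lab Q x

open Classical in
/-- The code. -/
noncomputable def cc (Q : Setoid J) : J → ℕ ⊕ Set J
  | Sum.inl j => if j % 3 = 2 ∧ rQ Q (j / 3) then Sum.inl (j - 1) else Sum.inl j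
  | Sum.inr x => if Ex Q x then
      (if (lab Q (Sum.inr x)).Nonempty then Sum.inl (3 * (sInf (lab Q (Sum.inr x)) + 1))
        else if cls Q (Sum.inr x) = {Sum.inr x} then Sum.inl 0 else Sum.inr (cls Q (Sum.inr x)))
      else Sum.inr {Sum.inr x}

open Classical in
theorem cc_inl' (Q : Setoid J) (j : ℕ) : cc Q (Sum.inl j) =
    if j % 3 = 2 ∧ rQ Q (j / 3) then Sum.inl (j - 1) else Sum.inl j := rfl

open Classical in
theorem cc_inr' (Q : Setoid J) (x : ℕ × ℕ) : cc Q (Sum.inr x) = if Ex Q x then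
      (if (lab Q (Sum.inr x)).Nonempty then Sum.inl (3 * (sInf (lab Q (Sum.inr x)) + 1))
        else if cls Q (Sum.inr x) = {Sum.inr x} then Sum.inl 0 else Sum.inr (cls Q (Sum.inr x)))
      else Sum.inr {Sum.inr x} := rfl

/-- The finitary partition that codes a finite partition. -/
noncomputable def PP (Q : Setoid J) : Setoid J := Setoid.ker (cc Q)

theorem PP_iff {Q : Setoid J} {x y : J} : PP Q x y ↔ cc Q x = cc Q y := Setoid.ker_def

theorem lab_congr {Q : Setoid J} {x y : J} (h : Q x y) : lab Q x = lab Q y := by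
  have h1 : ∀ z, Q x z ↔ Q y z := fun z => ⟨Q.trans' (Q.symm' h), Q.trans' h⟩
  unfold lab
  simp only [h1]

theorem lab_mS {g : Gp} {Q : Setoid J} {x : J} : lab (mS g Q) (mv g x) = lab Q x := by
  ext i
  unfold lab
  simp only [Set.mem_setOf_eq]
  refine or_congr ?_ ?_
  · refine exists_congr fun j => and_congr_right fun _ => ?_
    rw [← mv_inl g j, mS_iff, mv_inl]
  · refine exists_congr fun n => and_congr_right fun _ => ?_
    have h1 : {t | ¬ mS g Q (mv g x) (Sum.inr (n, t))} =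
        kk g n '' {t | ¬ Q x (Sum.inr (n, t))} := by
      ext t
      constructor
      · intro h
        refine ⟨(kk g n).symm t, fun h' => h ?_, Equiv.apply_symm_apply _ _⟩
        have h2 := (mS_iff (g := g)).2 h'
        rwa [mv_inr, Equiv.apply_symm_apply] at h2
      · rintro ⟨u, hu, rfl⟩ h
        rw [← mv_inr, mS_iff] at h
        exact hu h
    rw [h1]
    exact Set.finite_image_iff (kk g n).injective.injOn

theorem Ex_iff {Q : Setoid J} {x : ℕ × ℕ} : Ex Q x ↔ 2 * x.1 ∉ lab Q (Sum.inr x) := by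
  unfold Ex lab
  refine not_congr ⟨fun h => Or.inr ⟨_, rfl, h⟩, ?_⟩
  rintro (⟨j, h1, -⟩ | ⟨n, h1, h2⟩)
  · omega
  · have : n = x.1 := by omega
    rwa [this] at h2

theorem Ex_mS {g : Gp} {Q : Setoid J} {n t : ℕ} : Ex (mS g Q) (n, kk g n t) ↔ Ex Q (n, t) := by
  rw [Ex_iff, Ex_iff, ← mv_inr, lab_mS]

theorem cls_mS {g : Gp} {Q : Setoid J} {x : J} : cls (mS g Q) (mv g x) = mv g '' cls Q x := by
  ext y
  constructor
  · intro h
    refine ⟨(mv g).symm y, ?_, Equiv.apply_symm_apply _ _⟩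
    have h' : mS g Q (mv g x) (mv g ((mv g).symm y)) := by
      rw [Equiv.apply_symm_apply]
      exact h
    exact mS_iff.1 h'
  · rintro ⟨z, hz, rfl⟩
    exact mS_iff.2 hz

theorem rQ_mS {g : Gp} {Q : Setoid J} {k : ℕ} : rQ (mS g Q) k ↔ rQ Q k := by
  unfold rQ
  constructor
  · rintro ⟨x, h⟩
    refine ⟨(mv g).symm x, ?_⟩
    rw [← lab_mS (g := g), Equiv.apply_symm_apply]
    exact h
  · rintro ⟨x, h⟩
    exact ⟨mv g x, by rwa [lab_mS]⟩

theorem cc_mS {g : Gp} {Q : Setoid J} (x : J) :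
    cc (mS g Q) (mv g x) = Sum.map id (Set.image (mv g)) (cc Q x) := by
  classical
  rcases x with j | ⟨n, t⟩
  · rw [mv_inl, cc_inl', cc_inl']
    simp only [rQ_mS]
    split_ifs <;> rfl
  · rw [mv_inr, cc_inr', cc_inr']
    simp only [Ex_mS]
    rw [← mv_inr, lab_mS, cls_mS]
    have h1 : (mv g '' cls Q (Sum.inr (n, t)) = {mv g (Sum.inr (n, t))}) ↔
        cls Q (Sum.inr (n, t)) = {Sum.inr (n, t)} := by
      rw [← Set.image_singleton]
      exact (mv g).injective.image_injective.eq_iff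
    simp only [h1]
    split_ifs <;> simp [Set.image_singleton]

theorem PP_mS {g : Gp} {Q : Setoid J} : PP (mS g Q) = mS g (PP Q) := by
  refine eq_mS fun x y => ?_
  rw [PP_iff, PP_iff, cc_mS, cc_mS]
  refine (Function.Injective.eq_iff ?_)
  exact Function.Injective.sumMap Function.injective_id (mv g).injective.image_injective

theorem Inv.PP {E F : Finset ℕ} {Q : Setoid J} (h : Inv E F Q) : Inv E F (PP Q) := fun g hg => by
  rw [← PP_mS, h g hg]

/-! ### Decoding -/

/-- Exceptional points in terms of the code. -/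
def EX (P : Setoid J) (y : ℕ × ℕ) : Prop := ∃ z, z ≠ Sum.inr y ∧ P (Sum.inr y) z

open Classical in
/-- Labels in terms of the code. -/
def LM (P : Setoid J) : J → ℕ → Prop
  | Sum.inl j, i => i = 2 * j + 1
  | Sum.inr y, i => if EX P y then P (Sum.inr y) (Sum.inl (3 * (i + 1))) else i = 2 * y.1

open Classical in
theorem LM_inr (P : Setoid J) (y : ℕ × ℕ) (i : ℕ) : LM P (Sum.inr y) i ↔
    if EX P y then P (Sum.inr y) (Sum.inl (3 * (i + 1))) else i = 2 * y.1 := Iff.rfl

/-- The partition in terms of the code. -/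
def Rec (P : Setoid J) (a b : J) : Prop :=
  (∃ i j, LM P a i ∧ LM P b j ∧
    P (Sum.inl (3 * Nat.pair i j + 1)) (Sum.inl (3 * Nat.pair i j + 2))) ∨
  ((∀ i, ¬ LM P a i) ∧ (∀ i, ¬ LM P b i) ∧ (a = b ∨ (P a b ∧ ¬ P a (Sum.inl 0))))

section decode

variable {Q : Setoid J}

theorem cc_inl3 (m : ℕ) : cc Q (Sum.inl (3 * m)) = Sum.inl (3 * m) := by
  rw [cc_inl', if_neg]
  rintro ⟨h, -⟩
  omega

theorem PP_r (k : ℕ) : PP Q (Sum.inl (3 * k + 1)) (Sum.inl (3 * k + 2)) ↔ rQ Q k := by
  rw [PP_iff, cc_inl', cc_inl', if_neg (by rintro ⟨h, -⟩; omega)]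
  have h1 : (3 * k + 2) / 3 = k := by omega
  have h2 : (3 * k + 2) % 3 = 2 := by omega
  rw [h1]
  by_cases h : rQ Q k
  · rw [if_pos ⟨h2, h⟩]
    simp [h]
  · rw [if_neg (fun h' => h h'.2)]
    simp [h]

theorem ex_of_lab {x : ℕ × ℕ} (h : ¬ (lab Q (Sum.inr x)).Nonempty) : Ex Q x := by
  rw [Ex_iff]
  exact fun h' => h ⟨_, h'⟩

theorem lab_inl (j : ℕ) : (lab Q (Sum.inl j)).Nonempty := ⟨2 * j + 1, Or.inl ⟨j, rfl, Q.refl' _⟩⟩

theorem cc_of_lab {x : ℕ × ℕ} (h : Ex Q x) (h' : (lab Q (Sum.inr x)).Nonempty) :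
    cc Q (Sum.inr x) = Sum.inl (3 * (sInf (lab Q (Sum.inr x)) + 1)) := by
  rw [cc_inr', if_pos h, if_pos h']

theorem cc_of_sing {x : ℕ × ℕ} (h' : ¬ (lab Q (Sum.inr x)).Nonempty)
    (h : cls Q (Sum.inr x) = {Sum.inr x}) : cc Q (Sum.inr x) = Sum.inl 0 := by
  rw [cc_inr', if_pos (ex_of_lab h'), if_neg h', if_pos h]

theorem cc_of_not_sing {x : ℕ × ℕ} (h' : ¬ (lab Q (Sum.inr x)).Nonempty)
    (h : cls Q (Sum.inr x) ≠ {Sum.inr x}) : cc Q (Sum.inr x) = Sum.inr (cls Q (Sum.inr x)) := by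
  rw [cc_inr', if_pos (ex_of_lab h'), if_neg h', if_neg h]

theorem cc_of_not_ex {x : ℕ × ℕ} (h : ¬ Ex Q x) : cc Q (Sum.inr x) = Sum.inr {Sum.inr x} := by
  rw [cc_inr', if_neg h]

theorem cls_eq {x y : J} : cls Q x = cls Q y ↔ Q x y := by
  constructor
  · intro h
    have : y ∈ cls Q x := by
      rw [h]
      exact Q.refl' _
    exact this
  · intro h
    ext z
    exact ⟨Q.trans' (Q.symm' h), Q.trans' h⟩

/-- Two points of an unlabelled class with two points. -/
theorem two {a b : J} (h : ¬ (lab Q a).Nonempty) (hab : Q a b) (hne : a ≠ b) :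
    ∃ x y, a = Sum.inr x ∧ b = Sum.inr y ∧ cc Q a = Sum.inr (cls Q a) ∧
      cc Q b = Sum.inr (cls Q a) := by
  rcases a with j | x
  · exact absurd (lab_inl j) h
  · rcases b with j | y
    · exfalso
      rw [lab_congr hab] at h
      exact h (lab_inl j)
    · have h' := h
      rw [lab_congr hab] at h'
      refine ⟨x, y, rfl, rfl, cc_of_not_sing h fun h1 => hne ?_, ?_⟩
      · have : (Sum.inr y : J) ∈ cls Q (Sum.inr x) := hab
        rw [h1] at this
        exact this.symm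
      · rw [cc_of_not_sing h' fun h1 => hne ?_]
        · rw [cls_eq.2 hab]
        · have : (Sum.inr x : J) ∈ cls Q (Sum.inr y) := Q.symm' hab
          rw [h1] at this
          exact this

theorem EX_iff {x : ℕ × ℕ} : EX (PP Q) x ↔ Ex Q x := by
  constructor
  · rintro ⟨z, hz, h⟩
    by_contra hc
    rw [PP_iff, cc_of_not_ex hc] at h
    rcases z with j | y
    · rw [cc_inl'] at h
      split_ifs at h
    · by_cases hy : Ex Q y
      · by_cases hl : (lab Q (Sum.inr y)).Nonempty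
        · rw [cc_of_lab hy hl] at h
          cases h
        · by_cases hs : cls Q (Sum.inr y) = {Sum.inr y}
          · rw [cc_of_sing hl hs] at h
            cases h
          · rw [cc_of_not_sing hl hs] at h
            have h1 := Sum.inr.inj h
            have : (Sum.inr y : J) ∈ cls Q (Sum.inr y) := Q.refl' _
            rw [← h1] at this
            exact hz this
      · rw [cc_of_not_ex hy] at h
        exact hz (Set.singleton_injective (Sum.inr.inj h)).symm
  · intro h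
    by_cases hl : (lab Q (Sum.inr x)).Nonempty
    · refine ⟨Sum.inl (3 * (sInf (lab Q (Sum.inr x)) + 1)), by simp, ?_⟩
      rw [PP_iff, cc_of_lab h hl, cc_inl3]
    · by_cases hs : cls Q (Sum.inr x) = {Sum.inr x}
      · refine ⟨Sum.inl (3 * 0), by simp, ?_⟩
        rw [PP_iff, cc_of_sing hl hs, cc_inl3]
      · have h1 : ∃ y, Q (Sum.inr x) y ∧ y ≠ Sum.inr x := by
          by_contra hc
          push Not at hc
          refine hs (Set.Subset.antisymm (fun y hy => hc y hy) ?_)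
          rintro y rfl
          exact Q.refl' _
        obtain ⟨y, hy, hne⟩ := h1
        obtain ⟨-, -, -, -, h2, h3⟩ := two hl hy hne.symm
        exact ⟨y, hne, by rw [PP_iff, h2, h3]⟩

theorem lab_of_LM {a : J} {i : ℕ} (h : LM (PP Q) a i) : i ∈ lab Q a := by
  classical
  rcases a with j | x
  · change i = 2 * j + 1 at h
    exact Or.inl ⟨j, h, Q.refl' _⟩
  · rw [LM_inr] at h
    by_cases hx : EX (PP Q) x
    · rw [if_pos hx, PP_iff, cc_inl3] at h
      have hx' := EX_iff.1 hx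
      by_cases hl : (lab Q (Sum.inr x)).Nonempty
      · rw [cc_of_lab hx' hl] at h
        have h1 := Sum.inl.inj h
        have h2 : sInf (lab Q (Sum.inr x)) = i := by omega
        rw [← h2]
        exact Nat.sInf_mem hl
      · exfalso
        by_cases hs : cls Q (Sum.inr x) = {Sum.inr x}
        · rw [cc_of_sing hl hs] at h
          have h1 := Sum.inl.inj h
          omega
        · rw [cc_of_not_sing hl hs] at h
          cases h
    · rw [if_neg hx] at h
      have h1 : ¬ Ex Q x := fun h' => hx (EX_iff.2 h')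
      rw [Ex_iff, not_not] at h1
      rwa [h]

theorem exists_LM {a : J} (h : (lab Q a).Nonempty) : ∃ i, LM (PP Q) a i := by
  classical
  rcases a with j | x
  · exact ⟨2 * j + 1, rfl⟩
  · by_cases hx : EX (PP Q) x
    · refine ⟨sInf (lab Q (Sum.inr x)), ?_⟩
      rw [LM_inr, if_pos hx, PP_iff, cc_inl3, cc_of_lab (EX_iff.1 hx) h]
    · refine ⟨2 * x.1, ?_⟩
      rw [LM_inr, if_neg hx]

theorem eq_of_lab {a b : J} {i : ℕ} (h : i ∈ lab Q a) (h' : i ∈ lab Q b) : Q a b := by
  rcases h with ⟨j, h1, h2⟩ | ⟨n, h1, h2⟩ <;> rcases h' with ⟨j', h1', h2'⟩ | ⟨n', h1', h2'⟩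
  · have : j = j' := by omega
    subst this
    exact Q.trans' h2 (Q.symm' h2')
  · omega
  · omega
  · have : n = n' := by omega
    subst this
    obtain ⟨t, ht⟩ := Set.Finite.exists_notMem (h2.union h2')
    simp only [Set.mem_union, Set.mem_setOf_eq, not_or, not_not] at ht
    exact Q.trans' ht.1 (Q.symm' ht.2)

theorem rec_iff {a b : J} : Rec (PP Q) a b ↔ Q a b := by
  constructor
  · rintro (⟨i, j, h1, h2, h3⟩ | ⟨h1, h2, h3⟩)
    · rw [PP_r] at h3
      obtain ⟨x, h4, h5⟩ := h3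
      rw [Nat.unpair_pair] at h4 h5
      exact Q.trans' (eq_of_lab (lab_of_LM h1) h4) (Q.symm' (eq_of_lab (lab_of_LM h2) h5))
    · rcases h3 with rfl | ⟨h3, h4⟩
      · exact Q.refl' _
      · have hl : ¬ (lab Q a).Nonempty := fun h => by
          obtain ⟨i, hi⟩ := exists_LM h
          exact h1 i hi
        have hl' : ¬ (lab Q b).Nonempty := fun h => by
          obtain ⟨i, hi⟩ := exists_LM h
          exact h2 i hi
        rcases a with j | x
        · exact absurd (lab_inl j) hl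
        · rcases b with j | y
          · exact absurd (lab_inl j) hl'
          · rw [PP_iff] at h3 h4
            have h5 : cc Q (Sum.inl 0) = Sum.inl 0 := cc_inl3 0
            rw [h5] at h4
            have hs : cls Q (Sum.inr x) ≠ {Sum.inr x} := fun hs => h4 (cc_of_sing hl hs)
            rw [cc_of_not_sing hl hs] at h3
            have hs' : cls Q (Sum.inr y) ≠ {Sum.inr y} := fun hs' => by
              rw [cc_of_sing hl' hs'] at h3
              cases h3
            rw [cc_of_not_sing hl' hs'] at h3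
            exact cls_eq.1 (Sum.inr.inj h3)
  · intro h
    by_cases hl : (lab Q a).Nonempty
    · have hl' := hl
      rw [lab_congr h] at hl'
      obtain ⟨i, hi⟩ := exists_LM hl
      obtain ⟨j, hj⟩ := exists_LM hl'
      refine Or.inl ⟨i, j, hi, hj, ?_⟩
      rw [PP_r]
      refine ⟨a, ?_, ?_⟩
      · rw [Nat.unpair_pair]
        exact lab_of_LM hi
      · rw [Nat.unpair_pair, lab_congr h]
        exact lab_of_LM hj
    · have hl' := hl
      rw [lab_congr h] at hl'
      refine Or.inr ⟨fun i hi => hl ⟨i, lab_of_LM hi⟩, fun i hi => hl' ⟨i, lab_of_LM hi⟩, ?_⟩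
      by_cases hab : a = b
      · exact Or.inl hab
      · obtain ⟨x, y, rfl, rfl, h1, h2⟩ := two hl h hab
        refine Or.inr ⟨by rw [PP_iff, h1, h2], ?_⟩
        rw [PP_iff, h1]
        have h5 : cc Q (Sum.inl 0) = Sum.inl 0 := cc_inl3 0
        rw [h5]
        exact fun h => by cases h

end decode

theorem PP_injective {Q Q' : Setoid J} (h : PP Q = PP Q') : Q = Q' :=
  Setoid.ext fun a b => by rw [← rec_iff, h, rec_iff]

/-! ### The classes are finite -/

theorem finite_ex {Q : Setoid J} (hQ : Finite (Quotient Q)) {E F : Finset ℕ} (h : Inv E F Q) :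
    {x | Ex Q x}.Finite := by
  refine ((E ×ˢ F).finite_toSet).subset ?_
  rintro ⟨n, t⟩ hx
  simp only [Finset.coe_product, Set.mem_prod, Finset.mem_coe]
  by_contra hc
  refine hx ?_
  by_cases hn : n ∈ E
  · have ht : t ∉ F := fun ht => hc ⟨hn, ht⟩
    refine F.finite_toSet.subset fun s hs => ?_
    by_contra hsF
    exact hs (col2 hQ h hn ht hsF)
  · refine Set.finite_empty.subset fun s hs => hs (col1 hQ h hn _ _)

theorem finite_PP {Q : Setoid J} (hQ : {x | Ex Q x}.Finite) (z : J) : {y | PP Q z y}.Finite := by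
  have h1 : {y | PP Q z y} ⊆ Sum.inr '' {x | Ex Q x} ∪
      ({y | ∃ j, y = Sum.inl j ∧ cc Q (Sum.inl j) = cc Q z} ∪
        {y | ∃ x, y = Sum.inr x ∧ ¬ Ex Q x ∧ cc Q (Sum.inr x) = cc Q z}) := by
    intro y hy
    have hy' : cc Q z = cc Q y := PP_iff.1 hy
    rcases y with j | x
    · exact Or.inr (Or.inl ⟨j, rfl, hy'.symm⟩)
    · by_cases hx : Ex Q x
      · exact Or.inl ⟨x, hx, rfl⟩
      · exact Or.inr (Or.inr ⟨x, rfl, hx, hy'.symm⟩)
  refine Set.Finite.subset ?_ h1
  refine (hQ.image _).union (Set.Finite.union ?_ ?_)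
  · rcases hz : cc Q z with c | S
    · refine (Set.toFinite ({Sum.inl c, Sum.inl (c + 1)} : Set J)).subset ?_
      rintro _ ⟨j, rfl, hj⟩
      rw [cc_inl'] at hj
      split_ifs at hj with h2
      · have h3 := Sum.inl.inj hj
        have h4 : j = c + 1 := by omega
        rw [h4]
        simp
      · have h3 := Sum.inl.inj hj
        rw [h3]
        simp
    · refine Set.finite_empty.subset ?_
      rintro _ ⟨j, rfl, hj⟩
      rw [cc_inl'] at hj
      split_ifs at hj
  · refine Set.Subsingleton.finite ?_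
    rintro _ ⟨x, rfl, hx, h2⟩ _ ⟨x', rfl, hx', h3⟩
    rw [cc_of_not_ex hx] at h2
    rw [cc_of_not_ex hx', ← h2] at h3
    exact (Set.singleton_injective (Sum.inr.inj h3)).symm

/-! ### Linked columns -/

/-- The column of the link. -/
def c0 (n m : ℕ) : J → J
  | Sum.inl j => Sum.inl j
  | Sum.inr x => if x.1 = m then Sum.inr (n, x.2) else Sum.inr x

/-- The partition that links two columns. -/
def P0 (n m : ℕ) : Setoid J := Setoid.ker (c0 n m)

theorem P0_iff {n m : ℕ} {x y : J} : P0 n m x y ↔ c0 n m x = c0 n m y := Setoid.ker_def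

theorem c0_mv {n m : ℕ} {g : Gp} (h : kk g n = kk g m) (x : J) :
    c0 n m (mv g x) = mv g (c0 n m x) := by
  rcases x with j | ⟨i, t⟩
  · rfl
  · rw [mv_inr]
    unfold c0
    by_cases hi : i = m
    · simp only [hi, if_true]
      rw [mv_inr, h]
    · simp only [hi, if_false]
      rw [mv_inr]

theorem P0_mS {n m : ℕ} {g : Gp} (h : kk g n = kk g m) : mS g (P0 n m) = P0 n m := by
  refine (eq_mS fun x y => ?_).symm
  rw [P0_iff, P0_iff, c0_mv h, c0_mv h]
  exact (mv g).injective.eq_iff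

theorem P0_inv (n m : ℕ) : Inv {n, m} ∅ (P0 n m) := fun g hg =>
  P0_mS (hg.2 n (by simp) m (by simp))

theorem P0_fin {n m : ℕ} (z : J) : {y | P0 n m z y}.Finite := by
  have h1 : {y | P0 n m z y} ⊆ {c0 n m z} ∪ {y | ∃ t, y = Sum.inr (m, t) ∧
      Sum.inr (n, t) = c0 n m z} := by
    intro y hy
    have hy' : c0 n m z = c0 n m y := P0_iff.1 hy
    rcases y with j | ⟨i, t⟩
    · exact Or.inl hy'.symm
    · by_cases hi : i = m
      · subst hi
        refine Or.inr ⟨t, rfl, ?_⟩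
        rw [hy']
        simp [c0]
      · refine Or.inl ?_
        rw [Set.mem_singleton_iff, hy']
        simp [c0, hi]
  refine Set.Finite.subset ((Set.finite_singleton _).union (Set.Subsingleton.finite ?_)) h1
  rintro _ ⟨t, rfl, h2⟩ _ ⟨t', rfl, h3⟩
  rw [← h3] at h2
  simp only [Sum.inr.injEq, Prod.mk.injEq, true_and] at h2
  rw [h2]

theorem P0_ne {n m : ℕ} (h : n ≠ m) : mS (gs {n} 0 1) (P0 n m) ≠ P0 n m := by
  intro he
  have h1 : P0 n m (Sum.inr (n, 0)) (Sum.inr (m, 0)) := by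
    rw [P0_iff]
    simp [c0]
  have h2 := (mS_iff (g := gs {n} 0 1)).2 h1
  have h3 : mv (gs {n} 0 1) (Sum.inr (m, 0)) = Sum.inr (m, 0) := by
    rw [mv_inr, kk_gs, if_neg (by simpa using h.symm)]
    rfl
  rw [he, mv_gs (Set.mem_singleton n), h3, P0_iff, Equiv.swap_apply_left] at h2
  simp [c0, h] at h2

theorem Q_fix {n m : ℕ} {Q : Setoid J} (hQ : Finite (Quotient Q))
    (h : ∀ t s, mS (gs {n, m} t s) Q = Q) : mS (gs {n} 0 1) Q = Q := by
  have h1 := col hQ (D := {n, m}) (n := n) (by simp) ∅ (fun t s _ _ => h t s)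
  have h2 : ∀ x, Q x (mv (gs {n} 0 1) x) := by
    rintro (j | ⟨i, t⟩)
    · exact Q.refl' _
    · by_cases hi : i = n
      · subst hi
        rw [mv_inr]
        exact h1 _ (by simp) _ (by simp)
      · rw [mv_inr, kk_gs, if_neg (by simpa using hi)]
        exact Q.refl' _
  refine (eq_mS fun x y => ?_).symm
  exact ⟨fun h3 => Q.trans' (h2 x) (Q.trans' h3 (Q.symm' (h2 y))),
    fun h3 => Q.trans' (Q.symm' (h2 x)) (Q.trans' h3 (h2 y))⟩

end Pool.Agent.R596.PB
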