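import Pool.Agent.R596.SyTool

/-!
# Conditions, automorphisms and supports
-/

set_option autoImplicit false
set_option linter.all false

namespace Pool.Agent.R596.PB

open Pool.Agent.W868 Pool.Agent.W868.PName Pool.Agent.R596.SY

/-- The index set of the generic sets. -/
abbrev Om : Type := ℕ → Bool

/-- The pieces of information. -/
abbrev Fc : Type := (ℕ × ℕ) × Om × Bool

/-- The conditions. -/
structure Cd where
  /-- the information -/
  F : Set Fc
  ctb : F.Countable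
  fn : ∀ x α, (x, α, true) ∈ F → (x, α, false) ∈ F → False

instance : Preorder Cd where
  le p q := q.F ⊆ p.F
  le_refl p := Set.Subset.refl _
  le_trans p q r h h' := Set.Subset.trans h' h

theorem le_def {p q : Cd} : p ≤ q ↔ q.F ⊆ p.F := Iff.rfl

instance : OrderTop Cd where
  top := ⟨∅, Set.countable_empty, fun _ _ h => absurd h (Set.notMem_empty _)⟩
  le_top p := Set.empty_subset _

theorem top_F : (⊤ : Cd).F = ∅ := rfl

theorem Cd.ext {p q : Cd} (h : p.F = q.F) : p = q := by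
  cases p
  cases q
  cases h
  rfl

/-- The permutation acts by `k` on the columns and by the flips `f`. -/
def IsG (σ : Equiv.Perm Fc) (k : ℕ → Equiv.Perm ℕ) (f : ℕ × ℕ → Om → Bool) : Prop :=
  ∀ n t α b, σ ((n, t), α, b) = ((n, k n t), α, xor b (f (n, t) α))

theorem IsG.inv {σ : Equiv.Perm Fc} {k : ℕ → Equiv.Perm ℕ} {f : ℕ × ℕ → Om → Bool}
    (h : IsG σ k f) : IsG σ⁻¹ (fun n => (k n)⁻¹) fun x => f (x.1, (k x.1)⁻¹ x.2) := by
  intro n t α b
  rw [Equiv.Perm.inv_eq_iff_eq, h]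
  simp

theorem IsG.mul {σ σ' : Equiv.Perm Fc} {k k' : ℕ → Equiv.Perm ℕ} {f f' : ℕ × ℕ → Om → Bool}
    (h : IsG σ k f) (h' : IsG σ' k' f') :
    IsG (σ * σ') (fun n => k n * k' n) fun x α => xor (f' x α) (f (x.1, k' x.1 x.2) α) := by
  intro n t α b
  rw [Equiv.Perm.mul_apply, h', h]
  simp

/-- The group. -/
def Gp : Subgroup (Equiv.Perm Fc) where
  carrier := {σ | ∃ k f, (∀ n, {t | k n t ≠ t}.Finite) ∧ IsG σ k f}
  one_mem' := by
    refine ⟨fun _ => 1, fun _ _ => false, fun n => ?_, fun n t α b => ?_⟩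
    · simp
    · simp
  mul_mem' := by
    rintro σ σ' ⟨k, f, h, h1⟩ ⟨k', f', h', h1'⟩
    refine ⟨_, _, fun n => ?_, h1.mul h1'⟩
    refine ((h n).union (h' n)).subset fun t ht => ?_
    by_contra hc
    simp only [Set.mem_union, Set.mem_setOf_eq, not_or, not_not] at hc
    exact ht (by rw [Equiv.Perm.mul_apply, hc.2, hc.1])
  inv_mem' := by
    rintro σ ⟨k, f, h, h1⟩
    refine ⟨_, _, fun n => ?_, h1.inv⟩
    refine (h n).subset fun t ht hc => ht ?_
    change (k n)⁻¹ t = t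
    rw [Equiv.Perm.inv_eq_iff_eq]
    exact hc.symm

/-- The permutations of the columns. -/
noncomputable def kk (g : Gp) : ℕ → Equiv.Perm ℕ := g.2.choose

/-- The flips. -/
noncomputable def ff (g : Gp) : ℕ × ℕ → Om → Bool := g.2.choose_spec.choose

theorem kk_fin (g : Gp) (n : ℕ) : {t | kk g n t ≠ t}.Finite := g.2.choose_spec.choose_spec.1 n

theorem isG (g : Gp) : IsG g.1 (kk g) (ff g) := g.2.choose_spec.choose_spec.2

theorem kk_unique {g : Gp} {k : ℕ → Equiv.Perm ℕ} {f : ℕ × ℕ → Om → Bool}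
    (h : IsG g.1 k f) : kk g = k := by
  funext n
  ext t
  have h1 := isG g n t (fun _ => false) false
  rw [h] at h1
  exact (congrArg (fun x : Fc => x.1.2) h1).symm

theorem kk_mul (g h : Gp) (n : ℕ) : kk (g * h) n = kk g n * kk h n :=
  congrFun (kk_unique (g := g * h) ((isG g).mul (isG h))) n

theorem kk_inv (g : Gp) (n : ℕ) : kk g⁻¹ n = (kk g n)⁻¹ :=
  congrFun (kk_unique (g := g⁻¹) (isG g).inv) n

theorem kk_one (n : ℕ) : kk 1 n = 1 := by
  have h : IsG (1 : Gp).1 (fun _ => 1) fun _ _ => false := fun n t α b => by simp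
  exact congrFun (kk_unique h) n

/-- The element of the group given by permutations and flips. -/
def mkE (k : ℕ → Equiv.Perm ℕ) (f : ℕ × ℕ → Om → Bool) : Equiv.Perm Fc where
  toFun x := ((x.1.1, k x.1.1 x.1.2), x.2.1, xor x.2.2 (f x.1 x.2.1))
  invFun x := ((x.1.1, (k x.1.1)⁻¹ x.1.2), x.2.1, xor x.2.2 (f (x.1.1, (k x.1.1)⁻¹ x.1.2) x.2.1))
  left_inv := by
    rintro ⟨⟨n, t⟩, α, b⟩
    simp
  right_inv := by
    rintro ⟨⟨n, t⟩, α, b⟩
    simp

theorem isG_mkE (k : ℕ → Equiv.Perm ℕ) (f : ℕ × ℕ → Om → Bool) : IsG (mkE k f) k f :=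
  fun _ _ _ _ => rfl

/-- The element of the group given by permutations and flips. -/
def mkG (k : ℕ → Equiv.Perm ℕ) (hk : ∀ n, {t | k n t ≠ t}.Finite) (f : ℕ × ℕ → Om → Bool) : Gp :=
  ⟨mkE k f, k, f, hk, isG_mkE k f⟩

theorem kk_mkG {k : ℕ → Equiv.Perm ℕ} {hk : ∀ n, {t | k n t ≠ t}.Finite}
    {f : ℕ × ℕ → Om → Bool} : kk (mkG k hk f) = k := kk_unique (isG_mkE k f)

/-- The action on the conditions. -/
def sm (g : Gp) (p : Cd) : Cd where
  F := g.1 '' p.F
  ctb := p.ctb.image _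
  fn := by
    rintro x α ⟨⟨⟨n, t⟩, β, b⟩, h1, h2⟩ ⟨⟨⟨n', t'⟩, β', b'⟩, h1', h2'⟩
    rw [isG g] at h2 h2'
    simp only [Prod.mk.injEq] at h2 h2'
    obtain ⟨rfl, rfl, h3⟩ := h2
    simp only [Prod.mk.injEq] at h2'
    obtain ⟨⟨rfl, h4⟩, rfl, h5⟩ := h2'
    have h6 := (kk g _).injective h4
    subst h6
    cases b <;> cases b' <;> simp_all
    · exact p.fn _ _ h1' h1
    · exact p.fn _ _ h1 h1'

theorem mem_sm {g : Gp} {p : Cd} {x : Fc} : g.1 x ∈ (sm g p).F ↔ x ∈ p.F := by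
  constructor
  · rintro ⟨y, h1, h2⟩
    rwa [← g.1.injective h2]
  · exact fun h => ⟨x, h, rfl⟩

theorem sm_one (p : Cd) : sm 1 p = p := Cd.ext (by
  change ((1 : Gp).1) '' p.F = p.F
  simp)

theorem sm_mul (g h : Gp) (p : Cd) : sm (g * h) p = sm g (sm h p) := Cd.ext (by
  change ((g * h).1) '' p.F = g.1 '' (h.1 '' p.F)
  rw [← Set.image_comp]
  rfl)

theorem sm_top (g : Gp) : sm g ⊤ = ⊤ := Cd.ext (Set.image_empty _)

theorem sm_le {g : Gp} {p q : Cd} : sm g p ≤ sm g q ↔ p ≤ q :=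
  Set.image_subset_image_iff g.1.injective

/-- The automorphism. -/
def aut (g : Gp) : Cd ≃o Cd where
  toFun := sm g
  invFun := sm g⁻¹
  left_inv p := by rw [← sm_mul, inv_mul_cancel, sm_one]
  right_inv p := by rw [← sm_mul, mul_inv_cancel, sm_one]
  map_rel_iff' := sm_le

/-- The supports. -/
def Fx (E F : Finset ℕ) : Subgroup Gp where
  carrier := {g | (∀ n ∈ E, ∀ t ∈ F, ∀ α b, g.1 ((n, t), α, b) = ((n, t), α, b)) ∧
    ∀ n ∈ E, ∀ m ∈ E, kk g n = kk g m}
  one_mem' := ⟨fun _ _ _ _ _ _ => rfl, fun n _ m _ => by rw [kk_one, kk_one]⟩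
  mul_mem' := by
    rintro g h ⟨h1, h2⟩ ⟨h3, h4⟩
    refine ⟨fun n hn t ht α b => ?_, fun n hn m hm => ?_⟩
    · rw [Subgroup.coe_mul, Equiv.Perm.mul_apply, h3 n hn t ht, h1 n hn t ht]
    · rw [kk_mul, kk_mul, h2 n hn m hm, h4 n hn m hm]
  inv_mem' := by
    rintro g ⟨h1, h2⟩
    refine ⟨fun n hn t ht α b => ?_, fun n hn m hm => ?_⟩
    · rw [Subgroup.coe_inv, Equiv.Perm.inv_eq_iff_eq, h1 n hn t ht]
    · rw [kk_inv, kk_inv, h2 n hn m hm]

theorem kk_fix {E F : Finset ℕ} {g : Gp} (hg : g ∈ Fx E F) {n t : ℕ} (hn : n ∈ E) (ht : t ∈ F) :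
    kk g n t = t := by
  have h1 := hg.1 n hn t ht (fun _ => false) false
  rw [isG g] at h1
  exact congrArg (fun x : Fc => x.1.2) h1

theorem Fx_anti {E F E' F' : Finset ℕ} (hE : E ⊆ E') (hF : F ⊆ F') : Fx E' F' ≤ Fx E F :=
  fun g hg => ⟨fun n hn t ht => hg.1 n (hE hn) t (hF ht), fun n hn m hm =>
    hg.2 n (hE hn) m (hE hm)⟩

theorem Fx_conj (E F : Finset ℕ) (g : Gp) : ∃ F' : Finset ℕ, ∀ h ∈ Fx E F',
    g⁻¹ * h * g ∈ Fx E F := by
  classical
  let F' : Finset ℕ := F ∪ E.biUnion fun n => (kk_fin g n).toFinset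
  have hF' : ∀ t, t ∈ F' ↔ t ∈ F ∨ ∃ n ∈ E, kk g n t ≠ t := fun t => by
    simp [F']
  have hcl : ∀ n ∈ E, ∀ t ∈ F', kk g n t ∈ F' := by
    intro n hn t ht
    by_cases h : kk g n t = t
    · rwa [h]
    · refine (hF' _).2 (Or.inr ⟨n, hn, fun h' => h ((kk g n).injective h')⟩)
  refine ⟨F', fun h hh => ⟨fun n hn t ht α b => ?_, ?_⟩⟩
  · have ht' : t ∈ F' := (hF' t).2 (Or.inl ht)
    rw [Subgroup.coe_mul, Subgroup.coe_mul, Equiv.Perm.mul_apply, Equiv.Perm.mul_apply, isG g,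
      hh.1 n hn _ (hcl n hn t ht'), ← isG g]
    exact g.1.symm_apply_apply _
  · have key : ∀ n ∈ E, kk (g⁻¹ * h * g) n = kk h n := by
      intro n hn
      rw [kk_mul, kk_mul, kk_inv]
      have hd : Equiv.Perm.Disjoint (kk h n) (kk g n) := by
        intro t
        by_cases ht : kk g n t = t
        · exact Or.inr ht
        · exact Or.inl (kk_fix hh hn ((hF' t).2 (Or.inr ⟨n, hn, ht⟩)))
      have hc : kk h n * kk g n = kk g n * kk h n := hd.commute
      rw [mul_assoc, hc, inv_mul_cancel_left]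
    intro n hn m hm
    rw [key n hn, key m hm, hh.2 n hn m hm]

/-- The symmetric system. -/
def sy : Sys Cd where
  G := Gp
  grp := inferInstance
  ac :=
    { toFun := aut
      map_one' := by
        ext p
        exact sm_one p
      map_mul' := fun g h => by
        ext p
        exact sm_mul g h p }
  top := sm_top
  F := {H | ∃ E F, H = Fx E F}
  ne := ⟨Fx ∅ ∅, ∅, ∅, rfl⟩
  conj := by
    rintro _ ⟨E, F, rfl⟩ g
    obtain ⟨F', h⟩ := Fx_conj E F g
    exact ⟨_, ⟨E, F', rfl⟩, h⟩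
  dir := by
    classical
    rintro _ ⟨E, F, rfl⟩ _ ⟨E', F', rfl⟩
    exact ⟨_, ⟨E ∪ E', F ∪ F', rfl⟩, Fx_anti Finset.subset_union_left Finset.subset_union_left,
      Fx_anti Finset.subset_union_right Finset.subset_union_right⟩

theorem ac_apply (g : Gp) (p : Cd) : (sy.ac g) p = sm g p := rfl

/-- The basic homogeneity lemma. -/
theorem homog {E F : Finset ℕ} {g : Gp} (hg : g ∈ Fx E F) (p : Cd) :
    ∃ h ∈ Fx E F, kk h = kk g ∧ ∃ r : Cd, r ≤ p ∧ r ≤ sm h p := by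
  classical
  let v : ℕ × ℕ → Om → Bool := fun x α => decide ((x, α, true) ∈ p.F)
  let f : ℕ × ℕ → Om → Bool := fun x α => xor (v x α) (v (x.1, kk g x.1 x.2) α)
  have hk : kk (mkG (kk g) (kk_fin g) f) = kk g := kk_mkG
  have hv : ∀ x α b, (x, α, b) ∈ p.F → v x α = b := by
    intro x α b hb
    cases b
    · simp only [v, decide_eq_false_iff_not]
      exact fun h => p.fn x α h hb
    · simpa [v] using hb
  refine ⟨mkG (kk g) (kk_fin g) f, ⟨fun n hn t ht α b => ?_, fun n hn m hm => ?_⟩, hk,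
    ⟨p.F ∪ (sm (mkG (kk g) (kk_fin g) f) p).F, p.ctb.union (Cd.ctb _), ?_⟩,
    Set.subset_union_left, Set.subset_union_right⟩
  · change mkE (kk g) f ((n, t), α, b) = _
    rw [isG_mkE, kk_fix hg hn ht]
    have : f (n, t) α = false := by
      simp only [f, kk_fix hg hn ht, Bool.xor_self]
    rw [this, Bool.xor_false]
  · rw [hk]
    exact hg.2 n hn m hm
  · have key : ∀ x α b, (x, α, b) ∈ (sm (mkG (kk g) (kk_fin g) f) p).F → b = v x α := by
      rintro ⟨m, s⟩ α b ⟨⟨⟨n, t⟩, β, c⟩, h1, h2⟩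
      change mkE (kk g) f ((n, t), β, c) = _ at h2
      rw [isG_mkE] at h2
      simp only [Prod.mk.injEq] at h2
      obtain ⟨⟨rfl, rfl⟩, rfl, rfl⟩ := h2
      simp only [f]
      rw [hv _ _ _ h1]
      simp
    intro x α h1 h2
    rcases h1 with h1 | h1 <;> rcases h2 with h2 | h2
    · exact p.fn x α h1 h2
    · have h3 := key x α _ h2
      rw [hv x α _ h1] at h3
      cases h3
    · have h3 := key x α _ h1
      rw [hv x α _ h2] at h3
      cases h3
    · exact Cd.fn _ x α h1 h2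

end Pool.Agent.R596.PB
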