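import Pool.Agent.W868.Defs

/-!
# Finite and finitary partitions in transitive models of ZF: the definitions

A set `M` of sets is viewed as the structure `(M, ∈)`. `Pool.Agent.W868.Defs` contains transitive
models of ZF (`IsZF`) and injections (`IsInj`).
-/

set_option autoImplicit false

namespace Pool.Agent.R596Pb

open Pool.Agent.W868

/-- `x` is finite in `M`: it has an injection in `M` into a natural number. -/
def FinIn (M : Set ZFSet.{0}) (x : ZFSet.{0}) : Prop :=
  ∃ n ∈ ZFSet.omega, ∃ f ∈ M, IsInj x n f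

/-- `q` is a partition of `A`: a set of nonempty, pairwise disjoint subsets of `A` with
union `A`. -/
structure IsPart (A q : ZFSet.{0}) : Prop where
  ne : ∀ b ∈ q, b ≠ ∅
  sub : ∀ b ∈ q, b ⊆ A
  disj : ∀ b ∈ q, ∀ c ∈ q, ∀ x, x ∈ b → x ∈ c → b = c
  cover : ∀ x ∈ A, ∃ b ∈ q, x ∈ b

/-- `S` is the set, in `M`, of all partitions of `A` with finitely many blocks. -/
def IsPartFin (M : Set ZFSet.{0}) (A S : ZFSet.{0}) : Prop :=
  S ∈ M ∧ ∀ q, q ∈ S ↔ q ∈ M ∧ IsPart A q ∧ FinIn M q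

/-- `B` is the set, in `M`, of all partitions of `A` all of whose blocks are finite. -/
def IsFinitary (M : Set ZFSet.{0}) (A B : ZFSet.{0}) : Prop :=
  B ∈ M ∧ ∀ q, q ∈ B ↔ q ∈ M ∧ IsPart A q ∧ ∀ b ∈ q, FinIn M b

end Pool.Agent.R596Pb
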