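import Pool.Agent.R596.PbVal

/-!
# The model
-/

set_option autoImplicit false
set_option linter.all false

namespace Pool.Agent.R596.PB

open Pool.Agent.W868 Pool.Agent.W868.PName Pool.Agent.R596.SY Pool.Agent.R596Pb
open ZFSet (pair)

theorem finite_of_finIn {M : Set ZFSet.{0}} {z : ZFSet.{0}} (h : FinIn M z) :
    {w | w ∈ z}.Finite := by
  obtain ⟨n, hn, f, -, hf⟩ := h
  obtain ⟨m, rfl⟩ := mem_omega_iff.1 hn
  have h1 := card_le_of_isInj hf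
  rw [card_nat] at h1
  have h2 : Cardinal.mk z < Cardinal.aleph0 := by
    rw [ZFSet.cardinalMk_coe_sort, Cardinal.lift_lt_aleph0]
    exact h1.trans_lt (Cardinal.natCast_lt_aleph0)
  exact Cardinal.lt_aleph0_iff_finite.1 h2

theorem finIn_aux {M : Set ZFSet.{0}} (hM : IsZF M) {s : Set ZFSet.{0}} (hs : s.Finite) :
    s ⊆ M → ∃ z ∈ M, (∀ w, w ∈ z ↔ w ∈ s) ∧ ∃ n : ℕ, ∃ f ∈ M, IsInj z (nat n) f := by
  refine Set.Finite.induction_on s hs ?_ ?_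
  · intro _
    refine ⟨∅, hM.empty_mem, fun w => by simp, 0, ∅, hM.empty_mem, ?_, ?_⟩
    · refine ⟨ZFSet.empty_subset _, fun z hz => absurd hz (ZFSet.notMem_empty _)⟩
    · intro a b c h
      exact absurd h (ZFSet.notMem_empty _)
  · intro a s ha _ ih hsM
    obtain ⟨z, hz, h1, n, f, hf, hfi⟩ := ih fun x hx => hsM (Or.inr hx)
    have haM : a ∈ M := hsM (Or.inl rfl)
    have hnM : nat n ∈ M := hM.trans _ hM.infinity _ (mem_omega_iff.2 ⟨n, rfl⟩)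
    have haz : a ∉ z := fun h => ha ((h1 a).1 h)
    have hmem : ∀ {x y}, pair x y ∈ f → x ∈ z ∧ y ∈ nat n := fun h =>
      ZFSet.pair_mem_prod.1 (hfi.1.1 h)
    have hnn : nat n ∉ nat n := ZFSet.mem_irrefl _
    have hins : ∀ {x y}, pair x y ∈ insert (pair a (nat n)) f ↔
        (x = a ∧ y = nat n) ∨ pair x y ∈ f := by
      intro x y
      rw [ZFSet.mem_insert_iff, ZFSet.pair_inj]
    refine ⟨insert a z, hM.insert_mem haM hz, fun w => ?_, n + 1, insert (pair a (nat n)) f,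
      hM.insert_mem (hM.pair_mem haM hnM) hf, ⟨fun w hw => ?_, fun w hw => ?_⟩,
      fun x y c h2 h3 => ?_⟩
    · rw [ZFSet.mem_insert_iff, h1]
      rfl
    · rcases ZFSet.mem_insert_iff.1 hw with rfl | hw
      · exact ZFSet.pair_mem_prod.2 ⟨ZFSet.mem_insert_iff.2 (Or.inl rfl),
          ZFSet.mem_insert_iff.2 (Or.inl rfl)⟩
      · obtain ⟨x, hx, y, hy, rfl⟩ := ZFSet.mem_prod.1 (hfi.1.1 hw)
        exact ZFSet.pair_mem_prod.2 ⟨ZFSet.mem_insert_iff.2 (Or.inr hx),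
          ZFSet.mem_insert_iff.2 (Or.inr hy)⟩
    · by_cases hwa : w = a
      · subst hwa
        refine ⟨nat n, hins.2 (Or.inl ⟨rfl, rfl⟩), fun y hy => ?_⟩
        rcases hins.1 hy with ⟨-, h⟩ | h
        · exact h
        · exact absurd (hmem h).1 haz
      · have hwz : w ∈ z := (ZFSet.mem_insert_iff.1 hw).resolve_left hwa
        obtain ⟨y, hy, hyu⟩ := hfi.1.2 w hwz
        refine ⟨y, hins.2 (Or.inr hy), fun y' hy' => ?_⟩
        rcases hins.1 hy' with ⟨h, -⟩ | h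
        · exact absurd h hwa
        · exact hyu y' h
    · rcases hins.1 h2 with ⟨e1, e2⟩ | h2' <;> rcases hins.1 h3 with ⟨e3, e4⟩ | h3'
      · rw [e1, e3]
      · exact absurd (e2 ▸ (hmem h3').2) hnn
      · exact absurd (e4 ▸ (hmem h2').2) hnn
      · exact hfi.2 x y c h2' h3'

theorem finIn_of_finite {M : Set ZFSet.{0}} (hM : IsZF M) {z : ZFSet.{0}} (hz : z ∈ M)
    (h : {w | w ∈ z}.Finite) : FinIn M z := by
  obtain ⟨z', -, h1, n, f, hf, h2⟩ := finIn_aux hM h fun w hw => hM.trans _ hz _ hw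
  have h3 : z' = z := by
    ext w
    exact h1 w
  subst h3
  exact ⟨nat n, mem_omega_iff.2 ⟨n, rfl⟩, f, hf, h2⟩

section good

variable {π : Pkg Cd} (hg : Gd π) (hcl : sy.Cld π)

include hg

theorem fin_Nb {D : Set J} : {w | w ∈ π.val (Nb D)}.Finite ↔ D.Finite := by
  have h1 : {w | w ∈ π.val (Nb D)} = (fun x => π.val (aJ x)) '' D := by
    ext w
    exact mem_Nb hg
  rw [h1]
  exact Set.finite_image_iff fun x _ y _ h => aJ_inj hg h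

theorem fin_NQ {Q : Setoid J} (hQ : Hul π Q) :
    {w | w ∈ π.val (NQ Q)}.Finite ↔ Finite (Quotient Q) := by
  let f : Quotient Q → ZFSet.{0} := Quotient.lift (fun x => π.val (Nb (cls Q x)))
    fun x y h => (Nb_eq hg).2 h
  have h1 : {w | w ∈ π.val (NQ Q)} = Set.range f := by
    ext w
    refine (mem_NQ hg hQ).trans ⟨?_, ?_⟩
    · rintro ⟨x, h⟩
      exact ⟨Quotient.mk Q x, h⟩
    · rintro ⟨q, h⟩
      induction q using Quotient.inductionOn with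
      | h x => exact ⟨x, h⟩
  have h2 : Function.Injective f := by
    intro a b
    induction a using Quotient.inductionOn with
    | h x =>
      induction b using Quotient.inductionOn with
      | h y =>
        intro h
        exact Quotient.sound ((Nb_eq hg).1 h)
  rw [h1]
  exact Set.finite_range_iff h2

theorem mem_NPf {z : ZFSet.{0}} : z ∈ π.val NPf ↔ ∃ Q : QQ, Hul π Q.1 ∧ π.val (NQ Q.1) = z := by
  unfold NPf
  rw [mem_tn]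
  exact exists_congr fun Q => ⟨fun h => ⟨hul_NQ hg h.1, h.2⟩, fun h => ⟨n_NQ hg h.1, h.2⟩⟩

theorem mem_NBl {z : ZFSet.{0}} : z ∈ π.val NBl ↔ ∃ Q : BB, Hul π Q.1 ∧ π.val (NQ Q.1) = z := by
  unfold NBl
  rw [mem_tn]
  exact exists_congr fun Q => ⟨fun h => ⟨hul_NQ hg h.1, h.2⟩, fun h => ⟨n_NQ hg h.1, h.2⟩⟩

theorem mem_NPh {z : ZFSet.{0}} : z ∈ π.val NPh ↔
    ∃ Q : QQ, Hul π Q.1 ∧ pair (π.val (NQ Q.1)) (π.val (NQ (PP Q.1))) = z := by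
  unfold NPh
  rw [mem_tn]
  constructor
  · rintro ⟨Q, h1, rfl⟩
    exact ⟨Q, hul_NQ hg (π.fst_mem h1), (π.val_opN (π.fst_mem h1) (π.snd_mem h1)).symm⟩
  · rintro ⟨Q, h1, rfl⟩
    have n1 := n_NQ hg h1
    have n2 := n_NQ hg (hul_PP hg h1)
    exact ⟨Q, π.opN_mem n1 n2, π.val_opN n1 n2⟩

include hcl

theorem isPartFin : IsPartFin (sy.Ms π) (π.val NA) (π.val NPf) := by
  have hM := zf_Ms hcl
  refine ⟨val_Ms (n_NPf hg) hs_NPf, fun q => ?_⟩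
  rw [mem_NPf hg]
  constructor
  · rintro ⟨Q, hQ, rfl⟩
    have h1 : π.val (NQ Q.1) ∈ sy.Ms π := val_Ms (n_NQ hg hQ) (hs_QQ Q)
    exact ⟨h1, part_NQ hg hQ, finIn_of_finite hM h1 ((fin_NQ hg hQ).2 Q.2.1)⟩
  · rintro ⟨⟨τ, ⟨hτ, hs⟩, rfl⟩, h2, h3⟩
    obtain ⟨Q, hQ, h4⟩ := part_eq hg hτ h2
    have h5 := finite_of_finIn h3
    rw [h4, fin_NQ hg hQ] at h5
    exact ⟨⟨Q, h5, inv_of_sym hg hτ hs.sym hQ h4⟩, hQ, h4.symm⟩

theorem isFinitary : IsFinitary (sy.Ms π) (π.val NA) (π.val NBl) := by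
  have hM := zf_Ms hcl
  refine ⟨val_Ms (n_NBl hg) hs_NBl, fun q => ?_⟩
  rw [mem_NBl hg]
  constructor
  · rintro ⟨Q, hQ, rfl⟩
    have h1 : π.val (NQ Q.1) ∈ sy.Ms π := val_Ms (n_NQ hg hQ) (hs_BB Q)
    refine ⟨h1, part_NQ hg hQ, fun b hb => ?_⟩
    have h2 := hM.trans _ h1 _ hb
    obtain ⟨x, rfl⟩ := (mem_NQ hg hQ).1 hb
    exact finIn_of_finite hM h2 ((fin_Nb hg).2 (Q.2.1 x))
  · rintro ⟨⟨τ, ⟨hτ, hs⟩, rfl⟩, h2, h3⟩
    obtain ⟨Q, hQ, h4⟩ := part_eq hg hτ h2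
    refine ⟨⟨Q, fun x => ?_, inv_of_sym hg hτ hs.sym hQ h4⟩, hQ, h4.symm⟩
    have h5 := h3 (π.val (Nb (cls Q x))) (by
      rw [h4]
      exact (mem_NQ hg hQ).2 ⟨x, rfl⟩)
    exact (fin_Nb hg).1 (finite_of_finIn h5)

theorem inj : ∃ f ∈ sy.Ms π, IsInj (π.val NPf) (π.val NBl) f := by
  refine ⟨π.val NPh, val_Ms (n_NPh hg) hs_NPh, ⟨fun w hw => ?_, fun q hq => ?_⟩,
    fun x y c h1 h2 => ?_⟩
  · obtain ⟨Q, hQ, rfl⟩ := (mem_NPh hg).1 hw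
    exact ZFSet.pair_mem_prod.2 ⟨(mem_NPf hg).2 ⟨Q, hQ, rfl⟩,
      (mem_NBl hg).2 ⟨Q.pp, hul_PP hg hQ, rfl⟩⟩
  · obtain ⟨Q, hQ, rfl⟩ := (mem_NPf hg).1 hq
    refine ⟨π.val (NQ (PP Q.1)), (mem_NPh hg).2 ⟨Q, hQ, rfl⟩, fun y hy => ?_⟩
    obtain ⟨Q', hQ', h3⟩ := (mem_NPh hg).1 hy
    obtain ⟨h4, rfl⟩ := ZFSet.pair_inj.1 h3
    rw [NQ_inj hg hQ' hQ h4]
  · obtain ⟨Q, hQ, h3⟩ := (mem_NPh hg).1 h1
    obtain ⟨Q', hQ', h4⟩ := (mem_NPh hg).1 h2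
    obtain ⟨rfl, rfl⟩ := ZFSet.pair_inj.1 h3
    obtain ⟨rfl, h5⟩ := ZFSet.pair_inj.1 h4
    have h6 := PP_injective (NQ_inj hg (hul_PP hg hQ') (hul_PP hg hQ) h5)
    rw [h6]

end good

/-- The statement that the value is functional and injective. -/
def RI (τ : PName Cd) (π : Pkg Cd) : Prop :=
  (∀ a ∈ π.W, ∀ b ∈ π.W, ∀ c ∈ π.W, pair a b ∈ π.val τ → pair a c ∈ π.val τ → b = c) ∧
  ∀ a ∈ π.W, ∀ b ∈ π.W, ∀ c ∈ π.W, pair a c ∈ π.val τ → pair b c ∈ π.val τ → a = b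

theorem dfn_RI (τ : PName Cd) : NDfn {τ} fun π (_ : Fin 0 → ZFSet.{0}) => RI τ π := by
  have h1 : τ ∈ ({τ} : Set (PName Cd)) := rfl
  unfold RI
  refine NDfn.and ?_ ?_
  · refine NDfn.all (NDfn.all (NDfn.all ?_))
    refine NDfn.imp (NDfn.mem (NDfnF.pair (NDfnF.proj 2) (NDfnF.proj 1)) (NDfnF.val h1)) ?_
    refine NDfn.imp (NDfn.mem (NDfnF.pair (NDfnF.proj 2) (NDfnF.proj 0)) (NDfnF.val h1)) ?_
    exact NDfn.eq (NDfnF.proj 1) (NDfnF.proj 0)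
  · refine NDfn.all (NDfn.all (NDfn.all ?_))
    refine NDfn.imp (NDfn.mem (NDfnF.pair (NDfnF.proj 2) (NDfnF.proj 0)) (NDfnF.val h1)) ?_
    refine NDfn.imp (NDfn.mem (NDfnF.pair (NDfnF.proj 1) (NDfnF.proj 0)) (NDfnF.val h1)) ?_
    exact NDfn.eq (NDfnF.proj 2) (NDfnF.proj 1)

/-- The main symmetry argument. -/
theorem sym_arg {E F : Finset ℕ} {τ : PName Cd} (hτ : sy.Fix (Fx E F) τ) {p : Cd}
    (hp : ∀ π : Pkg Cd, {τ} ⊆ π.N → (∃ m, π.g m ≤ p) → RI τ π) {B Q : Setoid J}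
    (hm : Fmem (opN (NQ B) (NQ Q)) τ p) {h : Gp} (hh : h ∈ Fx E F) :
    mS h B = B ↔ mS h Q = Q := by
  obtain ⟨h', h1, h2, r, h3, h4⟩ := homog hh p
  rw [← mS_congr h2, ← mS_congr h2]
  have h5 := fmem_act' (e := sy.ac h') hm
  have h6 : Fmem (opN (NQ (mS h' B)) (NQ (mS h' Q))) τ (sm h' p) :=
    fmem_congr (act_pQ h' B Q _) (hτ h' h1 _) h5
  obtain ⟨π, hg, hA, h0, -, -⟩ := exists_gd {τ, check (cd B), check (cd Q), check (cd (mS h' B)),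
    check (cd (mS h' Q))} (Set.toFinite _).countable r
  have nτ : τ ∈ π.N := hA (by simp)
  have u1 : Hul π B := hA (by simp)
  have u2 : Hul π Q := hA (by simp)
  have u3 : Hul π (mS h' B) := hA (by simp)
  have u4 : Hul π (mS h' Q) := hA (by simp)
  have n1 := n_NQ hg u1
  have n2 := n_NQ hg u2
  have n3 := n_NQ hg u3
  have n4 := n_NQ hg u4
  obtain ⟨i1, i2⟩ := hp π (by rintro _ rfl; exact nτ) ⟨0, by rw [h0]; exact h3⟩
  have m1 : pair (π.val (NQ B)) (π.val (NQ Q)) ∈ π.val τ := by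
    rw [← π.val_opN n1 n2]
    exact mem_of_fmem (π.opN_mem n1 n2) nτ (m := 0) (h0.le.trans h3) hm
  have m2 : pair (π.val (NQ (mS h' B))) (π.val (NQ (mS h' Q))) ∈ π.val τ := by
    rw [← π.val_opN n3 n4]
    exact mem_of_fmem (π.opN_mem n3 n4) nτ (m := 0) (h0.le.trans h4) h6
  constructor
  · intro e
    rw [e] at m2
    exact NQ_inj hg u4 u2 (i1 _ (π.val_mem_W n1) _ (π.val_mem_W n4) _ (π.val_mem_W n2) m2 m1)
  · intro e
    rw [e] at m2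
    exact NQ_inj hg u3 u1 (i2 _ (π.val_mem_W n3) _ (π.val_mem_W n1) _ (π.val_mem_W n2) m2 m1)

theorem no_inj {π : Pkg Cd} (hg : Gd π) (hcl : sy.Cld π) :
    ¬ ∃ f ∈ sy.Ms π, IsInj (π.val NBl) (π.val NPf) f := by
  rintro ⟨f, ⟨τ, ⟨hτ, hs⟩, rfl⟩, hf⟩
  obtain ⟨_, ⟨E, F, rfl⟩, hfix⟩ := hs.sym
  obtain ⟨n, hn⟩ := E.exists_notMem
  obtain ⟨m, hm'⟩ := (insert n E).exists_notMem
  have hm : m ∉ E := fun h => hm' (Finset.mem_insert_of_mem h)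
  have hnm : n ≠ m := fun h => hm' (h ▸ Finset.mem_insert_self _ _)
  have hB : π.val (NQ (P0 n m)) ∈ π.val NBl :=
    (mem_NBl hg).2 ⟨⟨P0 n m, P0_fin, _, _, P0_inv n m⟩, hul_P0 hg n m, rfl⟩
  obtain ⟨z, hz, hzf⟩ := fun_exists hf.1 hB
  obtain ⟨Q, hQ, rfl⟩ := (mem_NPf hg).1 hz
  have n1 := n_NQ hg (hul_P0 hg n m)
  have n2 := n_NQ hg hQ
  rw [← π.val_opN n1 n2] at hzf
  obtain ⟨k, hk⟩ := (π.val_mem_iff (π.opN_mem n1 n2) hτ).1 hzf
  have hRI : RI τ π := ⟨fun a _ b _ c _ h1 h2 => fun_unique hf.1 h1 h2,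
    fun a _ b _ c _ h1 h2 => hf.2 a b c h1 h2⟩
  obtain ⟨l, hl⟩ := forcing_theorem (dfn_RI τ) π (by rintro _ rfl; exact hτ) hRI
  have key : ∀ h ∈ Fx E F, (mS h (P0 n m) = P0 n m ↔ mS h Q.1 = Q.1) := fun h hh =>
    sym_arg hfix (p := π.g (max l k)) (fun π' hS ⟨i, hi⟩ =>
      hl π' hS ⟨i, hi.trans (π.g_le_left l k)⟩) (hk.mono (π.g_le_right l k)) hh
  have h1 : ∀ t s, mS (gs {n, m} t s) Q.1 = Q.1 := by
    intro t s
    refine (key _ (gs_mem (Or.inl fun i hi hi' => ?_))).1 (P0_mS ?_)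
    · rcases hi' with rfl | rfl
      · exact hn hi
      · exact hm hi
    · rw [kk_gs, kk_gs, if_pos (by simp), if_pos (by simp)]
  have h2 := Q_fix Q.2.1 h1
  refine P0_ne hnm ((key _ (gs_mem (Or.inl fun i hi hi' => ?_))).2 h2)
  rw [Set.mem_singleton_iff] at hi'
  exact hn (hi' ▸ hi)

theorem infinite_A {π : Pkg Cd} (hg : Gd π) : ¬ FinIn (sy.Ms π) (π.val NA) := by
  intro h
  have h1 := finite_of_finIn h
  have h2 : {w | w ∈ π.val NA} = Set.range fun x => π.val (aJ x) := by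
    ext w
    exact mem_NA hg
  rw [h2] at h1
  exact Set.infinite_range_of_injective (fun x y h => aJ_inj hg h) h1

/-- The model. -/
theorem main : ∃ (M : Set ZFSet.{0}) (A S B : ZFSet.{0}), M.Countable ∧ IsZF M ∧ A ∈ M ∧
    ¬ FinIn M A ∧ IsPartFin M A S ∧ IsFinitary M A B ∧ (∃ f ∈ M, IsInj S B f) ∧
    ¬ ∃ f ∈ M, IsInj B S f := by
  obtain ⟨π, hg, -, -, -, hcl⟩ := exists_gd ∅ Set.countable_empty ⊤
  refine ⟨sy.Ms π, π.val NA, π.val NPf, π.val NBl, ?_, zf_Ms hcl, val_Ms (n_NA hg) hs_NA,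
    infinite_A hg, isPartFin hg hcl, isFinitary hg hcl, inj hg hcl, no_inj hg hcl⟩
  exact π.countable_W.mono fun x hx => Ms_W hx

end Pool.Agent.R596.PB
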