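import Pool.Agent.R596.PbComb
import Pool.Agent.R596.PbDefs

/-!
# The names
-/

set_option autoImplicit false
set_option linter.all false

namespace Pool.Agent.R596.PB

open Pool.Agent.W868 Pool.Agent.W868.PName Pool.Agent.R596.SY Pool.Agent.R596Pb
open ZFSet (pair)

theorem act_ck (g : Gp) (x : ZFSet.{0}) : act (sy.ac g) (check x) = check x :=
  act_check (sy.top g) x

/-- The element of the mark. -/
noncomputable def tz : ZFSet.{0} := {{∅}}

/-- The mark of the atoms. -/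
noncomputable def tg : ZFSet.{0} := {tz}

theorem tz_not_ord : ¬ tz.IsOrdinal := by
  intro h
  have h1 : ({∅} : ZFSet.{0}) ∈ tz := ZFSet.mem_singleton.2 rfl
  have h2 : (∅ : ZFSet.{0}) ∈ tz := h.isTransitive.mem_trans (ZFSet.mem_singleton.2 rfl) h1
  have h3 := ZFSet.mem_singleton.1 h2
  have h4 : (∅ : ZFSet.{0}) ∈ ({∅} : ZFSet.{0}) := ZFSet.mem_singleton.2 rfl
  rw [← h3] at h4
  exact ZFSet.notMem_empty _ h4

theorem cd_ord {α : Type} (a : α) : (cd a).IsOrdinal := ZFSet.isOrdinal_toZFSet _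

theorem tg_not_nat (n : ℕ) : tg ∉ nat n := by
  intro h
  have h0 : (nat n).IsOrdinal := by
    have : ∀ n : ℕ, (nat n).IsOrdinal := by
      intro n
      induction n with
      | zero => exact ZFSet.isOrdinal_empty
      | succ n ih => exact ZFSet.isOrdinal_succ ih
    exact this n
  have h1 : tg.IsOrdinal := h0.mem h
  exact tz_not_ord (h1.mem (ZFSet.mem_singleton.2 rfl))

/-- The generic sets. -/
noncomputable def X (x : ℕ × ℕ) (s : Om → Bool) : PName Cd :=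
  rn Om (fun α => check (cd α)) fun α p => (x, α, !s α) ∈ p.F

/-- The elements of an atom. -/
noncomputable def atE (x : ℕ × ℕ) : Option (Om → Bool) → PName Cd
  | none => check tg
  | some s => X x s

/-- The atoms. -/
noncomputable def atm (x : ℕ × ℕ) : PName Cd := tn (Option (Om → Bool)) (atE x)

/-- The names of the elements of `A`. -/
noncomputable def aJ : J → PName Cd
  | Sum.inl j => check (nat j)
  | Sum.inr x => atm x

/-- The name of a subset. -/
noncomputable def Nb (D : Set J) : PName Cd := tn D fun y => aJ y.1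

/-- The name of a partition. -/
noncomputable def NQ (Q : Setoid J) : PName Cd := tn J fun x => Nb (cls Q x)

/-- The finite partitions. -/
def QQ : Type := {Q : Setoid J // Finite (Quotient Q) ∧ ∃ E F, Inv E F Q}

/-- The finitary partitions. -/
def BB : Type := {Q : Setoid J // (∀ x, (cls Q x).Finite) ∧ ∃ E F, Inv E F Q}

/-- The name of `A`. -/
noncomputable def NA : PName Cd := tn J aJ

/-- The name of the set of finite partitions. -/
noncomputable def NPf : PName Cd := tn QQ fun Q => NQ Q.1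

/-- The name of the set of finitary partitions. -/
noncomputable def NBl : PName Cd := tn BB fun Q => NQ Q.1

/-- The name of the injection. -/
noncomputable def NPh : PName Cd := tn QQ fun Q => opN (NQ Q.1) (NQ (PP Q.1))

theorem act_X (g : Gp) (n t : ℕ) (s : Om → Bool) (p : Cd) :
    Feq (act (sy.ac g) (X (n, t) s)) (X (n, kk g n t) fun α => xor (s α) (ff g (n, t) α)) p := by
  refine feq_act_rn (fun α => act_ck g _) (fun α c => ?_) p
  rw [← mem_sm (g := g) (x := ((n, t), α, !s α)), isG g]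
  change _ ↔ _ ∈ (sm g c).F
  have : (!(xor (s α) (ff g (n, t) α))) = xor (!s α) (ff g (n, t) α) := by
    cases s α <;> cases ff g (n, t) α <;> rfl
  rw [this]
  rfl

theorem act_atm (g : Gp) (n t : ℕ) (p : Cd) :
    Feq (act (sy.ac g) (atm (n, t))) (atm (n, kk g n t)) p := by
  unfold atm
  rw [act_tn (sy.top g)]
  refine feq_tn (fun o => ?_) fun o => ?_
  · rcases o with _ | s
    · exact ⟨none, by unfold atE; rw [act_ck]; exact Feq.refl _ _⟩
    · exact ⟨some fun α => xor (s α) (ff g (n, t) α), act_X g n t s p⟩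
  · rcases o with _ | s
    · exact ⟨none, by unfold atE; rw [act_ck]; exact Feq.refl _ _⟩
    · refine ⟨some fun α => xor (s α) (ff g (n, t) α), ?_⟩
      have h1 := act_X g n t (fun α => xor (s α) (ff g (n, t) α)) p
      have h2 : (fun α => xor (xor (s α) (ff g (n, t) α)) (ff g (n, t) α)) = s := by
        funext α
        simp
      rw [h2] at h1
      exact h1

theorem act_aJ (g : Gp) (x : J) (p : Cd) : Feq (act (sy.ac g) (aJ x)) (aJ (mv g x)) p := by
  rcases x with j | ⟨n, t⟩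
  · rw [mv_inl]
    unfold aJ
    rw [act_ck]
    exact Feq.refl _ _
  · exact act_atm g n t p

theorem act_Nb (g : Gp) (D : Set J) (p : Cd) :
    Feq (act (sy.ac g) (Nb D)) (Nb (mv g '' D)) p := by
  unfold Nb
  rw [act_tn (sy.top g)]
  refine feq_tn (fun y => ⟨⟨mv g y.1, y.1, y.2, rfl⟩, act_aJ g y.1 p⟩) ?_
  rintro ⟨_, y, hy, rfl⟩
  exact ⟨⟨y, hy⟩, act_aJ g y p⟩

theorem act_NQ (g : Gp) (Q : Setoid J) (p : Cd) :
    Feq (act (sy.ac g) (NQ Q)) (NQ (mS g Q)) p := by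
  unfold NQ
  rw [act_tn (sy.top g)]
  refine feq_tn (fun x => ⟨mv g x, ?_⟩) fun x => ⟨(mv g).symm x, ?_⟩
  · rw [cls_mS]
    exact act_Nb g _ p
  · have h1 := act_Nb g (cls Q ((mv g).symm x)) p
    rw [← cls_mS, Equiv.apply_symm_apply] at h1
    exact h1

theorem mS_mS (g h : Gp) (Q : Setoid J) : mS g (mS h Q) = mS (g * h) Q := by
  refine eq_mS fun x y => ?_
  have h1 : ∀ x, mv (g * h) x = mv g (mv h x) := by
    rintro (j | ⟨n, t⟩)
    · rfl
    · rw [mv_inr, mv_inr, mv_inr, kk_mul]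
      rfl
  rw [h1, h1, mS_iff, mS_iff]

theorem mS_one (Q : Setoid J) : mS 1 Q = Q := by
  refine (eq_mS fun x y => ?_).symm
  have h1 : ∀ x, mv 1 x = x := by
    rintro (j | ⟨n, t⟩)
    · rfl
    · rw [mv_inr, kk_one]
      rfl
  rw [h1, h1]

theorem mS_inv (g : Gp) (Q : Setoid J) : mS g (mS g⁻¹ Q) = Q := by
  rw [mS_mS, mul_inv_cancel, mS_one]

theorem Inv.mS {E F : Finset ℕ} {Q : Setoid J} (h : Inv E F Q) (g : Gp) :
    ∃ F', Inv E F' (mS g Q) := by
  obtain ⟨F', h1⟩ := Fx_conj E F g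
  refine ⟨F', fun k hk => ?_⟩
  have h2 := h _ (h1 k hk)
  rw [mS_mS]
  conv_rhs => rw [← h2]
  rw [mS_mS]
  congr 1
  group

theorem finite_mS {Q : Setoid J} (h : Finite (Quotient Q)) (g : Gp) :
    Finite (Quotient (PB.mS g Q)) := by
  refine Finite.of_surjective (Quotient.lift (s := Q)
    (fun x => (Quotient.mk (PB.mS g Q) (mv g x))) fun x y hxy => Quotient.sound (mS_iff.2 hxy)) ?_
  intro q
  induction q using Quotient.inductionOn with
  | h x =>
    refine ⟨Quotient.mk Q ((mv g).symm x), ?_⟩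
    simp

/-- The moved partition. -/
noncomputable def QQ.mv (g : Gp) (Q : QQ) : QQ :=
  ⟨PB.mS g Q.1, finite_mS Q.2.1 g, by
    obtain ⟨E, F, h⟩ := Q.2.2
    obtain ⟨F', h'⟩ := h.mS g
    exact ⟨E, F', h'⟩⟩

/-- The moved partition. -/
noncomputable def BB.mv (g : Gp) (Q : BB) : BB :=
  ⟨PB.mS g Q.1, fun x => by
    have h1 : cls (PB.mS g Q.1) x = PB.mv g '' cls Q.1 ((PB.mv g).symm x) := by
      rw [← cls_mS, Equiv.apply_symm_apply]
    rw [h1]
    exact (Q.2.1 _).image _, by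
    obtain ⟨E, F, h⟩ := Q.2.2
    obtain ⟨F', h'⟩ := h.mS g
    exact ⟨E, F', h'⟩⟩

theorem act_NA (g : Gp) (p : Cd) : Feq (act (sy.ac g) NA) NA p := by
  unfold NA
  rw [act_tn (sy.top g)]
  refine feq_tn (fun x => ⟨_, act_aJ g x p⟩) fun x => ⟨(mv g).symm x, ?_⟩
  have h1 := act_aJ g ((mv g).symm x) p
  rwa [Equiv.apply_symm_apply] at h1

theorem act_NPf (g : Gp) (p : Cd) : Feq (act (sy.ac g) NPf) NPf p := by
  unfold NPf
  rw [act_tn (sy.top g)]
  refine feq_tn (fun Q => ⟨Q.mv g, act_NQ g _ p⟩) fun Q => ⟨Q.mv g⁻¹, ?_⟩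
  have h1 := act_NQ g (mS g⁻¹ Q.1) p
  rwa [mS_inv] at h1

theorem act_NBl (g : Gp) (p : Cd) : Feq (act (sy.ac g) NBl) NBl p := by
  unfold NBl
  rw [act_tn (sy.top g)]
  refine feq_tn (fun Q => ⟨Q.mv g, act_NQ g _ p⟩) fun Q => ⟨Q.mv g⁻¹, ?_⟩
  have h1 := act_NQ g (mS g⁻¹ Q.1) p
  rwa [mS_inv] at h1

theorem act_pQ (g : Gp) (Q R : Setoid J) (p : Cd) :
    Feq (act (sy.ac g) (opN (NQ Q) (NQ R))) (opN (NQ (mS g Q)) (NQ (mS g R))) p := by
  rw [act_opN (sy.top g)]
  exact feq_opN (act_NQ g _ p) (act_NQ g _ p)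

theorem act_NPh (g : Gp) (p : Cd) : Feq (act (sy.ac g) NPh) NPh p := by
  unfold NPh
  rw [act_tn (sy.top g)]
  refine feq_tn (fun Q => ⟨Q.mv g, ?_⟩) fun Q => ⟨Q.mv g⁻¹, ?_⟩
  · have h1 := act_pQ g Q.1 (PP Q.1) p
    rw [← PP_mS] at h1
    exact h1
  · have h1 := act_pQ g (mS g⁻¹ Q.1) (PP (mS g⁻¹ Q.1)) p
    rw [← PP_mS, mS_inv] at h1
    exact h1

/-! ### Symmetry -/

theorem ff_fix {E F : Finset ℕ} {g : Gp} (hg : g ∈ Fx E F) {n t : ℕ} (hn : n ∈ E) (ht : t ∈ F)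
    (α : Om) : ff g (n, t) α = false := by
  have h1 := hg.1 n hn t ht α false
  rw [isG g] at h1
  have h2 := congrArg (fun x : Fc => x.2.2) h1
  simpa using h2

theorem hs_X (x : ℕ × ℕ) (s : Om → Bool) : sy.HS (X x s) := by
  obtain ⟨n, t⟩ := x
  refine hs_rn (S := sy) (H := Fx {n} {t}) ⟨_, _, rfl⟩ (fun α => sy.hs_check _) fun g hg p => ?_
  have h1 := act_X g n t s p
  rw [kk_fix hg (by simp) (by simp)] at h1
  have h2 : (fun α => xor (s α) (ff g (n, t) α)) = s := by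
    funext α
    rw [ff_fix hg (by simp) (by simp), Bool.xor_false]
  rw [h2] at h1
  exact h1

theorem hs_aJ (x : J) : sy.HS (aJ x) := by
  rcases x with j | ⟨n, t⟩
  · exact sy.hs_check _
  · refine hs_tn (S := sy) (H := Fx {n} {t}) ⟨_, _, rfl⟩ (fun o => ?_) fun g hg p => ?_
    · rcases o with _ | s
      · exact sy.hs_check _
      · exact hs_X _ _
    · have h1 := act_atm g n t p
      rwa [kk_fix hg (by simp) (by simp)] at h1

theorem hs_Nb {E F : Finset ℕ} {D : Set J} (h : ∀ g ∈ Fx E F, mv g '' D = D) :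
    sy.HS (Nb D) := by
  refine hs_tn (S := sy) (H := Fx E F) ⟨_, _, rfl⟩ (fun y => hs_aJ _) fun g hg p => ?_
  have h1 := act_Nb g D p
  rwa [h g hg] at h1

theorem hs_Nb_fin {D : Set J} (h : D.Finite) : sy.HS (Nb D) := by
  classical
  let E : Finset ℕ := h.toFinset.biUnion fun y => match y with
    | Sum.inl _ => ∅
    | Sum.inr x => {x.1}
  let F : Finset ℕ := h.toFinset.biUnion fun y => match y with
    | Sum.inl _ => ∅
    | Sum.inr x => {x.2}
  have key : ∀ g ∈ Fx E F, ∀ y ∈ D, mv g y = y := by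
    intro g hg y hy
    rcases y with j | ⟨n, t⟩
    · rfl
    · rw [mv_inr, kk_fix hg]
      · exact Finset.mem_biUnion.2 ⟨_, h.mem_toFinset.2 hy, by simp⟩
      · exact Finset.mem_biUnion.2 ⟨_, h.mem_toFinset.2 hy, by simp⟩
  refine hs_Nb (E := E) (F := F) fun g hg => ?_
  ext y
  constructor
  · rintro ⟨z, hz, rfl⟩
    rwa [key g hg z hz]
  · exact fun hy => ⟨y, hy, key g hg y hy⟩

theorem hs_NQ {E F : Finset ℕ} {Q : Setoid J} (h : Inv E F Q) (h' : ∀ x, sy.HS (Nb (cls Q x))) :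
    sy.HS (NQ Q) := by
  refine hs_tn (S := sy) (H := Fx E F) ⟨_, _, rfl⟩ h' fun g hg p => ?_
  have h1 := act_NQ g Q p
  rwa [h g hg] at h1

theorem hs_QQ (Q : QQ) : sy.HS (NQ Q.1) := by
  obtain ⟨E, F, h⟩ := Q.2.2
  refine hs_NQ h fun x => hs_Nb (E := E) (F := F) fun g hg => ?_
  rw [← cls_mS, h g hg]
  exact cls_eq.2 (Q.1.symm' (stay Q.2.1 h hg x))

theorem hs_BB (Q : BB) : sy.HS (NQ Q.1) := by
  obtain ⟨E, F, h⟩ := Q.2.2
  exact hs_NQ h fun x => hs_Nb_fin (Q.2.1 x)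

theorem hs_NA : sy.HS NA :=
  hs_tn (S := sy) (H := Fx ∅ ∅) ⟨_, _, rfl⟩ hs_aJ fun g _ p => act_NA g p

theorem hs_NPf : sy.HS NPf :=
  hs_tn (S := sy) (H := Fx ∅ ∅) ⟨_, _, rfl⟩ hs_QQ fun g _ p => act_NPf g p

theorem hs_NBl : sy.HS NBl :=
  hs_tn (S := sy) (H := Fx ∅ ∅) ⟨_, _, rfl⟩ hs_BB fun g _ p => act_NBl g p

/-- The code of a finite partition. -/
noncomputable def QQ.pp (Q : QQ) : BB :=
  ⟨PP Q.1, fun x => by
    obtain ⟨E, F, h⟩ := Q.2.2
    exact finite_PP (finite_ex Q.2.1 h) x, by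
    obtain ⟨E, F, h⟩ := Q.2.2
    exact ⟨E, F, h.PP⟩⟩

theorem hs_NPh : sy.HS NPh :=
  hs_tn (S := sy) (H := Fx ∅ ∅) ⟨_, _, rfl⟩ (fun Q => sy.hs_opN (hs_QQ Q) (hs_BB Q.pp))
    fun g _ p => act_NPh g p

end Pool.Agent.R596.PB
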