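import Pool.Agent.R596.PbSys

/-!
# The values of the names
-/

set_option autoImplicit false
set_option linter.all false

namespace Pool.Agent.R596.PB

open Pool.Agent.W868 Pool.Agent.W868.PName Pool.Agent.R596.SY Pool.Agent.R596Pb
open ZFSet (pair)

theorem unc : ¬ (Set.univ : Set Om).Countable := by
  rw [Set.countable_univ_iff, ← Cardinal.mk_le_aleph0_iff]
  have h : Cardinal.mk Om = 2 ^ Cardinal.aleph0 := by simp [Om]
  rw [h]
  exact not_le.2 (Cardinal.cantor _)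

/-- The basic names. -/
def base : Set (PName Cd) :=
  Set.range aJ ∪ Set.range (fun x => X x fun _ => false) ∪ {check tg, check tz, NA, NPf, NBl, NPh} ∪
    (Set.range fun x : J => check (cd x)) ∪
    Set.range fun x : ℕ × ℕ => check (cd (P0 x.1 x.2))

theorem ctb_base : base.Countable := by
  unfold base
  exact ((((Set.countable_range _).union (Set.countable_range _)).union
    (Set.toFinite _).countable).union (Set.countable_range _)).union (Set.countable_range _)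

/-- The statement that `x` and `y` are in the same block. -/
def R (τ : PName Cd) (x y : J) (π : Pkg Cd) : Prop :=
  ∃ b ∈ π.val τ, π.val (aJ x) ∈ b ∧ π.val (aJ y) ∈ b

/-- The parameters. -/
def sR (τ : PName Cd) (x y : J) : Set (PName Cd) := {τ, aJ x, aJ y}

theorem dfn_R (τ : PName Cd) (x y : J) :
    NDfn (sR τ x y) fun π (_ : Fin 0 → ZFSet.{0}) => R τ x y π := by
  have h1 : τ ∈ sR τ x y := by simp [sR]
  have h2 : aJ x ∈ sR τ x y := by simp [sR]
  have h3 : aJ y ∈ sR τ x y := by simp [sR]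
  unfold R
  refine NDfn.bex (NDfnF.val h1) (NDfn.and ?_ ?_)
  · exact NDfn.mem (NDfnF.val h2) (NDfnF.proj 0)
  · exact NDfn.mem (NDfnF.val h3) (NDfnF.proj 0)

/-- The condition forces that the points are in the same block. -/
def Frc (τ : PName Cd) (p : Cd) (x y : J) : Prop :=
  ∀ π : Pkg Cd, sR τ x y ⊆ π.N → (∃ m, π.g m ≤ p) → R τ x y π

/-- The condition forces that the points are not in the same block. -/
def Frn (τ : PName Cd) (p : Cd) (x y : J) : Prop :=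
  ∀ π : Pkg Cd, sR τ x y ⊆ π.N → (∃ m, π.g m ≤ p) → ¬ R τ x y π

/-- The condition decides the partition. -/
def Dec (τ : PName Cd) (p : Cd) : Prop := ∀ x y, Frc τ p x y ∨ Frn τ p x y

theorem Frc.mono {τ : PName Cd} {p q : Cd} {x y : J} (h : Frc τ p x y) (hq : q ≤ p) :
    Frc τ q x y := fun π hS ⟨m, hm⟩ => h π hS ⟨m, hm.trans hq⟩

theorem Frn.mono {τ : PName Cd} {p q : Cd} {x y : J} (h : Frn τ p x y) (hq : q ≤ p) :
    Frn τ q x y := fun π hS ⟨m, hm⟩ => h π hS ⟨m, hm.trans hq⟩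

theorem dec_one (τ : PName Cd) (p : Cd) (x y : J) :
    ∃ q, q ≤ p ∧ (Frc τ q x y ∨ Frn τ q x y) := by
  obtain ⟨π, hA, h0, hk⟩ := pkg (sR τ x y) (by unfold sR; exact (Set.toFinite _).countable) p
  by_cases h : R τ x y π
  · obtain ⟨k, h1⟩ := forcing_theorem (dfn_R τ x y) π hA h
    exact ⟨π.g k, hk k, Or.inl h1⟩
  · obtain ⟨k, h1⟩ := forcing_theorem (R := fun π => ¬ R τ x y π) (dfn_R τ x y).not π hA h
    exact ⟨π.g k, hk k, Or.inr h1⟩

/-- Descending sequences have lower bounds. -/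
theorem closed_seq (f : ℕ → Cd) (hf : ∀ n, f (n + 1) ≤ f n) : ∃ q : Cd, ∀ n, q ≤ f n := by
  have hm : ∀ m n, m ≤ n → (f m).F ⊆ (f n).F := by
    intro m n h
    induction n, h using Nat.le_induction with
    | base => exact Set.Subset.refl _
    | succ n h ih => exact ih.trans (hf n)
  refine ⟨⟨⋃ n, (f n).F, Set.countable_iUnion fun n => (f n).ctb, fun x α h1 h2 => ?_⟩,
    fun n => Set.subset_iUnion (fun n => (f n).F) n⟩
  obtain ⟨m, h1⟩ := Set.mem_iUnion.1 h1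
  obtain ⟨n, h2⟩ := Set.mem_iUnion.1 h2
  exact (f (max m n)).fn x α (hm m _ (le_max_left _ _) h1) (hm n _ (le_max_right _ _) h2)

theorem dec_dense (τ : PName Cd) (p : Cd) : ∃ q, q ≤ p ∧ Dec τ q := by
  choose d hd1 hd2 using dec_one τ
  obtain ⟨e, he⟩ := exists_surjective_nat (J × J)
  let f : ℕ → Cd := fun n => Nat.rec p (fun n q => d q (e n).1 (e n).2) n
  obtain ⟨q, hq⟩ := closed_seq f fun n => hd1 _ _ _
  refine ⟨q, hq 0, fun x y => ?_⟩
  obtain ⟨n, hn⟩ := he (x, y)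
  have h1 := hd2 (f n) (e n).1 (e n).2
  have h2 : q ≤ d (f n) (e n).1 (e n).2 := hq (n + 1)
  rw [hn] at h1 h2
  rcases h1 with h1 | h1
  · exact Or.inl (h1.mono h2)
  · exact Or.inr (h1.mono h2)

/-! ### The rules -/

/-- The partition given by a condition. -/
def GQ (τ : PName Cd) (p : Cd) (Q : Setoid J) : Prop := ∀ x y, Q x y ↔ Frc τ p x y

open Classical in
/-- The code of the decided partition. -/
noncomputable def Fq (τ : PName Cd) (p : Cd) : PName Cd :=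
  if h : ∃ Q, GQ τ p Q then check (cd h.choose) else emp

open Classical in
/-- The code of a partition. -/
noncomputable def Fc' (τ : PName Cd) (_ : Cd) : PName Cd :=
  if h : ∃ Q, τ = NQ Q then check (cd h.choose) else emp

/-- The rules. -/
noncomputable def RR : Set (Rule Cd) :=
  {r1 fun (Q : Setoid J) _ => NQ Q, r2 fun (Q : Setoid J) (x : J) _ => Nb (cls Q x),
    r1 fun (Q : Setoid J) _ => check (cd (PP Q)), r0 fun τ _ => Sys.nm Cd {q | Dec τ q},
    r0 Fq, r0 Fc'}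

/-- The package is good. -/
structure Gd (π : Pkg Cd) : Prop where
  base : base ⊆ π.N
  cl : ClR RR π

theorem exists_gd (A : Set (PName Cd)) (hA : A.Countable) (p : Cd) :
    ∃ π : Pkg Cd, Gd π ∧ A ⊆ π.N ∧ π.g 0 = p ∧ (∀ k, π.g k ≤ p) ∧ sy.Cld π := by
  obtain ⟨π, h1, h2, h3⟩ := exists_pkg (sy.rules ∪ RR)
    (by unfold Sys.rules RR; exact (Set.toFinite _).countable) (A ∪ PB.base)
    (hA.union ctb_base) p
  exact ⟨π, ⟨fun x hx => h1 (Or.inr hx), fun ρ hρ => h3 ρ (Or.inr hρ)⟩,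
    fun x hx => h1 (Or.inl hx), h2, fun k => h2 ▸ π.g_anti (Nat.zero_le k),
    fun ρ hρ => h3 ρ (Or.inl hρ)⟩

section good

variable {π : Pkg Cd} (hg : Gd π)

include hg

theorem n_aJ (x : J) : aJ x ∈ π.N := hg.base (by simp [PB.base])

theorem n_X (x : ℕ × ℕ) : X x (fun _ => false) ∈ π.N := hg.base (by simp [PB.base])

theorem n_tg : check tg ∈ π.N := hg.base (by simp [PB.base])

theorem n_tz : check tz ∈ π.N := hg.base (by simp [PB.base])

theorem n_NA : NA ∈ π.N := hg.base (by simp [PB.base])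

theorem n_NPf : NPf ∈ π.N := hg.base (by simp [PB.base])

theorem n_NBl : NBl ∈ π.N := hg.base (by simp [PB.base])

theorem n_NPh : NPh ∈ π.N := hg.base (by simp [PB.base])

theorem hul_J (x : J) : Hul π x := hg.base (Or.inl (Or.inr ⟨x, rfl⟩))

theorem hul_P0 (n m : ℕ) : Hul π (P0 n m) := hg.base (Or.inr ⟨(n, m), rfl⟩)

theorem n_NQ {Q : Setoid J} (h : Hul π Q) : NQ Q ∈ π.N :=
  r1_mem hg.cl (F := fun (Q : Setoid J) _ => NQ Q) (by simp [RR]) h 0

theorem n_Nb {Q : Setoid J} (h : Hul π Q) (x : J) : Nb (cls Q x) ∈ π.N :=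
  r2_mem hg.cl (F := fun (Q : Setoid J) (x : J) _ => Nb (cls Q x)) (by simp [RR]) h
    (hul_J hg x) 0

theorem hul_PP {Q : Setoid J} (h : Hul π Q) : Hul π (PP Q) :=
  r1_mem hg.cl (F := fun (Q : Setoid J) _ => check (cd (PP Q))) (by simp [RR]) h 0

/-- The elements of `A` are different. -/
theorem aJ_inj {x y : J} (h : π.val (aJ x) = π.val (aJ y)) : x = y := by
  have key : ∀ (j : ℕ) (y : ℕ × ℕ), π.val (aJ (Sum.inl j)) ≠ π.val (aJ (Sum.inr y)) := by
    intro j y h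
    have h1 : π.val (aJ (Sum.inl j)) = π.hat (nat j) := rfl
    have h2 : π.hat tg ∈ π.val (aJ (Sum.inr y)) := mem_tn.2 ⟨none, n_tg hg, rfl⟩
    rw [← h, h1, π.hat_mem_hat (n_tg hg) (π.nat_Z j)] at h2
    exact tg_not_nat j h2
  rcases x with j | x <;> rcases y with j' | y
  · have h1 : π.hat (nat j) = π.hat (nat j') := h
    rw [π.hat_nat, π.hat_nat] at h1
    rw [nat_injective h1]
  · exact absurd h (key j y)
  · exact absurd h.symm (key j' x)
  · by_contra hne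
    have hne' : x ≠ y := fun e => hne (by rw [e])
    have h1 : π.val (X x fun _ => false) ∈ π.val (aJ (Sum.inr x)) :=
      mem_tn.2 ⟨some fun _ => false, n_X hg x, rfl⟩
    rw [h] at h1
    obtain ⟨o, ho, h2⟩ := mem_tn.1 h1
    rcases o with _ | s
    · have h3 : π.hat tz ∈ π.hat tg := (π.hat_mem_hat (n_tz hg) (n_tg hg)).2
        (ZFSet.mem_singleton.2 rfl)
      have h4 : π.hat tg = π.val (X x fun _ => false) := h2
      rw [h4] at h3
      obtain ⟨α, h5, -, h6⟩ := (mem_rn (C := fun (α : Om) (p : Cd) =>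
        (x, α, !false) ∈ p.F) (fun _ _ _ h7 h8 => le_def.1 h7 h8)).1 h3
      have h7 := (π.hat_inj h5 (n_tz hg)).1 h6
      exact tz_not_ord (h7 ▸ cd_ord α)
    · obtain ⟨k, hk⟩ := (π.val_eq_iff ho (n_X hg x)).1 h2
      obtain ⟨α, hα⟩ : ∃ α : Om, ∀ z b, (z, α, b) ∉ (π.g k).F := by
        by_contra hc
        push Not at hc
        have h3 : (Set.univ : Set Om) ⊆ (fun f : Fc => f.2.1) '' (π.g k).F := by
          intro α _
          obtain ⟨z, b, hzb⟩ := hc α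
          exact ⟨_, hzb, rfl⟩
        have h4 := ((π.g k).ctb.image (fun f : Fc => f.2.1)).mono h3
        exact unc h4
      let q : Cd := ⟨(π.g k).F ∪ {(x, α, true), (y, α, s α)},
        (π.g k).ctb.union (Set.toFinite _).countable, by
          intro z β h3 h4
          have h5 : ∀ b, (z, β, b) ∈ ({(x, α, true), (y, α, s α)} : Set Fc) → β = α := by
            intro b hb
            rcases hb with hb | hb
            · exact congrArg (fun f : Fc => f.2.1) hb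
            · exact congrArg (fun f : Fc => f.2.1) hb
          rcases h3 with h3 | h3 <;> rcases h4 with h4 | h4
          · exact (π.g k).fn _ _ h3 h4
          · exact hα _ _ (h5 _ h4 ▸ h3)
          · exact hα _ _ (h5 _ h3 ▸ h4)
          · simp only [Set.mem_insert_iff, Set.mem_singleton_iff, Prod.mk.injEq] at h3 h4
            rcases h3 with ⟨h6, -, -⟩ | ⟨h6, -, h7⟩
            · rcases h4 with ⟨-, -, h8⟩ | ⟨h8, -, -⟩
              · cases h8
              · exact hne' (h6.symm.trans h8)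
            · rcases h4 with ⟨h8, -, -⟩ | ⟨-, -, h8⟩
              · exact hne' (h8.symm.trans h6)
              · rw [← h7] at h8
                cases h8⟩
      have hq : q ≤ π.g k := Set.subset_union_left
      obtain ⟨π', hA, h0, hk'⟩ := pkg {X y s, X x fun _ => false, check (cd α)}
        (Set.toFinite _).countable q
      have n1 : X y s ∈ π'.N := hA (by simp)
      have n2 : X x (fun _ => false) ∈ π'.N := hA (by simp)
      have n3 : check (cd α) ∈ π'.N := hA (by simp)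
      have e1 : π'.val (X y s) = π'.val (X x fun _ => false) :=
        eq_of_feq n1 n2 (m := 0) (h0.le.trans hq) hk
      have e2 : π'.hat (cd α) ∈ π'.val (X x fun _ => false) := by
        refine (mem_rn (C := fun (α : Om) (p : Cd) => (x, α, !false) ∈ p.F)
          (fun _ _ _ h7 h8 => le_def.1 h7 h8)).2 ⟨α, n3, ⟨0, ?_⟩, rfl⟩
        rw [h0]
        exact Or.inr (Or.inl rfl)
      rw [← e1] at e2
      obtain ⟨β, h5, ⟨m, h6⟩, h7⟩ := (mem_rn (C := fun (α : Om) (p : Cd) =>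
        (y, α, !s α) ∈ p.F) (fun _ _ _ h7 h8 => le_def.1 h7 h8)).1 e2
      have h8 : β = α := cd_injective ((π'.hat_inj h5 n3).1 h7)
      subst h8
      have h9 : (y, β, s β) ∈ (π'.g m).F := by
        refine hk' m ?_
        exact Or.inr (Or.inr rfl)
      cases hs : s β
      · rw [hs] at h6 h9
        exact (π'.g m).fn _ _ h6 h9
      · rw [hs] at h6 h9
        exact (π'.g m).fn _ _ h9 h6

theorem mem_NA {z : ZFSet.{0}} : z ∈ π.val NA ↔ ∃ x, π.val (aJ x) = z := by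
  unfold NA
  rw [mem_tn]
  exact exists_congr fun x => ⟨fun h => h.2, fun h => ⟨n_aJ hg x, h⟩⟩

theorem mem_Nb {D : Set J} {z : ZFSet.{0}} : z ∈ π.val (Nb D) ↔ ∃ x ∈ D, π.val (aJ x) = z := by
  unfold Nb
  rw [mem_tn]
  exact ⟨fun ⟨x, _, h⟩ => ⟨x.1, x.2, h⟩, fun ⟨x, hx, h⟩ => ⟨⟨x, hx⟩, n_aJ hg x, h⟩⟩

theorem aJ_mem_Nb {D : Set J} {x : J} : π.val (aJ x) ∈ π.val (Nb D) ↔ x ∈ D := by
  rw [mem_Nb hg]
  constructor
  · rintro ⟨y, hy, h⟩
    rwa [← aJ_inj hg h]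
  · exact fun h => ⟨x, h, rfl⟩

theorem mem_NQ {Q : Setoid J} (hQ : Hul π Q) {z : ZFSet.{0}} :
    z ∈ π.val (NQ Q) ↔ ∃ x, π.val (Nb (cls Q x)) = z := by
  unfold NQ
  rw [mem_tn]
  exact exists_congr fun x => ⟨fun h => h.2, fun h => ⟨n_Nb hg hQ x, h⟩⟩

theorem Nb_eq {Q : Setoid J} {x y : J} :
    π.val (Nb (cls Q x)) = π.val (Nb (cls Q y)) ↔ Q x y := by
  constructor
  · intro h
    have h1 : π.val (aJ y) ∈ π.val (Nb (cls Q y)) := (aJ_mem_Nb hg).2 (Q.refl' _)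
    rw [← h] at h1
    exact (aJ_mem_Nb hg).1 h1
  · intro h
    rw [cls_eq.2 h]

theorem R_NQ {Q : Setoid J} (hQ : Hul π Q) {x y : J} : R (NQ Q) x y π ↔ Q x y := by
  constructor
  · rintro ⟨b, hb, h1, h2⟩
    obtain ⟨z, rfl⟩ := (mem_NQ hg hQ).1 hb
    exact Q.trans' (Q.symm' ((aJ_mem_Nb hg).1 h1)) ((aJ_mem_Nb hg).1 h2)
  · intro h
    exact ⟨_, (mem_NQ hg hQ).2 ⟨x, rfl⟩, (aJ_mem_Nb hg).2 (Q.refl' _), (aJ_mem_Nb hg).2 h⟩

theorem NQ_inj {Q Q' : Setoid J} (hQ : Hul π Q) (hQ' : Hul π Q')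
    (h : π.val (NQ Q) = π.val (NQ Q')) : Q = Q' := by
  refine Setoid.ext fun x y => ?_
  rw [← R_NQ hg hQ, ← R_NQ hg hQ']
  unfold R
  rw [h]

theorem part_NQ {Q : Setoid J} (hQ : Hul π Q) : IsPart (π.val NA) (π.val (NQ Q)) := by
  refine ⟨fun b hb => ?_, fun b hb z hz => ?_, fun b hb c hc z h1 h2 => ?_, fun z hz => ?_⟩
  · obtain ⟨x, rfl⟩ := (mem_NQ hg hQ).1 hb
    intro h
    have h1 : π.val (aJ x) ∈ π.val (Nb (cls Q x)) := (aJ_mem_Nb hg).2 (Q.refl' _)
    rw [h] at h1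
    exact ZFSet.notMem_empty _ h1
  · obtain ⟨x, rfl⟩ := (mem_NQ hg hQ).1 hb
    obtain ⟨y, -, rfl⟩ := (mem_Nb hg).1 hz
    exact (mem_NA hg).2 ⟨y, rfl⟩
  · obtain ⟨x, rfl⟩ := (mem_NQ hg hQ).1 hb
    obtain ⟨y, rfl⟩ := (mem_NQ hg hQ).1 hc
    obtain ⟨w, h3, rfl⟩ := (mem_Nb hg).1 h1
    have h4 := (aJ_mem_Nb hg).1 h2
    exact (Nb_eq hg).2 (Q.trans' h3 (Q.symm' h4))
  · obtain ⟨x, rfl⟩ := (mem_NA hg).1 hz
    exact ⟨_, (mem_NQ hg hQ).2 ⟨x, rfl⟩, (aJ_mem_Nb hg).2 (Q.refl' _)⟩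

theorem part_eq {τ : PName Cd} (hτ : τ ∈ π.N) (h : IsPart (π.val NA) (π.val τ)) :
    ∃ Q, Hul π Q ∧ π.val τ = π.val (NQ Q) := by
  have h1 : Sys.nm Cd {q | Dec τ q} ∈ π.N :=
    r0_mem hg.cl (F := fun τ _ => Sys.nm Cd {q | Dec τ q}) (by simp [RR]) hτ 0
  obtain ⟨k, -, hk⟩ := gen_dense' π h1 (m := 0) (fun r hr q hq x y => (hr x y).imp
    (fun h => h.mono hq) fun h => h.mono hq) fun q _ => dec_dense τ q
  have hS : ∀ x y, sR τ x y ⊆ π.N := by
    rintro x y _ (rfl | rfl | rfl)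
    · exact hτ
    · exact n_aJ hg x
    · exact n_aJ hg y
  have h2 : ∀ x y, Frc τ (π.g k) x y ↔ R τ x y π := by
    intro x y
    constructor
    · exact fun h => h π (hS x y) ⟨k, le_rfl⟩
    · intro h3
      rcases hk x y with h4 | h4
      · exact h4
      · exact absurd h3 (h4 π (hS x y) ⟨k, le_rfl⟩)
  let Q₀ : Setoid J := ⟨fun x y => R τ x y π, by
    refine ⟨fun x => ?_, ?_, ?_⟩
    · obtain ⟨b, hb, h3⟩ := h.cover _ ((mem_NA hg).2 ⟨x, rfl⟩)
      exact ⟨b, hb, h3, h3⟩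
    · rintro x y ⟨b, hb, h3, h4⟩
      exact ⟨b, hb, h4, h3⟩
    · rintro x y z ⟨b, hb, h3, h4⟩ ⟨c, hc, h5, h6⟩
      obtain rfl := h.disj b hb c hc _ h4 h5
      exact ⟨b, hb, h3, h6⟩⟩
  have h3 : ∃ Q, GQ τ (π.g k) Q := ⟨Q₀, fun x y => (h2 x y).symm⟩
  have h4 : Fq τ (π.g k) ∈ π.N := r0_mem hg.cl (F := Fq) (by simp [RR]) hτ k
  unfold Fq at h4
  rw [dif_pos h3] at h4
  have h5 := h3.choose_spec
  generalize h3.choose = Q at h4 h5
  have hQ : Hul π Q := h4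
  have h6 : ∀ x y, Q x y ↔ R τ x y π := fun x y => (h5 x y).trans (h2 x y)
  have key : ∀ b ∈ π.val τ, ∀ x, π.val (aJ x) ∈ b → b = π.val (Nb (cls Q x)) := by
    intro b hb x hx
    ext z
    rw [mem_Nb hg]
    constructor
    · intro hz
      obtain ⟨y, rfl⟩ := (mem_NA hg).1 (h.sub b hb hz)
      exact ⟨y, (h6 x y).2 ⟨b, hb, hx, hz⟩, rfl⟩
    · rintro ⟨y, hy, rfl⟩
      obtain ⟨c, hc, h7, h8⟩ := (h6 x y).1 hy
      obtain rfl := h.disj b hb c hc _ hx h7
      exact h8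
  refine ⟨Q, hQ, ?_⟩
  ext b
  rw [mem_NQ hg hQ]
  constructor
  · intro hb
    have h7 : ∃ z, z ∈ b := by
      by_contra hc
      push Not at hc
      exact h.ne b hb ((ZFSet.eq_empty b).2 hc)
    obtain ⟨z, hz⟩ := h7
    obtain ⟨x, rfl⟩ := (mem_NA hg).1 (h.sub b hb hz)
    exact ⟨x, (key b hb x hz).symm⟩
  · rintro ⟨x, rfl⟩
    obtain ⟨b, hb, hx⟩ := h.cover _ ((mem_NA hg).2 ⟨x, rfl⟩)
    rwa [← key b hb x hx]

end good

/-- The names of partitions are different. -/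
theorem NQ_name_inj {Q Q' : Setoid J} (h : NQ Q = NQ Q') : Q = Q' := by
  obtain ⟨π, hg, hA, -, -, -⟩ := exists_gd {check (cd Q), check (cd Q')}
    (Set.toFinite _).countable ⊤
  exact NQ_inj hg (hA (by simp)) (hA (by simp)) (by rw [h])

theorem hul_NQ {π : Pkg Cd} (hg : Gd π) {Q : Setoid J} (h : NQ Q ∈ π.N) : Hul π Q := by
  have h1 : Fc' (NQ Q) (π.g 0) ∈ π.N := r0_mem hg.cl (F := Fc') (by simp [RR]) h 0
  have h2 : ∃ Q', NQ Q = NQ Q' := ⟨Q, rfl⟩
  unfold Fc' at h1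
  rw [dif_pos h2] at h1
  have h3 := NQ_name_inj h2.choose_spec
  rw [← h3] at h1
  exact h1

/-- Equal partitions. -/
theorem eq_of_feq_NQ {Q Q' : Setoid J} {p : Cd} (h : Feq (NQ Q) (NQ Q') p) : Q = Q' := by
  obtain ⟨π, hg, hA, h0, -, -⟩ := exists_gd {check (cd Q), check (cd Q')}
    (Set.toFinite _).countable p
  have h1 : Hul π Q := hA (by simp)
  have h2 : Hul π Q' := hA (by simp)
  exact NQ_inj hg h1 h2 (eq_of_feq (n_NQ hg h1) (n_NQ hg h2) (m := 0) h0.le h)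

/-- Symmetric partitions are supported. -/
theorem inv_of_sym {π : Pkg Cd} (hg : Gd π) {τ : PName Cd} (hτ : τ ∈ π.N) (hs : sy.Sym τ)
    {Q : Setoid J} (hQ : Hul π Q) (h : π.val τ = π.val (NQ Q)) : ∃ E F, Inv E F Q := by
  obtain ⟨k, hk⟩ := (π.val_eq_iff hτ (n_NQ hg hQ)).1 h
  obtain ⟨_, ⟨E, F, rfl⟩, hH⟩ := hs
  refine ⟨E, F, fun g hgg => ?_⟩
  obtain ⟨h', h1, h2, r, h3, h4⟩ := homog hgg (π.g k)
  rw [← mS_congr h2]
  have h5 := feq_act' (e := sy.ac h') hk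
  have h6 : Feq τ (NQ (mS h' Q)) (sm h' (π.g k)) :=
    feq_trans (hH h' h1 _).symm (feq_trans h5 (act_NQ h' Q _))
  exact (eq_of_feq_NQ (feq_trans (hk.symm.mono h3) (h6.mono h4))).symm

end Pool.Agent.R596.PB
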