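import Pool.Agent.R596.SyTool

/-!
# Labelled trees: conditions and automorphisms
-/

set_option autoImplicit false
set_option linter.all false

namespace Pool.Agent.R596.SQ

open Pool.Agent.W868 Pool.Agent.W868.PName Pool.Agent.R596.SY
open ZFSet (pair)

/-- The letters. -/
abbrev I : Type := ℝ

/-- The nodes of the tree; the children of `s` are the lists `i :: s`. -/
abbrev T : Type := List I

/-- The nodes with letters in `U`. -/
def LU (U : Set I) : Set T := {s | ∀ i ∈ s, i ∈ U}

theorem LU_mono {U V : Set I} (h : U ⊆ V) : LU U ⊆ LU V := fun s hs i hi => h (hs i hi)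

theorem nil_LU (U : Set I) : ([] : T) ∈ LU U := fun i hi => by simp at hi

theorem cons_LU {U : Set I} {i : I} {s : T} : i :: s ∈ LU U ↔ i ∈ U ∧ s ∈ LU U := by
  simp [LU]

theorem tail_LU {U : Set I} {s : T} (h : s ∈ LU U) : s.tail ∈ LU U :=
  fun i hi => h i (List.mem_of_mem_tail hi)

theorem LU_countable {U : Set I} (h : U.Countable) : (LU U).Countable := by
  haveI := h.to_subtype
  have h1 : LU U ⊆ Set.range (fun l : List U => l.map Subtype.val) := by
    intro s hs
    induction s with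
    | nil => exact ⟨[], rfl⟩
    | cons i s ih =>
      obtain ⟨hi, hs'⟩ := cons_LU.1 hs
      obtain ⟨l, hl⟩ := ih hs'
      exact ⟨⟨i, hi⟩ :: l, by simpa using hl⟩
  exact (Set.countable_range _).mono h1

/-- The conditions: nonempty sets of possible labels, almost all cofinite and all but countably
many trivial. -/
structure Cd where
  /-- the possible labels -/
  A : T → Set ℕ
  ne : ∀ s, (A s).Nonempty
  fin : {s | (A s)ᶜ.Infinite}.Finite
  ctb : {s | A s ≠ Set.univ}.Countable

namespace Cd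

theorem ext' {p q : Cd} (h : ∀ s, p.A s = q.A s) : p = q := by
  cases p
  cases q
  congr
  exact funext h

instance : Preorder Cd where
  le p q := ∀ s, p.A s ⊆ q.A s
  le_refl p s := subset_rfl
  le_trans p q r h h' s := (h s).trans (h' s)

instance : OrderTop Cd where
  top := ⟨fun _ => Set.univ, fun _ => Set.univ_nonempty, by simp, by simp⟩
  le_top p s := Set.subset_univ _

theorem le_def {p q : Cd} : p ≤ q ↔ ∀ s, p.A s ⊆ q.A s := Iff.rfl

/-- The nodes with a bounded choice. -/
def Dec (p : Cd) : Set T := {s | (p.A s)ᶜ.Infinite}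

theorem Dec_fin (p : Cd) : p.Dec.Finite := p.fin

theorem cof {p : Cd} {s : T} (h : s ∉ p.Dec) : (p.A s)ᶜ.Finite := Set.not_infinite.1 h

/-- The letters of a condition. -/
def lt (p : Cd) : Set I := {i | ∃ s, p.A s ≠ Set.univ ∧ i ∈ s}

theorem lt_countable (p : Cd) : p.lt.Countable := by
  have h : p.lt ⊆ ⋃ s ∈ {s | p.A s ≠ Set.univ}, {i | i ∈ s} := by
    rintro i ⟨s, h1, h2⟩
    exact Set.mem_biUnion h1 h2
  refine (p.ctb.biUnion fun s _ => ?_).mono h
  exact (List.finite_toSet s).countable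

theorem univ_of_not {p : Cd} {s : T} {W : Set I} (hW : p.lt ⊆ W) (h : s ∉ LU W) :
    p.A s = Set.univ := by
  by_contra hc
  exact h fun i hi => hW ⟨s, hc, hi⟩

theorem meets {A B : Set ℕ} (hA : Aᶜ.Finite) (hB : Bᶜ.Finite) : (A ∩ B).Nonempty := by
  by_contra hc
  rw [Set.not_nonempty_iff_eq_empty] at hc
  have h : (Aᶜ ∪ Bᶜ).Finite := hA.union hB
  rw [← Set.compl_inter, hc, Set.compl_empty] at h
  exact Set.infinite_univ h

theorem cof_inter {A B : Set ℕ} (hA : Aᶜ.Finite) (hB : Bᶜ.Finite) : (A ∩ B)ᶜ.Finite := by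
  rw [Set.compl_inter]
  exact hA.union hB

/-- The meet of two conditions. -/
def mt (p q : Cd) (h : ∀ s, (p.A s ∩ q.A s).Nonempty) : Cd where
  A s := p.A s ∩ q.A s
  ne := h
  fin := (p.Dec_fin.union q.Dec_fin).subset (by
    intro s hs
    by_contra hc
    rw [Set.mem_union, not_or] at hc
    exact hs (cof_inter (cof hc.1) (cof hc.2)))
  ctb := (p.ctb.union q.ctb).mono (by
    intro s hs
    by_contra hc
    rw [Set.mem_union, not_or] at hc
    apply hs
    have h1 : p.A s = Set.univ := not_not.1 hc.1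
    have h2 : q.A s = Set.univ := not_not.1 hc.2
    rw [h1, h2, Set.inter_univ])

theorem mt_left {p q : Cd} (h : ∀ s, (p.A s ∩ q.A s).Nonempty) : mt p q h ≤ p :=
  fun s => Set.inter_subset_left

theorem mt_right {p q : Cd} (h : ∀ s, (p.A s ∩ q.A s).Nonempty) : mt p q h ≤ q :=
  fun s => Set.inter_subset_right

open Classical in
/-- The restriction. -/
noncomputable def res (p : Cd) (S : Set T) : Cd where
  A s := if s ∈ S then p.A s else Set.univ
  ne s := by
    split_ifs
    · exact p.ne s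
    · exact Set.univ_nonempty
  fin := p.Dec_fin.subset (by
    intro s hs
    by_contra hc
    apply hs
    split_ifs
    · exact cof hc
    · simp)
  ctb := p.ctb.mono (by
    intro s hs
    by_contra hc
    apply hs
    have h1 : p.A s = Set.univ := not_not.1 hc
    split_ifs
    · exact h1
    · rfl)

theorem res_in {p : Cd} {S : Set T} {s : T} (h : s ∈ S) : (p.res S).A s = p.A s := by
  simp only [res, if_pos h]

theorem res_out {p : Cd} {S : Set T} {s : T} (h : s ∉ S) : (p.res S).A s = Set.univ := by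
  simp only [res, if_neg h]

theorem le_res (p : Cd) (S : Set T) : p ≤ p.res S := by
  intro s
  by_cases h : s ∈ S
  · rw [res_in h]
  · rw [res_out h]
    exact Set.subset_univ _

end Cd

/-- The group: the automorphisms of the tree. -/
def Gp : Subgroup (Equiv.Perm T) where
  carrier := {g | ∀ t, g t.tail = (g t).tail}
  one_mem' t := rfl
  mul_mem' {g h} hg hh t := by
    rw [Equiv.Perm.mul_apply, Equiv.Perm.mul_apply, hh, hg]
  inv_mem' {g} hg t := by
    have h : ∀ t : T, g (g⁻¹ t) = t := fun t => g.apply_symm_apply t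
    apply g.injective
    rw [h]
    change t.tail = g (g⁻¹ t).tail
    rw [hg, h]

/-- The action on the conditions. -/
def mc (g : Gp) (p : Cd) : Cd where
  A s := p.A ((g⁻¹).1 s)
  ne s := p.ne _
  fin := p.Dec_fin.preimage (((g⁻¹).1.injective).injOn)
  ctb := p.ctb.preimage_of_injOn (((g⁻¹).1.injective).injOn)

theorem mc_A (g : Gp) (p : Cd) (s : T) : (mc g p).A s = p.A ((g⁻¹).1 s) := rfl

theorem inv_g (g : Gp) (s : T) : (g⁻¹).1 (g.1 s) = s := by
  have h : (g⁻¹ * g).1 s = s := by
    rw [inv_mul_cancel]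
    rfl
  exact h

theorem g_inv (g : Gp) (s : T) : g.1 ((g⁻¹).1 s) = s := by
  have h : (g * g⁻¹).1 s = s := by
    rw [mul_inv_cancel]
    rfl
  exact h

theorem mc_mul (g h : Gp) (p : Cd) : mc (g * h) p = mc g (mc h p) := by
  apply Cd.ext'
  intro s
  rw [mc_A, mc_A, mc_A, mul_inv_rev]
  rfl

theorem mc_one (p : Cd) : mc 1 p = p := by
  apply Cd.ext'
  intro s
  rw [mc_A, inv_one]
  rfl

theorem mc_mono (g : Gp) {p q : Cd} (h : p ≤ q) : mc g p ≤ mc g q := fun s => h _

/-- The action on the conditions. -/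
def ac : Gp →* (Cd ≃o Cd) where
  toFun g :=
    { toFun := mc g
      invFun := mc g⁻¹
      left_inv := fun p => by rw [← mc_mul, inv_mul_cancel, mc_one]
      right_inv := fun p => by rw [← mc_mul, mul_inv_cancel, mc_one]
      map_rel_iff' := by
        intro p q
        constructor
        · intro h
          have h1 := mc_mono g⁻¹ h
          change mc g⁻¹ (mc g p) ≤ mc g⁻¹ (mc g q) at h1
          rwa [← mc_mul, ← mc_mul, inv_mul_cancel, mc_one, mc_one] at h1
        · exact mc_mono g }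
  map_one' := DFunLike.ext _ _ fun p => mc_one p
  map_mul' g h := DFunLike.ext _ _ fun p => mc_mul g h p

/-- The pointwise stabilizer. -/
def Fx (U : Set I) : Subgroup Gp where
  carrier := {g | ∀ s ∈ LU U, g.1 s = s}
  one_mem' s _ := rfl
  mul_mem' {g h} hg hh s hs := by
    change g.1 (h.1 s) = s
    rw [hh s hs, hg s hs]
  inv_mem' {g} hg s hs := by
    have h := inv_g g s
    rwa [hg s hs] at h

theorem Fx_mono {U V : Set I} (h : U ⊆ V) : Fx V ≤ Fx U := fun g hg s hs => hg s (LU_mono h hs)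

/-- The symmetric system. -/
def sy : Sys Cd where
  G := Gp
  grp := inferInstance
  ac := ac
  top g := by
    apply Cd.ext'
    intro s
    rfl
  F := {H | ∃ U : Set I, U.Countable ∧ H = Fx U}
  ne := ⟨Fx ∅, ∅, Set.countable_empty, rfl⟩
  conj := by
    rintro _ ⟨U, hU, rfl⟩ g
    refine ⟨Fx {i | ∃ s ∈ LU U, i ∈ g.1 s}, ⟨_, ?_, rfl⟩, ?_⟩
    · have h : {i | ∃ s ∈ LU U, i ∈ g.1 s} = ⋃ s ∈ LU U, {i | i ∈ g.1 s} := by
        ext i
        simp
      rw [h]
      exact (LU_countable hU).biUnion fun s _ => (List.finite_toSet _).countable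
    · intro k hk s hs
      change (g⁻¹).1 (k.1 (g.1 s)) = s
      rw [hk (g.1 s) fun i hi => ⟨s, hs, hi⟩, inv_g]
  dir := by
    rintro _ ⟨U, hU, rfl⟩ _ ⟨V, hV, rfl⟩
    exact ⟨Fx (U ∪ V), ⟨_, hU.union hV, rfl⟩, Fx_mono Set.subset_union_left,
      Fx_mono Set.subset_union_right⟩

theorem Fx_mem {U : Set I} (h : U.Countable) : Fx U ∈ sy.F := ⟨U, h, rfl⟩

/-! ### Copies -/

/-- Disjoint fresh copies of a countable set of letters. -/
theorem exists_swaps {W B : Set I} (hW : W.Countable) (hB : B.Countable) :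
    ∃ φ : ℕ → I → I, (∀ j, Function.Involutive (φ j)) ∧ (∀ j, ∀ i ∈ W, φ j i ∉ W ∧ φ j i ∉ B) ∧
      ∀ j j', j ≠ j' → ∀ i ∈ W, ∀ i' ∈ W, φ j i ≠ φ j' i' := by
  classical
  haveI := hW.to_subtype
  have h1 : ((W ∪ B)ᶜ).Infinite := by
    intro h2
    have h3 : (Set.univ : Set I).Countable := by
      rw [← Set.union_compl_self (W ∪ B)]
      exact (hW.union hB).union h2.countable
    exact Set.not_countable_univ h3
  obtain ⟨ψ, hψ⟩ := (Countable.exists_injective_nat (ℕ × W))
  have h3 := h1.natEmbedding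
  let θ : ℕ × W → I := fun x => (h3 (ψ x)).1
  have hθ : Function.Injective θ := by
    intro x y h
    exact hψ (h3.injective (Subtype.ext h))
  have hθ2 : ∀ x, θ x ∉ W ∧ θ x ∉ B := by
    intro x
    have h4 := (h3 (ψ x)).2
    rw [Set.mem_compl_iff, Set.mem_union, not_or] at h4
    exact h4
  let φ : ℕ → I → I := fun j i => if h : i ∈ W then θ (j, ⟨i, h⟩) else
    if h : ∃ w : W, θ (j, w) = i then h.choose.1 else i
  have e1 : ∀ j i (h : i ∈ W), φ j i = θ (j, ⟨i, h⟩) := by
    intro j i h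
    simp only [φ, dif_pos h]
  have e2 : ∀ j (w : W), φ j (θ (j, w)) = w.1 := by
    intro j w
    have h5 : ∃ w' : W, θ (j, w') = θ (j, w) := ⟨w, rfl⟩
    simp only [φ, dif_neg (hθ2 _).1, dif_pos h5]
    have h6 := (Prod.mk.inj (hθ h5.choose_spec)).2
    rw [h6]
  refine ⟨φ, fun j i => ?_, fun j i hi => ?_, fun j j' hj i hi i' hi' h => ?_⟩
  · by_cases h : i ∈ W
    · rw [e1 j i h, e2]
    · by_cases h5 : ∃ w : W, θ (j, w) = i
      · obtain ⟨w, rfl⟩ := h5
        rw [e2, e1 j w.1 w.2]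
      · have h6 : φ j i = i := by
          simp only [φ, dif_neg h, dif_neg h5]
        rw [h6, h6]
  · rw [e1 j i hi]
    exact hθ2 _
  · rw [e1 j i hi, e1 j' i' hi'] at h
    exact hj (Prod.mk.inj (hθ h)).1

open Classical in
/-- The automorphism that moves the letters where a node leaves `e`. -/
noncomputable def gf (e : Set T) (φ : I → I) : T → T
  | [] => []
  | i :: s => (if s ∈ e ∧ i :: s ∉ e ∧ φ i :: s ∉ e then φ i else i) :: gf e φ s

/-- The set of nodes is a tree. -/
structure IsTr (e : Set T) : Prop where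
  nil : ([] : T) ∈ e
  cons : ∀ i s, i :: s ∈ e → s ∈ e

section

variable {e : Set T} (he : IsTr e) {φ : I → I} (hφ : Function.Involutive φ)

include he

theorem gf_in {s : T} (h : s ∈ e) : gf e φ s = s := by
  induction s with
  | nil => rfl
  | cons i s ih =>
    rw [gf, ih (he.cons i s h), if_neg]
    rintro ⟨-, h2, -⟩
    exact h2 h

theorem gf_out {s : T} (h : s ∉ e) : gf e φ s ∉ e := by
  induction s with
  | nil => exact absurd he.nil h
  | cons i s ih =>
    rw [gf]
    by_cases hs : s ∈ e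
    · rw [gf_in he hs]
      split_ifs with hc
      · exact hc.2.2
      · exact h
    · exact fun h2 => ih hs (he.cons _ _ h2)

include hφ

theorem gf_invol (s : T) : gf e φ (gf e φ s) = s := by
  induction s with
  | nil => rfl
  | cons i s ih =>
    by_cases hs : s ∈ e
    · rw [gf, gf_in he hs]
      split_ifs with hc
      · rw [gf, gf_in he hs, hφ i, if_pos ⟨hs, hc.2.2, hc.2.1⟩]
      · rw [gf, gf_in he hs, if_neg hc]
    · rw [gf, if_neg fun h => hs h.1, gf, if_neg fun h => gf_out he hs h.1, ih]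

/-- The automorphism as an element of the group. -/
noncomputable def cg : Gp :=
  ⟨Function.Involutive.toPerm (gf e φ) (gf_invol he hφ), fun t => by
    cases t with
    | nil => rfl
    | cons i s => rfl⟩

theorem cg_app (s : T) : (cg he hφ).1 s = gf e φ s := rfl

end

/-- The letters of the image. -/
theorem gf_letters {e : Set T} {φ : I → I} {W : Set I} {s : T} (hs : s ∈ LU W) :
    ∀ x ∈ gf e φ s, x ∈ W ∨ ∃ i ∈ W, φ i = x := by
  induction s with
  | nil => intro x hx; simp [gf] at hx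
  | cons i s ih =>
    obtain ⟨h1, h2⟩ := cons_LU.1 hs
    intro x hx
    rw [gf, List.mem_cons] at hx
    rcases hx with rfl | hx
    · split_ifs
      · exact Or.inr ⟨i, h1, rfl⟩
      · exact Or.inl h1
    · exact ih h2 x hx

theorem gf_fresh {e : Set T} (he : IsTr e) {φ : I → I} {W : Set I} (hW : e ⊆ LU W)
    (hφ : ∀ i ∈ W, φ i ∉ W) {s : T} (hs : s ∈ LU W) (hse : s ∉ e) : ∃ i ∈ W, φ i ∈ gf e φ s := by
  induction s with
  | nil => exact absurd he.nil hse
  | cons i s ih =>
    obtain ⟨h1, h2⟩ := cons_LU.1 hs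
    by_cases h3 : s ∈ e
    · refine ⟨i, h1, ?_⟩
      rw [gf, if_pos ⟨h3, hse, fun h4 => hφ i h1 (cons_LU.1 (hW h4)).1⟩]
      exact List.mem_cons_self
    · obtain ⟨i', h4, h5⟩ := ih h2 h3
      exact ⟨i', h4, by rw [gf]; exact List.mem_cons_of_mem _ h5⟩

/-- A sequence of automorphisms that fix `e` and move the other nodes with letters in `W` to
disjoint sets. -/
structure Cp (e : Set T) (W : Set I) (f : ℕ → Gp) : Prop where
  fix : ∀ j, ∀ s ∈ e, (f j).1 s = s
  dis : ∀ j j', j ≠ j' → ∀ s ∈ LU W, s ∉ e → ∀ s' ∈ LU W, s' ∉ e → (f j).1 s ≠ (f j').1 s'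

theorem exists_cp {e : Set T} (he : IsTr e) {W B : Set I} (hW : W.Countable) (hB : B.Countable)
    (heW : e ⊆ LU W) : ∃ f : ℕ → Gp, Cp e W f ∧ ∀ j, ∀ s ∈ LU W, s ∉ e → (f j).1 s ∉ LU B := by
  obtain ⟨φ, h1, h2, h3⟩ := exists_swaps hW hB
  refine ⟨fun j => cg he (h1 j), ⟨fun j s hs => gf_in he hs, ?_⟩, ?_⟩
  · intro j j' hj s hs hse s' hs' hse' h
    rw [cg_app, cg_app] at h
    obtain ⟨i, hi, h4⟩ := gf_fresh he heW (fun i hi => (h2 j i hi).1) hs hse
    rw [h] at h4
    rcases gf_letters hs' _ h4 with h5 | ⟨i', hi', h5⟩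
    · exact (h2 j i hi).1 h5
    · exact h3 j j' hj i hi i' hi' h5.symm
  · intro j s hs hse h
    rw [cg_app] at h
    obtain ⟨i, hi, h4⟩ := gf_fresh he heW (fun i hi => (h2 j i hi).1) hs hse
    exact (h2 j i hi).2 (h _ h4)

theorem isTr_LU (U : Set I) : IsTr (LU U) := ⟨nil_LU U, fun i s h => (cons_LU.1 h).2⟩

/-- Homogeneity. -/
theorem homog {U : Set I} (hU : U.Countable) {p q : Cd}
    (h : ∀ s ∈ LU U, (p.A s ∩ q.A s).Nonempty) : ∃ g ∈ Fx U, ∃ r, r ≤ mc g p ∧ r ≤ q := by
  obtain ⟨f, h1, h2⟩ := exists_cp (isTr_LU U) (W := U ∪ p.lt) (B := q.lt)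
    (hU.union p.lt_countable) q.lt_countable (LU_mono Set.subset_union_left)
  have h3 : ∀ s, ((mc (f 0) p).A s ∩ q.A s).Nonempty := by
    intro s
    rw [mc_A]
    by_cases hs : s ∈ LU U
    · have h4 : ((f 0)⁻¹).1 s = s := by
        have h5 := inv_g (f 0) s
        rwa [h1.fix 0 s hs] at h5
      rw [h4]
      exact h s hs
    · by_cases h5 : ((f 0)⁻¹).1 s ∈ LU (U ∪ p.lt)
      · have h6 : ((f 0)⁻¹).1 s ∉ LU U := by
          intro h7
          have h8 := h1.fix 0 _ h7
          rw [g_inv] at h8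
          rw [← h8] at h7
          exact hs h7
        have h7 := h2 0 _ h5 h6
        rw [g_inv] at h7
        rw [Cd.univ_of_not (p := q) subset_rfl h7, Set.inter_univ]
        exact p.ne _
      · rw [Cd.univ_of_not Set.subset_union_right h5, Set.univ_inter]
        exact q.ne s
  exact ⟨f 0, h1.fix 0, Cd.mt _ _ h3, Cd.mt_left h3, Cd.mt_right h3⟩

end Pool.Agent.R596.SQ
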