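import Pool.Agent.W868.Defs

/-!
# Sequential sets of reals in transitive models: definitions
-/

set_option autoImplicit false

namespace Pool.Agent.R596Sq

open Pool.Agent.W868
open ZFSet (pair)

/-- The rational number `(a - b) / (c + 1)`. -/
noncomputable def qv (t : ℕ × ℕ × ℕ) : ℝ := ((t.1 : ℝ) - t.2.1) / (t.2.2 + 1)

/-- The triple `(a, b, c)` of natural numbers as a set. -/
noncomputable def cod (t : ℕ × ℕ × ℕ) : ZFSet.{0} := pair (nat t.1) (pair (nat t.2.1) (nat t.2.2))

/-- The real number `x` as a set: the set of all triples `(a, b, c)` of natural numbers with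
`(a - b) / (c + 1) < x`. -/
noncomputable def rl (x : ℝ) : ZFSet.{0} :=
  ZFSet.range fun t : {t : ℕ × ℕ × ℕ // qv t < x} => cod t.1

/-- The sequence `s` of real numbers converges to `x`. -/
def ConvTo (s : ZFSet.{0}) (x : ℝ) : Prop :=
  ∃ f : ℕ → ℝ, (∀ n, pair (nat n) (rl (f n)) ∈ s) ∧ Filter.Tendsto f Filter.atTop (nhds x)

/-- In `M`, the subspace of the real line given by the property `Q` is sequential. The real numbers
of `M` are the real numbers `x` such that `rl x` is an element of `M`. A set `A` in `M` of real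
numbers in `Q` is sequentially closed in `M` if it contains every real number of `M` in `Q` to which
some sequence in `M` of elements of `A` converges; the space is sequential if each such set `A`
contains every real number of `M` in `Q` that is in the closure of `A`. -/
def Sequential (M : Set ZFSet.{0}) (Q : Set ℝ) : Prop :=
  ∀ A ∈ M, (∀ z ∈ A, ∃ x ∈ Q, z = rl x) →
    (∀ s ∈ M, ZFSet.IsFunc ZFSet.omega A s → ∀ x ∈ Q, rl x ∈ M → ConvTo s x → rl x ∈ A) →
    ∀ x ∈ Q, rl x ∈ M → (∀ ε > 0, ∃ y, rl y ∈ A ∧ |y - x| < ε) → rl x ∈ A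

end Pool.Agent.R596Sq
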