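import Pool.Agent.R596.SqCond
import Pool.Agent.R596.SqDefs

/-!
# Labelled trees: copies of names of real numbers
-/

set_option autoImplicit false
set_option linter.all false

namespace Pool.Agent.R596.SQ

open Pool.Agent.W868 Pool.Agent.W868.PName Pool.Agent.R596.SY Pool.Agent.R596Sq
open ZFSet (pair)

/-- The triples of natural numbers. -/
abbrev Q : Type := ℕ × ℕ × ℕ

theorem act_ck (g : Gp) (x : ZFSet.{0}) : act (sy.ac g) (check x) = check x :=
  act_check (sy.top g) x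

/-- Forced: the rational number `a` is in the cut. -/
def Fq (z : PName Cd) (a : Q) (p : Cd) : Prop := Fmem (check (cod a)) z p

theorem Fq.mono {z : PName Cd} {a : Q} {p q : Cd} (h : Fq z a p) (hq : q ≤ p) : Fq z a q :=
  Fmem.mono h hq

theorem Fq.dense {z : PName Cd} {a : Q} {p : Cd} (h : ∀ q ≤ p, ∃ s ≤ q, Fq z a s) : Fq z a p :=
  fmem_dense h

theorem Fq.act {z : PName Cd} {a : Q} {p : Cd} (g : Gp) (h : Fq z a p) :
    Fq (act (sy.ac g) z) a (mc g p) := by
  have h1 := fmem_act' (e := sy.ac g) h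
  rwa [act_ck] at h1

theorem Fq.of_act {z : PName Cd} {a : Q} {p : Cd} (g : Gp) (h : Fq (SY.act (sy.ac g) z) a (mc g p)) :
    Fq z a p := by
  unfold Fq at h ⊢
  rw [← act_ck g] at h
  exact fmem_act.1 h

theorem Fq.fix {z : PName Cd} {a : Q} {p : Cd} {H : Subgroup Gp} (hz : sy.Fix H z) {g : Gp}
    (hg : g ∈ H) (h : Fq z a p) : Fq z a (mc g p) :=
  fmem_congr (Feq.refl _ _) (hz g hg _) (h.act g)

theorem Fq.res {U : Set I} (hU : U.Countable) {z : PName Cd} (hz : sy.Fix (Fx U) z) {a : Q}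
    {p : Cd} (h : Fq z a p) : Fq z a (p.res (LU U)) := by
  refine Fq.dense fun q hq => ?_
  obtain ⟨g, hg, r, h1, h2⟩ := homog hU (p := p) (q := q) fun s hs => by
    obtain ⟨k, hk⟩ := q.ne s
    have h3 := hq s hk
    rw [Cd.res_in hs] at h3
    exact ⟨k, h3, hk⟩
  exact ⟨r, h2, (h.fix hz hg).mono h1⟩

/-! ### Full conditions -/

/-- The bounded part is a tree and all labels are decided. -/
structure Full (p : Cd) : Prop where
  tr : ∀ i s, i :: s ∈ p.Dec → s ∈ p.Dec
  sg : ∀ s ∈ p.Dec, ∃ k, p.A s = {k}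

theorem exists_full (p : Cd) : ∃ q ≤ p, Full q := by
  classical
  let D : Set T := {s | ∃ t ∈ p.Dec, s <:+ t}
  have hD : D.Finite := by
    have h1 : D = ⋃ t ∈ p.Dec, {s | s ∈ t.tails} := by
      ext s
      simp [D]
    rw [h1]
    exact p.Dec_fin.biUnion fun t _ => List.finite_toSet _
  have hpD : p.Dec ⊆ D := fun s hs => ⟨s, hs, List.suffix_refl s⟩
  have hinf : ∀ k : ℕ, (({k} : Set ℕ)ᶜ).Infinite := fun k => (Set.finite_singleton k).infinite_compl
  let A : T → Set ℕ := fun s => if s ∈ D then {(p.ne s).some} else p.A s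
  have e1 : ∀ s ∈ D, A s = {(p.ne s).some} := fun s hs => if_pos hs
  have e2 : ∀ s ∉ D, A s = p.A s := fun s hs => if_neg hs
  have hsub : ∀ s, A s ⊆ p.A s := by
    intro s
    by_cases hs : s ∈ D
    · rw [e1 s hs]
      exact Set.singleton_subset_iff.2 (p.ne s).some_mem
    · rw [e2 s hs]
  have hdec : ∀ s, (A s)ᶜ.Infinite ↔ s ∈ D := by
    intro s
    by_cases hs : s ∈ D
    · rw [e1 s hs]
      exact ⟨fun _ => hs, fun _ => hinf _⟩
    · rw [e2 s hs]
      exact ⟨fun h => hpD h, fun h => absurd h hs⟩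
  have hfin : {s | (A s)ᶜ.Infinite}.Finite := by
    refine hD.subset fun s hs => (hdec s).1 hs
  refine ⟨⟨A, fun s => ?_, hfin, ?_⟩, hsub, ?_, ?_⟩
  · by_cases hs : s ∈ D
    · rw [e1 s hs]
      exact Set.singleton_nonempty _
    · rw [e2 s hs]
      exact p.ne s
  · refine (p.ctb.union hD.countable).mono fun s hs => ?_
    by_cases h : s ∈ D
    · exact Or.inr h
    · left
      change A s ≠ _ at hs
      rw [e2 s h] at hs
      exact hs
  · intro i s h
    obtain ⟨t, ht, h1⟩ := (hdec _).1 h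
    exact (hdec s).2 ⟨t, ht, (List.suffix_cons i s).trans h1⟩
  · intro s h
    exact ⟨_, e1 s ((hdec _).1 h)⟩

/-- The tree of the nodes that are fixed. -/
def ee (U : Set I) (p : Cd) : Set T := LU U ∪ p.Dec

theorem isTr_ee (U : Set I) {p : Cd} (hp : Full p) : IsTr (ee U p) := by
  refine ⟨Or.inl (nil_LU U), fun i s h => ?_⟩
  rcases h with h | h
  · exact Or.inl (cons_LU.1 h).2
  · exact Or.inr (hp.tr i s h)

theorem Dec_ne {p : Cd} {s : T} (h : s ∈ p.Dec) : p.A s ≠ Set.univ := by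
  intro h1
  have h2 : (p.A s)ᶜ.Infinite := h
  rw [h1, Set.compl_univ] at h2
  exact h2 Set.finite_empty

theorem Dec_LU (p : Cd) : p.Dec ⊆ LU p.lt := fun s hs i hi => ⟨s, Dec_ne hs, hi⟩

theorem ee_LU {U W : Set I} {p : Cd} (hU : U ⊆ W) (hp : p.lt ⊆ W) : ee U p ⊆ LU W :=
  Set.union_subset (LU_mono hU) ((Dec_LU p).trans (LU_mono hp))

/-! ### Spreading promises over the copies -/

theorem exists_avoid {e : Set T} {W : Set I} {f : ℕ → Gp} (hf : Cp e W f) {D : Set T}
    (hD : D.Finite) : ∃ J, ∀ j ≥ J, ∀ s ∈ LU W, s ∉ e → (f j).1 s ∉ D := by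
  have h1 : {j | ∃ t ∈ D, ∃ s ∈ LU W, s ∉ e ∧ (f j).1 s = t}.Finite := by
    have h2 : {j | ∃ t ∈ D, ∃ s ∈ LU W, s ∉ e ∧ (f j).1 s = t} =
        ⋃ t ∈ D, {j | ∃ s ∈ LU W, s ∉ e ∧ (f j).1 s = t} := by
      ext j
      simp
    rw [h2]
    refine hD.biUnion fun t _ => Set.Subsingleton.finite ?_
    rintro j ⟨s, h3, h4, h5⟩ j' ⟨s', h6, h7, h8⟩
    by_contra hne
    exact hf.dis j j' hne s h3 h4 s' h6 h7 (h5.trans h8.symm)
  obtain ⟨J, hJ⟩ := h1.bddAbove
  refine ⟨J + 1, fun j hj s hs hse hD' => ?_⟩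
  have := hJ ⟨_, hD', s, hs, hse, rfl⟩
  omega

theorem inv_eq {g : Gp} {s t : T} : (g⁻¹).1 t = s ↔ g.1 s = t := by
  constructor
  · rintro rfl
    exact g_inv g t
  · rintro rfl
    exact inv_g g s

theorem exists_spread {e : Set T} {W : Set I} {f : ℕ → Gp} (hf : Cp e W f) (hW : W.Countable)
    {G : T → Set ℕ} (h1 : ∀ s, (s ∈ LU W ∧ s ∉ e) ∨ G s = Set.univ) (h2 : ∀ s, (G s)ᶜ.Finite)
    {q : Cd} {J : ℕ} (hq : ∀ j ≥ J, ∀ s ∈ LU W, s ∉ e → (f j).1 s ∉ q.Dec) :
    ∃ q' ≤ q, ∀ j ≥ J, ∀ s, q'.A ((f j).1 s) ⊆ G s := by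
  have key : ∀ t, (q.A t ∩ {k | ∀ j ≥ J, k ∈ G (((f j)⁻¹).1 t)} = q.A t) ∨
      (t ∉ q.Dec ∧ ∃ s, q.A t ∩ {k | ∀ j ≥ J, k ∈ G (((f j)⁻¹).1 t)} = q.A t ∩ G s) := by
    intro t
    by_cases h3 : ∃ j ≥ J, ∃ s ∈ LU W, s ∉ e ∧ (f j).1 s = t
    · obtain ⟨j, hj, s, hs, hse, rfl⟩ := h3
      refine Or.inr ⟨hq j hj s hs hse, s, ?_⟩
      ext k
      refine and_congr_right fun _ => ⟨fun h4 => ?_, fun h4 j' hj' => ?_⟩
      · have := h4 j hj
        rwa [inv_g] at this
      · by_cases hjj : j' = j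
        · subst hjj
          rwa [inv_g]
        · rcases h1 (((f j')⁻¹).1 ((f j).1 s)) with ⟨h5, h6⟩ | h5
          · exfalso
            exact hf.dis j' j hjj _ h5 h6 s hs hse (g_inv _ _)
          · rw [h5]
            trivial
    · left
      ext k
      refine ⟨fun h => h.1, fun h => ⟨h, fun j hj => ?_⟩⟩
      rcases h1 (((f j)⁻¹).1 t) with ⟨h5, h6⟩ | h5
      · exact absurd ⟨j, hj, _, h5, h6, g_inv _ _⟩ h3
      · rw [h5]
        trivial
  refine ⟨⟨fun t => q.A t ∩ {k | ∀ j ≥ J, k ∈ G (((f j)⁻¹).1 t)}, fun t => ?_, ?_, ?_⟩,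
    fun t => Set.inter_subset_left, fun j hj s k hk => ?_⟩
  · rcases key t with h | ⟨h, s, h'⟩
    · rw [h]
      exact q.ne t
    · rw [h']
      exact Cd.meets (Cd.cof h) (h2 s)
  · refine q.Dec_fin.subset fun t ht => ?_
    rcases key t with h | ⟨h, s, h'⟩
    · change (q.A t ∩ {k | ∀ j ≥ J, k ∈ G (((f j)⁻¹).1 t)})ᶜ.Infinite at ht
      rw [h] at ht
      exact ht
    · change (q.A t ∩ {k | ∀ j ≥ J, k ∈ G (((f j)⁻¹).1 t)})ᶜ.Infinite at ht
      rw [h'] at ht
      exact absurd (Cd.cof_inter (Cd.cof h) (h2 s)) ht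
  · have h3 : {t | q.A t ∩ {k | ∀ j ≥ J, k ∈ G (((f j)⁻¹).1 t)} ≠ Set.univ} ⊆
        {t | q.A t ≠ Set.univ} ∪ ⋃ j, (fun s => (f j).1 s) '' LU W := by
      intro t ht
      by_contra hc
      rw [Set.mem_union, not_or] at hc
      apply ht
      have h4 : q.A t = Set.univ := not_not.1 hc.1
      rw [h4, Set.univ_inter, Set.eq_univ_iff_forall]
      intro k j hj
      rcases h1 (((f j)⁻¹).1 t) with ⟨h5, h6⟩ | h5
      · exfalso
        apply hc.2
        rw [Set.mem_iUnion]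
        exact ⟨j, (((f j)⁻¹).1 t), h5, g_inv _ _⟩
      · rw [h5]
        trivial
    refine (q.ctb.union (Set.countable_iUnion fun j => ?_)).mono h3
    exact (LU_countable hW).image _
  · have := hk.2 j hj
    rwa [inv_g] at this

/-- The conditions below all copies of `p` are dense below `p`. -/
theorem dense_copies {U W : Set I} {p : Cd} (hp : Full p) (hW : W.Countable) (hU : U ⊆ W)
    (hl : p.lt ⊆ W) {q : Cd} (hq : q ≤ p) :
    ∃ r ≤ q, ∃ f : ℕ → Gp, Cp (ee U p) W f ∧ ∀ j, r ≤ mc (f j) p := by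
  classical
  obtain ⟨f, hf, hf2⟩ := exists_cp (isTr_ee U hp) hW q.lt_countable (ee_LU hU hl)
  obtain ⟨r, h1, h2⟩ := exists_spread hf hW
    (G := fun s => if s ∈ LU W ∧ s ∉ ee U p then p.A s else Set.univ) (q := q) (J := 0) (by
      intro s
      by_cases h : s ∈ LU W ∧ s ∉ ee U p
      · exact Or.inl h
      · exact Or.inr (if_neg h)) (by
      intro s
      split_ifs with h
      · exact Cd.cof fun h' => h.2 (Or.inr h')
      · simp) (by
      intro j _ s hs hse h
      exact hf2 j s hs hse (Dec_LU q h))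
  refine ⟨r, h1, f, hf, fun j t => ?_⟩
  rw [mc_A]
  by_cases h : ((f j)⁻¹).1 t ∈ LU W
  · by_cases h' : ((f j)⁻¹).1 t ∈ ee U p
    · have h3 := hf.fix j _ h'
      rw [g_inv] at h3
      rw [← h3]
      exact (h1 t).trans (hq t)
    · have h3 := h2 j (Nat.zero_le _) (((f j)⁻¹).1 t)
      rw [g_inv] at h3
      rwa [if_pos ⟨h, h'⟩] at h3
  · rw [Cd.univ_of_not hl h]
    exact Set.subset_univ _

open Classical in
/-- The condition given by `r` on the nodes of `U`, by `p` on its bounded part, and by `F`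
elsewhere. -/
noncomputable def mrg (U : Set I) (p r F : Cd) : Cd where
  A s := if s ∈ LU U then r.A s else if s ∈ p.Dec then p.A s else F.A s
  ne s := by
    split_ifs
    · exact r.ne s
    · exact p.ne s
    · exact F.ne s
  fin := (r.Dec_fin.union (p.Dec_fin.union F.Dec_fin)).subset (by
    intro s hs
    by_contra hc
    rw [Set.mem_union, Set.mem_union, not_or, not_or] at hc
    apply hs
    split_ifs
    · exact Cd.cof hc.1
    · exact Cd.cof hc.2.1
    · exact Cd.cof hc.2.2)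
  ctb := (r.ctb.union (p.ctb.union F.ctb)).mono (by
    intro s hs
    by_contra hc
    rw [Set.mem_union, Set.mem_union, not_or, not_or] at hc
    apply hs
    have h1 : r.A s = Set.univ := not_not.1 hc.1
    have h2 : p.A s = Set.univ := not_not.1 hc.2.1
    have h3 : F.A s = Set.univ := not_not.1 hc.2.2
    split_ifs
    · exact h1
    · exact h2
    · exact h3)

section

variable {U : Set I} {p r F : Cd} {s : T}

theorem mrg_1 (h : s ∈ LU U) : (mrg U p r F).A s = r.A s := by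
  simp only [mrg, if_pos h]

theorem mrg_2 (h : s ∉ LU U) (h' : s ∈ p.Dec) : (mrg U p r F).A s = p.A s := by
  simp only [mrg, if_neg h, if_pos h']

theorem mrg_3 (h : s ∉ ee U p) : (mrg U p r F).A s = F.A s := by
  rw [ee, Set.mem_union, not_or] at h
  simp only [mrg, if_neg h.1, if_neg h.2]

end

/-- The names of the lower limits of the copies. -/
def Ss (U : Set I) (p : Cd) (z : PName Cd) (a : Q) : Set Cd :=
  {r | ∃ a', qv a < qv a' ∧ ∃ F : Cd, (∀ s, (F.A s)ᶜ.Finite) ∧ Fq z a' (mrg U p r F)}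

theorem mrg_mono {U : Set I} {p r r' F : Cd} (h : r' ≤ r) : mrg U p r' F ≤ mrg U p r F := by
  intro s
  by_cases h1 : s ∈ LU U
  · rw [mrg_1 h1, mrg_1 h1]
    exact h s
  · by_cases h2 : s ∈ p.Dec
    · rw [mrg_2 h1 h2, mrg_2 h1 h2]
    · have h3 : s ∉ ee U p := fun h => h.elim h1 h2
      rw [mrg_3 h3, mrg_3 h3]

theorem Ss_mono {U : Set I} {p : Cd} {z : PName Cd} {a : Q} {r r' : Cd} (h : r ∈ Ss U p z a)
    (hr : r' ≤ r) : r' ∈ Ss U p z a := by
  obtain ⟨a', h1, F, h2, h3⟩ := h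
  exact ⟨a', h1, F, h2, h3.mono (mrg_mono hr)⟩

theorem Ss_anti {U : Set I} {p : Cd} {z : PName Cd} {a b : Q} {r : Cd} (h : r ∈ Ss U p z a)
    (hb : qv b ≤ qv a) : r ∈ Ss U p z b := by
  obtain ⟨a', h1, F, h2, h3⟩ := h
  exact ⟨a', hb.trans_lt h1, F, h2, h3⟩

theorem Ss_fix {U : Set I} {p : Cd} {z : PName Cd} {a : Q} {r : Cd} {g : Gp} (hg : g ∈ Fx U) :
    mc g r ∈ Ss U p z a ↔ r ∈ Ss U p z a := by
  have h : ∀ F, mrg U p (mc g r) F = mrg U p r F := by
    intro F
    apply Cd.ext'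
    intro s
    by_cases h1 : s ∈ LU U
    · rw [mrg_1 h1, mrg_1 h1, mc_A, inv_eq.2 (hg s h1)]
    · by_cases h2 : s ∈ p.Dec
      · rw [mrg_2 h1 h2, mrg_2 h1 h2]
      · have h3 : s ∉ ee U p := fun h => h.elim h1 h2
        rw [mrg_3 h3, mrg_3 h3]
  simp only [Ss, Set.mem_setOf_eq, h]

section

variable {U W : Set I} {p : Cd} {f : ℕ → Gp} {z : PName Cd} (hp : Full p) (hW : W.Countable)
  (hU : U ⊆ W) (hl : p.lt ⊆ W) (hf : Cp (ee U p) W f) (hz : sy.Fix (Fx W) z)

include hW hU hl hf hz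

/-- Almost all copies are above the lower limit. -/
theorem copies_above {a : Q} {r F : Cd} (hF : ∀ s, (F.A s)ᶜ.Finite) (h : Fq z a (mrg U p r F))
    (hr : r ≤ p) {q : Cd} (hq : q ≤ r) :
    ∃ q' ≤ q, ∃ J, ∀ j ≥ J, Fq (act (sy.ac (f j)) z) a q' := by
  classical
  obtain ⟨J, hJ⟩ := exists_avoid hf q.Dec_fin
  obtain ⟨q', h1, h2⟩ := exists_spread hf hW
    (G := fun s => if s ∈ LU W ∧ s ∉ ee U p then F.A s else Set.univ) (q := q) (J := J) (by
      intro s
      by_cases h : s ∈ LU W ∧ s ∉ ee U p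
      · exact Or.inl h
      · exact Or.inr (if_neg h)) (by
      intro s
      split_ifs with h
      · exact hF s
      · simp) hJ
  refine ⟨q', h1, J, fun j hj => ?_⟩
  have h3 := (h.res hW hz).act (f j)
  refine h3.mono fun t => ?_
  rw [mc_A]
  by_cases h4 : ((f j)⁻¹).1 t ∈ LU W
  · rw [Cd.res_in h4]
    by_cases h5 : ((f j)⁻¹).1 t ∈ ee U p
    · have h6 := hf.fix j _ h5
      rw [g_inv] at h6
      rw [← h6]
      rw [← h6] at h5
      by_cases h7 : t ∈ LU U
      · rw [mrg_1 h7]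
        exact (h1 t).trans (hq t)
      · rw [mrg_2 h7 (h5.resolve_left h7)]
        exact (h1 t).trans ((hq t).trans (hr t))
    · rw [mrg_3 h5]
      have h6 := h2 j hj (((f j)⁻¹).1 t)
      rw [g_inv] at h6
      rwa [if_pos ⟨h4, h5⟩] at h6
  · rw [Cd.res_out h4]
    exact Set.subset_univ _

/-- Many copies are not above any number above the lower limit. -/
theorem copies_below (hp : Full p) {a b : Q} (hab : qv a < qv b) {r : Cd} (hr : r ≤ p)
    (hn : ∀ r' ≤ r, r' ∉ Ss U p z a) (J : ℕ) {q : Cd} (hq : q ≤ r) :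
    ∃ q' ≤ q, ∃ j ≥ J, ∀ t ≤ q', ¬ Fq (act (sy.ac (f j)) z) b t := by
  classical
  obtain ⟨J', hJ'⟩ := exists_avoid hf q.Dec_fin
  set j := max J J' with hj
  have hj1 : j ≥ J := le_max_left _ _
  have hav := hJ' j (le_max_right _ _)
  let F : Cd :=
    { A := fun s => if s ∈ LU W ∧ s ∉ ee U p then q.A ((f j).1 s) else Set.univ
      ne := fun s => by
        split_ifs
        · exact q.ne _
        · exact Set.univ_nonempty
      fin := by
        refine Set.Finite.subset Set.finite_empty fun s hs => ?_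
        apply hs
        split_ifs with h
        · exact Cd.cof (hav s h.1 h.2)
        · simp
      ctb := by
        refine (LU_countable hW).mono fun s hs => ?_
        by_contra hc
        exact hs (if_neg fun h => hc h.1) }
  have hF1 : ∀ s, s ∈ LU W → s ∉ ee U p → F.A s = q.A ((f j).1 s) := fun s h h' =>
    if_pos ⟨h, h'⟩
  have hF : ∀ s, (F.A s)ᶜ.Finite := by
    intro s
    change (if s ∈ LU W ∧ s ∉ ee U p then q.A ((f j).1 s) else Set.univ)ᶜ.Finite
    split_ifs with h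
    · exact Cd.cof (hav s h.1 h.2)
    · simp
  have h1 : ¬ Fq z b (mrg U p q F) := fun h => hn q hq ⟨b, hab, F, hF, h⟩
  have h2 : ∃ t ≤ mrg U p q F, ∀ t' ≤ t, ¬ Fq z b t' := by
    by_contra hc
    push Not at hc
    exact h1 (Fq.dense fun t ht => hc t ht)
  obtain ⟨t, ht, hn1⟩ := h2
  have hn2 : ∀ t' ≤ t.res (LU W), ¬ Fq z b t' := by
    intro t' ht' h3
    have h4 := h3.res hW hz
    have h5 : ∀ s, (t.A s ∩ (t'.res (LU W)).A s).Nonempty := by
      intro s
      by_cases hs : s ∈ LU W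
      · rw [Cd.res_in hs]
        obtain ⟨k, hk⟩ := t'.ne s
        have h6 := ht' s hk
        rw [Cd.res_in hs] at h6
        exact ⟨k, h6, hk⟩
      · rw [Cd.res_out hs, Set.inter_univ]
        exact t.ne s
    exact hn1 _ (Cd.mt_left h5) (h4.mono (Cd.mt_right h5))
  have h6 : ∀ s, (q.A s ∩ (mc (f j) (t.res (LU W))).A s).Nonempty := by
    intro τ
    rw [mc_A]
    by_cases h4 : ((f j)⁻¹).1 τ ∈ LU W
    · rw [Cd.res_in h4]
      by_cases h5 : ((f j)⁻¹).1 τ ∈ ee U p
      · have h6 := hf.fix j _ h5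
        rw [g_inv] at h6
        rw [← h6]
        rw [← h6] at h5
        have h8 := ht τ
        by_cases h7 : τ ∈ LU U
        · rw [mrg_1 h7] at h8
          obtain ⟨k, hk⟩ := t.ne τ
          exact ⟨k, h8 hk, hk⟩
        · have h9 := h5.resolve_left h7
          rw [mrg_2 h7 h9] at h8
          obtain ⟨k, hk⟩ := t.ne τ
          obtain ⟨k', hk'⟩ := q.ne τ
          obtain ⟨m, hm⟩ := hp.sg τ h9
          rw [hm] at h8
          have h10 := ((hq τ).trans (hr τ)) hk'
          rw [hm] at h10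
          have h11 := h8 hk
          rw [Set.mem_singleton_iff] at h10 h11
          subst h10 h11
          exact ⟨_, hk', hk⟩
      · have h8 := ht (((f j)⁻¹).1 τ)
        rw [mrg_3 h5, hF1 _ h4 h5, g_inv] at h8
        obtain ⟨k, hk⟩ := t.ne (((f j)⁻¹).1 τ)
        exact ⟨k, h8 hk, hk⟩
    · rw [Cd.res_out h4, Set.inter_univ]
      exact q.ne τ
  refine ⟨Cd.mt _ _ h6, Cd.mt_left h6, j, hj1, fun t' ht' h7 => ?_⟩
  refine hn2 (mc (f j)⁻¹ t') ?_ ?_
  · have h8 := mc_mono (f j)⁻¹ (ht'.trans (Cd.mt_right h6))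
    rwa [← mc_mul, inv_mul_cancel, mc_one] at h8
  · apply Fq.of_act (f j)
    rwa [← mc_mul, mul_inv_cancel, mc_one]

omit hW hU hl hf hz in
/-- The lower limit is bounded. -/
theorem limit_lower {lo a : Q} (h : Fq z lo p) (ha : qv a < qv lo) : p ∈ Ss U p z a := by
  classical
  let F : Cd :=
    { A := fun s => if s ∈ ee U p then Set.univ else p.A s
      ne := fun s => by
        split_ifs
        · exact Set.univ_nonempty
        · exact p.ne _
      fin := by
        refine Set.Finite.subset Set.finite_empty fun s hs => ?_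
        apply hs
        split_ifs with h
        · simp
        · exact Cd.cof fun h' => h (Or.inr h')
      ctb := p.ctb.mono fun s hs => by
        intro hc
        apply hs
        split_ifs
        · rfl
        · exact hc }
  refine ⟨lo, ha, F, ?_, ?_⟩
  · intro s
    change (if s ∈ ee U p then Set.univ else p.A s)ᶜ.Finite
    split_ifs with h
    · simp
    · exact Cd.cof fun h' => h (Or.inr h')
  · have h1 : mrg U p p F = p := by
      apply Cd.ext'
      intro s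
      by_cases h1 : s ∈ LU U
      · rw [mrg_1 h1]
      · by_cases h2 : s ∈ p.Dec
        · rw [mrg_2 h1 h2]
        · have h3 : s ∉ ee U p := fun h => h.elim h1 h2
          rw [mrg_3 h3]
          exact if_neg h3
    rw [h1]
    exact h

omit hW hU hl hf hz in
theorem limit_upper {hi a : Q} (h : ∀ r ≤ p, ∀ b, qv hi ≤ qv b → ¬ Fq z b r) (ha : qv hi ≤ qv a)
    {r : Cd} (hr : r ≤ p) : r ∉ Ss U p z a := by
  rintro ⟨a', h1, F, h2, h3⟩
  have h4 : ∀ s, ((mrg U p r F).A s ∩ p.A s).Nonempty := by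
    intro s
    by_cases e1 : s ∈ LU U
    · rw [mrg_1 e1]
      obtain ⟨k, hk⟩ := r.ne s
      exact ⟨k, hk, hr s hk⟩
    · by_cases e2 : s ∈ p.Dec
      · rw [mrg_2 e1 e2, Set.inter_self]
        exact p.ne s
      · have e3 : s ∉ ee U p := fun h => h.elim e1 e2
        rw [mrg_3 e3]
        exact Cd.meets (h2 s) (Cd.cof e2)
  exact h _ (Cd.mt_right h4) a' (ha.trans h1.le) (h3.mono (Cd.mt_left h4))

end

end Pool.Agent.R596.SQ
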