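import Mathlib

/-!
# Intervals coded by finite sequences of natural numbers
-/

set_option autoImplicit false
set_option linter.all false

namespace Pool.Agent.R596.SQ

/-- The exponent of the denominator. -/
def ew : List ℕ → ℕ
  | [] => 0
  | k :: w => ew w + (k + w.length + 1)

/-- The numerator. -/
def iw : List ℕ → ℕ
  | [] => 0
  | k :: w => iw w * 2 ^ (k + w.length + 1) + 1

/-- The left end. -/
noncomputable def lw (w : List ℕ) : ℝ := (iw w : ℝ) / 2 ^ ew w

/-- The right end. -/
noncomputable def uw (w : List ℕ) : ℝ := ((iw w : ℝ) + 1) / 2 ^ ew w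

/-- The interval of the sequence `w`. -/
def InJ (w : List ℕ) (y : ℝ) : Prop := lw w < y ∧ y ≤ uw w

theorem lw_cons (k : ℕ) (w : List ℕ) :
    lw (k :: w) = lw w + 1 / 2 ^ (ew w + (k + w.length + 1)) := by
  have e1 : ew (k :: w) = ew w + (k + w.length + 1) := rfl
  have e2 : iw (k :: w) = iw w * 2 ^ (k + w.length + 1) + 1 := rfl
  rw [lw, lw, e1, e2]
  push_cast
  rw [pow_add]
  field_simp
  ring

theorem uw_cons (k : ℕ) (w : List ℕ) :
    uw (k :: w) = lw w + 1 / 2 ^ (ew w + (k + w.length)) := by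
  have e1 : ew (k :: w) = ew w + (k + w.length + 1) := rfl
  have e2 : iw (k :: w) = iw w * 2 ^ (k + w.length + 1) + 1 := rfl
  rw [lw, uw, e1, e2]
  push_cast
  rw [pow_add, pow_add 2 (ew w), pow_succ]
  field_simp
  ring

theorem uw_eq (w : List ℕ) : uw w = lw w + 1 / 2 ^ ew w := by
  unfold lw uw
  rw [add_div]

theorem lw_lt_cons (k : ℕ) (w : List ℕ) : lw w < lw (k :: w) := by
  rw [lw_cons]
  have : (0 : ℝ) < 1 / 2 ^ (ew w + (k + w.length + 1)) := by positivity
  linarith

theorem uw_cons_le (k : ℕ) (w : List ℕ) : uw (k :: w) ≤ uw w := by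
  rw [uw_cons, uw_eq]
  have : (1 : ℝ) / 2 ^ (ew w + (k + w.length)) ≤ 1 / 2 ^ ew w :=
    one_div_le_one_div_of_le (by positivity) (pow_le_pow_right₀ (by norm_num) (by omega))
  linarith

theorem lw_lt_uw (w : List ℕ) : lw w < uw w := by
  rw [uw_eq]
  have : (0 : ℝ) < 1 / 2 ^ ew w := by positivity
  linarith

theorem InJ.tail {k : ℕ} {w : List ℕ} {y : ℝ} (h : InJ (k :: w) y) : InJ w y :=
  ⟨(lw_lt_cons k w).trans h.1, h.2.trans (uw_cons_le k w)⟩

theorem InJ.drop {w : List ℕ} {y : ℝ} (h : InJ w y) (d : ℕ) : InJ (w.drop d) y := by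
  induction d generalizing w with
  | zero => exact h
  | succ d ih =>
    cases w with
    | nil => exact h
    | cons k w => exact ih h.tail

/-- Overlapping intervals of the same level are equal. -/
theorem ov {w w' : List ℕ} (hl : w.length = w'.length) (h : lw w < uw w') (h' : lw w' < uw w) :
    w = w' := by
  induction w generalizing w' with
  | nil => exact (List.length_eq_zero_iff.1 hl.symm).symm
  | cons k v ih =>
    cases w' with
    | nil => simp at hl
    | cons k' v' =>
      have hl' : v.length = v'.length := by simpa using hl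
      have h1 : v = v' := ih hl' ((lw_lt_cons k v).trans (h.trans_le (uw_cons_le k' v')))
        ((lw_lt_cons k' v').trans (h'.trans_le (uw_cons_le k v)))
      subst h1
      have key : ∀ a b : ℕ, a < b → ¬ lw (a :: v) < uw (b :: v) := by
        intro a b hab hlt
        rw [lw_cons, uw_cons] at hlt
        have : (1 : ℝ) / 2 ^ (ew v + (b + v.length)) ≤ 1 / 2 ^ (ew v + (a + v.length + 1)) :=
          one_div_le_one_div_of_le (by positivity) (pow_le_pow_right₀ (by norm_num) (by omega))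
        linarith
      rcases lt_trichotomy k k' with h2 | h2 | h2
      · exact absurd h (key k k' h2)
      · rw [h2]
      · exact absurd h' (key k' k h2)

theorem InJ.eq {w w' : List ℕ} {y : ℝ} (h : InJ w y) (h' : InJ w' y)
    (hl : w.length = w'.length) : w = w' :=
  ov hl (h.1.trans_le h'.2) (h'.1.trans_le h.2)

theorem len_le_ew (w : List ℕ) : w.length ≤ ew w := by
  induction w with
  | nil => simp
  | cons k w ih =>
    simp only [List.length_cons, ew]
    omega

theorem InJ.dist {w : List ℕ} {y y' : ℝ} (h : InJ w y) (h' : InJ w y') :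
    |y - y'| < 1 / 2 ^ w.length := by
  have h1 : (1 : ℝ) / 2 ^ ew w ≤ 1 / 2 ^ w.length :=
    one_div_le_one_div_of_le (by positivity) (pow_le_pow_right₀ (by norm_num) (len_le_ew w))
  obtain ⟨h2, h3⟩ := h
  obtain ⟨h4, h5⟩ := h'
  rw [uw_eq] at h3 h5
  rw [abs_lt]
  constructor <;> linarith

/-- The points with a code of every length are irrational. -/
theorem irr_of {y : ℝ} (h : ∀ n, ∃ w : List ℕ, w.length = n ∧ InJ w y) : Irrational y := by
  rintro ⟨r, rfl⟩
  obtain ⟨n, hn⟩ := exists_nat_gt (r.den : ℝ)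
  obtain ⟨w', hw', h1⟩ := h (n + 1)
  cases w' with
  | nil => simp at hw'
  | cons k w =>
    have hw : w.length = n := by simpa using hw'
    obtain ⟨h2, h3⟩ := h1
    have h4 := (lw_lt_cons k w).trans h2
    rw [uw_cons] at h3
    have hb : (0 : ℝ) < r.den := by exact_mod_cast r.pos
    have he : (0 : ℝ) < 2 ^ ew w := by positivity
    have hr : (r : ℝ) = r.num / r.den := Rat.cast_def r
    -- the integer
    have h5 : (0 : ℝ) < ((r.num * 2 ^ ew w - r.den * iw w : ℤ) : ℝ) := by
      push_cast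
      unfold lw at h4
      rw [hr, div_lt_div_iff₀ he hb] at h4
      linarith
    have h6 : ((r.num * 2 ^ ew w - r.den * iw w : ℤ) : ℝ) < 1 := by
      push_cast
      have h7 : (r : ℝ) * (2 ^ ew w) ≤ iw w + 1 / 2 ^ n := by
        have h8 : (r : ℝ) * (2 ^ ew w) ≤ (lw w + 1 / 2 ^ (ew w + (k + w.length))) * 2 ^ ew w :=
          mul_le_mul_of_nonneg_right h3 he.le
        have h9 : (lw w + 1 / 2 ^ (ew w + (k + w.length))) * 2 ^ ew w =
            iw w + 1 / 2 ^ (k + w.length) := by
          unfold lw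
          rw [pow_add]
          field_simp
        rw [h9] at h8
        have h10 : (1 : ℝ) / 2 ^ (k + w.length) ≤ 1 / 2 ^ n :=
          one_div_le_one_div_of_le (by positivity) (pow_le_pow_right₀ (by norm_num) (by omega))
        linarith
      have h8 : (r : ℝ) * r.den = r.num := by
        rw [hr]
        field_simp
      have h9 : (r.num : ℝ) * 2 ^ ew w = (r * 2 ^ ew w) * r.den := by
        rw [← h8]
        ring
      have h10 : (r.den : ℝ) / 2 ^ n < 1 := by
        rw [div_lt_one (by positivity)]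
        refine hn.trans_le ?_
        exact_mod_cast (Nat.lt_two_pow_self (n := n)).le
      rw [h9]
      have h11 := mul_le_mul_of_nonneg_right h7 hb.le
      have h12 : ((iw w : ℝ) + 1 / 2 ^ n) * r.den = r.den * iw w + r.den / 2 ^ n := by ring
      rw [h12] at h11
      linarith
    have h7 : (0 : ℤ) < r.num * 2 ^ ew w - r.den * iw w := by exact_mod_cast h5
    have h8 : (r.num * 2 ^ ew w - r.den * iw w : ℤ) < 1 := by exact_mod_cast h6
    omega

theorem exists_child {w : List ℕ} {y : ℝ} (h : lw w < y)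
    (h' : y ≤ lw w + 1 / 2 ^ (ew w + w.length)) : ∃ k, InJ (k :: w) y := by
  have he : (0 : ℝ) < 2 ^ (ew w + w.length) := by positivity
  obtain ⟨k, h1, h2⟩ := exists_nat_pow_near_of_lt_one (x := (y - lw w) * 2 ^ (ew w + w.length))
    (y := (1 / 2 : ℝ)) (mul_pos (by linarith) he) (by
      have : (y - lw w) ≤ 1 / 2 ^ (ew w + w.length) := by linarith
      calc (y - lw w) * 2 ^ (ew w + w.length) ≤ 1 / 2 ^ (ew w + w.length) * 2 ^ (ew w + w.length) :=
            mul_le_mul_of_nonneg_right this he.le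
        _ = 1 := by field_simp) (by norm_num) (by norm_num)
  refine ⟨k, ?_, ?_⟩
  · rw [lw_cons]
    have h3 : (1 : ℝ) / 2 ^ (ew w + (k + w.length + 1)) = (1 / 2) ^ (k + 1) /
        2 ^ (ew w + w.length) := by
      rw [one_div_pow, div_div, ← pow_add]
      congr 2
      omega
    have h4 : (1 / 2 : ℝ) ^ (k + 1) / 2 ^ (ew w + w.length) < y - lw w := by
      rwa [div_lt_iff₀ he]
    linarith
  · rw [uw_cons]
    have h3 : (1 : ℝ) / 2 ^ (ew w + (k + w.length)) = (1 / 2) ^ k / 2 ^ (ew w + w.length) := by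
      rw [one_div_pow, div_div, ← pow_add]
      congr 2
      omega
    have h4 : y - lw w ≤ (1 / 2 : ℝ) ^ k / 2 ^ (ew w + w.length) := by
      rwa [le_div_iff₀ he]
    linarith

theorem ne_uw {y : ℝ} (hy : Irrational y) (w : List ℕ) : y ≠ uw w := by
  rintro rfl
  apply hy
  refine ⟨((iw w : ℚ) + 1) / 2 ^ ew w, ?_⟩
  unfold uw
  push_cast
  rfl

theorem ne_lw {y : ℝ} (hy : Irrational y) (w : List ℕ) : y ≠ lw w := by
  rintro rfl
  apply hy
  refine ⟨(iw w : ℚ) / 2 ^ ew w, ?_⟩
  unfold lw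
  push_cast
  rfl

/-- Limits of points with codes. -/
theorem lim_of {y : ℝ} (hy : Irrational y) {f : ℕ → ℝ}
    (hf : Filter.Tendsto f Filter.atTop (nhds y))
    (h : ∀ j n, ∃ w : List ℕ, w.length = n ∧ InJ w (f j)) (n : ℕ) :
    ∃ w : List ℕ, w.length = n ∧ InJ w y ∧ ∃ J, ∀ j ≥ J, InJ w (f j) := by
  have hev : ∀ w : List ℕ, InJ w y → ∃ J, ∀ j ≥ J, InJ w (f j) := by
    intro w hw
    have h1 : y < uw w := lt_of_le_of_ne hw.2 (ne_uw hy w)
    have h2 := (hf.eventually_const_lt hw.1).and (hf.eventually_lt_const h1)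
    obtain ⟨J, hJ⟩ := Filter.eventually_atTop.1 h2
    exact ⟨J, fun j hj => ⟨(hJ j hj).1, (hJ j hj).2.le⟩⟩
  induction n with
  | zero =>
    have h1 : InJ [] y := by
      have h2 : ∀ j, InJ [] (f j) := by
        intro j
        obtain ⟨w, hw, h3⟩ := h j 0
        rwa [List.length_eq_zero_iff.1 hw] at h3
      have h3 : lw [] ≤ y := ge_of_tendsto' hf fun j => (h2 j).1.le
      exact ⟨lt_of_le_of_ne h3 (ne_lw hy []).symm, le_of_tendsto' hf fun j => (h2 j).2⟩
    exact ⟨[], rfl, h1, hev [] h1⟩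
  | succ n ih =>
    obtain ⟨w, hw, h1, J, hJ⟩ := ih
    have h2 : ∀ j ≥ J, f j ≤ lw w + 1 / 2 ^ (ew w + w.length) := by
      intro j hj
      obtain ⟨w', hw', h3⟩ := h j (n + 1)
      cases w' with
      | nil => simp at hw'
      | cons k v =>
        have h4 : v = w := h3.tail.eq (hJ j hj) (by simpa [hw] using hw')
        subst h4
        refine h3.2.trans ?_
        rw [uw_cons]
        have : (1 : ℝ) / 2 ^ (ew v + (k + v.length)) ≤ 1 / 2 ^ (ew v + v.length) :=
          one_div_le_one_div_of_le (by positivity) (pow_le_pow_right₀ (by norm_num) (by omega))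
        linarith
    have h3 : y ≤ lw w + 1 / 2 ^ (ew w + w.length) :=
      le_of_tendsto hf (Filter.eventually_atTop.2 ⟨J, h2⟩)
    obtain ⟨k, hk⟩ := exists_child h1.1 h3
    exact ⟨k :: w, by simp [hw], hk, hev _ hk⟩

/-- The initial segments of a sequence. -/
def wx (x : ℕ → ℕ) : ℕ → List ℕ
  | 0 => []
  | n + 1 => x n :: wx x n

theorem wx_len (x : ℕ → ℕ) (n : ℕ) : (wx x n).length = n := by
  induction n with
  | zero => rfl
  | succ n ih => simp [wx, ih]

theorem wx_congr {x x' : ℕ → ℕ} {n : ℕ} (h : ∀ m < n, x m = x' m) : wx x n = wx x' n := by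
  induction n with
  | zero => rfl
  | succ n ih => rw [wx, wx, h n (Nat.lt_succ_self n), ih fun m hm => h m (by omega)]

/-- The point of a sequence. -/
noncomputable def pt (x : ℕ → ℕ) : ℝ := ⨆ n, lw (wx x n)

theorem lw_wx_mono (x : ℕ → ℕ) : StrictMono fun n => lw (wx x n) :=
  strictMono_nat_of_lt_succ fun n => lw_lt_cons (x n) (wx x n)

theorem uw_wx_anti (x : ℕ → ℕ) : Antitone fun n => uw (wx x n) :=
  antitone_nat_of_succ_le fun n => uw_cons_le (x n) (wx x n)

theorem lw_le_uw (x : ℕ → ℕ) (m n : ℕ) : lw (wx x m) ≤ uw (wx x n) := by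
  rcases le_total m n with h | h
  · exact ((lw_wx_mono x).monotone h).trans (lw_lt_uw _).le
  · exact (lw_lt_uw _).le.trans (uw_wx_anti x h)

theorem bdd_pt (x : ℕ → ℕ) : BddAbove (Set.range fun n => lw (wx x n)) :=
  ⟨uw (wx x 0), by
    rintro _ ⟨m, rfl⟩
    exact lw_le_uw x m 0⟩

theorem inJ_pt (x : ℕ → ℕ) (n : ℕ) : InJ (wx x n) (pt x) :=
  ⟨(lw_wx_mono x (Nat.lt_succ_self n)).trans_le (le_ciSup (bdd_pt x) (n + 1)),
    ciSup_le fun m => lw_le_uw x m n⟩

theorem irr_pt (x : ℕ → ℕ) : Irrational (pt x) :=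
  irr_of fun n => ⟨wx x n, wx_len x n, inJ_pt x n⟩

theorem exists_lw {x : ℕ → ℕ} {t : ℝ} (h : t < pt x) : ∃ n, t < lw (wx x n) :=
  exists_lt_of_lt_ciSup h

end Pool.Agent.R596.SQ
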