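import Pool.Agent.R596.SqNam

/-!
# The real line is sequential in the model
-/

set_option autoImplicit false
set_option linter.all false

namespace Pool.Agent.R596.SQ

open Pool.Agent.W868 Pool.Agent.W868.PName Pool.Agent.R596.SY Pool.Agent.R596Sq
open ZFSet (pair)

theorem Pr.extend {lo hi : Q} {z Y : PName Cd} {r q : Cd} (h : Fq z lo r)
    (h2 : ∀ t ≤ r, ∀ b, qv hi ≤ qv b → ¬ Fq z b t) (h3 : Fmem z Y r) (hq : q ≤ r) (hf : Full q) :
    Pr lo hi z Y q := ⟨hf, h.mono hq, fun t ht => h2 t (ht.trans hq), Fmem.mono h3 hq⟩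

theorem feq_conj {W : Set I} {z : PName Cd} (fz : sy.Fix (Fx W) z) (g h : Gp)
    (hk : h⁻¹ * g * h ∈ Fx W) (p : Cd) :
    Feq (act (sy.ac g) (act (sy.ac h) z)) (act (sy.ac h) z) p := by
  have h2 := feq_act' (e := sy.ac h) (fz _ hk (((sy.ac h)⁻¹ : Cd ≃o Cd) p))
  rw [app_inv] at h2
  have h3 : act (sy.ac h) (act (sy.ac (h⁻¹ * g * h)) z) = act (sy.ac g) (act (sy.ac h) z) := by
    rw [← act_mul, ← act_mul]
    congr 1
    change ac h * ac (h⁻¹ * g * h) = ac g * ac h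
    rw [← map_mul, ← map_mul]
    congr 1
    group
  rw [h3] at h2
  exact h2

section

variable {π : Pkg Cd} (hg : ClR RR1 π) (hcl : sy.Cld π)

/-- A rational number is in the value iff this is forced. -/
theorem cod_mem_val {z : PName Cd} (hz : z ∈ π.N) {a : Q} :
    cod a ∈ π.val z ↔ ∃ k, Fq z a (π.g k) := by
  have h := π.val_mem_iff (cod_N π a) hz
  rw [val_cod] at h
  exact h

include hg hcl

/-- The lower limit of the copies of a real number in `Y` is in `Y` and has a name with the support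
of `Y`. -/
theorem exists_limit {Y : PName Cd} (nY : Y ∈ π.N) (sY : sy.HS Y)
    (hY : ∀ z ∈ π.val Y, ∃ x, z = rl x) (hN : NR ∈ sy.Ms π)
    (hc : ∀ s ∈ sy.Ms π, ZFSet.IsFunc ZFSet.omega (π.val Y) s → ∀ x, rl x ∈ sy.Ms π →
      ConvTo s x → rl x ∈ π.val Y) {zv : ℝ} {lo hi : Q} (hz : rl zv ∈ π.val Y) (hlo : qv lo < zv)
    (hhi : zv < qv hi) : ∃ σ : ℝ, qv lo ≤ σ ∧ σ ≤ qv hi ∧ rl σ ∈ π.val Y ∧
      rl σ ∈ π.val (RU (sp Y)) := by
  classical
  have hM := zf_Ms hcl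
  -- the name of the point
  obtain ⟨z, nz, c0, hc0, -, hzv⟩ := π.mem_val.1 hz
  have sz : sy.HS z := sY.el hc0
  obtain ⟨k1, hk1⟩ := (π.val_mem_iff nz nY).1 (hzv ▸ hz)
  obtain ⟨k2, hk2⟩ := (cod_mem_val (π := π) nz).1 (by rw [hzv, cod_mem_rl]; exact hlo)
  obtain ⟨k3, -, hk3⟩ := gen_dense' π (n_hi hg nz (hi := hi)) (m := 0) (by
    rintro r (⟨b, h1, h2⟩ | h) q hq
    · exact Or.inl ⟨b, h1, h2.mono hq⟩
    · exact Or.inr fun t ht => h t (ht.trans hq)) (by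
    intro q _
    by_cases h : ∃ t ≤ q, ∃ b, qv hi ≤ qv b ∧ Fq z b t
    · obtain ⟨t, ht, b, h1, h2⟩ := h
      exact ⟨t, ht, Or.inl ⟨b, h1, h2⟩⟩
    · push Not at h
      exact ⟨q, le_rfl, Or.inr h⟩)
  replace hk3 : ∀ t ≤ π.g k3, ∀ b, qv hi ≤ qv b → ¬ Fq z b t := by
    rcases hk3 with ⟨b, h1, h2⟩ | h
    · exfalso
      have h3 := (cod_mem_val (π := π) nz).2 ⟨k3, h2⟩
      rw [hzv, cod_mem_rl] at h3
      linarith
    · exact h
  set m := max k1 (max k2 k3) with hm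
  have m1 : π.g m ≤ π.g k1 := π.g_anti (le_max_left _ _)
  have m2 : π.g m ≤ π.g k2 := π.g_anti ((le_max_left _ _).trans (le_max_right _ _))
  have m3 : π.g m ≤ π.g k3 := π.g_anti ((le_max_right _ _).trans (le_max_right _ _))
  obtain ⟨k4, -, hk4⟩ := gen_dense' π (n_Pr hg nz nY (lo := lo) (hi := hi)) (m := m) (by
    rintro r ⟨t, h1, h2⟩ q hq
    exact ⟨t, hq.trans h1, h2⟩) (by
    intro q hq
    obtain ⟨r, h1, h2⟩ := exists_full q
    exact ⟨r, h1, r, le_rfl, Pr.extend (hk2.mono m2) (fun t ht => hk3 t (ht.trans m3))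
      (Fmem.mono hk1 m1) (h1.trans hq) h2⟩)
  -- the first condition
  set p0 := pch lo hi z Y (π.g k4) with hp0
  have hp1 : π.g k4 ≤ p0 ∧ Pr lo hi z Y p0 := by
    have h : ∃ r, π.g k4 ≤ r ∧ Pr lo hi z Y r := hk4
    rw [hp0]
    unfold pch
    rw [dif_pos h]
    exact h.choose_spec
  obtain ⟨hgp, hP⟩ := hp1
  set U := sp Y with hU
  have ho : Hul π ((p0, U) : Cd × Set I) := n_pr hg (n_pch hg nz nY k4) (n_sp hg nY)
  set o : Cd × Set I := (p0, U) with ho'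
  set W := Wo o z with hW
  have cW : W.Countable := ((sp_ctb Y).union (sp_ctb z)).union p0.lt_countable
  have hUW : U ⊆ W := fun i hi => Or.inl (Or.inl hi)
  have hlW : p0.lt ⊆ W := fun i hi => Or.inr hi
  have fz : sy.Fix (Fx W) z := Sys.Fix.mono (sp_fix sz) (Fx_mono fun i hi => Or.inl (Or.inr hi))
  -- the copies
  obtain ⟨k, hkk, hk⟩ := gen_dense' π (n_Dc hg ho nz) (m := k4) (by
    rintro r ⟨f, h1, h2⟩ q hq
    exact ⟨f, h1, fun j => hq.trans (h2 j)⟩) (by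
    intro q hq
    obtain ⟨r, h1, f, h2, h3⟩ := dense_copies hP.full cW hUW hlW (hq.trans hgp)
    exact ⟨r, h1, f, h2, h3⟩)
  set f := fch o z (π.g k) with hf
  have hf1 : Cp (ee U p0) W f ∧ ∀ j, π.g k ≤ mc (f j) p0 := by
    have h : ∃ f : ℕ → Gp, Cp (ee o.2 o.1) (Wo o z) f ∧ ∀ j, π.g k ≤ mc (f j) o.1 := hk
    rw [hf]
    unfold fch
    rw [dif_pos h]
    exact h.choose_spec
  obtain ⟨hfc, hfp⟩ := hf1
  have hHf : Hul π f := n_fch hg ho nz k
  have hkp : π.g k ≤ p0 := (π.g_anti hkk).trans hgp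
  have hfU : ∀ j, f j ∈ Fx U := fun j s hs => hfc.fix j s (Or.inl hs)
  have nzj : ∀ j, act (sy.ac (f j)) z ∈ π.N := n_cp hg hHf nz
  have szj : ∀ j, sy.HS (act (sy.ac (f j)) z) := fun j => sy.hs_act sz (f j)
  have hzj : ∀ j, π.val (act (sy.ac (f j)) z) ∈ π.val Y := by
    intro j
    have h1 := fmem_act' (e := sy.ac (f j)) hP.mem
    have h2 : Fmem (act (sy.ac (f j)) z) Y (mc (f j) p0) :=
      fmem_congr (Feq.refl _ _) (sp_fix sY (f j) (hfU j) _) h1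
    exact mem_of_fmem (nzj j) nY (hfp j) h2
  have hzr : ∀ j, ∃ x, π.val (act (sy.ac (f j)) z) = rl x := fun j => hY _ (hzj j)
  choose zj hzj2 using hzr
  have hzq : ∀ j a, (∃ k, Fq (act (sy.ac (f j)) z) a (π.g k)) ↔ qv a < zj j := by
    intro j a
    rw [← cod_mem_val (nzj j), hzj2, cod_mem_rl]
  -- the limit
  have hS : ∀ a, Sys.nm Cd (Ss U p0 z a) ∈ π.N := n_Ss hg ho nz
  let Sg : Set Q := {a | ∃ k, π.g k ∈ Ss U p0 z a}
  have hlow : ∀ a, qv a < qv lo → a ∈ Sg := fun a ha => ⟨k, Ss_mono (limit_lower hP.lo ha) hkp⟩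
  have hupp : ∀ a ∈ Sg, qv a < qv hi := by
    rintro a ⟨k', hk'⟩
    by_contra hcon
    exact limit_upper hP.hi (not_lt.1 hcon) ((π.g_le_right k' k).trans hkp)
      (Ss_mono hk' (π.g_le_left k' k))
  obtain ⟨a0, ha0, ha1⟩ := exists_between' (show qv lo - 1 < qv lo by linarith)
  have hne : (qv '' Sg).Nonempty := ⟨_, a0, hlow a0 ha1, rfl⟩
  have hbd : BddAbove (qv '' Sg) := ⟨qv hi, by
    rintro _ ⟨a, ha, rfl⟩
    exact (hupp a ha).le⟩
  set σ := sSup (qv '' Sg) with hσ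
  have hchar : ∀ a, a ∈ Sg ↔ qv a < σ := by
    intro a
    constructor
    · rintro ⟨k', a', h1, F, h2, h3⟩
      obtain ⟨b, h4, h5⟩ := exists_between' h1
      have h6 : b ∈ Sg := ⟨k', a', h5, F, h2, h3⟩
      exact h4.trans_le (le_csSup hbd ⟨b, h6, rfl⟩)
    · intro h
      obtain ⟨_, ⟨b, ⟨k', hb⟩, rfl⟩, h1⟩ := exists_lt_of_lt_csSup hne h
      exact ⟨k', Ss_anti hb h1.le⟩
  have nL : nb (Ss U p0 z) ∈ π.N := n_lim hg ho nz
  have hinv : ∀ g ∈ Fx U, ∀ a p, mc g p ∈ Ss U p0 z a ↔ p ∈ Ss U p0 z a :=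
    fun g hg a p => Ss_fix hg
  have vL : π.val (nb (Ss U p0 z)) = rl σ := by
    ext w
    rw [mem_nb (fun a p hp q hq => Ss_mono hp hq), mem_rl]
    constructor
    · rintro ⟨a, rfl, h⟩
      exact ⟨a, rfl, (hchar a).1 h⟩
    · rintro ⟨a, rfl, h⟩
      exact ⟨a, rfl, (hchar a).2 h⟩
  have hσM : rl σ ∈ sy.Ms π := by
    rw [← vL]
    exact val_Ms nL (hs_nb (sp_ctb Y) hinv)
  have hσlo : qv lo ≤ σ := by
    by_contra hcon
    obtain ⟨b, h1, h2⟩ := exists_between' (not_le.1 hcon)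
    exact lt_asymm h1 ((hchar b).1 (hlow b h2))
  have hσhi : σ ≤ qv hi := by
    by_contra hcon
    obtain ⟨b, h1, h2⟩ := exists_between' (not_le.1 hcon)
    exact lt_asymm h1 (hupp b ((hchar b).2 h2))
  -- the limit is a limit of the copies
  have hlim : ∀ ε > 0, ∃ j, |zj j - σ| < ε := by
    intro ε hε
    obtain ⟨a, h1, h2⟩ := exists_between' (show σ - ε < σ by linarith)
    obtain ⟨b0, h3, h4⟩ := exists_between' (show σ < σ + ε by linarith)
    obtain ⟨b, h5, h6⟩ := exists_between' h4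
    obtain ⟨ka, a', h7, F, h8, h9⟩ := (hchar a).2 h2
    have h10 : Fq z a' (mrg U p0 (π.g (max ka k)) F) := h9.mono (mrg_mono (π.g_le_left _ _))
    obtain ⟨kb, -, J, hJ⟩ := gen_dense' π (n_ab hg hHf nz a') (m := max ka k) (by
      rintro r ⟨J, hJ⟩ q hq
      exact ⟨J, fun j hj => (hJ j hj).mono hq⟩) (by
      intro q hq
      obtain ⟨q', h11, h12⟩ := copies_above cW hUW hlW hfc fz h8 h10
        ((π.g_le_right _ _).trans hkp) hq
      exact ⟨q', h11, h12⟩)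
    have h11 : ∃ k', ∀ r ≤ π.g k', r ∉ Ss U p0 z b0 := by
      obtain ⟨k', ⟨r, h12, h13⟩ | h12⟩ := gen_nm π (hS b0)
      · exfalso
        have := (hchar b0).1 ⟨k', Ss_mono h12 h13⟩
        linarith
      · exact ⟨k', h12⟩
    obtain ⟨k', hk'⟩ := h11
    obtain ⟨kc, -, j, hj, hjn⟩ := gen_dense' π (n_be hg hHf nz b J) (m := max k' k) (by
      rintro r ⟨j, hj, hr⟩ q hq
      exact ⟨j, hj, fun t ht => hr t (ht.trans hq)⟩) (by
      intro q hq
      obtain ⟨q', h12, j, hj, h13⟩ := copies_below cW hUW hlW hfc fz hP.full h5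
        ((π.g_le_right k' k).trans hkp) (fun r' hr' => hk' r' (hr'.trans (π.g_le_left _ _))) J hq
      exact ⟨q', h12, j, hj, h13⟩)
    refine ⟨j, ?_⟩
    have h12 : qv a' < zj j := (hzq j a').1 ⟨kb, hJ j hj⟩
    have h13 : ¬ qv b < zj j := by
      rw [← hzq]
      rintro ⟨kd, hd⟩
      exact hjn _ (π.g_le_right kd kc) (hd.mono (π.g_le_left kd kc))
    rw [abs_lt]
    constructor <;> linarith [not_lt.1 h13]
  -- the sequence of the copies
  have nsq : sq f z ∈ π.N := n_sq hg hHf nz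
  set E := π.val (sq f z) with hE
  have hE1 : ∀ e, e ∈ E ↔ ∃ j, e = pair (nat j) (rl (zj j)) := by
    intro e
    have h1 : ∀ j, opN (check (nat j)) (act (sy.ac (f j)) z) ∈ π.N := fun j =>
      π.opN_mem (π.nat_Z j) (nzj j)
    have h2 : ∀ j, π.val (opN (check (nat j)) (act (sy.ac (f j)) z)) =
        pair (nat j) (rl (zj j)) := by
      intro j
      rw [π.val_opN (π.nat_Z j) (nzj j), hzj2]
      congr 1
      exact π.hat_nat j
    rw [hE, sq, mem_tn]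
    constructor
    · rintro ⟨j, -, rfl⟩
      exact ⟨j, h2 j⟩
    · rintro ⟨j, rfl⟩
      exact ⟨j, h1 j, h2 j⟩
  have hEM : E ∈ sy.Ms π := by
    refine val_Ms nsq ?_
    have cW' : {i | ∃ j, ∃ s ∈ LU W, i ∈ (f j).1 s}.Countable := by
      have h : {i | ∃ j, ∃ s ∈ LU W, i ∈ (f j).1 s} = ⋃ j, ⋃ s ∈ LU W, {i | i ∈ (f j).1 s} := by
        ext i
        simp
      rw [h]
      exact Set.countable_iUnion fun j => (LU_countable cW).biUnion fun s _ =>
        (List.finite_toSet _).countable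
    refine hs_tn (Fx_mem cW') (fun j => sy.hs_opN (sy.hs_check _) (szj j)) ?_
    intro g hg p
    rw [act_tn (sy.top g)]
    refine feq_tn (fun j => ⟨j, ?_⟩) (fun j => ⟨j, ?_⟩) <;>
    · rw [act_opN (sy.top g), act_ck]
      refine feq_opN (Feq.refl _ _) ?_
      refine feq_conj fz g (f j) ?_ p
      intro s hs
      change ((f j)⁻¹).1 (Subtype.val (p := (· ∈ Gp)) g ((f j).1 s)) = s
      rw [hg ((f j).1 s) fun i hi => ⟨j, s, hs, hi⟩, inv_g]
  obtain ⟨s, hs, hs1, hs2⟩ := exists_sel hM hN hEM (val_Ms nY sY) hσM (by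
      intro e he
      obtain ⟨j, rfl⟩ := (hE1 e).1 he
      refine ⟨_, _, rfl, ?_⟩
      rw [nat_eq]
      exact ZFSet.isOrdinal_toZFSet _) (by
      intro a b b' h1 h2
      obtain ⟨j, h3⟩ := (hE1 _).1 h1
      obtain ⟨j', h4⟩ := (hE1 _).1 h2
      rw [ZFSet.pair_inj] at h3 h4
      have h5 := nat_injective (h3.1.symm.trans h4.1)
      subst h5
      rw [h3.2, h4.2]) (by
      intro k
      obtain ⟨j, hj⟩ := hlim (1 / (k + 1)) (by positivity)
      refine ⟨nat j, rl (zj j), (hE1 _).2 ⟨j, rfl⟩, ?_, near_iff.2 hj⟩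
      rw [← hzj2]
      exact hzj j)
  have hconv : ConvTo s σ := by
    have h1 : ∀ k : ℕ, ∃ x, pair (nat k) (rl x) ∈ s := by
      intro k
      obtain ⟨w, hw, -⟩ := hs1.2 (nat k) (mem_omega_iff.2 ⟨k, rfl⟩)
      obtain ⟨x, rfl⟩ := hY w (ZFSet.pair_mem_prod.1 (hs1.1 hw)).2
      exact ⟨x, hw⟩
    choose x hx using h1
    refine ⟨x, hx, ?_⟩
    rw [Metric.tendsto_atTop]
    intro ε hε
    obtain ⟨N, hN'⟩ := exists_nat_one_div_lt hε
    refine ⟨N, fun n hn => ?_⟩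
    rw [Real.dist_eq]
    refine (near_iff.1 (hs2 _ _ (hx n))).trans_le ?_
    refine le_trans ?_ hN'.le
    exact one_div_le_one_div_of_le (by positivity) (by exact_mod_cast Nat.add_le_add_right hn 1)
  exact ⟨σ, hσlo, hσhi, hc s hs hs1 σ hσM hconv, mem_tn.2 ⟨⟨Ss U p0 z, hinv⟩, nL, vL⟩⟩

/-- The real line is sequential. -/
theorem seq_R (hN : NR ∈ sy.Ms π) : Sequential (sy.Ms π) Set.univ := by
  intro A hA hAr hc x _ hx hcl'
  have hM := zf_Ms hcl
  have hA0 := hA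
  obtain ⟨Y, ⟨nY, sY⟩, rfl⟩ := hA
  have hY : ∀ z ∈ π.val Y, ∃ x, z = rl x := fun z hz => by
    obtain ⟨x, -, h⟩ := hAr z hz
    exact ⟨x, h⟩
  have nR : RU (sp Y) ∈ π.N := n_RU hg (n_sp hg nY)
  set E := π.val (enumN (RU (sp Y))) with hE
  have hEM : E ∈ sy.Ms π := val_Ms (π.enumN_mem nR) (hs_RU (sp_ctb Y))
  obtain ⟨s, hs, hs1, hs2⟩ := exists_sel hM hN hEM hA0 hx (by
      intro e he
      obtain ⟨j, h1, h2, rfl⟩ := π.mem_enum he
      exact ⟨_, _, rfl, π.hat_isOrdinal (ZFSet.isOrdinal_toZFSet _)⟩) (by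
      intro a b b' h1 h2
      exact enum_fn h1 h2) (by
      intro k
      have hε : (0 : ℝ) < 1 / ((k : ℝ) + 1) := by positivity
      set ε : ℝ := 1 / ((k : ℝ) + 1)
      obtain ⟨y, hy, hyx⟩ := hcl' (ε / 3) (by linarith)
      obtain ⟨lo, h1, h2⟩ := exists_between' (show y - ε / 3 < y by linarith)
      obtain ⟨hi, h3, h4⟩ := exists_between' (show y < y + ε / 3 by linarith)
      obtain ⟨σ, h5, h6, h7, h8⟩ := exists_limit hg hcl nY sY hY hN
        (fun s hs hs1 x hx hcv => hc s hs hs1 x trivial hx hcv) hy h2 h3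
      obtain ⟨a, ha⟩ := enum_ex nR h8
      refine ⟨a, rl σ, ha, h7, near_iff.2 ?_⟩
      change |σ - x| < ε
      rw [abs_lt] at hyx ⊢
      constructor <;> linarith)
  refine hc s hs hs1 x trivial hx ?_
  have h1 : ∀ k : ℕ, ∃ x, pair (nat k) (rl x) ∈ s := by
    intro k
    obtain ⟨w, hw, -⟩ := hs1.2 (nat k) (mem_omega_iff.2 ⟨k, rfl⟩)
    obtain ⟨x, rfl⟩ := hY w (ZFSet.pair_mem_prod.1 (hs1.1 hw)).2
    exact ⟨x, hw⟩
  choose y hy using h1
  refine ⟨y, hy, ?_⟩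
  rw [Metric.tendsto_atTop]
  intro ε hε
  obtain ⟨N, hN'⟩ := exists_nat_one_div_lt hε
  refine ⟨N, fun n hn => ?_⟩
  rw [Real.dist_eq]
  refine (near_iff.1 (hs2 _ _ (hy n))).trans_le ?_
  refine le_trans ?_ hN'.le
  exact one_div_le_one_div_of_le (by positivity) (by exact_mod_cast Nat.add_le_add_right hn 1)

end

end Pool.Agent.R596.SQ
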