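import Pool.Agent.R596.SqP

/-!
# A model in which the real line is sequential and the space of irrational numbers is not
-/

set_option autoImplicit false
set_option linter.all false

namespace Pool.Agent.R596.SQ

open Pool.Agent.W868 Pool.Agent.W868.PName Pool.Agent.R596.SY Pool.Agent.R596Sq
open ZFSet (pair)

theorem Bt_mono {j : ℕ} {τ : PName Cd} (a : Q) (p : Cd) (hp : p ∈ Bt j τ a) (q : Cd)
    (hq : q ≤ p) : q ∈ Bt j τ a := by
  obtain ⟨w, h1, h2, h3⟩ := hp
  exact ⟨w, h1, Fmem.mono h2 hq, h3.mono hq⟩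

theorem Bt_fix {j : ℕ} {τ : PName Cd} {U : Set I} (fτ : sy.Fix (Fx U) τ) (g : Gp)
    (hg : g ∈ Fx U) (a : Q) (p : Cd) : mc g p ∈ Bt j τ a ↔ p ∈ Bt j τ a := by
  have key : ∀ g ∈ Fx U, ∀ p, p ∈ Bt j τ a → mc g p ∈ Bt j τ a := by
    rintro g hg p ⟨w, h1, h2, h3⟩
    refine ⟨act (sy.ac g) w, sy.hs_act h1 g, ?_, h3.act g⟩
    have h4 := fmem_act' (e := sy.ac g) h2
    rw [act_opN (sy.top g), act_ck] at h4
    exact fmem_congr (Feq.refl _ _) (fτ g hg _) h4
  refine ⟨fun h => ?_, key g hg p⟩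
  have h1 := key g⁻¹ ((Fx U).inv_mem hg) _ h
  rwa [← mc_mul, inv_mul_cancel, mc_one] at h1

section

variable {π : Pkg Cd} (hg1 : ClR RR1 π) (hg2 : ClR RR2 π) (hcl : sy.Cld π)

include hg1 hg2 hcl

/-- The set is sequentially closed in the space of irrational numbers. -/
theorem closed_AN (nA : AN ∈ π.N) {s : ZFSet.{0}} (hs : s ∈ sy.Ms π)
    (hs1 : ZFSet.IsFunc ZFSet.omega (π.val AN) s) {x : ℝ} (hx : Irrational x)
    (hxM : rl x ∈ sy.Ms π) (hc : ConvTo s x) : rl x ∈ π.val AN := by
  classical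
  have hM := zf_Ms hcl
  have hAM : π.val AN ∈ sy.Ms π := val_Ms nA hs_AN
  obtain ⟨τ, ⟨nτ, sτ⟩, rfl⟩ := hs
  obtain ⟨f, hf, hlim⟩ := hc
  set U := sp τ with hU
  have cU : U.Countable := sp_ctb τ
  have hHU : Hul π U := n_sp hg1 nτ
  have hfA : ∀ j, rl (f j) ∈ π.val AN := fun j => (ZFSet.pair_mem_prod.1 (hs1.1 (hf j))).2
  have h1 : ∀ j, Irrational (f j) ∧ ∃ U : Set I, U.Countable ∧ Hul π U ∧ Xc π U (f j) := by
    intro j
    obtain ⟨y, hy, h2, h3⟩ := mem_AN hg2 (hfA j)
    rw [rl_injective hy]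
    exact ⟨h2, h3⟩
  have nzj : ∀ j, nb (Bt j τ) ∈ π.N := n_Bt hg2 nτ
  have hzj : ∀ j, π.val (nb (Bt j τ)) = rl (f j) := by
    intro j
    ext u
    rw [mem_nb Bt_mono, mem_rl]
    constructor
    · rintro ⟨a, rfl, k, hk⟩
      have h2 : ∃ w, sy.HS w ∧ Fmem (opN (check (nat j)) w) τ (π.g k) ∧ Fq w a (π.g k) := hk
      have nw : wch j a τ (π.g k) ∈ π.N := n_wch hg2 nτ j a k
      have h3 : sy.HS (wch j a τ (π.g k)) ∧
          Fmem (opN (check (nat j)) (wch j a τ (π.g k))) τ (π.g k) ∧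
          Fq (wch j a τ (π.g k)) a (π.g k) := by
        unfold wch
        rw [dif_pos h2]
        exact h2.choose_spec
      obtain ⟨-, h4, h5⟩ := h3
      have nj : (check (nat j) : PName Cd) ∈ π.N := π.nat_Z j
      have h6 := mem_of_fmem (π := π) (π.opN_mem nj nw) nτ le_rfl h4
      rw [π.val_opN nj nw] at h6
      have h7 : π.val (check (nat j)) = nat j := π.hat_nat j
      rw [h7] at h6
      obtain ⟨w', hw', huniq⟩ := hs1.2 (nat j) (mem_omega_iff.2 ⟨j, rfl⟩)
      have h8 : π.val (wch j a τ (π.g k)) = rl (f j) :=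
        (huniq _ h6).trans (huniq _ (hf j)).symm
      have h9 := (cod_mem_val nw).2 ⟨k, h5⟩
      rw [h8, cod_mem_rl] at h9
      exact ⟨a, rfl, h9⟩
    · rintro ⟨a, rfl, ha⟩
      obtain ⟨w, ⟨nw, sw⟩, hw⟩ := hM.trans _ hAM _ (hfA j)
      have nj : (check (nat j) : PName Cd) ∈ π.N := π.nat_Z j
      have h6 : π.val (opN (check (nat j)) w) ∈ π.val τ := by
        rw [π.val_opN nj nw, hw]
        have h7 : π.val (check (nat j)) = nat j := π.hat_nat j
        rw [h7]
        exact hf j
      obtain ⟨k, hk⟩ := (π.val_mem_iff (π.opN_mem nj nw) nτ).1 h6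
      obtain ⟨k', hk'⟩ := (cod_mem_val nw (a := a)).1 (by rwa [hw, cod_mem_rl])
      exact ⟨a, rfl, max k k', w, sw, Fmem.mono hk (π.g_le_left _ _),
        hk'.mono (π.g_le_right _ _)⟩
  have fzj : ∀ j, sy.Fix (Fx U) (nb (Bt j τ)) := fun j =>
    fix_nb fun g hg a p => Bt_fix (sp_fix sτ) g hg a p
  have h2 : ∀ j, Xc π U (f j) := by
    intro j
    obtain ⟨-, U', cU', hHU', hX⟩ := h1 j
    exact xc_supp hg2 (nzj j) (hzj j) cU hHU (fzj j) cU' hHU' hX
  have h3 : Xc π U x := by
    intro n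
    obtain ⟨w, h4, h5, J, hJ⟩ := lim_of hx hlim (fun j n => by
      obtain ⟨w, -, h4, h5, -⟩ := h2 j n
      exact ⟨w, h4, h5⟩) n
    obtain ⟨w', s', h6, h7, h8, h9⟩ := h2 J n
    have h10 : w' = w := h7.eq (hJ J le_rfl) (h6.trans h4.symm)
    subst h10
    exact ⟨w', s', h6, h5, h8, h9⟩
  obtain ⟨z, ⟨nz, sz⟩, hz⟩ := hxM
  exact in_AN hg2 nz sz hz cU hHU h3

omit hg1 in
/-- The limit point is not in the set. -/
theorem not_mem_AN (n0 : (check (rl (pt fun _ => 0)) : PName Cd) ∈ π.N) :
    rl (pt fun _ => 0) ∉ π.val AN := by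
  intro h
  obtain ⟨y, hy, -, U', cU', hHU', hX⟩ := mem_AN hg2 h
  rw [← rl_injective hy] at hX
  have h1 : π.val (check (rl (pt fun _ => 0))) = rl (pt fun _ => 0) := rl_fix π _
  have h2 := xc_supp hg2 n0 h1 Set.countable_empty (n_em hg2)
    (fun g _ p => by rw [act_ck]; exact Feq.refl _ _) cU' hHU' hX
  obtain ⟨w, s, h3, -, h4, h5⟩ := h2 1
  have h6 := h5.len
  rw [h3] at h6
  cases s with
  | nil => simp at h6
  | cons i s => exact (cons_LU.1 h4).1

omit hg1 in
/-- The limit point is in the closure. -/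
theorem closure_AN {ε : ℝ} (hε : 0 < ε) : ∃ y, rl y ∈ π.val AN ∧ |y - pt fun _ => 0| < ε := by
  classical
  obtain ⟨n, hn⟩ := exists_pow_lt_of_lt_one hε (show (1 / 2 : ℝ) < 1 by norm_num)
  obtain ⟨k, -, hk⟩ := gen_dense' π (n_Dz hg2 n) (m := 0) (by
    rintro r ⟨i, hi⟩ q hq
    exact ⟨i, fun m hm => cA_mono hq _ _ (hi m hm)⟩) (by
    intro q _
    obtain ⟨i, hi⟩ : ∃ i, i ∉ q.lt := by
      by_contra hcon
      push Not at hcon
      have : (Set.univ : Set I).Countable := q.lt_countable.mono fun i _ => hcon i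
      exact Set.not_countable_univ this
    have key : ∀ m, ∃ r ≤ q, (∀ m' < m, cA r (List.replicate (m' + 1) i) 0) ∧
        ∀ m' ≥ m, r.A (List.replicate (m' + 1) i) = Set.univ := by
      intro m
      induction m with
      | zero =>
        refine ⟨q, le_rfl, fun m' hm' => absurd hm' (Nat.not_lt_zero _), fun m' _ => ?_⟩
        by_contra hc
        exact hi ⟨_, hc, by simp⟩
      | succ m ih =>
        obtain ⟨r, h1, h2, h3⟩ := ih
        have h4 : ∀ t, (if t = List.replicate (m + 1) i then ({0} : Set ℕ) else r.A t) ⊆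
            r.A t := by
          intro t
          split_ifs with h
          · rw [h, h3 m le_rfl]
            exact Set.subset_univ _
          · exact subset_rfl
        refine ⟨⟨fun t => if t = List.replicate (m + 1) i then {0} else r.A t, fun t => ?_, ?_,
          ?_⟩, fun t => (h4 t).trans (h1 t), fun m' hm' => ?_, fun m' hm' => ?_⟩
        · split_ifs
          · exact Set.singleton_nonempty _
          · exact r.ne t
        · refine (r.Dec_fin.union (Set.finite_singleton (List.replicate (m + 1) i))).subset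
            fun t ht => ?_
          by_cases h : t = List.replicate (m + 1) i
          · exact Or.inr h
          · left
            change ((if t = List.replicate (m + 1) i then ({0} : Set ℕ) else r.A t))ᶜ.Infinite
              at ht
            rwa [if_neg h] at ht
        · refine (r.ctb.union (Set.countable_singleton (List.replicate (m + 1) i))).mono
            fun t ht => ?_
          by_cases h : t = List.replicate (m + 1) i
          · exact Or.inr h
          · left
            change (if t = List.replicate (m + 1) i then ({0} : Set ℕ) else r.A t) ≠ _ at ht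
            rwa [if_neg h] at ht
        · change (if List.replicate (m' + 1) i = List.replicate (m + 1) i then ({0} : Set ℕ)
            else r.A _) = _
          split_ifs with h
          · rfl
          · rcases Nat.lt_succ_iff_lt_or_eq.1 hm' with h5 | h5
            · exact h2 m' h5
            · exact absurd (by rw [h5]) h
        · change (if List.replicate (m' + 1) i = List.replicate (m + 1) i then ({0} : Set ℕ)
            else r.A _) = _
          rw [if_neg, h3 m' (by omega)]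
          intro h
          have := congrArg List.length h
          simp at this
          omega
    obtain ⟨r, h1, h2, -⟩ := key n
    exact ⟨r, h1, i, h2⟩)
  set i := ich n (π.g k) with hi
  have hi1 : ∀ m < n, cA (π.g k) (List.replicate (m + 1) i) 0 := by
    have h : ∃ i : I, ∀ m < n, cA (π.g k) (List.replicate (m + 1) i) 0 := hk
    rw [hi]
    unfold ich
    rw [dif_pos h]
    exact h.choose_spec
  have hHi : Hul π i := n_ich hg2 n k
  have h1 : ∀ m, ∃ κ, cG π (List.replicate (m + 1) i) κ := by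
    intro m
    obtain ⟨k', -, κ, hκ⟩ := gen_dense' π (n_lab hg2 hHi m) (m := 0) (by
      rintro r ⟨κ, h⟩ q hq
      exact ⟨κ, cA_mono hq _ _ h⟩) (by
      intro q _
      obtain ⟨κ, hκ⟩ := q.ne (List.replicate (m + 1) i)
      obtain ⟨r, h1, h2⟩ := exists_dec q _ hκ
      exact ⟨r, h1, κ, h2⟩)
    exact ⟨κ, k', hκ⟩
  choose x hx using h1
  have hx0 : ∀ m < n, x m = 0 := fun m hm => cG_uniq (hx m) ⟨k, hi1 m hm⟩
  -- the decided initial segments
  have hD1 : ∀ m, ∃ k, Di i (wx x m) (π.g k) := by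
    intro m
    induction m with
    | zero => exact ⟨0, trivial⟩
    | succ m ih =>
      obtain ⟨k1, h1⟩ := ih
      obtain ⟨k2, h2⟩ := hx m
      refine ⟨max k1 k2, ?_, Di_mono h1 (π.g_le_left _ _)⟩
      rw [wx_len]
      exact cA_mono (π.g_le_right _ _) _ _ h2
  have hD2 : ∀ w k, Di i w (π.g k) → w = wx x w.length := by
    intro w k
    induction w with
    | nil => exact fun _ => rfl
    | cons κ w ih =>
      rintro ⟨h1, h2⟩
      have h3 := ih h2
      change κ :: w = x w.length :: wx x w.length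
      rw [← h3, cG_uniq (hx w.length) ⟨k, h1⟩]
  have cI : ({i} : Set I).Countable := Set.countable_singleton i
  have hinv : ∀ g ∈ Fx {i}, ∀ (a : Q) p, mc g p ∈ {p | ∃ w, qv a < lw w ∧ Di i w p} ↔
      p ∈ {p | ∃ w, qv a < lw w ∧ Di i w p} := by
    intro g hg a p
    have h1 : ∀ w, Di i w (mc g p) ↔ Di i w p := by
      intro w
      induction w with
      | nil => exact Iff.rfl
      | cons κ w ih =>
        refine and_congr ?_ ih
        unfold cA
        rw [mc_A, inv_eq.2 (hg (List.replicate (w.length + 1) i) fun j hj =>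
          List.eq_of_mem_replicate hj)]
    simp only [Set.mem_setOf_eq, h1]
  have ny : yi i ∈ π.N := n_yi hg2 hHi
  have sy' : sy.HS (yi i) := hs_nb cI hinv
  have vy : π.val (yi i) = rl (pt x) := by
    ext u
    rw [yi, mem_nb (fun a p hp q hq => by
      obtain ⟨w, h1, h2⟩ := hp
      exact ⟨w, h1, Di_mono h2 hq⟩), mem_rl]
    constructor
    · rintro ⟨a, rfl, k', w, h1, h2⟩
      refine ⟨a, rfl, h1.trans ?_⟩
      rw [hD2 w k' h2]
      exact (inJ_pt x _).1
    · rintro ⟨a, rfl, h1⟩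
      obtain ⟨m, hm⟩ := exists_lw h1
      obtain ⟨k', hk'⟩ := hD1 m
      exact ⟨a, rfl, k', _, hm, hk'⟩
  have hBlo : ∀ m, Blo (cG π) (wx x m) (List.replicate m i) := by
    intro m
    induction m with
    | zero => trivial
    | succ m ih => exact ⟨⟨x m, le_rfl, hx m⟩, ih⟩
  refine ⟨pt x, in_AN hg2 ny sy' vy cI (n_si hg2 hHi) fun m => ⟨wx x m, List.replicate m i,
    wx_len x m, inJ_pt x m, fun j hj => List.eq_of_mem_replicate hj, hBlo m⟩, ?_⟩
  have h2 : wx x n = wx (fun _ => 0) n := wx_congr hx0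
  have h3 := (inJ_pt x n).dist (y' := pt fun _ => 0) (by rw [h2]; exact inJ_pt _ n)
  rw [wx_len] at h3
  refine h3.trans ?_
  rwa [one_div_pow] at hn

/-- The space of irrational numbers is not sequential. -/
theorem not_seq_P (nA : AN ∈ π.N) (n0 : (check (rl (pt fun _ => 0)) : PName Cd) ∈ π.N) :
    ¬ Sequential (sy.Ms π) {x | Irrational x} := by
  intro h
  refine not_mem_AN hg2 hcl n0 (h (π.val AN) (val_Ms nA hs_AN) ?_ ?_ (pt fun _ => 0) (irr_pt _)
    ?_ fun ε hε => closure_AN hg2 hcl hε)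
  · intro z hz
    obtain ⟨y, rfl, h1, -⟩ := mem_AN hg2 hz
    exact ⟨y, h1, rfl⟩
  · intro s hs hs1 x hx hxM hc
    exact closed_AN hg1 hg2 hcl nA hs hs1 hx hxM hc
  · have h1 : π.val (check (rl (pt fun _ => 0))) = rl (pt fun _ => 0) := rl_fix π _
    rw [← h1]
    exact val_Ms n0 (sy.hs_check _)

end

/-- The model. -/
theorem main : ∃ M : Set ZFSet.{0}, M.Countable ∧ IsZF M ∧ Sequential M Set.univ ∧
    ¬ Sequential M {x | Irrational x} := by
  obtain ⟨π, h1, -, h2⟩ := exists_pkg (sy.rules ∪ (RR1 ∪ RR2)) ((by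
    unfold Sys.rules
    exact (Set.toFinite _).countable : sy.rules.Countable).union
      (RR1_countable.union RR2_countable))
    {AN, check NR, check (rl (pt fun _ => 0))} (Set.toFinite _).countable (⊤ : Cd)
  have hcl : sy.Cld π := fun ρ hρ => h2 ρ (Or.inl hρ)
  have hg1 : ClR RR1 π := fun ρ hρ => h2 ρ (Or.inr (Or.inl hρ))
  have hg2 : ClR RR2 π := fun ρ hρ => h2 ρ (Or.inr (Or.inr hρ))
  have nA : AN ∈ π.N := h1 (by simp)
  have nR : (check NR : PName Cd) ∈ π.N := h1 (by simp)
  have n0 : (check (rl (pt fun _ => 0)) : PName Cd) ∈ π.N := h1 (by simp)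
  refine ⟨sy.Ms π, π.countable_W.mono fun x hx => Ms_W hx, zf_Ms hcl, seq_R hg1 hcl ?_,
    not_seq_P hg1 hg2 hcl nA n0⟩
  have h3 : π.val (check NR) = NR := NR_fix π
  rw [← h3]
  exact val_Ms nR (sy.hs_check _)

end Pool.Agent.R596.SQ
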