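import Pool.Agent.R596.SyT_ZF
import Pool.Agent.R596.SyT_TRU
import Pool.Agent.R596.SyT_SEP
import Pool.Agent.R596.SyHul
import Pool.Agent.W868.Inj
import Pool.Agent.W868.Base2

/-!
# Tools for names
-/

set_option autoImplicit false
set_option linter.all false

namespace Pool.Agent.R596.SY

open Pool.Agent.W868 Pool.Agent.W868.PName
open ZFSet (pair)

variable {P : Type} [Preorder P] [OrderTop P]

/-- The name of a set of names. -/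
def tn (T : Type) (x : T → PName P) : PName P := PName.mk T x fun _ => ⊤

theorem el_tn {T : Type} {x : T → PName P} {z : PName P} {c : P} :
    El (tn T x) z c ↔ ∃ t, z = x t ∧ c = ⊤ := by
  unfold tn
  rw [el_mk]
  constructor
  · rintro ⟨t, rfl, rfl⟩
    exact ⟨t, rfl, rfl⟩
  · rintro ⟨t, rfl, rfl⟩
    exact ⟨t, rfl, rfl⟩

theorem act_tn {e : P ≃o P} (he : e ⊤ = ⊤) {T : Type} {x : T → PName P} :
    act e (tn T x) = tn T fun t => act e (x t) := by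
  unfold tn
  rw [act]
  congr 1
  funext t
  exact he

theorem feq_tn {T T' : Type} {x : T → PName P} {x' : T' → PName P} {p : P}
    (h1 : ∀ t, ∃ t', Feq (x t) (x' t') p) (h2 : ∀ t', ∃ t, Feq (x t) (x' t') p) :
    Feq (tn T x) (tn T' x') p := by
  rw [feq_iff']
  constructor
  · intro a c ha q hq hqc
    obtain ⟨t, rfl, rfl⟩ := el_tn.1 ha
    obtain ⟨t', h⟩ := h1 t
    exact ⟨q, le_rfl, x' t', ⊤, el_tn.2 ⟨t', rfl, rfl⟩, le_top, h.mono hq⟩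
  · intro a c ha q hq hqc
    obtain ⟨t', rfl, rfl⟩ := el_tn.1 ha
    obtain ⟨t, h⟩ := h2 t'
    exact ⟨q, le_rfl, x t, ⊤, el_tn.2 ⟨t, rfl, rfl⟩, le_top, h.mono hq⟩

theorem fmem_tn {T : Type} {x : T → PName P} (t : T) {p : P} : Fmem (x t) (tn T x) p := by
  rw [fmem_iff]
  exact fun q hq => ⟨q, le_rfl, x t, ⊤, el_tn.2 ⟨t, rfl, rfl⟩, le_top, Feq.refl _ _⟩

theorem mem_tn {π : Pkg P} {T : Type} {x : T → PName P} {z : ZFSet.{0}} :
    z ∈ π.val (tn T x) ↔ ∃ t, x t ∈ π.N ∧ π.val (x t) = z := by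
  rw [π.mem_val]
  constructor
  · rintro ⟨y, hy, c, h1, -, rfl⟩
    obtain ⟨t, rfl, h2⟩ := el_tn.1 h1
    exact ⟨t, hy, rfl⟩
  · rintro ⟨t, h1, rfl⟩
    exact ⟨x t, h1, ⊤, el_tn.2 ⟨t, rfl, rfl⟩, ⟨0, le_top⟩, rfl⟩

/-- A name given by a family of names and sets of conditions. -/
def rn (T : Type) (x : T → PName P) (C : T → P → Prop) : PName P :=
  PName.mk {t : T × P // C t.1 t.2} (fun t => x t.1.1) (fun t => t.1.2)

section rn

variable {T : Type} {x : T → PName P} {C : T → P → Prop}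

theorem el_rn {z : PName P} {c : P} : El (rn T x C) z c ↔ ∃ t, z = x t ∧ C t c := by
  unfold rn
  rw [el_mk]
  constructor
  · rintro ⟨⟨⟨t, p⟩, h⟩, rfl, rfl⟩
    exact ⟨t, rfl, h⟩
  · rintro ⟨t, rfl, h⟩
    exact ⟨⟨(t, c), h⟩, rfl, rfl⟩

theorem feq_act_rn {C' : T → P → Prop} {e : P ≃o P} (hx : ∀ t, act e (x t) = x t)
    (hC : ∀ t c, C' t (e c) ↔ C t c) (p : P) :
    Feq (act e (rn T x C)) (rn T x C') p := by
  refine feq_of_el fun z c => ?_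
  rw [el_act]
  constructor
  · rintro ⟨z', c', h1, rfl, rfl⟩
    obtain ⟨t, rfl, h2⟩ := el_rn.1 h1
    exact el_rn.2 ⟨t, hx t, (hC t c').2 h2⟩
  · intro h1
    obtain ⟨t, rfl, h2⟩ := el_rn.1 h1
    refine ⟨x t, e⁻¹ c, el_rn.2 ⟨t, rfl, ?_⟩, (hx t).symm, ?_⟩
    · rw [← hC, app_inv]
      exact h2
    · rw [app_inv]

theorem fmem_rn {t : T} {p : P} (h : C t p) : Fmem (x t) (rn T x C) p := by
  rw [fmem_iff]
  exact fun q hq => ⟨q, le_rfl, x t, p, el_rn.2 ⟨t, rfl, h⟩, hq, Feq.refl _ _⟩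

theorem mem_rn {π : Pkg P} {z : ZFSet.{0}} (hC : ∀ t p q, q ≤ p → C t p → C t q) :
    z ∈ π.val (rn T x C) ↔ ∃ t, x t ∈ π.N ∧ (∃ k, C t (π.g k)) ∧ π.val (x t) = z := by
  rw [π.mem_val]
  constructor
  · rintro ⟨y, hy, c, h1, ⟨k, hk⟩, rfl⟩
    obtain ⟨t, rfl, h2⟩ := el_rn.1 h1
    exact ⟨t, hy, ⟨k, hC t _ _ hk h2⟩, rfl⟩
  · rintro ⟨t, h1, ⟨k, hk⟩, rfl⟩
    exact ⟨x t, h1, π.g k, el_rn.2 ⟨t, rfl, hk⟩, ⟨k, le_rfl⟩, rfl⟩

end rn

/-- A property that can be forced by extending any condition holds. -/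
theorem dens {S : Set (PName P)} {R : Pkg P → Prop}
    (h : NDfn S fun π (_ : Fin 0 → ZFSet.{0}) => R π)
    (hd : ∀ p : P, ∃ π' : Pkg P, S ⊆ π'.N ∧ (∃ m, π'.g m ≤ p) ∧ R π') (π : Pkg P)
    (hS : S ⊆ π.N) : R π := by
  by_contra hc
  obtain ⟨k, hk⟩ := forcing_theorem (R := fun π => ¬ R π) h.not π hS hc
  obtain ⟨π', h1, h2, h3⟩ := hd (π.g k)
  exact hk π' h1 h2 h3

/-- The package has the names and starts with the condition. -/
theorem pkg (A : Set (PName P)) (hA : A.Countable) (p : P) :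
    ∃ π : Pkg P, A ⊆ π.N ∧ π.g 0 = p ∧ ∀ k, π.g k ≤ p := by
  obtain ⟨π, h1, h2⟩ := exists_pkg' A hA p
  exact ⟨π, h1, h2, fun k => h2 ▸ π.g_anti (Nat.zero_le k)⟩

section Ms

variable {S : Sys P} {π : Pkg P}

theorem Ms_W {x : ZFSet.{0}} (h : x ∈ S.Ms π) : x ∈ π.W := by
  obtain ⟨a, ⟨ha, -⟩, rfl⟩ := h
  exact π.val_mem_W ha

theorem val_Ms {x : PName P} (h : x ∈ π.N) (h' : S.HS x) : π.val x ∈ S.Ms π :=
  ⟨x, ⟨h, h'⟩, rfl⟩

theorem zf_Ms (h : S.Cld π) : IsZF (S.Ms π) :=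
  T_ZF.main T_TRU.main T_SEP.main P S π h

theorem hs_tn {T : Type} {x : T → PName P} {H : Subgroup S.G} (hH : H ∈ S.F)
    (h : ∀ t, S.HS (x t)) (h' : ∀ g ∈ H, ∀ p, Feq (act (S.ac g) (tn T x)) (tn T x) p) :
    S.HS (tn T x) := by
  rw [Sys.hs_iff]
  refine ⟨⟨H, hH, h'⟩, fun z c hz => ?_⟩
  obtain ⟨t, rfl, -⟩ := el_tn.1 hz
  exact h t

theorem hs_rn {T : Type} {x : T → PName P} {C : T → P → Prop} {H : Subgroup S.G} (hH : H ∈ S.F)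
    (h : ∀ t, S.HS (x t)) (h' : ∀ g ∈ H, ∀ p, Feq (act (S.ac g) (rn T x C)) (rn T x C) p) :
    S.HS (rn T x C) := by
  rw [Sys.hs_iff]
  refine ⟨⟨H, hH, h'⟩, fun z c hz => ?_⟩
  obtain ⟨t, rfl, -⟩ := el_rn.1 hz
  exact h t

/-- Membership of values. -/
theorem mem_of_fmem {x y : PName P} (hx : x ∈ π.N) (hy : y ∈ π.N) {p : P} {m : ℕ}
    (hm : π.g m ≤ p) (h : Fmem x y p) : π.val x ∈ π.val y :=
  (π.val_mem_iff hx hy).2 ⟨m, h.mono hm⟩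

theorem eq_of_feq {x y : PName P} (hx : x ∈ π.N) (hy : y ∈ π.N) {p : P} {m : ℕ}
    (hm : π.g m ≤ p) (h : Feq x y p) : π.val x = π.val y :=
  (π.val_eq_iff hx hy).2 ⟨m, h.mono hm⟩

end Ms

end Pool.Agent.R596.SY
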