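import Pool.Agent.R596.SqDefs
import Pool.Agent.R596.SyTool
import Pool.Agent.R596.FcSep

/-!
# Real numbers in transitive models
-/

set_option autoImplicit false
set_option linter.all false

namespace Pool.Agent.R596.SQ

open Pool.Agent.W868 Pool.Agent.W868.PName Pool.Agent.R596.SY Pool.Agent.R596Sq
open ZFSet (pair)

theorem cod_inj {t t' : ℕ × ℕ × ℕ} : cod t = cod t' ↔ t = t' := by
  refine ⟨fun h => ?_, fun h => by rw [h]⟩
  obtain ⟨a, b, c⟩ := t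
  obtain ⟨a', b', c'⟩ := t'
  unfold cod at h
  rw [ZFSet.pair_inj, ZFSet.pair_inj] at h
  have h1 : a = a' := nat_injective h.1
  have h2 : b = b' := nat_injective h.2.1
  have h3 : c = c' := nat_injective h.2.2
  rw [h1, h2, h3]

theorem mem_rl {z : ZFSet.{0}} {x : ℝ} : z ∈ rl x ↔ ∃ t, z = cod t ∧ qv t < x := by
  unfold rl
  rw [ZFSet.mem_range]
  constructor
  · rintro ⟨⟨t, ht⟩, rfl⟩
    exact ⟨t, rfl, ht⟩
  · rintro ⟨t, rfl, ht⟩
    exact ⟨⟨t, ht⟩, rfl⟩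

theorem cod_mem_rl {t : ℕ × ℕ × ℕ} {x : ℝ} : cod t ∈ rl x ↔ qv t < x := by
  rw [mem_rl]
  constructor
  · rintro ⟨t', h, h'⟩
    rwa [cod_inj.1 h]
  · exact fun h => ⟨t, rfl, h⟩

/-- Every rational number has a code. -/
theorem exists_qv (r : ℚ) : ∃ t, qv t = r := by
  refine ⟨(r.num.toNat, (-r.num).toNat, r.den - 1), ?_⟩
  unfold qv
  dsimp only
  have h1 : ((r.num.toNat : ℝ) - ((-r.num).toNat : ℝ)) = r.num := by
    have h2 : ((r.num.toNat : ℤ) - ((-r.num).toNat : ℤ)) = r.num := by omega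
    exact_mod_cast h2
  have h3 : ((r.den - 1 : ℕ) : ℝ) + 1 = r.den := by
    have h4 : r.den - 1 + 1 = r.den := Nat.succ_pred_eq_of_pos r.pos
    exact_mod_cast h4
  rw [h1, h3]
  exact (Rat.cast_def r).symm

theorem exists_between' {x y : ℝ} (h : x < y) : ∃ t, x < qv t ∧ qv t < y := by
  obtain ⟨r, h1, h2⟩ := exists_rat_btwn h
  obtain ⟨t, ht⟩ := exists_qv r
  exact ⟨t, by rwa [ht], by rwa [ht]⟩

theorem rl_injective : Function.Injective rl := by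
  have key : ∀ x y : ℝ, x < y → rl x ≠ rl y := by
    intro x y h he
    obtain ⟨t, h1, h2⟩ := exists_between' h
    have h3 := cod_mem_rl.2 h2
    rw [← he, cod_mem_rl] at h3
    exact lt_asymm h1 h3
  intro x y h
  rcases lt_trichotomy x y with h1 | h1 | h1
  · exact absurd h (key x y h1)
  · exact h1
  · exact absurd h.symm (key y x h1)

/-- The set of nearby pairs of rational numbers. -/
noncomputable def NR : ZFSet.{0} :=
  ZFSet.range fun t : {t : (ℕ × ℕ × ℕ) × (ℕ × ℕ × ℕ) × ℕ // qv t.2.1 - qv t.1 < 1 / (t.2.2 + 1)} =>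
    pair (pair (cod t.1.1) (cod t.1.2.1)) (nat t.1.2.2)

/-- The real numbers `w` and `w'` are near. -/
def Near (w w' k : ZFSet.{0}) : Prop :=
  ∃ e ∈ NR, sn e = k ∧ fs (fs e) ∈ w ∧ fs (fs e) ∈ w' ∧ sn (fs e) ∉ w ∧ sn (fs e) ∉ w'

theorem near_iff {x y : ℝ} {k : ℕ} : Near (rl x) (rl y) (nat k) ↔ |x - y| < 1 / (k + 1) := by
  constructor
  · rintro ⟨e, he, h1, h2, h3, h4, h5⟩
    unfold NR at he
    rw [ZFSet.mem_range] at he
    obtain ⟨⟨⟨a, b, m⟩, hm⟩, rfl⟩ := he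
    simp only [fs_pair, sn_pair, cod_mem_rl] at h1 h2 h3 h4 h5
    have hk := nat_injective h1
    subst hk
    dsimp only at hm
    rw [abs_lt]
    constructor <;> linarith [not_lt.1 h4, not_lt.1 h5]
  · intro h
    obtain ⟨δ, hδ, h1⟩ : ∃ δ > 0, |x - y| + 2 * δ < 1 / ((k : ℝ) + 1) :=
      ⟨(1 / ((k : ℝ) + 1) - |x - y|) / 4, by linarith, by linarith⟩
    have h2 : max x y - min x y = |x - y| := max_sub_min_eq_abs' x y
    obtain ⟨a, ha1, ha2⟩ := exists_between' (show min x y - δ < min x y by linarith)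
    obtain ⟨b, hb1, hb2⟩ := exists_between' (show max x y < max x y + δ by linarith)
    refine ⟨pair (pair (cod a) (cod b)) (nat k), ?_, sn_pair _ _, ?_, ?_, ?_, ?_⟩
    · unfold NR
      rw [ZFSet.mem_range]
      exact ⟨⟨(a, b, k), by dsimp only; linarith⟩, rfl⟩
    · simp only [fs_pair, cod_mem_rl]
      exact ha2.trans_le (min_le_left _ _)
    · simp only [fs_pair, cod_mem_rl]
      exact ha2.trans_le (min_le_right _ _)
    · simp only [fs_pair, sn_pair, cod_mem_rl, not_lt]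
      exact (le_max_left _ _).trans hb1.le
    · simp only [fs_pair, sn_pair, cod_mem_rl, not_lt]
      exact (le_max_right _ _).trans hb1.le

section

variable {M : Set ZFSet.{0}} (hM : IsZF M) (hN : NR ∈ M)

include hM hN

theorem dfn_near {n : ℕ} {F G K : (Fin n → ZFSet.{0}) → ZFSet.{0}} (hF : DfnF M M F)
    (hG : DfnF M M G) (hK : DfnF M M K) : Dfn M M fun v => Near (F v) (G v) (K v) := by
  have h : Dfn M M fun w : Fin 3 → ZFSet.{0} => Near (w 0) (w 1) (w 2) := by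
    unfold Near
    refine hM.base.bex (DfnF.const hN) ?_
    have e1 : DfnF M M fun w : Fin 4 → ZFSet.{0} => fs (w 0) := hM.fs' (DfnF.proj 0)
    refine Dfn.and (Dfn.eq (hM.sn' (DfnF.proj 0)) (DfnF.proj 3)) (Dfn.and
      (Dfn.mem (hM.fs' e1) (DfnF.proj 1)) (Dfn.and (Dfn.mem (hM.fs' e1) (DfnF.proj 2)) (Dfn.and
      (Dfn.not (Dfn.mem (hM.sn' e1) (DfnF.proj 1)))
      (Dfn.not (Dfn.mem (hM.sn' e1) (DfnF.proj 2))))))
  exact Dfn.comp3 h hF hG hK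

/-- Choosing near points. -/
theorem exists_sel {E Y y : ZFSet.{0}} (hE : E ∈ M) (hY : Y ∈ M) (hy : y ∈ M)
    (h1 : ∀ e ∈ E, ∃ a b, e = pair a b ∧ a.IsOrdinal)
    (h2 : ∀ a b b', pair a b ∈ E → pair a b' ∈ E → b = b')
    (h3 : ∀ k, ∃ a w, pair a w ∈ E ∧ w ∈ Y ∧ Near w y (nat k)) :
    ∃ s ∈ M, ZFSet.IsFunc ZFSet.omega Y s ∧ ∀ k w, pair k w ∈ s → Near w y k := by
  have hd : Dfn M M fun w : Fin 2 → ZFSet.{0} => Near (w 1) y (w 0) ∧ ∃ e ∈ E, sn e = w 1 ∧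
      ∀ e' ∈ E, fs e' ∈ fs e → ¬ (sn e' ∈ Y ∧ Near (sn e') y (w 0)) := by
    refine Dfn.and (dfn_near hM hN (DfnF.proj 1) (DfnF.const hy) (DfnF.proj 0)) ?_
    refine hM.base.bex (DfnF.const hE) (Dfn.and (Dfn.eq (hM.sn' (DfnF.proj 0)) (DfnF.proj 2)) ?_)
    refine hM.base.ball (DfnF.const hE) (Dfn.imp (Dfn.mem (hM.fs' (DfnF.proj 0))
      (hM.fs' (DfnF.proj 1))) (Dfn.not (Dfn.and (Dfn.mem (hM.sn' (DfnF.proj 0))
      (DfnF.const hY)) ?_)))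
    exact dfn_near hM hN (hM.sn' (DfnF.proj 0)) (DfnF.const hy) (DfnF.proj 2)
  obtain ⟨s, hs, hs1, hs2⟩ := hM.rel_mem (x := ZFSet.omega) (y := Y) hM.infinity hY
    (Q := fun k w => Near w y k ∧ ∃ e ∈ E, sn e = w ∧
      ∀ e' ∈ E, fs e' ∈ fs e → ¬ (sn e' ∈ Y ∧ Near (sn e') y k)) hd
  refine ⟨s, hs, ⟨hs1, fun k hk => ?_⟩, fun k w h => ((hs2 k w).1 h).2.2.1⟩
  obtain ⟨k, rfl⟩ := mem_omega_iff.1 hk
  obtain ⟨a0, w0, h4⟩ := h3 k
  obtain ⟨a, ⟨w, h5, h6, h7⟩, h8⟩ := ZFSet.mem_wf.has_min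
    {a | ∃ w, pair a w ∈ E ∧ w ∈ Y ∧ Near w y (nat k)} ⟨a0, w0, h4⟩
  refine ⟨w, (hs2 _ _).2 ⟨hk, h6, h7, pair a w, h5, sn_pair _ _, ?_⟩, ?_⟩
  · intro e' he' h9 h10
    obtain ⟨a', w', rfl, ha'⟩ := h1 e' he'
    rw [fs_pair, fs_pair] at h9
    rw [sn_pair] at h10
    exact h8 a' ⟨w', he', h10⟩ h9
  · intro w' hw'
    obtain ⟨-, h9, h10, e, he, h11, h12⟩ := (hs2 _ _).1 hw'
    obtain ⟨a', b', rfl, ha'⟩ := h1 e he
    rw [sn_pair] at h11
    subst h11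
    have ha : a.IsOrdinal := by
      obtain ⟨c, d, h13, h14⟩ := h1 _ h5
      rwa [(ZFSet.pair_inj.1 h13).1]
    rw [fs_pair] at h12
    rcases ha.mem_trichotomous ha' with h13 | h13 | h13
    · have := h12 _ h5 (by rwa [fs_pair])
      rw [sn_pair] at this
      exact absurd ⟨h6, h7⟩ this
    · rw [h13] at h5
      exact h2 _ _ _ he h5
    · exact absurd h13 (h8 a' ⟨b', he, h9, h10⟩)

end

variable {P : Type} [Preorder P] [OrderTop P]

/-- Sets of fixed elements are fixed. -/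
theorem hat_fix {π : Pkg P} {x : ZFSet.{0}} (h : ∀ y ∈ x, y ∈ π.Z ∧ π.hat y = y) :
    π.hat x = x := by
  ext z
  rw [π.mem_hat]
  constructor
  · rintro ⟨y, hy, -, rfl⟩
    rwa [(h y hy).2]
  · exact fun hz => ⟨z, hz, h z hz⟩

theorem cod_fix (π : Pkg P) (t : ℕ × ℕ × ℕ) : cod t ∈ π.Z ∧ π.hat (cod t) = cod t := by
  have h1 := π.pair_mem_Z (π.nat_Z t.2.1) (π.nat_Z t.2.2)
  refine ⟨π.pair_mem_Z (π.nat_Z t.1) h1, ?_⟩
  unfold cod
  rw [π.hat_pair (π.nat_Z _) h1, π.hat_pair (π.nat_Z _) (π.nat_Z _), π.hat_nat, π.hat_nat,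
    π.hat_nat]

theorem rl_fix (π : Pkg P) (x : ℝ) : π.hat (rl x) = rl x := by
  refine hat_fix fun y hy => ?_
  obtain ⟨t, rfl, -⟩ := mem_rl.1 hy
  exact cod_fix π t

theorem NR_fix (π : Pkg P) : π.hat NR = NR := by
  refine hat_fix fun y hy => ?_
  unfold NR at hy
  rw [ZFSet.mem_range] at hy
  obtain ⟨⟨⟨a, b, m⟩, hm⟩, rfl⟩ := hy
  have h1 := cod_fix π a
  have h2 := cod_fix π b
  have h3 := π.pair_mem_Z h1.1 h2.1
  refine ⟨π.pair_mem_Z h3 (π.nat_Z m), ?_⟩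
  rw [π.hat_pair h3 (π.nat_Z m), π.hat_pair h1.1 h2.1, h1.2, h2.2, π.hat_nat]

theorem cod_N (π : Pkg P) (t : ℕ × ℕ × ℕ) : (check (cod t) : PName P) ∈ π.N := (cod_fix π t).1

theorem val_cod (π : Pkg P) (t : ℕ × ℕ × ℕ) : π.val (check (cod t)) = cod t := (cod_fix π t).2

end Pool.Agent.R596.SQ
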