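import Pool.Agent.R596.SqCore
import Pool.Agent.R596.SqReal
import Pool.Agent.R596.FcNam

/-!
# Labelled trees: names and rules
-/

set_option autoImplicit false
set_option linter.all false

namespace Pool.Agent.R596.SY

open Pool.Agent.W868 Pool.Agent.W868.PName
open ZFSet (pair)

variable {P : Type} [Preorder P] [OrderTop P]

open Classical in
/-- The rule given by an operation on an object, a name and a condition. -/
noncomputable def r3 {α : Type} (F : α → PName P → P → PName P) : Rule P := fun q => match q with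
  | ⟨_, .mem s t, v, p⟩ =>
    if h : ∃ a : α, tv v s = check (cd a) then (F h.choose (tv v t) p, p) else (emp, p)
  | q => (emp, q.p)

theorem r3_mem {R : Set (Rule P)} {π : Pkg P} (hR : ClR R π) {α : Type}
    {F : α → PName P → P → PName P} (hF : r3 F ∈ R) {a : α} (ha : Hul π a) {x : PName P}
    (hx : x ∈ π.N) (k : ℕ) : F a x (π.g k) ∈ π.N := by
  have h1 := (hR _ hF _ (query2 ha hx (π.gC k))).1
  have h2 : ∃ b : α, tv (Fin.elim0 : Fin 0 → PName P) (Sum.inr (check (cd a))) = check (cd b) :=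
    ⟨a, rfl⟩
  unfold r3 at h1
  simp only [dif_pos h2] at h1
  have h3 : a = h2.choose := check_cd_injective (P := P) h2.choose_spec
  rw [← h3] at h1
  exact h1

end Pool.Agent.R596.SY

namespace Pool.Agent.R596.SQ

open Pool.Agent.W868 Pool.Agent.W868.PName Pool.Agent.R596.SY Pool.Agent.R596Sq
open ZFSet (pair)

open Classical in
/-- A support. -/
noncomputable def sp (x : PName Cd) : Set I :=
  if h : ∃ U : Set I, U.Countable ∧ sy.Fix (Fx U) x then h.choose else ∅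

theorem sp_ctb (x : PName Cd) : (sp x).Countable := by
  unfold sp
  split_ifs with h
  · exact h.choose_spec.1
  · exact Set.countable_empty

theorem sp_fix {x : PName Cd} (hx : sy.HS x) : sy.Fix (Fx (sp x)) x := by
  obtain ⟨_, ⟨U, hU, rfl⟩, h⟩ := hx.sym
  have h1 : ∃ U : Set I, U.Countable ∧ sy.Fix (Fx U) x := ⟨U, hU, h⟩
  unfold sp
  rw [dif_pos h1]
  exact h1.choose_spec.2

/-- The name of a set of rational numbers. -/
noncomputable def nb (B : Q → Set Cd) : PName Cd := rn Q (fun a => check (cod a)) fun a p => p ∈ B a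

theorem mem_nb {π : Pkg Cd} {B : Q → Set Cd} (hB : ∀ a, ∀ p ∈ B a, ∀ q ≤ p, q ∈ B a)
    {z : ZFSet.{0}} : z ∈ π.val (nb B) ↔ ∃ a, z = cod a ∧ ∃ k, π.g k ∈ B a := by
  unfold nb
  rw [mem_rn fun t p q hq h => hB t p h q hq]
  constructor
  · rintro ⟨a, h1, h2, rfl⟩
    exact ⟨a, val_cod π a, h2⟩
  · rintro ⟨a, rfl, h⟩
    exact ⟨a, cod_N π a, h, val_cod π a⟩

theorem fix_nb {U : Set I} {B : Q → Set Cd} (h : ∀ g ∈ Fx U, ∀ a p, mc g p ∈ B a ↔ p ∈ B a) :
    sy.Fix (Fx U) (nb B) := by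
  intro g hg p
  exact feq_act_rn (fun a => act_ck g _) (fun a c => h g hg a c) p

theorem hs_nb {U : Set I} (hU : U.Countable) {B : Q → Set Cd}
    (h : ∀ g ∈ Fx U, ∀ a p, mc g p ∈ B a ↔ p ∈ B a) : sy.HS (nb B) :=
  hs_rn (Fx_mem hU) (fun a => sy.hs_check _) (fix_nb h)

/-- The name of the set of the sets of rational numbers with names supported by `U`. -/
noncomputable def RU (U : Set I) : PName Cd :=
  tn {B : Q → Set Cd // ∀ g ∈ Fx U, ∀ a p, mc g p ∈ B a ↔ p ∈ B a} fun B => nb B.1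

theorem hs_RU {U : Set I} (hU : U.Countable) : sy.HS (enumN (RU U)) :=
  hs_enum (Fx_mem hU) (fun B => hs_nb hU B.2) fun B => fix_nb B.2

/-- What is required of the first condition. -/
structure Pr (lo hi : Q) (z Y : PName Cd) (r : Cd) : Prop where
  full : Full r
  lo : Fq z lo r
  hi : ∀ t ≤ r, ∀ b, qv hi ≤ qv b → ¬ Fq z b t
  mem : Fmem z Y r

/-- The nodes that occur. -/
def Wo (o : Cd × Set I) (z : PName Cd) : Set I := o.2 ∪ sp z ∪ o.1.lt

/-- The conditions below the copies. -/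
def Dc (o : Cd × Set I) (z : PName Cd) : Set Cd :=
  {q | ∃ f : ℕ → Gp, Cp (ee o.2 o.1) (Wo o z) f ∧ ∀ j, q ≤ mc (f j) o.1}

open Classical in
/-- Choice of a condition. -/
noncomputable def pch (lo hi : Q) (z Y : PName Cd) (p : Cd) : Cd :=
  if h : ∃ r, p ≤ r ∧ Pr lo hi z Y r then h.choose else ⊤

open Classical in
/-- Choice of the copies. -/
noncomputable def fch (o : Cd × Set I) (z : PName Cd) (q : Cd) : ℕ → Gp :=
  if h : ∃ f : ℕ → Gp, Cp (ee o.2 o.1) (Wo o z) f ∧ ∀ j, q ≤ mc (f j) o.1 then h.choose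
  else fun _ => 1

/-- The name of the sequence of the copies. -/
noncomputable def sq (f : ℕ → Gp) (z : PName Cd) : PName Cd :=
  tn ℕ fun j => opN (check (nat j)) (act (sy.ac (f j)) z)

/-- The rules for the real line. -/
noncomputable def RR1 : Set (Rule Cd) :=
  (Set.range fun t : Q × Q => rr2 fun z Y p => check (cd (pch t.1 t.2 z Y p))) ∪
  (Set.range fun t : Q × Q => rr2 fun z Y _ =>
    Sys.nm Cd {p | ∃ r, p ≤ r ∧ Pr t.1 t.2 z Y r}) ∪
  (Set.range fun hi : Q => r0 fun z _ =>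
    Sys.nm Cd {p | (∃ b, qv hi ≤ qv b ∧ Fq z b p) ∨ ∀ t ≤ p, ∀ b, qv hi ≤ qv b → ¬ Fq z b t}) ∪
  {r0 fun Y _ => check (cd (sp Y)), r2 fun (p : Cd) (U : Set I) _ => check (cd (p, U)),
    r3 fun (o : Cd × Set I) z _ => Sys.nm Cd (Dc o z),
    r3 fun (o : Cd × Set I) z q => check (cd (fch o z q)),
    r3 fun (f : ℕ → Gp) z _ => sq f z,
    r3 fun (o : Cd × Set I) z _ => nb (Ss o.2 o.1 z),
    r1 fun (U : Set I) _ => RU U} ∪
  (Set.range fun a : Q => r3 fun (f : ℕ → Gp) z _ =>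
    Sys.nm Cd {q | ∃ J, ∀ j ≥ J, Fq (act (sy.ac (f j)) z) a q}) ∪
  (Set.range fun a : Q => r3 fun (o : Cd × Set I) z _ => Sys.nm Cd (Ss o.2 o.1 z a)) ∪
  (Set.range fun t : Q × ℕ => r3 fun (f : ℕ → Gp) z _ =>
    Sys.nm Cd {q | ∃ j ≥ t.2, ∀ r ≤ q, ¬ Fq (act (sy.ac (f j)) z) t.1 r}) ∪
  (Set.range fun j : ℕ => r3 fun (f : ℕ → Gp) z _ => act (sy.ac (f j)) z)

theorem RR1_countable : RR1.Countable := by
  unfold RR1
  refine (((((((Set.countable_range _).union (Set.countable_range _)).union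
    (Set.countable_range _)).union ?_).union (Set.countable_range _)).union
    (Set.countable_range _)).union (Set.countable_range _)).union (Set.countable_range _)
  exact Set.Finite.countable (by simp)

section

variable {π : Pkg Cd} (hg : ClR RR1 π)

include hg

theorem n_pch {lo hi : Q} {z Y : PName Cd} (hz : z ∈ π.N) (hY : Y ∈ π.N) (k : ℕ) :
    Hul π (pch lo hi z Y (π.g k)) :=
  rr2_mem (F := fun z Y p => check (cd (pch lo hi z Y p))) hg
    (by left; left; left; left; left; left; left; exact ⟨(lo, hi), rfl⟩) hz hY k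

theorem n_Pr {lo hi : Q} {z Y : PName Cd} (hz : z ∈ π.N) (hY : Y ∈ π.N) :
    Sys.nm Cd {p | ∃ r, p ≤ r ∧ Pr lo hi z Y r} ∈ π.N :=
  rr2_mem (F := fun z Y _ => Sys.nm Cd {p | ∃ r, p ≤ r ∧ Pr lo hi z Y r}) hg
    (by left; left; left; left; left; left; right; exact ⟨(lo, hi), rfl⟩) hz hY 0

theorem n_hi {hi : Q} {z : PName Cd} (hz : z ∈ π.N) : Sys.nm Cd
    {p | (∃ b, qv hi ≤ qv b ∧ Fq z b p) ∨ ∀ t ≤ p, ∀ b, qv hi ≤ qv b → ¬ Fq z b t} ∈ π.N :=
  r0_mem (F := fun z _ => Sys.nm Cd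
    {p | (∃ b, qv hi ≤ qv b ∧ Fq z b p) ∨ ∀ t ≤ p, ∀ b, qv hi ≤ qv b → ¬ Fq z b t}) hg
    (by left; left; left; left; left; right; exact ⟨hi, rfl⟩) hz 0

theorem n_sp {Y : PName Cd} (hY : Y ∈ π.N) : Hul π (sp Y) :=
  r0_mem (F := fun Y _ => check (cd (sp Y))) hg
    (by left; left; left; left; right; left; rfl) hY 0

theorem n_pr {p : Cd} {U : Set I} (hp : Hul π p) (hU : Hul π U) : Hul π (p, U) :=
  r2_mem (F := fun (p : Cd) (U : Set I) _ => check (cd (p, U))) hg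
    (by left; left; left; left; right; right; left; rfl) hp hU 0

theorem n_Dc {o : Cd × Set I} {z : PName Cd} (ho : Hul π o) (hz : z ∈ π.N) :
    Sys.nm Cd (Dc o z) ∈ π.N :=
  r3_mem (F := fun (o : Cd × Set I) z _ => Sys.nm Cd (Dc o z)) hg
    (by left; left; left; left; right; right; right; left; rfl) ho hz 0

theorem n_fch {o : Cd × Set I} {z : PName Cd} (ho : Hul π o) (hz : z ∈ π.N) (k : ℕ) :
    Hul π (fch o z (π.g k)) :=
  r3_mem (F := fun (o : Cd × Set I) z q => check (cd (fch o z q))) hg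
    (by left; left; left; left; right; right; right; right; left; rfl) ho hz k

theorem n_sq {f : ℕ → Gp} {z : PName Cd} (hf : Hul π f) (hz : z ∈ π.N) : sq f z ∈ π.N :=
  r3_mem (F := fun (f : ℕ → Gp) z _ => sq f z) hg
    (by left; left; left; left; right; right; right; right; right; left; rfl) hf hz 0

theorem n_lim {o : Cd × Set I} {z : PName Cd} (ho : Hul π o) (hz : z ∈ π.N) :
    nb (Ss o.2 o.1 z) ∈ π.N :=
  r3_mem (F := fun (o : Cd × Set I) z _ => nb (Ss o.2 o.1 z)) hg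
    (by left; left; left; left; right; right; right; right; right; right; left; rfl) ho hz 0

theorem n_RU {U : Set I} (hU : Hul π U) : RU U ∈ π.N :=
  r1_mem (F := fun (U : Set I) _ => RU U) hg
    (by left; left; left; left; right; right; right; right; right; right; right; rfl) hU 0

theorem n_ab {f : ℕ → Gp} {z : PName Cd} (hf : Hul π f) (hz : z ∈ π.N) (a : Q) :
    Sys.nm Cd {q | ∃ J, ∀ j ≥ J, Fq (act (sy.ac (f j)) z) a q} ∈ π.N :=
  r3_mem (F := fun (f : ℕ → Gp) z _ => Sys.nm Cd {q | ∃ J, ∀ j ≥ J,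
    Fq (act (sy.ac (f j)) z) a q}) hg (by left; left; left; right; exact ⟨a, rfl⟩) hf hz 0

theorem n_Ss {o : Cd × Set I} {z : PName Cd} (ho : Hul π o) (hz : z ∈ π.N) (a : Q) :
    Sys.nm Cd (Ss o.2 o.1 z a) ∈ π.N :=
  r3_mem (F := fun (o : Cd × Set I) z _ => Sys.nm Cd (Ss o.2 o.1 z a)) hg
    (by left; left; right; exact ⟨a, rfl⟩) ho hz 0

theorem n_be {f : ℕ → Gp} {z : PName Cd} (hf : Hul π f) (hz : z ∈ π.N) (b : Q) (J : ℕ) :
    Sys.nm Cd {q | ∃ j ≥ J, ∀ r ≤ q, ¬ Fq (act (sy.ac (f j)) z) b r} ∈ π.N :=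
  r3_mem (F := fun (f : ℕ → Gp) z _ => Sys.nm Cd {q | ∃ j ≥ J, ∀ r ≤ q,
    ¬ Fq (act (sy.ac (f j)) z) b r}) hg (by left; right; exact ⟨(b, J), rfl⟩) hf hz 0

theorem n_cp {f : ℕ → Gp} {z : PName Cd} (hf : Hul π f) (hz : z ∈ π.N) (j : ℕ) :
    act (sy.ac (f j)) z ∈ π.N :=
  r3_mem (F := fun (f : ℕ → Gp) z _ => act (sy.ac (f j)) z) hg
    (by right; exact ⟨j, rfl⟩) hf hz 0

end

end Pool.Agent.R596.SQ
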