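import Pool.Agent.R596.SqRul

/-!
# The space of irrational numbers is not sequential in the model
-/

set_option autoImplicit false
set_option linter.all false

namespace Pool.Agent.R596.SQ

open Pool.Agent.W868 Pool.Agent.W868.PName Pool.Agent.R596.SY Pool.Agent.R596Sq
open ZFSet (pair)

theorem ne_qv {y : ℝ} (hy : Irrational y) (a : Q) : qv a ≠ y := by
  rintro rfl
  apply hy
  refine ⟨((a.1 : ℚ) - a.2.1) / (a.2.2 + 1), ?_⟩
  unfold qv
  push_cast
  rfl

/-- A condition can be extended so that the label is decided. -/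
theorem exists_dec (p : Cd) (s : T) {k : ℕ} (hk : k ∈ p.A s) : ∃ q ≤ p, cA q s k := by
  classical
  have h1 : ∀ t, (if t = s then ({k} : Set ℕ) else p.A t) ⊆ p.A t := by
    intro t
    split_ifs with h
    · subst h
      exact Set.singleton_subset_iff.2 hk
    · exact subset_rfl
  refine ⟨⟨fun t => if t = s then {k} else p.A t, fun t => ?_, ?_, ?_⟩, h1, if_pos rfl⟩
  · split_ifs
    · exact Set.singleton_nonempty _
    · exact p.ne t
  · refine (p.Dec_fin.union (Set.finite_singleton s)).subset fun t ht => ?_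
    by_cases h : t = s
    · exact Or.inr h
    · left
      change ((if t = s then ({k} : Set ℕ) else p.A t))ᶜ.Infinite at ht
      rwa [if_neg h] at ht
  · refine (p.ctb.union (Set.countable_singleton s)).mono fun t ht => ?_
    by_cases h : t = s
    · exact Or.inr h
    · left
      change (if t = s then ({k} : Set ℕ) else p.A t) ≠ _ at ht
      rwa [if_neg h] at ht

theorem Ew_res {U : Set I} (hU : U.Countable) {z : PName Cd} (hz : sy.Fix (Fx U) z) {w : List ℕ}
    {r : Cd} (h : r ∈ Ew w z) : r.res (LU U) ∈ Ew w z := by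
  obtain ⟨⟨a, h1, h2⟩, h3⟩ := h
  refine ⟨⟨a, h1, h2.res hU hz⟩, fun t ht => ?_⟩
  rintro ⟨b, h4, h5⟩
  have h6 : ∀ s, (r.A s ∩ (t.res (LU U)).A s).Nonempty := by
    intro s
    by_cases hs : s ∈ LU U
    · rw [Cd.res_in hs]
      obtain ⟨k, hk⟩ := t.ne s
      have h7 := ht s hk
      rw [Cd.res_in hs] at h7
      exact ⟨k, h7, hk⟩
    · rw [Cd.res_out hs, Set.inter_univ]
      exact r.ne s
  exact h3 _ (Cd.mt_left h6) ⟨b, h4, (h5.res hU hz).mono (Cd.mt_right h6)⟩

section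

variable {π : Pkg Cd} (hg : ClR RR2 π) (hcl : sy.Cld π)

include hg

theorem ew_iff {z : PName Cd} (nz : z ∈ π.N) {y : ℝ} (hz : π.val z = rl y) {w : List ℕ} :
    (∃ k, π.g k ∈ Ew w z) ↔ InJ w y := by
  constructor
  · rintro ⟨k, ⟨a, h1, h2⟩, h3⟩
    refine ⟨?_, ?_⟩
    · have h4 := (cod_mem_val nz).2 ⟨k, h2⟩
      rw [hz, cod_mem_rl] at h4
      exact h1.trans_lt h4
    · by_contra hcon
      obtain ⟨b, h4, h5⟩ := exists_between' (not_le.1 hcon)
      have h6 : cod b ∈ π.val z := by rwa [hz, cod_mem_rl]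
      obtain ⟨k', h7⟩ := (cod_mem_val nz).1 h6
      exact h3 _ (π.g_le_left k k') ⟨b, h4.le, h7.mono (π.g_le_right k k')⟩
  · rintro ⟨h1, h2⟩
    obtain ⟨a, h3, h4⟩ := exists_between' h1
    obtain ⟨k, hk⟩ := (cod_mem_val nz (a := a)).1 (by rwa [hz, cod_mem_rl])
    obtain ⟨k', -, hk'⟩ := gen_dense' π (n_Bp hg nz w) (m := 0) (by
      rintro r (h | h) q hq
      · exact Or.inl (Bp_mono h hq)
      · exact Or.inr fun t ht => h t (ht.trans hq)) (by
      intro q _
      by_cases h : ∃ t ≤ q, t ∈ Bp z (uw w)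
      · obtain ⟨t, ht, h⟩ := h
        exact ⟨t, ht, Or.inl h⟩
      · push Not at h
        exact ⟨q, le_rfl, Or.inr h⟩)
    rcases hk' with ⟨b, h5, h6⟩ | h5
    · have h7 := (cod_mem_val nz).2 ⟨k', h6⟩
      rw [hz, cod_mem_rl] at h7
      linarith
    · exact ⟨max k k', ⟨a, h3.le, hk.mono (π.g_le_left _ _)⟩,
        fun t ht => h5 t (ht.trans (π.g_le_right _ _))⟩

/-- The elements of the set. -/
theorem mem_AN {w : ZFSet.{0}} (hw : w ∈ π.val AN) : ∃ y, w = rl y ∧ Irrational y ∧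
    ∃ U : Set I, U.Countable ∧ Hul π U ∧ Xc π U y := by
  classical
  rw [AN, mem_rn (by
    rintro B p q hq ⟨U, hU, h⟩
    exact ⟨U, hU, Cc_mono h hq⟩)] at hw
  obtain ⟨B, nz, ⟨k, hk⟩, rfl⟩ := hw
  set z := nb B.1 with hz
  set U := Uch z (π.g k) with hU
  have hU1 : U.Countable ∧ π.g k ∈ Cc U z := by
    have h : ∃ U : Set I, U.Countable ∧ π.g k ∈ Cc U z := hk
    rw [hU]
    unfold Uch
    rw [dif_pos h]
    exact h.choose_spec
  obtain ⟨cU, hC⟩ := hU1
  have hHU : Hul π U := n_Uch hg nz k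
  have h1 : ∀ n, ∃ m, π.g m ∈ Cn U z n := by
    intro n
    obtain ⟨m, -, hm⟩ := gen_dense' π (n_Cn hg hHU nz n) (m := k) (fun r hr q hq => Cn_mono hr hq)
      fun q hq => hC n q hq
    exact ⟨m, hm⟩
  choose m hm using h1
  choose w s h1 h2 h3 h4 using hm
  have hmem : ∀ a, cod a ∈ π.val z ↔ ∃ k, π.g k ∈ B.1 a := by
    intro a
    rw [hz, mem_nb B.2.1]
    constructor
    · rintro ⟨a', ha, h⟩
      rwa [cod_inj.1 ha]
    · exact fun h => ⟨a, rfl, h⟩
  let Sg : Set Q := {a | cod a ∈ π.val z}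
  have hdown : ∀ a b, qv a ≤ qv b → b ∈ Sg → a ∈ Sg := by
    intro a b hab hb
    obtain ⟨k, hk⟩ := (hmem b).1 hb
    exact (hmem a).2 ⟨k, B.2.2.1 a b hab hk⟩
  have hlow : ∀ n, ∃ a ∈ Sg, lw (w n) ≤ qv a := by
    intro n
    obtain ⟨a, h5, h6⟩ := (h3 n).1
    exact ⟨a, (cod_mem_val nz).2 ⟨_, h6⟩, h5⟩
  have hupp : ∀ n, ∀ a ∈ Sg, qv a < uw (w n) := by
    intro n a ha
    by_contra hcon
    obtain ⟨k', h5⟩ := (cod_mem_val nz).1 ha
    exact (h3 n).2 _ (π.g_le_left (m n) k') ⟨a, not_lt.1 hcon, h5.mono (π.g_le_right _ _)⟩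
  have hov : ∀ n n', lw (w n) < uw (w n') := by
    intro n n'
    obtain ⟨a, h5, h6⟩ := hlow n
    exact h6.trans_lt (hupp n' a h5)
  have hsuc : ∀ n, lw (w n) < lw (w (n + 1)) := by
    intro n
    cases h5 : w (n + 1) with
    | nil =>
      have := h1 (n + 1)
      rw [h5] at this
      simp at this
    | cons κ v =>
      have h6 : v = w n := by
        refine ov ?_ ?_ ?_
        · have := h1 (n + 1)
          rw [h5] at this
          rw [h1 n]
          simpa using this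
        · refine (lw_lt_cons κ v).trans ?_
          rw [← h5]
          exact hov _ _
        · refine (hov n (n + 1)).trans_le ?_
          rw [h5]
          exact uw_cons_le κ v
      rw [← h6]
      exact lw_lt_cons κ v
  have hne : (qv '' Sg).Nonempty := by
    obtain ⟨a, ha, -⟩ := hlow 0
    exact ⟨_, a, ha, rfl⟩
  have hbd : BddAbove (qv '' Sg) := ⟨uw (w 0), by
    rintro _ ⟨a, ha, rfl⟩
    exact (hupp 0 a ha).le⟩
  set y := sSup (qv '' Sg) with hy
  have hIn : ∀ n, InJ (w n) y := by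
    intro n
    refine ⟨?_, csSup_le hne ?_⟩
    · obtain ⟨a, ha, h5⟩ := hlow (n + 1)
      exact (hsuc n).trans_le (h5.trans (le_csSup hbd ⟨a, ha, rfl⟩))
    · rintro _ ⟨a, ha, rfl⟩
      exact (hupp n a ha).le
  have hirr : Irrational y := irr_of fun n => ⟨w n, h1 n, hIn n⟩
  refine ⟨y, ?_, hirr, U, cU, hHU, fun n => ⟨w n, s n, h1 n, hIn n, h2 n,
    (h4 n).mono fun s k h => ⟨m n, h⟩⟩⟩
  ext u
  rw [mem_rl]
  constructor
  · intro hu
    obtain ⟨a, rfl, h5⟩ := (mem_nb B.2.1).1 hu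
    exact ⟨a, rfl, lt_of_le_of_ne (le_csSup hbd ⟨a, hu, rfl⟩) (ne_qv hirr a)⟩
  · rintro ⟨a, rfl, h5⟩
    obtain ⟨_, ⟨b, hb, rfl⟩, h6⟩ := exists_lt_of_lt_csSup hne h5
    exact hdown a b h6.le hb

/-- Real numbers with the property are in the set. -/
theorem in_AN {z : PName Cd} (nz : z ∈ π.N) (sz : sy.HS z) {y : ℝ} (hz : π.val z = rl y)
    {U : Set I} (cU : U.Countable) (hU : Hul π U) (hX : Xc π U y) : rl y ∈ π.val AN := by
  obtain ⟨k, -, hk⟩ := gen_dense' π (n_Dd hg hU nz) (m := 0) (by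
    rintro r (h | ⟨n, h⟩) q hq
    · exact Or.inl (Cc_mono h hq)
    · exact Or.inr ⟨n, fun t ht => h t (ht.trans hq)⟩) (by
    intro q _
    by_cases h : q ∈ Cc U z
    · exact ⟨q, le_rfl, Or.inl h⟩
    · unfold Cc at h
      rw [Set.mem_setOf_eq] at h
      push Not at h
      obtain ⟨n, r, h1, h2⟩ := h
      exact ⟨r, h1, Or.inr ⟨n, h2⟩⟩)
  have hk2 : π.g k ∈ Cc U z := by
    rcases hk with h | ⟨n, h⟩
    · exact h
    · exfalso
      obtain ⟨w, s, h1, h2, h3, h4⟩ := hX n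
      obtain ⟨k1, hk1⟩ := (ew_iff hg nz hz).2 h2
      obtain ⟨k2, hk2⟩ := h4.dec
      refine h (π.g (max k (max k1 k2))) (π.g_le_left _ _) ⟨w, s, h1, h3, ?_, ?_⟩
      · exact Ew_mono hk1 (π.g_anti ((le_max_left _ _).trans (le_max_right _ _)))
      · exact hk2.mono (cA_mono (π.g_anti ((le_max_right _ _).trans (le_max_right _ _))))
  let B : TT := ⟨fun a => Bp z (qv a), fun a p hp q hq => Bp_mono hp hq,
    fun a b hab p => by
      rintro ⟨c, h1, h2⟩
      exact ⟨c, hab.trans h1, h2⟩, sp z, sp_ctb z, fun g hgU a p => by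
      constructor
      · rintro ⟨c, h1, h2⟩
        have h3 := h2.fix (sp_fix sz) ((Fx (sp z)).inv_mem hgU)
        rw [← mc_mul, inv_mul_cancel, mc_one] at h3
        exact ⟨c, h1, h3⟩
      · rintro ⟨c, h1, h2⟩
        exact ⟨c, h1, h2.fix (sp_fix sz) hgU⟩⟩
  have nB : nb B.1 ∈ π.N := n_nn hg nz
  have hEB : ∀ w r, r ∈ Ew w z → r ∈ Ew w (nb B.1) := by
    rintro w r ⟨⟨a, h1, h2⟩, h3⟩
    refine ⟨⟨a, h1, ?_⟩, fun t ht => ?_⟩
    · exact fmem_rn (T := Q) (x := fun a => check (cod a)) (C := fun a p => p ∈ B.1 a)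
        ⟨a, le_rfl, h2⟩
    · rintro ⟨b, h4, h5⟩
      obtain ⟨t', ht', v, c, hv, hc, he⟩ := (fmem_iff.1 h5) t le_rfl
      obtain ⟨b', rfl, c', h6, h7⟩ := el_rn.1 hv
      have h8 : b = b' := by
        obtain ⟨π', h9, h10, h11⟩ := pkg (∅ : Set (PName Cd)) Set.countable_empty t'
        have h12 := eq_of_feq (cod_N π' b) (cod_N π' b') (h11 0) he
        rw [val_cod, val_cod] at h12
        exact cod_inj.1 h12
      subst h8
      exact h3 t' (ht'.trans ht) ⟨c', h4.trans h6, h7.mono hc⟩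
  have hCB : π.g k ∈ Cc U (nb B.1) := by
    intro n q hq
    obtain ⟨r, h1, w, s, h2, h3, h4, h5⟩ := hk2 n q hq
    exact ⟨r, h1, w, s, h2, h3, hEB w r h4, h5⟩
  rw [AN, mem_rn (by
    rintro B p q hq ⟨U, hU, h⟩
    exact ⟨U, hU, Cc_mono h hq⟩)]
  refine ⟨B, nB, ⟨k, U, cU, hCB⟩, ?_⟩
  ext u
  rw [mem_nb B.2.1, mem_rl]
  constructor
  · rintro ⟨a, rfl, k', b, h1, h2⟩
    have h3 := (cod_mem_val nz).2 ⟨k', h2⟩
    rw [hz, cod_mem_rl] at h3
    exact ⟨a, rfl, h1.trans_lt h3⟩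
  · rintro ⟨a, rfl, h1⟩
    obtain ⟨k', hk'⟩ := (cod_mem_val nz (a := a)).1 (by rwa [hz, cod_mem_rl])
    exact ⟨a, rfl, k', a, le_rfl, hk'⟩

/-- The property depends only on the support of the name. -/
theorem xc_supp {z : PName Cd} (nz : z ∈ π.N) {y : ℝ} (hz : π.val z = rl y) {U U' : Set I}
    (cU : U.Countable) (hU : Hul π U) (fz : sy.Fix (Fx U) z) (cU' : U'.Countable)
    (hU' : Hul π U') (hX : Xc π U' y) : Xc π U y := by
  classical
  obtain ⟨k, -, hk⟩ := gen_dense' π (n_Dw hg nz) (m := 0) (by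
    rintro r (h | ⟨n, h⟩) q hq
    · exact Or.inl fun M t ht => h M t (ht.trans hq)
    · exact Or.inr ⟨n, fun t ht => h t (ht.trans hq)⟩) (by
    intro q _
    by_cases h : ∀ M, ∀ q' ≤ q, ∃ r ≤ q', ∃ w : List ℕ, w.length = M ∧ r ∈ Ew w z
    · exact ⟨q, le_rfl, Or.inl h⟩
    · push Not at h
      obtain ⟨M, q', h1, h2⟩ := h
      exact ⟨q', h1, Or.inr ⟨M, fun r hr w hw hrw => h2 r hr w hw hrw⟩⟩)
  have hk2 : ∀ M, ∀ q ≤ π.g k, ∃ r ≤ q, ∃ w : List ℕ, w.length = M ∧ r ∈ Ew w z := by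
    rcases hk with h | ⟨n, h⟩
    · exact h
    · exfalso
      obtain ⟨w, s, h1, h2, -⟩ := hX n
      obtain ⟨k1, hk1⟩ := (ew_iff hg nz hz).2 h2
      exact h _ (π.g_le_left k k1) w h1 (Ew_mono hk1 (π.g_le_right k k1))
  intro n
  have hHo : Hul π ((U, U') : Set I × Set I) := n_UV hg hU hU'
  obtain ⟨k', -, κ, w, h1, h2, h3⟩ := gen_dense' π (n_Dn hg hHo nz n) (m := k) (by
    rintro r ⟨κ, w, h1, h2, h3⟩ q hq
    exact ⟨κ, w, h1, Ew_mono h2 hq, fun s h4 h5 h6 k hk => h3 s h4 h5 h6 k (hq s hk)⟩) (by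
    intro q hq
    obtain ⟨L, hL⟩ : ∃ L, ∀ s ∈ q.Dec, s.length ≤ L := by
      obtain ⟨L, hL⟩ := (q.Dec_fin.image List.length).bddAbove
      exact ⟨L, fun s hs => hL ⟨s, hs, rfl⟩⟩
    obtain ⟨r, h1, w', h2, h3⟩ := hk2 (max n L + 1) q hq
    cases w' with
    | nil => simp at h2
    | cons κ w =>
      have hwl : w.length = max n L := by simpa using h2
      have h4 := Ew_res cU fz h3
      have h5 : ∀ s, (q.A s ∩ (r.res (LU U)).A s).Nonempty := by
        intro s
        by_cases hs : s ∈ LU U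
        · rw [Cd.res_in hs]
          obtain ⟨k, hk⟩ := r.ne s
          exact ⟨k, h1 s hk, hk⟩
        · rw [Cd.res_out hs, Set.inter_univ]
          exact q.ne s
      set t := Cd.mt _ _ h5 with ht
      have hcof : ∀ s : T, ((if s ∈ LU U' ∧ s ∉ LU U ∧ s.length = w.length + 1 then Set.Ioi κ
          else Set.univ)ᶜ : Set ℕ).Finite := by
        intro s
        split_ifs
        · rw [Set.compl_Ioi]
          exact Set.finite_Iic κ
        · simp
      let K : Cd :=
        { A := fun s => if s ∈ LU U' ∧ s ∉ LU U ∧ s.length = w.length + 1 then Set.Ioi κ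
            else Set.univ
          ne := fun s => by
            split_ifs
            · exact ⟨κ + 1, Nat.lt_succ_self κ⟩
            · exact Set.univ_nonempty
          fin := Set.Finite.subset Set.finite_empty fun s hs => hs (hcof s)
          ctb := (LU_countable cU').mono fun s hs => by
            by_contra hc
            exact hs (if_neg fun h => hc h.1) }
      have h6 : ∀ s, (t.A s ∩ K.A s).Nonempty := by
        intro s
        by_cases hs : s ∈ LU U' ∧ s ∉ LU U ∧ s.length = w.length + 1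
        · have h7 : t.A s = q.A s := by
            change q.A s ∩ (r.res (LU U)).A s = q.A s
            rw [Cd.res_out hs.2.1, Set.inter_univ]
          rw [h7]
          refine Cd.meets (Cd.cof fun h8 => ?_) (hcof s)
          have h9 := hL s h8
          have h10 := hs.2.2
          rw [hwl] at h10
          have h11 := le_max_right n L
          omega
        · have h7 : K.A s = Set.univ := if_neg hs
          rw [h7, Set.inter_univ]
          exact t.ne s
      refine ⟨Cd.mt _ _ h6, (Cd.mt_left h6).trans (Cd.mt_left h5), κ, w, ?_, ?_, ?_⟩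
      · rw [hwl]
        exact le_max_left _ _
      · exact Ew_mono h4 ((Cd.mt_left h6).trans (Cd.mt_right h5))
      · intro s h7 h8 h9 k hk
        have h10 : k ∈ K.A s := hk.2
        have h11 : K.A s = Set.Ioi κ := if_pos ⟨h7, h8, h9⟩
        rw [h11] at h10
        exact h10)
  have h4 : InJ (κ :: w) y := (ew_iff hg nz hz).1 ⟨k', h2⟩
  obtain ⟨w', s', h5, h6, h7, h8⟩ := hX (w.length + 1)
  have h9 : w' = κ :: w := h6.eq h4 (by rw [h5]; rfl)
  subst h9
  have h10 := h8.len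
  have hs' : s' ∈ LU U := by
    by_contra hcon
    cases s' with
    | nil => simp at h10
    | cons i s1 =>
      obtain ⟨⟨κ', h11, m, h12⟩, -⟩ := h8
      have h13 := cA_mono (π.g_le_left m k') _ _ h12
      have h14 : κ' ∈ (π.g (max m k')).A (i :: s1) := by
        unfold cA at h13
        rw [h13]
        rfl
      have h15 := h3 (i :: s1) h7 hcon (by rw [← h10]; rfl) κ' (π.g_le_right m k' _ h14)
      omega
  refine ⟨(κ :: w).drop (w.length + 1 - n), s'.drop (w.length + 1 - n), ?_, h6.drop _, ?_,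
    h8.drop _⟩
  · rw [List.length_drop, List.length_cons]
    omega
  · exact fun i hi => hs' i (List.mem_of_mem_drop hi)

end

end Pool.Agent.R596.SQ
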