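import Pool.Agent.R596.SqTree
import Pool.Agent.R596.SqLim

/-!
# The set of irrational numbers given by the labelled tree: rules
-/

set_option autoImplicit false
set_option linter.all false

namespace Pool.Agent.R596.SQ

open Pool.Agent.W868 Pool.Agent.W868.PName Pool.Agent.R596.SY Pool.Agent.R596Sq
open ZFSet (pair)

open Classical in
/-- Choice of a support. -/
noncomputable def Uch (z : PName Cd) (p : Cd) : Set I :=
  if h : ∃ U : Set I, U.Countable ∧ p ∈ Cc U z then h.choose else ∅

/-- The statement that `z` has codes of every length. -/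
def Dw (z : PName Cd) : Set Cd :=
  {p | (∀ M, ∀ q ≤ p, ∃ r ≤ q, ∃ w : List ℕ, w.length = M ∧ r ∈ Ew w z) ∨
    ∃ M, ∀ r ≤ p, ∀ w : List ℕ, w.length = M → r ∉ Ew w z}

/-- The labels of new nodes are large. -/
def Dn (o : Set I × Set I) (z : PName Cd) (n : ℕ) : Set Cd :=
  {q | ∃ (κ : ℕ) (w : List ℕ), n ≤ w.length ∧ q ∈ Ew (κ :: w) z ∧
    ∀ s ∈ LU o.2, s ∉ LU o.1 → s.length = w.length + 1 → ∀ k ∈ q.A s, κ < k}

/-- The decision of the main statement. -/
def Dd (U : Set I) (z : PName Cd) : Set Cd :=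
  {p | p ∈ Cc U z ∨ ∃ n, ∀ r ≤ p, r ∉ Cn U z n}

/-- The nice name of a real number. -/
noncomputable def nn (z : PName Cd) : PName Cd := nb fun a => Bp z (qv a)

/-- Forced: `a` is below the `j`-th element of the sequence. -/
def Bt (j : ℕ) (τ : PName Cd) (a : Q) : Set Cd :=
  {p | ∃ w, sy.HS w ∧ Fmem (opN (check (nat j)) w) τ p ∧ Fq w a p}

open Classical in
/-- A witness. -/
noncomputable def wch (j : ℕ) (a : Q) (τ : PName Cd) (p : Cd) : PName Cd :=
  if h : ∃ w, sy.HS w ∧ Fmem (opN (check (nat j)) w) τ p ∧ Fq w a p then h.choose else emp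

/-- The labels of the first nodes `replicate (m + 1) i` are zero. -/
def Dz (n : ℕ) : Set Cd := {q | ∃ i : I, ∀ m < n, cA q (List.replicate (m + 1) i) 0}

open Classical in
/-- A witness. -/
noncomputable def ich (n : ℕ) (q : Cd) : I :=
  if h : ∃ i : I, ∀ m < n, cA q (List.replicate (m + 1) i) 0 then h.choose else 0

/-- The condition decides the labels of the branch of `i`. -/
def Di (i : I) : List ℕ → Cd → Prop
  | [], _ => True
  | k :: w, p => cA p (List.replicate (w.length + 1) i) k ∧ Di i w p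

theorem Di_mono {i : I} : ∀ {w : List ℕ} {p q : Cd}, Di i w p → q ≤ p → Di i w q
  | [], _, _, _, _ => trivial
  | k :: w, p, q, h, hq => ⟨cA_mono hq _ _ h.1, Di_mono h.2 hq⟩

/-- The name of the real number given by the branch of `i`. -/
noncomputable def yi (i : I) : PName Cd := nb fun a => {p | ∃ w, qv a < lw w ∧ Di i w p}

/-- The rules for the irrational numbers. -/
def RR2 : Set (Rule Cd) :=
  {r0 fun z p => check (cd (Uch z p)), r0 fun z _ => Sys.nm Cd (Dw z), r0 fun z _ => nn z,
    r2 fun (U V : Set I) _ => check (cd (U, V)), r3 fun (U : Set I) z _ => Sys.nm Cd (Dd U z),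
    r1 fun (i : I) _ => yi i, r1 fun (i : I) _ => check (cd ({i} : Set I)),
    r0 fun _ _ => check (cd (∅ : Set I))} ∪
  (Set.range fun n : ℕ => r3 fun (o : Set I × Set I) z _ => Sys.nm Cd (Dn o z n)) ∪
  (Set.range fun n : ℕ => r3 fun (U : Set I) z _ => Sys.nm Cd (Cn U z n)) ∪
  (Set.range fun w : List ℕ => r0 fun z _ =>
    Sys.nm Cd {p | p ∈ Bp z (uw w) ∨ ∀ t ≤ p, t ∉ Bp z (uw w)}) ∪
  (Set.range fun j : ℕ => r0 fun τ _ => nb (Bt j τ)) ∪
  (Set.range fun t : ℕ × Q => r0 fun τ p => wch t.1 t.2 τ p) ∪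
  (Set.range fun n : ℕ => r0 fun _ _ => Sys.nm Cd (Dz n)) ∪
  (Set.range fun n : ℕ => r0 fun _ p => check (cd (ich n p))) ∪
  (Set.range fun m : ℕ => r1 fun (i : I) _ =>
    Sys.nm Cd {q | ∃ k, cA q (List.replicate (m + 1) i) k})

theorem RR2_countable : RR2.Countable := by
  unfold RR2
  refine ((((((((Set.Finite.countable (by simp)).union (Set.countable_range _)).union
    (Set.countable_range _)).union (Set.countable_range _)).union
    (Set.countable_range _)).union (Set.countable_range _)).union (Set.countable_range _)).union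
    (Set.countable_range _)).union (Set.countable_range _)

section

variable {π : Pkg Cd} (hg : ClR RR2 π)

include hg

theorem n_Uch {z : PName Cd} (hz : z ∈ π.N) (k : ℕ) : Hul π (Uch z (π.g k)) :=
  r0_mem (F := fun z p => check (cd (Uch z p))) hg
    (by left; left; left; left; left; left; left; left; left; rfl) hz k

theorem n_Dw {z : PName Cd} (hz : z ∈ π.N) : Sys.nm Cd (Dw z) ∈ π.N :=
  r0_mem (F := fun z _ => Sys.nm Cd (Dw z)) hg
    (by left; left; left; left; left; left; left; left; right; left; rfl) hz 0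

theorem n_nn {z : PName Cd} (hz : z ∈ π.N) : nn z ∈ π.N :=
  r0_mem (F := fun z _ => nn z) hg
    (by left; left; left; left; left; left; left; left; right; right; left; rfl) hz 0

theorem n_UV {U V : Set I} (hU : Hul π U) (hV : Hul π V) : Hul π (U, V) :=
  r2_mem (F := fun (U V : Set I) _ => check (cd (U, V))) hg
    (by left; left; left; left; left; left; left; left; right; right; right; left; rfl) hU hV 0

theorem n_Dd {U : Set I} {z : PName Cd} (hU : Hul π U) (hz : z ∈ π.N) :
    Sys.nm Cd (Dd U z) ∈ π.N :=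
  r3_mem (F := fun (U : Set I) z _ => Sys.nm Cd (Dd U z)) hg
    (by left; left; left; left; left; left; left; left; right; right; right; right; left; rfl)
    hU hz 0

theorem n_yi {i : I} (hi : Hul π i) : yi i ∈ π.N :=
  r1_mem (F := fun (i : I) _ => yi i) hg
    (by left; left; left; left; left; left; left; left; right; right; right; right; right; left
        rfl) hi 0

theorem n_si {i : I} (hi : Hul π i) : Hul π ({i} : Set I) :=
  r1_mem (F := fun (i : I) _ => check (cd ({i} : Set I))) hg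
    (by left; left; left; left; left; left; left; left; right; right; right; right; right; right
        left; rfl) hi 0

theorem n_em : Hul π (∅ : Set I) :=
  r0_mem (F := fun _ _ => check (cd (∅ : Set I))) hg
    (by left; left; left; left; left; left; left; left; right; right; right; right; right; right
        right; rfl) (emp_mem π) 0

theorem n_Dn {o : Set I × Set I} {z : PName Cd} (ho : Hul π o) (hz : z ∈ π.N) (n : ℕ) :
    Sys.nm Cd (Dn o z n) ∈ π.N :=
  r3_mem (F := fun (o : Set I × Set I) z _ => Sys.nm Cd (Dn o z n)) hg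
    (by left; left; left; left; left; left; left; right; exact ⟨n, rfl⟩) ho hz 0

theorem n_Cn {U : Set I} {z : PName Cd} (hU : Hul π U) (hz : z ∈ π.N) (n : ℕ) :
    Sys.nm Cd (Cn U z n) ∈ π.N :=
  r3_mem (F := fun (U : Set I) z _ => Sys.nm Cd (Cn U z n)) hg
    (by left; left; left; left; left; left; right; exact ⟨n, rfl⟩) hU hz 0

theorem n_Bp {z : PName Cd} (hz : z ∈ π.N) (w : List ℕ) :
    Sys.nm Cd {p | p ∈ Bp z (uw w) ∨ ∀ t ≤ p, t ∉ Bp z (uw w)} ∈ π.N :=
  r0_mem (F := fun z _ => Sys.nm Cd {p | p ∈ Bp z (uw w) ∨ ∀ t ≤ p, t ∉ Bp z (uw w)}) hg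
    (by left; left; left; left; left; right; exact ⟨w, rfl⟩) hz 0

theorem n_Bt {τ : PName Cd} (hτ : τ ∈ π.N) (j : ℕ) : nb (Bt j τ) ∈ π.N :=
  r0_mem (F := fun τ _ => nb (Bt j τ)) hg
    (by left; left; left; left; right; exact ⟨j, rfl⟩) hτ 0

theorem n_wch {τ : PName Cd} (hτ : τ ∈ π.N) (j : ℕ) (a : Q) (k : ℕ) :
    wch j a τ (π.g k) ∈ π.N :=
  r0_mem (F := fun τ p => wch j a τ p) hg
    (by left; left; left; right; exact ⟨(j, a), rfl⟩) hτ k

theorem n_Dz (n : ℕ) : Sys.nm Cd (Dz n) ∈ π.N :=
  r0_mem (F := fun _ _ => Sys.nm Cd (Dz n)) hg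
    (by left; left; right; exact ⟨n, rfl⟩) (emp_mem π) 0

theorem n_ich (n k : ℕ) : Hul π (ich n (π.g k)) :=
  r0_mem (F := fun _ p => check (cd (ich n p))) hg
    (by left; right; exact ⟨n, rfl⟩) (emp_mem π) k

theorem n_lab {i : I} (hi : Hul π i) (m : ℕ) :
    Sys.nm Cd {q | ∃ k, cA q (List.replicate (m + 1) i) k} ∈ π.N :=
  r1_mem (F := fun (i : I) _ => Sys.nm Cd {q | ∃ k, cA q (List.replicate (m + 1) i) k}) hg
    (by right; exact ⟨m, rfl⟩) hi 0

end

end Pool.Agent.R596.SQ
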