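import Pool.Agent.R596.SqNam
import Pool.Agent.R596.SqIrr

/-!
# The set of irrational numbers given by the labelled tree
-/

set_option autoImplicit false
set_option linter.all false

namespace Pool.Agent.R596.SQ

open Pool.Agent.W868 Pool.Agent.W868.PName Pool.Agent.R596.SY Pool.Agent.R596Sq
open ZFSet (pair)

/-- The labels along the node are bounded by the sequence. -/
def Blo (c : T → ℕ → Prop) : List ℕ → T → Prop
  | [], [] => True
  | k :: w, i :: s => (∃ k' ≤ k, c (i :: s) k') ∧ Blo c w s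
  | [], _ :: _ => False
  | _ :: _, [] => False

theorem Blo.len {c : T → ℕ → Prop} : ∀ {w : List ℕ} {s : T}, Blo c w s → w.length = s.length
  | [], [], _ => rfl
  | k :: w, i :: s, h => by
    have := Blo.len h.2
    simp [this]
  | [], _ :: _, h => h.elim
  | _ :: _, [], h => h.elim

theorem Blo.drop {c : T → ℕ → Prop} (d : ℕ) : ∀ {w : List ℕ} {s : T}, Blo c w s →
    Blo c (w.drop d) (s.drop d) := by
  induction d with
  | zero => exact fun h => h
  | succ d ih =>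
    intro w s h
    cases w with
    | nil =>
      cases s with
      | nil => exact h
      | cons i s => exact h.elim
    | cons k w =>
      cases s with
      | nil => exact h.elim
      | cons i s => exact ih h.2

theorem Blo.mono {c c' : T → ℕ → Prop} (hc : ∀ s k, c s k → c' s k) : ∀ {w : List ℕ} {s : T},
    Blo c w s → Blo c' w s
  | [], [], _ => trivial
  | k :: w, i :: s, h => by
    obtain ⟨⟨k', h1, h2⟩, h3⟩ := h
    exact ⟨⟨k', h1, hc _ _ h2⟩, Blo.mono hc h3⟩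
  | [], _ :: _, h => h.elim
  | _ :: _, [], h => h.elim

/-- The label is decided. -/
def cA (r : Cd) (s : T) (k : ℕ) : Prop := r.A s = {k}

theorem cA_mono {r r' : Cd} (h : r' ≤ r) (s : T) (k : ℕ) (hk : cA r s k) : cA r' s k := by
  unfold cA at hk ⊢
  have h1 := h s
  rw [hk] at h1
  exact (Set.Nonempty.subset_singleton_iff (r'.ne s)).1 h1

/-- The label in the generic tree. -/
def cG (π : Pkg Cd) (s : T) (k : ℕ) : Prop := ∃ m, cA (π.g m) s k

theorem cG_uniq {π : Pkg Cd} {s : T} {k k' : ℕ} (h : cG π s k) (h' : cG π s k') : k = k' := by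
  obtain ⟨m, hm⟩ := h
  obtain ⟨m', hm'⟩ := h'
  have h1 := cA_mono (π.g_le_left m m') s k hm
  have h2 := cA_mono (π.g_le_right m m') s k' hm'
  unfold cA at h1 h2
  rw [h1] at h2
  exact Set.singleton_injective h2

theorem Blo.dec {π : Pkg Cd} : ∀ {w : List ℕ} {s : T}, Blo (cG π) w s → ∃ m, Blo (cA (π.g m)) w s
  | [], [], _ => ⟨0, trivial⟩
  | k :: w, i :: s, h => by
    obtain ⟨⟨k', h1, m, h2⟩, h3⟩ := h
    obtain ⟨m', h4⟩ := Blo.dec h3
    exact ⟨max m m', ⟨k', h1, cA_mono (π.g_le_left _ _) _ _ h2⟩,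
      h4.mono (cA_mono (π.g_le_right _ _))⟩
  | [], _ :: _, h => h.elim
  | _ :: _, [], h => h.elim

/-- Forced: the real number is larger than `t` (with a rational number in between). -/
def Bp (z : PName Cd) (t : ℝ) : Set Cd := {p | ∃ a, t ≤ qv a ∧ Fq z a p}

theorem Bp_mono {z : PName Cd} {t : ℝ} {p q : Cd} (h : p ∈ Bp z t) (hq : q ≤ p) : q ∈ Bp z t := by
  obtain ⟨a, h1, h2⟩ := h
  exact ⟨a, h1, h2.mono hq⟩

/-- Forced: the real number is in the interval of `w`. -/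
def Ew (w : List ℕ) (z : PName Cd) : Set Cd := {r | r ∈ Bp z (lw w) ∧ ∀ t ≤ r, t ∉ Bp z (uw w)}

theorem Ew_mono {w : List ℕ} {z : PName Cd} {p q : Cd} (h : p ∈ Ew w z) (hq : q ≤ p) :
    q ∈ Ew w z := ⟨Bp_mono h.1 hq, fun t ht => h.2 t (ht.trans hq)⟩

/-- Forced: the condition for the nodes of length `n`. -/
def Cn (U : Set I) (z : PName Cd) (n : ℕ) : Set Cd :=
  {r | ∃ (w : List ℕ) (s : T), w.length = n ∧ s ∈ LU U ∧ r ∈ Ew w z ∧ Blo (cA r) w s}

theorem Cn_mono {U : Set I} {z : PName Cd} {n : ℕ} {p q : Cd} (h : p ∈ Cn U z n) (hq : q ≤ p) :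
    q ∈ Cn U z n := by
  obtain ⟨w, s, h1, h2, h3, h4⟩ := h
  exact ⟨w, s, h1, h2, Ew_mono h3 hq, h4.mono (cA_mono hq)⟩

/-- Forced: the condition for all nodes. -/
def Cc (U : Set I) (z : PName Cd) : Set Cd := {p | ∀ n, ∀ q ≤ p, ∃ r ≤ q, r ∈ Cn U z n}

theorem Cc_mono {U : Set I} {z : PName Cd} {p q : Cd} (h : p ∈ Cc U z) (hq : q ≤ p) :
    q ∈ Cc U z := fun n r hr => h n r (hr.trans hq)

/-- The property of the real number `y` in the extension. -/
def Xc (π : Pkg Cd) (U : Set I) (y : ℝ) : Prop :=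
  ∀ n, ∃ (w : List ℕ) (s : T), w.length = n ∧ InJ w y ∧ s ∈ LU U ∧ Blo (cG π) w s

/-- The symmetric names of sets of rational numbers. -/
def TT : Type := {B : Q → Set Cd // (∀ a, ∀ p ∈ B a, ∀ q ≤ p, q ∈ B a) ∧
  (∀ a b, qv a ≤ qv b → B b ⊆ B a) ∧
  ∃ U : Set I, U.Countable ∧ ∀ g ∈ Fx U, ∀ a p, mc g p ∈ B a ↔ p ∈ B a}

/-- The name of the set. -/
noncomputable def AN : PName Cd :=
  rn TT (fun B => nb B.1) fun B p => ∃ U : Set I, U.Countable ∧ p ∈ Cc U (nb B.1)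

/-! ### Symmetry -/

theorem g_cons (g : Gp) (i : I) (s : T) : ∃ i', g.1 (i :: s) = i' :: g.1 s := by
  have h1 : g.1 (i :: s).tail = (g.1 (i :: s)).tail := g.2 (i :: s)
  have h0 : g.1 [] = [] := by
    have h2 : g.1 ([] : T).tail = (g.1 []).tail := g.2 []
    cases h3 : g.1 [] with
    | nil => rfl
    | cons a l =>
      rw [List.tail_nil, h3, List.tail_cons] at h2
      have h4 := congrArg List.length h2
      simp at h4
  cases h3 : g.1 (i :: s) with
  | nil =>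
    have h4 := g.1.injective (h3.trans h0.symm)
    simp at h4
  | cons a l =>
    rw [h3] at h1
    exact ⟨a, by rw [show g.1 s = l from h1]⟩

theorem Blo_g {r : Cd} (g : Gp) : ∀ {w : List ℕ} {s : T}, Blo (cA r) w s →
    Blo (cA (mc g r)) w (g.1 s)
  | [], [], _ => by
    have h0 : g.1 [] = [] := by
      have h2 : g.1 ([] : T).tail = (g.1 []).tail := g.2 []
      cases h3 : g.1 [] with
      | nil => rfl
      | cons a l =>
        rw [List.tail_nil, h3, List.tail_cons] at h2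
        have h4 := congrArg List.length h2
        simp at h4
    rw [h0]
    trivial
  | k :: w, i :: s, h => by
    obtain ⟨⟨k', h1, h2⟩, h3⟩ := h
    obtain ⟨i', hi⟩ := g_cons g i s
    have h4 : cA (mc g r) (g.1 (i :: s)) k' := by
      unfold cA
      rw [mc_A, inv_g]
      exact h2
    rw [hi] at h4 ⊢
    exact ⟨⟨k', h1, h4⟩, Blo_g g h3⟩
  | [], _ :: _, h => h.elim
  | _ :: _, [], h => h.elim

theorem Fq_congr {z z' : PName Cd} (h : ∀ p, Feq z z' p) {a : Q} {p : Cd} (h' : Fq z a p) :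
    Fq z' a p := fmem_congr (Feq.refl _ _) (h p) h'

theorem Ew_g {w : List ℕ} {z z' : PName Cd} {g : Gp} (h : ∀ p, Feq (act (sy.ac g) z) z' p)
    {r : Cd} (hr : r ∈ Ew w z) : mc g r ∈ Ew w z' := by
  obtain ⟨⟨a, h1, h2⟩, h3⟩ := hr
  refine ⟨⟨a, h1, Fq_congr h (h2.act g)⟩, fun t ht h4 => ?_⟩
  obtain ⟨b, h5, h6⟩ := h4
  refine h3 (mc g⁻¹ t) ?_ ⟨b, h5, ?_⟩
  · have := mc_mono g⁻¹ ht
    rwa [← mc_mul, inv_mul_cancel, mc_one] at this
  · apply Fq.of_act g
    rw [← mc_mul, mul_inv_cancel, mc_one]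
    exact Fq_congr (fun p => (h p).symm) h6

theorem Cc_g {U : Set I} (hU : U.Countable) {z z' : PName Cd} {g : Gp}
    (h : ∀ p, Feq (act (sy.ac g) z) z' p) {p : Cd} (hp : p ∈ Cc U z) :
    ∃ U' : Set I, U'.Countable ∧ mc g p ∈ Cc U' z' := by
  refine ⟨{i | ∃ s ∈ LU U, i ∈ g.1 s}, ?_, fun n q hq => ?_⟩
  · have h : {i | ∃ s ∈ LU U, i ∈ g.1 s} = ⋃ s ∈ LU U, {i | i ∈ g.1 s} := by
      ext i
      simp
    rw [h]
    exact (LU_countable hU).biUnion fun s _ => (List.finite_toSet _).countable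
  · have h1 := mc_mono g⁻¹ hq
    rw [← mc_mul, inv_mul_cancel, mc_one] at h1
    obtain ⟨r, h2, w, s, h3, h4, h5, h6⟩ := hp n _ h1
    refine ⟨mc g r, ?_, w, g.1 s, h3, fun i hi => ⟨s, h4, hi⟩, Ew_g h h5, Blo_g g h6⟩
    have h7 := mc_mono g h2
    rwa [← mc_mul, mul_inv_cancel, mc_one] at h7

/-- The translate of a name of a set of rational numbers. -/
def trB (g : Gp) (B : TT) : TT :=
  ⟨fun a => {p | mc g⁻¹ p ∈ B.1 a}, fun a p hp q hq => B.2.1 a _ hp _ (mc_mono _ hq),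
    fun a b hab p hp => B.2.2.1 a b hab hp, by
      obtain ⟨U, hU, h⟩ := B.2.2.2
      refine ⟨{i | ∃ s ∈ LU U, i ∈ g.1 s}, ?_, fun k hk a p => ?_⟩
      · have h : {i | ∃ s ∈ LU U, i ∈ g.1 s} = ⋃ s ∈ LU U, {i | i ∈ g.1 s} := by
          ext i
          simp
        rw [h]
        exact (LU_countable hU).biUnion fun s _ => (List.finite_toSet _).countable
      · have h1 : g⁻¹ * k * g ∈ Fx U := by
          intro s hs
          change (g⁻¹).1 (k.1 (g.1 s)) = s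
          rw [hk (g.1 s) fun i hi => ⟨s, hs, hi⟩, inv_g]
        have h2 := h _ h1 a (mc g⁻¹ p)
        rw [← mc_mul] at h2
        have h3 : g⁻¹ * k * g * g⁻¹ = g⁻¹ * k := by group
        rw [h3, mc_mul] at h2
        exact h2⟩

theorem feq_trB (g : Gp) (B : TT) (p : Cd) : Feq (act (sy.ac g) (nb B.1)) (nb (trB g B).1) p := by
  refine feq_act_rn (fun a => act_ck g _) (fun a c => ?_) p
  change mc g⁻¹ (mc g c) ∈ B.1 a ↔ c ∈ B.1 a
  rw [← mc_mul, inv_mul_cancel, mc_one]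

theorem fix_AN (g : Gp) (p : Cd) : Feq (act (sy.ac g) AN) AN p := by
  rw [feq_iff']
  constructor
  · intro z c hz q hq hqc
    obtain ⟨z', c', h1, rfl, rfl⟩ := el_act.1 hz
    obtain ⟨B, rfl, U, hU, h2⟩ := el_rn.1 h1
    obtain ⟨U', hU', h3⟩ := Cc_g hU (feq_trB g B) h2
    exact ⟨q, le_rfl, nb (trB g B).1, mc g c', el_rn.2 ⟨trB g B, rfl, U', hU', h3⟩, hqc,
      feq_trB g B q⟩
  · intro z c hz q hq hqc
    obtain ⟨B, rfl, U, hU, h2⟩ := el_rn.1 hz
    have e1 : ∀ p, Feq (act (sy.ac g) (nb (trB g⁻¹ B).1)) (nb B.1) p := by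
      intro p
      refine feq_act_rn (fun a => act_ck g _) (fun a c => ?_) p
      change mc g c ∈ B.1 a ↔ mc g⁻¹⁻¹ c ∈ B.1 a
      rw [inv_inv]
    obtain ⟨U', hU', h3⟩ := Cc_g hU (feq_trB g⁻¹ B) h2
    refine ⟨q, le_rfl, act (sy.ac g) (nb (trB g⁻¹ B).1), mc g (mc g⁻¹ c), el_act.2
      ⟨_, _, el_rn.2 ⟨trB g⁻¹ B, rfl, U', hU', h3⟩, rfl, rfl⟩, ?_, e1 q⟩
    rwa [← mc_mul, mul_inv_cancel, mc_one]

theorem hs_AN : sy.HS AN := by
  refine hs_rn (Fx_mem Set.countable_empty) (fun B => ?_) fun g _ p => fix_AN g p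
  obtain ⟨U, hU, h⟩ := B.2.2.2
  exact hs_nb hU h

end Pool.Agent.R596.SQ
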