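import Pool.Agent.R596.Obj

/-!
# The next state
-/

set_option maxHeartbeats 400000
set_option linter.all false

namespace Pool.Agent.R596

open FirstOrder FirstOrder.Language
open Pool.Agent.Helper672.ZFA
open Pool.Agent.H310
open Pool.Agent.W924

universe u u₁ u₂ u₃ u₄

variable {M : Type u} [L.Structure M] [hM : IsModel M]
variable {α : Type u₁} {ι : Type u₂} [ITy M α] [ITy M ι]

/-- The 3-cycles of points of the family. -/
def KA (s : IPow M (ι × (α ⊕ IPm M α))) (σ : IPm M α) : Prop :=
  ∃ i j k x y z, elt s i x ∧ elt s j y ∧ elt s k z ∧ C3 σ x y z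

/-- The 3-cycles of the family and their inverses. -/
def KB (s : IPow M (ι × (α ⊕ IPm M α))) (σ : IPm M α) : Prop :=
  ∃ i ρ, cyc' s i ρ ∧ (σ = ρ ∨ ∀ x, σ.1 (ρ.1 x) = x)

/-- The union. -/
def KK (s : IPow M (ι × (α ⊕ IPm M α))) (σ : IPm M α) : Prop := KA s σ ∨ KB s σ

/-- The points of the family. -/
def EE (s : IPow M (ι × (α ⊕ IPm M α))) (x : α) : Prop := ∃ i, elt s i x

theorem int_KK : Int M (fun q : IPow M (ι × (α ⊕ IPm M α)) × IPm M α => KK q.1 q.2) := by
  have h1 := int_elt (M := M) (α := α) (ι := ι)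
  have h2 := int_cyc' (M := M) (α := α) (ι := ι)
  have h3 := int_C3 (M := M) (α := α)
  unfold KK KA KB
  (repeat' (first | with_reducible exact IntF.id | with_reducible exact IntF.fst' | with_reducible exact IntF.snd' | with_reducible exact IntF.const _ | with_reducible exact Int.const _ | assumption | with_reducible apply Int.and | with_reducible apply Int.or | with_reducible apply Int.not | with_reducible apply Int.imp | with_reducible apply Int.iff | with_reducible apply Int.ne | with_reducible apply Int.eq | with_reducible apply Int.mem | with_reducible apply Int.subset | with_reducible apply Int.ltN | with_reducible apply Int.leN | with_reducible apply Int.fin | with_reducible apply Int.unique | with_reducible apply Int.all | with_reducible apply Int.ex | with_reducible apply IntF.fst | with_reducible apply IntF.snd | with_reducible apply IntF.app | with_reducible apply IntF.ite | with_reducible apply IntF.sep | with_reducible apply IntF.lam | with_reducible apply IntF.insert | with_reducible apply IntF.singleton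 | with_reducible apply IntF.union | with_reducible apply IntF.inter | with_reducible apply IntF.sdiff | with_reducible apply IntF.isUnion | with_reducible apply IntF.iimage | with_reducible apply IntF.the | with_reducible apply IntF.irec | with_reducible_and_instances apply IntF.add | with_reducible_and_instances apply IntF.mul | with_reducible apply IntF.succ | with_reducible apply IntF.val | (with_reducible refine Int.comp ?_ ?_; assumption) | (with_reducible refine Int.comp₂ ?_ ?_ ?_; assumption) | (with_reducible refine Int.comp₃ ?_ ?_ ?_ ?_; assumption) | (with_reducible refine Int.comp₄ ?_ ?_ ?_ ?_ ?_; assumption) | (with_reducible refine IntF.comp ?_ ?_; assumption) | (with_reducible refine IntF.comp₂ ?_ ?_ ?_; assumption) | (with_reducible refine IntF.comp₃ ?_ ?_ ?_ ?_; assumption) | with_reducible apply IntF.inl | with_reducible apply IntF.inr | with_reducible apply IntF.pair))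

theorem int_EE : Int M (fun q : IPow M (ι × (α ⊕ IPm M α)) × α => EE q.1 q.2) := by
  have h1 := int_elt (M := M) (α := α) (ι := ι)
  unfold EE
  (repeat' (first | with_reducible exact IntF.id | with_reducible exact IntF.fst' | with_reducible exact IntF.snd' | with_reducible exact IntF.const _ | with_reducible exact Int.const _ | assumption | with_reducible apply Int.and | with_reducible apply Int.or | with_reducible apply Int.not | with_reducible apply Int.imp | with_reducible apply Int.iff | with_reducible apply Int.ne | with_reducible apply Int.eq | with_reducible apply Int.mem | with_reducible apply Int.subset | with_reducible apply Int.ltN | with_reducible apply Int.leN | with_reducible apply Int.fin | with_reducible apply Int.unique | with_reducible apply Int.all | with_reducible apply Int.ex | with_reducible apply IntF.fst | with_reducible apply IntF.snd | with_reducible apply IntF.app | with_reducible apply IntF.ite | with_reducible apply IntF.sep | with_reducible apply IntF.lam | with_reducible apply IntF.insert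 | with_reducible apply IntF.singleton | with_reducible apply IntF.union | with_reducible apply IntF.inter | with_reducible apply IntF.sdiff | with_reducible apply IntF.isUnion | with_reducible apply IntF.iimage | with_reducible apply IntF.the | with_reducible apply IntF.irec | with_reducible_and_instances apply IntF.add | with_reducible_and_instances apply IntF.mul | with_reducible apply IntF.succ | with_reducible apply IntF.val | (with_reducible refine Int.comp ?_ ?_; assumption) | (with_reducible refine Int.comp₂ ?_ ?_ ?_; assumption) | (with_reducible refine Int.comp₃ ?_ ?_ ?_ ?_; assumption) | (with_reducible refine Int.comp₄ ?_ ?_ ?_ ?_ ?_; assumption) | (with_reducible refine IntF.comp ?_ ?_; assumption) | (with_reducible refine IntF.comp₂ ?_ ?_ ?_; assumption) | (with_reducible refine IntF.comp₃ ?_ ?_ ?_ ?_; assumption) | with_reducible apply IntF.inl | with_reducible apply IntF.inr | with_reducible apply IntF.pair))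

/-- The new point. -/
def Nel (s : IPow M (ι × (α ⊕ IPm M α))) (σ : IPm M α) (y : α) : Prop :=
  σ.1 y ≠ y ∧ ¬ EE s y ∧ ((∀ y', σ.1 y' ≠ y' → ¬ EE s y' → y' = y) ∨
    ∃ x, σ.1 x = y ∧ EE s x ∧ ∀ x', σ.1 x' ≠ x' → EE s x' → x' = x)

theorem int_Nel : Int M (fun q : (IPow M (ι × (α ⊕ IPm M α)) × IPm M α) × α =>
    Nel q.1.1 q.1.2 q.2) := by
  have h1 := int_EE (M := M) (α := α) (ι := ι)
  unfold Nel
  (repeat' (first | with_reducible exact IntF.id | with_reducible exact IntF.fst' | with_reducible exact IntF.snd' | with_reducible exact IntF.const _ | with_reducible exact Int.const _ | assumption | with_reducible apply Int.and | with_reducible apply Int.or | with_reducible apply Int.not | with_reducible apply Int.imp | with_reducible apply Int.iff | with_reducible apply Int.ne | with_reducible apply Int.eq | with_reducible apply Int.mem | with_reducible apply Int.subset | with_reducible apply Int.ltN | with_reducible apply Int.leN | with_reducible apply Int.fin | with_reducible apply Int.unique | with_reducible apply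 Int.all | with_reducible apply Int.ex | with_reducible apply IntF.fst | with_reducible apply IntF.snd | with_reducible apply IntF.app | with_reducible apply IntF.ite | with_reducible apply IntF.sep | with_reducible apply IntF.lam | with_reducible apply IntF.insert | with_reducible apply IntF.singleton | with_reducible apply IntF.union | with_reducible apply IntF.inter | with_reducible apply IntF.sdiff | with_reducible apply IntF.isUnion | with_reducible apply IntF.iimage | with_reducible apply IntF.the | with_reducible apply IntF.irec | with_reducible_and_instances apply IntF.add | with_reducible_and_instances apply IntF.mul | with_reducible apply IntF.succ | with_reducible apply IntF.val | (with_reducible refine Int.comp ?_ ?_; assumption) | (with_reducible refine Int.comp₂ ?_ ?_ ?_; assumption) | (with_reducible refine Int.comp₃ ?_ ?_ ?_ ?_; assumption) | (with_reducible refine Int.comp₄ ?_ ?_ ?_ ?_ ?_; assumption) | (with_reducible refine IntF.comp ?_ ?_; assumption) | (with_reducible refine IntF.comp₂ ?_ ?_ ?_;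 assumption) | (with_reducible refine IntF.comp₃ ?_ ?_ ?_ ?_; assumption) | with_reducible apply IntF.inl | with_reducible apply IntF.inr | with_reducible apply IntF.pair))

theorem Nel.unique {s : IPow M (ι × (α ⊕ IPm M α))} {σ : IPm M α} {y y' : α} (h : Nel s σ y)
    (h' : Nel s σ y') : y = y' := by
  obtain ⟨h1, h2, h3⟩ := h
  obtain ⟨h1', h2', h3'⟩ := h'
  rcases h3 with h3 | ⟨x, hx, hx', h3⟩
  · exact (h3 y' h1' h2').symm
  · rcases h3' with h3' | ⟨x₂, hx₂, hx₂', h3'⟩
    · exact h3' y h1 h2
    · have h4 : σ.1 x₂ ≠ x₂ := by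
        intro h5
        rw [h5] at hx₂
        rw [hx₂] at hx₂'
        exact h2' hx₂'
      rw [← hx, ← hx₂, h3 x₂ h4 hx₂']

theorem exists_Nel {s : IPow M (ι × (α ⊕ IPm M α))} {σ : IPm M α} (hσ : Thr σ)
    (h : ∃ x, σ.1 x ≠ x ∧ EE s x) (h' : ∃ x, σ.1 x ≠ x ∧ ¬ EE s x) : ∃ y, Nel s σ y := by
  obtain ⟨x, hx, hx'⟩ := h
  obtain ⟨y, hy, hy'⟩ := h'
  obtain ⟨a, b, c, hσ⟩ := hσ
  obtain ⟨u, v, hσ, -⟩ := hσ.start hx
  have hmu := hσ.moves.2 (Or.inr (Or.inl (rfl : u = u)))
  have hmv := hσ.moves.2 (Or.inr (Or.inr (rfl : v = v)))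
  by_cases hu : EE s u
  · by_cases hv : EE s v
    · rcases hσ.moves.1 hy with rfl | rfl | rfl
      · exact absurd hx' hy'
      · exact absurd hu hy'
      · exact absurd hv hy'
    · refine ⟨v, hmv, hv, Or.inl fun w hw hw' => ?_⟩
      rcases hσ.moves.1 hw with rfl | rfl | h
      · exact absurd hx' hw'
      · exact absurd hu hw'
      · exact h
  · by_cases hv : EE s v
    · refine ⟨u, hmu, hu, Or.inl fun w hw hw' => ?_⟩
      rcases hσ.moves.1 hw with rfl | h | rfl
      · exact absurd hx' hw'
      · exact h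
      · exact absurd hv hw'
    · refine ⟨u, hmu, hu, Or.inr ⟨x, hσ.1, hx', fun w hw hw' => ?_⟩⟩
      rcases hσ.moves.1 hw with h | rfl | rfl
      · exact h
      · exact absurd hw' hu
      · exact absurd hw' hv

/-- `i` is the first index that is not in the domain. -/
def Fst (lt : ι → ι → Prop) (s : IPow M (ι × (α ⊕ IPm M α))) (i : ι) : Prop :=
  ∀ j, dm s j ↔ lt j i

theorem int_Fst {lt : ι → ι → Prop} (hl : Int M (fun q : ι × ι => lt q.1 q.2)) :
    Int M (fun q : IPow M (ι × (α ⊕ IPm M α)) × ι => Fst lt q.1 q.2) := by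
  have h1 := int_dm (M := M) (α := α) (ι := ι)
  unfold Fst
  (repeat' (first | with_reducible exact IntF.id | with_reducible exact IntF.fst' | with_reducible exact IntF.snd' | with_reducible exact IntF.const _ | with_reducible exact Int.const _ | assumption | with_reducible apply Int.and | with_reducible apply Int.or | with_reducible apply Int.not | with_reducible apply Int.imp | with_reducible apply Int.iff | with_reducible apply Int.ne | with_reducible apply Int.eq | with_reducible apply Int.mem | with_reducible apply Int.subset | with_reducible apply Int.ltN | with_reducible apply Int.leN | with_reducible apply Int.fin | with_reducible apply Int.unique | with_reducible apply Int.all | with_reducible apply Int.ex | with_reducible apply IntF.fst | with_reducible apply IntF.snd | with_reducible apply IntF.app | with_reducible apply IntF.ite | with_reducible apply IntF.sep | with_reducible apply IntF.lam | with_reducible apply IntF.insert | with_reducible apply IntF.singleton | with_reducible apply IntF.union | with_reducible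 apply IntF.inter | with_reducible apply IntF.sdiff | with_reducible apply IntF.isUnion | with_reducible apply IntF.iimage | with_reducible apply IntF.the | with_reducible apply IntF.irec | with_reducible_and_instances apply IntF.add | with_reducible_and_instances apply IntF.mul | with_reducible apply IntF.succ | with_reducible apply IntF.val | (with_reducible refine Int.comp ?_ ?_; assumption) | (with_reducible refine Int.comp₂ ?_ ?_ ?_; assumption) | (with_reducible refine Int.comp₃ ?_ ?_ ?_ ?_; assumption) | (with_reducible refine Int.comp₄ ?_ ?_ ?_ ?_ ?_; assumption) | (with_reducible refine IntF.comp ?_ ?_; assumption) | (with_reducible refine IntF.comp₂ ?_ ?_ ?_; assumption) | (with_reducible refine IntF.comp₃ ?_ ?_ ?_ ?_; assumption) | with_reducible apply IntF.inl | with_reducible apply IntF.inr | with_reducible apply IntF.pair))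

/-- The additions. -/
def Ad (lt : ι → ι → Prop) (s : IPow M (ι × (α ⊕ IPm M α))) (σ : IPm M α) (i : ι)
    (v : α ⊕ IPm M α) : Prop :=
  (∃ ρ x, cyc' s i ρ ∧ Dst ρ σ x ∧ v = Sum.inl x) ∨
  ((¬ ∃ (i' : ι) (ρ : IPm M α) (x : α), cyc' s i' ρ ∧ Dst ρ σ x) ∧ Fst lt s i ∧
    (((∃ x, σ.1 x ≠ x ∧ EE s x) ∧ ∃ x, Nel s σ x ∧ v = Sum.inl x) ∨
      ((∀ x, σ.1 x ≠ x → ¬ EE s x) ∧ v = Sum.inr σ)))

theorem int_Ad {lt : ι → ι → Prop} (hl : Int M (fun q : ι × ι => lt q.1 q.2)) :
    Int M (fun q : ((IPow M (ι × (α ⊕ IPm M α)) × IPm M α) × ι) × (α ⊕ IPm M α) =>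
      Ad lt q.1.1.1 q.1.1.2 q.1.2 q.2) := by
  have h1 := int_cyc' (M := M) (α := α) (ι := ι)
  have h2 := int_Dst (M := M) (α := α)
  have h3 := int_Fst (M := M) (α := α) (ι := ι) hl
  have h4 := int_EE (M := M) (α := α) (ι := ι)
  have h5 := int_Nel (M := M) (α := α) (ι := ι)
  unfold Ad
  (repeat' (first | with_reducible exact IntF.id | with_reducible exact IntF.fst' | with_reducible exact IntF.snd' | with_reducible exact IntF.const _ | with_reducible exact Int.const _ | assumption | with_reducible apply Int.and | with_reducible apply Int.or | with_reducible apply Int.not | with_reducible apply Int.imp | with_reducible apply Int.iff | with_reducible apply Int.ne | with_reducible apply Int.eq | with_reducible apply Int.mem | with_reducible apply Int.subset | with_reducible apply Int.ltN | with_reducible apply Int.leN | with_reducible apply Int.fin | with_reducible apply Int.unique | with_reducible apply Int.all | with_reducible apply Int.ex | with_reducible apply IntF.fst | with_reducible apply IntF.snd | with_reducible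 apply IntF.app | with_reducible apply IntF.ite | with_reducible apply IntF.sep | with_reducible apply IntF.lam | with_reducible apply IntF.insert | with_reducible apply IntF.singleton | with_reducible apply IntF.union | with_reducible apply IntF.inter | with_reducible apply IntF.sdiff | with_reducible apply IntF.isUnion | with_reducible apply IntF.iimage | with_reducible apply IntF.the | with_reducible apply IntF.irec | with_reducible_and_instances apply IntF.add | with_reducible_and_instances apply IntF.mul | with_reducible apply IntF.succ | with_reducible apply IntF.val | (with_reducible refine Int.comp ?_ ?_; assumption) | (with_reducible refine Int.comp₂ ?_ ?_ ?_; assumption) | (with_reducible refine Int.comp₃ ?_ ?_ ?_ ?_; assumption) | (with_reducible refine Int.comp₄ ?_ ?_ ?_ ?_ ?_; assumption) | (with_reducible refine IntF.comp ?_ ?_; assumption) | (with_reducible refine IntF.comp₂ ?_ ?_ ?_; assumption) | (with_reducible refine IntF.comp₃ ?_ ?_ ?_ ?_; assumption) | with_reducible apply IntF.inl | with_reducible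 apply IntF.inr | with_reducible apply IntF.pair))

/-- The next state. -/
noncomputable def Fs (lt : ι → ι → Prop) (s : IPow M (ι × (α ⊕ IPm M α))) (σ : IPm M α) :
    IPow M (ι × (α ⊕ IPm M α)) := s ∪ sep M fun q => Ad lt s σ q.1 q.2

theorem int_Fs {lt : ι → ι → Prop} (hl : Int M (fun q : ι × ι => lt q.1 q.2)) :
    IntF M (fun q : IPow M (ι × (α ⊕ IPm M α)) × IPm M α => Fs lt q.1 q.2) := by
  have h1 := int_Ad (M := M) (α := α) (ι := ι) hl
  unfold Fs
  (repeat' (first | with_reducible exact IntF.id | with_reducible exact IntF.fst' | with_reducible exact IntF.snd' | with_reducible exact IntF.const _ | with_reducible exact Int.const _ | assumption | with_reducible apply Int.and | with_reducible apply Int.or | with_reducible apply Int.not | with_reducible apply Int.imp | with_reducible apply Int.iff | with_reducible apply Int.ne | with_reducible apply Int.eq | with_reducible apply Int.mem | with_reducible apply Int.subset | with_reducible apply Int.ltN | with_reducible apply Int.leN | with_reducible apply Int.fin |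 with_reducible apply Int.unique | with_reducible apply Int.all | with_reducible apply Int.ex | with_reducible apply IntF.fst | with_reducible apply IntF.snd | with_reducible apply IntF.app | with_reducible apply IntF.ite | with_reducible apply IntF.sep | with_reducible apply IntF.lam | with_reducible apply IntF.insert | with_reducible apply IntF.singleton | with_reducible apply IntF.union | with_reducible apply IntF.inter | with_reducible apply IntF.sdiff | with_reducible apply IntF.isUnion | with_reducible apply IntF.iimage | with_reducible apply IntF.the | with_reducible apply IntF.irec | with_reducible_and_instances apply IntF.add | with_reducible_and_instances apply IntF.mul | with_reducible apply IntF.succ | with_reducible apply IntF.val | (with_reducible refine Int.comp ?_ ?_; assumption) | (with_reducible refine Int.comp₂ ?_ ?_ ?_; assumption) | (with_reducible refine Int.comp₃ ?_ ?_ ?_ ?_; assumption) | (with_reducible refine Int.comp₄ ?_ ?_ ?_ ?_ ?_; assumption) | (with_reducible refine IntF.comp ?_ ?_; assumption)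 | (with_reducible refine IntF.comp₂ ?_ ?_ ?_; assumption) | (with_reducible refine IntF.comp₃ ?_ ?_ ?_ ?_; assumption) | with_reducible apply IntF.inl | with_reducible apply IntF.inr | with_reducible apply IntF.pair))

variable {lt : ι → ι → Prop} {s : IPow M (ι × (α ⊕ IPm M α))} {σ : IPm M α}

theorem mem_Fs (hl : Int M (fun q : ι × ι => lt q.1 q.2)) {i : ι} {v : α ⊕ IPm M α} :
    (i, v) ∈ Fs lt s σ ↔ (i, v) ∈ s ∨ Ad lt s σ i v := by
  have h1 := int_Ad (M := M) (α := α) (ι := ι) hl
  unfold Fs
  rw [mem_union, mem_sep (by (repeat' (first | with_reducible exact IntF.id | with_reducible exact IntF.fst' | with_reducible exact IntF.snd' | with_reducible exact IntF.const _ | with_reducible exact Int.const _ | assumption | with_reducible apply Int.and | with_reducible apply Int.or | with_reducible apply Int.not | with_reducible apply Int.imp | with_reducible apply Int.iff | with_reducible apply Int.ne | with_reducible apply Int.eq | with_reducible apply Int.mem | with_reducible apply Int.subset | with_reducible apply Int.ltN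 | with_reducible apply Int.leN | with_reducible apply Int.fin | with_reducible apply Int.unique | with_reducible apply Int.all | with_reducible apply Int.ex | with_reducible apply IntF.fst | with_reducible apply IntF.snd | with_reducible apply IntF.app | with_reducible apply IntF.ite | with_reducible apply IntF.sep | with_reducible apply IntF.lam | with_reducible apply IntF.insert | with_reducible apply IntF.singleton | with_reducible apply IntF.union | with_reducible apply IntF.inter | with_reducible apply IntF.sdiff | with_reducible apply IntF.isUnion | with_reducible apply IntF.iimage | with_reducible apply IntF.the | with_reducible apply IntF.irec | with_reducible_and_instances apply IntF.add | with_reducible_and_instances apply IntF.mul | with_reducible apply IntF.succ | with_reducible apply IntF.val | (with_reducible refine Int.comp ?_ ?_; assumption) | (with_reducible refine Int.comp₂ ?_ ?_ ?_; assumption) | (with_reducible refine Int.comp₃ ?_ ?_ ?_ ?_; assumption) | (with_reducible refine Int.comp₄ ?_ ?_ ?_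 ?_ ?_; assumption) | (with_reducible refine IntF.comp ?_ ?_; assumption) | (with_reducible refine IntF.comp₂ ?_ ?_ ?_; assumption) | (with_reducible refine IntF.comp₃ ?_ ?_ ?_ ?_; assumption) | with_reducible apply IntF.inl | with_reducible apply IntF.inr | with_reducible apply IntF.pair)))]

theorem Fst.unique (hW : IWo M lt) {i j : ι} (h : Fst lt s i) (h' : Fst lt s j) : i = j := by
  rcases hW.tri i j with h1 | h1 | h1
  · exact absurd ((h i).1 ((h' i).2 h1)) (hW.irr _)
  · exact h1
  · exact absurd ((h' j).1 ((h j).2 h1)) (hW.irr _)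

theorem Fst.not_dm (hW : IWo M lt) {i : ι} (h : Fst lt s i) : ¬ dm s i := fun h' =>
  hW.irr _ ((h i).1 h')

theorem valid_Fs (hW : IWo M lt) (h : Valid lt s) (hσ : Thr σ)
    (hK : (∃ i, Fst lt s i) → ¬ KK s σ) : Valid lt (Fs lt s σ) := by
  have hl := hW.int
  -- the new points
  have he : ∀ i x, elt (Fs lt s σ) i x → elt s i x ∨ (∃ ρ, cyc' s i ρ ∧ Dst ρ σ x) ∨
      ((¬ ∃ (i' : ι) (ρ : IPm M α) (x : α), cyc' s i' ρ ∧ Dst ρ σ x) ∧ Fst lt s i ∧
        (∃ x, σ.1 x ≠ x ∧ EE s x) ∧ Nel s σ x) := by
    intro i x hx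
    rcases (mem_Fs hl).1 hx with h1 | ⟨ρ, y, h1, h2, h3⟩ | ⟨h1, h2, ⟨h3, y, h4, h5⟩ | ⟨_, h3⟩⟩
    · exact Or.inl h1
    · obtain rfl := Sum.inl_injective h3
      exact Or.inr (Or.inl ⟨ρ, h1, h2⟩)
    · obtain rfl := Sum.inl_injective h5
      exact Or.inr (Or.inr ⟨h1, h2, h3, h4⟩)
    · exact absurd h3 (by simp)
  have hc : ∀ i (ρ : IPm M α), (i, Sum.inr ρ) ∈ Fs lt s σ → (i, Sum.inr ρ) ∈ s ∨
      ((¬ ∃ (i' : ι) (ρ : IPm M α) (x : α), cyc' s i' ρ ∧ Dst ρ σ x) ∧ Fst lt s i ∧
        (∀ x, σ.1 x ≠ x → ¬ EE s x) ∧ ρ = σ) := by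
    intro i ρ hx
    rcases (mem_Fs hl).1 hx with h1 | ⟨ρ', y, h1, h2, h3⟩ | ⟨h1, h2, ⟨h3, y, h4, h5⟩ | ⟨h3, h4⟩⟩
    · exact Or.inl h1
    · exact absurd h3 (by simp)
    · exact absurd h5 (by simp)
    · exact Or.inr ⟨h1, h2, h3, Sum.inr_injective h4⟩
  have hmono : ∀ i v, (i, v) ∈ s → (i, v) ∈ Fs lt s σ := fun i v hv => (mem_Fs hl).2 (Or.inl hv)
  have hdm : ∀ i, dm (Fs lt s σ) i → dm s i ∨ Fst lt s i := by
    rintro i ⟨v | ρ, hv⟩
    · rcases he i v hv with h1 | ⟨ρ, h1, _⟩ | ⟨_, h1, _⟩
      · exact Or.inl ⟨_, h1⟩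
      · exact Or.inl ⟨_, h1.1⟩
      · exact Or.inr h1
    · rcases hc i ρ hv with h1 | ⟨_, h1, _⟩
      · exact Or.inl ⟨_, h1⟩
      · exact Or.inr h1
  -- no splitting: supports are equal or disjoint
  have hns : (¬ ∃ (i' : ι) (ρ : IPm M α) (x : α), cyc' s i' ρ ∧ Dst ρ σ x) → ∀ i ρ w,
      cyc' s i ρ → ρ.1 w ≠ w → σ.1 w ≠ w → (∀ x, ρ.1 x ≠ x → σ.1 x ≠ x) := by
    intro h1 i ρ w h2 h3 h4 x hx hx'
    obtain ⟨y, hy⟩ := exists_Dst (h.2.2.2.1 i ρ h2.1) ⟨w, h3, h4⟩ ⟨x, hx, hx'⟩
    exact h1 ⟨i, ρ, y, h2, hy⟩
  have hob : ∀ i x, ob (Fs lt s σ) i x → ob s i x ∨ (Fst lt s i ∧ ¬ ∃ j, ob s j x) := by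
    rintro i x (hx | ⟨ρ, ⟨hρ, hρ'⟩, hx⟩)
    · rcases he i x hx with h1 | ⟨ρ, h1, h2⟩ | ⟨h1, h2, ⟨w, hw, j, hj⟩, h3⟩
      · exact Or.inl (Or.inl h1)
      · exact Or.inl (Or.inr ⟨ρ, h1, h2.1⟩)
      · refine Or.inr ⟨h2, ?_⟩
        rintro ⟨k, h4 | ⟨ρ, h4, h5⟩⟩
        · exact h3.2.1 ⟨k, h4⟩
        · have h6 := hns h1 k ρ x h4 h5 h3.1
          have h7 := hσ.supp (h.2.2.2.1 k ρ h4.1) h6 w hw
          have h8 := h.2.2.2.2 j k w (Or.inl hj) (Or.inr ⟨ρ, h4, h7⟩)
          rw [h8] at hj
          exact h4.2 ⟨w, hj⟩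
    · rcases hc i ρ hρ with h1 | ⟨h1, h2, h3, rfl⟩
      · refine Or.inl (Or.inr ⟨ρ, ⟨h1, fun ⟨y, hy⟩ => hρ' ⟨y, hmono _ _ hy⟩⟩, hx⟩)
      · refine Or.inr ⟨h2, ?_⟩
        rintro ⟨k, h4 | ⟨τ, h4, h5⟩⟩
        · exact h3 x hx ⟨k, h4⟩
        · have h6 := hns h1 k τ x h4 h5 hx
          exact hK ⟨i, h2⟩ (Or.inr ⟨k, τ, h4, hσ.same (h.2.2.2.1 k τ h4.1) h6⟩)
  refine ⟨?_, ?_, ?_, ?_, ?_⟩
  · intro i j hi hij
    have h1 : dm s j := by
      rcases hdm i hi with h1 | h1
      · exact h.1 i j h1 hij
      · exact (h1 j).2 hij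
    obtain ⟨v, hv⟩ := h1
    exact ⟨v, hmono _ _ hv⟩
  · intro i x x' hx hx'
    rcases he i x hx with h1 | ⟨ρ, h1, h2⟩ | ⟨h1, h2, _, h3⟩ <;>
      rcases he i x' hx' with h1' | ⟨ρ', h1', h2'⟩ | ⟨h1', h2', _, h3'⟩
    · exact h.2.1 i x x' h1 h1'
    · exact absurd ⟨x, h1⟩ h1'.2
    · exact absurd ⟨_, h1⟩ (h2'.not_dm hW)
    · exact absurd ⟨x', h1'⟩ h1.2
    · obtain rfl := h.2.2.1 i ρ ρ' h1.1 h1'.1
      exact h2.unique (h.2.2.2.1 i ρ h1.1) h2'
    · exact absurd ⟨_, h1.1⟩ (h2'.not_dm hW)
    · exact absurd ⟨_, h1'⟩ (h2.not_dm hW)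
    · exact absurd ⟨_, h1'.1⟩ (h2.not_dm hW)
    · exact h3.unique h3'
  · intro i ρ ρ' hρ hρ'
    rcases hc i ρ hρ with h1 | ⟨h1, h2, h3, h4⟩ <;>
      rcases hc i ρ' hρ' with h1' | ⟨h1', h2', h3', h4'⟩
    · exact h.2.2.1 i ρ ρ' h1 h1'
    · exact absurd ⟨_, h1⟩ (h2'.not_dm hW)
    · exact absurd ⟨_, h1'⟩ (h2.not_dm hW)
    · rw [h4, h4']
  · intro i ρ hρ
    rcases hc i ρ hρ with h1 | ⟨h1, h2, h3, h4⟩
    · exact h.2.2.2.1 i ρ h1
    · rw [h4]
      exact hσ
  · intro i j x hi hj
    rcases hob i x hi with h1 | ⟨h1, h2⟩ <;> rcases hob j x hj with h1' | ⟨h1', h2'⟩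
    · exact h.2.2.2.2 i j x h1 h1'
    · exact absurd ⟨i, h1⟩ h2'
    · exact absurd ⟨j, h1'⟩ h2
    · exact h1.unique hW h1'

theorem Fs_ne (hW : IWo M lt) (h : Valid lt s) (hσ : Thr σ) {i : ι} (hi : Fst lt s i)
    (hK : ¬ KK s σ) : Fs lt s σ ≠ s := by
  have hl := hW.int
  intro he
  by_cases h1 : ∃ (i' : ι) (ρ : IPm M α) (x : α), cyc' s i' ρ ∧ Dst ρ σ x
  · obtain ⟨j, ρ, x, h2, h3⟩ := h1
    have h4 : (j, (Sum.inl x : α ⊕ IPm M α)) ∈ Fs lt s σ :=
      (mem_Fs hl).2 (Or.inr (Or.inl ⟨ρ, x, h2, h3, rfl⟩))
    rw [he] at h4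
    exact h2.2 ⟨x, h4⟩
  · by_cases h2 : ∃ x, σ.1 x ≠ x ∧ EE s x
    · have h3 : ∃ x, σ.1 x ≠ x ∧ ¬ EE s x := by
        by_contra hc
        push Not at hc
        obtain ⟨x, y, z, hC⟩ := hσ
        obtain ⟨i₁, h₁⟩ := hc x (hC.moves.2 (Or.inl rfl))
        obtain ⟨i₂, h₂⟩ := hc y (hC.moves.2 (Or.inr (Or.inl rfl)))
        obtain ⟨i₃, h₃⟩ := hc z (hC.moves.2 (Or.inr (Or.inr rfl)))
        exact hK (Or.inl ⟨i₁, i₂, i₃, x, y, z, h₁, h₂, h₃, hC⟩)
      obtain ⟨y, hy⟩ := exists_Nel hσ h2 h3
      have h4 : (i, (Sum.inl y : α ⊕ IPm M α)) ∈ Fs lt s σ :=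
        (mem_Fs hl).2 (Or.inr (Or.inr ⟨h1, hi, Or.inl ⟨h2, y, hy, rfl⟩⟩))
      rw [he] at h4
      exact hi.not_dm hW ⟨_, h4⟩
    · push Not at h2
      have h4 : (i, (Sum.inr σ : α ⊕ IPm M α)) ∈ Fs lt s σ :=
        (mem_Fs hl).2 (Or.inr (Or.inr ⟨h1, hi, Or.inr ⟨h2, rfl⟩⟩))
      rw [he] at h4
      exact hi.not_dm hW ⟨_, h4⟩

/-- Unions of chains of valid states. -/
theorem valid_chain {C : IPow M (IPow M (ι × (α ⊕ IPm M α)))} (hC : ∀ s, s ∈ C → Valid lt s)
    (hch : IsChn C) : Valid lt (isUnion C) := by
  have hm : ∀ q, q ∈ isUnion C ↔ ∃ s, s ∈ C ∧ q ∈ s := fun q => mem_isUnion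
  -- the support
  have hob : ∀ i x, ob (isUnion C) i x → ∃ s, s ∈ C ∧ ∀ t, t ∈ C → s ⊆ t → ob t i x := by
    rintro i x (hx | ⟨ρ, ⟨hρ, hρ'⟩, hx⟩)
    · obtain ⟨s, hs, h1⟩ := (hm _).1 hx
      exact ⟨s, hs, fun t _ hst => Or.inl (hst _ h1)⟩
    · obtain ⟨s, hs, h1⟩ := (hm _).1 hρ
      exact ⟨s, hs, fun t ht hst => Or.inr ⟨ρ, ⟨hst _ h1, fun ⟨y, hy⟩ =>
        hρ' ⟨y, (hm _).2 ⟨t, ht, hy⟩⟩⟩, hx⟩⟩
  have two : ∀ q q', q ∈ isUnion C → q' ∈ isUnion C → ∃ s, s ∈ C ∧ q ∈ s ∧ q' ∈ s := by
    intro q q' hq hq'
    obtain ⟨s, hs, h1⟩ := (hm _).1 hq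
    obtain ⟨t, ht, h2⟩ := (hm _).1 hq'
    rcases hch s t hs ht with h3 | h3
    · exact ⟨t, ht, h3 _ h1, h2⟩
    · exact ⟨s, hs, h1, h3 _ h2⟩
  refine ⟨?_, ?_, ?_, ?_, ?_⟩
  · rintro i j ⟨v, hv⟩ hij
    obtain ⟨s, hs, h1⟩ := (hm _).1 hv
    obtain ⟨w, hw⟩ := (hC s hs).1 i j ⟨v, h1⟩ hij
    exact ⟨w, (hm _).2 ⟨s, hs, hw⟩⟩
  · intro i x x' hx hx'
    obtain ⟨s, hs, h1, h2⟩ := two _ _ hx hx'
    exact (hC s hs).2.1 i x x' h1 h2
  · intro i ρ ρ' hx hx'
    obtain ⟨s, hs, h1, h2⟩ := two _ _ hx hx'
    exact (hC s hs).2.2.1 i ρ ρ' h1 h2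
  · intro i ρ hx
    obtain ⟨s, hs, h1⟩ := (hm _).1 hx
    exact (hC s hs).2.2.2.1 i ρ h1
  · intro i j x hi hj
    obtain ⟨s, hs, h1⟩ := hob i x hi
    obtain ⟨t, ht, h2⟩ := hob j x hj
    rcases hch s t hs ht with h3 | h3
    · exact (hC t ht).2.2.2.2 i j x (h1 t ht h3) (h2 t ht fun _ => id)
    · exact (hC s hs).2.2.2.2 i j x (h1 s hs fun _ => id) (h2 s hs h3)

end Pool.Agent.R596
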