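import Pool.Agent.R596.SyBasic
import Pool.Agent.W868.Ext

/-!
# The symmetric submodel is a model of ZF
-/

set_option autoImplicit false
set_option linter.unusedSectionVars false

namespace Pool.Agent.R596.SY.T_ZF

open Pool.Agent.W868 Pool.Agent.W868.PName Pool.Agent.W868.Pkg Pool.Agent.R596.SY

variable {P : Type} [Preorder P] [OrderTop P] {S : Sys P} {π : Pkg P}

theorem trans_M {x y : ZFSet.{0}} (hx : x ∈ S.Ms π) (hy : y ∈ x) : y ∈ S.Ms π := by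
  obtain ⟨a, ⟨ha, hS⟩, rfl⟩ := hx
  obtain ⟨b, hb, c, hc, -, rfl⟩ := π.mem_val.1 hy
  exact ⟨b, ⟨hb, hS.el hc⟩, rfl⟩

theorem exists_fml' {n : ℕ} (φ : Fml ZFSet.{0} n) (hφ : φ.Over (S.Ms π)) :
    ∃ ψ : Fml (PName P) n, ψ.Over {x | x ∈ π.N ∧ S.HS x} ∧
      ∀ v, Sat (S.Ms π) π.val ψ v ↔ Sat (S.Ms π) id φ v := by
  have h : ∀ a : ZFSet.{0}, ∃ x : PName P, a ∈ S.Ms π → (x ∈ π.N ∧ S.HS x) ∧ π.val x = a := by
    intro a
    by_cases ha : a ∈ S.Ms π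
    · obtain ⟨x, hx, hxa⟩ := ha
      exact ⟨x, fun _ => ⟨hx, hxa⟩⟩
    · exact ⟨emp, fun h => absurd h ha⟩
  choose f hf using h
  refine ⟨φ.map f, (over_map f φ).2 (Fml.Over.mono (fun a ha => (hf a ha).1) hφ), fun v => ?_⟩
  rw [sat_map]
  exact sat_congr _ (fun a ha => (hf a ha).2) φ hφ v

theorem over_N {n : ℕ} {φ : Fml (PName P) n} (h : φ.Over {x | x ∈ π.N ∧ S.HS x}) :
    φ.Over π.N := Fml.Over.mono (φ := φ) (fun _ ha => ha.1) h

theorem over_HS {n : ℕ} {φ : Fml (PName P) n} (h : φ.Over {x | x ∈ π.N ∧ S.HS x}) :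
    φ.Over {x | S.HS x} := Fml.Over.mono (φ := φ) (fun _ ha => ha.2) h

section cld

variable (hcl : S.Cld π)

include hcl

theorem sepS_mem {n : ℕ} {φ : Fml (PName P) (n + 1)} {v : Fin n → PName P} {x : PName P}
    (hφ : φ.Over π.N) (hv : ∀ i, v i ∈ π.N) (hx : x ∈ π.N) : S.sepS φ v x ∈ π.N :=
  (hcl S.rSp (by simp [Sys.rules]) ⟨n + 1, φ, Fin.cons x v, π.g 0⟩
    ⟨hφ, cons_mem hx hv, π.gC 0⟩).1

theorem orbPr_mem {x y : PName P} (hx : x ∈ π.N) (hy : y ∈ π.N) :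
    (S.orb Bool fun b => cond b x y) ∈ π.N :=
  (hcl S.rPr (by simp [Sys.rules]) _ (query2 hx hy (π.gC 0))).1

theorem orbUn_mem {x : PName P} (hx : x ∈ π.N) :
    (S.orb (Σ i : x.idx, (x.chd i).idx) fun t => (x.chd t.1).chd t.2) ∈ π.N :=
  (hcl S.rUn (by simp [Sys.rules]) _ (query2 hx hx (π.gC 0))).1

theorem orbPw_mem {x : PName P} (hx : x ∈ π.N) :
    (S.orb {T : x.idx → P → Prop // S.HS (subI x T)} fun T => subI x T.1) ∈ π.N :=
  (hcl S.rPw (by simp [Sys.rules]) _ (query2 hx hx (π.gC 0))).1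

theorem witS_mem {n : ℕ} {φ : Fml (PName P) (n + 1)} {v : Fin n → PName P} (hφ : φ.Over π.N)
    (hv : ∀ i, v i ∈ π.N) (k : ℕ) : S.witS φ v (π.g k) ∈ π.N :=
  (hcl S.rWt (by simp [Sys.rules]) ⟨n, .ex φ, v, π.g k⟩ ⟨hφ, hv, π.gC k⟩).1

theorem orbCl_mem {n : ℕ} {φ : Fml (PName P) (n + 2)} {v : Fin n → PName P} {x : PName P}
    (hφ : φ.Over π.N) (hv : ∀ i, v i ∈ π.N) (hx : x ∈ π.N) :
    (S.orb {t : x.idx × P // ∃ w, S.HS w ∧ S.FS φ (Fin.cons w (Fin.cons (x.chd t.1) v)) t.2}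
      fun t => S.witS φ (Fin.cons (x.chd t.1.1) v) t.1.2) ∈ π.N :=
  (hcl S.rCl (by simp [Sys.rules]) ⟨n + 1, .ex φ, Fin.cons x v, π.g 0⟩
    ⟨hφ, cons_mem hx hv, π.gC 0⟩).1

end cld

theorem witS_spec {n : ℕ} {φ : Fml (PName P) (n + 1)} {v : Fin n → PName P} {p : P}
    (h : ∃ w, S.HS w ∧ S.FS φ (Fin.cons w v) p) :
    S.HS (S.witS φ v p) ∧ S.FS φ (Fin.cons (S.witS φ v p) v) p := by
  unfold Sys.witS
  rw [dif_pos h]
  exact h.choose_spec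

section main

variable (hT : S_TRU) (hcl : S.Cld π)

include hT hcl

theorem val_sepS {n : ℕ} {φ : Fml (PName P) (n + 1)} {v : Fin n → PName P} {x : PName P}
    (hφ : φ.Over {x | x ∈ π.N ∧ S.HS x}) (hv : ∀ i, v i ∈ π.N ∧ S.HS (v i)) (hx : S.HS x)
    {z : ZFSet.{0}} :
    z ∈ π.val (S.sepS φ v x) ↔ z ∈ π.val x ∧ Sat (S.Ms π) π.val φ (Fin.cons z (π.val ∘ v)) := by
  constructor
  · intro h
    obtain ⟨w, hw, r, hr, ⟨n, hn⟩, rfl⟩ := π.mem_val.1 h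
    obtain ⟨c, hc, hrc, hf⟩ := el_subN.1 hr
    refine ⟨π.val_mem_val hw hc (hn.trans hrc), ?_⟩
    rw [← comp_cons, hT P S π hcl _ φ hφ _ (cons_mem (S := {x | x ∈ π.N ∧ S.HS x})
      ⟨hw, hx.el hc⟩ hv)]
    exact ⟨n, Sys.FS.mono hf hn⟩
  · rintro ⟨h1, h2⟩
    obtain ⟨w, hw, c, hc, ⟨n, hn⟩, rfl⟩ := π.mem_val.1 h1
    rw [← comp_cons, hT P S π hcl _ φ hφ _ (cons_mem (S := {x | x ∈ π.N ∧ S.HS x})
      ⟨hw, hx.el hc⟩ hv)] at h2
    obtain ⟨m, hm⟩ := h2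
    refine π.val_mem_val (c := π.g (max n m)) (n := max n m) hw ?_ le_rfl
    exact el_subN.2 ⟨c, hc, (π.g_le_left _ _).trans hn, Sys.FS.mono hm (π.g_le_right _ _)⟩

variable (hS : S_SEP)

include hS

theorem separation (φ : Fml ZFSet.{0} 1) (hφ : φ.Over (S.Ms π)) {x : ZFSet.{0}}
    (hx : x ∈ S.Ms π) : ∃ y ∈ S.Ms π, ∀ z, z ∈ y ↔ z ∈ x ∧ Sat (S.Ms π) id φ ![z] := by
  obtain ⟨x, ⟨hx, hxS⟩, rfl⟩ := hx
  obtain ⟨ψ, h1, h2⟩ := exists_fml' φ hφ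
  refine ⟨_, ⟨S.sepS ψ Fin.elim0 x, ⟨sepS_mem hcl (over_N h1) (fun i => i.elim0) hx,
    hS P S _ ψ Fin.elim0 x (over_HS h1) (fun i => i.elim0) hxS⟩, rfl⟩, fun z => ?_⟩
  rw [val_sepS hT hcl h1 (fun i => i.elim0) hxS, h2]
  have h3 : (Fin.cons z (π.val ∘ Fin.elim0) : Fin 1 → ZFSet.{0}) = ![z] := by
    funext i
    fin_cases i
    rfl
  rw [h3]

theorem isZF : IsZF (S.Ms π) where
  trans x hx y hy := trans_M hx hy
  pairing := by
    intro x hx y hy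
    have hx' := hx
    have hy' := hy
    obtain ⟨x, ⟨hxN, hxS⟩, rfl⟩ := hx
    obtain ⟨y, ⟨hyN, hyS⟩, rfl⟩ := hy
    have ho : π.val (S.orb Bool fun b => cond b x y) ∈ S.Ms π :=
      ⟨_, ⟨orbPr_mem hcl hxN hyN, S.hs_orb fun b => by cases b; exacts [hyS, hxS]⟩, rfl⟩
    have h1 : π.val x ∈ π.val (S.orb Bool fun b => cond b x y) :=
      π.val_mem_val (n := 0) hxN (S.el_orb_one (fun b => cond b x y) true) le_top
    have h2 : π.val y ∈ π.val (S.orb Bool fun b => cond b x y) :=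
      π.val_mem_val (n := 0) hyN (S.el_orb_one (fun b => cond b x y) false) le_top
    obtain ⟨w, hw, h3⟩ := separation hT hcl hS
      (.neg (.and (.neg (.eq (Sum.inl 0) (Sum.inr (π.val x))))
        (.neg (.eq (Sum.inl 0) (Sum.inr (π.val y))))))
      (by
        simp only [Fml.Over]
        exact ⟨⟨TOver.inl _, tOver_inr.2 hx'⟩, ⟨TOver.inl _, tOver_inr.2 hy'⟩⟩) ho
    have h4 : w = {π.val x, π.val y} := by
      ext z
      rw [h3, ZFSet.mem_pair]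
      constructor
      · rintro ⟨-, h5⟩
        by_contra h6
        rw [not_or] at h6
        exact h5 ⟨h6.1, h6.2⟩
      · rintro (rfl | rfl)
        · exact ⟨h1, fun h => h.1 rfl⟩
        · exact ⟨h2, fun h => h.2 rfl⟩
    exact h4 ▸ hw
  union := by
    intro x hx
    have hx' := hx
    obtain ⟨x, ⟨hxN, hxS⟩, rfl⟩ := hx
    set o := S.orb (Σ i : x.idx, (x.chd i).idx) (fun t => (x.chd t.1).chd t.2) with ho
    have hch : ∀ i, S.HS (x.chd i) := fun i => hxS.el ⟨i, rfl, rfl⟩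
    have hoM : π.val o ∈ S.Ms π :=
      ⟨o, ⟨orbUn_mem hcl hxN, S.hs_orb fun t => (hch t.1).el ⟨t.2, rfl, rfl⟩⟩, rfl⟩
    have h1 : ∀ z, z ∈ (ZFSet.sUnion (π.val x) : ZFSet.{0}) → z ∈ π.val o := by
      intro z hz
      obtain ⟨y, hy, hz⟩ := ZFSet.mem_sUnion.1 hz
      obtain ⟨y, hyN, c, ⟨i, rfl, rfl⟩, -, rfl⟩ := π.mem_val.1 hy
      obtain ⟨w, hw, d, ⟨j, rfl, rfl⟩, -, rfl⟩ := π.mem_val.1 hz
      exact π.val_mem_val (n := 0) hw
        (S.el_orb_one (fun t : (Σ i : x.idx, (x.chd i).idx) => (x.chd t.1).chd t.2) ⟨i, j⟩) le_top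
    obtain ⟨w, hw, h3⟩ := separation hT hcl hS
      (.ex (.and (.mem (Sum.inl 0) (Sum.inr (π.val x))) (.mem (Sum.inl 1) (Sum.inl 0))))
      (by
        simp only [Fml.Over]
        exact ⟨⟨TOver.inl _, tOver_inr.2 hx'⟩, ⟨TOver.inl _, TOver.inl _⟩⟩) hoM
    have h4 : w = (ZFSet.sUnion (π.val x) : ZFSet.{0}) := by
      ext z
      rw [h3]
      constructor
      · rintro ⟨-, a, -, h5, h6⟩
        exact ZFSet.mem_sUnion.2 ⟨a, h5, h6⟩
      · intro hz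
        obtain ⟨a, ha, hza⟩ := ZFSet.mem_sUnion.1 hz
        exact ⟨h1 z hz, a, trans_M hx' ha, ha, hza⟩
    exact h4 ▸ hw
  infinity := by
    rw [← π.hat_omega]
    exact ⟨check ZFSet.omega, ⟨π.om, S.hs_check _⟩, rfl⟩
  power := by
    intro x hx
    have hx' := hx
    obtain ⟨x, ⟨hxN, hxS⟩, rfl⟩ := hx
    set o := S.orb {T : x.idx → P → Prop // S.HS (subI x T)} (fun T => subI x T.1) with ho
    have hoM : π.val o ∈ S.Ms π := ⟨o, ⟨orbPw_mem hcl hxN, S.hs_orb fun T => T.2⟩, rfl⟩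
    have h : ∀ z, z ∈ S.Ms π → z ⊆ π.val x → z ∈ π.val o := by
      rintro _ ⟨y, ⟨hy, hyS⟩, rfl⟩ hyx
      have hφ : (Fml.mem (Sum.inl 0) (Sum.inr y) : Fml (PName P) 1).Over
          {x | x ∈ π.N ∧ S.HS x} := ⟨TOver.inl _, tOver_inr.2 ⟨hy, hyS⟩⟩
      have h1 : π.val (S.sepS (.mem (Sum.inl 0) (Sum.inr y)) Fin.elim0 x) = π.val y := by
        ext z
        rw [val_sepS hT hcl hφ (fun i => i.elim0) hxS]
        exact ⟨fun h => h.2, fun h => ⟨hyx h, h⟩⟩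
      have h2 : S.HS (S.sepS (.mem (Sum.inl 0) (Sum.inr y)) Fin.elim0 x) :=
        hS P S _ _ _ _ (over_HS hφ) (fun i => i.elim0) hxS
      rw [← h1]
      exact π.val_mem_val (n := 0) (sepS_mem hcl (over_N hφ) (fun i => i.elim0) hxN)
        (S.el_orb_one (fun T : {T : x.idx → P → Prop // S.HS (subI x T)} => subI x T.1)
          ⟨fun i r => S.FS (.mem (Sum.inl 0) (Sum.inr y)) (Fin.cons (x.chd i) Fin.elim0) r,
            h2⟩) le_top
    obtain ⟨w, hw, h3⟩ := separation hT hcl hS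
      (.neg (.ex (.and (.mem (Sum.inl 0) (Sum.inl 1))
        (.neg (.mem (Sum.inl 0) (Sum.inr (π.val x)))))))
      (by
        simp only [Fml.Over]
        exact ⟨⟨TOver.inl _, TOver.inl _⟩, ⟨TOver.inl _, tOver_inr.2 hx'⟩⟩) hoM
    refine ⟨w, hw, fun z => ?_⟩
    rw [h3]
    constructor
    · rintro ⟨h1, h2⟩
      have hz := trans_M hoM h1
      refine ⟨hz, fun w hw => ?_⟩
      by_contra h4
      exact h2 ⟨w, trans_M hz hw, hw, h4⟩
    · rintro ⟨h1, h2⟩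
      refine ⟨h z h1 h2, ?_⟩
      rintro ⟨w, -, h4, h5⟩
      exact h5 (h2 h4)
  separation φ hφ x hx := separation hT hcl hS φ hφ hx
  replacement := by
    intro φ hφ x hx hf
    have hx' := hx
    obtain ⟨x, ⟨hxN, hxS⟩, rfl⟩ := hx
    have hφ1 : (φ.subst (![Sum.inl 1, Sum.inl 0] : Fin 2 → Fin 2 ⊕ ZFSet.{0})).Over (S.Ms π) := by
      refine over_subst _ _ (fun k => ?_) hφ
      fin_cases k
      · exact TOver.inl _
      · exact TOver.inl _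
    obtain ⟨ψ, h1, h2⟩ := exists_fml' _ hφ1
    set o := S.orb {t : x.idx × P // ∃ w, S.HS w ∧
        S.FS ψ (Fin.cons w (Fin.cons (x.chd t.1) Fin.elim0)) t.2}
      (fun t => S.witS ψ (Fin.cons (x.chd t.1.1) Fin.elim0) t.1.2) with ho
    have hoM : π.val o ∈ S.Ms π :=
      ⟨o, ⟨orbCl_mem hcl (over_N h1) (fun i => i.elim0) hxN,
        S.hs_orb fun t => (witS_spec t.2).1⟩, rfl⟩
    have hc : ∀ z ∈ π.val x, ∀ w ∈ S.Ms π, Sat (S.Ms π) id φ ![z, w] →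
        ∃ w ∈ π.val o, Sat (S.Ms π) id φ ![z, w] := by
      intro z hz w hw hs
      obtain ⟨a, ha, c, ⟨i, rfl, rfl⟩, ⟨n, hn⟩, rfl⟩ := π.mem_val.1 hz
      obtain ⟨b, ⟨hb, hbS⟩, rfl⟩ := hw
      have haS : S.HS (x.chd i) := hxS.el ⟨i, rfl, rfl⟩
      have h3 : ∀ u : PName P, u ∈ π.N → S.HS u →
          (Sat (S.Ms π) id φ ![π.val (x.chd i), π.val u] ↔
          ∃ k, S.FS ψ (Fin.cons u (Fin.cons (x.chd i) Fin.elim0)) (π.g k)) := by
        intro u hu huS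
        rw [← hT P S π hcl _ ψ h1 _ (cons_mem (S := {x | x ∈ π.N ∧ S.HS x}) ⟨hu, huS⟩
          (cons_mem (S := {x | x ∈ π.N ∧ S.HS x}) ⟨ha, haS⟩ fun i => i.elim0)), h2, sat_subst]
        have h4 : (fun k : Fin 2 => Sum.elim (π.val ∘ (Fin.cons u (Fin.cons (x.chd i)
            Fin.elim0) : Fin 2 → PName P)) id
            ((![Sum.inl 1, Sum.inl 0] : Fin 2 → Fin 2 ⊕ ZFSet.{0}) k)) =
            ![π.val (x.chd i), π.val u] := by
          funext i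
          fin_cases i <;> rfl
        rw [h4]
      obtain ⟨k, hk⟩ := (h3 b hb hbS).1 hs
      have hex : ∃ w, S.HS w ∧ S.FS ψ (Fin.cons w (Fin.cons (x.chd i) Fin.elim0)) (π.g k) :=
        ⟨b, hbS, hk⟩
      have h5 := S.el_orb_one (fun t : {t : x.idx × P // ∃ w, S.HS w ∧
        S.FS ψ (Fin.cons w (Fin.cons (x.chd t.1) Fin.elim0)) t.2} =>
          S.witS ψ (Fin.cons (x.chd t.1.1) Fin.elim0) t.1.2) ⟨(i, π.g k), hex⟩
      have h6 := witS_mem hcl (φ := ψ) (v := Fin.cons (x.chd i) Fin.elim0) (over_N h1)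
        (cons_mem ha fun i => i.elim0) k
      have h7 := witS_spec hex
      exact ⟨_, π.val_mem_val (n := 0) h6 h5 le_top, (h3 _ h6 h7.1).2 ⟨_, h7.2⟩⟩
    obtain ⟨y, hy, h3⟩ := separation hT hcl hS
      (.ex (.and (.mem (Sum.inl 0) (Sum.inr (π.val x))) φ))
      ⟨⟨TOver.inl _, tOver_inr.2 hx'⟩, hφ⟩ hoM
    refine ⟨y, hy, fun w => ?_⟩
    rw [h3]
    have h5 : ∀ z, (Fin.cons z ![w] : Fin 2 → ZFSet.{0}) = ![z, w] := by
      intro z
      funext i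
      fin_cases i <;> rfl
    constructor
    · rintro ⟨h6, z, hz, h7, h8⟩
      refine ⟨trans_M hoM h6, z, h7, ?_⟩
      rw [h5] at h8
      exact h8
    · rintro ⟨h6, z, hz, h7⟩
      obtain ⟨w', hw', h8⟩ := hc z hz w h6 h7
      obtain ⟨w'', -, h9⟩ := hf z hz
      have h10 : w' = w := by
        rw [h9 w' ⟨trans_M hoM hw', h8⟩, h9 w ⟨h6, h7⟩]
      subst h10
      refine ⟨hw', z, trans_M hx' hz, hz, ?_⟩
      rw [h5]
      exact h7

end main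

theorem main (hT : S_TRU) (hS : S_SEP) : S_ZF := by
  intro P _ _ S π hcl
  exact isZF hT hcl hS

end Pool.Agent.R596.SY.T_ZF
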