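import Pool.Agent.R596.Cnt2
import Pool.Agent.R596.Diag

/-!
# No injection from the finitary partitions of an infinite set to the 3-cycles
-/

set_option maxHeartbeats 400000
set_option linter.all false

namespace Pool.Agent.R596

open FirstOrder FirstOrder.Language
open Pool.Agent.Helper672.ZFA
open Pool.Agent.H310
open Pool.Agent.W924

universe u u₁ u₂ u₃ u₄

variable {M : Type u} [L.Structure M] [hM : IsModel M]
variable {α : Type u₁} {ι : Type u₂} [ITy M α] [ITy M ι]

/-- Finite sets embed in infinite sets. -/
theorem exists_emb (hinf : ¬ FinP M (fun _ : α => True)) {D : IPow M ι} (hD : IFin D) :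
    ∃ e : IFun M ι α, ∀ i j, i ∈ D → j ∈ D → e i = e j → i = j := by
  classical
  have hne : Nonempty α := by
    by_contra h
    exact hinf ⟨∅, IFin.empty, fun x => absurd ⟨x⟩ h⟩
  obtain ⟨c⟩ := hne
  refine IFin.ind (p := fun D => ∃ e : IFun M ι α, ∀ i j, i ∈ D → j ∈ D → e i = e j → i = j)
    (by (repeat' (first | with_reducible exact IntF.id | with_reducible exact IntF.fst' | with_reducible exact IntF.snd' | with_reducible exact IntF.const _ | with_reducible exact Int.const _ | assumption | with_reducible apply Int.and | with_reducible apply Int.or | with_reducible apply Int.not | with_reducible apply Int.imp | with_reducible apply Int.iff | with_reducible apply Int.ne | with_reducible apply Int.eq | with_reducible apply Int.mem | with_reducible apply Int.subset | with_reducible apply Int.ltN | with_reducible apply Int.leN | with_reducible apply Int.fin | with_reducible apply Int.unique | with_reducible apply Int.all | with_reducible apply Int.ex | with_reducible apply IntF.fst | with_reducible apply IntF.snd | with_reducible apply IntF.app | with_reducible apply IntF.ite | with_reducible apply IntF.sep | with_reducible apply IntF.lam |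 with_reducible apply IntF.insert | with_reducible apply IntF.singleton | with_reducible apply IntF.union | with_reducible apply IntF.inter | with_reducible apply IntF.sdiff | with_reducible apply IntF.isUnion | with_reducible apply IntF.iimage | with_reducible apply IntF.the | with_reducible apply IntF.irec | with_reducible_and_instances apply IntF.add | with_reducible_and_instances apply IntF.mul | with_reducible apply IntF.succ | with_reducible apply IntF.val | (with_reducible refine Int.comp ?_ ?_; assumption) | (with_reducible refine Int.comp₂ ?_ ?_ ?_; assumption) | (with_reducible refine Int.comp₃ ?_ ?_ ?_ ?_; assumption) | (with_reducible refine Int.comp₄ ?_ ?_ ?_ ?_ ?_; assumption) | (with_reducible refine IntF.comp ?_ ?_; assumption) | (with_reducible refine IntF.comp₂ ?_ ?_ ?_; assumption) | (with_reducible refine IntF.comp₃ ?_ ?_ ?_ ?_; assumption) | with_reducible apply IntF.inl | with_reducible apply IntF.inr | with_reducible apply IntF.pair))) ⟨⟨fun _ => c, IntF.const c⟩, fun i j hi => absurd hi (by simp)⟩ ?_ D hD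
  rintro D a hD ha ⟨e, he⟩
  obtain ⟨x, hx⟩ : ∃ x : α, ¬ ∃ i, i ∈ D ∧ e i = x := by
    by_contra hc
    push Not at hc
    exact hinf ⟨iimage (fun i => e i) D, hD.image e.int, fun x _ => (mem_iimage e.int).2 (hc x)⟩
  have hI : IntF M (fun i : ι => if i = a then x else e i) := by (repeat' (first | with_reducible exact IntF.id | with_reducible exact IntF.fst' | with_reducible exact IntF.snd' | with_reducible exact IntF.const _ | with_reducible exact Int.const _ | assumption | with_reducible apply Int.and | with_reducible apply Int.or | with_reducible apply Int.not | with_reducible apply Int.imp | with_reducible apply Int.iff | with_reducible apply Int.ne | with_reducible apply Int.eq | with_reducible apply Int.mem | with_reducible apply Int.subset | with_reducible apply Int.ltN | with_reducible apply Int.leN | with_reducible apply Int.fin | with_reducible apply Int.unique | with_reducible apply Int.all | with_reducible apply Int.ex | with_reducible apply IntF.fst | with_reducible apply IntF.snd | with_reducible apply IntF.app | with_reducible apply IntF.ite | with_reducible apply IntF.sep | with_reducible apply IntF.lam | with_reducible apply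 IntF.insert | with_reducible apply IntF.singleton | with_reducible apply IntF.union | with_reducible apply IntF.inter | with_reducible apply IntF.sdiff | with_reducible apply IntF.isUnion | with_reducible apply IntF.iimage | with_reducible apply IntF.the | with_reducible apply IntF.irec | with_reducible_and_instances apply IntF.add | with_reducible_and_instances apply IntF.mul | with_reducible apply IntF.succ | with_reducible apply IntF.val | (with_reducible refine Int.comp ?_ ?_; assumption) | (with_reducible refine Int.comp₂ ?_ ?_ ?_; assumption) | (with_reducible refine Int.comp₃ ?_ ?_ ?_ ?_; assumption) | (with_reducible refine Int.comp₄ ?_ ?_ ?_ ?_ ?_; assumption) | (with_reducible refine IntF.comp ?_ ?_; assumption) | (with_reducible refine IntF.comp₂ ?_ ?_ ?_; assumption) | (with_reducible refine IntF.comp₃ ?_ ?_ ?_ ?_; assumption) | with_reducible apply IntF.inl | with_reducible apply IntF.inr | with_reducible apply IntF.pair))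
  refine ⟨⟨_, hI⟩, fun i j hi hj h => ?_⟩
  change (if i = a then x else e i) = (if j = a then x else e j) at h
  by_cases h1 : i = a <;> by_cases h2 : j = a
  · rw [h1, h2]
  · rw [if_pos h1, if_neg h2] at h
    exact absurd ⟨j, (mem_insert.1 hj).resolve_left h2, h.symm⟩ hx
  · rw [if_neg h1, if_pos h2] at h
    exact absurd ⟨i, (mem_insert.1 hi).resolve_left h1, h⟩ hx
  · rw [if_neg h1, if_neg h2] at h
    exact he i j ((mem_insert.1 hi).resolve_left h1) ((mem_insert.1 hj).resolve_left h2) h

variable (M) in
/-- The standard natural numbers. -/
noncomputable def nn : ℕ → INat M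
  | 0 => 0
  | k + 1 => INat.succ (nn k)

theorem nn_lt {j k : ℕ} (h : j < k) : nn M j < nn M k := by
  induction k with
  | zero => exact absurd h (Nat.not_lt_zero _)
  | succ k ih =>
    rcases Nat.lt_succ_iff_lt_or_eq.1 h with h | rfl
    · exact (ih h).trans (INat.lt_succ_self _)
    · exact INat.lt_succ_self _

section

variable {Λ : Type u₃} [ITy M Λ] {lt : Λ → Λ → Prop} {l₀ : Λ}

/-- A single index. -/
noncomputable def sg (l₀ : Λ) (n : INat M) : Ix M Λ := ⟨{(l₀, n)}, IFin.singleton _⟩

theorem mem_sg {l₀ : Λ} {n : INat M} {q : Λ × INat M} : q ∈ (sg l₀ n).1 ↔ q = (l₀, n) :=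
  mem_singleton

theorem sg_lt (hW : IWo M lt) {m n : INat M} (h : m < n) : olt lt (sg l₀ m) (sg l₀ n) := by
  refine ⟨(l₀, n), mem_sg.2 rfl, fun h1 => ?_, fun b hb => ?_⟩
  · have h2 : n = m := congrArg Prod.snd (mem_sg.1 h1)
    exact absurd (h2 ▸ h) (lt_irrefl _)
  · constructor
    · intro h1
      rw [mem_sg.1 h1] at hb
      exact ((plt_iwo hW).asymm hb (Or.inr ⟨rfl, h⟩)).elim
    · intro h1
      rw [mem_sg.1 h1] at hb
      exact ((plt_iwo hW).irr _ hb).elim

/-- The value of the recursion. -/
noncomputable def gB (lt : Λ → Λ → Prop) (f : FEq M α → IPm M α)
    (s : IPow M (Ix M Λ × (α ⊕ IPm M α))) : FinS M (Ix M Λ) :=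
  lst (fun F F' : FinS M (Ix M Λ) => colex (olt lt) F.1 F'.1)
    (fun B => NS s B.1 ∧ ¬ KK s (f (PB s B.1))) ⟨∅, IFin.empty⟩

open Classical in
/-- The value of the recursion. -/
noncomputable def gv (lt : Λ → Λ → Prop) (l₀ : Λ) (f : FEq M α → IPm M α)
    (s : IPow M (Ix M Λ × (α ⊕ IPm M α))) : IPm M α :=
  if IFin (sep M fun i => dm s i) then f (PB s (gB lt f s).1)
  else f (PX (ins0 l₀) s (Xd lt l₀ f s))

theorem int_gB (hW : IWo M lt) {f : FEq M α → IPm M α} (hf : IntF M f) :
    IntF M (fun s : IPow M (Ix M Λ × (α ⊕ IPm M α)) => gB lt f s) := by
  have hI1 := int_NS (M := M) (α := α) (ι := Ix M Λ)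
  have hI2 := int_KK (M := M) (α := α) (ι := Ix M Λ)
  have hI4 := int_PB (M := M) (α := α) (ι := Ix M Λ)
  unfold gB
  exact (olt_iwo hW).fins.intF_lst (p := fun (s : IPow M (Ix M Λ × (α ⊕ IPm M α)))
    (B : FinS M (Ix M Λ)) => NS s B.1 ∧ ¬ KK s (f (PB s B.1))) (by (repeat' (first | with_reducible exact IntF.id | with_reducible exact IntF.fst' | with_reducible exact IntF.snd' | with_reducible exact IntF.const _ | with_reducible exact Int.const _ | assumption | with_reducible apply Int.and | with_reducible apply Int.or | with_reducible apply Int.not | with_reducible apply Int.imp | with_reducible apply Int.iff | with_reducible apply Int.ne | with_reducible apply Int.eq | with_reducible apply Int.mem | with_reducible apply Int.subset | with_reducible apply Int.ltN | with_reducible apply Int.leN | with_reducible apply Int.fin | with_reducible apply Int.unique | with_reducible apply Int.all | with_reducible apply Int.ex | with_reducible apply IntF.fst | with_reducible apply IntF.snd | with_reducible apply IntF.app | with_reducible apply IntF.ite | with_reducible apply IntF.sep | with_reducible apply IntF.lam | with_reducible apply IntF.insert |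 with_reducible apply IntF.singleton | with_reducible apply IntF.union | with_reducible apply IntF.inter | with_reducible apply IntF.sdiff | with_reducible apply IntF.isUnion | with_reducible apply IntF.iimage | with_reducible apply IntF.the | with_reducible apply IntF.irec | with_reducible_and_instances apply IntF.add | with_reducible_and_instances apply IntF.mul | with_reducible apply IntF.succ | with_reducible apply IntF.val | (with_reducible refine Int.comp ?_ ?_; assumption) | (with_reducible refine Int.comp₂ ?_ ?_ ?_; assumption) | (with_reducible refine Int.comp₃ ?_ ?_ ?_ ?_; assumption) | (with_reducible refine Int.comp₄ ?_ ?_ ?_ ?_ ?_; assumption) | (with_reducible refine IntF.comp ?_ ?_; assumption) | (with_reducible refine IntF.comp₂ ?_ ?_ ?_; assumption) | (with_reducible refine IntF.comp₃ ?_ ?_ ?_ ?_; assumption) | with_reducible apply IntF.inl | with_reducible apply IntF.inr | with_reducible apply IntF.pair))) (IntF.const _)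

theorem int_gv (hW : IWo M lt) {f : FEq M α → IPm M α} (hf : IntF M f) :
    IntF M (fun s : IPow M (Ix M Λ × (α ⊕ IPm M α)) => gv lt l₀ f s) := by
  have hI1 := int_dm (M := M) (α := α) (ι := Ix M Λ)
  have hI2 := int_gB (M := M) (α := α) hW hf
  have hI3 := int_PB (M := M) (α := α) (ι := Ix M Λ)
  have hI4 := int_PX (M := M) (α := α) (int_ins0 (M := M) (Λ := Λ) l₀)
  have hI5 := int_Xd (M := M) (α := α) (l₀ := l₀) hW hf
  unfold gv
  (repeat' (first | with_reducible exact IntF.id | with_reducible exact IntF.fst' | with_reducible exact IntF.snd' | with_reducible exact IntF.const _ | with_reducible exact Int.const _ | assumption | with_reducible apply Int.and | with_reducible apply Int.or | with_reducible apply Int.not | with_reducible apply Int.imp | with_reducible apply Int.iff | with_reducible apply Int.ne | with_reducible apply Int.eq | with_reducible apply Int.mem | with_reducible apply Int.subset | with_reducible apply Int.ltN | with_reducible apply Int.leN | with_reducible apply Int.fin | with_reducible apply Int.unique | with_reducible apply Int.all | with_reducible apply Int.ex | with_reducible apply IntF.fst | with_reducible apply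 IntF.snd | with_reducible apply IntF.app | with_reducible apply IntF.ite | with_reducible apply IntF.sep | with_reducible apply IntF.lam | with_reducible apply IntF.insert | with_reducible apply IntF.singleton | with_reducible apply IntF.union | with_reducible apply IntF.inter | with_reducible apply IntF.sdiff | with_reducible apply IntF.isUnion | with_reducible apply IntF.iimage | with_reducible apply IntF.the | with_reducible apply IntF.irec | with_reducible_and_instances apply IntF.add | with_reducible_and_instances apply IntF.mul | with_reducible apply IntF.succ | with_reducible apply IntF.val | (with_reducible refine Int.comp ?_ ?_; assumption) | (with_reducible refine Int.comp₂ ?_ ?_ ?_; assumption) | (with_reducible refine Int.comp₃ ?_ ?_ ?_ ?_; assumption) | (with_reducible refine Int.comp₄ ?_ ?_ ?_ ?_ ?_; assumption) | (with_reducible refine IntF.comp ?_ ?_; assumption) | (with_reducible refine IntF.comp₂ ?_ ?_ ?_; assumption) | (with_reducible refine IntF.comp₃ ?_ ?_ ?_ ?_; assumption) | with_reducible apply IntF.inl | with_reducible apply IntF.inr | with_reducible apply IntF.pair))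

theorem gv_new (hW : IWo M lt) (h0 : ∀ l, ¬ lt l l₀) {f : FEq M α → IPm M α} (hf : IntF M f)
    (hinj : ∀ r r', f r = f r' → r = r') {s : IPow M (Ix M Λ × (α ⊕ IPm M α))}
    (hs : Valid (olt lt) s) {d : Fin 7 → Ix M Λ} (hd : Function.Injective d)
    (hdd : ∀ k, dm s (d k)) {j : Ix M Λ} (hj : Fst (olt lt) s j) :
    ¬ KK s (gv lt l₀ f s) := by
  have hI1 := int_dm (M := M) (α := α) (ι := Ix M Λ)
  have hI2 := int_NS (M := M) (α := α) (ι := Ix M Λ)
  have hI3 := int_KK (M := M) (α := α) (ι := Ix M Λ)
  have hI4 := int_PB (M := M) (α := α) (ι := Ix M Λ)
  unfold gv
  split_ifs with hfin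
  · have hfp : FinP M (fun i => dm s i) := ⟨_, hfin, fun i hi => (mem_sep (by (repeat' (first | with_reducible exact IntF.id | with_reducible exact IntF.fst' | with_reducible exact IntF.snd' | with_reducible exact IntF.const _ | with_reducible exact Int.const _ | assumption | with_reducible apply Int.and | with_reducible apply Int.or | with_reducible apply Int.not | with_reducible apply Int.imp | with_reducible apply Int.iff | with_reducible apply Int.ne | with_reducible apply Int.eq | with_reducible apply Int.mem | with_reducible apply Int.subset | with_reducible apply Int.ltN | with_reducible apply Int.leN | with_reducible apply Int.fin | with_reducible apply Int.unique | with_reducible apply Int.all | with_reducible apply Int.ex | with_reducible apply IntF.fst | with_reducible apply IntF.snd | with_reducible apply IntF.app | with_reducible apply IntF.ite | with_reducible apply IntF.sep | with_reducible apply IntF.lam | with_reducible apply IntF.insert | with_reducible apply IntF.singleton | with_reducible apply IntF.union | with_reducible apply IntF.inter | with_reducible apply IntF.sdiff | with_reducible apply IntF.isUnion | with_reducible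 apply IntF.iimage | with_reducible apply IntF.the | with_reducible apply IntF.irec | with_reducible_and_instances apply IntF.add | with_reducible_and_instances apply IntF.mul | with_reducible apply IntF.succ | with_reducible apply IntF.val | (with_reducible refine Int.comp ?_ ?_; assumption) | (with_reducible refine Int.comp₂ ?_ ?_ ?_; assumption) | (with_reducible refine Int.comp₃ ?_ ?_ ?_ ?_; assumption) | (with_reducible refine Int.comp₄ ?_ ?_ ?_ ?_ ?_; assumption) | (with_reducible refine IntF.comp ?_ ?_; assumption) | (with_reducible refine IntF.comp₂ ?_ ?_ ?_; assumption) | (with_reducible refine IntF.comp₃ ?_ ?_ ?_ ?_; assumption) | with_reducible apply IntF.inl | with_reducible apply IntF.inr | with_reducible apply IntF.pair)))).2 hi⟩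
    exact ((olt_iwo hW).fins.lst_spec (p := fun B : FinS M (Ix M Λ) =>
      NS s B.1 ∧ ¬ KK s (f (PB s B.1))) (by (repeat' (first | with_reducible exact IntF.id | with_reducible exact IntF.fst' | with_reducible exact IntF.snd' | with_reducible exact IntF.const _ | with_reducible exact Int.const _ | assumption | with_reducible apply Int.and | with_reducible apply Int.or | with_reducible apply Int.not | with_reducible apply Int.imp | with_reducible apply Int.iff | with_reducible apply Int.ne | with_reducible apply Int.eq | with_reducible apply Int.mem | with_reducible apply Int.subset | with_reducible apply Int.ltN | with_reducible apply Int.leN | with_reducible apply Int.fin | with_reducible apply Int.unique | with_reducible apply Int.all | with_reducible apply Int.ex | with_reducible apply IntF.fst | with_reducible apply IntF.snd | with_reducible apply IntF.app | with_reducible apply IntF.ite | with_reducible apply IntF.sep | with_reducible apply IntF.lam | with_reducible apply IntF.insert | with_reducible apply IntF.singleton | with_reducible apply IntF.union | with_reducible apply IntF.inter | with_reducible apply IntF.sdiff | with_reducible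 apply IntF.isUnion | with_reducible apply IntF.iimage | with_reducible apply IntF.the | with_reducible apply IntF.irec | with_reducible_and_instances apply IntF.add | with_reducible_and_instances apply IntF.mul | with_reducible apply IntF.succ | with_reducible apply IntF.val | (with_reducible refine Int.comp ?_ ?_; assumption) | (with_reducible refine Int.comp₂ ?_ ?_ ?_; assumption) | (with_reducible refine Int.comp₃ ?_ ?_ ?_ ?_; assumption) | (with_reducible refine Int.comp₄ ?_ ?_ ?_ ?_ ?_; assumption) | (with_reducible refine IntF.comp ?_ ?_; assumption) | (with_reducible refine IntF.comp₂ ?_ ?_ ?_; assumption) | (with_reducible refine IntF.comp₃ ?_ ?_ ?_ ?_; assumption) | with_reducible apply IntF.inl | with_reducible apply IntF.inr | with_reducible apply IntF.pair)))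
        (count (olt_iwo hW) hs hfp hd hdd hf hinj) _).2
  · have hne : ∃ q, q ∈ j.1 := by
      obtain ⟨a, ha, _⟩ := (hj (d 0)).1 (hdd 0)
      exact ⟨a, ha⟩
    obtain ⟨l, hl⟩ := exists_Top hW hne
    refine diag hW hf hinj hs hj hl ?_
    rcases hW.tri l₀ l with h | h | h
    · exact h
    · exfalso
      refine hfin (FinP.fin ?_ (by (repeat' (first | with_reducible exact IntF.id | with_reducible exact IntF.fst' | with_reducible exact IntF.snd' | with_reducible exact IntF.const _ | with_reducible exact Int.const _ | assumption | with_reducible apply Int.and | with_reducible apply Int.or | with_reducible apply Int.not | with_reducible apply Int.imp | with_reducible apply Int.iff | with_reducible apply Int.ne | with_reducible apply Int.eq | with_reducible apply Int.mem | with_reducible apply Int.subset | with_reducible apply Int.ltN | with_reducible apply Int.leN | with_reducible apply Int.fin | with_reducible apply Int.unique | with_reducible apply Int.all | with_reducible apply Int.ex | with_reducible apply IntF.fst | with_reducible apply IntF.snd | with_reducible apply IntF.app | with_reducible apply IntF.ite | with_reducible apply IntF.sep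 | with_reducible apply IntF.lam | with_reducible apply IntF.insert | with_reducible apply IntF.singleton | with_reducible apply IntF.union | with_reducible apply IntF.inter | with_reducible apply IntF.sdiff | with_reducible apply IntF.isUnion | with_reducible apply IntF.iimage | with_reducible apply IntF.the | with_reducible apply IntF.irec | with_reducible_and_instances apply IntF.add | with_reducible_and_instances apply IntF.mul | with_reducible apply IntF.succ | with_reducible apply IntF.val | (with_reducible refine Int.comp ?_ ?_; assumption) | (with_reducible refine Int.comp₂ ?_ ?_ ?_; assumption) | (with_reducible refine Int.comp₃ ?_ ?_ ?_ ?_; assumption) | (with_reducible refine Int.comp₄ ?_ ?_ ?_ ?_ ?_; assumption) | (with_reducible refine IntF.comp ?_ ?_; assumption) | (with_reducible refine IntF.comp₂ ?_ ?_ ?_; assumption) | (with_reducible refine IntF.comp₃ ?_ ?_ ?_ ?_; assumption) | with_reducible apply IntF.inl | with_reducible apply IntF.inr | with_reducible apply IntF.pair))))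
      refine (finP_below hW h0 (F := j) fun q hq => ?_).mono fun i hi => (hj i).1 hi
      rcases hW.tri l q.1 with h' | h' | h'
      · exact absurd h' (hl.2 q hq)
      · rw [← h', h]
      · rw [← h] at h'
        exact absurd h' (h0 _)
    · exact absurd h (h0 _)

end

/-- There is no injection from the finitary equivalence relations on an infinite set to the
3-cycles. -/
theorem no_inj_three (hinf : ¬ FinP M (fun _ : α => True)) {f : FEq M α → IPm M α}
    (hf : IntF M f) (hinj : ∀ r r', f r = f r' → r = r') (hthr : ∀ r, Thr (f r)) : False := by
  classical
  have hW := hlt_iwo (M := M) (α := α ⊕ IPm M α)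
  have hO := olt_iwo hW
  have hl := hO.int
  obtain ⟨l₀, -, h0⟩ := hW.least (p := fun _ => True) (Int.const _)
    ⟨⟨(hTw M (α ⊕ IPm M α)).b, Tw.Stg.base⟩, trivial⟩
  replace h0 : ∀ l, ¬ hlt l l₀ := fun l => h0 l trivial
  -- the first state
  have hD : IFin (sep M fun G => olt (hlt (M := M) (α := α ⊕ IPm M α)) G (sg l₀ (nn M 7))) :=
    (finP_below hW h0 fun q hq => by rw [mem_sg.1 hq]).fin (by (repeat' (first | with_reducible exact IntF.id | with_reducible exact IntF.fst' | with_reducible exact IntF.snd' | with_reducible exact IntF.const _ | with_reducible exact Int.const _ | assumption | with_reducible apply Int.and | with_reducible apply Int.or | with_reducible apply Int.not | with_reducible apply Int.imp | with_reducible apply Int.iff | with_reducible apply Int.ne | with_reducible apply Int.eq | with_reducible apply Int.mem | with_reducible apply Int.subset | with_reducible apply Int.ltN | with_reducible apply Int.leN | with_reducible apply Int.fin | with_reducible apply Int.unique | with_reducible apply Int.all | with_reducible apply Int.ex | with_reducible apply IntF.fst | with_reducible apply IntF.snd | with_reducible apply IntF.app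 | with_reducible apply IntF.ite | with_reducible apply IntF.sep | with_reducible apply IntF.lam | with_reducible apply IntF.insert | with_reducible apply IntF.singleton | with_reducible apply IntF.union | with_reducible apply IntF.inter | with_reducible apply IntF.sdiff | with_reducible apply IntF.isUnion | with_reducible apply IntF.iimage | with_reducible apply IntF.the | with_reducible apply IntF.irec | with_reducible_and_instances apply IntF.add | with_reducible_and_instances apply IntF.mul | with_reducible apply IntF.succ | with_reducible apply IntF.val | (with_reducible refine Int.comp ?_ ?_; assumption) | (with_reducible refine Int.comp₂ ?_ ?_ ?_; assumption) | (with_reducible refine Int.comp₃ ?_ ?_ ?_ ?_; assumption) | (with_reducible refine Int.comp₄ ?_ ?_ ?_ ?_ ?_; assumption) | (with_reducible refine IntF.comp ?_ ?_; assumption) | (with_reducible refine IntF.comp₂ ?_ ?_ ?_; assumption) | (with_reducible refine IntF.comp₃ ?_ ?_ ?_ ?_; assumption) | with_reducible apply IntF.inl | with_reducible apply IntF.inr | with_reducible apply IntF.pair)))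
  obtain ⟨e, he⟩ := exists_emb hinf hD
  have hDm : ∀ G, G ∈ (sep M fun G => olt (hlt (M := M) (α := α ⊕ IPm M α)) G (sg l₀ (nn M 7))) ↔
      olt hlt G (sg l₀ (nn M 7)) := fun G => mem_sep (by (repeat' (first | with_reducible exact IntF.id | with_reducible exact IntF.fst' | with_reducible exact IntF.snd' | with_reducible exact IntF.const _ | with_reducible exact Int.const _ | assumption | with_reducible apply Int.and | with_reducible apply Int.or | with_reducible apply Int.not | with_reducible apply Int.imp | with_reducible apply Int.iff | with_reducible apply Int.ne | with_reducible apply Int.eq | with_reducible apply Int.mem | with_reducible apply Int.subset | with_reducible apply Int.ltN | with_reducible apply Int.leN | with_reducible apply Int.fin | with_reducible apply Int.unique | with_reducible apply Int.all | with_reducible apply Int.ex | with_reducible apply IntF.fst | with_reducible apply IntF.snd | with_reducible apply IntF.app | with_reducible apply IntF.ite | with_reducible apply IntF.sep | with_reducible apply IntF.lam | with_reducible apply IntF.insert | with_reducible apply IntF.singleton | with_reducible apply IntF.union | with_reducible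 apply IntF.inter | with_reducible apply IntF.sdiff | with_reducible apply IntF.isUnion | with_reducible apply IntF.iimage | with_reducible apply IntF.the | with_reducible apply IntF.irec | with_reducible_and_instances apply IntF.add | with_reducible_and_instances apply IntF.mul | with_reducible apply IntF.succ | with_reducible apply IntF.val | (with_reducible refine Int.comp ?_ ?_; assumption) | (with_reducible refine Int.comp₂ ?_ ?_ ?_; assumption) | (with_reducible refine Int.comp₃ ?_ ?_ ?_ ?_; assumption) | (with_reducible refine Int.comp₄ ?_ ?_ ?_ ?_ ?_; assumption) | (with_reducible refine IntF.comp ?_ ?_; assumption) | (with_reducible refine IntF.comp₂ ?_ ?_ ?_; assumption) | (with_reducible refine IntF.comp₃ ?_ ?_ ?_ ?_; assumption) | with_reducible apply IntF.inl | with_reducible apply IntF.inr | with_reducible apply IntF.pair)))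
  set D := sep M fun G => olt (hlt (M := M) (α := α ⊕ IPm M α)) G (sg l₀ (nn M 7)) with hDdef
  have hs0I : Int M (fun q : Ix M (Hrt M (α ⊕ IPm M α)) × (α ⊕ IPm M α) =>
      ∃ i, i ∈ D ∧ q = (i, Sum.inl (e i))) := by (repeat' (first | with_reducible exact IntF.id | with_reducible exact IntF.fst' | with_reducible exact IntF.snd' | with_reducible exact IntF.const _ | with_reducible exact Int.const _ | assumption | with_reducible apply Int.and | with_reducible apply Int.or | with_reducible apply Int.not | with_reducible apply Int.imp | with_reducible apply Int.iff | with_reducible apply Int.ne | with_reducible apply Int.eq | with_reducible apply Int.mem | with_reducible apply Int.subset | with_reducible apply Int.ltN | with_reducible apply Int.leN | with_reducible apply Int.fin | with_reducible apply Int.unique | with_reducible apply Int.all | with_reducible apply Int.ex | with_reducible apply IntF.fst | with_reducible apply IntF.snd | with_reducible apply IntF.app | with_reducible apply IntF.ite | with_reducible apply IntF.sep | with_reducible apply IntF.lam | with_reducible apply IntF.insert | with_reducible apply IntF.singleton | with_reducible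 apply IntF.union | with_reducible apply IntF.inter | with_reducible apply IntF.sdiff | with_reducible apply IntF.isUnion | with_reducible apply IntF.iimage | with_reducible apply IntF.the | with_reducible apply IntF.irec | with_reducible_and_instances apply IntF.add | with_reducible_and_instances apply IntF.mul | with_reducible apply IntF.succ | with_reducible apply IntF.val | (with_reducible refine Int.comp ?_ ?_; assumption) | (with_reducible refine Int.comp₂ ?_ ?_ ?_; assumption) | (with_reducible refine Int.comp₃ ?_ ?_ ?_ ?_; assumption) | (with_reducible refine Int.comp₄ ?_ ?_ ?_ ?_ ?_; assumption) | (with_reducible refine IntF.comp ?_ ?_; assumption) | (with_reducible refine IntF.comp₂ ?_ ?_ ?_; assumption) | (with_reducible refine IntF.comp₃ ?_ ?_ ?_ ?_; assumption) | with_reducible apply IntF.inl | with_reducible apply IntF.inr | with_reducible apply IntF.pair))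
  have hs0 : ∀ i v, (i, v) ∈ sep M (fun q : Ix M (Hrt M (α ⊕ IPm M α)) × (α ⊕ IPm M α) =>
      ∃ i, i ∈ D ∧ q = (i, Sum.inl (e i))) ↔ i ∈ D ∧ v = Sum.inl (e i) := by
    intro i v
    rw [mem_sep hs0I]
    constructor
    · rintro ⟨j, hj, h⟩
      have h1 : i = j := congrArg Prod.fst h
      have h2 : v = Sum.inl (e j) := congrArg Prod.snd h
      rw [h1]
      exact ⟨hj, h2⟩
    · rintro ⟨hi, rfl⟩
      exact ⟨i, hi, rfl⟩
  set s₀ := sep M (fun q : Ix M (Hrt M (α ⊕ IPm M α)) × (α ⊕ IPm M α) =>
      ∃ i, i ∈ D ∧ q = (i, Sum.inl (e i))) with hs0def
  have hob : ∀ i x, ob s₀ i x → i ∈ D ∧ x = e i := by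
    rintro i x (h | ⟨ρ, h, _⟩)
    · obtain ⟨h1, h2⟩ := (hs0 _ _).1 h
      exact ⟨h1, Sum.inl_injective h2⟩
    · have := ((hs0 _ _).1 h.1).2
      exact absurd this (by simp)
  have hv0 : Valid (olt hlt) s₀ := by
    refine ⟨?_, ?_, ?_, ?_, ?_⟩
    · rintro i j ⟨v, hv⟩ hij
      have h1 := (hDm i).1 ((hs0 _ _).1 hv).1
      exact ⟨_, (hs0 _ _).2 ⟨(hDm j).2 (hO.tr _ _ _ hij h1), rfl⟩⟩
    · intro i x x' hx hx'
      rw [(hob i x (Or.inl hx)).2, (hob i x' (Or.inl hx')).2]
    · intro i ρ ρ' h
      exact absurd ((hs0 _ _).1 h).2 (by simp)
    · intro i ρ h
      exact absurd ((hs0 _ _).1 h).2 (by simp)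
    · intro i j x hi hj
      obtain ⟨h1, h2⟩ := hob i x hi
      obtain ⟨h3, h4⟩ := hob j x hj
      exact he i j h1 h3 (h2.symm.trans h4)
  -- seven indices
  have hd : Function.Injective (fun k : Fin 7 =>
      (sg l₀ (nn M k.1) : Ix M (Hrt M (α ⊕ IPm M α)))) := by
    intro a b hab
    have h1 : (l₀, nn M a.1) ∈ (sg l₀ (nn M b.1)).1 := by
      have : (sg l₀ (nn M a.1) : Ix M (Hrt M (α ⊕ IPm M α))) = sg l₀ (nn M b.1) := hab
      rw [← this]
      exact mem_sg.2 rfl
    have h2 : nn M a.1 = nn M b.1 := congrArg Prod.snd (mem_sg.1 h1)
    rcases Nat.lt_trichotomy a.1 b.1 with h3 | h3 | h3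
    · exact absurd (h2 ▸ nn_lt (M := M) h3) (lt_irrefl _)
    · exact Fin.ext h3
    · exact absurd (h2 ▸ nn_lt (M := M) h3) (lt_irrefl _)
  have hdd : ∀ s : IPow M (Ix M (Hrt M (α ⊕ IPm M α)) × (α ⊕ IPm M α)), s₀ ⊆ s →
      ∀ k : Fin 7, dm s (sg l₀ (nn M k.1)) := by
    intro s hs k
    exact ⟨_, hs _ ((hs0 _ _).2 ⟨(hDm _).2 (sg_lt hW (nn_lt k.2)), rfl⟩)⟩
  have hgI := int_gv (M := M) (α := α) (l₀ := l₀) hW hf
  have hFI := int_Fs (M := M) (α := α) hl
  have hVI := int_Valid (M := M) (α := α) hl
  have hthr' : ∀ s : IPow M (Ix M (Hrt M (α ⊕ IPm M α)) × (α ⊕ IPm M α)),
      Thr (gv hlt l₀ f s) := by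
    intro s
    unfold gv
    split_ifs
    · exact hthr _
    · exact hthr _
  obtain ⟨s, ⟨hv, hs⟩, hfix⟩ := bw_up (F := fun s => Fs (olt hlt) s (gv hlt l₀ f s))
    (Q := fun s => Valid (olt hlt) s ∧ s₀ ⊆ s) (bot := s₀) (by (repeat' (first | with_reducible exact IntF.id | with_reducible exact IntF.fst' | with_reducible exact IntF.snd' | with_reducible exact IntF.const _ | with_reducible exact Int.const _ | assumption | with_reducible apply Int.and | with_reducible apply Int.or | with_reducible apply Int.not | with_reducible apply Int.imp | with_reducible apply Int.iff | with_reducible apply Int.ne | with_reducible apply Int.eq | with_reducible apply Int.mem | with_reducible apply Int.subset | with_reducible apply Int.ltN | with_reducible apply Int.leN | with_reducible apply Int.fin | with_reducible apply Int.unique | with_reducible apply Int.all | with_reducible apply Int.ex | with_reducible apply IntF.fst | with_reducible apply IntF.snd | with_reducible apply IntF.app | with_reducible apply IntF.ite | with_reducible apply IntF.sep | with_reducible apply IntF.lam | with_reducible apply IntF.insert | with_reducible apply IntF.singleton | with_reducible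 apply IntF.union | with_reducible apply IntF.inter | with_reducible apply IntF.sdiff | with_reducible apply IntF.isUnion | with_reducible apply IntF.iimage | with_reducible apply IntF.the | with_reducible apply IntF.irec | with_reducible_and_instances apply IntF.add | with_reducible_and_instances apply IntF.mul | with_reducible apply IntF.succ | with_reducible apply IntF.val | (with_reducible refine Int.comp ?_ ?_; assumption) | (with_reducible refine Int.comp₂ ?_ ?_ ?_; assumption) | (with_reducible refine Int.comp₃ ?_ ?_ ?_ ?_; assumption) | (with_reducible refine Int.comp₄ ?_ ?_ ?_ ?_ ?_; assumption) | (with_reducible refine IntF.comp ?_ ?_; assumption) | (with_reducible refine IntF.comp₂ ?_ ?_ ?_; assumption) | (with_reducible refine IntF.comp₃ ?_ ?_ ?_ ?_; assumption) | with_reducible apply IntF.inl | with_reducible apply IntF.inr | with_reducible apply IntF.pair))) (by (repeat' (first | with_reducible exact IntF.id | with_reducible exact IntF.fst' | with_reducible exact IntF.snd' | with_reducible exact IntF.const _ | with_reducible exact Int.const _ | assumption | with_reducible apply Int.and | with_reducible apply Int.or | with_reducible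 apply Int.not | with_reducible apply Int.imp | with_reducible apply Int.iff | with_reducible apply Int.ne | with_reducible apply Int.eq | with_reducible apply Int.mem | with_reducible apply Int.subset | with_reducible apply Int.ltN | with_reducible apply Int.leN | with_reducible apply Int.fin | with_reducible apply Int.unique | with_reducible apply Int.all | with_reducible apply Int.ex | with_reducible apply IntF.fst | with_reducible apply IntF.snd | with_reducible apply IntF.app | with_reducible apply IntF.ite | with_reducible apply IntF.sep | with_reducible apply IntF.lam | with_reducible apply IntF.insert | with_reducible apply IntF.singleton | with_reducible apply IntF.union | with_reducible apply IntF.inter | with_reducible apply IntF.sdiff | with_reducible apply IntF.isUnion | with_reducible apply IntF.iimage | with_reducible apply IntF.the | with_reducible apply IntF.irec | with_reducible_and_instances apply IntF.add | with_reducible_and_instances apply IntF.mul | with_reducible apply IntF.succ | with_reducible apply IntF.val | (with_reducible refine Int.comp ?_ ?_; assumption) | (with_reducible refine Int.comp₂ ?_ ?_ ?_; assumption) |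 (with_reducible refine Int.comp₃ ?_ ?_ ?_ ?_; assumption) | (with_reducible refine Int.comp₄ ?_ ?_ ?_ ?_ ?_; assumption) | (with_reducible refine IntF.comp ?_ ?_; assumption) | (with_reducible refine IntF.comp₂ ?_ ?_ ?_; assumption) | (with_reducible refine IntF.comp₃ ?_ ?_ ?_ ?_; assumption) | with_reducible apply IntF.inl | with_reducible apply IntF.inr | with_reducible apply IntF.pair)))
    ⟨hv0, fun _ => id⟩
    (fun s ⟨hv, hs⟩ => by
      refine ⟨⟨valid_Fs hO hv (hthr' s) fun ⟨j, hj⟩ => gv_new hW h0 hf hinj hv hd (hdd s hs) hj,
        fun q hq => ?_⟩, fun q hq => ?_⟩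
      · exact (mem_Fs hl).2 (Or.inl (hs q hq))
      · exact (mem_Fs hl).2 (Or.inl hq))
    (fun C ⟨t, ht⟩ hC hch => ⟨valid_chain (fun s hs => (hC s hs).1) hch, fun q hq =>
      mem_isUnion.2 ⟨t, ht, (hC t ht).2 q hq⟩⟩)
  -- the domain is everything
  have hdmI := int_dm (M := M) (α := α) (ι := Ix M (Hrt M (α ⊕ IPm M α)))
  have hall : ∀ i, dm s i := by
    by_contra hc
    push Not at hc
    obtain ⟨i, h1, h2⟩ := hO.least (p := fun i => ¬ dm s i) (by (repeat' (first | with_reducible exact IntF.id | with_reducible exact IntF.fst' | with_reducible exact IntF.snd' | with_reducible exact IntF.const _ | with_reducible exact Int.const _ | assumption | with_reducible apply Int.and | with_reducible apply Int.or | with_reducible apply Int.not | with_reducible apply Int.imp | with_reducible apply Int.iff | with_reducible apply Int.ne | with_reducible apply Int.eq | with_reducible apply Int.mem | with_reducible apply Int.subset | with_reducible apply Int.ltN | with_reducible apply Int.leN | with_reducible apply Int.fin | with_reducible apply Int.unique | with_reducible apply Int.all | with_reducible apply Int.ex | with_reducible apply IntF.fst | with_reducible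 apply IntF.snd | with_reducible apply IntF.app | with_reducible apply IntF.ite | with_reducible apply IntF.sep | with_reducible apply IntF.lam | with_reducible apply IntF.insert | with_reducible apply IntF.singleton | with_reducible apply IntF.union | with_reducible apply IntF.inter | with_reducible apply IntF.sdiff | with_reducible apply IntF.isUnion | with_reducible apply IntF.iimage | with_reducible apply IntF.the | with_reducible apply IntF.irec | with_reducible_and_instances apply IntF.add | with_reducible_and_instances apply IntF.mul | with_reducible apply IntF.succ | with_reducible apply IntF.val | (with_reducible refine Int.comp ?_ ?_; assumption) | (with_reducible refine Int.comp₂ ?_ ?_ ?_; assumption) | (with_reducible refine Int.comp₃ ?_ ?_ ?_ ?_; assumption) | (with_reducible refine Int.comp₄ ?_ ?_ ?_ ?_ ?_; assumption) | (with_reducible refine IntF.comp ?_ ?_; assumption) | (with_reducible refine IntF.comp₂ ?_ ?_ ?_; assumption) | (with_reducible refine IntF.comp₃ ?_ ?_ ?_ ?_; assumption) | with_reducible apply IntF.inl | with_reducible apply IntF.inr | with_reducible apply IntF.pair))) hc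
    have h3 : Fst (olt hlt) s i := by
      intro j
      constructor
      · intro hj
        rcases hO.tri j i with h | h | h
        · exact h
        · rw [h] at hj
          exact absurd hj h1
        · exact absurd (hv.1 j i hj h) h1
      · intro hj
        by_contra hc
        exact h2 j hc hj
    exact Fs_ne hO hv (hthr' s) h3 (gv_new hW h0 hf hinj hv hd (hdd s hs) h3) hfix
  -- the injection
  have hne : Nonempty α := by
    by_contra h
    exact hinf ⟨∅, IFin.empty, fun x => absurd ⟨x⟩ h⟩
  obtain ⟨c⟩ := hne
  have hI1 := int_elt (M := M) (α := α) (ι := Ix M (Hrt M (α ⊕ IPm M α)))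
  have hI2 := int_cyc' (M := M) (α := α) (ι := Ix M (Hrt M (α ⊕ IPm M α)))
  have hex : ∀ i, ∃! v : α ⊕ IPm M α, (∃ x, v = Sum.inl x ∧ elt s i x) ∨
      ∃ ρ, v = Sum.inr ρ ∧ cyc' s i ρ := by
    intro i
    by_cases h1 : ∃ x, elt s i x
    · obtain ⟨x, hx⟩ := h1
      refine ⟨Sum.inl x, Or.inl ⟨x, rfl, hx⟩, ?_⟩
      rintro v (⟨y, rfl, hy⟩ | ⟨ρ, rfl, hρ⟩)
      · rw [hv.2.1 _ _ _ hx hy]
      · exact absurd ⟨x, hx⟩ hρ.2
    · obtain ⟨v, hv'⟩ := hall i
      rcases v with x | ρ
      · exact absurd ⟨x, hv'⟩ h1
      · refine ⟨Sum.inr ρ, Or.inr ⟨ρ, rfl, hv', h1⟩, ?_⟩
        rintro v (⟨y, rfl, hy⟩ | ⟨ρ', rfl, hρ⟩)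
        · exact absurd ⟨y, hy⟩ h1
        · rw [hv.2.2.1 _ _ _ hv' hρ.1]
  have hsg : IntF M (fun l : Hrt M (α ⊕ IPm M α) => sg (M := M) l 0) := by
    have h : IntF M (fun l : Hrt M (α ⊕ IPm M α) => (sg (M := M) l 0).1) := by
      unfold sg
      (repeat' (first | with_reducible exact IntF.id | with_reducible exact IntF.fst' | with_reducible exact IntF.snd' | with_reducible exact IntF.const _ | with_reducible exact Int.const _ | assumption | with_reducible apply Int.and | with_reducible apply Int.or | with_reducible apply Int.not | with_reducible apply Int.imp | with_reducible apply Int.iff | with_reducible apply Int.ne | with_reducible apply Int.eq | with_reducible apply Int.mem | with_reducible apply Int.subset | with_reducible apply Int.ltN | with_reducible apply Int.leN | with_reducible apply Int.fin | with_reducible apply Int.unique | with_reducible apply Int.all | with_reducible apply Int.ex | with_reducible apply IntF.fst | with_reducible apply IntF.snd | with_reducible apply IntF.app | with_reducible apply IntF.ite | with_reducible apply IntF.sep | with_reducible apply IntF.lam | with_reducible apply IntF.insert | with_reducible apply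 IntF.singleton | with_reducible apply IntF.union | with_reducible apply IntF.inter | with_reducible apply IntF.sdiff | with_reducible apply IntF.isUnion | with_reducible apply IntF.iimage | with_reducible apply IntF.the | with_reducible apply IntF.irec | with_reducible_and_instances apply IntF.add | with_reducible_and_instances apply IntF.mul | with_reducible apply IntF.succ | with_reducible apply IntF.val | (with_reducible refine Int.comp ?_ ?_; assumption) | (with_reducible refine Int.comp₂ ?_ ?_ ?_; assumption) | (with_reducible refine Int.comp₃ ?_ ?_ ?_ ?_; assumption) | (with_reducible refine Int.comp₄ ?_ ?_ ?_ ?_ ?_; assumption) | (with_reducible refine IntF.comp ?_ ?_; assumption) | (with_reducible refine IntF.comp₂ ?_ ?_ ?_; assumption) | (with_reducible refine IntF.comp₃ ?_ ?_ ?_ ?_; assumption) | with_reducible apply IntF.inl | with_reducible apply IntF.inr | with_reducible apply IntF.pair))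
    exact IntF.mk h
  have hjG : IntF M (fun G : Ix M (Hrt M (α ⊕ IPm M α)) => the (fun v : α ⊕ IPm M α =>
      (∃ x, v = Sum.inl x ∧ elt s G x) ∨ ∃ ρ, v = Sum.inr ρ ∧ cyc' s G ρ)
        (Sum.inl c)) := by (repeat' (first | with_reducible exact IntF.id | with_reducible exact IntF.fst' | with_reducible exact IntF.snd' | with_reducible exact IntF.const _ | with_reducible exact Int.const _ | assumption | with_reducible apply Int.and | with_reducible apply Int.or | with_reducible apply Int.not | with_reducible apply Int.imp | with_reducible apply Int.iff | with_reducible apply Int.ne | with_reducible apply Int.eq | with_reducible apply Int.mem | with_reducible apply Int.subset | with_reducible apply Int.ltN | with_reducible apply Int.leN | with_reducible apply Int.fin | with_reducible apply Int.unique | with_reducible apply Int.all | with_reducible apply Int.ex | with_reducible apply IntF.fst | with_reducible apply IntF.snd | with_reducible apply IntF.app | with_reducible apply IntF.ite | with_reducible apply IntF.sep | with_reducible apply IntF.lam | with_reducible apply IntF.insert | with_reducible apply IntF.singleton | with_reducible apply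 IntF.union | with_reducible apply IntF.inter | with_reducible apply IntF.sdiff | with_reducible apply IntF.isUnion | with_reducible apply IntF.iimage | with_reducible apply IntF.the | with_reducible apply IntF.irec | with_reducible_and_instances apply IntF.add | with_reducible_and_instances apply IntF.mul | with_reducible apply IntF.succ | with_reducible apply IntF.val | (with_reducible refine Int.comp ?_ ?_; assumption) | (with_reducible refine Int.comp₂ ?_ ?_ ?_; assumption) | (with_reducible refine Int.comp₃ ?_ ?_ ?_ ?_; assumption) | (with_reducible refine Int.comp₄ ?_ ?_ ?_ ?_ ?_; assumption) | (with_reducible refine IntF.comp ?_ ?_; assumption) | (with_reducible refine IntF.comp₂ ?_ ?_ ?_; assumption) | (with_reducible refine IntF.comp₃ ?_ ?_ ?_ ?_; assumption) | with_reducible apply IntF.inl | with_reducible apply IntF.inr | with_reducible apply IntF.pair))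
  have hjI : IntF M (fun l : Hrt M (α ⊕ IPm M α) => the (fun v : α ⊕ IPm M α =>
      (∃ x, v = Sum.inl x ∧ elt s (sg l 0) x) ∨ ∃ ρ, v = Sum.inr ρ ∧ cyc' s (sg l 0) ρ)
        (Sum.inl c)) := IntF.comp hjG hsg
  refine hartogs (α := α ⊕ IPm M α) _ hjI fun l l' h => ?_
  have h1 := the_spec (hex (sg l 0)) (d := Sum.inl c)
  have h2 := the_spec (hex (sg l' 0)) (d := Sum.inl c)
  rw [h] at h1
  have h3 : (sg l 0 : Ix M (Hrt M (α ⊕ IPm M α))) = sg l' 0 := by
    rcases h1 with ⟨x, hx, hx'⟩ | ⟨ρ, hρ, hρ'⟩ <;> rcases h2 with ⟨y, hy, hy'⟩ | ⟨τ, hτ, hτ'⟩
    · obtain rfl := Sum.inl_injective (hx.symm.trans hy)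
      exact hv.2.2.2.2 _ _ x (Or.inl hx') (Or.inl hy')
    · exact absurd (hx.symm.trans hτ) (by simp)
    · exact absurd (hρ.symm.trans hy) (by simp)
    · obtain rfl := Sum.inr_injective (hρ.symm.trans hτ)
      obtain ⟨x, hx⟩ := (hv.2.2.2.1 _ ρ hρ'.1).ne
      exact hv.2.2.2.2 _ _ x (Or.inr ⟨ρ, hρ', hx⟩) (Or.inr ⟨ρ, hτ', hx⟩)
  have h4 : (l, (0 : INat M)) ∈ (sg l' (0 : INat M)).1 := by
    rw [← h3]
    exact mem_sg.2 rfl
  exact congrArg Prod.fst (mem_sg.1 h4)

end Pool.Agent.R596
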